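import Mathlib

set_option autoImplicit false

/-!
# The entropy function `phi r x = r H(x/r)` (natural logarithms)
-/

namespace Pool.Agent.H.MP_82502e_co

open Real

/-- `phi r x = -x log x - (r-x) log (r-x) + r log r`. -/
noncomputable def phi (r x : ℝ) : ℝ := negMulLog x + negMulLog (r - x) - negMulLog r

/-- `phi r x = r * binEntropy (x / r)`. (Unfold; `log (x/r) = log x - log r` for `x ≠ 0`; the cases
`x = 0`, `x = r` separately.) -/
theorem phi_eq {r x : ℝ} (hr : 0 < r) : phi r x = r * binEntropy (x / r) := by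
  have hr0 : r ≠ 0 := hr.ne'
  have e1 : negMulLog x = x / r * negMulLog r + r * negMulLog (x / r) := by
    have h := negMulLog_mul r (x / r)
    rwa [mul_div_cancel₀ x hr0] at h
  have e2 : negMulLog (r - x) = (1 - x / r) * negMulLog r + r * negMulLog (1 - x / r) := by
    have h := negMulLog_mul r (1 - x / r)
    have h2 : r * (1 - x / r) = r - x := by field_simp
    rwa [h2] at h
  rw [phi, binEntropy_eq_negMulLog_add_negMulLog_one_sub, e1, e2]
  ring

theorem phi_zero_right (r : ℝ) : phi r 0 = 0 := by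
  simp [phi]

theorem phi_self (r : ℝ) : phi r r = 0 := by
  simp [phi]

/-- Homogeneity. -/
theorem phi_mul {c r x : ℝ} (hc : 0 ≤ c) (hx : 0 ≤ x) (hxr : x ≤ r) :
    phi (c * r) (c * x) = c * phi r x := by
  have e2 : c * r - c * x = c * (r - x) := by ring
  rw [phi, phi, e2, negMulLog_mul, negMulLog_mul, negMulLog_mul]
  ring

theorem phi_nonneg {r x : ℝ} (hx : 0 ≤ x) (hxr : x ≤ r) : 0 ≤ phi r x := by
  rcases (hx.trans hxr).eq_or_lt with h | h
  · have hx0 : x = 0 := le_antisymm (by rw [h]; exact hxr) hx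
    rw [hx0, phi_zero_right]
  · rw [phi_eq h]
    exact mul_nonneg h.le (binEntropy_nonneg (by positivity) ((div_le_one h).2 hxr))

/-- `binEntropy_le_log_two`. -/
theorem phi_le {r x : ℝ} (hx : 0 ≤ x) (hxr : x ≤ r) : phi r x ≤ r * log 2 := by
  rcases (hx.trans hxr).eq_or_lt with h | h
  · have hx0 : x = 0 := le_antisymm (by rw [h]; exact hxr) hx
    rw [hx0, phi_zero_right, ← h, zero_mul]
  · rw [phi_eq h]
    exact mul_le_mul_of_nonneg_left binEntropy_le_log_two h.le

theorem phi_half {r : ℝ} (hr : 0 ≤ r) : phi r (r / 2) = r * log 2 := by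
  rcases hr.eq_or_lt with h | h
  · rw [← h, zero_div, phi_zero_right, zero_mul]
  · have e : r / 2 / r = 2⁻¹ := by field_simp
    rw [phi_eq h, e, binEntropy_two_inv]

/-- Auxiliary: `H(p) ≥ log 2 - (2p-1)²`. -/
theorem Ent_binEntropy_ge {p : ℝ} (h0 : 0 ≤ p) (h1 : p ≤ 1) :
    log 2 - (2 * p - 1) ^ 2 ≤ binEntropy p := by
  have key : ∀ q : ℝ, 0 ≤ q → q * log 2 - q * (2 * q - 1) ≤ negMulLog q := by
    intro q hq
    rcases hq.eq_or_lt with h | h
    · rw [← h]; simp
    · have h3 : log (2 * q) ≤ 2 * q - 1 := log_le_sub_one_of_pos (by positivity)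
      rw [log_mul (by norm_num) h.ne'] at h3
      rw [negMulLog]
      nlinarith
  have a := key p h0
  have b := key (1 - p) (by linarith)
  rw [binEntropy_eq_negMulLog_add_negMulLog_one_sub]
  nlinarith

/-- With `p = x/r = 1/2 + y`: `H(p) = log 2 - (1/2+y) log (1+2y) - (1/2-y) log (1-2y)
≥ log 2 - (1/2+y)(2y) + (1/2-y)(2y) = log 2 - 4 y²` by `log t ≤ t - 1` (`y = ±1/2` separately). -/
theorem phi_quad {r x : ℝ} (hr : 0 < r) (hx : 0 ≤ x) (hxr : x ≤ r) :
    r * log 2 - 4 * (x - r / 2) ^ 2 / r ≤ phi r x := by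
  have hp0 : 0 ≤ x / r := by positivity
  have hp1 : x / r ≤ 1 := (div_le_one hr).2 hxr
  have key := Ent_binEntropy_ge hp0 hp1
  rw [phi_eq hr]
  have e : r * log 2 - 4 * (x - r / 2) ^ 2 / r = r * (log 2 - (2 * (x / r) - 1) ^ 2) := by
    field_simp
    ring
  rw [e]
  exact mul_le_mul_of_nonneg_left key hr.le

/-- Auxiliary: the quantitative monotonicity in `r`. -/
theorem Ent_gap {r r' x : ℝ} (hx : 0 ≤ x) (hxr : x ≤ r) (hr : r ≤ r') (hr' : 0 < r') :
    phi r x + (r' - r) * (x / r') ≤ phi r' x := by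
  have hcont : ContinuousOn (fun s : ℝ => negMulLog x + negMulLog (s - x) - negMulLog s)
      (Set.Icc r r') := by
    apply Continuous.continuousOn
    fun_prop
  have hder : ∀ s ∈ interior (Set.Icc r r'),
      HasDerivAt (fun s : ℝ => negMulLog x + negMulLog (s - x) - negMulLog s)
        (log s - log (s - x)) s := by
    intro s hs
    rw [interior_Icc] at hs
    have hs1 : s - x ≠ 0 := by
      have := hs.1
      exact ne_of_gt (by linarith)
    have hs2 : s ≠ 0 := by
      have := hs.1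
      exact ne_of_gt (by linarith)
    have d1 : HasDerivAt (fun s : ℝ => negMulLog (s - x)) (- log (s - x) - 1) s := by
      have h := (hasDerivAt_negMulLog hs1).comp s ((hasDerivAt_id s).sub_const x)
      rw [mul_one] at h
      exact h
    have d2 := hasDerivAt_negMulLog hs2
    have d3 := (d1.const_add (negMulLog x)).sub d2
    exact d3.congr_deriv (by ring)
  have hmain := Convex.mul_sub_le_image_sub_of_le_deriv (convex_Icc r r') hcont
    (fun s hs => (hder s hs).differentiableAt.differentiableWithinAt) (C := x / r')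
    (by
      intro s hs
      rw [(hder s hs).deriv]
      rw [interior_Icc] at hs
      have hs0 : 0 < s := by
        have := hs.1
        linarith
      have hs1 : 0 < s - x := by
        have := hs.1
        linarith
      have h3 : log ((s - x) / s) ≤ (s - x) / s - 1 := log_le_sub_one_of_pos (by positivity)
      rw [log_div hs1.ne' hs0.ne'] at h3
      have h4 : (s - x) / s - 1 = - (x / s) := by
        field_simp
        ring
      have h5 : x / r' ≤ x / s := div_le_div_of_nonneg_left hx hs0 hs.2.le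
      linarith)
    r ⟨le_rfl, hr⟩ r' ⟨hr, le_rfl⟩ hr
  rw [phi, phi]
  linarith

/-- Increasing in `r`: the derivative of `s ↦ phi s x` is `log (s/(s-x)) ≥ 0` for `s > x`. -/
theorem phi_mono_r {r r' x : ℝ} (hx : 0 ≤ x) (hxr : x ≤ r) (hr : r ≤ r') :
    phi r x ≤ phi r' x := by
  rcases hr.eq_or_lt with h | h
  · rw [h]
  · have hr0 : 0 < r' := lt_of_le_of_lt (hx.trans hxr) h
    have key := Ent_gap hx hxr hr hr0
    have h2 : 0 ≤ (r' - r) * (x / r') := mul_nonneg (by linarith) (by positivity)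
    linarith

/-- Quantitative: the derivative is `log (s/(s-x)) ≥ x/s ≥ x/r'` on `[r, r']`. -/
theorem phi_gap_r {r r' x : ℝ} (hx : 0 ≤ x) (hxr : x ≤ r) (hr : r ≤ r') (hr' : 0 < r') :
    phi r x + (r' - r) * (x / r') ≤ phi r' x := by
  exact Ent_gap hx hxr hr hr'

/-- Increasing in `x` on `[0, r/2]` (`binEntropy_strictMonoOn`). -/
theorem phi_mono_x {r x x' : ℝ} (hx : 0 ≤ x) (hxx : x ≤ x') (hx' : x' ≤ r / 2) :
    phi r x ≤ phi r x' := by
  rcases hxx.eq_or_lt with h | h
  · rw [h]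
  · have hr : 0 < r := by linarith
    rw [phi_eq hr, phi_eq hr]
    refine mul_le_mul_of_nonneg_left ?_ hr.le
    refine binEntropy_strictMonoOn.monotoneOn ⟨by positivity, ?_⟩ ⟨?_, ?_⟩ ?_
    · rw [div_le_iff₀ hr]; linarith
    · exact div_nonneg (hx.trans hxx) hr.le
    · rw [div_le_iff₀ hr]; linarith
    · exact div_le_div_of_nonneg_right hxx hr.le

/-- Strictly increasing in `x` on `[0, r/2]`. -/
theorem phi_strictMono_x {r x x' : ℝ} (hx : 0 ≤ x) (hxx : x < x') (hx' : x' ≤ r / 2) :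
    phi r x < phi r x' := by
  have hr : 0 < r := by linarith
  rw [phi_eq hr, phi_eq hr]
  refine mul_lt_mul_of_pos_left ?_ hr
  refine binEntropy_strictMonoOn ⟨by positivity, ?_⟩ ⟨?_, ?_⟩ ?_
  · rw [div_le_iff₀ hr]; linarith
  · exact div_nonneg (hx.trans hxx.le) hr.le
  · rw [div_le_iff₀ hr]; linarith
  · exact div_lt_div_of_pos_right hxx hr

/-- Decreasing in `x` on `[r/2, r]`. -/
theorem phi_anti_x {r x x' : ℝ} (hx : r / 2 ≤ x) (hxx : x ≤ x') (hx' : x' ≤ r) :
    phi r x' ≤ phi r x := by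
  rcases hxx.eq_or_lt with h | h
  · rw [h]
  · have hr : 0 < r := by linarith
    rw [phi_eq hr, phi_eq hr]
    refine mul_le_mul_of_nonneg_left ?_ hr.le
    refine binEntropy_strictAntiOn.antitoneOn ⟨?_, ?_⟩ ⟨?_, ?_⟩ ?_
    · rw [le_div_iff₀ hr]; linarith
    · rw [div_le_iff₀ hr]; linarith
    · rw [le_div_iff₀ hr]; linarith
    · rw [div_le_iff₀ hr]; linarith
    · exact div_le_div_of_nonneg_right hxx hr.le

/-- By concavity (`strictConcave_binEntropy.concaveOn`) between `1/2` and `1`: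
`H(p) ≥ 2 (1-p) log 2` for `p ≥ 1/2`. -/
theorem phi_lin {r x : ℝ} (hx : r / 2 ≤ x) (hxr : x ≤ r) :
    2 * (r - x) * log 2 ≤ phi r x := by
  rcases (by linarith : (0 : ℝ) ≤ r).eq_or_lt with h | h
  · have hx0 : x = 0 := by
      rw [← h] at hx hxr
      linarith
    rw [hx0, phi_zero_right, ← h]
    simp
  · have hp1 : 2⁻¹ ≤ x / r := by
      rw [le_div_iff₀ h]; linarith
    have hp2 : x / r ≤ 1 := (div_le_one h).2 hxr
    have hc := strictConcave_binEntropy.concaveOn
    have h1 : (2⁻¹ : ℝ) ∈ Set.Icc (0 : ℝ) 1 := ⟨by norm_num, by norm_num⟩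
    have h2 : (1 : ℝ) ∈ Set.Icc (0 : ℝ) 1 := ⟨by norm_num, by norm_num⟩
    have key := hc.2 h1 h2 (show (0 : ℝ) ≤ 2 * (1 - x / r) by linarith)
      (show (0 : ℝ) ≤ 2 * (x / r) - 1 by linarith) (by ring)
    simp only [smul_eq_mul, binEntropy_two_inv, binEntropy_one] at key
    have e : 2 * (1 - x / r) * 2⁻¹ + (2 * (x / r) - 1) * 1 = x / r := by ring
    rw [e] at key
    rw [phi_eq h]
    have e2 : 2 * (r - x) * log 2 = r * (2 * (1 - x / r) * log 2 + (2 * (x / r) - 1) * 0) := by
      field_simp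
      ring
    rw [e2]
    exact mul_le_mul_of_nonneg_left key h.le

/-- Uniform continuity (`negMulLog` is uniformly continuous on `[0,1]`,
`continuous_negMulLog`, `IsCompact.uniformContinuousOn_of_continuous`). -/
theorem phi_unif {ε : ℝ} (hε : 0 < ε) : ∃ Δ : ℝ, 0 < Δ ∧ ∀ r x r' x' : ℝ,
    0 ≤ x → x ≤ r → r ≤ 1 → 0 ≤ x' → x' ≤ r' → r' ≤ 1 → |r - r'| ≤ Δ → |x - x'| ≤ Δ →
    |phi r x - phi r' x'| ≤ ε := by
  have huc : UniformContinuousOn negMulLog (Set.Icc 0 1) :=
    isCompact_Icc.uniformContinuousOn_of_continuous continuous_negMulLog.continuousOn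
  rw [Metric.uniformContinuousOn_iff] at huc
  obtain ⟨δ, hδ, hu⟩ := huc (ε / 3) (by positivity)
  refine ⟨δ / 3, by positivity, ?_⟩
  intro r x r' x' hx hxr hr hx' hxr' hr' h1 h2
  have a1 := hu x ⟨hx, by linarith⟩ x' ⟨hx', by linarith⟩ (by
    rw [Real.dist_eq]; linarith)
  have a2 := hu r ⟨by linarith, hr⟩ r' ⟨by linarith, hr'⟩ (by
    rw [Real.dist_eq]; linarith)
  have a3 := hu (r - x) ⟨by linarith, by linarith⟩ (r' - x') ⟨by linarith, by linarith⟩ (by
    rw [Real.dist_eq]
    have h3 : |r - x - (r' - x')| ≤ |r - r'| + |x - x'| := by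
      have e : r - x - (r' - x') = (r - r') - (x - x') := by ring
      rw [e]
      exact abs_sub _ _
    linarith)
  rw [Real.dist_eq] at a1 a2 a3
  rw [phi, phi]
  rw [abs_lt] at a1 a2 a3
  rw [abs_le]
  constructor <;> linarith [a1.1, a1.2, a2.1, a2.2, a3.1, a3.2]

/-- If `phi r x ≥ g > 0` and `r ≤ 1` then `x` is bounded away from `0` and `r`: by `phi_unif` with
`phi r 0 = phi r r = 0`. -/
theorem phi_interior {g : ℝ} (hg : 0 < g) : ∃ c : ℝ, 0 < c ∧ ∀ r x : ℝ, 0 ≤ x → x ≤ r → r ≤ 1 →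
    g ≤ phi r x → c ≤ x ∧ c ≤ r - x := by
  obtain ⟨Δ, hΔ, hu⟩ := phi_unif (show (0 : ℝ) < g / 2 by positivity)
  refine ⟨Δ, hΔ, ?_⟩
  intro r x hx hxr hr hg1
  constructor
  · by_contra hlt
    push Not at hlt
    have h := hu r x r 0 hx hxr hr le_rfl (hx.trans hxr) hr (by simpa using hΔ.le)
      (by rw [sub_zero, abs_of_nonneg hx]; exact hlt.le)
    rw [phi_zero_right, sub_zero, abs_le] at h
    linarith [h.2]
  · by_contra hlt
    push Not at hlt
    have h := hu r x r r hx hxr hr (hx.trans hxr) le_rfl hr (by simpa using hΔ.le)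
      (by rw [abs_sub_comm, abs_of_nonneg (by linarith)]; exact hlt.le)
    rw [phi_self, sub_zero, abs_le] at h
    linarith [h.2]

/-- Auxiliary: `exp (- negMulLog K) = K ^ K`. -/
theorem Ent_exp_neg (K : ℕ) : exp (- negMulLog (K : ℝ)) = (K : ℝ) ^ K := by
  rcases Nat.eq_zero_or_pos K with h | h
  · subst h; simp
  · have hK : (0 : ℝ) < K := by exact_mod_cast h
    rw [negMulLog, neg_mul, neg_neg, mul_comm, exp_mul, exp_log hK, rpow_natCast]

/-- Auxiliary: the denominator is positive. -/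
theorem Ent_pos (K M : ℕ) : (0 : ℝ) < (K : ℝ) ^ K * (M : ℝ) ^ M := by
  have h : ∀ K : ℕ, (0 : ℝ) < (K : ℝ) ^ K := by
    intro K
    rw [← Ent_exp_neg]
    exact exp_pos _
  exact mul_pos (h K) (h M)

/-- Auxiliary: `exp (phi N K) = N^N / (K^K (N-K)^(N-K))`. -/
theorem Ent_exp_phi {N K : ℕ} (h : K ≤ N) :
    exp (phi N K) = (N : ℝ) ^ N / ((K : ℝ) ^ K * ((N - K : ℕ) : ℝ) ^ (N - K)) := by
  have e : phi N K = - negMulLog (N : ℝ) - (- negMulLog (K : ℝ) + - negMulLog ((N - K : ℕ) : ℝ)) := by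
    rw [phi, Nat.cast_sub h]
    ring
  rw [e, exp_sub, exp_add, Ent_exp_neg, Ent_exp_neg, Ent_exp_neg]

/-- Auxiliary: `choose N K * (K^K (N-K)^(N-K)) ≤ N^N`. -/
theorem Ent_choose_mul_le {N K : ℕ} (h : K ≤ N) :
    N.choose K * (K ^ K * (N - K) ^ (N - K)) ≤ N ^ N := by
  have hb := add_pow K (N - K) N
  rw [Nat.add_sub_cancel' h] at hb
  rw [hb]
  have hmem : K ∈ Finset.range (N + 1) := Finset.mem_range.2 (by omega)
  have := Finset.single_le_sum (f := fun m => K ^ m * (N - K) ^ (N - m) * N.choose m)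
    (fun i _ => Nat.zero_le _) hmem
  refine le_trans (le_of_eq ?_) this
  ring

/-- Auxiliary: the largest term of the binomial expansion of `(K + (N-K))^N`. -/
theorem Ent_term_le {N K : ℕ} (h : K ≤ N) (j : ℕ) (hj : j ≤ N) :
    K ^ j * (N - K) ^ (N - j) * N.choose j ≤ K ^ K * (N - K) ^ (N - K) * N.choose K := by
  have rel : ∀ i < N, (K ^ (i + 1) * (N - K) ^ (N - (i + 1)) * N.choose (i + 1)) *
      ((N - K) * (i + 1)) = (K ^ i * (N - K) ^ (N - i) * N.choose i) * (K * (N - i)) := by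
    intro i hi
    have e : N - i = N - (i + 1) + 1 := by omega
    have h2 := Nat.choose_succ_right_eq N i
    calc (K ^ (i + 1) * (N - K) ^ (N - (i + 1)) * N.choose (i + 1)) * ((N - K) * (i + 1))
        = K ^ (i + 1) * (N - K) ^ (N - (i + 1) + 1) * (N.choose (i + 1) * (i + 1)) := by ring
      _ = K ^ (i + 1) * (N - K) ^ (N - i) * (N.choose i * (N - i)) := by rw [h2, ← e]
      _ = _ := by ring
  rcases le_total j K with hjK | hjK
  · -- increasing up to K
    have up : ∀ d : ℕ, d ≤ K → K ^ (K - d) * (N - K) ^ (N - (K - d)) * N.choose (K - d) ≤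
        K ^ K * (N - K) ^ (N - K) * N.choose K := by
      intro d
      induction d with
      | zero => intro _; simp
      | succ d ih =>
        intro hd
        refine le_trans ?_ (ih (by omega))
        obtain ⟨i, hi⟩ : ∃ i, i = K - (d + 1) := ⟨_, rfl⟩
        have hi2 : K - d = i + 1 := by omega
        rw [← hi, hi2]
        have hiK : i + 1 ≤ K := by omega
        have r := rel i (by omega)
        have hpos : 0 < K * (N - i) := Nat.mul_pos (by omega) (by omega)
        have hle : (N - K) * (i + 1) ≤ K * (N - i) := by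
          rw [mul_comm K]
          exact Nat.mul_le_mul (by omega) hiK
        refine Nat.le_of_mul_le_mul_right ?_ hpos
        rw [← r]
        exact Nat.mul_le_mul_left _ hle
    have := up (K - j) (by omega)
    have e : K - (K - j) = j := by omega
    rwa [e] at this
  · have down : ∀ d : ℕ, K + d ≤ N → K ^ (K + d) * (N - K) ^ (N - (K + d)) * N.choose (K + d) ≤
        K ^ K * (N - K) ^ (N - K) * N.choose K := by
      intro d
      induction d with
      | zero => intro _; simp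
      | succ d ih =>
        intro hd
        refine le_trans ?_ (ih (by omega))
        obtain ⟨i, hi⟩ : ∃ i, i = K + d := ⟨_, rfl⟩
        have hi2 : K + (d + 1) = i + 1 := by omega
        rw [← hi, hi2]
        have r := rel i (by omega)
        have hpos : 0 < (N - K) * (i + 1) := Nat.mul_pos (by omega) (by omega)
        have hle : K * (N - i) ≤ (N - K) * (i + 1) := by
          rw [mul_comm K]
          exact Nat.mul_le_mul (by omega) (by omega)
        refine Nat.le_of_mul_le_mul_right ?_ hpos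
        rw [r]
        exact Nat.mul_le_mul_left _ hle
    have := down (j - K) (by omega)
    have e : K + (j - K) = j := by omega
    rwa [e] at this

/-- Auxiliary: `N^N ≤ (N+1) choose N K * (K^K (N-K)^(N-K))`. -/
theorem Ent_le_choose_mul {N K : ℕ} (h : K ≤ N) :
    N ^ N ≤ (N + 1) * (N.choose K * (K ^ K * (N - K) ^ (N - K))) := by
  have hb := add_pow K (N - K) N
  rw [Nat.add_sub_cancel' h] at hb
  rw [hb]
  have hle : ∀ j ∈ Finset.range (N + 1), K ^ j * (N - K) ^ (N - j) * N.choose j ≤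
      K ^ K * (N - K) ^ (N - K) * N.choose K := by
    intro j hj
    exact Ent_term_le h j (by have := Finset.mem_range.1 hj; omega)
  have := Finset.sum_le_card_nsmul (Finset.range (N + 1))
    (fun m => K ^ m * (N - K) ^ (N - m) * N.choose m) _ hle
  rw [Finset.card_range, smul_eq_mul] at this
  refine le_trans this (le_of_eq ?_)
  ring

/-- Upper bound for binomials: with `p = K/N`,
`1 = (p + (1-p))^N ≥ choose N K * p^K (1-p)^(N-K) = choose N K * exp (- phi N K)`. -/
theorem choose_le_exp {N K : ℕ} (h : K ≤ N) : (N.choose K : ℝ) ≤ exp (phi N K) := by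
  rw [Ent_exp_phi h, le_div_iff₀ (Ent_pos K (N - K))]
  have h1 := Ent_choose_mul_le h
  have h2 : ((N.choose K * (K ^ K * (N - K) ^ (N - K)) : ℕ) : ℝ) ≤ ((N ^ N : ℕ) : ℝ) := by
    exact_mod_cast h1
  push_cast at h2
  exact h2

/-- Lower bound: among the `N+1` terms `t_j = choose N j * p^j (1-p)^(N-j)` (sum `1`) the term `j = K`
is the largest for `p = K/N` (`t_{j+1}/t_j = (N-j) p / ((j+1)(1-p))` is `≥ 1` iff `j + 1 ≤ K + p`), so it is
at least `1/(N+1)`. -/
theorem exp_le_choose {N K : ℕ} (h : K ≤ N) : exp (phi N K) ≤ (N + 1) * (N.choose K : ℝ) := by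
  rw [Ent_exp_phi h, div_le_iff₀ (Ent_pos K (N - K))]
  have h1 := Ent_le_choose_mul h
  have h2 : ((N ^ N : ℕ) : ℝ) ≤ (((N + 1) * (N.choose K * (K ^ K * (N - K) ^ (N - K))) : ℕ) : ℝ) := by
    exact_mod_cast h1
  push_cast at h2
  rw [mul_assoc]
  exact h2

/-- Auxiliary: scaling. -/
theorem Ent_scaled {N K n : ℕ} (h : K ≤ N) (hn : 0 < n) :
    phi (N : ℝ) (K : ℝ) = (n : ℝ) ^ 2 * phi (N / (n : ℝ) ^ 2) (K / (n : ℝ) ^ 2) := by
  have hn' : (0 : ℝ) < (n : ℝ) ^ 2 := by positivity
  have hNK : (K : ℝ) ≤ N := by exact_mod_cast h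
  rw [← phi_mul hn'.le (by positivity) (div_le_div_of_nonneg_right hNK hn'.le),
    mul_div_cancel₀ _ hn'.ne', mul_div_cancel₀ _ hn'.ne']

/-- Scaled form: `choose N K ≤ exp (n² phi (N/n²) (K/n²))`. -/
theorem choose_le_exp_scaled {N K n : ℕ} (h : K ≤ N) (hn : 0 < n) :
    (N.choose K : ℝ) ≤ exp ((n : ℝ) ^ 2 * phi (N / (n : ℝ) ^ 2) (K / (n : ℝ) ^ 2)) := by
  rw [← Ent_scaled h hn]
  exact choose_le_exp h

theorem exp_scaled_le_choose {N K n : ℕ} (h : K ≤ N) (hn : 0 < n) :
    exp ((n : ℝ) ^ 2 * phi (N / (n : ℝ) ^ 2) (K / (n : ℝ) ^ 2)) ≤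
      (N + 1) * (N.choose K : ℝ) := by
  rw [← Ent_scaled h hn]
  exact exp_le_choose h

/-- `choose (N-f) K ≤ choose N K * (1 - K/N)^f`: factor by factor,
`choose (M-1) K = choose M K * (M-K)/M` and `(M-K)/M ≤ (N-K)/N` for `M ≤ N`. -/
theorem choose_sub_le {N K f : ℕ} (hN : 0 < N) (hK : K ≤ N) :
    ((N - f).choose K : ℝ) ≤ (N.choose K : ℝ) * (1 - (K : ℝ) / N) ^ f := by
  have hN' : (0 : ℝ) < N := by exact_mod_cast hN
  have hK' : (K : ℝ) ≤ N := by exact_mod_cast hK
  have hq : 0 ≤ 1 - (K : ℝ) / N := by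
    rw [sub_nonneg]; exact (div_le_one hN').2 hK'
  induction f with
  | zero => simp
  | succ f ih =>
    have step : ((N - (f + 1)).choose K : ℝ) ≤ ((N - f).choose K : ℝ) * (1 - (K : ℝ) / N) := by
      obtain ⟨M, hM⟩ : ∃ M, M = N - f := ⟨_, rfl⟩
      have hMN : M ≤ N := by omega
      have e : N - (f + 1) = M - 1 := by omega
      rw [e, ← hM]
      rcases Nat.eq_zero_or_pos M with h0 | h0
      · subst h0
        rcases Nat.eq_zero_or_pos K with hK0 | hK0
        · subst hK0; simp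
        · rw [Nat.zero_sub, Nat.choose_eq_zero_of_lt hK0]; simp
      · obtain ⟨m, rfl⟩ : ∃ m, M = m + 1 := ⟨M - 1, by omega⟩
        rw [Nat.add_sub_cancel]
        rcases Nat.lt_or_ge m K with hlt | hge
        · rw [Nat.choose_eq_zero_of_lt hlt]
          simp only [Nat.cast_zero]
          positivity
        · have h1 : (m.choose K : ℝ) * (m + 1) = ((m + 1).choose K : ℝ) * (m + 1 - K) := by
            have h := Nat.choose_mul_succ_eq m K
            have h' : ((m.choose K * (m + 1) : ℕ) : ℝ) = (((m + 1).choose K * (m + 1 - K) : ℕ) : ℝ) := by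
              exact_mod_cast h
            rw [Nat.cast_mul, Nat.cast_mul, Nat.cast_sub (by omega)] at h'
            push_cast at h'
            exact h'
          have hm : (0 : ℝ) < (m : ℝ) + 1 := by positivity
          have h2 : (m.choose K : ℝ) = ((m + 1).choose K : ℝ) * (1 - K / ((m : ℝ) + 1)) := by
            field_simp
            linarith
          rw [h2]
          refine mul_le_mul_of_nonneg_left ?_ (by positivity)
          have hMN' : (m : ℝ) + 1 ≤ N := by exact_mod_cast hMN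
          have h3 : (K : ℝ) / N ≤ K / ((m : ℝ) + 1) := div_le_div_of_nonneg_left (by positivity) hm hMN'
          linarith
    calc ((N - (f + 1)).choose K : ℝ) ≤ ((N - f).choose K : ℝ) * (1 - (K : ℝ) / N) := step
      _ ≤ ((N.choose K : ℝ) * (1 - (K : ℝ) / N) ^ f) * (1 - (K : ℝ) / N) :=
        mul_le_mul_of_nonneg_right ih hq
      _ = (N.choose K : ℝ) * (1 - (K : ℝ) / N) ^ (f + 1) := by ring

/-- `choose (N-g) (K-g) ≤ choose N K * (K/N)^g` for `g ≤ K`. -/
theorem choose_sub_sub_le {N K g : ℕ} (hN : 0 < N) (hK : K ≤ N) (hg : g ≤ K) :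
    ((N - g).choose (K - g) : ℝ) ≤ (N.choose K : ℝ) * ((K : ℝ) / N) ^ g := by
  have hN' : (0 : ℝ) < N := by exact_mod_cast hN
  have hK' : (K : ℝ) ≤ N := by exact_mod_cast hK
  have hq : 0 ≤ (K : ℝ) / N := by positivity
  induction g with
  | zero => simp
  | succ g ih =>
    have ih' := ih (by omega)
    have step : ((N - (g + 1)).choose (K - (g + 1)) : ℝ) ≤
        ((N - g).choose (K - g) : ℝ) * ((K : ℝ) / N) := by
      obtain ⟨m, hm⟩ : ∃ m, N - g = m + 1 := ⟨N - g - 1, by omega⟩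
      obtain ⟨j, hj⟩ : ∃ j, K - g = j + 1 := ⟨K - g - 1, by omega⟩
      have e1 : N - (g + 1) = m := by omega
      have e2 : K - (g + 1) = j := by omega
      rw [e1, e2, hm, hj]
      have h1 : ((m : ℝ) + 1) * (m.choose j : ℝ) = ((m + 1).choose (j + 1) : ℝ) * ((j : ℝ) + 1) := by
        exact_mod_cast Nat.add_one_mul_choose_eq m j
      have hmp : (0 : ℝ) < (m : ℝ) + 1 := by positivity
      have h2 : (m.choose j : ℝ) = ((m + 1).choose (j + 1) : ℝ) * (((j : ℝ) + 1) / ((m : ℝ) + 1)) := by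
        field_simp
        linarith
      rw [h2]
      refine mul_le_mul_of_nonneg_left ?_ (by positivity)
      rw [div_le_div_iff₀ hmp hN']
      have eN : (N : ℝ) = m + 1 + g := by
        have : N = m + 1 + g := by omega
        exact_mod_cast this
      have eK : (K : ℝ) = j + 1 + g := by
        have : K = j + 1 + g := by omega
        exact_mod_cast this
      have hjm : (j : ℝ) ≤ m := by
        have : j ≤ m := by omega
        exact_mod_cast this
      rw [eN, eK]
      have hg0 : (0 : ℝ) ≤ g := Nat.cast_nonneg g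
      nlinarith [mul_le_mul_of_nonneg_right hjm hg0]
    calc ((N - (g + 1)).choose (K - (g + 1)) : ℝ)
        ≤ ((N - g).choose (K - g) : ℝ) * ((K : ℝ) / N) := step
      _ ≤ ((N.choose K : ℝ) * ((K : ℝ) / N) ^ g) * ((K : ℝ) / N) :=
        mul_le_mul_of_nonneg_right ih' hq
      _ = (N.choose K : ℝ) * ((K : ℝ) / N) ^ (g + 1) := by ring

/-- Numerical: `H(7/8) ≥ (13/25) log 2`: `H(7/8) = 3 log 2 - (7/8) log 7` and
`log 7 ≤ (17/6) log 2` since `7^6 ≤ 2^17`. -/
theorem binEntropy_seven_eighths : (13 / 25 : ℝ) * log 2 ≤ binEntropy (7 / 8) := by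
  have h7 : log 7 ≤ 17 / 6 * log 2 := by
    have h : log ((7 : ℝ) ^ 6) ≤ log ((2 : ℝ) ^ 17) := log_le_log (by norm_num) (by norm_num)
    rw [log_pow, log_pow] at h
    push_cast at h
    linarith
  have h2 : 0 < log 2 := log_pos (by norm_num)
  have h8 : log 8 = 3 * log 2 := by
    rw [show (8 : ℝ) = 2 ^ 3 by norm_num, log_pow]
    norm_num
  have e1 : log (7 / 8 : ℝ) = log 7 - 3 * log 2 := by
    rw [log_div (by norm_num) (by norm_num), h8]
  have e2 : log (1 - 7 / 8 : ℝ) = - (3 * log 2) := by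
    rw [show (1 - 7 / 8 : ℝ) = (8 : ℝ)⁻¹ by norm_num, log_inv, h8]
  rw [binEntropy_eq_negMulLog_add_negMulLog_one_sub, negMulLog, negMulLog, e1, e2]
  linarith

/-- Numerical: `H(1/4) ≥ (4/5) log 2`: `H(1/4) = 2 log 2 - (3/4) log 3` and
`3^17 = 129140163 ≤ 2^27 = 134217728`, so `log 3 ≤ (27/17) log 2` and
`H(1/4) ≥ (2 - 81/68) log 2 = (55/68) log 2 ≥ (4/5) log 2`. -/
theorem binEntropy_quarter : (4 / 5 : ℝ) * log 2 ≤ binEntropy (1 / 4) := by
  have h3 : log 3 ≤ 27 / 17 * log 2 := by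
    have h : log ((3 : ℝ) ^ 17) ≤ log ((2 : ℝ) ^ 27) := log_le_log (by norm_num) (by norm_num)
    rw [log_pow, log_pow] at h
    push_cast at h
    linarith
  have h2 : 0 < log 2 := log_pos (by norm_num)
  have h4 : log 4 = 2 * log 2 := by
    rw [show (4 : ℝ) = 2 ^ 2 by norm_num, log_pow]
    norm_num
  have e1 : log (1 / 4 : ℝ) = - (2 * log 2) := by
    rw [log_div (by norm_num) (by norm_num), h4, log_one]
    ring
  have e2 : log (1 - 1 / 4 : ℝ) = log 3 - 2 * log 2 := by
    rw [show (1 - 1 / 4 : ℝ) = 3 / 4 by norm_num, log_div (by norm_num) (by norm_num), h4]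
  rw [binEntropy_eq_negMulLog_add_negMulLog_one_sub, negMulLog, negMulLog, e1, e2]
  linarith

end Pool.Agent.H.MP_82502e_co
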