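import Pool.Agent.H.MP_82502e_co.Ident

set_option autoImplicit false

/-!
# Relabelling
-/

namespace Pool.Agent.H.MP_82502e_co

open Finset

variable {n : ℕ}

theorem mem_relab {e : Equiv.Perm (Fin n)} {S : Finset (Fin n × Fin n)} {p : Fin n × Fin n} :
    p ∈ relab e S ↔ (e.symm p.1, e.symm p.2) ∈ S := by
  unfold relab
  rw [mem_map_equiv]
  rfl

theorem card_relab (e : Equiv.Perm (Fin n)) (S : Finset (Fin n × Fin n)) :
    (relab e S).card = S.card := by
  unfold relab
  rw [card_map]

theorem relab_injective (e : Equiv.Perm (Fin n)) : Function.Injective (relab e) := by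
  unfold relab
  exact map_injective _

theorem isPO_relab {e : Equiv.Perm (Fin n)} {S : Finset (Fin n × Fin n)} (h : IsPO S) :
    IsPO (relab e S) := by
  refine ⟨fun i hi => ?_, fun i j l hij hjl => ?_⟩
  · rw [mem_relab] at hi
    exact h.1 _ hi
  · rw [mem_relab] at hij hjl ⊢
    exact h.2 _ _ _ hij hjl

theorem add_relab (e : Equiv.Perm (Fin n)) (S : Finset (Fin n × Fin n)) :
    Add (relab e S) = relab e (Add S) := by
  ext p
  rw [mem_Add, mem_relab (S := Add S), mem_Add]
  simp only [mem_relab]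
  rw [ne_eq, ne_eq, e.symm.injective.eq_iff,
    e.symm.surjective.forall (p := fun z => (z, e.symm p.1) ∈ S → (z, e.symm p.2) ∈ S),
    e.symm.surjective.forall (p := fun z => (e.symm p.2, z) ∈ S → (e.symm p.1, z) ∈ S)]

theorem cov_relab (e : Equiv.Perm (Fin n)) (S : Finset (Fin n × Fin n)) :
    Cov (relab e S) = relab e (Cov S) := by
  ext p
  rw [mem_Cov, mem_relab (S := Cov S), mem_Cov]
  simp only [mem_relab]
  rw [e.symm.surjective.forall (p := fun z => ¬ ((e.symm p.1, z) ∈ S ∧ (z, e.symm p.2) ∈ S))]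

/-- Every strict partial order has a natural labelling: order the points by the number of elements
below; `x < y` in `S` implies `|D(x)| < |D(y)|`. -/
theorem exists_nat_relab {S : Finset (Fin n × Fin n)} (h : IsPO S) :
    ∃ e : Equiv.Perm (Fin n), Nat' (relab e S) := by
  obtain ⟨f, hf⟩ : ∃ f : Fin n → ℕ, f = fun x => (Dn S x).card := ⟨_, rfl⟩
  have h1 : ∀ x y, (x, y) ∈ S → f x < f y := by
    intro x y hxy
    rw [hf]
    refine card_lt_card ?_
    rw [ssubset_iff_of_subset fun w hw => mem_Dn.2 (h.2 w x y (mem_Dn.1 hw) hxy)]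
    exact ⟨x, mem_Dn.2 hxy, fun hc => h.1 x (mem_Dn.1 hc)⟩
  refine ⟨(Tuple.sort f).symm, fun p hp => ?_⟩
  rw [mem_relab, Equiv.symm_symm] at hp
  by_contra hc
  rw [not_lt] at hc
  have h2 := Tuple.monotone_sort f hc
  exact absurd (h1 _ _ hp) (not_lt.2 h2)

open scoped Classical in
/-- Transfer to natural labellings. `S ↦ (e_S, relab e_S S)` is injective on `PO n k`, where `e_S` is chosen by
`exists_nat_relab`; `Fintype.card (Equiv.Perm (Fin n)) = n!`. -/
theorem card_filter_le (k : ℕ) (Q : Finset (Fin n × Fin n) → Prop)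
    (hQ : ∀ (e : Equiv.Perm (Fin n)) S, IsPO S → Q S → Q (relab e S)) :
    ((PO n k).filter Q).card ≤
      n.factorial * ((PO n k).filter fun S => Nat' S ∧ Q S).card := by
  have h1 : ∀ S : Finset (Fin n × Fin n), ∃ e : Equiv.Perm (Fin n), IsPO S → Nat' (relab e S) := by
    intro S
    by_cases h : IsPO S
    · obtain ⟨e, he⟩ := exists_nat_relab h
      exact ⟨e, fun _ => he⟩
    · exact ⟨1, fun h' => absurd h' h⟩
  choose E hE using h1
  have h2 : ((PO n k).filter Q).card ≤ ((univ : Finset (Equiv.Perm (Fin n))) ×ˢ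
      ((PO n k).filter fun S => Nat' S ∧ Q S)).card := by
    refine card_le_card_of_injOn (fun S => (E S, relab (E S) S)) (fun S hS => ?_) ?_
    · rw [mem_coe, mem_filter, mem_PO] at hS
      obtain ⟨⟨hS1, hS2⟩, hS3⟩ := hS
      rw [mem_coe, mem_product, mem_filter, mem_PO]
      exact ⟨mem_univ _, ⟨isPO_relab hS1, by rw [card_relab, hS2]⟩, hE S hS1, hQ _ S hS1 hS3⟩
    · intro S _ S' _ h
      have ha : E S = E S' := congrArg Prod.fst h
      have hb : relab (E S) S = relab (E S') S' := congrArg Prod.snd h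
      rw [← ha] at hb
      exact relab_injective _ hb
  rw [card_product, card_univ, Fintype.card_perm, Fintype.card_fin] at h2
  exact h2

end Pool.Agent.H.MP_82502e_co
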