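import Pool.Agent.H.MP_82502e_co.TypesA

set_option autoImplicit false

/-!
# The type lemma (Szemeredi regularity)
-/

namespace Pool.Agent.H.MP_82502e_co

open Finset

/-- Colours of pairs: random, (almost) full, (almost) empty, exceptional. -/
inductive Col | R | O | Z | E
  deriving DecidableEq, Fintype

/-- The upward pairs of colour `a`. -/
def cpairs {n : ℕ} (c : Fin n × Fin n → Col) (a : Col) : Finset (Fin n × Fin n) :=
  univ.filter fun p => p.1 < p.2 ∧ c p = a

/-- The closure property of a colouring. -/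
def Closed {n : ℕ} (c : Fin n × Fin n → Col) : Prop :=
  ∀ x y z, x < y → y < z → (c (x, y) = Col.R ∨ c (x, y) = Col.O) →
    (c (y, z) = Col.R ∨ c (y, z) = Col.O) → (c (x, z) = Col.O ∨ c (x, z) = Col.E)

/-- `c` is a type of `S` with error `η`. -/
structure IsType {n : ℕ} (η : ℝ) (S : Finset (Fin n × Fin n)) (c : Fin n × Fin n → Col) :
    Prop where
  z_le : ((S ∩ cpairs c Col.Z).card : ℝ) ≤ η * (n : ℝ) ^ 2
  o_le : ((cpairs c Col.O \ S).card : ℝ) ≤ η * (n : ℝ) ^ 2
  e_le : ((cpairs c Col.E).card : ℝ) ≤ η * (n : ℝ) ^ 2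
  closed : Closed c

theorem IsType.mono {n : ℕ} {η η' : ℝ} (h : η ≤ η') {S : Finset (Fin n × Fin n)}
    {c : Fin n × Fin n → Col} (hc : IsType η S c) : IsType η' S c := by
  have h1 : η * (n : ℝ) ^ 2 ≤ η' * (n : ℝ) ^ 2 := mul_le_mul_of_nonneg_right h (by positivity)
  exact ⟨hc.z_le.trans h1, hc.o_le.trans h1, hc.e_le.trans h1, hc.closed⟩

/-- The comparability graph. -/
def cgr {n : ℕ} (S : Finset (Fin n × Fin n)) : SimpleGraph (Fin n) :=
  SimpleGraph.fromRel fun x y => (x, y) ∈ S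

theorem cgr_adj {n : ℕ} {S : Finset (Fin n × Fin n)} (hN : Nat' S) {x y : Fin n} (h : x < y) :
    (cgr S).Adj x y ↔ (x, y) ∈ S := by
  unfold cgr
  rw [SimpleGraph.fromRel_adj]
  constructor
  · rintro ⟨_, h1 | h1⟩
    · exact h1
    · exact absurd (hN _ h1) (not_lt.2 h.le)
  · exact fun h1 => ⟨h.ne, Or.inl h1⟩

section Tab

variable {n M L : ℕ} (G : SimpleGraph (Fin n)) [DecidableRel G.Adj]

open Classical in
/-- The table of a family of parts. -/
noncomputable def tabF (ε ε' θ : ℝ) (pt : Fin M → Finset (Fin n)) (g : Fin n → Fin L) :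
    Fin M → Fin L → Fin M → Fin L → Col := fun i a j b =>
  if a < b ∧ i ≠ j ∧ G.IsUniform ε (pt i) (pt j) ∧
      ε' * (pt i).card ≤ ((pt i).filter fun x => g x = a).card ∧
      ε' * (pt j).card ≤ ((pt j).filter fun x => g x = b).card then
    (if (G.edgeDensity (pt i) (pt j) : ℝ) < θ then Col.Z
      else if 1 - θ < (G.edgeDensity (pt i) (pt j) : ℝ) then Col.O else Col.R)
  else Col.E

/-- the good cells -/
def Good (ε ε' : ℝ) (pt : Fin M → Finset (Fin n)) (g : Fin n → Fin L) (i : Fin M) (a : Fin L)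
    (j : Fin M) (b : Fin L) : Prop :=
  a < b ∧ i ≠ j ∧ G.IsUniform ε (pt i) (pt j) ∧
      ε' * (pt i).card ≤ ((pt i).filter fun x => g x = a).card ∧
      ε' * (pt j).card ≤ ((pt j).filter fun x => g x = b).card

variable {G} {ε ε' θ : ℝ} {pt : Fin M → Finset (Fin n)} {g : Fin n → Fin L}

theorem tabF_E {i : Fin M} {a : Fin L} {j : Fin M} {b : Fin L} :
    tabF G ε ε' θ pt g i a j b = Col.E ↔ ¬ Good G ε ε' pt g i a j b := by
  unfold tabF Good
  constructor
  · intro h h1
    rw [if_pos h1] at h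
    split_ifs at h
  · intro h
    rw [if_neg h]

theorem tabF_Z {i : Fin M} {a : Fin L} {j : Fin M} {b : Fin L}
    (h : tabF G ε ε' θ pt g i a j b = Col.Z) :
    Good G ε ε' pt g i a j b ∧ (G.edgeDensity (pt i) (pt j) : ℝ) < θ := by
  unfold tabF at h
  split_ifs at h with h1 h2
  exact ⟨h1, h2⟩

theorem tabF_O {i : Fin M} {a : Fin L} {j : Fin M} {b : Fin L}
    (h : tabF G ε ε' θ pt g i a j b = Col.O) :
    Good G ε ε' pt g i a j b ∧ 1 - θ < (G.edgeDensity (pt i) (pt j) : ℝ) := by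
  unfold tabF at h
  split_ifs at h with h1 h2 h3
  exact ⟨h1, h3⟩

theorem tabF_RO {i : Fin M} {a : Fin L} {j : Fin M} {b : Fin L} (hθ : θ ≤ 1 / 2)
    (h : tabF G ε ε' θ pt g i a j b = Col.R ∨ tabF G ε ε' θ pt g i a j b = Col.O) :
    Good G ε ε' pt g i a j b ∧ θ ≤ (G.edgeDensity (pt i) (pt j) : ℝ) := by
  rcases h with h | h
  · unfold tabF at h
    split_ifs at h with h1 h2 h3
    exact ⟨h1, not_lt.1 h2⟩
  · have h1 := tabF_O h
    exact ⟨h1.1, by linarith [h1.2]⟩

theorem tabF_big {i : Fin M} {a : Fin L} {j : Fin M} {b : Fin L} (hθ : θ ≤ 1 / 2)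
    (h1 : Good G ε ε' pt g i a j b) (h2 : 1 - θ < (G.edgeDensity (pt i) (pt j) : ℝ)) :
    tabF G ε ε' θ pt g i a j b = Col.O := by
  unfold tabF
  rw [if_pos (show a < b ∧ i ≠ j ∧ G.IsUniform ε (pt i) (pt j) ∧
      ε' * (pt i).card ≤ ((pt i).filter fun x => g x = a).card ∧
      ε' * (pt j).card ≤ ((pt j).filter fun x => g x = b).card from h1),
    if_neg (by linarith), if_pos h2]

end Tab

/-- the data of the regular partition -/
structure RPart {n M L : ℕ} (S : Finset (Fin n × Fin n)) (G : SimpleGraph (Fin n))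
    [DecidableRel G.Adj] (η ε ε' θ : ℝ) (f : Fin n → Fin M)
    (pt : Fin M → Finset (Fin n)) (g : Fin n → Fin L) : Prop where
  po : IsPO S
  nat : Nat' S
  adj : ∀ x y, x < y → (G.Adj x y ↔ (x, y) ∈ S)
  η0 : 0 < η
  ε0 : 0 < ε
  ε'0 : 0 < ε'
  ε'1 : ε' ≤ 1
  εε' : ε ≤ ε'
  θ1 : θ ≤ 1 / 2
  θ2 : θ + ε ≤ η
  τ1 : 2 * ε ≤ ε' * θ
  τ2 : 1 - θ ≤ 1 - 2 * ε / ε' - ε
  Lε : L * ε' = η / 16
  mem : ∀ x, x ∈ pt (f x)
  eq : ∀ x i, x ∈ pt i → f x = i
  mono : ∀ x y, x ≤ y → g x ≤ g y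
  itv : ((((univ : Finset (Fin n × Fin n)).filter fun p => p.1 < p.2 ∧
      g p.1 = g p.2).card : ℕ) : ℝ) ≤ η / 8 * (n : ℝ) ^ 2
  same : ((((univ : Finset (Fin n × Fin n)).filter fun p => p.1 < p.2 ∧
      f p.1 = f p.2).card : ℕ) : ℝ) ≤ η / 8 * (n : ℝ) ^ 2

section RP

variable {n M L : ℕ} {S : Finset (Fin n × Fin n)} {G : SimpleGraph (Fin n)}
    [DecidableRel G.Adj] {η ε ε' θ : ℝ} {f : Fin n → Fin M}
    {pt : Fin M → Finset (Fin n)} {g : Fin n → Fin L}

theorem RPart.cell (h : RPart S G η ε ε' θ f pt g) (i : Fin M) (a : Fin L) :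
    (univ.filter fun x : Fin n => (f x, g x) = (i, a)) = (pt i).filter fun x => g x = a := by
  ext x
  rw [Finset.mem_filter, Finset.mem_filter, Prod.mk.injEq]
  constructor
  · rintro ⟨_, h1, h2⟩
    exact ⟨h1 ▸ h.mem x, h2⟩
  · rintro ⟨h1, h2⟩
    exact ⟨Finset.mem_univ _, h.eq x i h1, h2⟩

theorem RPart.dens (h : RPart S G η ε ε' θ f pt g) (i : Fin M) (a : Fin L) (j : Fin M)
    (b : Fin L) (hg : Good G ε ε' pt g i a j b) :
    |(G.edgeDensity ((pt i).filter fun x => g x = a) ((pt j).filter fun x => g x = b) : ℝ) -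
        (G.edgeDensity (pt i) (pt j) : ℝ)| < ε := by
  obtain ⟨_, _, hu, h1, h2⟩ := hg
  refine hu (Finset.filter_subset _ _) (Finset.filter_subset _ _) (le_trans ?_ h1)
    (le_trans ?_ h2)
  · rw [mul_comm]
    exact mul_le_mul_of_nonneg_right h.εε' (Nat.cast_nonneg _)
  · rw [mul_comm]
    exact mul_le_mul_of_nonneg_right h.εε' (Nat.cast_nonneg _)

theorem RPart.lt (h : RPart S G η ε ε' θ f pt g) {x y : Fin n} (hxy : g x < g y) : x < y := by
  by_contra h1
  exact absurd (h.mono _ _ (not_lt.1 h1)) (not_le.2 hxy)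

theorem RPart.z_le (h : RPart S G η ε ε' θ f pt g) :
    ((S ∩ cpairs (fun p => tabF G ε ε' θ pt g (f p.1) (g p.1) (f p.2) (g p.2)) Col.Z).card : ℝ) ≤
      η * (n : ℝ) ^ 2 := by
  classical
  refine tA_cells (fun x => (f x, g x)) _ ?_
  rintro ⟨i, a⟩ ⟨j, b⟩
  rw [h.cell, h.cell]
  set A := (pt i).filter fun x => g x = a with hA
  set B := (pt j).filter fun x => g x = b with hB
  have hAB : (0 : ℝ) ≤ (A.card : ℝ) * B.card := mul_nonneg (Nat.cast_nonneg _) (Nat.cast_nonneg _)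
  by_cases hT : tabF G ε ε' θ pt g i a j b = Col.Z
  · obtain ⟨h1, h2⟩ := tabF_Z hT
    have h3 := (abs_lt.1 (h.dens i a j b h1)).2
    have h4 : ((S ∩ cpairs (fun p => tabF G ε ε' θ pt g (f p.1) (g p.1) (f p.2) (g p.2))
        Col.Z).filter fun p => (f p.1, g p.1) = (i, a) ∧ (f p.2, g p.2) = (j, b)) ⊆
        G.interedges A B := by
      rintro ⟨x, y⟩ hp
      rw [Finset.mem_filter, Finset.mem_inter] at hp
      obtain ⟨⟨h5, h6⟩, h7, h8⟩ := hp
      rw [SimpleGraph.mem_interedges_iff]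
      have h9 : x ∈ A := by
        rw [hA, ← h.cell]
        exact Finset.mem_filter.2 ⟨Finset.mem_univ _, h7⟩
      have h10 : y ∈ B := by
        rw [hB, ← h.cell]
        exact Finset.mem_filter.2 ⟨Finset.mem_univ _, h8⟩
      exact ⟨h9, h10, (h.adj _ _ (h.nat _ h5)).2 h5⟩
    have h5 : (((S ∩ cpairs (fun p => tabF G ε ε' θ pt g (f p.1) (g p.1) (f p.2) (g p.2))
        Col.Z).filter fun p => (f p.1, g p.1) = (i, a) ∧ (f p.2, g p.2) = (j, b)).card : ℝ) ≤
        (G.interedges A B).card := by exact_mod_cast Finset.card_le_card h4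
    rw [← tA_dens] at h5
    refine h5.trans (mul_le_mul_of_nonneg_right ?_ hAB)
    linarith [h.θ2]
  · have h4 : ((S ∩ cpairs (fun p => tabF G ε ε' θ pt g (f p.1) (g p.1) (f p.2) (g p.2))
        Col.Z).filter fun p => (f p.1, g p.1) = (i, a) ∧ (f p.2, g p.2) = (j, b)) = ∅ := by
      rw [Finset.eq_empty_iff_forall_notMem]
      rintro ⟨x, y⟩ hp
      rw [Finset.mem_filter, Finset.mem_inter] at hp
      obtain ⟨⟨h5, h6⟩, h7, h8⟩ := hp
      have h9 := (Finset.mem_filter.1 h6).2.2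
      apply hT
      rw [Prod.mk.injEq] at h7 h8
      rw [← h7.1, ← h7.2, ← h8.1, ← h8.2]
      exact h9
    rw [h4, Finset.card_empty, Nat.cast_zero]
    exact mul_nonneg h.η0.le hAB

theorem RPart.o_le (h : RPart S G η ε ε' θ f pt g) :
    ((cpairs (fun p => tabF G ε ε' θ pt g (f p.1) (g p.1) (f p.2) (g p.2)) Col.O \ S).card : ℝ) ≤
      η * (n : ℝ) ^ 2 := by
  classical
  refine tA_cells (fun x => (f x, g x)) _ ?_
  rintro ⟨i, a⟩ ⟨j, b⟩
  rw [h.cell, h.cell]
  set A := (pt i).filter fun x => g x = a with hA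
  set B := (pt j).filter fun x => g x = b with hB
  have hAB : (0 : ℝ) ≤ (A.card : ℝ) * B.card := mul_nonneg (Nat.cast_nonneg _) (Nat.cast_nonneg _)
  by_cases hT : tabF G ε ε' θ pt g i a j b = Col.O
  · obtain ⟨h1, h2⟩ := tabF_O hT
    have h3 := (abs_lt.1 (h.dens i a j b h1)).1
    have h4 : ((cpairs (fun p => tabF G ε ε' θ pt g (f p.1) (g p.1) (f p.2) (g p.2))
        Col.O \ S).filter fun p => (f p.1, g p.1) = (i, a) ∧ (f p.2, g p.2) = (j, b)) ⊆
        (A ×ˢ B) \ G.interedges A B := by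
      rintro ⟨x, y⟩ hp
      rw [Finset.mem_filter, Finset.mem_sdiff] at hp
      obtain ⟨⟨h5, h6⟩, h7, h8⟩ := hp
      have h9 : x ∈ A := by
        rw [hA, ← h.cell]
        exact Finset.mem_filter.2 ⟨Finset.mem_univ _, h7⟩
      have h10 : y ∈ B := by
        rw [hB, ← h.cell]
        exact Finset.mem_filter.2 ⟨Finset.mem_univ _, h8⟩
      have h11 : x < y := (Finset.mem_filter.1 h5).2.1
      rw [Finset.mem_sdiff, Finset.mem_product, SimpleGraph.mem_interedges_iff]
      refine ⟨⟨h9, h10⟩, fun h12 => h6 ?_⟩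
      exact (h.adj _ _ h11).1 h12.2.2
    have h5 : (((cpairs (fun p => tabF G ε ε' θ pt g (f p.1) (g p.1) (f p.2) (g p.2))
        Col.O \ S).filter fun p => (f p.1, g p.1) = (i, a) ∧ (f p.2, g p.2) = (j, b)).card : ℝ) ≤
        ((A ×ˢ B) \ G.interedges A B).card := by exact_mod_cast Finset.card_le_card h4
    have h6 : G.interedges A B ⊆ A ×ˢ B := by
      rintro ⟨x, y⟩ hp
      rw [SimpleGraph.mem_interedges_iff] at hp
      exact Finset.mem_product.2 ⟨hp.1, hp.2.1⟩
    have h7 : (((A ×ˢ B) \ G.interedges A B).card : ℝ) =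
        (A.card : ℝ) * B.card - (G.interedges A B).card := by
      have h71 := Finset.card_sdiff_add_card_eq_card h6
      rw [Finset.card_product] at h71
      have h72 : (((A ×ˢ B) \ G.interedges A B).card : ℝ) + (G.interedges A B).card =
        (A.card : ℝ) * B.card := by exact_mod_cast h71
      linarith
    rw [h7, ← tA_dens] at h5
    refine h5.trans ?_
    have h8 := h.θ2
    set d := (G.edgeDensity A B : ℝ) with hd
    have h9 : 1 - d ≤ η := by linarith
    have h10 := mul_le_mul_of_nonneg_right h9 hAB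
    linarith
  · have h4 : ((cpairs (fun p => tabF G ε ε' θ pt g (f p.1) (g p.1) (f p.2) (g p.2))
        Col.O \ S).filter fun p => (f p.1, g p.1) = (i, a) ∧ (f p.2, g p.2) = (j, b)) = ∅ := by
      rw [Finset.eq_empty_iff_forall_notMem]
      rintro ⟨x, y⟩ hp
      rw [Finset.mem_filter, Finset.mem_sdiff] at hp
      obtain ⟨⟨h5, h6⟩, h7, h8⟩ := hp
      have h9 := (Finset.mem_filter.1 h5).2.2
      apply hT
      rw [Prod.mk.injEq] at h7 h8
      rw [← h7.1, ← h7.2, ← h8.1, ← h8.2]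
      exact h9
    rw [h4, Finset.card_empty, Nat.cast_zero]
    exact mul_nonneg h.η0.le hAB

/-- the points in small cells -/
theorem RPart.small (h : RPart S G η ε ε' θ f pt g) (sm : Fin n → Prop) [DecidablePred sm]
    (hsm : ∀ x, sm x → (((pt (f x)).filter fun y => g y = g x).card : ℝ) < ε' * (pt (f x)).card) :
    (((univ : Finset (Fin n)).filter sm).card : ℝ) ≤ η / 16 * n := by
  classical
  have h1 : ((univ : Finset (Fin n)).filter sm).card =
      ∑ q : Fin M × Fin L,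
        (((univ : Finset (Fin n)).filter sm).filter fun x => (f x, g x) = q).card :=
    Finset.card_eq_sum_card_fiberwise fun p _ => Finset.mem_univ _
  have h2 : ∀ i a, ((((univ : Finset (Fin n)).filter sm).filter
      fun x => (f x, g x) = (i, a)).card : ℝ) ≤ ε' * (pt i).card := by
    intro i a
    by_cases h3 : (((univ : Finset (Fin n)).filter sm).filter
        fun x => (f x, g x) = (i, a)).Nonempty
    · obtain ⟨x, hx⟩ := h3
      rw [Finset.mem_filter, Finset.mem_filter, Prod.mk.injEq] at hx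
      obtain ⟨⟨_, hx1⟩, hx2, hx3⟩ := hx
      have h4 : (((univ : Finset (Fin n)).filter sm).filter
          fun x => (f x, g x) = (i, a)) ⊆ (pt i).filter fun x => g x = a := by
        rw [← h.cell]
        intro y hy
        rw [Finset.mem_filter] at hy
        exact Finset.mem_filter.2 ⟨Finset.mem_univ _, hy.2⟩
      have h5 : ((((univ : Finset (Fin n)).filter sm).filter
          fun x => (f x, g x) = (i, a)).card : ℝ) ≤ ((pt i).filter fun x => g x = a).card := by
        exact_mod_cast Finset.card_le_card h4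
      have h6 := hsm x hx1
      rw [hx2, hx3] at h6
      linarith
    · rw [Finset.not_nonempty_iff_eq_empty] at h3
      rw [h3, Finset.card_empty, Nat.cast_zero]
      exact mul_nonneg h.ε'0.le (Nat.cast_nonneg _)
  have h3 : ∑ i, ((pt i).card : ℝ) = n := by
    have h4 : (univ : Finset (Fin n)).card = ∑ i, (univ.filter fun x => f x = i).card :=
      Finset.card_eq_sum_card_fiberwise fun p _ => Finset.mem_univ _
    rw [Finset.card_univ, Fintype.card_fin] at h4
    have h5 : ∀ i, (univ.filter fun x : Fin n => f x = i) = pt i := by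
      intro i
      ext x
      rw [Finset.mem_filter]
      exact ⟨fun h' => h'.2 ▸ h.mem x, fun h' => ⟨Finset.mem_univ _, h.eq x i h'⟩⟩
    simp only [h5] at h4
    exact_mod_cast h4.symm
  rw [h1]
  push_cast
  rw [Fintype.sum_prod_type]
  calc ∑ i, ∑ a, ((((univ : Finset (Fin n)).filter sm).filter
      fun x => (f x, g x) = (i, a)).card : ℝ) ≤ ∑ i, ∑ _a : Fin L, ε' * ((pt i).card : ℝ) :=
        Finset.sum_le_sum fun i _ => Finset.sum_le_sum fun a _ => h2 i a
    _ = L * ε' * ∑ i, ((pt i).card : ℝ) := by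
        simp only [Finset.sum_const, Finset.card_univ, Fintype.card_fin, nsmul_eq_mul]
        rw [Finset.mul_sum]
        refine Finset.sum_congr rfl fun i _ => ?_
        ring
    _ = η / 16 * n := by rw [h.Lε, h3]

theorem RPart.e_le (h : RPart S G η ε ε' θ f pt g) (N : Finset (Fin n × Fin n))
    (hN : ∀ x y, f x ≠ f y → ¬ G.IsUniform ε (pt (f x)) (pt (f y)) → (x, y) ∈ N)
    (hN2 : (N.card : ℝ) ≤ η / 8 * (n : ℝ) ^ 2) :
    ((cpairs (fun p => tabF G ε ε' θ pt g (f p.1) (g p.1) (f p.2) (g p.2)) Col.E).card : ℝ) ≤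
      η * (n : ℝ) ^ 2 := by
  classical
  let sm : Fin n → Prop := fun x =>
    (((pt (f x)).filter fun y => g y = g x).card : ℝ) < ε' * (pt (f x)).card
  have hsm := h.small sm (fun x hx => hx)
  set Sm := (univ : Finset (Fin n)).filter sm with hSm
  set E1 := ((univ : Finset (Fin n × Fin n)).filter fun p => p.1 < p.2 ∧ g p.1 = g p.2) with hE1
  set E2 := ((univ : Finset (Fin n × Fin n)).filter fun p => p.1 < p.2 ∧ f p.1 = f p.2) with hE2
  have hsub : cpairs (fun p => tabF G ε ε' θ pt g (f p.1) (g p.1) (f p.2) (g p.2)) Col.E ⊆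
      ((E1 ∪ E2) ∪ N) ∪ ((Sm ×ˢ univ) ∪ (univ ×ˢ Sm)) := by
    rintro ⟨x, y⟩ hp
    have h1 : x < y := (Finset.mem_filter.1 hp).2.1
    have h2 : tabF G ε ε' θ pt g (f x) (g x) (f y) (g y) = Col.E := (Finset.mem_filter.1 hp).2.2
    rw [tabF_E] at h2
    by_cases h3 : g x < g y
    · by_cases h4 : f x = f y
      · refine Finset.mem_union_left _ (Finset.mem_union_left _ (Finset.mem_union_right _ ?_))
        exact Finset.mem_filter.2 ⟨Finset.mem_univ _, h1, h4⟩
      · by_cases h5 : G.IsUniform ε (pt (f x)) (pt (f y))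
        · by_cases h6 : sm x
          · exact Finset.mem_union_right _ (Finset.mem_union_left _
              (Finset.mem_product.2 ⟨Finset.mem_filter.2 ⟨Finset.mem_univ _, h6⟩,
                Finset.mem_univ _⟩))
          · by_cases h7 : sm y
            · exact Finset.mem_union_right _ (Finset.mem_union_right _
                (Finset.mem_product.2 ⟨Finset.mem_univ _,
                  Finset.mem_filter.2 ⟨Finset.mem_univ _, h7⟩⟩))
            · exact absurd ⟨h3, h4, h5, not_lt.1 h6, not_lt.1 h7⟩ h2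
        · exact Finset.mem_union_left _ (Finset.mem_union_right _ (hN x y h4 h5))
    · refine Finset.mem_union_left _ (Finset.mem_union_left _ (Finset.mem_union_left _ ?_))
      exact Finset.mem_filter.2 ⟨Finset.mem_univ _, h1,
        le_antisymm (h.mono _ _ h1.le) (not_lt.1 h3)⟩
  have c1 : (E1.card : ℝ) ≤ η / 8 * (n : ℝ) ^ 2 := h.itv
  have c2 : (E2.card : ℝ) ≤ η / 8 * (n : ℝ) ^ 2 := h.same
  have k1 := (Finset.card_le_card hsub).trans (Finset.card_union_le _ _)
  have k2 := Finset.card_union_le (E1 ∪ E2) N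
  have k3 := Finset.card_union_le E1 E2
  have k4 := Finset.card_union_le (Sm ×ˢ (univ : Finset (Fin n))) ((univ : Finset (Fin n)) ×ˢ Sm)
  rw [Finset.card_product, Finset.card_product, Finset.card_univ, Fintype.card_fin] at k4
  have k5 : (cpairs (fun p => tabF G ε ε' θ pt g (f p.1) (g p.1) (f p.2) (g p.2)) Col.E).card ≤
      E1.card + E2.card + N.card + (Sm.card * n + n * Sm.card) := by omega
  have k6 : ((cpairs (fun p => tabF G ε ε' θ pt g (f p.1) (g p.1) (f p.2) (g p.2))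
      Col.E).card : ℝ) ≤
      E1.card + E2.card + N.card + ((Sm.card : ℝ) * n + n * Sm.card) := by exact_mod_cast k5
  have hn : (0 : ℝ) ≤ n := Nat.cast_nonneg _
  have k7 : (Sm.card : ℝ) * n ≤ η / 16 * n * n := mul_le_mul_of_nonneg_right hsm hn
  have hη := h.η0
  have hn2 : 0 ≤ η * (n : ℝ) ^ 2 := mul_nonneg hη.le (sq_nonneg _)
  have k8 : η / 16 * n * n = η / 16 * (n : ℝ) ^ 2 := by ring
  rw [k8] at k7
  have k9 : (n : ℝ) * Sm.card = Sm.card * n := mul_comm _ _
  rw [k9] at k6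
  linarith

theorem RPart.closed (h : RPart S G η ε ε' θ f pt g) :
    Closed (fun p : Fin n × Fin n => tabF G ε ε' θ pt g (f p.1) (g p.1) (f p.2) (g p.2)) := by
  classical
  intro x y z hxy hyz h1 h2
  obtain ⟨g1, d1⟩ := tabF_RO h.θ1 h1
  obtain ⟨g2, d2⟩ := tabF_RO h.θ1 h2
  by_cases h3 : tabF G ε ε' θ pt g (f x) (g x) (f z) (g z) = Col.E
  · exact Or.inr h3
  · left
    rw [tabF_E, not_not] at h3
    refine tabF_big h.θ1 h3 ?_
    obtain ⟨a1, b1, u1, s1, t1⟩ := g1
    obtain ⟨a2, b2, u2, s2, t2⟩ := g2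
    obtain ⟨a3, b3, u3, s3, t3⟩ := h3
    have key := tA_trans G h.ε0 h.ε'1 h.ε'0 (by linarith [h.θ1]) h.τ1 u1 u2 u3
      (Finset.filter_subset _ _) (Finset.filter_subset _ _) (Finset.filter_subset _ _)
      ⟨x, h.mem x⟩ ⟨z, h.mem z⟩ s1 t1 t2 d1 d2 (by
        intro x' hx' y' hy' z' hz' e1 e2
        rw [Finset.mem_filter] at hx' hy' hz'
        have l1 : x' < y' := h.lt (by rw [hx'.2, hy'.2]; exact a1)
        have l2 : y' < z' := h.lt (by rw [hy'.2, hz'.2]; exact a2)
        have m1 := (h.adj _ _ l1).1 e1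
        have m2 := (h.adj _ _ l2).1 e2
        exact (h.adj _ _ (l1.trans l2)).2 (h.po.2 _ _ _ m1 m2))
    exact lt_of_le_of_lt h.τ2 key

end RP

/-- the case of small `η` -/
theorem exists_table_aux {η : ℝ} (hη : 0 < η) (hη2 : η ≤ 1 / 2) : ∃ M L n0 : ℕ, ∀ n ≥ n0,
    ∃ g : Fin n → Fin L,
    ∀ S : Finset (Fin n × Fin n), IsPO S → Nat' S →
    ∃ f : Fin n → Fin M, ∃ tab : Fin M → Fin L → Fin M → Fin L → Col,
      IsType η S (fun p => tab (f p.1) (g p.1) (f p.2) (g p.2)) := by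
  classical
  obtain ⟨L, hL, hL1⟩ : ∃ L : ℕ, 0 < L ∧ 8 / η ≤ (L : ℝ) :=
    ⟨⌈8 / η⌉₊ + 1, Nat.succ_pos _, by
      push_cast
      have := Nat.le_ceil (8 / η)
      linarith⟩
  have hLpos : (0 : ℝ) < L := by exact_mod_cast hL
  obtain ⟨l, hl0, hl1⟩ : ∃ l : ℕ, 0 < l ∧ 16 / η ≤ (l : ℝ) :=
    ⟨⌈16 / η⌉₊ + 1, Nat.succ_pos _, by
      push_cast
      have := Nat.le_ceil (16 / η)
      linarith⟩
  have hL16 : (16 : ℝ) ≤ L := by
    have : 16 ≤ 8 / η := by
      rw [le_div_iff₀ hη]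
      linarith
    linarith
  obtain ⟨ε', hε'0, hε'1, hε'L⟩ : ∃ ε' : ℝ, 0 < ε' ∧ ε' ≤ η / 16 ∧ L * ε' = η / 16 := by
    refine ⟨η / (16 * L), by positivity, ?_, by field_simp⟩
    apply div_le_div_of_nonneg_left hη.le (by norm_num)
    linarith
  obtain ⟨θ, hθ0, hθd⟩ : ∃ θ : ℝ, 0 < θ ∧ θ = η / 4 := ⟨η / 4, by positivity, rfl⟩
  have hθ2 : θ ≤ 1 / 8 := by rw [hθd]; linarith
  obtain ⟨ε, hε0, hεd⟩ : ∃ ε : ℝ, 0 < ε ∧ ε = ε' * θ / 8 := ⟨ε' * θ / 8, by positivity, rfl⟩
  have hε1 : ε ≤ ε' := by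
    rw [hεd]
    nlinarith
  have hε2 : 2 * ε ≤ ε' * θ := by
    rw [hεd]
    nlinarith
  have hε3 : 2 * ε / ε' = θ / 4 := by
    rw [hεd]
    field_simp
    norm_num
  have hε4 : ε ≤ θ / 8 := by
    rw [hεd]
    nlinarith
  obtain ⟨M, hM⟩ : ∃ M : ℕ, M = SzemerediRegularity.bound ε l := ⟨_, rfl⟩
  refine ⟨M, L, l, fun n hn => ⟨itv n L hL, fun S hS hN => ?_⟩⟩
  have hn0 : 0 < n := lt_of_lt_of_le hl0 hn
  have hne : (univ : Finset (Fin n)).Nonempty := by
    rw [← Finset.card_pos, Finset.card_univ, Fintype.card_fin]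
    exact hn0
  obtain ⟨P, hPe, hPl, hPb, hPu⟩ := szemeredi_regularity (cgr S) hε0 (l := l)
    (by rw [Fintype.card_fin]; exact hn)
  rw [← hM] at hPb
  obtain ⟨f, pt, hmem, hfx, hpt⟩ : ∃ (f : Fin n → Fin M) (pt : Fin M → Finset (Fin n)),
      (∀ x, x ∈ pt (f x)) ∧ (∀ x i, x ∈ pt i → f x = i) ∧ ∀ x, pt (f x) = P.part x := by
    let e := P.parts.equivFin
    let f : Fin n → Fin M := fun x =>
      ⟨(e ⟨P.part x, P.part_mem.2 (Finset.mem_univ x)⟩).1, lt_of_lt_of_le (Fin.is_lt _) hPb⟩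
    let pt : Fin M → Finset (Fin n) := fun i =>
      if h : i.1 < P.parts.card then (e.symm ⟨i.1, h⟩).1 else ∅
    have hpt : ∀ x, pt (f x) = P.part x := by
      intro x
      have h1 : (f x).1 < P.parts.card := (e ⟨P.part x, _⟩).is_lt
      have h2 : pt (f x) = (e.symm ⟨(f x).1, h1⟩).1 := dif_pos h1
      rw [h2]
      have h3 : (⟨(f x).1, h1⟩ : Fin P.parts.card) =
        e ⟨P.part x, P.part_mem.2 (Finset.mem_univ x)⟩ := rfl
      rw [h3, Equiv.symm_apply_apply]
    refine ⟨f, pt, ?_, ?_, hpt⟩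
    · intro x
      rw [hpt]
      exact P.mem_part (Finset.mem_univ x)
    · intro x i hx
      have h1 : i.1 < P.parts.card := by
        by_contra h
        have : pt i = ∅ := dif_neg h
        rw [this] at hx
        exact absurd hx (Finset.notMem_empty _)
      have h2 : pt i = (e.symm ⟨i.1, h1⟩).1 := dif_pos h1
      rw [h2] at hx
      have h3 : P.part x = (e.symm ⟨i.1, h1⟩).1 :=
        P.part_eq_of_mem (e.symm ⟨i.1, h1⟩).2 hx
      apply Fin.ext
      show (e ⟨P.part x, _⟩).1 = i.1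
      have h4 : (⟨P.part x, P.part_mem.2 (Finset.mem_univ x)⟩ : P.parts) = e.symm ⟨i.1, h1⟩ :=
        Subtype.ext h3
      rw [h4, Equiv.apply_symm_apply]
  have hRP : RPart S (cgr S) η ε ε' θ f pt (itv n L hL) := by
    refine ⟨hS, hN, fun x y h => cgr_adj hN h, hη, hε0, hε'0, by linarith, hε1, by linarith,
      by linarith, hε2, ?_, hε'L, hmem, hfx, fun x y h => itv_mono hL h, ?_, ?_⟩
    · rw [hε3]
      linarith
    · refine (itv_pairs (n := n) hL).trans ?_
      rw [div_le_iff₀ hLpos]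
      have h1 : 1 ≤ η / 8 * L := by
        have h2 : η / 8 * (8 / η) ≤ η / 8 * L := mul_le_mul_of_nonneg_left hL1 (by positivity)
        have h3 : η / 8 * (8 / η) = 1 := by field_simp
        linarith
      have h2 : (0 : ℝ) ≤ (n : ℝ) ^ 2 := by positivity
      nlinarith
    · have h1 := hPe.card_biUnion_offDiag_le (ε := η / 4) (by positivity) (by
        have h2 : 4 / (η / 4) = 16 / η := by field_simp; norm_num
        rw [h2]
        exact hl1.trans (by exact_mod_cast hPl))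
      rw [Finset.card_univ, Fintype.card_fin] at h1
      have h2 : ((univ : Finset (Fin n × Fin n)).filter fun p => p.1 < p.2 ∧
          f p.1 = f p.2) ⊆ P.parts.biUnion offDiag := by
        rintro ⟨x, y⟩ hp
        obtain ⟨_, h3, h4⟩ := Finset.mem_filter.1 hp
        rw [Finset.mem_biUnion]
        refine ⟨P.part x, P.part_mem.2 (Finset.mem_univ x), ?_⟩
        rw [Finset.mem_offDiag]
        refine ⟨P.mem_part (Finset.mem_univ x), ?_, h3.ne⟩
        have h4' : f x = f y := h4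
        rw [← hpt, h4']
        exact hmem y
      have h3 : ((((univ : Finset (Fin n × Fin n)).filter fun p => p.1 < p.2 ∧
          f p.1 = f p.2).card : ℕ) : ℝ) ≤ (P.parts.biUnion offDiag).card := by
        exact_mod_cast Finset.card_le_card h2
      linarith
  refine ⟨f, tabF (cgr S) ε ε' θ pt (itv n L hL), hRP.z_le, hRP.o_le,
    hRP.e_le ((P.nonUniforms (cgr S) ε).biUnion fun UV => UV.1 ×ˢ UV.2) ?_ ?_, hRP.closed⟩
  · intro x y h4 h5
    rw [Finset.mem_biUnion]
    refine ⟨(P.part x, P.part y), ?_, Finset.mem_product.2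
      ⟨P.mem_part (Finset.mem_univ x), P.mem_part (Finset.mem_univ y)⟩⟩
    rw [Finpartition.mk_mem_nonUniforms]
    refine ⟨P.part_mem.2 (Finset.mem_univ x), P.part_mem.2 (Finset.mem_univ y), ?_, ?_⟩
    · intro h6
      apply h4
      apply hfx
      rw [hpt, ← h6]
      exact P.mem_part (Finset.mem_univ x)
    · rw [← hpt, ← hpt]
      exact h5
  · have h1 := hPe.sum_nonUniforms_lt hne hε0 hPu
    rw [Finset.card_univ, Fintype.card_fin] at h1
    have h2 : 4 * ε * (n : ℝ) ^ 2 ≤ η / 8 * (n : ℝ) ^ 2 :=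
      mul_le_mul_of_nonneg_right (by linarith) (by positivity)
    exact h1.le.trans h2

/-- **Regular colouring.** There are constants `M` (number of parts), `L` (number of intervals) such that every
naturally labelled poset has a type that is given by a map `f : Fin n → Fin M` (the part), the
interval map `g : Fin n → Fin L` and a table `tab : Fin M → Fin L → Fin M → Fin L → Col`.

Proof. We may assume `η ≤ 1/2`. Put `θ = η/4`, `L = ⌈8/η⌉ + 1`, `ε' = η/(16 L)`, `ε = ε' θ/8` (`≤ θ/8`, `≤ ε'`), `l = ⌈8/η⌉ + 1`,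
`M = SzemerediRegularity.bound ε l`, `g x = ⌊x L / n⌋` (monotone in `x`; each fibre has at most `n/L + 1` points).
Let `G` be the comparability graph of `S` (`x ~ y` iff `(x,y) ∈ S ∨ (y,x) ∈ S`), `n ≥ l`, and let `V_1..V_t`,
`l ≤ t ≤ M`, be the equipartition of `szemeredi_regularity G`, all but `ε t²` (off-diagonal) pairs of parts `ε`-uniform.
Cells `V_i ∩ g⁻¹(a)`; a cell is small if it has fewer than `ε' |V_i|` points. Table for `a < b`:
`E` if `i = j`, or `(V_i, V_j)` is not uniform, or one of the two cells is small; otherwise, with `d = edgeDensity V_i V_j`: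
`Z` if `d < θ`, `O` if `d > 1 - θ`, else `R`. For `a ≥ b`: `E`.

(E) Pairs `x < y` of colour `E`: same interval: at most `n (n/L + 1)`; same part: at most `n (n/t + 1)`; irregular:
at most `ε t² (n/t + 1)²`; small cells: the points in small cells are at most `L ε' n` in number, so at most
`2 L ε' n²` pairs. Total `≤ η n²` for `n ≥ n0`.
(Z) For cells `X ⊆ V_i`, `Y ⊆ V_j` which are not small, uniformity (`ε ≤ ε'`) gives `|d(X,Y) - d(V_i,V_j)| < ε`, so the
number of `G`-edges between `X` and `Y` is at most `(θ + ε) |X||Y|`; summing over cells `≤ (θ+ε) n² ≤ η n²`.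
(O) Similarly the number of non-edges between `X` and `Y` is at most `(θ+ε)|X||Y|`. For `a < b`, `x ∈ X`, `y ∈ Y` we have `x < y`
(monotonicity of `g`), so an edge `xy` of `G` means `(x,y) ∈ S` as `S` is natural.
(closed) Let `x < y < z` with colours of `(x,y)`, `(y,z)` in `{R,O}`, in cells `X = (i,a)`, `Y = (j,b)`, `Z = (k,c)`; then `a < b < c`
(not equal, as the colour is not `E`), the cells are not small, `(V_i,V_j)`, `(V_j,V_k)` are uniform with density `≥ θ`. If
the colour of `(x,z)` is not `E` then `i ≠ k`, `(V_i,V_k)` is uniform. Claim `d(X,Z) ≥ 1 - 2ε/ε' ≥ 1 - θ + ε`, hence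
`d(V_i,V_k) > 1 - θ`, colour `O`. Proof of the claim: let `B` be the set of `x' ∈ X` with fewer than `(θ-ε)|Y|`
neighbours in `Y`; if `|B| ≥ ε|V_i|` then `d(B,Y) < θ - ε` contradicts uniformity; so `|B| < ε|V_i|`. For `x' ∈ X \ B`, let
`Y' = N(x') ∩ Y`, `|Y'| ≥ (θ-ε)|Y| ≥ (θ/2) ε' |V_j| ≥ ε |V_j|`; the set `C` of `z' ∈ Z` without neighbour in `Y'` has
`|C| < ε|V_k|` (otherwise `d(Y',C) = 0` but it must be `> θ - ε > 0`). For `z' ∈ Z \ C` there is `y' ∈ Y` with
`x' < y' < z'` in `S`, so `(x',z') ∈ S`. So the non-edges between `X` and `Z` number at most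
`ε|V_i||Z| + |X| ε |V_k| ≤ (2ε/ε')|X||Z|`. -/
theorem exists_table {η : ℝ} (hη : 0 < η) : ∃ M L n0 : ℕ, ∀ n ≥ n0, ∃ g : Fin n → Fin L,
    ∀ S : Finset (Fin n × Fin n), IsPO S → Nat' S →
    ∃ f : Fin n → Fin M, ∃ tab : Fin M → Fin L → Fin M → Fin L → Col,
      IsType η S (fun p => tab (f p.1) (g p.1) (f p.2) (g p.2)) := by
  obtain ⟨M, L, n0, h⟩ := exists_table_aux (η := min η (1 / 2)) (lt_min hη (by norm_num))
    (min_le_right _ _)
  refine ⟨M, L, n0, fun n hn => ?_⟩
  obtain ⟨g, hg⟩ := h n hn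
  refine ⟨g, fun S hS hN => ?_⟩
  obtain ⟨f, tab, ht⟩ := hg S hS hN
  exact ⟨f, tab, ht.mono (min_le_left _ _)⟩

/-- **Type lemma.** The number of pairs `(f, tab)` is `M^n * 4^((M L)^2)`, which is at most `exp (η n²)` for
`n ≥ n0`. -/
theorem type_lemma {η : ℝ} (hη : 0 < η) : ∃ n0 : ℕ, ∀ n ≥ n0,
    ∃ T : Finset (Fin n × Fin n → Col), (T.card : ℝ) ≤ Real.exp (η * (n : ℝ) ^ 2) ∧
      ∀ S : Finset (Fin n × Fin n), IsPO S → Nat' S → ∃ c ∈ T, IsType η S c := by
  classical
  obtain ⟨M, L, n0, h⟩ := exists_table hη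
  set K : ℝ := (Fintype.card (Fin M → Fin L → Fin M → Fin L → Col) : ℝ) with hK
  set n1 : ℕ := ⌈(Real.log (M + 1) + K) / η⌉₊ + 1 with hn1
  refine ⟨max n0 n1, fun n hn => ?_⟩
  have hn0 : n0 ≤ n := (le_max_left _ _).trans hn
  have hnn1 : n1 ≤ n := (le_max_right _ _).trans hn
  obtain ⟨g, hg⟩ := h n hn0
  refine ⟨(univ : Finset ((Fin n → Fin M) × (Fin M → Fin L → Fin M → Fin L → Col))).image
    fun q => fun p => q.2 (q.1 p.1) (g p.1) (q.1 p.2) (g p.2), ?_, ?_⟩
  · have h1 : (((univ : Finset ((Fin n → Fin M) × (Fin M → Fin L → Fin M → Fin L → Col))).image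
      (fun q => fun p : Fin n × Fin n => q.2 (q.1 p.1) (g p.1) (q.1 p.2) (g p.2))).card : ℝ) ≤
        (M : ℝ) ^ n * K := by
      have h2 : ((univ : Finset ((Fin n → Fin M) × (Fin M → Fin L → Fin M → Fin L → Col))).image
        (fun q => fun p : Fin n × Fin n => q.2 (q.1 p.1) (g p.1) (q.1 p.2) (g p.2))).card ≤
          M ^ n * Fintype.card (Fin M → Fin L → Fin M → Fin L → Col) := by
        refine Finset.card_image_le.trans (le_of_eq ?_)
        rw [Finset.card_univ, Fintype.card_prod, Fintype.card_fun, Fintype.card_fin,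
          Fintype.card_fin]
      rw [hK]
      exact_mod_cast h2
    refine h1.trans ?_
    have hK0 : 0 ≤ K := Nat.cast_nonneg _
    have hM0 : (0 : ℝ) ≤ M := Nat.cast_nonneg _
    have hlog : 0 ≤ Real.log (M + 1) := Real.log_nonneg (by linarith)
    have h3 : (M : ℝ) ^ n ≤ Real.exp (n * Real.log (M + 1)) := by
      rw [mul_comm, Real.exp_mul, Real.exp_log (by linarith), Real.rpow_natCast]
      exact pow_le_pow_left₀ hM0 (by linarith) n
    have h4 : K ≤ Real.exp K := by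
      have := Real.add_one_le_exp K
      linarith
    have hn1' : (1 : ℝ) ≤ n := by
      have : 1 ≤ n := le_trans (Nat.succ_pos _) hnn1
      exact_mod_cast this
    have h5 : (Real.log (M + 1) + K) ≤ η * n := by
      have h6 : (Real.log (M + 1) + K) / η ≤ n := by
        have h7 := Nat.le_ceil ((Real.log (M + 1) + K) / η)
        have h8 : (⌈(Real.log (M + 1) + K) / η⌉₊ : ℝ) ≤ n := by
          have : ⌈(Real.log (M + 1) + K) / η⌉₊ ≤ n := by omega
          exact_mod_cast this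
        linarith
      rw [div_le_iff₀ hη] at h6
      linarith
    calc (M : ℝ) ^ n * K ≤ Real.exp (n * Real.log (M + 1)) * Real.exp K :=
          mul_le_mul h3 h4 hK0 (Real.exp_pos _).le
      _ = Real.exp (n * Real.log (M + 1) + K) := (Real.exp_add _ _).symm
      _ ≤ Real.exp (η * (n : ℝ) ^ 2) := by
          apply Real.exp_le_exp.2
          have h6 : K ≤ n * K := by nlinarith
          have h7 : n * (Real.log (M + 1) + K) ≤ n * (η * n) :=
            mul_le_mul_of_nonneg_left h5 (by linarith)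
          nlinarith
  · intro S hS hN
    obtain ⟨f, tab, ht⟩ := hg S hS hN
    exact ⟨_, Finset.mem_image.2 ⟨(f, tab), Finset.mem_univ _, rfl⟩, ht⟩

end Pool.Agent.H.MP_82502e_co
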