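import Pool.Agent.H.MP_82502e_co.Flip
import Pool.Agent.H.MP_82502e_co.Types
import Pool.Agent.H.MP_82502e_co.Relab
import Pool.Agent.H.MP_82502e_co.Ent

set_option autoImplicit false

/-!
# Counting posets of a given type
-/

namespace Pool.Agent.H.MP_82502e_co

open Finset Real

/-- Auxiliary: `log x ≤ θ x` for large `x`. -/
theorem count_log_le {θ : ℝ} (hθ : 0 < θ) : ∃ m : ℕ, ∀ x : ℝ, (m : ℝ) ≤ x → log x ≤ θ * x := by
  have h := isLittleO_log_id_atTop.def hθ
  rw [Filter.eventually_atTop] at h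
  obtain ⟨a, ha⟩ := h
  obtain ⟨m, hm⟩ := exists_nat_ge (max a 0)
  refine ⟨m, fun x hx => ?_⟩
  have h1 := ha x (((le_max_left _ _).trans hm).trans hx)
  have h2 : 0 ≤ x := ((le_max_right _ _).trans hm).trans hx
  rw [Real.norm_eq_abs, id, Real.norm_eq_abs, abs_of_nonneg h2] at h1
  exact (le_abs_self _).trans h1

/-- Auxiliary: the three sets determine `S \ R`. -/
theorem count_sdiff_subset {n : ℕ} {c : Fin n × Fin n → Col} {S S' : Finset (Fin n × Fin n)}
    (hn : Nat' S) (h : (S ∩ cpairs c Col.Z, cpairs c Col.O \ S, S ∩ cpairs c Col.E) =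
      (S' ∩ cpairs c Col.Z, cpairs c Col.O \ S', S' ∩ cpairs c Col.E)) :
    S \ cpairs c Col.R ⊆ S' \ cpairs c Col.R := by
  have hZ : S ∩ cpairs c Col.Z = S' ∩ cpairs c Col.Z := congrArg (fun z => z.1) h
  have hO : cpairs c Col.O \ S = cpairs c Col.O \ S' := congrArg (fun z => z.2.1) h
  have hE : S ∩ cpairs c Col.E = S' ∩ cpairs c Col.E := congrArg (fun z => z.2.2) h
  intro p hp
  rw [mem_sdiff] at hp ⊢
  refine ⟨?_, hp.2⟩
  have hlt := hn p hp.1
  have hmem : ∀ a, c p = a → p ∈ cpairs c a := by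
    intro a ha
    rw [cpairs, mem_filter]
    exact ⟨mem_univ _, hlt, ha⟩
  cases hc : c p with
  | R => exact absurd (hmem _ hc) hp.2
  | Z =>
    have h1 : p ∈ S ∩ cpairs c Col.Z := mem_inter.2 ⟨hp.1, hmem _ hc⟩
    rw [hZ] at h1
    exact (mem_inter.1 h1).1
  | E =>
    have h1 : p ∈ S ∩ cpairs c Col.E := mem_inter.2 ⟨hp.1, hmem _ hc⟩
    rw [hE] at h1
    exact (mem_inter.1 h1).1
  | O =>
    by_contra hcon
    have h1 : p ∈ cpairs c Col.O \ S' := mem_sdiff.2 ⟨hmem _ hc, hcon⟩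
    rw [← hO] at h1
    exact (mem_sdiff.1 h1).2 hp.1

/-- Auxiliary: monotonicity of `IsType` in the error. -/
theorem count_type_mono {n : ℕ} {η η' : ℝ} (h : η ≤ η') {S : Finset (Fin n × Fin n)}
    {c : Fin n × Fin n → Col} (ht : IsType η S c) : IsType η' S c := by
  have h1 : η * (n : ℝ) ^ 2 ≤ η' * (n : ℝ) ^ 2 := mul_le_mul_of_nonneg_right h (by positivity)
  exact ⟨ht.z_le.trans h1, ht.o_le.trans h1, ht.e_le.trans h1, ht.closed⟩

/-- Few small subsets. For `0 < x ≤ 1` and `m = η n²`: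
`#{A | |A| ≤ m} x^m ≤ ∑_A x^|A| = (1+x)^(n²) ≤ exp (x n²)`. Take `x = η0` with
`η0 + η0 log (1/η0) ≤ θ` (`negMulLog` is continuous at `0`). -/
theorem small_subsets {θ : ℝ} (hθ : 0 < θ) : ∃ η0 : ℝ, 0 < η0 ∧ ∀ (n : ℕ) (η : ℝ), η ≤ η0 →
    (((univ : Finset (Finset (Fin n × Fin n))).filter
      fun A => (A.card : ℝ) ≤ η * (n : ℝ) ^ 2).card : ℝ) ≤ exp (θ * (n : ℝ) ^ 2) := by
  have hcont : Continuous fun x : ℝ => x + negMulLog x := continuous_id.add continuous_negMulLog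
  have hev : ∀ᶠ x in nhds (0 : ℝ), x + negMulLog x < θ := by
    have h1 := hcont.tendsto 0
    simp only [negMulLog_zero, add_zero] at h1
    exact h1.eventually (gt_mem_nhds hθ)
  rw [Metric.eventually_nhds_iff] at hev
  obtain ⟨δ, hδ, hev⟩ := hev
  obtain ⟨x, hx⟩ : ∃ x, x = min (δ / 2) 1 := ⟨_, rfl⟩
  have hx0 : 0 < x := by rw [hx]; exact lt_min (by linarith) one_pos
  have hx1 : x ≤ 1 := by rw [hx]; exact min_le_right _ _
  have hxδ : x < δ := by
    have : x ≤ δ / 2 := by rw [hx]; exact min_le_left _ _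
    linarith
  have hxθ : x + negMulLog x < θ := hev (by rw [Real.dist_eq, sub_zero, abs_of_pos hx0]; exact hxδ)
  refine ⟨x, hx0, fun n η hη => ?_⟩
  have hsum := Fintype.sum_pow_mul_eq_add_pow (Fin n × Fin n) x 1
  simp only [one_pow, mul_one, Fintype.card_prod, Fintype.card_fin] at hsum
  obtain ⟨F, hF⟩ : ∃ F, F = (univ : Finset (Finset (Fin n × Fin n))).filter
      fun A => (A.card : ℝ) ≤ η * (n : ℝ) ^ 2 := ⟨_, rfl⟩
  rw [← hF]
  have hlog : log x ≤ 0 := log_nonpos hx0.le hx1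
  have h1 : (F.card : ℝ) * exp (log x * (x * (n : ℝ) ^ 2)) ≤ ∑ A : Finset (Fin n × Fin n), x ^ A.card := by
    rw [← nsmul_eq_mul]
    refine le_trans (Finset.card_nsmul_le_sum F (fun A => x ^ A.card) _ ?_)
      (Finset.sum_le_sum_of_subset_of_nonneg (Finset.subset_univ _) fun A _ _ => by positivity)
    intro A hA
    rw [hF, mem_filter] at hA
    have hA2 : (A.card : ℝ) ≤ x * (n : ℝ) ^ 2 :=
      hA.2.trans (mul_le_mul_of_nonneg_right hη (by positivity))
    have e : x ^ A.card = exp (log x * A.card) := by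
      rw [← rpow_natCast, rpow_def_of_pos hx0]
    rw [e]
    exact exp_le_exp.2 (mul_le_mul_of_nonpos_left hA2 hlog)
  rw [hsum] at h1
  have h2 : (x + 1) ^ (n * n) ≤ exp (x * (n : ℝ) ^ 2) := by
    have h3 : (x + 1) ^ (n * n) ≤ (exp x) ^ (n * n) :=
      pow_le_pow_left₀ (by positivity) (add_one_le_exp x) _
    refine h3.trans (le_of_eq ?_)
    rw [← exp_nat_mul]
    congr 1
    push_cast
    ring
  have h4 : (F.card : ℝ) ≤ exp ((x + negMulLog x) * (n : ℝ) ^ 2) := by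
    have e : exp ((x + negMulLog x) * (n : ℝ) ^ 2) =
        exp (x * (n : ℝ) ^ 2) / exp (log x * (x * (n : ℝ) ^ 2)) := by
      rw [← exp_sub]
      congr 1
      rw [negMulLog]
      ring
    rw [e, le_div_iff₀ (exp_pos _)]
    exact h1.trans h2
  refine h4.trans (exp_le_exp.2 ?_)
  exact mul_le_mul_of_nonneg_right hxθ.le (by positivity)

/-- `n!`, `n²+1` and similar factors are `≤ exp (θ n²)`. -/
theorem factorial_le_exp {θ : ℝ} (hθ : 0 < θ) : ∃ n0 : ℕ, ∀ n ≥ n0,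
    (n.factorial : ℝ) ≤ exp (θ * (n : ℝ) ^ 2) := by
  obtain ⟨m, hm⟩ := count_log_le hθ
  refine ⟨m + 1, fun n hn => ?_⟩
  have hn0 : (0 : ℝ) < n := by
    have : 0 < n := by omega
    exact_mod_cast this
  have h1 : (n.factorial : ℝ) ≤ (n : ℝ) ^ n := by exact_mod_cast Nat.factorial_le_pow n
  refine h1.trans ?_
  rw [← rpow_natCast, rpow_def_of_pos hn0]
  refine exp_le_exp.2 ?_
  have h2 := hm (n : ℝ) (by exact_mod_cast (by omega : m ≤ n))
  calc log n * (n : ℝ) ≤ θ * n * n := mul_le_mul_of_nonneg_right h2 hn0.le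
    _ = θ * (n : ℝ) ^ 2 := by ring

theorem poly_le_exp {θ : ℝ} (hθ : 0 < θ) (a : ℕ) : ∃ n0 : ℕ, ∀ n ≥ n0,
    ((n : ℝ) ^ 2 + 1) ^ a ≤ exp (θ * (n : ℝ) ^ 2) := by
  obtain ⟨m, hm⟩ := count_log_le (θ := θ / (2 * (a + 1))) (by positivity)
  refine ⟨m + 1, fun n hn => ?_⟩
  have hn1 : (1 : ℝ) ≤ n := by exact_mod_cast (by omega : 1 ≤ n)
  have hy : (0 : ℝ) < (n : ℝ) ^ 2 + 1 := by positivity
  have hmn : (m : ℝ) ≤ n := by exact_mod_cast (by omega : m ≤ n)
  have hnn : (n : ℝ) ≤ (n : ℝ) ^ 2 := by nlinarith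
  have h2 := hm ((n : ℝ) ^ 2 + 1) (by linarith)
  rw [← rpow_natCast, rpow_def_of_pos hy]
  refine exp_le_exp.2 ?_
  have ha : (0 : ℝ) ≤ a := Nat.cast_nonneg a
  have h3 : log ((n : ℝ) ^ 2 + 1) * a ≤ θ / (2 * (a + 1)) * ((n : ℝ) ^ 2 + 1) * a :=
    mul_le_mul_of_nonneg_right h2 ha
  refine h3.trans ?_
  have h4 : θ / (2 * (a + 1)) * ((n : ℝ) ^ 2 + 1) * a =
      θ * (((n : ℝ) ^ 2 + 1) / 2) * (a / (a + 1)) := by
    field_simp
  rw [h4]
  have h5 : (a : ℝ) / (a + 1) ≤ 1 := by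
    rw [div_le_one (by linarith)]
    linarith
  have h6 : ((n : ℝ) ^ 2 + 1) / 2 ≤ (n : ℝ) ^ 2 := by nlinarith
  calc θ * (((n : ℝ) ^ 2 + 1) / 2) * (a / (a + 1)) ≤ θ * (((n : ℝ) ^ 2 + 1) / 2) * 1 :=
        mul_le_mul_of_nonneg_left h5 (by positivity)
    _ ≤ θ * (n : ℝ) ^ 2 := by
        rw [mul_one]
        exact mul_le_mul_of_nonneg_left h6 hθ.le

open scoped Classical in
/-- **Type count.** For a colouring `c` and `R = cpairs c R`: if every family `Fam R W K` has at most `C` members with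
`Q`, then the number of natural posets of type `c` with `K` pairs in `R` and `Q` is `≤ exp (θ n²) C`.

Proof. Group by `W = S \ R` (`S ∈ Fam R W K`). The map `W ↦ (W ∩ Z, O \ W, W ∩ E)` (`Z = cpairs c Z` and so on) is injective on the `W` that
occur: `W` consists of upward pairs outside `R`, so it is the disjoint union of `W ∩ Z`, `O \ (O \ W)`, `W ∩ E`. All three sets have
at most `η n²` elements (`O \ W = O \ S`, since `O` is disjoint from `R`). So at most `(exp (θ n²/3))³` sets `W`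
(`small_subsets` for `θ/3`). -/
theorem type_count {θ : ℝ} (hθ : 0 < θ) : ∃ η0 : ℝ, 0 < η0 ∧ ∀ (n : ℕ) (η : ℝ), η ≤ η0 →
    ∀ (c : Fin n × Fin n → Col) (K : ℕ) (Q : Finset (Fin n × Fin n) → Prop) (C : ℝ),
    (∀ W, (((Fam (cpairs c Col.R) W K).filter Q).card : ℝ) ≤ C) →
    (((univ : Finset (Finset (Fin n × Fin n))).filter fun S => IsPO S ∧ Nat' S ∧
      IsType η S c ∧ (S ∩ cpairs c Col.R).card = K ∧ Q S).card : ℝ) ≤
      exp (θ * (n : ℝ) ^ 2) * C := by
  obtain ⟨η0, hη0, hsm⟩ := small_subsets (θ := θ / 3) (by positivity)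
  refine ⟨η0, hη0, fun n η hη c K Q C hC => ?_⟩
  have hC0 : 0 ≤ C := le_trans (Nat.cast_nonneg _) (hC ∅)
  obtain ⟨Sm, hSm⟩ : ∃ Sm, Sm = (univ : Finset (Finset (Fin n × Fin n))).filter
      fun A => (A.card : ℝ) ≤ η * (n : ℝ) ^ 2 := ⟨_, rfl⟩
  have hSmc : (Sm.card : ℝ) ≤ exp (θ / 3 * (n : ℝ) ^ 2) := by rw [hSm]; exact hsm n η hη
  obtain ⟨X, hX⟩ : ∃ X, X = (univ : Finset (Finset (Fin n × Fin n))).filter fun S =>
      IsPO S ∧ Nat' S ∧ IsType η S c ∧ (S ∩ cpairs c Col.R).card = K ∧ Q S := ⟨_, rfl⟩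
  have hXm : ∀ S, S ∈ X ↔ IsPO S ∧ Nat' S ∧ IsType η S c ∧
      (S ∩ cpairs c Col.R).card = K ∧ Q S := by
    intro S
    rw [hX, mem_filter]
    exact ⟨fun h => h.2, fun h => ⟨mem_univ _, h⟩⟩
  rw [← hX]
  have hmaps : ∀ S ∈ X, (S ∩ cpairs c Col.Z, cpairs c Col.O \ S, S ∩ cpairs c Col.E) ∈
      Sm ×ˢ Sm ×ˢ Sm := by
    intro S hS
    obtain ⟨_, _, ht, _, _⟩ := (hXm S).1 hS
    rw [mem_product, mem_product, hSm, mem_filter, mem_filter, mem_filter]
    refine ⟨⟨mem_univ _, ht.z_le⟩, ⟨mem_univ _, ht.o_le⟩, mem_univ _, le_trans ?_ ht.e_le⟩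
    exact_mod_cast card_le_card inter_subset_right
  have hfib : ∀ b ∈ Sm ×ˢ Sm ×ˢ Sm, (((X.filter fun S =>
      (S ∩ cpairs c Col.Z, cpairs c Col.O \ S, S ∩ cpairs c Col.E) = b).card : ℕ) : ℝ) ≤ C := by
    intro b _
    rcases Finset.eq_empty_or_nonempty (X.filter fun S =>
      (S ∩ cpairs c Col.Z, cpairs c Col.O \ S, S ∩ cpairs c Col.E) = b) with h | h
    · rw [h]
      simpa using hC0
    · obtain ⟨S0, hS0⟩ := h
      rw [mem_filter] at hS0
      refine le_trans ?_ (hC (S0 \ cpairs c Col.R))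
      have hsub : (X.filter fun S =>
          (S ∩ cpairs c Col.Z, cpairs c Col.O \ S, S ∩ cpairs c Col.E) = b) ⊆
          (Fam (cpairs c Col.R) (S0 \ cpairs c Col.R) K).filter Q := by
        intro S hS
        rw [mem_filter] at hS
        obtain ⟨h1, h2, h3, h4, h5⟩ := (hXm S).1 hS.1
        obtain ⟨g1, g2, g3, g4, g5⟩ := (hXm S0).1 hS0.1
        rw [mem_filter, mem_Fam]
        refine ⟨⟨h1, h2, ?_, h4⟩, h5⟩
        have e : (S ∩ cpairs c Col.Z, cpairs c Col.O \ S, S ∩ cpairs c Col.E) =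
            (S0 ∩ cpairs c Col.Z, cpairs c Col.O \ S0, S0 ∩ cpairs c Col.E) :=
          hS.2.trans hS0.2.symm
        exact Finset.Subset.antisymm (count_sdiff_subset h2 e) (count_sdiff_subset g2 e.symm)
      exact_mod_cast card_le_card hsub
  have hcard : (X.card : ℝ) = ∑ b ∈ Sm ×ˢ Sm ×ˢ Sm, (((X.filter fun S =>
      (S ∩ cpairs c Col.Z, cpairs c Col.O \ S, S ∩ cpairs c Col.E) = b).card : ℕ) : ℝ) := by
    rw [card_eq_sum_card_fiberwise (f := fun S =>
      (S ∩ cpairs c Col.Z, cpairs c Col.O \ S, S ∩ cpairs c Col.E)) (t := Sm ×ˢ Sm ×ˢ Sm) hmaps]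
    push_cast
    rfl
  rw [hcard]
  refine (Finset.sum_le_card_nsmul _ _ _ hfib).trans ?_
  rw [nsmul_eq_mul, card_product, card_product]
  push_cast
  have e3 : exp (θ * (n : ℝ) ^ 2) = exp (θ / 3 * (n : ℝ) ^ 2) *
      (exp (θ / 3 * (n : ℝ) ^ 2) * exp (θ / 3 * (n : ℝ) ^ 2)) := by
    rw [← exp_add, ← exp_add]
    congr 1
    ring
  rw [e3]
  refine mul_le_mul_of_nonneg_right ?_ hC0
  have hS0 : (0 : ℝ) ≤ Sm.card := Nat.cast_nonneg _
  exact mul_le_mul hSmc (mul_le_mul hSmc hSmc hS0 (exp_pos _).le) (mul_nonneg hS0 hS0)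
    (exp_pos _).le

/-- The level: `|S| - K - |O| = |S ∩ Z| + |S ∩ E| - |O \ S|`. -/
theorem level_close {n : ℕ} {η : ℝ} {S : Finset (Fin n × Fin n)} {c : Fin n × Fin n → Col}
    (hn : Nat' S) (ht : IsType η S c) :
    |(S.card : ℝ) - (S ∩ cpairs c Col.R).card - (cpairs c Col.O).card| ≤
      2 * η * (n : ℝ) ^ 2 := by
  have hz := ht.z_le
  have ho := ht.o_le
  have he := ht.e_le
  have h0 : 0 ≤ η * (n : ℝ) ^ 2 := le_trans (Nat.cast_nonneg _) hz
  have hdec : S.card = (S ∩ cpairs c Col.R).card + (S ∩ cpairs c Col.O).card +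
      (S ∩ cpairs c Col.Z).card + (S ∩ cpairs c Col.E).card := by
    have h1 : S.card = ∑ a ∈ (univ : Finset Col), (S.filter fun p => c p = a).card :=
      card_eq_sum_card_fiberwise (fun _ _ => mem_coe.2 (mem_univ _))
    have h2 : ∀ a, S.filter (fun p => c p = a) = S ∩ cpairs c a := by
      intro a
      ext p
      rw [mem_filter, mem_inter, cpairs, mem_filter]
      exact ⟨fun h => ⟨h.1, mem_univ _, hn p h.1, h.2⟩, fun h => ⟨h.1, h.2.2.2⟩⟩
    rw [h1]
    have h3 : (univ : Finset Col) = {Col.R, Col.O, Col.Z, Col.E} := by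
      ext a
      cases a <;> simp
    rw [h3, sum_insert (by simp), sum_insert (by simp), sum_insert (by simp), sum_singleton,
      h2, h2, h2, h2]
    ring
  have hO : (cpairs c Col.O).card = (S ∩ cpairs c Col.O).card + (cpairs c Col.O \ S).card := by
    rw [inter_comm, card_inter_add_card_sdiff]
  have hE : ((S ∩ cpairs c Col.E).card : ℝ) ≤ η * (n : ℝ) ^ 2 := by
    refine le_trans ?_ he
    exact_mod_cast card_le_card inter_subset_right
  have hz0 : (0 : ℝ) ≤ (S ∩ cpairs c Col.Z).card := Nat.cast_nonneg _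
  have hE0 : (0 : ℝ) ≤ (S ∩ cpairs c Col.E).card := Nat.cast_nonneg _
  have ho0 : (0 : ℝ) ≤ (cpairs c Col.O \ S).card := Nat.cast_nonneg _
  rw [hdec, hO]
  push_cast
  rw [abs_le]
  constructor <;> linarith

open scoped Classical in
/-- **Union bound, general form**, for chosen natural relabellings `e S` and types `t S`. The map
`S ↦ (e S, t S, |relab (e S) S ∩ R|, relab (e S) S)` is injective on `PO n k` (`relab_injective`); `|Perm| = n!`, at most `n²+1` values
of `K` (`K ≤ n * n`). -/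
theorem union_bound_gen {n k : ℕ} {η C : ℝ} (hC0 : 0 ≤ C) (T : Finset (Fin n × Fin n → Col))
    (e : Finset (Fin n × Fin n) → Equiv.Perm (Fin n))
    (t : Finset (Fin n × Fin n) → Fin n × Fin n → Col)
    (he : ∀ S ∈ PO n k, Nat' (relab (e S) S))
    (ht : ∀ S ∈ PO n k, t S ∈ T ∧ IsType η (relab (e S) S) (t S))
    (Q : (Fin n × Fin n → Col) → Finset (Fin n × Fin n) → Prop)
    (hC : ∀ (c : Fin n × Fin n → Col) (K : ℕ), Closed c →
      (((univ : Finset (Finset (Fin n × Fin n))).filter fun S => IsPO S ∧ Nat' S ∧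
        IsType η S c ∧ (S ∩ cpairs c Col.R).card = K ∧ (S.card = k ∧ Q c S)).card : ℝ) ≤ C) :
    (((PO n k).filter fun S => Q (t S) (relab (e S) S)).card : ℝ) ≤
      n.factorial * T.card * ((n : ℝ) ^ 2 + 1) * C := by
  obtain ⟨X, hX⟩ : ∃ X, X = (PO n k).filter fun S => Q (t S) (relab (e S) S) := ⟨_, rfl⟩
  rw [← hX]
  have hXm : ∀ S, S ∈ X ↔ S ∈ PO n k ∧ Q (t S) (relab (e S) S) := by
    intro S
    rw [hX, mem_filter]
  obtain ⟨φ, hφ⟩ : ∃ φ : Finset (Fin n × Fin n) →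
      Equiv.Perm (Fin n) × (Fin n × Fin n → Col) × ℕ,
      φ = fun S => (e S, t S, (relab (e S) S ∩ cpairs (t S) Col.R).card) := ⟨_, rfl⟩
  obtain ⟨B, hB⟩ : ∃ B, B = (univ : Finset (Equiv.Perm (Fin n))) ×ˢ T ×ˢ range (n * n + 1) :=
    ⟨_, rfl⟩
  have hmaps : ∀ S ∈ X, φ S ∈ B := by
    intro S hS
    obtain ⟨h1, _⟩ := (hXm S).1 hS
    rw [hφ, hB, mem_product, mem_product, mem_range]
    refine ⟨mem_univ _, (ht S h1).1, ?_⟩
    have h2 : (relab (e S) S ∩ cpairs (t S) Col.R).card ≤ (univ : Finset (Fin n × Fin n)).card :=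
      card_le_card (subset_univ _)
    rw [card_univ, Fintype.card_prod, Fintype.card_fin] at h2
    exact Nat.lt_succ_of_le h2
  have hfib : ∀ b ∈ B, (((X.filter fun S => φ S = b).card : ℕ) : ℝ) ≤ C := by
    rintro ⟨g, c, K⟩ _
    rcases Finset.eq_empty_or_nonempty (X.filter fun S => φ S = (g, c, K)) with h | h
    · rw [h]
      simpa using hC0
    · obtain ⟨S0, hS0⟩ := h
      rw [mem_filter] at hS0
      have hdat : ∀ S, φ S = (g, c, K) → e S = g ∧ t S = c ∧
          (relab g S ∩ cpairs c Col.R).card = K := by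
        intro S hS
        rw [hφ] at hS
        have a1 : e S = g := congrArg Prod.fst hS
        have a2 : t S = c := congrArg (fun z => z.2.1) hS
        have a3 : (relab (e S) S ∩ cpairs (t S) Col.R).card = K := congrArg (fun z => z.2.2) hS
        rw [a1, a2] at a3
        exact ⟨a1, a2, a3⟩
      have hcl : Closed c := by
        obtain ⟨h1, _⟩ := (hXm S0).1 hS0.1
        have h2 := (ht S0 h1).2.closed
        rwa [(hdat S0 hS0.2).2.1] at h2
      refine le_trans ?_ (hC c K hcl)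
      have hle : (X.filter fun S => φ S = (g, c, K)).card ≤
          ((univ : Finset (Finset (Fin n × Fin n))).filter fun S => IsPO S ∧ Nat' S ∧
            IsType η S c ∧ (S ∩ cpairs c Col.R).card = K ∧ (S.card = k ∧ Q c S)).card := by
        refine card_le_card_of_injOn (relab g) (fun S hS => ?_)
          (fun S _ S' _ h => relab_injective g h)
        rw [mem_coe, mem_filter] at hS
        obtain ⟨h1, h2⟩ := (hXm S).1 hS.1
        obtain ⟨a1, a2, a3⟩ := hdat S hS.2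
        have h3 := he S h1
        have h4 := (ht S h1).2
        rw [a1] at h2 h3 h4
        rw [a2] at h2 h4
        rw [mem_PO] at h1
        rw [mem_coe, mem_filter]
        exact ⟨mem_univ _, isPO_relab h1.1, h3, h4, a3, by rw [card_relab, h1.2], h2⟩
      exact_mod_cast hle
  have hcard : (X.card : ℝ) = ∑ b ∈ B, (((X.filter fun S => φ S = b).card : ℕ) : ℝ) := by
    rw [card_eq_sum_card_fiberwise (f := φ) (t := B) hmaps]
    push_cast
    rfl
  rw [hcard]
  refine (Finset.sum_le_card_nsmul _ _ _ hfib).trans (le_of_eq ?_)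
  rw [nsmul_eq_mul, hB, card_product, card_product, card_univ, Fintype.card_perm,
    Fintype.card_fin, card_range]
  push_cast
  ring

open scoped Classical in
/-- **Union bound.** Let `Q` be invariant under relabelling. If for every type `c` (closed) and every `K` the number of natural posets of
level `k`, type `c`, with `K` pairs in `R` and `Q` is at most `C`, then the number of `S ∈ PO n k` with `Q` is
at most `exp (θ n²) C`. (`union_bound_gen` with `e S` from `exists_nat_relab`, `t S` from `type_lemma` for `η1 = min η (θ/3)` (an `IsType η1` is an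
`IsType η`), `factorial_le_exp`, `poly_le_exp`.) -/
theorem union_bound {θ η : ℝ} (hθ : 0 < θ) (hη : 0 < η) : ∃ n0 : ℕ, ∀ n ≥ n0,
    ∀ (k : ℕ) (Q : Finset (Fin n × Fin n) → Prop) (C : ℝ), 0 ≤ C →
    (∀ (e : Equiv.Perm (Fin n)) S, IsPO S → Q S → Q (relab e S)) →
    (∀ (c : Fin n × Fin n → Col) (K : ℕ), Closed c →
      (((univ : Finset (Finset (Fin n × Fin n))).filter fun S => IsPO S ∧ Nat' S ∧
        IsType η S c ∧ (S ∩ cpairs c Col.R).card = K ∧ (S.card = k ∧ Q S)).card : ℝ) ≤ C) →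
    (((PO n k).filter Q).card : ℝ) ≤ exp (θ * (n : ℝ) ^ 2) * C := by
  obtain ⟨η1, hη1⟩ : ∃ η1, η1 = min η (θ / 3) := ⟨_, rfl⟩
  have hη1p : 0 < η1 := by rw [hη1]; exact lt_min hη (by linarith)
  have hη1η : η1 ≤ η := by rw [hη1]; exact min_le_left _ _
  have hη1θ : η1 ≤ θ / 3 := by rw [hη1]; exact min_le_right _ _
  obtain ⟨n1, h1⟩ := type_lemma hη1p
  obtain ⟨n2, h2⟩ := factorial_le_exp (θ := θ / 3) (by linarith)
  obtain ⟨n3, h3⟩ := poly_le_exp (θ := θ / 3) (by linarith) 1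
  refine ⟨max n1 (max n2 n3), fun n hn k Q C hC0 hQ hC => ?_⟩
  have hn1 : n1 ≤ n := (le_max_left _ _).trans hn
  have hn2 : n2 ≤ n := ((le_max_left _ _).trans (le_max_right _ _)).trans hn
  have hn3 : n3 ≤ n := ((le_max_right _ _).trans (le_max_right _ _)).trans hn
  obtain ⟨T, hT, hTt⟩ := h1 n hn1
  have hex : ∀ S : Finset (Fin n × Fin n), ∃ e : Equiv.Perm (Fin n),
      IsPO S → Nat' (relab e S) := by
    intro S
    by_cases h : IsPO S
    · obtain ⟨e, he⟩ := exists_nat_relab h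
      exact ⟨e, fun _ => he⟩
    · exact ⟨1, fun h' => absurd h' h⟩
  choose e he using hex
  have hext : ∀ S : Finset (Fin n × Fin n), ∃ c : Fin n × Fin n → Col,
      IsPO S → c ∈ T ∧ IsType η1 (relab (e S) S) c := by
    intro S
    by_cases h : IsPO S
    · obtain ⟨c, hc, hc2⟩ := hTt (relab (e S) S) (isPO_relab h) (he S h)
      exact ⟨c, fun _ => ⟨hc, hc2⟩⟩
    · exact ⟨fun _ => Col.R, fun h' => absurd h' h⟩
  choose t ht using hext
  have hmain := union_bound_gen (k := k) (η := η) hC0 T e t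
    (fun S hS => he S (mem_PO.1 hS).1)
    (fun S hS => by
      obtain ⟨a1, a2⟩ := ht S (mem_PO.1 hS).1
      exact ⟨a1, count_type_mono hη1η a2⟩) (fun _ => Q) hC
  have hsub : (PO n k).filter Q ⊆ (PO n k).filter fun S => Q (relab (e S) S) := by
    intro S hS
    rw [mem_filter] at hS ⊢
    exact ⟨hS.1, hQ (e S) S (mem_PO.1 hS.1).1 hS.2⟩
  have hle : (((PO n k).filter Q).card : ℝ) ≤
      (((PO n k).filter fun S => Q (relab (e S) S)).card : ℝ) := by
    exact_mod_cast card_le_card hsub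
  refine hle.trans (hmain.trans ?_)
  have e3 : exp (θ * (n : ℝ) ^ 2) = exp (θ / 3 * (n : ℝ) ^ 2) *
      exp (θ / 3 * (n : ℝ) ^ 2) * exp (θ / 3 * (n : ℝ) ^ 2) := by
    rw [← exp_add, ← exp_add]
    congr 1
    ring
  rw [e3]
  refine mul_le_mul_of_nonneg_right ?_ hC0
  have hTc : (T.card : ℝ) ≤ exp (θ / 3 * (n : ℝ) ^ 2) :=
    hT.trans (exp_le_exp.2 (mul_le_mul_of_nonneg_right hη1θ (by positivity)))
  have h4 := h3 n hn3
  rw [pow_one] at h4
  exact mul_le_mul (mul_le_mul (h2 n hn2) hTc (Nat.cast_nonneg _) (exp_pos _).le) h4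
    (by positivity) (by positivity)

end Pool.Agent.H.MP_82502e_co
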