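import Pool.Agent.H.MP_82502e_co.Ident

set_option autoImplicit false

/-!
# The cube lemma
-/

namespace Pool.Agent.H.MP_82502e_co

open Finset

variable {n : ℕ}

/-- Adding any set of addable pairs that goes from `B` to the complement of `B` gives a strict partial order.

Proof. Irreflexive: clear. Transitive: `(x,y), (y,z) ∈ S ∪ A`. Both in `S`: `S` is transitive. `(x,y) ∈ A`, `(y,z) ∈ S`: `z ∈ Up S y ⊆ Up S x`, so
`(x,z) ∈ S`. `(x,y) ∈ S`, `(y,z) ∈ A`: `x ∈ Dn S y ⊆ Dn S z`. Both in `A`: `y ∉ B` and `y ∈ B`. -/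
theorem isPO_union {S A : Finset (Fin n × Fin n)} (hS : IsPO S) (hA : A ⊆ Add S)
    (B : Finset (Fin n)) (hB : ∀ p ∈ A, p.1 ∈ B ∧ p.2 ∉ B) : IsPO (S ∪ A) := by
  obtain ⟨hirr, htr⟩ := hS
  refine ⟨?_, ?_⟩
  · intro i hi
    rw [Finset.mem_union] at hi
    rcases hi with hi | hi
    · exact hirr i hi
    · have := hB _ hi
      exact this.2 this.1
  · intro i j l hij hjl
    rw [Finset.mem_union] at hij hjl ⊢
    rcases hij with hij | hij <;> rcases hjl with hjl | hjl
    · exact Or.inl (htr i j l hij hjl)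
    · left
      have h := hA hjl
      simp only [Add, Finset.mem_filter, Finset.mem_univ, true_and] at h
      have h2 := h.2.2.2.1 (show i ∈ Dn S j by simpa [Dn] using hij)
      simpa [Dn] using h2
    · left
      have h := hA hij
      simp only [Add, Finset.mem_filter, Finset.mem_univ, true_and] at h
      have h2 := h.2.2.2.2 (show l ∈ Up S j by simpa [Up] using hjl)
      simpa [Up] using h2
    · exact absurd (hB _ hjl).1 (hB _ hij).2

/-- For `x ≠ y` a quarter of all subsets contain `x` but not `y`. -/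
theorem decb_quarter {x y : Fin n} (h : x ≠ y) :
    4 * ((univ : Finset (Finset (Fin n))).filter fun B => x ∈ B ∧ y ∉ B).card = 2 ^ n := by
  have h1 : ((univ : Finset (Finset (Fin n))).filter fun B => x ∈ B ∧ y ∉ B) =
      ((univ \ {x, y} : Finset (Fin n)).powerset).image (fun C => insert x C) := by
    ext B
    simp only [Finset.mem_filter, Finset.mem_univ, true_and, Finset.mem_image,
      Finset.mem_powerset]
    constructor
    · rintro ⟨hx, hy⟩
      refine ⟨B.erase x, ?_, Finset.insert_erase hx⟩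
      intro z hz
      rw [Finset.mem_erase] at hz
      rw [Finset.mem_sdiff, Finset.mem_insert, Finset.mem_singleton]
      refine ⟨Finset.mem_univ _, ?_⟩
      rintro (h' | h')
      · exact hz.1 h'
      · rw [h'] at hz
        exact hy hz.2
    · rintro ⟨C, hC, rfl⟩
      refine ⟨Finset.mem_insert_self _ _, ?_⟩
      rw [Finset.mem_insert]
      rintro (h' | h')
      · exact h h'.symm
      · have := hC h'
        simp at this
  have h2 : (((univ \ {x, y} : Finset (Fin n)).powerset).image (fun C => insert x C)).card =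
      2 ^ (n - 2) := by
    rw [Finset.card_image_of_injOn, Finset.card_powerset, Finset.card_sdiff_of_subset
      (Finset.subset_univ _), Finset.card_pair h, Finset.card_univ, Fintype.card_fin]
    intro C hC D hD hCD
    simp only [Finset.coe_powerset, Set.mem_preimage, Set.mem_powerset_iff,
      Finset.coe_subset] at hC hD
    have hxC : x ∉ C := fun h' => by simpa using hC h'
    have hxD : x ∉ D := fun h' => by simpa using hD h'
    have h3 : (insert x C).erase x = (insert x D).erase x := by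
      simp only at hCD
      rw [hCD]
    rwa [Finset.erase_insert hxC, Finset.erase_insert hxD] at h3
  have h3 : 2 ≤ n := by
    by_contra hn
    have : n = 0 ∨ n = 1 := by omega
    rcases this with rfl | rfl
    · exact x.elim0
    · exact h (Subsingleton.elim _ _)
  rw [h1, h2]
  calc 4 * 2 ^ (n - 2) = 2 ^ 2 * 2 ^ (n - 2) := by norm_num
    _ = 2 ^ (2 + (n - 2)) := (pow_add 2 2 (n - 2)).symm
    _ = 2 ^ n := by rw [Nat.add_sub_cancel' h3]

/-- Some `B` catches a quarter of the pairs: average over all `B ⊆ Fin n`; for `x ≠ y` the number of `B` with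
`x ∈ B`, `y ∉ B` is `2^n/4` (`p.1 ≠ p.2` for addable pairs). -/
theorem exists_cut (A : Finset (Fin n × Fin n)) (hA : ∀ p ∈ A, p.1 ≠ p.2) :
    ∃ B : Finset (Fin n), A.card ≤ 4 * (A.filter fun p => p.1 ∈ B ∧ p.2 ∉ B).card := by
  by_contra hcon
  simp only [not_exists, not_le] at hcon
  have h1 : ∑ B : Finset (Fin n), 4 * (A.filter fun p => p.1 ∈ B ∧ p.2 ∉ B).card <
      ∑ _B : Finset (Fin n), A.card :=
    Finset.sum_lt_sum_of_nonempty Finset.univ_nonempty fun B _ => hcon B
  have h2 : ∑ B : Finset (Fin n), 4 * (A.filter fun p => p.1 ∈ B ∧ p.2 ∉ B).card =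
      ∑ p ∈ A, 4 * ((univ : Finset (Finset (Fin n))).filter fun B => p.1 ∈ B ∧ p.2 ∉ B).card := by
    simp only [Finset.card_filter, Finset.mul_sum]
    exact Finset.sum_comm
  have h3 : ∑ p ∈ A, 4 * ((univ : Finset (Finset (Fin n))).filter
      fun B => p.1 ∈ B ∧ p.2 ∉ B).card = ∑ _p ∈ A, 2 ^ n :=
    Finset.sum_congr rfl fun p hp => decb_quarter (hA p hp)
  rw [h2, h3, Finset.sum_const, Finset.sum_const, Finset.card_univ, Fintype.card_finset,
    Fintype.card_fin, smul_eq_mul, smul_eq_mul, mul_comm] at h1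
  exact lt_irrefl _ h1

/-- **Cube lemma.** `t S` is the type of `S`, `Z (t S)` the region in which `S` has few pairs.

Proof. For `S ∈ F` choose `B` by `exists_cut` for `Add S ∩ Z (t S)` and let `A_S` be the caught pairs, `|A_S| ≥ s`. The map
`(S, A) ↦ (t S, S ∩ Z (t S), S ∪ A)` for `S ∈ F`, `A ⊆ A_S` is injective: `S = ((S ∪ A) \ Z) ∪ (S ∩ Z)` because `A ⊆ Z`, and
`A = (S ∪ A) \ S`. It takes values in `ι × {A | |A| ≤ m} × ⋃_{k'} PO n k'`, `k ≤ k' ≤ n²`
(`isPO_union`). -/
theorem cube {k : ℕ} {ι : Type*} [Fintype ι] [DecidableEq ι]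
    (F : Finset (Finset (Fin n × Fin n)))
    (hF : F ⊆ PO n k) (t : Finset (Fin n × Fin n) → ι) (Z : ι → Finset (Fin n × Fin n))
    (m s : ℕ) (hm : ∀ S ∈ F, (S ∩ Z (t S)).card ≤ m)
    (hs : ∀ S ∈ F, 4 * s ≤ (Add S ∩ Z (t S)).card) :
    F.card * 2 ^ s ≤ Fintype.card ι *
      ((univ : Finset (Finset (Fin n × Fin n))).filter fun A => A.card ≤ m).card *
      ∑ k' ∈ Finset.Icc k (n * n), cnt n k' := by
  classical
  have hB : ∀ S : Finset (Fin n × Fin n), ∃ B : Finset (Fin n), (Add S ∩ Z (t S)).card ≤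
      4 * ((Add S ∩ Z (t S)).filter fun p => p.1 ∈ B ∧ p.2 ∉ B).card := by
    intro S
    refine exists_cut _ fun p hp => ?_
    rw [Finset.mem_inter] at hp
    have := hp.1
    simp only [Add, Finset.mem_filter, Finset.mem_univ, true_and] at this
    exact this.1
  choose B hBS using hB
  set C : Finset (Fin n × Fin n) → Finset (Fin n × Fin n) := fun S =>
    (Add S ∩ Z (t S)).filter fun p => p.1 ∈ B S ∧ p.2 ∉ B S with hC
  have hCs : ∀ S ∈ F, s ≤ (C S).card := by
    intro S hS
    have h1 := hs S hS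
    have h2 := hBS S
    have h3 : (Add S ∩ Z (t S)).card ≤ 4 * (C S).card := h2
    omega
  have hCA : ∀ S, C S ⊆ Add S := fun S p hp => by
    rw [hC, Finset.mem_filter, Finset.mem_inter] at hp
    exact hp.1.1
  have hCZ : ∀ S, C S ⊆ Z (t S) := fun S p hp => by
    rw [hC, Finset.mem_filter, Finset.mem_inter] at hp
    exact hp.1.2
  have hCB : ∀ S, ∀ p ∈ C S, p.1 ∈ B S ∧ p.2 ∉ B S := fun S p hp => by
    rw [hC, Finset.mem_filter] at hp
    exact hp.2
  have hCS : ∀ S, ∀ p ∈ C S, p ∉ S := fun S p hp => by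
    have := hCA S hp
    simp only [Add, Finset.mem_filter, Finset.mem_univ, true_and] at this
    exact this.2.1
  set T : Finset (Σ _ : Finset (Fin n × Fin n), Finset (Fin n × Fin n)) :=
    F.sigma fun S => (C S).powerset with hT
  have hTcard : F.card * 2 ^ s ≤ T.card := by
    rw [hT, Finset.card_sigma]
    calc F.card * 2 ^ s = ∑ _S ∈ F, 2 ^ s := by rw [Finset.sum_const, smul_eq_mul]
      _ ≤ ∑ S ∈ F, (C S).powerset.card := by
        refine Finset.sum_le_sum fun S hS => ?_
        rw [Finset.card_powerset]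
        exact Nat.pow_le_pow_right (by norm_num) (hCs S hS)
  set U : Finset (ι × Finset (Fin n × Fin n) × Finset (Fin n × Fin n)) :=
    (univ : Finset ι) ×ˢ (((univ : Finset (Finset (Fin n × Fin n))).filter
      fun A => A.card ≤ m) ×ˢ ((Finset.Icc k (n * n)).biUnion fun k' => PO n k')) with hU
  have hUcard : U.card ≤ Fintype.card ι *
      ((univ : Finset (Finset (Fin n × Fin n))).filter fun A => A.card ≤ m).card *
      ∑ k' ∈ Finset.Icc k (n * n), cnt n k' := by
    rw [hU, Finset.card_product, Finset.card_product, Finset.card_univ, ← mul_assoc]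
    refine Nat.mul_le_mul_left _ ?_
    exact Finset.card_biUnion_le
  refine le_trans hTcard (le_trans ?_ hUcard)
  refine Finset.card_le_card_of_injOn
    (fun x => (t x.1, x.1 ∩ Z (t x.1), x.1 ∪ x.2)) ?_ ?_
  · rintro ⟨S, A⟩ hx
    rw [Finset.mem_coe, hT, Finset.mem_sigma, Finset.mem_powerset] at hx
    obtain ⟨hSF, hAC⟩ := hx
    simp only at hSF hAC
    have hSPO := hF hSF
    rw [PO, Finset.mem_filter] at hSPO
    simp only [hU, Finset.coe_product, Set.mem_prod, Finset.mem_coe, Finset.mem_univ, true_and,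
      Finset.mem_filter, Finset.mem_biUnion, Finset.mem_Icc]
    refine ⟨hm S hSF, (S ∪ A).card, ⟨?_, ?_⟩, ?_⟩
    · rw [← hSPO.2.2]
      exact Finset.card_le_card Finset.subset_union_left
    · calc (S ∪ A).card ≤ Fintype.card (Fin n × Fin n) := Finset.card_le_univ _
        _ = n * n := by rw [Fintype.card_prod, Fintype.card_fin]
    · rw [PO, Finset.mem_filter]
      refine ⟨Finset.mem_univ _, isPO_union hSPO.2.1 (hAC.trans (hCA S)) (B S)
        (fun p hp => hCB S p (hAC hp)), rfl⟩
  · rintro ⟨S, A⟩ hx ⟨S', A'⟩ hx' heq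
    rw [Finset.mem_coe, hT, Finset.mem_sigma, Finset.mem_powerset] at hx hx'
    obtain ⟨hSF, hAC⟩ := hx
    obtain ⟨hSF', hAC'⟩ := hx'
    simp only at hSF hAC hSF' hAC'
    simp only [Prod.mk.injEq] at heq
    obtain ⟨h1, h2, h3⟩ := heq
    have hrec : ∀ S A : Finset (Fin n × Fin n), A ⊆ Z (t S) →
        S = ((S ∪ A) \ Z (t S)) ∪ (S ∩ Z (t S)) := by
      intro S A hAZ
      ext p
      simp only [Finset.mem_union, Finset.mem_sdiff, Finset.mem_inter]
      constructor
      · intro hp
        by_cases hz : p ∈ Z (t S)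
        · exact Or.inr ⟨hp, hz⟩
        · exact Or.inl ⟨Or.inl hp, hz⟩
      · rintro (⟨hp | hp, hz⟩ | ⟨hp, hz⟩)
        · exact hp
        · exact absurd (hAZ hp) hz
        · exact hp
    have hS : S = S' := by
      rw [hrec S A (hAC.trans (hCZ S)), hrec S' A' (hAC'.trans (hCZ S')), h3, h2, h1]
    subst hS
    have hA' : ∀ A : Finset (Fin n × Fin n), A ⊆ C S → A = (S ∪ A) \ S := by
      intro A hA
      ext p
      simp only [Finset.mem_union, Finset.mem_sdiff]
      constructor
      · intro hp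
        exact ⟨Or.inr hp, hCS S p (hA hp)⟩
      · rintro ⟨hp | hp, hn⟩
        · exact absurd hp hn
        · exact hp
    have : A = A' := by
      rw [hA' A hAC, hA' A' hAC', h3]
    rw [this]

end Pool.Agent.H.MP_82502e_co
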