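import Pool.Agent.H.MP_82502e_co.DecA
import Pool.Agent.H.MP_82502e_co.DecB

set_option autoImplicit false

/-!
# The decreasing part: addable pairs are few
-/

namespace Pool.Agent.H.MP_82502e_co

open Finset Real

theorem decd_mono {α : Type*} (s : Finset α) {p q : α → Prop} {hp : DecidablePred p}
    {hq : DecidablePred q} (h : ∀ a ∈ s, p a → q a) :
    (@Finset.filter α p hp s).card ≤ (@Finset.filter α q hq s).card := by
  refine card_le_card fun a ha => ?_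
  rw [mem_filter] at ha ⊢
  exact ⟨ha.1, h a ha.1 ha.2⟩

theorem decd_sub {α : Type*} (s : Finset α) {p : α → Prop} {hp : DecidablePred p} :
    (@Finset.filter α p hp s).card ≤ s.card :=
  Finset.card_filter_le _ _

/-- A choice of natural relabellings and types. -/
theorem decd_choice {n : ℕ} {η : ℝ} {T : Finset (Fin n × Fin n → Col)}
    (hT : ∀ S : Finset (Fin n × Fin n), IsPO S → Nat' S → ∃ c ∈ T, IsType η S c) :
    ∃ t : Finset (Fin n × Fin n) → Equiv.Perm (Fin n) × T, ∀ S, IsPO S →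
      Nat' (relab (t S).1 S) ∧ IsType η (relab (t S).1 S) (t S).2.1 := by
  obtain ⟨c0, hc0, -⟩ := hT ∅ ⟨fun i hi => absurd hi (notMem_empty _),
    fun i j l hij _ => absurd hij (notMem_empty _)⟩ (fun p hp => absurd hp (notMem_empty _))
  have h1 : ∀ S : Finset (Fin n × Fin n), ∃ x : Equiv.Perm (Fin n) × T, IsPO S →
      Nat' (relab x.1 S) ∧ IsType η (relab x.1 S) x.2.1 := by
    intro S
    by_cases h : IsPO S
    · obtain ⟨e, he⟩ := exists_nat_relab h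
      obtain ⟨c, hc, ht⟩ := hT _ (isPO_relab h) he
      exact ⟨(e, ⟨c, hc⟩), fun _ => ⟨he, ht⟩⟩
    · exact ⟨(1, ⟨c0, hc0⟩), fun h' => absurd h' h⟩
  choose t ht using h1
  exact ⟨t, ht⟩

/-- The region in which `S` has few pairs. -/
def decd_Z {n : ℕ} (e : Equiv.Perm (Fin n)) (c : Fin n × Fin n → Col) : Finset (Fin n × Fin n) :=
  univ.filter fun p => ¬ (e p.1 < e p.2) ∨ c (e p.1, e p.2) = Col.Z

theorem decd_card_Z {n : ℕ} {e : Equiv.Perm (Fin n)} {c : Fin n × Fin n → Col}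
    {S : Finset (Fin n × Fin n)} (h : Nat' (relab e S)) :
    (S ∩ decd_Z e c).card ≤ (relab e S ∩ cpairs c Col.Z).card := by
  refine card_le_card_of_injOn (fun p => (e p.1, e p.2)) (fun p hp => ?_) ?_
  · rw [mem_coe, mem_inter] at hp
    obtain ⟨hp1, hp2⟩ := hp
    have h1 : (e p.1, e p.2) ∈ relab e S := by
      rw [mem_relab]
      simpa using hp1
    have h2 := h _ h1
    rw [mem_coe, mem_inter]
    refine ⟨h1, mem_filter.2 ⟨mem_univ _, h2, ?_⟩⟩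
    rcases (mem_filter.1 hp2).2 with h3 | h3
    · exact absurd h2 h3
    · exact h3
  · intro p _ p' _ hpp
    have ha : e p.1 = e p'.1 := congrArg Prod.fst hpp
    have hb : e p.2 = e p'.2 := congrArg Prod.snd hpp
    exact Prod.ext (e.injective ha) (e.injective hb)

theorem decd_card_out {n : ℕ} {e : Equiv.Perm (Fin n)} {c : Fin n × Fin n → Col}
    {S : Finset (Fin n × Fin n)} :
    (Add S \ decd_Z e c).card + (relab e S ∩ cpairs c Col.R).card ≤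
      (cpairs c Col.R).card + (cpairs c Col.O \ relab e S).card + (cpairs c Col.E).card := by
  have h1 : (Add S \ decd_Z e c).card ≤ ((cpairs c Col.R \ relab e S) ∪
      (cpairs c Col.O \ relab e S) ∪ cpairs c Col.E).card := by
    refine card_le_card_of_injOn (fun p => (e p.1, e p.2)) (fun p hp => ?_) ?_
    · rw [mem_coe, mem_sdiff] at hp
      obtain ⟨hp1, hp2⟩ := hp
      have h2 : p ∉ S := (mem_Add.1 hp1).2.1
      have h3 : (e p.1, e p.2) ∉ relab e S := by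
        rw [mem_relab]
        simpa using h2
      have h4 : ¬ (¬ (e p.1 < e p.2) ∨ c (e p.1, e p.2) = Col.Z) := fun hc =>
        hp2 (mem_filter.2 ⟨mem_univ _, hc⟩)
      rw [not_or, not_not] at h4
      obtain ⟨h5, h6⟩ := h4
      rw [mem_coe, mem_union, mem_union, mem_sdiff, mem_sdiff]
      have hR : (e p.1, e p.2) ∈ cpairs c Col.R ↔ c (e p.1, e p.2) = Col.R := by
        unfold cpairs
        rw [mem_filter]
        exact ⟨fun h => h.2.2, fun h => ⟨mem_univ _, h5, h⟩⟩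
      have hO : (e p.1, e p.2) ∈ cpairs c Col.O ↔ c (e p.1, e p.2) = Col.O := by
        unfold cpairs
        rw [mem_filter]
        exact ⟨fun h => h.2.2, fun h => ⟨mem_univ _, h5, h⟩⟩
      have hE : (e p.1, e p.2) ∈ cpairs c Col.E ↔ c (e p.1, e p.2) = Col.E := by
        unfold cpairs
        rw [mem_filter]
        exact ⟨fun h => h.2.2, fun h => ⟨mem_univ _, h5, h⟩⟩
      rw [hR, hO, hE]
      cases hcc : c (e p.1, e p.2)
      · exact Or.inl (Or.inl ⟨rfl, h3⟩)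
      · exact Or.inl (Or.inr ⟨rfl, h3⟩)
      · exact absurd hcc h6
      · exact Or.inr rfl
    · intro p _ p' _ hpp
      have ha : e p.1 = e p'.1 := congrArg Prod.fst hpp
      have hb : e p.2 = e p'.2 := congrArg Prod.snd hpp
      exact Prod.ext (e.injective ha) (e.injective hb)
  have h2 := card_union_le ((cpairs c Col.R \ relab e S) ∪ (cpairs c Col.O \ relab e S))
    (cpairs c Col.E)
  have h3 := card_union_le (cpairs c Col.R \ relab e S) (cpairs c Col.O \ relab e S)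
  have h4 : (cpairs c Col.R \ relab e S).card + (relab e S ∩ cpairs c Col.R).card =
      (cpairs c Col.R).card := by
    rw [inter_comm]
    exact card_sdiff_add_card_inter _ _
  omega

/-- `2 exp (-θ n²) ≤ β / 2` for large `n`. -/
theorem decd_exp_small {θ β : ℝ} (hθ : 0 < θ) (hβ : 0 < β) : ∃ n0 : ℕ, ∀ n ≥ n0,
    2 * exp (-(θ * (n : ℝ) ^ 2)) ≤ β / 2 := by
  obtain ⟨N, hN⟩ := exists_nat_ge (4 / (β * θ))
  refine ⟨max N 1, fun n hn => ?_⟩
  have hn1 : (1 : ℝ) ≤ n := by exact_mod_cast le_trans (le_max_right _ _) hn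
  have hn2 : (N : ℝ) ≤ n := by exact_mod_cast le_trans (le_max_left _ _) hn
  have h1 : 4 / (β * θ) ≤ (n : ℝ) ^ 2 := by nlinarith
  rw [div_le_iff₀ (mul_pos hβ hθ)] at h1
  have h2 := add_one_le_exp (θ * (n : ℝ) ^ 2)
  rw [exp_neg]
  have h3 : 0 < exp (θ * (n : ℝ) ^ 2) := exp_pos _
  rw [← div_eq_mul_inv, div_le_iff₀ h3]
  nlinarith

open scoped Classical in
/-- The posets whose type is far from optimal are few. -/
theorem decd_type_few {θ : ℝ} (hθ : 0 < θ) : ∃ η0 : ℝ, 0 < η0 ∧ ∃ n0 : ℕ, ∀ n ≥ n0,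
    ∀ (η : ℝ), η ≤ η0 → η ≤ θ → ∀ (k : ℕ) (g : ℝ) (T : Finset (Fin n × Fin n → Col))
    (t : Finset (Fin n × Fin n) → Equiv.Perm (Fin n) × T),
    (T.card : ℝ) ≤ Real.exp (η * (n : ℝ) ^ 2) →
    (∀ S, IsPO S → Nat' (relab (t S).1 S) ∧ IsType η (relab (t S).1 S) (t S).2.1) →
    (((PO n k).filter fun S =>
      phi ((cpairs (t S).2.1 Col.R).card / (n : ℝ) ^ 2)
        ((relab (t S).1 S ∩ cpairs (t S).2.1 Col.R).card / (n : ℝ) ^ 2) < g).card : ℝ) ≤
      exp ((g + 4 * θ) * (n : ℝ) ^ 2) := by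
  obtain ⟨η0, hη0, h1⟩ := type_count hθ
  obtain ⟨n1, hn1⟩ := factorial_le_exp hθ
  obtain ⟨n2, hn2⟩ := poly_le_exp hθ 1
  refine ⟨η0, hη0, max (max n1 n2) 1, fun n hn η hηη hηθ k g T t hT ht => ?_⟩
  have hn1' := hn1 n (le_trans (le_trans (le_max_left _ _) (le_max_left _ _)) hn)
  have hn2' := hn2 n (le_trans (le_trans (le_max_right _ _) (le_max_left _ _)) hn)
  have hn0 : 0 < n := lt_of_lt_of_le Nat.one_pos (le_trans (le_max_right _ _) hn)
  rw [pow_one] at hn2'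
  have h2 := union_bound_gen (n := n) (k := k) (η := η)
    (C := exp (θ * (n : ℝ) ^ 2) * exp (g * (n : ℝ) ^ 2))
    (mul_nonneg (exp_pos _).le (exp_pos _).le) T (fun S => (t S).1) (fun S => (t S).2.1)
    (fun S hS => (ht S (mem_PO.1 hS).1).1)
    (fun S hS => ⟨(t S).2.2, (ht S (mem_PO.1 hS).1).2⟩)
    (fun c S => phi ((cpairs c Col.R).card / (n : ℝ) ^ 2)
        ((S ∩ cpairs c Col.R).card / (n : ℝ) ^ 2) < g) ?_
  · refine le_trans h2 ?_
    have e1 : exp ((g + 4 * θ) * (n : ℝ) ^ 2) = exp (θ * (n : ℝ) ^ 2) * exp (θ * (n : ℝ) ^ 2) *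
        exp (θ * (n : ℝ) ^ 2) * (exp (θ * (n : ℝ) ^ 2) * exp (g * (n : ℝ) ^ 2)) := by
      rw [← exp_add, ← exp_add, ← exp_add, ← exp_add]
      congr 1
      ring
    rw [e1]
    have hT' : (T.card : ℝ) ≤ exp (θ * (n : ℝ) ^ 2) :=
      le_trans hT (exp_le_exp.2 (mul_le_mul_of_nonneg_right hηθ (by positivity)))
    have hp := (exp_pos (θ * (n : ℝ) ^ 2)).le
    refine mul_le_mul_of_nonneg_right ?_ (mul_nonneg (exp_pos _).le (exp_pos _).le)
    refine mul_le_mul (mul_le_mul hn1' hT' (Nat.cast_nonneg _) hp) hn2' (by positivity)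
      (mul_nonneg hp hp)
  · intro c K _
    by_cases hc : phi ((cpairs c Col.R).card / (n : ℝ) ^ 2) (K / (n : ℝ) ^ 2) < g
    · have h5 := h1 n η hηη c K (fun S => S.card = k ∧
          phi ((cpairs c Col.R).card / (n : ℝ) ^ 2)
            ((S ∩ cpairs c Col.R).card / (n : ℝ) ^ 2) < g) (exp (g * (n : ℝ) ^ 2)) ?_
      · exact le_trans (Nat.cast_le.2 (decd_mono _ fun S _ hS => hS)) h5
      · intro W
        refine le_trans (Nat.cast_le.2 (le_trans (decd_sub _) (card_Fam _ _ _))) ?_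
        by_cases hK : K ≤ (cpairs c Col.R).card
        · refine le_trans (choose_le_exp_scaled hK hn0) (exp_le_exp.2 ?_)
          rw [mul_comm]
          exact mul_le_mul_of_nonneg_right hc.le (by positivity)
        · rw [Nat.choose_eq_zero_of_lt (not_le.1 hK), Nat.cast_zero]
          exact (exp_pos _).le
    · rw [filter_false_of_mem]
      · rw [card_empty, Nat.cast_zero]
        exact mul_nonneg (exp_pos _).le (exp_pos _).le
      · rintro S - ⟨-, -, -, h3, -, h4⟩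
        rw [h3] at h4
        exact hc h4

open scoped Classical in
/-- The posets with many addable pairs in the region `Z` are few. -/
theorem decd_cube_few {δ β θ : ℝ} (hδ : 0 < δ) (hβ : 0 < β) (hθ : 0 < θ)
    (hθβ : θ ≤ β / 1000) :
    ∃ η0 : ℝ, 0 < η0 ∧ ∃ n0 : ℕ, ∀ n ≥ n0,
    ∀ (η : ℝ), 0 ≤ η → η ≤ η0 → η ≤ θ → ∀ (k : ℕ) (T : Finset (Fin n × Fin n → Col))
    (t : Finset (Fin n × Fin n) → Equiv.Perm (Fin n) × T),
    (3 / 16 + δ) * (n : ℝ) ^ 2 ≤ k →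
    (T.card : ℝ) ≤ Real.exp (η * (n : ℝ) ^ 2) →
    (∀ S, IsPO S → Nat' (relab (t S).1 S) ∧ IsType η (relab (t S).1 S) (t S).2.1) →
    (((PO n k).filter fun S =>
      β / 2 * (n : ℝ) ^ 2 ≤ ((Add S ∩ decd_Z (t S).1 (t S).2.1).card : ℝ)).card : ℝ) ≤
      2 * exp ((G (k / (n : ℝ) ^ 2) - 2 * θ) * (n : ℝ) ^ 2) := by
  obtain ⟨η0, hη0, h1⟩ := small_subsets hθ
  obtain ⟨n1, hn1⟩ := factorial_le_exp hθ
  obtain ⟨n2, hn2⟩ := sum_cnt_le hδ hθ
  refine ⟨η0, hη0, max n1 n2, fun n hn η hη hηη hηθ k T t hk hT ht => ?_⟩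
  have hn1' := hn1 n (le_trans (le_max_left _ _) hn)
  have hn2' := hn2 n (le_trans (le_max_right _ _) hn) k hk
  have h1' := h1 n η hηη
  obtain ⟨F, hF⟩ : ∃ F, F = (PO n k).filter fun S =>
      β / 2 * (n : ℝ) ^ 2 ≤ ((Add S ∩ decd_Z (t S).1 (t S).2.1).card : ℝ) := ⟨_, rfl⟩
  rw [← hF]
  obtain ⟨s, hs⟩ : ∃ s, s = ⌊β * (n : ℝ) ^ 2 / 8⌋₊ := ⟨_, rfl⟩
  obtain ⟨m, hm⟩ : ∃ m, m = ⌊η * (n : ℝ) ^ 2⌋₊ := ⟨_, rfl⟩
  have hη2 : 0 ≤ η * (n : ℝ) ^ 2 := by positivity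
  have hβ2 : 0 ≤ β * (n : ℝ) ^ 2 / 8 := by positivity
  have h2 := cube (k := k) F (fun S hS => (mem_filter.1 (hF ▸ hS)).1) t
    (fun x => decd_Z x.1 x.2.1) m s ?_ ?_
  · rw [Fintype.card_prod, Fintype.card_perm, Fintype.card_fin, Fintype.card_coe] at h2
    have h3 : (F.card : ℝ) * 2 ^ s ≤ (n.factorial : ℝ) * T.card *
        ((univ : Finset (Finset (Fin n × Fin n))).filter fun A => A.card ≤ m).card *
        ((∑ k' ∈ Finset.Icc k (n * n), cnt n k' : ℕ) : ℝ) := by exact_mod_cast h2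
    have h4 : (((univ : Finset (Finset (Fin n × Fin n))).filter fun A => A.card ≤ m).card : ℝ) ≤
        exp (θ * (n : ℝ) ^ 2) := by
      refine le_trans (Nat.cast_le.2 (decd_mono _ fun A _ hA => ?_)) h1'
      rw [hm] at hA
      exact (Nat.le_floor_iff hη2).1 hA
    have hT' : (T.card : ℝ) ≤ exp (θ * (n : ℝ) ^ 2) :=
      le_trans hT (exp_le_exp.2 (mul_le_mul_of_nonneg_right hηθ (by positivity)))
    have hp := (exp_pos (θ * (n : ℝ) ^ 2)).le
    have h5 : (n.factorial : ℝ) * T.card *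
        ((univ : Finset (Finset (Fin n × Fin n))).filter fun A => A.card ≤ m).card *
        ((∑ k' ∈ Finset.Icc k (n * n), cnt n k' : ℕ) : ℝ) ≤
        exp (θ * (n : ℝ) ^ 2) * exp (θ * (n : ℝ) ^ 2) * exp (θ * (n : ℝ) ^ 2) *
          exp ((G (k / (n : ℝ) ^ 2) + θ) * (n : ℝ) ^ 2) := by
      refine mul_le_mul (mul_le_mul (mul_le_mul hn1' hT' (Nat.cast_nonneg _) hp) h4
        (Nat.cast_nonneg _) (mul_nonneg hp hp)) hn2' (Nat.cast_nonneg _)
        (mul_nonneg (mul_nonneg hp hp) hp)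
    have h6 : exp (6 * θ * (n : ℝ) ^ 2) / 2 ≤ (2 : ℝ) ^ s := by
      have h7 : (2 : ℝ) ^ s = exp ((s : ℝ) * log 2) := by
        rw [mul_comm, ← Real.rpow_def_of_pos (by norm_num : (0:ℝ) < 2), Real.rpow_natCast]
      have h8 : (2 : ℝ) = exp (log 2) := (exp_log (by norm_num)).symm
      have h9 : exp (6 * θ * (n : ℝ) ^ 2) / 2 = exp (6 * θ * (n : ℝ) ^ 2 - log 2) := by
        rw [exp_sub, ← h8]
      rw [h7, h9]
      refine exp_le_exp.2 ?_
      have h10 : β * (n : ℝ) ^ 2 / 8 < s + 1 := by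
        rw [hs]
        exact Nat.lt_floor_add_one _
      have h11 : (0.69 : ℝ) < log 2 := lt_trans (by norm_num) log_two_gt_d9
      have h12 : 0 ≤ (n : ℝ) ^ 2 := by positivity
      have h13 : θ * (n : ℝ) ^ 2 ≤ β / 1000 * (n : ℝ) ^ 2 :=
        mul_le_mul_of_nonneg_right hθβ h12
      have h14 : β * (n : ℝ) ^ 2 / 8 * log 2 ≤ (s + 1) * log 2 :=
        mul_le_mul_of_nonneg_right h10.le (by linarith)
      have h15 : β * (n : ℝ) ^ 2 / 8 * 0.69 ≤ β * (n : ℝ) ^ 2 / 8 * log 2 :=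
        mul_le_mul_of_nonneg_left h11.le hβ2
      nlinarith
    have h16 : (F.card : ℝ) * (exp (6 * θ * (n : ℝ) ^ 2) / 2) ≤
        exp (θ * (n : ℝ) ^ 2) * exp (θ * (n : ℝ) ^ 2) * exp (θ * (n : ℝ) ^ 2) *
          exp ((G (k / (n : ℝ) ^ 2) + θ) * (n : ℝ) ^ 2) :=
      le_trans (mul_le_mul_of_nonneg_left h6 (Nat.cast_nonneg _)) (le_trans h3 h5)
    have h17 : exp (θ * (n : ℝ) ^ 2) * exp (θ * (n : ℝ) ^ 2) * exp (θ * (n : ℝ) ^ 2) *
          exp ((G (k / (n : ℝ) ^ 2) + θ) * (n : ℝ) ^ 2) =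
        exp ((G (k / (n : ℝ) ^ 2) - 2 * θ) * (n : ℝ) ^ 2) * exp (6 * θ * (n : ℝ) ^ 2) := by
      rw [← exp_add, ← exp_add, ← exp_add, ← exp_add]
      congr 1
      ring
    rw [h17] at h16
    have h18 := exp_pos (6 * θ * (n : ℝ) ^ 2)
    have h19 : (F.card : ℝ) * exp (6 * θ * (n : ℝ) ^ 2) ≤
        (2 * exp ((G (k / (n : ℝ) ^ 2) - 2 * θ) * (n : ℝ) ^ 2)) * exp (6 * θ * (n : ℝ) ^ 2) := by
      linarith
    exact le_of_mul_le_mul_right h19 h18
  · intro S hS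
    rw [hF, mem_filter] at hS
    have hpo := (mem_PO.1 hS.1).1
    rw [hm]
    refine Nat.le_floor ?_
    refine le_trans (Nat.cast_le.2 (decd_card_Z (ht S hpo).1)) (ht S hpo).2.z_le
  · intro S hS
    rw [hF, mem_filter] at hS
    have h3 : (s : ℝ) ≤ β * (n : ℝ) ^ 2 / 8 := by
      rw [hs]
      exact Nat.floor_le hβ2
    have h4 : ((4 * s : ℕ) : ℝ) ≤ ((Add S ∩ decd_Z (t S).1 (t S).2.1).card : ℝ) := by
      rw [Nat.cast_mul]
      refine le_trans ?_ hS.2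
      push_cast
      linarith
    exact_mod_cast h4

/-- The typical posets have few addable pairs. -/
theorem decd_good {n : ℕ} {η β θ : ℝ} {c : Fin n × Fin n → Col}
    {e : Equiv.Perm (Fin n)} {S : Finset (Fin n × Fin n)} (hn : 0 < n)
    (ht : IsType η (relab e S) c) (hηθ : η ≤ θ) (hθβ : θ ≤ β / 1000) (hθ : 0 < θ) {g : ℝ}
    (h1 : phi ((cpairs c Col.R).card / (n : ℝ) ^ 2)
        ((relab e S ∩ cpairs c Col.R).card / (n : ℝ) ^ 2) ≤ g + θ)
    (h2 : (cpairs c Col.R).card / (n : ℝ) ^ 2 / 2 ≤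
        (relab e S ∩ cpairs c Col.R).card / (n : ℝ) ^ 2)
    (h3 : ((Add S ∩ decd_Z e c).card : ℝ) < β / 2 * (n : ℝ) ^ 2) :
    ((Add S).card : ℝ) ≤ (g / (2 * log 2) + β) * (n : ℝ) ^ 2 := by
  have hn2 : (0 : ℝ) < (n : ℝ) ^ 2 := by positivity
  have h4 : (Add S).card = (Add S \ decd_Z e c).card + (Add S ∩ decd_Z e c).card :=
    (card_sdiff_add_card_inter _ _).symm
  have h5 := decd_card_out (e := e) (c := c) (S := S)
  have h5' : ((Add S \ decd_Z e c).card : ℝ) + (relab e S ∩ cpairs c Col.R).card ≤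
      (cpairs c Col.R).card + (cpairs c Col.O \ relab e S).card + (cpairs c Col.E).card := by
    exact_mod_cast h5
  have h6 := ht.o_le
  have h7 := ht.e_le
  have h8 : ((relab e S ∩ cpairs c Col.R).card : ℝ) / (n : ℝ) ^ 2 ≤
      (cpairs c Col.R).card / (n : ℝ) ^ 2 := by
    refine div_le_div_of_nonneg_right ?_ hn2.le
    exact_mod_cast card_le_card inter_subset_right
  have h9 := phi_lin h2 h8
  have h10 : (0.69 : ℝ) < log 2 := lt_trans (by norm_num) log_two_gt_d9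
  obtain ⟨D, hD⟩ : ∃ D : ℝ, D = (cpairs c Col.R).card / (n : ℝ) ^ 2 -
      (relab e S ∩ cpairs c Col.R).card / (n : ℝ) ^ 2 := ⟨_, rfl⟩
  rw [← hD] at h9
  have h11 : D ≤ g / (2 * log 2) + θ := by
    have h12 : D ≤ (g + θ) / (2 * log 2) := by
      rw [le_div_iff₀ (by linarith)]
      linarith
    have h13 : (g + θ) / (2 * log 2) = g / (2 * log 2) + θ / (2 * log 2) := add_div _ _ _
    have h14 : θ / (2 * log 2) ≤ θ := by
      refine div_le_self hθ.le ?_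
      linarith
    linarith
  have h15 : D * (n : ℝ) ^ 2 = (cpairs c Col.R).card - (relab e S ∩ cpairs c Col.R).card := by
    rw [hD, sub_mul, div_mul_cancel₀ _ hn2.ne', div_mul_cancel₀ _ hn2.ne']
  have h16 : D * (n : ℝ) ^ 2 ≤ (g / (2 * log 2) + θ) * (n : ℝ) ^ 2 :=
    mul_le_mul_of_nonneg_right h11 hn2.le
  have h17 : η * (n : ℝ) ^ 2 ≤ β / 1000 * (n : ℝ) ^ 2 :=
    mul_le_mul_of_nonneg_right (le_trans hηθ hθβ) hn2.le
  have h18 : θ * (n : ℝ) ^ 2 ≤ β / 1000 * (n : ℝ) ^ 2 :=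
    mul_le_mul_of_nonneg_right hθβ hn2.le
  have h19 : 0 ≤ β * (n : ℝ) ^ 2 := by
    have : 0 ≤ β := by linarith
    positivity
  rw [h4]
  push_cast
  nlinarith

open scoped Classical in
/-- **Addable pairs are few.**

Proof. `θ = β/1000` (and as in `cov_typ`), `η ≤ θ` small. For `S ∈ PO n k` choose a permutation `e` with `relab e S` natural and a type `c ∈ T` (`type_lemma η`) of `relab e S`;
`ι = Perm (Fin n) × T`, `t S = (e, c)`, `Z (e,c) = {p | ¬ (e p.1 < e p.2) ∨ c (e p.1, e p.2) = Z}`. `S ∩ Z (t S)` corresponds to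
`relab e S ∩ cpairs c Z`, so it has at most `η n²` elements. Addable pairs outside `Z (t S)` go up under `e`, are not in `S`, and have
colour `R`, `O` or `E`: at most `(r - κ) n² + 2η n²`, `r = |R|/n²`, `κ = |relab e S ∩ R|/n²`.
Bad `S`: (i) `phi r κ < G d - 10θ` for its natural relabelling: few by `union_bound_gen` and the count of `cov_typ` (i);
(ii) `|Add S ∩ Z (t S)| ≥ (β/2) n²`: by `cube` with `s = ⌊β n²/8⌋`, `m = ⌊η n²⌋`, `small_subsets`, `sum_cnt_le`, `G_lb`: the number is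
`≤ 2^(-s) n! |T| exp(θ n²) exp((G d + θ) n²) ≤ exp((G d + 4θ - (β/8) log 2) n² + 1)`, few;
(iii) otherwise `κ ≥ r/2` (`near_opt_type`), and by `phi_lin`, `phi_le_G`: `2 (r - κ) log 2 ≤ phi r κ ≤ G d + θ`, so
`|Add S| ≤ ((G d + θ)/(2 log 2) + 2η + β/2) n² ≤ (G d/(2 log 2) + β) n²`: not bad. -/
theorem add_typ {δ : ℝ} (hδ : 0 < δ) : ∀ β : ℝ, 0 < β → ∃ n0 : ℕ, ∀ n ≥ n0,
    ∀ k : ℕ, (3 / 16 + δ) * (n : ℝ) ^ 2 ≤ k → (k : ℝ) ≤ (1 / 2 - δ) * (n : ℝ) ^ 2 →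
    (((PO n k).filter fun S =>
      (G (k / (n : ℝ) ^ 2) / (2 * log 2) + β) * (n : ℝ) ^ 2 < ((Add S).card : ℝ)).card : ℝ) ≤
      β * cnt n k := by
  intro β hβ
  obtain ⟨c1, θ1, η1, hc1, hθ1, hη1, n1, hn1⟩ := near_opt_type hδ
  obtain ⟨θ, hθ, hθβ, hθθ⟩ : ∃ θ : ℝ, 0 < θ ∧ θ ≤ β / 1000 ∧ 10 * θ ≤ θ1 :=
    ⟨min (β / 1000) (θ1 / 10), lt_min (by positivity) (by positivity), min_le_left _ _, by
      have := min_le_right (β / 1000) (θ1 / 10)
      linarith⟩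
  obtain ⟨η2, hη2, n2, hn2⟩ := phi_le_G hθ
  obtain ⟨η3, hη3, n3, hn3⟩ := decd_type_few hθ
  obtain ⟨η4, hη4, n4, hn4⟩ := decd_cube_few hδ hβ hθ hθβ
  obtain ⟨η, hη, hηθ, hη1', hη2', hη3', hη4'⟩ : ∃ η : ℝ, 0 < η ∧ η ≤ θ ∧ η ≤ η1 ∧ η ≤ η2 ∧
      η ≤ η3 ∧ η ≤ η4 := by
    refine ⟨min θ (min (min η1 η2) (min η3 η4)), ?_, min_le_left _ _, ?_, ?_, ?_, ?_⟩
    · exact lt_min hθ (lt_min (lt_min hη1 hη2) (lt_min hη3 hη4))
    · exact le_trans (min_le_right _ _) (le_trans (min_le_left _ _) (min_le_left _ _))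
    · exact le_trans (min_le_right _ _) (le_trans (min_le_left _ _) (min_le_right _ _))
    · exact le_trans (min_le_right _ _) (le_trans (min_le_right _ _) (min_le_left _ _))
    · exact le_trans (min_le_right _ _) (le_trans (min_le_right _ _) (min_le_right _ _))
  obtain ⟨n5, hn5⟩ := type_lemma hη
  obtain ⟨n6, hn6⟩ := G_lb hδ hθ
  obtain ⟨n7, hn7⟩ := decd_exp_small hθ hβ
  refine ⟨n1 + n2 + n3 + n4 + n5 + n6 + n7 + 1, fun n hn k hk1 hk2 => ?_⟩
  obtain ⟨T, hT, hT2⟩ := hn5 n (by omega)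
  obtain ⟨t, ht⟩ := decd_choice hT2
  have hlb := hn6 n (by omega) k hk2
  have hsm := hn7 n (by omega)
  have hA := hn3 n (by omega) η hη3' hηθ k (G (k / (n : ℝ) ^ 2) - 10 * θ) T t hT ht
  have hB := hn4 n (by omega) η hη.le hη4' hηθ k T t hk1 hT ht
  have hn0 : 0 < n := by omega
  obtain ⟨FA, hFA⟩ : ∃ F, F = (PO n k).filter fun S =>
      phi ((cpairs (t S).2.1 Col.R).card / (n : ℝ) ^ 2)
        ((relab (t S).1 S ∩ cpairs (t S).2.1 Col.R).card / (n : ℝ) ^ 2) <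
        G (k / (n : ℝ) ^ 2) - 10 * θ := ⟨_, rfl⟩
  obtain ⟨FB, hFB⟩ : ∃ F, F = (PO n k).filter fun S =>
      β / 2 * (n : ℝ) ^ 2 ≤ ((Add S ∩ decd_Z (t S).1 (t S).2.1).card : ℝ) := ⟨_, rfl⟩
  rw [← hFA] at hA
  rw [← hFB] at hB
  have h1 : ((PO n k).filter fun S =>
      (G (k / (n : ℝ) ^ 2) / (2 * log 2) + β) * (n : ℝ) ^ 2 < ((Add S).card : ℝ)) ⊆ FA ∪ FB := by
    intro S hS
    rw [mem_filter] at hS
    obtain ⟨hS1, hS2⟩ := hS
    obtain ⟨hpo, hcard⟩ := mem_PO.1 hS1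
    obtain ⟨hnat, hty⟩ := ht S hpo
    rw [mem_union, hFA, hFB, mem_filter, mem_filter]
    by_contra hcon
    rw [not_or] at hcon
    obtain ⟨hcA, hcB⟩ := hcon
    have hcA' := not_lt.1 fun h => hcA ⟨hS1, h⟩
    have hcB' := not_le.1 fun h => hcB ⟨hS1, h⟩
    have hcard' : (relab (t S).1 S).card = k := by rw [card_relab, hcard]
    have h2 := hn1 n (by omega) η (t S).2.1 (relab (t S).1 S) hη1' (isPO_relab hpo) hnat hty
      (by rw [hcard']; exact hk1) (by rw [hcard']; exact hk2)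
      (by rw [hcard']; linarith)
    have h3 := hn2 n (by omega) η (t S).2.1 (relab (t S).1 S) hη2' (isPO_relab hpo) hnat hty
    rw [hcard'] at h3
    have h4 : (cpairs (t S).2.1 Col.R).card / (n : ℝ) ^ 2 / 2 ≤
        (relab (t S).1 S ∩ cpairs (t S).2.1 Col.R).card / (n : ℝ) ^ 2 := by
      have h5 : 0 ≤ c1 * ((cpairs (t S).2.1 Col.R).card / (n : ℝ) ^ 2) := by positivity
      linarith
    exact absurd hS2 (not_lt.2 (decd_good hn0 hty hηθ hθβ hθ h3 h4 hcB'))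
  have h2 : (((PO n k).filter fun S =>
      (G (k / (n : ℝ) ^ 2) / (2 * log 2) + β) * (n : ℝ) ^ 2 < ((Add S).card : ℝ)).card : ℝ) ≤
      FA.card + FB.card := by
    exact_mod_cast le_trans (card_le_card h1) (card_union_le _ _)
  have hc0 : (0 : ℝ) ≤ cnt n k := Nat.cast_nonneg _
  have h3 : exp ((G (k / (n : ℝ) ^ 2) - 2 * θ) * (n : ℝ) ^ 2) =
      exp (-(θ * (n : ℝ) ^ 2)) * exp ((G (k / (n : ℝ) ^ 2) - θ) * (n : ℝ) ^ 2) := by
    rw [← exp_add]
    congr 1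
    ring
  have h4 : exp ((G (k / (n : ℝ) ^ 2) - 10 * θ + 4 * θ) * (n : ℝ) ^ 2) ≤
      exp ((G (k / (n : ℝ) ^ 2) - 2 * θ) * (n : ℝ) ^ 2) := by
    refine exp_le_exp.2 (mul_le_mul_of_nonneg_right ?_ (by positivity))
    linarith
  have h5 : exp (-(θ * (n : ℝ) ^ 2)) * exp ((G (k / (n : ℝ) ^ 2) - θ) * (n : ℝ) ^ 2) ≤
      exp (-(θ * (n : ℝ) ^ 2)) * cnt n k := mul_le_mul_of_nonneg_left hlb (exp_pos _).le
  have h6 : exp (-(θ * (n : ℝ) ^ 2)) * cnt n k ≤ β / 4 * cnt n k := by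
    refine mul_le_mul_of_nonneg_right ?_ hc0
    linarith
  rw [h3] at hB h4
  have h7 : 0 ≤ β * cnt n k := mul_nonneg hβ.le hc0
  linarith

end Pool.Agent.H.MP_82502e_co
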