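import Pool.Agent.H.MP_82502e_co.DecC
import Pool.Agent.H.MP_82502e_co.DecD

set_option autoImplicit false

/-!
# The decreasing part: final inequality
-/

namespace Pool.Agent.H.MP_82502e_co

open Finset Real

/-- **Decreasing part.** `c1` from `cov_typ (δ/2)`, `g0 = (δ/3) log 2 ≤ G d`; `β` small compared with `c1 g0`; `d' = (k+1)/n²`, `G d' ≥ G d - β`
(`G_cont`). `∑_{PO n k} |Add| ≤ cnt n k (G d/(2 log 2) + 2β) n²` (bad ones have `|Add S| ≤ n²`),
`∑_{PO n (k+1)} |Cov| ≥ (1-β) cnt n (k+1) ((1/2+c1) G d'/log 2 - β) n²`, and `sum_card_add`. If `cnt n k ≤ cnt n (k+1)` then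
`(1-β)((1/2+c1)(G d - β)/log 2 - β) ≤ G d/(2 log 2) + 2β` (`cnt n k > 0`), contradiction. -/
theorem dec {δ : ℝ} (hδ : 0 < δ) : ∃ n0 : ℕ, ∀ n ≥ n0, ∀ k : ℕ,
    (3 / 16 + δ) * (n : ℝ) ^ 2 ≤ k → (k : ℝ) ≤ (1 / 2 - δ) * (n : ℝ) ^ 2 →
    cnt n (k + 1) < cnt n k := by
  classical
  have hL : 0 < log 2 := log_pos (by norm_num)
  have hL1 : log 2 < 1 := by
    have := Real.log_two_lt_d9
    linarith
  obtain ⟨c1, hc1, hcov⟩ := cov_typ (show 0 < δ / 2 by positivity)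
  obtain ⟨g0, hg0⟩ : ∃ g0, g0 = δ / 3 * log 2 := ⟨_, rfl⟩
  have hg0p : 0 < g0 := by
    rw [hg0]
    positivity
  obtain ⟨β, hβ⟩ : ∃ β, β = c1 * g0 / (2 * (4 + 2 * c1)) := ⟨_, rfl⟩
  have hβp : 0 < β := by
    rw [hβ]
    positivity
  have hβ1 : β * (2 * (4 + 2 * c1)) = c1 * g0 := by
    rw [hβ]
    field_simp
  have hβ2 : β ≤ g0 / 4 := by
    have : β * (4 * c1) ≤ c1 * g0 := by nlinarith
    have h2 : c1 * (4 * β) ≤ c1 * g0 := by linarith
    have := le_of_mul_le_mul_left h2 hc1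
    linarith
  obtain ⟨n1, hn1⟩ := hcov β hβp
  obtain ⟨n2, hn2⟩ := add_typ hδ β hβp
  obtain ⟨Δ, hΔ, hGc⟩ := G_cont hβp
  obtain ⟨n3, hn3⟩ := exists_nat_ge (2 / δ)
  obtain ⟨n4, hn4⟩ := exists_nat_ge (1 / Δ)
  obtain ⟨n5, hn5⟩ := G_lb hδ hβp
  refine ⟨max (max (max n1 n2) (max n3 n4)) (max n5 1), ?_⟩
  intro n hn k hk1 hk2
  have m1 : n1 ≤ n := le_trans (le_trans (le_trans (le_max_left _ _) (le_max_left _ _)) (le_max_left _ _)) hn
  have m2 : n2 ≤ n := le_trans (le_trans (le_trans (le_max_right _ _) (le_max_left _ _)) (le_max_left _ _)) hn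
  have m3 : n3 ≤ n := le_trans (le_trans (le_trans (le_max_left _ _) (le_max_right _ _)) (le_max_left _ _)) hn
  have m4 : n4 ≤ n := le_trans (le_trans (le_trans (le_max_right _ _) (le_max_right _ _)) (le_max_left _ _)) hn
  have m5 : n5 ≤ n := le_trans (le_trans (le_max_left _ _) (le_max_right _ _)) hn
  have m6 : 1 ≤ n := le_trans (le_trans (le_max_right _ _) (le_max_right _ _)) hn
  have hnr : (1 : ℝ) ≤ n := by exact_mod_cast m6
  have hnsq : (n : ℝ) ≤ (n : ℝ) ^ 2 := by nlinarith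
  have hN : (0 : ℝ) < (n : ℝ) ^ 2 := by positivity
  have hδn : 2 ≤ δ * (n : ℝ) ^ 2 := by
    have h1 : 2 / δ ≤ (n : ℝ) ^ 2 := hn3.trans (le_trans (by exact_mod_cast m3) hnsq)
    rw [div_le_iff₀ hδ] at h1
    linarith
  have hΔn : 1 ≤ Δ * (n : ℝ) ^ 2 := by
    have h1 : 1 / Δ ≤ (n : ℝ) ^ 2 := hn4.trans (le_trans (by exact_mod_cast m4) hnsq)
    rw [div_le_iff₀ hΔ] at h1
    linarith
  -- the values of `G`
  obtain ⟨x, hx⟩ : ∃ x, x = G (k / (n : ℝ) ^ 2) := ⟨_, rfl⟩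
  obtain ⟨x', hx'⟩ : ∃ x', x' = G (((k + 1 : ℕ) : ℝ) / (n : ℝ) ^ 2) := ⟨_, rfl⟩
  have hxg : g0 ≤ x := by
    rw [hg0, hx]
    refine G_pos hδ ?_ ?_
    · rw [le_div_iff₀ hN]
      nlinarith
    · rw [div_le_iff₀ hN]
      exact hk2
  have hxL : x ≤ log 2 / 4 := by
    rw [hx]
    exact G_le _
  have hxx' : x - β ≤ x' := by
    rw [hx, hx']
    refine hGc _ _ ?_
    have h1 : (k : ℝ) / (n : ℝ) ^ 2 - ((k + 1 : ℕ) : ℝ) / (n : ℝ) ^ 2 = - (1 / (n : ℝ) ^ 2) := by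
      push_cast
      ring
    rw [h1, abs_neg, abs_of_nonneg (by positivity), div_le_iff₀ hN]
    exact hΔn
  have hcov' := hn1 n m1 (k + 1) (by
    push_cast
    nlinarith) (by
    push_cast
    nlinarith)
  have hadd' := hn2 n m2 k hk1 hk2
  rw [← hx'] at hcov'
  rw [← hx] at hadd'
  have hpos : (0 : ℝ) < cnt n k := lt_of_lt_of_le (exp_pos _) (hn5 n m5 k hk2)
  by_contra hcon
  rw [not_lt] at hcon
  have hconr : (cnt n k : ℝ) ≤ cnt n (k + 1) := by exact_mod_cast hcon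
  obtain ⟨c, hc⟩ : ∃ c : ℝ, c = cnt n k := ⟨_, rfl⟩
  obtain ⟨c', hc'⟩ : ∃ c' : ℝ, c' = cnt n (k + 1) := ⟨_, rfl⟩
  rw [← hc] at hadd' hpos hconr
  rw [← hc'] at hcov' hconr
  -- upper bound
  obtain ⟨a, ha⟩ : ∃ a : ℝ, a = x / (2 * log 2) + β := ⟨_, rfl⟩
  obtain ⟨A, hA⟩ : ∃ A : ℝ, A = (1 / 2 + c1) * x' / log 2 - β := ⟨_, rfl⟩
  rw [← ha] at hadd'
  rw [← hA] at hcov'
  have hapos : 0 ≤ a := by
    rw [ha]
    have : 0 ≤ x / (2 * log 2) := div_nonneg (by linarith) (by positivity)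
    linarith
  have hup : ((∑ S ∈ PO n k, (Add S).card : ℕ) : ℝ) ≤ (a + β) * c * (n : ℝ) ^ 2 := by
    push_cast
    have h1 : ∀ S ∈ PO n k, ((Add S).card : ℝ) ≤ a * (n : ℝ) ^ 2 +
        (if a * (n : ℝ) ^ 2 < ((Add S).card : ℝ) then (n : ℝ) ^ 2 else 0) := by
      intro S _
      by_cases h : a * (n : ℝ) ^ 2 < ((Add S).card : ℝ)
      · rw [if_pos h]
        have h2 : (Add S).card ≤ n * n := by
          have := card_le_univ (Add S)
          rwa [Fintype.card_prod, Fintype.card_fin] at this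
        have h3 : ((Add S).card : ℝ) ≤ (n : ℝ) ^ 2 := by
          rw [pow_two]
          exact_mod_cast h2
        have h4 : 0 ≤ a * (n : ℝ) ^ 2 := mul_nonneg hapos hN.le
        linarith
      · rw [if_neg h, add_zero]
        exact not_lt.1 h
    refine (sum_le_sum h1).trans ?_
    rw [sum_add_distrib, sum_const, ← sum_filter, sum_const, nsmul_eq_mul, nsmul_eq_mul]
    have h5 : (((PO n k).card : ℕ) : ℝ) = c := by
      rw [hc]
      rfl
    rw [h5]
    have h6 := mul_le_mul_of_nonneg_right hadd' hN.le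
    nlinarith
  -- lower bound
  have hβx : β ≤ x / 4 := by linarith
  have hβ1' : β < 1 := by linarith
  have hApos : 0 ≤ A := by
    rw [hA]
    have h1 : β ≤ (1 / 2 + c1) * x' / log 2 := by
      rw [le_div_iff₀ hL]
      have h2 : 3 / 4 * x ≤ x' := by linarith
      nlinarith
    linarith
  have hlow : (1 - β) * c' * A * (n : ℝ) ^ 2 ≤ ((∑ T ∈ PO n (k + 1), (Cov T).card : ℕ) : ℝ) := by
    push_cast
    have h1 : ∀ T ∈ PO n (k + 1), A * (n : ℝ) ^ 2 -
        (if ((Cov T).card : ℝ) < A * (n : ℝ) ^ 2 then A * (n : ℝ) ^ 2 else 0) ≤ ((Cov T).card : ℝ) := by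
      intro T _
      by_cases h : ((Cov T).card : ℝ) < A * (n : ℝ) ^ 2
      · rw [if_pos h, sub_self]
        positivity
      · rw [if_neg h, sub_zero]
        exact not_lt.1 h
    refine le_trans ?_ (sum_le_sum h1)
    rw [sum_sub_distrib, sum_const, ← sum_filter, sum_const, nsmul_eq_mul, nsmul_eq_mul]
    have h5 : (((PO n (k + 1)).card : ℕ) : ℝ) = c' := by
      rw [hc']
      rfl
    rw [h5]
    have h6 := mul_le_mul_of_nonneg_right hcov' (mul_nonneg hApos hN.le)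
    nlinarith
  rw [sum_card_add] at hup
  have h7 := hlow.trans hup
  have h8 : (1 - β) * c' * A ≤ (a + β) * c := by
    have := le_of_mul_le_mul_right h7 hN
    exact this
  have hc'pos : 0 < c' := lt_of_lt_of_le hpos hconr
  have h9 : (1 - β) * A ≤ a + β := by
    have h10 : (1 - β) * c' * A ≤ (a + β) * c' :=
      h8.trans (mul_le_mul_of_nonneg_left hconr (by linarith))
    have h11 : c' * ((1 - β) * A) ≤ c' * (a + β) := by linarith
    exact le_of_mul_le_mul_left h11 hc'pos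
  -- multiply by `log 2`
  have h12 : A * log 2 = (1 / 2 + c1) * x' - β * log 2 := by
    rw [hA]
    field_simp
  have h13 : a * log 2 = x / 2 + β * log 2 := by
    rw [ha]
    field_simp
  have h14 : (1 - β) * ((1 / 2 + c1) * x' - β * log 2) ≤ x / 2 + 2 * (β * log 2) := by
    have h15 := mul_le_mul_of_nonneg_right h9 hL.le
    rw [mul_assoc, h12, add_mul a β (log 2), h13] at h15
    linarith
  have h16 : (1 - β) * ((1 / 2 + c1) * (x - β) - β * log 2) ≤ x / 2 + 2 * (β * log 2) := by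
    refine le_trans (mul_le_mul_of_nonneg_left ?_ (by linarith)) h14
    have := mul_le_mul_of_nonneg_left hxx' (show 0 ≤ 1 / 2 + c1 by linarith)
    linarith
  have hx1 : x ≤ 1 := by linarith
  have h17 : c1 * x ≤ β * (4 + 2 * c1) := by
    have e1 : 0 ≤ β * β * ((1 / 2 + c1) + log 2) := by positivity
    have e2 : β * ((1 / 2 + c1) * x) ≤ β * (1 / 2 + c1) := by
      refine mul_le_mul_of_nonneg_left ?_ hβp.le
      nlinarith
    have e3 : β * log 2 ≤ β := by nlinarith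
    nlinarith
  have h18 : c1 * g0 ≤ c1 * x := mul_le_mul_of_nonneg_left hxg hc1.le
  have h19 : 0 < c1 * g0 := mul_pos hc1 hg0p
  linarith

end Pool.Agent.H.MP_82502e_co
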