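import Pool.Agent.H.MP_82502e_co.Defs

set_option autoImplicit false

/-!
# Adding and removing one relation
-/

namespace Pool.Agent.H.MP_82502e_co

open Finset

variable {n : ℕ}

theorem mem_PO {k : ℕ} {S : Finset (Fin n × Fin n)} : S ∈ PO n k ↔ IsPO S ∧ S.card = k := by
  classical
  unfold PO
  simp only [mem_filter, mem_univ, true_and]

theorem mem_Dn {S : Finset (Fin n × Fin n)} {x z : Fin n} : z ∈ Dn S x ↔ (z, x) ∈ S := by
  unfold Dn
  rw [mem_filter]
  exact and_iff_right (mem_univ _)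

theorem mem_Up {S : Finset (Fin n × Fin n)} {x z : Fin n} : z ∈ Up S x ↔ (x, z) ∈ S := by
  unfold Up
  rw [mem_filter]
  exact and_iff_right (mem_univ _)

theorem mem_Add {S : Finset (Fin n × Fin n)} {p : Fin n × Fin n} :
    p ∈ Add S ↔ p.1 ≠ p.2 ∧ p ∉ S ∧ (p.2, p.1) ∉ S ∧
      (∀ z, (z, p.1) ∈ S → (z, p.2) ∈ S) ∧ ∀ z, (p.2, z) ∈ S → (p.1, z) ∈ S := by
  unfold Add
  rw [mem_filter, and_iff_right (mem_univ p)]
  refine and_congr_right fun _ => and_congr_right fun _ => and_congr_right fun _ => ?_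
  refine and_congr ?_ ?_
  · constructor
    · intro h z hz
      exact mem_Dn.1 (h (mem_Dn.2 hz))
    · intro h z hz
      exact mem_Dn.2 (h z (mem_Dn.1 hz))
  · constructor
    · intro h z hz
      exact mem_Up.1 (h (mem_Up.2 hz))
    · intro h z hz
      exact mem_Up.2 (h z (mem_Up.1 hz))

theorem mem_Cov {S : Finset (Fin n × Fin n)} {p : Fin n × Fin n} :
    p ∈ Cov S ↔ p ∈ S ∧ ∀ z, ¬ ((p.1, z) ∈ S ∧ (z, p.2) ∈ S) := by
  unfold Cov
  rw [mem_filter]

theorem isPO_insert {S : Finset (Fin n × Fin n)} (h : IsPO S) {p : Fin n × Fin n}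
    (hp : p ∈ Add S) : IsPO (insert p S) := by
  obtain ⟨h1, -, -, h4, h5⟩ := mem_Add.1 hp
  refine ⟨fun i hi => ?_, fun i j l hij hjl => ?_⟩
  · rcases mem_insert.1 hi with hi | hi
    · exact h1 (by rw [← hi])
    · exact h.1 i hi
  · rw [mem_insert] at hij hjl ⊢
    rcases hij with hij | hij
    · rcases hjl with hjl | hjl
      · have ha : j = p.2 := by rw [← hij]
        have hb : j = p.1 := by rw [← hjl]
        exact absurd (hb.symm.trans ha) h1
      · right
        have ha : i = p.1 := by rw [← hij]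
        have hb : j = p.2 := by rw [← hij]
        rw [hb] at hjl
        rw [ha]
        exact h5 l hjl
    · rcases hjl with hjl | hjl
      · right
        have ha : j = p.1 := by rw [← hjl]
        have hb : l = p.2 := by rw [← hjl]
        rw [ha] at hij
        rw [hb]
        exact h4 i hij
      · exact Or.inr (h.2 i j l hij hjl)

theorem isPO_erase {S : Finset (Fin n × Fin n)} (h : IsPO S) {p : Fin n × Fin n}
    (hp : p ∈ Cov S) : IsPO (S.erase p) := by
  obtain ⟨_, h2⟩ := mem_Cov.1 hp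
  refine ⟨fun i hi => h.1 i (mem_of_mem_erase hi), fun i j l hij hjl => ?_⟩
  have hij' := mem_of_mem_erase hij
  have hjl' := mem_of_mem_erase hjl
  refine mem_erase.2 ⟨fun hc => ?_, h.2 i j l hij' hjl'⟩
  apply h2 j
  rw [← hc]
  exact ⟨hij', hjl'⟩

theorem cov_insert_self {S : Finset (Fin n × Fin n)} (h : IsPO S) {p : Fin n × Fin n}
    (hp : p ∈ Add S) : p ∈ Cov (insert p S) := by
  obtain ⟨h1, h2, -, h4, h5⟩ := mem_Add.1 hp
  refine mem_Cov.2 ⟨mem_insert_self p S, fun z hz => ?_⟩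
  obtain ⟨ha, hb⟩ := hz
  rcases mem_insert.1 ha with ha | ha
  · have hz2 : z = p.2 := by rw [← ha]
    rcases mem_insert.1 hb with hb | hb
    · exact h1 ((show z = p.1 by rw [← hb]).symm.trans hz2)
    · rw [hz2] at hb
      exact h.1 _ hb
  · rcases mem_insert.1 hb with hb | hb
    · have hz1 : z = p.1 := by rw [← hb]
      rw [hz1] at ha
      exact h.1 _ ha
    · exact h2 (h.2 p.1 z p.2 ha hb)

theorem add_erase_self {S : Finset (Fin n × Fin n)} (h : IsPO S) {p : Fin n × Fin n}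
    (hp : p ∈ Cov S) : p ∈ Add (S.erase p) := by
  obtain ⟨h1, -⟩ := mem_Cov.1 hp
  have h1' : (p.1, p.2) ∈ S := h1
  refine mem_Add.2 ⟨fun hc => ?_, notMem_erase p S, fun hc => ?_, fun z hz => ?_, fun z hz => ?_⟩
  · rw [← hc] at h1'
    exact h.1 _ h1'
  · exact h.1 _ (h.2 p.1 p.2 p.1 h1' (mem_of_mem_erase hc))
  · have hz' := mem_of_mem_erase hz
    refine mem_erase.2 ⟨fun hc => ?_, h.2 z p.1 p.2 hz' h1'⟩
    have : z = p.1 := by rw [← hc]
    rw [this] at hz'
    exact h.1 _ hz'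
  · have hz' := mem_of_mem_erase hz
    refine mem_erase.2 ⟨fun hc => ?_, h.2 p.1 p.2 z h1' hz'⟩
    have : z = p.2 := by rw [← hc]
    rw [this] at hz'
    exact h.1 _ hz'

/-- The identity. Bijection `(S, p) ↦ (insert p S, p)` between `{(S,p) | S ∈ PO n k, p ∈ Add S}` and
`{(T,p) | T ∈ PO n (k+1), p ∈ Cov T}`. -/
theorem sum_card_add (n k : ℕ) :
    ∑ S ∈ PO n k, (Add S).card = ∑ T ∈ PO n (k + 1), (Cov T).card := by
  rw [← card_sigma, ← card_sigma]
  refine card_nbij' (fun q => ⟨insert q.2 q.1, q.2⟩) (fun q => ⟨q.1.erase q.2, q.2⟩) ?_ ?_ ?_ ?_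
  · rintro ⟨S, p⟩ h
    rw [mem_coe, mem_sigma] at h ⊢
    obtain ⟨hS, hp⟩ := h
    rw [mem_PO] at hS
    refine ⟨mem_PO.2 ⟨isPO_insert hS.1 hp, ?_⟩, cov_insert_self hS.1 hp⟩
    rw [card_insert_of_notMem (mem_Add.1 hp).2.1, hS.2]
  · rintro ⟨S, p⟩ h
    rw [mem_coe, mem_sigma] at h ⊢
    obtain ⟨hS, hp⟩ := h
    rw [mem_PO] at hS
    refine ⟨mem_PO.2 ⟨isPO_erase hS.1 hp, ?_⟩, add_erase_self hS.1 hp⟩
    rw [card_erase_of_mem (mem_Cov.1 hp).1, hS.2, Nat.add_sub_cancel]
  · rintro ⟨S, p⟩ h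
    rw [mem_coe, mem_sigma] at h
    have hp : p ∉ S := (mem_Add.1 h.2).2.1
    simp only [erase_insert hp]
  · rintro ⟨S, p⟩ h
    rw [mem_coe, mem_sigma] at h
    have hp : p ∈ S := (mem_Cov.1 h.2).1
    simp only [insert_erase hp]

theorem card_cov_le {k : ℕ} {S : Finset (Fin n × Fin n)} (h : S ∈ PO n k) :
    (Cov S).card ≤ k := by
  rw [← (mem_PO.1 h).2]
  exact card_filter_le _ _

/-- A nonempty strict partial order has a cover relation: take a related pair with the smallest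
number of elements below its upper element. -/
theorem cov_nonempty {S : Finset (Fin n × Fin n)} (h : IsPO S) (hne : S.Nonempty) :
    (Cov S).Nonempty := by
  obtain ⟨p, hp, hmin⟩ := exists_min_image S (fun p => (Dn S p.2).card) hne
  refine ⟨p, mem_Cov.2 ⟨hp, fun z hz => ?_⟩⟩
  have h1 := hmin (p.1, z) hz.1
  have h2 : Dn S z ⊂ Dn S p.2 := by
    rw [ssubset_iff_of_subset fun w hw => mem_Dn.2 (h.2 w z p.2 (mem_Dn.1 hw) hz.2)]
    exact ⟨z, mem_Dn.2 hz.2, fun hc => h.1 z (mem_Dn.1 hc)⟩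
  exact absurd (card_lt_card h2) (not_lt.2 h1)

theorem card_chain (n : ℕ) :
    ((univ : Finset (Fin n × Fin n)).filter fun p => p.1 < p.2).card = n * (n - 1) / 2 := by
  have h1 : ((univ : Finset (Fin n × Fin n)).filter fun p => p.1 < p.2).card =
      ((univ : Finset (Fin n × Fin n)).filter fun p => p.2 < p.1).card := by
    refine card_nbij' Prod.swap Prod.swap ?_ ?_ ?_ ?_
    · intro p hp
      simpa using hp
    · intro p hp
      simpa using hp
    · intro p _
      exact Prod.swap_swap p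
    · intro p _
      exact Prod.swap_swap p
  have h2 : (univ : Finset (Fin n)).offDiag =
      ((univ : Finset (Fin n × Fin n)).filter fun p => p.1 < p.2) ∪
        ((univ : Finset (Fin n × Fin n)).filter fun p => p.2 < p.1) := by
    ext p
    rw [mem_offDiag, mem_union, mem_filter, mem_filter]
    have h3 : p.1 ≠ p.2 ↔ p.1 < p.2 ∨ p.2 < p.1 := ne_iff_lt_or_gt
    rw [h3]
    simp
  have h3 : Disjoint ((univ : Finset (Fin n × Fin n)).filter fun p => p.1 < p.2)
      ((univ : Finset (Fin n × Fin n)).filter fun p => p.2 < p.1) := by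
    rw [disjoint_filter]
    intro p _ ha hb
    exact lt_asymm ha hb
  have h4 := offDiag_card (univ : Finset (Fin n))
  rw [h2, card_union_of_disjoint h3, ← h1, card_univ, Fintype.card_fin] at h4
  have h5 : n * n - n = n * (n - 1) := by
    rw [Nat.mul_sub, mul_one]
  rw [h5] at h4
  omega

/-- Every level is nonempty: `k ≤ n(n-1)/2`. Descending induction from the chain: a nonempty partial
order has a cover relation, so by the identity the level below is not empty. -/
theorem cnt_pos {n k : ℕ} (h : k ≤ n * (n - 1) / 2) : 0 < cnt n k := by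
  obtain ⟨d, hd⟩ : ∃ d, k + d = n * (n - 1) / 2 := ⟨n * (n - 1) / 2 - k, by omega⟩
  induction d generalizing k with
  | zero =>
    unfold cnt
    rw [card_pos]
    refine ⟨(univ : Finset (Fin n × Fin n)).filter fun p => p.1 < p.2, mem_PO.2 ⟨⟨?_, ?_⟩, ?_⟩⟩
    · intro i hi
      exact lt_irrefl i (mem_filter.1 hi).2
    · intro i j l hij hjl
      exact mem_filter.2 ⟨mem_univ _, lt_trans (mem_filter.1 hij).2 (mem_filter.1 hjl).2⟩
    · rw [card_chain]
      omega
  | succ d ih =>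
    have h1 := ih (k := k + 1) (by omega) (by omega)
    unfold cnt at h1 ⊢
    obtain ⟨T, hT⟩ := card_pos.1 h1
    have h2 : 0 < ∑ T ∈ PO n (k + 1), (Cov T).card := by
      refine sum_pos' (fun _ _ => Nat.zero_le _) ⟨T, hT, ?_⟩
      have h3 := mem_PO.1 hT
      exact card_pos.2 (cov_nonempty h3.1 (card_pos.1 (by rw [h3.2]; omega)))
    rw [← sum_card_add] at h2
    by_contra hc
    rw [not_lt, Nat.le_zero, card_eq_zero] at hc
    rw [hc, sum_empty] at h2
    exact lt_irrefl 0 h2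

theorem cnt_zero (n : ℕ) : cnt n 0 = 1 := by
  unfold cnt
  rw [card_eq_one]
  refine ⟨∅, ?_⟩
  ext S
  rw [mem_PO, mem_singleton, card_eq_zero]
  constructor
  · exact fun h => h.2
  · rintro rfl
    exact ⟨⟨fun i hi => absurd hi (notMem_empty _), fun i j l hij _ => absurd hij (notMem_empty _)⟩,
      rfl⟩

theorem card_first (m : ℕ) (h : m ≤ n) :
    ((univ : Finset (Fin n)).filter fun i : Fin n => (i : ℕ) < m).card = m := by
  have h1 : ((univ : Finset (Fin n)).filter fun i : Fin n => (i : ℕ) < m).map Fin.valEmbedding =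
      range m := by
    ext a
    rw [mem_map, mem_range]
    constructor
    · rintro ⟨i, hi, rfl⟩
      exact (mem_filter.1 hi).2
    · intro ha
      exact ⟨⟨a, lt_of_lt_of_le ha h⟩, mem_filter.2 ⟨mem_univ _, ha⟩, rfl⟩
  rw [← card_map Fin.valEmbedding, h1, card_range]

/-- Bipartite posets: all subsets of `A × B` for disjoint `A`, `B` are posets. With
`A` the first `n/2` points: `cnt n k ≥ choose (n/2 * (n - n/2)) k`. -/
theorem choose_le_cnt (n k : ℕ) : (n / 2 * (n - n / 2)).choose k ≤ cnt n k := by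
  obtain ⟨A, hA⟩ : ∃ A : Finset (Fin n), A = univ.filter fun i : Fin n => (i : ℕ) < n / 2 :=
    ⟨_, rfl⟩
  have h1 : A.card = n / 2 := by
    rw [hA]
    exact card_first _ (Nat.div_le_self n 2)
  have h2 : Aᶜ.card = n - n / 2 := by
    rw [card_compl, h1, Fintype.card_fin]
  have h3 : (A ×ˢ Aᶜ).card = n / 2 * (n - n / 2) := by
    rw [card_product, h1, h2]
  rw [← h3, ← card_powersetCard]
  unfold cnt
  refine card_le_card fun S hS => ?_
  rw [mem_powersetCard] at hS
  obtain ⟨hS1, hS2⟩ := hS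
  refine mem_PO.2 ⟨⟨fun i hi => ?_, fun i j l hij hjl => ?_⟩, hS2⟩
  · have := mem_product.1 (hS1 hi)
    exact (mem_compl.1 this.2) this.1
  · have ha := mem_product.1 (hS1 hij)
    have hb := mem_product.1 (hS1 hjl)
    exact absurd hb.1 (mem_compl.1 ha.2)

/-- The increasing criterion: if `(k+1) * |PO n k| < ∑ |Add S|` then `cnt n k < cnt n (k+1)`. -/
theorem lt_of_sum_add {n k : ℕ} (h : (k + 1) * cnt n k < ∑ S ∈ PO n k, (Add S).card) :
    cnt n k < cnt n (k + 1) := by
  rw [sum_card_add] at h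
  have h1 : ∑ T ∈ PO n (k + 1), (Cov T).card ≤ (k + 1) * cnt n (k + 1) := by
    have h2 := sum_le_card_nsmul (PO n (k + 1)) (fun T => (Cov T).card) (k + 1)
      fun T hT => card_cov_le hT
    rw [smul_eq_mul] at h2
    unfold cnt
    rw [mul_comm]
    exact h2
  exact lt_of_mul_lt_mul_left (h.trans_le h1) (Nat.zero_le _)

end Pool.Agent.H.MP_82502e_co
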