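import Pool.Agent.H.MP_82502e_co.PatEx
import Pool.Agent.H.MP_82502e_co.Ident

set_option autoImplicit false

/-!
# Lower bounds for `cnt` from patterns
-/

namespace Pool.Agent.H.MP_82502e_co

open Finset Real

/-- The pairs of points in the blow-up whose blocks satisfy the relation `R`. -/
noncomputable def patlb_set {n q : ℕ} (f : Fin n → Option (Fin q)) (R : Fin q → Fin q → Prop) :
    Finset (Fin n × Fin n) := by
  classical
  exact univ.filter fun p => ∃ s t, f p.1 = some s ∧ f p.2 = some t ∧ R s t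

theorem patlb_mem {n q : ℕ} {f : Fin n → Option (Fin q)} {R : Fin q → Fin q → Prop}
    {p : Fin n × Fin n} : p ∈ patlb_set f R ↔ ∃ s t, f p.1 = some s ∧ f p.2 = some t ∧ R s t := by
  classical
  unfold patlb_set
  rw [mem_filter]
  exact and_iff_right (mem_univ _)

open scoped Classical in
theorem patlb_card {n q : ℕ} (f : Fin n → Option (Fin q)) (R : Fin q → Fin q → Prop) :
    ((patlb_set f R).card : ℝ) = ∑ s, ∑ t, if R s t then
      ((univ.filter fun x => f x = some s).card : ℝ) *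
        ((univ.filter fun x => f x = some t).card : ℝ) else 0 := by
  have h1 : patlb_set f R = ((univ : Finset (Fin q × Fin q)).filter fun st => R st.1 st.2).biUnion
      fun st => (univ.filter fun x => f x = some st.1) ×ˢ
        (univ.filter fun x => f x = some st.2) := by
    ext p
    rw [patlb_mem, mem_biUnion]
    constructor
    · rintro ⟨s, t, h1, h2, h3⟩
      refine ⟨(s, t), mem_filter.2 ⟨mem_univ _, h3⟩, mem_product.2 ⟨?_, ?_⟩⟩
      · exact mem_filter.2 ⟨mem_univ _, h1⟩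
      · exact mem_filter.2 ⟨mem_univ _, h2⟩
    · rintro ⟨st, h1, h2⟩
      have h3 := mem_product.1 h2
      exact ⟨st.1, st.2, (mem_filter.1 h3.1).2, (mem_filter.1 h3.2).2, (mem_filter.1 h1).2⟩
  have h2 : (patlb_set f R).card = ∑ st ∈ (univ : Finset (Fin q × Fin q)).filter
      (fun st => R st.1 st.2), (univ.filter fun x => f x = some st.1).card *
        (univ.filter fun x => f x = some st.2).card := by
    rw [h1, card_biUnion]
    · exact sum_congr rfl fun st _ => card_product _ _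
    · intro a _ b _ hab
      rw [Function.onFun, disjoint_left]
      intro p hp hp'
      apply hab
      have h3 := mem_product.1 hp
      have h4 := mem_product.1 hp'
      have h5 := (mem_filter.1 h3.1).2
      have h6 := (mem_filter.1 h3.2).2
      have h7 := (mem_filter.1 h4.1).2
      have h8 := (mem_filter.1 h4.2).2
      rw [h5] at h7
      rw [h6] at h8
      exact Prod.ext (Option.some.inj h7) (Option.some.inj h8)
  rw [h2, sum_filter, ← sum_product']
  push_cast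
  rfl

/-- The size of the set of pairs of colour `a`. -/
theorem patlb_card_form {n q : ℕ} (P : Pat q) (f : Fin n → Option (Fin q)) {a : Col}
    (ha : a ≠ Col.Z) :
    ((patlb_set f fun s t => P.pos s < P.pos t ∧ P.col s t = a).card : ℝ) =
      P.form a (fun s => ((univ.filter fun x => f x = some s).card : ℝ))
        (fun s => ((univ.filter fun x => f x = some s).card : ℝ)) / 2 := by
  classical
  obtain ⟨c, hc⟩ : ∃ c : Fin q → ℝ, c = fun s => ((univ.filter fun x => f x = some s).card : ℝ) :=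
    ⟨_, rfl⟩
  have hcs : ∀ s, ((univ.filter fun x => f x = some s).card : ℝ) = c s := fun s => by rw [hc]
  rw [patlb_card]
  simp only [hcs]
  have h1 : P.form a c c = (∑ s, ∑ t, if P.pos s < P.pos t ∧ P.col s t = a then c s * c t else 0) +
      ∑ s, ∑ t, if P.pos t < P.pos s ∧ P.col t s = a then c t * c s else 0 := by
    unfold Pat.form
    rw [← sum_add_distrib]
    refine sum_congr rfl fun s _ => ?_
    rw [← sum_add_distrib]
    refine sum_congr rfl fun t _ => ?_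
    rw [P.symm t s]
    by_cases h : P.col s t = a
    · have hst : P.pos s ≠ P.pos t := by
        intro he
        have : s = t := P.inj he
        rw [this, P.diag] at h
        exact ha h.symm
      rcases lt_or_gt_of_ne hst with hlt | hlt
      · rw [if_pos h, if_pos ⟨hlt, h⟩, if_neg (fun hh => lt_asymm hlt hh.1), add_zero]
      · rw [if_pos h, if_neg (fun hh => lt_asymm hlt hh.1), if_pos ⟨hlt, h⟩, zero_add, mul_comm]
    · rw [if_neg h, if_neg (fun hh => h hh.2), if_neg (fun hh => h hh.2), add_zero]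
  have h2 : (∑ s, ∑ t, if P.pos t < P.pos s ∧ P.col t s = a then c t * c s else 0) =
      ∑ s, ∑ t, if P.pos s < P.pos t ∧ P.col s t = a then c s * c t else 0 := sum_comm
  rw [h2] at h1
  rw [h1]
  ring

/-- Blow-up of a pattern. `f : Fin n → Option (Fin q)` gives the block of a point. `O`-pairs are complete, every subset of
the `R`-pairs may be added. Here the pairs are oriented by the positions.

Proof. `Opairs = {(x,y) | ∃ s t, f x = some s, f y = some t, pos s < pos t, col s t = O}`, `Rpairs` similarly. For every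
`A ⊆ Rpairs` the set `Opairs ∪ A` is a strict partial order: irreflexive since `pos s < pos s` is false; transitive by `Pat.trans`
(`(x,y),(y,z)` in the set have `pos s < pos t < pos u` and colours `≠ Z`, so `col s u = O` and `(x,z) ∈ Opairs`). Different
`A` give different sets (`Opairs`, `Rpairs` are disjoint). So for `m = |Opairs|`, `N = |Rpairs|`, `m ≤ k`:
`choose N (k - m) ≤ cnt n k`. The sizes: `|Opairs| = ∑_{pos s < pos t, O} m_s m_t` with `m_s` the size of block `s`; this is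
`(1/2) form O m m` (symmetry). -/
theorem blowup {n q : ℕ} (P : Pat q) (f : Fin n → Option (Fin q)) :
    ∃ m N : ℕ,
      (m : ℝ) = P.form Col.O (fun s => ((univ.filter fun x => f x = some s).card : ℝ))
        (fun s => ((univ.filter fun x => f x = some s).card : ℝ)) / 2 ∧
      (N : ℝ) = P.form Col.R (fun s => ((univ.filter fun x => f x = some s).card : ℝ))
        (fun s => ((univ.filter fun x => f x = some s).card : ℝ)) / 2 ∧
      ∀ k, m ≤ k → N.choose (k - m) ≤ cnt n k := by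
  classical
  obtain ⟨SO, hSO⟩ : ∃ S, S = patlb_set f fun s t => P.pos s < P.pos t ∧ P.col s t = Col.O :=
    ⟨_, rfl⟩
  obtain ⟨SR, hSR⟩ : ∃ S, S = patlb_set f fun s t => P.pos s < P.pos t ∧ P.col s t = Col.R :=
    ⟨_, rfl⟩
  refine ⟨SO.card, SR.card, ?_, ?_, ?_⟩
  · rw [hSO]
    exact patlb_card_form P f (by decide)
  · rw [hSR]
    exact patlb_card_form P f (by decide)
  have hdisj : Disjoint SO SR := by
    rw [disjoint_left]
    intro p hp hp'
    rw [hSO, patlb_mem] at hp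
    rw [hSR, patlb_mem] at hp'
    obtain ⟨s, t, h1, h2, h3⟩ := hp
    obtain ⟨s', t', h1', h2', h3'⟩ := hp'
    rw [h1] at h1'
    rw [h2] at h2'
    have hs := Option.some.inj h1'
    have ht := Option.some.inj h2'
    subst hs ht
    rw [h3.2] at h3'
    exact absurd h3'.2 (by decide)
  have hmemU : ∀ A ⊆ SR, ∀ p ∈ SO ∪ A, ∃ s t, f p.1 = some s ∧ f p.2 = some t ∧
      P.pos s < P.pos t ∧ P.col s t ≠ Col.Z := by
    intro A hA p hp
    rcases mem_union.1 hp with hp | hp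
    · rw [hSO, patlb_mem] at hp
      obtain ⟨s, t, h1, h2, h3⟩ := hp
      exact ⟨s, t, h1, h2, h3.1, by rw [h3.2]; decide⟩
    · have hp := hA hp
      rw [hSR, patlb_mem] at hp
      obtain ⟨s, t, h1, h2, h3⟩ := hp
      exact ⟨s, t, h1, h2, h3.1, by rw [h3.2]; decide⟩
  intro k hk
  rw [← card_powersetCard]
  unfold cnt
  refine card_le_card_of_injOn (fun A => SO ∪ A) ?_ ?_
  · intro A hA
    rw [mem_coe, mem_powersetCard] at hA
    rw [mem_coe, mem_PO]
    refine ⟨⟨?_, ?_⟩, ?_⟩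
    · intro i hi
      obtain ⟨s, t, h1, h2, h3, -⟩ := hmemU A hA.1 _ hi
      have h1' : f i = some s := h1
      have h2' : f i = some t := h2
      rw [h1'] at h2'
      have := Option.some.inj h2'
      rw [this] at h3
      exact lt_irrefl _ h3
    · intro i j l hij hjl
      obtain ⟨s, t, h1, h2, h3, h4⟩ := hmemU A hA.1 _ hij
      obtain ⟨t', u, h1', h2', h3', h4'⟩ := hmemU A hA.1 _ hjl
      have ha : f j = some t := h2
      have hb : f j = some t' := h1'
      rw [ha] at hb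
      have := Option.some.inj hb
      subst this
      apply mem_union_left
      rw [hSO, patlb_mem]
      exact ⟨s, u, h1, h2', h3.trans h3', P.trans s t u h3 h3' h4 h4'⟩
    · rw [card_union_of_disjoint (hdisj.mono_right hA.1), hA.2]
      omega
  · intro A hA B hB hAB
    rw [mem_coe, mem_powersetCard] at hA hB
    have hAB' : SO ∪ A = SO ∪ B := hAB
    ext p
    constructor
    · intro hp
      have h1 : p ∈ SO ∪ B := by rw [← hAB']; exact mem_union_right _ hp
      rcases mem_union.1 h1 with h2 | h2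
      · exact absurd (hA.1 hp) (disjoint_left.1 hdisj h2)
      · exact h2
    · intro hp
      have h1 : p ∈ SO ∪ A := by rw [hAB']; exact mem_union_right _ hp
      rcases mem_union.1 h1 with h2 | h2
      · exact absurd (hB.1 hp) (disjoint_left.1 hdisj h2)
      · exact h2

/-- Blocks of given sizes exist when the sum of the sizes is at most `n`. -/
theorem patlb_blocks {n q : ℕ} (m : Fin q → ℕ) (h : ∑ s, m s ≤ n) :
    ∃ f : Fin n → Option (Fin q), ∀ s, (univ.filter fun x => f x = some s).card = m s := by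
  classical
  have hc : Fintype.card ((s : Fin q) × Fin (m s)) ≤ Fintype.card (Fin n) := by
    rw [Fintype.card_sigma, Fintype.card_fin]
    simpa using h
  obtain ⟨e⟩ := Function.Embedding.nonempty_of_card_le hc
  refine ⟨fun x => if hx : ∃ p, e p = x then some hx.choose.1 else none, fun s => ?_⟩
  have h1 : (univ.filter fun x => (if hx : ∃ p, e p = x then some hx.choose.1 else none) = some s)
      = (univ : Finset (Fin (m s))).map
        ⟨fun i => e ⟨s, i⟩, fun i j hij => by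
          have := e.injective hij
          simpa using this⟩ := by
    ext x
    rw [mem_filter, mem_map]
    constructor
    · rintro ⟨-, hx⟩
      by_cases hh : ∃ p, e p = x
      · rw [dif_pos hh] at hx
        have h2 := Option.some.inj hx
        have h3 := hh.choose_spec
        obtain ⟨p, hp⟩ : ∃ p, p = hh.choose := ⟨_, rfl⟩
        rw [← hp] at h2 h3
        obtain ⟨s', i⟩ := p
        subst h2
        exact ⟨i, mem_univ _, h3⟩
      · rw [dif_neg hh] at hx
        exact absurd hx (by simp)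
    · rintro ⟨i, -, hi⟩
      have hi' : e ⟨s, i⟩ = x := hi
      refine ⟨mem_univ _, ?_⟩
      have hh : ∃ p, e p = x := ⟨_, hi'⟩
      rw [dif_pos hh]
      have h3 := hh.choose_spec
      have h4 : hh.choose = ⟨s, i⟩ := e.injective (h3.trans hi'.symm)
      rw [h4]
  rw [h1, card_map, card_univ, Fintype.card_fin]

/-- Block sizes `⌊w_s n⌋` can be realized (their sum is `≤ n`). -/
theorem exists_blocks {q : ℕ} {w : Fin q → ℝ} (hw : IsProb w) (n : ℕ) :
    ∃ f : Fin n → Option (Fin q), ∀ s, (univ.filter fun x => f x = some s).card = ⌊w s * n⌋₊ := by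
  apply patlb_blocks
  have h1 : ((∑ s, ⌊w s * n⌋₊ : ℕ) : ℝ) ≤ n := by
    push_cast
    calc ∑ s, ((⌊w s * n⌋₊ : ℕ) : ℝ) ≤ ∑ s, w s * n :=
          sum_le_sum fun s _ => Nat.floor_le (mul_nonneg (hw.nonneg s) (Nat.cast_nonneg n))
      _ = n := by rw [← sum_mul, hw.sum, one_mul]
  exact_mod_cast h1

/-- The forms of the rounded block sizes, from above. -/
theorem patlb_form_le {q : ℕ} (P : Pat q) (a : Col) {w M : Fin q → ℝ} {n : ℝ}
    (hM : ∀ s, 0 ≤ M s) (hle : ∀ s, M s ≤ w s * n) :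
    P.form a M M ≤ P.form a w w * n ^ 2 := by
  unfold Pat.form
  rw [sum_mul]
  refine sum_le_sum fun s _ => ?_
  rw [sum_mul]
  refine sum_le_sum fun t _ => ?_
  split_ifs
  · calc M s * M t ≤ (w s * n) * (w t * n) :=
          mul_le_mul (hle s) (hle t) (hM t) ((hM s).trans (hle s))
      _ = w s * w t * n ^ 2 := by ring
  · rw [zero_mul]

/-- The forms of the rounded block sizes, from below. -/
theorem patlb_le_form {q : ℕ} (P : Pat q) (a : Col) {w M : Fin q → ℝ} (hw : IsProb w) {n : ℝ}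
    (hn : 0 ≤ n) (hM : ∀ s, 0 ≤ M s) (hle : ∀ s, M s ≤ w s * n) (hge : ∀ s, w s * n ≤ M s + 1) :
    P.form a w w * n ^ 2 - 2 * q * n ≤ P.form a M M := by
  have h1 : ∑ s : Fin q, ∑ t : Fin q, (w s + w t) * n = 2 * q * n := by
    have h2 : ∀ s : Fin q, ∑ t : Fin q, (w s + w t) * n = (q * w s + 1) * n := by
      intro s
      rw [← sum_mul, sum_add_distrib, hw.sum, sum_const, card_univ, Fintype.card_fin,
        nsmul_eq_mul]
    simp only [h2]
    rw [← sum_mul, sum_add_distrib, ← mul_sum, hw.sum, sum_const, card_univ, Fintype.card_fin,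
      nsmul_eq_mul]
    ring
  rw [← h1, sub_le_iff_le_add]
  unfold Pat.form
  rw [sum_mul, ← sum_add_distrib]
  refine sum_le_sum fun s _ => ?_
  rw [sum_mul, ← sum_add_distrib]
  refine sum_le_sum fun t _ => ?_
  have hs := hw.nonneg s
  have ht := hw.nonneg t
  split_ifs
  · have h3 : w s * n * (w t * n - M t) ≤ w s * n * 1 :=
      mul_le_mul_of_nonneg_left (by linarith [hge t]) (mul_nonneg hs hn)
    have h4 : M t * (w s * n - M s) ≤ M t * 1 :=
      mul_le_mul_of_nonneg_left (by linarith [hge s]) (hM t)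
    have h5 := hle t
    nlinarith only [h3, h4, h5]
  · have : 0 ≤ (w s + w t) * n := mul_nonneg (add_nonneg hs ht) hn
    linarith

theorem patlb_exp {n : ℕ} {θ : ℝ} (hθ : 0 < θ) (hn : 3 / θ ≤ n) :
    (n : ℝ) ^ 2 + 1 ≤ exp (θ / 2 * (n : ℝ) ^ 2) := by
  have hn0 : (0 : ℝ) < n := lt_of_lt_of_le (by positivity) hn
  have h1 : 3 ≤ θ * n := by
    rw [div_le_iff₀ hθ] at hn
    linarith
  have h2 := quadratic_le_exp_of_nonneg (show 0 ≤ θ / 2 * (n : ℝ) ^ 2 by positivity)
  refine le_trans ?_ h2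
  have h3 : (9 : ℝ) ≤ (θ * n) ^ 2 := by nlinarith only [h1]
  have h4 : 0 ≤ θ / 2 * (n : ℝ) ^ 2 := by positivity
  have h5 : (n : ℝ) ^ 2 * 9 ≤ (n : ℝ) ^ 2 * (θ * n) ^ 2 :=
    mul_le_mul_of_nonneg_left h3 (by positivity)
  have h6 : (n : ℝ) ^ 2 * (θ * n) ^ 2 = 8 * ((θ / 2 * (n : ℝ) ^ 2) ^ 2 / 2) := by ring
  have h7 : 0 ≤ (n : ℝ) ^ 2 := by positivity
  linarith

/-- Lower bound from one pattern. With `ρ, ω` the forms at `w`, `r = ρ/2`, `o = ω/2`, block sizes `m_s = ⌊w_s n⌋`: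
`o n² - q n ≤ m ≤ o n²` and `r n² - q n ≤ N ≤ r n²` (`m_s m_t ≥ w_s w_t n² - (w_s + w_t) n` and
`∑_{s,t} (w_s + w_t)/2 ≤ q`). Let `x = k/n² - o ∈ [0,r]`. If `k - m ≤ N`: `choose N (k-m) ≥ exp(n² phi(N/n²,(k-m)/n²))/(N+1)`, and
`phi_unif` (arguments differ by at most `q/n`) gives `≥ exp((phi r x - θ/2) n²)/(n²+1) ≥ exp((phi r x - θ) n²)`. If `k - m > N`
then `r - x ≤ 2q/n`, so `phi r x ≤ θ` (compare with `phi r r = 0`) and `cnt n k ≥ 1` (`cnt_pos`; the hypothesis
`k ≤ n(n-1)/2` is given). -/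
theorem pat_lb {q : ℕ} (P : Pat q) {w : Fin q → ℝ} (hw : IsProb w) {θ : ℝ} (hθ : 0 < θ) :
    ∃ n0 : ℕ, ∀ n ≥ n0, ∀ k : ℕ, k ≤ n * (n - 1) / 2 →
      P.form Col.O w w / 2 * (n : ℝ) ^ 2 ≤ k →
      (k : ℝ) ≤ (P.form Col.O w w + P.form Col.R w w) / 2 * (n : ℝ) ^ 2 →
      exp ((phi (P.form Col.R w w / 2) (k / (n : ℝ) ^ 2 - P.form Col.O w w / 2) - θ) *
        (n : ℝ) ^ 2) ≤ cnt n k := by
  classical
  obtain ⟨Δ, hΔ, hu⟩ := phi_unif (show 0 < θ / 2 by positivity)
  refine ⟨⌈2 * (q : ℝ) / Δ⌉₊ + ⌈3 / θ⌉₊ + 1, fun n hn k hk hko hkr => ?_⟩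
  have hcnt : (1 : ℝ) ≤ cnt n k := by exact_mod_cast cnt_pos hk
  have hn1 : 2 * (q : ℝ) / Δ ≤ n :=
    (Nat.le_ceil _).trans (by exact_mod_cast (by omega : ⌈2 * (q : ℝ) / Δ⌉₊ ≤ n))
  have hn2 : 3 / θ ≤ n := (Nat.le_ceil _).trans (by exact_mod_cast (by omega : ⌈3 / θ⌉₊ ≤ n))
  have hn0 : 0 < n := by omega
  have hn0' : (0 : ℝ) < n := by exact_mod_cast hn0
  have hn3 : (0 : ℝ) < (n : ℝ) ^ 2 := by positivity
  obtain ⟨o, ho⟩ : ∃ o, o = P.form Col.O w w / 2 := ⟨_, rfl⟩
  obtain ⟨r, hr⟩ : ∃ r, r = P.form Col.R w w / 2 := ⟨_, rfl⟩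
  have ho' : P.form Col.O w w = 2 * o := by rw [ho]; ring
  have hr' : P.form Col.R w w = 2 * r := by rw [hr]; ring
  rw [← ho] at hko
  have hkr' : (k : ℝ) ≤ (o + r) * (n : ℝ) ^ 2 := by
    rw [ho', hr'] at hkr
    linarith
  rw [← ho, ← hr]
  have hr0 : 0 ≤ r := by
    have := P.form_nonneg Col.R hw.nonneg hw.nonneg
    linarith
  have hr1 : r ≤ 1 := by
    have := P.form_le_one Col.R hw hw
    linarith
  obtain ⟨f, hf⟩ := exists_blocks hw n
  obtain ⟨m, N, hm, hN, hch⟩ := blowup P f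
  obtain ⟨M, hM⟩ : ∃ M : Fin q → ℝ, M = fun s => ((univ.filter fun x => f x = some s).card : ℝ) :=
    ⟨_, rfl⟩
  rw [← hM] at hm hN
  have hM0 : ∀ s, 0 ≤ M s := fun s => by rw [hM]; exact Nat.cast_nonneg _
  have hMle : ∀ s, M s ≤ w s * n := by
    intro s
    rw [hM]
    simp only [hf]
    exact Nat.floor_le (mul_nonneg (hw.nonneg s) hn0'.le)
  have hMge : ∀ s, w s * n ≤ M s + 1 := by
    intro s
    rw [hM]
    simp only [hf]
    exact (Nat.lt_floor_add_one _).le
  have hO1 := patlb_form_le P Col.O hM0 hMle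
  have hO2 := patlb_le_form P Col.O hw hn0'.le hM0 hMle hMge
  have hR1 := patlb_form_le P Col.R hM0 hMle
  have hR2 := patlb_le_form P Col.R hw hn0'.le hM0 hMle hMge
  rw [ho'] at hO1 hO2
  rw [hr'] at hR1 hR2
  have hm1 : (m : ℝ) ≤ o * (n : ℝ) ^ 2 := by rw [hm]; linarith
  have hm2 : o * (n : ℝ) ^ 2 - q * n ≤ m := by rw [hm]; linarith
  have hN1 : (N : ℝ) ≤ r * (n : ℝ) ^ 2 := by rw [hN]; linarith
  have hN2 : r * (n : ℝ) ^ 2 - q * n ≤ N := by rw [hN]; linarith
  have hmk : m ≤ k := by exact_mod_cast hm1.trans hko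
  have hx0 : 0 ≤ (k : ℝ) / (n : ℝ) ^ 2 - o := by
    rw [sub_nonneg, le_div_iff₀ hn3]
    exact hko
  have hxr : (k : ℝ) / (n : ℝ) ^ 2 - o ≤ r := by
    rw [sub_le_iff_le_add, div_le_iff₀ hn3]
    linarith
  have hq : 2 * (q : ℝ) ≤ Δ * n := by
    rw [div_le_iff₀ hΔ] at hn1
    linarith
  have hq0 : (0 : ℝ) ≤ q := Nat.cast_nonneg q
  have hqn : 2 * ((q : ℝ) * n) ≤ Δ * (n : ℝ) ^ 2 := by
    have := mul_le_mul_of_nonneg_right hq hn0'.le
    nlinarith only [this]
  have hqn0 : 0 ≤ (q : ℝ) * n := by positivity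
  by_cases hcase : k - m ≤ N
  · have h1 := exp_scaled_le_choose hcase hn0
    have hkm : ((k - m : ℕ) : ℝ) = k - m := by
      rw [Nat.cast_sub hmk]
    have h2 := hu r ((k : ℝ) / (n : ℝ) ^ 2 - o) (N / (n : ℝ) ^ 2) ((k - m : ℕ) / (n : ℝ) ^ 2)
      hx0 hxr hr1 (by positivity)
      (div_le_div_of_nonneg_right (by exact_mod_cast hcase) hn3.le)
      (by
        rw [div_le_iff₀ hn3]
        nlinarith only [hN1, hr1, hn3])
      (by
        have e : r - N / (n : ℝ) ^ 2 = (r * (n : ℝ) ^ 2 - N) / (n : ℝ) ^ 2 := by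
          field_simp
        rw [e, abs_div, abs_of_nonneg (by linarith), abs_of_pos hn3, div_le_iff₀ hn3]
        linarith)
      (by
        have e : (k : ℝ) / (n : ℝ) ^ 2 - o - ((k - m : ℕ) : ℝ) / (n : ℝ) ^ 2 =
            - ((o * (n : ℝ) ^ 2 - m) / (n : ℝ) ^ 2) := by
          rw [hkm]
          field_simp
          ring
        rw [e, abs_neg, abs_div, abs_of_nonneg (by linarith), abs_of_pos hn3, div_le_iff₀ hn3]
        linarith)
    rw [abs_le] at h2
    have h3 : ((N.choose (k - m) : ℕ) : ℝ) ≤ cnt n k := by exact_mod_cast hch k hmk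
    have hN1' : (N : ℝ) + 1 ≤ (n : ℝ) ^ 2 + 1 := by nlinarith only [hN1, hr1, hn3]
    have h4 := patlb_exp hθ hn2
    have h5 : exp ((phi r ((k : ℝ) / (n : ℝ) ^ 2 - o) - θ) * (n : ℝ) ^ 2) *
        exp (θ / 2 * (n : ℝ) ^ 2) ≤
        exp ((n : ℝ) ^ 2 * phi (N / (n : ℝ) ^ 2) ((k - m : ℕ) / (n : ℝ) ^ 2)) := by
      rw [← exp_add]
      apply exp_le_exp.2
      have := mul_le_mul_of_nonneg_right h2.2 hn3.le
      nlinarith only [this]
    have h6 : exp ((phi r ((k : ℝ) / (n : ℝ) ^ 2 - o) - θ) * (n : ℝ) ^ 2) *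
        exp (θ / 2 * (n : ℝ) ^ 2) ≤ cnt n k * exp (θ / 2 * (n : ℝ) ^ 2) := by
      refine h5.trans (h1.trans ?_)
      rw [mul_comm]
      exact mul_le_mul h3 (hN1'.trans h4) (by positivity) (Nat.cast_nonneg _)
    exact le_of_mul_le_mul_right h6 (exp_pos _)
  · push Not at hcase
    have hkN : (N : ℝ) + m ≤ k := by
      have : N + m ≤ k := by omega
      exact_mod_cast this
    have h2 := hu r ((k : ℝ) / (n : ℝ) ^ 2 - o) r r hx0 hxr hr1 hr0 le_rfl hr1
      (by rw [sub_self, abs_zero]; exact hΔ.le)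
      (by
        rw [abs_sub_comm, abs_of_nonneg (by linarith)]
        have e : r - ((k : ℝ) / (n : ℝ) ^ 2 - o) =
            ((r + o) * (n : ℝ) ^ 2 - k) / (n : ℝ) ^ 2 := by
          field_simp
          ring
        rw [e, div_le_iff₀ hn3]
        linarith)
    rw [phi_self, sub_zero, abs_le] at h2
    have h3 : exp ((phi r ((k : ℝ) / (n : ℝ) ^ 2 - o) - θ) * (n : ℝ) ^ 2) ≤ 1 := by
      rw [← exp_zero]
      apply exp_le_exp.2
      have : phi r ((k : ℝ) / (n : ℝ) ^ 2 - o) - θ ≤ 0 := by linarith [h2.2]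
      exact mul_nonpos_of_nonpos_of_nonneg this hn3.le
    exact h3.trans hcnt

/-- One point of the net. -/
theorem patlb_net {θ Δ : ℝ} (hθ : 0 < θ)
    (hu : ∀ r x r' x' : ℝ, 0 ≤ x → x ≤ r → r ≤ 1 → 0 ≤ x' → x' ≤ r' → r' ≤ 1 → |r - r'| ≤ Δ →
      |x - x'| ≤ Δ → |phi r x - phi r' x'| ≤ θ / 4) (hΔ : 0 < Δ)
    (hG : ∀ d d' : ℝ, |d - d'| ≤ Δ → G d - θ / 4 ≤ G d') (d0 : ℝ) :
    ∃ n0 : ℕ, ∀ n ≥ n0, ∀ k : ℕ, k ≤ n * (n - 1) / 2 → |(k : ℝ) / (n : ℝ) ^ 2 - d0| ≤ Δ →
      exp ((G (k / (n : ℝ) ^ 2) - θ) * (n : ℝ) ^ 2) ≤ cnt n k := by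
  have htriv : ∀ n k : ℕ, k ≤ n * (n - 1) / 2 → G (k / (n : ℝ) ^ 2) ≤ θ →
      exp ((G (k / (n : ℝ) ^ 2) - θ) * (n : ℝ) ^ 2) ≤ cnt n k := by
    intro n k hk h
    have hcnt : (1 : ℝ) ≤ cnt n k := by exact_mod_cast cnt_pos hk
    refine le_trans ?_ hcnt
    rw [← exp_zero]
    apply exp_le_exp.2
    exact mul_nonpos_of_nonpos_of_nonneg (by linarith) (by positivity)
  by_cases h0 : 0 < G d0
  · obtain ⟨q, P, w, hw, h1, h2, h3⟩ := exists_near h0 (show 0 < θ / 4 by positivity)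
    obtain ⟨n0, hn0⟩ := pat_lb P hw (show 0 < θ / 4 by positivity)
    refine ⟨n0 + 1, fun n hn k hk hd => ?_⟩
    rcases le_or_gt (G (k / (n : ℝ) ^ 2)) θ with hg | hg
    · exact htriv n k hk hg
    have hnpos : (0 : ℝ) < n := by exact_mod_cast (by omega : 0 < n)
    have hn3 : (0 : ℝ) < (n : ℝ) ^ 2 := by positivity
    have hGd := hG _ _ hd
    have hr0 : 0 ≤ P.form Col.R w w / 2 := by
      have := P.form_nonneg Col.R hw.nonneg hw.nonneg
      linarith
    have hr1 : P.form Col.R w w / 2 ≤ 1 := by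
      have := P.form_le_one Col.R hw hw
      linarith
    have hx0 : 0 ≤ d0 - P.form Col.O w w / 2 := by linarith
    have hxr : d0 - P.form Col.O w w / 2 ≤ P.form Col.R w w / 2 := by linarith
    have hd' := abs_le.1 hd
    rcases lt_or_ge ((k : ℝ) / (n : ℝ) ^ 2) (P.form Col.O w w / 2) with hlt | hge
    · exfalso
      have h4 := hu (P.form Col.R w w / 2) (d0 - P.form Col.O w w / 2) (P.form Col.R w w / 2) 0
        hx0 hxr hr1 le_rfl hr0 hr1 (by rw [sub_self, abs_zero]; exact hΔ.le)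
        (by rw [sub_zero, abs_of_nonneg hx0]; linarith [hd'.1])
      rw [phi_zero_right, sub_zero, abs_le] at h4
      linarith [h4.2]
    rcases lt_or_ge ((P.form Col.O w w + P.form Col.R w w) / 2) ((k : ℝ) / (n : ℝ) ^ 2)
      with hlt | hge'
    · exfalso
      have h4 := hu (P.form Col.R w w / 2) (d0 - P.form Col.O w w / 2) (P.form Col.R w w / 2)
        (P.form Col.R w w / 2)
        hx0 hxr hr1 hr0 le_rfl hr1 (by rw [sub_self, abs_zero]; exact hΔ.le)
        (by rw [abs_sub_comm, abs_of_nonneg (by linarith)]; linarith [hd'.2])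
      rw [phi_self, sub_zero, abs_le] at h4
      linarith [h4.2]
    have h5 := hn0 n (by omega) k hk ((le_div_iff₀ hn3).1 hge) ((div_le_iff₀ hn3).1 hge')
    have h6 := hu (P.form Col.R w w / 2) (d0 - P.form Col.O w w / 2) (P.form Col.R w w / 2)
      ((k : ℝ) / (n : ℝ) ^ 2 - P.form Col.O w w / 2)
      hx0 hxr hr1 (by linarith) (by linarith) hr1 (by rw [sub_self, abs_zero]; exact hΔ.le)
      (by
        have e : d0 - P.form Col.O w w / 2 - ((k : ℝ) / (n : ℝ) ^ 2 - P.form Col.O w w / 2) =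
          -((k : ℝ) / (n : ℝ) ^ 2 - d0) := by ring
        rw [e, abs_neg]
        exact hd)
    rw [abs_le] at h6
    refine le_trans (exp_le_exp.2 ?_) h5
    exact mul_le_mul_of_nonneg_right (by linarith [h6.2]) hn3.le
  · refine ⟨0, fun n _ k hk hd => htriv n k hk ?_⟩
    have := hG _ _ hd
    linarith

/-- Uniform lower bound. For `k ≤ (1/2 - δ) n²` we have `k ≤ n(n-1)/2` for `n ≥ 1/δ`. Let `Δ` be good for
`phi_unif (θ/4)` and for `G_cont (θ/4)`; finite net `d_i = iΔ`, `i ≤ 1/Δ`. If `G d_i > 0` choose a pattern with value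
`> G d_i - θ/4` at `d_i` (`exists_near`). For `k` with `d = k/n²`, `|d - d_i| ≤ Δ`: if `G d ≤ θ` the claim follows from
`cnt_pos`. Otherwise `G d_i ≥ G d - θ/4 > 0`; if the pattern is feasible at `d` then its value at `d` is
`≥ G d_i - θ/2 ≥ G d - 3θ/4` and `pat_lb` with `θ/4` applies. If it is not feasible at `d`, then `x_i = d_i - o` is within `Δ` of
`0` or `r`, its value is `≤ θ/4`, so `G d ≤ θ`, excluded. `n0` is the maximum over the finitely many `i`. -/
theorem G_lb {δ θ : ℝ} (hδ : 0 < δ) (hθ : 0 < θ) : ∃ n0 : ℕ, ∀ n ≥ n0, ∀ k : ℕ,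
    (k : ℝ) ≤ (1 / 2 - δ) * (n : ℝ) ^ 2 →
      exp ((G (k / (n : ℝ) ^ 2) - θ) * (n : ℝ) ^ 2) ≤ cnt n k := by
  obtain ⟨Δ1, hΔ1, hu1⟩ := phi_unif (show 0 < θ / 4 by positivity)
  obtain ⟨Δ2, hΔ2, hG2⟩ := G_cont (show 0 < θ / 4 by positivity)
  obtain ⟨Δ, hΔdef⟩ : ∃ Δ, Δ = min Δ1 Δ2 := ⟨_, rfl⟩
  have hΔ : 0 < Δ := by rw [hΔdef]; exact lt_min hΔ1 hΔ2
  have hΔ1' : Δ ≤ Δ1 := by rw [hΔdef]; exact min_le_left _ _
  have hΔ2' : Δ ≤ Δ2 := by rw [hΔdef]; exact min_le_right _ _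
  choose N0 hN0 using patlb_net (θ := θ) (Δ := Δ) hθ
    (fun r x r' x' a b c d e f g h => hu1 r x r' x' a b c d e f (g.trans hΔ1') (h.trans hΔ1')) hΔ
    (fun d d' h => hG2 d d' (h.trans hΔ2'))
  obtain ⟨I, hI⟩ : ∃ I : ℕ, I = ⌈1 / Δ⌉₊ := ⟨_, rfl⟩
  refine ⟨(range (I + 1)).sup (fun i => N0 (i * Δ)) + ⌈1 / δ⌉₊ + 1, fun n hn k hk => ?_⟩
  have hnpos : 0 < n := by omega
  have hnpos' : (0 : ℝ) < n := by exact_mod_cast hnpos
  have hn3 : (0 : ℝ) < (n : ℝ) ^ 2 := by positivity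
  have hnδ : 1 / δ ≤ n := (Nat.le_ceil _).trans (by exact_mod_cast (by omega : ⌈1 / δ⌉₊ ≤ n))
  have hnδ' : 1 ≤ δ * n := by
    rw [div_le_iff₀ hδ] at hnδ
    linarith
  -- the level exists
  have hk2 : k ≤ n * (n - 1) / 2 := by
    rw [Nat.le_div_iff_mul_le (by norm_num)]
    have h1 : ((k * 2 : ℕ) : ℝ) ≤ ((n * (n - 1) : ℕ) : ℝ) := by
      push_cast [Nat.cast_sub (show 1 ≤ n from hnpos)]
      have h2 : (n : ℝ) * 1 ≤ n * (δ * n) := mul_le_mul_of_nonneg_left hnδ' hnpos'.le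
      nlinarith only [h2, hk, hnpos']
    exact_mod_cast h1
  obtain ⟨d, hd⟩ : ∃ d, d = (k : ℝ) / (n : ℝ) ^ 2 := ⟨_, rfl⟩
  have hd0 : 0 ≤ d := by rw [hd]; positivity
  have hd1 : d ≤ 1 := by
    rw [hd, div_le_iff₀ hn3]
    nlinarith only [hk, hn3, hδ]
  obtain ⟨i, hi⟩ : ∃ i : ℕ, i = ⌊d / Δ⌋₊ := ⟨_, rfl⟩
  have hi1 : (i : ℝ) ≤ d / Δ := by rw [hi]; exact Nat.floor_le (by positivity)
  have hi2 : d / Δ < i + 1 := by rw [hi]; exact Nat.lt_floor_add_one _
  have hiI : i ≤ I := by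
    have h1 : (i : ℝ) ≤ 1 / Δ := hi1.trans (div_le_div_of_nonneg_right hd1 hΔ.le)
    have h2 : (i : ℝ) ≤ I := h1.trans (by rw [hI]; exact Nat.le_ceil _)
    exact_mod_cast h2
  have hclose : |d - i * Δ| ≤ Δ := by
    rw [le_div_iff₀ hΔ] at hi1
    rw [div_lt_iff₀ hΔ] at hi2
    rw [abs_le]
    constructor <;> nlinarith only [hi1, hi2, hΔ]
  have hnN : N0 (i * Δ) ≤ n := by
    have h1 : N0 (i * Δ) ≤ (range (I + 1)).sup (fun i => N0 (i * Δ)) :=
      le_sup (f := fun i : ℕ => N0 (i * Δ)) (mem_range.2 (by omega))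
    omega
  exact hN0 (i * Δ) n hnN k hk2 (by rw [← hd]; exact hclose)

end Pool.Agent.H.MP_82502e_co
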