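import Pool.Agent.H.MP_82502e_co.Pat

set_option autoImplicit false

/-!
# Sampling a pattern from a colouring
-/

namespace Pool.Agent.H.MP_82502e_co

open Finset Real

/-- (aux) exchange of the coordinate `s` with an extra point. -/
private def sample_swap {α : Type*} {q : ℕ} (s : Fin q) :
    (Fin q → α) × α ≃ (Fin q → α) × α where
  toFun p := (Function.update p.1 s p.2, p.1 s)
  invFun p := (Function.update p.1 s p.2, p.1 s)
  left_inv p := by simp
  right_inv p := by simp

/-- (aux) averaging over one coordinate. -/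
private theorem sample_upd {α : Type*} [Fintype α] [DecidableEq α] {q : ℕ} (s : Fin q)
    (h : (Fin q → α) → ℝ) :
    ∑ x : Fin q → α, ∑ a, h (Function.update x s a) = (Fintype.card α : ℝ) * ∑ x, h x := by
  have e1 : ∑ x : Fin q → α, ∑ a, h (Function.update x s a) =
      ∑ p : (Fin q → α) × α, h ((sample_swap s p).1) := by
    rw [Fintype.sum_prod_type]
    rfl
  have e2 : ∑ p : (Fin q → α) × α, h ((sample_swap s p).1) = ∑ p : (Fin q → α) × α, h p.1 :=
    Equiv.sum_comp (sample_swap s) (fun p : (Fin q → α) × α => h p.1)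
  rw [e1, e2, Fintype.sum_prod_type]
  simp [Finset.mul_sum]

/-- (aux) `∑_x φ(x_s, x_t) = |α|^(q-2) ∑ φ`. -/
private theorem sample_pair {α : Type*} [Fintype α] [DecidableEq α] {q : ℕ} {s t : Fin q}
    (hst : s ≠ t) (φ : α → α → ℝ) :
    (Fintype.card α : ℝ) ^ 2 * ∑ x : Fin q → α, φ (x s) (x t) =
      (∑ a, ∑ b, φ a b) * (Fintype.card α : ℝ) ^ q := by
  have h1 := sample_upd s (fun x : Fin q → α => φ (x s) (x t))
  have h2 : ∀ a, ∑ x : Fin q → α, ∑ b, φ a b =
      (Fintype.card α : ℝ) * ∑ x : Fin q → α, φ a (x t) := by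
    intro a
    have := sample_upd t (fun x : Fin q → α => φ a (x t))
    simpa using this
  have h3 : ∑ x : Fin q → α, ∑ a, φ a (x t) =
      (Fintype.card α : ℝ) * ∑ x : Fin q → α, φ (x s) (x t) := by
    rw [← h1]
    refine Finset.sum_congr rfl fun x _ => Finset.sum_congr rfl fun a _ => ?_
    rw [Function.update_self, Function.update_of_ne hst.symm]
  calc (Fintype.card α : ℝ) ^ 2 * ∑ x : Fin q → α, φ (x s) (x t)
      = (Fintype.card α : ℝ) * ∑ x : Fin q → α, ∑ a, φ a (x t) := by rw [h3]; ring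
    _ = ∑ a, (Fintype.card α : ℝ) * ∑ x : Fin q → α, φ a (x t) := by
        rw [Finset.sum_comm, Finset.mul_sum]
    _ = ∑ a, ∑ x : Fin q → α, ∑ b, φ a b := by
        refine Finset.sum_congr rfl fun a _ => ?_
        rw [h2]
    _ = (∑ a, ∑ b, φ a b) * (Fintype.card α : ℝ) ^ q := by
        rw [Finset.sum_mul]
        refine Finset.sum_congr rfl fun a _ => ?_
        rw [Finset.sum_const, Finset.card_univ, Fintype.card_fun, Fintype.card_fin, nsmul_eq_mul]
        push_cast
        ring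

/-- (aux) independence of disjoint pairs. -/
private theorem sample_indep {α : Type*} [Fintype α] [DecidableEq α] [Nonempty α] {q : ℕ}
    {s t s' t' : Fin q} (hst : s ≠ t) (h1 : s' ≠ s) (h2 : t' ≠ s) (h3 : s' ≠ t) (h4 : t' ≠ t)
    (g ψ : α → α → ℝ) (hg : ∑ a, ∑ b, g a b = 0) :
    ∑ x : Fin q → α, g (x s) (x t) * ψ (x s') (x t') = 0 := by
  have e1 := sample_upd s (fun x : Fin q → α => g (x s) (x t) * ψ (x s') (x t'))
  have e2 : ∀ a, (Fintype.card α : ℝ) * ∑ x : Fin q → α, g a (x t) * ψ (x s') (x t') =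
      ∑ x : Fin q → α, (∑ b, g a b) * ψ (x s') (x t') := by
    intro a
    have := sample_upd t (fun x : Fin q → α => g a (x t) * ψ (x s') (x t'))
    rw [← this]
    refine Finset.sum_congr rfl fun x _ => ?_
    rw [Finset.sum_mul]
    refine Finset.sum_congr rfl fun b _ => ?_
    rw [Function.update_self, Function.update_of_ne h3, Function.update_of_ne h4]
  have e3 : ∑ x : Fin q → α, ∑ a, g a (x t) * ψ (x s') (x t') =
      (Fintype.card α : ℝ) * ∑ x : Fin q → α, g (x s) (x t) * ψ (x s') (x t') := by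
    rw [← e1]
    refine Finset.sum_congr rfl fun x _ => Finset.sum_congr rfl fun a _ => ?_
    rw [Function.update_self, Function.update_of_ne hst.symm, Function.update_of_ne h1,
      Function.update_of_ne h2]
  have e4 : (Fintype.card α : ℝ) * ((Fintype.card α : ℝ) *
      ∑ x : Fin q → α, g (x s) (x t) * ψ (x s') (x t')) = 0 := by
    rw [← e3, Finset.sum_comm, Finset.mul_sum]
    calc ∑ a, (Fintype.card α : ℝ) * ∑ x : Fin q → α, g a (x t) * ψ (x s') (x t')
        = ∑ a, ∑ x : Fin q → α, (∑ b, g a b) * ψ (x s') (x t') :=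
          Finset.sum_congr rfl fun a _ => e2 a
      _ = ∑ x : Fin q → α, (∑ a, ∑ b, g a b) * ψ (x s') (x t') := by
          rw [Finset.sum_comm]
          refine Finset.sum_congr rfl fun x _ => ?_
          rw [Finset.sum_mul]
      _ = 0 := by simp [hg]
  have hc : (Fintype.card α : ℝ) ≠ 0 := by
    exact_mod_cast Fintype.card_ne_zero
  rcases mul_eq_zero.1 e4 with h | h
  · exact absurd h hc
  · rcases mul_eq_zero.1 h with h | h
    · exact absurd h hc
    · exact h

/-- (aux) the pairs of distinct indices. -/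
private def sample_P (q : ℕ) : Finset (Fin q × Fin q) := univ.filter fun p => p.1 ≠ p.2

private theorem sample_P_card (q : ℕ) : ((sample_P q).card : ℝ) = (q : ℝ) * (q - 1) := by
  have h : sample_P q = (univ : Finset (Fin q)).offDiag := by
    ext p
    simp [sample_P, Finset.mem_offDiag]
  rw [h, Finset.offDiag_card, Finset.card_univ, Fintype.card_fin]
  rw [Nat.cast_sub (Nat.le_mul_self q)]
  push_cast
  ring

private theorem sample_sum_P {q : ℕ} (F : Fin q → Fin q → ℝ) :
    (∑ s, ∑ t, if s ≠ t then F s t else 0) = ∑ p ∈ sample_P q, F p.1 p.2 := by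
  rw [sample_P, Finset.sum_filter, Fintype.sum_prod_type]

/-- (aux) the number of pairs meeting a given pair. -/
private theorem sample_meet_card {q : ℕ} (p : Fin q × Fin q) :
    (((sample_P q).filter fun p' => p'.1 = p.1 ∨ p'.2 = p.1 ∨ p'.1 = p.2 ∨ p'.2 = p.2).card : ℝ)
      ≤ 4 * (q : ℝ) := by
  have hsub : ((sample_P q).filter fun p' => p'.1 = p.1 ∨ p'.2 = p.1 ∨ p'.1 = p.2 ∨ p'.2 = p.2) ⊆
      (((univ : Finset (Fin q)).image fun j => (p.1, j)) ∪
        ((univ : Finset (Fin q)).image fun j => (j, p.1))) ∪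
      (((univ : Finset (Fin q)).image fun j => (p.2, j)) ∪
        ((univ : Finset (Fin q)).image fun j => (j, p.2))) := by
    intro p' hp'
    obtain ⟨-, h⟩ := Finset.mem_filter.1 hp'
    simp only [Finset.mem_union, Finset.mem_image, Finset.mem_univ, true_and]
    rcases h with h | h | h | h
    · exact Or.inl (Or.inl ⟨p'.2, by rw [← h]⟩)
    · exact Or.inl (Or.inr ⟨p'.1, by rw [← h]⟩)
    · exact Or.inr (Or.inl ⟨p'.2, by rw [← h]⟩)
    · exact Or.inr (Or.inr ⟨p'.1, by rw [← h]⟩)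
  have h1 : ∀ f : Fin q → Fin q × Fin q, ((univ : Finset (Fin q)).image f).card ≤ q := by
    intro f
    calc ((univ : Finset (Fin q)).image f).card ≤ (univ : Finset (Fin q)).card :=
          Finset.card_image_le
      _ = q := by simp
  have h2 := Finset.card_le_card hsub
  have h3 : ((sample_P q).filter fun p' => p'.1 = p.1 ∨ p'.2 = p.1 ∨ p'.1 = p.2 ∨
      p'.2 = p.2).card ≤ 4 * q := by
    refine h2.trans ?_
    refine (Finset.card_union_le _ _).trans ?_
    have a1 := Finset.card_union_le ((univ : Finset (Fin q)).image fun j => (p.1, j))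
      ((univ : Finset (Fin q)).image fun j => (j, p.1))
    have a2 := Finset.card_union_le ((univ : Finset (Fin q)).image fun j => (p.2, j))
      ((univ : Finset (Fin q)).image fun j => (j, p.2))
    have b1 := h1 fun j => (p.1, j)
    have b2 := h1 fun j => (j, p.1)
    have b3 := h1 fun j => (p.2, j)
    have b4 := h1 fun j => (j, p.2)
    omega
  exact_mod_cast h3

/-- Second moment. For `f : α → α → ℝ` with values in `[0,1]` and mean `m = (∑ f a b)/|α|²`, and
`F x = ∑_{s ≠ t} f (x s) (x t)` for `x : Fin q → α`: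
`∑_x (F x - q (q-1) m)² ≤ 4 q³ |α|^q`.

Proof. Expand the square: `∑_x F x = q(q-1) m |α|^q`, and `∑_x F x² = ∑_{(s,t),(s',t')} ∑_x f(x s)(x t) f(x s')(x t')`; for disjoint
index pairs the inner sum is `m² |α|^q` (product structure, `Finset.sum` over functions, `Fintype.piFinset` or
`Fin.consEquiv`; or use the counting measure / independence), otherwise it is `≤ |α|^q`, and there are
`q(q-1)(4q-6) ≤ 4q³` non-disjoint pairs of index pairs; so
`∑ F² ≤ q(q-1)(q-2)(q-3) m²|α|^q + 4q³|α|^q ≤ (q(q-1)m)²|α|^q + 4q³|α|^q`. -/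
theorem second_moment {α : Type*} [Fintype α] [DecidableEq α] [Nonempty α] (f : α → α → ℝ)
    (h0 : ∀ a b, 0 ≤ f a b) (h1 : ∀ a b, f a b ≤ 1) (q : ℕ) :
    ∑ x : Fin q → α, ((∑ s, ∑ t, if s ≠ t then f (x s) (x t) else 0) -
      (q : ℝ) * (q - 1) * ((∑ a, ∑ b, f a b) / (Fintype.card α : ℝ) ^ 2)) ^ 2 ≤
      4 * (q : ℝ) ^ 3 * (Fintype.card α : ℝ) ^ q := by
  set N : ℝ := (Fintype.card α : ℝ) with hN
  have hNpos : 0 < N := by
    rw [hN]
    exact_mod_cast Fintype.card_pos
  set m : ℝ := (∑ a, ∑ b, f a b) / N ^ 2 with hm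
  have hsum_le : ∑ a, ∑ b, f a b ≤ N ^ 2 := by
    calc ∑ a, ∑ b, f a b ≤ ∑ a : α, ∑ b : α, (1 : ℝ) :=
          Finset.sum_le_sum fun a _ => Finset.sum_le_sum fun b _ => h1 a b
      _ = N ^ 2 := by simp [hN, sq]
  have hm0 : 0 ≤ m := div_nonneg (Finset.sum_nonneg fun a _ => Finset.sum_nonneg fun b _ => h0 a b)
    (by positivity)
  have hm1 : m ≤ 1 := (div_le_one (by positivity)).2 hsum_le
  set g : α → α → ℝ := fun a b => f a b - m with hg
  have hg0 : ∑ a, ∑ b, g a b = 0 := by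
    have : ∑ a, ∑ b, g a b = (∑ a, ∑ b, f a b) - N ^ 2 * m := by
      simp only [hg, Finset.sum_sub_distrib, Finset.sum_const, Finset.card_univ, nsmul_eq_mul]
      rw [← hN]
      ring
    rw [this, hm]
    field_simp
    ring
  have hgabs : ∀ a b, |g a b| ≤ 1 := by
    intro a b
    rw [abs_le]
    constructor
    · simp only [hg]; linarith [h0 a b]
    · simp only [hg]; linarith [h1 a b]
  have hF : ∀ x : Fin q → α, (∑ s, ∑ t, if s ≠ t then f (x s) (x t) else 0) -
      (q : ℝ) * (q - 1) * m = ∑ p ∈ sample_P q, g (x p.1) (x p.2) := by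
    intro x
    rw [sample_sum_P (fun s t => f (x s) (x t))]
    simp only [hg, Finset.sum_sub_distrib, Finset.sum_const, nsmul_eq_mul]
    rw [sample_P_card]
  have hone : ∀ p p' : Fin q × Fin q,
      ∑ x : Fin q → α, g (x p.1) (x p.2) * g (x p'.1) (x p'.2) ≤ N ^ q := by
    intro p p'
    calc ∑ x : Fin q → α, g (x p.1) (x p.2) * g (x p'.1) (x p'.2)
        ≤ ∑ x : Fin q → α, (1 : ℝ) := by
          refine Finset.sum_le_sum fun x _ => ?_
          refine (le_abs_self _).trans ?_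
          rw [abs_mul]
          exact mul_le_one₀ (hgabs _ _) (abs_nonneg _) (hgabs _ _)
      _ = N ^ q := by
          rw [Finset.sum_const, Finset.card_univ, Fintype.card_fun, Fintype.card_fin,
            nsmul_eq_mul, mul_one]
          push_cast
          rfl
  have hpair : ∀ p ∈ sample_P q, ∑ p' ∈ sample_P q,
      ∑ x : Fin q → α, g (x p.1) (x p.2) * g (x p'.1) (x p'.2) ≤ 4 * (q : ℝ) * N ^ q := by
    intro p hp
    have hp1 : p.1 ≠ p.2 := (Finset.mem_filter.1 hp).2
    calc ∑ p' ∈ sample_P q, ∑ x : Fin q → α, g (x p.1) (x p.2) * g (x p'.1) (x p'.2)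
        ≤ ∑ p' ∈ sample_P q, (if (p'.1 = p.1 ∨ p'.2 = p.1 ∨ p'.1 = p.2 ∨ p'.2 = p.2) then N ^ q
            else 0) := by
          refine Finset.sum_le_sum fun p' _ => ?_
          split_ifs with h
          · exact hone p p'
          · rw [not_or, not_or, not_or] at h
            exact (sample_indep hp1 h.1 h.2.1 h.2.2.1 h.2.2.2 g g hg0).le
      _ = (((sample_P q).filter fun p' => p'.1 = p.1 ∨ p'.2 = p.1 ∨ p'.1 = p.2 ∨
            p'.2 = p.2).card : ℝ) * N ^ q := by
          rw [← Finset.sum_filter, Finset.sum_const, nsmul_eq_mul]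
      _ ≤ 4 * (q : ℝ) * N ^ q := by
          exact mul_le_mul_of_nonneg_right (sample_meet_card p) (by positivity)
  have hPle : ((sample_P q).card : ℝ) ≤ (q : ℝ) ^ 2 := by
    rw [sample_P_card]
    have : (0 : ℝ) ≤ q := Nat.cast_nonneg q
    nlinarith
  calc ∑ x : Fin q → α, ((∑ s, ∑ t, if s ≠ t then f (x s) (x t) else 0) -
        (q : ℝ) * (q - 1) * m) ^ 2
      = ∑ x : Fin q → α, ∑ p ∈ sample_P q, ∑ p' ∈ sample_P q,
          g (x p.1) (x p.2) * g (x p'.1) (x p'.2) := by
        refine Finset.sum_congr rfl fun x _ => ?_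
        rw [hF x, sq, Finset.sum_mul_sum]
    _ = ∑ p ∈ sample_P q, ∑ p' ∈ sample_P q, ∑ x : Fin q → α,
          g (x p.1) (x p.2) * g (x p'.1) (x p'.2) := by
        rw [Finset.sum_comm]
        refine Finset.sum_congr rfl fun p _ => ?_
        rw [Finset.sum_comm]
    _ ≤ ∑ p ∈ sample_P q, 4 * (q : ℝ) * N ^ q := Finset.sum_le_sum hpair
    _ = ((sample_P q).card : ℝ) * (4 * (q : ℝ) * N ^ q) := by
        rw [Finset.sum_const, nsmul_eq_mul]
    _ ≤ (q : ℝ) ^ 2 * (4 * (q : ℝ) * N ^ q) :=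
        mul_le_mul_of_nonneg_right hPle (by positivity)
    _ = 4 * (q : ℝ) ^ 3 * N ^ q := by ring

/-- The pattern of an injective tuple without exceptional pair.

`pos s = x s`, `col s t = c (x s, x t)` if `x s < x t`, `c (x t, x s)` if `x t < x s`, `Z` on the diagonal. `trans` is
`Closed` (the result `E` is excluded, and a colour `≠ Z, E` is `R` or `O`). -/
def patOf {n q : ℕ} (c : Fin n × Fin n → Col) (hc : Closed c) (x : Fin q → Fin n)
    (hx : Function.Injective x)
    (hE : ∀ s t, x s < x t → c (x s, x t) ≠ Col.E) : Pat q where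
  pos := fun s => x s
  inj := fun s t h => hx (Fin.ext h)
  col := fun s t => if x s < x t then c (x s, x t) else if x t < x s then c (x t, x s) else Col.Z
  symm := by
    intro s t
    rcases lt_trichotomy (x s) (x t) with h | h | h
    · simp [h, not_lt_of_gt h]
    · simp [h]
    · simp [h, not_lt_of_gt h]
  diag := by
    intro s
    simp
  noE := by
    intro s t
    rcases lt_trichotomy (x s) (x t) with h | h | h
    · simpa [h] using hE s t h
    · simp [h]
    · simpa [h, not_lt_of_gt h] using hE t s h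
  trans := by
    intro s t u hst htu h1 h2
    have hst' : x s < x t := hst
    have htu' : x t < x u := htu
    have hsu' : x s < x u := hst'.trans htu'
    simp only [hst', if_true] at h1
    simp only [htu', if_true] at h2
    simp only [hsu', if_true]
    have k1 : c (x s, x t) = Col.R ∨ c (x s, x t) = Col.O := by
      have := hE s t hst'
      cases hc' : c (x s, x t) <;> simp_all
    have k2 : c (x t, x u) = Col.R ∨ c (x t, x u) = Col.O := by
      have := hE t u htu'
      cases hc' : c (x t, x u) <;> simp_all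
    rcases hc _ _ _ hst' htu' k1 k2 with h | h
    · exact h
    · exact absurd h (hE s u hsu')

/-- (aux) the symmetrized indicator of the colour `a`. -/
private noncomputable def sample_f {n : ℕ} (c : Fin n × Fin n → Col) (a : Col) (u v : Fin n) : ℝ :=
  if (u < v ∧ c (u, v) = a) ∨ (v < u ∧ c (v, u) = a) then 1 else 0

private theorem sample_f_nonneg {n : ℕ} (c : Fin n × Fin n → Col) (a : Col) (u v : Fin n) :
    0 ≤ sample_f c a u v := by
  unfold sample_f
  split_ifs <;> norm_num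

private theorem sample_f_le_one {n : ℕ} (c : Fin n × Fin n → Col) (a : Col) (u v : Fin n) :
    sample_f c a u v ≤ 1 := by
  unfold sample_f
  split_ifs <;> norm_num

private theorem sample_f_sum {n : ℕ} (c : Fin n × Fin n → Col) (a : Col) :
    ∑ u, ∑ v, sample_f c a u v = 2 * ((cpairs c a).card : ℝ) := by
  have h1 : ∑ u : Fin n, ∑ v : Fin n, (if u < v ∧ c (u, v) = a then (1 : ℝ) else 0) =
      ((cpairs c a).card : ℝ) := by
    rw [cpairs, Finset.card_filter, ← Fintype.sum_prod_type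
      (fun p : Fin n × Fin n => if p.1 < p.2 ∧ c (p.1, p.2) = a then (1 : ℝ) else 0)]
    push_cast
    rfl
  have h2 : ∑ u : Fin n, ∑ v : Fin n, (if v < u ∧ c (v, u) = a then (1 : ℝ) else 0) =
      ((cpairs c a).card : ℝ) := by
    rw [Finset.sum_comm]
    exact h1
  have h3 : ∀ u v : Fin n, sample_f c a u v = (if u < v ∧ c (u, v) = a then (1 : ℝ) else 0) +
      (if v < u ∧ c (v, u) = a then (1 : ℝ) else 0) := by
    intro u v
    unfold sample_f
    rcases lt_trichotomy u v with h | h | h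
    · simp [h, not_lt_of_gt h]
    · simp [h]
    · simp [h, not_lt_of_gt h]
  simp only [h3, Finset.sum_add_distrib]
  rw [h1, h2]
  ring

private theorem sample_form {n q : ℕ} (c : Fin n × Fin n → Col) (hc : Closed c)
    (x : Fin q → Fin n) (hx : Function.Injective x)
    (hE : ∀ s t, x s < x t → c (x s, x t) ≠ Col.E) (a : Col) (ha : a ≠ Col.Z) :
    (patOf c hc x hx hE).form a (fun _ => 1 / (q : ℝ)) (fun _ => 1 / (q : ℝ)) =
      (1 / (q : ℝ) ^ 2) * ∑ s, ∑ t, if s ≠ t then sample_f c a (x s) (x t) else 0 := by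
  unfold Pat.form
  rw [Finset.mul_sum]
  refine Finset.sum_congr rfl fun s _ => ?_
  rw [Finset.mul_sum]
  refine Finset.sum_congr rfl fun t _ => ?_
  have hcol : (patOf c hc x hx hE).col s t =
      if x s < x t then c (x s, x t) else if x t < x s then c (x t, x s) else Col.Z := rfl
  rw [hcol]
  have hq : 1 / (q : ℝ) * (1 / (q : ℝ)) = 1 / (q : ℝ) ^ 2 := by
    rw [one_div_mul_one_div, sq]
  unfold sample_f
  rcases lt_trichotomy (x s) (x t) with h | h | h
  · have hst : s ≠ t := fun e => by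
      rw [e] at h
      exact lt_irrefl _ h
    by_cases hca : c (x s, x t) = a
    · simp [h, hst, hca, hq, sq]
    · simp [h, hst, hca, not_lt_of_gt h]
  · have hst : s = t := hx h
    subst hst
    simp [ha.symm]
  · have hst : s ≠ t := fun e => by
      rw [e] at h
      exact lt_irrefl _ h
    by_cases hca : c (x t, x s) = a
    · simp [h, hst, hca, hq, not_lt_of_gt h, sq]
    · simp [h, hst, hca, not_lt_of_gt h]

/-- (aux) the final estimate. -/
private theorem sample_est {q : ℕ} {ε F m : ℝ} (hε : 0 < ε) (hq : 0 < (q : ℝ))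
    (hq1 : 1 / ε ≤ (q : ℝ)) (hm0 : 0 ≤ m) (hm1 : m ≤ 1)
    (h : (F - (q : ℝ) * (q - 1) * m) ^ 2 < ε ^ 2 * (q : ℝ) ^ 4) :
    |(1 / (q : ℝ) ^ 2) * F / 2 - m / 2| ≤ ε := by
  have h1 : |F - (q : ℝ) * (q - 1) * m| ≤ ε * (q : ℝ) ^ 2 := by
    refine abs_le_of_sq_le_sq ?_ (by positivity)
    calc (F - (q : ℝ) * (q - 1) * m) ^ 2 ≤ ε ^ 2 * (q : ℝ) ^ 4 := h.le
      _ = (ε * (q : ℝ) ^ 2) ^ 2 := by ring
  have h2 : 1 ≤ ε * (q : ℝ) := by
    have := (div_le_iff₀ hε).1 hq1
    linarith
  have e : (1 / (q : ℝ) ^ 2) * F / 2 - m / 2 =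
      ((F - (q : ℝ) * (q - 1) * m) - (q : ℝ) * m) / (2 * (q : ℝ) ^ 2) := by
    field_simp
    ring
  rw [e, abs_div, abs_of_pos (show (0 : ℝ) < 2 * (q : ℝ) ^ 2 by positivity), div_le_iff₀ (by positivity)]
  have h3 : |(F - (q : ℝ) * (q - 1) * m) - (q : ℝ) * m| ≤ ε * (q : ℝ) ^ 2 + (q : ℝ) * m := by
    refine (abs_sub _ _).trans ?_
    rw [abs_of_nonneg (show (0 : ℝ) ≤ (q : ℝ) * m by positivity)]
    linarith
  have h4 : (q : ℝ) * m ≤ ε * (q : ℝ) ^ 2 := by
    nlinarith [mul_le_mul_of_nonneg_left h2 hq.le, mul_le_mul_of_nonneg_left hm1 hq.le]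
  linarith

/-- **Sampling lemma.** Take `q ≥ 2` with `1/q ≤ ε/4` and `64/(q ε²) ≤ 1/8` and so on, `w` uniform, `η0 = 1/(8 q²)`,
`n0 = 8 q²`. Among the `n^q` tuples: at most `q² n^(q-1)` not injective (`≤ 1/8`), at most `q² η0 n^q ≤ n^q/8` with an exceptional pair
(for each ordered pair `(s,t)` the number of `x` with `(x s, x t) ∈ cpairs c E` is `|cpairs| n^(q-2)`); by
`second_moment` and Chebyshev for `f a b = 1` iff `{a,b}` has colour `R` (symmetrized, so `∑ f = 2 |cpairs c R|`) at most `n^q/8` with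
`|F/q² - (1-1/q) 2|R|/n²| > ε/2`, same for `O`. So a good tuple exists (`8 · ... < n^q`), and for it
`form R w w = F/q²`. -/
theorem sampling {ε : ℝ} (hε : 0 < ε) : ∃ η0 : ℝ, 0 < η0 ∧ ∃ n0 : ℕ, ∀ n ≥ n0,
    ∀ c : Fin n × Fin n → Col, Closed c → ((cpairs c Col.E).card : ℝ) ≤ η0 * (n : ℝ) ^ 2 →
    ∃ (q : ℕ) (P : Pat q) (w : Fin q → ℝ), IsProb w ∧
      |P.form Col.R w w / 2 - (cpairs c Col.R).card / (n : ℝ) ^ 2| ≤ ε ∧
      |P.form Col.O w w / 2 - (cpairs c Col.O).card / (n : ℝ) ^ 2| ≤ ε := by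
  obtain ⟨q, hq⟩ : ∃ q : ℕ, 32 / ε ^ 2 + 1 / ε + 1 ≤ (q : ℝ) := exists_nat_ge _
  have hεi : 0 < 1 / ε := by positivity
  have hεi2 : 0 < 32 / ε ^ 2 := by positivity
  have hq0 : (0 : ℝ) < q := by linarith
  have hq1 : 1 / ε ≤ (q : ℝ) := by linarith
  have hq2 : 32 / ε ^ 2 ≤ (q : ℝ) := by linarith
  have hq3 : (1 : ℝ) ≤ q := by linarith
  refine ⟨1 / (8 * (q : ℝ) ^ 2), by positivity, 8 * q ^ 2, ?_⟩
  intro n hn c hc hcE
  have hnR : 8 * (q : ℝ) ^ 2 ≤ (n : ℝ) := by exact_mod_cast hn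
  have hn0 : (0 : ℝ) < n := lt_of_lt_of_le (by positivity) hnR
  have hn0' : 0 < n := by exact_mod_cast hn0
  haveI : Nonempty (Fin n) := ⟨⟨0, hn0'⟩⟩
  set N : ℝ := (n : ℝ) with hN
  have hcard : (Fintype.card (Fin n) : ℝ) = N := by rw [Fintype.card_fin]
  -- the means
  set m : Col → ℝ := fun a => (∑ u, ∑ v, sample_f c a u v) / N ^ 2 with hm
  have hm0 : ∀ a, 0 ≤ m a := fun a =>
    div_nonneg (Finset.sum_nonneg fun u _ => Finset.sum_nonneg fun v _ => sample_f_nonneg c a u v)
      (by positivity)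
  have hm1 : ∀ a, m a ≤ 1 := by
    intro a
    refine (div_le_one (by positivity)).2 ?_
    calc ∑ u, ∑ v, sample_f c a u v ≤ ∑ u : Fin n, ∑ v : Fin n, (1 : ℝ) :=
          Finset.sum_le_sum fun u _ => Finset.sum_le_sum fun v _ => sample_f_le_one c a u v
      _ = N ^ 2 := by simp [hN, sq]
  set F : Col → (Fin q → Fin n) → ℝ := fun a x =>
    ∑ s, ∑ t, if s ≠ t then sample_f c a (x s) (x t) else 0 with hF
  have hsec : ∀ a, ∑ x : Fin q → Fin n, (F a x - (q : ℝ) * (q - 1) * m a) ^ 2 ≤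
      4 * (q : ℝ) ^ 3 * N ^ q := by
    intro a
    have := second_moment (sample_f c a) (sample_f_nonneg c a) (sample_f_le_one c a) q
    rw [hcard] at this
    exact this
  -- the two counting sums
  have hs1 : ∀ p ∈ sample_P q, ∑ x : Fin q → Fin n, (if x p.1 = x p.2 then (1 : ℝ) else 0) ≤
      N ^ q / N := by
    intro p hp
    have hp1 : p.1 ≠ p.2 := (Finset.mem_filter.1 hp).2
    have h := sample_pair hp1 (fun a b : Fin n => if a = b then (1 : ℝ) else 0)
    rw [hcard] at h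
    have h' : ∑ a : Fin n, ∑ b : Fin n, (if a = b then (1 : ℝ) else 0) = N := by simp [hN]
    rw [h'] at h
    have h2 : N * ∑ x : Fin q → Fin n, (if x p.1 = x p.2 then (1 : ℝ) else 0) = N ^ q := by
      have : N * (N * ∑ x : Fin q → Fin n, (if x p.1 = x p.2 then (1 : ℝ) else 0)) =
          N * N ^ q := by
        rw [← h]
        ring
      exact mul_left_cancel₀ hn0.ne' this
    rw [le_div_iff₀ hn0, ← h2]
    exact (mul_comm _ _).le
  have hs2 : ∀ p ∈ sample_P q, ∑ x : Fin q → Fin n,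
      (if (x p.1, x p.2) ∈ cpairs c Col.E then (1 : ℝ) else 0) ≤
      1 / (8 * (q : ℝ) ^ 2) * N ^ q := by
    intro p hp
    have hp1 : p.1 ≠ p.2 := (Finset.mem_filter.1 hp).2
    have h := sample_pair hp1 (fun a b : Fin n => if (a, b) ∈ cpairs c Col.E then (1 : ℝ) else 0)
    rw [hcard] at h
    have h' : ∑ a : Fin n, ∑ b : Fin n, (if (a, b) ∈ cpairs c Col.E then (1 : ℝ) else 0) =
        ((cpairs c Col.E).card : ℝ) := by
      rw [← Fintype.sum_prod_type
        (fun p : Fin n × Fin n => if p ∈ cpairs c Col.E then (1 : ℝ) else 0)]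
      simp
    rw [h'] at h
    have h2 : N ^ 2 * ∑ x : Fin q → Fin n,
        (if (x p.1, x p.2) ∈ cpairs c Col.E then (1 : ℝ) else 0) ≤
        N ^ 2 * (1 / (8 * (q : ℝ) ^ 2) * N ^ q) := by
      rw [h]
      calc ((cpairs c Col.E).card : ℝ) * N ^ q ≤ (1 / (8 * (q : ℝ) ^ 2) * N ^ 2) * N ^ q :=
            mul_le_mul_of_nonneg_right hcE (by positivity)
        _ = N ^ 2 * (1 / (8 * (q : ℝ) ^ 2) * N ^ q) := by ring
    exact le_of_mul_le_mul_left h2 (by positivity)
  have hPle : ((sample_P q).card : ℝ) ≤ (q : ℝ) ^ 2 := by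
    rw [sample_P_card]
    nlinarith
  set D : ℝ := ε ^ 2 * (q : ℝ) ^ 4 with hD
  have hDpos : 0 < D := by positivity
  -- the total badness
  obtain ⟨x, -, hx⟩ : ∃ x ∈ (univ : Finset (Fin q → Fin n)),
      (∑ p ∈ sample_P q, (if x p.1 = x p.2 then (1 : ℝ) else 0)) +
      (∑ p ∈ sample_P q, (if (x p.1, x p.2) ∈ cpairs c Col.E then (1 : ℝ) else 0)) +
      (F Col.R x - (q : ℝ) * (q - 1) * m Col.R) ^ 2 / D +
      (F Col.O x - (q : ℝ) * (q - 1) * m Col.O) ^ 2 / D < 1 := by
    apply Finset.exists_lt_of_sum_lt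
    have hone : ∑ x : Fin q → Fin n, (1 : ℝ) = N ^ q := by
      rw [Finset.sum_const, Finset.card_univ, Fintype.card_fun, Fintype.card_fin, Fintype.card_fin,
        nsmul_eq_mul, mul_one]
      push_cast
      rfl
    rw [hone]
    simp only [Finset.sum_add_distrib, ← Finset.sum_div]
    have t1 : ∑ x : Fin q → Fin n, ∑ p ∈ sample_P q, (if x p.1 = x p.2 then (1 : ℝ) else 0) ≤
        N ^ q / 8 := by
      rw [Finset.sum_comm]
      calc ∑ p ∈ sample_P q, ∑ x : Fin q → Fin n, (if x p.1 = x p.2 then (1 : ℝ) else 0)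
          ≤ ∑ p ∈ sample_P q, N ^ q / N := Finset.sum_le_sum hs1
        _ = ((sample_P q).card : ℝ) * (N ^ q / N) := by rw [Finset.sum_const, nsmul_eq_mul]
        _ ≤ (q : ℝ) ^ 2 * (N ^ q / N) := mul_le_mul_of_nonneg_right hPle (by positivity)
        _ ≤ (N / 8) * (N ^ q / N) :=
            mul_le_mul_of_nonneg_right (by linarith) (by positivity)
        _ = N ^ q / 8 := by field_simp
    have t2 : ∑ x : Fin q → Fin n, ∑ p ∈ sample_P q,
        (if (x p.1, x p.2) ∈ cpairs c Col.E then (1 : ℝ) else 0) ≤ N ^ q / 8 := by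
      rw [Finset.sum_comm]
      calc ∑ p ∈ sample_P q, ∑ x : Fin q → Fin n,
            (if (x p.1, x p.2) ∈ cpairs c Col.E then (1 : ℝ) else 0)
          ≤ ∑ p ∈ sample_P q, 1 / (8 * (q : ℝ) ^ 2) * N ^ q := Finset.sum_le_sum hs2
        _ = ((sample_P q).card : ℝ) * (1 / (8 * (q : ℝ) ^ 2) * N ^ q) := by
            rw [Finset.sum_const, nsmul_eq_mul]
        _ ≤ (q : ℝ) ^ 2 * (1 / (8 * (q : ℝ) ^ 2) * N ^ q) :=
            mul_le_mul_of_nonneg_right hPle (by positivity)
        _ = N ^ q / 8 := by field_simp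
    have t3 : ∀ a, (∑ x : Fin q → Fin n, (F a x - (q : ℝ) * (q - 1) * m a) ^ 2) / D ≤
        N ^ q / 8 := by
      intro a
      rw [div_le_iff₀ hDpos]
      refine (hsec a).trans ?_
      have h32 : 32 ≤ (q : ℝ) * ε ^ 2 := (div_le_iff₀ (by positivity)).1 hq2
      have h33 : 4 * (q : ℝ) ^ 3 * 8 ≤ D := by
        rw [hD]
        calc 4 * (q : ℝ) ^ 3 * 8 = 32 * (q : ℝ) ^ 3 := by ring
          _ ≤ ((q : ℝ) * ε ^ 2) * (q : ℝ) ^ 3 :=
              mul_le_mul_of_nonneg_right h32 (by positivity)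
          _ = ε ^ 2 * (q : ℝ) ^ 4 := by ring
      calc 4 * (q : ℝ) ^ 3 * N ^ q = N ^ q / 8 * (4 * (q : ℝ) ^ 3 * 8) := by ring
        _ ≤ N ^ q / 8 * D := mul_le_mul_of_nonneg_left h33 (by positivity)
    have hNq : 0 < N ^ q := by positivity
    have t4 := t3 Col.R
    have t5 := t3 Col.O
    linarith
  -- read off the properties of x
  have n1 : 0 ≤ ∑ p ∈ sample_P q, (if x p.1 = x p.2 then (1 : ℝ) else 0) :=
    Finset.sum_nonneg fun p _ => by split_ifs <;> norm_num
  have n2 : 0 ≤ ∑ p ∈ sample_P q, (if (x p.1, x p.2) ∈ cpairs c Col.E then (1 : ℝ) else 0) :=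
    Finset.sum_nonneg fun p _ => by split_ifs <;> norm_num
  have n3 : ∀ a, 0 ≤ (F a x - (q : ℝ) * (q - 1) * m a) ^ 2 / D := fun a => by positivity
  have hxinj : Function.Injective x := by
    intro s t hst
    by_contra hne
    have hmem : ((s, t) : Fin q × Fin q) ∈ sample_P q := by simp [sample_P, hne]
    have := Finset.single_le_sum (f := fun p : Fin q × Fin q =>
      (if x p.1 = x p.2 then (1 : ℝ) else 0)) (fun p _ => by split_ifs <;> norm_num) hmem
    simp only [hst, if_true] at this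
    linarith [n3 Col.R, n3 Col.O]
  have hxE : ∀ s t, x s < x t → c (x s, x t) ≠ Col.E := by
    intro s t hst hE
    have hne : s ≠ t := fun e => by
      rw [e] at hst
      exact lt_irrefl _ hst
    have hmem : ((s, t) : Fin q × Fin q) ∈ sample_P q := by simp [sample_P, hne]
    have hin : (x s, x t) ∈ cpairs c Col.E := by
      simp [cpairs, hst, hE]
    have := Finset.single_le_sum (f := fun p : Fin q × Fin q =>
      (if (x p.1, x p.2) ∈ cpairs c Col.E then (1 : ℝ) else 0))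
      (fun p _ => by split_ifs <;> norm_num) hmem
    simp only [hin, if_true] at this
    linarith [n3 Col.R, n3 Col.O]
  have hlt : ∀ a, a = Col.R ∨ a = Col.O →
      (F a x - (q : ℝ) * (q - 1) * m a) ^ 2 < ε ^ 2 * (q : ℝ) ^ 4 := by
    intro a ha
    rw [← hD, ← div_lt_one hDpos]
    rcases ha with rfl | rfl
    · linarith [n3 Col.O]
    · linarith [n3 Col.R]
  have hmc : ∀ a, ((cpairs c a).card : ℝ) / N ^ 2 = m a / 2 := by
    intro a
    simp only [hm]
    rw [sample_f_sum]
    ring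
  refine ⟨q, patOf c hc x hxinj hxE, fun _ => 1 / (q : ℝ), ⟨fun _ => by positivity, ?_⟩, ?_, ?_⟩
  · rw [Finset.sum_const, Finset.card_univ, Fintype.card_fin, nsmul_eq_mul]
    field_simp
  · rw [sample_form c hc x hxinj hxE Col.R (by decide), hmc]
    exact sample_est hε hq0 hq1 (hm0 _) (hm1 _) (hlt Col.R (Or.inl rfl))
  · rw [sample_form c hc x hxinj hxE Col.O (by decide), hmc]
    exact sample_est hε hq0 hq1 (hm0 _) (hm1 _) (hlt Col.O (Or.inr rfl))

/-- Mantel for types: `|cpairs c R| ≤ n²/4` if `c` is closed. The graph with edges `{x,y}`, `(x,y) ∈ cpairs c R`, is triangle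
free: for `x < y < z` with all three pairs `R`, `Closed` gives colour `O` or `E` for `(x,z)`. Use
Mathlib (`SimpleGraph.CliqueFree.card_edgeFinset_le` / Mantel) or Cauchy-Schwarz as in `Pat.rho_le_half`. -/
theorem card_R_le {n : ℕ} {c : Fin n × Fin n → Col} (hc : Closed c) :
    ((cpairs c Col.R).card : ℝ) ≤ (n : ℝ) ^ 2 / 4 := by
  classical
  have hkey : ∀ x y z, x < y → y < z → c (x, y) = Col.R → c (y, z) = Col.R →
      c (x, z) = Col.R → False := by
    intro x y z hxy hyz h1 h2 h3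
    rcases hc x y z hxy hyz (Or.inl h1) (Or.inl h2) with h | h <;> rw [h3] at h <;> cases h
  set Gr : SimpleGraph (Fin n) := SimpleGraph.fromRel (fun x y => x < y ∧ c (x, y) = Col.R) with hGr
  have hcf : Gr.CliqueFree (2 + 1) := by
    intro t ht
    rw [SimpleGraph.is3Clique_iff] at ht
    obtain ⟨a, b, d, hab, had, hbd, -⟩ := ht
    rw [hGr, SimpleGraph.fromRel_adj] at hab had hbd
    rcases hab.2 with h1 | h1 <;> rcases had.2 with h2 | h2 <;> rcases hbd.2 with h3 | h3
    · exact hkey a b d h1.1 h3.1 h1.2 h3.2 h2.2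
    · exact hkey a d b h2.1 h3.1 h2.2 h3.2 h1.2
    · exact absurd (h1.1.trans (h3.1.trans h2.1)) (lt_irrefl _)
    · exact hkey d a b h2.1 h1.1 h2.2 h1.2 h3.2
    · exact hkey b a d h1.1 h2.1 h1.2 h2.2 h3.2
    · exact absurd (h2.1.trans (h3.1.trans h1.1)) (lt_irrefl _)
    · exact hkey b d a h3.1 h2.1 h3.2 h2.2 h1.2
    · exact hkey d b a h3.1 h1.1 h3.2 h1.2 h2.2
  have hT := hcf.card_edgeFinset_le
  have hcard : (cpairs c Col.R).card ≤ Gr.edgeFinset.card := by
    refine Finset.card_le_card_of_injOn (fun p => s(p.1, p.2)) ?_ ?_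
    · intro p hp
      have hp' := (Finset.mem_filter.1 (Finset.mem_coe.1 hp)).2
      rw [Finset.mem_coe, SimpleGraph.mem_edgeFinset, SimpleGraph.mem_edgeSet, hGr,
        SimpleGraph.fromRel_adj]
      exact ⟨hp'.1.ne, Or.inl hp'⟩
    · intro p hp p' hp' h
      have h1 := (Finset.mem_filter.1 (Finset.mem_coe.1 hp)).2
      have h2 := (Finset.mem_filter.1 (Finset.mem_coe.1 hp')).2
      rcases Sym2.eq_iff.1 h with ⟨e1, e2⟩ | ⟨e1, e2⟩
      · exact Prod.ext e1 e2
      · exfalso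
        have := h1.1
        rw [e1, e2] at this
        exact absurd (this.trans h2.1) (lt_irrefl _)
  have h4 : 4 * (cpairs c Col.R).card ≤ n ^ 2 := by
    have hT' : Gr.edgeFinset.card ≤
        (n ^ 2 - (n % 2) ^ 2) * (2 - 1) / (2 * 2) + (n % 2).choose 2 := by
      simpa using hT
    have h0 : (n % 2).choose 2 = 0 := Nat.choose_eq_zero_of_lt (Nat.mod_lt _ (by norm_num))
    rw [h0, add_zero] at hT'
    have h5 : (n ^ 2 - (n % 2) ^ 2) * (2 - 1) / (2 * 2) * 4 ≤ (n ^ 2 - (n % 2) ^ 2) * (2 - 1) := by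
      have := Nat.div_mul_le_self ((n ^ 2 - (n % 2) ^ 2) * (2 - 1)) (2 * 2)
      simpa using this
    have h6 : (n ^ 2 - (n % 2) ^ 2) * (2 - 1) ≤ n ^ 2 := by
      simp
    omega
  have h5 : (4 : ℝ) * ((cpairs c Col.R).card : ℝ) ≤ (n : ℝ) ^ 2 := by
    exact_mod_cast h4
  linarith

end Pool.Agent.H.MP_82502e_co
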