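import Pool.Agent.H.MP_82502e_co.Pat

set_option autoImplicit false

/-!
# Perturbation of weights
Throughout `ρ = form R w w`, `ω = form O w w`, `d0 = ω/2 + ρ/4`.
-/

namespace Pool.Agent.H.MP_82502e_co

open Finset Real

variable {q : ℕ}

/-- `(1-A) w + A μ` is a probability vector. -/
theorem isProb_mix {w μ : Fin q → ℝ} (hw : IsProb w) (hμ : IsProb μ) {A : ℝ} (hA : 0 ≤ A)
    (hA1 : A ≤ 1) : IsProb (fun s => (1 - A) * w s + A * μ s) := by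
  refine ⟨fun s => ?_, ?_⟩
  · exact add_nonneg (mul_nonneg (by linarith) (hw.nonneg s)) (mul_nonneg hA (hμ.nonneg s))
  · rw [Finset.sum_add_distrib, ← Finset.mul_sum, ← Finset.mul_sum, hw.sum, hμ.sum]
    ring

/-- PERT. The pattern with weights `w'` is feasible at `d0` since `|D| ≤ ρ'/4`, and its value is at least
`r' log 2 - 4 (x' - r'/2)²/r'` (`phi_quad`) with `r' = ρ'/2`, `x' - r'/2 = D`. Then `le_G`. -/
theorem pert (P : Pat q) {w' : Fin q → ℝ} (hw' : IsProb w') {d0 : ℝ}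
    (hρ : 0 < P.form Col.R w' w')
    (hD : |d0 - P.form Col.O w' w' / 2 - P.form Col.R w' w' / 4| ≤ P.form Col.R w' w' / 4) :
    P.form Col.R w' w' / 2 * log 2 -
      8 * (d0 - P.form Col.O w' w' / 2 - P.form Col.R w' w' / 4) ^ 2 / P.form Col.R w' w' ≤
      G d0 := by
  obtain ⟨ρ', hρ'⟩ : ∃ ρ', ρ' = P.form Col.R w' w' := ⟨_, rfl⟩
  obtain ⟨ω', hω'⟩ : ∃ ω', ω' = P.form Col.O w' w' := ⟨_, rfl⟩
  have hG := fun h1 h2 => le_G (d := d0) P hw' h1 h2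
  rw [← hρ'] at hρ hD ⊢
  rw [← hω'] at hD ⊢
  rw [← hρ', ← hω'] at hG
  rw [abs_le] at hD
  have h1 : ω' / 2 ≤ d0 := by linarith [hD.1]
  have h2 : d0 ≤ (ω' + ρ') / 2 := by linarith [hD.2]
  have h3 := phi_quad (r := ρ' / 2) (x := d0 - ω' / 2) (by linarith) (by linarith) (by linarith)
  refine le_trans (le_of_eq ?_) (le_trans h3 (hG h1 h2))
  have hne : ρ' ≠ 0 := hρ.ne'
  field_simp
  ring

/-- Auxiliary: a unit vector is a probability vector. -/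
theorem star1_single (s : Fin q) : IsProb (Pi.single s (1 : ℝ) : Fin q → ℝ) := by
  refine ⟨fun t => ?_, ?_⟩
  · by_cases h : t = s
    · subst h; simp
    · simp [h]
  · simp [Pi.single_apply]

theorem star1_form_single (P : Pat q) (a : Col) (w : Fin q → ℝ) (s : Fin q) :
    P.form a w (Pi.single s (1 : ℝ)) = P.deg a w s := by
  rw [P.form_comm, P.form_eq_sum_deg]
  simp [Pi.single_apply]

theorem star1_form_single_self (P : Pat q) (a : Col) (ha : a ≠ Col.Z) (s : Fin q) :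
    P.form a (Pi.single s (1 : ℝ)) (Pi.single s (1 : ℝ)) = 0 := by
  rw [star1_form_single, Pat.deg]
  refine Finset.sum_eq_zero fun t _ => ?_
  by_cases h : t = s
  · subst h
    rw [P.diag, if_neg (fun h2 => ha h2.symm)]
  · simp [h]

/-- Auxiliary: combination of `pert` and the stationarity hypothesis. -/
theorem star1_absurd {d0 ρ ρ' ω' A : ℝ}
    (hp : 0 < ρ' → |d0 - ω' / 2 - ρ' / 4| ≤ ρ' / 4 →
      ρ' / 2 * log 2 - 8 * (d0 - ω' / 2 - ρ' / 4) ^ 2 / ρ' ≤ G d0)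
    (hst : G d0 < ρ / 2 * log 2 + A ^ 10)
    (h : ∃ E : ℝ, 0 < ρ' ∧ |d0 - ω' / 2 - ρ' / 4| ≤ ρ' / 4 ∧
      8 * (d0 - ω' / 2 - ρ' / 4) ^ 2 / ρ' ≤ E ∧ E + A ^ 10 ≤ (ρ' - ρ) / 2 * (69 / 100) ∧
      0 ≤ ρ' - ρ) : False := by
  obtain ⟨E, h1, h2, h3, h4, h5⟩ := h
  have h6 := hp h1 h2
  have h7 : (ρ' - ρ) / 2 * (69 / 100) ≤ (ρ' - ρ) / 2 * log 2 := by
    refine mul_le_mul_of_nonneg_left ?_ (by linarith)
    have := Real.log_two_gt_d9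
    linarith
  nlinarith

/-- Auxiliary: the numerical part of the first order condition. -/
theorem star1_first {A B ρ ω a b : ℝ} (hA : 0 < A) (hA1 : A ≤ 1 / 100) (hρ : 100 * A ≤ ρ)
    (hρ1 : ρ ≤ 1) (hω0 : 0 ≤ ω) (hω1 : ω ≤ 1) (ha1 : a ≤ 1) (hb0 : 0 ≤ b) (hb1 : b ≤ 1)
    (hB : B = A ^ 5) (hB0 : 0 < B) (hBA4 : B ≤ A ^ 4) (hA4A : A ^ 4 ≤ A)
    (hcon : ρ + A ^ 4 < a) :
    ∃ E : ℝ, 0 < (1 - B) ^ 2 * ρ + 2 * B * (1 - B) * a + B ^ 2 * 0 ∧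
      |ω / 2 + ρ / 4 - ((1 - B) ^ 2 * ω + 2 * B * (1 - B) * b + B ^ 2 * 0) / 2 -
        ((1 - B) ^ 2 * ρ + 2 * B * (1 - B) * a + B ^ 2 * 0) / 4| ≤
        ((1 - B) ^ 2 * ρ + 2 * B * (1 - B) * a + B ^ 2 * 0) / 4 ∧
      8 * (ω / 2 + ρ / 4 - ((1 - B) ^ 2 * ω + 2 * B * (1 - B) * b + B ^ 2 * 0) / 2 -
        ((1 - B) ^ 2 * ρ + 2 * B * (1 - B) * a + B ^ 2 * 0) / 4) ^ 2 /
        ((1 - B) ^ 2 * ρ + 2 * B * (1 - B) * a + B ^ 2 * 0) ≤ E ∧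
      E + A ^ 10 ≤ (((1 - B) ^ 2 * ρ + 2 * B * (1 - B) * a + B ^ 2 * 0) - ρ) / 2 * (69 / 100) ∧
      0 ≤ ((1 - B) ^ 2 * ρ + 2 * B * (1 - B) * a + B ^ 2 * 0) - ρ := by
  obtain ⟨ρ', hρ'⟩ : ∃ ρ', ρ' = (1 - B) ^ 2 * ρ + 2 * B * (1 - B) * a + B ^ 2 * 0 := ⟨_, rfl⟩
  obtain ⟨ω', hω'⟩ : ∃ ω', ω' = (1 - B) ^ 2 * ω + 2 * B * (1 - B) * b + B ^ 2 * 0 := ⟨_, rfl⟩
  rw [← hρ', ← hω']
  have hB1 : B ≤ 1 / 100 := by linarith
  have hρ0 : 0 ≤ ρ := by linarith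
  have k1 : 2 * B * A ^ 4 - 2 * B ^ 2 ≤ ρ' - ρ := by
    have h1 : 0 ≤ B * (1 - B) * (a - (ρ + A ^ 4)) :=
      mul_nonneg (mul_nonneg hB0.le (by linarith)) (by linarith)
    have h2 : B ^ 2 * ρ ≤ B ^ 2 * 1 := mul_le_mul_of_nonneg_left hρ1 (by positivity)
    have h3 : B ^ 2 * A ^ 4 ≤ B ^ 2 * (1 / 2) :=
      mul_le_mul_of_nonneg_left (by linarith) (by positivity)
    nlinarith
  have k2 : 0 ≤ ρ' - ρ := by
    have h1 : 0 ≤ B * (A ^ 4 - B) := mul_nonneg hB0.le (by linarith)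
    nlinarith
  have k3 : ρ' - ρ ≤ 2 * B := by
    have h1 : 0 ≤ B * (1 - B) * (1 - a) := mul_nonneg (mul_nonneg hB0.le (by linarith)) (by linarith)
    have h2 : 0 ≤ B * (2 - B) * ρ := mul_nonneg (mul_nonneg hB0.le (by linarith)) hρ0
    nlinarith
  have k4 : ω' - ω ≤ 2 * B := by
    have h1 : 0 ≤ B * (1 - B) * (1 - b) := mul_nonneg (mul_nonneg hB0.le (by linarith)) (by linarith)
    have h2 : 0 ≤ B * (2 - B) * ω := mul_nonneg (mul_nonneg hB0.le (by linarith)) hω0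
    nlinarith
  have k5 : -(2 * B) ≤ ω' - ω := by
    have h1 : 0 ≤ B * (1 - B) * b := mul_nonneg (mul_nonneg hB0.le (by linarith)) hb0
    have h2 : 0 ≤ B * (2 - B) * (1 - ω) := mul_nonneg (mul_nonneg hB0.le (by linarith)) (by linarith)
    nlinarith
  obtain ⟨D, hD⟩ : ∃ D, D = ω / 2 + ρ / 4 - ω' / 2 - ρ' / 4 := ⟨_, rfl⟩
  rw [← hD]
  have hD2 : |D| ≤ 2 * B := by
    rw [abs_le]
    constructor <;> linarith
  have hρ'0 : 100 * A ≤ ρ' := by linarith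
  have hsq : D ^ 2 ≤ 4 * B ^ 2 := by
    have := sq_le_sq' (by linarith [neg_le_of_abs_le hD2]) (le_of_abs_le hD2)
    nlinarith
  have hBA : B ^ 2 = A ^ 10 := by rw [hB]; ring
  refine ⟨32 / 100 * A ^ 9, by linarith, ?_, ?_, ?_, k2⟩
  · linarith
  · rw [div_le_iff₀ (by linarith)]
    have h9 : 0 < A ^ 9 := by positivity
    have h10 : 32 / 100 * A ^ 9 * (100 * A) ≤ 32 / 100 * A ^ 9 * ρ' :=
      mul_le_mul_of_nonneg_left hρ'0 (by positivity)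
    have h11 : 32 / 100 * A ^ 9 * (100 * A) = 32 * A ^ 10 := by ring
    rw [hBA] at hsq
    linarith
  · have h9 : 0 < A ^ 9 := by positivity
    have e1 : B * A ^ 4 = A ^ 9 := by rw [hB]; ring
    have e2 : A ^ 10 ≤ A ^ 9 * (1 / 100) := by
      rw [show A ^ 10 = A ^ 9 * A by ring]
      exact mul_le_mul_of_nonneg_left hA1 h9.le
    have e3 : 2 * A ^ 9 - 2 * A ^ 10 ≤ ρ' - ρ := by
      rw [← hBA, ← e1]
      linarith
    linarith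

/-- Auxiliary: the numerical part of the second order condition. -/
theorem star1_second {A ρ ω X Y U V : ℝ} (hA : 0 < A) (hA1 : A ≤ 1 / 100) (hρ : 100 * A ≤ ρ)
    (hρ1 : ρ ≤ 1) (hω0 : 0 ≤ ω) (hω1 : ω ≤ 1) (hX0 : ρ - A ^ 2 ≤ X) (hX1 : X ≤ ρ + A ^ 4)
    (hY1 : Y ≤ 1) (hV0 : 0 ≤ V) (hV1 : V ≤ 1) (hO : |U - ω| ≤ A / 2)
    (hcon : ρ + 7 * A < Y) :
    ∃ E : ℝ, 0 < (1 - A) ^ 2 * ρ + 2 * A * (1 - A) * X + A ^ 2 * Y ∧
      |ω / 2 + ρ / 4 - ((1 - A) ^ 2 * ω + 2 * A * (1 - A) * U + A ^ 2 * V) / 2 -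
        ((1 - A) ^ 2 * ρ + 2 * A * (1 - A) * X + A ^ 2 * Y) / 4| ≤
        ((1 - A) ^ 2 * ρ + 2 * A * (1 - A) * X + A ^ 2 * Y) / 4 ∧
      8 * (ω / 2 + ρ / 4 - ((1 - A) ^ 2 * ω + 2 * A * (1 - A) * U + A ^ 2 * V) / 2 -
        ((1 - A) ^ 2 * ρ + 2 * A * (1 - A) * X + A ^ 2 * Y) / 4) ^ 2 /
        ((1 - A) ^ 2 * ρ + 2 * A * (1 - A) * X + A ^ 2 * Y) ≤ E ∧
      E + A ^ 10 ≤ (((1 - A) ^ 2 * ρ + 2 * A * (1 - A) * X + A ^ 2 * Y) - ρ) / 2 * (69 / 100) ∧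
      0 ≤ ((1 - A) ^ 2 * ρ + 2 * A * (1 - A) * X + A ^ 2 * Y) - ρ := by
  obtain ⟨ρ', hρ'⟩ : ∃ ρ', ρ' = (1 - A) ^ 2 * ρ + 2 * A * (1 - A) * X + A ^ 2 * Y := ⟨_, rfl⟩
  obtain ⟨ω', hω'⟩ : ∃ ω', ω' = (1 - A) ^ 2 * ω + 2 * A * (1 - A) * U + A ^ 2 * V := ⟨_, rfl⟩
  rw [← hρ', ← hω']
  rw [abs_le] at hO
  have hρ0 : 0 ≤ ρ := by linarith
  have hA2 : 0 < A ^ 2 := by positivity
  have hA3 : 0 < A ^ 3 := by positivity
  have hA4 : 0 < A ^ 4 := by positivity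
  have hA11 : 0 ≤ A * (1 - A) := mul_nonneg hA.le (by linarith)
  have k1 : 5 * A ^ 3 ≤ ρ' - ρ := by
    have h1 : 0 ≤ A * (1 - A) * (X - (ρ - A ^ 2)) := mul_nonneg hA11 (by linarith)
    have h2 : 0 ≤ A ^ 2 * (Y - (ρ + 7 * A)) := mul_nonneg hA2.le (by linarith)
    nlinarith
  have k3 : ρ' - ρ ≤ 2 * A ^ 2 := by
    have h1 : 0 ≤ A * (1 - A) * ((ρ + A ^ 4) - X) := mul_nonneg hA11 (by linarith)
    have h2 : 0 ≤ A ^ 2 * (1 - Y) := mul_nonneg hA2.le (by linarith)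
    have h3 : 0 ≤ A ^ 2 * ρ := mul_nonneg hA2.le hρ0
    have h4 : 2 * A ^ 5 ≤ A ^ 2 := by
      have h5 : A ^ 3 ≤ 1 / 2 := by
        have : A ^ 3 ≤ (1 / 100) ^ 3 := pow_le_pow_left₀ hA.le hA1 3
        norm_num at this ⊢
        linarith
      rw [show A ^ 5 = A ^ 2 * A ^ 3 by ring]
      nlinarith
    have h6 : 0 ≤ A ^ 6 := by positivity
    have e : 2 * A ^ 2 - (ρ' - ρ) = 2 * (A * (1 - A) * ((ρ + A ^ 4) - X)) + A ^ 2 * (1 - Y) +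
        A ^ 2 * ρ + (A ^ 2 - 2 * A ^ 5) + 2 * A ^ 6 := by
      rw [hρ']; ring
    linarith
  have k4 : ω' - ω ≤ 2 * A ^ 2 := by
    have h1 : 0 ≤ A * (1 - A) * (A / 2 - (U - ω)) := mul_nonneg hA11 (by linarith)
    have h2 : 0 ≤ A ^ 2 * (1 - V) := mul_nonneg hA2.le (by linarith)
    have h3 : 0 ≤ A ^ 2 * ω := mul_nonneg hA2.le hω0
    have e : 2 * A ^ 2 - (ω' - ω) = 2 * (A * (1 - A) * (A / 2 - (U - ω))) + A ^ 2 * (1 - V) +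
        A ^ 2 * ω + A ^ 3 := by
      rw [hω']; ring
    linarith
  have k5 : -(2 * A ^ 2) ≤ ω' - ω := by
    have h1 : 0 ≤ A * (1 - A) * ((U - ω) + A / 2) := mul_nonneg hA11 (by linarith)
    have h2 : 0 ≤ A ^ 2 * (1 - ω) := mul_nonneg hA2.le (by linarith)
    have h3 : 0 ≤ A ^ 2 * V := mul_nonneg hA2.le hV0
    have e : (ω' - ω) + 2 * A ^ 2 = 2 * (A * (1 - A) * ((U - ω) + A / 2)) + A ^ 2 * (1 - ω) +
        A ^ 2 * V + A ^ 3 := by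
      rw [hω']; ring
    linarith
  obtain ⟨D, hD⟩ : ∃ D, D = ω / 2 + ρ / 4 - ω' / 2 - ρ' / 4 := ⟨_, rfl⟩
  rw [← hD]
  have hD2 : |D| ≤ 3 / 2 * A ^ 2 := by
    rw [abs_le]
    constructor <;> linarith
  have hρ'0 : 100 * A ≤ ρ' := by linarith
  have hsq : D ^ 2 ≤ 9 / 4 * A ^ 4 := by
    have := sq_le_sq' (by linarith [neg_le_of_abs_le hD2]) (le_of_abs_le hD2)
    nlinarith
  have hA2A : A ^ 2 ≤ A := by nlinarith
  refine ⟨18 / 100 * A ^ 3, by linarith, ?_, ?_, ?_, by linarith⟩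
  · linarith
  · rw [div_le_iff₀ (by linarith)]
    have h10 : 18 / 100 * A ^ 3 * (100 * A) ≤ 18 / 100 * A ^ 3 * ρ' :=
      mul_le_mul_of_nonneg_left hρ'0 (by positivity)
    have h11 : 18 / 100 * A ^ 3 * (100 * A) = 18 * A ^ 4 := by ring
    linarith
  · have e2 : A ^ 10 ≤ A ^ 3 * 1 := by
      rw [show A ^ 10 = A ^ 3 * A ^ 7 by ring]
      exact mul_le_mul_of_nonneg_left (pow_le_one₀ hA.le (by linarith)) hA3.le
    linarith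

/-- (a) First order. Suppose `R_s > ρ + A⁴`. Use `w' = (1-B) w + B δ_s`, `B = A⁵` (`δ_s = Pi.single s 1`; `form R w δ_s = deg R w s`,
`form R δ_s δ_s = 0`, `form O δ_s δ_s = 0` by `diag`). `form_mix`: `ρ' - ρ = (B² - 2B) ρ + 2B(1-B) R_s ≥ 2 B A⁴ - 2 B² ≥ 0`,
`|ρ' - ρ| ≤ 2B`, `|ω' - ω| ≤ 2B + B²`, so `|D| ≤ 2B` (`D = (ω-ω')/2 + (ρ-ρ')/4`), and `8 D²/ρ' ≤ 32 B²/(100 A)`. `pert` and `STAT`:
`(B A⁴ - B²) log 2 - (32/100) B²/A < A^10`, i.e. (divide by `A⁹`) `(1 - A)(log 2) - 32/100 < A`, false for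
`A ≤ 1/100` (`log 2 > 0.69`). -/
theorem deg_le_of_stat (P : Pat q) {w : Fin q → ℝ} (hw : IsProb w) {A : ℝ} (hA : 0 < A)
    (hA1 : A ≤ 1 / 100) (hρ : 100 * A ≤ P.form Col.R w w)
    (hst : G (P.form Col.O w w / 2 + P.form Col.R w w / 4) <
      P.form Col.R w w / 2 * log 2 + A ^ 10) (s : Fin q) :
    P.deg Col.R w s ≤ P.form Col.R w w + A ^ 4 := by
  by_contra hcon
  push Not at hcon
  obtain ⟨ρ, hρd⟩ : ∃ ρ, ρ = P.form Col.R w w := ⟨_, rfl⟩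
  obtain ⟨ω, hωd⟩ : ∃ ω, ω = P.form Col.O w w := ⟨_, rfl⟩
  obtain ⟨B, hB⟩ : ∃ B : ℝ, B = A ^ 5 := ⟨_, rfl⟩
  obtain ⟨a, ha⟩ : ∃ a, a = P.deg Col.R w s := ⟨_, rfl⟩
  obtain ⟨b, hb⟩ : ∃ b, b = P.deg Col.O w s := ⟨_, rfl⟩
  have hA4 : 0 < A ^ 4 := by positivity
  have hB0 : 0 < B := by rw [hB]; positivity
  have hBA4 : B ≤ A ^ 4 := by
    rw [hB, show A ^ 5 = A ^ 4 * A by ring]
    nlinarith
  have hA4A : A ^ 4 ≤ A := by
    have h1 : A ^ 3 ≤ 1 := pow_le_one₀ hA.le (by linarith)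
    rw [show A ^ 4 = A ^ 3 * A by ring]
    nlinarith
  have hB1 : B ≤ 1 := by linarith
  have ha1 : a ≤ 1 := by rw [ha]; exact P.deg_le_one Col.R hw s
  have hb1 : b ≤ 1 := by rw [hb]; exact P.deg_le_one Col.O hw s
  have hb0 : 0 ≤ b := by rw [hb]; exact P.deg_nonneg Col.O hw.nonneg s
  have hρ1 : ρ ≤ 1 := by rw [hρd]; exact P.form_le_one Col.R hw hw
  have hω1 : ω ≤ 1 := by rw [hωd]; exact P.form_le_one Col.O hw hw
  have hω0 : 0 ≤ ω := by rw [hωd]; exact P.form_nonneg Col.O hw.nonneg hw.nonneg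
  have hpr := isProb_mix hw (star1_single s) hB0.le hB1
  have hmR := P.form_mix Col.R w (Pi.single s (1 : ℝ)) B
  have hmO := P.form_mix Col.O w (Pi.single s (1 : ℝ)) B
  rw [star1_form_single, star1_form_single_self P Col.R (by decide), ← ha, ← hρd] at hmR
  rw [star1_form_single, star1_form_single_self P Col.O (by decide), ← hb, ← hωd] at hmO
  have hp := pert P hpr (d0 := ω / 2 + ρ / 4)
  rw [hmR, hmO] at hp
  rw [← hρd, ← hωd] at hst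
  rw [← hρd, ← ha] at hcon
  rw [← hρd] at hρ
  have hfin := star1_first hA hA1 hρ hρ1 hω0 hω1 ha1 hb0 hb1 hB hB0 hBA4 hA4A hcon
  exact star1_absurd hp hst hfin

/-- (b) `∑_s w_s (ρ + A⁴ - R_s) = A⁴`, the terms are `≥ 0`, and those with `R_s < ρ - A²` are
`≥ w_s A²`. -/
theorem mass_compl_le (P : Pat q) {w : Fin q → ℝ} (hw : IsProb w) {A : ℝ} (hA : 0 < A)
    (h1 : ∀ s, P.deg Col.R w s ≤ P.form Col.R w w + A ^ 4) :
    ∑ s ∈ univ.filter (fun s => P.deg Col.R w s < P.form Col.R w w - A ^ 2), w s ≤ A ^ 2 := by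
  obtain ⟨ρ, hρd⟩ : ∃ ρ, ρ = P.form Col.R w w := ⟨_, rfl⟩
  have hsum : ∑ s, w s * (ρ + A ^ 4 - P.deg Col.R w s) = A ^ 4 := by
    have e : ∀ s, w s * (ρ + A ^ 4 - P.deg Col.R w s) =
        (ρ + A ^ 4) * w s - w s * P.deg Col.R w s := by
      intro s; ring
    simp_rw [e]
    rw [Finset.sum_sub_distrib, ← Finset.mul_sum, hw.sum, ← P.form_eq_sum_deg, ← hρd]
    ring
  rw [← hρd] at h1 ⊢
  have hle : ∑ s ∈ univ.filter (fun s => P.deg Col.R w s < ρ - A ^ 2), A ^ 2 * w s ≤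
      ∑ s, w s * (ρ + A ^ 4 - P.deg Col.R w s) := by
    refine le_trans (Finset.sum_le_sum (g := fun s => w s * (ρ + A ^ 4 - P.deg Col.R w s)) ?_)
      (Finset.sum_le_sum_of_subset_of_nonneg (Finset.filter_subset _ _) ?_)
    · intro s hs
      have hs' := (Finset.mem_filter.1 hs).2
      have hw0 := hw.nonneg s
      have hA4 : 0 < A ^ 4 := by positivity
      rw [mul_comm (A ^ 2)]
      exact mul_le_mul_of_nonneg_left (by linarith) hw0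
    · intro s _ _
      exact mul_nonneg (hw.nonneg s) (by linarith [h1 s])
  rw [hsum, ← Finset.mul_sum] at hle
  have hA2 : 0 < A ^ 2 := by positivity
  rw [show A ^ 4 = A ^ 2 * A ^ 2 by ring] at hle
  exact le_of_mul_le_mul_left hle hA2

/-- (c) Second order. Suppose `R(μ,μ) > ρ + 7A`. Use `w' = (1-A) w + A μ`. `R(w,μ) = ∑ μ_s R_s ∈ [ρ - A², ρ + A⁴]`.
`ρ' - ρ = (A² - 2A) ρ + 2A(1-A) R(w,μ) + A² R(μ,μ) ≥ 5 A³` and `≤ 2A²`; `ω' - ω = -A² ω + 2A(1-A)(O(w,μ) - ω) + A² O(μ,μ)`, so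
`|ω' - ω| ≤ 2A²`; `|D| ≤ (3/2) A²`; `8 D²/ρ' ≤ 18 A⁴/(100 A)`. `pert` and STAT: `(5/2) A³ log 2 - (18/100) A³ < A^10`, false. -/
theorem form_le_of_stat (P : Pat q) {w : Fin q → ℝ} (hw : IsProb w) {A : ℝ} (hA : 0 < A)
    (hA1 : A ≤ 1 / 100) (hρ : 100 * A ≤ P.form Col.R w w)
    (hst : G (P.form Col.O w w / 2 + P.form Col.R w w / 4) <
      P.form Col.R w w / 2 * log 2 + A ^ 10)
    (h1 : ∀ s, P.deg Col.R w s ≤ P.form Col.R w w + A ^ 4)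
    {μ : Fin q → ℝ} (hμ : IsProb μ)
    (hsupp : ∀ s, μ s ≠ 0 → P.form Col.R w w - A ^ 2 ≤ P.deg Col.R w s)
    (hO : |P.form Col.O w μ - P.form Col.O w w| ≤ A / 2) :
    P.form Col.R μ μ ≤ P.form Col.R w w + 7 * A := by
  by_contra hcon
  push Not at hcon
  obtain ⟨ρ, hρd⟩ : ∃ ρ, ρ = P.form Col.R w w := ⟨_, rfl⟩
  obtain ⟨ω, hωd⟩ : ∃ ω, ω = P.form Col.O w w := ⟨_, rfl⟩
  obtain ⟨X, hX⟩ : ∃ X, X = P.form Col.R w μ := ⟨_, rfl⟩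
  obtain ⟨Y, hY⟩ : ∃ Y, Y = P.form Col.R μ μ := ⟨_, rfl⟩
  obtain ⟨U, hU⟩ : ∃ U, U = P.form Col.O w μ := ⟨_, rfl⟩
  obtain ⟨V, hV⟩ : ∃ V, V = P.form Col.O μ μ := ⟨_, rfl⟩
  have hY1 : Y ≤ 1 := by rw [hY]; exact P.form_le_one Col.R hμ hμ
  have hV1 : V ≤ 1 := by rw [hV]; exact P.form_le_one Col.O hμ hμ
  have hV0 : 0 ≤ V := by rw [hV]; exact P.form_nonneg Col.O hμ.nonneg hμ.nonneg
  have hρ1 : ρ ≤ 1 := by rw [hρd]; exact P.form_le_one Col.R hw hw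
  have hω1 : ω ≤ 1 := by rw [hωd]; exact P.form_le_one Col.O hw hw
  have hω0 : 0 ≤ ω := by rw [hωd]; exact P.form_nonneg Col.O hw.nonneg hw.nonneg
  have hXs : X = ∑ s, μ s * P.deg Col.R w s := by
    rw [hX, P.form_comm, P.form_eq_sum_deg]
  have hX1 : X ≤ ρ + A ^ 4 := by
    have e : ρ + A ^ 4 = ∑ s, μ s * (ρ + A ^ 4) := by
      rw [← Finset.sum_mul, hμ.sum, one_mul]
    rw [e, hXs]
    refine Finset.sum_le_sum fun s _ => mul_le_mul_of_nonneg_left ?_ (hμ.nonneg s)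
    rw [hρd]
    exact h1 s
  have hX0 : ρ - A ^ 2 ≤ X := by
    have e : ρ - A ^ 2 = ∑ s, μ s * (ρ - A ^ 2) := by
      rw [← Finset.sum_mul, hμ.sum, one_mul]
    rw [e, hXs]
    refine Finset.sum_le_sum fun s _ => ?_
    by_cases h0 : μ s = 0
    · rw [h0]; simp
    · refine mul_le_mul_of_nonneg_left ?_ (hμ.nonneg s)
      rw [hρd]
      exact hsupp s h0
  have hpr := isProb_mix hw hμ hA.le (by linarith)
  have hmR := P.form_mix Col.R w μ A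
  have hmO := P.form_mix Col.O w μ A
  rw [← hρd, ← hX, ← hY] at hmR
  rw [← hωd, ← hU, ← hV] at hmO
  have hp := pert P hpr (d0 := ω / 2 + ρ / 4)
  rw [hmR, hmO] at hp
  rw [← hρd, ← hωd] at hst
  rw [← hρd, ← hY] at hcon
  rw [← hρd] at hρ
  rw [← hU, ← hωd] at hO
  have hfin := star1_second hA hA1 hρ hρ1 hω0 hω1 hX0 hX1 hY1 hV0 hV1 hO hcon
  exact star1_absurd hp hst hfin

end Pool.Agent.H.MP_82502e_co
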