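import Pool.Agent.H.MP_82502e_co.Pat

set_option autoImplicit false

/-!
# The graph lemma
-/

namespace Pool.Agent.H.MP_82502e_co

open Finset Real

variable {q : ℕ}

/-- The unit vector at `s`. -/
def star2_d (s : Fin q) : Fin q → ℝ := fun t => if t = s then 1 else 0

/-- The mixture of two vectors. -/
def star2_mix (a : ℝ) (u v : Fin q → ℝ) : Fin q → ℝ := fun s => (1 - a) * u s + a * v s

theorem star2_d_prob (s : Fin q) : IsProb (star2_d s) := by
  refine ⟨fun t => ?_, ?_⟩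
  · unfold star2_d
    split_ifs
    · exact zero_le_one
    · exact le_rfl
  · unfold star2_d
    rw [Finset.sum_ite_eq' univ s (fun _ => (1 : ℝ)), if_pos (mem_univ s)]

theorem star2_mix_prob {u v : Fin q → ℝ} (hu : IsProb u) (hv : IsProb v) {a : ℝ}
    (h0 : 0 ≤ a) (h1 : a ≤ 1) : IsProb (star2_mix a u v) := by
  refine ⟨fun t => ?_, ?_⟩
  · unfold star2_mix
    exact add_nonneg (mul_nonneg (by linarith) (hu.nonneg t)) (mul_nonneg h0 (hv.nonneg t))
  · unfold star2_mix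
    rw [Finset.sum_add_distrib, ← Finset.mul_sum, ← Finset.mul_sum, hu.sum, hv.sum]
    ring

theorem star2_d_supp {p : Fin q → Prop} {s : Fin q} (hs : p s) :
    ∀ t, star2_d s t ≠ 0 → p t := by
  intro t ht
  unfold star2_d at ht
  by_cases h : t = s
  · rw [h]
    exact hs
  · rw [if_neg h] at ht
    exact absurd rfl ht

theorem star2_mix_supp {p : Fin q → Prop} {u v : Fin q → ℝ} {a : ℝ}
    (hu : ∀ t, u t ≠ 0 → p t) (hv : ∀ t, v t ≠ 0 → p t) :
    ∀ t, star2_mix a u v t ≠ 0 → p t := by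
  intro t ht
  by_cases h1 : u t = 0
  · by_cases h2 : v t = 0
    · exfalso
      apply ht
      unfold star2_mix
      rw [h1, h2, mul_zero, mul_zero, add_zero]
    · exact hv t h2
  · exact hu t h1

theorem star2_form_mix_right (P : Pat q) (c : Col) (w u v : Fin q → ℝ) (a : ℝ) :
    P.form c w (star2_mix a u v) = (1 - a) * P.form c w u + a * P.form c w v := by
  unfold Pat.form star2_mix
  simp only [Finset.mul_sum, ← Finset.sum_add_distrib]
  refine Finset.sum_congr rfl fun s _ => Finset.sum_congr rfl fun t _ => ?_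
  split_ifs
  · ring
  · ring

theorem star2_form_mix (P : Pat q) (c : Col) (u v : Fin q → ℝ) (a : ℝ) :
    P.form c (star2_mix a u v) (star2_mix a u v) =
      (1 - a) ^ 2 * P.form c u u + 2 * a * (1 - a) * P.form c u v + a ^ 2 * P.form c v v :=
  P.form_mix c u v a

theorem star2_form_d (P : Pat q) (c : Col) (w : Fin q → ℝ) (s : Fin q) :
    P.form c w (star2_d s) = P.deg c w s := by
  rw [P.form_comm, P.form_eq_sum_deg]
  unfold star2_d
  have h : ∀ t, (if t = s then (1 : ℝ) else 0) * P.deg c w t = if t = s then P.deg c w t else 0 := by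
    intro t
    rw [ite_mul, one_mul, zero_mul]
  rw [Finset.sum_congr rfl fun t _ => h t, Finset.sum_ite_eq' univ s, if_pos (mem_univ s)]

theorem star2_form_dd (P : Pat q) (c : Col) (s t : Fin q) :
    P.form c (star2_d s) (star2_d t) = if P.col s t = c then 1 else 0 := by
  rw [star2_form_d]
  unfold Pat.deg star2_d
  have h : ∀ u, (if P.col t u = c then (if u = s then (1 : ℝ) else 0) else 0) =
      if u = s then (if P.col t u = c then 1 else 0) else 0 := by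
    intro u
    split_ifs <;> rfl
  rw [Finset.sum_congr rfl fun u _ => h u, Finset.sum_ite_eq' univ s, if_pos (mem_univ s),
    P.symm t s]

/-- The uniform measure on an edge. -/
theorem star2_edge (P : Pat q) {s t : Fin q} (h : P.col s t = Col.R) :
    P.form Col.R (star2_mix (1 / 2) (star2_d s) (star2_d t))
      (star2_mix (1 / 2) (star2_d s) (star2_d t)) = 1 / 2 := by
  rw [star2_form_mix, star2_form_dd, star2_form_dd, star2_form_dd, P.diag, P.diag, if_pos h,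
    if_neg (by decide)]
  norm_num

theorem star2_interp {x y z : ℝ} (h1 : x < z) (h2 : z < y) :
    ∃ a : ℝ, 0 ≤ a ∧ a ≤ 1 ∧ (1 - a) * x + a * y = z := by
  have h3 : 0 < y - x := by linarith
  refine ⟨(z - x) / (y - x), div_nonneg (by linarith) h3.le, ?_, ?_⟩
  · rw [div_le_one h3]
    linarith
  · field_simp
    ring

theorem star2_edge_sum (P : Pat q) (w O : Fin q → ℝ) (F : Finset (Fin q)) :
    ∑ s ∈ F, ∑ t ∈ F, (if P.col s t = Col.R then w s * w t * (O s + O t) else 0) =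
      2 * ∑ s ∈ F, w s * O s * ∑ t ∈ F, (if P.col s t = Col.R then w t else 0) := by
  have a1 : ∑ s ∈ F, ∑ t ∈ F, (if P.col s t = Col.R then w s * w t * O s else 0) =
      ∑ s ∈ F, w s * O s * ∑ t ∈ F, (if P.col s t = Col.R then w t else 0) := by
    refine Finset.sum_congr rfl fun s _ => ?_
    rw [Finset.mul_sum]
    refine Finset.sum_congr rfl fun t _ => ?_
    split_ifs
    · ring
    · ring
  have a2 : ∑ s ∈ F, ∑ t ∈ F, (if P.col s t = Col.R then w s * w t * O t else 0) =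
      ∑ s ∈ F, w s * O s * ∑ t ∈ F, (if P.col s t = Col.R then w t else 0) := by
    rw [Finset.sum_comm, ← a1]
    refine Finset.sum_congr rfl fun s _ => Finset.sum_congr rfl fun t _ => ?_
    rw [P.symm t s, mul_comm (w t)]
  have a3 : 2 * ∑ s ∈ F, w s * O s * ∑ t ∈ F, (if P.col s t = Col.R then w t else 0) =
      (∑ s ∈ F, ∑ t ∈ F, (if P.col s t = Col.R then w s * w t * O s else 0)) +
      ∑ s ∈ F, ∑ t ∈ F, (if P.col s t = Col.R then w s * w t * O t else 0) := by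
    rw [a1, a2, two_mul]
  rw [a3, ← Finset.sum_add_distrib]
  refine Finset.sum_congr rfl fun s _ => ?_
  rw [← Finset.sum_add_distrib]
  refine Finset.sum_congr rfl fun t _ => ?_
  split_ifs
  · ring
  · ring

theorem star2_mass_sum (P : Pat q) (w : Fin q → ℝ) (F : Finset (Fin q)) :
    ∑ s ∈ F, ∑ t ∈ F, (if P.col s t = Col.R then w s * w t else 0) =
      ∑ s ∈ F, w s * ∑ t ∈ F, (if P.col s t = Col.R then w t else 0) := by
  refine Finset.sum_congr rfl fun s _ => ?_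
  rw [Finset.mul_sum]
  refine Finset.sum_congr rfl fun t _ => ?_
  split_ifs
  · ring
  · ring

/-- Neighbourhoods of the ends of an edge are disjoint. -/
theorem star2_mass (P : Pat q) {w : Fin q → ℝ} (hw : IsProb w) {K G : Finset (Fin q)}
    {s t : Fin q} (hst : P.col s t = Col.R)
    (hs : ∀ u, P.col s u = Col.R → u ∈ K ∨ u ∈ G)
    (ht : ∀ u, P.col t u = Col.R → u ∈ K ∨ u ∈ G) :
    P.deg Col.R w s + P.deg Col.R w t ≤ ∑ u ∈ K, w u + ∑ u ∈ G, w u := by
  have e1 : ∑ u ∈ K, w u = ∑ u, if u ∈ K then w u else 0 := by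
    rw [Finset.sum_ite_mem, Finset.univ_inter]
  have e2 : ∑ u ∈ G, w u = ∑ u, if u ∈ G then w u else 0 := by
    rw [Finset.sum_ite_mem, Finset.univ_inter]
  rw [e1, e2, ← Finset.sum_add_distrib]
  unfold Pat.deg
  rw [← Finset.sum_add_distrib]
  refine Finset.sum_le_sum fun u _ => ?_
  have hu := hw.nonneg u
  have key : u ∈ K ∨ u ∈ G → w u ≤ (if u ∈ K then w u else 0) + (if u ∈ G then w u else 0) := by
    intro h
    rcases h with h | h
    · rw [if_pos h]
      split_ifs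
      · linarith
      · linarith
    · rw [if_pos h]
      split_ifs
      · linarith
      · linarith
  have nn : 0 ≤ (if u ∈ K then w u else 0) + (if u ∈ G then w u else 0) := by
    split_ifs <;> linarith
  by_cases h1 : P.col s u = Col.R
  · have h2 : P.col t u ≠ Col.R := fun h2 => P.tri_free hst h2 h1
    rw [if_pos h1, if_neg h2, add_zero]
    exact key (hs u h1)
  · rw [if_neg h1, zero_add]
    by_cases h2 : P.col t u = Col.R
    · rw [if_pos h2]
      exact key (ht u h2)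
    · rw [if_neg h2]
      exact nn

theorem star2_num1 {A ρ ω : ℝ} (hA : 0 < A) (hρ : 100 * A ≤ ρ) (hρ1 : ρ ≤ 1) (hω1 : ω ≤ 1)
    (h : 2 * ((ρ - 2 * A ^ 2) * (ω - A ^ 2)) ≤ (2 * ω - A) * ρ) : False := by
  have a1 : A * (100 * A) ≤ A * ρ := mul_le_mul_of_nonneg_left hρ hA.le
  have a2 : A ^ 2 * ρ ≤ A ^ 2 * 1 := mul_le_mul_of_nonneg_left hρ1 (by positivity)
  have a3 : A ^ 2 * ω ≤ A ^ 2 * 1 := mul_le_mul_of_nonneg_left hω1 (by positivity)
  have a4 : 0 < A ^ 2 := by positivity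
  have a5 : 0 < A ^ 4 := by positivity
  have e1 : 2 * ((ρ - 2 * A ^ 2) * (ω - A ^ 2)) =
      2 * (ρ * ω) - 2 * (A ^ 2 * ρ) - 4 * (A ^ 2 * ω) + 4 * A ^ 4 := by ring
  have e2 : (2 * ω - A) * ρ = 2 * (ρ * ω) - A * ρ := by ring
  have e3 : A * (100 * A) = 100 * A ^ 2 := by ring
  rw [e1, e2] at h
  rw [e3] at a1
  linarith

theorem star2_num2 {A ρ ω E SF : ℝ} (hA : 0 < A) (hA1 : A ≤ 1 / 100) (hρ : 100 * A ≤ ρ)
    (hρ1 : ρ ≤ 1) (hω0 : 0 ≤ ω) (hω1 : ω ≤ 1) (hE : (ρ - 2 * A ^ 2) * (1 - A ^ 2) ≤ E)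
    (hS : SF ≤ ω) (h : (2 * ω + A) * E ≤ 2 * ((ρ + A ^ 4) * SF)) : False := by
  have a1 : A * (100 * A) ≤ A * ρ := mul_le_mul_of_nonneg_left hρ hA.le
  have a2 : A ^ 2 * ρ ≤ A ^ 2 * 1 := mul_le_mul_of_nonneg_left hρ1 (by positivity)
  have a3 : A ^ 2 * ω ≤ A ^ 2 * 1 := mul_le_mul_of_nonneg_left hω1 (by positivity)
  have a4 : 0 < A ^ 2 := by positivity
  have a5 : 0 < A ^ 4 := by positivity
  have a6 : A ^ 4 * ω ≤ A ^ 4 * 1 := mul_le_mul_of_nonneg_left hω1 (by positivity)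
  have a7 : A ^ 2 * A ≤ A ^ 2 * 1 := mul_le_mul_of_nonneg_left (by linarith) (by positivity)
  have a8 : A ^ 3 * A ≤ A ^ 3 * 1 := mul_le_mul_of_nonneg_left (by linarith) (by positivity)
  have e0 : (ρ - 2 * A ^ 2) * (1 - A ^ 2) = ρ - 2 * A ^ 2 - A ^ 2 * ρ + 2 * A ^ 4 := by ring
  rw [e0] at hE
  have b1 : ρ - 3 * A ^ 2 ≤ E := by linarith
  have b2 : (2 * ω + A) * (ρ - 3 * A ^ 2) ≤ (2 * ω + A) * E :=
    mul_le_mul_of_nonneg_left b1 (by linarith)
  have b3 : (ρ + A ^ 4) * SF ≤ (ρ + A ^ 4) * ω :=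
    mul_le_mul_of_nonneg_left hS (by linarith)
  have e1 : (2 * ω + A) * (ρ - 3 * A ^ 2) =
      2 * (ρ * ω) - 6 * (A ^ 2 * ω) + A * ρ - 3 * (A ^ 2 * A) := by ring
  have e2 : (ρ + A ^ 4) * ω = ρ * ω + A ^ 4 * ω := by ring
  have e3 : A * (100 * A) = 100 * A ^ 2 := by ring
  have e4 : A ^ 3 * A = A ^ 4 := by ring
  have e5 : A ^ 3 * 1 = A ^ 2 * A := by ring
  rw [e1] at b2
  rw [e2] at b3
  rw [e3] at a1
  rw [e4, e5] at a8
  linarith

/-- Data for the two class case. -/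
theorem star2_core (P : Pat q) {w : Fin q → ℝ} (hw : IsProb w) {A : ℝ} (hA : 0 < A)
    (hA1 : A ≤ 1 / 100) (F G : Finset (Fin q)) (hFG : ∀ f : Fin q → ℝ,
      ∑ s, f s = ∑ s ∈ F, f s + ∑ s ∈ G, f s)
    (hρ : 100 * A ≤ P.form Col.R w w)
    (h1 : ∀ s, P.deg Col.R w s ≤ P.form Col.R w w + A ^ 4)
    (hF : ∑ s ∈ G, w s ≤ A ^ 2)
    (hdeg : ∀ s ∈ F, P.form Col.R w w - A ^ 2 ≤ P.deg Col.R w s) :
    (∀ s ∈ F, P.form Col.R w w - 2 * A ^ 2 ≤
      ∑ t ∈ F, (if P.col s t = Col.R then w t else 0)) ∧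
    (∀ s ∈ F, ∃ t ∈ F, P.col s t = Col.R) ∧
    (∃ s ∈ F, ∃ t ∈ F, P.col s t = Col.R ∧
      2 * P.form Col.O w w - A < P.deg Col.O w s + P.deg Col.O w t) ∧
    (∃ s ∈ F, ∃ t ∈ F, P.col s t = Col.R ∧
      P.deg Col.O w s + P.deg Col.O w t < 2 * P.form Col.O w w + A) := by
  set ρ := P.form Col.R w w with hρd
  set ω := P.form Col.O w w with hωd
  have hρ1 : ρ ≤ 1 := P.form_le_one _ hw hw
  have hω1 : ω ≤ 1 := P.form_le_one _ hw hw
  have hω0 : 0 ≤ ω := P.form_nonneg _ hw.nonneg hw.nonneg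
  have hA2 : A ^ 2 ≤ A * (1 / 100) := by
    have h3 := mul_le_mul_of_nonneg_left hA1 hA.le
    rwa [← sq] at h3
  have hA20 : 0 < A ^ 2 := by positivity
  have hA40 : 0 < A ^ 4 := by positivity
  -- the restricted degree
  set r : Fin q → ℝ := fun s => ∑ t ∈ F, (if P.col s t = Col.R then w t else 0) with hr
  have ite0 : ∀ s t, 0 ≤ (if P.col s t = Col.R then w t else 0) := by
    intro s t
    split_ifs
    · exact hw.nonneg t
    · exact le_rfl
  have hdr : ∀ s, P.deg Col.R w s = r s + ∑ t ∈ G, (if P.col s t = Col.R then w t else 0) :=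
    fun s => hFG _
  have hr0 : ∀ s, 0 ≤ r s := fun s => Finset.sum_nonneg fun t _ => ite0 s t
  have hr1 : ∀ s, r s ≤ P.deg Col.R w s := by
    intro s
    rw [hdr s]
    have h3 : 0 ≤ ∑ t ∈ G, (if P.col s t = Col.R then w t else 0) :=
      Finset.sum_nonneg fun t _ => ite0 s t
    linarith
  have hr2 : ∀ s ∈ F, ρ - 2 * A ^ 2 ≤ r s := by
    intro s hs
    have h3 : ∑ t ∈ G, (if P.col s t = Col.R then w t else 0) ≤ ∑ t ∈ G, w t := by
      refine Finset.sum_le_sum fun t _ => ?_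
      split_ifs
      · exact le_rfl
      · exact hw.nonneg t
    have h4 := hdeg s hs
    have h5 := hdr s
    linarith
  have hpos : 0 < ρ - 2 * A ^ 2 := by linarith
  have hnb : ∀ s ∈ F, ∃ t ∈ F, P.col s t = Col.R := by
    intro s hs
    by_contra hcon
    push Not at hcon
    have h3 : r s = 0 := by
      refine Finset.sum_eq_zero fun t ht => ?_
      rw [if_neg (hcon t ht)]
    have h4 := hr2 s hs
    linarith
  have hwF : 1 - A ^ 2 ≤ ∑ s ∈ F, w s := by
    have h3 := hFG w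
    rw [hw.sum] at h3
    linarith
  have hne : ∃ s, s ∈ F := by
    by_contra hcon
    push Not at hcon
    have h3 : ∑ s ∈ F, w s = 0 := Finset.sum_eq_zero fun s hs => absurd hs (hcon s)
    linarith
  have hwF0 : 0 ≤ ∑ s ∈ F, w s := Finset.sum_nonneg fun s _ => hw.nonneg s
  -- the sums
  set O : Fin q → ℝ := fun s => P.deg Col.O w s with hO
  have hO0 : ∀ s, 0 ≤ O s := fun s => P.deg_nonneg _ hw.nonneg s
  have hO1 : ∀ s, O s ≤ 1 := fun s => P.deg_le_one _ hw s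
  set SF := ∑ s ∈ F, w s * O s with hSF
  have hωs : ω = SF + ∑ s ∈ G, w s * O s := by
    rw [hωd, P.form_eq_sum_deg]
    exact hFG _
  have hSG0 : 0 ≤ ∑ s ∈ G, w s * O s :=
    Finset.sum_nonneg fun s _ => mul_nonneg (hw.nonneg s) (hO0 s)
  have hSG1 : ∑ s ∈ G, w s * O s ≤ ∑ s ∈ G, w s := by
    refine Finset.sum_le_sum fun s _ => ?_
    have h3 := mul_le_mul_of_nonneg_left (hO1 s) (hw.nonneg s)
    rwa [mul_one] at h3
  have hSF0 : 0 ≤ SF := Finset.sum_nonneg fun s _ => mul_nonneg (hw.nonneg s) (hO0 s)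
  have hSF1 : SF ≤ ω := by linarith
  have hSF2 : ω - A ^ 2 ≤ SF := by linarith
  set L := ∑ s ∈ F, w s * O s * r s with hL
  have hL1 : (ρ - 2 * A ^ 2) * SF ≤ L := by
    rw [hL, hSF, Finset.mul_sum]
    refine Finset.sum_le_sum fun s hs => ?_
    rw [mul_comm]
    exact mul_le_mul_of_nonneg_left (hr2 s hs) (mul_nonneg (hw.nonneg s) (hO0 s))
  have hL2 : L ≤ (ρ + A ^ 4) * SF := by
    rw [hL, hSF, Finset.mul_sum]
    refine Finset.sum_le_sum fun s hs => ?_
    rw [mul_comm (ρ + A ^ 4)]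
    exact mul_le_mul_of_nonneg_left ((hr1 s).trans (h1 s)) (mul_nonneg (hw.nonneg s) (hO0 s))
  set E := ∑ s ∈ F, w s * r s with hE
  have hE1 : (ρ - 2 * A ^ 2) * ∑ s ∈ F, w s ≤ E := by
    rw [hE, Finset.mul_sum]
    refine Finset.sum_le_sum fun s hs => ?_
    rw [mul_comm]
    exact mul_le_mul_of_nonneg_left (hr2 s hs) (hw.nonneg s)
  have hE2 : E ≤ ρ := by
    rw [hE, hρd, P.form_eq_sum_deg, hFG (fun s => w s * P.deg Col.R w s)]
    have h3 : ∑ s ∈ F, w s * r s ≤ ∑ s ∈ F, w s * P.deg Col.R w s :=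
      Finset.sum_le_sum fun s _ => mul_le_mul_of_nonneg_left (hr1 s) (hw.nonneg s)
    have h4 : 0 ≤ ∑ s ∈ G, w s * P.deg Col.R w s :=
      Finset.sum_nonneg fun s _ => mul_nonneg (hw.nonneg s) (P.deg_nonneg _ hw.nonneg s)
    linarith
  have hsum1 : ∑ s ∈ F, ∑ t ∈ F, (if P.col s t = Col.R then w s * w t * (O s + O t) else 0) =
      2 * L := star2_edge_sum P w O F
  have hsum2 : ∑ s ∈ F, ∑ t ∈ F, (if P.col s t = Col.R then w s * w t else 0) = E :=
    star2_mass_sum P w F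
  refine ⟨hr2, hnb, ?_, ?_⟩
  · by_contra hcon
    push Not at hcon
    have hB : 0 ≤ 2 * ω - A := by
      obtain ⟨s, hs⟩ := hne
      obtain ⟨t, ht, hst⟩ := hnb s hs
      have h3 := hcon s hs t ht hst
      have h4 := hO0 s
      have h5 := hO0 t
      simp only [hO] at h4 h5
      linarith
    have h3 : 2 * L ≤ (2 * ω - A) * E := by
      rw [← hsum1, ← hsum2, Finset.mul_sum]
      refine Finset.sum_le_sum fun s hs => ?_
      rw [Finset.mul_sum]
      refine Finset.sum_le_sum fun t ht => ?_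
      split_ifs with h
      · rw [mul_comm (2 * ω - A)]
        exact mul_le_mul_of_nonneg_left (hcon s hs t ht h) (mul_nonneg (hw.nonneg s) (hw.nonneg t))
      · rw [mul_zero]
    have h4 : (2 * ω - A) * E ≤ (2 * ω - A) * ρ := mul_le_mul_of_nonneg_left hE2 hB
    have h5 : (ρ - 2 * A ^ 2) * (ω - A ^ 2) ≤ (ρ - 2 * A ^ 2) * SF :=
      mul_le_mul_of_nonneg_left hSF2 hpos.le
    exact star2_num1 hA hρ hρ1 hω1 (by linarith)
  · by_contra hcon
    push Not at hcon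
    have h3 : (2 * ω + A) * E ≤ 2 * L := by
      rw [← hsum1, ← hsum2, Finset.mul_sum]
      refine Finset.sum_le_sum fun s hs => ?_
      rw [Finset.mul_sum]
      refine Finset.sum_le_sum fun t ht => ?_
      split_ifs with h
      · rw [mul_comm (2 * ω + A)]
        exact mul_le_mul_of_nonneg_left (hcon s hs t ht h) (mul_nonneg (hw.nonneg s) (hw.nonneg t))
      · rw [mul_zero]
    have h4 : (ρ - 2 * A ^ 2) * (1 - A ^ 2) ≤ (ρ - 2 * A ^ 2) * ∑ s ∈ F, w s :=
      mul_le_mul_of_nonneg_left hwF hpos.le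
    exact star2_num2 hA hA1 hρ hρ1 hω0 hω1 (h4.trans hE1) hSF1 (by linarith)

open scoped Classical in
/-- **Graph lemma.** `ρ = form R w w`, `ω = form O w w`, `R_s, O_s` the degrees, `F = {s | ρ - A² ≤ R_s}`, `w(Fᶜ) ≤ A²`.

Proof. Every `s ∈ F` has an `R`-neighbour in `F`: otherwise `R_s ≤ w(Fᶜ) ≤ A² < ρ - A²`.

Case 1a: an `R`-edge `st` in `F` with `|(O_s+O_t)/2 - ω| ≤ A/2`: `μ = (δ_s + δ_t)/2`, `form O w μ = (O_s+O_t)/2`,
`form R μ μ = 1/2`; `h2` gives `1/2 ≤ ρ + e`.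

Case 1b: `R`-edges `st`, `tu` in `F` with `O_s + O_t < 2ω < O_t + O_u`: there is `α ∈ [0,1]` with
`O_t/2 + (α O_s + (1-α) O_u)/2 = ω`; `μ = δ_t/2 + (α δ_s + (1-α) δ_u)/2`; `form R μ μ ≥ 2 (1/2)(α/2) + 2 (1/2)((1-α)/2) = 1/2`.

Case 2: neither. Every `R`-edge `st` in `F` has `O_s+O_t < 2ω - A` or `> 2ω + A`. `K1 = {s ∈ F | ∃ t ∈ F, col s t = R, O_s+O_t < 2ω}`,
`K2` the same with `>`. `K1 ∪ K2 = F`; disjoint (case 1b with centre `s`); no `R`-edge from `K1` to `K2` (its ends are in the same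
class). For `s ∈ F` put `R'_s = ∑_{t ∈ F, R} w_t ∈ [ρ - 2A², ρ + A⁴]`.

`K2` nonempty: otherwise `∑_{s,t∈F,R} w_s w_t (O_s+O_t) ≤ (2ω - A) ∑_{s,t∈F,R} w_s w_t ≤ (2ω - A) ρ` (`2ω - A ≥ 0` because edges exist and
`O ≥ 0`), while the left side is `2 ∑_{s∈F} w_s O_s R'_s ≥ 2 (ρ - 2A²)(ω - A²)`. So `A ρ ≤ 2ρA² + 4A²ω ≤ 6A²`, contradiction to
`ρ ≥ 100A`.
`K1` nonempty: otherwise `(2ω + A)(ρ - 3A²) ≤ ∑ = 2 ∑_{s∈F} w_s O_s R'_s ≤ 2(ρ + A⁴) ω`, so `A ρ ≤ 12A²`, contradiction.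

Masses: `s, t ∈ K1` an `R`-edge (a vertex of `K1` has a neighbour in `F`, which is in `K1`): `N(s)`, `N(t)` are disjoint (`tri_free`) and
contained in `K1 ∪ Fᶜ`, so `w(K1) + A² ≥ R_s + R_t ≥ 2ρ - 2A²`. Same for `K2`. So `1 ≥ w(K1) + w(K2) ≥ 4ρ - 6A²`, `ρ ≤ 1/4 + 2A²`.

Lower bound: edges `st` in `K1` with `a = (O_s+O_t)/2 < ω`, `uv` in `K2` with `b = (O_u+O_v)/2 > ω`; `λ a + (1-λ) b = ω`, `λ ∈ [0,1]`;
`μ = λ(δ_s+δ_t)/2 + (1-λ)(δ_u+δ_v)/2`: `form R μ μ ≥ (λ² + (1-λ)²)/2 ≥ 1/4`, so `1/4 ≤ ρ + e`. -/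
theorem graph_lemma (P : Pat q) {w : Fin q → ℝ} (hw : IsProb w) {A e : ℝ} (hA : 0 < A)
    (hA1 : A ≤ 1 / 100) (hρ : 100 * A ≤ P.form Col.R w w)
    (h1 : ∀ s, P.deg Col.R w s ≤ P.form Col.R w w + A ^ 4)
    (hF : ∑ s ∈ univ.filter (fun s => P.deg Col.R w s < P.form Col.R w w - A ^ 2), w s ≤ A ^ 2)
    (h2 : ∀ μ : Fin q → ℝ, IsProb μ →
      (∀ s, μ s ≠ 0 → P.form Col.R w w - A ^ 2 ≤ P.deg Col.R w s) →
      |P.form Col.O w μ - P.form Col.O w w| ≤ A / 2 →
      P.form Col.R μ μ ≤ P.form Col.R w w + e) :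
    1 / 2 - e ≤ P.form Col.R w w ∨
      (1 / 4 - e ≤ P.form Col.R w w ∧ P.form Col.R w w ≤ 1 / 4 + 2 * A ^ 2 ∧
        ∃ K1 K2 : Finset (Fin q), Disjoint K1 K2 ∧
          K1 ∪ K2 = univ.filter (fun s => P.form Col.R w w - A ^ 2 ≤ P.deg Col.R w s) ∧
          K1.Nonempty ∧ K2.Nonempty ∧ (∀ s ∈ K1, ∀ t ∈ K2, P.col s t ≠ Col.R) ∧
          2 * P.form Col.R w w - 3 * A ^ 2 ≤ ∑ s ∈ K1, w s ∧
          2 * P.form Col.R w w - 3 * A ^ 2 ≤ ∑ s ∈ K2, w s) := by
  have hFG : ∀ f : Fin q → ℝ, ∑ s, f s =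
      ∑ s ∈ univ.filter (fun s => P.form Col.R w w - A ^ 2 ≤ P.deg Col.R w s), f s +
      ∑ s ∈ univ.filter (fun s => P.deg Col.R w s < P.form Col.R w w - A ^ 2), f s := by
    intro f
    rw [← Finset.sum_filter_add_sum_filter_not univ
      (fun s => P.form Col.R w w - A ^ 2 ≤ P.deg Col.R w s) f]
    congr 1
    refine Finset.sum_congr ?_ fun _ _ => rfl
    ext s
    simp only [mem_filter, mem_univ, true_and, not_le]
  have hmemF : ∀ s, s ∈ univ.filter (fun s => P.form Col.R w w - A ^ 2 ≤ P.deg Col.R w s) ↔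
      P.form Col.R w w - A ^ 2 ≤ P.deg Col.R w s := by
    intro s
    simp only [mem_filter, mem_univ, true_and]
  obtain ⟨-, hnb, hup, hdn⟩ := star2_core P hw hA hA1 _ _ hFG hρ h1 hF
    (fun s hs => (hmemF s).1 hs)
  have hFor : ∀ s, s ∈ univ.filter (fun s => P.form Col.R w w - A ^ 2 ≤ P.deg Col.R w s) ∨
      s ∈ univ.filter (fun s => P.deg Col.R w s < P.form Col.R w w - A ^ 2) := by
    intro s
    simp only [mem_filter, mem_univ, true_and]
    exact le_or_gt _ _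
  set F := univ.filter (fun s => P.form Col.R w w - A ^ 2 ≤ P.deg Col.R w s) with hFd
  set G := univ.filter (fun s => P.deg Col.R w s < P.form Col.R w w - A ^ 2) with hGd
  set ρ := P.form Col.R w w with hρd
  set ω := P.form Col.O w w with hωd
  have hA' : 0 ≤ A / 2 := by linarith
  -- case 1a
  by_cases c1 : ∃ s ∈ F, ∃ t ∈ F, P.col s t = Col.R ∧
      |(P.deg Col.O w s + P.deg Col.O w t) / 2 - ω| ≤ A / 2
  · left
    obtain ⟨s, hs, t, ht, hst, hle⟩ := c1
    have h3 := h2 (star2_mix (1 / 2) (star2_d s) (star2_d t))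
      (star2_mix_prob (star2_d_prob s) (star2_d_prob t) (by norm_num) (by norm_num))
      (star2_mix_supp (p := fun s => ρ - A ^ 2 ≤ P.deg Col.R w s)
        (star2_d_supp (p := fun s => ρ - A ^ 2 ≤ P.deg Col.R w s) ((hmemF s).1 hs))
        (star2_d_supp (p := fun s => ρ - A ^ 2 ≤ P.deg Col.R w s) ((hmemF t).1 ht)))
      (by
        rw [star2_form_mix_right, star2_form_d, star2_form_d]
        have h4 : (1 - 1 / 2) * P.deg Col.O w s + 1 / 2 * P.deg Col.O w t =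
            (P.deg Col.O w s + P.deg Col.O w t) / 2 := by ring
        rw [h4]
        exact hle)
    rw [star2_edge P hst] at h3
    linarith
  -- case 1b
  by_cases c2 : ∃ s ∈ F, ∃ t ∈ F, ∃ u ∈ F, P.col t s = Col.R ∧ P.col t u = Col.R ∧
      P.deg Col.O w t + P.deg Col.O w s < 2 * ω ∧ 2 * ω < P.deg Col.O w t + P.deg Col.O w u
  · left
    obtain ⟨s, hs, t, ht, u, hu, hts, htu, hlt, hgt⟩ := c2
    obtain ⟨a, ha0, ha1, ha⟩ := star2_interp (x := P.deg Col.O w s)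
      (y := P.deg Col.O w u) (z := 2 * ω - P.deg Col.O w t) (by linarith) (by linarith)
    have hν := star2_mix_prob (star2_d_prob s) (star2_d_prob u) ha0 ha1
    have h3 := h2 (star2_mix (1 / 2) (star2_d t) (star2_mix a (star2_d s) (star2_d u)))
      (star2_mix_prob (star2_d_prob t) hν (by norm_num) (by norm_num))
      (star2_mix_supp (p := fun s => ρ - A ^ 2 ≤ P.deg Col.R w s)
        (star2_d_supp (p := fun s => ρ - A ^ 2 ≤ P.deg Col.R w s) ((hmemF t).1 ht))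
        (star2_mix_supp (p := fun s => ρ - A ^ 2 ≤ P.deg Col.R w s)
          (star2_d_supp (p := fun s => ρ - A ^ 2 ≤ P.deg Col.R w s) ((hmemF s).1 hs))
          (star2_d_supp (p := fun s => ρ - A ^ 2 ≤ P.deg Col.R w s) ((hmemF u).1 hu))))
      (by
        rw [star2_form_mix_right, star2_form_mix_right, star2_form_d, star2_form_d,
          star2_form_d, ha]
        have h4 : (1 - 1 / 2) * P.deg Col.O w t + 1 / 2 * (2 * ω - P.deg Col.O w t) - ω = 0 := by
          ring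
        rw [h4, abs_zero]
        exact hA')
    rw [star2_form_mix, star2_form_mix_right, star2_form_dd, star2_form_dd, star2_form_dd,
      P.diag, if_pos hts, if_pos htu, if_neg (by decide)] at h3
    have h4 := P.form_nonneg Col.R hν.nonneg hν.nonneg
    have h5 : (1 - (1 : ℝ) / 2) ^ 2 * 0 + 2 * (1 / 2) * (1 - 1 / 2) * ((1 - a) * 1 + a * 1) =
        1 / 2 := by ring
    rw [h5] at h3
    linarith
  -- case 2
  right
  push Not at c1 c2
  have hcl : ∀ s ∈ F, ∀ t ∈ F, P.col s t = Col.R →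
      P.deg Col.O w s + P.deg Col.O w t < 2 * ω - A ∨
      2 * ω + A < P.deg Col.O w s + P.deg Col.O w t := by
    intro s hs t ht hst
    have h3 := c1 s hs t ht hst
    rcases lt_abs.1 h3 with h | h
    · right
      linarith
    · left
      linarith
  set K1 := F.filter (fun s => ∃ t ∈ F, P.col s t = Col.R ∧
    P.deg Col.O w s + P.deg Col.O w t < 2 * ω) with hK1
  set K2 := F.filter (fun s => ∃ t ∈ F, P.col s t = Col.R ∧
    2 * ω < P.deg Col.O w s + P.deg Col.O w t) with hK2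
  have hdisj : Disjoint K1 K2 := by
    rw [Finset.disjoint_left]
    intro s hs1 hs2
    rw [hK1, mem_filter] at hs1
    rw [hK2, mem_filter] at hs2
    obtain ⟨hs, t, ht, hst, h3⟩ := hs1
    obtain ⟨_, u, hu, hsu, h4⟩ := hs2
    exact absurd h4 (not_lt.2 (c2 t ht s hs u hu hst hsu h3))
  -- classes of the ends of an edge
  have hend1 : ∀ s ∈ F, ∀ t ∈ F, P.col s t = Col.R →
      P.deg Col.O w s + P.deg Col.O w t < 2 * ω → s ∈ K1 ∧ t ∈ K1 := by
    intro s hs t ht hst h3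
    refine ⟨mem_filter.2 ⟨hs, t, ht, hst, h3⟩, mem_filter.2 ⟨ht, s, hs, ?_, ?_⟩⟩
    · rw [P.symm, hst]
    · linarith
  have hend2 : ∀ s ∈ F, ∀ t ∈ F, P.col s t = Col.R →
      2 * ω < P.deg Col.O w s + P.deg Col.O w t → s ∈ K2 ∧ t ∈ K2 := by
    intro s hs t ht hst h3
    refine ⟨mem_filter.2 ⟨hs, t, ht, hst, h3⟩, mem_filter.2 ⟨ht, s, hs, ?_, ?_⟩⟩
    · rw [P.symm, hst]
    · linarith
  have hboth : ∀ s ∈ F, ∀ t ∈ F, P.col s t = Col.R → (s ∈ K1 ∧ t ∈ K1) ∨ (s ∈ K2 ∧ t ∈ K2) := by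
    intro s hs t ht hst
    rcases hcl s hs t ht hst with h | h
    · left
      exact hend1 s hs t ht hst (by linarith)
    · right
      exact hend2 s hs t ht hst (by linarith)
  have hsub1 : K1 ⊆ F := Finset.filter_subset _ _
  have hsub2 : K2 ⊆ F := Finset.filter_subset _ _
  have hunion : K1 ∪ K2 = F := by
    refine Finset.Subset.antisymm (Finset.union_subset hsub1 hsub2) ?_
    intro s hs
    obtain ⟨t, ht, hst⟩ := hnb s hs
    rcases hboth s hs t ht hst with h | h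
    · exact mem_union_left _ h.1
    · exact mem_union_right _ h.1
  -- edges in the classes
  obtain ⟨s2, hs2, t2, ht2, hst2, hO2⟩ := hup
  obtain ⟨s1, hs1, t1, ht1, hst1, hO1⟩ := hdn
  have hO1' : P.deg Col.O w s1 + P.deg Col.O w t1 < 2 * ω - A := by
    rcases hcl s1 hs1 t1 ht1 hst1 with h | h
    · exact h
    · exact absurd h (not_lt.2 hO1.le)
  have hO2' : 2 * ω + A < P.deg Col.O w s2 + P.deg Col.O w t2 := by
    rcases hcl s2 hs2 t2 ht2 hst2 with h | h
    · exact absurd h (not_lt.2 hO2.le)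
    · exact h
  have hm1 := hend1 s1 hs1 t1 ht1 hst1 (by linarith)
  have hm2 := hend2 s2 hs2 t2 ht2 hst2 (by linarith)
  have hno : ∀ s ∈ K1, ∀ t ∈ K2, P.col s t ≠ Col.R := by
    intro s hs t ht hst
    rcases hboth s (hsub1 hs) t (hsub2 ht) hst with h | h
    · exact Finset.disjoint_left.1 hdisj h.2 ht
    · exact Finset.disjoint_left.1 hdisj hs h.1
  have hN1 : ∀ s ∈ K1, ∀ u, P.col s u = Col.R → u ∈ K1 ∨ u ∈ G := by
    intro s hs u hsu
    rcases hFor u with hu | hu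
    · left
      rcases hboth s (hsub1 hs) u hu hsu with h | h
      · exact h.2
      · exact absurd h.1 (Finset.disjoint_left.1 hdisj hs)
    · right
      exact hu
  have hN2 : ∀ s ∈ K2, ∀ u, P.col s u = Col.R → u ∈ K2 ∨ u ∈ G := by
    intro s hs u hsu
    rcases hFor u with hu | hu
    · left
      rcases hboth s (hsub2 hs) u hu hsu with h | h
      · exact absurd hs (Finset.disjoint_left.1 hdisj h.1)
      · exact h.2
    · right
      exact hu
  have hM1 : 2 * ρ - 3 * A ^ 2 ≤ ∑ s ∈ K1, w s := by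
    have h3 := star2_mass P hw hst1 (hN1 s1 hm1.1) (hN1 t1 hm1.2)
    have h4 := (hmemF s1).1 hs1
    have h5 := (hmemF t1).1 ht1
    linarith
  have hM2 : 2 * ρ - 3 * A ^ 2 ≤ ∑ s ∈ K2, w s := by
    have h3 := star2_mass P hw hst2 (hN2 s2 hm2.1) (hN2 t2 hm2.2)
    have h4 := (hmemF s2).1 hs2
    have h5 := (hmemF t2).1 ht2
    linarith
  have hM : ∑ s ∈ K1, w s + ∑ s ∈ K2, w s ≤ 1 := by
    rw [← Finset.sum_union hdisj, ← hw.sum]
    exact Finset.sum_le_sum_of_subset_of_nonneg (Finset.subset_univ _) fun s _ _ => hw.nonneg s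
  refine ⟨?_, ?_, K1, K2, hdisj, hunion, ⟨s1, hm1.1⟩, ⟨s2, hm2.1⟩, hno, hM1, hM2⟩
  · -- the lower bound
    obtain ⟨a, ha0, ha1, ha⟩ := star2_interp
      (x := (P.deg Col.O w s1 + P.deg Col.O w t1) / 2)
      (y := (P.deg Col.O w s2 + P.deg Col.O w t2) / 2) (z := ω) (by linarith) (by linarith)
    have hμ1 := star2_mix_prob (star2_d_prob s1) (star2_d_prob t1)
      (show (0 : ℝ) ≤ 1 / 2 by norm_num) (by norm_num)
    have hμ2 := star2_mix_prob (star2_d_prob s2) (star2_d_prob t2)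
      (show (0 : ℝ) ≤ 1 / 2 by norm_num) (by norm_num)
    have h3 := h2 (star2_mix a (star2_mix (1 / 2) (star2_d s1) (star2_d t1))
        (star2_mix (1 / 2) (star2_d s2) (star2_d t2)))
      (star2_mix_prob hμ1 hμ2 ha0 ha1)
      (star2_mix_supp (p := fun s => ρ - A ^ 2 ≤ P.deg Col.R w s)
        (star2_mix_supp (p := fun s => ρ - A ^ 2 ≤ P.deg Col.R w s)
          (star2_d_supp (p := fun s => ρ - A ^ 2 ≤ P.deg Col.R w s) ((hmemF s1).1 hs1))
          (star2_d_supp (p := fun s => ρ - A ^ 2 ≤ P.deg Col.R w s) ((hmemF t1).1 ht1)))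
        (star2_mix_supp (p := fun s => ρ - A ^ 2 ≤ P.deg Col.R w s)
          (star2_d_supp (p := fun s => ρ - A ^ 2 ≤ P.deg Col.R w s) ((hmemF s2).1 hs2))
          (star2_d_supp (p := fun s => ρ - A ^ 2 ≤ P.deg Col.R w s) ((hmemF t2).1 ht2))))
      (by
        rw [star2_form_mix_right, star2_form_mix_right, star2_form_mix_right, star2_form_d,
          star2_form_d, star2_form_d, star2_form_d]
        have h4 : (1 - a) * ((1 - 1 / 2) * P.deg Col.O w s1 + 1 / 2 * P.deg Col.O w t1) +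
            a * ((1 - 1 / 2) * P.deg Col.O w s2 + 1 / 2 * P.deg Col.O w t2) - ω = 0 := by
          rw [← ha]
          ring
        rw [h4, abs_zero]
        exact hA')
    rw [star2_form_mix, star2_edge P hst1, star2_edge P hst2] at h3
    have h4 := P.form_nonneg Col.R hμ1.nonneg hμ2.nonneg
    have h5 : 0 ≤ 2 * a * (1 - a) * P.form Col.R
        (star2_mix (1 / 2) (star2_d s1) (star2_d t1))
        (star2_mix (1 / 2) (star2_d s2) (star2_d t2)) :=
      mul_nonneg (mul_nonneg (by linarith) (by linarith)) h4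
    have h6 : (1 - a) ^ 2 * (1 / 2) + a ^ 2 * (1 / 2) = 1 / 4 + (2 * a - 1) ^ 2 / 4 := by ring
    have h7 := sq_nonneg (2 * a - 1)
    linarith
  · have h3 : 0 ≤ A ^ 2 := sq_nonneg A
    linarith

end Pool.Agent.H.MP_82502e_co
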