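import Pool.Agent.H.MP_82502e_co.Pat

set_option autoImplicit false

/-!
# The Kleitman-Rothschild lemma
-/

namespace Pool.Agent.H.MP_82502e_co

open Finset Real

variable {q : ℕ}

/-- Order rule: `x`, `x'` with `pos x < pos x'` and colour `O`, `y` an `R`-neighbour of both: then
`pos x < pos y < pos x'`. (If `pos y < pos x`: `trans y x x'` gives `col y x' = O`. If `pos x' < pos y`: `trans x x' y`
gives `col x y = O`.) -/
theorem between (P : Pat q) {x x' y : Fin q} (h : P.pos x < P.pos x') (hO : P.col x x' = Col.O)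
    (h1 : P.col x y = Col.R) (h2 : P.col x' y = Col.R) : P.pos x < P.pos y ∧ P.pos y < P.pos x' := by
  have hxy : x ≠ y := by
    intro hh
    subst hh
    rw [P.diag] at h1
    exact absurd h1 (by decide)
  have hx'y : x' ≠ y := by
    intro hh
    subst hh
    rw [P.diag] at h2
    exact absurd h2 (by decide)
  have hp1 : P.pos x ≠ P.pos y := fun hh => hxy (P.inj hh)
  have hp2 : P.pos x' ≠ P.pos y := fun hh => hx'y (P.inj hh)
  constructor
  · by_contra hc
    have hlt : P.pos y < P.pos x := by omega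
    have h3 := P.trans y x x' hlt h (by rw [P.symm, h1]; decide) (by rw [hO]; decide)
    rw [P.symm, h2] at h3
    exact absurd h3 (by decide)
  · by_contra hc
    have hlt : P.pos x' < P.pos y := by omega
    have h3 := P.trans x x' y h hlt (by rw [hO]; decide) (by rw [h2]; decide)
    rw [h1] at h3
    exact absurd h3 (by decide)

theorem star3_union_le {w : Fin q → ℝ} (hw : ∀ s, 0 ≤ w s) {A B C : Finset (Fin q)}
    (h : A ⊆ B ∪ C) : ∑ s ∈ A, w s ≤ ∑ s ∈ B, w s + ∑ s ∈ C, w s := by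
  have h1 : ∑ s ∈ A, w s ≤ ∑ s ∈ B ∪ C, w s :=
    sum_le_sum_of_subset_of_nonneg h (fun s _ _ => hw s)
  have h2 := sum_union_inter (s₁ := B) (s₂ := C) (f := w)
  have h3 : 0 ≤ ∑ s ∈ B ∩ C, w s := sum_nonneg (fun s _ => hw s)
  linarith only [h1, h2, h3]

theorem star3_mono {w : Fin q → ℝ} (hw : ∀ s, 0 ≤ w s) {A B : Finset (Fin q)}
    (h : A ⊆ B) : ∑ s ∈ A, w s ≤ ∑ s ∈ B, w s :=
  sum_le_sum_of_subset_of_nonneg h (fun s _ _ => hw s)

open Classical in
/-- The lower ends of `O`-pairs inside `X`. -/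
noncomputable def star3_L (P : Pat q) (X : Finset (Fin q)) : Finset (Fin q) :=
  X.filter (fun x => ∃ x' ∈ X, P.pos x < P.pos x' ∧ P.col x x' = Col.O)

open Classical in
/-- The upper ends of `O`-pairs inside `X`. -/
noncomputable def star3_H (P : Pat q) (X : Finset (Fin q)) : Finset (Fin q) :=
  X.filter (fun x => ∃ x' ∈ X, P.pos x' < P.pos x ∧ P.col x' x = Col.O)

theorem star3_L_sub (P : Pat q) (X : Finset (Fin q)) : star3_L P X ⊆ X := filter_subset _ _

theorem star3_H_sub (P : Pat q) (X : Finset (Fin q)) : star3_H P X ⊆ X := filter_subset _ _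

theorem star3_A (P : Pat q) {w : Fin q → ℝ} (hw : ∀ s, 0 ≤ w s) {X Y : Finset (Fin q)} {e : ℝ}
    (hR : ∀ x ∈ X, ∑ y ∈ Y.filter (fun y => P.col x y ≠ Col.R), w y ≤ 2 * e) {x : Fin q}
    (hx : x ∈ star3_L P X) : ∑ y ∈ Y.filter (fun y => P.pos y < P.pos x), w y ≤ 4 * e := by
  unfold star3_L at hx
  obtain ⟨hxX, x', hx', hlt, hO⟩ := mem_filter.1 hx
  have h1 : Y.filter (fun y => P.pos y < P.pos x) ⊆
      Y.filter (fun y => P.col x y ≠ Col.R) ∪ Y.filter (fun y => P.col x' y ≠ Col.R) := by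
    intro y hy
    obtain ⟨hyY, hyx⟩ := mem_filter.1 hy
    by_contra hc
    rw [mem_union, mem_filter, mem_filter] at hc
    have h2 : P.col x y = Col.R := by
      by_contra h2; exact hc (Or.inl ⟨hyY, h2⟩)
    have h3 : P.col x' y = Col.R := by
      by_contra h3; exact hc (Or.inr ⟨hyY, h3⟩)
    have h4 := (between P hlt hO h2 h3).1
    omega
  have h2 := star3_union_le hw h1
  have h3 := hR x hxX
  have h4 := hR x' hx'
  linarith only [h2, h3, h4]

theorem star3_B (P : Pat q) {w : Fin q → ℝ} (hw : ∀ s, 0 ≤ w s) {X Y : Finset (Fin q)} {e : ℝ}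
    (hR : ∀ x ∈ X, ∑ y ∈ Y.filter (fun y => P.col x y ≠ Col.R), w y ≤ 2 * e) {x : Fin q}
    (hx : x ∈ star3_H P X) : ∑ y ∈ Y.filter (fun y => P.pos x < P.pos y), w y ≤ 4 * e := by
  unfold star3_H at hx
  obtain ⟨hxX, x', hx', hlt, hO⟩ := mem_filter.1 hx
  have h1 : Y.filter (fun y => P.pos x < P.pos y) ⊆
      Y.filter (fun y => P.col x y ≠ Col.R) ∪ Y.filter (fun y => P.col x' y ≠ Col.R) := by
    intro y hy
    obtain ⟨hyY, hyx⟩ := mem_filter.1 hy
    by_contra hc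
    rw [mem_union, mem_filter, mem_filter] at hc
    have h2 : P.col x y = Col.R := by
      by_contra h2; exact hc (Or.inl ⟨hyY, h2⟩)
    have h3 : P.col x' y = Col.R := by
      by_contra h3; exact hc (Or.inr ⟨hyY, h3⟩)
    have h4 := (between P hlt hO h3 h2).2
    omega
  have h2 := star3_union_le hw h1
  have h3 := hR x hxX
  have h4 := hR x' hx'
  linarith only [h2, h3, h4]

theorem star3_C (P : Pat q) {w : Fin q → ℝ} (hw : ∀ s, 0 ≤ w s) {X Y : Finset (Fin q)} {e : ℝ}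
    (hR : ∀ x ∈ X, ∑ y ∈ Y.filter (fun y => P.col x y ≠ Col.R), w y ≤ 2 * e)
    (hXY : Disjoint X Y) (hY : 8 * e < ∑ y ∈ Y, w y) : Disjoint (star3_L P X) (star3_H P X) := by
  rw [Finset.disjoint_left]
  intro x hL hH
  have h1 := star3_A P hw hR hL
  have h2 := star3_B P hw hR hH
  have h3 : Y ⊆ Y.filter (fun y => P.pos y < P.pos x) ∪ Y.filter (fun y => P.pos x < P.pos y) := by
    intro y hy
    rw [mem_union, mem_filter, mem_filter]
    have hne : P.pos x ≠ P.pos y := by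
      intro hh
      have := P.inj hh
      subst this
      exact (Finset.disjoint_left.1 hXY) (star3_L_sub P X hL) hy
    rcases Nat.lt_or_ge (P.pos y) (P.pos x) with h | h
    · exact Or.inl ⟨hy, h⟩
    · exact Or.inr ⟨hy, by omega⟩
  have h4 := star3_union_le hw h3
  linarith only [h1, h2, h4, hY]

theorem star3_D (P : Pat q) {w : Fin q → ℝ} (hw : ∀ s, 0 ≤ w s) (X : Finset (Fin q)) :
    ∑ x ∈ X, ∑ x' ∈ X, (if P.col x x' = Col.O then w x * w x' else 0) ≤
      2 * ((∑ x ∈ star3_L P X, w x) * ∑ x ∈ star3_H P X, w x) := by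
  classical
  set a : Fin q → ℝ := fun x => if x ∈ star3_L P X then w x else 0 with ha
  set b : Fin q → ℝ := fun x => if x ∈ star3_H P X then w x else 0 with hb
  have ha0 : ∀ x, 0 ≤ a x := by
    intro x; simp only [ha]; split_ifs
    · exact hw x
    · exact le_rfl
  have hb0 : ∀ x, 0 ≤ b x := by
    intro x; simp only [hb]; split_ifs
    · exact hw x
    · exact le_rfl
  have hsa : ∑ x ∈ X, a x = ∑ x ∈ star3_L P X, w x := by
    simp only [ha]
    rw [← sum_filter]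
    apply sum_congr _ (fun _ _ => rfl)
    ext x
    rw [mem_filter]
    exact ⟨fun h => h.2, fun h => ⟨star3_L_sub P X h, h⟩⟩
  have hsb : ∑ x ∈ X, b x = ∑ x ∈ star3_H P X, w x := by
    simp only [hb]
    rw [← sum_filter]
    apply sum_congr _ (fun _ _ => rfl)
    ext x
    rw [mem_filter]
    exact ⟨fun h => h.2, fun h => ⟨star3_H_sub P X h, h⟩⟩
  have hpt : ∀ x ∈ X, ∀ x' ∈ X, (if P.col x x' = Col.O then w x * w x' else 0) ≤
      a x * b x' + b x * a x' := by
    intro x hx x' hx'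
    split_ifs with hO
    · have hne : x ≠ x' := by
        intro hh
        subst hh
        rw [P.diag] at hO
        exact absurd hO (by decide)
      have hp : P.pos x ≠ P.pos x' := fun hh => hne (P.inj hh)
      rcases Nat.lt_or_ge (P.pos x) (P.pos x') with h | h
      · have h1 : x ∈ star3_L P X := mem_filter.2 ⟨hx, x', hx', h, hO⟩
        have h2 : x' ∈ star3_H P X := mem_filter.2 ⟨hx', x, hx, h, hO⟩
        have h3 : a x = w x := if_pos h1
        have h4 : b x' = w x' := if_pos h2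
        have h5 := mul_nonneg (hb0 x) (ha0 x')
        rw [h3, h4]
        linarith only [h5]
      · have h' : P.pos x' < P.pos x := by omega
        have hO' : P.col x' x = Col.O := by rw [P.symm, hO]
        have h1 : x' ∈ star3_L P X := mem_filter.2 ⟨hx', x, hx, h', hO'⟩
        have h2 : x ∈ star3_H P X := mem_filter.2 ⟨hx, x', hx', h', hO'⟩
        have h3 : a x' = w x' := if_pos h1
        have h4 : b x = w x := if_pos h2
        have h5 := mul_nonneg (ha0 x) (hb0 x')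
        rw [h3, h4]
        linarith only [h5]
    · exact add_nonneg (mul_nonneg (ha0 x) (hb0 x')) (mul_nonneg (hb0 x) (ha0 x'))
  calc ∑ x ∈ X, ∑ x' ∈ X, (if P.col x x' = Col.O then w x * w x' else 0) ≤
      ∑ x ∈ X, ∑ x' ∈ X, (a x * b x' + b x * a x') :=
        sum_le_sum fun x hx => sum_le_sum fun x' hx' => hpt x hx x' hx'
    _ = (∑ x ∈ X, a x) * (∑ x ∈ X, b x) + (∑ x ∈ X, b x) * (∑ x ∈ X, a x) := by
        rw [sum_mul_sum, sum_mul_sum, ← sum_add_distrib]
        apply sum_congr rfl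
        intro x _
        rw [sum_add_distrib]
    _ = 2 * ((∑ x ∈ star3_L P X, w x) * ∑ x ∈ star3_H P X, w x) := by
        rw [hsa, hsb]; ring

theorem star3_E (P : Pat q) {w : Fin q → ℝ} (hw : ∀ s, 0 ≤ w s) {X Y : Finset (Fin q)} {e : ℝ}
    (hR : ∀ x ∈ X, ∑ y ∈ Y.filter (fun y => P.col x y ≠ Col.R), w y ≤ 2 * e)
    (hR' : ∀ y ∈ Y, ∑ x ∈ X.filter (fun x => P.col y x ≠ Col.R), w x ≤ 2 * e)
    (hXY : Disjoint X Y) :
    (∑ x ∈ star3_L P X, w x) * (∑ y ∈ star3_L P Y, w y) ≤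
      4 * e * (∑ x ∈ star3_L P X, w x + ∑ y ∈ star3_L P Y, w y) := by
  classical
  have h1 : ∀ x ∈ star3_L P X, ∀ y ∈ star3_L P Y, w x * w y =
      (if P.pos y < P.pos x then w x * w y else 0) +
        (if P.pos x < P.pos y then w y * w x else 0) := by
    intro x hx y hy
    have hne : P.pos x ≠ P.pos y := by
      intro hh
      have := P.inj hh
      subst this
      exact (Finset.disjoint_left.1 hXY) (star3_L_sub P X hx) (star3_L_sub P Y hy)
    rcases Nat.lt_or_ge (P.pos y) (P.pos x) with h | h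
    · rw [if_pos h, if_neg (by omega), add_zero]
    · rw [if_neg (by omega), if_pos (by omega), zero_add, mul_comm]
  have h2 : ∑ x ∈ star3_L P X, ∑ y ∈ star3_L P Y,
      (if P.pos y < P.pos x then w x * w y else 0) ≤ ∑ x ∈ star3_L P X, w x * (4 * e) := by
    apply sum_le_sum
    intro x hx
    have h3 : ∑ y ∈ star3_L P Y, (if P.pos y < P.pos x then w x * w y else 0) =
        w x * ∑ y ∈ (star3_L P Y).filter (fun y => P.pos y < P.pos x), w y := by
      rw [← sum_filter, mul_sum]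
    rw [h3]
    apply mul_le_mul_of_nonneg_left _ (hw x)
    exact (star3_mono hw (filter_subset_filter _ (star3_L_sub P Y))).trans (star3_A P hw hR hx)
  have h4 : ∑ y ∈ star3_L P Y, ∑ x ∈ star3_L P X,
      (if P.pos x < P.pos y then w y * w x else 0) ≤ ∑ y ∈ star3_L P Y, w y * (4 * e) := by
    apply sum_le_sum
    intro y hy
    have h3 : ∑ x ∈ star3_L P X, (if P.pos x < P.pos y then w y * w x else 0) =
        w y * ∑ x ∈ (star3_L P X).filter (fun x => P.pos x < P.pos y), w x := by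
      rw [← sum_filter, mul_sum]
    rw [h3]
    apply mul_le_mul_of_nonneg_left _ (hw y)
    exact (star3_mono hw (filter_subset_filter _ (star3_L_sub P X))).trans (star3_A P hw hR' hy)
  have h5 : (∑ x ∈ star3_L P X, w x) * (∑ y ∈ star3_L P Y, w y) =
      ∑ x ∈ star3_L P X, ∑ y ∈ star3_L P Y, (if P.pos y < P.pos x then w x * w y else 0) +
      ∑ y ∈ star3_L P Y, ∑ x ∈ star3_L P X, (if P.pos x < P.pos y then w y * w x else 0) := by
    rw [sum_mul_sum]
    rw [sum_comm (s := star3_L P Y), ← sum_add_distrib]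
    apply sum_congr rfl
    intro x hx
    rw [← sum_add_distrib]
    exact sum_congr rfl fun y hy => h1 x hx y hy
  rw [← sum_mul] at h2 h4
  linarith only [h2, h4, h5]

/-- Inside a set without `R`-pairs the colours are `O` and `Z`. -/
theorem star3_OZ (P : Pat q) (w : Fin q → ℝ) (X : Finset (Fin q))
    (hX : ∀ x ∈ X, ∀ x' ∈ X, P.col x x' ≠ Col.R) :
    ∑ x ∈ X, ∑ x' ∈ X, (if P.col x x' = Col.Z then w x * w x' else 0) =
      (∑ x ∈ X, w x) ^ 2 -
        ∑ x ∈ X, ∑ x' ∈ X, (if P.col x x' = Col.O then w x * w x' else 0) := by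
  rw [sq, sum_mul_sum, ← sum_sub_distrib]
  apply sum_congr rfl
  intro x hx
  rw [← sum_sub_distrib]
  apply sum_congr rfl
  intro x' hx'
  have h1 := hX x hx x' hx'
  have h2 := P.noE x x'
  rcases h : P.col x x' with _ | _ | _ | _
  · exact absurd h h1
  · rw [if_neg (by decide), if_pos rfl, sub_self]
  · rw [if_pos rfl, if_neg (by decide), sub_zero]
  · exact absurd h h2

theorem star3_half (P : Pat q) {w : Fin q → ℝ} (hw : ∀ s, 0 ≤ w s) {X Y : Finset (Fin q)} {e : ℝ}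
    (hR : ∀ x ∈ X, ∑ y ∈ Y.filter (fun y => P.col x y ≠ Col.R), w y ≤ 2 * e)
    (hXY : Disjoint X Y) (hY : 8 * e < ∑ y ∈ Y, w y)
    (hX : ∀ x ∈ X, ∀ x' ∈ X, P.col x x' ≠ Col.R) :
    (∑ x ∈ X, w x) ^ 2 / 2 ≤
      ∑ x ∈ X, ∑ x' ∈ X, (if P.col x x' = Col.Z then w x * w x' else 0) := by
  rw [star3_OZ P w X hX]
  have h1 := star3_D P hw X
  have h2 := star3_C P hw hR hXY hY
  have h3 : ∑ x ∈ star3_L P X, w x + ∑ x ∈ star3_H P X, w x ≤ ∑ x ∈ X, w x := by
    rw [← sum_union h2]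
    exact star3_mono hw (union_subset (star3_L_sub P X) (star3_H_sub P X))
  have h4 : 0 ≤ ∑ x ∈ star3_L P X, w x := sum_nonneg fun s _ => hw s
  have h5 : 0 ≤ ∑ x ∈ star3_H P X, w x := sum_nonneg fun s _ => hw s
  set l := ∑ x ∈ star3_L P X, w x
  set u := ∑ x ∈ star3_H P X, w x
  set m := ∑ x ∈ X, w x
  have h6 : (l + u) ^ 2 ≤ m ^ 2 := pow_le_pow_left₀ (by linarith only [h4, h5]) h3 2
  nlinarith only [h1, h6, sq_nonneg (l - u)]

theorem star3_small (P : Pat q) {w : Fin q → ℝ} (hw : ∀ s, 0 ≤ w s) {Y : Finset (Fin q)} {e : ℝ}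
    (hm : ∑ y ∈ Y, w y ≤ 1) (he : 0 ≤ e)
    (hY : ∀ x ∈ Y, ∀ x' ∈ Y, P.col x x' ≠ Col.R) (hL : ∑ y ∈ star3_L P Y, w y ≤ 8 * e) :
    (∑ x ∈ Y, w x) ^ 2 - 16 * e ≤
      ∑ x ∈ Y, ∑ x' ∈ Y, (if P.col x x' = Col.Z then w x * w x' else 0) := by
  rw [star3_OZ P w Y hY]
  have h1 := star3_D P hw Y
  have h3 : ∑ x ∈ star3_H P Y, w x ≤ 1 := (star3_mono hw (star3_H_sub P Y)).trans hm
  have h4 : 0 ≤ ∑ x ∈ star3_L P Y, w x := sum_nonneg fun s _ => hw s
  have h5 : 0 ≤ ∑ x ∈ star3_H P Y, w x := sum_nonneg fun s _ => hw s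
  have h6 : (∑ x ∈ star3_L P Y, w x) * ∑ x ∈ star3_H P Y, w x ≤ 8 * e * 1 :=
    mul_le_mul hL h3 h5 (by linarith only [he])
  linarith only [h1, h6]

theorem star3_core (P : Pat q) {w : Fin q → ℝ} (hw : ∀ s, 0 ≤ w s) {K X Y : Finset (Fin q)}
    {e l : ℝ} (he : 0 ≤ e) (hl : 18 * e < l) (hl1 : l ≤ 1)
    (hXK : X ⊆ K) (hYK : Y ⊆ K)
    (hm : ∑ y ∈ Y, w y ≤ 1)
    (hR : ∀ x ∈ X, ∑ y ∈ Y.filter (fun y => P.col x y ≠ Col.R), w y ≤ 2 * e)
    (hXY : Disjoint X Y) (hXl : l / 2 - e ≤ ∑ y ∈ X, w y) (hYl : l / 2 - e ≤ ∑ y ∈ Y, w y)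
    (hX : ∀ x ∈ X, ∀ x' ∈ X, P.col x x' ≠ Col.R)
    (hY : ∀ x ∈ Y, ∀ x' ∈ Y, P.col x x' ≠ Col.R) (hL : ∑ y ∈ star3_L P Y, w y ≤ 8 * e) :
    3 / 8 * l ^ 2 - 18 * e ≤
      ∑ s ∈ K, ∑ t ∈ K, if P.col s t = Col.Z then w s * w t else 0 := by
  have h1 := star3_half P hw hR hXY (by linarith only [hYl, hl, he]) hX
  have h2 := star3_small P hw hm he hY hL
  have hnn : ∀ s t, 0 ≤ (if P.col s t = Col.Z then w s * w t else 0) := by
    intro s t
    split_ifs
    · exact mul_nonneg (hw s) (hw t)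
    · exact le_rfl
  have h3 : ∑ x ∈ X, ∑ x' ∈ X, (if P.col x x' = Col.Z then w x * w x' else 0) +
      ∑ x ∈ Y, ∑ x' ∈ Y, (if P.col x x' = Col.Z then w x * w x' else 0) ≤
      ∑ s ∈ K, ∑ t ∈ K, (if P.col s t = Col.Z then w s * w t else 0) := by
    have h4 : ∑ x ∈ X, ∑ x' ∈ X, (if P.col x x' = Col.Z then w x * w x' else 0) ≤
        ∑ x ∈ X, ∑ t ∈ K, (if P.col x t = Col.Z then w x * w t else 0) :=
      sum_le_sum fun x _ => sum_le_sum_of_subset_of_nonneg hXK (fun t _ _ => hnn x t)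
    have h5 : ∑ x ∈ Y, ∑ x' ∈ Y, (if P.col x x' = Col.Z then w x * w x' else 0) ≤
        ∑ x ∈ Y, ∑ t ∈ K, (if P.col x t = Col.Z then w x * w t else 0) :=
      sum_le_sum fun x _ => sum_le_sum_of_subset_of_nonneg hYK (fun t _ _ => hnn x t)
    have h6 : ∑ x ∈ X, ∑ t ∈ K, (if P.col x t = Col.Z then w x * w t else 0) +
        ∑ x ∈ Y, ∑ t ∈ K, (if P.col x t = Col.Z then w x * w t else 0) ≤
        ∑ s ∈ K, ∑ t ∈ K, (if P.col s t = Col.Z then w s * w t else 0) := by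
      rw [← sum_union hXY]
      exact sum_le_sum_of_subset_of_nonneg (union_subset hXK hYK)
        (fun s _ _ => sum_nonneg fun t _ => hnn s t)
    linarith only [h4, h5, h6]
  set a := ∑ x ∈ X, w x
  set b := ∑ x ∈ Y, w x
  have h0 : 0 ≤ l / 2 - e := by linarith only [hl, he]
  have ha : (l / 2 - e) ^ 2 ≤ a ^ 2 := pow_le_pow_left₀ h0 hXl 2
  have hb : (l / 2 - e) ^ 2 ≤ b ^ 2 := pow_le_pow_left₀ h0 hYl 2
  have h7 : l * e ≤ 1 * e := mul_le_mul_of_nonneg_right hl1 he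
  nlinarith only [h1, h2, h3, ha, hb, h7, sq_nonneg e, he]

/-- **KR lemma.** `λ = w(K)`, `N(s)` the `R`-neighbours of `s`.

Proof. If `λ ≤ 18 e` then the left side is `≤ (3/8) λ - 18 e ≤ 0` (`λ ≤ 1`). Let `λ > 18 e`. Take `s0 ∈ K`; `w(N(s0) ∩ K) ≥ λ/2 - e > 0`, so there
is `t0 ∈ N(s0) ∩ K`. `X = N(t0) ∩ K`, `Y = N(s0) ∩ K`: disjoint (`tri_free`), no `R`-pair inside `X` or inside `Y`; masses in
`[λ/2 - e, λ/2 + e]`. For `x ∈ X`: `N(x) ∩ K` is disjoint from `X` and has mass `≥ λ/2 - e`, and `w(K \ X) ≤ λ/2 + e`, so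
`w(Y \ N(x)) ≤ 2e`. Same for `y ∈ Y`: `w(X \ N(y)) ≤ 2e`.

`XL = {x ∈ X | ∃ x' ∈ X, pos x < pos x', col x x' = O}`, `XH` = the upper ends; by `between` and the last estimates for
`x ∈ XL`: `w {y ∈ Y | pos y < pos x} ≤ 4e`; for `x ∈ XH`: `w {y ∈ Y | pos x < pos y} ≤ 4e`. Since `w(Y) > 8e` and `pos y ≠ pos x` (`X`, `Y`
disjoint, `inj`), `XL` and `XH` are disjoint. `∑_{x,x' ∈ X} [O] w w ≤ 2 w(XL) w(XH) ≤ w(X)²/2`. Same for `Y`.

`w(XL) w(YL) ≤ ∑_{x ∈ XL} w_x w{y ∈ Y | pos y < pos x} + ∑_{y ∈ YL} w_y w{x ∈ X | pos x < pos y} ≤ 4e (w(XL) + w(YL))`, so one of `w(XL)`, `w(YL)` is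
`≤ 8e`. Say `w(YL) ≤ 8e`: `∑_{Y,Y} [O] ≤ 2 w(YL) ≤ 16e`. The `Z`-sum over `K × K` is at least the sum over
`X × X` plus the sum over `Y × Y`, which is (colours `R` do not occur there)
`≥ w(X)²/2 + w(Y)² - 16e ≥ (λ/2-e)² (3/2) - 16e ≥ (3/8)λ² - 18e`. -/
theorem kr_lemma (P : Pat q) {w : Fin q → ℝ} (hw : ∀ s, 0 ≤ w s) (K : Finset (Fin q))
    (hK : K.Nonempty) {e : ℝ} (he : 0 ≤ e) (hm : ∑ s ∈ K, w s ≤ 1)
    (h : ∀ s ∈ K, (∑ t ∈ K, w t) / 2 - e ≤ ∑ t ∈ K, if P.col s t = Col.R then w t else 0) :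
    3 / 8 * (∑ s ∈ K, w s) ^ 2 - 18 * e ≤
      ∑ s ∈ K, ∑ t ∈ K, if P.col s t = Col.Z then w s * w t else 0 := by
  set l := ∑ s ∈ K, w s with hl
  have hl0 : 0 ≤ l := sum_nonneg fun s _ => hw s
  have hnn : ∀ s t, 0 ≤ (if P.col s t = Col.Z then w s * w t else 0) := by
    intro s t
    split_ifs
    · exact mul_nonneg (hw s) (hw t)
    · exact le_rfl
  rcases le_or_gt l (18 * e) with hc | hc
  · have h1 : 0 ≤ ∑ s ∈ K, ∑ t ∈ K, (if P.col s t = Col.Z then w s * w t else 0) :=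
      sum_nonneg fun s _ => sum_nonneg fun t _ => hnn s t
    have h2 : l ^ 2 ≤ l := by nlinarith only [hl0, hm]
    linarith only [h1, h2, hc, hl0]
  · have hN : ∀ s ∈ K, l / 2 - e ≤ ∑ t ∈ K.filter (fun t => P.col s t = Col.R), w t := by
      intro s hs
      rw [sum_filter]
      exact h s hs
    obtain ⟨s0, hs0⟩ := hK
    have h1 : 0 < ∑ t ∈ K.filter (fun t => P.col s0 t = Col.R), w t := by
      have := hN s0 hs0
      linarith only [this, hc, he]
    obtain ⟨t0, ht0⟩ : (K.filter (fun t => P.col s0 t = Col.R)).Nonempty := by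
      rw [nonempty_iff_ne_empty]
      intro hh
      rw [hh, sum_empty] at h1
      exact lt_irrefl _ h1
    obtain ⟨ht0K, ht0R⟩ := mem_filter.1 ht0
    set X := K.filter (fun t => P.col t0 t = Col.R) with hX
    set Y := K.filter (fun t => P.col s0 t = Col.R) with hY
    have hXK : X ⊆ K := filter_subset _ _
    have hYK : Y ⊆ K := filter_subset _ _
    have hXY : Disjoint X Y := by
      rw [Finset.disjoint_left]
      intro z hz1 hz2
      exact P.tri_free ht0R (mem_filter.1 hz1).2 (mem_filter.1 hz2).2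
    have hXR : ∀ x ∈ X, ∀ x' ∈ X, P.col x x' ≠ Col.R := by
      intro x hx x' hx' hh
      exact P.tri_free (mem_filter.1 hx).2 hh (mem_filter.1 hx').2
    have hYR : ∀ x ∈ Y, ∀ x' ∈ Y, P.col x x' ≠ Col.R := by
      intro x hx x' hx' hh
      exact P.tri_free (mem_filter.1 hx).2 hh (mem_filter.1 hx').2
    have hXl : l / 2 - e ≤ ∑ y ∈ X, w y := hN t0 ht0K
    have hYl : l / 2 - e ≤ ∑ y ∈ Y, w y := hN s0 hs0
    have hkey : ∀ A B : Finset (Fin q), A ⊆ K → B ⊆ K → Disjoint A B → l / 2 - e ≤ ∑ y ∈ A, w y →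
        (∀ x ∈ A, ∀ x' ∈ A, P.col x x' ≠ Col.R) →
        ∀ x ∈ A, ∑ y ∈ B.filter (fun y => P.col x y ≠ Col.R), w y ≤ 2 * e := by
      intro A B hA hB hAB hAl hAR x hx
      have h2 := hN x (hA hx)
      have h3 : ∑ y ∈ A ∪ (K.filter (fun t => P.col x t = Col.R) ∪
          B.filter (fun y => P.col x y ≠ Col.R)), w y ≤ l :=
        star3_mono hw (union_subset hA (union_subset (filter_subset _ _)
          ((filter_subset _ _).trans hB)))
      have hd1 : Disjoint (K.filter (fun t => P.col x t = Col.R))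
          (B.filter (fun y => P.col x y ≠ Col.R)) := by
        rw [Finset.disjoint_left]
        intro z hz1 hz2
        exact (mem_filter.1 hz2).2 (mem_filter.1 hz1).2
      have hd2 : Disjoint A (K.filter (fun t => P.col x t = Col.R) ∪
          B.filter (fun y => P.col x y ≠ Col.R)) := by
        rw [Finset.disjoint_left]
        intro z hz1 hz2
        rcases mem_union.1 hz2 with hz2 | hz2
        · exact hAR x hx z hz1 (mem_filter.1 hz2).2
        · exact (Finset.disjoint_left.1 hAB) hz1 (mem_filter.1 hz2).1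
      rw [sum_union hd2, sum_union hd1] at h3
      linarith only [h2, h3, hAl]
    have hR := hkey X Y hXK hYK hXY hXl hXR
    have hR' := hkey Y X hYK hXK hXY.symm hYl hYR
    have hmX : ∑ y ∈ X, w y ≤ 1 := (star3_mono hw hXK).trans hm
    have hmY : ∑ y ∈ Y, w y ≤ 1 := (star3_mono hw hYK).trans hm
    have hE := star3_E P hw hR hR' hXY
    rcases le_or_gt (∑ y ∈ star3_L P Y, w y) (8 * e) with hc1 | hc1
    · exact star3_core P hw he hc hm hXK hYK hmY hR hXY hXl hYl hXR hYR hc1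
    · rcases le_or_gt (∑ y ∈ star3_L P X, w y) (8 * e) with hc2 | hc2
      · exact star3_core P hw he hc hm hYK hXK hmX hR' hXY.symm hYl hXl hYR hXR hc2
      · exfalso
        set a := ∑ x ∈ star3_L P X, w x
        set b := ∑ x ∈ star3_L P Y, w x
        have ha : 0 < a := lt_of_le_of_lt (by linarith only [he]) hc2
        have hb : 0 < b := lt_of_le_of_lt (by linarith only [he]) hc1
        have h5 : 8 * e * b < a * b := mul_lt_mul_of_pos_right hc2 hb
        have h6 : 8 * e * a < b * a := mul_lt_mul_of_pos_right hc1 ha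
        linarith only [hE, h5, h6]

end Pool.Agent.H.MP_82502e_co
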