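import Pool.Agent.H.MP_82502e_co.PatEx
import Pool.Agent.H.MP_82502e_co.Star1
import Pool.Agent.H.MP_82502e_co.Star2
import Pool.Agent.H.MP_82502e_co.Star3

set_option autoImplicit false

/-!
# The key proposition and its consequences for `G`
-/

namespace Pool.Agent.H.MP_82502e_co

open Finset Real

/-- The sum over the complement of `{s | a ≤ f s}` is the sum over `{s | f s < a}`. -/
theorem star_sum_compl {q : ℕ} (f w : Fin q → ℝ) (a : ℝ) :
    ∑ s ∈ (univ.filter fun s => a ≤ f s)ᶜ, w s = ∑ s ∈ univ.filter (fun s => f s < a), w s := by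
  congr 1
  ext s
  simp

/-- The degree inside `K` when all `R`-neighbours lie in `K` or outside `F`. -/
theorem star_deg_in {q : ℕ} (P : Pat q) {w : Fin q → ℝ} (hw : ∀ s, 0 ≤ w s) (K F : Finset (Fin q))
    {s : Fin q} (h : ∀ t, t ∉ K → P.col s t = Col.R → t ∉ F) {B : ℝ} (hB : ∑ t ∈ Fᶜ, w t ≤ B) :
    P.deg Col.R w s - B ≤ ∑ t ∈ K, if P.col s t = Col.R then w t else 0 := by
  have h1 : P.deg Col.R w s = (∑ t ∈ K, if P.col s t = Col.R then w t else 0) +
      ∑ t ∈ Kᶜ, if P.col s t = Col.R then w t else 0 := by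
    unfold Pat.deg
    rw [Finset.sum_add_sum_compl]
  have h2 : (∑ t ∈ Kᶜ, if P.col s t = Col.R then w t else 0) ≤ ∑ t ∈ Fᶜ, w t := by
    calc (∑ t ∈ Kᶜ, if P.col s t = Col.R then w t else 0)
        ≤ ∑ t ∈ Kᶜ, if t ∈ Fᶜ then w t else 0 := by
          refine Finset.sum_le_sum fun t ht => ?_
          rw [Finset.mem_compl] at ht
          by_cases hc : P.col s t = Col.R
          · have := h t ht hc
            rw [if_pos hc, if_pos (Finset.mem_compl.mpr this)]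
          · rw [if_neg hc]
            split_ifs
            · exact hw t
            · exact le_refl _
      _ ≤ ∑ t, if t ∈ Fᶜ then w t else 0 := by
          refine Finset.sum_le_sum_of_subset_of_nonneg (Finset.subset_univ _) fun t _ _ => ?_
          split_ifs
          · exact hw t
          · exact le_refl _
      _ = ∑ t ∈ Fᶜ, w t := by
          rw [← Finset.sum_filter]
          congr 1
          ext t
          simp
  linarith

/-- The `Z`-sum over `K × K` is at most the form. -/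
theorem star_Z_le {q : ℕ} (P : Pat q) {w : Fin q → ℝ} (hw : ∀ s, 0 ≤ w s) (K : Finset (Fin q)) :
    (∑ s ∈ K, ∑ t ∈ K, if P.col s t = Col.Z then w s * w t else 0) ≤ P.form Col.Z w w := by
  unfold Pat.form
  have h0 : ∀ s t, (0 : ℝ) ≤ if P.col s t = Col.Z then w s * w t else 0 := by
    intro s t
    split_ifs
    · exact mul_nonneg (hw s) (hw t)
    · exact le_refl _
  calc (∑ s ∈ K, ∑ t ∈ K, if P.col s t = Col.Z then w s * w t else 0)
      ≤ ∑ s ∈ K, ∑ t, if P.col s t = Col.Z then w s * w t else 0 := by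
        refine Finset.sum_le_sum fun s _ => ?_
        exact Finset.sum_le_sum_of_subset_of_nonneg (Finset.subset_univ _) fun t _ _ => h0 s t
    _ ≤ _ := Finset.sum_le_sum_of_subset_of_nonneg (Finset.subset_univ _)
        fun s _ _ => Finset.sum_nonneg fun t _ => h0 s t

/-- The `Z`-sums over two disjoint squares are together at most the form. -/
theorem star_Z_le2 {q : ℕ} (P : Pat q) {w : Fin q → ℝ} (hw : ∀ s, 0 ≤ w s)
    {K1 K2 : Finset (Fin q)} (hd : Disjoint K1 K2) :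
    (∑ s ∈ K1, ∑ t ∈ K1, if P.col s t = Col.Z then w s * w t else 0) +
      (∑ s ∈ K2, ∑ t ∈ K2, if P.col s t = Col.Z then w s * w t else 0) ≤
      P.form Col.Z w w := by
  unfold Pat.form
  have h0 : ∀ s t, (0 : ℝ) ≤ if P.col s t = Col.Z then w s * w t else 0 := by
    intro s t
    split_ifs
    · exact mul_nonneg (hw s) (hw t)
    · exact le_refl _
  have h1 : ∀ K : Finset (Fin q),
      (∑ s ∈ K, ∑ t ∈ K, if P.col s t = Col.Z then w s * w t else 0)
      ≤ ∑ s ∈ K, ∑ t, if P.col s t = Col.Z then w s * w t else 0 := by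
    intro K
    refine Finset.sum_le_sum fun s _ => ?_
    exact Finset.sum_le_sum_of_subset_of_nonneg (Finset.subset_univ _) fun t _ _ => h0 s t
  have h2 := Finset.sum_union (f := fun s => ∑ t, if P.col s t = Col.Z then w s * w t else 0) hd
  have h3 : (∑ s ∈ K1 ∪ K2, ∑ t, if P.col s t = Col.Z then w s * w t else 0) ≤
      ∑ s, ∑ t, if P.col s t = Col.Z then w s * w t else 0 :=
    Finset.sum_le_sum_of_subset_of_nonneg (Finset.subset_univ _)
        fun s _ _ => Finset.sum_nonneg fun t _ => h0 s t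
  have h4 := h1 K1
  have h5 := h1 K2
  linarith

/-- `ω/2 + ρ/4 = 1/2 - ρ/4 - ζ/2`. -/
theorem star_d0 {q : ℕ} (P : Pat q) {w : Fin q → ℝ} (hw : IsProb w) :
    P.form Col.O w w / 2 + P.form Col.R w w / 4 =
      1 / 2 - P.form Col.R w w / 4 - P.form Col.Z w w / 2 := by
  have := P.form_total hw
  linarith

/-- Case 1 of the key proposition. -/
theorem star_case1 {q : ℕ} (P : Pat q) {w : Fin q → ℝ} (hw : IsProb w) {A : ℝ} (hA : 0 < A)
    (hA1 : A ≤ 1 / 10 ^ 5)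
    (hF : ∑ s ∈ univ.filter (fun s => P.deg Col.R w s < P.form Col.R w w - A ^ 2), w s ≤ A ^ 2)
    (hρ : 1 / 2 - 7 * A ≤ P.form Col.R w w) :
    P.form Col.O w w / 2 + P.form Col.R w w / 4 ≤ 3 / 16 + 75 * A := by
  classical
  have hA2 : A ^ 2 ≤ A / 10 ^ 5 := by
    have : A * A ≤ A * (1 / 10 ^ 5) := mul_le_mul_of_nonneg_left hA1 hA.le
    calc A ^ 2 = A * A := by ring
      _ ≤ A * (1 / 10 ^ 5) := this
      _ = A / 10 ^ 5 := by ring
  have hA3 : 0 < A ^ 2 := by positivity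
  set F : Finset (Fin q) := univ.filter (fun s => P.form Col.R w w - A ^ 2 ≤ P.deg Col.R w s)
    with hFdef
  have hFc : ∑ s ∈ Fᶜ, w s ≤ A ^ 2 := by
    rw [hFdef, star_sum_compl]
    exact hF
  have hsum : ∑ s ∈ F, w s + ∑ s ∈ Fᶜ, w s = 1 := by
    rw [Finset.sum_add_sum_compl]
    exact hw.sum
  have hFc0 : 0 ≤ ∑ s ∈ Fᶜ, w s := Finset.sum_nonneg fun s _ => hw.nonneg s
  have hF1 : ∑ s ∈ F, w s ≤ 1 := by linarith
  have hF2 : 1 - A ^ 2 ≤ ∑ s ∈ F, w s := by linarith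
  have hne : F.Nonempty := by
    rcases F.eq_empty_or_nonempty with h | h
    · exfalso
      rw [h, Finset.sum_empty] at hF2
      norm_num at hA1
      linarith
    · exact h
  have hkr := kr_lemma P hw.nonneg F hne (e := 8 * A) (by positivity) hF1 (by
    intro s hs
    have h1 := star_deg_in P hw.nonneg F F (s := s) (fun t ht _ => ht) hFc
    have h2 : P.form Col.R w w - A ^ 2 ≤ P.deg Col.R w s := by
      rw [hFdef, Finset.mem_filter] at hs
      exact hs.2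
    norm_num at hA2
    linarith)
  have hZ := star_Z_le P hw.nonneg F
  rw [star_d0 P hw]
  have hsq : 1 - 2 * A ^ 2 ≤ (∑ s ∈ F, w s) ^ 2 := by
    have h3 : 0 ≤ 1 - A ^ 2 := by
      norm_num at hA1 hA2
      linarith
    have : (1 - A ^ 2) ^ 2 ≤ (∑ s ∈ F, w s) ^ 2 := pow_le_pow_left₀ h3 hF2 2
    nlinarith [sq_nonneg (A ^ 2)]
  norm_num at hA2
  linarith

/-- Case 2 of the key proposition. -/
theorem star_case2 {q : ℕ} (P : Pat q) {w : Fin q → ℝ} (hw : IsProb w) {A : ℝ} (hA : 0 < A)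
    (hA1 : A ≤ 1 / 10 ^ 5)
    (hF : ∑ s ∈ univ.filter (fun s => P.deg Col.R w s < P.form Col.R w w - A ^ 2), w s ≤ A ^ 2)
    (hρ : 1 / 4 - 7 * A ≤ P.form Col.R w w) {K1 K2 : Finset (Fin q)} (hd : Disjoint K1 K2)
    (hU : K1 ∪ K2 = univ.filter (fun s => P.form Col.R w w - A ^ 2 ≤ P.deg Col.R w s))
    (hK1 : K1.Nonempty) (hK2 : K2.Nonempty) (hR : ∀ s ∈ K1, ∀ t ∈ K2, P.col s t ≠ Col.R)
    (hm1 : 2 * P.form Col.R w w - 3 * A ^ 2 ≤ ∑ s ∈ K1, w s)
    (hm2 : 2 * P.form Col.R w w - 3 * A ^ 2 ≤ ∑ s ∈ K2, w s) :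
    P.form Col.O w w / 2 + P.form Col.R w w / 4 ≤ 7 / 20 := by
  classical
  have hA2 : A ^ 2 ≤ A / 10 ^ 5 := by
    have : A * A ≤ A * (1 / 10 ^ 5) := mul_le_mul_of_nonneg_left hA1 hA.le
    calc A ^ 2 = A * A := by ring
      _ ≤ A * (1 / 10 ^ 5) := this
      _ = A / 10 ^ 5 := by ring
  have hA3 : 0 < A ^ 2 := by positivity
  set F : Finset (Fin q) := univ.filter (fun s => P.form Col.R w w - A ^ 2 ≤ P.deg Col.R w s)
    with hFdef
  have hFc : ∑ s ∈ Fᶜ, w s ≤ A ^ 2 := by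
    rw [hFdef, star_sum_compl]
    exact hF
  have hsum : ∑ s ∈ F, w s + ∑ s ∈ Fᶜ, w s = 1 := by
    rw [Finset.sum_add_sum_compl]
    exact hw.sum
  have hFc0 : 0 ≤ ∑ s ∈ Fᶜ, w s := Finset.sum_nonneg fun s _ => hw.nonneg s
  have hUs : ∑ s ∈ F, w s = ∑ s ∈ K1, w s + ∑ s ∈ K2, w s := by
    rw [← hU, Finset.sum_union hd]
  have hp1 : 0 ≤ ∑ s ∈ K1, w s := Finset.sum_nonneg fun s _ => hw.nonneg s
  have hp2 : 0 ≤ ∑ s ∈ K2, w s := Finset.sum_nonneg fun s _ => hw.nonneg s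
  norm_num at hA1 hA2
  have key : ∀ K K' : Finset (Fin q), K ∪ K' = F → K.Nonempty →
      (∀ s ∈ K, ∀ t ∈ K', P.col s t ≠ Col.R) →
      2 * P.form Col.R w w - 3 * A ^ 2 ≤ ∑ s ∈ K', w s →
      ∑ s ∈ K, w s + ∑ s ∈ K', w s ≤ 1 → 0 ≤ ∑ s ∈ K', w s →
      3 / 8 * (∑ s ∈ K, w s) ^ 2 - 18 * (15 * A) ≤
      ∑ s ∈ K, ∑ t ∈ K, if P.col s t = Col.Z then w s * w t else 0 := by
    intro K K' hKU hne hRR hm hs1 hs0
    refine kr_lemma P hw.nonneg K hne (by positivity) (by linarith) ?_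
    intro s hs
    have h1 := star_deg_in P hw.nonneg K F (s := s) (fun t ht hc htF => by
      rw [← hKU, Finset.mem_union] at htF
      rcases htF with h | h
      · exact ht h
      · exact hRR s hs t h hc) hFc
    have h2 : P.form Col.R w w - A ^ 2 ≤ P.deg Col.R w s := by
      have : s ∈ F := by
        rw [← hKU]
        exact Finset.mem_union_left _ hs
      rw [hFdef, Finset.mem_filter] at this
      exact this.2
    linarith
  have hk1 := key K1 K2 hU hK1 hR hm2 (by linarith) hp2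
  have hk2 := key K2 K1 (by rw [Finset.union_comm]; exact hU) hK2
    (fun s hs t ht hc => hR t ht s hs (by rw [P.symm]; exact hc)) hm1 (by linarith) hp1
  have hZ := star_Z_le2 P hw.nonneg hd
  rw [star_d0 P hw]
  have hsq : 1 / 2 - A ^ 2 ≤ (∑ s ∈ K1, w s) ^ 2 + (∑ s ∈ K2, w s) ^ 2 := by
    have h3 : 0 ≤ 1 - A ^ 2 := by linarith
    have h4 : 1 - A ^ 2 ≤ ∑ s ∈ K1, w s + ∑ s ∈ K2, w s := by linarith
    have h5 : (1 - A ^ 2) ^ 2 ≤ (∑ s ∈ K1, w s + ∑ s ∈ K2, w s) ^ 2 := pow_le_pow_left₀ h3 h4 2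
    nlinarith [sq_nonneg (A ^ 2), sq_nonneg (∑ s ∈ K1, w s - ∑ s ∈ K2, w s)]
  linarith

/-- **Key proposition (*).**

Proof. `A = min (δ/300) (1/10^5)`, `c = min (A^10) (δ/6 * log 2)`. Suppose `G d0 < (ρ/2) log 2 + c`. `G_pos`: `G d0 ≥ (δ/3) log 2`
(`d0 ≥ 3/16 ≥ 1/8`), so `(ρ/2) log 2 > (δ/6) log 2`, `ρ > δ/3 ≥ 100 A`. `deg_le_of_stat`, `mass_compl_le`, `form_le_of_stat`, and
`graph_lemma` with `e = 7A`. `d0 = 1/2 - ρ/4 - ζ/2` (`form_total`), `ζ = form Z w w`. `F = {s | ρ - A² ≤ R_s}`, `w(F) ≥ 1 - A²`.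

Case `ρ ≥ 1/2 - 7A`: `F` nonempty; for `s ∈ F`: `∑_{t∈F,R} w_t ≥ R_s - w(Fᶜ) ≥ ρ - 2A² ≥ w(F)/2 - (7A + 2A²)`; `kr_lemma` for `K = F`,
`e' = 8A`: `ζ ≥ (3/8)(1-A²)² - 144A`, so `d0 ≤ 3/16 + 2A + A² + 72A < 3/16 + δ` (`75 A ≤ δ/4`). Contradiction.

Case 2: for `s ∈ K1`: the `R`-neighbours of `s` are in `K1 ∪ Fᶜ`: `∑_{t∈K1,R} w_t ≥ ρ - 2A² ≥ 1/4 - 7A - 2A²`, and
`w(K1) ≤ 1 - w(K2) ≤ 1 - 2ρ + 3A² ≤ 1/2 + 14A + 3A²`, so `≥ w(K1)/2 - 15A`. `kr_lemma` for `K1`, `K2`: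
`ζ ≥ (3/8)(w(K1)² + w(K2)²) - 540A ≥ (3/16)(1-A²)² - 540A`, `d0 ≤ 1/2 - 1/16 - 3/32 + 280A ≤ 7/20`. So `G d0 ≥ (128/1000) log 2`
(`G_three`, `G_five`), but `G d0 < (1/8 + A²) log 2 + A^10`. Contradiction. -/
theorem star {δ : ℝ} (hδ : 0 < δ) : ∃ c : ℝ, 0 < c ∧ ∀ (q : ℕ) (P : Pat q) (w : Fin q → ℝ),
    IsProb w → 3 / 16 + δ ≤ P.form Col.O w w / 2 + P.form Col.R w w / 4 →
    P.form Col.O w w / 2 + P.form Col.R w w / 4 ≤ 1 / 2 - δ →
    P.form Col.R w w / 2 * log 2 + c ≤ G (P.form Col.O w w / 2 + P.form Col.R w w / 4) := by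
  have hl1 : 0.6931471803 < log 2 := Real.log_two_gt_d9
  have hl2 : log 2 < 0.6931471808 := Real.log_two_lt_d9
  set A : ℝ := min (δ / 300) (1 / 10 ^ 5) with hAdef
  have hA : 0 < A := lt_min (by positivity) (by norm_num)
  have hAδ : A ≤ δ / 300 := min_le_left _ _
  have hA1 : A ≤ 1 / 10 ^ 5 := min_le_right _ _
  have hA1' : A ≤ 1 / 100 := hA1.trans (by norm_num)
  refine ⟨min (A ^ 10) (δ / 6 * log 2), lt_min (by positivity) (by positivity), ?_⟩
  intro q P w hw hd1 hd2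
  by_contra hcon
  rw [not_le] at hcon
  set d0 : ℝ := P.form Col.O w w / 2 + P.form Col.R w w / 4 with hd0
  have hGp : δ / 3 * log 2 ≤ G d0 := G_pos hδ (by linarith) hd2
  have hc1 : min (A ^ 10) (δ / 6 * log 2) ≤ A ^ 10 := min_le_left _ _
  have hc2 : min (A ^ 10) (δ / 6 * log 2) ≤ δ / 6 * log 2 := min_le_right _ _
  have hst : G d0 < P.form Col.R w w / 2 * log 2 + A ^ 10 := by linarith
  have hρ0 : δ / 3 < P.form Col.R w w := by
    have h1 : δ / 3 * log 2 < P.form Col.R w w * log 2 := by linarith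
    exact lt_of_mul_lt_mul_right h1 (by linarith)
  have hρ : 100 * A ≤ P.form Col.R w w := by linarith
  have h1 := deg_le_of_stat P hw hA hA1' hρ hst
  have hF := mass_compl_le P hw hA h1
  have h2 : ∀ μ : Fin q → ℝ, IsProb μ →
      (∀ s, μ s ≠ 0 → P.form Col.R w w - A ^ 2 ≤ P.deg Col.R w s) →
      |P.form Col.O w μ - P.form Col.O w w| ≤ A / 2 →
      P.form Col.R μ μ ≤ P.form Col.R w w + 7 * A :=
    fun μ hμ hs hO => form_le_of_stat P hw hA hA1' hρ hst h1 hμ hs hO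
  rcases graph_lemma P hw hA hA1' hρ h1 hF h2 with hc | ⟨hc1', hc2', K1, K2, hdis, hU, hK1, hK2, hR, hm1, hm2⟩
  · have := star_case1 P hw hA hA1 hF hc
    linarith
  · have h3 := star_case2 P hw hA hA1 hF hc1' hdis hU hK1 hK2 hR hm1 hm2
    have h4 : (128 / 1000 : ℝ) * log 2 ≤ G d0 := by
      rcases le_total d0 (9 / 32) with h5 | h5
      · exact G_three (by linarith) h5
      · exact G_five h5 h3
    have hA10 : A ^ 10 ≤ 1 / 10 ^ 5 := by
      calc A ^ 10 = A ^ 9 * A := by ring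
        _ ≤ 1 * A := by
            refine mul_le_mul_of_nonneg_right ?_ hA.le
            exact pow_le_one₀ hA.le (by linarith)
        _ ≤ 1 / 10 ^ 5 := by linarith
    have hA2 : A ^ 2 ≤ 1 / 10 ^ 5 := by
      calc A ^ 2 = A * A := by ring
        _ ≤ 1 * A := mul_le_mul_of_nonneg_right (by linarith) hA.le
        _ ≤ 1 / 10 ^ 5 := by linarith
    have h6 : P.form Col.R w w / 2 * log 2 ≤ (1 / 8 + 1 / 10 ^ 5) * log 2 :=
      mul_le_mul_of_nonneg_right (by linarith) (by linarith)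
    norm_num at h6 hA10
    linarith

/-- (G3) `G` is non-increasing on `(3/16, 1/2)`.

Proof. Suppose `3/16 < d1 ≤ d2 < 1/2` and `G d1 < G d2`; let `M = sSup (G '' [d1, 1/2))` (bounded by `G_le`), `M ≥ G d2 > G d1 ≥ 0`.
`r0 = M/(4 log 2)`, `δ' = min (d1 - 3/16) (r0/2)`, `c` from `star δ'`, `η = min c (M - G d1) / 4` and `η ≤ M/4`. Choose `d* ∈ [d1, 1/2)` with
`G d* > M - η` and a pattern with value `v > M - 2η` at `d*`; `r = ρ/2`, `x = d* - ω/2`, `d0 = ω/2 + ρ/4 = ω/2 + r/2`. `v ≤ r log 2` so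
`r ≥ r0`; `ω/2 + r ≤ 1/2` (`form_total`), so `d0 ≤ 1/2 - r/2 ≤ 1/2 - δ'`.
If `d0 ≥ d1`: `star` gives `G d0 ≥ r log 2 + c ≥ v + c > M`, contradiction to `G d0 ≤ M`.
If `d0 < d1`: `d1 - ω/2 ∈ [r/2, x]`, `phi_anti_x`: `G d1 ≥ phi r (d1 - ω/2) ≥ v > M - 2η ≥ G d1`, contradiction. -/
theorem G_anti {d1 d2 : ℝ} (h1 : 3 / 16 < d1) (h12 : d1 ≤ d2) (h2 : d2 < 1 / 2) :
    G d2 ≤ G d1 := by
  have hl1 : 0.6931471803 < log 2 := Real.log_two_gt_d9
  have hl0 : 0 < log 2 := by linarith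
  by_contra hcon
  rw [not_le] at hcon
  set S : Set ℝ := G '' Set.Ico d1 (1 / 2) with hS
  have hbdd : BddAbove S := ⟨log 2 / 4, by
    rintro _ ⟨d, _, rfl⟩
    exact G_le d⟩
  set M : ℝ := sSup S with hM
  have hMle : ∀ d, d1 ≤ d → d < 1 / 2 → G d ≤ M := fun d h3 h4 =>
    le_csSup hbdd ⟨d, ⟨h3, h4⟩, rfl⟩
  have hM2 : G d2 ≤ M := hMle d2 h12 h2
  have hG0 := G_nonneg d1
  have hMpos : 0 < M := by linarith
  set δ' : ℝ := min (d1 - 3 / 16) (M / (8 * log 2)) with hδ'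
  have hδ'0 : 0 < δ' := lt_min (by linarith) (by positivity)
  obtain ⟨c, hc, hstar⟩ := star hδ'0
  set η : ℝ := min c (M - G d1) / 4 with hη
  have hη0 : 0 < η := by
    have : 0 < min c (M - G d1) := lt_min hc (by linarith)
    positivity
  have hη1 : 4 * η ≤ c := by
    have := min_le_left c (M - G d1)
    linarith
  have hη2 : 4 * η ≤ M - G d1 := by
    have := min_le_right c (M - G d1)
    linarith
  obtain ⟨_, ⟨ds, hds, rfl⟩, hlt⟩ := exists_lt_of_lt_csSup (s := S)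
    ⟨G d1, ⟨d1, ⟨le_refl _, by linarith⟩, rfl⟩⟩ (show M - η < sSup S by rw [← hM]; linarith)
  obtain ⟨q, P, w, hw, hP1, hP2, hP3⟩ := exists_near (d := ds) (by linarith) hη0
  set r : ℝ := P.form Col.R w w / 2 with hr
  set x : ℝ := ds - P.form Col.O w w / 2 with hx
  have hx0 : 0 ≤ x := by linarith
  have hxr : x ≤ r := by linarith
  have hv := phi_le hx0 hxr
  have hv2 : M / 2 < r * log 2 := by linarith
  have hr0 : M / (8 * log 2) ≤ r / 2 := by
    rw [div_le_iff₀ (by positivity)]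
    nlinarith
  have htot := P.form_total hw
  have hZ := P.form_nonneg Col.Z hw.nonneg hw.nonneg
  have hO := P.form_nonneg Col.O hw.nonneg hw.nonneg
  have hrpos : 0 ≤ r := le_trans hx0 hxr
  have hd0 : P.form Col.O w w / 2 + P.form Col.R w w / 4 ≤ 1 / 2 - δ' := by
    have := min_le_right (d1 - 3 / 16) (M / (8 * log 2))
    linarith
  rcases le_or_gt d1 (P.form Col.O w w / 2 + P.form Col.R w w / 4) with h3 | h3
  · have h4 := hstar q P w hw (by
      have := min_le_left (d1 - 3 / 16) (M / (8 * log 2))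
      linarith) hd0
    have h5 := hMle _ h3 (by linarith)
    rw [← hr] at h4
    linarith
  · have h6 : r / 2 ≤ d1 - P.form Col.O w w / 2 := by linarith
    have h7 : d1 - P.form Col.O w w / 2 ≤ x := by linarith [hds.1]
    have h8 := phi_anti_x h6 h7 hxr
    have h9 := le_G P hw (d := d1) (by linarith) (by linarith [hds.1])
    linarith

/-- (G5) Near-optimal patterns have `x ≥ (1/2 + c1) r`.

Proof. `g = (δ/3) log 2 ≤ G d` (`G_pos`). `r0 = g/(2 log 2)`, `δ' = min (δ/2) (r0/4)`, `c` from `star δ'`; `Δ` from `G_cont (c/2)`;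
`c1 = min (min Δ (δ/2)) ..`, `θ1 = min (c/4) (g/2)`. Let value `v ≥ G d - θ1`, `r = ρ/2`, `x = d - ω/2`, and suppose `x < (1/2+c1) r`. `v ≤ r log 2`
gives `r ≥ r0`. `d0 = ω/2 + r/2 > d - c1 r ≥ d - c1`; `d0 ≤ 1/2 - r/2 ≤ 1/2 - δ'`, `d0 ≥ 3/16 + δ/2`. If `d0 ≥ d`: `G d ≥ G d0` (`G_anti`);
if `d0 < d`: `G d ≥ G d0 - c/2` (`G_cont`). So `G d ≥ G d0 - c/2 ≥ r log 2 + c/2 ≥ v + c/2 ≥ G d - θ1 + c/2 > G d`. -/
theorem near_opt {δ : ℝ} (hδ : 0 < δ) : ∃ c1 θ1 : ℝ, 0 < c1 ∧ 0 < θ1 ∧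
    ∀ (q : ℕ) (P : Pat q) (w : Fin q → ℝ) (d : ℝ), IsProb w → 3 / 16 + δ ≤ d → d ≤ 1 / 2 - δ →
    P.form Col.O w w / 2 ≤ d → d ≤ (P.form Col.O w w + P.form Col.R w w) / 2 →
    G d - θ1 ≤ phi (P.form Col.R w w / 2) (d - P.form Col.O w w / 2) →
    (1 / 2 + c1) * (P.form Col.R w w / 2) ≤ d - P.form Col.O w w / 2 := by
  have hl1 : 0.6931471803 < log 2 := Real.log_two_gt_d9
  have hl0 : 0 < log 2 := by linarith
  obtain ⟨c, hc, hstar⟩ := star (show 0 < δ / 12 by positivity)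
  obtain ⟨Δ, hΔ, hcont⟩ := G_cont (show 0 < c / 2 by positivity)
  refine ⟨min Δ (δ / 2), min (c / 4) (δ / 6 * log 2), lt_min hΔ (by positivity),
    lt_min (by positivity) (by positivity), ?_⟩
  intro q P w d hw hd1 hd2 hP1 hP2 hnear
  by_contra hcon
  rw [not_le] at hcon
  set c1 : ℝ := min Δ (δ / 2) with hc1
  have hc1Δ : c1 ≤ Δ := min_le_left _ _
  have hc1δ : c1 ≤ δ / 2 := min_le_right _ _
  have hc10 : 0 < c1 := lt_min hΔ (by positivity)
  have hθ1 : min (c / 4) (δ / 6 * log 2) ≤ c / 4 := min_le_left _ _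
  have hθ2 : min (c / 4) (δ / 6 * log 2) ≤ δ / 6 * log 2 := min_le_right _ _
  set r : ℝ := P.form Col.R w w / 2 with hr
  set x : ℝ := d - P.form Col.O w w / 2 with hx
  have hx0 : 0 ≤ x := by linarith
  have hxr : x ≤ r := by linarith
  have hv := phi_le hx0 hxr
  have hGp : δ / 3 * log 2 ≤ G d := G_pos hδ (by linarith) hd2
  have hr0 : δ / 6 ≤ r := by
    have h1 : δ / 6 * log 2 ≤ r * log 2 := by linarith
    exact le_of_mul_le_mul_right h1 hl0
  have htot := P.form_total hw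
  have hZ := P.form_nonneg Col.Z hw.nonneg hw.nonneg
  have hhalf := P.rho_le_half hw
  have hcr : c1 * r ≤ c1 := by
    have : c1 * r ≤ c1 * 1 := mul_le_mul_of_nonneg_left (by linarith) hc10.le
    linarith
  have hd0' : d - c1 < P.form Col.O w w / 2 + P.form Col.R w w / 4 := by
    have h1 : (1 / 2 + c1) * r = r / 2 + c1 * r := by ring
    rw [h1] at hcon
    linarith
  have hst := hstar q P w hw (by linarith) (by linarith)
  rw [← hr] at hst
  have hG : G (P.form Col.O w w / 2 + P.form Col.R w w / 4) - c / 2 ≤ G d := by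
    rcases le_total d (P.form Col.O w w / 2 + P.form Col.R w w / 4) with h | h
    · have := G_anti (d1 := d) (d2 := P.form Col.O w w / 2 + P.form Col.R w w / 4)
        (by linarith) h (by linarith)
      linarith
    · refine hcont _ _ ?_
      rw [abs_le]
      constructor <;> linarith
  linarith

end Pool.Agent.H.MP_82502e_co
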