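import Pool.Agent.H.MP_82502e_co.Count
import Pool.Agent.H.MP_82502e_co.Sample
import Pool.Agent.H.MP_82502e_co.PatLB
import Pool.Agent.H.MP_82502e_co.Star

set_option autoImplicit false

/-!
# The decreasing part: types of typical posets
-/

namespace Pool.Agent.H.MP_82502e_co

open Finset Real

/-- Elementary facts about the normalised sizes. -/
theorem deca_basic {n : ℕ} (hn : 1 ≤ n) (c : Fin n × Fin n → Col) (S : Finset (Fin n × Fin n)) :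
    0 ≤ (((S ∩ cpairs c Col.R).card : ℝ) / (n : ℝ) ^ 2) ∧
    ((S ∩ cpairs c Col.R).card : ℝ) / (n : ℝ) ^ 2 ≤ (cpairs c Col.R).card / (n : ℝ) ^ 2 ∧
    ((cpairs c Col.R).card : ℝ) / (n : ℝ) ^ 2 ≤ 1 := by
  have hn0 : (0 : ℝ) < (n : ℝ) ^ 2 := by
    have : (0 : ℝ) < n := by exact_mod_cast hn
    positivity
  refine ⟨by positivity, ?_, ?_⟩
  · refine div_le_div_of_nonneg_right ?_ hn0.le
    exact_mod_cast card_le_card inter_subset_right
  · rw [div_le_one hn0]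
    have h := card_le_univ (cpairs c Col.R)
    rw [Fintype.card_prod, Fintype.card_fin] at h
    have h2 : ((cpairs c Col.R).card : ℝ) ≤ ((n * n : ℕ) : ℝ) := by exact_mod_cast h
    rw [Nat.cast_mul] at h2
    rw [pow_two]
    exact h2

/-- A poset on `n` points has at most `n (n-1) / 2` relations. -/
theorem deca_card_le {n : ℕ} {S : Finset (Fin n × Fin n)} (h : IsPO S) :
    S.card ≤ n * (n - 1) / 2 := by
  obtain ⟨e, he⟩ := exists_nat_relab h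
  rw [← card_relab e S, ← card_chain n]
  refine card_le_card fun p hp => ?_
  rw [mem_filter]
  exact ⟨mem_univ _, he p hp⟩

theorem deca_lt_half {n k : ℕ} (hn : 1 ≤ n) (h : cnt n k ≠ 0) : (k : ℝ) / (n : ℝ) ^ 2 < 1 / 2 := by
  have hn0 : (0 : ℝ) < n := by exact_mod_cast hn
  unfold cnt at h
  obtain ⟨S, hS⟩ := card_pos.1 (Nat.pos_of_ne_zero h)
  obtain ⟨h1, h2⟩ := mem_PO.1 hS
  have h3 := deca_card_le h1
  rw [h2] at h3
  have h4 : k * 2 ≤ n * (n - 1) := (Nat.le_div_iff_mul_le (by norm_num)).1 h3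
  have h5 : ((k * 2 : ℕ) : ℝ) ≤ ((n * (n - 1) : ℕ) : ℝ) := by exact_mod_cast h4
  rw [Nat.cast_mul, Nat.cast_mul, Nat.cast_sub hn] at h5
  push_cast at h5
  rw [div_lt_iff₀ (by positivity)]
  nlinarith

/-- **Comparison of a type with patterns.** For a natural poset `S` of type `c` (error `η ≤ η0`), with `r = |R|/n²`, `κ = |S ∩ R|/n²`, `d = |S|/n²` and
`g ≤ phi r κ` (`g > 0` fixed) there is a pattern, feasible at `d`, with `|ρ/2 - r| ≤ ε`, `|(d - ω/2) - κ| ≤ ε` and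
`|phi (ρ/2) (d - ω/2) - phi r κ| ≤ ε`.

Proof. `phi_interior g` gives `c' > 0` with `κ ≥ c'`, `r - κ ≥ c'`. Let `Δ` be from `phi_unif ε`, `ε' = min (min ε Δ) c' / 4`, and take
the `sampling` pattern for `ε'`, `η0 = min (its η0) (ε'/2)`. `|d - κ - |O|/n²| ≤ 2η ≤ ε'` (`level_close`), so `|(d - ω/2) - κ| ≤ 2ε'`, hence
`0 ≤ d - ω/2 ≤ ρ/2`. -/
theorem exists_pat {g ε : ℝ} (hg : 0 < g) (hε : 0 < ε) : ∃ η0 : ℝ, 0 < η0 ∧ ∃ n0 : ℕ, ∀ n ≥ n0,
    ∀ (η : ℝ) (c : Fin n × Fin n → Col) (S : Finset (Fin n × Fin n)), η ≤ η0 → IsPO S →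
    Nat' S → IsType η S c →
    g ≤ phi ((cpairs c Col.R).card / (n : ℝ) ^ 2) ((S ∩ cpairs c Col.R).card / (n : ℝ) ^ 2) →
    ∃ (q : ℕ) (P : Pat q) (w : Fin q → ℝ), IsProb w ∧
      P.form Col.O w w / 2 ≤ S.card / (n : ℝ) ^ 2 ∧
      S.card / (n : ℝ) ^ 2 ≤ (P.form Col.O w w + P.form Col.R w w) / 2 ∧
      |P.form Col.R w w / 2 - (cpairs c Col.R).card / (n : ℝ) ^ 2| ≤ ε ∧
      |(S.card / (n : ℝ) ^ 2 - P.form Col.O w w / 2) -
        (S ∩ cpairs c Col.R).card / (n : ℝ) ^ 2| ≤ ε ∧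
      |phi (P.form Col.R w w / 2) (S.card / (n : ℝ) ^ 2 - P.form Col.O w w / 2) -
        phi ((cpairs c Col.R).card / (n : ℝ) ^ 2) ((S ∩ cpairs c Col.R).card / (n : ℝ) ^ 2)| ≤ ε := by
  obtain ⟨c', hc', hint⟩ := phi_interior hg
  obtain ⟨Δ, hΔ, hu⟩ := phi_unif hε
  obtain ⟨ε', hε'⟩ : ∃ ε', ε' = min (min ε Δ) c' / 4 := ⟨_, rfl⟩
  have hm : 0 < min (min ε Δ) c' := lt_min (lt_min hε hΔ) hc'
  have hε'0 : 0 < ε' := by rw [hε']; positivity
  have e1 : 4 * ε' ≤ ε := by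
    rw [hε']
    have := (min_le_left (min ε Δ) c').trans (min_le_left ε Δ)
    linarith
  have e2 : 4 * ε' ≤ Δ := by
    rw [hε']
    have := (min_le_left (min ε Δ) c').trans (min_le_right ε Δ)
    linarith
  have e3 : 4 * ε' ≤ c' := by
    rw [hε']
    have := min_le_right (min ε Δ) c'
    linarith
  obtain ⟨η1, hη1, n1, hs⟩ := sampling hε'0
  refine ⟨min η1 (ε' / 2), lt_min hη1 (by positivity), max n1 1, ?_⟩
  intro n hn η c S hη hPO hNat hty hg'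
  have hn1 : n1 ≤ n := (le_max_left _ _).trans hn
  have hn2 : 1 ≤ n := (le_max_right _ _).trans hn
  have hnR : (0 : ℝ) < n := by exact_mod_cast hn2
  have hnn : (0 : ℝ) < (n : ℝ) ^ 2 := by positivity
  have hη1' : η ≤ η1 := hη.trans (min_le_left _ _)
  have hη2' : η ≤ ε' / 2 := hη.trans (min_le_right _ _)
  obtain ⟨q, P, w, hw, h1, h2⟩ := hs n hn1 c hty.closed
    (hty.e_le.trans (mul_le_mul_of_nonneg_right hη1' hnn.le))
  obtain ⟨b1, b2, b3⟩ := deca_basic hn2 c S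
  obtain ⟨i1, i2⟩ := hint _ _ b1 b2 b3 hg'
  have hl := level_close hNat hty
  have hl2 : |(S.card : ℝ) / (n : ℝ) ^ 2 - (S ∩ cpairs c Col.R).card / (n : ℝ) ^ 2 -
      (cpairs c Col.O).card / (n : ℝ) ^ 2| ≤ ε' := by
    have e : (S.card : ℝ) / (n : ℝ) ^ 2 - (S ∩ cpairs c Col.R).card / (n : ℝ) ^ 2 -
      (cpairs c Col.O).card / (n : ℝ) ^ 2 = ((S.card : ℝ) - (S ∩ cpairs c Col.R).card -
        (cpairs c Col.O).card) / (n : ℝ) ^ 2 := by ring
    rw [e, abs_div, abs_of_pos hnn, div_le_iff₀ hnn]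
    refine hl.trans (mul_le_mul_of_nonneg_right (by linarith) hnn.le)
  obtain ⟨κ, hκ⟩ : ∃ κ, κ = ((S ∩ cpairs c Col.R).card : ℝ) / (n : ℝ) ^ 2 := ⟨_, rfl⟩
  obtain ⟨r, hr⟩ : ∃ r, r = ((cpairs c Col.R).card : ℝ) / (n : ℝ) ^ 2 := ⟨_, rfl⟩
  obtain ⟨o, ho⟩ : ∃ o, o = ((cpairs c Col.O).card : ℝ) / (n : ℝ) ^ 2 := ⟨_, rfl⟩
  obtain ⟨d, hd⟩ : ∃ d, d = (S.card : ℝ) / (n : ℝ) ^ 2 := ⟨_, rfl⟩
  rw [← hκ, ← hd, ← ho] at hl2
  rw [← ho] at h2
  rw [← hr] at h1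
  rw [← hκ, ← hr] at b2 i2 hg'
  rw [← hκ] at b1 i1
  rw [← hr] at b3
  rw [← hκ, ← hd, ← hr]
  have hρ := P.rho_le_half hw
  obtain ⟨a1, a2⟩ := abs_le.1 h1
  obtain ⟨a3, a4⟩ := abs_le.1 h2
  obtain ⟨a5, a6⟩ := abs_le.1 hl2
  have f1 : P.form Col.O w w / 2 ≤ d := by linarith
  have f2 : d ≤ (P.form Col.O w w + P.form Col.R w w) / 2 := by linarith
  have f3 : |(d - P.form Col.O w w / 2) - κ| ≤ 2 * ε' := by
    rw [abs_le]
    constructor <;> linarith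
  refine ⟨q, P, w, hw, f1, f2, h1.trans (by linarith), f3.trans (by linarith), ?_⟩
  exact hu _ _ _ _ (by linarith) (by linarith) (by linarith) b1 b2 b3 (h1.trans (by linarith))
    (f3.trans (by linarith))

/-- `phi r κ ≤ G d + θ` for every natural poset: if `phi r κ ≤ θ` this is `G_nonneg`; otherwise `exists_pat` with
`g = θ`, `ε = θ` and `le_G`. -/
theorem phi_le_G {θ : ℝ} (hθ : 0 < θ) : ∃ η0 : ℝ, 0 < η0 ∧ ∃ n0 : ℕ, ∀ n ≥ n0,
    ∀ (η : ℝ) (c : Fin n × Fin n → Col) (S : Finset (Fin n × Fin n)), η ≤ η0 → IsPO S →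
    Nat' S → IsType η S c →
    phi ((cpairs c Col.R).card / (n : ℝ) ^ 2) ((S ∩ cpairs c Col.R).card / (n : ℝ) ^ 2) ≤
      G (S.card / (n : ℝ) ^ 2) + θ := by
  obtain ⟨η0, hη0, n0, h⟩ := exists_pat hθ hθ
  refine ⟨η0, hη0, n0, ?_⟩
  intro n hn η c S hη hPO hNat hty
  rcases le_or_gt (phi ((cpairs c Col.R).card / (n : ℝ) ^ 2)
    ((S ∩ cpairs c Col.R).card / (n : ℝ) ^ 2)) θ with h1 | h1
  · have := G_nonneg (S.card / (n : ℝ) ^ 2)
    linarith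
  · obtain ⟨q, P, w, hw, f1, f2, -, -, f3⟩ := h n hn η c S hη hPO hNat hty h1.le
    have f4 := le_G P hw f1 f2
    have f5 := (abs_le.1 f3).1
    linarith

/-- **Upper bound for all levels.** `union_bound` with `Q = True`; for one type and one `K` (if the family is nonempty, `phi_le_G` bounds
`phi r κ` for its members) `type_count` with `card_Fam` and `choose_le_exp_scaled`. -/
theorem cnt_le {θ : ℝ} (hθ : 0 < θ) : ∃ n0 : ℕ, ∀ n ≥ n0, ∀ k : ℕ,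
    (cnt n k : ℝ) ≤ exp ((G (k / (n : ℝ) ^ 2) + θ) * (n : ℝ) ^ 2) := by
  classical
  obtain ⟨η0, hη0, n0, h0⟩ := phi_le_G (show 0 < θ / 4 by positivity)
  obtain ⟨η1, hη1, h1⟩ := type_count (show 0 < θ / 4 by positivity)
  obtain ⟨n1, h2⟩ := union_bound (show 0 < θ / 4 by positivity) (lt_min hη0 hη1)
  refine ⟨max (max n0 n1) 1, fun n hn k => ?_⟩
  have hn0 : n0 ≤ n := ((le_max_left _ _).trans (le_max_left _ _)).trans hn
  have hn1 : n1 ≤ n := ((le_max_right _ _).trans (le_max_left _ _)).trans hn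
  have hn2 : 1 ≤ n := (le_max_right _ _).trans hn
  have key := h2 n hn1 k (fun _ => True) (exp ((G (k / (n : ℝ) ^ 2) + θ / 2) * (n : ℝ) ^ 2))
    (exp_pos _).le (fun _ _ _ _ => trivial) (by
      intro c K hc
      rcases Finset.eq_empty_or_nonempty ((univ : Finset (Finset (Fin n × Fin n))).filter
        fun S => IsPO S ∧ Nat' S ∧ IsType (min η0 η1) S c ∧ (S ∩ cpairs c Col.R).card = K ∧
          (S.card = k ∧ True)) with he | he
      · have : (((univ : Finset (Finset (Fin n × Fin n))).filter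
          fun S => IsPO S ∧ Nat' S ∧ IsType (min η0 η1) S c ∧ (S ∩ cpairs c Col.R).card = K ∧
          (S.card = k ∧ True)).card : ℝ) = 0 := by
          rw [he, card_empty, Nat.cast_zero]
        refine le_trans (le_of_eq ?_) (exp_pos _).le
        convert this
      · obtain ⟨S0, hS0⟩ := he
        obtain ⟨-, p1, p2, p3, p4, p5, -⟩ := mem_filter.1 hS0
        have g1 := h0 n hn0 _ c S0 (min_le_left _ _) p1 p2 p3
        rw [p4, p5] at g1
        have hK : K ≤ (cpairs c Col.R).card := by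
          rw [← p4]
          exact card_le_card inter_subset_right
        have g2 := h1 n (min η0 η1) (min_le_right _ _) c K (fun S => S.card = k ∧ True)
          (exp ((G (k / (n : ℝ) ^ 2) + θ / 4) * (n : ℝ) ^ 2)) (by
            intro W
            have g3 : ((Fam (cpairs c Col.R) W K).card : ℝ) ≤
                ((cpairs c Col.R).card.choose K : ℕ) := by exact_mod_cast card_Fam _ W K
            have g4 := choose_le_exp_scaled (n := n) hK (by omega)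
            have g5 : exp ((n : ℝ) ^ 2 * phi ((cpairs c Col.R).card / (n : ℝ) ^ 2)
                (K / (n : ℝ) ^ 2)) ≤ exp ((G (k / (n : ℝ) ^ 2) + θ / 4) * (n : ℝ) ^ 2) := by
              refine exp_le_exp.2 ?_
              rw [mul_comm]
              exact mul_le_mul_of_nonneg_right g1 (by positivity)
            refine le_trans ?_ ((g3.trans g4).trans g5)
            refine Nat.cast_le.2 (card_le_card fun S hS => ?_)
            simp only [mem_filter] at hS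
            exact hS.1)
        refine le_trans (le_of_eq ?_) (g2.trans (le_of_eq ?_))
        · congr 2
          ext S
          simp only [mem_filter]
        · rw [← exp_add]
          congr 1
          ring)
  have key2 : (cnt n k : ℝ) ≤ exp (θ / 4 * (n : ℝ) ^ 2) *
      exp ((G (k / (n : ℝ) ^ 2) + θ / 2) * (n : ℝ) ^ 2) := by
    unfold cnt
    refine le_trans (le_of_eq ?_) key
    congr 2
    ext S
    simp only [mem_filter, and_true]
  refine key2.trans ?_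
  rw [← exp_add]
  refine exp_le_exp.2 ?_
  have : 0 ≤ θ / 4 * (n : ℝ) ^ 2 := by positivity
  linarith

/-- For `k ≥ (3/16+δ) n²` all higher levels together: `G_anti` (`k' ≤ n(n-1)/2 < n²/2` if `cnt n k' ≠ 0`), at most `n²+1` levels. -/
theorem sum_cnt_le {δ θ : ℝ} (hδ : 0 < δ) (hθ : 0 < θ) : ∃ n0 : ℕ, ∀ n ≥ n0, ∀ k : ℕ,
    (3 / 16 + δ) * (n : ℝ) ^ 2 ≤ k →
    ((∑ k' ∈ Finset.Icc k (n * n), cnt n k' : ℕ) : ℝ) ≤
      exp ((G (k / (n : ℝ) ^ 2) + θ) * (n : ℝ) ^ 2) := by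
  obtain ⟨n0, h0⟩ := cnt_le (show 0 < θ / 2 by positivity)
  obtain ⟨n1, h1⟩ := poly_le_exp (show 0 < θ / 2 by positivity) 1
  refine ⟨max (max n0 n1) 1, fun n hn k hk => ?_⟩
  have hn0 : n0 ≤ n := ((le_max_left _ _).trans (le_max_left _ _)).trans hn
  have hn1 : n1 ≤ n := ((le_max_right _ _).trans (le_max_left _ _)).trans hn
  have hn2 : 1 ≤ n := (le_max_right _ _).trans hn
  have hnR : (0 : ℝ) < n := by exact_mod_cast hn2
  have hnn : (0 : ℝ) < (n : ℝ) ^ 2 := by positivity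
  have hterm : ∀ k' ∈ Finset.Icc k (n * n), (cnt n k' : ℝ) ≤
      exp ((G (k / (n : ℝ) ^ 2) + θ / 2) * (n : ℝ) ^ 2) := by
    intro k' hk'
    by_cases hz : cnt n k' = 0
    · rw [hz, Nat.cast_zero]
      exact (exp_pos _).le
    · refine (h0 n hn0 k').trans (exp_le_exp.2 (mul_le_mul_of_nonneg_right ?_ hnn.le))
      have hkk : (k : ℝ) ≤ k' := by exact_mod_cast (Finset.mem_Icc.1 hk').1
      have g1 : 3 / 16 < (k : ℝ) / (n : ℝ) ^ 2 := by
        rw [lt_div_iff₀ hnn]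
        nlinarith
      have g2 := G_anti g1 (div_le_div_of_nonneg_right hkk hnn.le) (deca_lt_half hn2 hz)
      linarith
  have hcard : ((Finset.Icc k (n * n)).card : ℝ) ≤ (n : ℝ) ^ 2 + 1 := by
    rw [Nat.card_Icc]
    have : n * n + 1 - k ≤ n * n + 1 := Nat.sub_le _ _
    have h3 : ((n * n + 1 - k : ℕ) : ℝ) ≤ ((n * n + 1 : ℕ) : ℝ) := by exact_mod_cast this
    push_cast at h3
    rw [pow_two]
    exact h3
  have h2 := h1 n hn1
  rw [pow_one] at h2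
  push_cast
  calc ∑ k' ∈ Finset.Icc k (n * n), (cnt n k' : ℝ)
      ≤ (Finset.Icc k (n * n)).card • exp ((G (k / (n : ℝ) ^ 2) + θ / 2) * (n : ℝ) ^ 2) :=
        sum_le_card_nsmul _ _ _ hterm
    _ = ((Finset.Icc k (n * n)).card : ℝ) * exp ((G (k / (n : ℝ) ^ 2) + θ / 2) * (n : ℝ) ^ 2) :=
        nsmul_eq_mul _ _
    _ ≤ exp (θ / 2 * (n : ℝ) ^ 2) * exp ((G (k / (n : ℝ) ^ 2) + θ / 2) * (n : ℝ) ^ 2) :=
        mul_le_mul_of_nonneg_right (hcard.trans h2) (exp_pos _).le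
    _ = exp ((G (k / (n : ℝ) ^ 2) + θ) * (n : ℝ) ^ 2) := by
        rw [← exp_add]
        congr 1
        ring

/-- Near-optimal types have `κ ≥ (1/2 + c1) r`. `near_opt δ` gives `c2`, `θ2`; `G d ≥ g0 = (δ/3) log 2` (`G_pos`); `θ1 = min (θ2/2) (g0/2)`,
`c1 = c2/2`. If `phi r κ ≥ G d - θ1 ≥ g0/2` then `r ≥ r0 = g0/(2 log 2)`; `exists_pat` with `g = g0/2` and `ε = min (θ2/2) (c2 r0/8)`
gives a pattern with value `≥ G d - θ2`, so `d - ω/2 ≥ (1/2+c2) ρ/2`, hence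
`κ ≥ (1/2+c2)(r - ε) - ε ≥ (1/2 + c2/2) r` (we may assume `c2 ≤ 1/2`). -/
theorem near_opt_type {δ : ℝ} (hδ : 0 < δ) : ∃ c1 θ1 η0 : ℝ, 0 < c1 ∧ 0 < θ1 ∧ 0 < η0 ∧
    ∃ n0 : ℕ, ∀ n ≥ n0,
    ∀ (η : ℝ) (c : Fin n × Fin n → Col) (S : Finset (Fin n × Fin n)), η ≤ η0 → IsPO S →
    Nat' S → IsType η S c → (3 / 16 + δ) * (n : ℝ) ^ 2 ≤ S.card →
    (S.card : ℝ) ≤ (1 / 2 - δ) * (n : ℝ) ^ 2 →
    G (S.card / (n : ℝ) ^ 2) - θ1 ≤
      phi ((cpairs c Col.R).card / (n : ℝ) ^ 2) ((S ∩ cpairs c Col.R).card / (n : ℝ) ^ 2) →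
    (1 / 2 + c1) * ((cpairs c Col.R).card / (n : ℝ) ^ 2) ≤
      (S ∩ cpairs c Col.R).card / (n : ℝ) ^ 2 := by
  obtain ⟨c2, θ2, hc2, hθ2, hno⟩ := near_opt hδ
  have hl0 : 0 < log 2 := log_pos (by norm_num)
  obtain ⟨g0, hg0⟩ : ∃ g0, g0 = δ / 3 * log 2 := ⟨_, rfl⟩
  have hg0p : 0 < g0 := by rw [hg0]; positivity
  obtain ⟨c3, hc3⟩ : ∃ c3, c3 = min c2 (1 / 2) := ⟨_, rfl⟩
  have hc3p : 0 < c3 := by rw [hc3]; exact lt_min hc2 (by norm_num)
  have hc32 : c3 ≤ c2 := by rw [hc3]; exact min_le_left _ _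
  have hc3h : c3 ≤ 1 / 2 := by rw [hc3]; exact min_le_right _ _
  obtain ⟨r0, hr0⟩ : ∃ r0, r0 = g0 / (2 * log 2) := ⟨_, rfl⟩
  have hr0p : 0 < r0 := by rw [hr0]; positivity
  obtain ⟨ε, hε⟩ : ∃ ε, ε = min (θ2 / 2) (c3 * r0 / 8) := ⟨_, rfl⟩
  have hεp : 0 < ε := by rw [hε]; exact lt_min (by positivity) (by positivity)
  have hε1 : ε ≤ θ2 / 2 := by rw [hε]; exact min_le_left _ _
  have hε2 : ε ≤ c3 * r0 / 8 := by rw [hε]; exact min_le_right _ _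
  obtain ⟨η0, hη0, n0, hpat⟩ := exists_pat (show 0 < g0 / 2 by positivity) hεp
  refine ⟨c3 / 2, min (θ2 / 2) (g0 / 2), η0, by positivity,
    lt_min (by positivity) (by positivity), hη0, max n0 1, ?_⟩
  intro n hn η c S hη hPO hNat hty hd1 hd2 hnear
  have hn0 : n0 ≤ n := (le_max_left _ _).trans hn
  have hn2 : 1 ≤ n := (le_max_right _ _).trans hn
  have hnR : (0 : ℝ) < n := by exact_mod_cast hn2
  have hnn : (0 : ℝ) < (n : ℝ) ^ 2 := by positivity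
  have hd1' : 3 / 16 + δ ≤ (S.card : ℝ) / (n : ℝ) ^ 2 := by
    rw [le_div_iff₀ hnn]
    exact hd1
  have hd2' : (S.card : ℝ) / (n : ℝ) ^ 2 ≤ 1 / 2 - δ := by
    rw [div_le_iff₀ hnn]
    exact hd2
  have hG := G_pos hδ (by linarith : (1 : ℝ) / 8 ≤ (S.card : ℝ) / (n : ℝ) ^ 2) hd2'
  rw [← hg0] at hG
  have t1 := min_le_left (θ2 / 2) (g0 / 2)
  have t2 := min_le_right (θ2 / 2) (g0 / 2)
  obtain ⟨b1, b2, b3⟩ := deca_basic hn2 c S
  obtain ⟨q, P, w, hw, f1, f2, f3, f4, f5⟩ := hpat n hn0 η c S hη hPO hNat hty (by linarith)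
  have g1 := hno q P w _ hw hd1' hd2' f1 f2 (by
    have := (abs_le.1 f5).1
    linarith)
  have g2 := phi_le b1 b2
  obtain ⟨κ, hκ⟩ : ∃ κ, κ = ((S ∩ cpairs c Col.R).card : ℝ) / (n : ℝ) ^ 2 := ⟨_, rfl⟩
  obtain ⟨r, hr⟩ : ∃ r, r = ((cpairs c Col.R).card : ℝ) / (n : ℝ) ^ 2 := ⟨_, rfl⟩
  obtain ⟨d, hd⟩ : ∃ d, d = (S.card : ℝ) / (n : ℝ) ^ 2 := ⟨_, rfl⟩
  rw [← hκ, ← hr, ← hd] at hnear
  rw [← hκ, ← hr] at g2 b2 ⊢
  rw [← hd] at hG g1 f4
  rw [← hκ] at f4 b1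
  rw [← hr] at f3
  have hr0r : r0 ≤ r := by
    rw [hr0, div_le_iff₀ (by positivity)]
    linarith
  obtain ⟨a1, a2⟩ := abs_le.1 f3
  obtain ⟨a3, a4⟩ := abs_le.1 f4
  have hρ0 : 0 ≤ P.form Col.R w w / 2 :=
    div_nonneg (P.form_nonneg _ hw.nonneg hw.nonneg) (by norm_num)
  have g3 : (1 / 2 + c3) * (P.form Col.R w w / 2) ≤ d - P.form Col.O w w / 2 :=
    (mul_le_mul_of_nonneg_right (by linarith) hρ0).trans g1
  have g4 : (1 / 2 + c3) * (r - ε) ≤ (1 / 2 + c3) * (P.form Col.R w w / 2) :=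
    mul_le_mul_of_nonneg_left (by linarith) (by positivity)
  have g5 : c3 * ε ≤ 1 / 2 * ε := mul_le_mul_of_nonneg_right hc3h hεp.le
  have g6 : c3 * r0 ≤ c3 * r := mul_le_mul_of_nonneg_left hr0r hc3p.le
  nlinarith

end Pool.Agent.H.MP_82502e_co
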