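import Pool.Agent.H.MP_82502e_co.DecA
import Pool.Agent.H.MP_82502e_co.DecB

set_option autoImplicit false

/-!
# The decreasing part: covers are many
-/

namespace Pool.Agent.H.MP_82502e_co

open Finset Real

open scoped Classical in
/-- Members of a family with many non-covers. -/
theorem decc_flip {n : ℕ} (hn : 0 < n) (R W : Finset (Fin n × Fin n)) {K : ℕ} {c' b θ A : ℝ}
    (hc' : 0 < c') (hK : K ≤ R.card)
    (h1 : c' ≤ (R.card : ℝ) / (n : ℝ) ^ 2 - K / (n : ℝ) ^ 2)
    (hR : (R.card : ℝ) / (n : ℝ) ^ 2 ≤ 1)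
    (hpoly : (n : ℝ) ^ 2 + 1 ≤ exp (θ * (n : ℝ) ^ 2))
    (hphi : phi (R.card / (n : ℝ) ^ 2) (K / (n : ℝ) ^ 2) ≤ A)
    (hg : b * (n : ℝ) ^ 2 ≤ K) :
    (((Fam R W K).filter fun S => b * (n : ℝ) ^ 2 ≤ (NC R S).card).card : ℝ) ≤
      exp ((A + θ - c' * b) * (n : ℝ) ^ 2) := by
  have hnR : (0 : ℝ) < n := by exact_mod_cast hn
  have hnn : (0 : ℝ) < (n : ℝ) ^ 2 := by positivity
  obtain ⟨g, hgdef⟩ : ∃ g : ℕ, g = ⌈b * (n : ℝ) ^ 2⌉₊ := ⟨_, rfl⟩
  have hgK : g ≤ K := by rw [hgdef]; exact Nat.ceil_le.2 hg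
  have hgb : b * (n : ℝ) ^ 2 ≤ g := by rw [hgdef]; exact Nat.le_ceil _
  have hRn : (R.card : ℝ) ≤ (n : ℝ) ^ 2 := by
    rw [div_le_one hnn] at hR
    exact hR
  have hκ0 : 0 ≤ (K : ℝ) / (n : ℝ) ^ 2 := by positivity
  have hRpos : (0 : ℝ) < R.card := by
    have h2 : 0 < (R.card : ℝ) / (n : ℝ) ^ 2 := by linarith
    by_contra hcon
    have h3 : (R.card : ℝ) / (n : ℝ) ^ 2 ≤ 0 := div_nonpos_of_nonpos_of_nonneg (not_lt.1 hcon) hnn.le
    linarith
  have hRpos' : 0 < R.card := by exact_mod_cast hRpos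
  have hq : (K : ℝ) / R.card ≤ 1 - c' := by
    rw [div_le_iff₀ hRpos]
    have h3 : c' * (n : ℝ) ^ 2 ≤ R.card - K := by
      have h4 : (R.card : ℝ) / (n : ℝ) ^ 2 - K / (n : ℝ) ^ 2 = (R.card - K) / (n : ℝ) ^ 2 := by ring
      rw [h4, le_div_iff₀ hnn] at h1
      exact h1
    have h5 : c' * (R.card : ℝ) ≤ c' * (n : ℝ) ^ 2 := mul_le_mul_of_nonneg_left hRn hc'.le
    linarith
  have hq0 : 0 ≤ (K : ℝ) / R.card := by positivity
  have hexp : (K : ℝ) / R.card ≤ exp (-c') := by
    have := add_one_le_exp (-c')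
    linarith
  have hpow : ((K : ℝ) / R.card) ^ g ≤ exp (-(c' * b) * (n : ℝ) ^ 2) := by
    calc ((K : ℝ) / R.card) ^ g ≤ (exp (-c')) ^ g := pow_le_pow_left₀ hq0 hexp g
      _ = exp (g * (-c')) := by rw [← exp_nat_mul]
      _ ≤ exp (-(c' * b) * (n : ℝ) ^ 2) := by
        refine exp_le_exp.2 ?_
        have := mul_le_mul_of_nonneg_left hgb hc'.le
        linarith
  have e1 : ((Fam R W K).filter fun S => b * (n : ℝ) ^ 2 ≤ (NC R S).card).card ≤
      ((Fam R W K).filter fun S => g ≤ (NC R S).card).card := by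
    refine card_le_card fun S hS => ?_
    rw [mem_filter] at hS ⊢
    refine ⟨hS.1, ?_⟩
    rw [hgdef]
    exact Nat.ceil_le.2 hS.2
  have e2 := e1.trans (flip_nc_ge R W K g)
  have e3 : (((Fam R W K).filter fun S => b * (n : ℝ) ^ 2 ≤ (NC R S).card).card : ℝ) ≤
      ((R.card : ℝ) + 1) * ((R.card - g).choose (K - g) : ℝ) := by exact_mod_cast e2
  refine e3.trans ?_
  have e4 := choose_sub_sub_le hRpos' hK hgK
  have e5 := choose_le_exp_scaled (n := n) hK hn
  have e6 : exp ((n : ℝ) ^ 2 * phi (R.card / (n : ℝ) ^ 2) (K / (n : ℝ) ^ 2)) ≤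
      exp (A * (n : ℝ) ^ 2) := by
    refine exp_le_exp.2 ?_
    rw [mul_comm]
    exact mul_le_mul_of_nonneg_right hphi hnn.le
  calc ((R.card : ℝ) + 1) * ((R.card - g).choose (K - g) : ℝ)
      ≤ exp (θ * (n : ℝ) ^ 2) * (exp (A * (n : ℝ) ^ 2) * exp (-(c' * b) * (n : ℝ) ^ 2)) := by
        refine mul_le_mul (by linarith) (e4.trans ?_) (Nat.cast_nonneg _) (exp_pos _).le
        exact mul_le_mul (e5.trans e6) hpow (pow_nonneg hq0 _) (exp_pos _).le
    _ = exp ((A + θ - c' * b) * (n : ℝ) ^ 2) := by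
        rw [← exp_add, ← exp_add]
        congr 1
        ring

open scoped Classical in
/-- **Covers are many.**

Proof. `c1`, `θ1` from `near_opt_type δ`. We may assume `β ≤ ..`. `g0 = (δ/3) log 2 ≤ G d`, `phi_interior (g0/2)` gives `c'`. Let
`θ = min(θ1, g0/2, β)/100` and also `θ ≤ c' β/100`, `η` small for `type_count θ`, `near_opt_type`, `phi_le_G θ`. The property `Q S`: `|Cov S| < ((1/2+c1) G d/log 2 - β) n²` is
invariant (`cov_relab`). For one closed `c` and one `K` (family nonempty), `r = |R|/n²`, `κ = K/n²`, `phi r κ ≤ G d + θ`: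
(i) `phi r κ < G d - 10θ`: at most `exp(θ n²) choose |R| K ≤ exp((G d - 9θ) n²)` members;
(ii) otherwise `κ ≥ (1/2+c1) r`, `κ n² = K`, `r - κ ≥ c'`, so `K/|R| ≤ 1 - c'`, and `(1/2+c1)(G d - 10θ)/log 2 ≤ (1/2+c1) r ≤ κ` (`phi_le`). So a bad `S` has
(`card_cov_ge`) `|NC| ≥ K - |Cov S| > (β - 20θ) n² ≥ (β/2) n²`. With `g = ⌈β n²/2⌉`: `flip_nc_ge`, `choose_sub_sub_le`:
`≤ exp(θ n²)(n²+1) choose |R| K (1-c')^g ≤ exp((G d + 3θ - c' β/2) n²)`.
So all families have at most `exp((G d - 9θ) n²)` members; `union_bound θ` and `G_lb δ θ`: the number of bad `S` is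
`≤ exp((G d - 8θ) n²) ≤ exp(-7θ n²) cnt n k ≤ β cnt n k`. -/
theorem cov_typ {δ : ℝ} (hδ : 0 < δ) : ∃ c1 : ℝ, 0 < c1 ∧ ∀ β : ℝ, 0 < β → ∃ n0 : ℕ, ∀ n ≥ n0,
    ∀ k : ℕ, (3 / 16 + δ) * (n : ℝ) ^ 2 ≤ k → (k : ℝ) ≤ (1 / 2 - δ) * (n : ℝ) ^ 2 →
    (((PO n k).filter fun S => ((Cov S).card : ℝ) <
      ((1 / 2 + c1) * G (k / (n : ℝ) ^ 2) / log 2 - β) * (n : ℝ) ^ 2).card : ℝ) ≤
      β * cnt n k := by
  have hl0 : 0 < log 2 := log_pos (by norm_num)
  have hl1 : (1 : ℝ) / 2 ≤ log 2 := by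
    have := Real.log_two_gt_d9
    linarith
  obtain ⟨c1, θ1, η1, hc1, hθ1, hη1, n1, h1⟩ := near_opt_type hδ
  obtain ⟨c3, hc3⟩ : ∃ c3, c3 = min c1 (1 / 2) := ⟨_, rfl⟩
  have hc3p : 0 < c3 := by rw [hc3]; exact lt_min hc1 (by norm_num)
  have hc31 : c3 ≤ c1 := by rw [hc3]; exact min_le_left _ _
  have hc3h : c3 ≤ 1 / 2 := by rw [hc3]; exact min_le_right _ _
  refine ⟨c3, hc3p, fun β hβ => ?_⟩
  obtain ⟨g0, hg0⟩ : ∃ g0, g0 = δ / 3 * log 2 := ⟨_, rfl⟩
  have hg0p : 0 < g0 := by rw [hg0]; positivity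
  obtain ⟨c', hc', hint⟩ := phi_interior (show 0 < g0 / 2 by positivity)
  obtain ⟨θ, hθdef⟩ : ∃ θ, θ = min (min θ1 (g0 / 2)) (min β (c' * β)) / 100 := ⟨_, rfl⟩
  have hm : 0 < min (min θ1 (g0 / 2)) (min β (c' * β)) :=
    lt_min (lt_min hθ1 (by positivity)) (lt_min hβ (by positivity))
  have hθ : 0 < θ := by rw [hθdef]; positivity
  have t1 : 100 * θ ≤ θ1 := by
    rw [hθdef]
    have := (min_le_left (min θ1 (g0 / 2)) (min β (c' * β))).trans (min_le_left _ _)
    linarith
  have t2 : 100 * θ ≤ g0 / 2 := by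
    rw [hθdef]
    have := (min_le_left (min θ1 (g0 / 2)) (min β (c' * β))).trans (min_le_right _ _)
    linarith
  have t3 : 100 * θ ≤ β := by
    rw [hθdef]
    have := (min_le_right (min θ1 (g0 / 2)) (min β (c' * β))).trans (min_le_left _ _)
    linarith
  have t4 : 100 * θ ≤ c' * β := by
    rw [hθdef]
    have := (min_le_right (min θ1 (g0 / 2)) (min β (c' * β))).trans (min_le_right _ _)
    linarith
  obtain ⟨η2, hη2, n2, h2⟩ := phi_le_G hθ
  obtain ⟨η3, hη3, h3⟩ := type_count hθ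
  obtain ⟨η, hηdef⟩ : ∃ η, η = min η1 (min η2 η3) := ⟨_, rfl⟩
  have hη : 0 < η := by rw [hηdef]; exact lt_min hη1 (lt_min hη2 hη3)
  have hηa : η ≤ η1 := by rw [hηdef]; exact min_le_left _ _
  have hηb : η ≤ η2 := by rw [hηdef]; exact (min_le_right _ _).trans (min_le_left _ _)
  have hηc : η ≤ η3 := by rw [hηdef]; exact (min_le_right _ _).trans (min_le_right _ _)
  obtain ⟨n4, h4⟩ := union_bound hθ hη
  obtain ⟨n5, h5⟩ := G_lb hδ hθ
  obtain ⟨n6, h6⟩ := poly_le_exp hθ 1
  obtain ⟨n7, h7⟩ := exists_nat_ge (1 / (7 * θ * β))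
  refine ⟨max (max (max n1 n2) (max n4 n5)) (max (max n6 n7) 1), fun n hn k hk1 hk2 => ?_⟩
  have hn1 : n1 ≤ n := by omega
  have hn2 : n2 ≤ n := by omega
  have hn4 : n4 ≤ n := by omega
  have hn5 : n5 ≤ n := by omega
  have hn6 : n6 ≤ n := by omega
  have hn7 : n7 ≤ n := by omega
  have hn0 : 1 ≤ n := by omega
  have hnR : (1 : ℝ) ≤ n := by exact_mod_cast hn0
  have hnn : (0 : ℝ) < (n : ℝ) ^ 2 := by positivity
  obtain ⟨d, hd⟩ : ∃ d, d = (k : ℝ) / (n : ℝ) ^ 2 := ⟨_, rfl⟩
  have hd1 : 3 / 16 + δ ≤ d := by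
    rw [hd, le_div_iff₀ hnn]
    exact hk1
  have hd2 : d ≤ 1 / 2 - δ := by
    rw [hd, div_le_iff₀ hnn]
    exact hk2
  have hG := G_pos hδ (by linarith : (1 : ℝ) / 8 ≤ d) hd2
  rw [← hg0] at hG
  have hpoly := h6 n hn6
  rw [pow_one] at hpoly
  rw [← hd]
  obtain ⟨T, hT⟩ : ∃ T, T = (1 / 2 + c3) * G d / log 2 - β := ⟨_, rfl⟩
  rw [← hT]
  have key := h4 n hn4 k (fun S => ((Cov S).card : ℝ) < T * (n : ℝ) ^ 2)
    (exp ((G d - 9 * θ) * (n : ℝ) ^ 2)) (exp_pos _).le (fun e S _ hQ => by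
      rw [cov_relab, card_relab]
      exact hQ) (by
      intro c K hc
      rcases Finset.eq_empty_or_nonempty ((univ : Finset (Finset (Fin n × Fin n))).filter
        fun S => IsPO S ∧ Nat' S ∧ IsType η S c ∧ (S ∩ cpairs c Col.R).card = K ∧
          (S.card = k ∧ ((Cov S).card : ℝ) < T * (n : ℝ) ^ 2)) with he | he
      · have : (((univ : Finset (Finset (Fin n × Fin n))).filter
          fun S => IsPO S ∧ Nat' S ∧ IsType η S c ∧ (S ∩ cpairs c Col.R).card = K ∧
          (S.card = k ∧ ((Cov S).card : ℝ) < T * (n : ℝ) ^ 2)).card : ℝ) = 0 := by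
          rw [he, card_empty, Nat.cast_zero]
        refine le_trans (le_of_eq ?_) (exp_pos _).le
        convert this
      · obtain ⟨S0, hS0⟩ := he
        obtain ⟨-, p1, p2, p3, p4, p5, p6⟩ := mem_filter.1 hS0
        have g1 := h2 n hn2 _ c S0 hηb p1 p2 p3
        obtain ⟨b1, b2, b3⟩ := deca_basic hn0 c S0
        rw [p4] at b1 b2
        rw [p4, p5, ← hd] at g1
        have hK : K ≤ (cpairs c Col.R).card := by
          rw [← p4]
          exact card_le_card inter_subset_right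
        have g2 := h3 n η hηc c K (fun S => S.card = k ∧ ((Cov S).card : ℝ) < T * (n : ℝ) ^ 2)
          (exp ((G d - 10 * θ) * (n : ℝ) ^ 2)) (by
            intro W
            rcases lt_or_ge (phi ((cpairs c Col.R).card / (n : ℝ) ^ 2) (K / (n : ℝ) ^ 2))
              (G d - 10 * θ) with hlt | hge
            · have g3 : ((Fam (cpairs c Col.R) W K).card : ℝ) ≤
                  ((cpairs c Col.R).card.choose K : ℕ) := by exact_mod_cast card_Fam _ W K
              have g4 := choose_le_exp_scaled (n := n) hK (by omega)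
              have g5 : exp ((n : ℝ) ^ 2 * phi ((cpairs c Col.R).card / (n : ℝ) ^ 2)
                  (K / (n : ℝ) ^ 2)) ≤ exp ((G d - 10 * θ) * (n : ℝ) ^ 2) := by
                refine exp_le_exp.2 ?_
                rw [mul_comm]
                exact mul_le_mul_of_nonneg_right hlt.le (by positivity)
              refine le_trans ?_ ((g3.trans g4).trans g5)
              refine Nat.cast_le.2 (card_le_card fun S hS => ?_)
              simp only [mem_filter] at hS
              exact hS.1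
            · have q1 := h1 n hn1 η c S0 hηa p1 p2 p3 (by rw [p5]; exact hk1)
                (by rw [p5]; exact hk2) (by rw [p4, p5, ← hd]; linarith)
              rw [p4] at q1
              obtain ⟨-, q2⟩ := hint _ _ b1 b2 b3 (by linarith)
              have q3 := phi_le b1 b2
              have hrn : 0 ≤ ((cpairs c Col.R).card : ℝ) / (n : ℝ) ^ 2 := by positivity
              have q4 : (1 / 2 + c3) * (((cpairs c Col.R).card : ℝ) / (n : ℝ) ^ 2) ≤
                  K / (n : ℝ) ^ 2 :=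
                (mul_le_mul_of_nonneg_right (by linarith) hrn).trans q1
              have q5 : T + β / 2 ≤ K / (n : ℝ) ^ 2 := by
                refine le_trans ?_ q4
                have q6 : (G d - 10 * θ) / log 2 ≤ ((cpairs c Col.R).card : ℝ) / (n : ℝ) ^ 2 := by
                  rw [div_le_iff₀ hl0]
                  linarith
                have q7 := mul_le_mul_of_nonneg_left q6 (by linarith : (0 : ℝ) ≤ 1 / 2 + c3)
                refine le_trans ?_ q7
                have q8 : (1 / 2 + c3) * ((G d - 10 * θ) / log 2) =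
                    (1 / 2 + c3) * G d / log 2 - (1 / 2 + c3) * (10 * θ / log 2) := by ring
                rw [q8, hT]
                have q9 : 10 * θ / log 2 ≤ 20 * θ := by
                  rw [div_le_iff₀ hl0]
                  nlinarith
                have q10 : 0 ≤ 10 * θ / log 2 := by positivity
                have q11 : (1 / 2 + c3) * (10 * θ / log 2) ≤ 1 * (10 * θ / log 2) :=
                  mul_le_mul_of_nonneg_right (by linarith) q10
                linarith
              have q12 : ∀ S : Finset (Fin n × Fin n), (S ∩ cpairs c Col.R).card = K →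
                  ((Cov S).card : ℝ) < T * (n : ℝ) ^ 2 →
                  β / 2 * (n : ℝ) ^ 2 ≤ (NC (cpairs c Col.R) S).card := by
                intro S hSK hSc
                have r1 := card_cov_ge (cpairs c Col.R) S
                rw [hSK] at r1
                have r2 : (K : ℝ) ≤ (Cov S).card + (NC (cpairs c Col.R) S).card := by
                  exact_mod_cast r1
                have r3 : (T + β / 2) * (n : ℝ) ^ 2 ≤ K := by
                  rw [le_div_iff₀ hnn] at q5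
                  exact q5
                linarith
              have q13 : β / 2 * (n : ℝ) ^ 2 ≤ K := by
                refine (q12 S0 p4 p6).trans ?_
                rw [← p4]
                exact_mod_cast card_le_card (NC_subset' _ _)
              have q14 := decc_flip (b := β / 2) (θ := θ) (A := G d + θ) (by omega) (cpairs c Col.R) W hc'
                hK q2 b3 hpoly g1 q13
              refine le_trans ?_ (q14.trans (exp_le_exp.2 (mul_le_mul_of_nonneg_right ?_ hnn.le)))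
              · refine Nat.cast_le.2 (card_le_card fun S hS => ?_)
                simp only [mem_filter] at hS ⊢
                exact ⟨hS.1, q12 S (mem_Fam.1 hS.1).2.2.2 hS.2.2⟩
              · linarith)
        refine le_trans (le_of_eq ?_) (g2.trans (le_of_eq ?_))
        · congr 2
          ext S
          simp only [mem_filter]
        · rw [← exp_add]
          congr 1
          ring)
  have k5 := h5 n hn5 k hk2
  rw [← hd] at k5
  have k7 : (1 : ℝ) ≤ β * exp (7 * θ * (n : ℝ) ^ 2) := by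
    have m1 : 1 / (7 * θ * β) ≤ n := h7.trans (by exact_mod_cast hn7)
    rw [div_le_iff₀ (by positivity)] at m1
    have m2 := add_one_le_exp (7 * θ * (n : ℝ) ^ 2)
    have m3 : (n : ℝ) * (7 * θ * β) ≤ β * (7 * θ * (n : ℝ) ^ 2) := by
      have m4 : (n : ℝ) ≤ (n : ℝ) ^ 2 := by nlinarith
      have m5 : (0 : ℝ) ≤ 7 * θ * β := by positivity
      have := mul_le_mul_of_nonneg_right m4 m5
      linarith
    have m6 : β * (7 * θ * (n : ℝ) ^ 2) ≤ β * exp (7 * θ * (n : ℝ) ^ 2) :=
      mul_le_mul_of_nonneg_left (by linarith) hβ.le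
    linarith
  calc (((PO n k).filter fun S => ((Cov S).card : ℝ) < T * (n : ℝ) ^ 2).card : ℝ)
      ≤ exp (θ * (n : ℝ) ^ 2) * exp ((G d - 9 * θ) * (n : ℝ) ^ 2) := by
        refine le_trans (le_of_eq ?_) key
        congr 2
    _ = 1 * exp ((G d - 8 * θ) * (n : ℝ) ^ 2) := by
        rw [← exp_add, one_mul]
        congr 1
        ring
    _ ≤ (β * exp (7 * θ * (n : ℝ) ^ 2)) * exp ((G d - 8 * θ) * (n : ℝ) ^ 2) :=
        mul_le_mul_of_nonneg_right k7 (exp_pos _).le
    _ = β * exp ((G d - θ) * (n : ℝ) ^ 2) := by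
        rw [mul_assoc, ← exp_add]
        congr 2
        ring
    _ ≤ β * cnt n k := mul_le_mul_of_nonneg_left k5 hβ.le

end Pool.Agent.H.MP_82502e_co
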