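import Mathlib

set_option autoImplicit false

/-!
# Labelled posets counted by comparabilities: basic definitions
A strict partial order on `Fin n` is given by its set of pairs `S`.
-/

namespace Pool.Agent.H.MP_82502e_co

open Finset

open scoped Classical in
/-- The set of pairs `S` is an irreflexive transitive relation. -/
def IsPO {n : ℕ} (S : Finset (Fin n × Fin n)) : Prop :=
  (∀ i, (i, i) ∉ S) ∧ ∀ i j l, (i, j) ∈ S → (j, l) ∈ S → (i, l) ∈ S

open scoped Classical in
/-- The strict partial orders on `Fin n` with exactly `k` pairs. -/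
noncomputable def PO (n k : ℕ) : Finset (Finset (Fin n × Fin n)) :=
  univ.filter fun S => IsPO S ∧ S.card = k

/-- The number of labelled posets on `n` points with `k` comparable pairs. -/
noncomputable def cnt (n k : ℕ) : ℕ := (PO n k).card

/-- The elements below `x`. -/
def Dn {n : ℕ} (S : Finset (Fin n × Fin n)) (x : Fin n) : Finset (Fin n) :=
  univ.filter fun z => (z, x) ∈ S

/-- The elements above `x`. -/
def Up {n : ℕ} (S : Finset (Fin n × Fin n)) (x : Fin n) : Finset (Fin n) :=
  univ.filter fun z => (x, z) ∈ S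

/-- The addable ordered pairs: `S ∪ {p}` is again a strict partial order. -/
def Add {n : ℕ} (S : Finset (Fin n × Fin n)) : Finset (Fin n × Fin n) :=
  univ.filter fun p => p.1 ≠ p.2 ∧ p ∉ S ∧ (p.2, p.1) ∉ S ∧
    Dn S p.1 ⊆ Dn S p.2 ∧ Up S p.2 ⊆ Up S p.1

/-- The cover relations: `S \ {p}` is again a strict partial order. -/
def Cov {n : ℕ} (S : Finset (Fin n × Fin n)) : Finset (Fin n × Fin n) :=
  S.filter fun p => ∀ z, ¬ ((p.1, z) ∈ S ∧ (z, p.2) ∈ S)

/-- A naturally labelled poset: all relations go up in the labelling. -/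
def Nat' {n : ℕ} (S : Finset (Fin n × Fin n)) : Prop := ∀ p ∈ S, p.1 < p.2

/-- The image of a set of pairs under a permutation. -/
def relab {n : ℕ} (e : Equiv.Perm (Fin n)) (S : Finset (Fin n × Fin n)) :
    Finset (Fin n × Fin n) :=
  S.map (e.prodCongr e).toEmbedding

end Pool.Agent.H.MP_82502e_co
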