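import Mathlib

set_option autoImplicit false

/-!
# The encoding lemma
A family of subsets of a finite set of positions is revealed position by position; the status of a
position is determined by what is revealed before.
-/

namespace Pool.Agent.H.MP_82502e_co

open Finset

section

variable {α ι : Type*} [Fintype α] [DecidableEq α] [Fintype ι] [DecidableEq ι]

/-- The number of earlier positions with the same status. -/
def encIdx (r : α → ℕ) (s : α → Option ι) (e : α) : ℕ :=
  (univ.filter fun e2 => r e2 < r e ∧ s e2 = s e).card

/-- The word of class `c`. -/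
def encWord (r : α → ℕ) (s : α → Option ι) (P : Finset α) (c : ι) : Finset ℕ :=
  (P.filter fun e => s e = some c).image (encIdx r s)

omit [DecidableEq α] [Fintype ι] in
theorem encIdx_lt {r : α → ℕ} {s : α → Option ι} {e : α} {c : ι} {N : ℕ}
    (he : s e = some c) (hN : (univ.filter fun e => s e = some c).card ≤ N) :
    encIdx r s e < N := by
  refine lt_of_lt_of_le (card_lt_card ?_) hN
  rw [ssubset_iff_of_subset]
  · exact ⟨e, by simp [he], by simp⟩
  · intro x hx
    simp only [mem_filter, mem_univ, true_and] at hx ⊢
    rw [hx.2, he]

omit [Fintype ι] in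
theorem encIdx_inj {r : α → ℕ} (hr : Function.Injective r) {s : α → Option ι} {e e' : α}
    (h : s e = s e') (hi : encIdx r s e = encIdx r s e') : e = e' := by
  by_contra hne
  have hne' : r e ≠ r e' := fun h => hne (hr h)
  rcases lt_or_gt_of_ne hne' with hlt | hlt
  · have : encIdx r s e < encIdx r s e' := by
      refine card_lt_card ?_
      rw [ssubset_iff_of_subset]
      · exact ⟨e, by simp [hlt, h], by simp⟩
      · intro x hx
        simp only [mem_filter, mem_univ, true_and] at hx ⊢
        exact ⟨hx.1.trans hlt, hx.2.trans h⟩
    omega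
  · have : encIdx r s e' < encIdx r s e := by
      refine card_lt_card ?_
      rw [ssubset_iff_of_subset]
      · exact ⟨e', by simp [hlt, h], by simp⟩
      · intro x hx
        simp only [mem_filter, mem_univ, true_and] at hx ⊢
        exact ⟨hx.1.trans hlt, hx.2.trans h.symm⟩
    omega

/-- Encoding lemma for an injective time. -/
theorem enc_inj (r : α → ℕ) (hr : Function.Injective r) (F : Finset (Finset α))
    (st : Finset α → α → Option ι) (N K : ι → ℕ)
    (hloc : ∀ P ∈ F, ∀ Q ∈ F, ∀ e, (∀ e2, r e2 < r e → (e2 ∈ P ↔ e2 ∈ Q)) →
      st P e = st Q e ∧ (st P e = none → (e ∈ P ↔ e ∈ Q)))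
    (hN : ∀ P ∈ F, ∀ c, (univ.filter fun e => st P e = some c).card ≤ N c)
    (hK : ∀ P ∈ F, ∀ c, (P.filter fun e => st P e = some c).card = K c) :
    F.card ≤ ∏ c, (N c).choose (K c) := by
  have hprod : ∏ c, (N c).choose (K c) =
      (Fintype.piFinset fun c => powersetCard (K c) (range (N c))).card := by
    rw [Fintype.card_piFinset]
    exact prod_congr rfl fun c _ => by rw [card_powersetCard, card_range]
  rw [hprod]
  refine card_le_card_of_injOn (fun P c => encWord r (st P) P c) ?_ ?_
  · intro P hP
    have hP' : P ∈ F := hP
    rw [mem_coe, Fintype.mem_piFinset]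
    intro c
    rw [mem_powersetCard]
    refine ⟨?_, ?_⟩
    · intro i hi
      unfold encWord at hi
      rw [mem_image] at hi
      obtain ⟨e, he, rfl⟩ := hi
      rw [mem_filter] at he
      rw [mem_range]
      exact encIdx_lt he.2 (hN P hP' c)
    · unfold encWord
      rw [card_image_of_injOn, hK P hP' c]
      intro e he e' he' h
      rw [mem_coe, mem_filter] at he he'
      exact encIdx_inj hr (he.2.trans he'.2.symm) h
  · intro P hP Q hQ hPQ
    have hP' : P ∈ F := hP
    have hQ' : Q ∈ F := hQ
    have key : ∀ m : ℕ, ∀ e, r e < m → (e ∈ P ↔ e ∈ Q) := by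
      intro m
      induction m with
      | zero => intro e he; omega
      | succ m ih =>
        intro e he
        have hag : ∀ e2, r e2 < r e → (e2 ∈ P ↔ e2 ∈ Q) := fun e2 h2 => ih e2 (by omega)
        obtain ⟨h1, h2⟩ := hloc P hP' Q hQ' e hag
        rcases hs : st P e with _ | c
        · exact h2 hs
        · have hsQ : st Q e = some c := by rw [← h1, hs]
          have hst : ∀ e2, r e2 < r e → st P e2 = st Q e2 := fun e2 h2 =>
            (hloc P hP' Q hQ' e2 fun e3 h3 => hag e3 (h3.trans h2)).1
          have hidx : encIdx r (st P) e = encIdx r (st Q) e := by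
            unfold encIdx
            congr 1
            ext x
            simp only [mem_filter, mem_univ, true_and]
            constructor
            · rintro ⟨ha, hb⟩
              exact ⟨ha, by rw [← hst x ha, hb, h1]⟩
            · rintro ⟨ha, hb⟩
              exact ⟨ha, by rw [hst x ha, hb, h1]⟩
          have hw : encWord r (st P) P c = encWord r (st Q) Q c := congrFun hPQ c
          constructor
          · intro heP
            have hmem : encIdx r (st P) e ∈ encWord r (st P) P c := by
              rw [encWord, mem_image]
              exact ⟨e, by rw [mem_filter]; exact ⟨heP, hs⟩, rfl⟩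
            rw [hw, hidx, encWord, mem_image] at hmem
            obtain ⟨e', he', hi⟩ := hmem
            rw [mem_filter] at he'
            have : e' = e := encIdx_inj hr (he'.2.trans hsQ.symm) hi
            rw [← this]
            exact he'.1
          · intro heQ
            have hmem : encIdx r (st Q) e ∈ encWord r (st Q) Q c := by
              rw [encWord, mem_image]
              exact ⟨e, by rw [mem_filter]; exact ⟨heQ, hsQ⟩, rfl⟩
            rw [← hw, ← hidx, encWord, mem_image] at hmem
            obtain ⟨e', he', hi⟩ := hmem
            rw [mem_filter] at he'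
            have : e' = e := encIdx_inj hr (he'.2.trans hs.symm) hi
            rw [← this]
            exact he'.1
    ext e
    exact key (r e + 1) e (Nat.lt_succ_self _)

/-- Encoding lemma. -/
theorem enc (t : α → ℕ) (F : Finset (Finset α))
    (st : Finset α → α → Option ι) (N K : ι → ℕ)
    (hloc : ∀ P ∈ F, ∀ Q ∈ F, ∀ e, (∀ e2, t e2 < t e → (e2 ∈ P ↔ e2 ∈ Q)) →
      st P e = st Q e ∧ (st P e = none → (e ∈ P ↔ e ∈ Q)))
    (hN : ∀ P ∈ F, ∀ c, (univ.filter fun e => st P e = some c).card ≤ N c)
    (hK : ∀ P ∈ F, ∀ c, (P.filter fun e => st P e = some c).card = K c) :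
    F.card ≤ ∏ c, (N c).choose (K c) := by
  set q : α → ℕ := fun e => (Fintype.equivFin α e : ℕ) with hq
  have hq1 : ∀ e, q e < Fintype.card α := fun e => (Fintype.equivFin α e).2
  refine enc_inj (fun e => t e * Fintype.card α + q e) ?_ F st N K ?_ hN hK
  · intro e e' h
    simp only at h
    have h1 := hq1 e
    have h2 := hq1 e'
    have ht : t e = t e' := by
      rcases lt_trichotomy (t e) (t e') with h3 | h3 | h3
      · exfalso
        have : (t e + 1) * Fintype.card α ≤ t e' * Fintype.card α := Nat.mul_le_mul_right _ h3
        rw [Nat.add_mul] at this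
        omega
      · exact h3
      · exfalso
        have : (t e' + 1) * Fintype.card α ≤ t e * Fintype.card α := Nat.mul_le_mul_right _ h3
        rw [Nat.add_mul] at this
        omega
    rw [ht] at h
    have : q e = q e' := by omega
    exact (Fintype.equivFin α).injective (Fin.ext this)
  · intro P hP Q hQ e hag
    refine hloc P hP Q hQ e fun e2 h2 => hag e2 ?_
    have h3 := hq1 e2
    have : (t e2 + 1) * Fintype.card α ≤ t e * Fintype.card α := Nat.mul_le_mul_right _ h2
    rw [Nat.add_mul] at this
    omega

end

end Pool.Agent.H.MP_82502e_co
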