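import Pool.Agent.H.MP_82502e_co.Defs
import Pool.Agent.H.MP_82502e_co.SpEnc

set_option autoImplicit false

/-!
# The encoding lemma
A family of sets is revealed position by position. Each position is, depending only on the part
revealed before, either forced (class `none`, its membership is determined by the earlier part) or
has a class `some c`. Counting the words of answers in each class bounds the family.
-/

namespace Pool.Agent.H.MP_82502e_co

open Finset

/-- **Encoding lemma.** `τ` is the (injective) time of a position, `F` the family, `cls P e` the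
class of position `e` for the member `P`.

Proof. For `P ∈ F`, a position `e` with `cls P e = some c` gets the rank
`rk P e = #{e' | τ e' < τ e ∧ cls P e' = cls P e}`. For fixed `P` and `c` the rank is injective on the
positions of class `c` (if `τ e < τ e'` then `rk P e < rk P e'`) with values `< N c` (there are at
most `N c` positions of class `c`, and `e` itself is not counted in its rank). Let
`word P c = image (rk P) {e ∈ P | cls P e = some c} ⊆ range (N c)`, of cardinality `K c`. So
`word P` lies in `Fintype.piFinset (fun c => powersetCard (K c) (range (N c)))`, which has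
cardinality `∏ c, (N c).choose (K c)` (`Fintype.card_piFinset`, `card_powersetCard`). It remains to
see that `word` is injective on `F`: let `word P = word Q`; by strong induction on `τ e` we show
`e ∈ P ↔ e ∈ Q`. By the induction hypothesis `P` and `Q` agree at all earlier times, so by `hpast`
`cls P e = cls Q e`; if this is `none` we are done by `hpast`. If it is `some c`, then
`rk P e = rk Q e` (for every earlier `e'` the parts of `P`, `Q` before `e'` agree, so
`cls P e' = cls Q e'`), and `e ∈ P` iff `rk P e ∈ word P c` (injectivity of the rank on class `c`)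
iff `rk Q e ∈ word Q c` iff `e ∈ Q`. -/
theorem encode {Ω C : Type*} [Fintype Ω] [DecidableEq Ω] [Fintype C] [DecidableEq C]
    (τ : Ω → ℕ) (hτ : Function.Injective τ) (F : Finset (Finset Ω))
    (cls : Finset Ω → Ω → Option C)
    (hpast : ∀ P ∈ F, ∀ Q ∈ F, ∀ e, (∀ e', τ e' < τ e → (e' ∈ P ↔ e' ∈ Q)) →
      cls P e = cls Q e ∧ (cls P e = none → (e ∈ P ↔ e ∈ Q)))
    (N K : C → ℕ)
    (hN : ∀ P ∈ F, ∀ c, (univ.filter fun e => cls P e = some c).card ≤ N c)
    (hK : ∀ P ∈ F, ∀ c, (P.filter fun e => cls P e = some c).card = K c) :
    F.card ≤ ∏ c, (N c).choose (K c) := by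
  exact enc τ F cls N K hpast hN hK

/-- One class, with a time which need not be injective. -/
theorem encode_free {Ω : Type*} [Fintype Ω] [DecidableEq Ω]
    (τ : Ω → ℕ) (F : Finset (Finset Ω))
    (free : Finset Ω → Ω → Prop) [∀ P, DecidablePred (free P)]
    (hpast : ∀ P ∈ F, ∀ Q ∈ F, ∀ e, (∀ e', τ e' < τ e → (e' ∈ P ↔ e' ∈ Q)) →
      (free P e ↔ free Q e) ∧ (¬ free P e → (e ∈ P ↔ e ∈ Q)))
    (N K : ℕ)
    (hN : ∀ P ∈ F, (univ.filter fun e => free P e).card ≤ N)
    (hK : ∀ P ∈ F, (P.filter fun e => free P e).card = K) :
    F.card ≤ N.choose K := by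
  have hcls : ∀ (P : Finset Ω) (e : Ω) (c : Unit),
      (if free P e then some () else none : Option Unit) = some c ↔ free P e := by
    intro P e c
    by_cases h : free P e
    · rw [if_pos h]
      exact ⟨fun _ => h, fun _ => rfl⟩
    · rw [if_neg h]
      exact ⟨fun h' => absurd h' (by simp), fun h' => absurd h' h⟩
  have h := enc τ F (fun P e => if free P e then some () else none) (fun _ : Unit => N)
    (fun _ => K) ?_ ?_ ?_
  · simpa using h
  · intro P hP Q hQ e hag
    obtain ⟨h1, h2⟩ := hpast P hP Q hQ e hag
    refine ⟨?_, ?_⟩
    · by_cases hf : free P e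
      · simp only [if_pos hf, if_pos (h1.1 hf)]
      · simp only [if_neg hf, if_neg (fun h3 => hf (h1.2 h3))]
    · intro hn
      refine h2 fun hf => ?_
      simp only [if_pos hf] at hn
      exact absurd hn (by simp)
  · intro P hP c
    simp only [hcls]
    exact hN P hP
  · intro P hP c
    simp only [hcls]
    exact hK P hP

/-- The special case of one class: every position is forced or free; at most `N` free positions,
exactly `K` of them in the set. (Take `C = Unit`.) -/
theorem encode_one {Ω : Type*} [Fintype Ω] [DecidableEq Ω]
    (τ : Ω → ℕ) (hτ : Function.Injective τ) (F : Finset (Finset Ω))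
    (free : Finset Ω → Ω → Prop) [∀ P, DecidablePred (free P)]
    (hpast : ∀ P ∈ F, ∀ Q ∈ F, ∀ e, (∀ e', τ e' < τ e → (e' ∈ P ↔ e' ∈ Q)) →
      (free P e ↔ free Q e) ∧ (¬ free P e → (e ∈ P ↔ e ∈ Q)))
    (N K : ℕ)
    (hN : ∀ P ∈ F, (univ.filter fun e => free P e).card ≤ N)
    (hK : ∀ P ∈ F, (P.filter fun e => free P e).card = K) :
    F.card ≤ N.choose K := by
  exact encode_free τ F free hpast N K hN hK

end Pool.Agent.H.MP_82502e_co
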