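import Pool.Agent.H.MP_82502e_co.Ident

set_option autoImplicit false

/-!
# The two ends of the sequence, for every `n`
-/

namespace Pool.Agent.H.MP_82502e_co

open Finset

variable {n : ℕ}

/-- The minimal elements. -/
def MinE (S : Finset (Fin n × Fin n)) : Finset (Fin n) := univ \ S.image Prod.snd

/-- The maximal elements. -/
def MaxE (S : Finset (Fin n × Fin n)) : Finset (Fin n) := univ \ S.image Prod.fst

theorem card_MinE (S : Finset (Fin n × Fin n)) : n - S.card ≤ (MinE S).card := by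
  unfold MinE
  have h1 := le_card_sdiff (S.image Prod.snd) (univ : Finset (Fin n))
  have h2 : (S.image Prod.snd).card ≤ S.card := card_image_le
  rw [card_univ, Fintype.card_fin] at h1
  omega

theorem card_MaxE (S : Finset (Fin n × Fin n)) : n - S.card ≤ (MaxE S).card := by
  unfold MaxE
  have h1 := le_card_sdiff (S.image Prod.fst) (univ : Finset (Fin n))
  have h2 : (S.image Prod.fst).card ≤ S.card := card_image_le
  rw [card_univ, Fintype.card_fin] at h1
  omega

theorem card_Add_ge (S : Finset (Fin n × Fin n)) :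
    (MinE S).card * (MaxE S).card - ((MinE S).card + S.card) ≤ (Add S).card := by
  have h1 : (MinE S ×ˢ MaxE S) \ ((MinE S).image (fun x => (x, x)) ∪ S) ⊆ Add S := by
    intro p hp
    rw [mem_sdiff, mem_product, mem_union, not_or] at hp
    obtain ⟨⟨hx, hy⟩, hd, hS⟩ := hp
    have hx' : ∀ z, (z, p.1) ∉ S := fun z hz => by
      unfold MinE at hx
      rw [mem_sdiff] at hx
      exact hx.2 (mem_image.2 ⟨(z, p.1), hz, rfl⟩)
    have hy' : ∀ z, (p.2, z) ∉ S := fun z hz => by
      unfold MaxE at hy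
      rw [mem_sdiff] at hy
      exact hy.2 (mem_image.2 ⟨(p.2, z), hz, rfl⟩)
    refine mem_Add.2 ⟨fun hc => hd (mem_image.2 ⟨p.1, hx, ?_⟩), hS, hx' p.2,
      fun z hz => absurd hz (hx' z), fun z hz => absurd hz (hy' z)⟩
    exact Prod.ext rfl hc
  have h2 := le_card_sdiff ((MinE S).image (fun x => (x, x)) ∪ S) (MinE S ×ˢ MaxE S)
  have h3 : ((MinE S).image (fun x => (x, x)) ∪ S).card ≤ (MinE S).card + S.card :=
    (card_union_le _ _).trans (Nat.add_le_add_right card_image_le _)
  rw [card_product] at h2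
  have h4 := card_le_card h1
  omega

/-- Strict increase at the start. -/
theorem cnt_lt_succ {n k : ℕ} (h0 : k ≤ n) (h : 2 * (n + 1) ≤ (n - k) * (n - k + 1)) :
    cnt n k < cnt n (k + 1) := by
  refine lt_of_sum_add ?_
  obtain ⟨m, rfl⟩ : ∃ m, n = k + m := ⟨n - k, by omega⟩
  rw [Nat.add_sub_cancel_left] at h
  have hm : 2 ≤ m := by
    by_contra hc
    rcases (by omega : m = 0 ∨ m = 1) with h' | h'
    · subst h'; omega
    · subst h'; omega
  obtain ⟨m', rfl⟩ : ∃ m', m = m' + 1 := ⟨m - 1, by omega⟩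
  have hmm : 2 * k + 2 ≤ (m' + 1) * m' := by nlinarith
  have hk : k ≤ (k + (m' + 1)) * (k + (m' + 1) - 1) / 2 := by
    have h1 : (m' + 1) * m' ≤ (k + (m' + 1)) * (k + (m' + 1) - 1) :=
      Nat.mul_le_mul (by omega) (by omega)
    omega
  have hpos := cnt_pos hk
  have h1 : ∀ S ∈ PO (k + (m' + 1)) k, k + 2 ≤ (Add S).card := by
    intro S hS
    have hc := (mem_PO.1 hS).2
    have ha := card_MinE S
    have hb := card_MaxE S
    have hA := card_Add_ge S
    rw [hc] at ha hb hA
    obtain ⟨a, haa⟩ : ∃ a, a = (MinE S).card := ⟨_, rfl⟩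
    obtain ⟨b, hbb⟩ : ∃ b, b = (MaxE S).card := ⟨_, rfl⟩
    rw [← haa] at ha hA
    rw [← hbb] at hb hA
    obtain ⟨b', rfl⟩ : ∃ b', b = b' + 1 := ⟨b - 1, by omega⟩
    have h5 : (m' + 1) * m' ≤ a * b' := Nat.mul_le_mul (by omega) (by omega)
    have h6 : a * (b' + 1) = a * b' + a := by ring
    omega
  have h2 : (k + 2) * cnt (k + (m' + 1)) k ≤ ∑ S ∈ PO (k + (m' + 1)) k, (Add S).card := by
    have h3 := card_nsmul_le_sum (PO (k + (m' + 1)) k) (fun S => (Add S).card) (k + 2) h1
    rw [smul_eq_mul] at h3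
    unfold cnt
    rw [mul_comm]
    exact h3
  nlinarith

theorem disj_swap {S : Finset (Fin n × Fin n)} (h : IsPO S) :
    Disjoint S (S.image Prod.swap) := by
  rw [disjoint_left]
  rintro ⟨x, y⟩ hp hq
  obtain ⟨⟨u, v⟩, hr, he⟩ := mem_image.1 hq
  have h1 : v = x := congrArg Prod.fst he
  have h2 : u = y := congrArg Prod.snd he
  subst h1
  subst h2
  exact h.1 _ (h.2 _ _ _ hp hr)

theorem card_swap (S : Finset (Fin n × Fin n)) : (S.image Prod.swap).card = S.card :=
  card_image_of_injective _ Prod.swap_injective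

/-- The pairs of `S`, their swaps and a set of ordered incomparable pairs are disjoint sets of
ordered pairs of distinct elements. -/
theorem card_inc_le {S W : Finset (Fin n × Fin n)} (h : IsPO S)
    (hW : ∀ p ∈ W, p.1 ≠ p.2 ∧ p ∉ S ∧ (p.2, p.1) ∉ S) :
    W.card + 2 * S.card ≤ n * (n - 1) := by
  have h1 : Disjoint W (S ∪ S.image Prod.swap) := by
    rw [disjoint_left]
    rintro ⟨x, y⟩ hp hq
    obtain ⟨h1, h2, h3⟩ := hW _ hp
    rcases mem_union.1 hq with hq | hq
    · exact h2 hq
    · obtain ⟨⟨u, v⟩, hr, he⟩ := mem_image.1 hq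
      have e1 : v = x := congrArg Prod.fst he
      have e2 : u = y := congrArg Prod.snd he
      subst e1
      subst e2
      exact h3 hr
  have h2 : W ∪ (S ∪ S.image Prod.swap) ⊆ (univ : Finset (Fin n)).offDiag := by
    rintro ⟨x, y⟩ hp
    rw [mem_offDiag]
    refine ⟨mem_univ _, mem_univ _, fun hc => ?_⟩
    have hc' : x = y := hc
    subst hc'
    rcases mem_union.1 hp with hp | hp
    · exact (hW _ hp).1 rfl
    · rcases mem_union.1 hp with hp | hp
      · exact h.1 _ hp
      · obtain ⟨⟨u, v⟩, hr, he⟩ := mem_image.1 hp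
        have h1 : v = x := congrArg Prod.fst he
        have h2 : u = x := congrArg Prod.snd he
        subst h1
        subst h2
        exact h.1 _ hr
  have h3 := card_le_card h2
  rw [card_union_of_disjoint h1, card_union_of_disjoint (disj_swap h), card_swap, offDiag_card,
    card_univ, Fintype.card_fin] at h3
  have h5 : n * n - n = n * (n - 1) := by
    rw [Nat.mul_sub, mul_one]
  omega

/-- The Hasse diagram as a graph. -/
def HG (T : Finset (Fin n × Fin n)) : SimpleGraph (Fin n) :=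
  SimpleGraph.fromRel fun x y => (x, y) ∈ Cov T

theorem reach_aux {T : Finset (Fin n × Fin n)} (h : IsPO T) : ∀ m : ℕ, ∀ x y : Fin n,
    (x, y) ∈ T → (univ.filter fun z => (x, z) ∈ T ∧ (z, y) ∈ T).card < m →
    (HG T).Reachable x y := by
  intro m
  induction m with
  | zero => exact fun x y _ hc => absurd hc (Nat.not_lt_zero _)
  | succ m ih =>
    intro x y hxy hc
    by_cases hcov : (x, y) ∈ Cov T
    · refine SimpleGraph.Adj.reachable ?_
      unfold HG
      rw [SimpleGraph.fromRel_adj]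
      refine ⟨fun he => ?_, Or.inl hcov⟩
      subst he
      exact h.1 _ hxy
    · rw [mem_Cov] at hcov
      push Not at hcov
      obtain ⟨z, hz⟩ := hcov hxy
      have hz1 : (x, z) ∈ T := hz.1
      have hz2 : (z, y) ∈ T := hz.2
      have hmem : z ∈ univ.filter fun z => (x, z) ∈ T ∧ (z, y) ∈ T :=
        mem_filter.2 ⟨mem_univ _, hz1, hz2⟩
      have ha : (univ.filter fun w => (x, w) ∈ T ∧ (w, z) ∈ T).card <
          (univ.filter fun z => (x, z) ∈ T ∧ (z, y) ∈ T).card := by
        refine card_lt_card ?_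
        rw [ssubset_iff_of_subset fun w hw => ?_]
        · refine ⟨z, hmem, fun hc => ?_⟩
          exact h.1 z (mem_filter.1 hc).2.2
        · have hw' := (mem_filter.1 hw).2
          exact mem_filter.2 ⟨mem_univ _, hw'.1, h.2 _ _ _ hw'.2 hz2⟩
      have hb : (univ.filter fun w => (z, w) ∈ T ∧ (w, y) ∈ T).card <
          (univ.filter fun z => (x, z) ∈ T ∧ (z, y) ∈ T).card := by
        refine card_lt_card ?_
        rw [ssubset_iff_of_subset fun w hw => ?_]
        · refine ⟨z, hmem, fun hc => ?_⟩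
          exact h.1 z (mem_filter.1 hc).2.1
        · have hw' := (mem_filter.1 hw).2
          exact mem_filter.2 ⟨mem_univ _, h.2 _ _ _ hz1 hw'.1, hw'.2⟩
      exact (ih x z hz1 (by omega)).trans (ih z y hz2 (by omega))

theorem reach_of_mem {T : Finset (Fin n × Fin n)} (h : IsPO T) {x y : Fin n} (hxy : (x, y) ∈ T) :
    (HG T).Reachable x y := reach_aux h _ x y hxy (Nat.lt_succ_self _)

/-- With fewer than `n - 1` incomparable pairs the Hasse diagram is connected. -/
theorem connected_HG {T : Finset (Fin n × Fin n)} (h : IsPO T) {j : ℕ} (hn : j + 1 < n)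
    (hT : n * (n - 1) ≤ 2 * T.card + 2 * j) : (HG T).Connected := by
  classical
  rw [SimpleGraph.connected_iff]
  refine ⟨fun u v => ?_, ⟨⟨0, by omega⟩⟩⟩
  by_contra hc
  obtain ⟨C, hC⟩ : ∃ C : Finset (Fin n), C = univ.filter fun w => (HG T).Reachable u w := ⟨_, rfl⟩
  have hu : u ∈ C := by
    rw [hC, mem_filter]
    exact ⟨mem_univ _, SimpleGraph.Reachable.refl u⟩
  have hv : v ∈ Cᶜ := by
    rw [mem_compl, hC, mem_filter]
    exact fun h => hc h.2
  have hno : ∀ x ∈ C, ∀ y ∈ Cᶜ, (x, y) ∉ T ∧ (y, x) ∉ T := by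
    intro x hx y hy
    rw [hC, mem_filter] at hx
    rw [mem_compl, hC, mem_filter] at hy
    constructor
    · exact fun hxy => hy ⟨mem_univ _, hx.2.trans (reach_of_mem h hxy)⟩
    · exact fun hxy => hy ⟨mem_univ _, hx.2.trans (reach_of_mem h hxy).symm⟩
  have hdis : Disjoint (C ×ˢ Cᶜ) (Cᶜ ×ˢ C) := by
    rw [disjoint_left]
    intro p hp hq
    rw [mem_product] at hp hq
    exact (mem_compl.1 hq.1) hp.1
  have h1 := card_inc_le (W := C ×ˢ Cᶜ ∪ Cᶜ ×ˢ C) h (fun p hp => ?_)
  · rw [card_union_of_disjoint hdis, card_product, card_product, card_compl,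
      Fintype.card_fin] at h1
    have h2 : 0 < C.card := card_pos.2 ⟨u, hu⟩
    have h3 : 0 < Cᶜ.card := card_pos.2 ⟨v, hv⟩
    rw [card_compl, Fintype.card_fin] at h3
    obtain ⟨c, hc1⟩ : ∃ c, C.card = c + 1 := ⟨C.card - 1, by omega⟩
    obtain ⟨d, hd1⟩ : ∃ d, n - C.card = d + 1 := ⟨n - C.card - 1, by omega⟩
    rw [hd1, hc1] at h1
    have h4 : n = c + d + 2 := by omega
    have h5 : (c + 1) * (d + 1) = c * d + c + d + 1 := by ring
    have h6 : (d + 1) * (c + 1) = c * d + c + d + 1 := by ring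
    rw [h5, h6] at h1
    omega
  · rcases mem_union.1 hp with hp | hp
    · rw [mem_product] at hp
      refine ⟨fun he => ?_, (hno _ hp.1 _ hp.2).1, (hno _ hp.1 _ hp.2).2⟩
      rw [he] at hp
      exact (mem_compl.1 hp.2) hp.1
    · rw [mem_product] at hp
      refine ⟨fun he => ?_, (hno _ hp.2 _ hp.1).2, (hno _ hp.2 _ hp.1).1⟩
      rw [he] at hp
      exact (mem_compl.1 hp.1) hp.2

theorem card_cov_ge_of_conn {T : Finset (Fin n × Fin n)} (h : (HG T).Connected) :
    n ≤ (Cov T).card + 1 := by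
  classical
  have h1 := h.card_vert_le_card_edgeSet_add_one
  rw [Nat.card_eq_fintype_card, Fintype.card_fin] at h1
  have h2 : (HG T).edgeSet ⊆
      (((Cov T).image fun p : Fin n × Fin n => s(p.1, p.2) : Finset (Sym2 (Fin n))) :
        Set (Sym2 (Fin n))) := by
    intro e he
    induction e using Sym2.ind with
    | _ x y =>
      rw [SimpleGraph.mem_edgeSet] at he
      unfold HG at he
      rw [SimpleGraph.fromRel_adj] at he
      rw [mem_coe, mem_image]
      rcases he.2 with h3 | h3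
      · exact ⟨(x, y), h3, rfl⟩
      · exact ⟨(y, x), h3, Sym2.eq_swap⟩
  have h3 : Nat.card (HG T).edgeSet ≤ (Cov T).card := by
    rw [Nat.card_coe_set_eq]
    refine (Set.ncard_le_ncard h2 (finite_toSet _)).trans ?_
    rw [Set.ncard_coe_finset]
    exact card_image_le
  omega

/-- Strict decrease at the end. -/
theorem cnt_succ_lt {n j : ℕ} (h : 2 * j + 4 ≤ n) :
    cnt n (n * (n - 1) / 2 - j) < cnt n (n * (n - 1) / 2 - j - 1) := by
  obtain ⟨N, hN⟩ : ∃ N, N = n * (n - 1) / 2 := ⟨_, rfl⟩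
  have hev : n * (n - 1) = 2 * N := by
    have h1 : 2 ∣ n * (n - 1) := by
      rcases Nat.even_mul_pred_self n with ⟨r, hr⟩
      exact ⟨r, by omega⟩
    omega
  have hbig : j + 1 ≤ N := by
    have h1 : n * 1 ≤ n * (n - 1) := Nat.mul_le_mul_left _ (by omega)
    omega
  obtain ⟨k, hk⟩ : ∃ k, N = k + 1 + j := ⟨N - (j + 1), by omega⟩
  rw [← hN]
  have e1 : N - j = k + 1 := by omega
  rw [e1, Nat.add_sub_cancel]
  have hpos : 0 < cnt n (k + 1) := cnt_pos (by omega)
  have h1 : ∑ S ∈ PO n k, (Add S).card ≤ (2 * j + 2) * cnt n k := by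
    have h2 := sum_le_card_nsmul (PO n k) (fun S => (Add S).card) (2 * j + 2) fun S hS => ?_
    · rw [smul_eq_mul] at h2
      unfold cnt
      rw [mul_comm]
      exact h2
    · have h3 := mem_PO.1 hS
      have h4 := card_inc_le (W := Add S) h3.1 fun p hp => by
        obtain ⟨ha, hb, hc, -, -⟩ := mem_Add.1 hp
        exact ⟨ha, hb, hc⟩
      rw [h3.2] at h4
      show (Add S).card ≤ 2 * j + 2
      omega
  have h2 : (2 * j + 3) * cnt n (k + 1) ≤ ∑ T ∈ PO n (k + 1), (Cov T).card := by
    have h3 := card_nsmul_le_sum (PO n (k + 1)) (fun T => (Cov T).card) (2 * j + 3) fun T hT => ?_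
    · rw [smul_eq_mul] at h3
      unfold cnt
      rw [mul_comm]
      exact h3
    · have h4 := mem_PO.1 hT
      have h5 := card_cov_ge_of_conn (connected_HG h4.1 (j := j) (by omega) (by omega))
      show 2 * j + 3 ≤ (Cov T).card
      omega
  rw [sum_card_add] at h1
  by_contra hc
  rw [not_lt] at hc
  have h3 : (2 * j + 2) * cnt n k ≤ (2 * j + 2) * cnt n (k + 1) := Nat.mul_le_mul_left _ hc
  have h4 : (2 * j + 3) * cnt n (k + 1) = (2 * j + 2) * cnt n (k + 1) + cnt n (k + 1) := by ring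
  omega

end Pool.Agent.H.MP_82502e_co
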