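import Pool.Agent.H.MP_82502e_co.EndA

set_option autoImplicit false

namespace Pool.Agent.H.MP_82502e_co

namespace EndB

/-- The count of the frozen statement is `cnt`: `r ↦ {p | r p.1 p.2}` is a bijection. -/
theorem count_eq (n k : ℕ) :
    ((Finset.univ : Finset (Fin n → Fin n → Bool)).filter
      (fun r => (∀ i : Fin n, r i i = false) ∧
        (∀ i j l : Fin n, r i j = true → r j l = true → r i l = true) ∧
        ((Finset.univ : Finset (Fin n × Fin n)).filter
          (fun p => r p.1 p.2 = true)).card = k)).card = cnt n k := by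
  classical
  unfold cnt PO
  refine Finset.card_bij'
    (fun r _ => (Finset.univ : Finset (Fin n × Fin n)).filter (fun p => r p.1 p.2 = true))
    (fun S _ => fun i j => decide ((i, j) ∈ S)) ?_ ?_ ?_ ?_
  · intro r hr
    rw [Finset.mem_filter] at hr ⊢
    obtain ⟨-, h1, h2, h3⟩ := hr
    refine ⟨Finset.mem_univ _, ⟨fun i => ?_, fun i j l hij hjl => ?_⟩, h3⟩
    · simp [h1 i]
    · rw [Finset.mem_filter] at hij hjl ⊢
      exact ⟨Finset.mem_univ _, h2 i j l hij.2 hjl.2⟩
  · intro S hS
    rw [Finset.mem_filter] at hS ⊢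
    obtain ⟨-, ⟨h1, h2⟩, h3⟩ := hS
    refine ⟨Finset.mem_univ _, fun i => ?_, fun i j l hij hjl => ?_, ?_⟩
    · simp [h1 i]
    · simp only [decide_eq_true_eq] at hij hjl ⊢
      exact h2 i j l hij hjl
    · rw [← h3]
      congr 1
      ext p
      simp
  · intro r hr
    funext i j
    simp
  · intro S hS
    ext p
    simp

end EndB

end Pool.Agent.H.MP_82502e_co
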