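import Pool.Agent.H.MP_82502e_co.EndA

set_option autoImplicit false

/-!
# A lower bound for the number of addable pairs, up to about `2 n` comparabilities
-/

namespace Pool.Agent.H.MP_82502e_co

open Finset

variable {n : ℕ}

theorem mem_MinE {S : Finset (Fin n × Fin n)} {x : Fin n} : x ∈ MinE S ↔ ∀ z, (z, x) ∉ S := by
  unfold MinE
  rw [mem_sdiff, and_iff_right (mem_univ _), mem_image]
  constructor
  · exact fun h z hz => h ⟨(z, x), hz, rfl⟩
  · rintro h ⟨⟨z, w⟩, hz, he⟩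
    have he' : w = x := he
    subst he'
    exact h z hz

theorem mem_MaxE {S : Finset (Fin n × Fin n)} {x : Fin n} : x ∈ MaxE S ↔ ∀ z, (x, z) ∉ S := by
  unfold MaxE
  rw [mem_sdiff, and_iff_right (mem_univ _), mem_image]
  constructor
  · exact fun h z hz => h ⟨(x, z), hz, rfl⟩
  · rintro h ⟨⟨w, z⟩, hz, he⟩
    have he' : w = x := he
    subst he'
    exact h z hz

theorem exists_low {S : Finset (Fin n × Fin n)} (h : IsPO S) (T : Finset (Fin n)) {z : Fin n}
    (hz : z ∈ T) : ∃ x ∈ T, (x = z ∨ (x, z) ∈ S) ∧ ∀ y ∈ T, (y, x) ∉ S := by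
  obtain ⟨x, hx, hmin⟩ := exists_min_image (T.filter fun x => x = z ∨ (x, z) ∈ S)
    (fun x => (Dn S x).card) ⟨z, mem_filter.2 ⟨hz, Or.inl rfl⟩⟩
  obtain ⟨hxT, hxz⟩ := mem_filter.1 hx
  refine ⟨x, hxT, hxz, fun y hy hyx => ?_⟩
  have h1 := hmin y (mem_filter.2 ⟨hy, Or.inr ?_⟩)
  · have h2 : Dn S y ⊂ Dn S x := by
      rw [ssubset_iff_of_subset fun v hv => mem_Dn.2 (h.2 v y x (mem_Dn.1 hv) hyx)]
      exact ⟨y, mem_Dn.2 hyx, fun hc => h.1 y (mem_Dn.1 hc)⟩
    exact absurd (card_lt_card h2) (not_lt.2 h1)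
  · rcases hxz with hxz | hxz
    · rw [← hxz]
      exact hyx
    · exact h.2 _ _ _ hyx hxz

theorem exists_high {S : Finset (Fin n × Fin n)} (h : IsPO S) (z : Fin n) :
    ∃ x, (x = z ∨ (z, x) ∈ S) ∧ ∀ y, (x, y) ∉ S := by
  obtain ⟨x, hx, hmin⟩ := exists_min_image (univ.filter fun x => x = z ∨ (z, x) ∈ S)
    (fun x => (Up S x).card) ⟨z, mem_filter.2 ⟨mem_univ _, Or.inl rfl⟩⟩
  obtain ⟨-, hxz⟩ := mem_filter.1 hx
  refine ⟨x, hxz, fun y hyx => ?_⟩
  have h1 := hmin y (mem_filter.2 ⟨mem_univ _, Or.inr ?_⟩)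
  · have h2 : Up S y ⊂ Up S x := by
      rw [ssubset_iff_of_subset fun v hv => mem_Up.2 (h.2 x y v hyx (mem_Up.1 hv))]
      exact ⟨y, mem_Up.2 hyx, fun hc => h.1 y (mem_Up.1 hc)⟩
    exact absurd (card_lt_card h2) (not_lt.2 h1)
  · rcases hxz with hxz | hxz
    · rw [← hxz]
      exact hyx
    · exact h.2 _ _ _ hxz hyx

/-- Pairs in the same class, Cauchy–Schwarz. -/
theorem pairs_ge {W A : Finset (Fin n)} (c : Fin n → Fin n) (hc : ∀ z ∈ W, c z ∈ A) :
    W.card * W.card ≤ A.card *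
      (((W ×ˢ W).filter fun p => p.1 ≠ p.2 ∧ c p.1 = c p.2).card + W.card) := by
  have h1 : W.card = ∑ a ∈ A, (W.filter fun z => c z = a).card :=
    card_eq_sum_card_fiberwise fun z hz => hc z hz
  have h2 : ∑ a ∈ A, (W.filter fun z => c z = a).card ^ 2 ≤
      ((W ×ˢ W).filter fun p => c p.1 = c p.2).card := by
    rw [card_eq_sum_card_fiberwise (f := fun p : Fin n × Fin n => c p.1) (t := A)
      (s := (W ×ˢ W).filter fun p => c p.1 = c p.2)
      (fun p hp => hc _ (mem_product.1 (mem_filter.1 (mem_coe.1 hp)).1).1)]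
    refine sum_le_sum fun a _ => ?_
    rw [sq, ← card_product]
    refine card_le_card fun p hp => ?_
    rw [mem_product, mem_filter, mem_filter] at hp
    rw [mem_filter, mem_filter, mem_product]
    exact ⟨⟨⟨hp.1.1, hp.2.1⟩, hp.1.2.trans hp.2.2.symm⟩, hp.1.2⟩
  have h3 : ((W ×ˢ W).filter fun p => c p.1 = c p.2).card ≤
      ((W ×ˢ W).filter fun p => p.1 ≠ p.2 ∧ c p.1 = c p.2).card + W.card := by
    refine (card_le_card (t := ((W ×ˢ W).filter fun p => p.1 ≠ p.2 ∧ c p.1 = c p.2) ∪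
      W.image fun z => (z, z)) fun p hp => ?_).trans
      ((card_union_le _ _).trans (Nat.add_le_add_left card_image_le _))
    rw [mem_filter] at hp
    by_cases he : p.1 = p.2
    · refine mem_union_right _ (mem_image.2 ⟨p.1, (mem_product.1 hp.1).1, ?_⟩)
      exact Prod.ext rfl he
    · exact mem_union_left _ (mem_filter.2 ⟨hp.1, he, hp.2⟩)
  have h4 := sq_sum_le_card_mul_sum_sq (s := A) (f := fun a => (W.filter fun z => c z = a).card)
  have h5 : (∑ a ∈ A, (W.filter fun z => c z = a).card) ^ 2 = W.card * W.card := by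
    rw [← h1, sq]
  calc W.card * W.card = (∑ a ∈ A, (W.filter fun z => c z = a).card) ^ 2 := h5.symm
    _ ≤ A.card * ∑ a ∈ A, (W.filter fun z => c z = a).card ^ 2 := h4
    _ ≤ _ := Nat.mul_le_mul_left _ (h2.trans h3)

/-- The lower bound for the addable pairs. -/
theorem card_Add_ge2 {S : Finset (Fin n × Fin n)} (h : IsPO S) {w : ℕ} (hw1 : 1 ≤ w)
    (hw : w + S.card + 2 * (MinE S).card = 2 * n) :
    w * w + (MinE S).card * (MinE S).card * w ≤
      (MinE S).card * (Add S).card + 2 * (MinE S).card * w := by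
  classical
  obtain ⟨A, hA⟩ : ∃ A, A = MinE S := ⟨_, rfl⟩
  obtain ⟨Q, hQ⟩ : ∃ Q : Finset (Fin n), Q = Aᶜ := ⟨_, rfl⟩
  have memA : ∀ x, x ∈ A ↔ ∀ z, (z, x) ∉ S := fun x => by rw [hA, mem_MinE]
  have memQ : ∀ x, x ∈ Q ↔ x ∉ A := fun x => by rw [hQ, mem_compl]
  have upQ : ∀ x y, (x, y) ∈ S → y ∈ Q := fun x y hxy => by
    rw [memQ, memA]
    exact fun hc => hc x hxy
  have hq : ∀ q ∈ Q, ∃ m ∈ A, (m, q) ∈ S := by
    intro q hq
    obtain ⟨x, -, hx1, hx2⟩ := exists_low h univ (mem_univ q)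
    have hxA : x ∈ A := (memA x).2 fun z => hx2 z (mem_univ z)
    rcases hx1 with hx1 | hx1
    · rw [hx1] at hxA
      exact absurd hxA ((memQ q).1 hq)
    · exact ⟨x, hxA, hx1⟩
  choose! m hmA hmS using hq
  have hg : ∀ z ∈ Q, ∃ x ∈ Q, (x = z ∨ (x, z) ∈ S) ∧ ∀ y ∈ Q, (y, x) ∉ S :=
    fun z hz => exists_low h Q hz
  choose! g hgQ hgz hgmin using hg
  have hf : ∀ z : Fin n, ∃ x, (x = z ∨ (z, x) ∈ S) ∧ ∀ y, (x, y) ∉ S := fun z => exists_high h z
  choose f hf1 hf2 using hf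
  have hfmax : ∀ z, (∀ y, (z, y) ∉ S) → f z = z := by
    intro z hz
    rcases hf1 z with h1 | h1
    · exact h1
    · exact absurd h1 (hz _)
  obtain ⟨V, hV⟩ : ∃ V : Finset (Fin n), V = Q.filter fun z => (∀ y, (z, y) ∉ S) ∧
    ∀ x ∈ Q, (∀ y ∈ Q, (y, x) ∉ S) → (x, z) ∈ S → f x = z := ⟨_, rfl⟩
  have hVQ : V ⊆ Q := by
    rw [hV]
    exact filter_subset _ _
  have hVmax : ∀ z ∈ V, ∀ y, (z, y) ∉ S := fun z hz => by
    rw [hV, mem_filter] at hz
    exact hz.2.1
  have hfg : ∀ z ∈ V, f (g z) = z := by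
    intro z hz
    have hzQ := hVQ hz
    have hz' := hz
    rw [hV, mem_filter] at hz'
    rcases hgz z hzQ with h1 | h1
    · rw [h1]
      exact hfmax z hz'.2.1
    · exact hz'.2.2 _ (hgQ z hzQ) (hgmin z hzQ) h1
  obtain ⟨W, hW⟩ : ∃ W : Finset (Fin n), W = V.filter fun z =>
    ∀ m' ∈ A, (m', g z) ∈ S → m' = m (g z) := ⟨_, rfl⟩
  have hWV : W ⊆ V := by
    rw [hW]
    exact filter_subset _ _
  have hWQ : W ⊆ Q := hWV.trans hVQ
  -- relations inside `Q`
  have L1 : (Q \ V).card ≤ (S.filter fun p => ¬ p.1 ∈ A).card := by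
    have hy : ∀ z, z ∈ Q → (∀ y, (z, y) ∉ S) → z ∉ V →
        ∃ x ∈ Q, (x, z) ∈ S ∧ f x ≠ z := by
      intro z hz hmax hzV
      by_contra hc
      apply hzV
      rw [hV, mem_filter]
      refine ⟨hz, hmax, fun x hx _ hxz => ?_⟩
      by_contra hne
      exact hc ⟨x, hx, hxz, hne⟩
    choose! y hyQ hyS hyf using hy
    obtain ⟨F, hF⟩ : ∃ F : Fin n → Fin n × Fin n, F = fun q =>
      if ∀ y, (q, y) ∉ S then (y q, q) else (q, f q) := ⟨_, rfl⟩
    have hF1 : ∀ q, (∀ y, (q, y) ∉ S) → F q = (y q, q) := fun q hq => by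
      rw [hF]
      exact if_pos hq
    have hF2 : ∀ q, (¬ ∀ y, (q, y) ∉ S) → F q = (q, f q) := fun q hq => by
      rw [hF]
      exact if_neg hq
    refine card_le_card_of_injOn F ?_ ?_
    · intro q hq
      rw [mem_coe, mem_sdiff] at hq
      rw [mem_coe, mem_filter]
      by_cases hm : ∀ y, (q, y) ∉ S
      · rw [hF1 q hm]
        exact ⟨hyS q hq.1 hm hq.2, (memQ _).1 (hyQ q hq.1 hm hq.2)⟩
      · rw [hF2 q hm]
        refine ⟨?_, (memQ _).1 hq.1⟩
        rcases hf1 q with h1 | h1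
        · exact absurd (fun y => h1 ▸ hf2 q y) hm
        · exact h1
    · intro q hq q' hq' he
      rw [mem_coe, mem_sdiff] at hq hq'
      by_cases hm : ∀ y, (q, y) ∉ S
      · by_cases hm' : ∀ y, (q', y) ∉ S
        · rw [hF1 q hm, hF1 q' hm'] at he
          exact (Prod.mk.inj he).2
        · rw [hF1 q hm, hF2 q' hm'] at he
          obtain ⟨e1, e2⟩ := Prod.mk.inj he
          exact absurd (by rw [e1, ← e2]) (hyf q hq.1 hm hq.2)
      · by_cases hm' : ∀ y, (q', y) ∉ S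
        · rw [hF2 q hm, hF1 q' hm'] at he
          obtain ⟨e1, e2⟩ := Prod.mk.inj he
          exact absurd (by rw [← e1, e2]) (hyf q' hq'.1 hm' hq'.2)
        · rw [hF2 q hm, hF2 q' hm'] at he
          exact (Prod.mk.inj he).1
  -- relations between the minimal elements and `Q`
  obtain ⟨dA, hdA⟩ : ∃ dA : Fin n → ℕ, dA = fun q => (A.filter fun a => (a, q) ∈ S).card := ⟨_, rfl⟩
  have hd1 : ∀ q ∈ Q, 1 ≤ dA q := by
    intro q hq
    rw [hdA]
    exact card_pos.2 ⟨m q, mem_filter.2 ⟨hmA q hq, hmS q hq⟩⟩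
  have L2 : ∑ q ∈ Q, dA q ≤ (S.filter fun p => p.1 ∈ A).card := by
    rw [card_eq_sum_card_fiberwise (f := Prod.snd) (t := Q) (s := S.filter fun p => p.1 ∈ A)
      (fun p hp => upQ p.1 p.2 (mem_filter.1 (mem_coe.1 hp)).1)]
    refine sum_le_sum fun q _ => ?_
    rw [hdA]
    refine card_le_card_of_injOn (fun a => (a, q)) ?_ ?_
    · intro a ha
      rw [mem_coe, mem_filter] at ha
      rw [mem_coe, mem_filter, mem_filter]
      exact ⟨⟨ha.2, ha.1⟩, rfl⟩
    · intro a _ b _ hab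
      exact congrArg Prod.fst hab
  have hginj : ∀ z ∈ V, ∀ z' ∈ V, g z = g z' → z = z' := by
    intro z hz z' hz' he
    rw [← hfg z hz, ← hfg z' hz', he]
  have L3 : (V \ W).card + ∑ q ∈ W, (dA q - 1) ≤ ∑ q ∈ Q, (dA q - 1) := by
    have hdis : Disjoint ((V \ W).image g) W := by
      rw [disjoint_left]
      intro q hq hqW
      obtain ⟨z, hz, rfl⟩ := mem_image.1 hq
      rw [mem_sdiff] at hz
      have h1 : f (g z) = g z := hfmax _ (hVmax _ (hWV hqW))
      have h2 := hfg z hz.1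
      rw [h1] at h2
      rw [h2] at hqW
      exact hz.2 hqW
    have hsub : (V \ W).image g ∪ W ⊆ Q := by
      refine union_subset (fun q hq => ?_) hWQ
      obtain ⟨z, hz, rfl⟩ := mem_image.1 hq
      exact hgQ z (hVQ (mem_sdiff.1 hz).1)
    have h1 : ∑ q ∈ (V \ W).image g ∪ W, (dA q - 1) ≤ ∑ q ∈ Q, (dA q - 1) :=
      sum_le_sum_of_subset hsub
    rw [sum_union hdis] at h1
    have h2 : (V \ W).card ≤ ∑ q ∈ (V \ W).image g, (dA q - 1) := by
      have h3 : ((V \ W).image g).card = (V \ W).card := by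
        refine card_image_of_injOn fun z hz z' hz' he => ?_
        rw [mem_coe, mem_sdiff] at hz hz'
        exact hginj z hz.1 z' hz'.1 he
      rw [← h3, card_eq_sum_ones]
      refine sum_le_sum fun q hq => ?_
      obtain ⟨z, hz, rfl⟩ := mem_image.1 hq
      rw [mem_sdiff] at hz
      have h4 : ∃ m' ∈ A, (m', g z) ∈ S ∧ m' ≠ m (g z) := by
        by_contra hc
        apply hz.2
        rw [hW, mem_filter]
        refine ⟨hz.1, fun m' hm' hS => ?_⟩
        by_contra hne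
        exact hc ⟨m', hm', hS, hne⟩
      obtain ⟨m', hm', hS', hne⟩ := h4
      have h5 : 1 < dA (g z) := by
        rw [hdA]
        refine one_lt_card.2 ⟨m', mem_filter.2 ⟨hm', hS'⟩, m (g z), mem_filter.2 ⟨?_, ?_⟩, hne⟩
        · exact hmA _ (hgQ z (hVQ hz.1))
        · exact hmS _ (hgQ z (hVQ hz.1))
      omega
    omega
  have L3' : ∑ q ∈ Q, dA q = ∑ q ∈ Q, (dA q - 1) + Q.card := by
    rw [card_eq_sum_ones, ← sum_add_distrib]
    exact sum_congr rfl fun q hq => (Nat.sub_add_cancel (hd1 q hq)).symm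
  -- addable pairs `(minimal, z)`
  obtain ⟨P2, hP2⟩ : ∃ P2 : Finset (Fin n × Fin n), P2 = (A ×ˢ W).filter fun p => p ∉ S := ⟨_, rfl⟩
  have hP2Add : P2 ⊆ Add S := by
    intro p hp
    rw [hP2, mem_filter, mem_product] at hp
    obtain ⟨⟨ha, hz⟩, hS⟩ := hp
    refine mem_Add.2 ⟨fun hc => ?_, hS, fun hc => ?_, fun z hz' => ?_, fun z hz' => ?_⟩
    · rw [hc] at ha
      exact (memQ _).1 (hWQ hz) ha
    · exact (memA _).1 ha _ hc
    · exact absurd hz' ((memA _).1 ha z)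
    · exact absurd hz' (hVmax _ (hWV hz) z)
  have L4 : A.card * W.card ≤ P2.card + ∑ q ∈ W, dA q := by
    have h1 : A ×ˢ W ⊆ P2 ∪ (A ×ˢ W).filter fun p => p ∈ S := by
      intro p hp
      rw [mem_union, hP2, mem_filter, mem_filter]
      by_cases hS : p ∈ S
      · exact Or.inr ⟨hp, hS⟩
      · exact Or.inl ⟨hp, hS⟩
    have h2 := (card_le_card h1).trans (card_union_le _ _)
    rw [card_product] at h2
    have h3 : ((A ×ˢ W).filter fun p => p ∈ S).card ≤ ∑ q ∈ W, dA q := by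
      rw [card_eq_sum_card_fiberwise (f := Prod.snd) (t := W)
        (s := (A ×ˢ W).filter fun p => p ∈ S)
        (fun p hp => (mem_product.1 (mem_filter.1 (mem_coe.1 hp)).1).2)]
      refine sum_le_sum fun q _ => ?_
      rw [hdA]
      refine card_le_card_of_injOn Prod.fst ?_ ?_
      · intro p hp
        rw [mem_coe, mem_filter, mem_filter, mem_product] at hp
        rw [mem_coe, mem_filter]
        refine ⟨hp.1.1.1, ?_⟩
        rw [← hp.2]
        exact hp.1.2
      · intro p hp p' hp' he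
        rw [mem_coe, mem_filter] at hp hp'
        exact Prod.ext he (hp.2.trans hp'.2.symm)
    omega
  -- addable pairs `(g z, z')`
  obtain ⟨PP, hPP⟩ : ∃ PP : Finset (Fin n × Fin n), PP = (W ×ˢ W).filter fun p =>
    p.1 ≠ p.2 ∧ m (g p.1) = m (g p.2) := ⟨_, rfl⟩
  have L5 : W.card * W.card ≤ A.card * (PP.card + W.card) := by
    rw [hPP]
    exact pairs_ge (fun z => m (g z)) fun z hz => hmA _ (hgQ z (hWQ hz))
  obtain ⟨P1, hP1⟩ : ∃ P1 : Finset (Fin n × Fin n), P1 = PP.image fun p => (g p.1, p.2) :=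
    ⟨_, rfl⟩
  have hP1card : P1.card = PP.card := by
    rw [hP1]
    refine card_image_of_injOn fun p hp p' hp' he => ?_
    rw [hPP, mem_coe, mem_filter, mem_product] at hp hp'
    obtain ⟨e1, e2⟩ := Prod.mk.inj he
    exact Prod.ext (hginj _ (hWV hp.1.1) _ (hWV hp'.1.1) e1) e2
  have hP1Add : P1 ⊆ Add S := by
    intro r hr
    rw [hP1] at hr
    obtain ⟨⟨z, z'⟩, hp, rfl⟩ := mem_image.1 hr
    rw [hPP, mem_filter, mem_product] at hp
    obtain ⟨⟨hz, hz'⟩, hne, hmm⟩ := hp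
    have hz0 : z ∈ W := hz
    have hz0' : z' ∈ W := hz'
    have hne0 : z ≠ z' := hne
    have hmm0 : m (g z) = m (g z') := hmm
    have hzV := hWV hz0
    have hzV' := hWV hz0'
    have hzQ := hWQ hz0
    have hzQ' := hWQ hz0'
    have hmax' := hVmax z' hzV'
    refine mem_Add.2 ⟨fun hc => ?_, fun hc => ?_, fun hc => hmax' _ hc, fun a ha => ?_,
      fun a ha => absurd ha (hmax' a)⟩
    · have hc' : g z = z' := hc
      have h1 := hfg z hzV
      rw [hc', hfmax z' hmax'] at h1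
      exact hne0 h1.symm
    · have hc' : (g z, z') ∈ S := hc
      have h1 : f (g z) = z' := by
        have h2 := hzV'
        rw [hV, mem_filter] at h2
        exact h2.2.2 _ (hgQ z hzQ) (hgmin z hzQ) hc'
      rw [hfg z hzV] at h1
      exact hne0 h1
    · have ha' : (a, g z) ∈ S := ha
      show (a, z') ∈ S
      have haA : a ∈ A := by
        by_contra hc
        exact hgmin z hzQ a ((memQ a).2 hc) ha'
      have h1 : a = m (g z) := by
        have h2 := hz0
        rw [hW, mem_filter] at h2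
        exact h2.2 a haA ha'
      have h3 : (a, g z') ∈ S := by
        rw [h1, hmm0]
        exact hmS _ (hgQ z' hzQ')
      rcases hgz z' hzQ' with h4 | h4
      · rw [h4] at h3
        exact h3
      · exact h.2 _ _ _ h3 h4
  have hdis : Disjoint P1 P2 := by
    rw [disjoint_left]
    intro r hr hr2
    rw [hP1] at hr
    obtain ⟨⟨z, z'⟩, hp, rfl⟩ := mem_image.1 hr
    rw [hPP, mem_filter, mem_product] at hp
    rw [hP2, mem_filter, mem_product] at hr2
    exact (memQ _).1 (hgQ z (hWQ hp.1.1)) hr2.1.1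
  have L6 : PP.card + P2.card ≤ (Add S).card := by
    rw [← hP1card, ← card_union_of_disjoint hdis]
    exact card_le_card (union_subset hP1Add hP2Add)
  have L7 : (S.filter fun p => p.1 ∈ A).card + (S.filter fun p => ¬ p.1 ∈ A).card = S.card :=
    card_filter_add_card_filter_not _
  have L8 : ∑ q ∈ W, dA q = ∑ q ∈ W, (dA q - 1) + W.card := by
    rw [card_eq_sum_ones W, ← sum_add_distrib]
    exact sum_congr rfl fun q hq => (Nat.sub_add_cancel (hd1 q (hWQ hq))).symm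
  have hQc : Q.card + A.card = n := by
    have h1 : A.card ≤ n := by
      have := card_le_univ A
      rwa [Fintype.card_fin] at this
    rw [hQ, card_compl, Fintype.card_fin]
    omega
  have hQV : (Q \ V).card + V.card = Q.card := card_sdiff_add_card_eq_card hVQ
  have hVW : (V \ W).card + W.card = V.card := card_sdiff_add_card_eq_card hWV
  rw [← hA] at hw ⊢
  obtain ⟨EX, hEX⟩ : ∃ EX, EX = ∑ q ∈ W, (dA q - 1) := ⟨_, rfl⟩
  rw [← hEX] at L3 L8
  rw [L8] at L4
  rw [L3'] at L2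
  have hom : EX + w ≤ W.card := by omega
  clear L3 L2 L3' L1 L7 hEX L8
  obtain ⟨ω, hω⟩ : ∃ ω, ω = W.card := ⟨_, rfl⟩
  obtain ⟨α, hα⟩ : ∃ α, α = A.card := ⟨_, rfl⟩
  obtain ⟨x, hx⟩ : ∃ x, x = (Add S).card := ⟨_, rfl⟩
  obtain ⟨u, hu⟩ : ∃ u, u = PP.card := ⟨_, rfl⟩
  obtain ⟨v, hv⟩ : ∃ v, v = P2.card := ⟨_, rfl⟩
  rw [← hω, ← hα, ← hv] at L4
  rw [← hω, ← hα, ← hu] at L5
  rw [← hu, ← hv, ← hx] at L6
  rw [← hω] at hom
  rw [← hα, ← hx]
  zify at L4 L5 L6 hom hw1 ⊢
  have k1 : (α : ℤ) * (u + v) ≤ α * x := by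
    exact mul_le_mul_of_nonneg_left (by linarith) (by positivity)
  have k2 : (α : ℤ) * (α * ω - (EX + ω)) ≤ α * v :=
    mul_le_mul_of_nonneg_left (by linarith) (by positivity)
  have k3 : (α : ℤ) * EX ≤ α * (ω - w) :=
    mul_le_mul_of_nonneg_left (by linarith) (by positivity)
  have k4 : 0 ≤ ((ω : ℤ) - w) * (ω + w + α * α - 3 * α) := by
    refine mul_nonneg ?_ ?_
    · have : (0 : ℤ) ≤ EX := by positivity
      linarith
    · have h5 : (0 : ℤ) ≤ EX := by positivity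
      have h6 : (0 : ℤ) ≤ (α : ℤ) * α - 3 * α + 2 := by
        have h7 : (0 : ℤ) ≤ ((α : ℤ) - 1) * (α - 2) := by
          rcases le_or_gt (α : ℤ) 1 with h8 | h8
          · exact mul_nonneg_of_nonpos_of_nonpos (by linarith) (by linarith)
          · exact mul_nonneg (by linarith) (by linarith)
        linarith
      linarith
  nlinarith

end Pool.Agent.H.MP_82502e_co
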