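import Pool.Agent.H.MP_82502e_co.EndC

set_option autoImplicit false

/-!
# Strict increase for `k ≤ 2 n - 3 n ^ (2 / 3)`
-/

namespace Pool.Agent.H.MP_82502e_co

open Finset

theorem num_a {s x : ℝ} (hs : 3 / 2 ≤ s) (hc : x * x - x ≤ 4 * s ^ 3 - 6 * s ^ 2 + 1) :
    x ≤ s ^ 2 - 1 / 4 := by
  by_contra hlt
  rw [not_le] at hlt
  have h1 : 9 / 4 ≤ s ^ 2 := by nlinarith
  have h2 : (s ^ 2 - 3 / 4) * (s ^ 2 - 3 / 4) < (x - 1 / 2) * (x - 1 / 2) :=
    mul_self_lt_mul_self (by linarith) (by linarith)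
  have h3 : 0 ≤ s ^ 2 * (s - 2) ^ 2 := by positivity
  nlinarith

theorem num_b {s x : ℝ} (hs : 3 / 2 ≤ s) (hc : x ≤ s ^ 2 - 1 / 4) :
    0 ≤ 9 * s ^ 4 - 15 * s ^ 2 * x + 8 * x ^ 2 + 3 * s ^ 2 * x ^ 2 - 2 * x ^ 3 - 2 * s ^ 3 * x
      - 2 * x := by
  have h1 : 0 ≤ x ^ 2 * (s ^ 2 - 1 / 4 - x) := mul_nonneg (by positivity) (by linarith)
  have h2 : 0 ≤ 9 * s ^ 4 - (2 * s ^ 3 + 15 * s ^ 2 + 2) * x + (s ^ 2 + 17 / 2) * x ^ 2 := by
    have h3 : 0 < 4 * (s ^ 2 + 17 / 2) := by positivity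
    have h4 : 0 ≤ 36 * s ^ 4 * (s ^ 2 + 17 / 2) - (2 * s ^ 3 + 15 * s ^ 2 + 2) ^ 2 := by
      obtain ⟨u, rfl⟩ : ∃ u, s = u + 3 / 2 := ⟨s - 3 / 2, by ring⟩
      have hu : 0 ≤ u := by linarith
      ring_nf
      positivity
    have h5 : 4 * (s ^ 2 + 17 / 2) *
        (9 * s ^ 4 - (2 * s ^ 3 + 15 * s ^ 2 + 2) * x + (s ^ 2 + 17 / 2) * x ^ 2) =
        (2 * (s ^ 2 + 17 / 2) * x - (2 * s ^ 3 + 15 * s ^ 2 + 2)) ^ 2 +
        (36 * s ^ 4 * (s ^ 2 + 17 / 2) - (2 * s ^ 3 + 15 * s ^ 2 + 2) ^ 2) := by ring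
    have h6 : 0 ≤ 4 * (s ^ 2 + 17 / 2) *
        (9 * s ^ 4 - (2 * s ^ 3 + 15 * s ^ 2 + 2) * x + (s ^ 2 + 17 / 2) * x ^ 2) := by
      rw [h5]
      positivity
    exact nonneg_of_mul_nonneg_right h6 h3
  nlinarith

theorem num_main {n k x : ℕ} (hn : 1 ≤ n) (h : 27 * n ^ 2 ≤ (2 * n - k) ^ 3) (hx : 1 ≤ x)
    (hc : x * (x - 1) ≤ 2 * k + 1) :
    ∃ w, 1 ≤ w ∧ w + k + 2 * x = 2 * n ∧ x * (k + 2) + 2 * x * w ≤ w * w + x * x * w := by
  obtain ⟨t, ht⟩ : ∃ t, t = 2 * n - k := ⟨_, rfl⟩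
  rw [← ht] at h
  have htpos : 1 ≤ t := by
    by_contra h0
    have h1 : t = 0 := by omega
    rw [h1] at h
    have h2 : 0 < n ^ 2 := by positivity
    omega
  have hk : t + k = 2 * n := by omega
  obtain ⟨s, hs⟩ : ∃ s : ℝ, s = Real.sqrt (t / 3) := ⟨_, rfl⟩
  have ht1 : (1 : ℝ) ≤ t := by exact_mod_cast htpos
  have hs0 : 0 < s := by
    rw [hs]
    exact Real.sqrt_pos.2 (by linarith)
  have hs2 : s ^ 2 = t / 3 := by
    rw [hs]
    exact Real.sq_sqrt (by linarith)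
  have hR : 27 * (n : ℝ) ^ 2 ≤ (t : ℝ) ^ 3 := by exact_mod_cast h
  have hkR : (t : ℝ) + k = 2 * n := by exact_mod_cast hk
  have hns : (n : ℝ) ≤ s ^ 3 := by
    have h1 : (n : ℝ) ^ 2 ≤ (s ^ 3) ^ 2 := by
      have h2 : (s ^ 3) ^ 2 = (s ^ 2) ^ 3 := by ring
      rw [h2, hs2]
      have h3 : ((t : ℝ) / 3) ^ 3 = (t : ℝ) ^ 3 / 27 := by ring
      rw [h3]
      linarith
    exact le_of_sq_le_sq h1 (by positivity)
  have hk0 : (0 : ℝ) ≤ k := by positivity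
  have hs3 : 3 / 2 ≤ s := by
    have h1 : 3 * s ^ 2 ≤ 2 * s ^ 3 := by
      rw [hs2]
      linarith
    by_contra h2
    rw [not_le] at h2
    have h3 : 0 < s ^ 2 * (3 / 2 - s) := mul_pos (by positivity) (by linarith)
    nlinarith
  have hxR : (1 : ℝ) ≤ x := by exact_mod_cast hx
  have hcR : (x : ℝ) * x - x ≤ 4 * s ^ 3 - 6 * s ^ 2 + 1 := by
    have h1 : (x : ℝ) * (x - 1) ≤ 2 * k + 1 := by
      have h2 : ((x * (x - 1) : ℕ) : ℝ) ≤ ((2 * k + 1 : ℕ) : ℝ) := by exact_mod_cast hc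
      push_cast [Nat.cast_sub hx] at h2
      exact h2
    nlinarith
  have hA := num_a hs3 hcR
  have hB := num_b hs3 hA
  have hx2 : 2 * (x : ℝ) + 1 ≤ t := by
    have h1 : 9 / 4 ≤ s ^ 2 := by nlinarith
    have h2 : (t : ℝ) = 3 * s ^ 2 := by
      rw [hs2]
      ring
    linarith
  have hx2' : 2 * x + 1 ≤ t := by exact_mod_cast hx2
  obtain ⟨w, hw⟩ : ∃ w, t = w + 2 * x := ⟨t - 2 * x, by omega⟩
  refine ⟨w, by omega, by omega, ?_⟩
  have hwR : (t : ℝ) = w + 2 * x := by exact_mod_cast hw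
  have h9 : (x : ℝ) * (k + 2) + 2 * x * w ≤ w * w + x * x * w := by
    have h2 : (t : ℝ) = 3 * s ^ 2 := by
      rw [hs2]
      ring
    have h3 : (w : ℝ) = 3 * s ^ 2 - 2 * x := by linarith
    have h4 : (k : ℝ) = 2 * n - 3 * s ^ 2 := by linarith
    have h5 : (x : ℝ) * n ≤ x * s ^ 3 := mul_le_mul_of_nonneg_left hns (by linarith)
    rw [h3, h4]
    nlinarith
  exact_mod_cast h9

/-- Duality: reverse all pairs. -/
theorem isPO_swp {n : ℕ} {S : Finset (Fin n × Fin n)} (h : IsPO S) :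
    IsPO (S.image Prod.swap) := by
  have key : ∀ a b : Fin n, (a, b) ∈ S.image Prod.swap ↔ (b, a) ∈ S := by
    intro a b
    rw [mem_image]
    constructor
    · rintro ⟨⟨u, v⟩, hu, he⟩
      have e1 : v = a := congrArg Prod.fst he
      have e2 : u = b := congrArg Prod.snd he
      subst e1
      subst e2
      exact hu
    · exact fun hb => ⟨(b, a), hb, rfl⟩
  refine ⟨fun i hi => h.1 i ((key i i).1 hi), fun i j l hij hjl => ?_⟩
  exact (key i l).2 (h.2 l j i ((key j l).1 hjl) ((key i j).1 hij))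

theorem mem_swp {n : ℕ} {S : Finset (Fin n × Fin n)} {a b : Fin n} :
    (a, b) ∈ S.image Prod.swap ↔ (b, a) ∈ S := by
  rw [mem_image]
  constructor
  · rintro ⟨⟨u, v⟩, hu, he⟩
    have e1 : v = a := congrArg Prod.fst he
    have e2 : u = b := congrArg Prod.snd he
    subst e1
    subst e2
    exact hu
  · exact fun hb => ⟨(b, a), hb, rfl⟩

theorem MinE_swp {n : ℕ} (S : Finset (Fin n × Fin n)) : MinE (S.image Prod.swap) = MaxE S := by
  ext x
  rw [mem_MinE, mem_MaxE]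
  exact forall_congr' fun z => not_congr mem_swp

theorem MaxE_swp {n : ℕ} (S : Finset (Fin n × Fin n)) : MaxE (S.image Prod.swap) = MinE S := by
  ext x
  rw [mem_MinE, mem_MaxE]
  exact forall_congr' fun z => not_congr mem_swp

theorem card_Add_swp {n : ℕ} (S : Finset (Fin n × Fin n)) :
    (Add (S.image Prod.swap)).card = (Add S).card := by
  rw [← card_swap (Add S)]
  congr 1
  ext ⟨a, b⟩
  rw [mem_swp, mem_Add, mem_Add]
  constructor
  · rintro ⟨h1, h2, h3, h4, h5⟩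
    exact ⟨fun h => h1 h.symm, fun h => h2 (mem_swp.2 h), fun h => h3 (mem_swp.2 h),
      fun z hz => mem_swp.1 (h5 z (mem_swp.2 hz)), fun z hz => mem_swp.1 (h4 z (mem_swp.2 hz))⟩
  · rintro ⟨h1, h2, h3, h4, h5⟩
    exact ⟨fun h => h1 h.symm, fun h => h2 (mem_swp.1 h), fun h => h3 (mem_swp.1 h),
      fun z hz => mem_swp.2 (h5 z (mem_swp.1 hz)), fun z hz => mem_swp.2 (h4 z (mem_swp.1 hz))⟩

theorem add_ge_of_le {n k : ℕ} (hn : 1 ≤ n) (h : 27 * n ^ 2 ≤ (2 * n - k) ^ 3)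
    {S : Finset (Fin n × Fin n)} (hS : IsPO S) (hk : S.card = k)
    (hle : (MinE S).card ≤ (MaxE S).card) : k + 2 ≤ (Add S).card := by
  have hpos : 1 ≤ (MinE S).card := by
    obtain ⟨x, -, -, hx2⟩ := exists_low hS univ (mem_univ (⟨0, by omega⟩ : Fin n))
    exact card_pos.2 ⟨x, mem_MinE.2 fun z => hx2 z (mem_univ z)⟩
  by_cases hc : (MinE S).card * ((MaxE S).card - 1) ≤ 2 * k + 1
  · have hc' : (MinE S).card * ((MinE S).card - 1) ≤ 2 * k + 1 :=
      (Nat.mul_le_mul_left _ (by omega)).trans hc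
    obtain ⟨w, hw1, hw2, hw3⟩ := num_main hn h hpos hc'
    have h1 := card_Add_ge2 hS hw1 (by omega)
    have h2 : (MinE S).card * (k + 2) ≤ (MinE S).card * (Add S).card := by omega
    exact Nat.le_of_mul_le_mul_left h2 hpos
  · have h1 := card_Add_ge S
    obtain ⟨b, hb⟩ : ∃ b, (MaxE S).card = b + 1 := ⟨(MaxE S).card - 1, by omega⟩
    rw [hb, Nat.add_sub_cancel] at hc
    rw [hb, Nat.mul_succ] at h1
    omega

/-- Strict increase at the start, longer range. -/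
theorem cnt_lt_succ2 {n k : ℕ} (hn : 1 ≤ n) (h : 27 * n ^ 2 ≤ (2 * n - k) ^ 3) :
    cnt n k < cnt n (k + 1) := by
  refine lt_of_sum_add ?_
  have h1 : ∀ S ∈ PO n k, k + 2 ≤ (Add S).card := by
    intro S hS
    obtain ⟨hP, hk⟩ := mem_PO.1 hS
    rcases le_total (MinE S).card (MaxE S).card with hle | hle
    · exact add_ge_of_le hn h hP hk hle
    · rw [← card_Add_swp S]
      refine add_ge_of_le hn h (isPO_swp hP) ?_ ?_
      · rw [card_swap, hk]
      · rw [MinE_swp, MaxE_swp]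
        exact hle
  have hk : k ≤ n * (n - 1) / 2 := by
    have h27 : 27 * n ^ 2 ≤ (2 * n) ^ 3 := h.trans (Nat.pow_le_pow_left (Nat.sub_le _ _) 3)
    have hn4 : 4 ≤ n := by
      by_contra hc
      have : n = 1 ∨ n = 2 ∨ n = 3 := by omega
      rcases this with rfl | rfl | rfl <;> norm_num at h27
    have hk2 : k + 1 ≤ 2 * n := by
      by_contra hc
      have h0 : 2 * n - k = 0 := by omega
      rw [h0] at h
      have : 0 < n ^ 2 := by positivity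
      omega
    rcases (by omega : n = 4 ∨ 5 ≤ n) with h5 | h5
    · subst h5
      have h6 : k = 0 := by
        by_contra hk0
        have h7 : 2 * 4 - k ≤ 7 := by omega
        have h8 := h.trans (Nat.pow_le_pow_left h7 3)
        norm_num at h8
      omega
    · have h6 : n * 4 ≤ n * (n - 1) := Nat.mul_le_mul_left _ (by omega)
      omega
  have hpos := cnt_pos hk
  have h2 : (k + 2) * cnt n k ≤ ∑ S ∈ PO n k, (Add S).card := by
    have h3 := card_nsmul_le_sum (PO n k) (fun S => (Add S).card) (k + 2) h1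
    rw [smul_eq_mul] at h3
    unfold cnt
    rw [mul_comm]
    exact h3
  nlinarith

end Pool.Agent.H.MP_82502e_co
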