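import Pool.Agent.H.MP_82502e_co.Ident

set_option autoImplicit false

/-!
# A rise at multiplicative scale up to a constant times `n ^ 2`
-/

namespace Pool.Agent.H.MP_82502e_co

open Finset

theorem choose_up (M i c : ℕ) : ∀ s : ℕ, c * (i + s) + (i + s) ≤ M + 1 →
    c ^ s * M.choose i ≤ M.choose (i + s) := by
  intro s
  induction s with
  | zero => exact fun _ => by simp
  | succ s ih =>
    intro h
    have h1 : c * (i + s) + (i + s) ≤ M + 1 := by
      refine le_trans ?_ h
      exact Nat.add_le_add (Nat.mul_le_mul_left _ (by omega)) (by omega)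
    have h2 := ih h1
    have h3 : M.choose (i + s + 1) * (i + s + 1) = M.choose (i + s) * (M - (i + s)) :=
      Nat.choose_succ_right_eq M (i + s)
    have h4 : c * (i + s + 1) ≤ M - (i + s) := by
      have h5 : c * (i + (s + 1)) = c * (i + s + 1) := by rw [Nat.add_assoc]
      rw [h5] at h
      omega
    have h6 : c * M.choose (i + s) * (i + s + 1) ≤ M.choose (i + s + 1) * (i + s + 1) := by
      rw [h3]
      calc c * M.choose (i + s) * (i + s + 1) = M.choose (i + s) * (c * (i + s + 1)) := by ring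
        _ ≤ M.choose (i + s) * (M - (i + s)) := Nat.mul_le_mul_left _ h4
    have h7 : c * M.choose (i + s) ≤ M.choose (i + s + 1) :=
      Nat.le_of_mul_le_mul_right h6 (by omega)
    calc c ^ (s + 1) * M.choose i = c * (c ^ s * M.choose i) := by ring
      _ ≤ c * M.choose (i + s) := Nat.mul_le_mul_left _ h2
      _ ≤ _ := h7

theorem choose_four (M : ℕ) : ∀ i : ℕ, 4 * i ≤ M →
    (4 * M).choose i ≤ 5 ^ i * M.choose i ∧ (1 ≤ i → (4 * M).choose i < 5 ^ i * M.choose i) := by
  intro i
  induction i with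
  | zero => exact fun _ => ⟨by simp, fun h => absurd h (by omega)⟩
  | succ i ih =>
    intro h
    have h1 := (ih (by omega)).1
    have h2 : (4 * M).choose (i + 1) * (i + 1) = (4 * M).choose i * (4 * M - i) :=
      Nat.choose_succ_right_eq _ _
    have h3 : M.choose (i + 1) * (i + 1) = M.choose i * (M - i) := Nat.choose_succ_right_eq _ _
    have hpos : 0 < M.choose i := Nat.choose_pos (by omega)
    have h4 : 4 * M - i < 5 * (M - i) := by omega
    have h5 : (4 * M).choose (i + 1) * (i + 1) < 5 ^ (i + 1) * M.choose (i + 1) * (i + 1) := by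
      calc (4 * M).choose (i + 1) * (i + 1) = (4 * M).choose i * (4 * M - i) := h2
        _ ≤ 5 ^ i * M.choose i * (4 * M - i) := Nat.mul_le_mul_right _ h1
        _ < 5 ^ i * M.choose i * (5 * (M - i)) :=
          Nat.mul_lt_mul_of_pos_left h4 (by positivity)
        _ = 5 ^ (i + 1) * (M.choose i * (M - i)) := by ring
        _ = 5 ^ (i + 1) * M.choose (i + 1) * (i + 1) := by rw [← h3]; ring
    have h6 := lt_of_mul_lt_mul_right h5 (Nat.zero_le _)
    exact ⟨h6.le, fun _ => h6⟩

theorem cnt_le_choose (n i : ℕ) : cnt n i ≤ (n * (n - 1)).choose i := by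
  have h1 : ((univ : Finset (Fin n)).offDiag).card = n * (n - 1) := by
    rw [offDiag_card, card_univ, Fintype.card_fin, Nat.mul_sub, mul_one]
  rw [← h1, ← card_powersetCard]
  unfold cnt
  refine card_le_card fun S hS => ?_
  obtain ⟨h2, h3⟩ := mem_PO.1 hS
  refine mem_powersetCard.2 ⟨fun p hp => ?_, h3⟩
  rw [mem_offDiag]
  refine ⟨mem_univ _, mem_univ _, fun hc => ?_⟩
  have h4 : (p.1, p.2) ∈ S := hp
  rw [← hc] at h4
  exact h2.1 _ h4

theorem quarter_eq (n : ℕ) : n / 2 * (n - n / 2) = n ^ 2 / 4 := by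
  rcases Nat.even_or_odd' n with ⟨m, rfl | rfl⟩
  · have h1 : 2 * m / 2 = m := by omega
    have h2 : 2 * m - m = m := by omega
    have h3 : (2 * m) ^ 2 = 4 * (m * m) := by ring
    rw [h1, h2, h3]
    omega
  · have h1 : (2 * m + 1) / 2 = m := by omega
    have h2 : 2 * m + 1 - m = m + 1 := by omega
    have h3 : (2 * m + 1) ^ 2 = 4 * (m * (m + 1)) + 1 := by ring
    rw [h1, h2, h3]
    omega

theorem pairs_le (n : ℕ) : n * (n - 1) ≤ 4 * (n ^ 2 / 4) := by
  have h1 : n ^ 2 ≤ 4 * (n ^ 2 / 4) + 3 := by omega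
  rcases Nat.even_or_odd' n with ⟨m, rfl | rfl⟩
  · have h3 : (2 * m) ^ 2 = 4 * (m * m) := by ring
    have h4 : 2 * m * (2 * m - 1) ≤ 2 * m * (2 * m) := Nat.mul_le_mul_left _ (by omega)
    have h5 : 2 * m * (2 * m) = 4 * (m * m) := by ring
    rw [h3]
    omega
  · have h3 : (2 * m + 1) ^ 2 = 4 * (m * m + m) + 1 := by ring
    have h4 : (2 * m + 1) * (2 * m + 1 - 1) = 4 * (m * m) + 2 * m := by
      rw [Nat.add_sub_cancel]
      ring
    rw [h3, h4]
    omega

theorem coarse_rise {n q i j : ℕ} (hq : 1 ≤ q) (hij : i < j) (h1 : (q + 1) * i ≤ q * j)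
    (h2 : (5 ^ q + 1) * j ≤ n ^ 2 / 4 + 1) : cnt n i < cnt n j := by
  obtain ⟨M, hM⟩ : ∃ M, M = n ^ 2 / 4 := ⟨_, rfl⟩
  obtain ⟨s, rfl⟩ : ∃ s, j = i + s := ⟨j - i, by omega⟩
  have hs : 1 ≤ s := by omega
  have hiq : i ≤ q * s := by
    have e1 : (q + 1) * i = q * i + i := by ring
    have e2 : q * (i + s) = q * i + q * s := by ring
    omega
  rw [← hM] at h2
  have h5q : 5 ≤ 5 ^ q := by
    calc 5 = 5 ^ 1 := by norm_num
      _ ≤ 5 ^ q := Nat.pow_le_pow_right (by norm_num) hq
  have h6 : 6 * (i + s) ≤ M + 1 := le_trans (Nat.mul_le_mul_right _ (by omega)) h2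
  have h4i : 4 * i ≤ M := by omega
  have hup := choose_up M i (5 ^ q) s (by
    have e1 : (5 ^ q + 1) * (i + s) = 5 ^ q * (i + s) + (i + s) := by ring
    rw [e1] at h2
    exact h2)
  have hfour := choose_four M i h4i
  have hup' : 5 ^ i * M.choose i ≤ (5 ^ q) ^ s * M.choose i := by
    refine Nat.mul_le_mul_right _ ?_
    rw [← pow_mul]
    exact Nat.pow_le_pow_right (by norm_num) hiq
  have hlow : M.choose (i + s) ≤ cnt n (i + s) := by
    have h7 := choose_le_cnt n (i + s)
    rw [quarter_eq, ← hM] at h7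
    exact h7
  have hhigh : cnt n i ≤ (4 * M).choose i := by
    refine (cnt_le_choose n i).trans (Nat.choose_le_choose i ?_)
    rw [hM]
    exact pairs_le n
  rcases Nat.eq_zero_or_pos i with hi | hi
  · subst hi
    have h8 : cnt n 0 = 1 := cnt_zero n
    have h9 : 1 < (5 ^ q) ^ s * M.choose 0 := by
      rw [Nat.choose_zero_right, mul_one]
      exact Nat.one_lt_pow (by omega) (by omega)
    omega
  · have h8 := hfour.2 hi
    omega

end Pool.Agent.H.MP_82502e_co
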