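import Pool.Agent.H.MP_82502e_co.WFour

set_option autoImplicit false

/-!
# The window: four-layer terms with a large outer layer, 2
-/

namespace Pool.Agent.H.MP_82502e_co

open Finset Real

theorem WFour2_tm_q3 (a b c k : ℕ) : tm a b c 0 k = q3 (a + b + c) (a + c) a k := by
  unfold tm q3
  have h1 : nfr a b c 0 = (a + c) * (a + b + c - (a + c)) := by
    have : a + b + c - (a + c) = b := by omega
    rw [this]
    unfold nfr
    ring
  have h2 : nfu a b c 0 = a * (a + c - a) := by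
    have : a + c - a = c := by omega
    rw [this]
    unfold nfu
    ring
  rw [h1, h2, Nat.add_zero, Nat.add_zero, Nat.choose_zero_right, mul_one]

/-- For fixed `d` the shifted terms are different terms of `F3`. -/
theorem WFour2_fixed {n k d : ℕ} (A : Finset (ℕ × ℕ × ℕ × ℕ)) (hA : A ⊆ CanQ n)
    (hd : ∀ x ∈ A, x.2.2.2 = d) :
    ∑ x ∈ A, tm x.1 (x.2.1 + x.2.2.2) x.2.2.1 0 k ≤ F3 n k := by
  classical
  have h1 : F3 n k = ∑ p ∈ (range n).sigma (fun l => range l), q3 n p.1 p.2 k := by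
    unfold F3 F3l
    rw [Finset.sum_sigma]
  set f : ℕ × ℕ × ℕ × ℕ → (Σ _ : ℕ, ℕ) := fun x => ⟨x.1 + x.2.2.1, x.1⟩ with hf
  have hinj : Set.InjOn f (A : Set (ℕ × ℕ × ℕ × ℕ)) := by
    intro x hx y hy hxy
    have hx' := WNeg2_mem (hA hx)
    have hy' := WNeg2_mem (hA hy)
    have hxd := hd x hx
    have hyd := hd y hy
    rw [hf] at hxy
    simp only [Sigma.mk.injEq, heq_eq_eq] at hxy
    obtain ⟨e1, e2⟩ := hxy
    obtain ⟨x1, x2, x3, x4⟩ := x
    obtain ⟨y1, y2, y3, y4⟩ := y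
    simp only at hx' hy' hxd hyd e1 e2 ⊢
    have e3 : x3 = y3 := by omega
    have e4 : x4 = y4 := by omega
    have e5 : x2 = y2 := by omega
    rw [e2, e3, e4, e5]
  have h2 : ∑ x ∈ A, tm x.1 (x.2.1 + x.2.2.2) x.2.2.1 0 k =
      ∑ p ∈ A.image f, q3 n p.1 p.2 k := by
    rw [Finset.sum_image hinj]
    apply Finset.sum_congr rfl
    intro x hx
    have hx' := WNeg2_mem (hA hx)
    rw [WFour2_tm_q3]
    have : x.1 + (x.2.1 + x.2.2.2) + x.2.2.1 = n := by omega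
    rw [this]
  rw [h1, h2]
  apply Finset.sum_le_sum_of_subset
  intro p hp
  rw [Finset.mem_image] at hp
  obtain ⟨x, hx, rfl⟩ := hp
  have hx' := WNeg2_mem (hA hx)
  rw [Finset.mem_sigma, Finset.mem_range, Finset.mem_range]
  rw [hf]
  simp only
  omega

/-- Sum over all `d` of shifted terms. -/
theorem WFour2_sum {η : ℝ} (hη : 0 < η) {n k : ℕ} (A : Finset (ℕ × ℕ × ℕ × ℕ)) (hA : A ⊆ CanQ n)
    (hd : ∀ x ∈ A, 1 ≤ x.2.2.2)
    (hs : ∀ x ∈ A, exp (η * x.2.2.2 * n / 4) * (tmx x k : ℝ) ≤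
        (tm x.1 (x.2.1 + x.2.2.2) x.2.2.1 0 k : ℝ)) :
    ∑ x ∈ A, (tmx x k : ℝ) ≤ (n + 1) * (exp (-(η * n / 4)) * F3 n k) := by
  classical
  have hmap : ∀ x ∈ A, x.2.2.2 ∈ range (n + 1) := by
    intro x hx
    have hx' := WNeg2_mem (hA hx)
    rw [Finset.mem_range]
    omega
  rw [← Finset.sum_fiberwise_of_maps_to hmap]
  have hE : 0 ≤ exp (-(η * n / 4)) := (exp_pos _).le
  calc ∑ d ∈ range (n + 1), ∑ x ∈ A.filter (fun x => x.2.2.2 = d), (tmx x k : ℝ)
      ≤ ∑ d ∈ range (n + 1), exp (-(η * n / 4)) * F3 n k := by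
        apply Finset.sum_le_sum
        intro d _
        calc ∑ x ∈ A.filter (fun x => x.2.2.2 = d), (tmx x k : ℝ)
            ≤ ∑ x ∈ A.filter (fun x => x.2.2.2 = d),
                exp (-(η * n / 4)) * (tm x.1 (x.2.1 + x.2.2.2) x.2.2.1 0 k : ℝ) := by
              apply Finset.sum_le_sum
              intro x hx
              rw [Finset.mem_filter] at hx
              have h1 := hs x hx.1
              have h2 := hd x hx.1
              have h2' : (1 : ℝ) ≤ x.2.2.2 := by exact_mod_cast h2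
              have h3 : exp (η * n / 4) ≤ exp (η * x.2.2.2 * n / 4) := by
                apply exp_le_exp.2
                have h4 : η * n * 1 ≤ η * n * x.2.2.2 :=
                  mul_le_mul_of_nonneg_left h2' (by positivity)
                linarith
              have h5 : exp (η * n / 4) * (tmx x k : ℝ) ≤
                  (tm x.1 (x.2.1 + x.2.2.2) x.2.2.1 0 k : ℝ) :=
                le_trans (mul_le_mul_of_nonneg_right h3 (Nat.cast_nonneg _)) h1
              calc (tmx x k : ℝ) = exp (-(η * n / 4)) * (exp (η * n / 4) * (tmx x k : ℝ)) := by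
                    rw [← mul_assoc, ← exp_add]
                    simp
                _ ≤ _ := mul_le_mul_of_nonneg_left h5 hE
          _ = exp (-(η * n / 4)) * ((∑ x ∈ A.filter (fun x => x.2.2.2 = d),
                tm x.1 (x.2.1 + x.2.2.2) x.2.2.1 0 k : ℕ) : ℝ) := by
              rw [← Finset.mul_sum]
              push_cast
              rfl
          _ ≤ exp (-(η * n / 4)) * F3 n k := by
              apply mul_le_mul_of_nonneg_left _ hE
              exact_mod_cast WFour2_fixed (A.filter (fun x => x.2.2.2 = d))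
                ((Finset.filter_subset _ _).trans hA)
                (fun x hx => (Finset.mem_filter.1 hx).2)
    _ = (n + 1) * (exp (-(η * n / 4)) * F3 n k) := by
        rw [Finset.sum_const, Finset.card_range, nsmul_eq_mul]
        push_cast
        rfl

/-- The reversal of a quadruple. -/
def WFour2_rev (x : ℕ × ℕ × ℕ × ℕ) : ℕ × ℕ × ℕ × ℕ := (x.2.2.2, x.2.2.1, x.2.1, x.1)

theorem WFour2_rev_inj : Function.Injective WFour2_rev := by
  rintro ⟨a, b, c, d⟩ ⟨a', b', c', d'⟩ h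
  unfold WFour2_rev at h
  simp only [Prod.mk.injEq] at h
  obtain ⟨h1, h2, h3, h4⟩ := h
  rw [h1, h2, h3, h4]

theorem WFour2_tmx_rev (x : ℕ × ℕ × ℕ × ℕ) (k : ℕ) : tmx (WFour2_rev x) k = tmx x k := by
  unfold tmx WFour2_rev
  exact tm_rev _ _ _ _ _

theorem WFour2_yq_rev (x : ℕ × ℕ × ℕ × ℕ) (k : ℕ) : yq k (WFour2_rev x) = yq k x := by
  unfold yq WFour2_rev nfu nfr
  push_cast
  ring

theorem WFour2_mem_rev {n : ℕ} {x : ℕ × ℕ × ℕ × ℕ} (hx : x ∈ CanQ n) (hd : 1 ≤ x.2.2.2) :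
    WFour2_rev x ∈ CanQ n := by
  unfold CanQ at hx ⊢
  rw [Finset.mem_filter] at hx ⊢
  simp only [Finset.mem_product, Finset.mem_range] at hx ⊢
  unfold WFour2_rev
  simp only
  omega

open scoped Classical in
/-- **Non-typical terms are negligible.**
Proof. `neg_terms` with `min κ (κ1 η)`, `κ1 = min (η/400) ..`: it remains to sum the terms with `|l - n/2| ≤ η n`,
`|y| ≤ κ n²`, `a d ≤ κ1 η n²`, `d ≥ 1` and `max(a,d) ≥ η n`. If `a ≥ η n` then `d ≤ κ1 n`, `four_shift`: for given `d` the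
map `(a,b,c,d) ↦ (a,b+d,c,0)` is injective into the canonical vectors of `F3`, so these terms sum to at most
`Σ_{d≥1} exp(-η d n/4) F3`. If `d ≥ η n` (`a ≤ κ1 n`, `a ≥ 1`): `tm_rev` and the same with `(d,c,b,a)`; the target
`tm d (c+a) b 0` is again a term of `F3` (`b ≥ 1`, `c + a ≥ 1`). Take `κ0 = η/400`. -/
theorem nontyp {η : ℝ} (hη : 0 < η) (hη1 : η ≤ 1 / 1000) : ∃ κ0 : ℝ, 0 < κ0 ∧ ∀ κ : ℝ, 0 < κ →
    κ ≤ κ0 → ∃ δ : ℝ, 0 < δ ∧ ∃ c : ℝ, 0 < c ∧ ∃ n0 : ℕ, ∀ n ≥ n0, ∀ k : ℕ, Win δ n k →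
    (∑ x ∈ (CanQ n).filter (fun x => ¬ Typ η κ n k x), (tmx x k : ℝ)) ≤
      exp (-(c * n)) * F3 n k := by
  refine ⟨η / 400, by positivity, fun κ hκ hκη => ?_⟩
  obtain ⟨δ, hδ, c1, hc1, n1, h1⟩ := neg_terms (η := κ * η) (by positivity)
  obtain ⟨n2, h2⟩ := four_shift hη hη1 hκ hκη
  obtain ⟨c, hcdef⟩ : ∃ c, c = min c1 (η / 8) / 2 := ⟨_, rfl⟩
  have hc : 0 < c := by
    rw [hcdef]
    have : 0 < min c1 (η / 8) := lt_min hc1 (by positivity)
    positivity
  have hcc1 : 2 * c ≤ c1 := by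
    rw [hcdef]
    have := min_le_left c1 (η / 8)
    linarith
  have hcη : 2 * c ≤ η / 8 := by
    rw [hcdef]
    have := min_le_right c1 (η / 8)
    linarith
  -- large n
  obtain ⟨n3, h3⟩ : ∃ n3 : ℕ, ∀ n ≥ n3, 1 + 2 * ((n : ℝ) + 1) ≤ exp (c * n) := by
    have hlim := (Real.tendsto_exp_div_pow_atTop 1)
    have hev := hlim.eventually (Filter.eventually_ge_atTop (5 / c))
    have hmul : Filter.Tendsto (fun n : ℕ => c * (n : ℝ)) Filter.atTop Filter.atTop :=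
      Filter.Tendsto.const_mul_atTop hc tendsto_natCast_atTop_atTop
    obtain ⟨m, hm⟩ := Filter.eventually_atTop.1 (hmul.eventually hev)
    refine ⟨max m 1, fun n hn => ?_⟩
    have hmn := hm n (le_trans (le_max_left _ _) hn)
    have hn1 : (1 : ℝ) ≤ n := by exact_mod_cast le_trans (le_max_right _ _) hn
    have hcn : 0 < c * n := by positivity
    rw [pow_one, div_le_div_iff₀ hc hcn] at hmn
    have : 5 * (n : ℝ) ≤ exp (c * n) := by
      have h5 : 5 * (n : ℝ) * c ≤ exp (c * n) * c := by linarith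
      exact le_of_mul_le_mul_right h5 hc
    linarith
  refine ⟨δ, hδ, c, hc, max (max n1 n2) (max n3 1), fun n hn k hk => ?_⟩
  have hn1 : n1 ≤ n := ((le_max_left _ _).trans (le_max_left _ _)).trans hn
  have hn2 : n2 ≤ n := ((le_max_right _ _).trans (le_max_left _ _)).trans hn
  have hn3 : n3 ≤ n := ((le_max_left _ _).trans (le_max_right _ _)).trans hn
  have hn4 : 1 ≤ n := ((le_max_right _ _).trans (le_max_right _ _)).trans hn
  have hnr : (1 : ℝ) ≤ n := by exact_mod_cast hn4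
  have hn0 : (0 : ℝ) < n := by linarith
  set NEG := (CanQ n).filter (fun x => κ * η * n < |((x.1 + x.2.2.1 : ℕ) : ℝ) - (n : ℝ) / 2| ∨
      κ * η * (n : ℝ) ^ 2 < |yq k x| ∨ κ * η * (n : ℝ) ^ 2 < (x.1 : ℝ) * x.2.2.2) with hNEG
  set G := (CanQ n).filter (fun x => 1 ≤ x.2.2.2 ∧
      |((x.1 + x.2.2.1 : ℕ) : ℝ) - (n : ℝ) / 2| ≤ η * n ∧ |yq k x| ≤ κ * (n : ℝ) ^ 2 ∧
      (x.1 : ℝ) * x.2.2.2 ≤ κ * η * (n : ℝ) ^ 2) with hG
  set A := G.filter (fun x => η * n ≤ x.1) with hAdef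
  set B := G.filter (fun x => η * n ≤ x.2.2.2) with hBdef
  have hκ1 : κ ≤ 1 := by linarith
  have hη11 : η ≤ 1 := by linarith
  have hκη1 : κ * η ≤ κ := by nlinarith
  have hκη2 : κ * η ≤ η := by nlinarith
  have hsub : (CanQ n).filter (fun x => ¬ Typ η κ n k x) ⊆ NEG ∪ (A ∪ B) := by
    intro x hx
    rw [Finset.mem_filter] at hx
    obtain ⟨hxC, hxT⟩ := hx
    by_cases hN : x ∈ NEG
    · exact Finset.mem_union_left _ hN
    · apply Finset.mem_union_right
      rw [hNEG, Finset.mem_filter] at hN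
      push Not at hN
      obtain ⟨e1, e2, e3⟩ := hN hxC
      have f1 : |((x.1 + x.2.2.1 : ℕ) : ℝ) - (n : ℝ) / 2| ≤ η * n :=
        e1.trans (mul_le_mul_of_nonneg_right hκη2 hn0.le)
      have f2 : |yq k x| ≤ κ * (n : ℝ) ^ 2 :=
        e2.trans (mul_le_mul_of_nonneg_right hκη1 (by positivity))
      unfold Typ at hxT
      have g := fun h => hxT ⟨f1, f2, h⟩
      have g1 : x.2.2.2 ≠ 0 := fun h => g (Or.inl h)
      have g2 : ¬ ((x.1 : ℝ) < η * n ∧ (x.2.2.2 : ℝ) < η * n) := fun h => g (Or.inr h)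
      have hxG : x ∈ G := by
        rw [hG, Finset.mem_filter]
        exact ⟨hxC, Nat.one_le_iff_ne_zero.2 g1, f1, f2, e3⟩
      rw [Finset.mem_union]
      by_cases g3 : (x.1 : ℝ) < η * n
      · right
        rw [hBdef, Finset.mem_filter]
        refine ⟨hxG, ?_⟩
        by_contra g4
        exact g2 ⟨g3, not_le.1 g4⟩
      · left
        rw [hAdef, Finset.mem_filter]
        exact ⟨hxG, not_lt.1 g3⟩
  have hGmem : ∀ x ∈ G, x ∈ CanQ n ∧ 1 ≤ x.2.2.2 ∧
      |((x.1 + x.2.2.1 : ℕ) : ℝ) - (n : ℝ) / 2| ≤ η * n ∧ |yq k x| ≤ κ * (n : ℝ) ^ 2 ∧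
      (x.1 : ℝ) * x.2.2.2 ≤ κ * η * (n : ℝ) ^ 2 := fun x hx => by
    rw [hG, Finset.mem_filter] at hx
    exact hx
  have hsmall : ∀ u v : ℝ, 0 ≤ v → η * n ≤ u → u * v ≤ κ * η * (n : ℝ) ^ 2 → v ≤ κ * n := by
    intro u v hv hu huv
    have e1 : η * n * v ≤ u * v := mul_le_mul_of_nonneg_right hu hv
    have e2 : η * n * v ≤ η * n * (κ * n) := by
      calc η * n * v ≤ κ * η * (n : ℝ) ^ 2 := e1.trans huv
        _ = η * n * (κ * n) := by ring
    exact le_of_mul_le_mul_left e2 (by positivity)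
  have hAle : ∑ x ∈ A, (tmx x k : ℝ) ≤ (n + 1) * (exp (-(η * n / 4)) * F3 n k) := by
    apply WFour2_sum hη A
    · intro x hx
      exact (hGmem x (Finset.mem_filter.1 hx).1).1
    · intro x hx
      exact (hGmem x (Finset.mem_filter.1 hx).1).2.1
    · intro x hx
      rw [hAdef, Finset.mem_filter] at hx
      obtain ⟨g1, g2, g3, g4, g5⟩ := hGmem x hx.1
      exact h2 n hn2 k x g1 g2 hx.2 (hsmall _ _ (Nat.cast_nonneg _) hx.2 g5) g3 g4
  have hBle : ∑ x ∈ B, (tmx x k : ℝ) ≤ (n + 1) * (exp (-(η * n / 4)) * F3 n k) := by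
    have e1 : ∑ x ∈ B, (tmx x k : ℝ) = ∑ x ∈ B.image WFour2_rev, (tmx x k : ℝ) := by
      rw [Finset.sum_image (fun x _ y _ h => WFour2_rev_inj h)]
      apply Finset.sum_congr rfl
      intro x _
      rw [WFour2_tmx_rev]
    rw [e1]
    apply WFour2_sum hη
    · intro y hy
      rw [Finset.mem_image] at hy
      obtain ⟨x, hx, rfl⟩ := hy
      obtain ⟨g1, g2, g3, g4, g5⟩ := hGmem x (Finset.mem_filter.1 hx).1
      exact WFour2_mem_rev g1 g2
    · intro y hy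
      rw [Finset.mem_image] at hy
      obtain ⟨x, hx, rfl⟩ := hy
      obtain ⟨g1, g2, g3, g4, g5⟩ := hGmem x (Finset.mem_filter.1 hx).1
      unfold CanQ at g1
      rw [Finset.mem_filter] at g1
      exact g1.2.2.2.2 g2
    · intro y hy
      rw [Finset.mem_image] at hy
      obtain ⟨x, hx, rfl⟩ := hy
      rw [hBdef, Finset.mem_filter] at hx
      obtain ⟨g1, g2, g3, g4, g5⟩ := hGmem x hx.1
      have g6 : 1 ≤ x.1 := by
        have g1' := g1
        unfold CanQ at g1'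
        rw [Finset.mem_filter] at g1'
        exact g1'.2.2.2.2 g2
      have g7 := WNeg2_mem g1
      apply h2 n hn2 k (WFour2_rev x) (WFour2_mem_rev g1 g2)
      · exact g6
      · exact hx.2
      · exact hsmall _ _ (Nat.cast_nonneg _) hx.2 (by rw [mul_comm]; exact g5)
      · have e2 : (((WFour2_rev x).1 + (WFour2_rev x).2.2.1 : ℕ) : ℝ) - (n : ℝ) / 2 =
            -(((x.1 + x.2.2.1 : ℕ) : ℝ) - (n : ℝ) / 2) := by
          have e3 : (n : ℝ) = x.1 + x.2.1 + x.2.2.1 + x.2.2.2 := by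
            exact_mod_cast g7.1.symm
          unfold WFour2_rev
          simp only
          push_cast
          linarith
        rw [e2, abs_neg]
        exact g3
      · rw [WFour2_yq_rev]
        exact g4
  have hNle := h1 n hn1 k hk
  have hF0 : (0 : ℝ) ≤ F3 n k := Nat.cast_nonneg _
  have hpos : ∀ x : ℕ × ℕ × ℕ × ℕ, (0 : ℝ) ≤ (tmx x k : ℝ) := fun x => Nat.cast_nonneg _
  calc (∑ x ∈ (CanQ n).filter (fun x => ¬ Typ η κ n k x), (tmx x k : ℝ))
      ≤ ∑ x ∈ NEG ∪ (A ∪ B), (tmx x k : ℝ) :=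
        Finset.sum_le_sum_of_subset_of_nonneg hsub (fun x _ _ => hpos x)
    _ ≤ ∑ x ∈ NEG, (tmx x k : ℝ) + (∑ x ∈ A, (tmx x k : ℝ) + ∑ x ∈ B, (tmx x k : ℝ)) := by
        have u1 : ∑ x ∈ NEG ∪ (A ∪ B), (tmx x k : ℝ) ≤
            ∑ x ∈ NEG, (tmx x k : ℝ) + ∑ x ∈ A ∪ B, (tmx x k : ℝ) := by
          rw [← Finset.sum_union_inter]
          have : 0 ≤ ∑ x ∈ NEG ∩ (A ∪ B), (tmx x k : ℝ) := Finset.sum_nonneg fun x _ => hpos x
          linarith
        have u2 : ∑ x ∈ A ∪ B, (tmx x k : ℝ) ≤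
            ∑ x ∈ A, (tmx x k : ℝ) + ∑ x ∈ B, (tmx x k : ℝ) := by
          rw [← Finset.sum_union_inter]
          have : 0 ≤ ∑ x ∈ A ∩ B, (tmx x k : ℝ) := Finset.sum_nonneg fun x _ => hpos x
          linarith
        linarith
    _ ≤ exp (-(2 * c * n)) * F3 n k + ((n + 1) * (exp (-(2 * c * n)) * F3 n k) +
          (n + 1) * (exp (-(2 * c * n)) * F3 n k)) := by
        have v1 : exp (-(c1 * (n : ℝ) ^ 2)) ≤ exp (-(2 * c * n)) := by
          apply exp_le_exp.2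
          have : 2 * c * n ≤ c1 * (n : ℝ) ^ 2 := by
            have w1 : 2 * c * n ≤ c1 * n := mul_le_mul_of_nonneg_right hcc1 hn0.le
            have w2 : c1 * n * 1 ≤ c1 * n * n := mul_le_mul_of_nonneg_left hnr (by positivity)
            nlinarith
          linarith
        have v2 : exp (-(η * n / 4)) ≤ exp (-(2 * c * n)) := by
          apply exp_le_exp.2
          have w1 : 2 * c * n ≤ η / 8 * n := mul_le_mul_of_nonneg_right hcη hn0.le
          have w2 : 0 ≤ η * n := by positivity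
          linarith
        have v3 : (n + 1) * (exp (-(η * n / 4)) * (F3 n k : ℝ)) ≤
            (n + 1) * (exp (-(2 * c * n)) * (F3 n k : ℝ)) :=
          mul_le_mul_of_nonneg_left (mul_le_mul_of_nonneg_right v2 hF0) (by positivity)
        have v4 := hNle.trans (mul_le_mul_of_nonneg_right v1 hF0)
        linarith
    _ = (1 + 2 * ((n : ℝ) + 1)) * (exp (-(2 * c * n)) * F3 n k) := by ring
    _ ≤ exp (c * n) * (exp (-(2 * c * n)) * F3 n k) :=
        mul_le_mul_of_nonneg_right (h3 n hn3) (by positivity)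
    _ = exp (-(c * n)) * F3 n k := by
        rw [← mul_assoc, ← exp_add]
        congr 2
        ring

/-- For `k ≥ (1/8 + ε0) n²` the four-layer part is negligible: take `η = min(ε0/4, 1/1000)`, `κ ≤ ε0/4`: a typical
term has `k = nfu + nfr/2 + y ≤ (a+d) n + n²/8 + κ n²`; for `d ≥ 1` it would be `≤ n²/8 + 2 η n² + κ n²`. -/
theorem F4_le {ε0 : ℝ} (hε : 0 < ε0) : ∃ δ : ℝ, 0 < δ ∧ ∃ c : ℝ, 0 < c ∧ ∃ n0 : ℕ, ∀ n ≥ n0,
    ∀ k : ℕ, Win δ n k → (1 / 8 + ε0) * (n : ℝ) ^ 2 ≤ k →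
    (F4 n k : ℝ) ≤ exp (-(c * n)) * F3 n k := by
  classical
  obtain ⟨η, hηdef⟩ : ∃ η, η = min (ε0 / 4) (1 / 1000) := ⟨_, rfl⟩
  have hη : 0 < η := by
    rw [hηdef]
    exact lt_min (by positivity) (by norm_num)
  have hη1 : η ≤ 1 / 1000 := by rw [hηdef]; exact min_le_right _ _
  have hη2 : η ≤ ε0 / 4 := by rw [hηdef]; exact min_le_left _ _
  obtain ⟨κ0, hκ0, h1⟩ := nontyp hη hη1
  have hκ : 0 < min κ0 (ε0 / 4) := lt_min hκ0 (by positivity)
  obtain ⟨δ, hδ, c, hc, n0, h2⟩ := h1 (min κ0 (ε0 / 4)) hκ (min_le_left _ _)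
  refine ⟨δ, hδ, c, hc, max n0 1, fun n hn k hk hk2 => ?_⟩
  have hn0 : n0 ≤ n := (le_max_left _ _).trans hn
  have hn1 : 1 ≤ n := (le_max_right _ _).trans hn
  have hnr : (1 : ℝ) ≤ n := by exact_mod_cast hn1
  refine le_trans ?_ (h2 n hn0 k hk)
  unfold F4
  push_cast
  apply Finset.sum_le_sum_of_subset_of_nonneg
  · intro x hx
    rw [Finset.mem_filter] at hx ⊢
    refine ⟨hx.1, ?_⟩
    rintro ⟨-, g2, g3⟩
    have g4 : (x.1 : ℝ) < η * n ∧ (x.2.2.2 : ℝ) < η * n := by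
      rcases g3 with g | g
      · omega
      · exact g
    have hsum := (WNeg2_mem hx.1).1
    have hsumR : (x.1 : ℝ) + x.2.1 + x.2.2.1 + x.2.2.2 = n := by exact_mod_cast hsum
    have hN := nfr_le hx.1
    have a0 : (0 : ℝ) ≤ x.1 := Nat.cast_nonneg _
    have b0 : (0 : ℝ) ≤ x.2.1 := Nat.cast_nonneg _
    have c0 : (0 : ℝ) ≤ x.2.2.1 := Nat.cast_nonneg _
    have d0 : (0 : ℝ) ≤ x.2.2.2 := Nat.cast_nonneg _
    have hN4 : (nfr x.1 x.2.1 x.2.2.1 x.2.2.2 : ℝ) ≤ (n : ℝ) ^ 2 / 4 := by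
      rw [hN]
      have e1 : 0 ≤ (((x.1 + x.2.2.1 : ℕ) : ℝ) - n / 2) ^ 2 := sq_nonneg _
      have e2 : 0 ≤ (x.1 : ℝ) * x.2.2.2 := by positivity
      linarith
    have hU : (nfu x.1 x.2.1 x.2.2.1 x.2.2.2 : ℝ) ≤ η * (n : ℝ) ^ 2 := by
      unfold nfu
      push_cast
      have e1 : (x.1 : ℝ) * (x.2.2.1 + x.2.2.2) ≤ η * n * (x.2.2.1 + x.2.2.2) :=
        mul_le_mul_of_nonneg_right g4.1.le (by positivity)
      have e2 : (x.2.1 : ℝ) * x.2.2.2 ≤ x.2.1 * (η * n) :=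
        mul_le_mul_of_nonneg_left g4.2.le b0
      have e3 : η * n * ((x.2.2.1 : ℝ) + x.2.2.2 + x.2.1) ≤ η * n * n :=
        mul_le_mul_of_nonneg_left (by linarith) (by positivity)
      nlinarith
    have hy : yq k x ≤ ε0 / 4 * (n : ℝ) ^ 2 := by
      have e1 := le_trans (le_abs_self _) g2
      have e2 : min κ0 (ε0 / 4) * (n : ℝ) ^ 2 ≤ ε0 / 4 * (n : ℝ) ^ 2 :=
        mul_le_mul_of_nonneg_right (min_le_right _ _) (by positivity)
      linarith
    unfold yq at hy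
    have e5 : η * (n : ℝ) ^ 2 ≤ ε0 / 4 * (n : ℝ) ^ 2 :=
      mul_le_mul_of_nonneg_right hη2 (by positivity)
    have e6 : 0 < ε0 * (n : ℝ) ^ 2 := by positivity
    nlinarith
  · intro x _ _
    exact Nat.cast_nonneg _

end Pool.Agent.H.MP_82502e_co
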