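import Pool.Agent.H.MP_82502e_co.WDefs

set_option autoImplicit false

/-!
# The window: combinatorics of layered posets, 1
-/

namespace Pool.Agent.H.MP_82502e_co

open Finset

variable {n : ℕ}

theorem mem_Lay {lam : Fin n → Fin 4} {S : Finset (Fin n × Fin n)} :
    S ∈ Lay lam ↔ (∀ p ∈ S, lam p.1 < lam p.2) ∧
      ∀ u v, (lam u : ℕ) + 2 ≤ lam v → (u, v) ∈ S := by
  classical
  unfold Lay
  simp only [mem_filter, mem_univ, true_and]

/-- Layered sets are posets: `lam u < lam v < lam w` implies `lam u + 2 ≤ lam w`. -/
theorem lay_isPO {lam : Fin n → Fin 4} {S : Finset (Fin n × Fin n)} (h : S ∈ Lay lam) :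
    IsPO S := by
  rw [mem_Lay] at h
  obtain ⟨h1, h2⟩ := h
  refine ⟨fun u hu => ?_, fun u v w huv hvw => ?_⟩
  · exact absurd (h1 _ hu) (lt_irrefl _)
  · have a := h1 _ huv
    have b := h1 _ hvw
    apply h2
    have a' : (lam u : ℕ) < lam v := a
    have b' : (lam v : ℕ) < lam w := b
    omega

theorem WFam_card_rel (lam : Fin n → Fin 4) (R : Fin 4 → Fin 4 → Prop)
    [∀ i j, Decidable (R i j)] :
    ((univ : Finset (Fin n × Fin n)).filter fun p => R (lam p.1) (lam p.2)).card =
      ∑ i : Fin 4, ∑ j : Fin 4, if R i j then csz lam i * csz lam j else 0 := by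
  classical
  rw [card_eq_sum_card_fiberwise (f := fun p : Fin n × Fin n => (lam p.1, lam p.2))
    (t := (univ : Finset (Fin 4 × Fin 4))) (fun _ _ => by simp), Fintype.sum_prod_type]
  refine sum_congr rfl fun i _ => sum_congr rfl fun j _ => ?_
  rw [filter_filter]
  split_ifs with hR
  · unfold csz
    rw [← card_product]
    congr 1
    ext p
    simp only [mem_filter, mem_univ, true_and, mem_product, Prod.mk.injEq]
    constructor
    · exact fun h => h.2
    · exact fun h => ⟨by rw [h.1, h.2]; exact hR, h⟩
  · rw [card_eq_zero, filter_eq_empty_iff]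
    rintro p - ⟨h1, h2⟩
    simp only [Prod.mk.injEq] at h2
    rw [h2.1, h2.2] at h1
    exact hR h1

/-- forced pairs -/
def WFam_FU (lam : Fin n → Fin 4) : Finset (Fin n × Fin n) :=
  univ.filter fun p => (lam p.1 : ℕ) + 2 ≤ lam p.2

/-- free pairs -/
def WFam_FR (lam : Fin n → Fin 4) : Finset (Fin n × Fin n) :=
  univ.filter fun p => (lam p.1 : ℕ) + 1 = lam p.2

theorem WFam_card_FU (lam : Fin n → Fin 4) :
    (WFam_FU lam).card = nfu (csz lam 0) (csz lam 1) (csz lam 2) (csz lam 3) := by
  unfold WFam_FU
  rw [WFam_card_rel lam (fun i j => (i : ℕ) + 2 ≤ j)]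
  simp only [Fin.sum_univ_four, nfu]
  simp
  ring

theorem WFam_card_FR (lam : Fin n → Fin 4) :
    (WFam_FR lam).card = nfr (csz lam 0) (csz lam 1) (csz lam 2) (csz lam 3) := by
  unfold WFam_FR
  rw [WFam_card_rel lam (fun i j => (i : ℕ) + 1 = j)]
  simp only [Fin.sum_univ_four, nfr]
  simp

theorem WFam_disj (lam : Fin n → Fin 4) : Disjoint (WFam_FU lam) (WFam_FR lam) := by
  rw [disjoint_left]
  intro p h1 h2
  simp only [WFam_FU, WFam_FR, mem_filter, mem_univ, true_and] at h1 h2
  omega

theorem WFam_mem_Lay {lam : Fin n → Fin 4} {S : Finset (Fin n × Fin n)} :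
    S ∈ Lay lam ↔ S ⊆ WFam_FU lam ∪ WFam_FR lam ∧ WFam_FU lam ⊆ S := by
  rw [mem_Lay]
  refine and_congr ⟨fun h p hp => ?_, fun h p hp => ?_⟩ ⟨fun h p hp => ?_, fun h u v huv => ?_⟩
  · have := h p hp
    have h' : (lam p.1 : ℕ) < lam p.2 := this
    simp only [WFam_FU, WFam_FR, mem_union, mem_filter, mem_univ, true_and]
    omega
  · have := h hp
    simp only [WFam_FU, WFam_FR, mem_union, mem_filter, mem_univ, true_and] at this
    rw [Fin.lt_def]
    omega
  · simp only [WFam_FU, mem_filter, mem_univ, true_and] at hp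
    exact h p.1 p.2 hp
  · apply h
    simp only [WFam_FU, mem_filter, mem_univ, true_and]
    exact huv

/-- The members of `Lay lam` of size `k` are the forced pairs plus `k - nfu` of the free pairs
(`lam v = lam u + 1`); there are `nfr` free and `nfu` forced pairs (products of the layer
sizes). -/
theorem card_lay (lam : Fin n → Fin 4) (k : ℕ) :
    ((Lay lam).filter fun S => S.card = k).card =
      chz (nfr (csz lam 0) (csz lam 1) (csz lam 2) (csz lam 3)) k
        (nfu (csz lam 0) (csz lam 1) (csz lam 2) (csz lam 3)) := by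
  classical
  rw [← WFam_card_FU, ← WFam_card_FR, chz]
  have hd := WFam_disj lam
  split_ifs with hk
  · rw [← card_powersetCard]
    refine card_nbij' (fun S => S \ WFam_FU lam) (fun T => WFam_FU lam ∪ T) ?_ ?_ ?_ ?_
    · intro S hS
      simp only [mem_coe, mem_filter, WFam_mem_Lay] at hS
      obtain ⟨⟨h1, h2⟩, h3⟩ := hS
      simp only [mem_coe, mem_powersetCard]
      refine ⟨fun p hp => ?_, ?_⟩
      · rw [mem_sdiff] at hp
        exact (mem_union.1 (h1 hp.1)).resolve_left hp.2
      · rw [card_sdiff_of_subset h2, h3]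
    · intro T hT
      simp only [mem_coe, mem_powersetCard] at hT
      simp only [mem_coe, mem_filter, WFam_mem_Lay]
      refine ⟨⟨union_subset_union_right hT.1, subset_union_left⟩, ?_⟩
      rw [card_union_of_disjoint (hd.mono_right hT.1), hT.2]
      omega
    · intro S hS
      simp only [mem_coe, mem_filter, WFam_mem_Lay] at hS
      exact union_sdiff_of_subset hS.1.2
    · intro T hT
      simp only [mem_coe, mem_powersetCard] at hT
      exact union_sdiff_cancel_left (hd.mono_right hT.1)
  · rw [card_eq_zero, filter_eq_empty_iff]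
    intro S hS hc
    rw [WFam_mem_Lay] at hS
    have := card_le_card hS.2
    omega

/-- Number of layer functions with given sizes: choose the layers `0 ∪ 2`, then `0` in it, then `3`
in the complement. -/
theorem card_sizes {a b c d : ℕ} (h : a + b + c + d = n) :
    ((univ : Finset (Fin n → Fin 4)).filter fun lam =>
      csz lam 0 = a ∧ csz lam 1 = b ∧ csz lam 2 = c ∧ csz lam 3 = d).card =
      n.choose (a + c) * (a + c).choose a * (b + d).choose d := by
  classical
  have h1 : ((powersetCard (a + c) (univ : Finset (Fin n))).sigma fun P =>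
      powersetCard a P ×ˢ powersetCard d Pᶜ).card =
      n.choose (a + c) * (a + c).choose a * (b + d).choose d := by
    rw [card_sigma, sum_congr rfl (g := fun _ => (a + c).choose a * (b + d).choose d),
      sum_const, card_powersetCard, card_univ, Fintype.card_fin, smul_eq_mul, mul_assoc]
    intro P hP
    rw [mem_powersetCard] at hP
    rw [card_product, card_powersetCard, card_powersetCard, card_compl, hP.2, Fintype.card_fin]
    congr 2
    omega
  rw [← h1]
  refine card_nbij' (fun lam => ⟨univ.filter fun u => lam u = 0 ∨ lam u = 2,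
      (univ.filter fun u => lam u = 0, univ.filter fun u => lam u = 3)⟩)
    (fun x => fun u => if u ∈ x.1 then (if u ∈ x.2.1 then 0 else 2) else
      (if u ∈ x.2.2 then 3 else 1)) ?_ ?_ ?_ ?_
  · intro lam hlam
    simp only [mem_coe, mem_filter, mem_univ, true_and, csz] at hlam
    obtain ⟨e0, e1, e2, e3⟩ := hlam
    simp only [mem_coe, mem_sigma, mem_product, mem_powersetCard]
    refine ⟨⟨subset_univ _, ?_⟩, ⟨?_, e0⟩, ?_, e3⟩
    · rw [filter_or, card_union_of_disjoint, e0, e2]
      rw [disjoint_filter]
      intro u _ h0 h2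
      rw [h0] at h2
      exact absurd h2 (by decide)
    · intro u hu
      simp only [mem_filter, mem_univ, true_and] at hu ⊢
      exact Or.inl hu
    · intro u hu
      simp only [mem_filter, mem_univ, true_and, mem_compl] at hu ⊢
      rw [hu]
      decide
  · rintro ⟨P, A, D⟩ hx
    simp only [mem_coe, mem_sigma, mem_product, mem_powersetCard] at hx
    obtain ⟨⟨-, hP⟩, ⟨hA, hA'⟩, hD, hD'⟩ := hx
    simp only [mem_coe, mem_filter, mem_univ, true_and, csz]
    have f0 : (univ.filter fun u => (if u ∈ P then (if u ∈ A then 0 else 2) else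
      (if u ∈ D then 3 else 1) : Fin 4) = 0) = A := by
      ext u
      have hh : u ∈ A → u ∈ P := fun h => hA h
      simp only [mem_filter, mem_univ, true_and]
      split_ifs <;> simp_all
    have f2 : (univ.filter fun u => (if u ∈ P then (if u ∈ A then 0 else 2) else
      (if u ∈ D then 3 else 1) : Fin 4) = 2) = P \ A := by
      ext u
      simp only [mem_filter, mem_univ, true_and, mem_sdiff]
      split_ifs <;> simp_all
    have f3 : (univ.filter fun u => (if u ∈ P then (if u ∈ A then 0 else 2) else
      (if u ∈ D then 3 else 1) : Fin 4) = 3) = D := by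
      ext u
      have hh : u ∈ D → u ∉ P := fun h => mem_compl.1 (hD h)
      simp only [mem_filter, mem_univ, true_and]
      split_ifs <;> simp_all
    have f1 : (univ.filter fun u => (if u ∈ P then (if u ∈ A then 0 else 2) else
      (if u ∈ D then 3 else 1) : Fin 4) = 1) = Pᶜ \ D := by
      ext u
      simp only [mem_filter, mem_univ, true_and, mem_sdiff, mem_compl]
      split_ifs <;> simp_all
    rw [f0, f1, f2, f3, card_sdiff_of_subset hA, card_sdiff_of_subset hD, card_compl, hP, hA', hD',
      Fintype.card_fin]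
    omega
  · intro lam _
    funext u
    simp only [mem_filter, mem_univ, true_and]
    generalize lam u = i
    fin_cases i <;> simp
  · rintro ⟨P, A, D⟩ hx
    simp only [mem_coe, mem_sigma, mem_product, mem_powersetCard] at hx
    obtain ⟨⟨-, hP⟩, ⟨hA, hA'⟩, hD, hD'⟩ := hx
    have f0 : (univ.filter fun u => (if u ∈ P then (if u ∈ A then 0 else 2) else
      (if u ∈ D then 3 else 1) : Fin 4) = 0) = A := by
      ext u
      have hh : u ∈ A → u ∈ P := fun h => hA h
      simp only [mem_filter, mem_univ, true_and]
      split_ifs <;> simp_all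
    have f02 : (univ.filter fun u => (if u ∈ P then (if u ∈ A then 0 else 2) else
      (if u ∈ D then 3 else 1) : Fin 4) = 0 ∨ (if u ∈ P then (if u ∈ A then 0 else 2) else
      (if u ∈ D then 3 else 1) : Fin 4) = 2) = P := by
      ext u
      simp only [mem_filter, mem_univ, true_and]
      split_ifs <;> simp_all
    have f3 : (univ.filter fun u => (if u ∈ P then (if u ∈ A then 0 else 2) else
      (if u ∈ D then 3 else 1) : Fin 4) = 3) = D := by
      ext u
      have hh : u ∈ D → u ∉ P := fun h => mem_compl.1 (hD h)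
      simp only [mem_filter, mem_univ, true_and]
      split_ifs <;> simp_all
    simp only [f0, f02, f3]

end Pool.Agent.H.MP_82502e_co
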