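import Pool.Agent.H.MP_82502e_co.WLow2
import Pool.Agent.H.MP_82502e_co.WFam

set_option autoImplicit false

/-!
# The window: non-generic layered posets are rare
-/

namespace Pool.Agent.H.MP_82502e_co

open Finset Real

variable {n : ℕ}

/-- the free positions -/
def WLow3_fr (lam : Fin n → Fin 4) (p : Fin n × Fin n) : Prop := (lam p.1 : ℕ) + 1 = lam p.2

instance WLow3_dec (lam : Fin n → Fin 4) : DecidablePred (WLow3_fr lam) := fun p =>
  inferInstanceAs (Decidable ((lam p.1 : ℕ) + 1 = lam p.2))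

/-- the number of pairs with prescribed layers -/
theorem WLow3_card_pairs (lam : Fin n → Fin 4) (R : Fin 4 → Fin 4 → Prop)
    [∀ i j, Decidable (R i j)] :
    ((univ : Finset (Fin n × Fin n)).filter fun p => R (lam p.1) (lam p.2)).card =
      ∑ i : Fin 4, ∑ j : Fin 4, if R i j then csz lam i * csz lam j else 0 := by
  classical
  have h1 := Finset.card_eq_sum_card_fiberwise
    (s := (univ : Finset (Fin n × Fin n)).filter fun p => R (lam p.1) (lam p.2))
    (t := (univ : Finset (Fin 4 × Fin 4))) (f := fun p => (lam p.1, lam p.2))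
    (fun p _ => by simp)
  rw [h1, Fintype.sum_prod_type]
  refine Finset.sum_congr rfl fun i _ => Finset.sum_congr rfl fun j _ => ?_
  by_cases hR : R i j
  · rw [if_pos hR, csz, csz, ← Finset.card_product]
    congr 1
    ext p
    simp only [mem_filter, mem_univ, true_and, Prod.mk.injEq, mem_product]
    constructor
    · rintro ⟨-, h1, h2⟩
      exact ⟨h1, h2⟩
    · rintro ⟨h1, h2⟩
      refine ⟨?_, h1, h2⟩
      rw [h1, h2]
      exact hR
  · rw [if_neg hR, Finset.card_eq_zero, Finset.filter_eq_empty_iff]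
    intro p hp hpe
    simp only [mem_filter, mem_univ, true_and] at hp
    simp only [Prod.mk.injEq] at hpe
    rw [hpe.1, hpe.2] at hp
    exact hR hp

theorem WLow3_card_free (lam : Fin n → Fin 4) :
    Fintype.card {p : Fin n × Fin n // WLow3_fr lam p} =
      nfr (csz lam 0) (csz lam 1) (csz lam 2) (csz lam 3) := by
  rw [Fintype.card_subtype]
  have h := WLow3_card_pairs lam (fun i j => (i : ℕ) + 1 = j)
  have h2 : ((univ : Finset (Fin n × Fin n)).filter fun p => WLow3_fr lam p) =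
      (univ : Finset (Fin n × Fin n)).filter fun p => ((lam p.1 : ℕ) + 1 = lam p.2) := rfl
  rw [h2, h]
  simp [Fin.sum_univ_four, nfr]

theorem WLow3_card_forced (lam : Fin n → Fin 4) :
    ((univ : Finset (Fin n × Fin n)).filter fun p => (lam p.1 : ℕ) + 2 ≤ lam p.2).card =
      nfu (csz lam 0) (csz lam 1) (csz lam 2) (csz lam 3) := by
  rw [WLow3_card_pairs lam (fun i j => (i : ℕ) + 2 ≤ j)]
  simp [Fin.sum_univ_four, nfu]
  ring

theorem WLow3_sum_csz (lam : Fin n → Fin 4) :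
    csz lam 0 + csz lam 1 + csz lam 2 + csz lam 3 = n := by
  classical
  have h1 := Finset.card_eq_sum_card_fiberwise (s := (univ : Finset (Fin n)))
    (t := (univ : Finset (Fin 4))) (f := lam) (fun p _ => by simp)
  rw [Finset.card_univ, Fintype.card_fin, Fin.sum_univ_four] at h1
  exact h1.symm

/-- the free part -/
def WLow3_P (lam : Fin n → Fin 4) (S : Finset (Fin n × Fin n)) :
    Finset {p : Fin n × Fin n // WLow3_fr lam p} := S.subtype (WLow3_fr lam)

theorem WLow3_mem_P {lam : Fin n → Fin 4} {S : Finset (Fin n × Fin n)}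
    {p : {p : Fin n × Fin n // WLow3_fr lam p}} : p ∈ WLow3_P lam S ↔ p.1 ∈ S := by
  rw [WLow3_P, Finset.mem_subtype]

theorem WLow3_nfree {lam : Fin n → Fin 4} {S : Finset (Fin n × Fin n)} (hS : S ∈ Lay lam)
    {p : Fin n × Fin n} (hp : ¬ WLow3_fr lam p) : p ∈ S ↔ (lam p.1 : ℕ) + 2 ≤ lam p.2 := by
  rw [mem_Lay] at hS
  constructor
  · intro h
    have h1 : lam p.1 < lam p.2 := hS.1 p h
    have h2 : (lam p.1 : ℕ) < lam p.2 := h1
    have h3 : ¬ ((lam p.1 : ℕ) + 1 = lam p.2) := hp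
    omega
  · intro h
    exact hS.2 p.1 p.2 h

theorem WLow3_card {lam : Fin n → Fin 4} {S : Finset (Fin n × Fin n)} (hS : S ∈ Lay lam) :
    S.card = (WLow3_P lam S).card + nfu (csz lam 0) (csz lam 1) (csz lam 2) (csz lam 3) := by
  classical
  rw [WLow3_P, Finset.card_subtype, ← WLow3_card_forced,
    ← Finset.card_filter_add_card_filter_not (s := S) (WLow3_fr lam)]
  congr 2
  ext p
  simp only [mem_filter, mem_univ, true_and]
  constructor
  · rintro ⟨h1, h2⟩
    exact (WLow3_nfree hS h2).1 h1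
  · intro h
    have h2 : ¬ WLow3_fr lam p := by
      intro h3
      have h4 : (lam p.1 : ℕ) + 1 = lam p.2 := h3
      omega
    exact ⟨(WLow3_nfree hS h2).2 h, h2⟩

theorem WLow3_inj {lam : Fin n → Fin 4} {S S' : Finset (Fin n × Fin n)} (hS : S ∈ Lay lam)
    (hS' : S' ∈ Lay lam) (h : WLow3_P lam S = WLow3_P lam S') : S = S' := by
  ext p
  by_cases hp : WLow3_fr lam p
  · have h1 := Finset.ext_iff.1 h ⟨p, hp⟩
    rw [WLow3_mem_P, WLow3_mem_P] at h1
    exact h1
  · rw [WLow3_nfree hS hp, WLow3_nfree hS' hp]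

open scoped Classical in
/-- the block bound for layered posets -/
theorem WLow3_block (lam : Fin n → Fin 4) (k : ℕ) {T K N : ℕ}
    (hN : N = nfr (csz lam 0) (csz lam 1) (csz lam 2) (csz lam 3)) (hN0 : 0 < N)
    (hK : K + nfu (csz lam 0) (csz lam 1) (csz lam 2) (csz lam 3) = k) (hKN : K ≤ N)
    (f g : Fin T → Fin n × Fin n)
    (hff : ∀ i, WLow3_fr lam (f i)) (hgg : ∀ i, WLow3_fr lam (g i))
    (hf : Function.Injective f) (hg : Function.Injective g) (hfg : ∀ i j, f i ≠ g j) :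
    (((Lay lam).filter fun S => S.card = k ∧ ∀ i, ¬ (f i ∈ S ∧ g i ∉ S)).card : ℝ) ≤
      (N + 1) * (1 - (K : ℝ) / N * (1 - (K : ℝ) / N)) ^ T *
        ((Lay lam).filter fun S => S.card = k).card := by
  have hcN : Fintype.card {p : Fin n × Fin n // WLow3_fr lam p} = N := by
    rw [WLow3_card_free, hN]
  have h1 := card_block_le (Ω := {p : Fin n × Fin n // WLow3_fr lam p}) (T := T) (K := K)
    (fun i => ⟨f i, hff i⟩) (fun i => ⟨g i, hgg i⟩)
    (fun i j h => hf (congrArg Subtype.val h)) (fun i j h => hg (congrArg Subtype.val h))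
    (fun i j h => hfg i j (congrArg Subtype.val h)) (by rw [hcN]; exact hKN) (by rw [hcN]; exact hN0)
    (p := (K : ℝ) / N) (by rw [hcN])
  rw [hcN] at h1
  have h2 : ((Lay lam).filter fun S => S.card = k).card = N.choose K := by
    rw [card_lay, chz, if_pos (by omega), ← hN]
    congr 1
    omega
  rw [h2]
  refine le_trans ?_ h1
  norm_cast
  refine Finset.card_le_card_of_injOn (WLow3_P lam) ?_ ?_
  · intro S hS
    simp only [Finset.coe_filter, Set.mem_ofPred_eq] at hS
    simp only [Finset.coe_filter, Set.mem_ofPred_eq, mem_univ, true_and]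
    have h3 := WLow3_card hS.1
    refine ⟨by omega, fun i => ?_⟩
    rw [WLow3_mem_P, WLow3_mem_P]
    exact hS.2.2 i
  · intro S hS S' hS' h
    simp only [Finset.coe_filter, Set.mem_ofPred_eq] at hS hS'
    exact WLow3_inj hS.1 hS'.1 h

open scoped Classical in
/-- Addable pairs inside a layer are rare. -/
theorem WLow3_evA (lam : Fin n → Fin 4) (k : ℕ) {K N : ℕ}
    (hN : N = nfr (csz lam 0) (csz lam 1) (csz lam 2) (csz lam 3)) (hN0 : 0 < N)
    (hK : K + nfu (csz lam 0) (csz lam 1) (csz lam 2) (csz lam 3) = k) (hKN : K ≤ N)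
    (u v : Fin n) (huv : u ≠ v) (hl : lam u = lam v) :
    (((Lay lam).filter fun S => S.card = k ∧ (u, v) ∈ Add S).card : ℝ) ≤
      (N + 1) * (1 - (K : ℝ) / N * (1 - (K : ℝ) / N)) ^
        ((univ : Finset (Fin n)).filter fun w => (lam w : ℕ) + 1 = lam u ∨
          (lam w : ℕ) = lam u + 1).card *
        ((Lay lam).filter fun S => S.card = k).card := by
  set W := (univ : Finset (Fin n)).filter fun w => (lam w : ℕ) + 1 = lam u ∨
          (lam w : ℕ) = lam u + 1 with hW
  let e : Fin W.card ≃ W := W.equivFin.symm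
  have he : ∀ t, ((lam (e t : Fin n) : ℕ) + 1 = lam u ∨ (lam (e t : Fin n) : ℕ) = lam u + 1) := by
    intro t
    exact (mem_filter.1 (e t).2).2
  have hlv : (lam v : ℕ) = lam u := by rw [hl]
  have hinj : ∀ t t', (e t : Fin n) = e t' → t = t' := fun t t' h => e.injective (Subtype.ext h)
  have hneu : ∀ t, (e t : Fin n) ≠ u := by
    intro t h
    have h1 := he t
    rw [h] at h1
    omega
  have hnev : ∀ t, (e t : Fin n) ≠ v := by
    intro t h
    have h1 := he t
    rw [h, hlv] at h1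
    omega
  let f : Fin W.card → Fin n × Fin n := fun t =>
    if (lam (e t : Fin n) : ℕ) + 1 = lam u then ((e t : Fin n), u) else (v, (e t : Fin n))
  let g : Fin W.card → Fin n × Fin n := fun t =>
    if (lam (e t : Fin n) : ℕ) + 1 = lam u then ((e t : Fin n), v) else (u, (e t : Fin n))
  refine le_trans ?_ (WLow3_block lam k hN hN0 hK hKN f g ?_ ?_ ?_ ?_ ?_)
  · norm_cast
    refine Finset.card_le_card ?_
    intro S hS
    rw [mem_filter] at hS ⊢
    refine ⟨hS.1, hS.2.1, fun t => ?_⟩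
    have hA := hS.2.2
    rw [Add, mem_filter] at hA
    obtain ⟨-, -, -, -, hD, hU⟩ := hA
    by_cases h : (lam (e t : Fin n) : ℕ) + 1 = lam u
    · simp only [f, g, if_pos h]
      rintro ⟨h1, h2⟩
      have h3 : (e t : Fin n) ∈ Dn S u := by
        rw [Dn, mem_filter]
        exact ⟨mem_univ _, h1⟩
      have h4 := hD h3
      rw [Dn, mem_filter] at h4
      exact h2 h4.2
    · simp only [f, g, if_neg h]
      rintro ⟨h1, h2⟩
      have h3 : (e t : Fin n) ∈ Up S v := by
        rw [Up, mem_filter]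
        exact ⟨mem_univ _, h1⟩
      have h4 := hU h3
      rw [Up, mem_filter] at h4
      exact h2 h4.2
  · intro t
    have h0 := he t
    by_cases h : (lam (e t : Fin n) : ℕ) + 1 = lam u
    · simp only [f, if_pos h]
      exact h
    · simp only [f, if_neg h]
      show (lam v : ℕ) + 1 = lam (e t : Fin n)
      omega
  · intro t
    have h0 := he t
    by_cases h : (lam (e t : Fin n) : ℕ) + 1 = lam u
    · simp only [g, if_pos h]
      show (lam (e t : Fin n) : ℕ) + 1 = lam v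
      omega
    · simp only [g, if_neg h]
      show (lam u : ℕ) + 1 = lam (e t : Fin n)
      omega
  · intro t t' h
    by_cases h1 : (lam (e t : Fin n) : ℕ) + 1 = lam u
    · by_cases h2 : (lam (e t' : Fin n) : ℕ) + 1 = lam u
      · simp only [f, if_pos h1, if_pos h2, Prod.mk.injEq] at h
        exact hinj t t' h.1
      · simp only [f, if_pos h1, if_neg h2, Prod.mk.injEq] at h
        exact absurd h.1 (hnev t)
    · by_cases h2 : (lam (e t' : Fin n) : ℕ) + 1 = lam u
      · simp only [f, if_neg h1, if_pos h2, Prod.mk.injEq] at h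
        exact absurd h.2 (hneu t)
      · simp only [f, if_neg h1, if_neg h2, Prod.mk.injEq] at h
        exact hinj t t' h.2
  · intro t t' h
    by_cases h1 : (lam (e t : Fin n) : ℕ) + 1 = lam u
    · by_cases h2 : (lam (e t' : Fin n) : ℕ) + 1 = lam u
      · simp only [g, if_pos h1, if_pos h2, Prod.mk.injEq] at h
        exact hinj t t' h.1
      · simp only [g, if_pos h1, if_neg h2, Prod.mk.injEq] at h
        exact absurd h.1 (hneu t)
    · by_cases h2 : (lam (e t' : Fin n) : ℕ) + 1 = lam u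
      · simp only [g, if_neg h1, if_pos h2, Prod.mk.injEq] at h
        exact absurd h.2 (hnev t)
      · simp only [g, if_neg h1, if_neg h2, Prod.mk.injEq] at h
        exact hinj t t' h.2
  · intro t t' h
    by_cases h1 : (lam (e t : Fin n) : ℕ) + 1 = lam u
    · by_cases h2 : (lam (e t' : Fin n) : ℕ) + 1 = lam u
      · simp only [f, g, if_pos h1, if_pos h2, Prod.mk.injEq] at h
        exact huv h.2
      · simp only [f, g, if_pos h1, if_neg h2, Prod.mk.injEq] at h
        exact hneu t h.1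
    · by_cases h2 : (lam (e t' : Fin n) : ℕ) + 1 = lam u
      · simp only [f, g, if_neg h1, if_pos h2, Prod.mk.injEq] at h
        exact hnev t h.2
      · simp only [f, g, if_neg h1, if_neg h2, Prod.mk.injEq] at h
        exact huv h.1.symm

open scoped Classical in
/-- A large set of free positions is rarely full or empty. -/
theorem WLow3_evB (lam : Fin n → Fin 4) (k : ℕ) {K N : ℕ}
    (hN : N = nfr (csz lam 0) (csz lam 1) (csz lam 2) (csz lam 3)) (hN0 : 0 < N)
    (hK : K + nfu (csz lam 0) (csz lam 1) (csz lam 2) (csz lam 3) = k) (hKN : K ≤ N)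
    (M : Finset (Fin n × Fin n)) (hM : ∀ p ∈ M, WLow3_fr lam p) :
    (((Lay lam).filter fun S => S.card = k ∧ ((∀ p ∈ M, p ∉ S) ∨ ∀ p ∈ M, p ∈ S)).card : ℝ) ≤
      (N + 1) * (1 - (K : ℝ) / N * (1 - (K : ℝ) / N)) ^ (M.card / 2) *
        ((Lay lam).filter fun S => S.card = k).card := by
  let e : Fin M.card ≃ M := M.equivFin.symm
  have hlt : ∀ t : Fin (M.card / 2), 2 * (t : ℕ) + 1 < M.card := by
    intro t
    have := t.2
    omega
  have hlt' : ∀ t : Fin (M.card / 2), 2 * (t : ℕ) < M.card := by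
    intro t
    have := t.2
    omega
  have hinj : ∀ t t', ((e t : M) : Fin n × Fin n) = e t' → t = t' :=
    fun t t' h => e.injective (Subtype.ext h)
  refine le_trans ?_ (WLow3_block lam k hN hN0 hK hKN
    (fun t => (e ⟨2 * (t : ℕ), hlt' t⟩ : Fin n × Fin n))
    (fun t => (e ⟨2 * (t : ℕ) + 1, hlt t⟩ : Fin n × Fin n)) ?_ ?_ ?_ ?_ ?_)
  · norm_cast
    refine Finset.card_le_card ?_
    intro S hS
    rw [mem_filter] at hS ⊢
    refine ⟨hS.1, hS.2.1, fun t => ?_⟩
    rintro ⟨h1, h2⟩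
    rcases hS.2.2 with h | h
    · exact h _ (e _).2 h1
    · exact h2 (h _ (e _).2)
  · intro t
    exact hM _ (e _).2
  · intro t
    exact hM _ (e _).2
  · intro t t' h
    have h1 := hinj _ _ h
    rw [Fin.mk.injEq] at h1
    exact Fin.ext (by omega)
  · intro t t' h
    have h1 := hinj _ _ h
    rw [Fin.mk.injEq] at h1
    exact Fin.ext (by omega)
  · intro t t' h
    have h1 := hinj _ _ h
    rw [Fin.mk.injEq] at h1
    omega

/-- the layer as a finset -/
def WLow3_L (lam : Fin n → Fin 4) (i : Fin 4) : Finset (Fin n) := univ.filter fun u => lam u = i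

theorem WLow3_W_ge (lam : Fin n → Fin 4) (u : Fin n) (i : Fin 4)
    (hi : (i : ℕ) + 1 = lam u ∨ (i : ℕ) = lam u + 1) :
    csz lam i ≤ ((univ : Finset (Fin n)).filter fun w => (lam w : ℕ) + 1 = lam u ∨
          (lam w : ℕ) = lam u + 1).card := by
  unfold csz
  refine Finset.card_le_card ?_
  intro w hw
  rw [mem_filter] at hw ⊢
  refine ⟨mem_univ _, ?_⟩
  rw [hw.2]
  exact hi

theorem WLow3_W_ge2 (lam : Fin n → Fin 4) (u : Fin n) (i j : Fin 4) (hij : i ≠ j)
    (hi : (i : ℕ) + 1 = lam u ∨ (i : ℕ) = lam u + 1)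
    (hj : (j : ℕ) + 1 = lam u ∨ (j : ℕ) = lam u + 1) :
    csz lam i + csz lam j ≤ ((univ : Finset (Fin n)).filter fun w => (lam w : ℕ) + 1 = lam u ∨
          (lam w : ℕ) = lam u + 1).card := by
  classical
  unfold csz
  rw [← Finset.card_union_of_disjoint]
  · refine Finset.card_le_card ?_
    intro w hw
    rw [mem_union, mem_filter, mem_filter] at hw
    rw [mem_filter]
    refine ⟨mem_univ _, ?_⟩
    rcases hw with hw | hw
    · rw [hw.2]
      exact hi
    · rw [hw.2]
      exact hj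
  · rw [Finset.disjoint_left]
    intro w h1 h2
    rw [mem_filter] at h1 h2
    exact hij (h1.2.symm.trans h2.2)

/-- real inequalities for typical sizes -/
theorem WLow3_typ {n k : ℕ} {lam : Fin n → Fin 4}
    (h : Typ (1 / 1000) (1 / 100000) n k (csz lam 0, csz lam 1, csz lam 2, csz lam 3))
    (hn : 0 < n) :
    (498 / 1000 : ℝ) * n ≤ csz lam 1 ∧ (498 / 1000 : ℝ) * n ≤ (csz lam 0 : ℝ) + csz lam 2 ∧
      (498 / 1000 : ℝ) * n ≤ (csz lam 1 : ℝ) + csz lam 3 ∧
      (0 < csz lam 3 → (498 / 1000 : ℝ) * n ≤ csz lam 2) ∧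
      ∃ K N : ℕ, N = nfr (csz lam 0) (csz lam 1) (csz lam 2) (csz lam 3) ∧ 0 < N ∧
        K + nfu (csz lam 0) (csz lam 1) (csz lam 2) (csz lam 3) = k ∧ K ≤ N ∧
        (N : ℝ) ≤ (n : ℝ) ^ 2 ∧
        (76 / 100 : ℝ) ≥ 1 - (K : ℝ) / N * (1 - (K : ℝ) / N) ∧
        0 ≤ 1 - (K : ℝ) / N * (1 - (K : ℝ) / N) := by
  have hs := WLow3_sum_csz lam
  obtain ⟨h1, h2, h3⟩ := h
  simp only [yq] at h1 h2 h3
  have hsr : (csz lam 0 : ℝ) + csz lam 1 + csz lam 2 + csz lam 3 = n := by exact_mod_cast hs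
  have hnr : (0 : ℝ) < n := by exact_mod_cast hn
  rw [abs_le] at h1 h2
  push_cast at h1
  have hd : (csz lam 3 : ℝ) ≤ 1 / 1000 * n := by
    rcases h3 with h3 | h3
    · rw [h3]
      push_cast
      positivity
    · exact h3.2.le
  have g1 : (498 / 1000 : ℝ) * n ≤ csz lam 1 := by linarith [h1.1, h1.2]
  have g2 : (498 / 1000 : ℝ) * n ≤ (csz lam 0 : ℝ) + csz lam 2 := by linarith [h1.1, h1.2]
  have g3 : (498 / 1000 : ℝ) * n ≤ (csz lam 1 : ℝ) + csz lam 3 := by linarith [h1.1, h1.2]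
  have g4 : 0 < csz lam 3 → (498 / 1000 : ℝ) * n ≤ csz lam 2 := by
    intro h0
    rcases h3 with h3 | h3
    · omega
    · linarith [h1.1, h1.2, h3.1]
  refine ⟨g1, g2, g3, g4, ?_⟩
  set A : ℝ := (csz lam 0 : ℝ)
  set B : ℝ := (csz lam 1 : ℝ)
  set C : ℝ := (csz lam 2 : ℝ)
  set D : ℝ := (csz lam 3 : ℝ)
  have hA : 0 ≤ A := Nat.cast_nonneg _
  have hB : 0 ≤ B := Nat.cast_nonneg _
  have hC : 0 ≤ C := Nat.cast_nonneg _
  have hD : 0 ≤ D := Nat.cast_nonneg _
  set N := nfr (csz lam 0) (csz lam 1) (csz lam 2) (csz lam 3) with hNdef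
  set U := nfu (csz lam 0) (csz lam 1) (csz lam 2) (csz lam 3) with hUdef
  have hNr : (N : ℝ) = A * B + B * C + C * D := by
    rw [hNdef, nfr]
    push_cast
    rfl
  have hN1 : (24 / 100 : ℝ) * n ^ 2 ≤ N := by
    rw [hNr]
    have : (498 / 1000 : ℝ) * n * ((498 / 1000 : ℝ) * n) ≤ B * (A + C) :=
      mul_le_mul g1 g2 (by positivity) hB
    nlinarith [mul_nonneg hC hD, sq_nonneg (n : ℝ)]
  have hN2 : (N : ℝ) ≤ (n : ℝ) ^ 2 / 4 := by
    rw [hNr]
    have e1 : (n : ℝ) = (A + C) + (B + D) := by rw [← hsr]; ring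
    rw [e1]
    nlinarith [sq_nonneg ((A + C) - (B + D)), mul_nonneg hA hD]
  have hn2 : (0 : ℝ) < (n : ℝ) ^ 2 := by positivity
  have hNpos : (0 : ℝ) < N := by linarith
  have hUk : U ≤ k := by
    have : (U : ℝ) ≤ k := by linarith [h2.1]
    exact_mod_cast this
  have hKr : ((k - U : ℕ) : ℝ) = k - U := by
    rw [Nat.cast_sub hUk]
  have hx1 : (499 / 1000 : ℝ) ≤ ((k - U : ℕ) : ℝ) / N := by
    rw [le_div_iff₀ hNpos, hKr]
    linarith [h2.1]
  have hx2 : ((k - U : ℕ) : ℝ) / N ≤ 501 / 1000 := by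
    rw [div_le_iff₀ hNpos, hKr]
    linarith [h2.2]
  refine ⟨k - U, N, rfl, by exact_mod_cast hNpos, by omega, ?_, by linarith, ?_, ?_⟩
  · have : ((k - U : ℕ) : ℝ) ≤ N := by
      rw [hKr]
      linarith [h2.2]
    exact_mod_cast this
  · nlinarith
  · nlinarith

/-- the final numerical estimate -/
theorem WLow3_num : ∃ n0 : ℕ, ∀ n ≥ n0, ∀ N : ℝ, 0 ≤ N → N ≤ (n : ℝ) ^ 2 →
    ((n : ℝ) ^ 2 + 16) * ((N + 1) * exp (-(24 / 100) * (2 / 10 * n - 1))) ≤
      exp (-(1 / 100 * n)) := by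
  have h1 := isLittleO_pow_exp_pos_mul_atTop 5 (show (0 : ℝ) < 38 / 1000 by norm_num)
  have h2 := (h1.bound (show (0 : ℝ) < 1 by norm_num)).and (Filter.eventually_ge_atTop (100 : ℝ))
  obtain ⟨x0, hx0⟩ := Filter.eventually_atTop.1 h2
  refine ⟨⌈x0⌉₊, fun n hn N hN0 hN => ?_⟩
  have hnx : x0 ≤ (n : ℝ) := (Nat.le_ceil x0).trans (by exact_mod_cast hn)
  obtain ⟨h3, h4⟩ := hx0 n hnx
  rw [one_mul, norm_eq_abs, norm_eq_abs, abs_of_nonneg (by positivity),
    abs_of_nonneg (exp_pos _).le] at h3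
  set x : ℝ := (n : ℝ)
  have h5 : exp (-(24 / 100) * (2 / 10 * x - 1)) = exp (24 / 100) * exp (-(1 / 100 * x)) *
      exp (-(38 / 1000 * x)) := by
    rw [← exp_add, ← exp_add]
    congr 1
    ring
  have h6 : exp (24 / 100 : ℝ) ≤ 3 := by
    have h7 := exp_one_lt_d9
    have h8 : exp (24 / 100 : ℝ) ≤ exp 1 := exp_le_exp.2 (by norm_num)
    linarith
  have h9 : (x ^ 2 + 16) * (N + 1) * 3 ≤ x ^ 5 := by
    have h10 : (x ^ 2 + 16) * (N + 1) ≤ (x ^ 2 + 16) * (x ^ 2 + 1) :=
      mul_le_mul_of_nonneg_left (by linarith) (by positivity)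
    have h11 : (x ^ 2 + 16) ≤ 2 * x ^ 2 := by nlinarith
    have h12 : (x ^ 2 + 1) ≤ 2 * x ^ 2 := by nlinarith
    have h13 : (x ^ 2 + 16) * (x ^ 2 + 1) ≤ (2 * x ^ 2) * (2 * x ^ 2) :=
      mul_le_mul h11 h12 (by positivity) (by positivity)
    have h14 : 12 * x ^ 4 ≤ x ^ 5 := by
      have : x ^ 5 = x * x ^ 4 := by ring
      rw [this]
      exact mul_le_mul_of_nonneg_right (by linarith) (by positivity)
    nlinarith
  have h15 : exp (38 / 1000 * x) * exp (-(38 / 1000 * x)) = 1 := by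
    rw [← exp_add]
    simp
  have hE := (exp_pos (-(1 / 100 * x))).le
  have hE2 := (exp_pos (-(38 / 1000 * x))).le
  calc (x ^ 2 + 16) * ((N + 1) * exp (-(24 / 100) * (2 / 10 * x - 1)))
      = ((x ^ 2 + 16) * (N + 1) * exp (24 / 100)) * exp (-(38 / 1000 * x)) *
        exp (-(1 / 100 * x)) := by rw [h5]; ring
    _ ≤ (exp (38 / 1000 * x)) * exp (-(38 / 1000 * x)) * exp (-(1 / 100 * x)) := by
        refine mul_le_mul_of_nonneg_right (mul_le_mul_of_nonneg_right ?_ hE2) hE
        refine le_trans (mul_le_mul_of_nonneg_left h6 (by positivity)) (h9.trans h3)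
    _ = exp (-(1 / 100 * x)) := by rw [h15, one_mul]

open scoped Classical in
/-- **Non-generic posets are rare.** For a canonical `lam` with typical sizes (`η = 1/1000`, `κ = 1/10^5`).
Proof. `Lay lam ∩ {|S| = k}` corresponds to the `K`-subsets (`K = k - nfu`) of the `N` free positions. (i) Addable `(u,v)`, `lam u = lam v = i`: for every `w` in layer `i-1`: not (`(w,u) ∈ S` and `(w,v) ∉ S`); every `w` in layer `i+1`:
not (`(v,w) ∈ S`, `(u,w) ∉ S`): `card_block_le` with `T` = number of points in layers `i-1`, `i+1`; `T ≥ 0.4 n`: layer 0: `b`; 1: `a+c`; 2: `b+d`; 3 (then `a,d < η n`): `c`. (ii) consecutive nonempty layers of sizes `s, t ≥ 1`, one of them `≥ 0.4 n`: no relation at all, or all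
relations: at most `choose (N-st) K` resp. `choose (N-st) (K-st)` `≤ (0.6)^{0.4 n} choose N K` (`choose_sub_le`, `choose_sub_sub_le` in `Ent.lean`). Here `K/N ∈ [0.4, 0.6]`. Union over `u, v` and `i`. -/
theorem nongen_le : ∃ c : ℝ, 0 < c ∧ ∃ n0 : ℕ, ∀ n ≥ n0, ∀ k : ℕ, ∀ lam : Fin n → Fin 4, Can lam →
    Typ (1 / 1000) (1 / 100000) n k (csz lam 0, csz lam 1, csz lam 2, csz lam 3) →
    (((Lay lam).filter fun S => S.card = k ∧ ¬ Gen lam S).card : ℝ) ≤
      exp (-(c * n)) * ((Lay lam).filter fun S => S.card = k).card := by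
  obtain ⟨n0, hn0⟩ := WLow3_num
  refine ⟨1 / 100, by norm_num, max n0 1, fun n hn k lam hcan htyp => ?_⟩
  have hn1 : n0 ≤ n := (le_max_left _ _).trans hn
  have hnpos : 0 < n := lt_of_lt_of_le Nat.one_pos ((le_max_right _ _).trans hn)
  have hnr : (0 : ℝ) < n := by exact_mod_cast hnpos
  obtain ⟨g1, g2, g3, g4, K, N, hN, hN0, hK, hKN, hNn, hq1, hq0⟩ := WLow3_typ htyp hnpos
  set q : ℝ := 1 - (K : ℝ) / N * (1 - (K : ℝ) / N) with hq
  set L : ℝ := (((Lay lam).filter fun S => S.card = k).card : ℝ) with hL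
  have hL0 : 0 ≤ L := Nat.cast_nonneg _
  set E : ℝ := exp (-(24 / 100) * (2 / 10 * n - 1)) with hE
  have hpow : ∀ T : ℕ, (2 / 10 : ℝ) * n - 1 ≤ T → q ^ T ≤ E := by
    intro T hT
    have h1 : q ≤ exp (-(24 / 100)) := by
      have := add_one_le_exp (-(24 / 100) : ℝ)
      linarith
    calc q ^ T ≤ exp (-(24 / 100)) ^ T := pow_le_pow_left₀ hq0 h1 T
      _ = exp (-(24 / 100) * T) := by rw [← exp_nat_mul, mul_comm]
      _ ≤ E := by
        rw [hE]
        exact exp_le_exp.2 (by nlinarith)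
  have hNr : (0 : ℝ) ≤ N := Nat.cast_nonneg _
  have hbd : ∀ T : ℕ, (2 / 10 : ℝ) * n - 1 ≤ T → ((N : ℝ) + 1) * q ^ T * L ≤ (N + 1) * E * L := by
    intro T hT
    exact mul_le_mul_of_nonneg_right (mul_le_mul_of_nonneg_left (hpow T hT) (by positivity)) hL0
  let EA : Fin n × Fin n → Finset (Finset (Fin n × Fin n)) := fun p =>
    (Lay lam).filter fun S => S.card = k ∧ p ∈ Add S
  let EB : Fin 4 × Fin 4 → Finset (Finset (Fin n × Fin n)) := fun p =>
    (Lay lam).filter fun S => S.card = k ∧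
      ((∀ r ∈ WLow3_L lam p.1 ×ˢ WLow3_L lam p.2, r ∉ S) ∨
        ∀ r ∈ WLow3_L lam p.1 ×ˢ WLow3_L lam p.2, r ∈ S)
  let IA : Finset (Fin n × Fin n) := univ.filter fun p => p.1 ≠ p.2 ∧ lam p.1 = lam p.2
  let IB : Finset (Fin 4 × Fin 4) := univ.filter fun p => (p.1 : ℕ) + 1 = p.2 ∧
    (∃ u, lam u = p.1) ∧ ∃ u, lam u = p.2
  have hsub : ((Lay lam).filter fun S => S.card = k ∧ ¬ Gen lam S) ⊆
      IA.biUnion EA ∪ IB.biUnion EB := by
    intro S hS
    rw [mem_filter] at hS
    obtain ⟨hS1, hS2, hS3⟩ := hS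
    rw [mem_union, mem_biUnion, mem_biUnion]
    rw [Gen, not_and_or] at hS3
    rcases hS3 with h | h
    · left
      push Not at h
      obtain ⟨u, v, h1, h2⟩ := h
      have h3 : u ≠ v := by
        have h4 := h2
        rw [Add, mem_filter] at h4
        exact h4.2.1
      exact ⟨(u, v), mem_filter.2 ⟨mem_univ _, h3, h1⟩, mem_filter.2 ⟨hS1, hS2, h2⟩⟩
    · right
      rw [not_forall] at h
      obtain ⟨i, h⟩ := h
      rw [not_forall] at h
      obtain ⟨j, h⟩ := h
      rw [Classical.not_imp, Classical.not_imp, Classical.not_imp, not_and_or] at h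
      obtain ⟨h1, h2, h3, h4⟩ := h
      refine ⟨(i, j), mem_filter.2 ⟨mem_univ _, h1, h2, h3⟩, mem_filter.2 ⟨hS1, hS2, ?_⟩⟩
      rcases h4 with h4 | h4
      · left
        intro r hr hrS
        rw [mem_product, WLow3_L, WLow3_L, mem_filter, mem_filter] at hr
        exact h4 ⟨r.1, r.2, hr.1.2, hr.2.2, hrS⟩
      · right
        intro r hr
        by_contra hrS
        rw [mem_product, WLow3_L, WLow3_L, mem_filter, mem_filter] at hr
        exact h4 ⟨r.1, r.2, hr.1.2, hr.2.2, hrS⟩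
  have hEA : ∀ p ∈ IA, ((EA p).card : ℝ) ≤ (N + 1) * E * L := by
    intro p hp
    rw [mem_filter] at hp
    obtain ⟨-, h1, h2⟩ := hp
    refine (WLow3_evA lam k hN hN0 hK hKN p.1 p.2 h1 h2).trans (hbd _ ?_)
    set T := ((univ : Finset (Fin n)).filter fun w => (lam w : ℕ) + 1 = lam p.1 ∨
          (lam w : ℕ) = lam p.1 + 1).card
    have h3 : (498 / 1000 : ℝ) * n ≤ T := by
      obtain ⟨i, hi⟩ : ∃ i, lam p.1 = i := ⟨_, rfl⟩
      fin_cases i
      · have h4 := WLow3_W_ge lam p.1 1 (by rw [hi]; right; rfl)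
        have h5 : (csz lam 1 : ℝ) ≤ T := by exact_mod_cast h4
        linarith
      · have h4 := WLow3_W_ge2 lam p.1 0 2 (by decide) (by rw [hi]; left; rfl) (by rw [hi]; right; rfl)
        have h5 : (csz lam 0 : ℝ) + csz lam 2 ≤ T := by exact_mod_cast h4
        linarith
      · have h4 := WLow3_W_ge2 lam p.1 1 3 (by decide) (by rw [hi]; left; rfl) (by rw [hi]; right; rfl)
        have h5 : (csz lam 1 : ℝ) + csz lam 3 ≤ T := by exact_mod_cast h4
        linarith
      · have h4 := WLow3_W_ge lam p.1 2 (by rw [hi]; left; rfl)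
        have h5 : (csz lam 2 : ℝ) ≤ T := by exact_mod_cast h4
        have h6 : 0 < csz lam 3 := Finset.card_pos.2 ⟨p.1, mem_filter.2 ⟨mem_univ _, hi⟩⟩
        linarith [g4 h6]
    linarith
  have hEB : ∀ p ∈ IB, ((EB p).card : ℝ) ≤ (N + 1) * E * L := by
    intro p hp
    rw [mem_filter] at hp
    obtain ⟨-, h1, ⟨u, hu⟩, ⟨v, hv⟩⟩ := hp
    refine (WLow3_evB lam k hN hN0 hK hKN (WLow3_L lam p.1 ×ˢ WLow3_L lam p.2) ?_).trans
      (hbd _ ?_)
    · intro r hr
      rw [mem_product, WLow3_L, WLow3_L, mem_filter, mem_filter] at hr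
      show (lam r.1 : ℕ) + 1 = lam r.2
      rw [hr.1.2, hr.2.2]
      exact h1
    · have hcard : (WLow3_L lam p.1 ×ˢ WLow3_L lam p.2).card = csz lam p.1 * csz lam p.2 :=
        Finset.card_product _ _
      have hp1 : 0 < csz lam p.1 := Finset.card_pos.2 ⟨u, mem_filter.2 ⟨mem_univ _, hu⟩⟩
      have hp2 : 0 < csz lam p.2 := Finset.card_pos.2 ⟨v, mem_filter.2 ⟨mem_univ _, hv⟩⟩
      have h3 : (498 / 1000 : ℝ) * n ≤ (csz lam p.1 * csz lam p.2 : ℕ) := by
        obtain ⟨i, j⟩ := p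
        simp only at h1 hp1 hp2 hu hv ⊢
        have hle1 : csz lam i ≤ csz lam i * csz lam j := Nat.le_mul_of_pos_right _ hp2
        have hle2 : csz lam j ≤ csz lam i * csz lam j := Nat.le_mul_of_pos_left _ hp1
        have hle1' : (csz lam i : ℝ) ≤ (csz lam i * csz lam j : ℕ) := by exact_mod_cast hle1
        have hle2' : (csz lam j : ℝ) ≤ (csz lam i * csz lam j : ℕ) := by exact_mod_cast hle2
        fin_cases i
        · have hj : j = 1 := Fin.ext (by simpa using h1.symm)
          subst hj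
          exact g1.trans hle2'
        · exact g1.trans hle1'
        · have hj : j = 3 := Fin.ext (by simpa using h1.symm)
          subst hj
          exact (g4 hp2).trans hle1'
        · exfalso
          have := j.2
          simp at h1
          omega
      have h4 : ((csz lam p.1 * csz lam p.2 : ℕ) : ℝ) / 2 - 1 ≤
          ((WLow3_L lam p.1 ×ˢ WLow3_L lam p.2).card / 2 : ℕ) := by
        rw [hcard]
        have h5 : csz lam p.1 * csz lam p.2 ≤ 2 * (csz lam p.1 * csz lam p.2 / 2) + 1 := by omega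
        have h6 : ((csz lam p.1 * csz lam p.2 : ℕ) : ℝ) ≤
            2 * ((csz lam p.1 * csz lam p.2 / 2 : ℕ) : ℝ) + 1 := by exact_mod_cast h5
        linarith
      linarith
  have hIA : (IA.card : ℝ) ≤ (n : ℝ) ^ 2 := by
    have h1 : IA.card ≤ (univ : Finset (Fin n × Fin n)).card := Finset.card_filter_le _ _
    rw [Finset.card_univ, Fintype.card_prod, Fintype.card_fin] at h1
    rw [sq]
    exact_mod_cast h1
  have hIB : (IB.card : ℝ) ≤ 16 := by
    have h1 : IB.card ≤ (univ : Finset (Fin 4 × Fin 4)).card := Finset.card_filter_le _ _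
    rw [Finset.card_univ, Fintype.card_prod, Fintype.card_fin] at h1
    exact_mod_cast h1
  have hG0 : 0 ≤ ((N : ℝ) + 1) * E * L := by positivity
  have h1 : (((Lay lam).filter fun S => S.card = k ∧ ¬ Gen lam S).card : ℝ) ≤
      ∑ p ∈ IA, ((EA p).card : ℝ) + ∑ p ∈ IB, ((EB p).card : ℝ) := by
    have h2 := (Finset.card_le_card hsub).trans ((Finset.card_union_le _ _).trans
      (add_le_add Finset.card_biUnion_le Finset.card_biUnion_le))
    exact_mod_cast h2
  have h2 : ∑ p ∈ IA, ((EA p).card : ℝ) ≤ IA.card * ((N + 1) * E * L) := by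
    rw [← nsmul_eq_mul]
    exact Finset.sum_le_card_nsmul _ _ _ hEA
  have h3 : ∑ p ∈ IB, ((EB p).card : ℝ) ≤ IB.card * ((N + 1) * E * L) := by
    rw [← nsmul_eq_mul]
    exact Finset.sum_le_card_nsmul _ _ _ hEB
  have h4 := hn0 n hn1 N hNr hNn
  calc (((Lay lam).filter fun S => S.card = k ∧ ¬ Gen lam S).card : ℝ)
      ≤ IA.card * ((N + 1) * E * L) + IB.card * ((N + 1) * E * L) := by linarith
    _ ≤ ((n : ℝ) ^ 2 + 16) * ((N + 1) * E * L) := by
        have h5 := add_le_add (mul_le_mul_of_nonneg_right hIA hG0)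
          (mul_le_mul_of_nonneg_right hIB hG0)
        rw [← add_mul ((n : ℝ) ^ 2) 16] at h5
        exact h5
    _ = (((n : ℝ) ^ 2 + 16) * ((N + 1) * E)) * L := by ring
    _ ≤ exp (-(1 / 100 * n)) * L := mul_le_mul_of_nonneg_right h4 hL0

end Pool.Agent.H.MP_82502e_co
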