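import Pool.Agent.H.MP_82502e_co.WLow1
import Pool.Agent.H.MP_82502e_co.WLow3
import Pool.Agent.H.MP_82502e_co.WFour2

set_option autoImplicit false

/-!
# The window: lower bound
-/

namespace Pool.Agent.H.MP_82502e_co

open Finset Real

variable {n : ℕ}

/-- the vector of layer sizes. -/
def WLow_sz (lam : Fin n → Fin 4) : ℕ × ℕ × ℕ × ℕ :=
  (csz lam 0, csz lam 1, csz lam 2, csz lam 3)

theorem WLow_one_le_csz {lam : Fin n → Fin 4} {i : Fin 4} : 1 ≤ csz lam i ↔ ∃ u, lam u = i := by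
  unfold csz
  rw [Nat.one_le_iff_ne_zero, ← Nat.pos_iff_ne_zero, card_pos]
  constructor
  · rintro ⟨u, hu⟩
    exact ⟨u, (mem_filter.1 hu).2⟩
  · rintro ⟨u, hu⟩
    exact ⟨u, mem_filter.2 ⟨mem_univ _, hu⟩⟩

theorem WLow_sum_csz (lam : Fin n → Fin 4) :
    csz lam 0 + csz lam 1 + csz lam 2 + csz lam 3 = n := by
  have h := card_eq_sum_card_fiberwise (s := (univ : Finset (Fin n))) (t := (univ : Finset (Fin 4)))
    (f := lam) (fun x _ => by simp)
  rw [Fin.sum_univ_four] at h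
  unfold csz
  rw [card_univ, Fintype.card_fin] at h
  exact h.symm

theorem WLow_can_iff (lam : Fin n → Fin 4) : Can lam ↔ WLow_sz lam ∈ CanQ n := by
  have hs := WLow_sum_csz lam
  unfold CanQ WLow_sz
  simp only [mem_filter, mem_product, mem_range]
  unfold Can
  rw [← WLow_one_le_csz, ← WLow_one_le_csz, ← WLow_one_le_csz, ← WLow_one_le_csz]
  constructor
  · rintro ⟨h1, h2, h3⟩
    refine ⟨⟨?_, ?_, ?_, ?_⟩, hs, h1, h2, h3⟩ <;> omega
  · rintro ⟨_, _, h1, h2, h3⟩
    exact ⟨h1, h2, h3⟩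

open scoped Classical in
/-- fibering over the sizes. -/
theorem WLow_fib (n k : ℕ) (P : ℕ × ℕ × ℕ × ℕ → Prop) :
    ∑ lam ∈ (univ : Finset (Fin n → Fin 4)).filter (fun lam => Can lam ∧ P (WLow_sz lam)),
      ((Lay lam).filter fun S => S.card = k).card = ∑ x ∈ (CanQ n).filter P, tmx x k := by
  rw [← sum_fiberwise_of_maps_to (s := (univ : Finset (Fin n → Fin 4)).filter
    (fun lam => Can lam ∧ P (WLow_sz lam))) (t := (CanQ n).filter P) (g := WLow_sz)
    (fun lam hlam => by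
      rw [mem_filter] at hlam ⊢
      exact ⟨(WLow_can_iff lam).1 hlam.2.1, hlam.2.2⟩)]
  refine sum_congr rfl ?_
  intro x hx
  rw [mem_filter] at hx
  obtain ⟨a, b, c, d⟩ := x
  have hsum : a + b + c + d = n := by
    have h := hx.1
    unfold CanQ at h
    rw [mem_filter] at h
    exact h.2.1
  have e : ((univ : Finset (Fin n → Fin 4)).filter (fun lam => Can lam ∧ P (WLow_sz lam))).filter
      (fun lam => WLow_sz lam = (a, b, c, d)) = (univ : Finset (Fin n → Fin 4)).filter fun lam =>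
      csz lam 0 = a ∧ csz lam 1 = b ∧ csz lam 2 = c ∧ csz lam 3 = d := by
    ext lam
    simp only [mem_filter, mem_univ, true_and]
    constructor
    · rintro ⟨_, h⟩
      simpa [WLow_sz] using h
    · intro h
      have h2 : WLow_sz lam = (a, b, c, d) := by simpa [WLow_sz] using h
      refine ⟨⟨(WLow_can_iff lam).2 (h2 ▸ hx.1), h2 ▸ hx.2⟩, h2⟩
  rw [e, sum_congr rfl (g := fun _ => chz (nfr a b c d) k (nfu a b c d))]
  · rw [sum_const, card_sizes hsum, smul_eq_mul]
    simp only [tmx, tm]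
    rw [hsum]
  · intro lam hlam
    rw [mem_filter] at hlam
    obtain ⟨_, h1, h2, h3, h4⟩ := hlam
    rw [card_lay, h1, h2, h3, h4]

/-- `Typ` is monotone in `κ`. -/
theorem WLow_typ_mono {η κ κ' : ℝ} (h : κ ≤ κ') {n k : ℕ} {x : ℕ × ℕ × ℕ × ℕ}
    (hx : Typ η κ n k x) : Typ η κ' n k x := by
  refine ⟨hx.1, hx.2.1.trans ?_, hx.2.2⟩
  exact mul_le_mul_of_nonneg_right h (sq_nonneg _)

open scoped Classical in
/-- the disjoint union over the typical canonical layer functions. -/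
theorem WLow_cnt (n k : ℕ) (T : Finset (Fin n → Fin 4)) (hT : ∀ lam ∈ T, Can lam) :
    ∑ lam ∈ T, ((Lay lam).filter fun S => S.card = k ∧ Gen lam S).card ≤ cnt n k := by
  rw [← card_biUnion]
  · unfold cnt
    apply card_le_card
    intro S hS
    rw [mem_biUnion] at hS
    obtain ⟨lam, hlam, h⟩ := hS
    rw [mem_filter] at h
    unfold PO
    rw [mem_filter]
    exact ⟨mem_univ _, lay_isPO h.1, h.2.1⟩
  · intro lam hlam lam' hlam' hne
    refine Finset.disjoint_left.2 ?_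
    intro S h1 h2
    rw [mem_filter] at h1 h2
    exact hne (gen_unique (hT lam hlam) (hT lam' hlam') h1.1 h2.1 h1.2.2)

/-- **Lower bound.** `cnt n k ≥ Σ_{lam canonical, typical} #{S ∈ Lay lam, |S| = k, Gen lam S}` (disjoint by `gen_unique`) `≥ (1 - exp(-cn)) Σ_{typical} #(Lay lam)_k ≥ (1 - exp(-c'n)) Fs n k` by `nontyp` (`κ = min κ0 (1/10^5)`; `Typ` is monotone in `κ`), `Fs_eq`. -/
theorem lower : ∃ δ : ℝ, 0 < δ ∧ ∃ c : ℝ, 0 < c ∧ ∃ n0 : ℕ, ∀ n ≥ n0, ∀ k : ℕ, Win δ n k →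
    (1 - exp (-(c * n))) * (Fs n k : ℝ) ≤ cnt n k := by
  classical
  obtain ⟨κ0, hκ0, H⟩ := nontyp (η := 1 / 1000) (by norm_num) le_rfl
  obtain ⟨δ, hδ, c1, hc1, n1, H1⟩ := H (min κ0 (1 / 100000)) (lt_min hκ0 (by norm_num))
    (min_le_left _ _)
  obtain ⟨c2, hc2, n2, H2⟩ := nongen_le
  set c' := min c1 c2 with hc'
  have hc'0 : 0 < c' := lt_min hc1 hc2
  refine ⟨δ, hδ, c' / 2, by positivity, max (max n1 n2) (⌈2 / c'⌉₊), ?_⟩
  intro n hn k hk
  have hn1 : n ≥ n1 := le_trans (le_trans (le_max_left _ _) (le_max_left _ _)) hn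
  have hn2 : n ≥ n2 := le_trans (le_trans (le_max_right _ _) (le_max_left _ _)) hn
  have hn3 : 2 / c' ≤ n := (Nat.le_ceil _).trans (by exact_mod_cast le_trans (le_max_right _ _) hn)
  set T := (univ : Finset (Fin n → Fin 4)).filter (fun lam => Can lam ∧
    Typ (1 / 1000) (1 / 100000) n k (WLow_sz lam)) with hT
  have hTc : ∀ lam ∈ T, Can lam := fun lam h => (mem_filter.1 h).2.1
  have hcnt := WLow_cnt n k T hTc
  -- generic part of each term
  have hgen : ∀ lam ∈ T, (1 - exp (-(c2 * n))) * (((Lay lam).filter fun S => S.card = k).card : ℝ) ≤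
      (((Lay lam).filter fun S => S.card = k ∧ Gen lam S).card : ℝ) := by
    intro lam hlam
    have h1 := H2 n hn2 k lam (hTc lam hlam) (mem_filter.1 hlam).2.2
    have h2 : ((Lay lam).filter fun S => S.card = k).card =
        ((Lay lam).filter fun S => S.card = k ∧ Gen lam S).card +
        ((Lay lam).filter fun S => S.card = k ∧ ¬ Gen lam S).card := by
      rw [← filter_filter, ← filter_filter, card_filter_add_card_filter_not]
    have h3 : (((Lay lam).filter fun S => S.card = k).card : ℝ) =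
        (((Lay lam).filter fun S => S.card = k ∧ Gen lam S).card : ℝ) +
        (((Lay lam).filter fun S => S.card = k ∧ ¬ Gen lam S).card : ℝ) := by
      exact_mod_cast h2
    linarith
  have hA : (1 - exp (-(c2 * n))) * ((∑ lam ∈ T, ((Lay lam).filter fun S => S.card = k).card : ℕ) : ℝ)
      ≤ cnt n k := by
    push_cast
    rw [mul_sum]
    refine (sum_le_sum hgen).trans ?_
    exact_mod_cast hcnt
  have hB := WLow_fib n k (fun x => Typ (1 / 1000) (1 / 100000) n k x)
  rw [← hT] at hB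
  rw [hB] at hA
  -- the non-typical part
  have hC : (Fs n k : ℝ) = ((∑ x ∈ (CanQ n).filter (fun x => Typ (1 / 1000) (1 / 100000) n k x),
      tmx x k : ℕ) : ℝ) + ((∑ x ∈ (CanQ n).filter
        (fun x => ¬ Typ (1 / 1000) (1 / 100000) n k x), tmx x k : ℕ) : ℝ) := by
    unfold Fs
    rw [← sum_filter_add_sum_filter_not (CanQ n)
      (fun x => Typ (1 / 1000) (1 / 100000) n k x) (fun x => tmx x k)]
    push_cast
    ring
  have hD : ((∑ x ∈ (CanQ n).filter
      (fun x => ¬ Typ (1 / 1000) (1 / 100000) n k x), tmx x k : ℕ) : ℝ) ≤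
      exp (-(c1 * n)) * Fs n k := by
    have h1 := H1 n hn1 k hk
    have h2 : (F3 n k : ℝ) ≤ Fs n k := by
      have := Fs_split n k
      rw [this]
      push_cast
      have : (0 : ℝ) ≤ F4 n k := Nat.cast_nonneg _
      linarith
    have h3 : exp (-(c1 * n)) * (F3 n k : ℝ) ≤ exp (-(c1 * n)) * Fs n k :=
      mul_le_mul_of_nonneg_left h2 (exp_pos _).le
    refine le_trans ?_ (h1.trans h3)
    push_cast
    refine sum_le_sum_of_subset_of_nonneg ?_ (fun _ _ _ => Nat.cast_nonneg _)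
    intro x hx
    rw [mem_filter] at hx ⊢
    exact ⟨hx.1, fun hc => hx.2 (WLow_typ_mono (min_le_right _ _) hc)⟩
  have hF : (0 : ℝ) ≤ Fs n k := Nat.cast_nonneg _
  have hn0 : (0 : ℝ) ≤ n := Nat.cast_nonneg n
  have e1 : exp (-(c1 * n)) ≤ exp (-(c' * n)) := by
    apply exp_le_exp.2
    have := mul_le_mul_of_nonneg_right (min_le_left c1 c2) hn0
    linarith
  have e2 : exp (-(c2 * n)) ≤ exp (-(c' * n)) := by
    apply exp_le_exp.2
    have := mul_le_mul_of_nonneg_right (min_le_right c1 c2) hn0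
    linarith
  have e3 : 2 * exp (-(c' * n)) ≤ exp (-(c' / 2 * n)) := by
    have h1 : exp (-(c' * n)) = exp (-(c' / 2 * n)) * exp (-(c' / 2 * n)) := by
      rw [← exp_add]; congr 1; ring
    have h2 : exp (-(c' / 2 * n)) ≤ 1 / 2 := by
      rw [exp_neg, inv_eq_one_div]
      apply one_div_le_one_div_of_le (by norm_num)
      have h3 : 1 ≤ c' / 2 * n := by
        have := mul_le_mul_of_nonneg_left hn3 (by positivity : (0 : ℝ) ≤ c' / 2)
        have h4 : c' / 2 * (2 / c') = 1 := by field_simp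
        linarith
      have := add_one_le_exp (c' / 2 * n)
      linarith
    rw [h1]
    have := exp_pos (-(c' / 2 * n))
    nlinarith
  set t := ((∑ x ∈ (CanQ n).filter (fun x => Typ (1 / 1000) (1 / 100000) n k x),
      tmx x k : ℕ) : ℝ) with ht
  have ht0 : 0 ≤ t := Nat.cast_nonneg _
  have h5 : (1 - exp (-(c1 * n))) * (Fs n k : ℝ) ≤ t := by linarith
  have h6 : exp (-(c2 * n)) ≤ 1 := by
    rw [exp_le_one_iff]
    have := mul_nonneg hc2.le hn0
    linarith
  have h7 : (1 - exp (-(c2 * n))) * ((1 - exp (-(c1 * n))) * (Fs n k : ℝ)) ≤ cnt n k :=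
    (mul_le_mul_of_nonneg_left h5 (by linarith)).trans hA
  refine le_trans ?_ h7
  have h8 : 1 - exp (-(c' / 2 * n)) ≤ (1 - exp (-(c2 * n))) * (1 - exp (-(c1 * n))) := by
    have h9 := exp_pos (-(c1 * (n : ℝ)))
    have h10 := exp_pos (-(c2 * (n : ℝ)))
    nlinarith [mul_pos h9 h10]
  calc (1 - exp (-(c' / 2 * n))) * (Fs n k : ℝ)
      ≤ ((1 - exp (-(c2 * n))) * (1 - exp (-(c1 * n)))) * (Fs n k : ℝ) :=
        mul_le_mul_of_nonneg_right h8 hF
    _ = _ := by ring

end Pool.Agent.H.MP_82502e_co
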