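import Pool.Agent.H.MP_82502e_co.WFour2

set_option autoImplicit false

/-!
# The window: ratio bound for Fs
-/

namespace Pool.Agent.H.MP_82502e_co

open Finset Real

theorem WRatio_rpow : (2 : ℝ) ^ ((19 : ℝ) / 20) ≤ 97 / 50 := by
  have h : ((2 : ℝ) ^ ((19 : ℝ) / 20)) ^ (20 : ℕ) ≤ (97 / 50 : ℝ) ^ (20 : ℕ) := by
    rw [← Real.rpow_natCast, ← Real.rpow_mul (by norm_num)]
    norm_num
  exact le_of_pow_le_pow_left₀ (by norm_num) (by norm_num) h

/-- The exponent is small. -/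
theorem WRatio_exp {n N : ℕ} {m v : ℝ} (hn : 200000 ≤ n) (hN1 : 24 / 100 * (n : ℝ) ^ 2 ≤ N)
    (hm0 : 0 ≤ m) (hm : m ≤ (n : ℝ) ^ 2 / 100000) (hv0 : 0 ≤ v) (hv : v ≤ n + 1) :
    41 / 10 / (N : ℝ) * (m * v + v ^ 2) ≤ n / 1000 := by
  have hn' : (200000 : ℝ) ≤ n := by exact_mod_cast hn
  have hN0 : (0 : ℝ) < N := by nlinarith
  rw [div_mul_eq_mul_div, div_le_iff₀ hN0]
  have h1 : m * v ≤ (n : ℝ) ^ 2 / 100000 * (n + 1) := mul_le_mul hm hv hv0 (by positivity)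
  have h2 : v ^ 2 ≤ ((n : ℝ) + 1) ^ 2 := pow_le_pow_left₀ hv0 hv 2
  have h3 : (n : ℝ) / 1000 * (24 / 100 * (n : ℝ) ^ 2) ≤ n / 1000 * N :=
    mul_le_mul_of_nonneg_left hN1 (by positivity)
  have h4 : (200000 : ℝ) * (n : ℝ) ^ 2 ≤ n * (n : ℝ) ^ 2 :=
    mul_le_mul_of_nonneg_right hn' (by positivity)
  nlinarith

/-- The binomial inequality. -/
theorem WRatio_core {n N K' K l : ℕ} (hn : 200000 ≤ n) (hN1 : 24 / 100 * (n : ℝ) ^ 2 ≤ N)
    (hl1 : 499 / 1000 * (n : ℝ) ≤ l) (hl2 : (l : ℝ) ≤ 501 / 1000 * n)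
    (hK' : |(K' : ℝ) - N / 2| ≤ (n : ℝ) ^ 2 / 100000) (hK1 : K ≤ K' + (n + 1))
    (hK2 : K' ≤ K + (n + 1)) :
    (2 : ℝ) ^ (47 / 100 * (n : ℝ)) * (N.choose K' : ℝ) ≤ ((N + l).choose K : ℝ) := by
  have hn' : (200000 : ℝ) ≤ n := by exact_mod_cast hn
  have hn2 : (200000 : ℝ) * n ≤ (n : ℝ) ^ 2 := by nlinarith
  obtain ⟨hKa, hKb⟩ := abs_le.mp hK'
  have hK1' : (K : ℝ) ≤ K' + (n + 1) := by exact_mod_cast hK1
  have hK2' : (K' : ℝ) ≤ K + (n + 1) := by exact_mod_cast hK2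
  -- step A
  have hA : exp (-((n : ℝ) / 1000)) * (N.choose K' : ℝ) ≤ (N.choose K : ℝ) := by
    rcases le_total K' K with h | h
    · obtain ⟨v, rfl⟩ := Nat.exists_eq_add_of_le h
      have hv : (v : ℝ) ≤ n + 1 := by
        push_cast at hK1'
        linarith
      refine le_trans ?_ (choose_right_ge (N := N) (K := K') (v := v) (by nlinarith))
      refine mul_le_mul_of_nonneg_right (exp_le_exp.mpr (neg_le_neg ?_)) (Nat.cast_nonneg _)
      exact WRatio_exp hn hN1 (le_max_right _ _) (max_le (by linarith) (by positivity))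
        (Nat.cast_nonneg _) hv
    · obtain ⟨v, rfl⟩ := Nat.exists_eq_add_of_le h
      have hv : (v : ℝ) ≤ n + 1 := by
        push_cast at hK2'
        linarith
      have h1 := choose_left_ge (N := N) (K := K + v) (v := v) (by nlinarith)
      rw [Nat.add_sub_cancel] at h1
      refine le_trans ?_ h1
      refine mul_le_mul_of_nonneg_right (exp_le_exp.mpr (neg_le_neg ?_)) (Nat.cast_nonneg _)
      exact WRatio_exp hn hN1 (le_max_right _ _) (max_le (by linarith) (by positivity))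
        (Nat.cast_nonneg _) hv
  -- step B
  have hKN : (K : ℝ) ≤ N := by nlinarith
  have hB : (97 / 50 : ℝ) ^ l * (N.choose K : ℝ) ≤ ((N + l).choose K : ℝ) := by
    refine le_trans ?_ (choose_addN_ge (N := N) (K := K) (w := l) (by exact_mod_cast hKN))
    refine mul_le_mul_of_nonneg_right (pow_le_pow_left₀ (by norm_num) ?_ l) (Nat.cast_nonneg _)
    have hpos : 0 < (N : ℝ) + l - K := by nlinarith
    rw [le_div_iff₀ hpos]
    nlinarith
  -- step C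
  have hC : (2 : ℝ) ^ (47 / 100 * (n : ℝ)) ≤ (97 / 50 : ℝ) ^ l * exp (-((n : ℝ) / 1000)) := by
    have h1 : ((2 : ℝ) ^ ((19 : ℝ) / 20)) ^ l ≤ (97 / 50 : ℝ) ^ l :=
      pow_le_pow_left₀ (by positivity) WRatio_rpow l
    have h2 : ((2 : ℝ) ^ ((19 : ℝ) / 20)) ^ l = exp (log 2 * (19 / 20 * l)) := by
      rw [← Real.rpow_natCast, ← Real.rpow_mul (by norm_num), Real.rpow_def_of_pos (by norm_num)]
    rw [h2] at h1
    refine le_trans ?_ (mul_le_mul_of_nonneg_right h1 (exp_pos _).le)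
    rw [← exp_add, Real.rpow_def_of_pos (by norm_num)]
    apply exp_le_exp.mpr
    have h3 := Real.log_two_gt_d9
    have h4 : log 2 * (19 / 20 * (499 / 1000 * (n : ℝ))) ≤ log 2 * (19 / 20 * l) :=
      mul_le_mul_of_nonneg_left (by linarith) (by linarith)
    have h5 : 0.6931471803 * (n : ℝ) ≤ log 2 * n := mul_le_mul_of_nonneg_right h3.le (by linarith)
    norm_num at h5
    nlinarith
  calc (2 : ℝ) ^ (47 / 100 * (n : ℝ)) * (N.choose K' : ℝ)
      ≤ ((97 / 50 : ℝ) ^ l * exp (-((n : ℝ) / 1000))) * (N.choose K' : ℝ) :=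
        mul_le_mul_of_nonneg_right hC (Nat.cast_nonneg _)
    _ = (97 / 50 : ℝ) ^ l * (exp (-((n : ℝ) / 1000)) * (N.choose K' : ℝ)) := by ring
    _ ≤ (97 / 50 : ℝ) ^ l * (N.choose K : ℝ) := mul_le_mul_of_nonneg_left hA (by positivity)
    _ ≤ _ := hB

/-- One term: adding a point to layer `1`. For a typical term (`η = 1/1000`, `κ ≤ 10^(-5)`) `(a,b,c,d)` on `n` points at level
`k'`, and `k' ≤ k ≤ k' + n + 1`: `2^(0.47 n) tm a b c d k' ≤ tm a (b+1) c d k`.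
Proof. The multinomial factor does not decrease (`choose` in the form `(n+1)!/(a!(b+1)!c!d!) ≥ n!/(a!b!c!d!)`).
`N' = N + (a+c)`, forced pairs `+ d`, `K = K' + (k-k') - d`, `|K - K'| ≤ n + 1`: `choose_right_ge`/`choose_left_ge`:
`choose N K ≥ exp(-(4.1/N)(κ n² (n+1) + (n+1)²)) choose N K'` and `choose_addN_ge`:
`choose (N+l) K ≥ (2(1-20κ))^l choose N K`, `l ≥ (1/2-1/1000) n`, `N ≥ 0.24 n²`. -/
theorem tm_ratio {κ : ℝ} (hκ : 0 < κ) (hκ1 : κ ≤ 1 / 100000) : ∃ n0 : ℕ, ∀ n ≥ n0,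
    ∀ k k' : ℕ, k' ≤ k → k ≤ k' + n + 1 → ∀ x ∈ CanQ n, Typ (1 / 1000) κ n k' x →
    (2 : ℝ) ^ (47 / 100 * (n : ℝ)) * (tmx x k' : ℝ) ≤
      (tm x.1 (x.2.1 + 1) x.2.2.1 x.2.2.2 k : ℝ) := by
  refine ⟨200000, ?_⟩
  rintro n hn k k' hk1 hk2 ⟨a, b, c, d⟩ hx ⟨ht1, ht2, ht3⟩
  have hN := nfr_le hx
  have hsum : a + b + c + d = n := (mem_filter.mp hx).2.1
  have hy : yq k' (a, b, c, d) = (k' : ℝ) - nfu a b c d - (nfr a b c d : ℝ) / 2 := rfl
  dsimp only at ht1 ht3 hN ⊢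
  rw [hy] at ht2
  have hn' : (200000 : ℝ) ≤ n := by exact_mod_cast hn
  have hn2 : (200000 : ℝ) * n ≤ (n : ℝ) ^ 2 := by nlinarith
  have hκn : κ * (n : ℝ) ^ 2 ≤ (n : ℝ) ^ 2 / 100000 := by
    have := mul_le_mul_of_nonneg_right hκ1 (sq_nonneg (n : ℝ))
    linarith
  have ht2' := ht2.trans hκn
  have had : (a : ℝ) * d ≤ (n : ℝ) ^ 2 / 1000000 := by
    rcases ht3 with h | ⟨h1, h2⟩
    · rw [h, Nat.cast_zero, mul_zero]
      positivity
    · have h3 : (a : ℝ) * d ≤ (1 / 1000 * n) * (1 / 1000 * n) :=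
        mul_le_mul h1.le h2.le (Nat.cast_nonneg _) (by positivity)
      nlinarith
  have hl : (((a + c : ℕ) : ℝ) - n / 2) ^ 2 ≤ (n : ℝ) ^ 2 / 1000000 := by
    have h3 := pow_le_pow_left₀ (abs_nonneg _) ht1 2
    rw [sq_abs] at h3
    nlinarith
  have hN1 : 24 / 100 * (n : ℝ) ^ 2 ≤ (nfr a b c d : ℝ) := by nlinarith
  have hl' := abs_le.mp ht1
  have hd : (d : ℝ) ≤ n := by exact_mod_cast (by omega : d ≤ n)
  have hkk : (k' : ℝ) ≤ k := by exact_mod_cast hk1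
  obtain ⟨hya, hyb⟩ := abs_le.mp ht2'
  have hdk : (nfu a b c d : ℝ) + d ≤ k' := by nlinarith
  have hdk' : nfu a b c d + d ≤ k' := by exact_mod_cast hdk
  obtain ⟨K', hK'⟩ : ∃ K', k' = nfu a b c d + K' := Nat.exists_eq_add_of_le (by omega)
  have hnfr : nfr a (b + 1) c d = nfr a b c d + (a + c) := by
    unfold nfr
    ring
  have hnfu : nfu a (b + 1) c d = nfu a b c d + d := by
    unfold nfu
    ring
  have hcore := WRatio_core (n := n) (N := nfr a b c d) (K' := K')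
    (K := k - (nfu a b c d + d)) (l := a + c) hn hN1 (by linarith) (by linarith)
    (by
      have e : (K' : ℝ) - (nfr a b c d : ℝ) / 2 =
          (k' : ℝ) - nfu a b c d - (nfr a b c d : ℝ) / 2 := by
        rw [hK']
        push_cast
        ring
      rw [e]
      exact ht2')
    (by omega) (by omega)
  have e1 : tmx (a, b, c, d) k' = (a + b + c + d).choose (a + c) * (a + c).choose a *
      (b + d).choose d * (nfr a b c d).choose K' := by
    change tm a b c d k' = _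
    rw [tm, chz, if_pos (by omega), hK', Nat.add_sub_cancel_left]
  have e2 : tm a (b + 1) c d k = (a + (b + 1) + c + d).choose (a + c) * (a + c).choose a *
      (b + 1 + d).choose d * (nfr a b c d + (a + c)).choose (k - (nfu a b c d + d)) := by
    rw [tm, chz, hnfr, hnfu, if_pos (by omega)]
  rw [e1, e2]
  have m1 : (a + b + c + d).choose (a + c) ≤ (a + (b + 1) + c + d).choose (a + c) :=
    Nat.choose_le_choose _ (by omega)
  have m2 : (b + d).choose d ≤ (b + 1 + d).choose d := Nat.choose_le_choose _ (by omega)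
  have m3 : (a + b + c + d).choose (a + c) * (a + c).choose a * (b + d).choose d ≤
      (a + (b + 1) + c + d).choose (a + c) * (a + c).choose a * (b + 1 + d).choose d :=
    Nat.mul_le_mul (Nat.mul_le_mul_right _ m1) m2
  have m3' : (((a + b + c + d).choose (a + c) * (a + c).choose a * (b + d).choose d : ℕ) : ℝ) ≤
      (((a + (b + 1) + c + d).choose (a + c) * (a + c).choose a * (b + 1 + d).choose d : ℕ) : ℝ) := by
    exact_mod_cast m3
  rw [Nat.cast_mul (_ * _ * _), Nat.cast_mul (_ * _ * _)]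
  calc (2 : ℝ) ^ (47 / 100 * (n : ℝ)) *
        ((((a + b + c + d).choose (a + c) * (a + c).choose a * (b + d).choose d : ℕ) : ℝ) *
          ((nfr a b c d).choose K' : ℝ))
      = (((a + b + c + d).choose (a + c) * (a + c).choose a * (b + d).choose d : ℕ) : ℝ) *
          ((2 : ℝ) ^ (47 / 100 * (n : ℝ)) * ((nfr a b c d).choose K' : ℝ)) := by ring
    _ ≤ _ := mul_le_mul m3' hcore (by positivity) (Nat.cast_nonneg _)

theorem WRatio_inj (n k : ℕ) (A : Finset (ℕ × ℕ × ℕ × ℕ)) (hA : A ⊆ CanQ n) :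
    ∑ x ∈ A, (tm x.1 (x.2.1 + 1) x.2.2.1 x.2.2.2 k : ℝ) ≤ (Fs (n + 1) k : ℝ) := by
  classical
  have hinj : Set.InjOn (fun x : ℕ × ℕ × ℕ × ℕ => (x.1, x.2.1 + 1, x.2.2.1, x.2.2.2))
      (A : Set (ℕ × ℕ × ℕ × ℕ)) := by
    rintro ⟨a, b, c, d⟩ - ⟨a', b', c', d'⟩ - h
    simp only [Prod.mk.injEq, add_left_inj] at h ⊢
    exact h
  have h1 : ∑ x ∈ A, (tm x.1 (x.2.1 + 1) x.2.2.1 x.2.2.2 k : ℝ) =
      ∑ y ∈ A.image (fun x : ℕ × ℕ × ℕ × ℕ => (x.1, x.2.1 + 1, x.2.2.1, x.2.2.2)),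
        (tmx y k : ℝ) := by
    rw [Finset.sum_image hinj]
    rfl
  rw [h1, Fs, Nat.cast_sum]
  refine Finset.sum_le_sum_of_subset_of_nonneg ?_ (fun _ _ _ => Nat.cast_nonneg _)
  intro y hy
  obtain ⟨⟨a, b, c, d⟩, hx, rfl⟩ := Finset.mem_image.mp hy
  have h2 := hA hx
  simp only [CanQ, mem_filter, mem_product, mem_range] at h2 ⊢
  omega

/-- **Ratio bound**: sum `tm_ratio` over the typical terms (the map `b ↦ b+1` is injective into
`CanQ (n+1)`); the non-typical ones are at most half (`nontyp`). -/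
theorem Fs_ratio : ∃ δ : ℝ, 0 < δ ∧ ∃ n0 : ℕ, ∀ n ≥ n0, ∀ k k' : ℕ, Win δ (n + 1) k → k' ≤ k →
    k ≤ k' + n + 1 → (2 : ℝ) ^ (46 / 100 * (n : ℝ)) * (Fs n k' : ℝ) ≤ (Fs (n + 1) k : ℝ) := by
  classical
  obtain ⟨κ0, hκ0, hnt⟩ := nontyp (η := 1 / 1000) (by norm_num) le_rfl
  obtain ⟨κ, hκ⟩ : ∃ κ : ℝ, κ = min κ0 (1 / 100000) := ⟨_, rfl⟩
  have hκpos : 0 < κ := by rw [hκ]; exact lt_min hκ0 (by norm_num)
  have hκle : κ ≤ 1 / 100000 := by rw [hκ]; exact min_le_right _ _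
  obtain ⟨δ1, hδ1, c, hc, n1, h1⟩ := hnt κ hκpos (by rw [hκ]; exact min_le_left _ _)
  obtain ⟨n2, h2⟩ := tm_ratio hκpos hκle
  obtain ⟨δ, hδ⟩ : ∃ δ : ℝ, δ = min (δ1 / 2) (1 / 16) := ⟨_, rfl⟩
  have hδpos : 0 < δ := by rw [hδ]; exact lt_min (by linarith) (by norm_num)
  have hδa : δ ≤ δ1 / 2 := by rw [hδ]; exact min_le_left _ _
  have hδb : δ ≤ 1 / 16 := by rw [hδ]; exact min_le_right _ _
  obtain ⟨n3, hn3⟩ := exists_nat_ge (max (8 / δ1) (max (1 / c) 100))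
  refine ⟨δ, hδpos, max n1 (max n2 n3), fun n hn k k' hw hk1 hk2 => ?_⟩
  have hna : n1 ≤ n := (le_max_left _ _).trans hn
  have hnb : n2 ≤ n := ((le_max_left _ _).trans (le_max_right _ _)).trans hn
  have hnc : (n3 : ℝ) ≤ n := by
    exact_mod_cast ((le_max_right _ _).trans (le_max_right _ _)).trans hn
  have hn8 : 8 / δ1 ≤ (n : ℝ) := ((le_max_left _ _).trans hn3).trans hnc
  have hnc1 : 1 / c ≤ (n : ℝ) :=
    (((le_max_left _ _).trans (le_max_right _ _)).trans hn3).trans hnc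
  have hn100 : (100 : ℝ) ≤ n := (((le_max_right _ _).trans (le_max_right _ _)).trans hn3).trans hnc
  have hδn : 8 ≤ δ1 * n := by
    rw [div_le_iff₀ hδ1] at hn8
    linarith
  have hcn : 1 ≤ c * n := by
    rw [div_le_iff₀ hc] at hnc1
    linarith
  have hδn2 : 8 * (n : ℝ) ≤ δ1 * (n : ℝ) ^ 2 := by nlinarith
  have hkk : (k' : ℝ) ≤ k := by exact_mod_cast hk1
  have hkk2 : (k : ℝ) ≤ k' + n + 1 := by exact_mod_cast hk2
  obtain ⟨hw1, hw2⟩ := hw
  push_cast at hw1 hw2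
  have hδδ : δ * (n : ℝ) ^ 2 ≤ δ1 / 2 * (n : ℝ) ^ 2 :=
    mul_le_mul_of_nonneg_right hδa (by positivity)
  have hδlin : δ * (2 * (n : ℝ) + 1) ≤ 1 / 16 * (2 * (n : ℝ) + 1) :=
    mul_le_mul_of_nonneg_right hδb (by positivity)
  have hδlin0 : 0 ≤ δ * (2 * (n : ℝ) + 1) := by positivity
  have hwin : Win δ1 n k' := by
    constructor
    · nlinarith
    · nlinarith
  have h3 := h1 n hna k' hwin
  have h4 : (Fs n k' : ℝ) = ∑ x ∈ (CanQ n).filter (fun x => Typ (1 / 1000) κ n k' x), (tmx x k' : ℝ) +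
      ∑ x ∈ (CanQ n).filter (fun x => ¬ Typ (1 / 1000) κ n k' x), (tmx x k' : ℝ) := by
    rw [Finset.sum_filter_add_sum_filter_not, Fs, Nat.cast_sum]
  have h5 : (F3 n k' : ℝ) ≤ Fs n k' := by
    rw [Fs_split n k']
    push_cast
    linarith [Nat.cast_nonneg (α := ℝ) (F4 n k')]
  have h6 : exp (-(c * n)) ≤ 1 / 2 := by
    have h7 : exp (-(c * n)) ≤ exp (-1) := exp_le_exp.mpr (by linarith)
    have h8 := Real.exp_neg_one_lt_d9
    linarith
  have h7 : exp (-(c * n)) * (F3 n k' : ℝ) ≤ 1 / 2 * Fs n k' :=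
    mul_le_mul h6 h5 (Nat.cast_nonneg _) (by norm_num)
  have h8 : (Fs n k' : ℝ) ≤
      2 * ∑ x ∈ (CanQ n).filter (fun x => Typ (1 / 1000) κ n k' x), (tmx x k' : ℝ) := by
    linarith
  have h9 : (2 : ℝ) ^ (47 / 100 * (n : ℝ)) *
      ∑ x ∈ (CanQ n).filter (fun x => Typ (1 / 1000) κ n k' x), (tmx x k' : ℝ) ≤
      (Fs (n + 1) k : ℝ) := by
    refine le_trans ?_ (WRatio_inj n k ((CanQ n).filter (fun x => Typ (1 / 1000) κ n k' x))
      (Finset.filter_subset _ _))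
    rw [Finset.mul_sum]
    refine Finset.sum_le_sum fun x hx => ?_
    obtain ⟨hx1, hx2⟩ := Finset.mem_filter.mp hx
    exact h2 n hnb k k' hk1 hk2 x hx1 hx2
  have h10 : (2 : ℝ) ^ (46 / 100 * (n : ℝ)) * 2 ≤ (2 : ℝ) ^ (47 / 100 * (n : ℝ)) := by
    have h11 : (2 : ℝ) ^ (46 / 100 * (n : ℝ)) * 2 = (2 : ℝ) ^ (46 / 100 * (n : ℝ) + 1) := by
      rw [Real.rpow_add (by norm_num), Real.rpow_one]
    rw [h11]
    exact Real.rpow_le_rpow_of_exponent_le (by norm_num) (by linarith)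
  have hpos : 0 ≤ ∑ x ∈ (CanQ n).filter (fun x => Typ (1 / 1000) κ n k' x), (tmx x k' : ℝ) :=
    Finset.sum_nonneg fun _ _ => Nat.cast_nonneg _
  calc (2 : ℝ) ^ (46 / 100 * (n : ℝ)) * (Fs n k' : ℝ)
      ≤ (2 : ℝ) ^ (46 / 100 * (n : ℝ)) *
        (2 * ∑ x ∈ (CanQ n).filter (fun x => Typ (1 / 1000) κ n k' x), (tmx x k' : ℝ)) :=
        mul_le_mul_of_nonneg_left h8 (by positivity)
    _ = (2 : ℝ) ^ (46 / 100 * (n : ℝ)) * 2 *
        ∑ x ∈ (CanQ n).filter (fun x => Typ (1 / 1000) κ n k' x), (tmx x k' : ℝ) := by ring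
    _ ≤ (2 : ℝ) ^ (47 / 100 * (n : ℝ)) *
        ∑ x ∈ (CanQ n).filter (fun x => Typ (1 / 1000) κ n k' x), (tmx x k' : ℝ) :=
        mul_le_mul_of_nonneg_right h10 hpos
    _ ≤ _ := h9

end Pool.Agent.H.MP_82502e_co
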