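import Pool.Agent.H.MP_82502e_co.WRec
import Pool.Agent.H.MP_82502e_co.WRatio
import Pool.Agent.H.MP_82502e_co.DecA

set_option autoImplicit false

/-!
# The window: upper bound
-/

namespace Pool.Agent.H.MP_82502e_co

open Finset Real

/-- Pure iteration lemma: `r j ≤ 1 + a + b (r (j+1) + r (j+2))` for `j < J`, `r J, r (J+1) ≤ R`, `4 b ≤ 1`: then `r 0 ≤ 1 + 2 (a + 2 b) + (2 b)^(J/2) R` (all quantities `≥ 0`; by
descending induction `r j, r (j+1) ≤ ..`). -/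
theorem iterate_rec {r : ℕ → ℝ} {a b R : ℝ} (ha : 0 ≤ a) (ha1 : a ≤ 1) (hb : 0 ≤ b) (hb1 : 4 * b ≤ 1)
    (hR : 0 ≤ R) (J : ℕ) (h : ∀ j < J, r j ≤ 1 + a + b * (r (j + 1) + r (j + 2)))
    (h1 : r J ≤ R) (h2 : r (J + 1) ≤ R) (h0 : ∀ j, 0 ≤ r j) :
    r 0 ≤ 1 + 2 * a + 8 * b + (2 * b) ^ (J / 2) * R := by
  obtain ⟨A, hA⟩ : ∃ A, A = 1 + 2 * a + 8 * b := ⟨_, rfl⟩
  have hA1 : 1 + a + 2 * b * A ≤ A := by
    have e1 : a * (4 * b) ≤ a * 1 := mul_le_mul_of_nonneg_left hb1 ha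
    have e2 : 4 * b * (4 * b) ≤ 4 * b * 1 := mul_le_mul_of_nonneg_left hb1 (by linarith)
    rw [hA]
    nlinarith
  have hA0 : 0 ≤ A := by rw [hA]; linarith
  have key : ∀ t, 2 * t ≤ J → r (J - 2 * t) ≤ A + (2 * b) ^ t * R ∧
      r (J - 2 * t + 1) ≤ A + (2 * b) ^ t * R := by
    intro t
    induction t with
    | zero =>
      intro _
      have e : J - 2 * 0 = J := by omega
      rw [e, pow_zero, one_mul]
      exact ⟨by linarith, by linarith⟩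
    | succ t ih =>
      intro ht
      obtain ⟨i1, i2⟩ := ih (by omega)
      have e1 := h (J - 2 * (t + 1) + 1) (by omega)
      have e2 := h (J - 2 * (t + 1)) (by omega)
      rw [show J - 2 * (t + 1) + 1 + 1 = J - 2 * t by omega,
        show J - 2 * (t + 1) + 1 + 2 = J - 2 * t + 1 by omega] at e1
      rw [show J - 2 * (t + 1) + 2 = J - 2 * t by omega] at e2
      obtain ⟨X, hX⟩ : ∃ X, X = (2 * b) ^ t * R := ⟨_, rfl⟩
      have hX0 : 0 ≤ X := by rw [hX]; positivity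
      rw [← hX] at i1 i2
      have e3 : (2 * b) ^ (t + 1) * R = 2 * b * X := by rw [hX, pow_succ]; ring
      rw [e3]
      have s0 := mul_le_mul_of_nonneg_left (add_le_add i1 i2) hb
      have s1 : r (J - 2 * (t + 1) + 1) ≤ A + 2 * b * X := by linarith
      refine ⟨?_, s1⟩
      have s2 := mul_le_mul_of_nonneg_left (add_le_add s1 i1) hb
      have s3 : b * X * (2 * b) ≤ b * X * 1 :=
        mul_le_mul_of_nonneg_left (by linarith) (mul_nonneg hb hX0)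
      linarith
  obtain ⟨k1, k2⟩ := key (J / 2) (by omega)
  have hX0 : 0 ≤ (2 * b) ^ (J / 2) * R := by positivity
  rw [← hA]
  rcases Nat.eq_zero_or_pos (J - 2 * (J / 2)) with hJ | hJ
  · rw [hJ] at k1
    exact k1
  · have hJ1 : J - 2 * (J / 2) = 1 := by omega
    rw [hJ1] at k1 k2
    have e1 := h 0 (by omega)
    have s0 := mul_le_mul_of_nonneg_left (add_le_add k1 k2) hb
    have s1 : (2 * b) ^ (J / 2) * R * (2 * b) ≤ (2 * b) ^ (J / 2) * R * 1 :=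
      mul_le_mul_of_nonneg_left (by linarith) hX0
    have s2 : (0 : ℕ) + 1 = 1 := rfl
    have s3 : (0 : ℕ) + 2 = 1 + 1 := rfl
    rw [s2, s3] at e1
    linarith

theorem win_shift {δ0 : ℝ} (h0 : 0 < δ0) (h1 : δ0 ≤ 1 / 100000) : ∃ n0 : ℕ, ∀ n ≥ n0,
    ∀ k j k' : ℕ, Win (δ0 / 2) n k → (j : ℝ) ≤ δ0 / 20 * n + 1 → k' ≤ k → k ≤ k' + 2 * j * n →
    Win δ0 (n - j) k' := by
  obtain ⟨n0, hn0⟩ := exists_nat_ge (10 / δ0)
  refine ⟨n0, fun n hn k j k' hW hj h2 h3 => ?_⟩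
  have hn1 : 10 / δ0 ≤ (n : ℝ) := hn0.trans (by exact_mod_cast hn)
  rw [div_le_iff₀ h0] at hn1
  have hx0 : (0 : ℝ) ≤ n := Nat.cast_nonneg _
  have hx1 : (10 : ℝ) ≤ n := by nlinarith
  have hjn : (j : ℝ) ≤ n := by nlinarith
  have hjn' : j ≤ n := by exact_mod_cast hjn
  obtain ⟨w1, w2⟩ := hW
  have h2' : (k' : ℝ) ≤ k := by exact_mod_cast h2
  have h3' : (k : ℝ) ≤ k' + 2 * j * n := by exact_mod_cast h3
  have hj0 : (0 : ℝ) ≤ j := Nat.cast_nonneg _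
  unfold Win
  rw [Nat.cast_sub hjn']
  clear hn hn0 hjn' h2 h3
  generalize (n : ℝ) = x at *
  generalize (j : ℝ) = y at *
  have p1 : y * x ≤ (δ0 / 20 * x + 1) * x := mul_le_mul_of_nonneg_right hj hx0
  have p2 : 10 * x ≤ x * δ0 * x := mul_le_mul_of_nonneg_right hn1 hx0
  have p3 : 0 ≤ δ0 * x ^ 2 := by positivity
  constructor
  · have q1 : (x - y) ^ 2 ≤ x ^ 2 := by
      apply pow_le_pow_left₀ (by linarith)
      linarith
    have q2 : (1 / 8 - δ0) * (x - y) ^ 2 ≤ (1 / 8 - δ0) * x ^ 2 :=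
      mul_le_mul_of_nonneg_left q1 (by linarith)
    nlinarith
  · have q1 : x ^ 2 - 2 * (y * x) ≤ (x - y) ^ 2 := by nlinarith [sq_nonneg y]
    have q2 : (3 / 16 + δ0) * (x ^ 2 - 2 * (y * x)) ≤ (3 / 16 + δ0) * (x - y) ^ 2 :=
      mul_le_mul_of_nonneg_left q1 (by linarith)
    have q3 : (3 / 16 + δ0) * (y * x) ≤ (3 / 16 + δ0) * ((δ0 / 20 * x + 1) * x) :=
      mul_le_mul_of_nonneg_left p1 (by linarith)
    have q4 : δ0 * ((δ0 / 20 * x + 1) * x) ≤ 1 / 16 * ((δ0 / 20 * x + 1) * x) :=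
      mul_le_mul_of_nonneg_right (by linarith) (by positivity)
    nlinarith

theorem mx_le_of {n k j : ℕ} {X : ℝ} (h : ∀ i ≤ j, (cnt n (k - i) : ℝ) ≤ X) :
    (mx n k j : ℝ) ≤ X := by
  unfold mx
  obtain ⟨i, hi, h2⟩ := Finset.exists_mem_eq_sup (range (j + 1)) ⟨0, by simp⟩
    (fun i => cnt n (k - i))
  rw [h2]
  exact h i (by have := mem_range.1 hi; omega)

theorem up_step {c1 : ℝ} {i k' : ℕ} {r1 r2 : ℝ} (hr1 : 0 ≤ r1) (hr2 : 0 ≤ r2)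
    (H1 : (cnt (i + 2) k' : ℝ) ≤ Fs (i + 2) k' + exp ((log 2 / 4 - c1) * ((i : ℝ) + 2) ^ 2) +
      (2 : ℝ) ^ (40 / 100 * (i : ℝ)) * mx (i + 1) k' (i + 1) +
      (2 : ℝ) ^ (83 / 100 * (i : ℝ)) * mx i k' (2 * i + 1))
    (H3 : exp ((log 2 / 4 - c1 / 2) * ((i : ℝ) + 2) ^ 2) ≤ (Fs (i + 2) k' : ℝ))
    (hm1 : ∀ t ≤ i + 1, (cnt (i + 1) (k' - t) : ℝ) ≤ r1 * Fs (i + 1) (k' - t))
    (hf1 : ∀ t ≤ i + 1, (2 : ℝ) ^ (46 / 100 * (i : ℝ)) * (Fs (i + 1) (k' - t) : ℝ) ≤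
      Fs (i + 2) k')
    (hm2 : ∀ t ≤ 2 * i + 1, (cnt i (k' - t) : ℝ) ≤ r2 * Fs i (k' - t))
    (hf2 : ∀ t ≤ 2 * i + 1, (2 : ℝ) ^ (92 / 100 * (i : ℝ)) * (Fs i (k' - t) : ℝ) ≤
      Fs (i + 2) k') :
    (cnt (i + 2) k' : ℝ) ≤ (1 + exp (-(c1 / 2 * ((i : ℝ) + 2) ^ 2)) +
      (2 : ℝ) ^ (-(6 / 100 * (i : ℝ))) * (r1 + r2)) * Fs (i + 2) k' := by
  have hF0 : (0 : ℝ) ≤ Fs (i + 2) k' := Nat.cast_nonneg _
  generalize (Fs (i + 2) k' : ℝ) = F at *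
  have hi : (0 : ℝ) ≤ i := Nat.cast_nonneg _
  have A : exp ((log 2 / 4 - c1) * ((i : ℝ) + 2) ^ 2) ≤
      exp (-(c1 / 2 * ((i : ℝ) + 2) ^ 2)) * F := by
    have e1 : exp ((log 2 / 4 - c1) * ((i : ℝ) + 2) ^ 2) =
        exp (-(c1 / 2 * ((i : ℝ) + 2) ^ 2)) * exp ((log 2 / 4 - c1 / 2) * ((i : ℝ) + 2) ^ 2) := by
      rw [← exp_add]
      congr 1
      ring
    rw [e1]
    exact mul_le_mul_of_nonneg_left H3 (exp_pos _).le
  have B : (2 : ℝ) ^ (40 / 100 * (i : ℝ)) * mx (i + 1) k' (i + 1) ≤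
      (2 : ℝ) ^ (-(6 / 100 * (i : ℝ))) * r1 * F := by
    have e1 : (mx (i + 1) k' (i + 1) : ℝ) ≤ r1 * ((2 : ℝ) ^ (-(46 / 100 * (i : ℝ))) * F) := by
      refine mx_le_of fun t ht => (hm1 t ht).trans (mul_le_mul_of_nonneg_left ?_ hr1)
      have e2 := mul_le_mul_of_nonneg_left (hf1 t ht)
        (show (0 : ℝ) ≤ (2 : ℝ) ^ (-(46 / 100 * (i : ℝ))) by positivity)
      rw [← mul_assoc, ← Real.rpow_add (by norm_num), neg_add_cancel, Real.rpow_zero,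
        one_mul] at e2
      exact e2
    have e3 := mul_le_mul_of_nonneg_left e1
      (show (0 : ℝ) ≤ (2 : ℝ) ^ (40 / 100 * (i : ℝ)) by positivity)
    have e4 : (2 : ℝ) ^ (-(6 / 100 * (i : ℝ))) =
        (2 : ℝ) ^ (40 / 100 * (i : ℝ)) * (2 : ℝ) ^ (-(46 / 100 * (i : ℝ))) := by
      rw [← Real.rpow_add (by norm_num)]
      congr 1
      ring
    rw [e4]
    refine e3.trans (le_of_eq ?_)
    ring
  have C : (2 : ℝ) ^ (83 / 100 * (i : ℝ)) * mx i k' (2 * i + 1) ≤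
      (2 : ℝ) ^ (-(6 / 100 * (i : ℝ))) * r2 * F := by
    have e1 : (mx i k' (2 * i + 1) : ℝ) ≤ r2 * ((2 : ℝ) ^ (-(92 / 100 * (i : ℝ))) * F) := by
      refine mx_le_of fun t ht => (hm2 t ht).trans (mul_le_mul_of_nonneg_left ?_ hr2)
      have e2 := mul_le_mul_of_nonneg_left (hf2 t ht)
        (show (0 : ℝ) ≤ (2 : ℝ) ^ (-(92 / 100 * (i : ℝ))) by positivity)
      rw [← mul_assoc, ← Real.rpow_add (by norm_num), neg_add_cancel, Real.rpow_zero,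
        one_mul] at e2
      exact e2
    have e3 := mul_le_mul_of_nonneg_left e1
      (show (0 : ℝ) ≤ (2 : ℝ) ^ (83 / 100 * (i : ℝ)) by positivity)
    have e4 : (2 : ℝ) ^ (83 / 100 * (i : ℝ)) * (2 : ℝ) ^ (-(92 / 100 * (i : ℝ))) ≤
        (2 : ℝ) ^ (-(6 / 100 * (i : ℝ))) := by
      rw [← Real.rpow_add (by norm_num)]
      refine Real.rpow_le_rpow_of_exponent_le (by norm_num) ?_
      linarith
    have e5 : 0 ≤ r2 * F := mul_nonneg hr2 hF0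
    calc (2 : ℝ) ^ (83 / 100 * (i : ℝ)) * mx i k' (2 * i + 1) ≤
          (2 : ℝ) ^ (83 / 100 * (i : ℝ)) * (r2 * ((2 : ℝ) ^ (-(92 / 100 * (i : ℝ))) * F)) := e3
      _ = (2 : ℝ) ^ (83 / 100 * (i : ℝ)) * (2 : ℝ) ^ (-(92 / 100 * (i : ℝ))) * (r2 * F) := by
        ring
      _ ≤ (2 : ℝ) ^ (-(6 / 100 * (i : ℝ))) * (r2 * F) := mul_le_mul_of_nonneg_right e4 e5
      _ = _ := by ring
  calc (cnt (i + 2) k' : ℝ) ≤ F + exp ((log 2 / 4 - c1) * ((i : ℝ) + 2) ^ 2) +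
      (2 : ℝ) ^ (40 / 100 * (i : ℝ)) * mx (i + 1) k' (i + 1) +
      (2 : ℝ) ^ (83 / 100 * (i : ℝ)) * mx i k' (2 * i + 1) := H1
    _ ≤ F + exp (-(c1 / 2 * ((i : ℝ) + 2) ^ 2)) * F +
      (2 : ℝ) ^ (-(6 / 100 * (i : ℝ))) * r1 * F + (2 : ℝ) ^ (-(6 / 100 * (i : ℝ))) * r2 * F := by
        linarith
    _ = _ := by ring

theorem final_est {δ0 c' : ℝ} (h0 : 0 < δ0) (h1 : δ0 ≤ 1 / 100000) (hc : 0 < c') :
    ∃ n0 : ℕ, ∀ n ≥ n0, 2 * exp (-(c' * (n : ℝ) ^ 2)) + 8 * (2 : ℝ) ^ (-(5 / 100 * (n : ℝ))) +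
      (2 * (2 : ℝ) ^ (-(5 / 100 * (n : ℝ)))) ^ (⌊δ0 / 20 * (n : ℝ)⌋₊ / 2) *
        exp (30 * δ0 ^ 2 * (n : ℝ) ^ 2) ≤ exp (-(1 / 100 * (n : ℝ))) := by
  obtain ⟨n1, hn1⟩ := exists_nat_ge (10000 / δ0)
  obtain ⟨n2, hn2⟩ := exists_nat_ge (1 / c')
  refine ⟨max n1 n2, fun n hn => ?_⟩
  have g1 : 10000 / δ0 ≤ (n : ℝ) := hn1.trans (by exact_mod_cast (le_max_left _ _).trans hn)
  have g2 : 1 / c' ≤ (n : ℝ) := hn2.trans (by exact_mod_cast (le_max_right _ _).trans hn)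
  rw [div_le_iff₀ h0] at g1
  rw [div_le_iff₀ hc] at g2
  have x0 : (0 : ℝ) ≤ n := Nat.cast_nonneg _
  have x1 : (1000 : ℝ) ≤ n := by nlinarith
  have hl : (69 / 100 : ℝ) ≤ log 2 := by have := Real.log_two_gt_d9; linarith
  have hl2 : log 2 ≤ 1 := by have := Real.log_two_lt_d9; linarith
  have E2 : exp (-2) ≤ 1 / 6 := by
    have h := Real.add_one_le_exp (1 : ℝ)
    have h3 := Real.exp_one_gt_d9
    have h2 : exp 2 = exp 1 * exp 1 := by rw [← exp_add]; norm_num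
    rw [exp_neg, inv_le_comm₀ (exp_pos _) (by norm_num), h2]
    nlinarith
  have hJ : δ0 * n / 40 - 1 ≤ ((⌊δ0 / 20 * (n : ℝ)⌋₊ / 2 : ℕ) : ℝ) := by
    have e1 := Nat.lt_floor_add_one (δ0 / 20 * (n : ℝ))
    have e2 : ⌊δ0 / 20 * (n : ℝ)⌋₊ ≤ 2 * (⌊δ0 / 20 * (n : ℝ)⌋₊ / 2) + 1 := by omega
    have e3 : (⌊δ0 / 20 * (n : ℝ)⌋₊ : ℝ) ≤
        2 * ((⌊δ0 / 20 * (n : ℝ)⌋₊ / 2 : ℕ) : ℝ) + 1 := by exact_mod_cast e2
    linarith
  generalize ⌊δ0 / 20 * (n : ℝ)⌋₊ / 2 = J at *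
  have t1 : 2 * exp (-(c' * (n : ℝ) ^ 2)) ≤ 1 / 3 * exp (-(1 / 100 * (n : ℝ))) := by
    have e1 : exp (-(c' * (n : ℝ) ^ 2)) ≤ exp (-2) * exp (-(1 / 100 * (n : ℝ))) := by
      rw [← exp_add]
      refine exp_le_exp.2 ?_
      nlinarith
    have e2 := mul_le_mul_of_nonneg_right E2 (exp_pos (-(1 / 100 * (n : ℝ)))).le
    linarith
  have t2 : 8 * (2 : ℝ) ^ (-(5 / 100 * (n : ℝ))) ≤ 1 / 3 * exp (-(1 / 100 * (n : ℝ))) := by
    have e0 : (2 : ℝ) ^ (-(5 / 100 * (n : ℝ))) = exp (log 2 * (-(5 / 100 * (n : ℝ)))) :=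
      Real.rpow_def_of_pos (by norm_num) _
    have e1 : (2 : ℝ) ^ (-(5 / 100 * (n : ℝ))) ≤
        (exp (-2) * exp (-2)) * exp (-(1 / 100 * (n : ℝ))) := by
      rw [e0, ← exp_add, ← exp_add]
      refine exp_le_exp.2 ?_
      nlinarith
    have e3 : exp (-2) * exp (-2) ≤ 1 / 6 * (1 / 6) := by
      have := (exp_pos (-2 : ℝ)).le
      gcongr
    have e2 := mul_le_mul_of_nonneg_right e3 (exp_pos (-(1 / 100 * (n : ℝ)))).le
    linarith [exp_pos (-(1 / 100 * (n : ℝ)))]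
  have t3 : (2 * (2 : ℝ) ^ (-(5 / 100 * (n : ℝ)))) ^ J *
        exp (30 * δ0 ^ 2 * (n : ℝ) ^ 2) ≤ 1 / 3 * exp (-(1 / 100 * (n : ℝ))) := by
    have e0 : 2 * (2 : ℝ) ^ (-(5 / 100 * (n : ℝ))) = exp (-((5 / 100 * (n : ℝ) - 1) * log 2)) := by
      have : (2 : ℝ) * (2 : ℝ) ^ (-(5 / 100 * (n : ℝ))) =
          (2 : ℝ) ^ (1 : ℝ) * (2 : ℝ) ^ (-(5 / 100 * (n : ℝ))) := by rw [Real.rpow_one]
      rw [this, ← Real.rpow_add (by norm_num), Real.rpow_def_of_pos (by norm_num)]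
      congr 1
      ring
    have e1 : (2 * (2 : ℝ) ^ (-(5 / 100 * (n : ℝ)))) ^ J * exp (30 * δ0 ^ 2 * (n : ℝ) ^ 2) ≤
        exp (-2) * exp (-(1 / 100 * (n : ℝ))) := by
      rw [e0, ← exp_nat_mul, ← exp_add, ← exp_add]
      refine exp_le_exp.2 ?_
      have a1 : 0 ≤ (5 / 100 * (n : ℝ) - 1) * log 2 := by
        apply mul_nonneg <;> linarith
      have a2 : δ0 * n / 41 ≤ δ0 * n / 40 - 1 := by linarith
      have a3 : 49 / 1000 * (n : ℝ) * (69 / 100) ≤ (5 / 100 * (n : ℝ) - 1) * log 2 := by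
        apply mul_le_mul _ hl (by norm_num) (by linarith)
        linarith
      have a4 : δ0 * n / 41 * (49 / 1000 * (n : ℝ) * (69 / 100)) ≤
          (J : ℝ) * ((5 / 100 * (n : ℝ) - 1) * log 2) := by
        apply mul_le_mul (a2.trans hJ) a3 (by positivity) (by positivity)
      have a5 : δ0 * (δ0 * (n : ℝ) ^ 2) ≤ 1 / 100000 * (δ0 * (n : ℝ) ^ 2) :=
        mul_le_mul_of_nonneg_right h1 (by positivity)
      have a6 : 10000 * (n : ℝ) ≤ n * δ0 * n := mul_le_mul_of_nonneg_right g1 x0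
      nlinarith
    have e2 := mul_le_mul_of_nonneg_right E2 (exp_pos (-(1 / 100 * (n : ℝ)))).le
    linarith [exp_pos (-(1 / 100 * (n : ℝ)))]
  linarith

/-- **Upper bound.** Let `δ0 ≤ 1/10^5` be smaller than the `δ` of `Fs_ratio` and than the `δ` of `F3_lb` for `θ = c/2` (`c` from `rec_ineq`); `e = δ0/20`, `δ = δ0/2`,
`J = ⌊e n⌋`. For `k ∈ Win δ n`, `j ≤ J + 1` and `k - 2 j n ≤ k' ≤ k`: `k' ∈ Win δ0 (n - j)`. Let `r j` be the maximum over these `k'` of `cnt (n-j) k' / Fs (n-j) k'` (`j ≤ J + 1`, and `0` beyond).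
`rec_ineq` at `n - j`, `Fs_ratio` (once for `n-j-1`, twice for `n-j-2` with an intermediate level) give
`r j ≤ 1 + exp(-c' n²) + 2^(-0.05 n) (r (j+1) + r (j+2))` [`2^(0.40 n) 2^(-0.46 n)`, `2^(0.83 n) 2^(-0.92 n)`, with `n - j ≥ (1-e) n - 1`], where `exp((log 2/4 - c) n'²) ≤ exp(-c' n²) Fs` by `F3_lb`.
`r J, r (J+1) ≤ exp(30 δ0² n²)` by `cnt_le` (`G ≤ log 2/4`, any `θ`), `F3_lb_quad`, and `(2 b)^(J/2) ≤ exp(-0.0008 δ0 n²)`, `30 δ0² ≤ 0.0003 δ0`. `iterate_rec`. -/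
theorem upper : ∃ δ : ℝ, 0 < δ ∧ ∃ c : ℝ, 0 < c ∧ ∃ n0 : ℕ, ∀ n ≥ n0, ∀ k : ℕ, Win δ n k →
    (cnt n k : ℝ) ≤ (1 + exp (-(c * n))) * Fs n k := by
  obtain ⟨c1, hc1, n1, H1⟩ := rec_ineq
  obtain ⟨δ2, hδ2, n2, H2⟩ := Fs_ratio
  obtain ⟨δ3, hδ3, n3, H3⟩ := F3_lb (show 0 < c1 / 2 by positivity)
  obtain ⟨δ0, hδ⟩ : ∃ δ0, δ0 = min (1 / 100000) (min δ2 δ3) := ⟨_, rfl⟩
  have h0 : 0 < δ0 := by rw [hδ]; positivity
  have h1 : δ0 ≤ 1 / 100000 := by rw [hδ]; exact min_le_left _ _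
  have ha : δ0 ≤ δ2 := by rw [hδ]; exact (min_le_right _ _).trans (min_le_left _ _)
  have hb : δ0 ≤ δ3 := by rw [hδ]; exact (min_le_right _ _).trans (min_le_right _ _)
  have wmono : ∀ {δ δ' : ℝ} {m q : ℕ}, δ ≤ δ' → Win δ m q → Win δ' m q := by
    intro δ δ' m q hd hw
    have hm : (0 : ℝ) ≤ (m : ℝ) ^ 2 := by positivity
    refine ⟨le_trans ?_ hw.1, hw.2.trans ?_⟩
    · exact mul_le_mul_of_nonneg_right (by linarith) hm
    · exact mul_le_mul_of_nonneg_right (by linarith) hm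
  obtain ⟨n4, H4⟩ := F3_lb_quad h0 (by linarith)
  obtain ⟨n5, H5⟩ := cnt_le (show 0 < 5 * δ0 ^ 2 by positivity)
  obtain ⟨n6, H6⟩ := win_shift h0 h1
  obtain ⟨n7, H7⟩ := final_est h0 h1 (show 0 < c1 / 4 by positivity)
  refine ⟨δ0 / 2, by positivity, 1 / 100, by norm_num,
    n6 + n7 + (2 * (n1 + n2 + n3 + n4 + n5 + 1000)), fun n hn k hk => ?_⟩
  have h7 := H7 n (by omega)
  obtain ⟨J, hJdef⟩ : ∃ J, J = ⌊δ0 / 20 * (n : ℝ)⌋₊ := ⟨_, rfl⟩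
  rw [← hJdef] at h7
  have x0 : (0 : ℝ) ≤ n := Nat.cast_nonneg _
  have x1 : (1000 : ℝ) ≤ n := by
    have : 1000 ≤ n := by linarith [hn]
    exact_mod_cast this
  have hJ : (J : ℝ) ≤ δ0 / 20 * n := by rw [hJdef]; exact Nat.floor_le (by positivity)
  have hJn : 10 * (J + 1) ≤ n := by
    have : (10 : ℝ) * (J + 1) ≤ n := by nlinarith
    exact_mod_cast this
  have hW : ∀ j ≤ J + 1, ∀ k', k' ≤ k → k ≤ k' + 2 * j * n → Win δ0 (n - j) k' := by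
    intro j hj k' a b
    refine H6 n (by omega) k j k' hk ?_ a b
    have : (j : ℝ) ≤ J + 1 := by exact_mod_cast hj
    linarith
  have hpos : ∀ j ≤ J + 1, ∀ k', k' ≤ k → k ≤ k' + 2 * j * n → (0 : ℝ) < Fs (n - j) k' := by
    intro j hj k' a b
    have e1 := H3 (n - j) (by omega) k' (wmono hb (hW j hj k' a b))
    have e2 : (Fs (n - j) k' : ℝ) = F3 (n - j) k' + F4 (n - j) k' := by
      rw [Fs_split, Nat.cast_add]
    have e3 : (0 : ℝ) ≤ F4 (n - j) k' := Nat.cast_nonneg _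
    have e4 := exp_pos ((log 2 / 4 - c1 / 2) * ((n - j : ℕ) : ℝ) ^ 2)
    linarith
  have hk0 : ∀ j ≤ J + 1, ∀ k', k' ≤ k → k ≤ k' + 2 * j * n → 0 < k' := by
    intro j hj k' a b
    have e1 := (hW j hj k' a b).1
    have e2 : (1 : ℝ) ≤ ((n - j : ℕ) : ℝ) := by
      have : 1 ≤ n - j := by omega
      exact_mod_cast this
    have e3 : (0 : ℝ) < k' := by
      refine lt_of_lt_of_le ?_ e1
      apply mul_pos (by linarith)
      positivity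
    exact_mod_cast e3
  obtain ⟨r, hrdef⟩ : ∃ r : ℕ → ℝ, r = fun j => (Icc (k - 2 * j * n) k).sup'
      ⟨k, right_mem_Icc.2 (Nat.sub_le _ _)⟩ fun k' => (cnt (n - j) k' : ℝ) / Fs (n - j) k' :=
    ⟨_, rfl⟩
  have hr1 : ∀ j, ∀ k', k' ≤ k → k ≤ k' + 2 * j * n →
      (cnt (n - j) k' : ℝ) / Fs (n - j) k' ≤ r j := by
    intro j k' a b
    rw [hrdef]
    exact Finset.le_sup' (fun k' => (cnt (n - j) k' : ℝ) / Fs (n - j) k')
      (mem_Icc.2 ⟨by omega, a⟩)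
  have hr2 : ∀ j, ∀ X : ℝ, (∀ k', k' ≤ k → k ≤ k' + 2 * j * n →
      (cnt (n - j) k' : ℝ) / Fs (n - j) k' ≤ X) → r j ≤ X := by
    intro j X hX
    rw [hrdef]
    refine Finset.sup'_le _ _ fun k' hk' => ?_
    have := mem_Icc.1 hk'
    exact hX k' this.2 (by omega)
  have hr0 : ∀ j, 0 ≤ r j := fun j =>
    le_trans (by positivity) (hr1 j k le_rfl (by omega))
  have hr : ∀ j ≤ J + 1, ∀ k', k' ≤ k → k ≤ k' + 2 * j * n →
      (cnt (n - j) k' : ℝ) ≤ r j * Fs (n - j) k' := fun j hj k' a b =>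
    (div_le_iff₀ (hpos j hj k' a b)).1 (hr1 j k' a b)
  have hR : ∀ j ≤ J + 1, r j ≤ exp (30 * δ0 ^ 2 * (n : ℝ) ^ 2) := by
    intro j hj
    refine hr2 j _ fun k' a b => ?_
    rw [div_le_iff₀ (hpos j hj k' a b)]
    have e1 := H5 (n - j) (by omega) k'
    have e2 := H4 (n - j) (by omega) k' (hW j hj k' a b)
    have e3 : (Fs (n - j) k' : ℝ) = F3 (n - j) k' + F4 (n - j) k' := by
      rw [Fs_split, Nat.cast_add]
    have e4 : (0 : ℝ) ≤ F4 (n - j) k' := Nat.cast_nonneg _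
    have e5 := G_le ((k' : ℝ) / ((n - j : ℕ) : ℝ) ^ 2)
    have e6 : ((n - j : ℕ) : ℝ) ^ 2 ≤ (n : ℝ) ^ 2 := by
      have : ((n - j : ℕ) : ℝ) ≤ n := by exact_mod_cast Nat.sub_le _ _
      exact pow_le_pow_left₀ (Nat.cast_nonneg _) this 2
    have e7 : (0 : ℝ) ≤ ((n - j : ℕ) : ℝ) ^ 2 := by positivity
    generalize ((n - j : ℕ) : ℝ) ^ 2 = m at *
    calc (cnt (n - j) k' : ℝ) ≤ exp ((G ((k' : ℝ) / m) + 5 * δ0 ^ 2) * m) := e1
      _ ≤ exp (30 * δ0 ^ 2 * (n : ℝ) ^ 2) * exp ((log 2 / 4 - 25 * δ0 ^ 2) * m) := by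
        rw [← exp_add]
        refine exp_le_exp.2 ?_
        have f1 := mul_le_mul_of_nonneg_right e5 e7
        have f2 : δ0 ^ 2 * m ≤ δ0 ^ 2 * (n : ℝ) ^ 2 := mul_le_mul_of_nonneg_left e6 (by positivity)
        linarith
      _ ≤ exp (30 * δ0 ^ 2 * (n : ℝ) ^ 2) * Fs (n - j) k' := by
        refine mul_le_mul_of_nonneg_left ?_ (exp_pos _).le
        linarith
  have hstep : ∀ j < J, r j ≤ 1 + exp (-(c1 / 4 * (n : ℝ) ^ 2)) +
      (2 : ℝ) ^ (-(5 / 100 * (n : ℝ))) * (r (j + 1) + r (j + 2)) := by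
    intro j hj
    refine hr2 j _ fun k' a b => ?_
    rw [div_le_iff₀ (hpos j (by omega) k' a b)]
    obtain ⟨i, hi⟩ : ∃ i, n - j = i + 2 := ⟨n - j - 2, by omega⟩
    have hi1 : n - (j + 1) = i + 1 := by omega
    have hi2 : n - (j + 2) = i := by omega
    have m1 : 2 * (j + 1) * n = 2 * j * n + 2 * n := by ring
    have m2 : 2 * (j + 2) * n = 2 * j * n + 4 * n := by ring
    have hin : i + 2 ≤ n := by omega
    have W0 := hW j (by omega) k' a b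
    rw [hi] at W0
    have W1 : ∀ q, q ≤ k → k ≤ q + 2 * (j + 1) * n → Win δ0 (i + 1) q := by
      intro q a b
      have := hW (j + 1) (by omega) q a b
      rwa [hi1] at this
    have C1 : ∀ q, q ≤ k → k ≤ q + 2 * (j + 1) * n → (cnt (i + 1) q : ℝ) ≤ r (j + 1) * Fs (i + 1) q := by
      intro q a b
      have := hr (j + 1) (by omega) q a b
      rwa [hi1] at this
    have C2 : ∀ q, q ≤ k → k ≤ q + 2 * (j + 2) * n → (cnt i q : ℝ) ≤ r (j + 2) * Fs i q := by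
      intro q a b
      have := hr (j + 2) (by omega) q a b
      rwa [hi2] at this
    have F1 : exp ((log 2 / 4 - c1 / 2) * ((i : ℝ) + 2) ^ 2) ≤ (Fs (i + 2) k' : ℝ) := by
      have e1 := H3 (i + 2) (by omega) k' (wmono hb W0)
      have e2 : (Fs (i + 2) k' : ℝ) = F3 (i + 2) k' + F4 (i + 2) k' := by
        rw [Fs_split, Nat.cast_add]
      have e3 : (0 : ℝ) ≤ F4 (i + 2) k' := Nat.cast_nonneg _
      push_cast at e1
      linarith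
    have hi0 : (0 : ℝ) ≤ i := Nat.cast_nonneg _
    have R1 : ∀ q, q ≤ k' → k' ≤ q + (i + 1) + 1 →
        (2 : ℝ) ^ (46 / 100 * (i : ℝ)) * (Fs (i + 1) q : ℝ) ≤ Fs (i + 2) k' := by
      intro q a' b'
      have e1 := H2 (i + 1) (by omega) k' q (wmono ha W0) a' b'
      have e2 : (2 : ℝ) ^ (46 / 100 * (i : ℝ)) ≤ (2 : ℝ) ^ (46 / 100 * ((i + 1 : ℕ) : ℝ)) := by
        refine Real.rpow_le_rpow_of_exponent_le (by norm_num) ?_
        push_cast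
        linarith
      exact (mul_le_mul_of_nonneg_right e2 (Nat.cast_nonneg _)).trans e1
    have s := up_step (c1 := c1) (i := i) (k' := k') (hr0 (j + 1)) (hr0 (j + 2))
      (H1 i (by omega) k' (hk0 j (by omega) k' a b)) F1
      (fun t ht => C1 (k' - t) (by omega) (by omega))
      (fun t ht => R1 (k' - t) (by omega) (by omega))
      (fun t ht => C2 (k' - t) (by omega) (by omega))
      (by
        intro t ht
        obtain ⟨q, hq⟩ : ∃ q, q = min k' (k' - t + (i + 1)) := ⟨_, rfl⟩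
        have e1 := R1 q (by omega) (by omega)
        have e2 := H2 i (by omega) q (k' - t) (wmono ha (W1 q (by omega) (by omega)))
          (by omega) (by omega)
        have e3 : (2 : ℝ) ^ (92 / 100 * (i : ℝ)) =
            (2 : ℝ) ^ (46 / 100 * (i : ℝ)) * (2 : ℝ) ^ (46 / 100 * (i : ℝ)) := by
          rw [← Real.rpow_add (by norm_num)]
          congr 1
          ring
        rw [e3, mul_assoc]
        exact (mul_le_mul_of_nonneg_left e2 (by positivity)).trans e1)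
    rw [hi]
    refine s.trans (mul_le_mul_of_nonneg_right ?_ (Nat.cast_nonneg _))
    have y1 : (9 / 10 : ℝ) * n ≤ (i : ℝ) + 2 := by
      have : 9 * n ≤ 10 * (i + 2) := by omega
      have : ((9 * n : ℕ) : ℝ) ≤ ((10 * (i + 2) : ℕ) : ℝ) := by exact_mod_cast this
      push_cast at this
      linarith
    have y2 : exp (-(c1 / 2 * ((i : ℝ) + 2) ^ 2)) ≤ exp (-(c1 / 4 * (n : ℝ) ^ 2)) := by
      refine exp_le_exp.2 (neg_le_neg ?_)
      have : (9 / 10 * (n : ℝ)) ^ 2 ≤ ((i : ℝ) + 2) ^ 2 :=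
        pow_le_pow_left₀ (by positivity) y1 2
      have e2 : c1 / 2 * (9 / 10 * (n : ℝ)) ^ 2 ≤ c1 / 2 * ((i : ℝ) + 2) ^ 2 :=
        mul_le_mul_of_nonneg_left this (by positivity)
      have e3 : 0 ≤ c1 * (n : ℝ) ^ 2 := by positivity
      nlinarith
    have y3 : (2 : ℝ) ^ (-(6 / 100 * (i : ℝ))) ≤ (2 : ℝ) ^ (-(5 / 100 * (n : ℝ))) := by
      refine Real.rpow_le_rpow_of_exponent_le (by norm_num) ?_
      linarith
    have y4 := mul_le_mul_of_nonneg_right y3 (add_nonneg (hr0 (j + 1)) (hr0 (j + 2)))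
    linarith
  have hb1 : 4 * (2 : ℝ) ^ (-(5 / 100 * (n : ℝ))) ≤ 1 := by
    have e1 : (2 : ℝ) ^ (-(5 / 100 * (n : ℝ))) ≤ (2 : ℝ) ^ (-(2 : ℝ)) := by
      refine Real.rpow_le_rpow_of_exponent_le (by norm_num) ?_
      linarith
    have e2 : (2 : ℝ) ^ (-(2 : ℝ)) = 1 / 4 := by
      rw [Real.rpow_neg (by norm_num)]
      norm_num
    linarith
  have ha1 : exp (-(c1 / 4 * (n : ℝ) ^ 2)) ≤ 1 := by
    rw [exp_le_one_iff]
    have : 0 ≤ c1 / 4 * (n : ℝ) ^ 2 := by positivity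
    linarith
  have hfin := iterate_rec (exp_pos _).le ha1
    (show (0 : ℝ) ≤ (2 : ℝ) ^ (-(5 / 100 * (n : ℝ))) by positivity) hb1 (exp_pos _).le J hstep
    (hR J (by omega)) (hR (J + 1) le_rfl) hr0
  have hz := hr 0 (by omega) k le_rfl (by omega)
  rw [Nat.sub_zero] at hz
  refine hz.trans (mul_le_mul_of_nonneg_right ?_ (Nat.cast_nonneg _))
  linarith

end Pool.Agent.H.MP_82502e_co
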