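import Pool.Agent.H.MP_82502e_co.WNeg2

set_option autoImplicit false

/-!
# The window: four-layer terms with a large outer layer, 1
-/

namespace Pool.Agent.H.MP_82502e_co

open Finset Real

/-- Reversal of the layers. -/
theorem tm_rev (a b c d k : ℕ) : tm d c b a k = tm a b c d k := by
  unfold tm
  have h1 : nfr d c b a = nfr a b c d := by unfold nfr; ring
  have h2 : nfu d c b a = nfu a b c d := by unfold nfu; ring
  have h3 : d + c + b + a = a + b + c + d := by ring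
  have h4 : (a + b + c + d).choose (d + b) = (a + b + c + d).choose (a + c) :=
    Nat.choose_symm_of_eq_add (by ring)
  have h5 : d + b = b + d := by ring
  have h6 : c + a = a + c := by ring
  rw [h1, h2, h3, h4, h5, h6]
  ring

theorem WFour_log {η : ℝ} (hη : 0 < η) : ∃ n0 : ℕ, ∀ n ≥ n0, log (n : ℝ) ≤ η / 4 * n := by
  have h1 := (Real.isLittleO_log_id_atTop.def (c := η / 4) (by positivity))
  have h2 := tendsto_natCast_atTop_atTop (R := ℝ) |>.eventually h1
  obtain ⟨n0, hn0⟩ := Filter.eventually_atTop.1 h2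
  refine ⟨n0, fun n hn => ?_⟩
  have h3 := hn0 n hn
  rw [Real.norm_eq_abs, id, Real.norm_of_nonneg (Nat.cast_nonneg n)] at h3
  exact (le_abs_self _).trans h3

theorem WFour_exp : exp (69 / 100) ≤ 1999 / 1000 := by
  have h1 : (69 / 100 : ℝ) ≤ log (1999 / 1000) := by
    have h2 : (1999 / 1000 : ℝ) = 2 * (1999 / 2000) := by norm_num
    rw [h2, Real.log_mul (by norm_num) (by norm_num)]
    have h3 := Real.log_two_gt_d9
    have h4 : 1 - (1999 / 2000 : ℝ)⁻¹ ≤ log (1999 / 2000) :=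
      Real.one_sub_inv_le_log_of_pos (by norm_num)
    have h5 : 1 - (1999 / 2000 : ℝ)⁻¹ = -(1 / 1999) := by norm_num
    rw [h5] at h4
    have h6 : (1 / 1999 : ℝ) ≤ 6 / 10000 := by norm_num
    linarith
  calc exp (69 / 100) ≤ exp (log (1999 / 1000)) := exp_le_exp.2 h1
    _ = 1999 / 1000 := exp_log (by norm_num)

/-- The comparison of the two binomial coefficients. -/
theorem WFour_core {N K v w : ℕ} {T κ : ℝ} (hT : 0 < T) (hN : 249 / 1000 * T ≤ N)
    (hκ : 0 < κ) (hκ1 : κ ≤ 1 / 400000) (hy : |(K : ℝ) - N / 2| ≤ κ * T) (hv : (v : ℝ) ≤ κ * T)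
    (hw : w ≤ v) :
    exp (69 / 100 * w - 33 * κ * v) * (N.choose K : ℝ) ≤ ((N + w).choose (K + v) : ℝ) := by
  have hκT : κ * T ≤ 1 / 400000 * T := mul_le_mul_of_nonneg_right hκ1 hT.le
  have hNpos : 0 < (N : ℝ) := by linarith [mul_pos (show (0 : ℝ) < 249 / 1000 by norm_num) hT]
  obtain ⟨hy1, hy2⟩ := abs_le.1 hy
  have hv0 : (0 : ℝ) ≤ v := Nat.cast_nonneg v
  have hw' : (w : ℝ) ≤ v := by exact_mod_cast hw
  have hw0 : (0 : ℝ) ≤ w := Nat.cast_nonneg w
  have hKv : K + v ≤ N := by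
    have : ((K + v : ℕ) : ℝ) ≤ N := by
      push_cast
      linarith
    exact_mod_cast this
  have h1 := choose_addN_ge (w := w) hKv
  have h2 : |(K : ℝ) - N / 2| + v ≤ N / 100 := by linarith
  have h3 := choose_right_ge h2
  -- the ratio
  have hden : 0 < (N : ℝ) + w - ((K + v : ℕ) : ℝ) := by
    push_cast
    linarith
  have hden2 : ((N : ℝ) + w - ((K + v : ℕ) : ℝ)) * (1999 / 1000) ≤ N := by
    push_cast
    nlinarith
  have hR : 1999 / 1000 ≤ ((N : ℝ) + w) / ((N : ℝ) + w - ((K + v : ℕ) : ℝ)) := by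
    rw [le_div_iff₀ hden]
    linarith
  have hR2 : exp (69 / 100 * w) ≤ (((N : ℝ) + w) / ((N : ℝ) + w - ((K + v : ℕ) : ℝ))) ^ w := by
    have h4 : exp (69 / 100 * w) = exp (69 / 100) ^ w := by
      rw [← Real.exp_nat_mul, mul_comm]
    rw [h4]
    exact pow_le_pow_left₀ (exp_pos _).le (WFour_exp.trans hR) w
  -- the exponent
  have hE : -(33 * κ * v) ≤ -(41 / 10 / N * (max ((K : ℝ) - N / 2) 0 * v + (v : ℝ) ^ 2)) := by
    have h5 : max ((K : ℝ) - N / 2) 0 ≤ κ * T := max_le hy2 (by positivity)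
    have h6 : max ((K : ℝ) - N / 2) 0 * v + (v : ℝ) ^ 2 ≤ 2 * (κ * T) * v := by
      nlinarith
    have h7 : 41 / 10 / (N : ℝ) * (max ((K : ℝ) - N / 2) 0 * v + (v : ℝ) ^ 2) ≤
        41 / 10 / (N : ℝ) * (2 * (κ * T) * v) := by
      apply mul_le_mul_of_nonneg_left h6
      positivity
    have h8 : 41 / 10 / (N : ℝ) * (2 * (κ * T) * v) ≤ 33 * κ * v := by
      have h9 : 41 / 10 / (N : ℝ) * (2 * (κ * T) * v) = (82 / 10 * T / N) * (κ * v) := by
        field_simp
        ring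
      rw [h9]
      have h10 : 82 / 10 * T / N ≤ 33 := by
        rw [div_le_iff₀ hNpos]
        linarith
      have h11 : 0 ≤ κ * v := by positivity
      nlinarith
    linarith
  calc exp (69 / 100 * w - 33 * κ * v) * (N.choose K : ℝ)
      = exp (69 / 100 * w) * (exp (-(33 * κ * v)) * (N.choose K : ℝ)) := by
        rw [← mul_assoc, ← exp_add]
        congr 2
    _ ≤ (((N : ℝ) + w) / ((N : ℝ) + w - ((K + v : ℕ) : ℝ))) ^ w * (N.choose (K + v) : ℝ) := by
        apply mul_le_mul hR2 _ (by positivity) (pow_nonneg (by linarith) _)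
        refine le_trans ?_ h3
        apply mul_le_mul_of_nonneg_right (exp_le_exp.2 hE)
        positivity
    _ ≤ ((N + w).choose (K + v) : ℝ) := h1

theorem WFour_choose {m d n : ℕ} (hm : m ≤ n) (hn : 1 ≤ n) :
    (m.choose d : ℝ) ≤ exp (d * log n) := by
  have h1 : m.choose d ≤ m ^ d := Nat.choose_le_pow m d
  have h2 : (m.choose d : ℝ) ≤ (n : ℝ) ^ d := by
    calc (m.choose d : ℝ) ≤ (m : ℝ) ^ d := by exact_mod_cast h1
      _ ≤ (n : ℝ) ^ d := pow_le_pow_left₀ (Nat.cast_nonneg m) (by exact_mod_cast hm) d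
  have h3 : exp (d * log n) = (n : ℝ) ^ d := by
    rw [Real.exp_nat_mul, exp_log (by exact_mod_cast hn)]
  rw [h3]
  exact h2

/-- Moving the top layer into layer `1`. For a four-layer term with `a ≥ η n`, `1 ≤ d ≤ κ n`,
`|l - n/2| ≤ η n`, `|y| ≤ κ n²` (`κ ≤ η/400`, `η ≤ 1/1000`, `n` large):
`tm a (b+d) c 0 k ≥ exp(η d n / 4) tm a b c d k`.
Proof. `N = nfr`, `K = k - nfu`; for the new term `N' = N + a d`, `K' = K + (a+b) d`; the multinomial factor
changes by `b! d!/(b+d)! ≥ 1/n^d` [`choose (b+d) d ≤ n^d`]. `v = (a+b)d ≤ n d ≤ κ n²`, `w = a d`: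
`choose (N+w) (K+v) ≥ ((N+w)/(N+w-K-v))^w choose N (K+v)` (`choose_addN_ge`) with
`(N+w)/(N+w-K-v) ≥ 2 (1 - 20κ)` (`N ≥ 0.24 n²`, `N - K ≤ N/2 + κ n²`), and `choose_right_ge`:
`choose N (K+v) ≥ exp(-(4.1/N)(κ n² v + v²)) choose N K ≥ exp(-40 κ n d) choose N K`.
Total exponent `≥ a d (log 2 - 30 κ) - 40 κ n d - d log n ≥ η n d/4`. -/
theorem four_shift {η κ : ℝ} (hη : 0 < η) (hη1 : η ≤ 1 / 1000) (hκ : 0 < κ) (hκη : κ ≤ η / 400) :
    ∃ n0 : ℕ, ∀ n ≥ n0, ∀ k : ℕ, ∀ x ∈ CanQ n, 1 ≤ x.2.2.2 → η * n ≤ x.1 →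
      (x.2.2.2 : ℝ) ≤ κ * n → |((x.1 + x.2.2.1 : ℕ) : ℝ) - (n : ℝ) / 2| ≤ η * n →
      |yq k x| ≤ κ * (n : ℝ) ^ 2 →
      exp (η * x.2.2.2 * n / 4) * (tmx x k : ℝ) ≤
        (tm x.1 (x.2.1 + x.2.2.2) x.2.2.1 0 k : ℝ) := by
  obtain ⟨n0, hn0⟩ := WFour_log hη
  refine ⟨max n0 1, fun n hn k x hx hd1 ha hd hl hy => ?_⟩
  have hlog := hn0 n (le_trans (le_max_left _ _) hn)
  have hn1 : 1 ≤ n := le_trans (le_max_right _ _) hn
  have hnR : (1 : ℝ) ≤ n := by exact_mod_cast hn1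
  have hNle := nfr_le hx
  obtain ⟨a, b, c, d⟩ := x
  simp only at hd1 ha hd hl hy hNle ⊢
  have hx' := hx
  unfold CanQ at hx'
  rw [Finset.mem_filter] at hx'
  obtain ⟨-, hsum, hb, hc, -⟩ := hx'
  simp only at hsum hb hc
  have hsumR : (a : ℝ) + b + c + d = n := by exact_mod_cast hsum
  have ha0 : (0 : ℝ) ≤ a := Nat.cast_nonneg a
  have hb0 : (0 : ℝ) ≤ b := Nat.cast_nonneg b
  have hc0 : (0 : ℝ) ≤ c := Nat.cast_nonneg c
  have hd0 : (0 : ℝ) ≤ d := Nat.cast_nonneg d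
  unfold tmx tm
  simp only
  unfold chz
  by_cases hk : nfu a b c d ≤ k
  swap
  · rw [if_neg hk]
    simp only [mul_zero, Nat.cast_zero]
    positivity
  rw [if_pos hk]
  have hU' : nfu a (b + d) c 0 = a * c := by unfold nfu; ring
  have hU : nfu a b c d = a * c + (a + b) * d := by unfold nfu; ring
  have hk' : nfu a (b + d) c 0 ≤ k := by
    rw [hU']
    rw [hU] at hk
    exact le_trans (Nat.le_add_right _ _) hk
  rw [if_pos hk']
  have hN' : nfr a (b + d) c 0 = nfr a b c d + a * d := by unfold nfr; ring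
  have hK' : k - nfu a (b + d) c 0 = (k - nfu a b c d) + (a + b) * d := by
    rw [hU', hU]
    rw [hU] at hk
    omega
  rw [hN', hK']
  have hsum' : a + (b + d) + c + 0 = a + b + c + d := by ring
  rw [hsum', Nat.add_zero, Nat.choose_zero_right, mul_one]
  set N := nfr a b c d with hNdef
  set K := k - nfu a b c d with hKdef
  have hKR : (K : ℝ) = (k : ℝ) - nfu a b c d := by
    rw [hKdef]
    push_cast [Nat.cast_sub hk]
    ring
  have hyq : yq k (a, b, c, d) = (K : ℝ) - N / 2 := by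
    unfold yq
    simp only
    rw [hKR]
  rw [hyq] at hy
  have hκ1 : κ ≤ 1 / 400000 := by linarith
  have hT : 0 < (n : ℝ) ^ 2 := by positivity
  -- lower bound for N
  have hN : 249 / 1000 * (n : ℝ) ^ 2 ≤ N := by
    rw [hNle]
    have h1 : (((a + c : ℕ) : ℝ) - n / 2) ^ 2 ≤ (η * n) ^ 2 := by
      rw [← sq_abs]
      exact pow_le_pow_left₀ (abs_nonneg _) hl 2
    have h2 : (η * n) ^ 2 ≤ (1 / 1000 * (n : ℝ)) ^ 2 :=
      pow_le_pow_left₀ (by positivity) (mul_le_mul_of_nonneg_right hη1 (by linarith)) 2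
    have h3 : (a : ℝ) * d ≤ n * (κ * n) := by
      apply mul_le_mul _ hd hd0 (by linarith)
      linarith
    have h4 : (n : ℝ) * (κ * n) ≤ 1 / 400000 * (n : ℝ) ^ 2 := by nlinarith
    nlinarith
  -- the shift
  have hvd : ((((a + b) * d : ℕ)) : ℝ) ≤ n * d := by
    push_cast
    apply mul_le_mul_of_nonneg_right _ hd0
    linarith
  have hv : ((((a + b) * d : ℕ)) : ℝ) ≤ κ * (n : ℝ) ^ 2 := by
    refine hvd.trans ?_
    nlinarith
  have hw : a * d ≤ (a + b) * d := Nat.mul_le_mul_right _ (Nat.le_add_right _ _)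
  have hcore := WFour_core hT hN hκ hκ1 hy hv hw
  -- the exponents
  have hbd : ((b + d).choose d : ℝ) ≤ exp (d * log n) := WFour_choose (by omega) hn1
  have hexp : η * d * n / 4 + d * log n ≤ 69 / 100 * ((a * d : ℕ) : ℝ) -
      33 * κ * (((a + b) * d : ℕ) : ℝ) := by
    have h1 : (d : ℝ) * log n ≤ d * (η / 4 * n) := mul_le_mul_of_nonneg_left hlog hd0
    have h2 : 33 * κ * (((a + b) * d : ℕ) : ℝ) ≤ 33 * κ * (n * d) :=
      mul_le_mul_of_nonneg_left hvd (by positivity)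
    have h3 : 33 * κ * (n * d) ≤ 33 * (η / 400) * ((n : ℝ) * d) := by
      apply mul_le_mul_of_nonneg_right _ (by positivity)
      linarith
    have h4 : η * n * d ≤ ((a * d : ℕ) : ℝ) := by
      push_cast
      exact mul_le_mul_of_nonneg_right ha hd0
    have h5 : 0 ≤ η * n * d := by positivity
    nlinarith
  have hfin : exp (η * d * n / 4) * (((b + d).choose d : ℝ) * (N.choose K : ℝ)) ≤
      ((N + a * d).choose (K + (a + b) * d) : ℝ) := by
    calc exp (η * d * n / 4) * (((b + d).choose d : ℝ) * (N.choose K : ℝ))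
        ≤ exp (η * d * n / 4) * (exp (d * log n) * (N.choose K : ℝ)) := by
          apply mul_le_mul_of_nonneg_left _ (exp_pos _).le
          exact mul_le_mul_of_nonneg_right hbd (Nat.cast_nonneg _)
      _ = exp (η * d * n / 4 + d * log n) * (N.choose K : ℝ) := by
          rw [exp_add]
          ring
      _ ≤ exp (69 / 100 * ((a * d : ℕ) : ℝ) - 33 * κ * (((a + b) * d : ℕ) : ℝ)) *
            (N.choose K : ℝ) :=
          mul_le_mul_of_nonneg_right (exp_le_exp.2 hexp) (Nat.cast_nonneg _)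
      _ ≤ _ := hcore
  have hM : (0 : ℝ) ≤ ((a + b + c + d).choose (a + c) : ℝ) * ((a + c).choose a : ℝ) := by
    positivity
  push_cast
  calc exp (η * d * n / 4) * (((a + b + c + d).choose (a + c) : ℝ) * ((a + c).choose a : ℝ) *
        ((b + d).choose d : ℝ) * (N.choose K : ℝ))
      = ((a + b + c + d).choose (a + c) : ℝ) * ((a + c).choose a : ℝ) *
          (exp (η * d * n / 4) * (((b + d).choose d : ℝ) * (N.choose K : ℝ))) := by ring
    _ ≤ ((a + b + c + d).choose (a + c) : ℝ) * ((a + c).choose a : ℝ) *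
          ((N + a * d).choose (K + (a + b) * d) : ℝ) := mul_le_mul_of_nonneg_left hfin hM

end Pool.Agent.H.MP_82502e_co
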