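import Pool.Agent.H.MP_82502e_co.WDom
import Pool.Agent.H.MP_82502e_co.WFour

set_option autoImplicit false

/-!
# The window: four-layer terms near n^2/8: sum
-/

namespace Pool.Agent.H.MP_82502e_co

open Finset Real

/-- the weight in the fibre sums -/
noncomputable def WDomS_w (a z : ℕ) : ℝ :=
  (2 : ℝ) ^ (-(4 / 5 * ((a : ℝ) * ((z : ℝ) - a)))) * z.choose a

theorem WDomS_w_nonneg (a z : ℕ) : 0 ≤ WDomS_w a z := by
  unfold WDomS_w
  positivity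

theorem WDomS_quad {z : ℝ} (hz : 0 ≤ z) : z ^ 2 * (2 : ℝ) ^ (-(2 / 5 * z)) ≤ 27 := by
  have h1 : (2 : ℝ) ^ (-(2 / 5 * z)) = exp (-(2 / 5 * log 2 * z)) := by
    rw [rpow_def_of_pos (by norm_num)]
    congr 1
    ring
  rw [h1, exp_neg, ← div_eq_mul_inv, div_le_iff₀ (exp_pos _)]
  have h2 := Real.quadratic_le_exp_of_nonneg (x := 2 / 5 * log 2 * z)
    (mul_nonneg (mul_nonneg (by norm_num) (log_nonneg (by norm_num))) hz)
  have h3 : (0.69 : ℝ) ≤ log 2 := by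
    have := log_two_gt_d9
    linarith
  have h4 : (276 / 1000 : ℝ) ≤ 2 / 5 * log 2 := by linarith
  have h5 : (276 / 1000 * z) ^ 2 ≤ (2 / 5 * log 2 * z) ^ 2 :=
    pow_le_pow_left₀ (by positivity) (mul_le_mul_of_nonneg_right h4 hz) 2
  have h6 : 0 ≤ 2 / 5 * log 2 * z := by positivity
  nlinarith [mul_nonneg hz hz]

theorem WDomS_term {a z : ℕ} (hz : 27 ≤ z) (ha : 1 ≤ a) (haz : 2 * a ≤ z) :
    WDomS_w a z ≤ z * (2 : ℝ) ^ (-(2 / 5 * (z : ℝ))) := by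
  have hzR : (27 : ℝ) ≤ z := by exact_mod_cast hz
  have hazR : (2 : ℝ) * a ≤ z := by exact_mod_cast haz
  have hc : (z.choose a : ℝ) ≤ (z : ℝ) ^ a := by exact_mod_cast Nat.choose_le_pow z a
  have h1 : (2 : ℝ) ^ (-(4 / 5 * ((a : ℝ) * ((z : ℝ) - a)))) ≤
      ((2 : ℝ) ^ (-(2 / 5 * (z : ℝ)))) ^ a := by
    rw [← rpow_natCast, ← rpow_mul (by norm_num)]
    apply rpow_le_rpow_of_exponent_le (by norm_num)
    have : (0 : ℝ) ≤ a := Nat.cast_nonneg a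
    nlinarith
  have hq : (z : ℝ) * (2 : ℝ) ^ (-(2 / 5 * (z : ℝ))) ≤ 1 := by
    have h2 := WDomS_quad (z := z) (by linarith)
    have h3 : (z : ℝ) * ((z : ℝ) * (2 : ℝ) ^ (-(2 / 5 * (z : ℝ)))) ≤ (z : ℝ) * 1 := by
      calc (z : ℝ) * ((z : ℝ) * (2 : ℝ) ^ (-(2 / 5 * (z : ℝ))))
          = (z : ℝ) ^ 2 * (2 : ℝ) ^ (-(2 / 5 * (z : ℝ))) := by ring
        _ ≤ 27 := h2
        _ ≤ (z : ℝ) * 1 := by linarith
    exact le_of_mul_le_mul_left h3 (by linarith)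
  have hq0 : 0 ≤ (z : ℝ) * (2 : ℝ) ^ (-(2 / 5 * (z : ℝ))) := by positivity
  calc WDomS_w a z ≤ ((2 : ℝ) ^ (-(2 / 5 * (z : ℝ)))) ^ a * (z : ℝ) ^ a := by
        unfold WDomS_w
        exact mul_le_mul h1 hc (by positivity) (by positivity)
    _ = ((z : ℝ) * (2 : ℝ) ^ (-(2 / 5 * (z : ℝ)))) ^ a := by
        rw [mul_pow]
        ring
    _ ≤ ((z : ℝ) * (2 : ℝ) ^ (-(2 / 5 * (z : ℝ)))) ^ 1 := pow_le_pow_of_le_one hq0 hq ha
    _ = _ := pow_one _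

theorem WDomS_w_symm {a z : ℕ} (h : a ≤ z) : WDomS_w (z - a) z = WDomS_w a z := by
  unfold WDomS_w
  rw [Nat.choose_symm h, Nat.cast_sub h]
  congr 3
  ring

/-- The fibre sums are bounded: `Σ_{a=1}^{z-1} 2^(-4a(z-a)/5) choose z a ≤ C` (for `a ≤ z/2`: the term is at most `(z 2^(-2z/5))^a`). -/
theorem fibre_sum : ∃ C : ℝ, 0 < C ∧ ∀ z : ℕ, ∑ a ∈ Ico 1 z,
    (2 : ℝ) ^ (-(4 / 5 * ((a : ℝ) * ((z : ℝ) - a)))) * z.choose a ≤ C := by
  have h0 : ∀ z : ℕ, 0 ≤ ∑ a ∈ Ico 1 z, WDomS_w a z :=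
    fun z => sum_nonneg fun a _ => WDomS_w_nonneg a z
  refine ⟨27 + ∑ z ∈ range 27, ∑ a ∈ Ico 1 z, WDomS_w a z, ?_, fun z => ?_⟩
  · have : 0 ≤ ∑ z ∈ range 27, ∑ a ∈ Ico 1 z, WDomS_w a z := sum_nonneg fun z _ => h0 z
    linarith
  · change ∑ a ∈ Ico 1 z, WDomS_w a z ≤ _
    rcases lt_or_ge z 27 with hz | hz
    · have h1 : ∑ a ∈ Ico 1 z, WDomS_w a z ≤ ∑ z ∈ range 27, ∑ a ∈ Ico 1 z, WDomS_w a z :=
        single_le_sum (f := fun z => ∑ a ∈ Ico 1 z, WDomS_w a z) (fun z _ => h0 z)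
          (mem_range.2 hz)
      linarith
    · have h1 : ∀ a ∈ Ico 1 z, WDomS_w a z ≤ z * (2 : ℝ) ^ (-(2 / 5 * (z : ℝ))) := by
        intro a ha
        rw [mem_Ico] at ha
        rcases le_or_gt (2 * a) z with h | h
        · exact WDomS_term hz ha.1 h
        · rw [← WDomS_w_symm ha.2.le]
          exact WDomS_term hz (by omega) (by omega)
      have h2 := sum_le_card_nsmul _ _ _ h1
      rw [Nat.card_Ico, nsmul_eq_mul] at h2
      have h3 := WDomS_quad (z := z) (Nat.cast_nonneg z)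
      have h4 : ((z - 1 : ℕ) : ℝ) ≤ z := by exact_mod_cast Nat.sub_le z 1
      have h5 : ((z - 1 : ℕ) : ℝ) * (z * (2 : ℝ) ^ (-(2 / 5 * (z : ℝ)))) ≤
          z * (z * (2 : ℝ) ^ (-(2 / 5 * (z : ℝ)))) :=
        mul_le_mul_of_nonneg_right h4 (by positivity)
      have h6 : 0 ≤ ∑ z ∈ range 27, ∑ a ∈ Ico 1 z, WDomS_w a z := sum_nonneg fun z _ => h0 z
      have h7 : (z : ℝ) * (z * (2 : ℝ) ^ (-(2 / 5 * (z : ℝ)))) =
        (z : ℝ) ^ 2 * (2 : ℝ) ^ (-(2 / 5 * (z : ℝ))) := by ring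
      linarith

/-- three-layer terms, zero outside the range -/
noncomputable def WDomS_h (n k l s : ℕ) : ℝ := if s < l then (q3 n l s k : ℝ) else 0

theorem WDomS_h_nonneg (n k l s : ℕ) : 0 ≤ WDomS_h n k l s := by
  unfold WDomS_h
  split_ifs
  · exact Nat.cast_nonneg _
  · exact le_rfl

theorem WDomS_h_sum (n k l g : ℕ) :
    ∑ z ∈ range (n + 1), WDomS_h n k l (z + g) ≤ (F3l n l k : ℝ) := by
  have h1 : ∑ z ∈ range (n + 1), WDomS_h n k l (z + g) ≤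
      ∑ s ∈ range (g + (n + 1)), WDomS_h n k l s := by
    rw [sum_range_add (fun s => WDomS_h n k l s) g (n + 1)]
    have h2 : 0 ≤ ∑ x ∈ range g, WDomS_h n k l x := sum_nonneg fun s _ => WDomS_h_nonneg _ _ _ _
    have h3 : ∑ z ∈ range (n + 1), WDomS_h n k l (z + g) =
        ∑ x ∈ range (n + 1), WDomS_h n k l (g + x) :=
      sum_congr rfl fun z _ => by rw [add_comm]
    rw [h3]
    linarith
  refine h1.trans ?_
  unfold WDomS_h F3l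
  rw [← sum_filter, Nat.cast_sum]
  refine sum_le_sum_of_subset_of_nonneg (fun s hs => ?_) (fun _ _ _ => Nat.cast_nonneg _)
  exact mem_range.2 (mem_filter.1 hs).2

/-- the sum over the quadruples with given `g` -/
theorem WDomS_sum {n k g : ℕ} {C2 : ℝ} (hC2 : ∀ z : ℕ, ∑ a ∈ Ico 1 z, WDomS_w a z ≤ C2)
    (A : Finset (ℕ × ℕ × ℕ × ℕ)) (hA : ∀ x ∈ A, x ∈ CanQ n ∧ 1 ≤ x.2.2.2) :
    ∑ x ∈ A, WDomS_w x.1 (x.1 + x.2.2.2) *
      WDomS_h n k (x.1 + x.2.2.1) (x.1 + x.2.2.2 + g) ≤ C2 * F3 n k := by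
  classical
  have hC20 : 0 ≤ C2 := (sum_nonneg fun a _ => WDomS_w_nonneg a 0).trans (hC2 0)
  set Φ : ℕ × ℕ × ℕ → ℝ := fun t =>
    if 1 ≤ t.2.2 ∧ t.2.2 < t.2.1 then WDomS_w t.2.2 t.2.1 * WDomS_h n k t.1 (t.2.1 + g) else 0
    with hΦ
  have hΦ0 : ∀ t, 0 ≤ Φ t := by
    intro t
    simp only [hΦ]
    split_ifs
    · exact mul_nonneg (WDomS_w_nonneg _ _) (WDomS_h_nonneg _ _ _ _)
    · exact le_rfl
  set i : ℕ × ℕ × ℕ × ℕ → ℕ × ℕ × ℕ := fun x => (x.1 + x.2.2.1, x.1 + x.2.2.2, x.1) with hi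
  have hcan : ∀ x ∈ A, x.1 + x.2.1 + x.2.2.1 + x.2.2.2 = n ∧ 1 ≤ x.2.1 ∧ 1 ≤ x.2.2.1 ∧
      1 ≤ x.1 ∧ 1 ≤ x.2.2.2 := by
    intro x hx
    obtain ⟨h1, h2⟩ := hA x hx
    unfold CanQ at h1
    rw [mem_filter] at h1
    exact ⟨h1.2.1, h1.2.2.1, h1.2.2.2.1, h1.2.2.2.2 h2, h2⟩
  have h1 : ∑ x ∈ A, WDomS_w x.1 (x.1 + x.2.2.2) *
      WDomS_h n k (x.1 + x.2.2.1) (x.1 + x.2.2.2 + g) = ∑ x ∈ A, Φ (i x) := by
    refine sum_congr rfl fun x hx => ?_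
    obtain ⟨e1, e2, e3, e4, e5⟩ := hcan x hx
    simp only [hΦ, hi]
    rw [if_pos ⟨e4, by omega⟩]
  have h2 : ∑ x ∈ A, Φ (i x) = ∑ t ∈ A.image i, Φ t := by
    rw [sum_image]
    intro x hx y hy hxy
    obtain ⟨e1, e2, e3, e4, e5⟩ := hcan x hx
    obtain ⟨f1, f2, f3, f4, f5⟩ := hcan y hy
    obtain ⟨a, b, c, d⟩ := x
    obtain ⟨a', b', c', d'⟩ := y
    simp only [hi, Prod.mk.injEq] at hxy e1 f1 ⊢
    omega
  have h3 : ∑ t ∈ A.image i, Φ t ≤ ∑ t ∈ range n ×ˢ range (n + 1) ×ˢ range (n + 1), Φ t := by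
    refine sum_le_sum_of_subset_of_nonneg (fun t ht => ?_) (fun t _ _ => hΦ0 t)
    rw [mem_image] at ht
    obtain ⟨x, hx, rfl⟩ := ht
    obtain ⟨e1, e2, e3, e4, e5⟩ := hcan x hx
    simp only [hi, mem_product, mem_range]
    omega
  have h4 : ∀ l z, z ∈ range (n + 1) → ∑ a ∈ range (n + 1), Φ (l, z, a) ≤
      C2 * WDomS_h n k l (z + g) := by
    intro l z hz
    simp only [hΦ]
    rw [← sum_filter]
    have h5 : (range (n + 1)).filter (fun a => 1 ≤ a ∧ a < z) ⊆ Ico 1 z := by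
      intro a ha
      rw [mem_filter] at ha
      exact mem_Ico.2 ha.2
    calc ∑ a ∈ (range (n + 1)).filter (fun a => 1 ≤ a ∧ a < z),
          WDomS_w a z * WDomS_h n k l (z + g)
        ≤ ∑ a ∈ Ico 1 z, WDomS_w a z * WDomS_h n k l (z + g) :=
          sum_le_sum_of_subset_of_nonneg h5
            (fun a _ _ => mul_nonneg (WDomS_w_nonneg _ _) (WDomS_h_nonneg _ _ _ _))
      _ = (∑ a ∈ Ico 1 z, WDomS_w a z) * WDomS_h n k l (z + g) := by rw [sum_mul]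
      _ ≤ C2 * WDomS_h n k l (z + g) :=
          mul_le_mul_of_nonneg_right (hC2 z) (WDomS_h_nonneg _ _ _ _)
  rw [h1, h2]
  refine h3.trans ?_
  rw [sum_product]
  unfold F3
  rw [Nat.cast_sum, mul_sum]
  refine sum_le_sum fun l _ => ?_
  rw [sum_product]
  calc ∑ z ∈ range (n + 1), ∑ a ∈ range (n + 1), Φ (l, z, a)
      ≤ ∑ z ∈ range (n + 1), C2 * WDomS_h n k l (z + g) := sum_le_sum fun z hz => h4 l z hz
    _ = C2 * ∑ z ∈ range (n + 1), WDomS_h n k l (z + g) := by rw [mul_sum]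
    _ ≤ C2 * (F3l n l k : ℝ) := mul_le_mul_of_nonneg_left (WDomS_h_sum n k l g) hC20

theorem WDomS_geom {ε0 : ℝ} (h0 : 0 < ε0) (h1 : ε0 ≤ 1 / 10000) (n : ℕ) :
    ∑ g ∈ Ico 1 (n + 1), (20 * ε0) ^ g ≤ 40 * ε0 := by
  have h2 : (0 : ℝ) ≤ 20 * ε0 := by positivity
  have h3 : 20 * ε0 < 1 := by linarith
  have h4 := geom_sum_Ico_le_of_lt_one h2 h3 (m := 1) (n := n + 1)
  refine h4.trans ?_
  rw [pow_one, div_le_iff₀ (by linarith)]
  nlinarith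

/-- reversal of a quadruple -/
def WDomS_rev (x : ℕ × ℕ × ℕ × ℕ) : ℕ × ℕ × ℕ × ℕ := (x.2.2.2, x.2.2.1, x.2.1, x.1)

theorem WDomS_rev_tmx (x : ℕ × ℕ × ℕ × ℕ) (k : ℕ) : tmx (WDomS_rev x) k = tmx x k := by
  unfold WDomS_rev tmx
  exact tm_rev _ _ _ _ _

theorem WDomS_rev_yq (x : ℕ × ℕ × ℕ × ℕ) (k : ℕ) : yq k (WDomS_rev x) = yq k x := by
  unfold WDomS_rev yq nfu nfr
  push_cast
  ring

open scoped Classical in
/-- **Sum over the four-layer terms.** By `dom` and `fibre_sum`; the terms with `l > n/2` are reversed (`tm_rev`, `(d,c,b,a)`; `yq` and `Typ` are invariant; `l = n/2` occurs in both, harmless). Total: `2 C C' Σ_{g≥1} (20 ε0)^g F3 ≤ C'' ε0 F3`. -/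
theorem four_sum : ∃ C : ℝ, 0 < C ∧ ∀ ε0 : ℝ, 0 < ε0 → ε0 ≤ 1 / 10000 → ∃ n0 : ℕ, ∀ n ≥ n0,
    ∀ k : ℕ, (∑ x ∈ (CanQ n).filter (fun x => 1 ≤ x.2.2.2 ∧ Typ (ε0 / 4) (1 / 1000) n k x ∧
      -(n : ℝ) / 4 ≤ yq k x), (tmx x k : ℝ) * (1 + max (yq k x) 0 / n)) ≤ C * ε0 * F3 n k := by
  obtain ⟨C1, hC1, hdom⟩ := dom
  obtain ⟨C2, hC2, hfib⟩ := fibre_sum
  have hfib' : ∀ z : ℕ, ∑ a ∈ Ico 1 z, WDomS_w a z ≤ C2 := hfib
  refine ⟨80 * C1 * C2, by positivity, fun ε0 h0 h1 => ?_⟩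
  obtain ⟨n0, hn0⟩ := hdom ε0 h0 h1
  refine ⟨n0, fun n hn k => ?_⟩
  set f : ℕ × ℕ × ℕ × ℕ → ℝ := fun x => (tmx x k : ℝ) * (1 + max (yq k x) 0 / n) with hf
  have hf0 : ∀ x, 0 ≤ f x := fun x => by
    simp only [hf]
    positivity
  set T := (CanQ n).filter (fun x => 1 ≤ x.2.2.2 ∧ Typ (ε0 / 4) (1 / 1000) n k x ∧
      -(n : ℝ) / 4 ≤ yq k x) with hT
  set A := T.filter (fun x => x.1 + x.2.2.1 ≤ n - (x.1 + x.2.2.1)) with hA
  have hAmem : ∀ x ∈ A, x ∈ CanQ n ∧ 1 ≤ x.2.2.2 := by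
    intro x hx
    rw [hA, mem_filter, hT, mem_filter] at hx
    exact ⟨hx.1.1, hx.1.2.1⟩
  -- the sum over A
  have hSA : ∑ x ∈ A, f x ≤ 40 * C1 * C2 * ε0 * F3 n k := by
    have hterm : ∀ x ∈ A, f x ≤ ∑ g ∈ Ico 1 (n + 1), C1 * (20 * ε0) ^ g *
        (WDomS_w x.1 (x.1 + x.2.2.2) * WDomS_h n k (x.1 + x.2.2.1) (x.1 + x.2.2.2 + g)) := by
      intro x hx
      have hx' := hx
      rw [hA, mem_filter, hT, mem_filter] at hx'
      obtain ⟨⟨hc, hd, ht, hy⟩, hl⟩ := hx'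
      have hc' := hc
      unfold CanQ at hc'
      rw [mem_filter] at hc'
      obtain ⟨-, hs, hb1, hc1, hda⟩ := hc'
      obtain ⟨g, hg1, hg2, hg3⟩ := hn0 n hn k x hc (hda hd) hd ht hl hy
      have hgn : g ∈ Ico 1 (n + 1) := mem_Ico.2 ⟨hg1, by omega⟩
      have hnn : ∀ g ∈ Ico 1 (n + 1), 0 ≤ C1 * (20 * ε0) ^ g *
          (WDomS_w x.1 (x.1 + x.2.2.2) *
            WDomS_h n k (x.1 + x.2.2.1) (x.1 + x.2.2.2 + g)) := by
        intro g _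
        have e1 := WDomS_w_nonneg x.1 (x.1 + x.2.2.2)
        have e2 := WDomS_h_nonneg n k (x.1 + x.2.2.1) (x.1 + x.2.2.2 + g)
        positivity
      refine le_trans ?_ (single_le_sum hnn hgn)
      refine hg3.trans (le_of_eq ?_)
      unfold WDomS_h WDomS_w
      rw [if_pos hg2]
      push_cast
      rw [add_sub_cancel_left]
      ring
    calc ∑ x ∈ A, f x ≤ ∑ x ∈ A, ∑ g ∈ Ico 1 (n + 1), C1 * (20 * ε0) ^ g *
          (WDomS_w x.1 (x.1 + x.2.2.2) *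
            WDomS_h n k (x.1 + x.2.2.1) (x.1 + x.2.2.2 + g)) := sum_le_sum hterm
      _ = ∑ g ∈ Ico 1 (n + 1), C1 * (20 * ε0) ^ g * ∑ x ∈ A, WDomS_w x.1 (x.1 + x.2.2.2) *
            WDomS_h n k (x.1 + x.2.2.1) (x.1 + x.2.2.2 + g) := by
          rw [sum_comm]
          refine sum_congr rfl fun g _ => ?_
          rw [mul_sum]
      _ ≤ ∑ g ∈ Ico 1 (n + 1), C1 * (20 * ε0) ^ g * (C2 * F3 n k) := by
          refine sum_le_sum fun g _ => ?_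
          exact mul_le_mul_of_nonneg_left (WDomS_sum hfib' A hAmem) (by positivity)
      _ = C1 * C2 * F3 n k * ∑ g ∈ Ico 1 (n + 1), (20 * ε0) ^ g := by
          rw [mul_sum]
          refine sum_congr rfl fun g _ => ?_
          ring
      _ ≤ C1 * C2 * F3 n k * (40 * ε0) :=
          mul_le_mul_of_nonneg_left (WDomS_geom h0 h1 n) (by positivity)
      _ = _ := by ring
  -- the other terms
  have hSB : ∑ x ∈ T.filter (fun x => ¬ (x.1 + x.2.2.1 ≤ n - (x.1 + x.2.2.1))), f x ≤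
      ∑ x ∈ A, f x := by
    set B := T.filter (fun x => ¬ (x.1 + x.2.2.1 ≤ n - (x.1 + x.2.2.1))) with hB
    have e1 : ∑ x ∈ B, f x = ∑ x ∈ B, f (WDomS_rev x) := by
      refine sum_congr rfl fun x _ => ?_
      simp only [hf]
      rw [WDomS_rev_tmx, WDomS_rev_yq]
    have e2 : ∑ x ∈ B, f (WDomS_rev x) = ∑ y ∈ B.image WDomS_rev, f y := by
      rw [sum_image]
      intro x _ y _ hxy
      obtain ⟨a, b, c, d⟩ := x
      obtain ⟨a', b', c', d'⟩ := y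
      simp only [WDomS_rev, Prod.mk.injEq] at hxy ⊢
      omega
    rw [e1, e2]
    refine sum_le_sum_of_subset_of_nonneg (fun y hy => ?_) (fun y _ _ => hf0 y)
    rw [mem_image] at hy
    obtain ⟨x, hx, rfl⟩ := hy
    rw [hB, mem_filter, hT, mem_filter] at hx
    obtain ⟨⟨hc, hd, ht, hy⟩, hl⟩ := hx
    rw [hA, mem_filter, hT, mem_filter, WDomS_rev_yq]
    have hc' := hc
    unfold CanQ at hc'
    rw [mem_filter] at hc'
    obtain ⟨-, hs, hb1, hc1, hda⟩ := hc'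
    obtain ⟨a, b, c, d⟩ := x
    simp only at hs hb1 hc1 hda hd hl ⊢
    have ha := hda hd
    refine ⟨⟨?_, ?_, ?_, hy⟩, ?_⟩
    · unfold CanQ WDomS_rev
      simp only [mem_filter, mem_product, mem_range]
      omega
    · exact ha
    · obtain ⟨t1, t2, t3⟩ := ht
      refine ⟨?_, ?_, ?_⟩
      · simp only [WDomS_rev] at t1 ⊢
        have e3 : ((d + b : ℕ) : ℝ) - (n : ℝ) / 2 = -(((a + c : ℕ) : ℝ) - (n : ℝ) / 2) := by
          have : (n : ℝ) = a + b + c + d := by exact_mod_cast hs.symm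
          push_cast
          rw [this]
          ring
        rw [e3, abs_neg]
        exact t1
      · rw [WDomS_rev_yq]
        exact t2
      · right
        simp only [WDomS_rev] at t3 ⊢
        rcases t3 with t3 | t3
        · omega
        · exact ⟨t3.2, t3.1⟩
    · simp only [WDomS_rev]
      omega
  have hsplit : ∑ x ∈ T, f x = ∑ x ∈ A, f x +
      ∑ x ∈ T.filter (fun x => ¬ (x.1 + x.2.2.1 ≤ n - (x.1 + x.2.2.1))), f x :=
    (sum_filter_add_sum_filter_not T _ f).symm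
  rw [hsplit]
  linarith

end Pool.Agent.H.MP_82502e_co
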