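import Pool.Agent.H.MP_82502e_co.WDefs
import Pool.Agent.H.MP_82502e_co.Ent

set_option autoImplicit false

/-!
# The window: elementary inequalities for binomial coefficients, 2
-/

namespace Pool.Agent.H.MP_82502e_co

open Finset Real

/-- `choose N K ≤ 2^N exp(-2 (K-N/2)²/N)`. (`choose N K ≤ exp (phi N K)`, and
`binEntropy p ≤ log 2 - 2 (p-1/2)²`: second derivative `-1/(p(1-p)) ≤ -4`; or Chernoff:
`choose N K e^{t(2K-N)} ≤ (2 cosh t)^N ≤ 2^N e^{N t²/2}`, `t = 2(K-N/2)/N`.) -/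
theorem choose_le_gauss (N K : ℕ) :
    (N.choose K : ℝ) ≤ 2 ^ N * exp (-(2 * ((K : ℝ) - N / 2) ^ 2 / N)) := by
  rcases Nat.eq_zero_or_pos N with hN | hN
  · subst hN
    have h1 : Nat.choose 0 K ≤ 1 := by
      rcases Nat.eq_zero_or_pos K with h | h
      · subst h; simp
      · rw [Nat.choose_eq_zero_of_lt h]; omega
    have h2 : ((Nat.choose 0 K : ℕ) : ℝ) ≤ 1 := by exact_mod_cast h1
    simpa using h2
  have hN' : (0 : ℝ) < N := by exact_mod_cast hN
  rcases lt_or_ge N K with hK | hK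
  · rw [Nat.choose_eq_zero_of_lt hK]
    simp only [Nat.cast_zero]
    positivity
  obtain ⟨t, ht⟩ : ∃ t : ℝ, t = (2 * (K : ℝ) - N) / N := ⟨_, rfl⟩
  have h1 : (N.choose K : ℝ) * exp (t * (2 * K - N)) ≤ (exp t + exp (-t)) ^ N := by
    rw [add_pow]
    have h2 := Finset.single_le_sum (f := fun m => exp t ^ m * exp (-t) ^ (N - m) *
      (N.choose m : ℝ)) (s := Finset.range (N + 1)) (fun m _ => by positivity)
      (Finset.mem_range.2 (Nat.lt_succ_of_le hK))
    refine le_trans (le_of_eq ?_) h2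
    rw [mul_comm]
    congr 1
    rw [← exp_nat_mul, ← exp_nat_mul, ← exp_add]
    congr 1
    rw [Nat.cast_sub hK]
    ring
  have h3 : exp t + exp (-t) ≤ 2 * exp (t ^ 2 / 2) := by
    have := cosh_le_exp_half_sq t
    rw [cosh_eq] at this
    linarith
  have h4 : (exp t + exp (-t)) ^ N ≤ 2 ^ N * exp (N * (t ^ 2 / 2)) := by
    calc (exp t + exp (-t)) ^ N ≤ (2 * exp (t ^ 2 / 2)) ^ N :=
          pow_le_pow_left₀ (by positivity) h3 N
      _ = 2 ^ N * exp (N * (t ^ 2 / 2)) := by rw [mul_pow, ← exp_nat_mul]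
  have h5 := h1.trans h4
  have h6 : (N.choose K : ℝ) ≤ 2 ^ N * exp (N * (t ^ 2 / 2)) * exp (-(t * (2 * K - N))) := by
    have := mul_le_mul_of_nonneg_right h5 (exp_pos (-(t * (2 * K - N)))).le
    rw [mul_assoc, ← exp_add] at this
    simpa using this
  refine h6.trans (le_of_eq ?_)
  rw [mul_assoc, ← exp_add]
  congr 2
  rw [ht]
  field_simp
  ring

/-- `choose N K ≥ 2^N exp(-5 (K-N/2)²/N)/(N+1)` (`exp_le_choose`, `phi_quad`). -/
theorem choose_ge_gauss {N K : ℕ} (h : K ≤ N) (hN : 0 < N) :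
    2 ^ N * exp (-(5 * ((K : ℝ) - N / 2) ^ 2 / N)) / (N + 1) ≤ (N.choose K : ℝ) := by
  have hN' : (0 : ℝ) < N := by exact_mod_cast hN
  have h1 := phi_quad (r := N) (x := K) hN' (Nat.cast_nonneg K) (by exact_mod_cast h)
  have h2 := exp_le_choose h
  rw [div_le_iff₀ (by positivity), mul_comm (N.choose K : ℝ)]
  refine le_trans ?_ h2
  have h3 : (2 : ℝ) ^ N = exp (N * log 2) := by
    rw [exp_nat_mul, exp_log (by norm_num)]
  rw [h3, ← exp_add]
  apply exp_le_exp.2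
  refine le_trans ?_ h1
  have h4 : 0 ≤ ((K : ℝ) - N / 2) ^ 2 / N := by positivity
  have h5 : 5 * ((K : ℝ) - N / 2) ^ 2 / N = 5 * (((K : ℝ) - N / 2) ^ 2 / N) := by ring
  have h6 : 4 * ((K : ℝ) - N / 2) ^ 2 / N = 4 * (((K : ℝ) - N / 2) ^ 2 / N) := by ring
  rw [h5, h6]
  linarith

/-- One step: `choose N (K+1) = choose N K (N-K)/(K+1)`, so the difference quotient is
`(N-2K-1)/(K+1) = (N+1)/(K+1) - 2`. -/
theorem choose_succ_sub {N K : ℕ} (h : K ≤ N) :
    (N.choose (K + 1) : ℝ) - N.choose K = N.choose K * (((N : ℝ) + 1) / (K + 1) - 2) := by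
  have e := Nat.choose_succ_right_eq N K
  have e' : (N.choose (K + 1) : ℝ) * ((K : ℝ) + 1) = (N.choose K : ℝ) * ((N : ℝ) - K) := by
    rw [← Nat.cast_sub h]
    exact_mod_cast e
  have hp : ((K : ℝ) + 1) ≠ 0 := by positivity
  field_simp
  linear_combination e'

/-- Second difference: `choose N (K+2) - 2 choose N (K+1) + choose N K =
choose N K (4y²+8y+2-N)/((K+1)(K+2))`, `y = K - N/2`. -/
theorem choose_second {N K : ℕ} (h : K + 1 ≤ N) :
    (N.choose (K + 2) : ℝ) - 2 * N.choose (K + 1) + N.choose K =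
      N.choose K * ((4 * ((K : ℝ) - N / 2) ^ 2 + 8 * ((K : ℝ) - N / 2) + 2 - N) /
        ((K + 1) * (K + 2))) := by
  have e := Nat.choose_succ_right_eq N K
  have e2 := Nat.choose_succ_right_eq N (K + 1)
  have e' : (N.choose (K + 1) : ℝ) * ((K : ℝ) + 1) = (N.choose K : ℝ) * ((N : ℝ) - K) := by
    rw [← Nat.cast_sub (by omega)]
    exact_mod_cast e
  have e2' : (N.choose (K + 2) : ℝ) * ((K : ℝ) + 2) =
      (N.choose (K + 1) : ℝ) * ((N : ℝ) - K - 1) := by
    have h2 : (((N - (K + 1) : ℕ) : ℕ) : ℝ) = (N : ℝ) - K - 1 := by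
      rw [Nat.cast_sub h]
      push_cast
      ring
    rw [← h2]
    have e3 : (K : ℝ) + 2 = ((K + 1 + 1 : ℕ) : ℝ) := by push_cast; ring
    rw [e3]
    exact_mod_cast e2
  have hp : ((K : ℝ) + 1) ≠ 0 := by positivity
  have hp2 : ((K : ℝ) + 2) ≠ 0 := by positivity
  have c1 : (N.choose (K + 1) : ℝ) = (N.choose K : ℝ) * ((N : ℝ) - K) / ((K : ℝ) + 1) := by
    field_simp
    linarith
  have c2 : (N.choose (K + 2) : ℝ) =
      (N.choose K : ℝ) * ((N : ℝ) - K) / ((K : ℝ) + 1) * ((N : ℝ) - K - 1) / ((K : ℝ) + 2) := by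
    rw [← c1]
    field_simp
    linarith
  rw [c2, c1]
  field_simp
  ring

end Pool.Agent.H.MP_82502e_co
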