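import Pool.Agent.H.MP_82502e_co.WSt2
import Pool.Agent.H.MP_82502e_co.WBin2

set_option autoImplicit false

/-!
# The window: fixed l: the inequality
-/

namespace Pool.Agent.H.MP_82502e_co

open Finset Real

/-- The numerical facts about `n, k, l`. -/
structure WSt_Ok (n k l : ℕ) : Prop where
  l0 : (100000 : ℝ) ≤ l
  ln : l ≤ n
  N1 : 996 / 1000 * (l : ℝ) ^ 2 ≤ ((l * (n - l) : ℕ) : ℝ)
  N2 : ((l * (n - l) : ℕ) : ℝ) ≤ 1005 / 1000 * (l : ℝ) ^ 2
  x1 : ∀ s, 2 * s ≤ l → s * (l - s) ≤ k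
  x2 : ∀ s, 2 * s ≤ l → 24 / 100 * ((l * (n - l) : ℕ) : ℝ) ≤ ((k - s * (l - s) : ℕ) : ℝ)
  x3 : ∀ s, 2 * s ≤ l → k - s * (l - s) < l * (n - l)

theorem WSt_ok {n k l : ℕ} (hn : 300000 ≤ n) (hw : Win (1 / 1000) n k)
    (hl : |(l : ℝ) - (n : ℝ) / 2| ≤ (n : ℝ) / 1000) : WSt_Ok n k l := by
  have hn' : (300000 : ℝ) ≤ n := by exact_mod_cast hn
  obtain ⟨h1, h2⟩ := abs_le.mp hl
  obtain ⟨hw1, hw2⟩ := hw
  have hll : (l : ℝ) ≤ n := by linarith
  have hln : l ≤ n := by exact_mod_cast hll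
  have hN : ((l * (n - l) : ℕ) : ℝ) = (l : ℝ) * (n - l) := by
    rw [Nat.cast_mul, Nat.cast_sub hln]
  have hl0 : (0 : ℝ) ≤ l := Nat.cast_nonneg _
  have hNlo : 249 / 1000 * (n : ℝ) ^ 2 ≤ (l : ℝ) * (n - l) := by nlinarith
  have hNhi : (l : ℝ) * (n - l) ≤ 250 / 1000 * (n : ℝ) ^ 2 := by
    nlinarith [sq_nonneg ((l : ℝ) - n / 2)]
  have hs : ∀ s : ℕ, 2 * s ≤ l → ((s * (l - s) : ℕ) : ℝ) ≤ 63 / 1000 * (n : ℝ) ^ 2 := by
    intro s hs
    rw [Nat.cast_mul, Nat.cast_sub (by omega)]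
    nlinarith [sq_nonneg ((l : ℝ) - 2 * s)]
  have hsk : ∀ s : ℕ, 2 * s ≤ l → s * (l - s) ≤ k := by
    intro s h
    have h3 := hs s h
    have h4 : ((s * (l - s) : ℕ) : ℝ) ≤ k := by nlinarith
    exact_mod_cast h4
  refine ⟨by linarith, hln, ?_, ?_, hsk, ?_, ?_⟩
  · rw [hN]
    nlinarith
  · rw [hN]
    nlinarith
  · intro s h
    rw [Nat.cast_sub (hsk s h), hN, Nat.cast_mul, Nat.cast_sub (by omega)]
    nlinarith [sq_nonneg ((l : ℝ) - 2 * s)]
  · intro s h
    have h4 : (k : ℝ) < ((l * (n - l) : ℕ) : ℝ) := by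
      rw [hN]
      nlinarith
    have h5 : k < l * (n - l) := by exact_mod_cast h4
    omega

theorem WSt_q3 {n l s k : ℕ} (h : s * (l - s) ≤ k) :
    q3 n l s k = n.choose l * l.choose s * (l * (n - l)).choose (k - s * (l - s)) := by
  rw [q3, chz, if_pos h]

theorem WSt_diff {n l s k : ℕ} (h : s * (l - s) ≤ k) (h2 : k - s * (l - s) ≤ l * (n - l)) :
    (q3 n l s (k + 1) : ℝ) - q3 n l s k =
      q3 n l s k * ((((l * (n - l) : ℕ) : ℝ) + 1) / (((k - s * (l - s) : ℕ) : ℝ) + 1) - 2) := by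
  rw [WSt_q3 h, WSt_q3 (by omega : s * (l - s) ≤ k + 1),
    show k + 1 - s * (l - s) = k - s * (l - s) + 1 by omega]
  obtain ⟨N, hN⟩ : ∃ N, N = l * (n - l) := ⟨_, rfl⟩
  obtain ⟨x, hx⟩ : ∃ x, x = k - s * (l - s) := ⟨_, rfl⟩
  rw [← hN, ← hx] at h2
  rw [← hN, ← hx]
  have h3 := choose_succ_sub h2
  rw [Nat.cast_mul (_ * _), Nat.cast_mul (_ * _), Nat.cast_mul]
  linear_combination ((n.choose l : ℝ) * l.choose s) * h3

theorem WSt_pos {n k l : ℕ} (O : WSt_Ok n k l) {s : ℕ} (hs : 2 * s ≤ l) :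
    (0 : ℝ) < (mus l s : ℝ) * q3 n l s k := by
  have h1 : 0 < mus l s := by
    unfold mus
    split_ifs <;> norm_num
  have h2 : 0 < q3 n l s k := by
    rw [WSt_q3 (O.x1 s hs)]
    exact Nat.mul_pos (Nat.mul_pos (Nat.choose_pos O.ln) (Nat.choose_pos (by omega)))
      (Nat.choose_pos (O.x3 s hs).le)
  exact mul_pos (by exact_mod_cast h1) (by exact_mod_cast h2)

/-- The inequality for one step. -/
theorem WSt_step {n k l : ℕ} (O : WSt_Ok n k l)
    (hst : ∀ x h : ℕ, 24 / 100 * ((l * (n - l) : ℕ) : ℝ) ≤ x → x < l * (n - l) →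
      (h : ℝ) ^ 2 ≤ 2 * ((l * (n - l) : ℕ) : ℝ) →
      -(51 / 50 * (2 * (h : ℝ) ^ 2 / ((l * (n - l) : ℕ) : ℝ)) + 20 * h / ((l * (n - l) : ℕ) : ℝ)) ≤
        (h : ℝ) * ((((l * (n - l) : ℕ) : ℝ) + 1) / (x + 1) - 2) +
          log (((l * (n - l)).choose (x - h) : ℝ) / (l * (n - l)).choose x))
    {s : ℕ} (hs : 2 * (s + 1) ≤ l) :
    (mus l s : ℝ) * q3 n l s k * (69 / 100 * (((l : ℝ) - 2 * s - 1) / (l + 1)) -
      ((l : ℝ) - 2 * s - 1) *
        ((((l * (n - l) : ℕ) : ℝ) + 1) / (((k - s * (l - s) : ℕ) : ℝ) + 1) - 2) -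
      (if 2 * (s + 1) = l then log 2 else 0)) ≤
    (mus l (s + 1) : ℝ) * q3 n l (s + 1) k - (mus l s : ℝ) * q3 n l s k := by
  have hp := WSt_pos O (show 2 * s ≤ l by omega)
  have hx1 := O.x1 s (by omega)
  have hx1' := O.x1 (s + 1) (by omega)
  have hx2 := O.x2 s (by omega)
  have hx3 := O.x3 s (by omega)
  have hx3' := O.x3 (s + 1) (by omega)
  have hl0 := O.l0
  have hN1 := O.N1
  obtain ⟨h, hh⟩ : ∃ h, l = 2 * s + 1 + h := ⟨l - (2 * s + 1), by omega⟩
  have hh' : (l : ℝ) - 2 * s - 1 = h := by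
    rw [hh]
    push_cast
    ring
  have hxx : k - (s + 1) * (l - (s + 1)) = k - s * (l - s) - h := by
    have e : (s + 1) * (l - (s + 1)) = s * (l - s) + h := by
      rw [show l - (s + 1) = s + h by omega, show l - s = s + 1 + h by omega]
      ring
    rw [e]
    omega
  rw [hh']
  obtain ⟨N, hN⟩ : ∃ N, N = l * (n - l) := ⟨_, rfl⟩
  obtain ⟨x, hx⟩ : ∃ x, x = k - s * (l - s) := ⟨_, rfl⟩
  have hq := WSt_q3 (n := n) hx1
  have hq' := WSt_q3 (n := n) hx1'
  rw [hxx] at hq' hx3'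
  rw [← hN] at hst hN1 hx2 hx3 hx3' hq hq'
  rw [← hN]
  rw [← hx] at hx2 hx3 hx3' hq hq'
  rw [← hx]
  have hhl : (h : ℝ) ≤ l := by
    rw [hh]
    push_cast
    linarith [Nat.cast_nonneg (α := ℝ) s]
  have hh0 : (0 : ℝ) ≤ h := Nat.cast_nonneg _
  have hN0 : (0 : ℝ) < N := by nlinarith
  have key := hst x h hx2 hx3 (by nlinarith)
  -- the ratio
  obtain ⟨m, hm⟩ : ∃ m : ℝ, m = (mus l (s + 1) : ℝ) / mus l s := ⟨_, rfl⟩
  obtain ⟨a, ha⟩ : ∃ a : ℝ, a = ((l : ℝ) - s) / (s + 1) := ⟨_, rfl⟩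
  obtain ⟨b, hb⟩ : ∃ b : ℝ, b = ((N.choose (x - h) : ℝ) / N.choose x) := ⟨_, rfl⟩
  have hmus : (0 : ℝ) < mus l s := by
    have h1 : 0 < mus l s := by
      unfold mus
      split_ifs <;> norm_num
    exact_mod_cast h1
  have hc1 : (0 : ℝ) < N.choose x := by exact_mod_cast Nat.choose_pos hx3.le
  have hc2 : (0 : ℝ) < N.choose (x - h) := by exact_mod_cast Nat.choose_pos hx3'.le
  have hc3 : (0 : ℝ) < (l : ℝ) - s := by
    rw [hh]
    push_cast
    linarith [Nat.cast_nonneg (α := ℝ) s]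
  have hs1 : (0 : ℝ) < (s : ℝ) + 1 := by positivity
  have hch : (l.choose (s + 1) : ℝ) * (s + 1) = l.choose s * ((l : ℝ) - s) := by
    have h1 := Nat.choose_succ_right_eq l s
    have h2 : ((l.choose (s + 1) * (s + 1) : ℕ) : ℝ) = ((l.choose s * (l - s) : ℕ) : ℝ) := by
      exact_mod_cast h1
    rw [Nat.cast_mul, Nat.cast_mul, Nat.cast_sub (by omega)] at h2
    push_cast at h2
    exact h2
  have hR : (mus l (s + 1) : ℝ) * q3 n l (s + 1) k = (mus l s : ℝ) * q3 n l s k * (m * a * b) := by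
    rw [hq, hq', hm, ha, hb]
    have e1 : (l.choose (s + 1) : ℝ) = l.choose s * ((l : ℝ) - s) / (s + 1) := by
      rw [eq_div_iff hs1.ne']
      exact hch
    push_cast
    rw [e1]
    field_simp
  have hm0 : 0 < m := by
    rw [hm]
    refine div_pos ?_ hmus
    have h1 : 0 < mus l (s + 1) := by
      unfold mus
      split_ifs <;> norm_num
    exact_mod_cast h1
  have ha0 : 0 < a := by rw [ha]; exact div_pos hc3 hs1
  have hb0 : 0 < b := by rw [hb]; exact div_pos hc2 hc1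
  have hlog : log m + log a + log b ≤ m * a * b - 1 := by
    rw [← log_mul hm0.ne' ha0.ne', ← log_mul (mul_pos hm0 ha0).ne' hb0.ne']
    exact log_le_sub_one_of_pos (mul_pos (mul_pos hm0 ha0) hb0)
  have hlm : -(if 2 * (s + 1) = l then log 2 else 0) ≤ log m := by
    by_cases h1 : 2 * (s + 1) = l
    · rw [if_pos h1]
      have h2 : mus l (s + 1) = 1 := by
        unfold mus
        rw [if_neg (by omega), if_pos h1]
      have h3 : mus l s ≤ 2 := by
        unfold mus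
        split_ifs <;> norm_num
      have h4 : (mus l s : ℝ) ≤ 2 := by exact_mod_cast h3
      rw [hm, h2, ← log_inv]
      apply log_le_log (by norm_num)
      rw [Nat.cast_one, inv_eq_one_div]
      exact one_div_le_one_div_of_le hmus h4
    · rw [if_neg h1, neg_zero]
      apply log_nonneg
      have h2 : mus l (s + 1) = 2 := by
        unfold mus
        rw [if_neg (by omega), if_neg h1]
      have h3 : mus l s ≤ 2 := by
        unfold mus
        split_ifs <;> norm_num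
      have h4 : (mus l s : ℝ) ≤ 2 := by exact_mod_cast h3
      rw [hm, h2, le_div_iff₀ hmus]
      push_cast
      linarith
  have hl1 : (0 : ℝ) < (l : ℝ) + 1 := by linarith
  have hla : 7 / 10 * ((h : ℝ) / (l + 1)) + 208 / 100 * ((h : ℝ) / (l + 1)) ^ 2 ≤ log a := by
    have h1 := artanh_ge (u := (h : ℝ) / (l + 1)) (by positivity) (by
      rw [div_lt_one hl1]
      linarith)
    have e : a = (1 + (h : ℝ) / (l + 1)) / (1 - (h : ℝ) / (l + 1)) := by
      have hne : (1 : ℝ) - (h : ℝ) / (l + 1) ≠ 0 := by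
        rw [ne_eq, sub_eq_zero, eq_comm, div_eq_one_iff_eq hl1.ne']
        intro h2
        linarith
      rw [ha, div_eq_div_iff hs1.ne' hne]
      have e2 : (h : ℝ) = l - 2 * s - 1 := hh'.symm
      rw [e2]
      field_simp
      ring
    rw [e]
    exact h1
  -- numerical comparison
  have hc4 : 51 / 50 * (2 * (h : ℝ) ^ 2 / N) ≤ 208 / 100 * ((h : ℝ) / (l + 1)) ^ 2 := by
    rw [div_pow, ← mul_div_assoc, ← mul_div_assoc, div_le_div_iff₀ hN0 (by positivity)]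
    have h1 : 51 / 50 * 2 * ((l : ℝ) + 1) ^ 2 ≤ 208 / 100 * N := by nlinarith
    have h2 := mul_le_mul_of_nonneg_left h1 (sq_nonneg (h : ℝ))
    nlinarith
  have hc5 : 20 * (h : ℝ) / N ≤ 1 / 100 * ((h : ℝ) / (l + 1)) := by
    rw [← mul_div_assoc, div_le_div_iff₀ hN0 hl1]
    have h1 : 20 * ((l : ℝ) + 1) ≤ 1 / 100 * N := by nlinarith
    have h2 := mul_le_mul_of_nonneg_left h1 hh0
    nlinarith
  rw [← hb] at key
  rw [hR]
  have hfin : 69 / 100 * ((h : ℝ) / (l + 1)) - (h : ℝ) * (((N : ℝ) + 1) / ((x : ℝ) + 1) - 2) -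
      (if 2 * (s + 1) = l then log 2 else 0) ≤ m * a * b - 1 := by
    linarith
  have h5 := mul_le_mul_of_nonneg_left hfin hp.le
  linarith

/-- The bracket if `y` is very negative. -/
theorem WSt_lo {N x l y : ℝ} (hl : 100000 ≤ l) (hN2 : N ≤ 1005 / 1000 * l ^ 2) (hx : 0 ≤ x)
    (hy : x - N / 2 = y) (h : y ≤ -(8 * l)) : 20 / l ≤ (N + 1) / (x + 1) - 2 := by
  have hl0 : 0 < l := by linarith
  have e : (N + 1) / (x + 1) - 2 = (-(2 * y) - 1) / (x + 1) := by
    rw [← hy]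
    field_simp
    ring
  rw [e, div_le_div_iff₀ hl0 (by linarith)]
  nlinarith

/-- The bracket in general. -/
theorem WSt_hi {N x l y : ℝ} (hl : 100000 ≤ l) (hN1 : 996 / 1000 * l ^ 2 ≤ N)
    (hx : 24 / 100 * N ≤ x) (hy : x - N / 2 = y) :
    -(9 / l * (1 + max y 0 / l)) ≤ (N + 1) / (x + 1) - 2 := by
  have hl0 : 0 < l := by linarith
  have hx0 : 0 < x + 1 := by nlinarith
  have e : (N + 1) / (x + 1) - 2 = -((2 * y + 1) / (x + 1)) := by
    rw [← hy]
    field_simp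
    ring
  have e2 : 9 / l * (1 + max y 0 / l) = 9 * (l + max y 0) / l ^ 2 := by
    field_simp
  rw [e, e2]
  apply neg_le_neg
  have hY : y ≤ max y 0 := le_max_left _ _
  have hY0 : 0 ≤ max y 0 := le_max_right _ _
  obtain ⟨Y, hYd⟩ : ∃ Y, Y = max y 0 := ⟨_, rfl⟩
  rw [← hYd] at hY hY0 ⊢
  rw [div_le_div_iff₀ hx0 (by positivity)]
  have h1 : 239 / 1000 * l ^ 2 ≤ x + 1 := by nlinarith
  have h2 : 9 * (l + Y) * (239 / 1000 * l ^ 2) ≤ 9 * (l + Y) * (x + 1) :=
    mul_le_mul_of_nonneg_left h1 (by positivity)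
  have h3 : (2 * y + 1) * l ^ 2 ≤ (2 * Y + l) * l ^ 2 :=
    mul_le_mul_of_nonneg_right (by linarith) (by positivity)
  nlinarith [mul_nonneg hY0 (sq_nonneg l), mul_nonneg hl0.le (sq_nonneg l)]

/-- The pointwise bracket, `0 ≤ r ≤ 1`. -/
theorem WSt_br {l d r Y : ℝ} (hl : 100000 ≤ l) (hr0 : 0 ≤ r) (hr1 : r ≤ 1) (hY : 0 ≤ Y)
    (P : Prop) [Decidable P] (h1 : ¬ P → 20 / l ≤ d) (h2 : -(9 / l * (1 + Y / l)) ≤ d) :
    3 / 10 / l - 10 / l * (if P then 1 + Y / l else 0) ≤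
      69 / 100 * (r / (l + 1)) + (1 - r) * d - 27 / 100 / l := by
  have hl0 : 0 < l := by linarith
  have h3 : 68 / 100 * (r / l) ≤ 69 / 100 * (r / (l + 1)) := by
    rw [← mul_div_assoc, ← mul_div_assoc, div_le_div_iff₀ hl0 (by linarith)]
    nlinarith
  have hrl : 0 ≤ r / l := by positivity
  have hr1l : 0 ≤ (1 - r) / l := div_nonneg (by linarith) hl0.le
  have hYl : 0 ≤ Y / l := by positivity
  have e1 : (1 : ℝ) / l = r / l + (1 - r) / l := by
    field_simp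
    ring
  by_cases hP : P
  · rw [if_pos hP]
    have h4 : (1 - r) * -(9 / l * (1 + Y / l)) ≤ (1 - r) * d :=
      mul_le_mul_of_nonneg_left h2 (by linarith)
    have h5 : 0 ≤ 9 / l * (1 + Y / l) := by positivity
    have h6 : -(9 / l * (1 + Y / l)) ≤ (1 - r) * -(9 / l * (1 + Y / l)) := by nlinarith
    have h7 : 0 ≤ 1 / l := by positivity
    have h8 : 0 ≤ 1 / l * (Y / l) := by positivity
    have e2 : 9 / l * (1 + Y / l) = 9 * (1 / l) + 9 * (1 / l * (Y / l)) := by ring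
    have e3 : 10 / l * (1 + Y / l) = 10 * (1 / l) + 10 * (1 / l * (Y / l)) := by ring
    have e4 : (3 / 10 / l : ℝ) = 3 / 10 * (1 / l) := by ring
    have e5 : (27 / 100 / l : ℝ) = 27 / 100 * (1 / l) := by ring
    rw [e3, e4, e5]
    rw [e2] at h6 h4
    linarith
  · rw [if_neg hP, mul_zero, sub_zero]
    have h4 : (1 - r) * (20 / l) ≤ (1 - r) * d := mul_le_mul_of_nonneg_left (h1 hP) (by linarith)
    have e2 : (1 - r) * (20 / l) = 20 * ((1 - r) / l) := by ring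
    have e4 : (3 / 10 / l : ℝ) = 3 / 10 * (1 / l) := by ring
    have e5 : (27 / 100 / l : ℝ) = 27 / 100 * (1 / l) := by ring
    rw [e4, e5, e1]
    rw [e2] at h4
    linarith

/-- **The inequality for fixed `l`** (`STEIN`). Let `N = l(n-l)`, `S = l/2`, `p s = mus l s * q3 n l s k`, `x s = k - s(l-s)`, `d s = (N+1)/(x s + 1) - 2`, `h s = l - 2s - 1`, `H = 10 l`,
`ψ s = min (1/h) (h/H)`. `F3l n l (k+1) - F3l n l k = Σ_{s ≤ S} p s d s` (`choose_succ_sub`, `half_sum`). For `s < S`: `p (s+1) - p s ≥ p s log(p (s+1)/p s)` and `log(p (s+1)/p s) = log(mus/mus) + log((l-s)/(s+1)) +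
log(choose N (x-h)/choose N x)`, the first is `≥ 0` except `= -log 2` for the last `s` if `l` is even; the second is `log((1+u)/(1-u))`, `u = h/(l+1)`; the third is `≥ -h d - (51/50)2h²/N - 20h/N` (`step_ineq`). With `abel_psi`, `artanh_ge` and
`2·(51/50)h²/N ≤ 2.06 u²`, `20h/N ≤ 0.01u`:
`Σ_{s<S} ψ h p d ≥ Σ_{s<S} ψ p (0.69 u) - (2/H + 1.4/H) Σ_{h² < H or s = S} p`.
Here `ψ h = 1` and `ψ u = 1/(l+1)` if `h² ≥ H`; `ψ h = r := h²/H`, `ψ u = r/(l+1)` if `h² < H`. So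
`Σ p d ≥ (0.69/(l+1)) Σ_{h²≥H} p + Σ_{h²<H or s=S} p [(1-r) d + 0.69 r/(l+1) - 0.34/l]` (`r = 0` for `s = S`). If `y3 ≤ -8l` then `d ≥ 20/l` and the bracket is `≥ 0.3/l`. If `y3 > -8l` the bracket is at least
`0.3/l - (C/l)(1 + max(y3,0)/l)`. (`h² < H` implies `(l-2s)² ≤ 11 l` for large `l`.) -/
theorem stein : ∃ C : ℝ, 0 < C ∧ ∃ n0 : ℕ, ∀ n ≥ n0, ∀ k : ℕ, Win (1 / 1000) n k → ∀ l : ℕ,
    |(l : ℝ) - (n : ℝ) / 2| ≤ (n : ℝ) / 1000 →
    3 / 10 / (l : ℝ) * F3l n l k - C / l * ∑ s ∈ (range l).filter (fun s : ℕ =>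
        ((l : ℝ) - 2 * s) ^ 2 ≤ 11 * l ∧ -(8 * (l : ℝ)) < y3 n l s k),
      (q3 n l s k : ℝ) * (1 + max (y3 n l s k) 0 / l) ≤ (F3l n l (k + 1) : ℝ) - F3l n l k := by
  classical
  obtain ⟨N0, hN0⟩ := step_ineq
  refine ⟨20, by norm_num, max 300000 N0, fun n hn k hw l hl => ?_⟩
  have O := WSt_ok (le_trans (le_max_left _ _) hn) hw hl
  have hl0 := O.l0
  have hlp : (0 : ℝ) < l := by linarith
  have hlN : 100000 ≤ l := by exact_mod_cast hl0
  have hNN : N0 ≤ l * (n - l) := by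
    have h1 := O.N1
    have h2 := (abs_le.mp hl).1
    have h3 : (n : ℝ) ≤ ((l * (n - l) : ℕ) : ℝ) := by nlinarith
    have h4 : n ≤ l * (n - l) := by exact_mod_cast h3
    exact ((le_max_right _ _).trans hn).trans h4
  -- abbreviations
  obtain ⟨p, hp⟩ : ∃ p : ℕ → ℝ, p = fun s => (mus l s : ℝ) * q3 n l s k := ⟨_, rfl⟩
  obtain ⟨d, hd⟩ : ∃ d : ℕ → ℝ, d = fun s => (((l * (n - l) : ℕ) : ℝ) + 1) /
    (((k - s * (l - s) : ℕ) : ℝ) + 1) - 2 := ⟨_, rfl⟩
  obtain ⟨ψ, hψ⟩ : ∃ ψ : ℕ → ℝ, ψ = fun s : ℕ => min (1 / ((l : ℝ) - 2 * s - 1))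
    (((l : ℝ) - 2 * s - 1) / (10 * l)) := ⟨_, rfl⟩
  have hp0 : ∀ s, 0 ≤ p s := fun s => by
    rw [hp]
    positivity
  have hsum : ∀ k', ∑ s ∈ range l, (q3 n l s k' : ℝ) =
      ∑ s ∈ range (l / 2 + 1), (mus l s : ℝ) * q3 n l s k' := fun k' =>
    half_sum (by omega) (fun s => (q3 n l s k' : ℝ)) (fun s hs => by rw [q3_symm hs])
  have hF : ∀ k', (F3l n l k' : ℝ) = ∑ s ∈ range (l / 2 + 1), (mus l s : ℝ) * q3 n l s k' := by
    intro k'
    rw [F3l, Nat.cast_sum, hsum k']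
  have hD : (F3l n l (k + 1) : ℝ) - F3l n l k = ∑ s ∈ range (l / 2 + 1), p s * d s := by
    rw [hF, hF, ← Finset.sum_sub_distrib]
    refine Finset.sum_congr rfl fun s hs => ?_
    have h2s : 2 * s ≤ l := by
      have := Finset.mem_range.mp hs
      omega
    have h1 := WSt_diff (O.x1 s h2s) (O.x3 s h2s).le
    rw [hp, hd]
    change (mus l s : ℝ) * q3 n l s (k + 1) - (mus l s : ℝ) * q3 n l s k =
      (mus l s : ℝ) * q3 n l s k * _
    rw [← mul_sub, h1]
    ring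
  -- one step
  have hstep : ∀ s ∈ range (l / 2), ψ s * (p s * (69 / 100 * (((l : ℝ) - 2 * s - 1) / (l + 1)) -
      ((l : ℝ) - 2 * s - 1) * d s - (if 2 * (s + 1) = l then log 2 else 0))) ≤
      ψ s * (p (s + 1) - p s) := by
    intro s hs
    have h2s : 2 * (s + 1) ≤ l := by
      have := Finset.mem_range.mp hs
      omega
    have hh : (0 : ℝ) ≤ (l : ℝ) - 2 * s - 1 := by
      have : (2 * (s + 1) : ℝ) ≤ l := by exact_mod_cast h2s
      linarith
    have hψ0 : 0 ≤ ψ s := by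
      rw [hψ]
      exact le_min (by positivity) (by positivity)
    refine mul_le_mul_of_nonneg_left ?_ hψ0
    have h1 := WSt_step O (fun x h => hN0 _ hNN x h) h2s
    rw [hp, hd]
    exact h1
  have habel := abel_psi (l := l) (S := l / 2) (by omega) (by omega) (by omega) (H := 10 * l)
    (by linarith) p hp0
  have hsumstep := Finset.sum_le_sum hstep
  have hψe : ∀ s : ℕ, min (1 / ((l : ℝ) - 2 * s - 1)) (((l : ℝ) - 2 * s - 1) / (10 * l)) =
      ψ s := by
    intro s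
    rw [hψ]
  simp only [hψe] at habel
  -- pointwise bounds
  obtain ⟨P, hP⟩ : ∃ P : ℕ → Prop, P = fun s : ℕ => ((l : ℝ) - 2 * s) ^ 2 ≤ 11 * l ∧
    -(8 * (l : ℝ)) < y3 n l s k := ⟨_, rfl⟩
  have hy : ∀ s, 2 * s ≤ l → ((k - s * (l - s) : ℕ) : ℝ) - ((l * (n - l) : ℕ) : ℝ) / 2 =
      y3 n l s k := by
    intro s hs
    rw [Nat.cast_sub (O.x1 s hs), Nat.cast_mul, Nat.cast_mul, Nat.cast_sub (by omega),
      Nat.cast_sub O.ln, y3]
  have hsq : ∀ s : ℕ, 2 * s ≤ l → (((l : ℝ) - 2 * s - 1) ^ 2 < 10 * l ∨ s = l / 2) →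
      ((l : ℝ) - 2 * s) ^ 2 ≤ 11 * l := by
    intro s hs h
    rcases h with h | h
    · have h1 : ((l : ℝ) - 2 * s - 1) ≤ l / 100 := by
        by_contra hc
        push Not at hc
        nlinarith
      nlinarith
    · have h1 : l ≤ 2 * s + 1 := by omega
      have h2 : (l : ℝ) ≤ 2 * s + 1 := by exact_mod_cast h1
      have h3 : (2 * s : ℝ) ≤ l := by exact_mod_cast hs
      nlinarith
  have hbr : ∀ s : ℕ, 2 * s ≤ l → (((l : ℝ) - 2 * s - 1) ^ 2 < 10 * l ∨ s = l / 2) → ∀ r : ℝ,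
      0 ≤ r → r ≤ 1 → 3 / 10 / (l : ℝ) - 10 / l * (if P s then 1 + max (y3 n l s k) 0 / l else 0) ≤
      69 / 100 * (r / (l + 1)) + (1 - r) * d s - 27 / 100 / l := by
    intro s hs hs' r hr0 hr1
    refine WSt_br hl0 hr0 hr1 (le_max_right _ _) (P s) (fun hPs => ?_) ?_
    · rw [hP] at hPs
      have h1 : y3 n l s k ≤ -(8 * (l : ℝ)) := by
        by_contra hc
        push Not at hc
        exact hPs ⟨hsq s hs hs', hc⟩
      rw [hd]
      exact WSt_lo hl0 O.N2 (Nat.cast_nonneg _) (hy s hs) h1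
    · rw [hd]
      exact WSt_hi hl0 O.N1 (O.x2 s hs) (hy s hs)
  have hif : ∀ s, 0 ≤ (if P s then 1 + max (y3 n l s k) 0 / (l : ℝ) else 0) := by
    intro s
    split_ifs
    · have := le_max_right (y3 n l s k) 0
      positivity
    · exact le_rfl
  have hlog2 : log 2 ≤ 7 / 10 := by linarith [Real.log_two_lt_d9]
  have hpt : ∀ s ∈ range (l / 2),
      p s * (3 / 10 / (l : ℝ) - 10 / l * (if P s then 1 + max (y3 n l s k) 0 / l else 0)) ≤
      p s * d s + ψ s * (p s * (69 / 100 * (((l : ℝ) - 2 * s - 1) / (l + 1)) -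
      ((l : ℝ) - 2 * s - 1) * d s - (if 2 * (s + 1) = l then log 2 else 0))) -
      (if ((l : ℝ) - 2 * s - 1) ^ 2 < 10 * l ∨ s = l / 2 then 2 / (10 * (l : ℝ)) * p s else 0) := by
    intro s hs
    have hsr := Finset.mem_range.mp hs
    have h2s : 2 * (s + 1) ≤ l := by omega
    have hh : (1 : ℝ) ≤ (l : ℝ) - 2 * s - 1 := by
      have : (2 * (s + 1) : ℝ) ≤ l := by exact_mod_cast h2s
      linarith
    obtain ⟨h, hhd⟩ : ∃ h : ℝ, h = (l : ℝ) - 2 * s - 1 := ⟨_, rfl⟩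
    have hψs : ψ s = min (1 / h) (h / (10 * l)) := by rw [hψ, hhd]
    rw [← hhd] at hh ⊢
    have hh0 : 0 < h := by linarith
    by_cases hc : h ^ 2 < 10 * l
    · have hψv : ψ s = h / (10 * l) := by
        rw [hψs]
        apply min_eq_right
        rw [div_le_div_iff₀ (by positivity) hh0]
        nlinarith
      have hb := hbr s (by omega) (Or.inl (by rw [← hhd]; exact hc)) (h ^ 2 / (10 * l))
        (by positivity) (by rw [div_le_one (by positivity)]; exact hc.le)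
      rw [if_pos (Or.inl hc), hψv]
      have he : h / (10 * l) * (if 2 * (s + 1) = l then log 2 else 0) ≤ 7 / 100 / l := by
        by_cases h1 : 2 * (s + 1) = l
        · rw [if_pos h1]
          have h2 : h = 1 := by
            rw [hhd]
            have : (2 * (s + 1) : ℝ) = l := by exact_mod_cast h1
            linarith
          rw [h2, div_mul_eq_mul_div, div_le_div_iff₀ (by positivity) hlp]
          nlinarith
        · rw [if_neg h1, mul_zero]
          positivity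
      have h3 := mul_le_mul_of_nonneg_left hb (hp0 s)
      have h4 := mul_le_mul_of_nonneg_left he (hp0 s)
      have e1 : p s * (69 / 100 * (h ^ 2 / (10 * l) / (l + 1)) + (1 - h ^ 2 / (10 * l)) * d s -
          27 / 100 / l) = p s * d s + h / (10 * l) * (p s * (69 / 100 * (h / (l + 1)) - h * d s)) -
          2 / (10 * (l : ℝ)) * p s - p s * (7 / 100 / l) := by
        field_simp
        ring
      rw [e1] at h3
      have e2 : h / (10 * l) * (p s * (69 / 100 * (h / (l + 1)) - h * d s -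
          (if 2 * (s + 1) = l then log 2 else 0))) =
          h / (10 * l) * (p s * (69 / 100 * (h / (l + 1)) - h * d s)) -
          p s * (h / (10 * l) * (if 2 * (s + 1) = l then log 2 else 0)) := by ring
      rw [e2]
      linarith
    · push Not at hc
      have hψv : ψ s = 1 / h := by
        rw [hψs]
        apply min_eq_left
        rw [div_le_div_iff₀ hh0 (by positivity)]
        nlinarith
      have h1 : ¬ 2 * (s + 1) = l := by
        intro h1
        have h2 : h = 1 := by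
          rw [hhd]
          have : (2 * (s + 1) : ℝ) = l := by exact_mod_cast h1
          linarith
        rw [h2] at hc
        linarith
      have h2 : ¬ (h ^ 2 < 10 * l ∨ s = l / 2) := by
        rintro (h3 | h3)
        · linarith
        · omega
      rw [if_neg h1, if_neg h2, hψv, sub_zero, sub_zero]
      have e1 : p s * d s + 1 / h * (p s * (69 / 100 * (h / (l + 1)) - h * d s)) =
          p s * (69 / 100 / (l + 1)) := by
        field_simp
        ring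
      rw [e1]
      refine mul_le_mul_of_nonneg_left ?_ (hp0 s)
      have h3 : 3 / 10 / (l : ℝ) ≤ 69 / 100 / (l + 1) := by
        rw [div_le_div_iff₀ hlp (by linarith)]
        nlinarith
      have h4 : 0 ≤ 10 / (l : ℝ) * (if P s then 1 + max (y3 n l s k) 0 / (l : ℝ) else 0) :=
        mul_nonneg (by positivity) (hif s)
      linarith
  have hlast : p (l / 2) * (3 / 10 / (l : ℝ) - 10 / l *
      (if P (l / 2) then 1 + max (y3 n l (l / 2) k) 0 / l else 0)) ≤
      p (l / 2) * d (l / 2) - 2 / (10 * (l : ℝ)) * p (l / 2) := by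
    have hb := hbr (l / 2) (by omega) (Or.inr rfl) 0 le_rfl zero_le_one
    have h3 := mul_le_mul_of_nonneg_left hb (hp0 (l / 2))
    refine h3.trans ?_
    have e1 : p (l / 2) * (69 / 100 * (0 / ((l : ℝ) + 1)) + (1 - 0) * d (l / 2) - 27 / 100 / l) =
        p (l / 2) * d (l / 2) - 2 / (10 * (l : ℝ)) * p (l / 2) - p (l / 2) * (7 / 100 / l) := by
      field_simp
      ring
    rw [e1]
    have h4 : 0 ≤ p (l / 2) * (7 / 100 / (l : ℝ)) := mul_nonneg (hp0 _) (by positivity)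
    linarith
  -- summation
  have hA : 2 / (10 * (l : ℝ)) * ∑ s ∈ (range (l / 2 + 1)).filter
      (fun s : ℕ => ((l : ℝ) - 2 * s - 1) ^ 2 < 10 * l ∨ s = l / 2), p s =
      ∑ s ∈ range (l / 2), (if ((l : ℝ) - 2 * s - 1) ^ 2 < 10 * l ∨ s = l / 2 then
        2 / (10 * (l : ℝ)) * p s else 0) + 2 / (10 * (l : ℝ)) * p (l / 2) := by
    rw [Finset.mul_sum, Finset.sum_filter, Finset.sum_range_succ, if_pos (Or.inr rfl)]
  have htot : ∑ s ∈ range (l / 2 + 1),
      p s * (3 / 10 / (l : ℝ) - 10 / l * (if P s then 1 + max (y3 n l s k) 0 / l else 0)) ≤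
      ∑ s ∈ range (l / 2 + 1), p s * d s := by
    have h1 := Finset.sum_le_sum hpt
    rw [Finset.sum_sub_distrib, Finset.sum_add_distrib] at h1
    rw [Finset.sum_range_succ, Finset.sum_range_succ (fun s => p s * d s)]
    rw [hA] at habel
    linarith
  rw [hD]
  refine le_trans ?_ htot
  have e1 : ∑ s ∈ range (l / 2 + 1),
      p s * (3 / 10 / (l : ℝ) - 10 / l * (if P s then 1 + max (y3 n l s k) 0 / l else 0)) =
      3 / 10 / (l : ℝ) * F3l n l k - 10 / l *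
        ∑ s ∈ (range (l / 2 + 1)).filter P, p s * (1 + max (y3 n l s k) 0 / l) := by
    rw [hF k, Finset.sum_filter, Finset.mul_sum, Finset.mul_sum, ← Finset.sum_sub_distrib]
    refine Finset.sum_congr rfl fun s _ => ?_
    rw [hp]
    change (mus l s : ℝ) * q3 n l s k * _ = _ * ((mus l s : ℝ) * q3 n l s k) -
      _ * (if P s then (mus l s : ℝ) * q3 n l s k * _ else 0)
    split_ifs
    · ring
    · ring
  rw [e1]
  have h2 : ∑ s ∈ (range (l / 2 + 1)).filter P, p s * (1 + max (y3 n l s k) 0 / l) ≤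
      2 * ∑ s ∈ (range l).filter (fun s : ℕ =>
        ((l : ℝ) - 2 * s) ^ 2 ≤ 11 * l ∧ -(8 * (l : ℝ)) < y3 n l s k),
      (q3 n l s k : ℝ) * (1 + max (y3 n l s k) 0 / l) := by
    rw [Finset.mul_sum]
    have h3 : ∀ s, 0 ≤ (1 + max (y3 n l s k) 0 / (l : ℝ)) := by
      intro s
      have := le_max_right (y3 n l s k) 0
      positivity
    refine le_trans (Finset.sum_le_sum (g := fun s =>
      2 * ((q3 n l s k : ℝ) * (1 + max (y3 n l s k) 0 / l))) fun s _ => ?_) ?_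
    · have h4 : mus l s ≤ 2 := by
        unfold mus
        split_ifs <;> norm_num
      have h5 : (mus l s : ℝ) ≤ 2 := by exact_mod_cast h4
      have h6 : p s ≤ 2 * q3 n l s k := by
        rw [hp]
        exact mul_le_mul_of_nonneg_right h5 (Nat.cast_nonneg _)
      have h7 := mul_le_mul_of_nonneg_right h6 (h3 s)
      linarith
    · refine Finset.sum_le_sum_of_subset_of_nonneg ?_ fun s _ _ =>
        mul_nonneg (by norm_num) (mul_nonneg (Nat.cast_nonneg _) (h3 s))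
      intro s hs
      simp only [hP, Finset.mem_filter, Finset.mem_range] at hs ⊢
      exact ⟨by omega, hs.2⟩
  have h8 := mul_le_mul_of_nonneg_left h2 (show (0 : ℝ) ≤ 10 / l by positivity)
  have e2 : (10 : ℝ) / l * (2 * ∑ s ∈ (range l).filter (fun s : ℕ =>
        ((l : ℝ) - 2 * s) ^ 2 ≤ 11 * l ∧ -(8 * (l : ℝ)) < y3 n l s k),
      (q3 n l s k : ℝ) * (1 + max (y3 n l s k) 0 / l)) = 20 / l * ∑ s ∈ (range l).filter
      (fun s : ℕ => ((l : ℝ) - 2 * s) ^ 2 ≤ 11 * l ∧ -(8 * (l : ℝ)) < y3 n l s k),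
      (q3 n l s k : ℝ) * (1 + max (y3 n l s k) 0 / l) := by ring
  rw [e2] at h8
  linarith

end Pool.Agent.H.MP_82502e_co
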