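import Pool.Agent.H.MP_82502e_co.WZa
import Pool.Agent.H.MP_82502e_co.WSt
import Pool.Agent.H.MP_82502e_co.WDomS
import Pool.Agent.H.MP_82502e_co.WFour2

set_option autoImplicit false

/-!
# The window: zone 0
-/

namespace Pool.Agent.H.MP_82502e_co

open Finset Real

theorem WZ0_exp {c : ℝ} (hc : 0 < c) : ∃ n0 : ℕ, 1 ≤ n0 ∧ ∀ n ≥ n0,
    exp (-(c * (n : ℝ))) ≤ 1 / 100 / n := by
  refine ⟨⌈200 / c ^ 2⌉₊ + 1, Nat.le_add_left _ _, fun n hn => ?_⟩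
  have h1 : 200 / c ^ 2 ≤ n := by
    refine (Nat.le_ceil _).trans ?_
    exact_mod_cast (Nat.le_succ _).trans hn
  have hn1 : (1 : ℝ) ≤ n := by
    exact_mod_cast (Nat.le_add_left 1 _).trans hn
  rw [div_le_iff₀ (by positivity)] at h1
  have h2 := Real.quadratic_le_exp_of_nonneg (x := c * n) (by positivity)
  have h3 : 100 * (n : ℝ) ≤ exp (c * n) := by nlinarith
  rw [exp_neg, div_div, ← one_div]
  exact one_div_le_one_div_of_le (by positivity) h3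

/-- difference of a term in the index `k` -/
theorem WZ0_tmx {k : ℕ} {x : ℕ × ℕ × ℕ × ℕ} (h1 : nfu x.1 x.2.1 x.2.2.1 x.2.2.2 ≤ k)
    (h2 : k - nfu x.1 x.2.1 x.2.2.1 x.2.2.2 ≤ nfr x.1 x.2.1 x.2.2.1 x.2.2.2) :
    (tmx x (k + 1) : ℝ) - tmx x k = tmx x k *
      (((nfr x.1 x.2.1 x.2.2.1 x.2.2.2 : ℝ) + 1) /
        (((k - nfu x.1 x.2.1 x.2.2.1 x.2.2.2 : ℕ) : ℝ) + 1) - 2) := by
  have h3 := choose_succ_sub h2
  unfold tmx tm chz
  rw [if_pos h1, if_pos (h1.trans (Nat.le_succ k)), Nat.succ_sub h1]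
  push_cast
  rw [← mul_sub, h3]
  ring

theorem WZ0_basic {η κ : ℝ} (hη0 : 0 < η) (hη : η ≤ 1 / 1000) (hκ : κ ≤ 1 / 1000) {n k : ℕ}
    {x : ℕ × ℕ × ℕ × ℕ} (hx : x ∈ CanQ n) (ht : Typ η κ n k x) :
    249 / 1000 * (n : ℝ) ^ 2 ≤ nfr x.1 x.2.1 x.2.2.1 x.2.2.2 ∧
    (nfr x.1 x.2.1 x.2.2.1 x.2.2.2 : ℝ) ≤ 1 / 4 * (n : ℝ) ^ 2 ∧
    nfu x.1 x.2.1 x.2.2.1 x.2.2.2 ≤ k ∧
    k - nfu x.1 x.2.1 x.2.2.1 x.2.2.2 ≤ nfr x.1 x.2.1 x.2.2.1 x.2.2.2 := by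
  have hN := nfr_le hx
  obtain ⟨t1, t2, t3⟩ := ht
  have hn0 : (0 : ℝ) ≤ n := Nat.cast_nonneg n
  have hsq : (((x.1 + x.2.2.1 : ℕ) : ℝ) - n / 2) ^ 2 ≤ (1 / 1000 * (n : ℝ)) ^ 2 := by
    rw [← sq_abs]
    refine pow_le_pow_left₀ (abs_nonneg _) (t1.trans ?_) 2
    exact mul_le_mul_of_nonneg_right hη hn0
  have had0 : (0 : ℝ) ≤ (x.1 : ℝ) * x.2.2.2 := by positivity
  have had : (x.1 : ℝ) * x.2.2.2 ≤ (1 / 1000 * (n : ℝ)) ^ 2 := by
    rcases t3 with h | ⟨h1, h2⟩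
    · rw [h]
      push_cast
      rw [mul_zero]
      positivity
    · have h3 : η * n ≤ 1 / 1000 * n := mul_le_mul_of_nonneg_right hη hn0
      rw [sq]
      exact mul_le_mul (h1.le.trans h3) (h2.le.trans h3) (Nat.cast_nonneg _) (by positivity)
  have hsq0 : 0 ≤ (((x.1 + x.2.2.1 : ℕ) : ℝ) - n / 2) ^ 2 := sq_nonneg _
  have hn2 : 0 ≤ (n : ℝ) ^ 2 := by positivity
  have hlo : 249 / 1000 * (n : ℝ) ^ 2 ≤ nfr x.1 x.2.1 x.2.2.1 x.2.2.2 := by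
    rw [hN]
    nlinarith
  have hhi : (nfr x.1 x.2.1 x.2.2.1 x.2.2.2 : ℝ) ≤ 1 / 4 * (n : ℝ) ^ 2 := by
    rw [hN]
    linarith
  have hy : |yq k x| ≤ 1 / 1000 * (n : ℝ) ^ 2 :=
    t2.trans (mul_le_mul_of_nonneg_right hκ hn2)
  obtain ⟨hy1, hy2⟩ := abs_le.1 hy
  unfold yq at hy1 hy2
  have hfu : nfu x.1 x.2.1 x.2.2.1 x.2.2.2 ≤ k := by
    have : (nfu x.1 x.2.1 x.2.2.1 x.2.2.2 : ℝ) ≤ k := by nlinarith
    exact_mod_cast this
  refine ⟨hlo, hhi, hfu, ?_⟩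
  have : ((k - nfu x.1 x.2.1 x.2.2.1 x.2.2.2 : ℕ) : ℝ) ≤ nfr x.1 x.2.1 x.2.2.1 x.2.2.2 := by
    rw [Nat.cast_sub hfu]
    nlinarith
  exact_mod_cast this

/-- the difference of a typical term: lower bounds -/
theorem WZ0_diff {η κ : ℝ} (hη0 : 0 < η) (hη : η ≤ 1 / 1000) (hκ : κ ≤ 1 / 1000) {n k : ℕ}
    (hn : 100 ≤ n) {x : ℕ × ℕ × ℕ × ℕ} (hx : x ∈ CanQ n) (ht : Typ η κ n k x) :
    (-(n : ℝ) / 4 ≤ yq k x → -(20 / (n : ℝ) * (tmx x k * (1 + max (yq k x) 0 / n))) ≤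
      (tmx x (k + 1) : ℝ) - tmx x k) ∧
    (¬ -(n : ℝ) / 4 ≤ yq k x → 1 / (n : ℝ) * tmx x k ≤ (tmx x (k + 1) : ℝ) - tmx x k) := by
  obtain ⟨hlo, hhi, hfu, hfr⟩ := WZ0_basic hη0 hη hκ hx ht
  rw [WZ0_tmx hfu hfr]
  have hnR : (100 : ℝ) ≤ n := by exact_mod_cast hn
  have hn0 : (0 : ℝ) < n := by linarith
  have hT : (0 : ℝ) ≤ tmx x k := Nat.cast_nonneg _
  set N : ℝ := (nfr x.1 x.2.1 x.2.2.1 x.2.2.2 : ℝ) with hNdef
  set K : ℝ := ((k - nfu x.1 x.2.1 x.2.2.1 x.2.2.2 : ℕ) : ℝ) with hKdef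
  have hK0 : 0 ≤ K := Nat.cast_nonneg _
  have hy : yq k x = K - N / 2 := by
    rw [hKdef, Nat.cast_sub hfu]
    rfl
  have hd : (N + 1) / (K + 1) - 2 = -(2 * (K - N / 2) + 1) / (K + 1) := by
    field_simp
    ring
  rw [hy, hd]
  constructor
  · intro h
    have hm0 : 0 ≤ max (K - N / 2) 0 := le_max_right _ _
    have hm1 : K - N / 2 ≤ max (K - N / 2) 0 := le_max_left _ _
    set m : ℝ := max (K - N / 2) 0 with hm
    have hKl : 12 / 100 * (n : ℝ) ^ 2 ≤ K + 1 := by nlinarith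
    have h1 : -(20 / (n : ℝ) * (1 + m / n)) ≤ -(2 * (K - N / 2) + 1) / (K + 1) := by
      rw [neg_div, neg_le_neg_iff, div_le_iff₀ (by positivity)]
      have e1 : 20 / (n : ℝ) * (1 + m / n) * (K + 1) =
          20 * ((n : ℝ) + m) * ((K + 1) / (n : ℝ) ^ 2) := by
        field_simp
      have e2 : 12 / 100 ≤ (K + 1) / (n : ℝ) ^ 2 := by
        rw [le_div_iff₀ (by positivity)]
        exact hKl
      rw [e1]
      have e3 : 20 * ((n : ℝ) + m) * (12 / 100) ≤ 20 * ((n : ℝ) + m) * ((K + 1) / (n : ℝ) ^ 2) :=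
        mul_le_mul_of_nonneg_left e2 (by positivity)
      nlinarith
    have h2 := mul_le_mul_of_nonneg_left h1 hT
    refine le_trans (le_of_eq ?_) h2
    ring
  · intro h
    rw [not_le] at h
    have h1 : 1 / (n : ℝ) ≤ -(2 * (K - N / 2) + 1) / (K + 1) := by
      rw [div_le_div_iff₀ hn0 (by positivity)]
      have e1 : (n : ℝ) / 2 - 1 ≤ -(2 * (K - N / 2) + 1) := by linarith
      have e2 : ((n : ℝ) / 2 - 1) * n ≤ -(2 * (K - N / 2) + 1) * n :=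
        mul_le_mul_of_nonneg_right e1 hn0.le
      have e3 : K ≤ 1 / 8 * (n : ℝ) ^ 2 := by linarith
      nlinarith
    have h2 := mul_le_mul_of_nonneg_left h1 hT
    rw [mul_comm (1 / (n : ℝ))]
    exact h2

/-- the three-layer part -/
theorem WZ0_F3 : ∃ δ : ℝ, 0 < δ ∧ ∃ n0 : ℕ, ∀ n ≥ n0, ∀ k : ℕ,
    (1 / 8 - δ) * (n : ℝ) ^ 2 ≤ k → (k : ℝ) ≤ (1 / 8 + 1 / 10000) * (n : ℝ) ^ 2 →
    1 / 2 / (n : ℝ) * F3 n k ≤ (F3 n (k + 1) : ℝ) - F3 n k := by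
  obtain ⟨δ1, hδ1, c, hc, n1, h1⟩ := F3l_far (η := 1 / 1000) (by norm_num)
  obtain ⟨C, hC, n2, h2⟩ := stein
  obtain ⟨n3, hn3, h3⟩ := WZ0_exp hc
  refine ⟨min δ1 (1 / 1000), lt_min hδ1 (by norm_num), n1 + n2 + n3 + 100,
    fun n hn k hk1 hk2 => ?_⟩
  have hnR : (100 : ℝ) ≤ n := by
    have : 100 ≤ n := by omega
    exact_mod_cast this
  have hn0 : (0 : ℝ) < n := by linarith
  have hn2 : (0 : ℝ) < (n : ℝ) ^ 2 := by positivity
  have hW1 : Win δ1 n k := by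
    refine ⟨le_trans ?_ hk1, hk2.trans ?_⟩
    · apply mul_le_mul_of_nonneg_right _ hn2.le
      have := min_le_left δ1 (1 / 1000)
      linarith
    · apply mul_le_mul_of_nonneg_right _ hn2.le
      linarith
  have hW2 : Win (1 / 1000) n k := by
    refine ⟨le_trans ?_ hk1, hk2.trans ?_⟩
    · apply mul_le_mul_of_nonneg_right _ hn2.le
      have := min_le_right δ1 (1 / 1000)
      linarith
    · apply mul_le_mul_of_nonneg_right _ hn2.le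
      norm_num
  have hfar := h1 n (by omega) k hW1
  have hexp : exp (-(c * (n : ℝ) ^ 2)) ≤ 1 / 100 / n := by
    refine le_trans (exp_le_exp.2 ?_) (h3 n (by omega))
    have : (n : ℝ) ≤ (n : ℝ) ^ 2 := by nlinarith
    nlinarith
  have hF3 : (0 : ℝ) ≤ F3 n k := Nat.cast_nonneg _
  set FA : ℝ := ∑ l ∈ (range n).filter (fun l : ℕ => 1 / 1000 * n < |(l : ℝ) - (n : ℝ) / 2|),
    (F3l n l k : ℝ) with hFA
  have hFA1 : FA ≤ 1 / 100 / n * F3 n k := by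
    refine le_trans ?_ (hfar.trans (mul_le_mul_of_nonneg_right hexp hF3))
    rw [hFA]
    refine sum_le_sum fun l _ => ?_
    have : (0 : ℝ) ≤ F3l n l (k + 1) := Nat.cast_nonneg _
    linarith
  -- the pointwise inequality
  have hpt : ∀ l ∈ range n, 59 / 100 / (n : ℝ) * F3l n l k -
      (if 1 / 1000 * (n : ℝ) < |(l : ℝ) - (n : ℝ) / 2| then 2 * (F3l n l k : ℝ) else 0) ≤
      (F3l n l (k + 1) : ℝ) - F3l n l k := by
    intro l _
    have hl0 : (0 : ℝ) ≤ F3l n l k := Nat.cast_nonneg _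
    have hl1 : (0 : ℝ) ≤ F3l n l (k + 1) := Nat.cast_nonneg _
    split_ifs with hl
    · have : 59 / 100 / (n : ℝ) ≤ 1 := by
        rw [div_le_one hn0]
        linarith
      nlinarith
    · rw [not_lt] at hl
      have hl' : |(l : ℝ) - (n : ℝ) / 2| ≤ (n : ℝ) / 1000 := by linarith
      obtain ⟨ha, hb⟩ := abs_le.1 hl'
      have hs := h2 n (by omega) k hW2 l hl'
      have hem : (range l).filter (fun s : ℕ =>
        ((l : ℝ) - 2 * s) ^ 2 ≤ 11 * l ∧ -(8 * (l : ℝ)) < y3 n l s k) = ∅ := by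
        rw [filter_eq_empty_iff]
        rintro s - ⟨g1, g2⟩
        rw [y3_eq] at g2
        have g3 : ((n : ℝ) / 2 - l) ^ 2 ≤ ((n : ℝ) / 1000) ^ 2 := by
          rw [← sq_abs]
          refine pow_le_pow_left₀ (abs_nonneg _) ?_ 2
          rw [abs_sub_comm]
          exact hl'
        have g4 : ((n : ℝ) / 2 - l) * n ≤ (n : ℝ) / 1000 * n :=
          mul_le_mul_of_nonneg_right (by linarith) hn0.le
        nlinarith
      rw [hem, sum_empty, mul_zero, sub_zero] at hs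
      rw [sub_zero]
      refine le_trans (mul_le_mul_of_nonneg_right ?_ hl0) hs
      have hlpos : (0 : ℝ) < l := by linarith
      rw [div_le_div_iff₀ hn0 hlpos]
      nlinarith
  have hsum := sum_le_sum hpt
  rw [sum_sub_distrib, sum_sub_distrib, ← mul_sum, ← sum_filter, ← mul_sum] at hsum
  have e1 : (F3 n k : ℝ) = ∑ l ∈ range n, (F3l n l k : ℝ) := by
    unfold F3
    push_cast
    rfl
  have e2 : (F3 n (k + 1) : ℝ) = ∑ l ∈ range n, (F3l n l (k + 1) : ℝ) := by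
    unfold F3
    push_cast
    rfl
  rw [← e1, ← e2, ← hFA] at hsum
  refine le_trans ?_ hsum
  have h5 : 59 / 100 / (n : ℝ) * F3 n k - 2 * (1 / 100 / n * F3 n k) ≤
    59 / 100 / (n : ℝ) * F3 n k - 2 * FA := by linarith
  refine le_trans ?_ h5
  have h6 : 59 / 100 / (n : ℝ) * F3 n k - 2 * (1 / 100 / n * F3 n k) =
    57 / 100 * (1 / (n : ℝ) * F3 n k) := by
    field_simp
    ring
  have h7 : 1 / 2 / (n : ℝ) * F3 n k = 1 / 2 * (1 / (n : ℝ) * F3 n k) := by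
    field_simp
  rw [h6, h7]
  have h8 : 0 ≤ 1 / (n : ℝ) * F3 n k := by positivity
  nlinarith

/-- **Zone 0.** `k ≤ (1/8 + ε0) n²`. `stein` for `|l - n/2| ≤ η n`: the error sum is empty (`y3 ≤ -n²/20` for `(l-2s)² ≤ 11 l`), so `F3 n (k+1) - F3 n k ≥ (0.29/n)·F3` up to negligible terms (`F3l_far`). `F4 n (k+1) - F4 n k = Σ tmx x k * d(y) + negligible` over the typical
`x` with `d ≥ 1`, `d(y) = (N+1)/(K+1) - 2 ≥ -(20/n)(1 + max y 0/n)` always and `≥ 1/n` if `y < -n/4`. With `four_sum`: `F4 n (k+1) - F4 n k ≥ -(20 C ε0/n) F3 + (1/n) Σ_{y < -n/4} tmx`, and `F4 n k ≤ C ε0 F3 + Σ_{y < -n/4} tmx + negligible`. Choose `ε0` small: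
`Fs n (k+1) - Fs n k ≥ (0.1/n) Fs n k`. (`nontyp` with `η = ε0/4` and a `κ ≤ min κ0 (1/1000)` at `k`, and for the level `k+1`: the terms that are typical at `k` are compared, the others are non-typical at `k+1` with slightly smaller constants, or use `tmx x (k+1) ≤ 10 tmx x k` there.) -/
theorem zone0 : ∃ ε0 : ℝ, 0 < ε0 ∧ ∃ δ : ℝ, 0 < δ ∧ ∃ n0 : ℕ, ∀ n ≥ n0, ∀ k : ℕ,
    (1 / 8 - δ) * (n : ℝ) ^ 2 ≤ k → (k : ℝ) ≤ (1 / 8 + ε0) * (n : ℝ) ^ 2 →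
    (1 + 1 / (n : ℝ) ^ 3) * (Fs n k : ℝ) ≤ Fs n (k + 1) := by
  classical
  obtain ⟨C, hC, h4⟩ := four_sum
  set ε : ℝ := min (1 / 10000) (1 / (200 * C)) with hε
  have hε0 : 0 < ε := lt_min (by norm_num) (by positivity)
  have hε1 : ε ≤ 1 / 10000 := min_le_left _ _
  have hε2 : C * ε ≤ 1 / 200 := by
    have : ε ≤ 1 / (200 * C) := min_le_right _ _
    calc C * ε ≤ C * (1 / (200 * C)) := mul_le_mul_of_nonneg_left this hC.le
      _ = 1 / 200 := by field_simp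
  obtain ⟨n1, h4⟩ := h4 ε hε0 hε1
  obtain ⟨κ0, hκ0, h5⟩ := nontyp (η := ε / 4) (by positivity) (by linarith)
  set κ : ℝ := min κ0 (1 / 1000) with hκ
  have hκ1 : 0 < κ := lt_min hκ0 (by norm_num)
  have hκ2 : κ ≤ 1 / 1000 := min_le_right _ _
  obtain ⟨δ2, hδ2, c, hc, n2, h5⟩ := h5 κ hκ1 (min_le_left _ _)
  obtain ⟨n3, hn3, h6⟩ := WZ0_exp hc
  obtain ⟨δ1, hδ1, n4, h7⟩ := WZ0_F3
  refine ⟨ε, hε0, min δ1 δ2, lt_min hδ1 hδ2, n1 + n2 + n3 + n4 + 100, fun n hn k hk1 hk2 => ?_⟩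
  have hn100 : 100 ≤ n := by omega
  have hnR : (100 : ℝ) ≤ n := by exact_mod_cast hn100
  have hn0 : (0 : ℝ) < n := by linarith
  have hn2 : (0 : ℝ) < (n : ℝ) ^ 2 := by positivity
  have hD3 := h7 n (by omega) k (le_trans (mul_le_mul_of_nonneg_right (by
      have := min_le_left δ1 δ2
      linarith) hn2.le) hk1) (hk2.trans (mul_le_mul_of_nonneg_right (by linarith) hn2.le))
  have hW : Win δ2 n k := by
    refine ⟨le_trans (mul_le_mul_of_nonneg_right (by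
      have := min_le_right δ1 δ2
      linarith) hn2.le) hk1, hk2.trans (mul_le_mul_of_nonneg_right (by linarith) hn2.le)⟩
  have hG3 := h5 n (by omega) k hW
  have hG1 := h4 n (by omega) k
  have hexp := h6 n (by omega)
  have hF3 : (0 : ℝ) ≤ F3 n k := Nat.cast_nonneg _
  set G1 : ℝ := ∑ x ∈ (CanQ n).filter (fun x => 1 ≤ x.2.2.2 ∧ Typ (ε / 4) (1 / 1000) n k x ∧
      -(n : ℝ) / 4 ≤ yq k x), (tmx x k : ℝ) * (1 + max (yq k x) 0 / n) with hG1d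
  set G2 : ℝ := ∑ x ∈ (CanQ n).filter (fun x => 1 ≤ x.2.2.2 ∧ Typ (ε / 4) κ n k x ∧
      ¬ -(n : ℝ) / 4 ≤ yq k x), (tmx x k : ℝ) with hG2d
  set G3 : ℝ := ∑ x ∈ (CanQ n).filter (fun x => ¬ Typ (ε / 4) κ n k x), (tmx x k : ℝ) with hG3d
  have hG2 : 0 ≤ G2 := sum_nonneg fun _ _ => Nat.cast_nonneg _
  have htm : ∀ x : ℕ × ℕ × ℕ × ℕ, Typ (ε / 4) κ n k x → Typ (ε / 4) (1 / 1000) n k x :=
    fun x hx => ⟨hx.1, hx.2.1.trans (mul_le_mul_of_nonneg_right hκ2 hn2.le), hx.2.2⟩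
  have eF4 : ∀ k', (F4 n k' : ℝ) = ∑ x ∈ CanQ n,
      if 1 ≤ x.2.2.2 then (tmx x k' : ℝ) else 0 := by
    intro k'
    unfold F4
    rw [Nat.cast_sum, sum_filter]
  rw [sum_filter] at hG1d hG2d hG3d
  have hmax : ∀ x : ℕ × ℕ × ℕ × ℕ, 0 ≤ max (yq k x) 0 / (n : ℝ) := fun x =>
    div_nonneg (le_max_right _ _) hn0.le
  -- upper bound for the four-layer part
  have hF4 : (F4 n k : ℝ) ≤ G1 + G2 + G3 := by
    rw [eF4, hG1d, hG2d, hG3d, ← sum_add_distrib, ← sum_add_distrib]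
    refine sum_le_sum fun x _ => ?_
    have hT : (0 : ℝ) ≤ tmx x k := Nat.cast_nonneg _
    have hm := hmax x
    have hTm : 0 ≤ (tmx x k : ℝ) * (1 + max (yq k x) 0 / n) := by positivity
    have hTm' : (tmx x k : ℝ) ≤ tmx x k * (1 + max (yq k x) 0 / n) := by nlinarith
    by_cases hd : 1 ≤ x.2.2.2
    · by_cases ht : Typ (ε / 4) κ n k x
      · by_cases hy : -(n : ℝ) / 4 ≤ yq k x
        · rw [if_pos hd, if_pos ⟨hd, htm x ht, hy⟩, if_neg (fun h => h.2.2 hy),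
            if_neg (fun h => h ht)]
          linarith
        · rw [if_pos hd, if_neg (fun h => hy h.2.2), if_pos ⟨hd, ht, hy⟩,
            if_neg (fun h => h ht)]
          linarith
      · rw [if_pos hd, if_neg (fun h : _ ∧ _ ∧ _ => ht h.2.1) (c := 1 ≤ x.2.2.2 ∧
          Typ (ε / 4) κ n k x ∧ ¬ -(n : ℝ) / 4 ≤ yq k x), if_pos ht]
        split_ifs <;> linarith
    · rw [if_neg hd, if_neg (fun h => hd h.1), if_neg (fun h => hd h.1)]
      split_ifs <;> linarith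
  have hD4 : -(20 / (n : ℝ) * G1) + 1 / (n : ℝ) * G2 - G3 ≤ (F4 n (k + 1) : ℝ) - F4 n k := by
    rw [eF4, eF4, hG1d, hG2d, hG3d, mul_sum, mul_sum, ← sum_neg_distrib, ← sum_add_distrib,
      ← sum_sub_distrib, ← sum_sub_distrib]
    refine sum_le_sum fun x hx => ?_
    have hT : (0 : ℝ) ≤ tmx x k := Nat.cast_nonneg _
    have hT' : (0 : ℝ) ≤ tmx x (k + 1) := Nat.cast_nonneg _
    have hm := hmax x
    have hTm : 0 ≤ 20 / (n : ℝ) * ((tmx x k : ℝ) * (1 + max (yq k x) 0 / n)) := by positivity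
    by_cases hd : 1 ≤ x.2.2.2
    · by_cases ht : Typ (ε / 4) κ n k x
      · obtain ⟨d1, d2⟩ := WZ0_diff (by positivity) (by linarith) hκ2 hn100 hx ht
        by_cases hy : -(n : ℝ) / 4 ≤ yq k x
        · rw [if_pos hd, if_pos hd, if_pos ⟨hd, htm x ht, hy⟩, if_neg (fun h => h.2.2 hy),
            if_neg (fun h => h ht)]
          have := d1 hy
          linarith
        · rw [if_pos hd, if_pos hd, if_neg (fun h => hy h.2.2), if_pos ⟨hd, ht, hy⟩,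
            if_neg (fun h => h ht)]
          have := d2 hy
          linarith
      · rw [if_pos hd, if_pos hd, if_neg (fun h : _ ∧ _ ∧ _ => ht h.2.1) (c := 1 ≤ x.2.2.2 ∧
          Typ (ε / 4) κ n k x ∧ ¬ -(n : ℝ) / 4 ≤ yq k x), if_pos ht]
        split_ifs <;> linarith
    · rw [if_neg hd, if_neg hd, if_neg (fun h => hd h.1), if_neg (fun h => hd h.1)]
      split_ifs <;> linarith
  -- conclusion
  have hG3' : G3 ≤ 1 / 100 * (1 / (n : ℝ) * F3 n k) := by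
    refine hG3.trans ((mul_le_mul_of_nonneg_right hexp hF3).trans (le_of_eq ?_))
    field_simp
  have hG1' : G1 ≤ 1 / 200 * F3 n k := by
    refine hG1.trans ?_
    exact mul_le_mul_of_nonneg_right hε2 hF3
  have hG1'' : 20 / (n : ℝ) * G1 ≤ 1 / 10 * (1 / (n : ℝ) * F3 n k) := by
    refine (mul_le_mul_of_nonneg_left hG1' (by positivity)).trans (le_of_eq ?_)
    field_simp
    ring
  have hD3' : 1 / 2 * (1 / (n : ℝ) * F3 n k) ≤ (F3 n (k + 1) : ℝ) - F3 n k := by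
    refine le_trans (le_of_eq ?_) hD3
    field_simp
  have hs1 : (Fs n k : ℝ) = F3 n k + F4 n k := by exact_mod_cast Fs_split n k
  have hs2 : (Fs n (k + 1) : ℝ) = F3 n (k + 1) + F4 n (k + 1) := by exact_mod_cast Fs_split n (k + 1)
  have hA : 0 ≤ 1 / (n : ℝ) * F3 n k := by positivity
  have hA' : 1 / (n : ℝ) * F3 n k ≤ F3 n k := by
    have : 1 / (n : ℝ) ≤ 1 := by
      rw [div_le_one hn0]
      linarith
    nlinarith
  have hB : 0 ≤ 1 / (n : ℝ) * G2 := by positivity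
  have hFs : (Fs n k : ℝ) ≤ 11 / 10 * F3 n k + G2 := by
    rw [hs1]
    linarith
  have hn3' : 1 / (n : ℝ) ^ 3 ≤ 1 / 4 * (1 / (n : ℝ)) := by
    rw [div_le_iff₀ (by positivity)]
    have e : 1 / 4 * (1 / (n : ℝ)) * (n : ℝ) ^ 3 = (n : ℝ) ^ 2 / 4 := by
      field_simp
    rw [e]
    nlinarith
  have hfin : 1 / (n : ℝ) ^ 3 * (Fs n k : ℝ) ≤ 1 / 4 * (1 / (n : ℝ)) *
      (11 / 10 * F3 n k + G2) := by
    refine mul_le_mul hn3' hFs (Nat.cast_nonneg _) (by positivity)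
  have hfin2 : 1 / 4 * (1 / (n : ℝ)) * (11 / 10 * F3 n k + G2) =
      11 / 40 * (1 / (n : ℝ) * F3 n k) + 1 / 4 * (1 / (n : ℝ) * G2) := by ring
  rw [add_mul, one_mul]
  rw [hfin2] at hfin
  rw [hs2]
  linarith

end Pool.Agent.H.MP_82502e_co
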