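import Pool.Agent.H.MP_82502e_co.WFam

set_option autoImplicit false

/-!
# The window: combinatorics of layered posets, 2
-/

namespace Pool.Agent.H.MP_82502e_co

open Finset

variable {n : ℕ}

theorem WFam2_sum_csz (lam : Fin n → Fin 4) :
    csz lam 0 + csz lam 1 + csz lam 2 + csz lam 3 = n := by
  have h := Finset.card_eq_sum_card_fiberwise (f := lam) (s := (univ : Finset (Fin n)))
    (t := (univ : Finset (Fin 4))) (fun _ _ => mem_coe.2 (mem_univ _))
  rw [Finset.card_univ, Fintype.card_fin, Fin.sum_univ_four] at h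
  unfold csz
  exact h.symm

theorem WFam2_csz_pos {lam : Fin n → Fin 4} {i : Fin 4} : 1 ≤ csz lam i ↔ ∃ u, lam u = i := by
  unfold csz
  rw [Nat.one_le_iff_ne_zero, Ne, Finset.card_eq_zero, ← Ne, ← Finset.nonempty_iff_ne_empty]
  constructor
  · rintro ⟨u, hu⟩
    exact ⟨u, (mem_filter.1 hu).2⟩
  · rintro ⟨u, hu⟩
    exact ⟨u, mem_filter.2 ⟨mem_univ _, hu⟩⟩

theorem WFam2_can_iff {lam : Fin n → Fin 4} :
    Can lam ↔ (csz lam 0, csz lam 1, csz lam 2, csz lam 3) ∈ CanQ n := by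
  have hs := WFam2_sum_csz lam
  unfold Can CanQ
  rw [mem_filter, mem_product, mem_product, mem_product]
  simp only [← WFam2_csz_pos, mem_range]
  constructor
  · rintro ⟨h1, h2, h3⟩
    exact ⟨⟨by omega, by omega, by omega, by omega⟩, hs, h1, h2, h3⟩
  · rintro ⟨-, -, h1, h2, h3⟩
    exact ⟨h1, h2, h3⟩

open scoped Classical in
/-- `Fs` counts pairs (canonical layer function, poset in it): fibre over the sizes. -/
theorem Fs_eq (n k : ℕ) :
    ∑ lam ∈ (univ : Finset (Fin n → Fin 4)).filter Can,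
      ((Lay lam).filter fun S => S.card = k).card = Fs n k := by
  unfold Fs
  rw [← Finset.sum_fiberwise_of_maps_to
    (s := (univ : Finset (Fin n → Fin 4)).filter Can) (t := CanQ n)
    (g := fun lam => (csz lam 0, csz lam 1, csz lam 2, csz lam 3))
    (fun lam hlam => WFam2_can_iff.1 (mem_filter.1 hlam).2)]
  refine Finset.sum_congr rfl fun x hx => ?_
  obtain ⟨a, b, c, d⟩ := x
  have hx' := hx
  unfold CanQ at hx'
  rw [mem_filter] at hx'
  have hsum : a + b + c + d = n := hx'.2.1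
  have e1 : (((univ : Finset (Fin n → Fin 4)).filter Can).filter fun lam =>
      (csz lam 0, csz lam 1, csz lam 2, csz lam 3) = (a, b, c, d)) =
      (univ : Finset (Fin n → Fin 4)).filter fun lam =>
      csz lam 0 = a ∧ csz lam 1 = b ∧ csz lam 2 = c ∧ csz lam 3 = d := by
    ext lam
    simp only [mem_filter, mem_univ, true_and, Prod.mk.injEq]
    constructor
    · rintro ⟨-, h⟩
      exact h
    · intro h
      refine ⟨WFam2_can_iff.2 ?_, h⟩
      obtain ⟨h0, h1, h2, h3⟩ := h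
      rw [h0, h1, h2, h3]
      exact hx
  rw [e1]
  have e2 : ∀ lam ∈ (univ : Finset (Fin n → Fin 4)).filter (fun lam =>
      csz lam 0 = a ∧ csz lam 1 = b ∧ csz lam 2 = c ∧ csz lam 3 = d),
      ((Lay lam).filter fun S => S.card = k).card = chz (nfr a b c d) k (nfu a b c d) := by
    intro lam hlam
    obtain ⟨h0, h1, h2, h3⟩ := (mem_filter.1 hlam).2
    rw [card_lay, h0, h1, h2, h3]
  rw [Finset.sum_congr rfl e2, Finset.sum_const, smul_eq_mul]
  have e3 := card_sizes (n := n) hsum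
  unfold tmx tm
  simp only
  rw [hsum]
  rw [← e3]

/-- `d = 0`: `(a, b, c, 0)` with `b, c ≥ 1` corresponds to `l = a + c ∈ [1, n-1]`, `s = a ∈ [0, l-1]`
(in `F3` the term `l = 0` is an empty sum). -/
theorem Fs_split (n k : ℕ) : Fs n k = F3 n k + F4 n k := by
  unfold Fs F4
  rw [← Finset.sum_filter_add_sum_filter_not (CanQ n) (fun x => 1 ≤ x.2.2.2), add_comm]
  congr 1
  unfold F3 F3l
  rw [Finset.sum_sigma']
  symm
  refine Finset.sum_bij' (fun (y : (_ : ℕ) × ℕ) _ => (y.2, n - y.1, y.1 - y.2, 0))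
    (fun (x : ℕ × ℕ × ℕ × ℕ) _ => (⟨x.1 + x.2.2.1, x.1⟩ : (_ : ℕ) × ℕ)) ?_ ?_ ?_ ?_ ?_
  · rintro ⟨l, s⟩ h
    rw [mem_sigma, mem_range, mem_range] at h
    obtain ⟨h1, h2⟩ := h
    simp only at h1 h2
    unfold CanQ
    simp only [mem_filter, mem_product, mem_range]
    refine ⟨⟨⟨by omega, by omega, by omega, by omega⟩, by omega, by omega, by omega, by omega⟩,
      by omega⟩
  · rintro ⟨a, b, c, d⟩ h
    unfold CanQ at h
    simp only [mem_filter, mem_product, mem_range] at h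
    rw [mem_sigma, mem_range, mem_range]
    simp only
    constructor <;> omega
  · rintro ⟨l, s⟩ h
    rw [mem_sigma, mem_range, mem_range] at h
    obtain ⟨h1, h2⟩ := h
    simp only at h1 h2
    simp only
    congr 1
    omega
  · rintro ⟨a, b, c, d⟩ h
    unfold CanQ at h
    simp only [mem_filter, mem_product, mem_range] at h
    simp only [Prod.mk.injEq, true_and]
    refine ⟨by omega, by omega, by omega⟩
  · rintro ⟨l, s⟩ h
    rw [mem_sigma, mem_range, mem_range] at h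
    obtain ⟨h1, h2⟩ := h
    simp only at h1 h2
    unfold q3 tmx tm nfr nfu
    simp only
    have e1 : s + (n - l) + (l - s) + 0 = n := by omega
    have e2 : s + (l - s) = l := by omega
    rw [e1, e2, Nat.choose_zero_right, mul_one]
    congr 2
    · simp only [mul_zero, add_zero]
      rw [mul_comm (n - l) (l - s), ← add_mul, e2]

/-- The relabelling of the layers. -/
def WFam2_f (N : Fin 4 → Bool) : Fin 4 → Fin 4 :=
  if N 0 then
    if N 1 then
      if N 2 then ![0, 1, 2, 3] else if N 3 then ![0, 1, 1, 2] else ![1, 2, 2, 2]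
    else if N 2 then
      if N 3 then ![0, 0, 1, 2] else ![1, 1, 2, 2]
    else ![1, 1, 1, 2]
  else if N 1 then
    if N 2 then
      if N 3 then ![0, 0, 1, 2] else ![1, 1, 2, 2]
    else ![1, 1, 1, 2]
  else ![1, 1, 1, 2]

theorem WFam2_f_spec : ∀ b0 b1 b2 b3 : Bool, ∀ N : Fin 4 → Bool, N = ![b0, b1, b2, b3] →
    (∃ i j : Fin 4, i < j ∧ N i = true ∧ N j = true) →
    (∀ i j : Fin 4, N i = true → N j = true → i < j → WFam2_f N i < WFam2_f N j) ∧
    (∀ i j : Fin 4, N i = true → N j = true → (WFam2_f N i : ℕ) + 2 ≤ WFam2_f N j →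
      (i : ℕ) + 2 ≤ j) ∧
    (∃ i, N i = true ∧ WFam2_f N i = 1) ∧ (∃ i, N i = true ∧ WFam2_f N i = 2) ∧
    ((∃ i, N i = true ∧ WFam2_f N i = 3) → ∃ i, N i = true ∧ WFam2_f N i = 0) := by
  intro b0 b1 b2 b3 N hN
  subst hN
  revert b0 b1 b2 b3
  decide

theorem WFam2_f_spec' (N : Fin 4 → Bool)
    (h : ∃ i j : Fin 4, i < j ∧ N i = true ∧ N j = true) :
    (∀ i j : Fin 4, N i = true → N j = true → i < j → WFam2_f N i < WFam2_f N j) ∧
    (∀ i j : Fin 4, N i = true → N j = true → (WFam2_f N i : ℕ) + 2 ≤ WFam2_f N j →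
      (i : ℕ) + 2 ≤ j) ∧
    (∃ i, N i = true ∧ WFam2_f N i = 1) ∧ (∃ i, N i = true ∧ WFam2_f N i = 2) ∧
    ((∃ i, N i = true ∧ WFam2_f N i = 3) → ∃ i, N i = true ∧ WFam2_f N i = 0) := by
  refine WFam2_f_spec (N 0) (N 1) (N 2) (N 3) N ?_ h
  funext i
  fin_cases i <;> rfl

/-- Relabel the nonempty layers consecutively: four nonempty layers: nothing to do; three: `0, 1, 2`;
two: `1, 2`; one or zero: impossible since `S` is nonempty. -/
theorem compress {lam : Fin n → Fin 4} {S : Finset (Fin n × Fin n)} (hS : S ∈ Lay lam)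
    (hne : S.Nonempty) : ∃ lam' : Fin n → Fin 4, Can lam' ∧ S ∈ Lay lam' := by
  classical
  rw [mem_Lay] at hS
  obtain ⟨h1, h2⟩ := hS
  set N : Fin 4 → Bool := fun i => decide (∃ u, lam u = i) with hN
  have hNi : ∀ i, N i = true ↔ ∃ u, lam u = i := by
    intro i
    rw [hN]
    exact decide_eq_true_iff
  have hNu : ∀ u, N (lam u) = true := fun u => (hNi _).2 ⟨u, rfl⟩
  obtain ⟨p, hp⟩ := hne
  obtain ⟨a1, a2, a3, a4, a5⟩ := WFam2_f_spec' N ⟨lam p.1, lam p.2, h1 p hp, hNu _, hNu _⟩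
  refine ⟨fun u => WFam2_f N (lam u), ⟨?_, ?_, ?_⟩, ?_⟩
  · obtain ⟨i, hi, hi'⟩ := a3
    obtain ⟨u, rfl⟩ := (hNi i).1 hi
    exact ⟨u, hi'⟩
  · obtain ⟨i, hi, hi'⟩ := a4
    obtain ⟨u, rfl⟩ := (hNi i).1 hi
    exact ⟨u, hi'⟩
  · rintro ⟨u, hu⟩
    obtain ⟨i, hi, hi'⟩ := a5 ⟨lam u, hNu u, hu⟩
    obtain ⟨v, rfl⟩ := (hNi i).1 hi
    exact ⟨v, hi'⟩
  · rw [mem_Lay]
    refine ⟨fun q hq => a1 _ _ (hNu _) (hNu _) (h1 q hq), fun u v huv => ?_⟩
    exact h2 u v (a2 _ _ (hNu u) (hNu v) huv)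

open scoped Classical in
/-- The posets that lie in some `Lay lam` are at most `Fs n k` many. -/
theorem card_layered_le {k : ℕ} (hk : 0 < k) :
    ((PO n k).filter fun S => ∃ lam : Fin n → Fin 4, S ∈ Lay lam).card ≤ Fs n k := by
  rw [← Fs_eq]
  refine le_trans (Finset.card_le_card (t := ((univ : Finset (Fin n → Fin 4)).filter Can).biUnion
    fun lam => (Lay lam).filter fun S => S.card = k) ?_) Finset.card_biUnion_le
  intro S hS
  rw [mem_filter] at hS
  obtain ⟨h1, lam, h2⟩ := hS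
  unfold PO at h1
  rw [mem_filter] at h1
  have hc : S.card = k := h1.2.2
  have hne : S.Nonempty := Finset.card_pos.1 (by omega)
  obtain ⟨lam', h3, h4⟩ := compress h2 hne
  rw [mem_biUnion]
  exact ⟨lam', mem_filter.2 ⟨mem_univ _, h3⟩, mem_filter.2 ⟨h4, hc⟩⟩

end Pool.Agent.H.MP_82502e_co
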