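import Pool.Agent.H.MP_82502e_co.WBin

set_option autoImplicit false

/-!
# The window: comparison of different l: shift up
-/

namespace Pool.Agent.H.MP_82502e_co

open Finset Real

theorem WSh1_one {n m s : ℕ} (hs : s ≤ m) (h : m + 1 - s ≤ n - m) :
    n.choose m * m.choose s ≤ n.choose (m + 1) * (m + 1).choose s := by
  have e1 := Nat.choose_succ_right_eq n m
  have e2 := Nat.choose_mul_succ_eq m s
  have hp : 0 < m + 1 - s := by omega
  have hp2 : 0 < m + 1 := by omega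
  have e3 : (n.choose (m + 1) * (m + 1).choose s) * (m + 1 - s) * (m + 1) =
      (n.choose m * m.choose s) * (n - m) * (m + 1) := by
    calc (n.choose (m + 1) * (m + 1).choose s) * (m + 1 - s) * (m + 1)
        = (n.choose (m + 1) * (m + 1)) * ((m + 1).choose s * (m + 1 - s)) := by ring
      _ = (n.choose m * (n - m)) * (m.choose s * (m + 1)) := by rw [e1, e2]
      _ = (n.choose m * m.choose s) * (n - m) * (m + 1) := by ring
  have e4 : (n.choose (m + 1) * (m + 1).choose s) * (m + 1 - s) =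
      (n.choose m * m.choose s) * (n - m) := Nat.eq_of_mul_eq_mul_right hp2 e3
  have e5 : (n.choose m * m.choose s) * (m + 1 - s) ≤
      (n.choose (m + 1) * (m + 1).choose s) * (m + 1 - s) := by
    rw [e4]
    exact Nat.mul_le_mul_left _ h
  exact Nat.le_of_mul_le_mul_right e5 hp

/-- Moving `j` points from the middle layer to the top layer (`l → l + j`): the multinomial factor
`n!/(s!(l-s)!(n-l)!)` is multiplied by `∏_{r<j} (n-l-r)/(l-s+1+r) ≥ 1` if `l - s + j ≤ n - l - j + 1`. -/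
theorem multi_up {n l s j : ℕ} (hs : s ≤ l) (h : l - s + j ≤ n - l - j + 1) (hl : l + j ≤ n) :
    n.choose l * l.choose s ≤ n.choose (l + j) * (l + j).choose s := by
  induction j with
  | zero => simp
  | succ j ih =>
    refine (ih (by omega) (by omega)).trans ?_
    exact WSh1_one (by omega) (by omega)

/-- The base of the power in `choose_addN_ge`. -/
theorem WSh1_base {N w a D : ℝ} (hN : 0 < N) (hw : 0 ≤ w) (hD : 0 ≤ D)
    (ha : N + w - a ≤ (N + w + D) / 2) (ha0 : 0 < N + w - a) :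
    2 * exp (-(D / N)) ≤ (N + w) / (N + w - a) := by
  rw [le_div_iff₀ ha0]
  have h1 : 0 < exp (-(D / N)) := exp_pos _
  have h2 : exp (-(D / N)) * exp (D / N) = 1 := by rw [← exp_add]; simp
  have h3 : D / N + 1 ≤ exp (D / N) := add_one_le_exp _
  have h4 : N + w + D ≤ (N + w) * (D / N + 1) := by
    have h5 : (N + w) * (D / N + 1) = N + w + D + w * (D / N) := by
      field_simp
      ring
    rw [h5]
    have : 0 ≤ w * (D / N) := by positivity
    linarith
  have h6 : N + w + D ≤ (N + w) * exp (D / N) :=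
    h4.trans (mul_le_mul_of_nonneg_left h3 (by linarith))
  calc 2 * exp (-(D / N)) * (N + w - a) ≤ 2 * exp (-(D / N)) * ((N + w + D) / 2) :=
        mul_le_mul_of_nonneg_left ha (by positivity)
    _ = exp (-(D / N)) * (N + w + D) := by ring
    _ ≤ exp (-(D / N)) * ((N + w) * exp (D / N)) := mul_le_mul_of_nonneg_left h6 h1.le
    _ = (N + w) * (exp (-(D / N)) * exp (D / N)) := by ring
    _ = N + w := by rw [h2, mul_one]

theorem WSh1_pow {N w a D : ℝ} (m : ℕ) (hm : w = m) (hN : 0 < N) (hw : 0 ≤ w) (hD : 0 ≤ D)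
    (ha : N + w - a ≤ (N + w + D) / 2) (ha0 : 0 < N + w - a) :
    exp (w * (log 2 - D / N)) ≤ ((N + w) / (N + w - a)) ^ m := by
  have h1 := WSh1_base hN hw hD ha ha0
  have h2 : exp (w * (log 2 - D / N)) = (2 * exp (-(D / N))) ^ m := by
    have h3 : (2 : ℝ) = exp (log 2) := (exp_log (by norm_num)).symm
    have h4 : 2 * exp (-(D / N)) = exp (log 2 - D / N) := by
      conv_lhs => rw [h3]
      rw [← exp_add]
      ring_nf
    rw [h4, ← exp_nat_mul, hm]
  rw [h2]
  exact pow_le_pow_left₀ (by positivity) h1 m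

/-- The analytic part. -/
theorem WSh1_core {N K w v l : ℕ} {i : ℝ} (hl : (7000 : ℝ) ≤ l) (hN1 : (l : ℝ) ^ 2 ≤ N)
    (hN2 : (N : ℝ) ≤ 101 / 100 * (l : ℝ) ^ 2) (hw1 : 3 / 4 * i ^ 2 ≤ (w : ℝ)) (hw2 : (w : ℝ) ≤ i ^ 2)
    (hv1 : 48 / 100 * (l : ℝ) ≤ v) (hv2 : (v : ℝ) ≤ 26 / 100 * (i + 2) * l) (hi : 1 ≤ i)
    (hil : i ≤ 3 / 1000 * l) (hy1 : -(20 * (l : ℝ)) ≤ (K : ℝ) - N / 2) (hK : K ≤ N) :
    (N.choose K : ℝ) * (1 + max ((K : ℝ) - N / 2) 0 / l) ≤
      exp (50 * i + 50 - i ^ 2 / 5) * ((N + w).choose (K - v) : ℝ) := by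
  have hl0 : (0 : ℝ) < l := by linarith
  have hN0 : (0 : ℝ) < N := by nlinarith
  have hw0 : (0 : ℝ) ≤ w := Nat.cast_nonneg w
  have hv0 : (0 : ℝ) ≤ v := Nat.cast_nonneg v
  have hKN : (K : ℝ) ≤ N := by exact_mod_cast hK
  have hil2 : (i + 2) * l ≤ 4 / 1000 * (l : ℝ) ^ 2 := by nlinarith
  have hv3 : (v : ℝ) ≤ 2 / 1000 * (l : ℝ) ^ 2 := by nlinarith
  have hvK : v ≤ K := by
    have : (v : ℝ) ≤ K := by nlinarith
    exact_mod_cast this
  have hcast : ((K - v : ℕ) : ℝ) = (K : ℝ) - v := by rw [Nat.cast_sub hvK]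
  have hC0 : (0 : ℝ) ≤ (N.choose K : ℝ) := Nat.cast_nonneg _
  have hadd := choose_addN_ge (N := N) (K := K - v) (w := w) (by omega)
  rw [hcast] at hadd
  have hlog : (69 / 100 : ℝ) ≤ log 2 := by
    have := log_two_gt_d9
    linarith
  have hlog2 : log 2 ≤ 1 := by
    have := log_two_lt_d9
    linarith
  obtain ⟨y, hy⟩ : ∃ y : ℝ, y = (K : ℝ) - N / 2 := ⟨_, rfl⟩
  rw [← hy] at hy1 ⊢
  -- the ratio v / l
  obtain ⟨X, hX⟩ : ∃ X : ℝ, X = (v : ℝ) / l := ⟨_, rfl⟩
  have hvX : (v : ℝ) = X * l := by rw [hX]; field_simp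
  have hX0 : 0 ≤ X := by rw [hX]; positivity
  have hX1 : X ≤ 26 / 100 * (i + 2) := by
    rw [hX, div_le_iff₀ hl0]
    exact hv2
  have hw3 : (w : ℝ) ≤ 9 / 1000000 * (l : ℝ) ^ 2 := by nlinarith
  have hww : (w : ℝ) * w / N ≤ 9 / 1000000 * i ^ 2 := by
    rw [div_le_iff₀ hN0]
    calc (w : ℝ) * w ≤ i ^ 2 * (9 / 1000000 * (l : ℝ) ^ 2) :=
          mul_le_mul hw2 hw3 hw0 (by positivity)
      _ = 9 / 1000000 * i ^ 2 * (l : ℝ) ^ 2 := by ring
      _ ≤ 9 / 1000000 * i ^ 2 * N := mul_le_mul_of_nonneg_left hN1 (by positivity)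
  rcases le_or_gt y (2 * v) with hA | hB
  · -- case A
    have hD : (0 : ℝ) ≤ w + 2 * v + 40 * l := by positivity
    have hpow := WSh1_pow (N := (N : ℝ)) (w := (w : ℝ)) (a := (K : ℝ) - v)
      (D := w + 2 * v + 40 * l) w rfl hN0 hw0 hD (by linarith) (by nlinarith)
    have hleft := choose_left_ge (N := N) (K := K) (v := v) (by
      rw [← hy]
      have : |y| ≤ 6 / 1000 * (l : ℝ) ^ 2 := by
        rw [abs_le]
        constructor <;> nlinarith
      linarith)
    have hmax : max ((N : ℝ) / 2 - K) 0 ≤ 20 * l := by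
      apply max_le _ (by positivity)
      linarith
    have hleft2 : exp (-(41 / 10 * (20 * X + X ^ 2))) * (N.choose K : ℝ) ≤
        (N.choose (K - v) : ℝ) := by
      refine le_trans ?_ hleft
      apply mul_le_mul_of_nonneg_right _ hC0
      apply exp_le_exp.2
      apply neg_le_neg
      have h1 : max ((N : ℝ) / 2 - K) 0 * v + (v : ℝ) ^ 2 ≤ (20 * X + X ^ 2) * (l : ℝ) ^ 2 := by
        have h2 := mul_le_mul_of_nonneg_right hmax hv0
        have h3 : 20 * (l : ℝ) * v + (v : ℝ) ^ 2 = (20 * X + X ^ 2) * (l : ℝ) ^ 2 := by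
          rw [hvX]
          ring
        linarith
      have h4 : (20 * X + X ^ 2) * (l : ℝ) ^ 2 ≤ (20 * X + X ^ 2) * N :=
        mul_le_mul_of_nonneg_left hN1 (by positivity)
      calc 41 / 10 / (N : ℝ) * (max ((N : ℝ) / 2 - K) 0 * v + (v : ℝ) ^ 2)
          ≤ 41 / 10 / N * ((20 * X + X ^ 2) * N) :=
            mul_le_mul_of_nonneg_left (h1.trans h4) (by positivity)
        _ = 41 / 10 * (20 * X + X ^ 2) := by field_simp
    have hlin : 1 + max y 0 / l ≤ exp (2 * X) := by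
      have h1 : max y 0 / l ≤ 2 * X := by
        rw [div_le_iff₀ hl0]
        apply max_le _ (by positivity)
        rw [hvX] at hA
        linarith
      have h2 := add_one_le_exp (2 * X)
      linarith
    have hexp : 2 * X ≤ (50 * i + 50 - i ^ 2 / 5) +
        (w * (log 2 - (w + 2 * v + 40 * l) / N) + -(41 / 10 * (20 * X + X ^ 2))) := by
      have h1 : (w : ℝ) * ((w + 2 * v + 40 * l) / N) ≤ 9 / 1000000 * i ^ 2 +
          (3 / 1000 * i ^ 2 + 12 / 100 * i) := by
        have h2 : (w : ℝ) * ((w + 2 * v + 40 * l) / N) =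
            w * w / N + w * (2 * v + 40 * l) / N := by ring
        rw [h2]
        apply add_le_add hww
        rw [div_le_iff₀ hN0]
        have h3 : (w : ℝ) * (2 * v + 40 * l) ≤ i ^ 2 * (2 * v + 40 * l) :=
          mul_le_mul_of_nonneg_right hw2 (by positivity)
        have h4 : 2 * (v : ℝ) ≤ 3 / 1000 * (l : ℝ) ^ 2 := by nlinarith
        have h5 : i ^ 2 * (2 * v) ≤ 3 / 1000 * i ^ 2 * (l : ℝ) ^ 2 := by
          calc i ^ 2 * (2 * v) ≤ i ^ 2 * (3 / 1000 * (l : ℝ) ^ 2) :=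
                mul_le_mul_of_nonneg_left h4 (by positivity)
            _ = 3 / 1000 * i ^ 2 * (l : ℝ) ^ 2 := by ring
        have h6 : i ^ 2 * (40 * l) ≤ 12 / 100 * i * (l : ℝ) ^ 2 := by
          calc i ^ 2 * (40 * l) = 40 * (i * l) * i := by ring
            _ ≤ 40 * (i * l) * (3 / 1000 * l) := mul_le_mul_of_nonneg_left hil (by positivity)
            _ = 12 / 100 * i * (l : ℝ) ^ 2 := by ring
        have h7 : (3 / 1000 * i ^ 2 + 12 / 100 * i) * (l : ℝ) ^ 2 ≤
            (3 / 1000 * i ^ 2 + 12 / 100 * i) * N :=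
          mul_le_mul_of_nonneg_left hN1 (by positivity)
        linarith
      have h8 : 69 / 100 * (3 / 4 * i ^ 2) ≤ w * log 2 := by
        calc 69 / 100 * (3 / 4 * i ^ 2) ≤ log 2 * w :=
              mul_le_mul hlog hw1 (by positivity) (by linarith)
          _ = w * log 2 := by ring
      have h9 : X ^ 2 ≤ (26 / 100 * (i + 2)) ^ 2 := pow_le_pow_left₀ hX0 hX1 2
      have h10 : (w : ℝ) * (log 2 - (w + 2 * v + 40 * l) / N) =
          w * log 2 - w * ((w + 2 * v + 40 * l) / N) := by ring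
      rw [h10]
      nlinarith
    calc (N.choose K : ℝ) * (1 + max y 0 / l) ≤ (N.choose K : ℝ) * exp (2 * X) :=
          mul_le_mul_of_nonneg_left hlin hC0
      _ ≤ (N.choose K : ℝ) * exp ((50 * i + 50 - i ^ 2 / 5) +
        (w * (log 2 - (w + 2 * v + 40 * l) / N) + -(41 / 10 * (20 * X + X ^ 2)))) :=
          mul_le_mul_of_nonneg_left (exp_le_exp.2 hexp) hC0
      _ = exp (50 * i + 50 - i ^ 2 / 5) * (exp (w * (log 2 - (w + 2 * v + 40 * l) / N)) *
          (exp (-(41 / 10 * (20 * X + X ^ 2))) * (N.choose K : ℝ))) := by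
          rw [exp_add, exp_add]
          ring
      _ ≤ exp (50 * i + 50 - i ^ 2 / 5) * ((((N : ℝ) + w) / ((N : ℝ) + w - (K - v))) ^ w *
          (N.choose (K - v) : ℝ)) := by
          apply mul_le_mul_of_nonneg_left _ (exp_pos _).le
          exact mul_le_mul hpow hleft2 (by positivity) (le_trans (exp_pos _).le hpow)
      _ ≤ exp (50 * i + 50 - i ^ 2 / 5) * ((N + w).choose (K - v) : ℝ) :=
          mul_le_mul_of_nonneg_left hadd (exp_pos _).le
  · -- case B
    have hy0 : 0 < y := by linarith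
    have hpow := WSh1_pow (N := (N : ℝ)) (w := (w : ℝ)) (a := (K : ℝ) - v)
      (D := w) w rfl hN0 hw0 hw0 (by linarith) (by nlinarith)
    have hgain := choose_left_gain (N := N) (K := K) (v := v) hK (by
      rw [← hy]
      linarith)
    rw [← hy] at hgain
    have hlin : 1 + max y 0 / l ≤ exp (1 + y / (2 * l)) := by
      rw [max_eq_left hy0.le]
      have h1 : 1 + y / (2 * l) + 1 ≤ exp (1 + y / (2 * l)) := add_one_le_exp _
      have h2 : y / (2 * l) = y / l / 2 := by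
        field_simp
      have h3 : 0 ≤ y / l := by positivity
      have h4 : y / (2 * l) + 1 ≤ exp (y / (2 * l)) := add_one_le_exp _
      have h5 : (2 : ℝ) ≤ exp 1 := by
        have := add_one_le_exp (1 : ℝ)
        linarith
      rw [exp_add]
      have h6 : 0 ≤ y / (2 * l) := by positivity
      calc 1 + y / l = 1 + 2 * (y / (2 * l)) := by rw [h2]; ring
        _ ≤ 2 * (y / (2 * l) + 1) := by linarith
        _ ≤ exp 1 * exp (y / (2 * l)) := mul_le_mul h5 h4 (by linarith) (by positivity)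
    have hg2 : y / (2 * l) ≤ 4 / (N + 1) * ((y - v) * v) := by
      have hNp : (0 : ℝ) < N + 1 := by linarith
      have h1 : 4 / ((N : ℝ) + 1) * ((y - v) * v) = 4 * ((y - v) * v) / (N + 1) := by ring
      rw [h1, div_le_div_iff₀ (by positivity) hNp]
      have h2 : y / 2 ≤ y - v := by linarith
      have h3 : y / 2 * (48 / 100 * l) ≤ (y - v) * v :=
        mul_le_mul h2 hv1 (by positivity) (by linarith)
      have h4 : y * (N + 1) ≤ y * (102 / 100 * (l : ℝ) ^ 2) :=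
        mul_le_mul_of_nonneg_left (by nlinarith) hy0.le
      have h5 : 4 * (y / 2 * (48 / 100 * l)) * (2 * l) ≤ 4 * ((y - v) * v) * (2 * l) :=
        mul_le_mul_of_nonneg_right (by linarith) (by positivity)
      have h6 : 4 * (y / 2 * (48 / 100 * l)) * (2 * l) = y * (192 / 100 * (l : ℝ) ^ 2) := by ring
      have h7 : 0 ≤ y * (l : ℝ) ^ 2 := by positivity
      nlinarith
    have hexp : 1 + y / (2 * l) ≤ (50 * i + 50 - i ^ 2 / 5) +
        (w * (log 2 - w / N) + 4 / (N + 1) * ((y - v) * v)) := by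
      have h8 : 69 / 100 * (3 / 4 * i ^ 2) ≤ w * log 2 := by
        calc 69 / 100 * (3 / 4 * i ^ 2) ≤ log 2 * w :=
              mul_le_mul hlog hw1 (by positivity) (by linarith)
          _ = w * log 2 := by ring
      have h10 : (w : ℝ) * (log 2 - w / N) = w * log 2 - w * w / N := by ring
      rw [h10]
      nlinarith
    calc (N.choose K : ℝ) * (1 + max y 0 / l) ≤ (N.choose K : ℝ) * exp (1 + y / (2 * l)) :=
          mul_le_mul_of_nonneg_left hlin hC0
      _ ≤ (N.choose K : ℝ) * exp ((50 * i + 50 - i ^ 2 / 5) +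
        (w * (log 2 - w / N) + 4 / (N + 1) * ((y - v) * v))) :=
          mul_le_mul_of_nonneg_left (exp_le_exp.2 hexp) hC0
      _ = exp (50 * i + 50 - i ^ 2 / 5) * (exp (w * (log 2 - w / N)) *
          (exp (4 / (N + 1) * ((y - v) * v)) * (N.choose K : ℝ))) := by
          rw [exp_add, exp_add]
          ring
      _ ≤ exp (50 * i + 50 - i ^ 2 / 5) * ((((N : ℝ) + w) / ((N : ℝ) + w - (K - v))) ^ w *
          (N.choose (K - v) : ℝ)) := by
          apply mul_le_mul_of_nonneg_left _ (exp_pos _).le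
          exact mul_le_mul hpow hgain (by positivity) (le_trans (exp_pos _).le hpow)
      _ ≤ exp (50 * i + 50 - i ^ 2 / 5) * ((N + w).choose (K - v) : ℝ) :=
          mul_le_mul_of_nonneg_left hadd (exp_pos _).le

/-- **Shift up** (S1). `i = n/2 - l ≥ 1`, `j = ⌈i/2⌉`. `N' = (l+j)(n-l-j) = N + w`, `w = j(2i - j) ≥ (3/4)i² - 1`; `K' = K - js`, `v = js ≤ 0.27 (i+2) l`.
`choose N' (K-v) ≥ ((N+w)/(N+w-K+v))^w choose N (K-v)` (`choose_addN_ge`), the base is `≥ 2 exp(-2.2 (v + 20 l + w)/N)`; and `choose N (K-v) ≥ exp(-(4.1/N)(20 l v + v²)) choose N K` (`choose_left_ge`; for `y ≤ 2v`), resp.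
for `y > 2v` the gain `exp((4/(N+1))(y-v)v) ≥ exp(y/(2l))` (`choose_left_gain`) which beats `1 + y/l` up to a constant. `multi_up`. Exponents: `0.75·log 2 = 0.519`, `4.1·(0.27)²·4·... ≤ 0.29 i²`, the rest is `≤ C i + 3 η i²`. -/
theorem shift_up : ∃ C η : ℝ, 0 < C ∧ 0 < η ∧ ∃ n0 : ℕ, ∀ n ≥ n0, ∀ l s k : ℕ,
    1 ≤ (n : ℝ) / 2 - l → (n : ℝ) / 2 - l ≤ η * n → s ≤ l → ((l : ℝ) - 2 * s) ^ 2 ≤ 11 * l →
    s * (l - s) ≤ k → -(20 * (l : ℝ)) ≤ y3 n l s k → y3 n l s k ≤ η * (n : ℝ) ^ 2 →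
    (q3 n l s k : ℝ) * (1 + max (y3 n l s k) 0 / l) ≤
      exp (C * ((n : ℝ) / 2 - l) + C - ((n : ℝ) / 2 - l) ^ 2 / 5) *
        q3 n (l + ⌈((n : ℝ) / 2 - l) / 2⌉₊) s k := by
  refine ⟨50, 1 / 1000, by norm_num, by norm_num, 20000, ?_⟩
  intro n hn l s k hi1 hi2 hsl hs hk hy1 hy2
  have hn' : (20000 : ℝ) ≤ n := by exact_mod_cast hn
  obtain ⟨i, hi⟩ : ∃ i : ℝ, i = (n : ℝ) / 2 - l := ⟨_, rfl⟩
  rw [← hi] at hi1 hi2 ⊢
  obtain ⟨j, hj⟩ : ∃ j : ℕ, j = ⌈i / 2⌉₊ := ⟨_, rfl⟩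
  rw [← hj]
  have hj1 : i / 2 ≤ j := by rw [hj]; exact Nat.le_ceil _
  have hj2 : (j : ℝ) < i / 2 + 1 := by rw [hj]; exact Nat.ceil_lt_add_one (by linarith)
  have hj0 : 1 ≤ j := by
    rw [hj]
    exact Nat.ceil_pos.2 (by linarith)
  have hj0' : (1 : ℝ) ≤ j := by exact_mod_cast hj0
  have hl1 : 499 / 1000 * (n : ℝ) ≤ l := by linarith
  have hl : (7000 : ℝ) ≤ l := by linarith
  have hl0 : (0 : ℝ) < l := by linarith
  have hil : i ≤ 3 / 1000 * l := by linarith
  -- s is about l / 2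
  have hsq : ((l : ℝ) - 2 * s) ^ 2 ≤ (4 / 100 * l) ^ 2 := by
    have e1 : (7000 : ℝ) * l ≤ l * l := mul_le_mul_of_nonneg_right hl hl0.le
    have e2 : (4 / 100 * (l : ℝ)) ^ 2 = 16 / 10000 * (l * l) := by ring
    linarith
  have habs := abs_le.1 (abs_le_of_sq_le_sq hsq (by positivity))
  have hs1 : 48 / 100 * (l : ℝ) ≤ s := by linarith [habs.2]
  have hs2 : (s : ℝ) ≤ 52 / 100 * l := by linarith [habs.1]
  -- natural numbers
  have hjt : 2 * l + j ≤ n := by
    have : ((2 * l + j : ℕ) : ℝ) ≤ n := by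
      push_cast
      linarith
    exact_mod_cast this
  obtain ⟨u, hu⟩ := Nat.exists_eq_add_of_le hjt
  have hur : (u : ℝ) = 2 * i - j := by
    have : (n : ℝ) = 2 * l + j + u := by exact_mod_cast hu
    linarith
  have hN : l * (n - l) = l * (l + j + u) := by
    congr 1
    omega
  have hN' : (l + j) * (n - (l + j)) = l * (n - l) + j * u := by
    rw [hN]
    have : n - (l + j) = l + u := by omega
    rw [this]
    ring
  have hss : s * (l + j - s) = s * (l - s) + j * s := by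
    obtain ⟨t, ht⟩ := Nat.exists_eq_add_of_le hsl
    have e1 : l + j - s = t + j := by omega
    have e2 : l - s = t := by omega
    rw [e1, e2]
    ring
  have hNr : ((l * (n - l) : ℕ) : ℝ) = (l : ℝ) * (n - l) := by
    rw [Nat.cast_mul, Nat.cast_sub (by omega)]
  have hnl : (n : ℝ) - l = l + 2 * i := by linarith
  have hN1 : (l : ℝ) ^ 2 ≤ ((l * (n - l) : ℕ) : ℝ) := by
    rw [hNr, hnl]
    have e1 : 0 ≤ (l : ℝ) * (2 * i) := by positivity
    have e2 : (l : ℝ) * (l + 2 * i) = (l : ℝ) ^ 2 + l * (2 * i) := by ring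
    linarith
  have hN2 : ((l * (n - l) : ℕ) : ℝ) ≤ 101 / 100 * (l : ℝ) ^ 2 := by
    rw [hNr, hnl]
    have e1 : (l : ℝ) * (2 * i) ≤ l * (1 / 100 * l) :=
      mul_le_mul_of_nonneg_left (by linarith) hl0.le
    have e2 : (l : ℝ) * (l + 2 * i) = (l : ℝ) ^ 2 + l * (2 * i) := by ring
    have e3 : (l : ℝ) * (1 / 100 * l) = 1 / 100 * (l : ℝ) ^ 2 := by ring
    linarith
  have hKr : ((k - s * (l - s) : ℕ) : ℝ) - ((l * (n - l) : ℕ) : ℝ) / 2 = y3 n l s k := by
    rw [Nat.cast_sub hk, hNr, Nat.cast_mul, Nat.cast_sub hsl]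
    unfold y3
    ring
  have hKN : k - s * (l - s) ≤ l * (n - l) := by
    have : ((k - s * (l - s) : ℕ) : ℝ) ≤ ((l * (n - l) : ℕ) : ℝ) := by
      have h1 : (n : ℝ) ^ 2 ≤ (3 * l) ^ 2 :=
        pow_le_pow_left₀ (by positivity) (by linarith) 2
      have h2 : (3 * (l : ℝ)) ^ 2 = 9 * (l : ℝ) ^ 2 := by ring
      linarith
    exact_mod_cast this
  have hw1 : 3 / 4 * i ^ 2 ≤ ((j * u : ℕ) : ℝ) := by
    rw [Nat.cast_mul, hur]
    have e1 : 0 ≤ ((j : ℝ) - i / 2) * (3 * i / 2 - j) :=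
      mul_nonneg (by linarith) (by linarith)
    have e2 : ((j : ℝ) - i / 2) * (3 * i / 2 - j) = j * (2 * i - j) - 3 / 4 * i ^ 2 := by ring
    linarith
  have hw2 : ((j * u : ℕ) : ℝ) ≤ i ^ 2 := by
    rw [Nat.cast_mul, hur]
    have e1 := sq_nonneg (i - (j : ℝ))
    have e2 : (i - (j : ℝ)) ^ 2 = i ^ 2 - j * (2 * i - j) := by ring
    linarith
  have hv1 : 48 / 100 * (l : ℝ) ≤ ((j * s : ℕ) : ℝ) := by
    rw [Nat.cast_mul]
    have e1 : 1 * (s : ℝ) ≤ j * s := mul_le_mul_of_nonneg_right hj0' (Nat.cast_nonneg _)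
    linarith
  have hv2 : ((j * s : ℕ) : ℝ) ≤ 26 / 100 * (i + 2) * l := by
    rw [Nat.cast_mul]
    calc (j : ℝ) * s ≤ (i / 2 + 1) * (52 / 100 * l) :=
          mul_le_mul hj2.le hs2 (Nat.cast_nonneg _) (by linarith)
      _ = 26 / 100 * (i + 2) * l := by ring
  have core := WSh1_core (N := l * (n - l)) (K := k - s * (l - s)) (w := j * u) (v := j * s)
    (l := l) (i := i) hl hN1 hN2 hw1 hw2 hv1 hv2 hi1 hil (by rw [hKr]; exact hy1) hKN
  rw [hKr] at core
  have hvK : s * (l + j - s) ≤ k := by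
    rw [hss]
    have h1 : ((j * s : ℕ) : ℝ) ≤ ((k - s * (l - s) : ℕ) : ℝ) := by
      have h2 : ((k - s * (l - s) : ℕ) : ℝ) = ((l * (n - l) : ℕ) : ℝ) / 2 + y3 n l s k := by
        linarith
      rw [h2]
      have h3 : (i + 2) * l ≤ 4 / 1000 * (l : ℝ) ^ 2 := by
        calc (i + 2) * (l : ℝ) ≤ (4 / 1000 * l) * l :=
              mul_le_mul_of_nonneg_right (by linarith) hl0.le
          _ = 4 / 1000 * (l : ℝ) ^ 2 := by ring
      have h5 : 20 * (l : ℝ) ≤ 3 / 1000 * (l : ℝ) ^ 2 := by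
        calc 20 * (l : ℝ) ≤ (3 / 1000 * l) * l :=
              mul_le_mul_of_nonneg_right (by linarith) hl0.le
          _ = 3 / 1000 * (l : ℝ) ^ 2 := by ring
      have h6 : 0 ≤ (l : ℝ) ^ 2 := by positivity
      linarith
    have h4 : j * s ≤ k - s * (l - s) := by exact_mod_cast h1
    omega
  have hq1 : q3 n l s k = n.choose l * l.choose s * (l * (n - l)).choose (k - s * (l - s)) := by
    unfold q3 chz
    rw [if_pos hk]
  have hq2 : q3 n (l + j) s k = n.choose (l + j) * (l + j).choose s *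
      (l * (n - l) + j * u).choose (k - s * (l - s) - j * s) := by
    unfold q3 chz
    rw [if_pos hvK, hN', hss, Nat.sub_sub]
  have hmul : n.choose l * l.choose s ≤ n.choose (l + j) * (l + j).choose s := by
    apply multi_up hsl _ (by omega)
    have h1 : ((l - s + j : ℕ) : ℝ) ≤ ((n - l - j + 1 : ℕ) : ℝ) := by
      have h2 : n - l - j = l + u := by omega
      rw [h2, Nat.cast_add, Nat.cast_sub hsl]
      push_cast
      have h3 : (0 : ℝ) ≤ u := Nat.cast_nonneg u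
      linarith
    exact_mod_cast h1
  have hmul' : ((n.choose l * l.choose s : ℕ) : ℝ) ≤
      ((n.choose (l + j) * (l + j).choose s : ℕ) : ℝ) := by exact_mod_cast hmul
  rw [hq1, hq2]
  calc ((n.choose l * l.choose s * (l * (n - l)).choose (k - s * (l - s)) : ℕ) : ℝ) *
        (1 + max (y3 n l s k) 0 / l)
      = ((n.choose l * l.choose s : ℕ) : ℝ) *
        (((l * (n - l)).choose (k - s * (l - s)) : ℝ) * (1 + max (y3 n l s k) 0 / l)) := by
        push_cast
        ring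
    _ ≤ ((n.choose (l + j) * (l + j).choose s : ℕ) : ℝ) * (exp (50 * i + 50 - i ^ 2 / 5) *
        ((l * (n - l) + j * u).choose (k - s * (l - s) - j * s) : ℝ)) := by
        apply mul_le_mul hmul' core _ (Nat.cast_nonneg _)
        have : 0 ≤ max (y3 n l s k) 0 := le_max_right _ _
        positivity
    _ = _ := by
        push_cast
        ring

end Pool.Agent.H.MP_82502e_co
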