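import Pool.Agent.H.MP_82502e_co.WZa
import Pool.Agent.H.MP_82502e_co.WSh1
import Pool.Agent.H.MP_82502e_co.WSt
import Pool.Agent.H.MP_82502e_co.WFour2
import Pool.Agent.H.MP_82502e_co.WFam2

set_option autoImplicit false

/-!
# The window: zone 1
-/

namespace Pool.Agent.H.MP_82502e_co

open Finset Real

/-- exponentially small is smaller than `1 / (B n)` -/
theorem WZ1_exp {c B : ℝ} (hc : 0 < c) (hB : 0 < B) : ∃ n0 : ℕ, 1 ≤ n0 ∧ ∀ n ≥ n0,
    exp (-(c * (n : ℝ))) ≤ 1 / (B * n) := by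
  obtain ⟨n0, hn0⟩ := exists_nat_ge (2 * B / c ^ 2 + 1)
  refine ⟨n0 + 1, by omega, fun n hn => ?_⟩
  have h0 : 0 ≤ 2 * B / c ^ 2 := by positivity
  have h1 : (n0 : ℝ) ≤ n := by
    have : n0 ≤ n := by omega
    exact_mod_cast this
  have h2 : 2 * B / c ^ 2 ≤ n := by linarith
  have hn1 : (0 : ℝ) < n := by linarith
  have h3 : 2 * B ≤ n * c ^ 2 := by
    rwa [div_le_iff₀ (by positivity)] at h2
  rw [exp_neg, ← one_div]
  apply one_div_le_one_div_of_le (by positivity)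
  have h4 := Real.quadratic_le_exp_of_nonneg (x := c * n) (by positivity)
  have h5 : B * n ≤ (c * n) ^ 2 / 2 := by
    have h50 : 2 * B * n ≤ n * c ^ 2 * n := mul_le_mul_of_nonneg_right h3 hn1.le
    have h51 : (c * n) ^ 2 = n * c ^ 2 * n := by ring
    rw [h51]
    linarith
  have h6 : 0 < c * n := by positivity
  linarith

/-- `q3` vanishes if `s (l - s) > k`. -/
theorem WZ1_q3_zero {n l s k : ℕ} (h : ¬ s * (l - s) ≤ k) : q3 n l s k = 0 := by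
  unfold q3 chz
  rw [if_neg h, mul_zero]

/-- `F3l ≤ F3`. -/
theorem WZ1_F3l_le {n l k : ℕ} (h : l < n) : F3l n l k ≤ F3 n k := by
  unfold F3
  exact single_le_sum (f := fun l => F3l n l k) (fun _ _ => Nat.zero_le _) (mem_range.2 h)

/-- The position of a term with `y3 > -8l` left of the peak. -/
theorem WZ1_pos {n l s k : ℕ} {T : ℝ} (hT : 10 ≤ T) (hn : 1 ≤ n)
    (hk : (k : ℝ) ≤ 3 / 16 * (n : ℝ) ^ 2 - T * n)
    (hl : |(l : ℝ) - (n : ℝ) / 2| ≤ (n : ℝ) / 1000)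
    (hs : ((l : ℝ) - 2 * s) ^ 2 ≤ 11 * l) (hy : -(8 * (l : ℝ)) < y3 n l s k) :
    T ≤ (n : ℝ) / 2 - l := by
  rw [y3_eq] at hy
  obtain ⟨h1, h2⟩ := abs_le.1 hl
  have hn1 : (1 : ℝ) ≤ n := by exact_mod_cast hn
  by_contra hcon
  push Not at hcon
  obtain ⟨i, hi⟩ : ∃ i : ℝ, i = (n : ℝ) / 2 - l := ⟨_, rfl⟩
  rw [← hi] at hy hcon
  have hl' : (l : ℝ) = n / 2 - i := by linarith
  have e1 : i * n / 4 + i ^ 2 / 4 = i / 4 * (n + i) := by ring
  have h3 : (T - 5.4) * n < i / 4 * (n + i) := by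
    rw [← e1]
    linarith
  have h4 : 0 < (n : ℝ) + i := by linarith
  have hTn : 10 * (n : ℝ) ≤ T * n := mul_le_mul_of_nonneg_right hT (by linarith)
  rcases le_or_gt i 0 with h | h
  · have : i / 4 * (n + i) ≤ 0 := mul_nonpos_of_nonpos_of_nonneg (by linarith) h4.le
    linarith
  · have h5 : i / 4 * (n + i) ≤ T / 4 * (n + n / 1000) := by
      apply mul_le_mul (by linarith) (by linarith) h4.le (by linarith)
    linarith

/-- The geometric sum. -/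
theorem WZ1_geom (M : ℕ) : ∑ l ∈ range (M + 1), (1 / (2 : ℝ)) ^ (M - l) ≤ 2 := by
  have h := Finset.sum_range_reflect (fun j => (1 / (2 : ℝ)) ^ j) (M + 1)
  have h2 : ∑ l ∈ range (M + 1), (1 / (2 : ℝ)) ^ (M - l) =
      ∑ j ∈ range (M + 1), (1 / (2 : ℝ)) ^ (M + 1 - 1 - j) := rfl
  rw [h2, h]
  exact sum_geometric_two_le _

theorem WZ1_exp_half {x : ℝ} {m : ℕ} (h : (m : ℝ) ≤ x) : exp (-x) ≤ (1 / (2 : ℝ)) ^ m := by
  have h1 : exp (-x) ≤ exp (-(m : ℝ)) := exp_le_exp.2 (by linarith)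
  have h2 : exp (-(m : ℝ)) = exp (-1) ^ m := by
    rw [← exp_nat_mul]
    congr 1
    ring
  have h3 : exp (-1) ≤ 1 / 2 := by
    rw [exp_neg, ← one_div]
    apply one_div_le_one_div_of_le (by norm_num)
    have := Real.add_one_le_exp (1 : ℝ)
    linarith
  rw [h2] at h1
  exact h1.trans (pow_le_pow_left₀ (exp_pos _).le h3 m)

/-- The error of one `l`. -/
theorem WZ1_err {C η A : ℝ} (hη : 0 < η) {n : ℕ}
    (hsh : ∀ l s k : ℕ,
      1 ≤ (n : ℝ) / 2 - l → (n : ℝ) / 2 - l ≤ η * n → s ≤ l → ((l : ℝ) - 2 * s) ^ 2 ≤ 11 * l →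
      s * (l - s) ≤ k → -(20 * (l : ℝ)) ≤ y3 n l s k → y3 n l s k ≤ η * (n : ℝ) ^ 2 →
      (q3 n l s k : ℝ) * (1 + max (y3 n l s k) 0 / l) ≤
        exp (C * ((n : ℝ) / 2 - l) + C - ((n : ℝ) / 2 - l) ^ 2 / 5) *
          q3 n (l + ⌈((n : ℝ) / 2 - l) / 2⌉₊) s k)
    {I0 T : ℝ} (hI0 : ∀ i : ℝ, I0 ≤ i → C * i + C - i ^ 2 / 5 ≤ -A - i)
    (hIT : I0 ≤ T) (hT : 10 ≤ T) (hn : 1 ≤ n) (hn2 : 6 / η ≤ n) {k l : ℕ}
    (hk : (k : ℝ) ≤ 3 / 16 * (n : ℝ) ^ 2 - T * n)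
    (hl : |(l : ℝ) - (n : ℝ) / 2| ≤ (n : ℝ) / 1000) (hl2 : |(l : ℝ) - (n : ℝ) / 2| ≤ η * n) :
    ∑ s ∈ (range l).filter (fun s : ℕ =>
        ((l : ℝ) - 2 * s) ^ 2 ≤ 11 * l ∧ -(8 * (l : ℝ)) < y3 n l s k),
      (q3 n l s k : ℝ) * (1 + max (y3 n l s k) 0 / l) ≤
      if l ≤ n / 2 then exp (-A) * (1 / (2 : ℝ)) ^ (n / 2 - l) * F3 n k else 0 := by
  have hn1 : (1 : ℝ) ≤ n := by exact_mod_cast hn
  obtain ⟨h1, h2⟩ := abs_le.1 hl
  obtain ⟨h1', h2'⟩ := abs_le.1 hl2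
  by_cases hemp : ((range l).filter (fun s : ℕ =>
        ((l : ℝ) - 2 * s) ^ 2 ≤ 11 * l ∧ -(8 * (l : ℝ)) < y3 n l s k)) = ∅
  · rw [hemp, sum_empty]
    split_ifs
    · positivity
    · exact le_rfl
  obtain ⟨s0, hs0⟩ := Finset.nonempty_iff_ne_empty.2 hemp
  rw [mem_filter] at hs0
  have hi := WZ1_pos hT hn hk hl hs0.2.1 hs0.2.2
  obtain ⟨i, hi'⟩ : ∃ i : ℝ, i = (n : ℝ) / 2 - l := ⟨_, rfl⟩
  rw [← hi'] at hi
  have hln : (l : ℝ) ≤ n := by linarith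
  have hlM : l ≤ n / 2 := by
    have h3 : (l : ℝ) * 2 ≤ n := by linarith
    have h4 : l * 2 ≤ n := by exact_mod_cast h3
    omega
  rw [if_pos hlM]
  have hceil : l + ⌈i / 2⌉₊ < n := by
    have h3 := Nat.ceil_lt_add_one (a := i / 2) (by linarith)
    have h4 : ((l + ⌈i / 2⌉₊ : ℕ) : ℝ) < n := by
      push_cast
      linarith
    exact_mod_cast h4
  have key : ∀ s ∈ (range l).filter (fun s : ℕ =>
        ((l : ℝ) - 2 * s) ^ 2 ≤ 11 * l ∧ -(8 * (l : ℝ)) < y3 n l s k),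
      (q3 n l s k : ℝ) * (1 + max (y3 n l s k) 0 / l) ≤
        exp (C * i + C - i ^ 2 / 5) * q3 n (l + ⌈i / 2⌉₊) s k := by
    intro s hs
    rw [mem_filter, mem_range] at hs
    obtain ⟨hs1, hs2, hs3⟩ := hs
    by_cases hsk : s * (l - s) ≤ k
    · have h3 := hsh l s k (by rw [← hi']; linarith) (by rw [← hi']; linarith) hs1.le hs2 hsk
        (by have : (0 : ℝ) ≤ l := Nat.cast_nonneg l
            linarith) ?_
      · rw [← hi'] at h3
        exact h3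
      · rw [y3_eq, ← hi']
        have h4 : i ≤ η * n := by linarith
        have h4' : i ≤ n / 1000 := by linarith
        have h5 : 6 ≤ η * n := by
          rw [div_le_iff₀ hη] at hn2
          linarith
        have h6 : i * n / 4 ≤ η * n * n / 4 := by
          have := mul_le_mul_of_nonneg_right h4 (by linarith : (0 : ℝ) ≤ n)
          linarith
        have h7 : i ^ 2 / 4 ≤ η * n * n / 4000 := by
          have h8 : i * i ≤ η * n * (n / 1000) :=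
            mul_le_mul h4 h4' (by linarith) (by positivity)
          rw [pow_two]
          linarith
        have h8 : 11 * (l : ℝ) / 4 ≤ η * n * n / 2 := by
          have : 6 * (n : ℝ) ≤ η * n * n := mul_le_mul_of_nonneg_right h5 (by linarith)
          linarith
        have h9 : 0 ≤ T * n := by positivity
        have h10 : 0 ≤ η * n * n := by positivity
        linarith
    · rw [WZ1_q3_zero hsk, Nat.cast_zero, zero_mul]
      positivity
  refine (sum_le_sum key).trans ?_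
  rw [← mul_sum]
  have h3 : (∑ s ∈ (range l).filter (fun s : ℕ =>
        ((l : ℝ) - 2 * s) ^ 2 ≤ 11 * l ∧ -(8 * (l : ℝ)) < y3 n l s k),
        (q3 n (l + ⌈i / 2⌉₊) s k : ℝ)) ≤ F3 n k := by
    have h4 : (∑ s ∈ (range l).filter (fun s : ℕ =>
        ((l : ℝ) - 2 * s) ^ 2 ≤ 11 * l ∧ -(8 * (l : ℝ)) < y3 n l s k),
        (q3 n (l + ⌈i / 2⌉₊) s k : ℝ)) ≤ ∑ s ∈ range (l + ⌈i / 2⌉₊),
        (q3 n (l + ⌈i / 2⌉₊) s k : ℝ) := by
      apply sum_le_sum_of_subset_of_nonneg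
      · intro s hs
        rw [mem_filter, mem_range] at hs
        rw [mem_range]
        omega
      · intro s _ _
        positivity
    have h5 : (∑ s ∈ range (l + ⌈i / 2⌉₊), (q3 n (l + ⌈i / 2⌉₊) s k : ℝ)) =
        ((F3l n (l + ⌈i / 2⌉₊) k : ℕ) : ℝ) := by
      unfold F3l
      push_cast
      rfl
    rw [h5] at h4
    exact h4.trans (by exact_mod_cast WZ1_F3l_le hceil)
  have h4 : exp (C * i + C - i ^ 2 / 5) ≤ exp (-A) * (1 / (2 : ℝ)) ^ (n / 2 - l) := by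
    have h5 := hI0 i (hIT.trans hi)
    have h6 : exp (C * i + C - i ^ 2 / 5) ≤ exp (-A) * exp (-i) := by
      rw [← exp_add]
      exact exp_le_exp.2 (by linarith)
    refine h6.trans (mul_le_mul_of_nonneg_left (WZ1_exp_half ?_) (exp_pos _).le)
    rw [Nat.cast_sub hlM, hi']
    have h7 : (((n / 2 : ℕ) : ℝ)) ≤ n / 2 := Nat.cast_div_le
    linarith
  calc exp (C * i + C - i ^ 2 / 5) * _ ≤ exp (C * i + C - i ^ 2 / 5) * F3 n k :=
        mul_le_mul_of_nonneg_left h3 (exp_pos _).le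
    _ ≤ exp (-A) * (1 / (2 : ℝ)) ^ (n / 2 - l) * F3 n k :=
        mul_le_mul_of_nonneg_right h4 (Nat.cast_nonneg _)

/-- Sum of the error bounds. -/
theorem WZ1_err_sum {A : ℝ} {n : ℕ} (X : ℝ) (hX : 0 ≤ X) (S : Finset ℕ) :
    ∑ l ∈ S, (if l ≤ n / 2 then exp (-A) * (1 / (2 : ℝ)) ^ (n / 2 - l) * X else 0) ≤
      2 * exp (-A) * X := by
  rw [← sum_filter]
  have h1 : ∑ l ∈ S.filter (fun l => l ≤ n / 2), exp (-A) * (1 / (2 : ℝ)) ^ (n / 2 - l) * X ≤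
      ∑ l ∈ range (n / 2 + 1), exp (-A) * (1 / (2 : ℝ)) ^ (n / 2 - l) * X := by
    apply sum_le_sum_of_subset_of_nonneg
    · intro l hl
      rw [mem_filter] at hl
      rw [mem_range]
      omega
    · intro l _ _
      positivity
  refine h1.trans ?_
  rw [← sum_mul, ← mul_sum]
  have h2 := WZ1_geom (n / 2)
  have h3 : exp (-A) * ∑ l ∈ range (n / 2 + 1), (1 / (2 : ℝ)) ^ (n / 2 - l) ≤ exp (-A) * 2 :=
    mul_le_mul_of_nonneg_left h2 (exp_pos _).le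
  have h4 := mul_le_mul_of_nonneg_right h3 hX
  linarith

/-- **Zone 1**: between `(1/8+ε0) n²` and the peak. `stein` for every `l` with `|l - n/2| ≤ η n`: `F3 n (k+1) - F3 n k ≥ (0.3/n) F3 - (C/n) Σ_l Σ_{s: (l-2s)² ≤ 11 l, y3 > -8l} q3 (1 + max(y3,0)/l) - negligible`. In the error terms
`(k - 3n²/16) + i n/4 + i²/4 > -11 l`, so `i = n/2 - l ≥ T` if `T ≥ T0` (units `n`: `k ≤ 3n²/16 - T n`), `y3 ≤ η n²`: `shift_up` bounds the error by `(C/n) Σ_{i ≥ T} exp(Ci + C - i²/5) F3 ≤ (0.1/n) F3`. `F4_le` at `k` and `k+1`. -/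
theorem zone1 : ∃ T0 : ℝ, 0 < T0 ∧ ∀ T ≥ T0, ∀ ε0 : ℝ, 0 < ε0 → ∃ n0 : ℕ, ∀ n ≥ n0, ∀ k : ℕ,
    (1 / 8 + ε0) * (n : ℝ) ^ 2 ≤ k → (k : ℝ) ≤ 3 / 16 * (n : ℝ) ^ 2 - T * n →
    (1 + 1 / (n : ℝ) ^ 3) * (Fs n k : ℝ) ≤ Fs n (k + 1) := by
  obtain ⟨Cs, hCs, ns, hstein⟩ := stein
  obtain ⟨C, η1, hC, hη1, nh, hshift⟩ := shift_up
  -- the constant A
  obtain ⟨A, hA0, hA⟩ : ∃ A : ℝ, 0 ≤ A ∧ 50 * Cs * exp (-A) ≤ 1 := by
    refine ⟨50 * Cs, by positivity, ?_⟩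
    rw [exp_neg, ← div_eq_mul_inv, div_le_one (exp_pos _)]
    have := Real.add_one_le_exp (50 * Cs)
    linarith
  obtain ⟨I0, hI0, hI1⟩ : ∃ I0 : ℝ, (∀ i : ℝ, I0 ≤ i → C * i + C - i ^ 2 / 5 ≤ -A - i) ∧
      2 ≤ I0 := by
    refine ⟨5 * (2 * C + A + 1) + 2, fun i hi => ?_, by linarith⟩
    have h1 : 1 ≤ i := by linarith
    have h2 : 5 * (2 * C + A + 1) * i ≤ i ^ 2 := by
      rw [pow_two]
      exact mul_le_mul_of_nonneg_right (by linarith) (by linarith)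
    have h3 : C ≤ C * i := le_mul_of_one_le_right hC.le h1
    have h4 : A ≤ A * i := le_mul_of_one_le_right hA0 h1
    have h5 : 5 * (2 * C + A + 1) * i = 10 * (C * i) + 5 * (A * i) + 5 * i := by ring
    linarith
  refine ⟨I0 + 10, by linarith, fun T hT ε0 hε0 => ?_⟩
  obtain ⟨η, hη, hηa, hηb⟩ : ∃ η : ℝ, 0 < η ∧ η ≤ η1 ∧ η ≤ 1 / 1000 :=
    ⟨min η1 (1 / 1000), by positivity, min_le_left _ _, min_le_right _ _⟩
  obtain ⟨δ1, hδ1, c1, hc1, n1, hfar⟩ := F3l_far hη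
  obtain ⟨δ2, hδ2, c2, hc2, n2, hF4⟩ := F4_le hε0
  obtain ⟨m1, hm1, hexp1⟩ := WZ1_exp hc1 (B := 100) (by norm_num)
  obtain ⟨m2, hm2, hexp2⟩ := WZ1_exp hc2 (B := 100) (by norm_num)
  obtain ⟨m3, hm3⟩ := exists_nat_ge (6 / η1)
  refine ⟨ns + nh + n1 + n2 + m1 + m2 + m3 + 10, fun n hn k hk1 hk2 => ?_⟩
  have hn10 : 10 ≤ n := by omega
  have hn1 : 1 ≤ n := by omega
  have hnr : (10 : ℝ) ≤ n := by exact_mod_cast hn10
  have hn0 : (0 : ℝ) < n := by linarith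
  have hT10 : 10 ≤ T := by linarith
  have hTI : I0 ≤ T := by linarith
  have hTn : 0 ≤ T * n := by positivity
  have hw1 : ∀ δ : ℝ, 0 < δ → Win δ n k := by
    intro δ hδ
    refine ⟨?_, ?_⟩
    · linarith [mul_pos hδ (pow_pos hn0 2), mul_pos hε0 (pow_pos hn0 2)]
    · linarith [mul_pos hδ (pow_pos hn0 2)]
  have hm3' : 6 / η1 ≤ n := by
    have h3 : ((m3 : ℕ) : ℝ) ≤ n := by
      have : m3 ≤ n := by omega
      exact_mod_cast this
    linarith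
  have hX : (0 : ℝ) ≤ F3 n k := Nat.cast_nonneg _
  -- far terms
  have hfar' := hfar n (by omega) k (hw1 δ1 hδ1)
  have he1 : exp (-(c1 * (n : ℝ) ^ 2)) ≤ 1 / (100 * n) := by
    refine (exp_le_exp.2 ?_).trans (hexp1 n (by omega))
    have h0 : (n : ℝ) ≤ (n : ℝ) ^ 2 := by
      rw [pow_two]
      exact le_mul_of_one_le_left hn0.le (by linarith)
    have := mul_le_mul_of_nonneg_left h0 hc1.le
    linarith
  have he2 : exp (-(c2 * (n : ℝ))) ≤ 1 / (100 * n) := hexp2 n (by omega)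
  have hF4' := hF4 n (by omega) k (hw1 δ2 hδ2) hk1
  set near := (range n).filter (fun l : ℕ => ¬ η * n < |(l : ℝ) - (n : ℝ) / 2|) with hnear
  set far := (range n).filter (fun l : ℕ => η * n < |(l : ℝ) - (n : ℝ) / 2|) with hfardef
  have hsplit : ∀ f : ℕ → ℝ, ∑ l ∈ range n, f l = ∑ l ∈ far, f l + ∑ l ∈ near, f l := by
    intro f
    exact (Finset.sum_filter_add_sum_filter_not (range n) _ f).symm
  have hF3 : ∀ k' : ℕ, (F3 n k' : ℝ) = ∑ l ∈ far, (F3l n l k' : ℝ) + ∑ l ∈ near, (F3l n l k' : ℝ) := by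
    intro k'
    rw [← hsplit]
    unfold F3
    push_cast
    rfl
  have hfarsum : ∑ l ∈ far, (F3l n l k : ℝ) ≤ 1 / (100 * n) * F3 n k := by
    refine le_trans (sum_le_sum fun l _ => ?_)
      (hfar'.trans (mul_le_mul_of_nonneg_right he1 hX))
    have : (0 : ℝ) ≤ F3l n l (k + 1) := Nat.cast_nonneg _
    linarith
  have hfar0 : 0 ≤ ∑ l ∈ far, (F3l n l (k + 1) : ℝ) := sum_nonneg fun l _ => Nat.cast_nonneg _
  -- near terms
  have hnearterm : ∀ l ∈ near, 59 / 100 / (n : ℝ) * F3l n l k - 21 / 10 * Cs / n *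
      (if l ≤ n / 2 then exp (-A) * (1 / (2 : ℝ)) ^ (n / 2 - l) * F3 n k else 0) ≤
      (F3l n l (k + 1) : ℝ) - F3l n l k := by
    intro l hl
    rw [hnear, mem_filter, mem_range, not_lt] at hl
    obtain ⟨hl1, hl2⟩ := hl
    have hl3 : |(l : ℝ) - (n : ℝ) / 2| ≤ (n : ℝ) / 1000 := by
      refine hl2.trans ?_
      have := mul_le_mul_of_nonneg_right hηb hn0.le
      linarith
    have hl4 : |(l : ℝ) - (n : ℝ) / 2| ≤ η1 * n :=
      hl2.trans (mul_le_mul_of_nonneg_right hηa hn0.le)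
    have h3 := hstein n (by omega) k (hw1 _ (by norm_num)) l hl3
    have h4 := WZ1_err hη1 (fun l s k => hshift n (by omega) l s k) hI0 hTI hT10 hn1 hm3'
      hk2 hl3 hl4
    obtain ⟨h5, h6⟩ := abs_le.1 hl3
    have hlpos : (0 : ℝ) < l := by linarith
    have h7 : 59 / 100 / (n : ℝ) ≤ 3 / 10 / (l : ℝ) := by
      rw [div_le_div_iff₀ hn0 hlpos]
      linarith
    have h8 : Cs / (l : ℝ) ≤ 21 / 10 * Cs / n := by
      rw [div_le_div_iff₀ hlpos hn0]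
      have h80 : (n : ℝ) ≤ 21 / 10 * l := by linarith
      have := mul_le_mul_of_nonneg_left h80 hCs.le
      linarith
    have h9 : (0 : ℝ) ≤ if l ≤ n / 2 then exp (-A) * (1 / (2 : ℝ)) ^ (n / 2 - l) * F3 n k else 0 := by
      split_ifs
      · positivity
      · exact le_rfl
    have h10 := mul_le_mul_of_nonneg_right h7 (Nat.cast_nonneg (F3l n l k) : (0 : ℝ) ≤ _)
    have h11 := mul_le_mul_of_nonneg_left h4 (by positivity : (0 : ℝ) ≤ Cs / l)
    have h12 := mul_le_mul_of_nonneg_right h8 h9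
    linarith
  have hnearsum := sum_le_sum hnearterm
  rw [sum_sub_distrib, sum_sub_distrib, ← mul_sum, ← mul_sum] at hnearsum
  have herr := WZ1_err_sum (A := A) (n := n) (F3 n k : ℝ) hX near
  have h1 := hF3 k
  have h2 := hF3 (k + 1)
  have h3 : 21 / 10 * Cs / n *
      ∑ l ∈ near, (if l ≤ n / 2 then exp (-A) * (1 / (2 : ℝ)) ^ (n / 2 - l) * F3 n k else 0) ≤
      9 / 100 / n * F3 n k := by
    have h4 := mul_le_mul_of_nonneg_left herr (by positivity : (0 : ℝ) ≤ 21 / 10 * Cs / n)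
    refine h4.trans ?_
    have h5 : 21 / 10 * Cs / n * (2 * exp (-A) * F3 n k) =
        (42 / 10 * (Cs * exp (-A))) * (1 / n * F3 n k) := by
      field_simp
      ring
    have h6 : 9 / 100 / n * (F3 n k : ℝ) = 9 / 100 * (1 / n * F3 n k) := by
      field_simp
    rw [h5, h6]
    apply mul_le_mul_of_nonneg_right _ (by positivity)
    linarith
  -- F3
  have hD3 : (1 + 4 / 10 / (n : ℝ)) * F3 n k ≤ F3 n (k + 1) := by
    have h4 : 59 / 100 / (n : ℝ) * (∑ l ∈ near, (F3l n l k : ℝ)) ≥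
        59 / 100 / (n : ℝ) * (F3 n k - 1 / (100 * n) * F3 n k) :=
      mul_le_mul_of_nonneg_left (by linarith) (by positivity)
    have h5 : 59 / 100 / (n : ℝ) * (F3 n k - 1 / (100 * n) * F3 n k) ≥
        58 / 100 / (n : ℝ) * F3 n k := by
      have e1 : 59 / 100 / (n : ℝ) * (F3 n k - 1 / (100 * n) * F3 n k) -
          58 / 100 / (n : ℝ) * F3 n k = (1 / 100 - 59 / 10000 / n) * (1 / n * F3 n k) := by
        field_simp
        ring
      have e2 : (0 : ℝ) ≤ 1 / 100 - 59 / 10000 / n := by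
        rw [sub_nonneg, div_le_iff₀ hn0]
        linarith
      have e3 := mul_nonneg e2 (by positivity : (0 : ℝ) ≤ 1 / n * F3 n k)
      linarith
    have h6 : 1 / (100 * (n : ℝ)) * F3 n k = 1 / 100 / n * F3 n k := by
      field_simp
    have h7 : (1 + 4 / 10 / (n : ℝ)) * F3 n k = F3 n k + 58 / 100 / (n : ℝ) * F3 n k -
        9 / 100 / n * F3 n k - 9 / 100 / n * F3 n k := by
      field_simp
      ring
    have h8 : 1 / 100 / (n : ℝ) * F3 n k ≤ 9 / 100 / n * F3 n k := by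
      apply mul_le_mul_of_nonneg_right _ hX
      gcongr
      norm_num
    linarith
  -- end
  have hFs : (Fs n k : ℝ) = F3 n k + F4 n k := by exact_mod_cast Fs_split n k
  have hFs1 : (F3 n (k + 1) : ℝ) ≤ Fs n (k + 1) := by
    have : F3 n (k + 1) ≤ Fs n (k + 1) := by
      rw [Fs_split]
      omega
    exact_mod_cast this
  refine le_trans ?_ (hD3.trans hFs1)
  rw [hFs]
  have h4 : (F3 n k : ℝ) + F4 n k ≤ (1 + 1 / (100 * n)) * F3 n k := by
    have := hF4'.trans (mul_le_mul_of_nonneg_right he2 hX)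
    linarith
  have h5 : (0 : ℝ) ≤ 1 + 1 / (n : ℝ) ^ 3 := by positivity
  refine (mul_le_mul_of_nonneg_left h4 h5).trans ?_
  rw [← mul_assoc]
  apply mul_le_mul_of_nonneg_right _ hX
  have h6 : 1 / (n : ℝ) ^ 3 ≤ 1 / 100 / n := by
    rw [div_div, div_le_div_iff₀ (by positivity) (by positivity)]
    have h60 : (10 : ℝ) * 10 ≤ n * n := mul_le_mul hnr hnr (by norm_num) hn0.le
    have h61 := mul_le_mul_of_nonneg_right h60 hn0.le
    have h62 : (n : ℝ) ^ 3 = n * n * n := by ring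
    linarith
  have h7 : 1 / (100 * (n : ℝ)) ≤ 1 := by
    rw [div_le_one (by positivity)]
    linarith
  have h8 : 1 / (100 * (n : ℝ)) = 1 / 100 / n := by field_simp
  have h9 : (0 : ℝ) ≤ 1 / 100 / n := by positivity
  rw [h8] at h7 ⊢
  have h10 : 4 / 10 / (n : ℝ) = 40 * (1 / 100 / n) := by ring
  rw [h10]
  have h11 : 1 / (n : ℝ) ^ 3 * (1 / 100 / n) ≤ 1 * (1 / 100 / n) :=
    mul_le_mul_of_nonneg_right (h6.trans h7) h9
  have h12 : (1 + 1 / (n : ℝ) ^ 3) * (1 + 1 / 100 / n) =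
      1 + 1 / (n : ℝ) ^ 3 + 1 / 100 / n + 1 / (n : ℝ) ^ 3 * (1 / 100 / n) := by ring
  rw [h12]
  linarith

end Pool.Agent.H.MP_82502e_co
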