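import Pool.Agent.H.MP_82502e_co.WBin

set_option autoImplicit false

/-!
# The window: comparison of different l: shift down
-/

namespace Pool.Agent.H.MP_82502e_co

open Finset Real

/-- One step of the shift. -/
theorem WSh2_step {n L s : ℕ} (hs : s ≤ L) (hL : L ≤ n) :
    ((n.choose L : ℝ) * L.choose s) * ((n : ℝ) - L) =
      ((n.choose (L + 1) : ℝ) * (L + 1).choose s) * ((L : ℝ) + 1 - s) := by
  have e1 : (n.choose (L + 1) : ℝ) * ((L : ℝ) + 1) = (n.choose L : ℝ) * ((n : ℝ) - L) := by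
    have h := Nat.choose_succ_right_eq n L
    have h2 : ((n - L : ℕ) : ℝ) = (n : ℝ) - L := by rw [Nat.cast_sub hL]
    rw [← h2]
    exact_mod_cast h
  have e2 : (L.choose s : ℝ) * ((L : ℝ) + 1) = ((L + 1).choose s : ℝ) * ((L : ℝ) + 1 - s) := by
    have h := Nat.choose_mul_succ_eq L s
    have h2 : ((L + 1 - s : ℕ) : ℝ) = (L : ℝ) + 1 - s := by
      rw [Nat.cast_sub (by omega)]
      push_cast
      ring
    rw [← h2]
    exact_mod_cast h
  have hpos : (0 : ℝ) < (L : ℝ) + 1 := by positivity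
  have key : (((n.choose L : ℝ) * L.choose s) * ((n : ℝ) - L)) * ((L : ℝ) + 1) =
      (((n.choose (L + 1) : ℝ) * (L + 1).choose s) * ((L : ℝ) + 1 - s)) * ((L : ℝ) + 1) := by
    calc (((n.choose L : ℝ) * L.choose s) * ((n : ℝ) - L)) * ((L : ℝ) + 1)
        = ((n.choose L : ℝ) * ((n : ℝ) - L)) * ((L.choose s : ℝ) * ((L : ℝ) + 1)) := by ring
      _ = ((n.choose (L + 1) : ℝ) * ((L : ℝ) + 1)) *
          (((L + 1).choose s : ℝ) * ((L : ℝ) + 1 - s)) := by rw [e1, e2]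
      _ = _ := by ring
  exact mul_right_cancel₀ hpos.ne' key

/-- Moving `j` points from the top layer to the middle layer (`l → l - j`): if `l - s - j ≥ (n - l + j)/e^2`-like, in the form
`exp(-2 j) n.choose l * l.choose s ≤ ...` for `10 (l - s - j) ≥ 2 (n - l + j)`. -/
theorem multi_down {n l s j : ℕ} (hs : s + j ≤ l) (hl : l ≤ n)
    (h : 2 * (n - l + j) ≤ 10 * (l - s - j)) :
    exp (-(2 * (j : ℝ))) * ((n.choose l : ℝ) * l.choose s) ≤
      (n.choose (l - j) : ℝ) * (l - j).choose s := by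
  have h5 : exp (-(2 : ℝ)) ≤ 1 / 5 := by
    rw [exp_neg, ← one_div]
    apply one_div_le_one_div_of_le (by norm_num)
    have h1 := Real.exp_one_gt_d9
    have h2 : exp (2 : ℝ) = exp 1 * exp 1 := by rw [← exp_add]; norm_num
    rw [h2]
    have h3 : (2.7182818283 : ℝ) * 2.7182818283 ≤ exp 1 * exp 1 :=
      mul_le_mul h1.le h1.le (by norm_num) (exp_pos _).le
    linarith
  have key : ∀ j' : ℕ, j' ≤ j →
      exp (-(2 * (j' : ℝ))) * ((n.choose l : ℝ) * l.choose s) ≤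
      (n.choose (l - j') : ℝ) * (l - j').choose s := by
    intro j' hj'
    induction j' with
    | zero => simp
    | succ r ih =>
      obtain ⟨L, hL⟩ : ∃ L, l - r = L + 1 := ⟨l - r - 1, by omega⟩
      have hL2 : l - (r + 1) = L := by omega
      have ih' := ih (by omega)
      rw [hL] at ih'
      rw [hL2]
      have hst := WSh2_step (n := n) (L := L) (s := s) (by omega) (by omega)
      have hpos : (0 : ℝ) < (n : ℝ) - L := by
        have : L < n := by omega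
        have : (L : ℝ) < n := by exact_mod_cast this
        linarith
      have hineq : ((n : ℝ) - L) ≤ 5 * ((L : ℝ) + 1 - s) := by
        have h1 : n + 5 * s ≤ 5 * (L + 1) + L := by omega
        have h2 : (n : ℝ) + 5 * s ≤ 5 * ((L : ℝ) + 1) + L := by exact_mod_cast h1
        linarith
      have e3 : -(2 * ((r + 1 : ℕ) : ℝ)) = -(2 : ℝ) + -(2 * (r : ℝ)) := by
        push_cast
        ring
      rw [e3, exp_add, mul_assoc]
      have h6 : exp (-(2 : ℝ)) * (exp (-(2 * (r : ℝ))) * ((n.choose l : ℝ) * l.choose s)) ≤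
          1 / 5 * ((n.choose (L + 1) : ℝ) * (L + 1).choose s) :=
        mul_le_mul h5 ih' (by positivity) (by norm_num)
      refine h6.trans ?_
      have h7 : (0 : ℝ) ≤ (n.choose (L + 1) : ℝ) * (L + 1).choose s := by positivity
      have h8 : ((n.choose (L + 1) : ℝ) * (L + 1).choose s) * ((n : ℝ) - L) ≤
          5 * (((n.choose L : ℝ) * L.choose s) * ((n : ℝ) - L)) := by
        have h10 := mul_le_mul_of_nonneg_left hineq h7
        rw [hst]
        linarith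
      have h9 : ((n.choose (L + 1) : ℝ) * (L + 1).choose s) ≤
          5 * ((n.choose L : ℝ) * L.choose s) := by
        refine le_of_mul_le_mul_right ?_ hpos
        linarith
      linarith
  exact key j le_rfl

/-- The exponent of the shift. -/
theorem WSh2_exp {I j w uw loss : ℝ} (hI : 0 ≤ I) (hj : j ≤ I / 2 + 1) (hw0 : 0 ≤ w)
    (hw : 3 / 4 * I ^ 2 - 1 / 3 ≤ w) (huw : uw ≤ 3 / 100 * I ^ 2)
    (hl : loss ≤ 4223 / 1000 * ((I / 2 + 1) / 16 + (I / 2 + 1) ^ 2 / 4)) :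
    2 * j - w * log 2 + uw + loss + (1 + I) ≤ 10 * I + 10 - I ^ 2 / 5 := by
  have h1 := Real.log_two_gt_d9
  have h2 : w * (6931 / 10000 : ℝ) ≤ w * log 2 := mul_le_mul_of_nonneg_left (by linarith) hw0
  linarith [sq_nonneg I]

/-- The base of the power in the shift. -/
theorem WSh2_base {N w y v c : ℝ} (hN : 0 < N) (hw : 0 ≤ w) (hv : 0 ≤ v) (hc : 0 ≤ c)
    (hy : -c ≤ y) (hden : 0 < N / 2 + w - y - v) :
    2 * exp (-((w + 2 * c) / N)) ≤ (N + w) / (N / 2 + w - y - v) := by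
  have h1 : exp (-((w + 2 * c) / N)) ≤ 1 / (1 + (w + 2 * c) / N) := by
    rw [exp_neg, ← one_div]
    have h0 : 0 ≤ (w + 2 * c) / N := by positivity
    apply one_div_le_one_div_of_le (by linarith)
    linarith [add_one_le_exp ((w + 2 * c) / N)]
  have h2 : 1 / (1 + (w + 2 * c) / N) = N / (N + w + 2 * c) := by
    field_simp
    ring
  rw [h2] at h1
  have h3 : 2 * (N / (N + w + 2 * c)) ≤ (N + w) / (N / 2 + w - y - v) := by
    rw [← mul_div_assoc, div_le_div_iff₀ (by positivity) hden]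
    have h4 : 2 * N * (N / 2 + w - y - v) ≤ 2 * N * (N / 2 + w + c) :=
      mul_le_mul_of_nonneg_left (by linarith) (by linarith)
    linarith [mul_nonneg hw hw, mul_nonneg hc hw]
  linarith

theorem WSh2_q (s l : ℝ) : s * (l - s) ≤ l ^ 2 / 4 := by
  linarith [sq_nonneg (l - 2 * s)]

theorem WSh2_w {d j : ℝ} (hd : 0 ≤ d) (h1 : d ≤ 3 * j) (h2 : 3 * j ≤ d + 4) :
    3 / 4 * ((d + j) / 2) ^ 2 - 1 / 3 ≤ d * j := by
  have h3 : 0 ≤ d * (3 * j - d) := mul_nonneg hd (by linarith)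
  have h4 : 0 ≤ (3 * j - d) * (4 - (3 * j - d)) := mul_nonneg (by linarith) (by linarith)
  linarith

/-- Assembly of the comparisons. -/
theorem WSh2_fin {A A' B B1 B' P j w u loss I Y X : ℝ} (hA'0 : 0 ≤ A') (hB0 : 0 ≤ B)
    (hA : exp (-(2 * j)) * A ≤ A') (hB : exp (-loss) * B ≤ B1)
    (hC : P * B1 ≤ B') (hP : exp (w * log 2 - u * w) ≤ P)
    (hE : 2 * j - w * log 2 + u * w + loss + (1 + I) ≤ X)
    (hY : Y ≤ exp (1 + I)) (hY0 : 0 ≤ Y) :
    A * B * Y ≤ exp X * (A' * B') := by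
  have hP0 : 0 ≤ P := le_trans (exp_pos _).le hP
  have hBB : exp (w * log 2 - u * w) * (exp (-loss) * B) ≤ B' :=
    (mul_le_mul hP hB (by positivity) hP0).trans hC
  have hB'0 : 0 ≤ B' := le_trans (by positivity) hBB
  have hAB : exp (-(2 * j)) * A * (exp (w * log 2 - u * w) * (exp (-loss) * B)) ≤ A' * B' :=
    mul_le_mul hA hBB (by positivity) hA'0
  have h1 : exp (2 * j - w * log 2 + u * w + loss) * exp (-(2 * j)) *
      exp (w * log 2 - u * w) * exp (-loss) = 1 := by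
    rw [← exp_add, ← exp_add, ← exp_add, exp_eq_one_iff]
    ring
  have hsum : exp (2 * j - w * log 2 + u * w + loss) *
      (exp (-(2 * j)) * A * (exp (w * log 2 - u * w) * (exp (-loss) * B))) = A * B := by
    calc _ = (exp (2 * j - w * log 2 + u * w + loss) * exp (-(2 * j)) *
        exp (w * log 2 - u * w) * exp (-loss)) * (A * B) := by ring
      _ = A * B := by rw [h1, one_mul]
  have hAB2 : A * B ≤ exp (2 * j - w * log 2 + u * w + loss) * (A' * B') := by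
    rw [← hsum]
    exact mul_le_mul_of_nonneg_left hAB (exp_pos _).le
  have h2 : A * B * Y ≤
      (exp (2 * j - w * log 2 + u * w + loss) * (A' * B')) * exp (1 + I) :=
    mul_le_mul hAB2 hY hY0 (by positivity)
  have h3 : (exp (2 * j - w * log 2 + u * w + loss) * (A' * B')) * exp (1 + I) =
      exp (2 * j - w * log 2 + u * w + loss + (1 + I)) * (A' * B') := by
    rw [exp_add _ (1 + I)]
    ring
  rw [h3] at h2
  exact h2.trans (mul_le_mul_of_nonneg_right (exp_le_exp.2 hE) (by positivity))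

theorem WSh2_core (n l s k a d j c K : ℕ) (hn0 : 1000 ≤ n) (hl : l = a + d + j)
    (hn : n = 2 * a + d + j) (hb : a + d = c + s) (hk : k = s * (c + j) + K)
    (hd1 : d ≤ 3 * j) (hd2 : 3 * j < d + 4) (hs : 2 * s ≤ l)
    (hI : (l : ℝ) - (n : ℝ) / 2 ≤ 1 / 200 * n) (hk3 : 3 / 16 * (n : ℝ) ^ 2 ≤ k)
    (hy : (K : ℝ) - (l * a : ℕ) / 2 ≤ l / 8) :
    ((n.choose l : ℝ) * l.choose s * ((l * a).choose K : ℝ)) *
        (1 + |(K : ℝ) - (l * a : ℕ) / 2| / l) ≤
      exp (10 * ((l : ℝ) - (n : ℝ) / 2) + 10 - ((l : ℝ) - (n : ℝ) / 2) ^ 2 / 5) *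
        ((n.choose (a + d) : ℝ) * (a + d).choose s *
          ((l * a + d * j).choose (K + s * j) : ℝ)) := by
  obtain ⟨I, hIdef⟩ : ∃ I : ℝ, I = (l : ℝ) - (n : ℝ) / 2 := ⟨_, rfl⟩
  rw [← hIdef] at hI ⊢
  have hnR : (n : ℝ) = 2 * a + d + j := by exact_mod_cast hn
  have hlR : (l : ℝ) = a + d + j := by exact_mod_cast hl
  have hIR : I = ((d : ℝ) + j) / 2 := by rw [hIdef, hlR, hnR]; ring
  have hd0 : (0 : ℝ) ≤ d := Nat.cast_nonneg d
  have hj0 : (0 : ℝ) ≤ j := Nat.cast_nonneg j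
  have hs0 : (0 : ℝ) ≤ s := Nat.cast_nonneg s
  have hI0 : 0 ≤ I := by rw [hIR]; positivity
  have hn1 : (1000 : ℝ) ≤ n := by exact_mod_cast hn0
  have hd1R : (d : ℝ) ≤ 3 * j := by exact_mod_cast hd1
  have hd2R : 3 * (j : ℝ) < d + 4 := by exact_mod_cast hd2
  have hjI : (j : ℝ) ≤ I / 2 + 1 := by rw [hIR]; linarith
  have hl1 : (l : ℝ) = n / 2 + I := by rw [hIdef]; ring
  have ha1 : (a : ℝ) = n / 2 - I := by rw [hIR, hnR]; ring
  have hlpos : (0 : ℝ) < l := by linarith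
  have hapos : (0 : ℝ) < a := by linarith
  have hsl : 2 * (s : ℝ) ≤ l := by exact_mod_cast hs
  obtain ⟨N, hNdef⟩ : ∃ N : ℕ, N = l * a := ⟨_, rfl⟩
  rw [← hNdef] at hy ⊢
  have hNR : (N : ℝ) = l * a := by rw [hNdef]; push_cast; ring
  have hN2 : (N : ℝ) = (n : ℝ) ^ 2 / 4 - I ^ 2 := by rw [hNR, hl1, ha1]; ring
  have hNlow : 249 / 1000 * (n : ℝ) ^ 2 ≤ N := by
    rw [hN2]
    have h1 := pow_le_pow_left₀ hI0 hI 2
    have h2 : (1 / 200 * (n : ℝ)) ^ 2 = (n : ℝ) ^ 2 / 40000 := by ring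
    rw [h2] at h1
    linarith [sq_nonneg (n : ℝ)]
  have hnn : (n : ℝ) ≤ (n : ℝ) ^ 2 / 1000 := by
    have h1 := mul_le_mul_of_nonneg_right hn1 (by linarith : (0 : ℝ) ≤ n)
    have h2 : (n : ℝ) * n = (n : ℝ) ^ 2 := by ring
    rw [h2] at h1
    linarith
  have hNpos : (0 : ℝ) < N := by linarith
  obtain ⟨y, hydef⟩ : ∃ y : ℝ, y = (K : ℝ) - (N : ℝ) / 2 := ⟨_, rfl⟩
  rw [← hydef] at hy ⊢
  have hkR : (k : ℝ) = s * (c + j) + K := by exact_mod_cast hk
  have hbR : (a : ℝ) + d = c + s := by exact_mod_cast hb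
  have hcl : (c : ℝ) + j = l - s := by rw [hlR]; linarith
  have hylow : -((n : ℝ) * I / 4) ≤ y := by
    have h1 : (s : ℝ) * (l - s) ≤ (l : ℝ) ^ 2 / 4 := WSh2_q _ _
    have h2 : (K : ℝ) = k - s * (l - s) := by rw [hkR, hcl]; ring
    have h3 : y = k - s * (l - s) - ((n : ℝ) ^ 2 / 4 - I ^ 2) / 2 := by rw [hydef, h2, hN2]
    have h4 : (l : ℝ) ^ 2 / 4 = (n : ℝ) ^ 2 / 16 + n * I / 4 + I ^ 2 / 4 := by rw [hl1]; ring
    rw [h4] at h1
    rw [h3]
    linarith [sq_nonneg I]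
  have hyabs : |y| ≤ (n : ℝ) * I / 4 + l / 8 := by
    have h1 : 0 ≤ (n : ℝ) * I := by positivity
    rw [abs_le]
    constructor <;> linarith
  obtain ⟨v, hvdef⟩ : ∃ v : ℕ, v = s * j := ⟨_, rfl⟩
  rw [← hvdef]
  have hvR : (v : ℝ) = s * j := by rw [hvdef]; push_cast; ring
  have hv0 : (0 : ℝ) ≤ v := Nat.cast_nonneg v
  have hvle : (v : ℝ) ≤ l / 2 * (I / 2 + 1) := by
    rw [hvR]
    exact mul_le_mul (by linarith) hjI hj0 (by positivity)
  obtain ⟨w, hwdef⟩ : ∃ w : ℕ, w = d * j := ⟨_, rfl⟩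
  rw [← hwdef]
  have hwR : (w : ℝ) = d * j := by rw [hwdef]; push_cast; ring
  have hw0 : (0 : ℝ) ≤ w := Nat.cast_nonneg w
  have hwlow : 3 / 4 * I ^ 2 - 1 / 3 ≤ w := by
    rw [hwR, hIR]
    exact WSh2_w hd0 hd1R hd2R.le
  have hwup : (w : ℝ) ≤ I ^ 2 := by
    rw [hwR, hIR]
    linarith [sq_nonneg ((d : ℝ) - j)]
  have hIn : 0 ≤ (n : ℝ) * I := by positivity
  have hI2 : I ^ 2 ≤ (n : ℝ) * I / 200 := by
    have h1 := mul_le_mul_of_nonneg_right hI hI0
    linarith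
  have hnI : (n : ℝ) * I ≤ (n : ℝ) ^ 2 / 200 := by
    have h1 := mul_le_mul_of_nonneg_left hI (by linarith : (0 : ℝ) ≤ n)
    linarith
  have hcond : |(K : ℝ) - N / 2| + v ≤ N / 100 := by
    rw [← hydef]
    have h1 : (v : ℝ) ≤ (n : ℝ) * I / 7 + (n : ℝ) / 3 := by
      refine hvle.trans ?_
      have e : (l : ℝ) / 2 * (I / 2 + 1) = n * I / 8 + n / 4 + I ^ 2 / 4 + I / 2 := by
        rw [hl1]; ring
      rw [e]
      linarith
    have h2 : (l : ℝ) ≤ 51 / 100 * n := by rw [hl1]; linarith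
    linarith
  have hKv : K + v ≤ N := by
    have h1 := (abs_le.1 (le_of_add_le_of_nonneg_left hcond hv0)).2
    have h2 : (v : ℝ) ≤ N / 100 := by linarith [abs_nonneg ((K : ℝ) - N / 2)]
    have : ((K + v : ℕ) : ℝ) ≤ N := by
      push_cast
      linarith
    exact_mod_cast this
  -- the three comparisons
  have hA := multi_down (n := n) (l := l) (s := s) (j := j) (by omega) (by omega) (by
    have h1 : (l : ℝ) ≥ n / 2 := by linarith
    have h2 : n ≤ 2 * l := by omega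
    have h3 : 100 * j ≤ n := by
      have : (100 : ℝ) * j ≤ n := by linarith
      exact_mod_cast this
    omega)
  have hlj : l - j = a + d := by omega
  rw [hlj] at hA
  have hB := choose_right_ge hcond
  have hC := choose_addN_ge (N := N) (K := K + v) (w := w) hKv
  rw [← hydef] at hB
  have hbase := WSh2_base (N := (N : ℝ)) (w := w) (y := y) (v := v) (c := (n : ℝ) * I / 4)
    hNpos hw0 hv0 (by positivity) hylow (by
      have h1 : (v : ℝ) ≤ N / 100 := by linarith [abs_nonneg ((K : ℝ) - N / 2)]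
      have h2 : y ≤ N / 100 := by
        have := le_abs_self y
        rw [← hydef] at hcond
        linarith
      linarith)
  have hden : ((N : ℝ) + w - ((K + v : ℕ) : ℝ)) = (N : ℝ) / 2 + w - y - v := by
    rw [hydef]
    push_cast
    ring
  rw [hden] at hC
  obtain ⟨u, hu⟩ : ∃ u : ℝ, u = ((w : ℝ) + 2 * ((n : ℝ) * I / 4)) / N := ⟨_, rfl⟩
  rw [← hu] at hbase
  have hpow : exp ((w : ℝ) * log 2 - u * w) ≤
      (((N : ℝ) + w) / ((N : ℝ) / 2 + w - y - v)) ^ w := by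
    have h1 : exp ((w : ℝ) * log 2 - u * w) = (2 * exp (-u)) ^ w := by
      rw [mul_pow, ← exp_nat_mul]
      have h2 : (2 : ℝ) ^ w = exp ((w : ℝ) * log 2) := by
        rw [mul_comm, exp_mul, exp_log (by norm_num : (0 : ℝ) < 2), rpow_natCast]
      rw [h2, ← exp_add]
      congr 1
      ring
    rw [h1]
    exact pow_le_pow_left₀ (by positivity) hbase w
  obtain ⟨loss, hloss⟩ : ∃ z : ℝ, z = 41 / 10 / (N : ℝ) * (max y 0 * v + (v : ℝ) ^ 2) := ⟨_, rfl⟩
  rw [← hloss] at hB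
  have hlossle : loss ≤ 4223 / 1000 * ((I / 2 + 1) / 16 + (I / 2 + 1) ^ 2 / 4) := by
    have hmax : max y 0 ≤ (l : ℝ) / 8 := max_le hy (by positivity)
    have hI1 : 0 ≤ I / 2 + 1 := by linarith
    have h1 : max y 0 * v + (v : ℝ) ^ 2 ≤
        (l : ℝ) ^ 2 * ((I / 2 + 1) / 16 + (I / 2 + 1) ^ 2 / 4) := by
      have h2 : max y 0 * v ≤ (l : ℝ) / 8 * (l / 2 * (I / 2 + 1)) :=
        mul_le_mul hmax hvle hv0 (by positivity)
      have h3 : (v : ℝ) ^ 2 ≤ (l / 2 * (I / 2 + 1)) ^ 2 := pow_le_pow_left₀ hv0 hvle 2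
      refine (add_le_add h2 h3).trans (le_of_eq ?_)
      ring
    have h4 : (l : ℝ) ^ 2 ≤ 103 / 100 * N := by
      rw [hN2, hl1]
      linarith
    have h5 : 0 ≤ (I / 2 + 1) / 16 + (I / 2 + 1) ^ 2 / 4 := by positivity
    have h6 : max y 0 * v + (v : ℝ) ^ 2 ≤
        103 / 100 * N * ((I / 2 + 1) / 16 + (I / 2 + 1) ^ 2 / 4) :=
      h1.trans (mul_le_mul_of_nonneg_right h4 h5)
    rw [hloss]
    calc 41 / 10 / (N : ℝ) * (max y 0 * v + (v : ℝ) ^ 2)
        ≤ 41 / 10 / (N : ℝ) * (103 / 100 * N * ((I / 2 + 1) / 16 + (I / 2 + 1) ^ 2 / 4)) :=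
          mul_le_mul_of_nonneg_left h6 (by positivity)
      _ = 4223 / 1000 * ((I / 2 + 1) / 16 + (I / 2 + 1) ^ 2 / 4) := by
          field_simp
          ring
  have huw : u * w ≤ 3 / 100 * I ^ 2 := by
    have h1 : u ≤ 3 / 100 := by
      rw [hu, div_le_iff₀ hNpos]
      linarith
    exact mul_le_mul h1 hwup hw0 (by norm_num)
  have hE := WSh2_exp hI0 hjI hw0 hwlow huw hlossle
  have hfac : 1 + |y| / l ≤ exp (1 + I) := by
    have h1 : |y| / l ≤ I / 2 + 1 / 8 := by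
      rw [div_le_iff₀ hlpos]
      have e : (I / 2 + 1 / 8) * (l : ℝ) = n * I / 4 + I ^ 2 / 2 + l / 8 := by
        have e2 : I * (l : ℝ) = n * I / 2 + I ^ 2 := by rw [hl1]; ring
        linarith
      rw [e]
      linarith [sq_nonneg I]
    have h2 := add_one_le_exp (1 + I)
    linarith
  -- assemble
  exact WSh2_fin (by positivity) (Nat.cast_nonneg _)
    hA hB hC hpow hE hfac (by positivity)

/-- **Shift down** (S3). `I = l - n/2 ≥ 0`, `j = ⌈I/2⌉`, `k ≥ 3n²/16`, `2s ≤ l`, `y3 ≤ l/8`. Then `(l-2s)² ≤ l + 4 I n`-ish (`y3 = (k - 3n²/16) - I n/4 + I²/4 + (l-2s)²/4`), so `s ≥ 0.45 l`, and `y3 ≥ -I n/4`.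
`N' = (l-j)(n-l+j) = N + w`, `w = j(2I - j)`, `K' = K + js`, `v = js`: `choose (N+w) (K+v) ≥ ((N+w)/(N+w-K-v))^w choose N (K+v)` (base `≥ 2 exp(-2.2(I n/4 + w)/N)`), `choose_right_ge`:
`exp(-(4.1/N)((l/8) v + v²))`; `multi_down`. `1 + |y3|/l ≤ 2 + I`. Same exponents as in `shift_up`. -/
theorem shift_down : ∃ C η : ℝ, 0 < C ∧ 0 < η ∧ ∃ n0 : ℕ, ∀ n ≥ n0, ∀ l s k : ℕ,
    0 ≤ (l : ℝ) - (n : ℝ) / 2 → (l : ℝ) - (n : ℝ) / 2 ≤ η * n → 2 * s ≤ l →
    3 / 16 * (n : ℝ) ^ 2 ≤ k → y3 n l s k ≤ l / 8 →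
    (q3 n l s k : ℝ) * (1 + |y3 n l s k| / l) ≤
      exp (C * ((l : ℝ) - (n : ℝ) / 2) + C - ((l : ℝ) - (n : ℝ) / 2) ^ 2 / 5) *
        q3 n (l - ⌈((l : ℝ) - (n : ℝ) / 2) / 2⌉₊) s k := by
  refine ⟨10, 1 / 200, by norm_num, by norm_num, 1000, ?_⟩
  intro n hn l s k hI0 hI hs hk hy
  obtain ⟨j, hjdef⟩ : ∃ j : ℕ, j = ⌈((l : ℝ) - (n : ℝ) / 2) / 2⌉₊ := ⟨_, rfl⟩
  rw [← hjdef]
  have hj1 : ((l : ℝ) - (n : ℝ) / 2) / 2 ≤ j := by rw [hjdef]; exact Nat.le_ceil _
  have hj2 : (j : ℝ) < ((l : ℝ) - (n : ℝ) / 2) / 2 + 1 := by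
    rw [hjdef]
    exact Nat.ceil_lt_add_one (by linarith)
  have hn1 : (1000 : ℝ) ≤ n := by exact_mod_cast hn
  -- natural number facts
  have f1 : n ≤ 2 * l := by
    have : (n : ℝ) ≤ 2 * l := by linarith
    exact_mod_cast this
  have f2 : 2 * l ≤ n + 4 * j := by
    have : 2 * (l : ℝ) ≤ n + 4 * j := by linarith
    exact_mod_cast this
  have f3 : 4 * j + n < 2 * l + 4 := by
    have : 4 * (j : ℝ) + n < 2 * l + 4 := by linarith
    exact_mod_cast this
  have f4 : 200 * l ≤ 101 * n := by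
    have : 200 * (l : ℝ) ≤ 101 * n := by linarith
    exact_mod_cast this
  obtain ⟨a, ha⟩ : ∃ a, n = l + a := ⟨n - l, by omega⟩
  obtain ⟨d, hd⟩ : ∃ d, l = a + d + j := ⟨l - a - j, by omega⟩
  obtain ⟨c, hc⟩ : ∃ c, a + d = c + s := ⟨a + d - s, by omega⟩
  have hls : l - s = c + j := by omega
  have hsk : s * (l - s) ≤ k := by
    have h1 : (s : ℝ) * ((l : ℝ) - s) ≤ (l : ℝ) ^ 2 / 4 := WSh2_q _ _
    have h2 : (l : ℝ) ≤ 101 / 200 * n := by linarith
    have hl0 : (0 : ℝ) ≤ l := Nat.cast_nonneg l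
    have h6 := pow_le_pow_left₀ hl0 h2 2
    have h7 : (101 / 200 * (n : ℝ)) ^ 2 = 10201 / 40000 * (n : ℝ) ^ 2 := by ring
    rw [h7] at h6
    have h3 : (s : ℝ) * ((l : ℝ) - s) ≤ k := by linarith [sq_nonneg (n : ℝ)]
    have h4 : ((s * (l - s) : ℕ) : ℝ) = (s : ℝ) * ((l : ℝ) - s) := by
      rw [Nat.cast_mul, Nat.cast_sub (by omega)]
    have h5 : ((s * (l - s) : ℕ) : ℝ) ≤ k := by rw [h4]; exact h3
    exact_mod_cast h5
  obtain ⟨K, hK⟩ : ∃ K, k = s * (c + j) + K := ⟨k - s * (c + j), by rw [hls] at hsk; omega⟩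
  have hy3 : y3 n l s k = (K : ℝ) - (l * a : ℕ) / 2 := by
    unfold y3
    have e1 : (n : ℝ) = l + a := by exact_mod_cast ha
    have e2 : (k : ℝ) = s * (c + j) + K := by exact_mod_cast hK
    have e3 : (l : ℝ) - s = c + j := by
      have e4 : (l : ℝ) = s + (c + j) := by
        have : l = s + (c + j) := by omega
        exact_mod_cast this
      linarith
    rw [e3, e2, e1]
    push_cast
    ring
  have hq1 : (q3 n l s k : ℝ) = (n.choose l : ℝ) * l.choose s * ((l * a).choose K : ℝ) := by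
    unfold q3 chz
    rw [if_pos hsk]
    have e1 : n - l = a := by omega
    have e2 : k - s * (l - s) = K := by rw [hls, hK]; omega
    rw [e1, e2]
    push_cast
    ring
  have hq2 : (q3 n (l - j) s k : ℝ) = (n.choose (a + d) : ℝ) * (a + d).choose s *
      ((l * a + d * j).choose (K + s * j) : ℝ) := by
    have e0 : l - j = a + d := by omega
    rw [e0]
    unfold q3 chz
    have e1 : a + d - s = c := by omega
    have e2 : s * c ≤ k := by
      rw [hK, mul_add]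
      omega
    rw [e1, if_pos e2]
    have e3 : k - s * c = K + s * j := by
      rw [hK, mul_add]
      omega
    have e4 : n - (a + d) = a + j := by omega
    have e5 : (a + d) * (a + j) = l * a + d * j := by
      rw [hd]
      ring
    rw [e3, e4, e5]
    push_cast
    ring
  rw [hy3] at hy ⊢
  rw [hq1, hq2]
  exact WSh2_core n l s k a d j c K hn hd (by omega) hc hK (by omega) (by omega) hs hI hk hy

end Pool.Agent.H.MP_82502e_co
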