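import Pool.Agent.H.MP_82502e_co.WDefs

set_option autoImplicit false

/-!
# The window: fixed l: lemmas
-/

namespace Pool.Agent.H.MP_82502e_co

open Finset Real

/-- Symmetry of the terms. -/
theorem q3_symm {n l s k : ℕ} (hs : s ≤ l) : q3 n l (l - s) k = q3 n l s k := by
  unfold q3
  rw [Nat.choose_symm hs, Nat.sub_sub_self hs, Nat.mul_comm (l - s) s]

/-- The half sum (for `l ≥ 1`; the term `s = l` is missing in `F3l`, so `s = 0` has weight 1). For any `f` symmetric on `[0,l]`. -/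
theorem half_sum {l : ℕ} (hl : 1 ≤ l) (f : ℕ → ℝ) (hf : ∀ s ≤ l, f (l - s) = f s) :
    ∑ s ∈ range l, f s = ∑ s ∈ range (l / 2 + 1), (mus l s : ℝ) * f s := by
  have h1 : ∑ s ∈ range l, f s =
      ∑ s ∈ range (l / 2 + 1), f s + ∑ s ∈ Ico (l / 2 + 1) l, f s := by
    rw [Finset.sum_range_add_sum_Ico _ (by omega)]
  have h2 : ∑ s ∈ Ico (l / 2 + 1) l, f s = ∑ s ∈ Ico 1 (l - l / 2), f s := by
    have h3 := Finset.sum_Ico_reflect f (l / 2 + 1) (m := l) (n := l) (by omega)
    have h4 : ∑ j ∈ Ico (l / 2 + 1) l, f (l - j) = ∑ j ∈ Ico (l / 2 + 1) l, f j := by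
      refine Finset.sum_congr rfl fun j hj => ?_
      rw [Finset.mem_Ico] at hj
      exact hf j (by omega)
    rw [← h4, h3]
    congr 1
    ext j
    simp only [Finset.mem_Ico]
    omega
  have h5 : ∑ s ∈ range (l / 2 + 1), (mus l s : ℝ) * f s =
      ∑ s ∈ range (l / 2 + 1), f s + ∑ s ∈ (range (l / 2 + 1)).filter
        (fun s => s ∈ Ico 1 (l - l / 2)), f s := by
    rw [Finset.sum_filter, ← Finset.sum_add_distrib]
    refine Finset.sum_congr rfl fun s hs => ?_
    rw [Finset.mem_range] at hs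
    unfold mus
    by_cases h0 : s = 0
    · subst h0
      simp
    · by_cases h6 : 2 * s = l
      · have h7 : ¬ (s ∈ Ico 1 (l - l / 2)) := by
          simp only [Finset.mem_Ico]; omega
        simp only [h0, h6, if_true, if_false, h7]
        push_cast; ring
      · have h7 : s ∈ Ico 1 (l - l / 2) := by
          simp only [Finset.mem_Ico]; omega
        simp only [h0, h6, if_false, h7, if_true]
        push_cast; ring
  rw [h1, h2, h5]
  congr 1
  refine Finset.sum_congr ?_ fun _ _ => rfl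
  ext s
  simp only [Finset.mem_Ico, Finset.mem_filter, Finset.mem_range]
  omega

/-- `log (1 + r) ≤ r`, and `log (1 + r) ≤ r - r²/6` for `0 ≤ r ≤ 5/2`. -/
theorem log_one_add_le_sq {r : ℝ} (h0 : 0 ≤ r) (h1 : r ≤ 5 / 2) : log (1 + r) ≤ r - r ^ 2 / 6 := by
  rcases le_or_gt r 2 with h2 | h2
  · have hmono : MonotoneOn (fun r : ℝ => r - r ^ 2 / 6 - log (1 + r)) (Set.Icc 0 2) := by
      have hd : ∀ x ∈ Set.Icc (0 : ℝ) 2, HasDerivAt (fun r : ℝ => r - r ^ 2 / 6 - log (1 + r))
          (1 - 2 * x / 6 - 1 / (1 + x)) x := by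
        intro x hx
        have ha : HasDerivAt (fun r : ℝ => r - r ^ 2 / 6) (1 - 2 * x / 6) x := by
          have h3 := (hasDerivAt_id' x).sub ((hasDerivAt_pow 2 x).div_const 6)
          have e : (1 : ℝ) - 2 * x / 6 = 1 - ((2 : ℕ) : ℝ) * x ^ (2 - 1) / 6 := by norm_num
          rw [e]
          exact h3
        have hb : HasDerivAt (fun r : ℝ => log (1 + r)) (1 / (1 + x)) x :=
          ((hasDerivAt_id x).const_add 1).log (by simp only [id]; linarith [hx.1])
        exact ha.sub hb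
      refine monotoneOn_of_deriv_nonneg (convex_Icc 0 2)
        (fun x hx => (hd x hx).continuousAt.continuousWithinAt) ?_ ?_
      · intro x hx
        rw [interior_Icc] at hx
        exact (hd x ⟨hx.1.le, hx.2.le⟩).differentiableAt.differentiableWithinAt
      · intro x hx
        rw [interior_Icc] at hx
        rw [(hd x ⟨hx.1.le, hx.2.le⟩).deriv]
        have hx1 : 0 < 1 + x := by linarith [hx.1]
        have : 1 - 2 * x / 6 - 1 / (1 + x) = x * (2 - x) / (3 * (1 + x)) := by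
          field_simp
          ring
        rw [this]
        exact div_nonneg (mul_nonneg hx.1.le (by linarith [hx.2])) (by linarith)
    have := hmono (Set.left_mem_Icc.2 (by norm_num)) ⟨h0, h2⟩ h0
    simp only [ne_eq, OfNat.ofNat_ne_zero, not_false_eq_true, zero_pow, zero_div, sub_self,
      add_zero, log_one] at this
    linarith
  · have h3 : log (1 + r) = log 3 + log ((1 + r) / 3) := by
      rw [← Real.log_mul (by norm_num) (by positivity)]
      congr 1
      field_simp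
    have h4 : log ((1 + r) / 3) ≤ (1 + r) / 3 - 1 := Real.log_le_sub_one_of_pos (by positivity)
    have h5 : log (3 : ℝ) = 2 * log 2 + log (3 / 4) := by
      rw [show (2 : ℝ) * log 2 = log (2 ^ 2) by rw [Real.log_pow]; norm_num,
        ← Real.log_mul (by norm_num) (by norm_num)]
      norm_num
    have h6 : log (3 / 4 : ℝ) ≤ 3 / 4 - 1 := Real.log_le_sub_one_of_pos (by norm_num)
    have h7 := Real.log_two_lt_d9
    nlinarith

/-- `2 artanh u = log((1+u)/(1-u)) ≥ (7/10) u + (208/100) u²` for `0 ≤ u < 1`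
(`≥ 2(u + u³/3 + u⁵/5)` and `2(1 + u²/3 + u⁴/5) - 2.08 u ≥ 0.7`). -/
theorem artanh_ge {u : ℝ} (h0 : 0 ≤ u) (h1 : u < 1) :
    7 / 10 * u + 208 / 100 * u ^ 2 ≤ log ((1 + u) / (1 - u)) := by
  have hs := Real.hasSum_log_sub_log_of_abs_lt_one (x := u) (by rw [abs_of_nonneg h0]; exact h1)
  have h2 : log ((1 + u) / (1 - u)) = log (1 + u) - log (1 - u) :=
    Real.log_div (by linarith) (by linarith)
  have h3 : ∑ k ∈ range 3, (2 : ℝ) * (1 / (2 * k + 1)) * u ^ (2 * k + 1) ≤
      log (1 + u) - log (1 - u) := by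
    refine sum_le_hasSum _ (fun k _ => ?_) hs
    positivity
  rw [h2]
  refine le_trans ?_ h3
  simp only [Finset.sum_range_succ, Finset.sum_range_zero]
  push_cast
  have h4 : 0 ≤ 13 / 10 - 208 / 100 * u + 2 / 3 * u ^ 2 + 2 / 5 * u ^ 4 := by
    nlinarith [sq_nonneg (u ^ 2 - 7 / 10), sq_nonneg (u - 85 / 100)]
  have h5 := mul_nonneg h0 h4
  nlinarith [h5]

/-- **Abel summation.** `p : ℕ → ℝ`, `p ≥ 0`, `S ≥ 1`, `h s = l - 2s - 1 ≥ 0` for `s ≤ S - 1`... with `ψ s = min (1/h) (h/H)` (`H = h0² > 0`): if `2 S ≤ l` then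
`Σ_{s<S} ψ s (p (s+1) - p s) ≤ (2/H) Σ_{s ≤ S, h s < √H} p s`, where `h s = l - 2s - 1` (real, may be `-1` or `0` for the last `s`). Uses `ψ (s-1) ≤ ψ s` for `h s ≥ √H`, `ψ (s-1) - ψ s ≤ 2/H` for `h s < √H`, and
`ψ (S-1) ≤ 2/H` for the last term if `l ≤ 2S + 1`. -/
theorem abel_psi {l S : ℕ} (hS : 1 ≤ S) (h1 : 2 * S ≤ l) (h2 : l ≤ 2 * S + 1) {H : ℝ} (hH : 16 ≤ H)
    (p : ℕ → ℝ) (hp : ∀ s, 0 ≤ p s) :
    ∑ s ∈ range S, min (1 / ((l : ℝ) - 2 * s - 1)) (((l : ℝ) - 2 * s - 1) / H) *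
      (p (s + 1) - p s) ≤
      2 / H * ∑ s ∈ (range (S + 1)).filter (fun s : ℕ => ((l : ℝ) - 2 * s - 1) ^ 2 < H ∨ s = S), p s := by
  have hH0 : 0 < H := by linarith
  set ψ : ℕ → ℝ := fun s => min (1 / ((l : ℝ) - 2 * s - 1)) (((l : ℝ) - 2 * s - 1) / H) with hψ
  have hpos : ∀ s < S, 1 ≤ (l : ℝ) - 2 * s - 1 := by
    intro s hs
    have : 2 * s + 2 ≤ l := by omega
    have h3 : ((2 * s + 2 : ℕ) : ℝ) ≤ l := by exact_mod_cast this
    push_cast at h3
    linarith
  have hψ0 : ∀ s < S, 0 ≤ ψ s := by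
    intro s hs
    have := hpos s hs
    exact le_min (by positivity) (by positivity)
  have hstep : ∀ s, s + 1 < S → ψ s - ψ (s + 1) ≤
      if ((l : ℝ) - 2 * (s + 1 : ℕ) - 1) ^ 2 < H then 2 / H else 0 := by
    intro s hs
    have hh := hpos (s + 1) hs
    set h : ℝ := (l : ℝ) - 2 * (s + 1 : ℕ) - 1 with hhdef
    have hs2 : (l : ℝ) - 2 * (s : ℕ) - 1 = h + 2 := by
      rw [hhdef]; push_cast; ring
    have e1 : ψ s = min (1 / (h + 2)) ((h + 2) / H) := by
      simp only [hψ]; rw [hs2]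
    have e2 : ψ (s + 1) = min (1 / h) (h / H) := by
      simp only [hψ]; rw [hhdef]
    have hh0 : 0 < h := by linarith
    split_ifs with hc
    · have e3 : ψ (s + 1) = h / H := by
        rw [e2]
        refine min_eq_right ?_
        rw [div_le_div_iff₀ hH0 hh0]
        nlinarith
      rw [e3, e1]
      have : min (1 / (h + 2)) ((h + 2) / H) ≤ (h + 2) / H := min_le_right _ _
      have e4 : (h + 2) / H = h / H + 2 / H := by ring
      linarith
    · have e3 : ψ (s + 1) = 1 / h := by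
        rw [e2]
        refine min_eq_left ?_
        rw [div_le_div_iff₀ hh0 hH0]
        nlinarith
      rw [e3, e1]
      have : min (1 / (h + 2)) ((h + 2) / H) ≤ 1 / (h + 2) := min_le_left _ _
      have e4 : 1 / (h + 2) ≤ 1 / h := one_div_le_one_div_of_le hh0 (by linarith)
      linarith
  have key : ∀ m, m < S → ∑ s ∈ range (m + 1), ψ s * (p (s + 1) - p s) ≤
      ψ m * p (m + 1) + ∑ s ∈ range (m + 1),
        (if ((l : ℝ) - 2 * (s : ℕ) - 1) ^ 2 < H then 2 / H else 0) * p s := by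
    intro m
    induction m with
    | zero =>
      intro hm
      simp only [zero_add, Finset.sum_range_one]
      have a1 := mul_nonneg (hψ0 0 hm) (hp 0)
      have a2 : 0 ≤ (if ((l : ℝ) - 2 * ((0 : ℕ) : ℝ) - 1) ^ 2 < H then 2 / H else 0) * p 0 := by
        refine mul_nonneg ?_ (hp 0)
        split_ifs
        · positivity
        · exact le_refl _
      nlinarith
    | succ m ih =>
      intro hm
      have ih' := ih (by omega)
      rw [Finset.sum_range_succ, Finset.sum_range_succ (fun s : ℕ =>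
        (if ((l : ℝ) - 2 * (s : ℕ) - 1) ^ 2 < H then 2 / H else 0) * p s) (m + 1)]
      have a1 := mul_le_mul_of_nonneg_right (hstep m hm) (hp (m + 1))
      nlinarith
  obtain ⟨m, rfl⟩ : ∃ m, S = m + 1 := ⟨S - 1, by omega⟩
  have hk := key m (Nat.lt_succ_self m)
  have hlast : ψ m ≤ 2 / H := by
    have : ψ m ≤ ((l : ℝ) - 2 * m - 1) / H := min_le_right _ _
    refine this.trans ?_
    have h3 : (l : ℝ) ≤ ((2 * (m + 1) + 1 : ℕ) : ℝ) := by exact_mod_cast h2
    push_cast at h3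
    gcongr
    linarith
  have hsum : ∑ s ∈ range (m + 1),
        (if ((l : ℝ) - 2 * (s : ℕ) - 1) ^ 2 < H then 2 / H else 0) * p s + 2 / H * p (m + 1) ≤
      2 / H * ∑ s ∈ (range (m + 1 + 1)).filter
        (fun s : ℕ => ((l : ℝ) - 2 * s - 1) ^ 2 < H ∨ s = m + 1), p s := by
    rw [Finset.sum_filter, Finset.sum_range_succ (fun s : ℕ =>
      if ((l : ℝ) - 2 * (s : ℕ) - 1) ^ 2 < H ∨ s = m + 1 then p s else 0) (m + 1), mul_add,
      Finset.mul_sum]
    simp only [or_true, if_true]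
    refine add_le_add (Finset.sum_le_sum fun s hs => ?_) (le_refl _)
    rw [Finset.mem_range] at hs
    by_cases hc : ((l : ℝ) - 2 * (s : ℕ) - 1) ^ 2 < H
    · simp only [hc, true_or, if_true]; exact le_refl _
    · simp only [hc, if_false, zero_mul]
      have : ¬ (s = m + 1) := by omega
      simp [this]
  have hl2 := mul_le_mul_of_nonneg_right hlast (hp (m + 1))
  calc _ ≤ _ := hk
    _ ≤ _ := by linarith

end Pool.Agent.H.MP_82502e_co
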