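import Pool.Agent.H.MP_82502e_co.WZa
import Pool.Agent.H.MP_82502e_co.WSh2
import Pool.Agent.H.MP_82502e_co.WFour2
import Pool.Agent.H.MP_82502e_co.WSt1

set_option autoImplicit false

/-!
# The window: zone 3
-/

namespace Pool.Agent.H.MP_82502e_co

open Finset Real

/-- A geometric sum. -/
theorem WZ3_geom (n : ℕ) (I0 : ℝ) :
    ∑ l ∈ (range n).filter (fun l : ℕ => I0 ≤ (l : ℝ) - (n : ℝ) / 2),
      exp (-((l : ℝ) - (n : ℝ) / 2)) ≤ 2 * exp (-I0) := by
  obtain ⟨m, hm⟩ : ∃ m, m = ⌈(n : ℝ) / 2 + I0⌉₊ := ⟨_, rfl⟩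
  have hm1 : (n : ℝ) / 2 + I0 ≤ m := by rw [hm]; exact Nat.le_ceil _
  have hsub : (range n).filter (fun l : ℕ => I0 ≤ (l : ℝ) - (n : ℝ) / 2) ⊆ Ico m n := by
    intro l hl
    rw [mem_filter, mem_range] at hl
    rw [mem_Ico]
    refine ⟨?_, hl.1⟩
    rw [hm, Nat.ceil_le]
    linarith [hl.2]
  refine (sum_le_sum_of_subset_of_nonneg hsub (fun _ _ _ => (exp_pos _).le)).trans ?_
  rw [sum_Ico_eq_sum_range]
  have h1 : ∀ r ∈ range (n - m), exp (-(((m + r : ℕ) : ℝ) - (n : ℝ) / 2)) ≤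
      exp (-I0) * (1 / 2 : ℝ) ^ r := by
    intro r _
    have e1 : exp (-(((m + r : ℕ) : ℝ) - (n : ℝ) / 2)) =
        exp (-((m : ℝ) - (n : ℝ) / 2)) * exp (-1) ^ r := by
      rw [← exp_nat_mul, ← exp_add]
      congr 1
      push_cast
      ring
    rw [e1]
    have h2 : exp (-1) ≤ 1 / 2 := by
      rw [exp_neg, inv_eq_one_div]
      have := exp_one_gt_d9
      exact one_div_le_one_div_of_le (by norm_num) (by linarith)
    refine mul_le_mul (exp_le_exp.2 (by linarith)) (pow_le_pow_left₀ (exp_pos _).le h2 r)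
      (by positivity) (exp_pos _).le
  refine (sum_le_sum h1).trans ?_
  rw [← mul_sum, mul_comm]
  exact mul_le_mul_of_nonneg_right (sum_geometric_two_le _) (exp_pos _).le

/-- Elementary facts about the parameters. -/
theorem WZ3_par {n l s k : ℕ} (hn : 4 ≤ n) (hl : |(l : ℝ) - (n : ℝ) / 2| ≤ n / 1000)
    (hs : s ≤ l) (hk : 3 / 16 * (n : ℝ) ^ 2 ≤ k) :
    l ≤ n ∧ s * (l - s) ≤ k ∧ (n : ℝ) / 4 ≤ l ∧
    (n : ℝ) ^ 2 / 16 ≤ ((k - s * (l - s) : ℕ) : ℝ) ∧
    ((l * (n - l) : ℕ) : ℝ) ≤ (n : ℝ) ^ 2 / 4 ∧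
    y3 n l s k = ((k - s * (l - s) : ℕ) : ℝ) - ((l * (n - l) : ℕ) : ℝ) / 2 := by
  have hn' : (4 : ℝ) ≤ n := by exact_mod_cast hn
  obtain ⟨hl1, hl2⟩ := abs_le.1 hl
  have hln : l ≤ n := by
    have : (l : ℝ) ≤ n := by linarith
    exact_mod_cast this
  have hc1 : ((s * (l - s) : ℕ) : ℝ) = (s : ℝ) * ((l : ℝ) - s) := by
    rw [Nat.cast_mul, Nat.cast_sub hs]
  have hc2 : ((l * (n - l) : ℕ) : ℝ) = (l : ℝ) * ((n : ℝ) - l) := by
    rw [Nat.cast_mul, Nat.cast_sub hln]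
  have h1 : (s : ℝ) * ((l : ℝ) - s) ≤ (l : ℝ) ^ 2 / 4 := by
    nlinarith [sq_nonneg ((l : ℝ) - 2 * s)]
  have h2 : (l : ℝ) ^ 2 / 4 ≤ (n : ℝ) ^ 2 / 8 := by
    have : (l : ℝ) ≤ 501 / 1000 * n := by linarith
    have h0 : (0 : ℝ) ≤ l := Nat.cast_nonneg l
    nlinarith
  have h3 : s * (l - s) ≤ k := by
    have : ((s * (l - s) : ℕ) : ℝ) ≤ k := by
      rw [hc1]
      nlinarith
    exact_mod_cast this
  refine ⟨hln, h3, by linarith, ?_, ?_, ?_⟩
  · rw [Nat.cast_sub h3, hc1]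
    nlinarith
  · rw [hc2]
    nlinarith [sq_nonneg ((n : ℝ) - 2 * l)]
  · rw [Nat.cast_sub h3, hc1, hc2]
    rfl

/-- The difference of one term. -/
theorem WZ3_term {n l s k : ℕ} (hn : 4 ≤ n) (hl : |(l : ℝ) - (n : ℝ) / 2| ≤ n / 1000)
    (hs : s ≤ l) (hk : 3 / 16 * (n : ℝ) ^ 2 ≤ k) :
    (q3 n l s (k + 1) : ℝ) - q3 n l s k ≤ -(1 / (8 * (n : ℝ))) * q3 n l s k +
      (if y3 n l s k ≤ l / 8 then
        33 / (n : ℝ) * ((q3 n l s k : ℝ) * (1 + |y3 n l s k| / l)) else 0) := by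
  obtain ⟨hln, h1, hl4, hx1, hN, hy⟩ := WZ3_par hn hl hs hk
  have hn' : (4 : ℝ) ≤ n := by exact_mod_cast hn
  have hn0 : (0 : ℝ) < n := by linarith
  have hl0 : (0 : ℝ) < l := by linarith
  have hQ : (0 : ℝ) ≤ q3 n l s k := Nat.cast_nonneg _
  by_cases hx : k - s * (l - s) ≤ l * (n - l)
  · rw [q3_succ_sub h1 hx]
    have hxr : ((k - s * (l - s) : ℕ) : ℝ) ≤ ((l * (n - l) : ℕ) : ℝ) := by exact_mod_cast hx
    obtain ⟨x, hxdef⟩ : ∃ x : ℝ, x = ((k - s * (l - s) : ℕ) : ℝ) := ⟨_, rfl⟩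
    obtain ⟨N, hNdef⟩ : ∃ N : ℝ, N = ((l * (n - l) : ℕ) : ℝ) := ⟨_, rfl⟩
    rw [← hxdef] at hx1 hy hxr
    rw [← hNdef] at hN hy hxr
    rw [← hxdef, ← hNdef]
    obtain ⟨y, hydef⟩ : ∃ y : ℝ, y = y3 n l s k := ⟨_, rfl⟩
    rw [← hydef] at hy
    rw [← hydef]
    have hx0 : 0 < x + 1 := by nlinarith
    have hd : (N + 1) / (x + 1) - 2 = -(2 * y + 1) / (x + 1) := by
      rw [hy]
      field_simp
      ring
    rw [hd]
    by_cases hc : y ≤ l / 8
    · rw [if_pos hc]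
      have h2 : -(2 * y + 1) / (x + 1) ≤ 32 / (n : ℝ) * (1 + |y| / l) := by
        rw [div_le_iff₀ hx0]
        have h3 : -(2 * y + 1) ≤ 2 * |y| + 1 := by linarith [neg_abs_le y]
        have h4 : 2 * |y| + 1 ≤ 2 * n * (1 + |y| / l) := by
          have h5 : |y| ≤ n * (|y| / l) := by
            rw [mul_div_assoc', le_div_iff₀ hl0, mul_comm]
            exact mul_le_mul_of_nonneg_right (by exact_mod_cast hln) (abs_nonneg _)
          nlinarith
        have h6 : 2 * (n : ℝ) * (1 + |y| / l) ≤ 32 / (n : ℝ) * (1 + |y| / l) * (x + 1) := by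
          have h7 : 0 ≤ 1 + |y| / l := by positivity
          have h8 : 2 * (n : ℝ) ≤ 32 / (n : ℝ) * (x + 1) := by
            rw [div_mul_eq_mul_div, le_div_iff₀ hn0]
            nlinarith
          nlinarith
        linarith
      have h3 : (q3 n l s k : ℝ) * (-(2 * y + 1) / (x + 1)) ≤
          (q3 n l s k : ℝ) * (32 / (n : ℝ) * (1 + |y| / l)) := mul_le_mul_of_nonneg_left h2 hQ
      have h4 : 0 ≤ 1 / (n : ℝ) * (q3 n l s k * (|y| / l)) := by positivity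
      have h5 : 0 ≤ 1 / (n : ℝ) * q3 n l s k := by positivity
      have e1 : 33 / (n : ℝ) * ((q3 n l s k : ℝ) * (1 + |y| / l)) =
          (q3 n l s k : ℝ) * (32 / (n : ℝ) * (1 + |y| / l)) +
            (1 / (n : ℝ) * q3 n l s k + 1 / (n : ℝ) * (q3 n l s k * (|y| / l))) := by ring
      have e2 : -(1 / (8 * (n : ℝ))) * q3 n l s k = -(1 / 8 * (1 / (n : ℝ) * q3 n l s k)) := by
        field_simp
      rw [e1, e2]
      linarith
    · rw [if_neg hc, add_zero]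
      rw [not_le] at hc
      have h2 : -(2 * y + 1) / (x + 1) ≤ -(1 / (8 * (n : ℝ))) := by
        rw [neg_div, neg_le_neg_iff, div_le_div_iff₀ (by positivity) hx0]
        nlinarith
      have := mul_le_mul_of_nonneg_left h2 hQ
      linarith
  · have e1 : q3 n l s k = 0 := by
      unfold q3 chz
      rw [if_pos h1, Nat.choose_eq_zero_of_lt (not_le.1 hx), mul_zero]
    have e2 : q3 n l s (k + 1) = 0 := by
      unfold q3 chz
      have h2 : (l * (n - l)).choose (k + 1 - s * (l - s)) = 0 :=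
        Nat.choose_eq_zero_of_lt (lt_of_lt_of_le (not_le.1 hx)
          (Nat.sub_le_sub_right (Nat.le_succ k) _))
      rw [if_pos (h1.trans (Nat.le_succ k)), h2, mul_zero]
    rw [e1, e2]
    simp

/-- The bad terms of one `l`. -/
theorem WZ3_bad {n l k : ℕ} {C η T : ℝ} (hn : 100 ≤ n)
    (hη1 : η ≤ 1 / 1000)
    (hsh : ∀ s : ℕ, 0 ≤ (l : ℝ) - (n : ℝ) / 2 → (l : ℝ) - (n : ℝ) / 2 ≤ η * n → 2 * s ≤ l →
      3 / 16 * (n : ℝ) ^ 2 ≤ k → y3 n l s k ≤ l / 8 →
      (q3 n l s k : ℝ) * (1 + |y3 n l s k| / l) ≤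
      exp (C * ((l : ℝ) - (n : ℝ) / 2) + C - ((l : ℝ) - (n : ℝ) / 2) ^ 2 / 5) *
        q3 n (l - ⌈((l : ℝ) - (n : ℝ) / 2) / 2⌉₊) s k)
    (hC : 0 < C) (hT : 10 * C + 16 ≤ 4 * T)
    (hl : |(l : ℝ) - (n : ℝ) / 2| ≤ η * n) (hk : 3 / 16 * (n : ℝ) ^ 2 + T * n ≤ k) :
    ∑ s ∈ (range l).filter (fun s : ℕ => y3 n l s k ≤ l / 8),
      (q3 n l s k : ℝ) * (1 + |y3 n l s k| / l) ≤
    if 4 * T - 1 ≤ (l : ℝ) - (n : ℝ) / 2 then
      2 * exp (-((l : ℝ) - (n : ℝ) / 2)) * F3 n k else 0 := by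
  have hn' : (100 : ℝ) ≤ n := by exact_mod_cast hn
  have hT0 : 0 < T := by linarith
  obtain ⟨hl1, hl2⟩ := abs_le.1 hl
  have hηn : η * n ≤ n / 1000 := by
    have := mul_le_mul_of_nonneg_right hη1 (by linarith : (0 : ℝ) ≤ n)
    linarith
  have hk0 : 3 / 16 * (n : ℝ) ^ 2 ≤ k := by nlinarith
  have hlr : (l : ℝ) ≤ 501 / 1000 * n := by linarith
  have hln : l < n := by
    have : (l : ℝ) < n := by linarith
    exact_mod_cast this
  split_ifs with hI
  · -- large I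
    obtain ⟨I, hIdef⟩ : ∃ I : ℝ, I = (l : ℝ) - (n : ℝ) / 2 := ⟨_, rfl⟩
    rw [← hIdef] at hI hsh hl2
    rw [← hIdef]
    have hI1 : 10 * C + 15 ≤ I := by linarith
    have hI0 : 0 ≤ I := by linarith
    obtain ⟨j, hj⟩ : ∃ j, j = ⌈I / 2⌉₊ := ⟨_, rfl⟩
    rw [← hj] at hsh
    have hj1 : (j : ℝ) < I / 2 + 1 := by rw [hj]; exact Nat.ceil_lt_add_one (by linarith)
    have hj2 : 2 * j < l := by
      have : (2 : ℝ) * j < l := by linarith
      exact_mod_cast this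
    have hE : exp (C * I + C - I ^ 2 / 5) ≤ exp (-I) := by
      refine exp_le_exp.2 ?_
      nlinarith
    have hterm : ∀ s : ℕ, 2 * s ≤ l → y3 n l s k ≤ l / 8 →
        (q3 n l s k : ℝ) * (1 + |y3 n l s k| / l) ≤ exp (-I) * q3 n (l - j) s k := by
      intro s hs hy
      refine (hsh s hI0 hl2 hs hk0 hy).trans ?_
      exact mul_le_mul_of_nonneg_right hE (Nat.cast_nonneg _)
    have hF3l : (F3l n (l - j) k : ℝ) ≤ F3 n k := by
      have : F3l n (l - j) k ≤ F3 n k := by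
        unfold F3
        exact single_le_sum (f := fun l => F3l n l k) (fun _ _ => Nat.zero_le _)
          (mem_range.2 (by omega))
      exact_mod_cast this
    rw [← sum_filter_add_sum_filter_not _ (fun s : ℕ => 2 * s ≤ l)]
    have hA : ∑ s ∈ ((range l).filter (fun s : ℕ => y3 n l s k ≤ l / 8)).filter
          (fun s : ℕ => 2 * s ≤ l), (q3 n l s k : ℝ) * (1 + |y3 n l s k| / l) ≤
        exp (-I) * F3 n k := by
      have h1 : ∑ s ∈ ((range l).filter (fun s : ℕ => y3 n l s k ≤ l / 8)).filter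
          (fun s : ℕ => 2 * s ≤ l), (q3 n l s k : ℝ) * (1 + |y3 n l s k| / l) ≤
          ∑ s ∈ range (l - j), exp (-I) * (q3 n (l - j) s k : ℝ) := by
        refine le_trans (sum_le_sum (g := fun s => exp (-I) * (q3 n (l - j) s k : ℝ)) ?_) ?_
        · intro s hs
          rw [mem_filter, mem_filter] at hs
          exact hterm s hs.2 hs.1.2
        · refine sum_le_sum_of_subset_of_nonneg ?_ (fun _ _ _ => by positivity)
          intro s hs
          rw [mem_filter, mem_filter] at hs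
          rw [mem_range]
          omega
      refine h1.trans ?_
      rw [← mul_sum]
      refine mul_le_mul_of_nonneg_left ?_ (exp_pos _).le
      refine le_trans (le_of_eq ?_) hF3l
      unfold F3l
      push_cast
      rfl
    have hB : ∑ s ∈ ((range l).filter (fun s : ℕ => y3 n l s k ≤ l / 8)).filter
          (fun s : ℕ => ¬ 2 * s ≤ l), (q3 n l s k : ℝ) * (1 + |y3 n l s k| / l) ≤
        exp (-I) * F3 n k := by
      have h1 : ∑ s ∈ ((range l).filter (fun s : ℕ => y3 n l s k ≤ l / 8)).filter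
          (fun s : ℕ => ¬ 2 * s ≤ l), (q3 n l s k : ℝ) * (1 + |y3 n l s k| / l) ≤
          ∑ s ∈ ((range l).filter (fun s : ℕ => y3 n l s k ≤ l / 8)).filter
          (fun s : ℕ => ¬ 2 * s ≤ l), exp (-I) * (q3 n (l - j) (l - s) k : ℝ) := by
        refine sum_le_sum ?_
        intro s hs
        rw [mem_filter, mem_filter, mem_range] at hs
        have hsl : s ≤ l := hs.1.1.le
        have ey : y3 n l (l - s) k = y3 n l s k := by
          unfold y3
          rw [Nat.cast_sub hsl]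
          ring
        have := hterm (l - s) (by omega) (by rw [ey]; exact hs.1.2)
        rwa [ey, q3_symm hsl] at this
      refine h1.trans ?_
      rw [← mul_sum]
      refine mul_le_mul_of_nonneg_left ?_ (exp_pos _).le
      have h2 : ∑ s ∈ ((range l).filter (fun s : ℕ => y3 n l s k ≤ l / 8)).filter
          (fun s : ℕ => ¬ 2 * s ≤ l), (q3 n (l - j) (l - s) k : ℝ) ≤
          ∑ s ∈ range (l - j), (q3 n (l - j) s k : ℝ) := by
        have hinj : Set.InjOn (fun s : ℕ => l - s)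
            (((range l).filter (fun s : ℕ => y3 n l s k ≤ l / 8)).filter
              (fun s : ℕ => ¬ 2 * s ≤ l) : Finset ℕ) := by
          intro s hs s' hs' h
          rw [mem_coe, mem_filter, mem_filter, mem_range] at hs hs'
          have h' : l - s = l - s' := h
          omega
        rw [← sum_image (f := fun t : ℕ => (q3 n (l - j) t k : ℝ)) hinj]
        refine sum_le_sum_of_subset_of_nonneg ?_ (fun _ _ _ => by positivity)
        intro t ht
        rw [mem_image] at ht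
        obtain ⟨s, hs, rfl⟩ := ht
        rw [mem_filter, mem_filter, mem_range] at hs
        rw [mem_range]
        omega
      refine h2.trans (le_trans (le_of_eq ?_) hF3l)
      unfold F3l
      push_cast
      rfl
    linarith
  · -- small I : no terms
    rw [not_le] at hI
    refine le_of_eq (sum_eq_zero ?_)
    intro s hs
    rw [mem_filter] at hs
    exfalso
    have h1 := hs.2
    rw [y3_eq] at h1
    nlinarith [sq_nonneg ((n : ℝ) / 2 - l), sq_nonneg ((l : ℝ) - 2 * s)]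

theorem WZ3_exp_small {c ε : ℝ} (hc : 0 < c) (hε : 0 < ε) : ∃ n0 : ℕ, ∀ n ≥ n0,
    (n : ℝ) * exp (-(c * n)) ≤ ε := by
  obtain ⟨n0, hn0⟩ := exists_nat_ge (2 / (c ^ 2 * ε))
  refine ⟨n0 + 1, fun n hn => ?_⟩
  have hn1 : (1 : ℝ) ≤ n := by
    have : 1 ≤ n := by omega
    exact_mod_cast this
  have hn2 : 2 / (c ^ 2 * ε) ≤ n := by
    refine hn0.trans ?_
    have : n0 ≤ n := by omega
    exact_mod_cast this
  have h1 : c * n * (c * n) / 2 ≤ exp (c * n) := by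
    have := quadratic_le_exp_of_nonneg (x := c * n) (by positivity)
    nlinarith
  rw [exp_neg, ← div_eq_mul_inv, div_le_iff₀ (exp_pos _)]
  rw [div_le_iff₀ (by positivity)] at hn2
  have h2 : (n : ℝ) ≤ ε * (c * n * (c * n) / 2) := by nlinarith
  exact h2.trans (mul_le_mul_of_nonneg_left h1 hε.le)

/-- **Zone 3**: right of the peak. `T0` large. Terms with `y3 ≤ l/8` (and `|l - n/2| ≤ η n`) have `l - n/2 ≥ T·4 - 1 =: I0` (`y3_eq`), and for them `q3 (1 + |y3|/l) ≤ exp(C I + C - I²/5) q3 n (l-j) s k` (`shift_down`, for `2s > l` by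
`q3_symm`), so their sum is at most `Σ_{I ≥ I0} 2 exp(CI + C - I²/5) F3 ≤ ε F3`. There `|(N+1)/(x+1) - 2| ≤ (C'/n)(1 + |y3|/l)`. For `y3 > l/8`: `(N+1)/(x+1) - 2 ≤ -c'/n`. So `F3 n (k+1) - F3 n k ≤ -(c'/n)(1-ε) F3 + (C'/n) ε F3 + negligible ≤
-(c''/n) F3`, and `F4 ≤ exp(-cn) F3` at `k` and `k+1`. -/
theorem zone3 : ∃ T0 : ℝ, 0 < T0 ∧ ∀ T ≥ T0, ∃ δ : ℝ, 0 < δ ∧ ∃ n0 : ℕ, ∀ n ≥ n0, ∀ k : ℕ,
    3 / 16 * (n : ℝ) ^ 2 + T * n ≤ k → (k : ℝ) ≤ (3 / 16 + δ) * (n : ℝ) ^ 2 →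
    (Fs n (k + 1) : ℝ) ≤ (1 - 1 / (n : ℝ) ^ 3) * Fs n k := by
  obtain ⟨C, η', hC, hη', n1, hshift⟩ := shift_down
  obtain ⟨η, hηdef⟩ : ∃ η : ℝ, η = min η' (1 / 1000) := ⟨_, rfl⟩
  have hη : 0 < η := by rw [hηdef]; exact lt_min hη' (by norm_num)
  have hηη' : η ≤ η' := by rw [hηdef]; exact min_le_left _ _
  have hη1 : η ≤ 1 / 1000 := by rw [hηdef]; exact min_le_right _ _
  obtain ⟨δ1, hδ1, c1, hc1, n2, hfar⟩ := F3l_far hη
  obtain ⟨δ2, hδ2, c2, hc2, n3, hF4⟩ := F4_le (ε0 := 1 / 16) (by norm_num)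
  refine ⟨(10 * C + 16) / 4, by positivity, fun T hT => ?_⟩
  obtain ⟨δ, hδdef⟩ : ∃ δ : ℝ, δ = min δ1 δ2 / 2 := ⟨_, rfl⟩
  have hδ : 0 < δ := by rw [hδdef]; exact half_pos (lt_min hδ1 hδ2)
  have hδδ1 : 2 * δ ≤ δ1 := by
    rw [hδdef]
    have := min_le_left δ1 δ2
    linarith
  have hδδ2 : 2 * δ ≤ δ2 := by
    rw [hδdef]
    have := min_le_right δ1 δ2
    linarith
  obtain ⟨n4, hn4⟩ := WZ3_exp_small hc1 (ε := 1 / 64) (by norm_num)
  obtain ⟨n5, hn5⟩ := WZ3_exp_small hc2 (ε := 1 / 32) (by norm_num)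
  obtain ⟨n6, hn6⟩ := exists_nat_ge (1 / δ)
  refine ⟨δ, hδ, n1 + n2 + n3 + n4 + n5 + n6 + 100, fun n hn k hk1 hk2 => ?_⟩
  have hT4 : 10 * C + 16 ≤ 4 * T := by linarith
  have hT0 : 0 < T := by linarith
  have hn100 : 100 ≤ n := by omega
  have hn' : (100 : ℝ) ≤ n := by exact_mod_cast hn100
  have hnpos : (0 : ℝ) < n := by linarith
  have hk0 : 3 / 16 * (n : ℝ) ^ 2 ≤ k := by nlinarith
  have hδn : 1 ≤ δ * (n : ℝ) ^ 2 := by
    have h1 : 1 / δ ≤ n := by
      refine hn6.trans ?_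
      have : n6 ≤ n := by omega
      exact_mod_cast this
    rw [div_le_iff₀ hδ] at h1
    nlinarith
  have hW : ∀ δ' : ℝ, 2 * δ ≤ δ' → Win δ' n k ∧ Win δ' n (k + 1) := by
    intro δ' hδ'
    have h0 : 0 ≤ (n : ℝ) ^ 2 := by positivity
    have h1 : 2 * δ * (n : ℝ) ^ 2 ≤ δ' * (n : ℝ) ^ 2 := mul_le_mul_of_nonneg_right hδ' h0
    have h2 : 0 ≤ δ' * (n : ℝ) ^ 2 := by nlinarith
    refine ⟨⟨by nlinarith, by nlinarith⟩, ⟨?_, ?_⟩⟩
    · push_cast
      nlinarith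
    · push_cast
      nlinarith
  have hfar' := hfar n (by omega) k (hW δ1 hδδ1).1
  have hF4a := hF4 n (by omega) k (hW δ2 hδδ2).1 (by linarith)
  have hF4b := hF4 n (by omega) (k + 1) (hW δ2 hδδ2).2 (by push_cast; linarith)
  have he1 : exp (-(c1 * (n : ℝ) ^ 2)) ≤ 1 / (64 * n) := by
    have h1 : exp (-(c1 * (n : ℝ) ^ 2)) ≤ exp (-(c1 * n)) := by
      refine exp_le_exp.2 ?_
      have : (n : ℝ) ≤ (n : ℝ) ^ 2 := by nlinarith
      nlinarith
    have h2 := hn4 n (by omega)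
    rw [le_div_iff₀ (by positivity)]
    nlinarith
  have he2 : exp (-(c2 * (n : ℝ))) ≤ 1 / (32 * n) := by
    have h2 := hn5 n (by omega)
    rw [le_div_iff₀ (by positivity)]
    nlinarith
  have hF3nn : (0 : ℝ) ≤ F3 n k := Nat.cast_nonneg _
  -- the three-layer part
  have hF3e : ∀ k' : ℕ, (F3 n k' : ℝ) = ∑ l ∈ range n, (F3l n l k' : ℝ) := by
    intro k'
    unfold F3
    push_cast
    rfl
  have hmain : (F3 n (k + 1) : ℝ) - F3 n k ≤ -(1 / (16 * (n : ℝ))) * F3 n k := by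
    rw [hF3e (k + 1), hF3e k, ← sum_sub_distrib, ← hF3e k]
    rw [← sum_filter_add_sum_filter_not (range n)
      (fun l : ℕ => η * n < |(l : ℝ) - (n : ℝ) / 2|)]
    have hfarS : ∑ l ∈ (range n).filter (fun l : ℕ => η * n < |(l : ℝ) - (n : ℝ) / 2|),
        ((F3l n l (k + 1) : ℝ) - F3l n l k) ≤ exp (-(c1 * (n : ℝ) ^ 2)) * F3 n k := by
      refine (sum_le_sum ?_).trans hfar'
      intro l _
      have h1 : (0 : ℝ) ≤ F3l n l k := Nat.cast_nonneg _
      linarith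
    have hfar0 : ∑ l ∈ (range n).filter (fun l : ℕ => η * n < |(l : ℝ) - (n : ℝ) / 2|),
        (F3l n l k : ℝ) ≤ exp (-(c1 * (n : ℝ) ^ 2)) * F3 n k := by
      refine (sum_le_sum ?_).trans hfar'
      intro l _
      have h1 : (0 : ℝ) ≤ F3l n l (k + 1) := Nat.cast_nonneg _
      linarith
    have hnear0 : (1 - exp (-(c1 * (n : ℝ) ^ 2))) * F3 n k ≤
        ∑ l ∈ (range n).filter (fun l : ℕ => ¬ η * n < |(l : ℝ) - (n : ℝ) / 2|),
        (F3l n l k : ℝ) := by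
      have h1 := sum_filter_add_sum_filter_not (range n)
        (fun l : ℕ => η * n < |(l : ℝ) - (n : ℝ) / 2|) (fun l => (F3l n l k : ℝ))
      rw [← hF3e k] at h1
      linarith
    have hnear : ∑ l ∈ (range n).filter (fun l : ℕ => ¬ η * n < |(l : ℝ) - (n : ℝ) / 2|),
        ((F3l n l (k + 1) : ℝ) - F3l n l k) ≤
        -(1 / (8 * (n : ℝ))) * ((1 - exp (-(c1 * (n : ℝ) ^ 2))) * F3 n k) +
          33 / (n : ℝ) * (4 * exp (-(4 * T - 1)) * F3 n k) := by
      have h1 : ∀ l ∈ (range n).filter (fun l : ℕ => ¬ η * n < |(l : ℝ) - (n : ℝ) / 2|),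
          ((F3l n l (k + 1) : ℝ) - F3l n l k) ≤ -(1 / (8 * (n : ℝ))) * F3l n l k +
            33 / (n : ℝ) * (if 4 * T - 1 ≤ (l : ℝ) - (n : ℝ) / 2 then
              2 * exp (-((l : ℝ) - (n : ℝ) / 2)) * F3 n k else 0) := by
        intro l hl
        rw [mem_filter, mem_range, not_lt] at hl
        have hl1 : |(l : ℝ) - (n : ℝ) / 2| ≤ n / 1000 := by
          refine hl.2.trans ?_
          have := mul_le_mul_of_nonneg_right hη1 hnpos.le
          linarith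
        have h2 : ((F3l n l (k + 1) : ℝ) - F3l n l k) ≤ ∑ s ∈ range l,
            (-(1 / (8 * (n : ℝ))) * (q3 n l s k : ℝ) + (if y3 n l s k ≤ l / 8 then
              33 / (n : ℝ) * ((q3 n l s k : ℝ) * (1 + |y3 n l s k| / l)) else 0)) := by
          have e1 : ((F3l n l (k + 1) : ℝ) - F3l n l k) =
              ∑ s ∈ range l, ((q3 n l s (k + 1) : ℝ) - q3 n l s k) := by
            unfold F3l
            push_cast
            rw [sum_sub_distrib]
          rw [e1]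
          refine sum_le_sum fun s hs => ?_
          exact WZ3_term (by omega) hl1 (mem_range.1 hs).le hk0
        refine h2.trans ?_
        rw [sum_add_distrib, ← mul_sum, ← sum_filter, ← mul_sum]
        have e2 : (∑ s ∈ range l, (q3 n l s k : ℝ)) = F3l n l k := by
          unfold F3l
          push_cast
          rfl
        rw [e2]
        refine add_le_add le_rfl (mul_le_mul_of_nonneg_left ?_ (by positivity))
        refine WZ3_bad (C := C) hn100 hη1 (fun s a1 a2 a3 a4 a5 => ?_) hC hT4 hl.2 hk1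
        exact hshift n (by omega) l s k a1
          (a2.trans (mul_le_mul_of_nonneg_right hηη' hnpos.le)) a3 a4 a5
      refine (sum_le_sum h1).trans ?_
      rw [sum_add_distrib, ← mul_sum, ← mul_sum]
      refine add_le_add ?_ (mul_le_mul_of_nonneg_left ?_ (by positivity))
      · have h3 : 0 ≤ 1 / (8 * (n : ℝ)) := by positivity
        have := mul_le_mul_of_nonneg_left hnear0 h3
        linarith
      · rw [← sum_filter]
        have h4 : ∑ l ∈ ((range n).filter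
              (fun l : ℕ => ¬ η * n < |(l : ℝ) - (n : ℝ) / 2|)).filter
              (fun l : ℕ => 4 * T - 1 ≤ (l : ℝ) - (n : ℝ) / 2),
              2 * exp (-((l : ℝ) - (n : ℝ) / 2)) * (F3 n k : ℝ) ≤
            ∑ l ∈ (range n).filter (fun l : ℕ => 4 * T - 1 ≤ (l : ℝ) - (n : ℝ) / 2),
              2 * exp (-((l : ℝ) - (n : ℝ) / 2)) * (F3 n k : ℝ) := by
          refine sum_le_sum_of_subset_of_nonneg ?_ (fun _ _ _ => by positivity)
          intro l hl
          rw [mem_filter, mem_filter] at hl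
          rw [mem_filter]
          exact ⟨hl.1.1, hl.2⟩
        refine h4.trans ?_
        rw [← sum_mul, ← mul_sum]
        refine mul_le_mul_of_nonneg_right ?_ hF3nn
        have := WZ3_geom n (4 * T - 1)
        linarith
    have hexpT : exp (-(4 * T - 1)) ≤ 1 / 32768 := by
      have h1 : exp (-(4 * T - 1)) ≤ exp (-1) ^ 15 := by
        rw [← exp_nat_mul]
        refine exp_le_exp.2 ?_
        push_cast
        linarith
      have h2 : exp (-1) ≤ 1 / 2 := by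
        rw [exp_neg, inv_eq_one_div]
        have := exp_one_gt_d9
        exact one_div_le_one_div_of_le (by norm_num) (by linarith)
      refine h1.trans ((pow_le_pow_left₀ (exp_pos _).le h2 15).trans ?_)
      norm_num
    obtain ⟨ex, hex⟩ : ∃ ex, ex = exp (-(c1 * (n : ℝ) ^ 2)) := ⟨_, rfl⟩
    obtain ⟨et, het⟩ : ∃ et, et = exp (-(4 * T - 1)) := ⟨_, rfl⟩
    obtain ⟨F, hF⟩ : ∃ F : ℝ, F = F3 n k := ⟨_, rfl⟩
    rw [← hex] at he1 hfarS hnear
    rw [← het] at hexpT hnear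
    rw [← hF] at hF3nn hfarS hnear
    rw [← hF]
    have hexn : 0 ≤ ex := by rw [hex]; exact (exp_pos _).le
    refine (add_le_add hfarS hnear).trans ?_
    have h5 : ex * F ≤ 1 / (64 * n) * F := mul_le_mul_of_nonneg_right he1 hF3nn
    have h6 : 1 / (8 * (n : ℝ)) * (ex * F) ≤ ex * F := by
      have h7 : 1 / (8 * (n : ℝ)) ≤ 1 := by
        rw [div_le_one (by positivity)]
        linarith
      have h8 : 0 ≤ ex * F := mul_nonneg hexn hF3nn
      nlinarith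
    have h9 : 33 / (n : ℝ) * (4 * et * F) ≤ 33 / (n : ℝ) * (4 * (1 / 32768) * F) := by
      refine mul_le_mul_of_nonneg_left ?_ (by positivity)
      refine mul_le_mul_of_nonneg_right ?_ hF3nn
      linarith
    have e5 : -(1 / (8 * (n : ℝ))) * ((1 - ex) * F) =
        -(1 / 8 * (1 / (n : ℝ) * F)) + 1 / (8 * (n : ℝ)) * (ex * F) := by
      field_simp
      ring
    have e6 : 1 / (64 * (n : ℝ)) * F = 1 / 64 * (1 / (n : ℝ) * F) := by
      field_simp
    have e7 : 33 / (n : ℝ) * (4 * (1 / 32768) * F) = 132 / 32768 * (1 / (n : ℝ) * F) := by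
      ring
    have e8 : -(1 / (16 * (n : ℝ))) * F = -(1 / 16 * (1 / (n : ℝ) * F)) := by
      field_simp
    rw [e5, e8]
    rw [e6] at h5
    rw [e7] at h9
    have h10 : 0 ≤ 1 / (n : ℝ) * F := by positivity
    linarith
  -- conclusion
  rw [Fs_split, Fs_split]
  push_cast
  obtain ⟨F, hF⟩ : ∃ F : ℝ, F = F3 n k := ⟨_, rfl⟩
  obtain ⟨G, hG⟩ : ∃ G : ℝ, G = F3 n (k + 1) := ⟨_, rfl⟩
  have hF40 : (0 : ℝ) ≤ F4 n k := Nat.cast_nonneg _
  rw [← hF] at hmain hF3nn hF4a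
  rw [← hG] at hmain hF4b
  rw [← hF, ← hG]
  have hG0 : 0 ≤ G := by rw [hG]; exact Nat.cast_nonneg _
  have h1 : G ≤ (1 - 1 / (16 * (n : ℝ))) * F := by linarith
  have h2 : (F4 n (k + 1) : ℝ) ≤ 1 / (32 * n) * G :=
    hF4b.trans (mul_le_mul_of_nonneg_right he2 hG0)
  have h3 : G ≤ F := by
    refine h1.trans ?_
    have : 0 ≤ 1 / (16 * (n : ℝ)) * F := by positivity
    linarith
  have h4 : (F4 n (k + 1) : ℝ) ≤ 1 / (32 * n) * F :=
    h2.trans (mul_le_mul_of_nonneg_left h3 (by positivity))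
  have h5 : 1 / (n : ℝ) ^ 3 ≤ 1 / (32 * n) := by
    refine one_div_le_one_div_of_le (by positivity) ?_
    nlinarith [sq_nonneg ((n : ℝ) - 32)]
  have h6 : 0 ≤ 1 - 1 / (n : ℝ) ^ 3 := by
    have : 1 / (32 * (n : ℝ)) ≤ 1 := by
      rw [div_le_one (by positivity)]
      linarith
    linarith
  have h7 : (1 - 1 / (n : ℝ) ^ 3) * F ≤ (1 - 1 / (n : ℝ) ^ 3) * (F + F4 n k) :=
    mul_le_mul_of_nonneg_left (by linarith) h6
  refine le_trans ?_ h7
  have e9 : 1 / (16 * (n : ℝ)) = 1 / (32 * n) + 1 / (32 * n) := by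
    field_simp
    norm_num
  have h8 : 1 / (n : ℝ) ^ 3 * F ≤ 1 / (32 * n) * F := mul_le_mul_of_nonneg_right h5 hF3nn
  rw [e9] at h1
  linarith

end Pool.Agent.H.MP_82502e_co
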