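import Pool.Agent.H.MP_82502e_co.WP2
import Pool.Agent.H.MP_82502e_co.WZ0
import Pool.Agent.H.MP_82502e_co.WZ1
import Pool.Agent.H.MP_82502e_co.WZ3
import Pool.Agent.H.MP_82502e_co.WUp
import Pool.Agent.H.MP_82502e_co.WLow

set_option autoImplicit false

/-!
# The window: the window
-/

namespace Pool.Agent.H.MP_82502e_co

open Finset Real

/-- The explicit sum is unimodal in the window: `ε0`, `δ` from `zone0`, `T = max` of the `T0` of `zone1`, `zone3`, and `zone2`; the `k0` of `zone2` is clamped to the zone: `k0' = min (max k0 A) B`, `A = ` the last integer `< 3n²/16 - T n` (at least: `⌈3n²/16 - T n⌉ - 1`), `B = ⌊3n²/16 + T n⌋ + 1`. -/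
theorem explicit_sum : ∃ δ C : ℝ, 0 < δ ∧ ∃ n0 : ℕ, ∀ n ≥ n0, ∃ k0 : ℕ,
    |(k0 : ℝ) - 3 / 16 * (n : ℝ) ^ 2| ≤ C * n ∧ ∀ k : ℕ, Win δ n k →
    (k < k0 → (1 + 1 / (n : ℝ) ^ 3) * (Fs n k : ℝ) ≤ Fs n (k + 1)) ∧
    (k0 < k → (Fs n (k + 1) : ℝ) ≤ (1 - 1 / (n : ℝ) ^ 3) * Fs n k) := by
  obtain ⟨ε0, hε0, δ0, hδ0, n0, h0⟩ := zone0
  obtain ⟨T1, hT1, h1⟩ := zone1
  obtain ⟨T3, hT3, h3⟩ := zone3
  have hT : 0 < max T1 T3 := lt_max_of_lt_left hT1
  obtain ⟨n1, h1⟩ := h1 (max T1 T3) (le_max_left _ _) ε0 hε0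
  obtain ⟨δ3, hδ3, n3, h3⟩ := h3 (max T1 T3) (le_max_right _ _)
  obtain ⟨n2, h2⟩ := zone2 hT
  generalize max T1 T3 = T at hT h1 h2 h3
  obtain ⟨n4, hn4⟩ := exists_nat_ge T
  refine ⟨min δ0 δ3, T + 1, lt_min hδ0 hδ3, max (max (max n0 n1) (max n2 n3)) (8 * n4 + 8),
    fun n hn => ?_⟩
  have hn4' : 8 * n4 + 8 ≤ n := le_trans (le_max_right _ _) hn
  replace hn : max (max n0 n1) (max n2 n3) ≤ n := le_trans (le_max_left _ _) hn
  have hn0 : n0 ≤ n := le_trans (le_trans (le_max_left _ _) (le_max_left _ _)) hn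
  have hn1 : n1 ≤ n := le_trans (le_trans (le_max_right _ _) (le_max_left _ _)) hn
  have hn2 : n2 ≤ n := le_trans (le_trans (le_max_left _ _) (le_max_right _ _)) hn
  have hn3 : n3 ≤ n := le_trans (le_trans (le_max_right _ _) (le_max_right _ _)) hn
  obtain ⟨k0, h2⟩ := h2 n hn2
  have hnn : (0 : ℝ) ≤ (n : ℝ) ^ 2 := by positivity
  have hTn : (0 : ℝ) ≤ T * n := by positivity
  have hn5 : (8 * n4 + 8 : ℝ) ≤ n := by exact_mod_cast hn4'
  have hT8 : T * n ≤ 1 / 8 * (n : ℝ) ^ 2 := by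
    have : T ≤ n / 8 := by linarith
    nlinarith [Nat.cast_nonneg (α := ℝ) n]
  refine ⟨min (max k0 ⌊3 / 16 * (n : ℝ) ^ 2 - T * n⌋₊) ⌈3 / 16 * (n : ℝ) ^ 2 + T * n⌉₊, ?_,
    fun k hk => ?_⟩
  · have e1 : (⌊3 / 16 * (n : ℝ) ^ 2 - T * n⌋₊ : ℝ) ≤
        (min (max k0 ⌊3 / 16 * (n : ℝ) ^ 2 - T * n⌋₊) ⌈3 / 16 * (n : ℝ) ^ 2 + T * n⌉₊ : ℕ) := by
      have e2 : ⌊3 / 16 * (n : ℝ) ^ 2 - T * n⌋₊ ≤ ⌈3 / 16 * (n : ℝ) ^ 2 + T * n⌉₊ :=
        (Nat.floor_mono (by linarith)).trans (Nat.floor_le_ceil _)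
      exact_mod_cast le_min (le_max_right _ _) e2
    have e3 : ((min (max k0 ⌊3 / 16 * (n : ℝ) ^ 2 - T * n⌋₊) ⌈3 / 16 * (n : ℝ) ^ 2 + T * n⌉₊ : ℕ) :
        ℝ) ≤ ⌈3 / 16 * (n : ℝ) ^ 2 + T * n⌉₊ := by
      exact_mod_cast min_le_right _ _
    have e4 := Nat.lt_floor_add_one (3 / 16 * (n : ℝ) ^ 2 - T * n)
    have e5 := Nat.ceil_lt_add_one (show 0 ≤ 3 / 16 * (n : ℝ) ^ 2 + T * n by positivity)
    have e6 : (1 : ℝ) ≤ n := by
      have : (0 : ℝ) ≤ n4 := Nat.cast_nonneg _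
      linarith
    rw [abs_le]
    constructor <;> linarith
  have hkl : (1 / 8 - δ0) * (n : ℝ) ^ 2 ≤ k := by
    have : (1 / 8 - δ0) * (n : ℝ) ^ 2 ≤ (1 / 8 - min δ0 δ3) * (n : ℝ) ^ 2 :=
      mul_le_mul_of_nonneg_right (by linarith [min_le_left δ0 δ3]) hnn
    exact this.trans hk.1
  have hku : (k : ℝ) ≤ (3 / 16 + δ3) * (n : ℝ) ^ 2 := by
    have : (3 / 16 + min δ0 δ3) * (n : ℝ) ^ 2 ≤ (3 / 16 + δ3) * (n : ℝ) ^ 2 :=
      mul_le_mul_of_nonneg_right (by linarith [min_le_right δ0 δ3]) hnn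
    exact hk.2.trans this
  rcases le_or_gt (k : ℝ) (3 / 16 * (n : ℝ) ^ 2 - T * n) with hA | hA
  · -- left of the peak
    have hinc : (1 + 1 / (n : ℝ) ^ 3) * (Fs n k : ℝ) ≤ Fs n (k + 1) := by
      rcases le_or_gt (k : ℝ) ((1 / 8 + ε0) * (n : ℝ) ^ 2) with hB | hB
      · exact h0 n hn0 k hkl hB
      · exact h1 n hn1 k hB.le hA
    refine ⟨fun _ => hinc, fun hk' => ?_⟩
    exfalso
    have e1 : k ≤ ⌊3 / 16 * (n : ℝ) ^ 2 - T * n⌋₊ := Nat.le_floor hA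
    have e2 : (k : ℝ) ≤ 3 / 16 * (n : ℝ) ^ 2 + T * n := by linarith
    have e3 : k ≤ ⌈3 / 16 * (n : ℝ) ^ 2 + T * n⌉₊ := by
      have := e2.trans (Nat.le_ceil (3 / 16 * (n : ℝ) ^ 2 + T * n))
      exact_mod_cast this
    have e4 : k ≤ min (max k0 ⌊3 / 16 * (n : ℝ) ^ 2 - T * n⌋₊) ⌈3 / 16 * (n : ℝ) ^ 2 + T * n⌉₊ :=
      le_min (e1.trans (le_max_right _ _)) e3
    omega
  · rcases lt_or_ge (k : ℝ) (3 / 16 * (n : ℝ) ^ 2 + T * n) with hB | hB
    · -- near the peak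
      have hz := h2 k (abs_le.2 ⟨by linarith, by linarith⟩)
      refine ⟨fun hk' => hz.1 ?_, fun hk' => hz.2 ?_⟩
      · have e1 : k < max k0 ⌊3 / 16 * (n : ℝ) ^ 2 - T * n⌋₊ := lt_of_lt_of_le hk' (min_le_left _ _)
        rcases lt_max_iff.1 e1 with e2 | e2
        · exact e2
        · exfalso
          have e3 : k + 1 ≤ ⌊3 / 16 * (n : ℝ) ^ 2 - T * n⌋₊ := e2
          rw [Nat.le_floor_iff' (Nat.succ_ne_zero k)] at e3
          push_cast at e3
          linarith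
      · have e1 : k < ⌈3 / 16 * (n : ℝ) ^ 2 + T * n⌉₊ := Nat.lt_ceil.2 hB
        rcases min_lt_iff.1 hk' with e2 | e2
        · exact lt_of_le_of_lt (le_max_left _ _) e2
        · omega
    · -- right of the peak
      refine ⟨fun hk' => ?_, fun _ => h3 n hn3 k hB hku⟩
      exfalso
      have e1 : k < ⌈3 / 16 * (n : ℝ) ^ 2 + T * n⌉₊ := lt_of_lt_of_le hk' (min_le_right _ _)
      have e2 := Nat.lt_ceil.1 e1
      linarith

/-- Monotonicity of the window. -/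
theorem WMain_mono {δ δ' : ℝ} {n k : ℕ} (h : δ ≤ δ') (hk : Win δ n k) : Win δ' n k := by
  have hnn : (0 : ℝ) ≤ (n : ℝ) ^ 2 := by positivity
  constructor
  · have : (1 / 8 - δ') * (n : ℝ) ^ 2 ≤ (1 / 8 - δ) * (n : ℝ) ^ 2 :=
      mul_le_mul_of_nonneg_right (by linarith) hnn
    exact this.trans hk.1
  · have : (3 / 16 + δ) * (n : ℝ) ^ 2 ≤ (3 / 16 + δ') * (n : ℝ) ^ 2 :=
      mul_le_mul_of_nonneg_right (by linarith) hnn
    exact hk.2.trans this

/-- The half window and its successor are in the window. -/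
theorem WMain_win {δ : ℝ} (hδ : 0 < δ) : ∃ n0 : ℕ, ∀ n ≥ n0, ∀ k : ℕ, Win (δ / 2) n k →
    Win δ n k ∧ Win δ n (k + 1) := by
  obtain ⟨n0, hn0⟩ := exists_nat_ge (2 / δ)
  refine ⟨max n0 1, fun n hn k hk => ⟨WMain_mono (by linarith) hk, ?_⟩⟩
  have h1 : (1 : ℝ) ≤ n := by exact_mod_cast (le_trans (le_max_right _ _) hn)
  have h2 : 2 / δ ≤ n := hn0.trans (by exact_mod_cast (le_trans (le_max_left _ _) hn))
  have h3 : 2 ≤ n * δ := by rwa [div_le_iff₀ hδ] at h2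
  have h4 : 2 ≤ (n : ℝ) ^ 2 * δ := by nlinarith
  constructor
  · have := (WMain_mono (show δ / 2 ≤ δ by linarith) hk).1
    push_cast
    linarith
  · have := hk.2
    push_cast
    nlinarith

/-- The exponential beats the cube. -/
theorem WMain_exp {c : ℝ} (hc : 0 < c) : ∃ n0 : ℕ, ∀ n : ℕ, n ≥ n0 →
    4 * exp (-(c * n)) < 1 / (n : ℝ) ^ 3 := by
  have h1 : Filter.Tendsto (fun x : ℝ => x ^ 3 * exp (-c * x)) Filter.atTop (nhds 0) := by
    have := tendsto_rpow_mul_exp_neg_mul_atTop_nhds_zero 3 c hc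
    refine this.congr (fun x => ?_)
    norm_cast
  have h2 : Filter.Tendsto (fun n : ℕ => (n : ℝ) ^ 3 * exp (-c * n)) Filter.atTop (nhds 0) :=
    h1.comp tendsto_natCast_atTop_atTop
  have h3 := h2.eventually (gt_mem_nhds (show (0 : ℝ) < 1 / 4 by norm_num))
  obtain ⟨n0, hn0⟩ := Filter.eventually_atTop.1 h3
  refine ⟨max n0 1, fun n hn => ?_⟩
  have h4 := hn0 n (le_trans (le_max_left _ _) hn)
  have h5 : (1 : ℝ) ≤ n := by exact_mod_cast (le_trans (le_max_right _ _) hn)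
  rw [lt_div_iff₀ (by positivity)]
  have h6 : -c * (n : ℝ) = -(c * n) := by ring
  rw [h6] at h4
  linarith

/-- **The window**: `upper`, `lower` at `k` and `k + 1` (`k + 1` is in a slightly larger window) and `explicit_sum`; `exp(-cn)` against `n^(-3)`; `Fs n k > 0` by `F3_lb`. -/
theorem window : ∃ δ C : ℝ, 0 < δ ∧ ∃ n0 : ℕ, ∀ n ≥ n0, ∃ k0 : ℕ,
    |(k0 : ℝ) - 3 / 16 * (n : ℝ) ^ 2| ≤ C * n ∧ ∀ k : ℕ, Win δ n k →
    (k < k0 → cnt n k < cnt n (k + 1)) ∧ (k0 < k → cnt n (k + 1) < cnt n k) := by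
  obtain ⟨δ1, C, hδ1, n1, h1⟩ := explicit_sum
  obtain ⟨δ2, hδ2, c2, hc2, n2, h2⟩ := upper
  obtain ⟨δ3, hδ3, c3, hc3, n3, h3⟩ := lower
  obtain ⟨δ4, hδ4, n4, h4⟩ := F3_lb (θ := 1) one_pos
  obtain ⟨n5, h5⟩ := WMain_exp (lt_min hc2 hc3)
  -- the window with half of the minimum
  have hδ : 0 < min (min δ1 δ2) (min δ3 δ4) := lt_min (lt_min hδ1 hδ2) (lt_min hδ3 hδ4)
  obtain ⟨n6, h6⟩ := WMain_win hδ
  refine ⟨min (min δ1 δ2) (min δ3 δ4) / 2, C, by positivity,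
    max (max (max n1 n2) (max n3 n4)) (max n5 (max n6 1)), fun n hn => ?_⟩
  have hn1 : n1 ≤ n := by omega
  have hn2 : n2 ≤ n := by omega
  have hn3 : n3 ≤ n := by omega
  have hn4 : n4 ≤ n := by omega
  have hn5 : n5 ≤ n := by omega
  have hn6 : n6 ≤ n := by omega
  have hn7 : 1 ≤ n := by omega
  obtain ⟨k0, hk0, h1⟩ := h1 n hn1
  refine ⟨k0, hk0, fun k hk => ?_⟩
  obtain ⟨w0, w1⟩ := h6 n hn6 k hk
  have m1 : min (min δ1 δ2) (min δ3 δ4) ≤ δ1 := (min_le_left _ _).trans (min_le_left _ _)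
  have m2 : min (min δ1 δ2) (min δ3 δ4) ≤ δ2 := (min_le_left _ _).trans (min_le_right _ _)
  have m3 : min (min δ1 δ2) (min δ3 δ4) ≤ δ3 := (min_le_right _ _).trans (min_le_left _ _)
  have m4 : min (min δ1 δ2) (min δ3 δ4) ≤ δ4 := (min_le_right _ _).trans (min_le_right _ _)
  have hn : (1 : ℝ) ≤ n := by exact_mod_cast hn7
  have hFpos : (0 : ℝ) < Fs n k := by
    have e1 := h4 n hn4 k (WMain_mono m4 w0)
    have e2 : (0 : ℝ) < F3 n k := lt_of_lt_of_le (exp_pos _) e1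
    have e3 : (F3 n k : ℝ) ≤ Fs n k := by
      rw [Fs_split]
      push_cast
      have : (0 : ℝ) ≤ F4 n k := Nat.cast_nonneg _
      linarith
    linarith
  have hFnn : (0 : ℝ) ≤ Fs n (k + 1) := Nat.cast_nonneg _
  have u0 := h2 n hn2 k (WMain_mono m2 w0)
  have u1 := h2 n hn2 (k + 1) (WMain_mono m2 w1)
  have l0 := h3 n hn3 k (WMain_mono m3 w0)
  have l1 := h3 n hn3 (k + 1) (WMain_mono m3 w1)
  have hz := h1 k (WMain_mono m1 w0)
  have hE := h5 n hn5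
  have hE2 : exp (-(c2 * n)) ≤ exp (-(min c2 c3 * n)) := by
    apply exp_le_exp.2
    have := mul_le_mul_of_nonneg_right (min_le_left c2 c3) (by linarith : (0 : ℝ) ≤ n)
    linarith
  have hE3 : exp (-(c3 * n)) ≤ exp (-(min c2 c3 * n)) := by
    apply exp_le_exp.2
    have := mul_le_mul_of_nonneg_right (min_le_right c2 c3) (by linarith : (0 : ℝ) ≤ n)
    linarith
  generalize exp (-(min c2 c3 * n)) = E at hE hE2 hE3
  have hEpos : 0 ≤ E := (exp_pos _).le.trans hE2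
  have hn3pos : (0 : ℝ) < 1 / (n : ℝ) ^ 3 := by positivity
  have hn3le : 1 / (n : ℝ) ^ 3 ≤ 1 := by
    rw [div_le_one (by positivity)]
    exact one_le_pow₀ hn
  generalize 1 / (n : ℝ) ^ 3 = d at hE hn3pos hn3le hz
  constructor
  · intro hk'
    have hz1 := hz.1 hk'
    have : (cnt n k : ℝ) < cnt n (k + 1) := by
      calc (cnt n k : ℝ) ≤ (1 + exp (-(c2 * n))) * Fs n k := u0
        _ ≤ (1 + E) * Fs n k := by
            apply mul_le_mul_of_nonneg_right _ hFpos.le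
            linarith
        _ < ((1 - E) * (1 + d)) * Fs n k := by
            apply mul_lt_mul_of_pos_right _ hFpos
            nlinarith
        _ = (1 - E) * ((1 + d) * Fs n k) := by ring
        _ ≤ (1 - E) * Fs n (k + 1) := by
            apply mul_le_mul_of_nonneg_left hz1
            linarith
        _ ≤ (1 - exp (-(c3 * n))) * Fs n (k + 1) := by
            apply mul_le_mul_of_nonneg_right _ hFnn
            linarith
        _ ≤ cnt n (k + 1) := l1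
    exact_mod_cast this
  · intro hk'
    have hz1 := hz.2 hk'
    have : (cnt n (k + 1) : ℝ) < cnt n k := by
      calc (cnt n (k + 1) : ℝ) ≤ (1 + exp (-(c2 * n))) * Fs n (k + 1) := u1
        _ ≤ (1 + E) * Fs n (k + 1) := by
            apply mul_le_mul_of_nonneg_right _ hFnn
            linarith
        _ ≤ (1 + E) * ((1 - d) * Fs n k) := by
            apply mul_le_mul_of_nonneg_left hz1
            linarith
        _ = ((1 + E) * (1 - d)) * Fs n k := by ring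
        _ < (1 - E) * Fs n k := by
            apply mul_lt_mul_of_pos_right _ hFpos
            nlinarith
        _ ≤ (1 - exp (-(c3 * n))) * Fs n k := by
            apply mul_le_mul_of_nonneg_right _ hFpos.le
            linarith
        _ ≤ cnt n k := l0
    exact_mod_cast this

end Pool.Agent.H.MP_82502e_co
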