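import Pool.Agent.H.MP_82502e_co.Outside
import Pool.Agent.H.MP_82502e_co.WMain

set_option autoImplicit false

/-!
# Unimodality for large `n`
-/

namespace Pool.Agent.H.MP_82502e_co

/-- A sequence that increases before `m` and decreases after `m` is unimodal (the step from `m` to
`m + 1` is arbitrary). -/
theorem unimodal_of_steps (a : ℕ → ℕ) (m : ℕ) (h1 : ∀ k < m, a k ≤ a (k + 1))
    (h2 : ∀ k, m < k → a (k + 1) ≤ a k) :
    ∃ M : ℕ, (∀ i j : ℕ, i ≤ j → j ≤ M → a i ≤ a j) ∧ ∀ i j : ℕ, M ≤ i → i ≤ j → a j ≤ a i := by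
  have up : ∀ M : ℕ, (∀ k < M, a k ≤ a (k + 1)) → ∀ i j : ℕ, i ≤ j → j ≤ M → a i ≤ a j := by
    intro M hM i j hij
    induction j, hij using Nat.le_induction with
    | base => exact fun _ => le_rfl
    | succ j hij ih => exact fun hj => (ih (by omega)).trans (hM j (by omega))
  have dn : ∀ M : ℕ, (∀ k, M ≤ k → a (k + 1) ≤ a k) → ∀ i j : ℕ, M ≤ i → i ≤ j → a j ≤ a i := by
    intro M hM i j hi hij
    induction j, hij using Nat.le_induction with
    | base => exact le_rfl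
    | succ j hij ih => exact (hM j (by omega)).trans ih
  by_cases h : a m ≤ a (m + 1)
  · refine ⟨m + 1, up _ fun k hk => ?_, dn _ fun k hk => h2 k (by omega)⟩
    rcases Nat.lt_succ_iff_lt_or_eq.1 hk with hk | hk
    · exact h1 k hk
    · rw [hk]; exact h
  · refine ⟨m, up _ h1, dn _ fun k hk => ?_⟩
    rcases Nat.lt_or_eq_of_le hk with hk | hk
    · exact h2 k hk
    · rw [← hk]; exact (not_le.1 h).le

/-- There are no posets with more than `n(n-1)/2` relations. -/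
theorem cnt_eq_zero {n k : ℕ} (h : n * (n - 1) < 2 * k) : cnt n k = 0 := by
  classical
  unfold cnt
  rw [Finset.card_eq_zero, Finset.eq_empty_iff_forall_notMem]
  intro S hS
  obtain ⟨hp, hc⟩ := mem_PO.1 hS
  have h1 : S ∪ S.map (Equiv.prodComm (Fin n) (Fin n)).toEmbedding ⊆ Finset.univ.offDiag := by
    intro p hp'
    rw [Finset.mem_offDiag]
    refine ⟨Finset.mem_univ _, Finset.mem_univ _, fun h2 => ?_⟩
    rcases Finset.mem_union.1 hp' with h3 | h3
    · exact hp.1 p.1 (by rw [show (p.1, p.1) = p from Prod.ext rfl h2]; exact h3)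
    · rw [Finset.mem_map] at h3
      obtain ⟨q, hq, hqp⟩ := h3
      have h4 : q = p.swap := by
        rw [← hqp]
        rfl
      exact hp.1 p.1 (by rw [show (p.1, p.1) = q from by rw [h4]; exact Prod.ext h2 rfl]; exact hq)
  have h2 : Disjoint S (S.map (Equiv.prodComm (Fin n) (Fin n)).toEmbedding) := by
    rw [Finset.disjoint_left]
    intro p hp1 hp2
    rw [Finset.mem_map] at hp2
    obtain ⟨q, hq, hqp⟩ := hp2
    have h4 : q = (p.2, p.1) := by
      rw [← hqp]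
      rfl
    rw [h4] at hq
    exact hp.1 p.1 (hp.2 _ _ _ (show (p.1, p.2) ∈ S from hp1) hq)
  have h3 := Finset.card_le_card h1
  rw [Finset.card_union_of_disjoint h2, Finset.card_map, Finset.offDiag_card, Finset.card_univ,
    Fintype.card_fin, hc] at h3
  have h5 : n * (n - 1) = n * n - n := by rw [Nat.mul_sub, mul_one]
  omega

/-- **The shape of the sequence for large `n`.** -/
theorem peak : ∃ C : ℝ, ∃ n0 : ℕ, ∀ n ≥ n0, ∃ k0 : ℕ,
    |(k0 : ℝ) - 3 / 16 * (n : ℝ) ^ 2| ≤ C * n ∧ (∀ k < k0, cnt n k < cnt n (k + 1)) ∧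
    ∀ k : ℕ, k0 < k → 2 * (k + 1) ≤ n * (n - 1) → cnt n (k + 1) < cnt n k := by
  obtain ⟨δ, C, hδ, n1, h1⟩ := window
  obtain ⟨n2, h2⟩ := outside hδ
  obtain ⟨n3, hn3⟩ := exists_nat_ge (|C| * (1 / δ + 16))
  refine ⟨C, max (max n1 n2) n3, fun n hn => ?_⟩
  obtain ⟨k0, hk0, hk⟩ := h1 n (le_trans (le_trans (le_max_left _ _) (le_max_left _ _)) hn)
  have h3 := h2 n (le_trans (le_trans (le_max_right _ _) (le_max_left _ _)) hn)
  have hn4 : (n3 : ℝ) ≤ n := by exact_mod_cast le_trans (le_max_right _ _) hn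
  have hn5 : (0 : ℝ) ≤ n := Nat.cast_nonneg n
  have hC : C * n ≤ |C| * n := mul_le_mul_of_nonneg_right (le_abs_self C) hn5
  have h16 : |C| * 16 ≤ n := by
    have : |C| * 16 ≤ |C| * (1 / δ + 16) :=
      mul_le_mul_of_nonneg_left (by linarith [one_div_pos.2 hδ]) (abs_nonneg C)
    linarith
  have hCδ : |C| ≤ δ * n := by
    have h4 : |C| * (1 / δ) ≤ n := by
      have : |C| * (1 / δ) ≤ |C| * (1 / δ + 16) :=
        mul_le_mul_of_nonneg_left (by linarith) (abs_nonneg C)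
      linarith
    rw [mul_one_div, div_le_iff₀ hδ] at h4
    linarith
  have h5 : |C| * n ≤ δ * (n : ℝ) ^ 2 := by nlinarith
  have h6 : |C| * n ≤ 1 / 16 * (n : ℝ) ^ 2 := by nlinarith
  have h7 := abs_le.1 hk0
  refine ⟨k0, hk0, fun k hkk => ?_, fun k hkk hkN => ?_⟩
  · by_cases hka : (k : ℝ) ≤ (1 / 8 - δ) * (n : ℝ) ^ 2
    · exact (h3 k).1 hka
    · have h8 : (k : ℝ) ≤ k0 := by exact_mod_cast hkk.le
      exact (hk k ⟨(not_le.1 hka).le, by linarith⟩).1 hkk
  · by_cases hkb : (3 / 16 + δ) * (n : ℝ) ^ 2 ≤ k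
    · exact (h3 k).2 hkb hkN
    · have h8 : (k0 : ℝ) ≤ k := by exact_mod_cast hkk.le
      have h9 : 0 ≤ δ * (n : ℝ) ^ 2 := by positivity
      exact (hk k ⟨by linarith, (not_le.1 hkb).le⟩).2 hkk

/-- **Unimodality for large `n`.** -/
theorem unimodal_of_peak {n k0 : ℕ} (h1 : ∀ k < k0, cnt n k < cnt n (k + 1))
    (h2 : ∀ k : ℕ, k0 < k → 2 * (k + 1) ≤ n * (n - 1) → cnt n (k + 1) < cnt n k) : ∃ M : ℕ,
    (∀ i j : ℕ, i ≤ j → j ≤ M → cnt n i ≤ cnt n j) ∧ ∀ i j : ℕ, M ≤ i → i ≤ j → cnt n j ≤ cnt n i := by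
  refine unimodal_of_steps (cnt n) k0 (fun k hk => (h1 k hk).le) fun k hk => ?_
  by_cases hkN : 2 * (k + 1) ≤ n * (n - 1)
  · exact (h2 k hk hkN).le
  · rw [cnt_eq_zero (not_le.1 hkN)]
    exact Nat.zero_le _

end Pool.Agent.H.MP_82502e_co
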