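import Pool.Agent.H.MP_82502e_co.Encode

set_option autoImplicit false

/-!
# The flip lemmas
`S` is a naturally labelled poset whose pairs outside `R` are the given set `W` and which has `K`
pairs in `R`. Each forced pair of `R` reduces the number of free positions.
-/

namespace Pool.Agent.H.MP_82502e_co

open Finset

variable {n : ℕ}

/-- The pairs of `R \ S` for which `D(x) ⊆ D(y)` fails. -/
def DF (R S : Finset (Fin n × Fin n)) : Finset (Fin n × Fin n) :=
  (R \ S).filter fun p => ¬ Dn S p.1 ⊆ Dn S p.2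

/-- The pairs of `R \ S` for which `U(y) ⊆ U(x)` fails. -/
def UF (R S : Finset (Fin n × Fin n)) : Finset (Fin n × Fin n) :=
  (R \ S).filter fun p => ¬ Up S p.2 ⊆ Up S p.1

/-- The pairs of `S ∩ R` which are not covers. -/
def NC (R S : Finset (Fin n × Fin n)) : Finset (Fin n × Fin n) :=
  (S ∩ R) \ Cov S

open scoped Classical in
/-- The naturally labelled posets with part `W` outside `R` and `K` pairs in `R`. -/
noncomputable def Fam (R W : Finset (Fin n × Fin n)) (K : ℕ) :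
    Finset (Finset (Fin n × Fin n)) :=
  univ.filter fun S => IsPO S ∧ Nat' S ∧ S \ R = W ∧ (S ∩ R).card = K

open scoped Classical in
theorem mem_Fam {R W : Finset (Fin n × Fin n)} {K : ℕ} {S : Finset (Fin n × Fin n)} :
    S ∈ Fam R W K ↔ IsPO S ∧ Nat' S ∧ S \ R = W ∧ (S ∩ R).card = K := by
  unfold Fam
  rw [mem_filter]
  exact ⟨fun h => h.2, fun h => ⟨mem_univ _, h⟩⟩

theorem mem_NC {R S : Finset (Fin n × Fin n)} {e : Fin n × Fin n} :
    e ∈ NC R S ↔ e ∈ S ∧ e ∈ R ∧ ∃ z, (e.1, z) ∈ S ∧ (z, e.2) ∈ S := by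
  unfold NC Cov
  rw [mem_sdiff, mem_inter, mem_filter]
  constructor
  · rintro ⟨⟨h1, h2⟩, h3⟩
    refine ⟨h1, h2, ?_⟩
    by_contra hc
    exact h3 ⟨h1, fun z hz => hc ⟨z, hz⟩⟩
  · rintro ⟨h1, h2, z, hz⟩
    exact ⟨⟨h1, h2⟩, fun h => h.2 z hz⟩

theorem mem_DF' {R S : Finset (Fin n × Fin n)} {e : Fin n × Fin n} :
    e ∈ DF R S ↔ e ∈ R ∧ e ∉ S ∧ ¬ Dn S e.1 ⊆ Dn S e.2 := by
  unfold DF
  rw [mem_filter, mem_sdiff, and_assoc]

theorem mem_UF' {R S : Finset (Fin n × Fin n)} {e : Fin n × Fin n} :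
    e ∈ UF R S ↔ e ∈ R ∧ e ∉ S ∧ ¬ Up S e.2 ⊆ Up S e.1 := by
  unfold UF
  rw [mem_filter, mem_sdiff, and_assoc]

theorem mem_DF {R S : Finset (Fin n × Fin n)} {e : Fin n × Fin n} :
    e ∈ DF R S ↔ e ∈ R ∧ e ∉ S ∧ ∃ z, (z, e.1) ∈ S ∧ (z, e.2) ∉ S := by
  rw [mem_DF', not_subset]
  refine and_congr_right fun _ => and_congr_right fun _ => ?_
  refine exists_congr fun z => ?_
  unfold Dn
  rw [mem_filter, mem_filter]
  simp

theorem mem_UF {R S : Finset (Fin n × Fin n)} {e : Fin n × Fin n} :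
    e ∈ UF R S ↔ e ∈ R ∧ e ∉ S ∧ ∃ z, (e.2, z) ∈ S ∧ (e.1, z) ∉ S := by
  rw [mem_UF', not_subset]
  refine and_congr_right fun _ => and_congr_right fun _ => ?_
  refine exists_congr fun z => ?_
  unfold Up
  rw [mem_filter, mem_filter]
  simp

theorem NC_subset' (R S : Finset (Fin n × Fin n)) : NC R S ⊆ S ∩ R := sdiff_subset

theorem NC_subset (R S : Finset (Fin n × Fin n)) : NC R S ⊆ R :=
  (NC_subset' R S).trans inter_subset_right

theorem DF_subset (R S : Finset (Fin n × Fin n)) : DF R S ⊆ R :=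
  (filter_subset _ _).trans sdiff_subset

theorem UF_subset (R S : Finset (Fin n × Fin n)) : UF R S ⊆ R :=
  (filter_subset _ _).trans sdiff_subset

/-- Members of `Fam` agree outside `R`. -/
theorem mem_iff_of_Fam {R W : Finset (Fin n × Fin n)} {K : ℕ} {P Q : Finset (Fin n × Fin n)}
    (hP : P ∈ Fam R W K) (hQ : Q ∈ Fam R W K) {e : Fin n × Fin n} (he : e ∉ R) :
    e ∈ P ↔ e ∈ Q := by
  have h1 := (mem_Fam.1 hP).2.2.1
  have h2 := (mem_Fam.1 hQ).2.2.1
  constructor
  · intro h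
    have h3 : e ∈ P \ R := mem_sdiff.2 ⟨h, he⟩
    rw [h1, ← h2] at h3
    exact (mem_sdiff.1 h3).1
  · intro h
    have h3 : e ∈ Q \ R := mem_sdiff.2 ⟨h, he⟩
    rw [h2, ← h1] at h3
    exact (mem_sdiff.1 h3).1

theorem choose_add_le (a b j : ℕ) : a.choose b ≤ (a + j).choose (b + j) := by
  induction j with
  | zero => exact le_rfl
  | succ j ih =>
    refine ih.trans ?_
    rw [← Nat.add_assoc, ← Nat.add_assoc, Nat.choose_succ_succ]
    exact Nat.le_add_right _ _

/-- Summation over the exact value of `φ`. -/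
theorem card_filter_ge_le {ι : Type*} {F : Finset ι} {φ : ι → ℕ} {B m g : ℕ}
    (hφ : ∀ S ∈ F, φ S ≤ m) (hB : ∀ g', g ≤ g' → (F.filter fun S => φ S = g').card ≤ B) :
    (F.filter fun S => g ≤ φ S).card ≤ (m + 1) * B := by
  classical
  have h1 : ∀ S ∈ F.filter fun S => g ≤ φ S, φ S ∈ range (m + 1) := by
    intro S hS
    rw [mem_filter] at hS
    exact mem_range.2 (Nat.lt_succ_of_le (hφ S hS.1))
  rw [card_eq_sum_card_fiberwise (f := φ) (t := range (m + 1)) h1]
  have h2 : ∀ b ∈ range (m + 1),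
      ((F.filter fun S => g ≤ φ S).filter fun S => φ S = b).card ≤ B := by
    intro b _
    by_cases hb : g ≤ b
    · refine le_trans (card_le_card ?_) (hB b hb)
      exact filter_subset_filter _ (filter_subset _ _)
    · rw [filter_filter, filter_false_of_mem, card_empty]
      · exact Nat.zero_le _
      · intro S _ h
        exact hb (h.2 ▸ h.1)
  refine (sum_le_card_nsmul _ _ _ h2).trans (le_of_eq ?_)
  rw [card_range, smul_eq_mul]

open scoped Classical in
/-- All of them. Proof: `S ↦ S ∩ R` is injective into `powersetCard K R` (or `encode_one` with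
`free P e := e ∈ R`). -/
theorem card_Fam (R W : Finset (Fin n × Fin n)) (K : ℕ) :
    (Fam R W K).card ≤ R.card.choose K := by
  rw [← card_powersetCard K R]
  refine card_le_card_of_injOn (fun S => S ∩ R) ?_ ?_
  · intro S hS
    obtain ⟨_, _, _, h4⟩ := mem_Fam.1 hS
    exact mem_coe.2 (mem_powersetCard.2 ⟨inter_subset_right, h4⟩)
  · intro S hS T hT h
    obtain ⟨_, _, h3, _⟩ := mem_Fam.1 hS
    obtain ⟨_, _, h3', _⟩ := mem_Fam.1 hT
    have h5 : S ∩ R = T ∩ R := h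
    rw [← sdiff_union_inter S R, ← sdiff_union_inter T R, h3, h3', h5]

open scoped Classical in
/-- **Flip lemma for non-covers**, exactly `g` of them.

Proof. `encode_one` with a time `τ` that is increasing in the length `y - x`:
`τ p = ((p.2 - p.1 : ℕ) * n + p.1) * n + p.2` (natural subtraction; injective since `p.1, p.2 < n`);
`free P e := e ∈ R ∧ ¬ (e.1 < e.2 ∧ ∃ z, e.1 < z ∧ z < e.2 ∧ (e.1, z) ∈ P ∧ (z, e.2) ∈ P)`.
If `e.1 < z < e.2` then the pairs `(e.1, z)`, `(z, e.2)` have smaller length, so a smaller time: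
`free` depends only on the past. A position that is not free is either outside `R` (membership is
membership in `W`) or is in `P` by transitivity. Free positions: for `P` in the family the non-free
elements of `R` are exactly those of `NC R P` (a non-cover `(x,y) ∈ P` has `z` with `(x,z),(z,y) ∈ P`, and
`x < z < y` because `P` is natural; conversely such `z` puts `e` into `P` by transitivity and it is
not a cover), so there are `|R| - g` free positions and `K - g` of them are in `P`. -/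
theorem flip_nc (R W : Finset (Fin n × Fin n)) (K g : ℕ) :
    ((Fam R W K).filter fun S => (NC R S).card = g).card ≤ (R.card - g).choose (K - g) := by
  have hNC : ∀ P ∈ Fam R W K, ∀ e, (e ∈ R ∧ e.1 < e.2 ∧ ∃ z, e.1 < z ∧ z < e.2 ∧
      (e.1, z) ∈ P ∧ (z, e.2) ∈ P) ↔ e ∈ NC R P := by
    intro P hP e
    obtain ⟨hpo, hnat, _, _⟩ := mem_Fam.1 hP
    rw [mem_NC]
    constructor
    · rintro ⟨h1, _, z, _, _, h5, h6⟩
      exact ⟨hpo.2 _ _ _ h5 h6, h1, z, h5, h6⟩
    · rintro ⟨h1, h2, z, h5, h6⟩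
      exact ⟨h2, hnat _ h1, z, hnat _ h5, hnat _ h6, h5, h6⟩
  refine encode_free (fun p => (p.2 : ℕ) - p.1) _
    (fun P e => e ∈ R ∧ ¬ (e.1 < e.2 ∧ ∃ z, e.1 < z ∧ z < e.2 ∧ (e.1, z) ∈ P ∧ (z, e.2) ∈ P))
    ?_ _ _ ?_ ?_
  · intro P hP Q hQ e hag
    rw [mem_filter] at hP hQ
    have hiff : (e.1 < e.2 ∧ ∃ z, e.1 < z ∧ z < e.2 ∧ (e.1, z) ∈ P ∧ (z, e.2) ∈ P) ↔
        (e.1 < e.2 ∧ ∃ z, e.1 < z ∧ z < e.2 ∧ (e.1, z) ∈ Q ∧ (z, e.2) ∈ Q) := by
      refine and_congr_right fun _ => exists_congr fun z => and_congr_right fun h1 =>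
        and_congr_right fun h2 => ?_
      have h1' : (e.1 : ℕ) < z := h1
      have h2' : (z : ℕ) < e.2 := h2
      rw [hag (e.1, z) (by simp only; omega), hag (z, e.2) (by simp only; omega)]
    refine ⟨and_congr_right fun _ => not_congr hiff, ?_⟩
    intro hnf
    by_cases heR : e ∈ R
    · have h1 : e.1 < e.2 ∧ ∃ z, e.1 < z ∧ z < e.2 ∧ (e.1, z) ∈ P ∧ (z, e.2) ∈ P := by
        by_contra hc
        exact hnf ⟨heR, hc⟩
      have h2 := (mem_NC.1 ((hNC P hP.1 e).1 ⟨heR, h1⟩)).1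
      have h3 := (mem_NC.1 ((hNC Q hQ.1 e).1 ⟨heR, hiff.1 h1⟩)).1
      exact ⟨fun _ => h3, fun _ => h2⟩
    · exact mem_iff_of_Fam hP.1 hQ.1 heR
  · intro P hP
    rw [mem_filter] at hP
    have h1 : (univ.filter fun e => e ∈ R ∧ ¬ (e.1 < e.2 ∧ ∃ z, e.1 < z ∧ z < e.2 ∧
        (e.1, z) ∈ P ∧ (z, e.2) ∈ P)) ⊆ R \ NC R P := by
      intro e he
      rw [mem_filter] at he
      rw [mem_sdiff]
      exact ⟨he.2.1, fun h => he.2.2 ((hNC P hP.1 e).2 h).2⟩
    refine (card_le_card h1).trans (le_of_eq ?_)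
    rw [card_sdiff_of_subset (NC_subset R P), hP.2]
  · intro P hP
    rw [mem_filter] at hP
    have h1 : (P.filter fun e => e ∈ R ∧ ¬ (e.1 < e.2 ∧ ∃ z, e.1 < z ∧ z < e.2 ∧
        (e.1, z) ∈ P ∧ (z, e.2) ∈ P)) = (P ∩ R) \ NC R P := by
      ext e
      rw [mem_filter, mem_sdiff, mem_inter]
      constructor
      · rintro ⟨h1, h2, h3⟩
        exact ⟨⟨h1, h2⟩, fun h => h3 ((hNC P hP.1 e).2 h).2⟩
      · rintro ⟨⟨h1, h2⟩, h3⟩
        exact ⟨h1, h2, fun h => h3 ((hNC P hP.1 e).1 ⟨h2, h⟩)⟩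
    rw [h1, card_sdiff_of_subset (NC_subset' R P), hP.2, (mem_Fam.1 hP.1).2.2.2]

open scoped Classical in
/-- **Flip lemma for D-violations**, exactly `f` of them. `R` consists of pairs `x < y`.

Proof. `encode_one` with `τ p = p.1 * n + p.2` and
`free P e := e ∈ R ∧ ¬ ∃ z, z < e.1 ∧ (z, e.1) ∈ P ∧ (z, e.2) ∉ P`; the pairs `(z, ·)` with `z < e.1` have
smaller time. A position which is not free is outside `R` (membership in `W`) or is not in `P`:
if `(z, e.1) ∈ P` and `e ∈ P` then `(z, e.2) ∈ P` by transitivity. For `P` in the family the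
non-free elements of `R` are exactly those of `DF R P` (if `z ∈ D(x)` then `z < x` as `P` is
natural): `|R| - f` free positions, all `K` elements of `P ∩ R` are free. -/
theorem flip_df (R W : Finset (Fin n × Fin n)) (K f : ℕ) :
    ((Fam R W K).filter fun S => (DF R S).card = f).card ≤ (R.card - f).choose K := by
  have hDF : ∀ P ∈ Fam R W K, ∀ e, (e ∈ R ∧ ∃ z, z < e.1 ∧ (z, e.1) ∈ P ∧ (z, e.2) ∉ P) ↔
      e ∈ DF R P := by
    intro P hP e
    obtain ⟨hpo, hnat, _, _⟩ := mem_Fam.1 hP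
    rw [mem_DF]
    constructor
    · rintro ⟨h1, z, _, h5, h6⟩
      exact ⟨h1, fun h => h6 (hpo.2 _ _ _ h5 h), z, h5, h6⟩
    · rintro ⟨h1, _, z, h5, h6⟩
      exact ⟨h1, z, hnat _ h5, h5, h6⟩
  refine encode_free (fun p => (p.1 : ℕ)) _
    (fun P e => e ∈ R ∧ ¬ ∃ z, z < e.1 ∧ (z, e.1) ∈ P ∧ (z, e.2) ∉ P) ?_ _ _ ?_ ?_
  · intro P hP Q hQ e hag
    rw [mem_filter] at hP hQ
    have hiff : (∃ z, z < e.1 ∧ (z, e.1) ∈ P ∧ (z, e.2) ∉ P) ↔
        (∃ z, z < e.1 ∧ (z, e.1) ∈ Q ∧ (z, e.2) ∉ Q) := by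
      refine exists_congr fun z => and_congr_right fun h1 => ?_
      have h1' : (z : ℕ) < e.1 := h1
      rw [hag (z, e.1) h1', hag (z, e.2) h1']
    refine ⟨and_congr_right fun _ => not_congr hiff, ?_⟩
    intro hnf
    by_cases heR : e ∈ R
    · have h1 : ∃ z, z < e.1 ∧ (z, e.1) ∈ P ∧ (z, e.2) ∉ P := by
        by_contra hc
        exact hnf ⟨heR, hc⟩
      have h2 := (mem_DF.1 ((hDF P hP.1 e).1 ⟨heR, h1⟩)).2.1
      have h3 := (mem_DF.1 ((hDF Q hQ.1 e).1 ⟨heR, hiff.1 h1⟩)).2.1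
      exact ⟨fun h => absurd h h2, fun h => absurd h h3⟩
    · exact mem_iff_of_Fam hP.1 hQ.1 heR
  · intro P hP
    rw [mem_filter] at hP
    have h1 : (univ.filter fun e => e ∈ R ∧ ¬ ∃ z, z < e.1 ∧ (z, e.1) ∈ P ∧
        (z, e.2) ∉ P) ⊆ R \ DF R P := by
      intro e he
      rw [mem_filter] at he
      rw [mem_sdiff]
      exact ⟨he.2.1, fun h => he.2.2 ((hDF P hP.1 e).2 h).2⟩
    refine (card_le_card h1).trans (le_of_eq ?_)
    rw [card_sdiff_of_subset (DF_subset R P), hP.2]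
  · intro P hP
    rw [mem_filter] at hP
    have h1 : (P.filter fun e => e ∈ R ∧ ¬ ∃ z, z < e.1 ∧ (z, e.1) ∈ P ∧
        (z, e.2) ∉ P) = P ∩ R := by
      ext e
      rw [mem_filter, mem_inter]
      constructor
      · rintro ⟨h1, h2, _⟩
        exact ⟨h1, h2⟩
      · rintro ⟨h1, h2⟩
        exact ⟨h1, h2, fun h => (mem_DF.1 ((hDF P hP.1 e).1 ⟨h2, h⟩)).2.1 h1⟩
    rw [h1, (mem_Fam.1 hP.1).2.2.2]

open scoped Classical in
/-- **Flip lemma for U-violations**, exactly `f` of them.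

Proof. As `flip_df` with `τ p = (n - 1 - p.2) * n + p.1` and
`free P e := e ∈ R ∧ ¬ ∃ z, e.2 < z ∧ (e.2, z) ∈ P ∧ (e.1, z) ∉ P`. -/
theorem flip_uf (R W : Finset (Fin n × Fin n)) (K f : ℕ) :
    ((Fam R W K).filter fun S => (UF R S).card = f).card ≤ (R.card - f).choose K := by
  have hUF : ∀ P ∈ Fam R W K, ∀ e, (e ∈ R ∧ ∃ z, e.2 < z ∧ (e.2, z) ∈ P ∧ (e.1, z) ∉ P) ↔
      e ∈ UF R P := by
    intro P hP e
    obtain ⟨hpo, hnat, _, _⟩ := mem_Fam.1 hP
    rw [mem_UF]
    constructor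
    · rintro ⟨h1, z, _, h5, h6⟩
      exact ⟨h1, fun h => h6 (hpo.2 _ _ _ h h5), z, h5, h6⟩
    · rintro ⟨h1, _, z, h5, h6⟩
      exact ⟨h1, z, hnat _ h5, h5, h6⟩
  refine encode_free (fun p => n - (p.2 : ℕ)) _
    (fun P e => e ∈ R ∧ ¬ ∃ z, e.2 < z ∧ (e.2, z) ∈ P ∧ (e.1, z) ∉ P) ?_ _ _ ?_ ?_
  · intro P hP Q hQ e hag
    rw [mem_filter] at hP hQ
    have hiff : (∃ z, e.2 < z ∧ (e.2, z) ∈ P ∧ (e.1, z) ∉ P) ↔
        (∃ z, e.2 < z ∧ (e.2, z) ∈ Q ∧ (e.1, z) ∉ Q) := by
      refine exists_congr fun z => and_congr_right fun h1 => ?_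
      have h1' : (e.2 : ℕ) < z := h1
      have h2 : n - (z : ℕ) < n - (e.2 : ℕ) := by
        have := z.2
        omega
      rw [hag (e.2, z) h2, hag (e.1, z) h2]
    refine ⟨and_congr_right fun _ => not_congr hiff, ?_⟩
    intro hnf
    by_cases heR : e ∈ R
    · have h1 : ∃ z, e.2 < z ∧ (e.2, z) ∈ P ∧ (e.1, z) ∉ P := by
        by_contra hc
        exact hnf ⟨heR, hc⟩
      have h2 := (mem_UF.1 ((hUF P hP.1 e).1 ⟨heR, h1⟩)).2.1
      have h3 := (mem_UF.1 ((hUF Q hQ.1 e).1 ⟨heR, hiff.1 h1⟩)).2.1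
      exact ⟨fun h => absurd h h2, fun h => absurd h h3⟩
    · exact mem_iff_of_Fam hP.1 hQ.1 heR
  · intro P hP
    rw [mem_filter] at hP
    have h1 : (univ.filter fun e => e ∈ R ∧ ¬ ∃ z, e.2 < z ∧ (e.2, z) ∈ P ∧
        (e.1, z) ∉ P) ⊆ R \ UF R P := by
      intro e he
      rw [mem_filter] at he
      rw [mem_sdiff]
      exact ⟨he.2.1, fun h => he.2.2 ((hUF P hP.1 e).2 h).2⟩
    refine (card_le_card h1).trans (le_of_eq ?_)
    rw [card_sdiff_of_subset (UF_subset R P), hP.2]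
  · intro P hP
    rw [mem_filter] at hP
    have h1 : (P.filter fun e => e ∈ R ∧ ¬ ∃ z, e.2 < z ∧ (e.2, z) ∈ P ∧
        (e.1, z) ∉ P) = P ∩ R := by
      ext e
      rw [mem_filter, mem_inter]
      constructor
      · rintro ⟨h1, h2, _⟩
        exact ⟨h1, h2⟩
      · rintro ⟨h1, h2⟩
        exact ⟨h1, h2, fun h => (mem_UF.1 ((hUF P hP.1 e).1 ⟨h2, h⟩)).2.1 h1⟩
    rw [h1, (mem_Fam.1 hP.1).2.2.2]

open scoped Classical in
/-- At least `g` non-covers: sum over the exact number `g' ∈ [g, |R|]`;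
`(N - g').choose (K - g') ≤ (N - g).choose (K - g)` for `g ≤ g'` (if `g' ≤ K`; if `g' > K` the family is
empty since `NC R S ⊆ S ∩ R`). -/
theorem flip_nc_ge (R W : Finset (Fin n × Fin n)) (K g : ℕ) :
    ((Fam R W K).filter fun S => g ≤ (NC R S).card).card ≤
      (R.card + 1) * (R.card - g).choose (K - g) := by
  refine card_filter_ge_le (m := R.card) (fun S _ => card_le_card (NC_subset R S)) ?_
  intro g' hg'
  rcases Finset.eq_empty_or_nonempty ((Fam R W K).filter fun S => (NC R S).card = g') with h | h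
  · rw [h, card_empty]
    exact Nat.zero_le _
  · obtain ⟨S, hS⟩ := h
    rw [mem_filter] at hS
    have h1 : g' ≤ K := by
      rw [← hS.2, ← (mem_Fam.1 hS.1).2.2.2]
      exact card_le_card (NC_subset' R S)
    have h2 : g' ≤ R.card := by
      rw [← hS.2]
      exact card_le_card (NC_subset R S)
    refine (flip_nc R W K g').trans ?_
    have h3 := choose_add_le (R.card - g') (K - g') (g' - g)
    have e1 : R.card - g' + (g' - g) = R.card - g := by omega
    have e2 : K - g' + (g' - g) = K - g := by omega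
    rwa [e1, e2] at h3

open scoped Classical in
/-- At least `f` D-violations. -/
theorem flip_df_ge (R W : Finset (Fin n × Fin n)) (K f : ℕ) :
    ((Fam R W K).filter fun S => f ≤ (DF R S).card).card ≤
      (R.card + 1) * (R.card - f).choose K := by
  refine card_filter_ge_le (m := R.card) (fun S _ => card_le_card (DF_subset R S)) ?_
  intro g' hg'
  exact (flip_df R W K g').trans (Nat.choose_le_choose K (Nat.sub_le_sub_left hg' _))

open scoped Classical in
/-- At least `f` U-violations. -/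
theorem flip_uf_ge (R W : Finset (Fin n × Fin n)) (K f : ℕ) :
    ((Fam R W K).filter fun S => f ≤ (UF R S).card).card ≤
      (R.card + 1) * (R.card - f).choose K := by
  refine card_filter_ge_le (m := R.card) (fun S _ => card_le_card (UF_subset R S)) ?_
  intro g' hg'
  exact (flip_uf R W K g').trans (Nat.choose_le_choose K (Nat.sub_le_sub_left hg' _))

/-- Addable pairs: if `S` is natural and `R` consists of pairs `x < y`, then every pair of `R \ S`
which is neither in `DF` nor in `UF` is addable. So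
`|R| ≤ |Add S| + |S ∩ R| + |DF R S| + |UF R S|`. -/
theorem card_add_ge {R S : Finset (Fin n × Fin n)} (hS : IsPO S) (hn : Nat' S)
    (hR : ∀ p ∈ R, p.1 < p.2) :
    R.card ≤ (Add S).card + (S ∩ R).card + (DF R S).card + (UF R S).card := by
  have _ := hS
  have h1 : R ⊆ ((Add S ∪ (S ∩ R)) ∪ DF R S) ∪ UF R S := by
    intro p hp
    rw [mem_union, mem_union, mem_union, mem_inter, mem_DF', mem_UF']
    by_cases h1 : p ∈ S
    · exact Or.inl (Or.inl (Or.inr ⟨h1, hp⟩))
    by_cases h2 : Dn S p.1 ⊆ Dn S p.2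
    · by_cases h3 : Up S p.2 ⊆ Up S p.1
      · refine Or.inl (Or.inl (Or.inl ?_))
        unfold Add
        rw [mem_filter]
        exact ⟨mem_univ _, (hR p hp).ne, h1, fun h => lt_asymm (hR p hp) (hn _ h), h2, h3⟩
      · exact Or.inr ⟨hp, h1, h3⟩
    · exact Or.inl (Or.inr ⟨hp, h1, h2⟩)
  refine (card_le_card h1).trans ?_
  refine (card_union_le _ _).trans (Nat.add_le_add_right ?_ _)
  refine (card_union_le _ _).trans (Nat.add_le_add_right ?_ _)
  exact card_union_le _ _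

/-- Covers: `|S ∩ R| ≤ |Cov S| + |NC R S|`. -/
theorem card_cov_ge (R S : Finset (Fin n × Fin n)) :
    (S ∩ R).card ≤ (Cov S).card + (NC R S).card := by
  have h1 : S ∩ R ⊆ Cov S ∪ NC R S := by
    intro p hp
    rw [mem_union]
    by_cases h : p ∈ Cov S
    · exact Or.inl h
    · refine Or.inr ?_
      unfold NC
      rw [mem_sdiff]
      exact ⟨hp, h⟩
  exact (card_le_card h1).trans (card_union_le _ _)

end Pool.Agent.H.MP_82502e_co
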