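import Pool.Agent.H.MP_82502e_co.Count
import Pool.Agent.H.MP_82502e_co.Sample
import Pool.Agent.H.MP_82502e_co.Ident

set_option autoImplicit false

/-!
# The increasing part `δ n² ≤ k ≤ (1/8 - δ) n²`
-/

namespace Pool.Agent.H.MP_82502e_co

open Finset Real

/-- Concavity in `x`: the derivative `log ((r-t)/t)` is `≥ log ((r-x')/x') ≥ 1 - x'/(r-x') ≥ (r-2x')/r` on `[x, x']`. -/
theorem phi_gap_x {r x x' : ℝ} (hr : 0 < r) (hx : 0 ≤ x) (hxx : x ≤ x') (hx' : x' ≤ r / 2) :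
    phi r x + (x' - x) * ((r - 2 * x') / r) ≤ phi r x' := by
  have hcont : ContinuousOn (fun t : ℝ => negMulLog t + negMulLog (r - t) - negMulLog r)
      (Set.Icc x x') := by
    apply Continuous.continuousOn
    fun_prop
  have hder : ∀ t ∈ interior (Set.Icc x x'),
      HasDerivAt (fun t : ℝ => negMulLog t + negMulLog (r - t) - negMulLog r)
        (log (r - t) - log t) t := by
    intro t ht
    rw [interior_Icc] at ht
    have ht1 : t ≠ 0 := by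
      have := ht.1
      exact ne_of_gt (by linarith)
    have ht2 : r - t ≠ 0 := by
      have := ht.2
      exact ne_of_gt (by linarith)
    have d1 : HasDerivAt (fun t : ℝ => negMulLog (r - t)) (log (r - t) + 1) t := by
      have h := (hasDerivAt_negMulLog ht2).comp t ((hasDerivAt_id t).const_sub r)
      exact h.congr_deriv (by ring)
    have d2 := hasDerivAt_negMulLog ht1
    have d3 := (d2.add d1).sub_const (negMulLog r)
    exact d3.congr_deriv (by ring)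
  have hmain := Convex.mul_sub_le_image_sub_of_le_deriv (convex_Icc x x') hcont
    (fun t ht => (hder t ht).differentiableAt.differentiableWithinAt) (C := (r - 2 * x') / r)
    (by
      intro t ht
      rw [(hder t ht).deriv]
      rw [interior_Icc] at ht
      have ht0 : 0 < t := by
        have := ht.1
        linarith
      have ht1 : 0 < r - t := by
        have := ht.2
        linarith
      have h3 : log (t / (r - t)) ≤ t / (r - t) - 1 := log_le_sub_one_of_pos (by positivity)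
      rw [log_div ht0.ne' ht1.ne'] at h3
      have h4 : (r - 2 * x') / r ≤ 1 - t / (r - t) := by
        rw [div_le_iff₀ hr]
        have h5 : t / (r - t) * r ≤ 2 * x' := by
          rw [div_mul_eq_mul_div, div_le_iff₀ ht1]
          have := ht.2
          nlinarith
        nlinarith
      linarith)
    x ⟨le_rfl, hxx⟩ x' ⟨hxx, le_rfl⟩ hxx
  rw [phi, phi]
  linarith

/-- Lower bound: `cnt n k ≥ choose (n/2 * (n - n/2)) k` and `n/2*(n-n/2) ≥ n²/4 - 1/4`; `exp_scaled_le_choose`,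
`phi_unif`, `poly_le_exp`. -/
theorem cnt_ge_quarter {θ : ℝ} (hθ : 0 < θ) : ∃ n0 : ℕ, ∀ n ≥ n0, ∀ k : ℕ,
    (k : ℝ) ≤ 1 / 8 * (n : ℝ) ^ 2 →
    exp ((phi (1 / 4) (k / (n : ℝ) ^ 2) - θ) * (n : ℝ) ^ 2) ≤ cnt n k := by
  obtain ⟨Δ, hΔ, hu⟩ := phi_unif (show (0 : ℝ) < θ / 2 by positivity)
  obtain ⟨n1, hn1⟩ := poly_le_exp (show (0 : ℝ) < θ / 2 by positivity) 1
  refine ⟨max n1 (max 2 (⌈1 / Δ⌉₊ + 1)), fun n hn k hk => ?_⟩
  have h1 : n1 ≤ n := (le_max_left _ _).trans hn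
  have h2 : 2 ≤ n := ((le_max_left _ _).trans (le_max_right _ _)).trans hn
  have h3 : ⌈1 / Δ⌉₊ + 1 ≤ n := ((le_max_right _ _).trans (le_max_right _ _)).trans hn
  have hn2 : (2 : ℝ) ≤ n := by exact_mod_cast h2
  have hnΔ : 1 / Δ ≤ n := by
    have h4 : ((⌈1 / Δ⌉₊ + 1 : ℕ) : ℝ) ≤ n := by exact_mod_cast h3
    have h5 := Nat.le_ceil (1 / Δ)
    push_cast at h4
    linarith
  obtain ⟨N, hN⟩ : ∃ N : ℕ, N = n / 2 * (n - n / 2) := ⟨_, rfl⟩
  have hN4 : (4 * N : ℕ) + 1 ≥ n * n ∧ 4 * N ≤ n * n := by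
    rw [hN]
    rcases Nat.even_or_odd' n with ⟨m, rfl | rfl⟩
    · have e : 2 * m / 2 = m := by omega
      have e2 : 2 * m - m = m := by omega
      rw [e, e2]
      constructor <;> nlinarith
    · have e : (2 * m + 1) / 2 = m := by omega
      have e2 : 2 * m + 1 - m = m + 1 := by omega
      rw [e, e2]
      constructor <;> nlinarith
  have hNr1 : (n : ℝ) ^ 2 / 4 - 1 / 4 ≤ N := by
    have h : ((n * n : ℕ) : ℝ) ≤ ((4 * N + 1 : ℕ) : ℝ) := by exact_mod_cast hN4.1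
    push_cast at h
    nlinarith
  have hNr2 : (N : ℝ) ≤ (n : ℝ) ^ 2 / 4 := by
    have h : ((4 * N : ℕ) : ℝ) ≤ ((n * n : ℕ) : ℝ) := by exact_mod_cast hN4.2
    push_cast at h
    nlinarith
  have hkN : k ≤ N := by
    have h : (k : ℝ) ≤ N := by nlinarith
    exact_mod_cast h
  have hn0 : 0 < n := by omega
  have hnp : (0 : ℝ) < (n : ℝ) ^ 2 := by positivity
  have e1 := exp_scaled_le_choose (n := n) hkN hn0
  have e2 : (N.choose k : ℝ) ≤ cnt n k := by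
    have := choose_le_cnt n k
    rw [← hN] at this
    exact_mod_cast this
  have e3 := hu (1 / 4) (k / (n : ℝ) ^ 2) (N / (n : ℝ) ^ 2) (k / (n : ℝ) ^ 2) (by positivity)
    (by rw [div_le_iff₀ hnp]; nlinarith) (by norm_num) (by positivity)
    (div_le_div_of_nonneg_right (by exact_mod_cast hkN) hnp.le)
    (by rw [div_le_iff₀ hnp]; nlinarith)
    (by
      rw [abs_le]
      have hb : (n : ℝ) ^ 2 * Δ ≥ 1 / 4 := by
        rw [div_le_iff₀ hΔ] at hnΔ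
        nlinarith
      constructor
      · have : (N : ℝ) / (n : ℝ) ^ 2 ≤ 1 / 4 + Δ := by
          rw [div_le_iff₀ hnp]
          nlinarith
        linarith
      · have : 1 / 4 - Δ ≤ (N : ℝ) / (n : ℝ) ^ 2 := by
          rw [le_div_iff₀ hnp]
          nlinarith
        linarith)
    (by simpa using hΔ.le)
  rw [abs_le] at e3
  have e4 := hn1 n h1
  rw [pow_one] at e4
  have e5 : (N : ℝ) + 1 ≤ exp (θ / 2 * (n : ℝ) ^ 2) := by nlinarith
  have e6 : (phi (1 / 4) (k / (n : ℝ) ^ 2) - θ) * (n : ℝ) ^ 2 ≤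
      (n : ℝ) ^ 2 * phi (N / (n : ℝ) ^ 2) (k / (n : ℝ) ^ 2) - θ / 2 * (n : ℝ) ^ 2 := by
    nlinarith [e3.2]
  have hc0 : (0 : ℝ) ≤ cnt n k := Nat.cast_nonneg _
  calc exp ((phi (1 / 4) (k / (n : ℝ) ^ 2) - θ) * (n : ℝ) ^ 2)
      ≤ exp ((n : ℝ) ^ 2 * phi (N / (n : ℝ) ^ 2) (k / (n : ℝ) ^ 2) - θ / 2 * (n : ℝ) ^ 2) :=
        exp_le_exp.2 e6
    _ = exp ((n : ℝ) ^ 2 * phi (N / (n : ℝ) ^ 2) (k / (n : ℝ) ^ 2)) /
        exp (θ / 2 * (n : ℝ) ^ 2) := exp_sub _ _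
    _ ≤ cnt n k := by
        rw [div_le_iff₀ (exp_pos _)]
        calc exp ((n : ℝ) ^ 2 * phi (N / (n : ℝ) ^ 2) (k / (n : ℝ) ^ 2))
            ≤ ((N : ℝ) + 1) * (N.choose k : ℝ) := e1
          _ ≤ exp (θ / 2 * (n : ℝ) ^ 2) * cnt n k :=
            mul_le_mul e5 e2 (Nat.cast_nonneg _) (exp_pos _).le
          _ = cnt n k * exp (θ / 2 * (n : ℝ) ^ 2) := mul_comm _ _

/-- Auxiliary: the entropy inequalities of the cases A1, A2. -/
theorem inc_phi {δ ε r κ d : ℝ} (hδ : 0 < δ) (hε : 0 < ε) (hδ1 : δ ≤ 1 / 8) (hε1 : ε ≤ 1 / 4)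
    (hκ0 : 0 ≤ κ) (hκr : κ ≤ r) (hr : r ≤ 1 / 4) (hκd : κ ≤ d) (hd : d ≤ 1 / 8 - δ)
    (hd0 : δ ≤ d) (h : κ < d - δ / 2 ∨ r < 1 / 4 - ε / 2) :
    phi r κ ≤ phi (1 / 4) d - ε * δ ^ 2 / 4 := by
  have hδ2 : 0 < δ ^ 2 := by positivity
  have hm := phi_mono_r hκ0 hκr hr
  by_cases hA : κ < d - δ / 2
  · have h1 := phi_gap_x (show (0 : ℝ) < 1 / 4 by norm_num) hκ0 hκd (by linarith)
    have h2 : (d - κ) * ((1 / 4 - 2 * d) / (1 / 4)) ≥ (δ / 2) * (8 * δ) := by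
      have e : (1 / 4 - 2 * d) / (1 / 4) = 1 - 8 * d := by ring
      rw [e]
      exact mul_le_mul (by linarith) (by linarith) (by positivity) (by linarith)
    nlinarith
  · have hB : r < 1 / 4 - ε / 2 := by
      rcases h with h | h
      · exact absurd h hA
      · exact h
    push Not at hA
    have h1 := phi_gap_r hκ0 hκr hr (show (0 : ℝ) < 1 / 4 by norm_num)
    have h2 := phi_mono_x hκ0 hκd (show d ≤ (1 / 4 : ℝ) / 2 by linarith)
    have h3 : (1 / 4 - r) * (κ / (1 / 4)) ≥ (ε / 2) * (2 * δ) := by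
      have e : κ / (1 / 4) = 4 * κ := by ring
      rw [e]
      exact mul_le_mul (by linarith) (by linarith) (by positivity) (by linarith)
    nlinarith [mul_pos hε hδ2, mul_pos hε hδ]

theorem inc_gap {δ ε : ℝ} (hδ : 0 < δ) (hε : 0 < ε) (hδ1 : δ ≤ 1 / 8) :
    ε * δ ^ 2 / 4 ≤ ε * δ / 2 := by
  nlinarith [mul_pos hε hδ]

/-- Auxiliary: numbers of violations. -/
theorem inc_poly {n : ℕ} {N : ℝ} (hn : 0 < n) (hN : N ≤ (n : ℝ) ^ 2 / 4) :
    2 * (N + 1) ≤ ((n : ℝ) ^ 2 + 1) ^ 2 := by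
  have h0 : (1 : ℝ) ≤ n := by exact_mod_cast hn
  have h1 : (1 : ℝ) ≤ (n : ℝ) ^ 2 := by nlinarith
  have h2 : ((n : ℝ) ^ 2 + 1) ^ 2 = (n : ℝ) ^ 2 * (n : ℝ) ^ 2 + 2 * (n : ℝ) ^ 2 + 1 := by ring
  have h3 : (n : ℝ) ^ 2 ≤ (n : ℝ) ^ 2 * (n : ℝ) ^ 2 := le_mul_of_one_le_left (by positivity) h1
  rw [h2]
  linarith

/-- Auxiliary: the ratio `K / |R|`. -/
theorem inc_ratio {δ K R m : ℝ} (hδ : 0 < δ) (hR : 0 < R) (h1 : δ / 2 * m ≤ K) (h2 : R ≤ m / 4) :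
    2 * δ ≤ K / R := by
  rw [le_div_iff₀ hR]
  nlinarith

open scoped Classical in
/-- Auxiliary: the bound for one family. -/
theorem inc_fam {δ ε θ : ℝ} (hδ : 0 < δ) (hε : 0 < ε) (hδ1 : δ ≤ 1 / 8) (hε1 : ε ≤ 1 / 4)
    {n k K : ℕ} {c : Fin n × Fin n → Col} (hn : 0 < n) (hθ : 0 < θ)
    (hpoly : ((n : ℝ) ^ 2 + 1) ^ 2 ≤ exp (θ * (n : ℝ) ^ 2)) (hc : Closed c)
    (hk1 : δ * (n : ℝ) ^ 2 ≤ k) (hk2 : (k : ℝ) ≤ (1 / 8 - δ) * (n : ℝ) ^ 2)
    (W : Finset (Fin n × Fin n)) :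
    (((Fam (cpairs c Col.R) W K).filter fun S =>
      (S.card = k ∧ ((Add S).card : ℝ) < (1 / 4 - ε) * (n : ℝ) ^ 2 - k)).card : ℝ) ≤
      exp ((phi (1 / 4) (k / (n : ℝ) ^ 2) - ε * δ ^ 2 / 4 + θ) * (n : ℝ) ^ 2) := by
  obtain ⟨R, hR⟩ : ∃ R, R = cpairs c Col.R := ⟨_, rfl⟩
  have hRle : (R.card : ℝ) ≤ (n : ℝ) ^ 2 / 4 := by
    rw [hR]
    exact card_R_le hc
  have hRup : ∀ p ∈ R, p.1 < p.2 := by
    intro p hp
    rw [hR, cpairs, mem_filter] at hp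
    exact hp.2.1
  rw [← hR]
  obtain ⟨A, hA⟩ : ∃ A, A = (Fam R W K).filter fun S =>
      (S.card = k ∧ ((Add S).card : ℝ) < (1 / 4 - ε) * (n : ℝ) ^ 2 - k) := ⟨_, rfl⟩
  rw [← hA]
  rcases Finset.eq_empty_or_nonempty A with h | h
  · rw [h, card_empty, Nat.cast_zero]
    exact (exp_pos _).le
  obtain ⟨S0, hS0⟩ := h
  rw [hA, mem_filter] at hS0
  obtain ⟨hS1, hS2, -⟩ := hS0
  have hK1 : K ≤ R.card := by
    rw [← (mem_Fam.1 hS1).2.2.2]
    exact card_le_card inter_subset_right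
  have hK2 : K ≤ k := by
    rw [← (mem_Fam.1 hS1).2.2.2, ← hS2]
    exact card_le_card inter_subset_left
  have hnp : (0 : ℝ) < (n : ℝ) ^ 2 := by positivity
  have hK1r : (K : ℝ) ≤ R.card := by exact_mod_cast hK1
  have hK2r : (K : ℝ) ≤ k := by exact_mod_cast hK2
  have hκr : (K : ℝ) / (n : ℝ) ^ 2 ≤ R.card / (n : ℝ) ^ 2 := div_le_div_of_nonneg_right hK1r hnp.le
  have hκd : (K : ℝ) / (n : ℝ) ^ 2 ≤ k / (n : ℝ) ^ 2 := div_le_div_of_nonneg_right hK2r hnp.le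
  have hr4 : (R.card : ℝ) / (n : ℝ) ^ 2 ≤ 1 / 4 := by
    rw [div_le_iff₀ hnp]
    linarith
  have hd1 : (k : ℝ) / (n : ℝ) ^ 2 ≤ 1 / 8 - δ := by
    rw [div_le_iff₀ hnp]
    exact hk2
  have hd0 : δ ≤ (k : ℝ) / (n : ℝ) ^ 2 := by
    rw [le_div_iff₀ hnp]
    exact hk1
  have hκ0 : (0 : ℝ) ≤ (K : ℝ) / (n : ℝ) ^ 2 := by positivity
  have hch := choose_le_exp_scaled (n := n) hK1 hn
  by_cases hcase : (K : ℝ) / (n : ℝ) ^ 2 < (k : ℝ) / (n : ℝ) ^ 2 - δ / 2 ∨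
      (R.card : ℝ) / (n : ℝ) ^ 2 < 1 / 4 - ε / 2
  · have h1 := inc_phi hδ hε hδ1 hε1 hκ0 hκr hr4 hκd hd1 hd0 hcase
    have h2 : (A.card : ℝ) ≤ (R.card.choose K : ℝ) := by
      have h3 : A.card ≤ (Fam R W K).card := by
        rw [hA]
        exact card_le_card (filter_subset _ _)
      exact_mod_cast h3.trans (card_Fam R W K)
    refine h2.trans (hch.trans (exp_le_exp.2 ?_))
    rw [mul_comm]
    refine mul_le_mul_of_nonneg_right ?_ hnp.le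
    linarith
  · push Not at hcase
    obtain ⟨hB1, hB2⟩ := hcase
    have hB2' : (1 / 4 - ε / 2) * (n : ℝ) ^ 2 ≤ R.card := by
      rw [le_div_iff₀ hnp] at hB2
      exact hB2
    have hB1' : δ / 2 * (n : ℝ) ^ 2 ≤ K := by
      have h1 : δ / 2 ≤ (K : ℝ) / (n : ℝ) ^ 2 := by linarith
      rwa [le_div_iff₀ hnp] at h1
    obtain ⟨f, hf⟩ : ∃ f : ℕ, f = ⌈ε / 4 * (n : ℝ) ^ 2⌉₊ := ⟨_, rfl⟩
    have hsub : A ⊆ ((Fam R W K).filter fun S => f ≤ (DF R S).card) ∪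
        ((Fam R W K).filter fun S => f ≤ (UF R S).card) := by
      intro S hS
      rw [hA, mem_filter] at hS
      obtain ⟨hS3, hS4, hS5⟩ := hS
      obtain ⟨g1, g2, -, g4⟩ := mem_Fam.1 hS3
      have hadd := card_add_ge g1 g2 hRup
      rw [g4] at hadd
      have hadd' : (R.card : ℝ) ≤ (Add S).card + K + (DF R S).card + (UF R S).card := by
        exact_mod_cast hadd
      rw [mem_union, mem_filter, mem_filter]
      by_contra hcon
      push Not at hcon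
      have c1 := hcon.1 hS3
      have c2 := hcon.2 hS3
      rw [hf, Nat.lt_ceil] at c1 c2
      linarith
    have hcard : (A.card : ℝ) ≤ 2 * (((R.card : ℝ) + 1) * ((R.card - f).choose K : ℝ)) := by
      have h1 := (card_le_card hsub).trans ((card_union_le _ _).trans
        (Nat.add_le_add (flip_df_ge R W K f) (flip_uf_ge R W K f)))
      have h2 : (A.card : ℝ) ≤ (((R.card + 1) * (R.card - f).choose K +
        (R.card + 1) * (R.card - f).choose K : ℕ) : ℝ) := by exact_mod_cast h1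
      push_cast at h2
      linarith
    have hKpos : (0 : ℝ) < K := lt_of_lt_of_le (by positivity) hB1'
    have hRpos : (0 : ℝ) < R.card := lt_of_lt_of_le hKpos hK1r
    have hRpos' : 0 < R.card := by exact_mod_cast hRpos
    have hcs := choose_sub_le (f := f) hRpos' hK1
    have hq0 : 0 ≤ 1 - (K : ℝ) / R.card := by
      rw [sub_nonneg, div_le_one hRpos]
      exact hK1r
    have hq1 : 1 - (K : ℝ) / R.card ≤ exp (-(2 * δ)) := by
      have h1 : 2 * δ ≤ (K : ℝ) / R.card := inc_ratio hδ hRpos hB1' hRle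
      have h2 := add_one_le_exp (-(2 * δ))
      linarith
    have hf1 : ε / 4 * (n : ℝ) ^ 2 ≤ f := by
      rw [hf]
      exact Nat.le_ceil _
    have hqf : (1 - (K : ℝ) / R.card) ^ f ≤ exp (-(ε * δ / 2 * (n : ℝ) ^ 2)) := by
      refine (pow_le_pow_left₀ hq0 hq1 f).trans ?_
      rw [← exp_nat_mul]
      refine exp_le_exp.2 ?_
      have h1 := mul_le_mul_of_nonneg_right hf1 (show (0 : ℝ) ≤ 2 * δ by positivity)
      have h2 : ε / 4 * (n : ℝ) ^ 2 * (2 * δ) = ε * δ / 2 * (n : ℝ) ^ 2 := by ring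
      linarith
    have hphi : phi (R.card / (n : ℝ) ^ 2) (K / (n : ℝ) ^ 2) ≤ phi (1 / 4) (k / (n : ℝ) ^ 2) :=
      (phi_mono_r hκ0 hκr hr4).trans (phi_mono_x hκ0 hκd (by linarith))
    have h2n : 2 * ((R.card : ℝ) + 1) ≤ exp (θ * (n : ℝ) ^ 2) := by
      exact (inc_poly hn hRle).trans hpoly
    calc (A.card : ℝ) ≤ 2 * (((R.card : ℝ) + 1) * ((R.card - f).choose K : ℝ)) := hcard
      _ ≤ 2 * (((R.card : ℝ) + 1) * ((R.card.choose K : ℝ) * (1 - (K : ℝ) / R.card) ^ f)) := by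
        gcongr
      _ ≤ 2 * (((R.card : ℝ) + 1) * (exp ((n : ℝ) ^ 2 * phi (R.card / (n : ℝ) ^ 2)
          (K / (n : ℝ) ^ 2)) * exp (-(ε * δ / 2 * (n : ℝ) ^ 2)))) := by
        gcongr
      _ = (2 * ((R.card : ℝ) + 1)) * (exp ((n : ℝ) ^ 2 * phi (R.card / (n : ℝ) ^ 2)
          (K / (n : ℝ) ^ 2)) * exp (-(ε * δ / 2 * (n : ℝ) ^ 2))) := by ring
      _ ≤ exp (θ * (n : ℝ) ^ 2) * (exp ((n : ℝ) ^ 2 * phi (R.card / (n : ℝ) ^ 2)
          (K / (n : ℝ) ^ 2)) * exp (-(ε * δ / 2 * (n : ℝ) ^ 2))) := by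
        gcongr
      _ = exp (θ * (n : ℝ) ^ 2 + ((n : ℝ) ^ 2 * phi (R.card / (n : ℝ) ^ 2)
          (K / (n : ℝ) ^ 2) + -(ε * δ / 2 * (n : ℝ) ^ 2))) := by
        rw [exp_add, exp_add]
      _ ≤ _ := by
        refine exp_le_exp.2 ?_
        have h1 := inc_gap hδ hε hδ1
        have h2 := mul_le_mul_of_nonneg_left hphi hnp.le
        have h3 := mul_le_mul_of_nonneg_right h1 hnp.le
        have h4 : (phi (1 / 4) (k / (n : ℝ) ^ 2) - ε * δ ^ 2 / 4 + θ) * (n : ℝ) ^ 2 =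
            (n : ℝ) ^ 2 * phi (1 / 4) (k / (n : ℝ) ^ 2) - ε * δ ^ 2 / 4 * (n : ℝ) ^ 2 +
              θ * (n : ℝ) ^ 2 := by ring
        rw [h4]
        linarith

open scoped Classical in
/-- The bad natural posets of one type. `d = k/n² ∈ [δ, 1/8 - δ]`, `r = |R|/n² ≤ 1/4` (`card_R_le`), `κ = K/n² ≤ d`. `gap = ε δ² / 4`.

Proof. We may assume `δ ≤ 1/8`, `ε ≤ 1/4`. Case A1, `κ < d - δ/2`: the family has at most
`exp(θ n²) choose |R| K ≤ exp((phi r κ + θ) n²)` members (`type_count`, `card_Fam`, `choose_le_exp_scaled`), and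
`phi r κ ≤ phi (1/4) κ ≤ phi (1/4) d - (δ/2)(8δ)` (`phi_mono_r`, `phi_gap_x`: `(r-2d)/r = 1 - 8d ≥ 8δ`).
Case A2, `κ ≥ d - δ/2 ≥ δ/2`, `r < 1/4 - ε/2`: `phi r κ ≤ phi (1/4) κ - (ε/2)(4κ) ≤ phi (1/4) d - ε δ` (`phi_gap_r`, `phi_mono_x`).
Case B, `κ ≥ δ/2`, `r ≥ 1/4 - ε/2`: a bad `S` has (`card_add_ge`) `|DF| + |UF| ≥ |R| - K - |Add S| > (r - 1/4 + ε) n² ≥ (ε/2) n²`, so
`|DF| ≥ f` or `|UF| ≥ f` with `f = ⌈ε n²/4⌉`. By `type_count` and `flip_df_ge`, `flip_uf_ge`, `choose_sub_le` the number is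
`≤ 2 exp(θ n²)(n²+1) choose |R| K (1 - K/|R|)^f ≤ 2(n²+1) exp((phi r κ + θ) n²) exp(-2δ ε n²/4)` since `K/|R| = κ/r ≥ 2δ`
(`1 - t ≤ exp(-t)`). All cases: `≤ exp((phi (1/4) d - gap + 2θ) n²)`. Here `θ` may be chosen after `δ`, `ε`. -/
theorem inc_type {δ ε θ : ℝ} (hδ : 0 < δ) (hε : 0 < ε) (hθ : 0 < θ) (hδ1 : δ ≤ 1 / 8)
    (hε1 : ε ≤ 1 / 4) :
    ∃ η : ℝ, 0 < η ∧ ∃ n0 : ℕ, ∀ n ≥ n0, ∀ (k K : ℕ) (c : Fin n × Fin n → Col), Closed c →
    δ * (n : ℝ) ^ 2 ≤ k → (k : ℝ) ≤ (1 / 8 - δ) * (n : ℝ) ^ 2 →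
    (((univ : Finset (Finset (Fin n × Fin n))).filter fun S => IsPO S ∧ Nat' S ∧
      IsType η S c ∧ (S ∩ cpairs c Col.R).card = K ∧
      (S.card = k ∧ ((Add S).card : ℝ) < (1 / 4 - ε) * (n : ℝ) ^ 2 - k)).card : ℝ) ≤
      exp ((phi (1 / 4) (k / (n : ℝ) ^ 2) - ε * δ ^ 2 / 4 + θ) * (n : ℝ) ^ 2) := by
  have hθ2 : 0 < θ / 2 := by positivity
  obtain ⟨η0, hη0, htc⟩ := type_count hθ2
  obtain ⟨n1, hn1⟩ := poly_le_exp hθ2 2
  refine ⟨η0, hη0, max n1 1, fun n hn k K c hc hk1 hk2 => ?_⟩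
  have h1 : n1 ≤ n := (le_max_left _ _).trans hn
  have h2 : 0 < n := (le_max_right _ _).trans hn
  obtain ⟨Q, hQ⟩ : ∃ Q : Finset (Fin n × Fin n) → Prop, Q = fun S =>
      (S.card = k ∧ ((Add S).card : ℝ) < (1 / 4 - ε) * (n : ℝ) ^ 2 - k) := ⟨_, rfl⟩
  have key := htc n η0 le_rfl c K Q
    (exp ((phi (1 / 4) (k / (n : ℝ) ^ 2) - ε * δ ^ 2 / 4 + θ / 2) * (n : ℝ) ^ 2)) (by
      intro W
      have h3 := inc_fam hδ hε hδ1 hε1 h2 hθ2 (hn1 n h1) hc hk1 hk2 (K := K) W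
      subst hQ
      convert h3)
  have e : exp (θ / 2 * (n : ℝ) ^ 2) *
      exp ((phi (1 / 4) (k / (n : ℝ) ^ 2) - ε * δ ^ 2 / 4 + θ / 2) * (n : ℝ) ^ 2) =
      exp ((phi (1 / 4) (k / (n : ℝ) ^ 2) - ε * δ ^ 2 / 4 + θ) * (n : ℝ) ^ 2) := by
    rw [← exp_add]
    congr 1
    ring
  rw [e] at key
  subst hQ
  convert key

open scoped Classical in
/-- Few `S ∈ PO n k` have few addable pairs: `union_bound` (the property is invariant by `add_relab`, `card_relab`) with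
`inc_type` and `cnt_ge_quarter`, `θ = ε δ²/32`; `exp(-(ε δ²/8) n²) ≤ ε` for large `n`. -/
theorem inc_rare {δ ε : ℝ} (hδ : 0 < δ) (hε : 0 < ε) : ∃ n0 : ℕ, ∀ n ≥ n0, ∀ k : ℕ,
    δ * (n : ℝ) ^ 2 ≤ k → (k : ℝ) ≤ (1 / 8 - δ) * (n : ℝ) ^ 2 →
    (((PO n k).filter fun S => ((Add S).card : ℝ) < (1 / 4 - ε) * (n : ℝ) ^ 2 - k).card : ℝ) ≤
      ε * cnt n k := by
  by_cases hcase : δ ≤ 1 / 8 ∧ ε ≤ 1 / 4
  swap
  · refine ⟨1, fun n hn k hk1 hk2 => ?_⟩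
    have hn1 : (1 : ℝ) ≤ n := by exact_mod_cast hn
    have hnp : (0 : ℝ) < (n : ℝ) ^ 2 := by positivity
    have h0 : (PO n k).filter (fun S => ((Add S).card : ℝ) < (1 / 4 - ε) * (n : ℝ) ^ 2 - k) = ∅ := by
      rw [filter_eq_empty_iff]
      intro S _ hS
      have h1 : (0 : ℝ) ≤ (Add S).card := Nat.cast_nonneg _
      have h2 : (0 : ℝ) ≤ k := Nat.cast_nonneg _
      have hd : δ ≤ 1 / 8 := by
        by_contra hcon
        push Not at hcon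
        nlinarith
      have he : ε ≤ 1 / 4 := by
        by_contra hcon
        push Not at hcon
        nlinarith
      exact hcase ⟨hd, he⟩
    rw [h0, card_empty, Nat.cast_zero]
    positivity
  obtain ⟨hδ1, hε1⟩ := hcase
  obtain ⟨g, hg⟩ : ∃ g : ℝ, g = ε * δ ^ 2 / 32 := ⟨_, rfl⟩
  have hg0 : 0 < g := by rw [hg]; positivity
  obtain ⟨η, hη, n1, H1⟩ := inc_type hδ hε hg0 hδ1 hε1
  obtain ⟨n2, H2⟩ := union_bound hg0 hη
  obtain ⟨n3, H3⟩ := cnt_ge_quarter hg0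
  obtain ⟨n4, hn4⟩ := exists_nat_ge (1 / (ε * g))
  refine ⟨max (max n1 n2) (max n3 (max n4 1)), fun n hn k hk1 hk2 => ?_⟩
  have a1 : n1 ≤ n := ((le_max_left _ _).trans (le_max_left _ _)).trans hn
  have a2 : n2 ≤ n := ((le_max_right _ _).trans (le_max_left _ _)).trans hn
  have a3 : n3 ≤ n := ((le_max_left _ _).trans (le_max_right _ _)).trans hn
  have a4 : n4 ≤ n := ((le_max_left _ _).trans ((le_max_right _ _).trans (le_max_right _ _))).trans hn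
  have a5 : 1 ≤ n := ((le_max_right _ _).trans ((le_max_right _ _).trans (le_max_right _ _))).trans hn
  have hn1 : (1 : ℝ) ≤ n := by exact_mod_cast a5
  have hnp : (0 : ℝ) < (n : ℝ) ^ 2 := by positivity
  have hc3 := H3 n a3 k (by nlinarith)
  have hub := H2 n a2 k (fun S => ((Add S).card : ℝ) < (1 / 4 - ε) * (n : ℝ) ^ 2 - k)
    (exp ((phi (1 / 4) (k / (n : ℝ) ^ 2) - ε * δ ^ 2 / 4 + g) * (n : ℝ) ^ 2)) (exp_pos _).le
    (fun e S _ hS => by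
      rw [add_relab, card_relab]
      exact hS)
    (fun c K hc => H1 n a1 k K c hc hk1 hk2)
  refine hub.trans ?_
  have e1 : exp (g * (n : ℝ) ^ 2) *
      exp ((phi (1 / 4) (k / (n : ℝ) ^ 2) - ε * δ ^ 2 / 4 + g) * (n : ℝ) ^ 2) ≤
      exp (-(g * (n : ℝ) ^ 2)) * exp ((phi (1 / 4) (k / (n : ℝ) ^ 2) - g) * (n : ℝ) ^ 2) := by
    rw [← exp_add, ← exp_add]
    refine exp_le_exp.2 ?_
    have e : ε * δ ^ 2 / 4 = 8 * g := by rw [hg]; ring
    rw [e]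
    nlinarith [mul_pos hg0 hnp]
  refine e1.trans ?_
  refine mul_le_mul ?_ hc3 (exp_pos _).le hε.le
  rw [exp_neg]
  have h5 : 1 / ε ≤ exp (g * (n : ℝ) ^ 2) := by
    have h6 : (1 / (ε * g)) ≤ n := hn4.trans (by exact_mod_cast a4)
    have h7 := add_one_le_exp (g * (n : ℝ) ^ 2)
    have h8 : 1 / ε ≤ g * (n : ℝ) ^ 2 := by
      rw [div_le_iff₀ (by positivity)] at h6
      rw [div_le_iff₀ hε]
      nlinarith [mul_pos hε hg0]
    linarith
  rw [inv_le_comm₀ (exp_pos _) hε]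
  rw [one_div] at h5
  exact h5

/-- **Increasing part.** `ε = δ/4` (`δ ≤ 1/8`): `∑ |Add S| ≥ (1-ε)((1/4-ε) n² - k) cnt n k`, and
`(1-ε)((1/4-ε) n² - k) ≥ (1/4 - 2ε) n² - k ≥ (1/8 + δ/2) n² > k + 1` for large `n`. `lt_of_sum_add`. -/
theorem inc {δ : ℝ} (hδ : 0 < δ) : ∃ n0 : ℕ, ∀ n ≥ n0, ∀ k : ℕ,
    δ * (n : ℝ) ^ 2 ≤ k → (k : ℝ) ≤ (1 / 8 - δ) * (n : ℝ) ^ 2 → cnt n k < cnt n (k + 1) := by
  classical
  obtain ⟨n1, H1⟩ := inc_rare hδ (show (0 : ℝ) < δ / 4 by positivity)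
  obtain ⟨n2, hn2⟩ := exists_nat_ge (1 / δ)
  refine ⟨max n1 (max n2 2), fun n hn k hk1 hk2 => ?_⟩
  have a1 : n1 ≤ n := (le_max_left _ _).trans hn
  have a2 : n2 ≤ n := ((le_max_left _ _).trans (le_max_right _ _)).trans hn
  have a3 : 2 ≤ n := ((le_max_right _ _).trans (le_max_right _ _)).trans hn
  have hn1 : (2 : ℝ) ≤ n := by exact_mod_cast a3
  have hnp : (0 : ℝ) < (n : ℝ) ^ 2 := by positivity
  have hδn : 1 ≤ δ * n := by
    have h6 : 1 / δ ≤ n := hn2.trans (by exact_mod_cast a2)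
    rw [div_le_iff₀ hδ] at h6
    linarith
  have hδn2 : 2 ≤ δ * (n : ℝ) ^ 2 := by nlinarith
  have hk0 : (0 : ℝ) ≤ k := Nat.cast_nonneg _
  have hδ8 : δ ≤ 1 / 8 := by
    by_contra hcon
    push Not at hcon
    nlinarith
  have hpos : 0 < cnt n k := by
    apply cnt_pos
    rw [Nat.le_div_iff_mul_le (by norm_num)]
    have h : ((k * 2 : ℕ) : ℝ) ≤ ((n * (n - 1) : ℕ) : ℝ) := by
      push_cast [Nat.cast_sub (show 1 ≤ n by omega)]
      nlinarith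
    exact_mod_cast h
  have hposr : (0 : ℝ) < cnt n k := by exact_mod_cast hpos
  have hbad := H1 n a1 k hk1 hk2
  apply lt_of_sum_add
  obtain ⟨m, hm⟩ : ∃ m : ℝ, m = (1 / 4 - δ / 4) * (n : ℝ) ^ 2 - k := ⟨_, rfl⟩
  have hm0 : 0 < m := by
    rw [hm]
    nlinarith
  have hgood : (1 - δ / 4) * cnt n k ≤
      (((PO n k).filter fun S => ¬ ((Add S).card : ℝ) < m).card : ℝ) := by
    have h1 := card_filter_add_card_filter_not (s := PO n k) (fun S => ((Add S).card : ℝ) < m)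
    have h2 : (((PO n k).filter fun S => ((Add S).card : ℝ) < m).card : ℝ) +
        (((PO n k).filter fun S => ¬ ((Add S).card : ℝ) < m).card : ℝ) = cnt n k := by
      unfold cnt
      exact_mod_cast h1
    rw [← hm] at hbad
    linarith
  have hsum : (1 - δ / 4) * cnt n k * m ≤ ((∑ S ∈ PO n k, (Add S).card : ℕ) : ℝ) := by
    have h1 : (((PO n k).filter fun S => ¬ ((Add S).card : ℝ) < m).card : ℝ) * m ≤
        ∑ S ∈ (PO n k).filter (fun S => ¬ ((Add S).card : ℝ) < m), ((Add S).card : ℝ) := by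
      rw [← nsmul_eq_mul]
      refine card_nsmul_le_sum _ _ _ ?_
      intro S hS
      rw [mem_filter, not_lt] at hS
      exact hS.2
    have h2 : ∑ S ∈ (PO n k).filter (fun S => ¬ ((Add S).card : ℝ) < m), ((Add S).card : ℝ) ≤
        ∑ S ∈ PO n k, ((Add S).card : ℝ) :=
      sum_le_sum_of_subset_of_nonneg (filter_subset _ _) fun _ _ _ => Nat.cast_nonneg _
    push_cast
    calc (1 - δ / 4) * cnt n k * m
        ≤ (((PO n k).filter fun S => ¬ ((Add S).card : ℝ) < m).card : ℝ) * m :=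
          mul_le_mul_of_nonneg_right hgood hm0.le
      _ ≤ _ := h1.trans h2
  have hkey : ((k : ℝ) + 1) * cnt n k < (1 - δ / 4) * cnt n k * m := by
    have h1 : (k : ℝ) + 1 < (1 - δ / 4) * m := by
      rw [hm]
      nlinarith [mul_pos hδ hnp]
    nlinarith
  have hfin : (((k + 1) * cnt n k : ℕ) : ℝ) < ((∑ S ∈ PO n k, (Add S).card : ℕ) : ℝ) := by
    rw [Nat.cast_mul, Nat.cast_add, Nat.cast_one]
    exact hkey.trans_le hsum
  exact_mod_cast hfin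

end Pool.Agent.H.MP_82502e_co
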