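import Pool.Agent.H.MP_82502e_co.SpA4
import Pool.Agent.H.MP_82502e_co.Ident

set_option autoImplicit false

/-!
# Sparse posets: step 2b, linearly many relations
-/

namespace Pool.Agent.H.MP_82502e_co

open Finset

variable {n : ℕ}

/-- The minimal elements. -/
def Mn (S : Finset (Fin n × Fin n)) : Finset (Fin n) := univ.filter fun v => Dn S v = ∅

/-- The maximal elements. -/
def Mx (S : Finset (Fin n × Fin n)) : Finset (Fin n) := univ.filter fun v => Up S v = ∅

theorem mem_Mn {S : Finset (Fin n × Fin n)} {v : Fin n} : v ∈ Mn S ↔ ∀ z, (z, v) ∉ S := by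
  simp only [Mn, mem_filter, mem_univ, true_and, eq_empty_iff_forall_notMem, mem_Dn]

theorem mem_Mx {S : Finset (Fin n × Fin n)} {v : Fin n} : v ∈ Mx S ↔ ∀ z, (v, z) ∉ S := by
  simp only [Mx, mem_filter, mem_univ, true_and, eq_empty_iff_forall_notMem, mem_Up]

/-- A minimal and a maximal element, different and not related, form an addable pair. -/
theorem card_Mn_mul_Mx_le (S : Finset (Fin n × Fin n)) :
    (Mn S).card * (Mx S).card ≤ (Add S).card + S.card + n := by
  classical
  have h1 : Mn S ×ˢ Mx S ⊆ Add S ∪ S ∪ (univ : Finset (Fin n)).image fun v => (v, v) := by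
    rintro ⟨x, y⟩ h
    rw [mem_product] at h
    obtain ⟨hx, hy⟩ := h
    rw [mem_Mn] at hx
    rw [mem_Mx] at hy
    rw [mem_union, mem_union]
    by_cases h1 : x = y
    · right
      rw [mem_image]
      exact ⟨x, mem_univ _, by rw [h1]⟩
    · left
      by_cases h2 : (x, y) ∈ S
      · exact Or.inr h2
      · left
        unfold Add
        rw [mem_filter]
        refine ⟨mem_univ _, h1, h2, hy x, ?_, ?_⟩
        · intro z hz
          exact absurd (mem_Dn.1 hz) (hx z)
        · intro z hz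
          exact absurd (mem_Up.1 hz) (hy z)
  calc (Mn S).card * (Mx S).card = (Mn S ×ˢ Mx S).card := (card_product _ _).symm
    _ ≤ (Add S ∪ S ∪ (univ : Finset (Fin n)).image fun v => (v, v)).card := card_le_card h1
    _ ≤ (Add S).card + S.card + n := by
        refine (card_union_le _ _).trans (Nat.add_le_add (card_union_le _ _) ?_)
        exact card_image_le.trans (by simp)

/-- Every element that is not minimal is above a minimal element. -/
theorem exists_minimal_below {S : Finset (Fin n × Fin n)} (h : IsPO S) {v : Fin n}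
    (hv : v ∉ Mn S) : ∃ z ∈ Mn S, (z, v) ∈ S := by
  rw [mem_Mn, not_forall] at hv
  obtain ⟨z0, hz0⟩ := hv
  rw [not_not] at hz0
  obtain ⟨z, hz, hmin⟩ := exists_min_image (Dn S v) (dm S) ⟨z0, mem_Dn.2 hz0⟩
  refine ⟨z, mem_Mn.2 fun w hw => ?_, mem_Dn.1 hz⟩
  have h1 := dm_lt h hw
  have h2 := hmin w (mem_Dn.2 (h.2 w z v hw (mem_Dn.1 hz)))
  omega

/-- The number of relations that start in a minimal element. -/
theorem card_min_pairs {S : Finset (Fin n × Fin n)} (h : IsPO S) :
    n ≤ (Mn S).card + (S.filter fun e => e.1 ∈ Mn S).card := by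
  classical
  have h1 : (Mn S)ᶜ.card ≤ (S.filter fun e => e.1 ∈ Mn S).card := by
    have hex : ∀ v : Fin n, ∃ z, v ∉ Mn S → z ∈ Mn S ∧ (z, v) ∈ S := by
      intro v
      by_cases hv : v ∈ Mn S
      · exact ⟨v, fun h => absurd hv h⟩
      · obtain ⟨z, h1, h2⟩ := exists_minimal_below h hv
        exact ⟨z, fun _ => ⟨h1, h2⟩⟩
    choose z hz using hex
    refine card_le_card_of_injOn (fun v => (z v, v)) ?_ ?_
    · intro v hv
      rw [mem_coe, mem_compl] at hv
      rw [mem_coe, mem_filter]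
      exact ⟨(hz v hv).2, (hz v hv).1⟩
    · intro v _ w _ hvw
      exact (Prod.mk.inj hvw).2
  have h2 : (Mn S).card + (Mn S)ᶜ.card = n := by
    rw [card_add_card_compl, Fintype.card_fin]
  omega

open scoped Classical in
/-- The number of posets with few minimal elements. -/
theorem count_few_min (n k c : ℕ) :
    ((PO n k).filter fun S => c * (Mn S).card < n ∧ 2 * (Mn S).card ≤ n).card ≤
      ∑ Z ∈ (univ : Finset (Finset (Fin n))).filter (fun Z => c * Z.card < n),
        ∑ j ∈ (range (k + 1)).filter (fun j => n ≤ 2 * j),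
          (Z.card * n).choose j * (n * n).choose (k - j) := by
  classical
  set F := (PO n k).filter fun S => c * (Mn S).card < n ∧ 2 * (Mn S).card ≤ n with hF
  set T := ((univ : Finset (Finset (Fin n))).filter (fun Z => c * Z.card < n)) ×ˢ
    (range (k + 1)).filter (fun j => n ≤ 2 * j) with hT
  set g : Finset (Fin n × Fin n) → Finset (Fin n) × ℕ :=
    fun S => (Mn S, (S.filter fun e => e.1 ∈ Mn S).card) with hg
  have hdata : ∀ S ∈ F, S.card = k ∧ IsPO S ∧ c * (Mn S).card < n ∧ 2 * (Mn S).card ≤ n := by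
    intro S hS
    rw [hF, mem_filter] at hS
    obtain ⟨h1, h2⟩ := hS
    unfold PO at h1
    rw [mem_filter] at h1
    exact ⟨h1.2.2, h1.2.1, h2⟩
  have hmaps : ∀ S ∈ F, g S ∈ T := by
    intro S hS
    obtain ⟨h1, h2, h3, h4⟩ := hdata S hS
    have h5 := card_min_pairs h2
    have h6 : (S.filter fun e => e.1 ∈ Mn S).card ≤ k := by
      rw [← h1]; exact card_le_card (filter_subset _ _)
    rw [hT, hg, mem_product, mem_filter, mem_filter, mem_range]
    exact ⟨⟨mem_univ _, h3⟩, by simp only; omega, by simp only; omega⟩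
  rw [card_eq_sum_card_fiberwise (f := g) (s := F) (t := T) hmaps, hT, sum_product]
  refine sum_le_sum fun Z _ => sum_le_sum fun j _ => ?_
  have h7 : (powersetCard j (Z ×ˢ (univ : Finset (Fin n))) ×ˢ
      powersetCard (k - j) (univ : Finset (Fin n × Fin n))).card =
      (Z.card * n).choose j * (n * n).choose (k - j) := by
    rw [card_product, card_powersetCard, card_powersetCard, card_product, card_univ,
      card_univ, Fintype.card_prod, Fintype.card_fin]
  rw [← h7]
  refine card_le_card_of_injOn (fun S => (S.filter fun e => e.1 ∈ Z, S.filter fun e => e.1 ∉ Z))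
    ?_ ?_
  · intro S hS
    rw [mem_coe, mem_filter] at hS
    obtain ⟨h1, h2⟩ := hS
    obtain ⟨h3, -, -, -⟩ := hdata S h1
    rw [hg] at h2
    simp only [Prod.mk.injEq] at h2
    obtain ⟨h4, h5⟩ := h2
    subst h4
    rw [mem_coe, mem_product, mem_powersetCard, mem_powersetCard]
    refine ⟨⟨?_, h5⟩, subset_univ _, ?_⟩
    · intro e he
      rw [mem_filter] at he
      rw [mem_product]
      exact ⟨he.2, mem_univ _⟩
    · have h6 := card_filter_add_card_filter_not (s := S) (fun e => e.1 ∈ Mn S)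
      change (S.filter fun e => e.1 ∉ Mn S).card = k - j
      omega
  · intro S _ S' _ hSS
    obtain ⟨h1, h2⟩ := Prod.mk.inj hSS
    rw [← filter_union_filter_not_eq (fun e => e.1 ∈ Z) S,
      ← filter_union_filter_not_eq (fun e => e.1 ∈ Z) S', h1, h2]

/-- The dual poset. -/
def dualS (S : Finset (Fin n × Fin n)) : Finset (Fin n × Fin n) :=
  S.map (Equiv.prodComm (Fin n) (Fin n)).toEmbedding

theorem mem_dualS {S : Finset (Fin n × Fin n)} {x y : Fin n} :
    (x, y) ∈ dualS S ↔ (y, x) ∈ S := by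
  unfold dualS
  rw [mem_map_equiv]
  simp

theorem dualS_inj {S S' : Finset (Fin n × Fin n)} (h : dualS S = dualS S') : S = S' := by
  ext ⟨x, y⟩
  rw [← mem_dualS, h, mem_dualS]

theorem Mn_dualS (S : Finset (Fin n × Fin n)) : Mn (dualS S) = Mx S := by
  ext v
  rw [mem_Mn, mem_Mx]
  refine forall_congr' fun z => ?_
  rw [mem_dualS]

open scoped Classical in
theorem count_few_max_le (n k c : ℕ) :
    ((PO n k).filter fun S => c * (Mx S).card < n ∧ 2 * (Mx S).card ≤ n).card ≤
      ((PO n k).filter fun S => c * (Mn S).card < n ∧ 2 * (Mn S).card ≤ n).card := by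
  refine card_le_card_of_injOn dualS ?_ ?_
  · intro S hS
    rw [mem_coe, mem_filter] at hS
    rw [mem_coe, mem_filter, Mn_dualS]
    refine ⟨?_, hS.2⟩
    have h1 := hS.1
    unfold PO at h1 ⊢
    rw [mem_filter] at h1 ⊢
    refine ⟨mem_univ _, ⟨fun i hi => h1.2.1.1 i (mem_dualS.1 hi), fun i j l hij hjl => ?_⟩, ?_⟩
    · exact mem_dualS.2 (h1.2.1.2 l j i (mem_dualS.1 hjl) (mem_dualS.1 hij))
    · unfold dualS
      rw [card_map]
      exact h1.2.2
  · intro S _ S' _ h
    exact dualS_inj h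

/-- The real bound for one term. -/
theorem term_real {n k j z : ℕ} (hn : 1500 ≤ n) (hk : k ≤ 15 * n) (hj : j ≤ k)
    (hj2 : n ≤ 2 * j) (hz : 10 ^ 34 * z < n) :
    ((z * n).choose j : ℝ) * ((n * n).choose (k - j) : ℝ) ≤
      ((n * n / 4).choose k : ℝ) * (1 / 100) ^ n := by
  have hn0 : (0 : ℝ) < n := by exact_mod_cast (by omega : 0 < n)
  have h1 : ((z * n).choose j : ℝ) ≤ ((n : ℝ) ^ 2 / 10 ^ 34) ^ j / (j.factorial : ℝ) := by
    refine (Nat.choose_le_pow_div j (z * n)).trans ?_
    refine div_le_div_of_nonneg_right (pow_le_pow_left₀ (by positivity) ?_ j) (by positivity)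
    have : (10 : ℝ) ^ 34 * z ≤ n := by exact_mod_cast hz.le
    rw [le_div_iff₀ (by positivity)]
    push_cast
    nlinarith
  have h2 : ((n * n).choose (k - j) : ℝ) ≤ ((n : ℝ) ^ 2) ^ (k - j) / ((k - j).factorial : ℝ) := by
    refine (Nat.choose_le_pow_div (k - j) (n * n)).trans (le_of_eq ?_)
    push_cast
    rw [pow_two]
  have h3 : ((n : ℝ) ^ 2 / 5) ^ k / (k.factorial : ℝ) ≤ ((n * n / 4).choose k : ℝ) := by
    have hk100 : (k : ℝ) ≤ (n : ℝ) ^ 2 / 100 := by
      have h4 : (k : ℝ) ≤ 15 * n := by exact_mod_cast hk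
      have h5 : (1500 : ℝ) ≤ n := by exact_mod_cast hn
      nlinarith
    have h6 := sub_ge_fifth (by omega : 5 ≤ n) hk100
    have h7 : (n * n / 4 - k) ^ k ≤ (n * n / 4).descFactorial k :=
      (Nat.pow_le_pow_left (by omega) k).trans (Nat.pow_sub_le_descFactorial (n * n / 4) k)
    rw [Nat.descFactorial_eq_factorial_mul_choose] at h7
    have h8 : ((n * n / 4 - k : ℕ) : ℝ) ^ k ≤ (k.factorial : ℝ) * ((n * n / 4).choose k : ℝ) := by
      exact_mod_cast h7
    rw [div_le_iff₀ (by positivity), mul_comm]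
    exact (pow_le_pow_left₀ (by positivity) h6 k).trans h8
  have h9 : (k.factorial : ℝ) ≤ 2 ^ k * ((j.factorial : ℝ) * ((k - j).factorial : ℝ)) := by
    have h10 := Nat.choose_mul_factorial_mul_factorial hj
    have h11 : k.choose j ≤ 2 ^ k := Nat.choose_le_two_pow k j
    have h12 : k.factorial ≤ 2 ^ k * (j.factorial * (k - j).factorial) := by
      rw [← h10, mul_assoc]
      exact Nat.mul_le_mul_right _ h11
    exact_mod_cast h12
  have h13 : (10 : ℝ) ^ k * (1 / 10 ^ 34) ^ j ≤ (1 / 100) ^ n := by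
    have h14 : (10 : ℝ) ^ k ≤ 10 ^ (15 * n) := pow_le_pow_right₀ (by norm_num) hk
    have h15 : ((1 : ℝ) / 10 ^ 34) ^ j ≤ (1 / 10) ^ (17 * n) := by
      have : ((1 : ℝ) / 10 ^ 34) ^ j = (1 / 10) ^ (34 * j) := by
        rw [pow_mul]; norm_num
      rw [this]
      exact pow_le_pow_of_le_one (by norm_num) (by norm_num) (by omega)
    calc (10 : ℝ) ^ k * (1 / 10 ^ 34) ^ j ≤ 10 ^ (15 * n) * (1 / 10) ^ (17 * n) := by gcongr
      _ = (1 / 100) ^ n := by
          rw [pow_mul, pow_mul, ← mul_pow]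
          norm_num
  have h16 : ((n : ℝ) ^ 2) ^ j * ((n : ℝ) ^ 2) ^ (k - j) = ((n : ℝ) ^ 2) ^ k := by
    rw [← pow_add]
    congr 1
    omega
  calc ((z * n).choose j : ℝ) * ((n * n).choose (k - j) : ℝ)
      ≤ (((n : ℝ) ^ 2 / 10 ^ 34) ^ j / (j.factorial : ℝ)) *
        (((n : ℝ) ^ 2) ^ (k - j) / ((k - j).factorial : ℝ)) := by gcongr
    _ = (((n : ℝ) ^ 2) ^ j * ((n : ℝ) ^ 2) ^ (k - j)) * (1 / 10 ^ 34) ^ j /
        ((j.factorial : ℝ) * ((k - j).factorial : ℝ)) := by
        rw [div_pow, one_div, inv_pow]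
        field_simp
    _ = ((n : ℝ) ^ 2) ^ k * (1 / 10 ^ 34) ^ j /
        ((j.factorial : ℝ) * ((k - j).factorial : ℝ)) := by rw [h16]
    _ ≤ ((n : ℝ) ^ 2) ^ k * (1 / 10 ^ 34) ^ j * (2 ^ k / (k.factorial : ℝ)) := by
        rw [div_eq_mul_inv]
        refine mul_le_mul_of_nonneg_left ?_ (by positivity)
        rw [inv_eq_one_div, div_le_div_iff₀ (by positivity) (by positivity), one_mul]
        exact h9
    _ = (((n : ℝ) ^ 2 / 5) ^ k / (k.factorial : ℝ)) * (10 ^ k * (1 / 10 ^ 34) ^ j) := by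
        have h17 : (10 : ℝ) ^ k = 5 ^ k * 2 ^ k := by rw [← mul_pow]; norm_num
        have h18 : ((n : ℝ) ^ 2) ^ k = ((n : ℝ) ^ 2 / 5) ^ k * 5 ^ k := by
          rw [← mul_pow]
          congr 1
          ring
        rw [h17, h18]
        ring
    _ ≤ ((n * n / 4).choose k : ℝ) * (1 / 100) ^ n := by gcongr

open scoped Classical in
theorem few_min_small {n k : ℕ} (hn : 1500 ≤ n) (hk : k ≤ 15 * n) :
    16 * ((PO n k).filter fun S => 10 ^ 34 * (Mn S).card < n ∧ 2 * (Mn S).card ≤ n).card ≤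
      (n * n / 4).choose k := by
  have h1 := count_few_min n k (10 ^ 34)
  have h2 : ((∑ Z ∈ (univ : Finset (Finset (Fin n))).filter (fun Z => 10 ^ 34 * Z.card < n),
        ∑ j ∈ (range (k + 1)).filter (fun j => n ≤ 2 * j),
          (Z.card * n).choose j * (n * n).choose (k - j) : ℕ) : ℝ) ≤
      2 ^ n * ((k + 1 : ℕ) * (((n * n / 4).choose k : ℝ) * (1 / 100) ^ n)) := by
    push_cast
    calc ∑ Z ∈ (univ : Finset (Finset (Fin n))).filter (fun Z => 10 ^ 34 * Z.card < n),
        ∑ j ∈ (range (k + 1)).filter (fun j => n ≤ 2 * j),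
          ((Z.card * n).choose j : ℝ) * ((n * n).choose (k - j) : ℝ)
        ≤ ∑ _Z ∈ (univ : Finset (Finset (Fin n))).filter (fun Z => 10 ^ 34 * Z.card < n),
          ((k + 1 : ℕ) : ℝ) * (((n * n / 4).choose k : ℝ) * (1 / 100) ^ n) := by
          refine sum_le_sum fun Z hZ => ?_
          rw [mem_filter] at hZ
          calc ∑ j ∈ (range (k + 1)).filter (fun j => n ≤ 2 * j),
                ((Z.card * n).choose j : ℝ) * ((n * n).choose (k - j) : ℝ)
              ≤ ∑ _j ∈ (range (k + 1)).filter (fun j => n ≤ 2 * j),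
                (((n * n / 4).choose k : ℝ) * (1 / 100) ^ n) := by
                refine sum_le_sum fun j hj => ?_
                rw [mem_filter, mem_range] at hj
                exact term_real hn hk (by omega) hj.2 hZ.2
            _ ≤ ((k + 1 : ℕ) : ℝ) * (((n * n / 4).choose k : ℝ) * (1 / 100) ^ n) := by
                rw [sum_const, nsmul_eq_mul]
                refine mul_le_mul_of_nonneg_right ?_ (by positivity)
                have : ((range (k + 1)).filter (fun j => n ≤ 2 * j)).card ≤ k + 1 :=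
                  (card_le_card (filter_subset _ _)).trans (by simp)
                exact_mod_cast this
      _ ≤ 2 ^ n * ((k + 1 : ℕ) * (((n * n / 4).choose k : ℝ) * (1 / 100) ^ n)) := by
          rw [sum_const, nsmul_eq_mul]
          refine mul_le_mul_of_nonneg_right ?_ (by positivity)
          have : ((univ : Finset (Finset (Fin n))).filter
              (fun Z => 10 ^ 34 * Z.card < n)).card ≤ 2 ^ n :=
            (card_le_card (filter_subset _ _)).trans (by simp)
          exact_mod_cast this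
      _ = 2 ^ n * (((k : ℝ) + 1) * (((n * n / 4).choose k : ℝ) * (1 / 100) ^ n)) := by
          push_cast; rfl
  have h3 : (16 : ℝ) * ((k + 1 : ℕ) : ℝ) * 2 ^ n * (1 / 100) ^ n ≤ 1 := by
    have h4 : (k + 1 : ℕ) ≤ 16 * 2 ^ n := by
      have : n < 2 ^ n := Nat.lt_two_pow_self
      omega
    have h5 : ((k + 1 : ℕ) : ℝ) ≤ 16 * 2 ^ n := by exact_mod_cast h4
    have h6 : (256 : ℝ) * (1 / 25) ^ n ≤ 1 := by
      have h7 : ((1 : ℝ) / 25) ^ n ≤ (1 / 25) ^ 2 :=
        pow_le_pow_of_le_one (by norm_num) (by norm_num) (by omega)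
      calc (256 : ℝ) * (1 / 25) ^ n ≤ 256 * (1 / 25) ^ 2 := by gcongr
        _ ≤ 1 := by norm_num
    calc (16 : ℝ) * ((k + 1 : ℕ) : ℝ) * 2 ^ n * (1 / 100) ^ n
        ≤ 16 * (16 * 2 ^ n) * 2 ^ n * (1 / 100) ^ n := by gcongr
      _ = 256 * (1 / 25) ^ n := by
          have : ((1 : ℝ) / 25) ^ n = 2 ^ n * 2 ^ n * (1 / 100) ^ n := by
            rw [← mul_pow, ← mul_pow]; norm_num
          rw [this]; ring
      _ ≤ 1 := h6
  have h8 : (16 : ℝ) * ((PO n k).filter fun S =>
      10 ^ 34 * (Mn S).card < n ∧ 2 * (Mn S).card ≤ n).card ≤ ((n * n / 4).choose k : ℝ) := by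
    have h9 : (((PO n k).filter fun S =>
        10 ^ 34 * (Mn S).card < n ∧ 2 * (Mn S).card ≤ n).card : ℝ) ≤
        2 ^ n * ((k + 1 : ℕ) * (((n * n / 4).choose k : ℝ) * (1 / 100) ^ n)) := by
      refine le_trans ?_ h2
      exact_mod_cast h1
    calc (16 : ℝ) * ((PO n k).filter fun S =>
          10 ^ 34 * (Mn S).card < n ∧ 2 * (Mn S).card ≤ n).card
        ≤ 16 * (2 ^ n * ((k + 1 : ℕ) * (((n * n / 4).choose k : ℝ) * (1 / 100) ^ n))) := by gcongr
      _ = ((n * n / 4).choose k : ℝ) * (16 * ((k + 1 : ℕ) : ℝ) * 2 ^ n * (1 / 100) ^ n) := by ring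
      _ ≤ ((n * n / 4).choose k : ℝ) * 1 := by gcongr
      _ = ((n * n / 4).choose k : ℝ) := mul_one _
  exact_mod_cast h8

open scoped Classical in
/-- **Step 2b**: for linearly many relations almost all posets have many addable pairs. -/
theorem sp_step2b : ∃ n0 : ℕ, ∀ n ≥ n0, ∀ k : ℕ, k ≤ 15 * n →
    4 * ((PO n k).filter fun S => (Add S).card < 2 * k + 2).card ≤ cnt n k := by
  refine ⟨50 * 10 ^ 68, fun n hn k hk => ?_⟩
  have hn1 : 1500 ≤ n := le_trans (by norm_num) hn
  have h1 := few_min_small hn1 hk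
  have h2 := count_few_max_le n k (10 ^ 34)
  have h3 : (n * n / 4).choose k ≤ cnt n k := by
    rw [← half_mul_half]
    exact choose_le_cnt n k
  have h4 : (PO n k).filter (fun S => (Add S).card < 2 * k + 2) ⊆
      ((PO n k).filter fun S => 10 ^ 34 * (Mn S).card < n ∧ 2 * (Mn S).card ≤ n) ∪
      ((PO n k).filter fun S => 10 ^ 34 * (Mx S).card < n ∧ 2 * (Mx S).card ≤ n) := by
    intro S hS
    rw [mem_filter] at hS
    obtain ⟨h5, h6⟩ := hS
    rw [mem_union, mem_filter, mem_filter]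
    by_contra hc
    rw [not_or] at hc
    obtain ⟨hc1, hc2⟩ := hc
    have hc1' : n ≤ 10 ^ 34 * (Mn S).card := by
      by_contra h7
      exact hc1 ⟨h5, by omega, by omega⟩
    have hc2' : n ≤ 10 ^ 34 * (Mx S).card := by
      by_contra h7
      exact hc2 ⟨h5, by omega, by omega⟩
    have h8 := card_Mn_mul_Mx_le S
    have h9 : S.card = k := by
      unfold PO at h5
      rw [mem_filter] at h5
      exact h5.2.2
    have h10 : n * n ≤ 10 ^ 68 * ((Mn S).card * (Mx S).card) := by
      calc n * n ≤ (10 ^ 34 * (Mn S).card) * (10 ^ 34 * (Mx S).card) := Nat.mul_le_mul hc1' hc2'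
        _ = 10 ^ 68 * ((Mn S).card * (Mx S).card) := by ring
    have h11 : (50 * 10 ^ 68) * n ≤ n * n := Nat.mul_le_mul_right _ hn
    have h12 : 50 * n ≤ (Mn S).card * (Mx S).card := by
      by_contra h13
      rw [not_le] at h13
      have h14 : 10 ^ 68 * ((Mn S).card * (Mx S).card) < 10 ^ 68 * (50 * n) :=
        Nat.mul_lt_mul_of_pos_left h13 (by positivity)
      have h15 : 10 ^ 68 * (50 * n) = (50 * 10 ^ 68) * n := by ring
      omega
    omega
  have h5 := (card_le_card h4).trans (card_union_le _ _)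
  omega

end Pool.Agent.H.MP_82502e_co
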