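import Pool.Agent.H.MP_82502e_co.SpG
import Pool.Agent.H.MP_82502e_co.SpE

set_option autoImplicit false

/-!
# The sparse end
-/

namespace Pool.Agent.H.MP_82502e_co

open Finset

/-- **The sparse end**: the number of labelled posets with `k` comparable pairs is strictly
increasing in `k` for `0 ≤ k ≤ d1 n²`. -/
theorem sparse : ∃ d1 : ℝ, 0 < d1 ∧ ∃ n0 : ℕ, ∀ n ≥ n0, ∀ k : ℕ, (k : ℝ) ≤ d1 * (n : ℝ) ^ 2 →
    cnt n k < cnt n (k + 1) := by
  obtain ⟨d1, hd1, n1, h1⟩ := sp_step2a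
  obtain ⟨n2, h2⟩ := sp_step2b
  refine ⟨min d1 (1 / 4), lt_min hd1 (by norm_num), max 12 (max n1 n2), fun n hn k hkd => ?_⟩
  have hn12 : 12 ≤ n := le_trans (le_max_left _ _) hn
  have hn1 : n1 ≤ n := le_trans (le_trans (le_max_left _ _) (le_max_right _ _)) hn
  have hn2 : n2 ≤ n := le_trans (le_trans (le_max_right _ _) (le_max_right _ _)) hn
  have hkd1 : (k : ℝ) ≤ d1 * (n : ℝ) ^ 2 :=
    hkd.trans (mul_le_mul_of_nonneg_right (min_le_left _ _) (by positivity))
  have hk4 : 4 * k ≤ n * n := by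
    have h3 : (k : ℝ) ≤ 1 / 4 * (n : ℝ) ^ 2 :=
      hkd.trans (mul_le_mul_of_nonneg_right (min_le_right _ _) (by positivity))
    have h4 : (4 : ℝ) * k ≤ (n : ℝ) * n := by nlinarith
    exact_mod_cast h4
  have hpos : 0 < cnt n k := by
    refine cnt_pos ?_
    have h5 : n ≤ n * n := by nlinarith
    have h6 : n * (n - 1) = n * n - n := by
      rw [Nat.mul_sub, mul_one]
    have h7 : 12 * n ≤ n * n := Nat.mul_le_mul_right n hn12
    rw [h6]
    omega
  refine lt_of_few_bad hpos ?_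
  by_cases hc1 : 3 * k ≤ n
  · have h0 : ((PO n k).filter fun S => (Add S).card < 2 * k + 2) = ∅ := by
      rw [filter_eq_empty_iff]
      intro S hS
      exact not_lt.2 (add_of_few hn12 hc1 hS)
    rw [h0, card_empty, mul_zero]
    exact Nat.zero_le _
  · by_cases hc2 : k ≤ 15 * n
    · exact h2 n hn2 k hc2
    · exact h1 n hn1 k (by omega) hkd1

end Pool.Agent.H.MP_82502e_co
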