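import Pool.Agent.H.MP_82502e_co.TopC

set_option autoImplicit false

/-!
# One step down, from the macroscopic slope
-/

namespace Pool.Agent.H.MP_82502e_co

open Finset

variable {n : ℕ}

/-- `X` is an antichain of `S`. -/
def Anti (S : Finset (Fin n × Fin n)) (X : Finset (Fin n)) : Prop :=
  ∀ x ∈ X, ∀ y ∈ X, (x, y) ∉ S

/-- Proof. Each `T ∈ PO n (k+1)` has `Cov T` nonempty (`cov_nonempty`), so
`1 = ∑_{p ∈ Cov T} 1 / |Cov T|`; then the bijection `(S, p) ↦ (insert p S, p)` of `sum_card_add`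
(copy its proof with `Finset.sum_nbij'` over the sigma types). -/
theorem cnt_succ_eq (k : ℕ) : (cnt n (k + 1) : ℝ) =
    ∑ S ∈ PO n k, ∑ p ∈ Add S, (1 : ℝ) / ((Cov (insert p S)).card : ℝ) := by
  have h1 : (cnt n (k + 1) : ℝ) =
      ∑ T ∈ PO n (k + 1), ∑ _p ∈ Cov T, (1 : ℝ) / ((Cov T).card : ℝ) := by
    have h2 : (cnt n (k + 1) : ℝ) = ∑ T ∈ PO n (k + 1), (1 : ℝ) := by
      rw [sum_const, nsmul_eq_mul, mul_one]
      rfl
    rw [h2]
    refine sum_congr rfl fun T hT => ?_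
    have h3 := mem_PO.1 hT
    have h4 : 0 < (Cov T).card :=
      card_pos.2 (cov_nonempty h3.1 (card_pos.1 (by rw [h3.2]; omega)))
    have h5 : ((Cov T).card : ℝ) ≠ 0 := by exact_mod_cast h4.ne'
    rw [sum_const, nsmul_eq_mul, mul_one_div, div_self h5]
  rw [h1, sum_sigma', sum_sigma']
  refine (sum_nbij' (fun q => ⟨insert q.2 q.1, q.2⟩) (fun q => ⟨q.1.erase q.2, q.2⟩)
    ?_ ?_ ?_ ?_ ?_).symm
  · rintro ⟨S, p⟩ h
    rw [mem_sigma] at h ⊢
    obtain ⟨hS, hp⟩ := h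
    rw [mem_PO] at hS
    refine ⟨mem_PO.2 ⟨isPO_insert hS.1 hp, ?_⟩, cov_insert_self hS.1 hp⟩
    rw [card_insert_of_notMem (mem_Add.1 hp).2.1, hS.2]
  · rintro ⟨S, p⟩ h
    rw [mem_sigma] at h ⊢
    obtain ⟨hS, hp⟩ := h
    rw [mem_PO] at hS
    refine ⟨mem_PO.2 ⟨isPO_erase hS.1 hp, ?_⟩, add_erase_self hS.1 hp⟩
    rw [card_erase_of_mem (mem_Cov.1 hp).1, hS.2, Nat.add_sub_cancel]
  · rintro ⟨S, p⟩ h
    rw [mem_sigma] at h
    have hp : p ∉ S := (mem_Add.1 h.2).2.1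
    simp only [erase_insert hp]
  · rintro ⟨S, p⟩ h
    rw [mem_sigma] at h
    have hp : p ∈ S := (mem_Cov.1 h.2).1
    simp only [insert_erase hp]
  · rintro ⟨S, p⟩ _
    rfl

/-- The upper covers of `x` form an antichain, so do the lower covers of `y`. -/
theorem anti_upper {S : Finset (Fin n × Fin n)} (h : IsPO S) (x : Fin n) :
    Anti S (univ.filter fun v => (x, v) ∈ Cov S) := by
  intro v hv w hw hvw
  rw [mem_filter] at hv hw
  exact (mem_Cov.1 hw.2).2 v ⟨(mem_Cov.1 hv.2).1, hvw⟩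

theorem anti_lower {S : Finset (Fin n × Fin n)} (h : IsPO S) (y : Fin n) :
    Anti S (univ.filter fun u => (u, y) ∈ Cov S) := by
  intro u hu w hw huw
  rw [mem_filter] at hu hw
  exact (mem_Cov.1 hu.2).2 w ⟨huw, (mem_Cov.1 hw.2).1⟩

/-- Adding `p = (x, y)` destroys only covers `(x, v)` and `(u, y)`. Proof: let `(u, v) ∈ Cov S` not be a
cover of `insert p S`: there is `z` with `(u, z), (z, v) ∈ insert p S`; not both in `S`. If `(u, z) = p` then `u = x`;
if `(z, v) = p` then `v = y`. -/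
theorem cov_le_insert {S : Finset (Fin n × Fin n)} (p : Fin n × Fin n) :
    (Cov S).card ≤ (Cov (insert p S)).card + (univ.filter fun v => (p.1, v) ∈ Cov S).card +
      (univ.filter fun u => (u, p.2) ∈ Cov S).card := by
  have h1 : Cov S ⊆ Cov (insert p S) ∪
      (univ.filter fun v => (p.1, v) ∈ Cov S).image (fun v => (p.1, v)) ∪
      (univ.filter fun u => (u, p.2) ∈ Cov S).image (fun u => (u, p.2)) := by
    intro q hq
    rw [mem_union, mem_union]
    by_contra hc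
    rw [not_or, not_or] at hc
    obtain ⟨⟨ha, hb⟩, hc⟩ := hc
    have hqS := (mem_Cov.1 hq).1
    apply ha
    refine mem_Cov.2 ⟨mem_insert_of_mem hqS, ?_⟩
    rintro z ⟨hz1, hz2⟩
    rcases mem_insert.1 hz1 with hz1 | hz1
    · apply hb
      have h2 : q.1 = p.1 := by rw [← hz1]
      refine mem_image.2 ⟨q.2, mem_filter.2 ⟨mem_univ _, ?_⟩, ?_⟩
      · rw [← h2]
        exact hq
      · rw [← h2]
    · rcases mem_insert.1 hz2 with hz2 | hz2
      · apply hc
        have h2 : q.2 = p.2 := by rw [← hz2]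
        refine mem_image.2 ⟨q.1, mem_filter.2 ⟨mem_univ _, ?_⟩, ?_⟩
        · rw [← h2]
          exact hq
        · rw [← h2]
      · exact (mem_Cov.1 hq).2 z ⟨hz1, hz2⟩
  refine (card_le_card h1).trans ?_
  refine (card_union_le _ _).trans ?_
  refine Nat.add_le_add ?_ card_image_le
  refine (card_union_le _ _).trans ?_
  exact Nat.add_le_add le_rfl card_image_le

open scoped Classical in
/-- **Macroscopic slope implies one step.**

Proof. By `cnt_succ_eq` split the sum over `S ∈ PO n k` in the exceptional ones (those of `h2` or of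
`add_le_cov`), at most `2 η cnt n k` of them, for which the inner sum is `≤ |Add S| ≤ M` (each term is
`≤ 1` because `p ∈ Cov (insert p S)`), and the others: there `c = |Cov S| ≥ A`,
`|Cov (insert p S)| ≥ c - 2 W > 0` (`cov_le_insert`, `anti_upper`, `anti_lower`), so the inner sum is
`≤ |Add S| / (c - 2W) ≤ (c + 4(ρ+1)t) / (ρ (1-4η) (c - 2W))`, and `(c + y) / (c - 2W) ≤ (A + y) / (A - 2W)` for `c ≥ A`
(`y = 4(ρ+1)t ≥ 0`). -/
theorem gen_down (k t : ℕ) {ρ η A W M : ℝ} (hρ : 1 ≤ ρ) (hη : 0 < η) (hη' : 4 * η < 1)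
    (hW : 0 ≤ W) (hA : 2 * W < A)
    (hanti : ∀ S ∈ PO n k, ∀ X : Finset (Fin n), Anti S X → (X.card : ℝ) ≤ W)
    (hM : ∀ S ∈ PO n k, ((Add S).card : ℝ) ≤ M)
    (h1 : ρ ^ t * cnt n (k + t) ≤ η ^ 2 * cnt n k)
    (h2 : (((PO n k).filter fun S => ((Cov S).card : ℝ) < A).card : ℝ) ≤ η * cnt n k) :
    (cnt n (k + 1) : ℝ) ≤
      ((A + 4 * (ρ + 1) * t) / (ρ * (1 - 4 * η) * (A - 2 * W)) + 2 * η * M) * cnt n k := by
  classical
  have hE2 := add_le_cov k t hρ hη h1
  obtain ⟨y, hy⟩ : ∃ y : ℝ, y = 4 * (ρ + 1) * t := ⟨_, rfl⟩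
  have hy0 : 0 ≤ y := by
    rw [hy]
    have : (0 : ℝ) ≤ t := Nat.cast_nonneg _
    have : (0 : ℝ) ≤ ρ + 1 := by linarith
    positivity
  have hκ : 0 < ρ * (1 - 4 * η) := mul_pos (by linarith) (by linarith)
  have hA2 : 0 < A - 2 * W := by linarith
  obtain ⟨B, hB⟩ : ∃ B : ℝ, B = (A + y) / (ρ * (1 - 4 * η) * (A - 2 * W)) := ⟨_, rfl⟩
  have hB0 : 0 ≤ B := by
    rw [hB]
    apply div_nonneg
    · linarith
    · exact (mul_pos hκ hA2).le
  rw [← hy, ← hB]
  -- the inner sums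
  have hF1 : ∀ S ∈ PO n k, ∑ p ∈ Add S, (1 : ℝ) / ((Cov (insert p S)).card : ℝ) ≤ M := by
    intro S hS
    have h3 : ∑ p ∈ Add S, (1 : ℝ) / ((Cov (insert p S)).card : ℝ) ≤ ∑ _p ∈ Add S, (1 : ℝ) := by
      refine sum_le_sum fun p hp => ?_
      have h4 : 0 < (Cov (insert p S)).card :=
        card_pos.2 ⟨p, cov_insert_self (mem_PO.1 hS).1 hp⟩
      have h5 : (1 : ℝ) ≤ ((Cov (insert p S)).card : ℝ) := by exact_mod_cast h4
      rw [div_le_one (by linarith)]
      exact h5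
    refine h3.trans ?_
    rw [sum_const, nsmul_eq_mul, mul_one]
    exact hM S hS
  have hF2 : ∀ S ∈ PO n k, A ≤ ((Cov S).card : ℝ) →
      ρ * (1 - 4 * η) * (Add S).card ≤ ((Cov S).card : ℝ) + y →
      ∑ p ∈ Add S, (1 : ℝ) / ((Cov (insert p S)).card : ℝ) ≤ B := by
    intro S hS hc hadd
    have hPO := (mem_PO.1 hS).1
    have hcW : 0 < ((Cov S).card : ℝ) - 2 * W := by linarith
    have h3 : ∑ p ∈ Add S, (1 : ℝ) / ((Cov (insert p S)).card : ℝ) ≤
        ∑ _p ∈ Add S, (1 : ℝ) / (((Cov S).card : ℝ) - 2 * W) := by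
      refine sum_le_sum fun p hp => ?_
      have h4 := cov_le_insert (S := S) p
      have h5 := hanti S hS _ (anti_upper hPO p.1)
      have h6 := hanti S hS _ (anti_lower hPO p.2)
      have h7 : ((Cov S).card : ℝ) ≤ ((Cov (insert p S)).card : ℝ) +
          ((univ.filter fun v => (p.1, v) ∈ Cov S).card : ℝ) +
          ((univ.filter fun u => (u, p.2) ∈ Cov S).card : ℝ) := by exact_mod_cast h4
      exact one_div_le_one_div_of_le hcW (by linarith)
    refine h3.trans ?_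
    rw [sum_const, nsmul_eq_mul, mul_one_div, hB]
    have h8 : ((Add S).card : ℝ) ≤ (((Cov S).card : ℝ) + y) / (ρ * (1 - 4 * η)) := by
      rw [le_div_iff₀ hκ, mul_comm]
      exact hadd
    calc ((Add S).card : ℝ) / (((Cov S).card : ℝ) - 2 * W)
        ≤ ((((Cov S).card : ℝ) + y) / (ρ * (1 - 4 * η))) / (((Cov S).card : ℝ) - 2 * W) :=
          div_le_div_of_nonneg_right h8 hcW.le
      _ ≤ (A + y) / (ρ * (1 - 4 * η) * (A - 2 * W)) := by
          rw [div_div, div_le_div_iff₀ (mul_pos hκ hcW) (mul_pos hκ hA2)]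
          have h9 : (((Cov S).card : ℝ) + y) * (A - 2 * W) ≤
              (A + y) * (((Cov S).card : ℝ) - 2 * W) := by
            have h10 : 0 ≤ (((Cov S).card : ℝ) - A) * (y + 2 * W) :=
              mul_nonneg (by linarith) (by linarith)
            nlinarith
          calc (((Cov S).card : ℝ) + y) * (ρ * (1 - 4 * η) * (A - 2 * W))
              = ρ * (1 - 4 * η) * ((((Cov S).card : ℝ) + y) * (A - 2 * W)) := by ring
            _ ≤ ρ * (1 - 4 * η) * ((A + y) * (((Cov S).card : ℝ) - 2 * W)) :=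
                mul_le_mul_of_nonneg_left h9 hκ.le
            _ = (A + y) * (ρ * (1 - 4 * η) * (((Cov S).card : ℝ) - 2 * W)) := by ring
  rcases (PO n k).eq_empty_or_nonempty with he | ⟨S0, hS0⟩
  · have h3 : cnt n k = 0 := by
      unfold cnt
      rw [he, card_empty]
    rw [cnt_succ_eq, he, sum_empty, h3]
    simp
  have hM0 : 0 ≤ M := (Nat.cast_nonneg _).trans (hM S0 hS0)
  rw [cnt_succ_eq]
  have hb : ∀ S ∈ PO n k, ∑ p ∈ Add S, (1 : ℝ) / ((Cov (insert p S)).card : ℝ) ≤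
      B + (if ((Cov S).card : ℝ) < A then M else 0) +
        (if ((Cov S).card : ℝ) + y < ρ * (1 - 4 * η) * (Add S).card then M else 0) := by
    intro S hS
    by_cases ha : ((Cov S).card : ℝ) < A
    · rw [if_pos ha]
      have h3 := hF1 S hS
      split_ifs <;> linarith
    · rw [if_neg ha]
      by_cases hb : ((Cov S).card : ℝ) + y < ρ * (1 - 4 * η) * (Add S).card
      · rw [if_pos hb]
        have h3 := hF1 S hS
        linarith
      · rw [if_neg hb]
        have h3 := hF2 S hS (not_lt.1 ha) (not_lt.1 hb)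
        linarith
  refine (sum_le_sum hb).trans ?_
  rw [sum_add_distrib, sum_add_distrib, sum_const, nsmul_eq_mul, ← sum_filter, ← sum_filter,
    sum_const, sum_const, nsmul_eq_mul, nsmul_eq_mul]
  rw [← hy] at hE2
  have h4 := mul_le_mul_of_nonneg_right h2 hM0
  have h5 := mul_le_mul_of_nonneg_right hE2 hM0
  have h6 : ((PO n k).card : ℝ) = (cnt n k : ℝ) := rfl
  rw [h6]
  linarith

end Pool.Agent.H.MP_82502e_co
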