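import Pool.Agent.H.MP_82502e_co.Relab

set_option autoImplicit false

/-!
# Incomparable pairs; elementary bounds
`NN n = n (n - 1) / 2`, `bb n m` is the number of posets with `m` incomparable pairs.
-/

namespace Pool.Agent.H.MP_82502e_co

open Finset

variable {n : ℕ}

/-- The number of pairs. -/
def NN (n : ℕ) : ℕ := n * (n - 1) / 2

/-- The number of posets on `n` points with exactly `m` incomparable pairs (if `m ≤ NN n`). -/
noncomputable def bb (n m : ℕ) : ℕ := cnt n (NN n - m)

/-- The incomparable ordered pairs. -/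
def Inc (S : Finset (Fin n × Fin n)) : Finset (Fin n × Fin n) :=
  univ.filter fun p => p.1 ≠ p.2 ∧ p ∉ S ∧ (p.2, p.1) ∉ S

/-- Proof: the off-diagonal pairs (`n (n - 1)` of them) are the disjoint union of `S`, its reverse and
`Inc S`. -/
theorem card_Inc {S : Finset (Fin n × Fin n)} (h : IsPO S) :
    (Inc S).card + 2 * S.card = n * (n - 1) := by
  obtain ⟨S', hS'⟩ : ∃ S', S' = S.map (Equiv.prodComm (Fin n) (Fin n)).toEmbedding := ⟨_, rfl⟩
  have hm : ∀ p, p ∈ S' ↔ (p.2, p.1) ∈ S := by
    intro p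
    rw [hS', mem_map_equiv]
    rfl
  have hc : S'.card = S.card := by rw [hS', card_map]
  have hd1 : Disjoint S S' := by
    rw [disjoint_left]
    intro p hp hp'
    exact h.1 _ (h.2 _ _ _ hp ((hm p).1 hp'))
  have hd2 : Disjoint (Inc S) (S ∪ S') := by
    rw [disjoint_left]
    intro p hp hp'
    rw [Inc, mem_filter] at hp
    rw [mem_union, hm] at hp'
    rcases hp' with h1 | h1
    · exact hp.2.2.1 h1
    · exact hp.2.2.2 h1
  have hu : Inc S ∪ (S ∪ S') = (univ : Finset (Fin n)).offDiag := by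
    ext p
    rw [mem_union, mem_union, hm, mem_offDiag, Inc, mem_filter]
    constructor
    · rintro (h1 | h1 | h1)
      · exact ⟨mem_univ _, mem_univ _, h1.2.1⟩
      · refine ⟨mem_univ _, mem_univ _, fun h2 => h.1 p.1 ?_⟩
        have h3 : p = (p.1, p.1) := Prod.ext rfl h2.symm
        rw [← h3]
        exact h1
      · refine ⟨mem_univ _, mem_univ _, fun h2 => h.1 p.1 ?_⟩
        have h3 : (p.2, p.1) = (p.1, p.1) := Prod.ext h2.symm rfl
        rw [← h3]
        exact h1
    · rintro ⟨-, -, h1⟩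
      by_cases h2 : p ∈ S
      · exact Or.inr (Or.inl h2)
      · by_cases h3 : (p.2, p.1) ∈ S
        · exact Or.inr (Or.inr h3)
        · exact Or.inl ⟨mem_univ _, h1, h2, h3⟩
  have h1 := card_union_of_disjoint hd2
  rw [hu, offDiag_card, card_union_of_disjoint hd1, hc, card_univ, Fintype.card_fin] at h1
  have h2 : n * (n - 1) = n * n - n := by rw [Nat.mul_sub, Nat.mul_one]
  omega

theorem card_le_NN {S : Finset (Fin n × Fin n)} (h : IsPO S) : S.card ≤ NN n := by
  have h1 := card_Inc h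
  unfold NN
  omega

theorem TopE_two_NN (n : ℕ) : 2 * NN n = n * (n - 1) := by
  unfold NN
  obtain ⟨c, hc⟩ := Nat.even_mul_pred_self n
  omega

theorem TopE_card_Inc {S : Finset (Fin n × Fin n)} (h : IsPO S) :
    (Inc S).card = 2 * (NN n - S.card) := by
  have h1 := card_Inc h
  have h2 := TopE_two_NN n
  have h3 := card_le_NN h
  omega

/-- `Add S ⊆ Inc S`. -/
theorem card_Add_le {S : Finset (Fin n × Fin n)} (h : IsPO S) :
    (Add S).card ≤ 2 * (NN n - S.card) := by
  rw [← TopE_card_Inc h]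
  refine card_le_card fun p hp => ?_
  rw [mem_Add] at hp
  rw [Inc, mem_filter]
  exact ⟨mem_univ _, hp.1, hp.2.1, hp.2.2.1⟩

/-- An antichain `X`: the pairs of different elements of `X` are in `Inc S`. -/
theorem card_anti_le {S : Finset (Fin n × Fin n)} (h : IsPO S) {X : Finset (Fin n)}
    (hX : ∀ x ∈ X, ∀ y ∈ X, (x, y) ∉ S) :
    X.card * (X.card - 1) ≤ 2 * (NN n - S.card) := by
  rw [← TopE_card_Inc h]
  have h1 : X.offDiag.card = X.card * (X.card - 1) := by
    rw [offDiag_card, Nat.mul_sub, Nat.mul_one]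
  rw [← h1]
  refine card_le_card fun p hp => ?_
  rw [mem_offDiag] at hp
  rw [Inc, mem_filter]
  exact ⟨mem_univ _, hp.2.2, hX _ hp.1 _ hp.2.1, hX _ hp.2.1 _ hp.1⟩

/-- Every element which is not maximal has an upper cover (an upper cover of `x`: an element `y` of
`Up S x` with the least `|Dn S y|`), and the maximal elements form an antichain `X`. So `n ≤ |Cov S| + |X|`. -/
theorem exists_anti_cov {S : Finset (Fin n × Fin n)} (h : IsPO S) :
    ∃ X : Finset (Fin n), (∀ x ∈ X, ∀ y ∈ X, (x, y) ∉ S) ∧ n ≤ (Cov S).card + X.card := by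
  classical
  have hcov : ∀ x : Fin n, (Up S x).Nonempty → ∃ y, (x, y) ∈ Cov S := by
    intro x hx
    obtain ⟨y, hy, hmin⟩ := exists_min_image (Up S x) (fun y => (Dn S y).card) hx
    refine ⟨y, mem_Cov.2 ⟨mem_Up.1 hy, ?_⟩⟩
    rintro z ⟨h1, h2⟩
    have h3 := hmin z (mem_Up.2 h1)
    have h4 : (Dn S z).card < (Dn S y).card := by
      refine card_lt_card ?_
      rw [ssubset_iff_of_subset fun w hw => mem_Dn.2 (h.2 w z y (mem_Dn.1 hw) h2)]
      exact ⟨z, mem_Dn.2 h2, fun hc => h.1 z (mem_Dn.1 hc)⟩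
    omega
  refine ⟨univ.filter fun x => ¬ (Up S x).Nonempty, ?_, ?_⟩
  · intro x hx y _ hxy
    rw [mem_filter] at hx
    exact hx.2 ⟨y, mem_Up.2 hxy⟩
  · have h1 : (univ.filter fun x : Fin n => (Up S x).Nonempty).card ≤ (Cov S).card := by
      have h2 : (univ.filter fun x : Fin n => (Up S x).Nonempty) ⊆ (Cov S).image Prod.fst := by
        intro x hx
        rw [mem_filter] at hx
        obtain ⟨y, hy⟩ := hcov x hx.2
        exact mem_image.2 ⟨(x, y), hy, rfl⟩
      exact (card_le_card h2).trans card_image_le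
    have h3 := card_filter_add_card_filter_not (s := (univ : Finset (Fin n)))
      (fun x => (Up S x).Nonempty)
    rw [card_univ, Fintype.card_fin] at h3
    omega

/-- **Small `m`.** Proof. `k = NN n - (m + 1)`, `sum_card_add n k`: `∑_{S ∈ PO n k} |Add S| = ∑_{T ∈ PO n (k+1)} |Cov T|`.
`|Add S| ≤ 2 (m + 1)` (`card_Add_le`), `|Cov T| ≥ n - |X|` with `|X| (|X| - 1) ≤ 2 m` (`exists_anti_cov`, `card_anti_le`).
If `m ≤ n / 4` and `n ≥ 100` then `|X| ≤ n / 4` (otherwise `|X| (|X| - 1) > 2 m`), so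
`(n - n/4) * bb n m ≤ 2 (m + 1) * bb n (m + 1)` and `2 (m + 1) < n - n / 4`; `0 < bb n m` (`cnt_pos`). -/
theorem top_small {n m : ℕ} (hn : 100 ≤ n) (hm : 4 * m ≤ n) : bb n m < bb n (m + 1) := by
  have hNN := TopE_two_NN n
  have h99 : n * 99 ≤ n * (n - 1) := Nat.mul_le_mul_left _ (by omega)
  have hk : m + 1 ≤ NN n := by omega
  have hk1 : NN n - (m + 1) + 1 = NN n - m := by omega
  have hsum := sum_card_add n (NN n - (m + 1))
  rw [hk1] at hsum
  have hup : ∑ S ∈ PO n (NN n - (m + 1)), (Add S).card ≤ bb n (m + 1) * (2 * (m + 1)) := by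
    have h1 := sum_le_card_nsmul (PO n (NN n - (m + 1))) (fun S => (Add S).card) (2 * (m + 1))
      (fun S hS => by
        rw [mem_PO] at hS
        have h2 := card_Add_le hS.1
        rw [hS.2] at h2
        omega)
    rw [smul_eq_mul] at h1
    exact h1
  have hlow : bb n m * (n - n / 4) ≤ ∑ T ∈ PO n (NN n - m), (Cov T).card := by
    have h1 := card_nsmul_le_sum (PO n (NN n - m)) (fun T => (Cov T).card) (n - n / 4)
      (fun T hT => by
        rw [mem_PO] at hT
        obtain ⟨X, hX, hX2⟩ := exists_anti_cov hT.1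
        have h2 := card_anti_le hT.1 hX
        rw [hT.2] at h2
        have h3 : X.card ≤ n / 4 := by
          by_contra hc
          have h4 : n / 4 + 1 ≤ X.card := by omega
          have h5 : (n / 4 + 1) * (n / 4) ≤ X.card * (X.card - 1) :=
            Nat.mul_le_mul h4 (by omega)
          have h6 : (n / 4 + 1) * 25 ≤ (n / 4 + 1) * (n / 4) := Nat.mul_le_mul_left _ (by omega)
          omega
        omega)
    rw [smul_eq_mul] at h1
    exact h1
  have hpos : 0 < bb n m := cnt_pos (by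
    have : NN n = n * (n - 1) / 2 := rfl
    omega)
  by_contra hc
  rw [not_lt] at hc
  have h1 : bb n m * (n - n / 4) ≤ bb n m * (2 * (m + 1)) :=
    (hlow.trans (hsum ▸ hup)).trans (Nat.mul_le_mul_right _ hc)
  have h2 := Nat.le_of_mul_le_mul_left h1 hpos
  omega

end Pool.Agent.H.MP_82502e_co
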