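import Pool.Agent.H.MP_82502e_co.Encode
import Pool.Agent.H.MP_82502e_co.TopE

set_option autoImplicit false

/-!
# Posets with few covers are rare
-/

namespace Pool.Agent.H.MP_82502e_co

open Finset

variable {n : ℕ}

theorem TopF_choose_add_le (a b j : ℕ) : a.choose b ≤ (a + j).choose (b + j) := by
  induction j with
  | zero => exact le_rfl
  | succ j ih =>
    refine ih.trans ?_
    rw [← Nat.add_assoc, ← Nat.add_assoc, Nat.choose_succ_succ]
    exact Nat.le_add_right _ _

open scoped Classical in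
/-- **Few covers.** Proof. `card_filter_le` (`Relab`, with `cov_relab`, `card_relab`) reduces to natural posets. For them
`encode_free` (file `Encode`) with the time `p.2 - p.1` and
`free P e := e.1 < e.2 ∧ ¬ ∃ z, e.1 < z ∧ z < e.2 ∧ (e.1, z) ∈ P ∧ (z, e.2) ∈ P` (see the proof of `flip_nc` in `Flip` with
`R` = all pairs): a position which is not free is not in `P` (if `e.2 ≤ e.1`) or is in `P` (transitivity). The free
positions in `P` are the covers, `g` of them; the free positions not in `P` are the pairs `x < y` not in `P`, `NN n - k` of them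
(all positions `x < y` are `NN n`, and the forced ones are in `P`). -/
theorem few_cov_nat (k g : ℕ) :
    ((PO n k).filter fun S => Nat' S ∧ (Cov S).card = g).card ≤ (NN n - k + g).choose g := by
  have hlin : ((univ : Finset (Fin n × Fin n)).filter fun e => e.1 < e.2).card ≤ NN n := by
    refine card_le_NN ⟨fun i hi => ?_, fun i j l hij hjl => ?_⟩
    · exact lt_irrefl i (mem_filter.1 hi).2
    · exact mem_filter.2 ⟨mem_univ _, lt_trans (mem_filter.1 hij).2 (mem_filter.1 hjl).2⟩
  refine encode_free (fun p => (p.2 : ℕ) - p.1) _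
    (fun P e => e.1 < e.2 ∧ ¬ ∃ z, e.1 < z ∧ z < e.2 ∧ (e.1, z) ∈ P ∧ (z, e.2) ∈ P)
    ?_ _ _ ?_ ?_
  · intro P hP Q hQ e hag
    rw [mem_filter, mem_PO] at hP hQ
    obtain ⟨⟨hP1, -⟩, hP2, -⟩ := hP
    obtain ⟨⟨hQ1, -⟩, hQ2, -⟩ := hQ
    have hiff : (∃ z, e.1 < z ∧ z < e.2 ∧ (e.1, z) ∈ P ∧ (z, e.2) ∈ P) ↔
        (∃ z, e.1 < z ∧ z < e.2 ∧ (e.1, z) ∈ Q ∧ (z, e.2) ∈ Q) := by
      refine exists_congr fun z => and_congr_right fun h1 => and_congr_right fun h2 => ?_
      have h1' : (e.1 : ℕ) < z := h1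
      have h2' : (z : ℕ) < e.2 := h2
      rw [hag (e.1, z) (by simp only; omega), hag (z, e.2) (by simp only; omega)]
    refine ⟨and_congr_right fun _ => not_congr hiff, ?_⟩
    intro hnf
    by_cases he : e.1 < e.2
    · have h1 : ∃ z, e.1 < z ∧ z < e.2 ∧ (e.1, z) ∈ P ∧ (z, e.2) ∈ P := by
        by_contra hc
        exact hnf ⟨he, hc⟩
      obtain ⟨z, -, -, h2, h3⟩ := h1
      obtain ⟨w, -, -, h4, h5⟩ := hiff.1 (by
        by_contra hc
        exact hnf ⟨he, hc⟩)
      exact ⟨fun _ => hQ1.2 _ _ _ h4 h5, fun _ => hP1.2 _ _ _ h2 h3⟩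
    · exact ⟨fun h => absurd (hP2 _ h) he, fun h => absurd (hQ2 _ h) he⟩
  · intro P hP
    rw [mem_filter, mem_PO] at hP
    obtain ⟨⟨hP1, hP3⟩, hP2, hP4⟩ := hP
    have hCP : Cov P ⊆ P := filter_subset _ _
    have h1 : (univ.filter fun e : Fin n × Fin n => e.1 < e.2 ∧
        ¬ ∃ z, e.1 < z ∧ z < e.2 ∧ (e.1, z) ∈ P ∧ (z, e.2) ∈ P) ⊆
        (univ.filter fun e => e.1 < e.2) \ (P \ Cov P) := by
      intro e he
      rw [mem_filter] at he
      rw [mem_sdiff, mem_filter, mem_sdiff]
      refine ⟨⟨mem_univ _, he.2.1⟩, fun h => h.2 (mem_Cov.2 ⟨h.1, ?_⟩)⟩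
      rintro z ⟨h2, h3⟩
      exact he.2.2 ⟨z, hP2 _ h2, hP2 _ h3, h2, h3⟩
    have h2 : P \ Cov P ⊆ univ.filter fun e => e.1 < e.2 := by
      intro e he
      exact mem_filter.2 ⟨mem_univ _, hP2 _ (mem_sdiff.1 he).1⟩
    refine (card_le_card h1).trans ?_
    rw [card_sdiff_of_subset h2, card_sdiff_of_subset hCP, hP3, hP4]
    have h3 := card_le_NN hP1
    have h4 := card_le_card hCP
    rw [hP3] at h3 h4
    rw [hP4] at h4
    omega
  · intro P hP
    rw [mem_filter, mem_PO] at hP
    obtain ⟨⟨hP1, hP3⟩, hP2, hP4⟩ := hP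
    rw [← hP4]
    congr 1
    ext e
    rw [mem_filter, mem_Cov]
    constructor
    · rintro ⟨h1, h2, h3⟩
      refine ⟨h1, ?_⟩
      rintro z ⟨h4, h5⟩
      exact h3 ⟨z, hP2 _ h4, hP2 _ h5, h4, h5⟩
    · rintro ⟨h1, h2⟩
      refine ⟨h1, hP2 _ h1, ?_⟩
      rintro ⟨z, -, -, h4, h5⟩
      exact h2 z ⟨h4, h5⟩

open scoped Classical in
theorem few_cov (k g : ℕ) :
    ((PO n k).filter fun S => (Cov S).card = g).card ≤
      n.factorial * (NN n - k + g).choose g := by
  have h1 := card_filter_le (n := n) k (fun S => (Cov S).card = g) (by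
    intro e S _ h
    rw [cov_relab, card_relab]
    exact h)
  refine le_trans ?_ (h1.trans (Nat.mul_le_mul_left _ (le_trans ?_ (few_cov_nat k g))))
  · exact le_of_eq (by congr)
  · exact le_of_eq (by congr)

open scoped Classical in
/-- Sum over the exact number (`card_filter_ge_le` style: `card_eq_sum_card_fiberwise`, at most `g + 1` values;
`(m + g').choose g' ≤ (m + g).choose g` for `g' ≤ g`: `choose_add_le` in `Flip`, or `Nat.choose_symm_add`,
`Nat.choose_le_choose`). -/
theorem few_cov_le (k g : ℕ) :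
    ((PO n k).filter fun S => (Cov S).card ≤ g).card ≤
      n.factorial * ((g + 1) * (NN n - k + g).choose g) := by
  have h1 : ∀ S ∈ (PO n k).filter fun S => (Cov S).card ≤ g, (Cov S).card ∈ range (g + 1) := by
    intro S hS
    rw [mem_filter] at hS
    exact mem_range.2 (Nat.lt_succ_of_le hS.2)
  rw [card_eq_sum_card_fiberwise (f := fun S => (Cov S).card) (t := range (g + 1)) h1]
  have h2 : ∀ b ∈ range (g + 1),
      (((PO n k).filter fun S => (Cov S).card ≤ g).filter fun S => (Cov S).card = b).card ≤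
        n.factorial * (NN n - k + g).choose g := by
    intro b hb
    have hb' : b ≤ g := Nat.lt_succ_iff.1 (mem_range.1 hb)
    refine le_trans (card_le_card (filter_subset_filter _ (filter_subset _ _))) ?_
    refine (few_cov k b).trans (Nat.mul_le_mul_left _ ?_)
    have h3 := TopF_choose_add_le (NN n - k + b) b (g - b)
    rw [Nat.add_assoc, Nat.add_sub_cancel' hb'] at h3
    exact h3
  refine (sum_le_card_nsmul _ _ _ h2).trans (le_of_eq ?_)
  rw [card_range, smul_eq_mul]
  ring

end Pool.Agent.H.MP_82502e_co
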