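import Pool.Agent.H.MP_82502e_co.TopM
import Pool.Agent.H.MP_82502e_co.TopD
import Pool.Agent.H.MP_82502e_co.TopF

set_option autoImplicit false

/-!
# The top end: `cnt n k` is strictly decreasing near `k = n (n - 1) / 2`
-/

namespace Pool.Agent.H.MP_82502e_co

open Finset

/-- `(m + g).choose g ≤ (e (m + g) / g) ^ g` gives: for `a > 0` small, `(g + 1) (m + g).choose g ≤ exp (m / 60)` for
`g ≤ a m`, `m ≥ m0`. (`a = 1 / 1000` works: `g log (e (m + g) / g) ≤ m * a * (1 + log (1 + 1/a)) < 0.009 m`.) -/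
theorem choose_small : ∃ m0 : ℕ, ∀ m g : ℕ, m0 ≤ m → 1000 * g ≤ m →
    ((g : ℝ) + 1) * ((m + g).choose g : ℝ) ≤ Real.exp ((m : ℝ) / 60) := by
  refine ⟨0, fun m g _ hg => ?_⟩
  have hg' : 1000 * (g : ℝ) ≤ m := by exact_mod_cast hg
  have hm0 : (0 : ℝ) ≤ m := Nat.cast_nonneg m
  have hg0 : (0 : ℝ) ≤ g := Nat.cast_nonneg g
  have h1 : ((m + g).choose g : ℝ) ≤ ((m + g : ℕ) : ℝ) ^ g / (g.factorial : ℝ) :=
    Nat.choose_le_pow_div g (m + g)
  have h2 : ((m + g : ℕ) : ℝ) ^ g ≤ (1001 : ℝ) ^ g * ((m : ℝ) / 1000) ^ g := by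
    rw [← mul_pow]
    apply pow_le_pow_left₀ (Nat.cast_nonneg _)
    push_cast
    linarith
  have h3 : ((m : ℝ) / 1000) ^ g / (g.factorial : ℝ) ≤ Real.exp ((m : ℝ) / 1000) :=
    Real.pow_div_factorial_le_exp _ (by positivity) g
  have h4 : (1001 : ℝ) ≤ Real.exp 7 := by
    have h5 : Real.exp 7 = Real.exp 1 ^ 7 := by
      rw [← Real.exp_nat_mul]
      norm_num
    rw [h5]
    have h6 : (2.7 : ℝ) ≤ Real.exp 1 := by
      have := Real.exp_one_gt_d9
      linarith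
    calc (1001 : ℝ) ≤ 2.7 ^ 7 := by norm_num
      _ ≤ Real.exp 1 ^ 7 := pow_le_pow_left₀ (by norm_num) h6 7
  have h5 : (1001 : ℝ) ^ g ≤ Real.exp (7 * g) := by
    calc (1001 : ℝ) ^ g ≤ Real.exp 7 ^ g := pow_le_pow_left₀ (by norm_num) h4 g
      _ = Real.exp (7 * g) := by
        rw [← Real.exp_nat_mul]
        congr 1
        ring
  have h6 : (g : ℝ) + 1 ≤ Real.exp g := Real.add_one_le_exp _
  have h7 : ((m + g).choose g : ℝ) ≤ Real.exp (7 * g) * Real.exp ((m : ℝ) / 1000) := by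
    calc ((m + g).choose g : ℝ) ≤ ((m + g : ℕ) : ℝ) ^ g / (g.factorial : ℝ) := h1
      _ ≤ ((1001 : ℝ) ^ g * ((m : ℝ) / 1000) ^ g) / (g.factorial : ℝ) := by gcongr
      _ = (1001 : ℝ) ^ g * (((m : ℝ) / 1000) ^ g / (g.factorial : ℝ)) := by ring
      _ ≤ Real.exp (7 * g) * Real.exp ((m : ℝ) / 1000) := by gcongr
  calc ((g : ℝ) + 1) * ((m + g).choose g : ℝ)
      ≤ Real.exp g * (Real.exp (7 * g) * Real.exp ((m : ℝ) / 1000)) := by gcongr
    _ = Real.exp (g + (7 * g + (m : ℝ) / 1000)) := by rw [Real.exp_add, Real.exp_add]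
    _ ≤ Real.exp ((m : ℝ) / 60) := Real.exp_le_exp.2 (by linarith)

/-- The value of `NN n` in the real numbers. -/
theorem TopN_NN_cast (n : ℕ) : (NN n : ℝ) = (n : ℝ) * (n - 1) / 2 := by
  have h : 2 * NN n = n * (n - 1) := by
    unfold NN
    exact Nat.mul_div_cancel' (Nat.even_mul_pred_self n).two_dvd
  have h2 : (2 : ℝ) * (NN n : ℝ) = (n : ℝ) * ((n - 1 : ℕ) : ℝ) := by exact_mod_cast h
  rcases Nat.eq_zero_or_pos n with rfl | hn
  · simp [NN]
  · rw [Nat.cast_sub hn] at h2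
    push_cast at h2
    linarith

theorem TopN_bb_eq (n m : ℕ) : (bb n m : ℝ) = bt n m * (n.factorial : ℝ) := by
  unfold bt
  rw [div_mul_cancel₀]
  exact_mod_cast n.factorial_ne_zero

open scoped Classical in
/-- **Few covers are exponentially rare** in the dense range. Proof: `few_cov_le` with `k = NN n - m`, `g = m / 1000`, `choose_small`,
`slope_all`: the number is `≤ n! exp (m / 60) ≤ exp (- m / 60) bb n m`. -/
theorem few_cov_dense {κ : ℝ} (hκ : 0 < κ) :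
    ∃ e0 : ℝ, 0 < e0 ∧ ∃ n0 : ℕ, ∀ n m : ℕ, n0 ≤ n → κ * n ≤ m → (m : ℝ) ≤ e0 * (n : ℝ) ^ 2 →
      m ≤ NN n ∧ (((PO n (NN n - m)).filter fun S => 1000 * (Cov S).card ≤ m).card : ℝ) ≤
        Real.exp (- (m : ℝ) / 60) * bb n m := by
  obtain ⟨e1, he1, n1, h1⟩ := slope_all hκ
  obtain ⟨m1, hc⟩ := choose_small
  refine ⟨min e1 (1 / 4), by positivity, max (max n1 2) (⌈(m1 : ℝ) / κ⌉₊), ?_⟩
  intro n m hn hκm hm
  have hn1 : n1 ≤ n := le_trans (le_trans (le_max_left _ _) (le_max_left _ _)) hn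
  have hn2 : 2 ≤ n := le_trans (le_trans (le_max_right _ _) (le_max_left _ _)) hn
  have hn3 : ⌈(m1 : ℝ) / κ⌉₊ ≤ n := le_trans (le_max_right _ _) hn
  have hn2' : (2 : ℝ) ≤ n := by exact_mod_cast hn2
  have hm1 : m1 ≤ m := by
    have h2 : (m1 : ℝ) / κ ≤ n := le_trans (Nat.le_ceil _) (by exact_mod_cast hn3)
    rw [div_le_iff₀ hκ] at h2
    have h3 : (m1 : ℝ) ≤ m := by nlinarith
    exact_mod_cast h3
  have hme1 : (m : ℝ) ≤ e1 * (n : ℝ) ^ 2 :=
    le_trans hm (mul_le_mul_of_nonneg_right (min_le_left _ _) (by positivity))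
  have hme2 : (m : ℝ) ≤ 1 / 4 * (n : ℝ) ^ 2 :=
    le_trans hm (mul_le_mul_of_nonneg_right (min_le_right _ _) (by positivity))
  have hmN : m ≤ NN n := by
    have h2 : (m : ℝ) ≤ (NN n : ℝ) := by
      rw [TopN_NN_cast]
      nlinarith
    exact_mod_cast h2
  refine ⟨hmN, ?_⟩
  have hfil : ((PO n (NN n - m)).filter fun S => 1000 * (Cov S).card ≤ m) =
      (PO n (NN n - m)).filter fun S => (Cov S).card ≤ m / 1000 := by
    apply filter_congr
    intro S _
    rw [Nat.le_div_iff_mul_le (by norm_num), mul_comm]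
  rw [hfil]
  have hfc := few_cov_le (n := n) (NN n - m) (m / 1000)
  have hsub : NN n - (NN n - m) = m := by omega
  rw [hsub] at hfc
  have hg : 1000 * (m / 1000) ≤ m := Nat.mul_div_le m 1000
  have hcm := hc m (m / 1000) hm1 hg
  have hsl := h1 n m hn1 hκm hme1
  have hfac : (0 : ℝ) < (n.factorial : ℝ) := by exact_mod_cast n.factorial_pos
  have hfc' : (((PO n (NN n - m)).filter fun S => (Cov S).card ≤ m / 1000).card : ℝ) ≤
      (n.factorial : ℝ) * ((((m / 1000 : ℕ) : ℝ) + 1) * ((m + m / 1000).choose (m / 1000) : ℝ)) := by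
    exact_mod_cast hfc
  calc (((PO n (NN n - m)).filter fun S => (Cov S).card ≤ m / 1000).card : ℝ)
      ≤ (n.factorial : ℝ) * ((((m / 1000 : ℕ) : ℝ) + 1) *
        ((m + m / 1000).choose (m / 1000) : ℝ)) := hfc'
    _ ≤ (n.factorial : ℝ) * Real.exp ((m : ℝ) / 60) := by gcongr
    _ = Real.exp (- (m : ℝ) / 60) * (Real.exp ((m : ℝ) / 30) * (n.factorial : ℝ)) := by
        rw [← mul_assoc, ← Real.exp_add, mul_comm]
        congr 2
        ring
    _ ≤ Real.exp (- (m : ℝ) / 60) * (bt n m * (n.factorial : ℝ)) := by gcongr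
    _ = Real.exp (- (m : ℝ) / 60) * bb n m := by rw [TopN_bb_eq]

/-- The numerical part of the last step: `A = m / 1000`, `W = 2 √m + 2`, `M = 2 m`, `ρ = exp (1/60)`, `t = ⌈τ m⌉`, `η = exp (- τ m / 120)`, `τ` small. -/
theorem final_num : ∃ τ : ℝ, 0 < τ ∧ τ ≤ 1 ∧ ∃ m0 : ℕ, ∀ m t : ℕ, m0 ≤ m → τ * m ≤ t → (t : ℝ) ≤ τ * m + 1 →
    t ≤ m ∧ 2 * (2 * √(m : ℝ) + 2) < (m : ℝ) / 1000 ∧ 4 * Real.exp (- (τ * m) / 120) < 1 ∧
    ((m : ℝ) / 1000 + 4 * (Real.exp (1 / 60) + 1) * t) /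
      (Real.exp (1 / 60) * (1 - 4 * Real.exp (- (τ * m) / 120)) *
        ((m : ℝ) / 1000 - 2 * (2 * √(m : ℝ) + 2))) +
      2 * Real.exp (- (τ * m) / 120) * (2 * m) < 1 := by
  refine ⟨1 / 1000000, by norm_num, by norm_num, 10 ^ 24, ?_⟩
  intro m t hm ht1 ht2
  have hm' : (10 : ℝ) ^ 24 ≤ m := by exact_mod_cast hm
  have hmpos : (0 : ℝ) < m := lt_of_lt_of_le (by norm_num) hm'
  set x : ℝ := (m : ℝ) with hx
  -- the square root
  have hsq : √x ≤ x / 10 ^ 8 := by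
    rw [Real.sqrt_le_left (by positivity)]
    rw [div_pow, le_div_iff₀ (by positivity)]
    have h1 : (((10 : ℝ) ^ 8) ^ 2) ≤ x := le_trans (by norm_num) hm'
    nlinarith
  have hsq0 : 0 ≤ √x := Real.sqrt_nonneg x
  have hW : 2 * (2 * √x + 2) ≤ x / 1000 * (1 / 10000) := by
    have h1 : 4 ≤ x * (1 / 10 ^ 8) := by
      have : (4 : ℝ) ≤ 10 ^ 24 * (1 / 10 ^ 8) := by norm_num
      nlinarith
    nlinarith
  -- the exponential
  set η : ℝ := Real.exp (- (1 / 1000000 * x) / 120) with hη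
  have hη0 : 0 < η := Real.exp_pos _
  have hηm : η * x ≤ 1 / 40000 := by
    have h1 : η = (Real.exp (x / 120000000))⁻¹ := by
      rw [hη, ← Real.exp_neg]
      congr 1
      ring
    have h2 : (x / 120000000) ^ 2 / 2 ≤ Real.exp (x / 120000000) := by
      have := Real.quadratic_le_exp_of_nonneg (x := x / 120000000) (by positivity)
      have h3 : 0 ≤ x / 120000000 := by positivity
      linarith
    rw [h1, inv_mul_le_iff₀ (Real.exp_pos _)]
    have h4 : x ≤ (x / 120000000) ^ 2 / 2 * (1 / 40000) := by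
      have h5 : (120000000 ^ 2 * 2 * 40000 : ℝ) ≤ x := le_trans (by norm_num) hm'
      have h6 : (x / 120000000) ^ 2 / 2 * (1 / 40000) = x * (x / (120000000 ^ 2 * 2 * 40000)) := by
        ring
      rw [h6]
      have h7 : 1 ≤ x / (120000000 ^ 2 * 2 * 40000) := by
        rw [le_div_iff₀ (by norm_num)]
        linarith
      nlinarith
    linarith
  have hηs : η ≤ 1 / 40000 := by
    have h1 : (1 : ℝ) ≤ x := le_trans (by norm_num) hm'
    nlinarith
  -- the constant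
  set ρ : ℝ := Real.exp (1 / 60) with hρ
  have hρ1 : 61 / 60 ≤ ρ := by
    have := Real.add_one_le_exp (1 / 60 : ℝ)
    linarith
  have hρ2 : ρ ≤ 60 / 59 := by
    have h1 := Real.add_one_le_exp (-(1 / 60) : ℝ)
    have h2 : Real.exp (-(1 / 60)) * ρ = 1 := by
      rw [hρ, ← Real.exp_add]
      norm_num
    have h3 : 0 < ρ := Real.exp_pos _
    nlinarith
  refine ⟨?_, ?_, ?_, ?_⟩
  · have h1 : (t : ℝ) ≤ m := by
      have h2 : (2 : ℝ) ≤ x := le_trans (by norm_num) hm'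
      linarith
    exact_mod_cast h1
  · linarith [hmpos]
  · linarith
  · have hD : 0 < ρ * (1 - 4 * η) * (x / 1000 - 2 * (2 * √x + 2)) := by
      apply mul_pos (mul_pos (by linarith) (by linarith))
      linarith
    have hDl : 61 / 60 * (1 - 1 / 10000) * (x / 1000 * (1 - 1 / 10000)) ≤
        ρ * (1 - 4 * η) * (x / 1000 - 2 * (2 * √x + 2)) := by
      apply mul_le_mul
      · apply mul_le_mul hρ1 (by linarith) (by norm_num) (by linarith)
      · linarith
      · positivity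
      · apply mul_nonneg (by linarith) (by linarith)
    have hN : x / 1000 + 4 * (ρ + 1) * t ≤ x / 1000 * (1 + 81 / 10000) := by
      have h1 : (t : ℝ) ≤ x / 1000000 + 1 := by linarith
      have h2 : 4 * (ρ + 1) ≤ 8.068 := by linarith
      have h3 : 0 ≤ x / 1000000 + 1 := by positivity
      have h4 : 4 * (ρ + 1) * t ≤ 8.068 * (x / 1000000 + 1) := by
        apply mul_le_mul h2 h1 (Nat.cast_nonneg t) (by norm_num)
      have h5 : (8.068 : ℝ) ≤ x * (32 / 1000 / 1000000) := by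
        have : (8.068 : ℝ) ≤ 10 ^ 24 * (32 / 1000 / 1000000) := by norm_num
        nlinarith
      linarith
    have hfrac : (x / 1000 + 4 * (ρ + 1) * t) /
        (ρ * (1 - 4 * η) * (x / 1000 - 2 * (2 * √x + 2))) ≤ 999 / 1000 := by
      rw [div_le_iff₀ hD]
      have h1 : x / 1000 * (1 + 81 / 10000) ≤
          999 / 1000 * (61 / 60 * (1 - 1 / 10000) * (x / 1000 * (1 - 1 / 10000))) := by
        have : (1 + 81 / 10000 : ℝ) ≤ 999 / 1000 * (61 / 60 * (1 - 1 / 10000) * (1 - 1 / 10000)) := by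
          norm_num
        nlinarith
      linarith [mul_le_mul_of_nonneg_left hDl (by norm_num : (0 : ℝ) ≤ 999 / 1000)]
    have hlast : 2 * η * (2 * x) ≤ 1 / 10000 := by linarith
    linarith

/-- **The top end.**

Proof. `m ≤ n / 4`: `top_small`. `m > n / 4`: `gen_down` for `k = NN n - (m + 1)`, `t = ⌈τ (m + 1)⌉`, `ρ = exp (1/60)`,
`η = exp (- τ (m + 1) / 120)`, `A = (m + 1) / 1000`, `W = 2 √(m + 1) + 2`, `M = 2 (m + 1)` (`final_num` with `m + 1`). `h1`: `slope` gives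
`exp (t / 30) bb n (m + 1 - t) ≤ bb n (m + 1)`, so `ρ^t cnt n (k + t) ≤ exp (t/60 - t/30) cnt n k ≤ η^2 cnt n k`
(`k + t = NN n - (m + 1 - t)`). `h2`: `few_cov_dense` and `exp (- (m+1) / 60) ≤ η`. `hanti`: `card_anti_le`. `hM`: `card_Add_le`. The
conclusion `cnt n (k + 1) < cnt n k` with `k + 1 = NN n - m` and `0 < cnt n k` (`cnt_pos`). -/
theorem top_end : ∃ δ : ℝ, 0 < δ ∧ ∃ n0 : ℕ, ∀ n m : ℕ, n0 ≤ n → (m : ℝ) ≤ δ * (n : ℝ) ^ 2 →
    bb n m < bb n (m + 1) := by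
  classical
  obtain ⟨τ, hτ, hτ1, m0, hfin⟩ := final_num
  obtain ⟨e1, he1, n1, hs⟩ := slope (κ := 1 / 4) (by norm_num) hτ hτ1
  obtain ⟨e2, he2, n2, hf⟩ := few_cov_dense (κ := 1 / 4) (by norm_num)
  set e : ℝ := min e1 e2 with he
  have hepos : 0 < e := lt_min he1 he2
  refine ⟨e / 2, by positivity, max (max n1 n2) (max (max 100 (4 * m0)) ⌈2 / e⌉₊), ?_⟩
  intro n m hn hm
  have hn1 : n1 ≤ n := le_trans (le_trans (le_max_left _ _) (le_max_left _ _)) hn
  have hn2 : n2 ≤ n := le_trans (le_trans (le_max_right _ _) (le_max_left _ _)) hn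
  have hn100 : 100 ≤ n := le_trans (le_trans (le_trans (le_max_left _ _) (le_max_left _ _))
    (le_max_right _ _)) hn
  have hnm0 : 4 * m0 ≤ n := le_trans (le_trans (le_trans (le_max_right _ _) (le_max_left _ _))
    (le_max_right _ _)) hn
  have hne : ⌈2 / e⌉₊ ≤ n := le_trans (le_trans (le_max_right _ _) (le_max_right _ _)) hn
  rcases le_or_gt (4 * m) n with h4 | h4
  · exact top_small hn100 h4
  have hn100' : (100 : ℝ) ≤ n := by exact_mod_cast hn100
  -- the level `m' = m + 1`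
  obtain ⟨m', hm'⟩ : ∃ m', m' = m + 1 := ⟨_, rfl⟩
  have hm'n : (1 / 4 : ℝ) * n ≤ (m' : ℝ) := by
    have h5 : n ≤ 4 * m' := by omega
    have h6 : (n : ℝ) ≤ 4 * (m' : ℝ) := by exact_mod_cast h5
    linarith
  have hm'e : (m' : ℝ) ≤ e * (n : ℝ) ^ 2 := by
    have h5 : 2 / e ≤ n := le_trans (Nat.le_ceil _) (by exact_mod_cast hne)
    rw [div_le_iff₀ hepos] at h5
    have h6 : (m' : ℝ) = m + 1 := by rw [hm']; push_cast; ring
    rw [h6]
    nlinarith
  have hm'e1 : (m' : ℝ) ≤ e1 * (n : ℝ) ^ 2 :=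
    le_trans hm'e (mul_le_mul_of_nonneg_right (min_le_left _ _) (by positivity))
  have hm'e2 : (m' : ℝ) ≤ e2 * (n : ℝ) ^ 2 :=
    le_trans hm'e (mul_le_mul_of_nonneg_right (min_le_right _ _) (by positivity))
  have hm'0 : m0 ≤ m' := by omega
  obtain ⟨t, htdef⟩ : ∃ t, t = ⌈τ * (m' : ℝ)⌉₊ := ⟨_, rfl⟩
  have ht1 : τ * (m' : ℝ) ≤ t := by rw [htdef]; exact Nat.le_ceil _
  have ht2 : (t : ℝ) ≤ τ * (m' : ℝ) + 1 := by
    rw [htdef]
    exact (Nat.ceil_lt_add_one (by positivity)).le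
  obtain ⟨htm, hA, hη', hlt⟩ := hfin m' t hm'0 ht1 ht2
  obtain ⟨hmN, hfew⟩ := hf n m' hn2 hm'n hm'e2
  have hsl := hs n m' t hn1 hm'n hm'e1 ht1 htm
  have hfac : (0 : ℝ) < (n.factorial : ℝ) := by exact_mod_cast n.factorial_pos
  have hcard : ∀ S ∈ PO n (NN n - m'), IsPO S ∧ NN n - S.card = m' := by
    intro S hS
    unfold PO at hS
    rw [mem_filter] at hS
    refine ⟨hS.2.1, ?_⟩
    rw [hS.2.2]
    omega
  have hcnt : 0 < cnt n (NN n - m') := cnt_pos (Nat.sub_le _ _)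
  have hgen := gen_down (n := n) (NN n - m') t (ρ := Real.exp (1 / 60))
    (η := Real.exp (- (τ * m') / 120)) (A := (m' : ℝ) / 1000) (W := 2 * √(m' : ℝ) + 2)
    (M := 2 * m') (Real.one_le_exp (by norm_num)) (Real.exp_pos _) hη' (by positivity) hA
    ?_ ?_ ?_ ?_
  · -- conclusion
    have h7 : NN n - m' + 1 = NN n - m := by omega
    rw [h7] at hgen
    have h8 : (cnt n (NN n - m) : ℝ) < (cnt n (NN n - m') : ℝ) := by
      refine lt_of_le_of_lt hgen ?_
      have h9 : (0 : ℝ) < (cnt n (NN n - m') : ℝ) := by exact_mod_cast hcnt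
      calc _ < 1 * (cnt n (NN n - m') : ℝ) := mul_lt_mul_of_pos_right hlt h9
        _ = _ := one_mul _
    unfold bb
    rw [← hm']
    exact_mod_cast h8
  · -- antichains
    intro S hS X hX
    obtain ⟨hpo, hc⟩ := hcard S hS
    have h7 := card_anti_le hpo hX
    rw [hc] at h7
    rcases Nat.eq_zero_or_pos X.card with h0 | h0
    · rw [h0]
      push_cast
      positivity
    · have h8 : (X.card : ℝ) * ((X.card : ℝ) - 1) ≤ 2 * (m' : ℝ) := by
        have h9 : ((X.card * (X.card - 1) : ℕ) : ℝ) ≤ ((2 * m' : ℕ) : ℝ) := by exact_mod_cast h7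
        rw [Nat.cast_mul, Nat.cast_sub h0] at h9
        push_cast at h9
        exact h9
      have h9 : ((X.card : ℝ) - 1) ^ 2 ≤ (2 * √(m' : ℝ)) ^ 2 := by
        have h10 : (2 * √(m' : ℝ)) ^ 2 = 4 * (m' : ℝ) := by
          rw [mul_pow, Real.sq_sqrt (Nat.cast_nonneg _)]
          norm_num
        have h11 : (1 : ℝ) ≤ (X.card : ℝ) := by exact_mod_cast h0
        rw [h10]
        have h12 : (0 : ℝ) ≤ (m' : ℝ) := Nat.cast_nonneg _
        nlinarith
      have h10 : (X.card : ℝ) - 1 ≤ 2 * √(m' : ℝ) := by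
        exact le_of_sq_le_sq h9 (by positivity)
      linarith
  · -- additions
    intro S hS
    obtain ⟨hpo, hc⟩ := hcard S hS
    have h7 := card_Add_le hpo
    rw [hc] at h7
    exact_mod_cast h7
  · -- slope
    have h7 : NN n - m' + t = NN n - (m' - t) := by omega
    rw [h7]
    have h8 : Real.exp ((t : ℝ) / 30) * (cnt n (NN n - (m' - t)) : ℝ) ≤ (cnt n (NN n - m') : ℝ) := by
      have h9 := mul_le_mul_of_nonneg_right hsl hfac.le
      rw [mul_assoc, ← TopN_bb_eq, ← TopN_bb_eq] at h9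
      exact h9
    have h10 : Real.exp (1 / 60) ^ t = Real.exp (- (t : ℝ) / 60) * Real.exp ((t : ℝ) / 30) := by
      rw [← Real.exp_nat_mul, ← Real.exp_add]
      congr 1
      ring
    have h11 : Real.exp (- (τ * m') / 120) ^ 2 = Real.exp (- (τ * m') / 60) := by
      rw [← Real.exp_nat_mul]
      congr 1
      push_cast
      ring
    rw [h10, h11, mul_assoc]
    apply mul_le_mul _ h8 (by positivity) (Real.exp_pos _).le
    apply Real.exp_le_exp.2
    linarith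
  · -- few covers
    have h7 : (((PO n (NN n - m')).filter fun S => ((Cov S).card : ℝ) < (m' : ℝ) / 1000).card : ℝ) ≤
        (((PO n (NN n - m')).filter fun S => 1000 * (Cov S).card ≤ m').card : ℝ) := by
      have h8 : ((PO n (NN n - m')).filter fun S => ((Cov S).card : ℝ) < (m' : ℝ) / 1000) ⊆
          (PO n (NN n - m')).filter fun S => 1000 * (Cov S).card ≤ m' := by
        intro S hS
        rw [mem_filter] at hS ⊢
        refine ⟨hS.1, ?_⟩
        have h9 := hS.2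
        rw [lt_div_iff₀ (by norm_num)] at h9
        have h10 : (1000 * (Cov S).card : ℝ) ≤ (m' : ℝ) := by linarith
        exact_mod_cast h10
      exact_mod_cast card_le_card h8
    refine le_trans h7 (le_trans hfew ?_)
    have h8 : (0 : ℝ) ≤ (bb n m' : ℝ) := Nat.cast_nonneg _
    have h9 : Real.exp (- (m' : ℝ) / 60) ≤ Real.exp (- (τ * m') / 120) := by
      apply Real.exp_le_exp.2
      have h10 : (0 : ℝ) ≤ (m' : ℝ) := Nat.cast_nonneg _
      nlinarith
    exact mul_le_mul_of_nonneg_right h9 h8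

/-- In terms of `k`. (`m = NN n - (k + 1)`; `m + 1 ≤ d2 n^2` type bounds; `2 (k + 1) ≤ n (n - 1)` iff `k + 1 ≤ NN n`.) -/
theorem dense : ∃ d2 : ℝ, 0 < d2 ∧ ∃ n0 : ℕ, ∀ n ≥ n0, ∀ k : ℕ,
    (n : ℝ) * (n - 1) / 2 - d2 * (n : ℝ) ^ 2 ≤ k → 2 * (k + 1) ≤ n * (n - 1) →
      cnt n (k + 1) < cnt n k := by
  obtain ⟨δ, hδ, n0, h⟩ := top_end
  refine ⟨δ, hδ, n0, fun n hn k hk hk2 => ?_⟩
  have hkN : k + 1 ≤ NN n := by
    unfold NN
    omega
  have h1 := h n (NN n - (k + 1)) hn (by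
    rw [Nat.cast_sub hkN, TopN_NN_cast]
    push_cast
    linarith)
  unfold bb at h1
  have h2 : NN n - (NN n - (k + 1)) = k + 1 := by omega
  have h3 : NN n - (NN n - (k + 1) + 1) = k := by omega
  rw [h2, h3] at h1
  exact h1

end Pool.Agent.H.MP_82502e_co
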