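import Pool.Agent.H.MP_82502e_co.Inc
import Pool.Agent.H.MP_82502e_co.Dec
import Pool.Agent.H.MP_82502e_co.Sp
import Pool.Agent.H.MP_82502e_co.TopN

set_option autoImplicit false

/-!
# Everything outside the window
-/

namespace Pool.Agent.H.MP_82502e_co

/-- Strictly increasing for `k ≤ (1/8 - δ) n²`, strictly decreasing from `(3/16 + δ) n²` to the end. -/
theorem outside {δ : ℝ} (hδ : 0 < δ) : ∃ n0 : ℕ, ∀ n ≥ n0, ∀ k : ℕ,
    ((k : ℝ) ≤ (1 / 8 - δ) * (n : ℝ) ^ 2 → cnt n k < cnt n (k + 1)) ∧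
    ((3 / 16 + δ) * (n : ℝ) ^ 2 ≤ k → 2 * (k + 1) ≤ n * (n - 1) → cnt n (k + 1) < cnt n k) := by
  obtain ⟨d1, hd1, n1, h1⟩ := sparse
  obtain ⟨n2, h2⟩ := inc (lt_min hδ hd1)
  obtain ⟨d2, hd2, n3, h3⟩ := dense
  obtain ⟨n4, h4⟩ := dec (lt_min hδ hd2)
  refine ⟨max (max n1 n2) (max n3 n4), fun n hn k => ⟨fun hk => ?_, fun hk hk' => ?_⟩⟩
  · have hn1 : n1 ≤ n := le_trans (le_trans (le_max_left _ _) (le_max_left _ _)) hn
    have hn2 : n2 ≤ n := le_trans (le_trans (le_max_right _ _) (le_max_left _ _)) hn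
    by_cases hkd : (k : ℝ) ≤ d1 * (n : ℝ) ^ 2
    · exact h1 n hn1 k hkd
    · refine h2 n hn2 k ?_ ?_
      · exact (mul_le_mul_of_nonneg_right (min_le_right _ _) (by positivity)).trans (not_le.1 hkd).le
      · refine hk.trans (mul_le_mul_of_nonneg_right ?_ (by positivity))
        linarith [min_le_left δ d1]
  · have hn3 : n3 ≤ n := le_trans (le_trans (le_max_left _ _) (le_max_right _ _)) hn
    have hn4 : n4 ≤ n := le_trans (le_trans (le_max_right _ _) (le_max_right _ _)) hn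
    by_cases hkd : (k : ℝ) ≤ (1 / 2 - min δ d2) * (n : ℝ) ^ 2
    · refine h4 n hn4 k (le_trans (mul_le_mul_of_nonneg_right ?_ (by positivity)) hk) hkd
      linarith [min_le_left δ d2]
    · refine h3 n hn3 k ?_ hk'
      have h5 : (1 / 2 - d2) * (n : ℝ) ^ 2 ≤ (1 / 2 - min δ d2) * (n : ℝ) ^ 2 :=
        mul_le_mul_of_nonneg_right (by linarith [min_le_right δ d2]) (by positivity)
      have h6 : (0 : ℝ) ≤ n := Nat.cast_nonneg n
      nlinarith [not_le.1 hkd]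

end Pool.Agent.H.MP_82502e_co
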