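import Pool.Agent.H.MP_82502e_co.Types
import Pool.Agent.H.MP_82502e_co.Ent

set_option autoImplicit false

/-!
# Patterns and the function `G`
-/

namespace Pool.Agent.H.MP_82502e_co

open Finset Real

/-- A pattern on `q` points: positions and a symmetric colouring by `R`, `O`, `Z`. -/
structure Pat (q : ℕ) where
  pos : Fin q → ℕ
  inj : Function.Injective pos
  col : Fin q → Fin q → Col
  symm : ∀ s t, col s t = col t s
  diag : ∀ s, col s s = Col.Z
  noE : ∀ s t, col s t ≠ Col.E
  trans : ∀ s t u, pos s < pos t → pos t < pos u → col s t ≠ Col.Z → col t u ≠ Col.Z →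
    col s u = Col.O

/-- Probability vectors. -/
structure IsProb {q : ℕ} (w : Fin q → ℝ) : Prop where
  nonneg : ∀ s, 0 ≤ w s
  sum : ∑ s, w s = 1

namespace Pat

variable {q : ℕ} (P : Pat q)

/-- The bilinear form of the colour `a`. -/
noncomputable def form (a : Col) (u v : Fin q → ℝ) : ℝ :=
  ∑ s, ∑ t, if P.col s t = a then u s * v t else 0

/-- The degree of `s` in colour `a`. -/
noncomputable def deg (a : Col) (w : Fin q → ℝ) (s : Fin q) : ℝ :=
  ∑ t, if P.col s t = a then w t else 0

theorem form_comm (a : Col) (u v : Fin q → ℝ) : P.form a u v = P.form a v u := by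
  unfold form
  rw [Finset.sum_comm]
  refine Finset.sum_congr rfl fun s _ => Finset.sum_congr rfl fun t _ => ?_
  rw [P.symm t s, mul_comm]

theorem form_eq_sum_deg (a : Col) (u v : Fin q → ℝ) :
    P.form a u v = ∑ s, u s * P.deg a v s := by
  unfold form deg
  refine Finset.sum_congr rfl fun s _ => ?_
  rw [Finset.mul_sum]
  refine Finset.sum_congr rfl fun t _ => ?_
  rw [mul_ite, mul_zero]

theorem form_nonneg (a : Col) {u v : Fin q → ℝ} (hu : ∀ s, 0 ≤ u s) (hv : ∀ s, 0 ≤ v s) :
    0 ≤ P.form a u v := by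
  unfold form
  refine Finset.sum_nonneg fun s _ => Finset.sum_nonneg fun t _ => ?_
  split_ifs
  · exact mul_nonneg (hu s) (hv t)
  · exact le_rfl

/-- `((1-A) w + A μ)`: bilinearity and symmetry. -/
theorem form_mix (a : Col) (w μ : Fin q → ℝ) (A : ℝ) :
    P.form a (fun s => (1 - A) * w s + A * μ s) (fun s => (1 - A) * w s + A * μ s) =
      (1 - A) ^ 2 * P.form a w w + 2 * A * (1 - A) * P.form a w μ + A ^ 2 * P.form a μ μ := by
  have h : 2 * A * (1 - A) * P.form a w μ =
      A * (1 - A) * P.form a w μ + A * (1 - A) * P.form a μ w := by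
    rw [P.form_comm a μ w]
    ring
  rw [h]
  unfold form
  simp only [Finset.mul_sum, ← Finset.sum_add_distrib]
  refine Finset.sum_congr rfl fun s _ => Finset.sum_congr rfl fun t _ => ?_
  split_ifs
  · ring
  · ring

/-- The colours `R`, `O`, `Z` exhaust all pairs. -/
theorem form_total {w : Fin q → ℝ} (hw : IsProb w) :
    P.form Col.R w w + P.form Col.O w w + P.form Col.Z w w = 1 := by
  unfold form
  rw [← Finset.sum_add_distrib, ← Finset.sum_add_distrib]
  have h : ∀ s, (∑ t, if P.col s t = Col.R then w s * w t else 0) +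
      (∑ t, if P.col s t = Col.O then w s * w t else 0) +
      (∑ t, if P.col s t = Col.Z then w s * w t else 0) = w s := by
    intro s
    rw [← Finset.sum_add_distrib, ← Finset.sum_add_distrib]
    have h2 : ∀ t, (if P.col s t = Col.R then w s * w t else 0) +
        (if P.col s t = Col.O then w s * w t else 0) +
        (if P.col s t = Col.Z then w s * w t else 0) = w s * w t := by
      intro t
      have h3 := P.noE s t
      rcases hc : P.col s t with _ | _ | _ | _
      · simp
      · simp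
      · simp
      · exact absurd hc h3
    rw [Finset.sum_congr rfl fun t _ => h2 t, ← Finset.mul_sum, hw.sum, mul_one]
  rw [Finset.sum_congr rfl fun s _ => h s, hw.sum]

theorem deg_nonneg (a : Col) {w : Fin q → ℝ} (hw : ∀ s, 0 ≤ w s) (s : Fin q) :
    0 ≤ P.deg a w s := by
  unfold deg
  refine Finset.sum_nonneg fun t _ => ?_
  split_ifs
  · exact hw t
  · exact le_rfl

theorem deg_le_one (a : Col) {w : Fin q → ℝ} (hw : IsProb w) (s : Fin q) :
    P.deg a w s ≤ 1 := by
  rw [← hw.sum]
  unfold deg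
  refine Finset.sum_le_sum fun t _ => ?_
  split_ifs
  · exact le_rfl
  · exact hw.nonneg t

theorem form_le_one (a : Col) {w μ : Fin q → ℝ} (hw : IsProb w) (hμ : IsProb μ) :
    P.form a w μ ≤ 1 := by
  rw [P.form_eq_sum_deg, ← hw.sum]
  refine Finset.sum_le_sum fun s _ => ?_
  have := mul_le_mul_of_nonneg_left (P.deg_le_one a hμ s) (hw.nonneg s)
  rwa [mul_one] at this

/-- The `R` graph has no triangle: order three points by position (they are distinct since `R ≠ Z`),
then `trans` gives colour `O`. -/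
theorem tri_free {s t u : Fin q} (h1 : P.col s t = Col.R) (h2 : P.col t u = Col.R)
    (h3 : P.col s u = Col.R) : False := by
  have hne : ∀ a b, P.col a b = Col.R → P.pos a ≠ P.pos b := by
    intro a b hab h
    have h4 := P.inj h
    rw [h4, P.diag] at hab
    exact absurd hab (by decide)
  -- an ordered path gives `O`
  have key : ∀ a b c, P.col a b = Col.R → P.col b c = Col.R → P.col a c = Col.R →
      P.pos a < P.pos b → P.pos b < P.pos c → False := by
    intro a b c hab hbc hac h4 h5
    have h6 := P.trans a b c h4 h5 (by rw [hab]; decide) (by rw [hbc]; decide)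
    rw [hac] at h6
    exact absurd h6 (by decide)
  have h1' : P.col t s = Col.R := by rw [P.symm, h1]
  have h2' : P.col u t = Col.R := by rw [P.symm, h2]
  have h3' : P.col u s = Col.R := by rw [P.symm, h3]
  have n1 := hne _ _ h1
  have n2 := hne _ _ h2
  have n3 := hne _ _ h3
  rcases lt_or_gt_of_ne n1 with a | a <;> rcases lt_or_gt_of_ne n2 with b | b <;>
    rcases lt_or_gt_of_ne n3 with c | c
  · exact key s t u h1 h2 h3 a b
  · omega
  · exact key s u t h3 h2' h1 c b
  · exact key u s t h3' h1 h2' c a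
  · exact key t s u h1' h3 h2 a c
  · exact key t u s h2 h3' h1' b c
  · omega
  · exact key u t s h2' h1' h3' b a

/-- For an `R` edge `st`: the neighbourhoods are disjoint, so `R_s + R_t ≤ 1`. -/
theorem deg_add_deg_le {w : Fin q → ℝ} (hw : IsProb w) {s t : Fin q}
    (h : P.col s t = Col.R) : P.deg Col.R w s + P.deg Col.R w t ≤ 1 := by
  unfold deg
  rw [← Finset.sum_add_distrib, ← hw.sum]
  refine Finset.sum_le_sum fun u _ => ?_
  by_cases h1 : P.col s u = Col.R
  · have h2 : P.col t u ≠ Col.R := fun h2 => P.tri_free h h2 h1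
    rw [if_pos h1, if_neg h2, add_zero]
  · rw [if_neg h1, zero_add]
    split_ifs
    · exact le_rfl
    · exact hw.nonneg u

/-- `ρ ≤ 1/2`: `∑_{s,t} w_s w_t [R] (R_s + R_t) ≤ ρ`, i.e. `2 ∑ w_s R_s² ≤ ρ`, and by Cauchy-Schwarz
`ρ² = (∑ w_s R_s)² ≤ ∑ w_s R_s²` (e.g. from `∑ w_s (R_s - ρ)² ≥ 0`). -/
theorem rho_le_half {w : Fin q → ℝ} (hw : IsProb w) : P.form Col.R w w ≤ 1 / 2 := by
  set ρ := P.form Col.R w w with hρ
  have h0 : 0 ≤ ρ := P.form_nonneg _ hw.nonneg hw.nonneg
  have h1 : ρ = ∑ s, w s * P.deg Col.R w s := P.form_eq_sum_deg _ _ _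
  -- the sum over edges
  have h2 : ∑ s, ∑ t, (if P.col s t = Col.R then w s * w t * (P.deg Col.R w s + P.deg Col.R w t) else 0)
      ≤ ρ := by
    rw [hρ]
    unfold form
    refine Finset.sum_le_sum fun s _ => Finset.sum_le_sum fun t _ => ?_
    split_ifs with h
    · have h3 := P.deg_add_deg_le hw h
      have h4 : 0 ≤ w s * w t := mul_nonneg (hw.nonneg s) (hw.nonneg t)
      nlinarith
    · exact le_rfl
  have h3 : ∑ s, ∑ t, (if P.col s t = Col.R then w s * w t * (P.deg Col.R w s + P.deg Col.R w t) else 0)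
      = 2 * ∑ s, w s * P.deg Col.R w s ^ 2 := by
    have a1 : ∑ s, ∑ t, (if P.col s t = Col.R then w s * w t * P.deg Col.R w s else 0) =
        ∑ s, w s * P.deg Col.R w s ^ 2 := by
      refine Finset.sum_congr rfl fun s _ => ?_
      have : w s * P.deg Col.R w s ^ 2 = (w s * P.deg Col.R w s) * P.deg Col.R w s := by ring
      rw [this]
      conv_rhs => rw [show P.deg Col.R w s = ∑ t, if P.col s t = Col.R then w t else 0 from rfl]
      conv_rhs => rw [Finset.mul_sum]
      refine Finset.sum_congr rfl fun t _ => ?_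
      rw [mul_ite, mul_zero]
      congr 1
      show w s * w t * P.deg Col.R w s = w s * P.deg Col.R w s * w t
      ring
    have a2 : ∑ s, ∑ t, (if P.col s t = Col.R then w s * w t * P.deg Col.R w t else 0) =
        ∑ s, w s * P.deg Col.R w s ^ 2 := by
      rw [Finset.sum_comm, ← a1]
      refine Finset.sum_congr rfl fun s _ => Finset.sum_congr rfl fun t _ => ?_
      rw [P.symm t s, mul_comm (w t)]
    have a3 : 2 * ∑ s, w s * P.deg Col.R w s ^ 2 =
        (∑ s, ∑ t, (if P.col s t = Col.R then w s * w t * P.deg Col.R w s else 0)) +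
        ∑ s, ∑ t, (if P.col s t = Col.R then w s * w t * P.deg Col.R w t else 0) := by
      rw [a1, a2, two_mul]
    rw [a3, ← Finset.sum_add_distrib]
    refine Finset.sum_congr rfl fun s _ => ?_
    rw [← Finset.sum_add_distrib]
    refine Finset.sum_congr rfl fun t _ => ?_
    split_ifs
    · ring
    · ring
  have h4 : 0 ≤ ∑ s, w s * (P.deg Col.R w s - ρ) ^ 2 :=
    Finset.sum_nonneg fun s _ => mul_nonneg (hw.nonneg s) (sq_nonneg _)
  have h5 : ∑ s, w s * (P.deg Col.R w s - ρ) ^ 2 =
      ∑ s, w s * P.deg Col.R w s ^ 2 - ρ ^ 2 := by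
    have : ∀ s, w s * (P.deg Col.R w s - ρ) ^ 2 =
        w s * P.deg Col.R w s ^ 2 - 2 * ρ * (w s * P.deg Col.R w s) + ρ ^ 2 * w s := by
      intro s
      ring
    rw [Finset.sum_congr rfl fun s _ => this s, Finset.sum_add_distrib, Finset.sum_sub_distrib,
      ← Finset.mul_sum, ← Finset.mul_sum, ← h1, hw.sum]
    ring
  rcases h0.eq_or_lt with h | h
  · rw [← h]
    norm_num
  · rw [h3] at h2
    rw [h5] at h4
    by_contra hcon
    push Not at hcon
    nlinarith

end Pat

/-- Values at level `d`. -/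
def Gset (d : ℝ) : Set ℝ :=
  {x | ∃ (q : ℕ) (P : Pat q) (w : Fin q → ℝ), IsProb w ∧ P.form Col.O w w / 2 ≤ d ∧
    d ≤ (P.form Col.O w w + P.form Col.R w w) / 2 ∧
    x = phi (P.form Col.R w w / 2) (d - P.form Col.O w w / 2)}

/-- The growth function. -/
noncomputable def G (d : ℝ) : ℝ := sSup (Gset d)

/-- All values are `≤ (log 2)/4` (`phi_le`, `rho_le_half`). -/
theorem Gset_le {d x : ℝ} (h : x ∈ Gset d) : x ≤ log 2 / 4 := by
  obtain ⟨q, P, w, hw, h1, h2, rfl⟩ := h
  have h3 := phi_le (r := P.form Col.R w w / 2) (x := d - P.form Col.O w w / 2) (by linarith)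
    (by linarith)
  have h4 := P.rho_le_half hw
  have h5 : 0 < log 2 := log_pos (by norm_num)
  nlinarith

theorem Gset_nonneg {d x : ℝ} (h : x ∈ Gset d) : 0 ≤ x := by
  obtain ⟨q, P, w, hw, h1, h2, rfl⟩ := h
  exact phi_nonneg (by linarith) (by linarith)

theorem pat_bdd (d : ℝ) : BddAbove (Gset d) := ⟨log 2 / 4, fun _ h => Gset_le h⟩

theorem le_G {d : ℝ} {q : ℕ} (P : Pat q) {w : Fin q → ℝ} (hw : IsProb w)
    (h1 : P.form Col.O w w / 2 ≤ d) (h2 : d ≤ (P.form Col.O w w + P.form Col.R w w) / 2) :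
    phi (P.form Col.R w w / 2) (d - P.form Col.O w w / 2) ≤ G d :=
  le_csSup (pat_bdd d) ⟨q, P, w, hw, h1, h2, rfl⟩

/-- `sSup ∅ = 0`, otherwise values are `≥ 0`. -/
theorem G_nonneg (d : ℝ) : 0 ≤ G d := by
  exact Real.sSup_nonneg fun _ h => Gset_nonneg h

theorem G_le (d : ℝ) : G d ≤ log 2 / 4 := by
  refine Real.sSup_le (fun _ h => Gset_le h) ?_
  have h5 : 0 < log 2 := log_pos (by norm_num)
  linarith

/-- Near-optimal patterns exist if `0 < G d` (then the set is nonempty). -/
theorem exists_near {d ε : ℝ} (hG : 0 < G d) (hε : 0 < ε) :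
    ∃ (q : ℕ) (P : Pat q) (w : Fin q → ℝ), IsProb w ∧ P.form Col.O w w / 2 ≤ d ∧
      d ≤ (P.form Col.O w w + P.form Col.R w w) / 2 ∧
      G d - ε < phi (P.form Col.R w w / 2) (d - P.form Col.O w w / 2) := by
  have hne : (Gset d).Nonempty := by
    by_contra h
    rw [Set.not_nonempty_iff_eq_empty] at h
    rw [G, h, Real.sSup_empty] at hG
    exact lt_irrefl _ hG
  obtain ⟨x, ⟨q, P, w, hw, h1, h2, rfl⟩, hx⟩ := exists_lt_of_lt_csSup hne
    (show G d - ε < sSup (Gset d) by
      change G d - ε < G d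
      linarith)
  exact ⟨q, P, w, hw, h1, h2, hx⟩

/-- **Continuity.** Take `Δ` from `phi_unif`. If `G d = 0` nothing to do. Otherwise take a pattern with value
`> G d - ε/2` at `d` (`exists_near`; `phi_unif` for `ε/2`), `r = ρ/2`, `x = d - ω/2 ∈ [0,r]`. If `x + (d'-d) ∈ [0,r]` the same
pattern is feasible at `d'`. Otherwise `x` is within `Δ` of `0` or of `r`, so its value is `≤ ε/2` (compare with
`phi r 0 = phi r r = 0`) and `G d ≤ ε ≤ G d' + ε`. -/
theorem G_cont {ε : ℝ} (hε : 0 < ε) : ∃ Δ : ℝ, 0 < Δ ∧ ∀ d d' : ℝ, |d - d'| ≤ Δ →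
    G d - ε ≤ G d' := by
  obtain ⟨Δ, hΔ, hu⟩ := phi_unif (show (0 : ℝ) < ε / 2 by positivity)
  refine ⟨Δ, hΔ, ?_⟩
  intro d d' hd
  have hG' := G_nonneg d'
  rcases (G_nonneg d).eq_or_lt with h | h
  · rw [← h]
    linarith
  obtain ⟨q, P, w, hw, h1, h2, h3⟩ := exists_near h (show (0 : ℝ) < ε / 2 by positivity)
  have hρ := P.rho_le_half hw
  have hr1 : P.form Col.R w w / 2 ≤ 1 := by linarith
  set r := P.form Col.R w w / 2 with hr
  set x := d - P.form Col.O w w / 2 with hx
  have hx0 : 0 ≤ x := by linarith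
  have hxr : x ≤ r := by linarith
  have hd' := abs_le.1 hd
  by_cases c1 : P.form Col.O w w / 2 ≤ d'
  · by_cases c2 : d' ≤ (P.form Col.O w w + P.form Col.R w w) / 2
    · have h4 := le_G P hw c1 c2
      rw [← hr] at h4
      have h5 := hu r x r (d' - P.form Col.O w w / 2) hx0 hxr hr1 (by linarith) (by linarith) hr1
        (by simpa using hΔ.le) (by
          have : x - (d' - P.form Col.O w w / 2) = d - d' := by
            rw [hx]
            ring
          rw [this]
          exact hd)
      have h6 := (abs_le.1 h5).2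
      linarith
    · push Not at c2
      have h5 := hu r x r r hx0 hxr hr1 (hx0.trans hxr) le_rfl hr1 (by simpa using hΔ.le) (by
          rw [abs_sub_comm, abs_of_nonneg (by linarith)]
          linarith)
      rw [phi_self, sub_zero] at h5
      have h6 := (abs_le.1 h5).2
      linarith
  · push Not at c1
    have h5 := hu r x r 0 hx0 hxr hr1 le_rfl (hx0.trans hxr) hr1 (by simpa using hΔ.le) (by
        rw [sub_zero, abs_of_nonneg hx0]
        linarith)
    rw [phi_zero_right, sub_zero] at h5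
    have h6 := (abs_le.1 h5).2
    linarith

end Pool.Agent.H.MP_82502e_co
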