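import Pool.Agent.H.MP_82502e_co.Pat

set_option autoImplicit false

/-!
# Explicit patterns
-/

namespace Pool.Agent.H.MP_82502e_co

open Finset Real

/-- The layered pattern: consecutive layers `R`, other pairs of different layers `O`. -/
def layer (q : ℕ) : Pat q where
  pos := fun s => s
  inj := Fin.val_injective
  col := fun s t => if s = t then Col.Z else
    if (s : ℕ) + 1 = t ∨ (t : ℕ) + 1 = s then Col.R else Col.O
  symm := by
    intro s t
    by_cases h : s = t
    · subst h; rfl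
    · have h' : ¬ t = s := fun e => h e.symm
      rw [if_neg h, if_neg h']
      simp only [or_comm]
  diag := by
    intro s
    rw [if_pos rfl]
  noE := by
    intro s t
    split_ifs <;> simp
  trans := by
    intro s t u h1 h2 _ _
    have h3 : ¬ s = u := by
      rintro rfl
      exact absurd (h1.trans h2) (lt_irrefl _)
    have h4 : ¬ ((s : ℕ) + 1 = u ∨ (u : ℕ) + 1 = s) := by
      omega
    rw [if_neg h3, if_neg h4]

/-- The chain pattern: all pairs `O`, except that the last two points are joined by `R`. -/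
def chainp (m : ℕ) : Pat (m + 2) where
  pos := fun s => s
  inj := Fin.val_injective
  col := fun s t => if s = t then Col.Z else
    if (m ≤ (s : ℕ) ∧ m ≤ (t : ℕ)) then Col.R else Col.O
  symm := by
    intro s t
    by_cases h : s = t
    · subst h; rfl
    · have h' : ¬ t = s := fun e => h e.symm
      rw [if_neg h, if_neg h']
      simp only [and_comm]
  diag := by
    intro s
    rw [if_pos rfl]
  noE := by
    intro s t
    split_ifs <;> simp
  trans := by
    intro s t u h1 h2 _ _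
    have h3 : ¬ s = u := by
      rintro rfl
      exact absurd (h1.trans h2) (lt_irrefl _)
    have h4 : ¬ (m ≤ (s : ℕ) ∧ m ≤ (u : ℕ)) := by
      have := u.2
      omega
    rw [if_neg h3, if_neg h4]

theorem patex_log7 : log 7 ≤ 17 / 6 * log 2 := by
  have h1 : log ((7 : ℝ) ^ 6) ≤ log ((2 : ℝ) ^ 17) :=
    Real.log_le_log (by norm_num) (by norm_num)
  rw [Real.log_pow, Real.log_pow] at h1
  push_cast at h1
  linarith

theorem patex_log3 : log 3 ≤ 8 / 5 * log 2 := by
  have h1 : log ((3 : ℝ) ^ 5) ≤ log ((2 : ℝ) ^ 8) :=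
    Real.log_le_log (by norm_num) (by norm_num)
  rw [Real.log_pow, Real.log_pow] at h1
  push_cast at h1
  linarith

theorem patex_log2 : 0 < log 2 := Real.log_pos (by norm_num)

/-- `(1/4) H(7/8)` -/
theorem patex_three : (128 / 1000 : ℝ) * log 2 ≤ phi (1 / 4) (7 / 32) := by
  have e1 : log (7 / 32 : ℝ) = log 7 - 5 * log 2 := by
    rw [Real.log_div (by norm_num) (by norm_num), show (32 : ℝ) = 2 ^ 5 by norm_num, Real.log_pow]
    push_cast; ring
  have e2 : log (1 / 4 - 7 / 32 : ℝ) = - (5 * log 2) := by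
    rw [show (1 / 4 - 7 / 32 : ℝ) = (2 ^ 5)⁻¹ by norm_num, Real.log_inv, Real.log_pow]
    push_cast; ring
  have e3 : log (1 / 4 : ℝ) = - (2 * log 2) := by
    rw [show (1 / 4 : ℝ) = (2 ^ 2)⁻¹ by norm_num, Real.log_inv, Real.log_pow]
    push_cast; ring
  rw [phi, Real.negMulLog, Real.negMulLog, Real.negMulLog, e1, e2, e3]
  have h7 := patex_log7
  have h2 := patex_log2
  linarith

/-- `(4/25) H(1/4)` -/
theorem patex_five : (128 / 1000 : ℝ) * log 2 ≤ phi (4 / 25) (1 / 25) ∧
    (128 / 1000 : ℝ) * log 2 ≤ phi (4 / 25) (3 / 25) := by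
  have e1 : log (1 / 25 : ℝ) = - log 25 := by
    rw [one_div, Real.log_inv]
  have e2 : log (3 / 25 : ℝ) = log 3 - log 25 := by
    rw [Real.log_div (by norm_num) (by norm_num)]
  have e3 : log (4 / 25 : ℝ) = 2 * log 2 - log 25 := by
    rw [Real.log_div (by norm_num) (by norm_num), show (4 : ℝ) = 2 ^ 2 by norm_num, Real.log_pow]
    push_cast; ring
  have h3 := patex_log3
  have h2 := patex_log2
  have f1 : (4 / 25 - 1 / 25 : ℝ) = 3 / 25 := by norm_num
  have f2 : (4 / 25 - 3 / 25 : ℝ) = 1 / 25 := by norm_num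
  constructor
  · rw [phi, f1, Real.negMulLog, Real.negMulLog, Real.negMulLog, e1, e2, e3]
    linarith
  · rw [phi, f2, Real.negMulLog, Real.negMulLog, Real.negMulLog, e1, e2, e3]
    linarith

/-- weights of the three layers -/
noncomputable def patex_w3 : Fin 3 → ℝ := ![1 / 4, 1 / 2, 1 / 4]

theorem patex_w3_prob : IsProb patex_w3 where
  nonneg := by
    intro s
    fin_cases s <;> simp [patex_w3]
  sum := by
    simp [patex_w3, Fin.sum_univ_three]
    norm_num

theorem patex_w3_R : (layer 3).form Col.R patex_w3 patex_w3 = 1 / 2 := by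
  simp [Pat.form, layer, Fin.sum_univ_three, patex_w3]
  norm_num

theorem patex_w3_O : (layer 3).form Col.O patex_w3 patex_w3 = 1 / 8 := by
  simp [Pat.form, layer, Fin.sum_univ_three, patex_w3]
  norm_num

/-- weights of the five layers -/
noncomputable def patex_w5 : Fin 5 → ℝ := fun _ => 1 / 5

theorem patex_w5_prob : IsProb patex_w5 where
  nonneg := by
    intro s
    simp [patex_w5]
  sum := by
    simp [patex_w5]

theorem patex_w5_R : (layer 5).form Col.R patex_w5 patex_w5 = 8 / 25 := by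
  simp [Pat.form, layer, Fin.sum_univ_five, patex_w5]
  norm_num

theorem patex_w5_O : (layer 5).form Col.O patex_w5 patex_w5 = 12 / 25 := by
  simp [Pat.form, layer, Fin.sum_univ_five, patex_w5]
  norm_num

/-- weights of the chain pattern -/
noncomputable def patex_wc (m : ℕ) (x : ℝ) : Fin (m + 2) → ℝ :=
  fun s => if (s : ℕ) < m then x / m else (1 - x) / 2

theorem patex_sum (m : ℕ) (f : Fin (m + 2) → ℝ) :
    ∑ s, f s = ∑ s : Fin m, f (Fin.castSucc (Fin.castSucc s)) + f (Fin.castSucc (Fin.last m)) +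
      f (Fin.last (m + 1)) := by
  rw [Fin.sum_univ_castSucc, Fin.sum_univ_castSucc]

theorem patex_wc_prob (m : ℕ) (hm : 0 < m) (x : ℝ) (h0 : 0 ≤ x) (h1 : x ≤ 1) :
    IsProb (patex_wc m x) where
  nonneg := by
    intro s
    unfold patex_wc
    split_ifs
    · positivity
    · linarith
  sum := by
    rw [patex_sum]
    have : (m : ℝ) ≠ 0 := by positivity
    simp [patex_wc]
    field_simp
    ring

theorem patex_wc_Z (m : ℕ) (hm : 0 < m) (x : ℝ) :
    (chainp m).form Col.Z (patex_wc m x) (patex_wc m x) = x ^ 2 / m + (1 - x) ^ 2 / 2 := by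
  have h : ∀ s t : Fin (m + 2), (chainp m).col s t = Col.Z ↔ s = t := by
    intro s t
    simp only [chainp]
    split_ifs <;> simp_all
  have h2 : (chainp m).form Col.Z (patex_wc m x) (patex_wc m x) =
      ∑ s, patex_wc m x s * patex_wc m x s := by
    unfold Pat.form
    refine sum_congr rfl fun s _ => ?_
    simp only [h]
    rw [Finset.sum_ite_eq]
    simp
  rw [h2, patex_sum]
  have : (m : ℝ) ≠ 0 := by positivity
  simp [patex_wc]
  field_simp
  ring

theorem patex_wc_R (m : ℕ) (x : ℝ) :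
    (chainp m).form Col.R (patex_wc m x) (patex_wc m x) = (1 - x) ^ 2 / 2 := by
  have h : ∀ s t : Fin (m + 2), (chainp m).col s t = Col.R ↔ (m ≤ (s : ℕ) ∧ m ≤ (t : ℕ) ∧ s ≠ t) := by
    intro s t
    simp only [chainp]
    split_ifs <;> simp_all
  unfold Pat.form
  simp only [h]
  rw [patex_sum]
  have e1 : ∀ s : Fin m, (∑ t : Fin (m + 2), if m ≤ ((Fin.castSucc (Fin.castSucc s) : Fin (m + 2)) : ℕ) ∧
      m ≤ (t : ℕ) ∧ Fin.castSucc (Fin.castSucc s) ≠ t then
      patex_wc m x (Fin.castSucc (Fin.castSucc s)) * patex_wc m x t else 0) = 0 := by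
    intro s
    refine sum_eq_zero fun t _ => ?_
    rw [if_neg]
    intro h
    have h3 := h.1
    simp only [Fin.val_castSucc] at h3
    exact absurd s.2 (not_lt.2 h3)
  rw [sum_congr rfl fun s _ => e1 s, sum_const_zero, patex_sum, patex_sum]
  have e2 : ∀ s : Fin m, ¬ m ≤ (s : ℕ) := fun s => not_le.2 s.2
  have e3 : (Fin.last m).castSucc ≠ Fin.last (m + 1) := by
    intro h
    have := congrArg Fin.val h
    simp at this
  simp [patex_wc, e2, e3, e3.symm]
  ring

theorem patex_wc_O (m : ℕ) (hm : 0 < m) (x : ℝ) (h0 : 0 ≤ x) (h1 : x ≤ 1) :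
    (chainp m).form Col.O (patex_wc m x) (patex_wc m x) = 1 - (1 - x) ^ 2 - x ^ 2 / m := by
  have h := (chainp m).form_total (patex_wc_prob m hm x h0 h1)
  rw [patex_wc_Z m hm x, patex_wc_R m x] at h
  linarith

/-- Three layers with weights `1/4, 1/2, 1/4`: `ρ/2 = 1/4`, `ω/2 = 1/16`; `d - 1/16 ∈ [1/8, 7/32]`, so
(`phi_anti_x`, `phi_eq`) the value is at least `(1/4) H(7/8) ≥ (13/100) log 2`. -/
theorem G_three {d : ℝ} (h1 : 3 / 16 ≤ d) (h2 : d ≤ 9 / 32) : (128 / 1000 : ℝ) * log 2 ≤ G d := by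
  have hR := patex_w3_R
  have hO := patex_w3_O
  have h := le_G (layer 3) patex_w3_prob (d := d) (by rw [hO]; linarith) (by rw [hR, hO]; linarith)
  rw [hR, hO] at h
  refine le_trans ?_ h
  have e : (1 / 2 / 2 : ℝ) = 1 / 4 := by norm_num
  rw [e]
  exact patex_three.trans (phi_anti_x (by linarith) (by linarith) (by norm_num))

/-- Five layers with weights `1/5`: `ρ/2 = 4/25`, `ω/2 = 6/25`; `d - 6/25 ∈ [33/800, 11/100]`, i.e. `x/r ∈ [0.257, 0.6875]`;
by monotonicity on both sides of `r/2` the value is at least `(4/25) min (H(1/4)) (H(3/4)) = (4/25) H(1/4)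
≥ (4/25)(4/5) log 2 = (128/1000) log 2` (`binEntropy_one_sub`). -/
theorem G_five {d : ℝ} (h1 : 9 / 32 ≤ d) (h2 : d ≤ 7 / 20) : (128 / 1000 : ℝ) * log 2 ≤ G d := by
  have hR := patex_w5_R
  have hO := patex_w5_O
  have h := le_G (layer 5) patex_w5_prob (d := d) (by rw [hO]; linarith) (by rw [hR, hO]; linarith)
  rw [hR, hO] at h
  refine le_trans ?_ h
  have e : (8 / 25 / 2 : ℝ) = 4 / 25 := by norm_num
  rw [e]
  rcases le_total (d - 12 / 25 / 2) (4 / 25 / 2) with h3 | h3
  · exact patex_five.1.trans (phi_mono_x (by norm_num) (by linarith) h3)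
  · exact patex_five.2.trans (phi_anti_x h3 (by linarith) (by norm_num))

/-- Positivity away from `1/2`. `chainp m` with weights `x/m` (the `m` chain points) and `(1-x)/2` twice:
`ρ/2 = (1-x)²/4`, `ω/2 = x² (1 - 1/m)/2 + x (1-x)`. Let `f x = ω/2 + ρ/4 = 1/2 - (3/8) (1-x)² - x²/(2m)`. `f 0 = 1/8`,
`f 1 = 1/2 - 1/(2m) ≥ 1/2 - δ` for `m ≥ 1/(2δ)`; choose `m ≥ 1/δ`. By the intermediate value theorem there is `x ∈ [0,1]` with
`f x = d`; the value at `d` is `(ρ/2) log 2` (`phi_half`). From `δ ≤ 1/2 - d = (3/8)(1-x)² + x²/(2m)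
≤ (3/8)(1-x)² + δ/2` we get `(1-x)²/4 ≥ δ/3`. -/
theorem G_pos {d δ : ℝ} (hδ : 0 < δ) (h1 : 1 / 8 ≤ d) (h2 : d ≤ 1 / 2 - δ) :
    δ / 3 * log 2 ≤ G d := by
  obtain ⟨m, hm⟩ := exists_nat_ge (1 / δ)
  have hm0 : 0 < m := by
    have h3 : (0 : ℝ) < m := lt_of_lt_of_le (by positivity) hm
    exact_mod_cast h3
  have hmR : (0 : ℝ) < m := by exact_mod_cast hm0
  have hmδ : 1 ≤ m * δ := by
    rw [div_le_iff₀ hδ] at hm
    exact hm
  have hmδ2 : 1 / (2 * (m : ℝ)) ≤ δ / 2 := by
    rw [div_le_iff₀ (by positivity)]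
    nlinarith
  have hcont : ContinuousOn (fun x : ℝ => 1 / 2 - 3 / 8 * (1 - x) ^ 2 - x ^ 2 / (2 * m))
      (Set.Icc 0 1) := by
    apply Continuous.continuousOn
    fun_prop
  have hivt := intermediate_value_Icc (zero_le_one (α := ℝ)) hcont
  have hd : d ∈ Set.Icc ((fun x : ℝ => 1 / 2 - 3 / 8 * (1 - x) ^ 2 - x ^ 2 / (2 * m)) 0)
      ((fun x : ℝ => 1 / 2 - 3 / 8 * (1 - x) ^ 2 - x ^ 2 / (2 * m)) 1) := by
    constructor
    · simp only
      have : (1 / 2 - 3 / 8 * (1 - 0) ^ 2 - 0 ^ 2 / (2 * m) : ℝ) = 1 / 8 := by norm_num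
      rw [this]
      exact h1
    · simp only
      have : (1 / 2 - 3 / 8 * (1 - 1) ^ 2 - 1 ^ 2 / (2 * m) : ℝ) = 1 / 2 - 1 / (2 * m) := by
        norm_num
      rw [this]
      linarith
  obtain ⟨x, ⟨hx0, hx1⟩, hx⟩ := hivt hd
  simp only at hx
  have hR := patex_wc_R m x
  have hO := patex_wc_O m hm0 x hx0 hx1
  have hdiv : x ^ 2 / m = 2 * (x ^ 2 / (2 * m)) := by field_simp
  have hsq : 0 ≤ (1 - x) ^ 2 := sq_nonneg _
  have h := le_G (chainp m) (patex_wc_prob m hm0 x hx0 hx1) (d := d)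
    (by rw [hO, hdiv]; linarith) (by rw [hR, hO, hdiv]; linarith)
  rw [hR, hO] at h
  refine le_trans ?_ h
  have e : d - (1 - (1 - x) ^ 2 - x ^ 2 / m) / 2 = (1 - x) ^ 2 / 2 / 2 / 2 := by
    rw [hdiv]; linarith
  rw [e, phi_half (by positivity)]
  refine mul_le_mul_of_nonneg_right ?_ patex_log2.le
  have h5 : x ^ 2 / (2 * m) ≤ 1 / (2 * m) := by
    apply div_le_div_of_nonneg_right _ (by positivity)
    exact pow_le_one₀ hx0 hx1
  linarith

end Pool.Agent.H.MP_82502e_co
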