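import Pool.Agent.H.MP_82502e_co.Defs

set_option autoImplicit false

/-!
# Binomial inequalities and the number of degree sequences
-/

namespace Pool.Agent.H.MP_82502e_co

open Finset

/-- Moving down by `i` below `k` costs at most `(k / (N - k)) ^ i`. -/
theorem spa_choose_shift (N k i : ℕ) (hi : i ≤ k) :
    N.choose (k - i) * (N - k) ^ i ≤ N.choose k * k ^ i := by
  induction i with
  | zero => simp
  | succ i ih =>
    have ih' := ih (by omega)
    have h1 : N.choose (k - (i + 1)) * (N - k) ≤ N.choose (k - i) * k := by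
      have h2 := Nat.choose_succ_right_eq N (k - (i + 1))
      have h3 : k - (i + 1) + 1 = k - i := by omega
      rw [h3] at h2
      calc N.choose (k - (i + 1)) * (N - k) ≤ N.choose (k - (i + 1)) * (N - (k - (i + 1))) :=
            Nat.mul_le_mul_left _ (by omega)
        _ = N.choose (k - i) * (k - i) := h2.symm
        _ ≤ N.choose (k - i) * k := Nat.mul_le_mul_left _ (by omega)
    calc N.choose (k - (i + 1)) * (N - k) ^ (i + 1)
        = (N.choose (k - (i + 1)) * (N - k)) * (N - k) ^ i := by ring
      _ ≤ (N.choose (k - i) * k) * (N - k) ^ i := Nat.mul_le_mul_right _ h1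
      _ = (N.choose (k - i) * (N - k) ^ i) * k := by ring
      _ ≤ (N.choose k * k ^ i) * k := Nat.mul_le_mul_right _ ih'
      _ = N.choose k * k ^ (i + 1) := by ring

/-- `C(M,K) / C(N,K) ≤ (M / N) ^ K` for `M ≤ N`. -/
theorem spa_choose_ratio (M N K : ℕ) (h : M ≤ N) :
    M.choose K * N ^ K ≤ N.choose K * M ^ K := by
  induction K with
  | zero => simp
  | succ K ih =>
    have h1 := Nat.choose_succ_right_eq M K
    have h2 := Nat.choose_succ_right_eq N K
    have h3 : (M - K) * N ≤ M * (N - K) := by
      rcases le_total K M with hK | hK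
      · have : K * M ≤ K * N := Nat.mul_le_mul_left _ h
        zify [hK, hK.trans h]
        have h4 : (K : ℤ) * M ≤ K * N := by exact_mod_cast this
        nlinarith
      · rw [Nat.sub_eq_zero_of_le hK]; simp
    have h5 : (M.choose (K + 1) * N ^ (K + 1)) * (K + 1) ≤
        (N.choose (K + 1) * M ^ (K + 1)) * (K + 1) := by
      calc (M.choose (K + 1) * N ^ (K + 1)) * (K + 1)
          = (M.choose (K + 1) * (K + 1)) * (N ^ K * N) := by ring
        _ = (M.choose K * N ^ K) * ((M - K) * N) := by rw [h1]; ring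
        _ ≤ (N.choose K * M ^ K) * (M * (N - K)) := Nat.mul_le_mul ih h3
        _ = (N.choose K * (N - K)) * M ^ (K + 1) := by ring
        _ = (N.choose (K + 1) * M ^ (K + 1)) * (K + 1) := by rw [← h2]; ring
    exact Nat.le_of_mul_le_mul_right h5 (Nat.succ_pos K)

/-- There are at most `2 ^ (n + k)` sequences of `n` naturals with sum `k`. -/
theorem spa_card_deg (n k : ℕ) :
    ((Fintype.piFinset fun _ : Fin n => range (k + 1)).filter fun d => ∑ v, d v = k).card ≤
      2 ^ (n + k) := by
  have h1 : ∀ d ∈ (Fintype.piFinset fun _ : Fin n => range (k + 1)).filter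
      (fun d => ∑ v, d v = k), (1 : ℝ) = 2 ^ k * ∏ v, (1 / 2 : ℝ) ^ (d v) := by
    intro d hd
    rw [mem_filter] at hd
    rw [prod_pow_eq_pow_sum, hd.2, ← mul_pow]
    norm_num
  have h2 : (((Fintype.piFinset fun _ : Fin n => range (k + 1)).filter
      fun d => ∑ v, d v = k).card : ℝ) ≤ 2 ^ (n + k) := by
    calc (((Fintype.piFinset fun _ : Fin n => range (k + 1)).filter
          fun d => ∑ v, d v = k).card : ℝ)
        = ∑ d ∈ (Fintype.piFinset fun _ : Fin n => range (k + 1)).filter
          (fun d => ∑ v, d v = k), (1 : ℝ) := by simp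
      _ = ∑ d ∈ (Fintype.piFinset fun _ : Fin n => range (k + 1)).filter
          (fun d => ∑ v, d v = k), 2 ^ k * ∏ v, (1 / 2 : ℝ) ^ (d v) := sum_congr rfl h1
      _ ≤ ∑ d ∈ (Fintype.piFinset fun _ : Fin n => range (k + 1)),
          2 ^ k * ∏ v, (1 / 2 : ℝ) ^ (d v) := by
          refine sum_le_sum_of_subset_of_nonneg (filter_subset _ _) fun d _ _ => ?_
          positivity
      _ = 2 ^ k * ∏ _v : Fin n, ∑ j ∈ range (k + 1), (1 / 2 : ℝ) ^ j := by
          rw [← mul_sum, prod_univ_sum]
      _ ≤ 2 ^ k * 2 ^ n := by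
          refine mul_le_mul_of_nonneg_left ?_ (by positivity)
          have h3 : ∀ m : ℕ, ∑ j ∈ range m, (1 / 2 : ℝ) ^ j ≤ 2 := by
            intro m
            have := geom_sum_eq (show (1 / 2 : ℝ) ≠ 1 by norm_num) m
            rw [this]
            have h4 : (0 : ℝ) ≤ (1 / 2) ^ m := by positivity
            rw [div_le_iff_of_neg (by norm_num)]
            linarith
          calc ∏ _v : Fin n, ∑ j ∈ range (k + 1), (1 / 2 : ℝ) ^ j
              ≤ ∏ _v : Fin n, (2 : ℝ) :=
                prod_le_prod (fun _ _ => by positivity) fun _ _ => h3 _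
            _ = 2 ^ n := by simp
      _ = 2 ^ (n + k) := by rw [pow_add]; ring
  exact_mod_cast h2

end Pool.Agent.H.MP_82502e_co
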