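import Pool.Agent.H.MP_82502e_co.SpA0
import Pool.Agent.H.MP_82502e_co.SpEnc
import Pool.Agent.H.MP_82502e_co.Ident

set_option autoImplicit false

/-!
# Sparse posets: degrees, candidates and the status of a pair
-/

namespace Pool.Agent.H.MP_82502e_co

open Finset

variable {n : ℕ}

/-- The up-degree. -/
def dp (S : Finset (Fin n × Fin n)) (v : Fin n) : ℕ := (Up S v).card

/-- The down-degree. -/
def dm (S : Finset (Fin n × Fin n)) (v : Fin n) : ℕ := (Dn S v).card

/-- The lower part: points with at least as many elements above as below. -/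
def XS (S : Finset (Fin n × Fin n)) : Finset (Fin n) := univ.filter fun v => dm S v ≤ dp S v

/-- The number of relations inside the lower part or inside the upper part. -/
def wS (S : Finset (Fin n × Fin n)) : ℕ :=
  (S.filter fun p => ((Dn S p.1).card ≤ (Up S p.1).card ↔
    (Dn S p.2).card ≤ (Up S p.2).card)).card

theorem mem_XS {S : Finset (Fin n × Fin n)} {v : Fin n} : v ∈ XS S ↔ dm S v ≤ dp S v := by
  simp [XS]

theorem dp_lt {S : Finset (Fin n × Fin n)} (h : IsPO S) {x y : Fin n} (hxy : (x, y) ∈ S) :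
    dp S y < dp S x := by
  refine card_lt_card ?_
  rw [ssubset_iff_of_subset]
  · exact ⟨y, mem_Up.2 hxy, fun hy => h.1 y (mem_Up.1 hy)⟩
  · intro z hz
    exact mem_Up.2 (h.2 x y z hxy (mem_Up.1 hz))

theorem dm_lt {S : Finset (Fin n × Fin n)} (h : IsPO S) {x y : Fin n} (hxy : (x, y) ∈ S) :
    dm S x < dm S y := by
  refine card_lt_card ?_
  rw [ssubset_iff_of_subset]
  · exact ⟨x, mem_Dn.2 hxy, fun hx => h.1 x (mem_Dn.1 hx)⟩
  · intro z hz
    exact mem_Dn.2 (h.2 z x y (mem_Dn.1 hz) hxy)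

theorem sum_dp (S : Finset (Fin n × Fin n)) : ∑ v, dp S v = S.card := by
  have := card_eq_sum_card_fiberwise (s := S) (t := univ) (f := Prod.fst) (by simp)
  rw [this]
  refine sum_congr rfl fun v _ => ?_
  refine card_bij (fun y _ => (v, y)) ?_ ?_ ?_
  · intro y hy
    rw [mem_filter]
    exact ⟨mem_Up.1 hy, rfl⟩
  · intro y _ z _ hyz
    exact (Prod.mk.inj hyz).2
  · rintro ⟨x, y⟩ hp
    rw [mem_filter] at hp
    obtain ⟨h1, h2⟩ := hp
    simp only at h2
    subst h2
    exact ⟨y, mem_Up.2 h1, rfl⟩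

theorem sum_dm (S : Finset (Fin n × Fin n)) : ∑ v, dm S v = S.card := by
  have := card_eq_sum_card_fiberwise (s := S) (t := univ) (f := Prod.snd) (by simp)
  rw [this]
  refine sum_congr rfl fun v _ => ?_
  refine card_bij (fun y _ => (y, v)) ?_ ?_ ?_
  · intro y hy
    rw [mem_filter]
    exact ⟨mem_Dn.1 hy, rfl⟩
  · intro y _ z _ hyz
    exact (Prod.mk.inj hyz).1
  · rintro ⟨x, y⟩ hp
    rw [mem_filter] at hp
    obtain ⟨h1, h2⟩ := hp
    simp only at h2
    subst h2
    exact ⟨x, mem_Dn.2 h1, rfl⟩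

/-- The height function: up-degree minus down-degree. -/
def spf (a b : Fin n → ℕ) (v : Fin n) : ℤ := (a v : ℤ) - b v

/-- `x` is a candidate for being below `v`, `v` in the lower part. -/
def CX (a b : Fin n → ℕ) (P : Finset (Fin n × Fin n)) (v x : Fin n) : Prop :=
  b x ≤ a x ∧ spf a b v < spf a b x ∧
    ∀ u, (v, u) ∈ P → (a u < b u ∨ spf a b u < spf a b v) → (x, u) ∈ P

/-- `y` is a candidate for being above `v`, `v` in the upper part. -/
def CY (a b : Fin n → ℕ) (P : Finset (Fin n × Fin n)) (v y : Fin n) : Prop :=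
  a y < b y ∧ spf a b y < spf a b v ∧
    ∀ u, (u, v) ∈ P → (b u ≤ a u ∨ spf a b v < spf a b u) → (u, y) ∈ P

open scoped Classical in
/-- The points of the lower part with many candidates. -/
noncomputable def XbS (s : ℕ) (S : Finset (Fin n × Fin n)) : Finset (Fin n) :=
  univ.filter fun v => dm S v ≤ dp S v ∧ s < (univ.filter fun x => CX (dp S) (dm S) S v x).card

open scoped Classical in
/-- The points of the upper part with many candidates. -/
noncomputable def YbS (s : ℕ) (S : Finset (Fin n × Fin n)) : Finset (Fin n) :=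
  univ.filter fun v => dp S v < dm S v ∧ s < (univ.filter fun y => CY (dp S) (dm S) S v y).card

open scoped Classical in
/-- The status of a position: `0` main, `1` small, `2` big, `none` absent. -/
noncomputable def spst (a b : Fin n → ℕ) (s : ℕ) (Xb Yb : Finset (Fin n))
    (P : Finset (Fin n × Fin n)) (e : Fin n × Fin n) : Option (Fin 3) :=
  if b e.1 ≤ a e.1 then
    if a e.2 < b e.2 then
      if (e.1 ∈ Xb ∧ ¬ s < b e.2) ∨ (e.2 ∈ Yb ∧ ¬ s < a e.1) then none
      else if e.1 ∈ Xb ∨ e.2 ∈ Yb then some 1 else some 0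
    else
      if e.1 ∈ Xb then (if s < b e.2 then some 1 else none)
      else if e.2 ∈ Xb then some 2
      else if CX a b P e.2 e.1 then some 1 else none
  else
    if a e.2 < b e.2 then
      if e.2 ∈ Yb then (if s < a e.1 then some 1 else none)
      else if e.1 ∈ Yb then some 2
      else if CY a b P e.1 e.2 then some 1 else none
    else none

/-- The time of a position. -/
def spt (a b : Fin n → ℕ) (k : ℕ) (e : Fin n × Fin n) : ℕ :=
  if b e.1 ≤ a e.1 ∧ b e.2 ≤ a e.2 then 1 + (spf a b e.2 + k + 1).toNat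
  else if a e.1 < b e.1 ∧ a e.2 < b e.2 then 1 + (k + 1 - spf a b e.1).toNat
  else 0

section facts

variable {S : Finset (Fin n × Fin n)}

theorem spf_lt (h : IsPO S) {x y : Fin n} (hxy : (x, y) ∈ S) :
    spf (dp S) (dm S) y < spf (dp S) (dm S) x := by
  have h1 := dp_lt h hxy
  have h2 := dm_lt h hxy
  unfold spf
  omega

theorem cx_of_mem (h : IsPO S) {x v : Fin n} (hv : dm S v ≤ dp S v) (hxv : (x, v) ∈ S) :
    CX (dp S) (dm S) S v x := by
  have h1 := dp_lt h hxv
  have h2 := dm_lt h hxv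
  exact ⟨by omega, spf_lt h hxv, fun u hu _ => h.2 x v u hxv hu⟩

theorem cy_of_mem (h : IsPO S) {v y : Fin n} (hv : dp S v < dm S v) (hvy : (v, y) ∈ S) :
    CY (dp S) (dm S) S v y := by
  have h1 := dp_lt h hvy
  have h2 := dm_lt h hvy
  exact ⟨by omega, spf_lt h hvy, fun u hu _ => h.2 u v y hu hvy⟩

theorem big_up (h : IsPO S) {s : ℕ} {x v : Fin n} (hx : x ∈ XbS s S) (hxv : (x, v) ∈ S) :
    s < dm S v := by
  classical
  unfold XbS at hx
  rw [mem_filter] at hx
  refine lt_of_lt_of_le hx.2.2 (card_le_card ?_)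
  intro z hz
  rw [mem_filter] at hz
  exact mem_Dn.2 (hz.2.2.2 v hxv (Or.inr (spf_lt h hxv)))

theorem big_down (h : IsPO S) {s : ℕ} {x v : Fin n} (hv : v ∈ YbS s S) (hxv : (x, v) ∈ S) :
    s < dp S x := by
  classical
  unfold YbS at hv
  rw [mem_filter] at hv
  refine lt_of_lt_of_le hv.2.2 (card_le_card ?_)
  intro z hz
  rw [mem_filter] at hz
  exact mem_Up.2 (hz.2.2.2 x hxv (Or.inr (spf_lt h hxv)))

theorem mem_XbS_X {s : ℕ} {x : Fin n} (hx : x ∈ XbS s S) : dm S x ≤ dp S x := by
  classical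
  unfold XbS at hx
  rw [mem_filter] at hx
  exact hx.2.1

theorem mem_YbS_Y {s : ℕ} {x : Fin n} (hx : x ∈ YbS s S) : dp S x < dm S x := by
  classical
  unfold YbS at hx
  rw [mem_filter] at hx
  exact hx.2.1

/-- A relation of `S` is never forced absent. -/
theorem spst_ne_none (h : IsPO S) (s : ℕ) {e : Fin n × Fin n} (he : e ∈ S) :
    spst (dp S) (dm S) s (XbS s S) (YbS s S) S e ≠ none := by
  obtain ⟨x, v⟩ := e
  have h1 := dp_lt h he
  have h2 := dm_lt h he
  unfold spst
  simp only
  by_cases hx : dm S x ≤ dp S x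
  · rw [if_pos hx]
    by_cases hv : dp S v < dm S v
    · rw [if_pos hv, if_neg]
      · split_ifs <;> simp
      · rintro (⟨h3, h4⟩ | ⟨h3, h4⟩)
        · exact h4 (big_up h h3 he)
        · exact h4 (big_down h h3 he)
    · rw [if_neg hv]
      by_cases h3 : x ∈ XbS s S
      · rw [if_pos h3, if_pos (big_up h h3 he)]; simp
      · rw [if_neg h3]
        by_cases h4 : v ∈ XbS s S
        · rw [if_pos h4]; simp
        · rw [if_neg h4, if_pos (cx_of_mem h (by omega) he)]; simp
  · rw [if_neg hx, if_pos (by omega)]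
    by_cases h3 : v ∈ YbS s S
    · rw [if_pos h3, if_pos (big_down h h3 he)]; simp
    · rw [if_neg h3]
      by_cases h4 : x ∈ YbS s S
      · rw [if_pos h4]; simp
      · rw [if_neg h4, if_pos (cy_of_mem h (by omega) he)]; simp

/-- A relation with a big first element in the lower part is small. -/
theorem spst_one_of_Xb (h : IsPO S) (s : ℕ) {x v : Fin n} (he : (x, v) ∈ S)
    (hx : x ∈ XbS s S) : spst (dp S) (dm S) s (XbS s S) (YbS s S) S (x, v) = some 1 := by
  have hX := mem_XbS_X hx
  have h5 := big_up h hx he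
  unfold spst
  simp only
  rw [if_pos hX]
  by_cases hv : dp S v < dm S v
  · rw [if_pos hv, if_neg, if_pos (Or.inl hx)]
    rintro (⟨_, h4⟩ | ⟨h3, h4⟩)
    · exact h4 h5
    · exact h4 (big_down h h3 he)
  · rw [if_neg hv, if_pos hx, if_pos h5]

/-- A relation with a big second element in the upper part is small. -/
theorem spst_one_of_Yb (h : IsPO S) (s : ℕ) {x v : Fin n} (he : (x, v) ∈ S)
    (hv : v ∈ YbS s S) : spst (dp S) (dm S) s (XbS s S) (YbS s S) S (x, v) = some 1 := by
  have hY := mem_YbS_Y hv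
  have h5 := big_down h hv he
  unfold spst
  simp only
  by_cases hx : dm S x ≤ dp S x
  · rw [if_pos hx, if_pos hY, if_neg, if_pos (Or.inr hv)]
    rintro (⟨h3, h4⟩ | ⟨_, h4⟩)
    · exact h4 (big_up h h3 he)
    · exact h4 h5
  · rw [if_neg hx, if_pos hY, if_pos hv, if_pos h5]

/-- A big relation ends in a big point of the lower part or starts in a big point of the upper
part. -/
theorem of_spst_two (s : ℕ) {e : Fin n × Fin n}
    (h2 : spst (dp S) (dm S) s (XbS s S) (YbS s S) S e = some 2) :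
    e.2 ∈ XbS s S ∨ e.1 ∈ YbS s S := by
  unfold spst at h2
  split_ifs at h2 <;> simp_all

/-- A relation inside a part is not main. -/
theorem spst_ne_zero (s : ℕ) {e : Fin n × Fin n}
    (h2 : dm S e.1 ≤ dp S e.1 ↔ dm S e.2 ≤ dp S e.2) :
    spst (dp S) (dm S) s (XbS s S) (YbS s S) S e ≠ some 0 := by
  intro h3
  unfold spst at h3
  split_ifs at h3 with h4 h5 h6 h7
  all_goals first | omega | simp at h3

end facts

end Pool.Agent.H.MP_82502e_co
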