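import Pool.Agent.H.MP_82502e_co.SpA1

set_option autoImplicit false

/-!
# Sparse posets: the encoding bound for given degrees
-/

namespace Pool.Agent.H.MP_82502e_co

open Finset

variable {n : ℕ}

theorem card_big_deg (d : Fin n → ℕ) {k : ℕ} (h : ∑ v, d v = k) :
    (univ.filter fun v => Nat.sqrt k < d v).card ≤ Nat.sqrt k := by
  have h1 : (univ.filter fun v => Nat.sqrt k < d v).card * (Nat.sqrt k + 1) ≤ k := by
    calc (univ.filter fun v => Nat.sqrt k < d v).card * (Nat.sqrt k + 1)
        = ∑ _v ∈ univ.filter fun v => Nat.sqrt k < d v, (Nat.sqrt k + 1) := by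
          rw [sum_const, smul_eq_mul]
      _ ≤ ∑ v ∈ univ.filter fun v => Nat.sqrt k < d v, d v := by
          refine sum_le_sum fun v hv => ?_
          rw [mem_filter] at hv
          exact hv.2
      _ ≤ ∑ v, d v := sum_le_sum_of_subset (filter_subset _ _)
      _ = k := h
  have h2 := Nat.lt_succ_sqrt k
  by_contra hc
  rw [not_le] at hc
  have h3 : (Nat.sqrt k + 1) * (Nat.sqrt k + 1) ≤
      (univ.filter fun v => Nat.sqrt k < d v).card * (Nat.sqrt k + 1) :=
    Nat.mul_le_mul_right _ hc
  have h4 : (Nat.sqrt k).succ * (Nat.sqrt k).succ = (Nat.sqrt k + 1) * (Nat.sqrt k + 1) := rfl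
  omega

theorem mul_sub_le_half (m n : ℕ) (h : m ≤ n) : m * (n - m) ≤ n / 2 * (n - n / 2) := by
  obtain ⟨q, hq⟩ : ∃ q, q = n / 2 := ⟨_, rfl⟩
  rw [← hq]
  have h1 : 2 * q ≤ n := by omega
  have h2 : n ≤ 2 * q + 1 := by omega
  have hqn : q ≤ n := by omega
  zify [h, hqn]
  rcases le_total m q with hm | hm
  · have : (m : ℤ) ≤ q := by exact_mod_cast hm
    have h1' : (2 : ℤ) * q ≤ n := by exact_mod_cast h1
    nlinarith
  · rcases Nat.eq_or_lt_of_le hm with hm' | hm'
    · rw [hm']
    · have : (q : ℤ) + 1 ≤ m := by exact_mod_cast hm'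
      have h2' : (n : ℤ) ≤ 2 * q + 1 := by exact_mod_cast h2
      nlinarith

/-- The numbers of positions of each status. -/
theorem card_status_zero (S : Finset (Fin n × Fin n)) (s : ℕ) :
    (univ.filter fun e => spst (dp S) (dm S) s (XbS s S) (YbS s S) S e = some 0).card ≤
      n / 2 * (n - n / 2) := by
  refine le_trans (card_le_card (t := XS S ×ˢ (XS S)ᶜ) ?_) ?_
  · intro e he
    rw [mem_filter] at he
    rw [mem_product, mem_compl]
    have h3 := he.2
    unfold spst at h3
    split_ifs at h3 with h4 h5 h6 h7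
    all_goals first | (rw [mem_XS, mem_XS]; omega) | simp at h3
  · rw [card_product, card_compl, Fintype.card_fin]
    refine mul_sub_le_half _ _ ?_
    exact (card_le_univ _).trans (by simp)

theorem card_status_one {S : Finset (Fin n × Fin n)} {k : ℕ} (hk : S.card = k) :
    (univ.filter fun e => spst (dp S) (dm S) (Nat.sqrt k) (XbS (Nat.sqrt k) S)
      (YbS (Nat.sqrt k) S) S e = some 1).card ≤ 3 * n * Nat.sqrt k := by
  classical
  obtain ⟨s, hs⟩ : ∃ s, s = Nat.sqrt k := ⟨_, rfl⟩
  rw [← hs]
  set A : Finset (Fin n × Fin n) := univ ×ˢ (univ.filter fun v => s < dm S v) with hA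
  set B : Finset (Fin n × Fin n) := (univ.filter fun v => s < dp S v) ×ˢ univ with hB
  set C : Finset (Fin n × Fin n) := (XS S).biUnion fun v =>
    if v ∈ XbS s S then ∅ else (univ.filter fun x => CX (dp S) (dm S) S v x).image fun x => (x, v)
    with hC
  set D : Finset (Fin n × Fin n) := (XS S)ᶜ.biUnion fun v =>
    if v ∈ YbS s S then ∅ else (univ.filter fun x => CY (dp S) (dm S) S v x).image fun x => (v, x)
    with hD
  have hsub : (univ.filter fun e => spst (dp S) (dm S) s (XbS s S) (YbS s S) S e = some 1) ⊆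
      A ∪ B ∪ (C ∪ D) := by
    intro e he
    rw [mem_filter] at he
    have h3 := he.2
    unfold spst at h3
    rw [mem_union, mem_union, mem_union]
    have hAe : s < dm S e.2 → e ∈ A := by
      intro h
      rw [hA, mem_product, mem_filter]
      exact ⟨mem_univ _, mem_univ _, h⟩
    have hBe : s < dp S e.1 → e ∈ B := by
      intro h
      rw [hB, mem_product, mem_filter]
      exact ⟨⟨mem_univ _, h⟩, mem_univ _⟩
    split_ifs at h3 with h4 h5 h6 h7 h8 h9 h10 h11 h12 h13 h14 h15 h16
    · rw [not_or] at h6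
      rcases h7 with h7 | h7
      · by_cases h17 : s < dm S e.2
        · exact Or.inl (Or.inl (hAe h17))
        · exact absurd ⟨h7, h17⟩ h6.1
      · by_cases h17 : s < dp S e.1
        · exact Or.inl (Or.inr (hBe h17))
        · exact absurd ⟨h7, h17⟩ h6.2
    · simp at h3
    · exact Or.inl (Or.inl (hAe (by assumption)))
    · simp at h3
    · refine Or.inr (Or.inl ?_)
      rw [hC, mem_biUnion]
      refine ⟨e.2, mem_XS.2 (by omega), ?_⟩
      rw [if_neg (by assumption), mem_image]
      exact ⟨e.1, by rw [mem_filter]; exact ⟨mem_univ _, by assumption⟩, rfl⟩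
    · exact Or.inl (Or.inr (hBe (by assumption)))
    · simp at h3
    · refine Or.inr (Or.inr ?_)
      rw [hD, mem_biUnion]
      refine ⟨e.1, by rw [mem_compl, mem_XS]; omega, ?_⟩
      rw [if_neg (by assumption), mem_image]
      exact ⟨e.2, by rw [mem_filter]; exact ⟨mem_univ _, by assumption⟩, rfl⟩
  have cA : A.card ≤ n * s := by
    rw [hA, card_product, card_univ, Fintype.card_fin, hs]
    exact Nat.mul_le_mul_left _ (card_big_deg (dm S) ((sum_dm S).trans hk))
  have cB : B.card ≤ s * n := by
    rw [hB, card_product, card_univ, Fintype.card_fin, hs]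
    exact Nat.mul_le_mul_right _ (card_big_deg (dp S) ((sum_dp S).trans hk))
  have cC : C.card ≤ (XS S).card * s := by
    rw [hC]
    refine card_biUnion_le_card_mul _ _ _ fun v hv => ?_
    split_ifs with h
    · simp
    · refine card_image_le.trans ?_
      by_contra hc
      rw [not_le] at hc
      refine h ?_
      unfold XbS
      rw [mem_filter]
      exact ⟨mem_univ _, mem_XS.1 hv, by convert hc⟩
  have cD : D.card ≤ (XS S)ᶜ.card * s := by
    rw [hD]
    refine card_biUnion_le_card_mul _ _ _ fun v hv => ?_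
    split_ifs with h
    · simp
    · refine card_image_le.trans ?_
      by_contra hc
      rw [not_le] at hc
      refine h ?_
      unfold YbS
      rw [mem_filter]
      rw [mem_compl, mem_XS, not_le] at hv
      exact ⟨mem_univ _, hv, by convert hc⟩
  have hcompl : (XS S).card + (XS S)ᶜ.card = n := by
    rw [card_add_card_compl, Fintype.card_fin]
  calc _ ≤ (A ∪ B ∪ (C ∪ D)).card := card_le_card hsub
    _ ≤ (A.card + B.card) + (C.card + D.card) :=
        (card_union_le _ _).trans (Nat.add_le_add (card_union_le _ _) (card_union_le _ _))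
    _ ≤ (n * s + s * n) + ((XS S).card * s + (XS S)ᶜ.card * s) := by omega
    _ = (n * s + s * n) + ((XS S).card + (XS S)ᶜ.card) * s := by ring
    _ = 3 * n * s := by rw [hcompl]; ring

/-- The encoding bound. -/
theorem spa_enc (n k : ℕ) (a b : Fin n → ℕ) (Xb Yb : Finset (Fin n)) (K : Fin 3 → ℕ)
    (F : Finset (Finset (Fin n × Fin n)))
    (hF : ∀ S ∈ F, S ∈ PO n k ∧ dp S = a ∧ dm S = b ∧ XbS (Nat.sqrt k) S = Xb ∧
      YbS (Nat.sqrt k) S = Yb ∧
      ∀ c, (S.filter fun e => spst a b (Nat.sqrt k) Xb Yb S e = some c).card = K c) :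
    F.card ≤ (n / 2 * (n - n / 2)).choose (K 0) * (3 * n * Nat.sqrt k).choose (K 1) *
      (n * n).choose (K 2) := by
  classical
  have hmain := enc (spt a b k) F (spst a b (Nat.sqrt k) Xb Yb)
    (fun c => if c = 0 then n / 2 * (n - n / 2) else if c = 1 then 3 * n * Nat.sqrt k else n * n)
    K ?_ ?_ (fun P hP => (hF P hP).2.2.2.2.2)
  · rw [Fin.prod_univ_three] at hmain
    simpa using hmain
  · intro P hP Q hQ e hag
    obtain ⟨hP0, hPa, hPb, hPX, hPY, -⟩ := hF P hP
    obtain ⟨hQ0, hQa, hQb, hQX, hQY, -⟩ := hF Q hQ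
    have hPO : IsPO P := by
      unfold PO at hP0; rw [mem_filter] at hP0; exact hP0.2.1
    have hPk : P.card = k := by
      unfold PO at hP0; rw [mem_filter] at hP0; exact hP0.2.2
    have hQO : IsPO Q := by
      unfold PO at hQ0; rw [mem_filter] at hQ0; exact hQ0.2.1
    have hak : ∀ v, a v ≤ k := by
      intro v
      rw [← hPa, ← hPk, ← sum_dp P]
      exact single_le_sum (f := fun v => dp P v) (fun _ _ => Nat.zero_le _) (mem_univ v)
    have hbk : ∀ v, b v ≤ k := by
      intro v
      rw [← hPb, ← hPk, ← sum_dm P]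
      exact single_le_sum (f := fun v => dm P v) (fun _ _ => Nat.zero_le _) (mem_univ v)
    have key : ∀ R R' : Finset (Fin n × Fin n), (∀ e2, spt a b k e2 < spt a b k e →
        (e2 ∈ R ↔ e2 ∈ R')) → b e.1 ≤ a e.1 → b e.2 ≤ a e.2 → CX a b R e.2 e.1 →
        CX a b R' e.2 e.1 := by
      rintro R R' hRR h1 h2 ⟨h3, h4, h5⟩
      refine ⟨h3, h4, fun u hu hu2 => ?_⟩
      have ht : spt a b k e = 1 + (spf a b e.2 + k + 1).toNat := by
        unfold spt; rw [if_pos ⟨h1, h2⟩]
      have hlt : ∀ w : Fin n, b w ≤ a w → spt a b k (w, u) < spt a b k e := by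
        intro w hw
        rw [ht]
        unfold spt
        simp only
        by_cases hu3 : b u ≤ a u
        · rw [if_pos ⟨hw, hu3⟩]
          have h6 : spf a b u < spf a b e.2 := by
            rcases hu2 with hu2 | hu2
            · omega
            · exact hu2
          have h7 := hbk e.2
          have h8 := hbk u
          unfold spf at *
          omega
        · rw [if_neg (by tauto), if_neg (by omega)]
          omega
      have hu' := (hRR (e.2, u) (hlt e.2 h2)).2 hu
      exact (hRR (e.1, u) (hlt e.1 h1)).1 (h5 u hu' hu2)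
    have key2 : ∀ R R' : Finset (Fin n × Fin n), (∀ e2, spt a b k e2 < spt a b k e →
        (e2 ∈ R ↔ e2 ∈ R')) → a e.1 < b e.1 → a e.2 < b e.2 → CY a b R e.1 e.2 →
        CY a b R' e.1 e.2 := by
      rintro R R' hRR h1 h2 ⟨h3, h4, h5⟩
      refine ⟨h3, h4, fun u hu hu2 => ?_⟩
      have ht : spt a b k e = 1 + (k + 1 - spf a b e.1).toNat := by
        unfold spt; rw [if_neg (by omega), if_pos ⟨h1, h2⟩]
      have hlt : ∀ w : Fin n, a w < b w → spt a b k (u, w) < spt a b k e := by
        intro w hw
        rw [ht]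
        unfold spt
        simp only
        by_cases hu3 : a u < b u
        · rw [if_neg (by omega), if_pos ⟨hu3, hw⟩]
          have h6 : spf a b e.1 < spf a b u := by
            rcases hu2 with hu2 | hu2
            · omega
            · exact hu2
          have h7 := hak e.1
          have h8 := hak u
          unfold spf at *
          omega
        · rw [if_neg (by omega), if_neg (by omega)]
          omega
      have hu' := (hRR (u, e.1) (hlt e.1 h1)).2 hu
      exact (hRR (u, e.2) (hlt e.2 h2)).1 (h5 u hu' hu2)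
    have hagQ : ∀ e2, spt a b k e2 < spt a b k e → (e2 ∈ Q ↔ e2 ∈ P) :=
      fun e2 h => (hag e2 h).symm
    have hst : spst a b (Nat.sqrt k) Xb Yb P e = spst a b (Nat.sqrt k) Xb Yb Q e := by
      unfold spst
      by_cases h1 : b e.1 ≤ a e.1
      · rw [if_pos h1, if_pos h1]
        by_cases h2 : a e.2 < b e.2
        · rw [if_pos h2, if_pos h2]
        · rw [if_neg h2, if_neg h2]
          have hc : CX a b P e.2 e.1 ↔ CX a b Q e.2 e.1 :=
            ⟨key P Q hag h1 (by omega), key Q P hagQ h1 (by omega)⟩
          simp only [hc]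
      · rw [if_neg h1, if_neg h1]
        by_cases h2 : a e.2 < b e.2
        · rw [if_pos h2, if_pos h2]
          have hc : CY a b P e.1 e.2 ↔ CY a b Q e.1 e.2 :=
            ⟨key2 P Q hag (by omega) h2, key2 Q P hagQ (by omega) h2⟩
          simp only [hc]
        · rw [if_neg h2, if_neg h2]
    refine ⟨hst, fun hnone => ?_⟩
    have hP1 : e ∉ P := by
      intro he
      refine spst_ne_none hPO (Nat.sqrt k) he ?_
      rw [hPa, hPb, hPX, hPY]
      exact hnone
    have hQ1 : e ∉ Q := by
      intro he
      refine spst_ne_none hQO (Nat.sqrt k) he ?_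
      rw [hQa, hQb, hQX, hQY, ← hst]
      exact hnone
    tauto
  · intro P hP c
    obtain ⟨hP0, hPa, hPb, hPX, hPY, -⟩ := hF P hP
    have hPk : P.card = k := by
      unfold PO at hP0; rw [mem_filter] at hP0; exact hP0.2.2
    subst hPa hPb hPX hPY
    fin_cases c
    · simpa using card_status_zero P (Nat.sqrt k)
    · simpa using card_status_one hPk
    · simp only
      refine (card_le_univ _).trans ?_
      simp

end Pool.Agent.H.MP_82502e_co
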