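import Pool.Agent.H.MP_82502e_co.SpA2

set_option autoImplicit false

/-!
# Sparse posets: counts of the three kinds of relations
-/

namespace Pool.Agent.H.MP_82502e_co

open Finset

variable {n : ℕ}

open scoped Classical in
/-- The number of relations of status `c`. -/
noncomputable def spK (s : ℕ) (S : Finset (Fin n × Fin n)) (c : Fin 3) : ℕ :=
  (S.filter fun e => spst (dp S) (dm S) s (XbS s S) (YbS s S) S e = some c).card

theorem spK_sum {S : Finset (Fin n × Fin n)} (h : IsPO S) (s : ℕ) :
    spK s S 0 + spK s S 1 + spK s S 2 = S.card := by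
  classical
  have h1 : S.card = ∑ c : Fin 3, spK s S c := by
    unfold spK
    rw [← card_biUnion]
    · congr 1
      ext e
      simp only [mem_biUnion, mem_univ, true_and, mem_filter]
      constructor
      · intro he
        have := spst_ne_none h s he
        rcases hs : spst (dp S) (dm S) s (XbS s S) (YbS s S) S e with _ | c
        · exact absurd hs this
        · exact ⟨c, he, rfl⟩
      · rintro ⟨c, he, -⟩
        exact he
    · intro c _ c' _ hcc
      rw [Function.onFun, disjoint_left]
      intro e he he'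
      rw [mem_filter] at he he'
      rw [he.2] at he'
      exact hcc (Option.some.inj he'.2)
  rw [h1, Fin.sum_univ_three]

theorem wS_le {S : Finset (Fin n × Fin n)} (h : IsPO S) (s : ℕ) :
    wS S ≤ spK s S 1 + spK s S 2 := by
  classical
  unfold wS spK
  refine le_trans (card_le_card (t := (S.filter fun e =>
      spst (dp S) (dm S) s (XbS s S) (YbS s S) S e = some 1) ∪ (S.filter fun e =>
      spst (dp S) (dm S) s (XbS s S) (YbS s S) S e = some 2)) ?_) (card_union_le _ _)
  intro e he
  rw [mem_filter] at he
  rw [mem_union, mem_filter, mem_filter]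
  have h1 := spst_ne_none h s he.1
  have h2 := spst_ne_zero s he.2
  rcases hs : spst (dp S) (dm S) s (XbS s S) (YbS s S) S e with _ | c
  · exact absurd hs h1
  · rw [hs] at h2
    have hc0 : c ≠ 0 := fun hc => h2 (by rw [hc])
    fin_cases c
    · exact absurd rfl hc0
    · exact Or.inl ⟨he.1, rfl⟩
    · exact Or.inr ⟨he.1, rfl⟩

theorem spK_two_le {S : Finset (Fin n × Fin n)} (h : IsPO S) (s : ℕ) :
    spK s S 2 ≤ 2 * spK s S 1 := by
  classical
  set A := S.filter fun e => e.2 ∈ XbS s S with hA
  set B := S.filter fun e => e.1 ∈ YbS s S with hB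
  set A' := S.filter fun e => e.1 ∈ XbS s S with hA'
  set B' := S.filter fun e => e.2 ∈ YbS s S with hB'
  have h1 : spK s S 2 ≤ A.card + B.card := by
    unfold spK
    refine le_trans (card_le_card (t := A ∪ B) ?_) (card_union_le _ _)
    intro e he
    rw [mem_filter] at he
    rw [mem_union, hA, hB, mem_filter, mem_filter]
    rcases of_spst_two s he.2 with h3 | h3
    · exact Or.inl ⟨he.1, h3⟩
    · exact Or.inr ⟨he.1, h3⟩
  have hA'1 : A'.card ≤ spK s S 1 := by
    unfold spK
    refine card_le_card ?_
    intro e he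
    rw [hA', mem_filter] at he
    rw [mem_filter]
    exact ⟨he.1, spst_one_of_Xb h s (x := e.1) (v := e.2) he.1 he.2⟩
  have hB'1 : B'.card ≤ spK s S 1 := by
    unfold spK
    refine card_le_card ?_
    intro e he
    rw [hB', mem_filter] at he
    rw [mem_filter]
    exact ⟨he.1, spst_one_of_Yb h s (x := e.1) (v := e.2) he.1 he.2⟩
  have fib1 : ∀ T : Finset (Fin n), (S.filter fun e => e.2 ∈ T).card = ∑ v ∈ T, dm S v := by
    intro T
    have := card_eq_sum_card_fiberwise (s := S.filter fun e => e.2 ∈ T) (t := T)
      (f := Prod.snd) (by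
        intro e he
        rw [mem_coe, mem_filter] at he
        exact he.2)
    rw [this]
    refine sum_congr rfl fun v hv => ?_
    symm
    refine card_bij (fun y _ => (y, v)) ?_ ?_ ?_
    · intro y hy
      rw [mem_filter, mem_filter]
      exact ⟨⟨mem_Dn.1 hy, hv⟩, rfl⟩
    · intro y _ z _ hyz
      exact (Prod.mk.inj hyz).1
    · rintro ⟨x, y⟩ hp
      rw [mem_filter, mem_filter] at hp
      obtain ⟨⟨h1, _⟩, h2⟩ := hp
      simp only at h2
      subst h2
      exact ⟨x, mem_Dn.2 h1, rfl⟩
  have fib2 : ∀ T : Finset (Fin n), (S.filter fun e => e.1 ∈ T).card = ∑ v ∈ T, dp S v := by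
    intro T
    have := card_eq_sum_card_fiberwise (s := S.filter fun e => e.1 ∈ T) (t := T)
      (f := Prod.fst) (by
        intro e he
        rw [mem_coe, mem_filter] at he
        exact he.2)
    rw [this]
    refine sum_congr rfl fun v hv => ?_
    symm
    refine card_bij (fun y _ => (v, y)) ?_ ?_ ?_
    · intro y hy
      rw [mem_filter, mem_filter]
      exact ⟨⟨mem_Up.1 hy, hv⟩, rfl⟩
    · intro y _ z _ hyz
      exact (Prod.mk.inj hyz).2
    · rintro ⟨x, y⟩ hp
      rw [mem_filter, mem_filter] at hp
      obtain ⟨⟨h1, _⟩, h2⟩ := hp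
      simp only at h2
      subst h2
      exact ⟨y, mem_Up.2 h1, rfl⟩
  have hAA : A.card ≤ A'.card := by
    rw [hA, hA', fib1, fib2]
    exact sum_le_sum fun v hv => mem_XbS_X hv
  have hBB : B.card ≤ B'.card := by
    rw [hB, hB', fib1, fib2]
    exact sum_le_sum fun v hv => (mem_YbS_Y hv).le
  omega

end Pool.Agent.H.MP_82502e_co
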