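import Pool.Agent.H.MP_82502e_co.SpA3

set_option autoImplicit false

/-!
# Sparse posets: step 1
-/

namespace Pool.Agent.H.MP_82502e_co

open Finset

theorem half_mul_half (n : ℕ) : n / 2 * (n - n / 2) = n * n / 4 := by
  obtain ⟨q, hq | hq⟩ : ∃ q, n = 2 * q ∨ n = 2 * q + 1 := ⟨n / 2, by omega⟩
  · subst hq
    have h1 : 2 * q / 2 = q := by omega
    have h2 : 2 * q - q = q := by omega
    rw [h1, h2]
    have h3 : 2 * q * (2 * q) = 4 * (q * q) := by ring
    rw [h3]
    omega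
  · subst hq
    have h1 : (2 * q + 1) / 2 = q := by omega
    have h2 : 2 * q + 1 - q = q + 1 := by omega
    rw [h1, h2]
    have h3 : (2 * q + 1) * (2 * q + 1) = 4 * (q * (q + 1)) + 1 := by ring
    rw [h3]
    omega

/-- `N - k ≥ n ^ 2 / 5`. -/
theorem sub_ge_fifth {n k : ℕ} (hn : 5 ≤ n) (hk : (k : ℝ) ≤ (n : ℝ) ^ 2 / 100) :
    (n : ℝ) ^ 2 / 5 ≤ ((n * n / 4 - k : ℕ) : ℝ) := by
  have h1 : n * n ≤ 4 * (n * n / 4) + 3 := by omega
  have h2 : (n : ℝ) ^ 2 ≤ 4 * ((n * n / 4 : ℕ) : ℝ) + 3 := by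
    have : ((n * n : ℕ) : ℝ) ≤ ((4 * (n * n / 4) + 3 : ℕ) : ℝ) := by exact_mod_cast h1
    push_cast at this
    rw [pow_two]
    exact_mod_cast this
  have h3 : (25 : ℝ) ≤ (n : ℝ) ^ 2 := by
    have : (5 : ℝ) ≤ n := by exact_mod_cast hn
    nlinarith
  have h4 : ((n * n / 4 : ℕ) : ℝ) - k ≤ ((n * n / 4 - k : ℕ) : ℝ) := by
    have : n * n / 4 ≤ (n * n / 4 - k) + k := by omega
    have : ((n * n / 4 : ℕ) : ℝ) ≤ ((n * n / 4 - k : ℕ) : ℝ) + k := by exact_mod_cast this
    linarith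
  linarith

/-- The shift inequality in real form. -/
theorem choose_shift_real {n k i : ℕ} (hn : 5 ≤ n) (hk : (k : ℝ) ≤ (n : ℝ) ^ 2 / 100)
    (hi : i ≤ k) :
    ((n * n / 4).choose (k - i) : ℝ) ≤ ((n * n / 4).choose k : ℝ) * (5 * k / (n : ℝ) ^ 2) ^ i := by
  have h1 := spa_choose_shift (n * n / 4) k i hi
  have h2 : ((n * n / 4).choose (k - i) : ℝ) * ((n * n / 4 - k : ℕ) : ℝ) ^ i ≤
      ((n * n / 4).choose k : ℝ) * (k : ℝ) ^ i := by exact_mod_cast h1
  have h3 := sub_ge_fifth hn hk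
  have hn0 : (0 : ℝ) < (n : ℝ) ^ 2 := by
    have : (0 : ℝ) < n := by exact_mod_cast (by omega : 0 < n)
    positivity
  have h4 : ((n : ℝ) ^ 2 / 5) ^ i ≤ ((n * n / 4 - k : ℕ) : ℝ) ^ i :=
    pow_le_pow_left₀ (by positivity) h3 i
  have h5 : ((n * n / 4).choose (k - i) : ℝ) * ((n : ℝ) ^ 2 / 5) ^ i ≤
      ((n * n / 4).choose k : ℝ) * (k : ℝ) ^ i :=
    (mul_le_mul_of_nonneg_left h4 (by positivity)).trans h2
  have h6 : (5 * (k : ℝ) / (n : ℝ) ^ 2) ^ i = (k : ℝ) ^ i / ((n : ℝ) ^ 2 / 5) ^ i := by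
    rw [← div_pow]
    congr 1
    field_simp
  rw [h6, mul_div_assoc', le_div_iff₀ (by positivity)]
  exact h5

theorem choose_pow_le_exp {M j : ℕ} {ρ x : ℝ} (hρ : 0 ≤ ρ) (h : M * ρ ≤ x) :
    (M.choose j : ℝ) * ρ ^ j ≤ Real.exp x := by
  have h1 : (M.choose j : ℝ) ≤ (M : ℝ) ^ j / (j.factorial : ℝ) := Nat.choose_le_pow_div j M
  calc (M.choose j : ℝ) * ρ ^ j ≤ (M : ℝ) ^ j / (j.factorial : ℝ) * ρ ^ j :=
        mul_le_mul_of_nonneg_right h1 (by positivity)
    _ = (M * ρ) ^ j / (j.factorial : ℝ) := by rw [mul_pow]; ring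
    _ ≤ Real.exp (M * ρ) := Real.pow_div_factorial_le_exp _ (by positivity) j
    _ ≤ Real.exp x := Real.exp_le_exp.2 h

/-- The bound for one fibre. -/
theorem fibre_real {n k k1 kb E : ℕ} (hn : 5 ≤ n) (hE : 0 < E)
    (hk : (k : ℝ) ≤ (Real.exp (78 * E))⁻¹ ^ 4 * (n : ℝ) ^ 2)
    (h1 : k < 3 * E * k1) (h2 : k1 + kb ≤ k) :
    ((n * n / 4).choose (k - k1 - kb) : ℝ) * ((3 * n * Nat.sqrt k).choose k1 : ℝ) *
      ((n * n).choose kb : ℝ) ≤ ((n * n / 4).choose k : ℝ) * Real.exp (-(20 * k)) := by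
  set lam : ℝ := Real.exp (78 * E) with hlam
  have hE1 : (1 : ℝ) ≤ E := by exact_mod_cast hE
  have hlam0 : 0 < lam := Real.exp_pos _
  have hlam15 : (15 : ℝ) ≤ lam := by
    have := Real.add_one_le_exp (78 * (E : ℝ))
    rw [← hlam] at this
    linarith
  have hn0 : (0 : ℝ) < n := by exact_mod_cast (by omega : 0 < n)
  have hk100 : (k : ℝ) ≤ (n : ℝ) ^ 2 / 100 := by
    refine hk.trans ?_
    rw [div_eq_inv_mul]
    refine mul_le_mul_of_nonneg_right ?_ (by positivity)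
    rw [inv_pow]
    refine inv_anti₀ (by norm_num) ?_
    calc (100 : ℝ) ≤ 15 ^ 4 := by norm_num
      _ ≤ lam ^ 4 := pow_le_pow_left₀ (by norm_num) hlam15 4
  have hs : (Nat.sqrt k : ℝ) ≤ n / lam ^ 2 := by
    have h3 : Nat.sqrt k * Nat.sqrt k ≤ k := Nat.sqrt_le k
    have h4 : (Nat.sqrt k : ℝ) * Nat.sqrt k ≤ k := by exact_mod_cast h3
    have h5 : (n / lam ^ 2) ^ 2 = lam⁻¹ ^ 4 * (n : ℝ) ^ 2 := by
      rw [div_pow, inv_pow, ← pow_mul]
      norm_num
      field_simp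
    by_contra hc
    rw [not_le] at hc
    have h6 : (n / lam ^ 2) ^ 2 < (Nat.sqrt k : ℝ) ^ 2 :=
      pow_lt_pow_left₀ hc (by positivity) (by norm_num)
    rw [h5] at h6
    nlinarith
  set ρ : ℝ := 5 * k / (n : ℝ) ^ 2 with hρ
  have hρ0 : 0 ≤ ρ := by positivity
  have e1 : ((n * n / 4).choose (k - k1 - kb) : ℝ) ≤
      ((n * n / 4).choose k : ℝ) * ρ ^ (k1 + kb) := by
    have := choose_shift_real (i := k1 + kb) hn hk100 h2
    rw [Nat.sub_sub]
    exact this
  have e2 : ((3 * n * Nat.sqrt k).choose k1 : ℝ) * (lam * ρ) ^ k1 ≤ Real.exp (1 * k) := by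
    refine choose_pow_le_exp (by positivity) ?_
    rw [hρ]
    push_cast
    have h7 : (3 * (n : ℝ) * Nat.sqrt k) * (lam * (5 * k / (n : ℝ) ^ 2)) =
        (15 * lam * Nat.sqrt k / n) * k := by
      field_simp
      ring
    rw [h7]
    refine mul_le_mul_of_nonneg_right ?_ (by positivity)
    rw [div_le_one hn0]
    calc 15 * lam * (Nat.sqrt k : ℝ) ≤ 15 * lam * (n / lam ^ 2) :=
          mul_le_mul_of_nonneg_left hs (by positivity)
      _ = 15 / lam * n := by field_simp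
      _ ≤ 1 * n := by
          refine mul_le_mul_of_nonneg_right ?_ hn0.le
          rw [div_le_one hlam0]
          exact hlam15
      _ = n := one_mul _
  have e3 : ((n * n).choose kb : ℝ) * ρ ^ kb ≤ Real.exp (5 * k) := by
    refine choose_pow_le_exp hρ0 ?_
    rw [hρ]
    push_cast
    apply le_of_eq
    field_simp
  have e4 : Real.exp (26 * k) ≤ lam ^ k1 := by
    rw [hlam, ← Real.exp_nat_mul]
    refine Real.exp_le_exp.2 ?_
    have h8 : (k : ℝ) ≤ 3 * E * k1 := by exact_mod_cast h1.le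
    nlinarith
  have hl : (1 : ℝ) ≤ Real.exp (-(26 * k)) * lam ^ k1 := by
    calc (1 : ℝ) = Real.exp (-(26 * k)) * Real.exp (26 * k) := by
          rw [← Real.exp_add]; simp
      _ ≤ Real.exp (-(26 * k)) * lam ^ k1 :=
          mul_le_mul_of_nonneg_left e4 (Real.exp_pos _).le
  calc ((n * n / 4).choose (k - k1 - kb) : ℝ) * ((3 * n * Nat.sqrt k).choose k1 : ℝ) *
        ((n * n).choose kb : ℝ)
      ≤ (((n * n / 4).choose k : ℝ) * ρ ^ (k1 + kb)) * ((3 * n * Nat.sqrt k).choose k1 : ℝ) *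
        ((n * n).choose kb : ℝ) := by gcongr
    _ = ((n * n / 4).choose k : ℝ) * (((3 * n * Nat.sqrt k).choose k1 : ℝ) * ρ ^ k1 * 1) *
        (((n * n).choose kb : ℝ) * ρ ^ kb) := by rw [pow_add]; ring
    _ ≤ ((n * n / 4).choose k : ℝ) * (((3 * n * Nat.sqrt k).choose k1 : ℝ) * ρ ^ k1 *
        (Real.exp (-(26 * k)) * lam ^ k1)) * (((n * n).choose kb : ℝ) * ρ ^ kb) := by
        gcongr
    _ = ((n * n / 4).choose k : ℝ) * (Real.exp (-(26 * k)) *
        (((3 * n * Nat.sqrt k).choose k1 : ℝ) * (lam * ρ) ^ k1)) *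
        (((n * n).choose kb : ℝ) * ρ ^ kb) := by rw [mul_pow]; ring
    _ ≤ ((n * n / 4).choose k : ℝ) * (Real.exp (-(26 * k)) * Real.exp (1 * k)) *
        Real.exp (5 * k) := by gcongr
    _ = ((n * n / 4).choose k : ℝ) * Real.exp (-(20 * k)) := by
        rw [mul_assoc, ← Real.exp_add, ← Real.exp_add]
        congr 2
        ring

open scoped Classical in
/-- **Step 1**: few sparse posets have many relations inside their parts. -/
theorem sp_step1 (E : ℕ) (hE : 0 < E) : ∃ d1 : ℝ, 0 < d1 ∧ ∃ n0 : ℕ, ∀ n ≥ n0, ∀ k : ℕ,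
    n ≤ 3 * k → (k : ℝ) ≤ d1 * (n : ℝ) ^ 2 →
    16 * ((PO n k).filter fun S => k < E * wS S).card ≤ (n * n / 4).choose k := by
  refine ⟨(Real.exp (78 * E))⁻¹ ^ 4, by positivity, 5, fun n hn k hnk hk => ?_⟩
  obtain ⟨s, hs⟩ : ∃ s, s = Nat.sqrt k := ⟨_, rfl⟩
  set F := (PO n k).filter fun S => k < E * wS S with hF
  set Dg : Finset (Fin n → ℕ) := (Fintype.piFinset fun _ : Fin n => range (k + 1)).filter
    fun d => ∑ v, d v = k with hDg
  set T : Finset ((Fin n → ℕ) × (Fin n → ℕ) × Finset (Fin n) × Finset (Fin n) × ℕ × ℕ) :=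
    Dg ×ˢ Dg ×ˢ univ ×ˢ univ ×ˢ range (k + 1) ×ˢ range (k + 1) with hT
  set g : Finset (Fin n × Fin n) →
      (Fin n → ℕ) × (Fin n → ℕ) × Finset (Fin n) × Finset (Fin n) × ℕ × ℕ :=
    fun S => (dp S, dm S, XbS s S, YbS s S, spK s S 1, spK s S 2) with hg
  have hdeg : ∀ d : Fin n → ℕ, ∑ v, d v = k → d ∈ Dg := by
    intro d hd
    rw [hDg, mem_filter, Fintype.mem_piFinset]
    refine ⟨fun v => ?_, hd⟩
    rw [mem_range, Nat.lt_succ_iff, ← hd]
    exact single_le_sum (f := fun v => d v) (fun _ _ => Nat.zero_le _) (mem_univ v)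
  have hmaps : ∀ S ∈ F, g S ∈ T := by
    intro S hS
    rw [hF, mem_filter] at hS
    have h0 := hS.1
    unfold PO at h0
    rw [mem_filter] at h0
    have h3 := spK_sum h0.2.1 s
    rw [h0.2.2] at h3
    rw [hT, hg]
    simp only [mem_product, mem_univ, true_and, mem_range]
    exact ⟨hdeg _ ((sum_dp S).trans h0.2.2), hdeg _ ((sum_dm S).trans h0.2.2), by omega, by omega⟩
  have hcard := card_eq_sum_card_fiberwise (f := g) (s := F) (t := T) hmaps
  have hfib : ∀ t ∈ T, ((F.filter fun S => g S = t).card : ℝ) ≤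
      ((n * n / 4).choose k : ℝ) * Real.exp (-(20 * k)) := by
    rintro ⟨a, b, Xb, Yb, k1, kb⟩ -
    rcases (F.filter fun S => g S = (a, b, Xb, Yb, k1, kb)).eq_empty_or_nonempty with h0 | ⟨S0, hS0⟩
    · rw [h0]
      simp only [card_empty, Nat.cast_zero]
      positivity
    have hdata : ∀ S ∈ F.filter fun S => g S = (a, b, Xb, Yb, k1, kb),
        S ∈ PO n k ∧ IsPO S ∧ S.card = k ∧ k < E * wS S ∧ dp S = a ∧ dm S = b ∧ XbS s S = Xb ∧
        YbS s S = Yb ∧ spK s S 1 = k1 ∧ spK s S 2 = kb := by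
      intro S hS
      rw [mem_filter, hF, mem_filter] at hS
      obtain ⟨⟨h1, h2⟩, h3⟩ := hS
      have h0 := h1
      unfold PO at h0
      rw [mem_filter] at h0
      rw [hg] at h3
      simp only [Prod.mk.injEq] at h3
      exact ⟨h1, h0.2.1, h0.2.2, h2, h3⟩
    obtain ⟨-, hPO, hk0, hw, -, -, -, -, hk1, hkb⟩ := hdata S0 hS0
    have hsum := spK_sum hPO s
    have hle := wS_le hPO s
    have htwo := spK_two_le hPO s
    rw [hk1, hkb] at hsum hle
    rw [hk1, hkb] at htwo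
    rw [hk0] at hsum
    have h12 : k1 + kb ≤ k := by omega
    have h3E : k < 3 * E * k1 := by
      calc k < E * wS S0 := hw
        _ ≤ E * (3 * k1) := Nat.mul_le_mul_left _ (by omega)
        _ = 3 * E * k1 := by ring
    have henc := spa_enc n k a b Xb Yb ![k - k1 - kb, k1, kb]
      (F.filter fun S => g S = (a, b, Xb, Yb, k1, kb)) (by
        intro S hS
        obtain ⟨h1, hPO', hk0', -, ha, hb, hX, hY, hk1', hkb'⟩ := hdata S hS
        have hsum' := spK_sum hPO' s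
        rw [hk1', hkb', hk0'] at hsum'
        subst hs
        subst ha hb hX hY
        refine ⟨h1, rfl, rfl, rfl, rfl, fun c => ?_⟩
        have hc : spK (Nat.sqrt k) S c = ![k - k1 - kb, k1, kb] c := by
          fin_cases c
          · simp only [Fin.zero_eta, Matrix.cons_val_zero]
            change spK (Nat.sqrt k) S 0 = _
            omega
          · simpa using hk1'
          · simpa using hkb'
        rw [← hc, spK])
    have henc' : ((F.filter fun S => g S = (a, b, Xb, Yb, k1, kb)).card : ℝ) ≤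
        ((n * n / 4).choose (k - k1 - kb) : ℝ) * ((3 * n * Nat.sqrt k).choose k1 : ℝ) *
        ((n * n).choose kb : ℝ) := by
      rw [half_mul_half] at henc
      have : (F.filter fun S => g S = (a, b, Xb, Yb, k1, kb)).card ≤
          (n * n / 4).choose (k - k1 - kb) * (3 * n * Nat.sqrt k).choose k1 *
          (n * n).choose kb := by simpa using henc
      exact_mod_cast this
    exact henc'.trans (fibre_real hn hE hk h3E h12)
  have hTcard : (T.card : ℝ) ≤ Real.exp (16 * k) := by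
    have h1 : T.card ≤ 2 ^ (16 * k) := by
      rw [hT]
      simp only [card_product, card_univ, Fintype.card_finset, Fintype.card_fin, card_range]
      have h2 : Dg.card ≤ 2 ^ (4 * k) :=
        (spa_card_deg n k).trans (Nat.pow_le_pow_right (by norm_num) (by omega))
      have h3 : 2 ^ n ≤ 2 ^ (3 * k) := Nat.pow_le_pow_right (by norm_num) hnk
      have h4 : k + 1 ≤ 2 ^ k := Nat.lt_two_pow_self
      calc Dg.card * (Dg.card * (2 ^ n * (2 ^ n * ((k + 1) * (k + 1)))))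
          ≤ 2 ^ (4 * k) * (2 ^ (4 * k) * (2 ^ (3 * k) * (2 ^ (3 * k) * (2 ^ k * 2 ^ k)))) := by
            gcongr
        _ = 2 ^ (16 * k) := by
            rw [← pow_add, ← pow_add, ← pow_add, ← pow_add, ← pow_add]
            congr 1
            ring
    calc (T.card : ℝ) ≤ 2 ^ (16 * k) := by exact_mod_cast h1
      _ ≤ (Real.exp 1) ^ (16 * k) := by
          refine pow_le_pow_left₀ (by norm_num) ?_ _
          have := Real.add_one_le_exp (1 : ℝ)
          linarith
      _ = Real.exp (16 * k) := by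
          rw [← Real.exp_nat_mul]
          push_cast
          ring_nf
  have hk1 : (1 : ℝ) ≤ k := by
    have : 1 ≤ k := by omega
    exact_mod_cast this
  have hfinal : (16 : ℝ) * F.card ≤ ((n * n / 4).choose k : ℝ) := by
    have h1 : (F.card : ℝ) ≤ T.card * (((n * n / 4).choose k : ℝ) * Real.exp (-(20 * k))) := by
      rw [hcard]
      push_cast
      calc ∑ t ∈ T, ((F.filter fun S => g S = t).card : ℝ)
          ≤ ∑ _t ∈ T, ((n * n / 4).choose k : ℝ) * Real.exp (-(20 * k)) := sum_le_sum hfib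
        _ = T.card * (((n * n / 4).choose k : ℝ) * Real.exp (-(20 * k))) := by
            rw [sum_const, nsmul_eq_mul]
    have h2 : (16 : ℝ) * Real.exp (-(4 * k)) ≤ 1 := by
      have h3 : (16 : ℝ) ≤ Real.exp (4 * k) := by
        have h4 : (2 : ℝ) ≤ Real.exp 1 := by
          have := Real.add_one_le_exp (1 : ℝ)
          linarith
        calc (16 : ℝ) = 2 ^ 4 := by norm_num
          _ ≤ (Real.exp 1) ^ 4 := pow_le_pow_left₀ (by norm_num) h4 4
          _ = Real.exp 4 := by rw [← Real.exp_nat_mul]; norm_num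
          _ ≤ Real.exp (4 * k) := Real.exp_le_exp.2 (by linarith)
      rw [Real.exp_neg]
      rw [← div_eq_mul_inv, div_le_one (Real.exp_pos _)]
      exact h3
    calc (16 : ℝ) * F.card
        ≤ 16 * (T.card * (((n * n / 4).choose k : ℝ) * Real.exp (-(20 * k)))) := by gcongr
      _ ≤ 16 * (Real.exp (16 * k) * (((n * n / 4).choose k : ℝ) * Real.exp (-(20 * k)))) := by
          gcongr
      _ = ((n * n / 4).choose k : ℝ) * (16 * (Real.exp (16 * k) * Real.exp (-(20 * k)))) := by ring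
      _ = ((n * n / 4).choose k : ℝ) * (16 * Real.exp (-(4 * k))) := by
          rw [← Real.exp_add]
          congr 3
          ring
      _ ≤ ((n * n / 4).choose k : ℝ) * 1 := by gcongr
      _ = ((n * n / 4).choose k : ℝ) := mul_one _
  exact_mod_cast hfinal

end Pool.Agent.H.MP_82502e_co
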