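import Pool.Agent.H.MP_82502e_co.Defs
import Pool.Agent.H.MP_82502e_co.Encode

set_option autoImplicit false

/-!
# Sparse posets with few inner relations: free positions
-/

namespace Pool.Agent.H.MP_82502e_co.Fr

open Finset

variable {n : ℕ}

theorem mem_Up {S : Finset (Fin n × Fin n)} {x z : Fin n} : z ∈ Up S x ↔ (x, z) ∈ S := by
  unfold Up
  rw [mem_filter]
  exact and_iff_right (mem_univ _)

theorem mem_Dn {S : Finset (Fin n × Fin n)} {x z : Fin n} : z ∈ Dn S x ↔ (z, x) ∈ S := by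
  unfold Dn
  rw [mem_filter]
  exact and_iff_right (mem_univ _)

theorem mem_PO' {k : ℕ} {S : Finset (Fin n × Fin n)} : S ∈ PO n k ↔ IsPO S ∧ S.card = k := by
  classical
  unfold PO
  rw [mem_filter]
  exact and_iff_right (mem_univ _)

theorem mul_sub_four {x m : ℕ} (h : x ≤ m) : x * (m - x) * 4 ≤ m * m := by
  obtain ⟨y, rfl⟩ := Nat.exists_eq_add_of_le h
  rw [Nat.add_sub_cancel_left]
  nlinarith [sq_nonneg ((x : ℤ) - y), Nat.mul_le_mul (le_refl x) (le_refl y),
    two_mul_le_add_sq x y]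

/-- The number of relations inside the lower part or inside the upper part. -/
def wS (S : Finset (Fin n × Fin n)) : ℕ :=
  (S.filter fun p => ((Dn S p.1).card ≤ (Up S p.1).card ↔
    (Dn S p.2).card ≤ (Up S p.2).card)).card

/-- The lower part. -/
def XS (S : Finset (Fin n × Fin n)) : Finset (Fin n) :=
  univ.filter fun v => (Dn S v).card ≤ (Up S v).card

theorem mem_XS {S : Finset (Fin n × Fin n)} {v : Fin n} :
    v ∈ XS S ↔ (Dn S v).card ≤ (Up S v).card := by
  unfold XS
  rw [mem_filter]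
  exact and_iff_right (mem_univ _)

theorem Up_lt {S : Finset (Fin n × Fin n)} (h : IsPO S) {u v : Fin n}
    (huv : (u, v) ∈ S) : (Up S v).card < (Up S u).card := by
  refine card_lt_card ?_
  rw [ssubset_iff_of_subset]
  · exact ⟨v, mem_Up.2 huv, fun hv => h.1 v (mem_Up.1 hv)⟩
  · intro z hz
    exact mem_Up.2 (h.2 _ _ _ huv (mem_Up.1 hz))

theorem Dn_lt {S : Finset (Fin n × Fin n)} (h : IsPO S) {u v : Fin n}
    (huv : (u, v) ∈ S) : (Dn S u).card < (Dn S v).card := by
  refine card_lt_card ?_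
  rw [ssubset_iff_of_subset]
  · exact ⟨u, mem_Dn.2 huv, fun hv => h.1 u (mem_Dn.1 hv)⟩
  · intro z hz
    exact mem_Dn.2 (h.2 _ _ _ (mem_Dn.1 hz) huv)

theorem XS_of {S : Finset (Fin n × Fin n)} (h : IsPO S) {u v : Fin n}
    (huv : (u, v) ∈ S) (hv : v ∈ XS S) : u ∈ XS S := by
  rw [mem_XS] at *
  have h1 := Up_lt h huv
  have h2 := Dn_lt h huv
  omega

/-- The relations which do not go from `A` to its complement. -/
def inn (A : Finset (Fin n)) (S : Finset (Fin n × Fin n)) : Finset (Fin n × Fin n) :=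
  S.filter fun p => ¬ (p.1 ∈ A ∧ p.2 ∉ A)

/-- The relations from `A` to its complement. -/
def cro (A : Finset (Fin n)) (S : Finset (Fin n × Fin n)) : Finset (Fin n × Fin n) :=
  S.filter fun p => p.1 ∈ A ∧ p.2 ∉ A

theorem mem_inn {A : Finset (Fin n)} {S : Finset (Fin n × Fin n)} {p : Fin n × Fin n} :
    p ∈ inn A S ↔ p ∈ S ∧ ¬ (p.1 ∈ A ∧ p.2 ∉ A) := by
  unfold inn
  rw [mem_filter]

theorem card_inn_add (A : Finset (Fin n)) (S : Finset (Fin n × Fin n)) :
    (cro A S).card + (inn A S).card = S.card := by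
  unfold cro inn
  exact card_filter_add_card_filter_not (s := S) (fun p => p.1 ∈ A ∧ p.2 ∉ A)

theorem card_inn_XS {S : Finset (Fin n × Fin n)} (h : IsPO S) :
    (inn (XS S) S).card = wS S := by
  unfold inn wS
  congr 1
  refine filter_congr fun p hp => ?_
  have h1 := XS_of h (u := p.1) (v := p.2) hp
  rw [mem_XS, mem_XS] at *
  tauto

/-- `(a, b)` is not forced to be absent from below. -/
def free1 (A : Finset (Fin n)) (S : Finset (Fin n × Fin n)) (e : Fin n × Fin n) : Prop :=
  (e.1 ∈ A ∧ e.2 ∉ A) ∧ ∀ z, (z, e.1) ∈ S → (z, e.2) ∈ S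

/-- `(a, b)` is not forced to be absent from above. -/
def free2 (A : Finset (Fin n)) (S : Finset (Fin n × Fin n)) (e : Fin n × Fin n) : Prop :=
  (e.1 ∈ A ∧ e.2 ∉ A) ∧ ∀ z, (e.2, z) ∈ S → (e.1, z) ∈ S

instance (A : Finset (Fin n)) (S : Finset (Fin n × Fin n)) : DecidablePred (free1 A S) :=
  fun e => by unfold free1; infer_instance

instance (A : Finset (Fin n)) (S : Finset (Fin n × Fin n)) : DecidablePred (free2 A S) :=
  fun e => by unfold free2; infer_instance

/-- The free positions (from below). -/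
def fr1 (A : Finset (Fin n)) (S : Finset (Fin n × Fin n)) : Finset (Fin n × Fin n) :=
  univ.filter fun e => free1 A S e

/-- The free positions (from above). -/
def fr2 (A : Finset (Fin n)) (S : Finset (Fin n × Fin n)) : Finset (Fin n × Fin n) :=
  univ.filter fun e => free2 A S e

open scoped Classical in
theorem card_fam1 (A : Finset (Fin n)) (W : Finset (Fin n × Fin n)) (N' K : ℕ) :
    (univ.filter fun S : Finset (Fin n × Fin n) => (IsPO S ∧ ∀ p ∈ S, p.2 ∈ A → p.1 ∈ A) ∧
      inn A S = W ∧ (cro A S).card = K ∧ (fr1 A S).card ≤ N').card ≤ N'.choose K := by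
  refine encode_free (fun e => (Dn W e.1).card) _ (fun S e => free1 A S e) ?_ N' K ?_ ?_
  · intro P hP Q hQ e hag
    rw [mem_filter] at hP hQ
    obtain ⟨-, ⟨hPpo, hPd⟩, hPW, -, -⟩ := hP
    obtain ⟨-, ⟨hQpo, hQd⟩, hQW, -, -⟩ := hQ
    have hin : ∀ p : Fin n × Fin n, ¬ (p.1 ∈ A ∧ p.2 ∉ A) → (p ∈ P ↔ p ∈ Q) := by
      intro p hp
      have h1 : p ∈ P ↔ p ∈ inn A P := by
        rw [mem_inn]
        exact ⟨fun h => ⟨h, hp⟩, fun h => h.1⟩
      have h2 : p ∈ Q ↔ p ∈ inn A Q := by
        rw [mem_inn]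
        exact ⟨fun h => ⟨h, hp⟩, fun h => h.1⟩
      rw [h1, h2, hPW, hQW]
    have hDn : ∀ a ∈ A, Dn P a = Dn W a := by
      intro a ha
      ext z
      rw [mem_Dn, mem_Dn, ← hPW, mem_inn]
      exact ⟨fun h => ⟨h, fun h2 => h2.2 ha⟩, fun h => h.1⟩
    have hfree : free1 A P e ↔ free1 A Q e := by
      unfold free1
      refine and_congr_right fun he => ?_
      have hz : ∀ z, (z, e.1) ∈ P → ((z, e.2) ∈ P ↔ (z, e.2) ∈ Q) := by
        intro z hz
        have hzA : z ∈ A := hPd _ hz he.1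
        refine hag _ ?_
        simp only
        rw [← hDn z hzA, ← hDn _ he.1]
        exact Dn_lt hPpo hz
      have hz1 : ∀ z, ((z, e.1) ∈ P ↔ (z, e.1) ∈ Q) := fun z =>
        hin _ fun h2 => h2.2 he.1
      constructor
      · intro h z hzQ
        have hzP := (hz1 z).2 hzQ
        exact (hz z hzP).1 (h z hzP)
      · intro h z hzP
        exact (hz z hzP).2 (h z ((hz1 z).1 hzP))
    refine ⟨hfree, fun hnf => ?_⟩
    by_cases hc : e.1 ∈ A ∧ e.2 ∉ A
    · have h1 : ∀ S : Finset (Fin n × Fin n), IsPO S → ¬ free1 A S e → e ∉ S := by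
        intro S hS hf heS
        exact hf ⟨hc, fun z hz => hS.2 _ _ _ hz heS⟩
      exact iff_of_false (h1 P hPpo hnf) (h1 Q hQpo fun h => hnf (hfree.2 h))
    · exact hin e hc
  · intro P hP
    rw [mem_filter] at hP
    exact hP.2.2.2.2
  · intro P hP
    rw [mem_filter] at hP
    obtain ⟨-, ⟨hPpo, hPd⟩, hPW, hPK, -⟩ := hP
    rw [← hPK]
    unfold cro
    congr 1
    refine filter_congr fun p hp => ?_
    exact ⟨fun h => h.1, fun h => ⟨h, fun z hz => hPpo.2 _ _ _ hz hp⟩⟩

open scoped Classical in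
theorem card_fam2 (A : Finset (Fin n)) (W : Finset (Fin n × Fin n)) (N' K : ℕ) :
    (univ.filter fun S : Finset (Fin n × Fin n) => (IsPO S ∧ ∀ p ∈ S, p.2 ∈ A → p.1 ∈ A) ∧
      inn A S = W ∧ (cro A S).card = K ∧ (fr2 A S).card ≤ N').card ≤ N'.choose K := by
  refine encode_free (fun e => (Up W e.2).card) _ (fun S e => free2 A S e) ?_ N' K ?_ ?_
  · intro P hP Q hQ e hag
    rw [mem_filter] at hP hQ
    obtain ⟨-, ⟨hPpo, hPd⟩, hPW, -, -⟩ := hP
    obtain ⟨-, ⟨hQpo, hQd⟩, hQW, -, -⟩ := hQ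
    have hin : ∀ p : Fin n × Fin n, ¬ (p.1 ∈ A ∧ p.2 ∉ A) → (p ∈ P ↔ p ∈ Q) := by
      intro p hp
      have h1 : p ∈ P ↔ p ∈ inn A P := by
        rw [mem_inn]
        exact ⟨fun h => ⟨h, hp⟩, fun h => h.1⟩
      have h2 : p ∈ Q ↔ p ∈ inn A Q := by
        rw [mem_inn]
        exact ⟨fun h => ⟨h, hp⟩, fun h => h.1⟩
      rw [h1, h2, hPW, hQW]
    have hUp : ∀ a, a ∉ A → Up P a = Up W a := by
      intro a ha
      ext z
      rw [mem_Up, mem_Up, ← hPW, mem_inn]
      exact ⟨fun h => ⟨h, fun h2 => ha h2.1⟩, fun h => h.1⟩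
    have hfree : free2 A P e ↔ free2 A Q e := by
      unfold free2
      refine and_congr_right fun he => ?_
      have hz : ∀ z, (e.2, z) ∈ P → ((e.1, z) ∈ P ↔ (e.1, z) ∈ Q) := by
        intro z hz
        have hzA : z ∉ A := fun h => he.2 (hPd _ hz h)
        refine hag _ ?_
        simp only
        rw [← hUp z hzA, ← hUp _ he.2]
        exact Up_lt hPpo hz
      have hz1 : ∀ z, ((e.2, z) ∈ P ↔ (e.2, z) ∈ Q) := fun z =>
        hin _ fun h2 => he.2 h2.1
      constructor
      · intro h z hzQ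
        have hzP := (hz1 z).2 hzQ
        exact (hz z hzP).1 (h z hzP)
      · intro h z hzP
        exact (hz z hzP).2 (h z ((hz1 z).1 hzP))
    refine ⟨hfree, fun hnf => ?_⟩
    by_cases hc : e.1 ∈ A ∧ e.2 ∉ A
    · have h1 : ∀ S : Finset (Fin n × Fin n), IsPO S → ¬ free2 A S e → e ∉ S := by
        intro S hS hf heS
        exact hf ⟨hc, fun z hz => hS.2 _ _ _ heS hz⟩
      exact iff_of_false (h1 P hPpo hnf) (h1 Q hQpo fun h => hnf (hfree.2 h))
    · exact hin e hc
  · intro P hP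
    rw [mem_filter] at hP
    exact hP.2.2.2.2
  · intro P hP
    rw [mem_filter] at hP
    obtain ⟨-, ⟨hPpo, hPd⟩, hPW, hPK, -⟩ := hP
    rw [← hPK]
    unfold cro
    congr 1
    refine filter_congr fun p hp => ?_
    exact ⟨fun h => h.1, fun h => ⟨h, fun z hz => hPpo.2 _ _ _ hp hz⟩⟩

/-- The union bound for a family of posets with given lower part and inner relations. -/
theorem card_ev (k w N' : ℕ) (fr : Finset (Fin n) → Finset (Fin n × Fin n) → Finset (Fin n × Fin n))
    (hfam : ∀ (A : Finset (Fin n)) (W : Finset (Fin n × Fin n)) (K : ℕ)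
      (F : Finset (Finset (Fin n × Fin n))),
      (∀ S ∈ F, (IsPO S ∧ ∀ p ∈ S, p.2 ∈ A → p.1 ∈ A) ∧
      inn A S = W ∧ (cro A S).card = K ∧ (fr A S).card ≤ N') → F.card ≤ N'.choose K) :
    ((PO n k).filter fun S => wS S ≤ w ∧ (fr (XS S) S).card ≤ N').card ≤
      2 ^ n * ∑ v ∈ range (w + 1), (n * n).choose v * N'.choose (k - v) := by
  classical
  set s := (PO n k).filter fun S => wS S ≤ w ∧ (fr (XS S) S).card ≤ N' with hs
  have hmaps : ∀ S ∈ s, (XS S, wS S) ∈ (univ : Finset (Finset (Fin n))) ×ˢ range (w + 1) := by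
    intro S hS
    rw [hs, mem_filter] at hS
    rw [mem_product, mem_range]
    exact ⟨mem_univ _, Nat.lt_succ_of_le hS.2.1⟩
  rw [card_eq_sum_card_fiberwise hmaps]
  have hfib : ∀ t ∈ (univ : Finset (Finset (Fin n))) ×ˢ range (w + 1),
      (s.filter fun S => (XS S, wS S) = t).card ≤ (n * n).choose t.2 * N'.choose (k - t.2) := by
    rintro ⟨A, v⟩ _
    have hmaps2 : ∀ S ∈ s.filter (fun S => (XS S, wS S) = (A, v)),
        inn A S ∈ powersetCard v (univ : Finset (Fin n × Fin n)) := by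
      intro S hS
      rw [mem_filter, hs, mem_filter, mem_PO'] at hS
      obtain ⟨⟨⟨h1, h2⟩, h3⟩, h4⟩ := hS
      obtain ⟨h5, h6⟩ := Prod.mk.inj h4
      rw [mem_powersetCard]
      refine ⟨subset_univ _, ?_⟩
      rw [← h5, card_inn_XS h1]
      exact h6
    rw [card_eq_sum_card_fiberwise hmaps2]
    have hfib2 : ∀ W ∈ powersetCard v (univ : Finset (Fin n × Fin n)),
        ((s.filter fun S => (XS S, wS S) = (A, v)).filter fun S => inn A S = W).card ≤
          N'.choose (k - v) := by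
      intro W hW
      refine hfam A W (k - v) _ fun S hS => ?_
      rw [mem_filter, mem_filter, hs, mem_filter, mem_PO'] at hS
      obtain ⟨⟨⟨⟨h1, h2⟩, h3⟩, h4⟩, h7⟩ := hS
      obtain ⟨h5, h6⟩ := Prod.mk.inj h4
      refine ⟨⟨h1, ?_⟩, h7, ?_, ?_⟩
      · rw [← h5]
        intro p hp hp2
        exact XS_of h1 hp hp2
      · have h8 := card_inn_add A S
        have h9 := card_inn_XS h1
        rw [h5] at h9
        omega
      · rw [← h5]
        exact h3.2
    refine (sum_le_sum hfib2).trans (le_of_eq ?_)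
    rw [sum_const, card_powersetCard, card_univ, Fintype.card_prod, Fintype.card_fin, smul_eq_mul]
  refine (sum_le_sum hfib).trans (le_of_eq ?_)
  rw [sum_product]
  simp only [sum_const, card_univ, Fintype.card_finset, Fintype.card_fin, smul_eq_mul]

theorem card_ev1 (k w N' : ℕ) :
    ((PO n k).filter fun S => wS S ≤ w ∧ (fr1 (XS S) S).card ≤ N').card ≤
      2 ^ n * ∑ v ∈ range (w + 1), (n * n).choose v * N'.choose (k - v) := by
  classical
  refine card_ev k w N' fr1 fun A W K F hF => ?_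
  refine le_trans (card_le_card ?_) (card_fam1 A W N' K)
  intro S hS
  rw [mem_filter]
  exact ⟨mem_univ _, hF S hS⟩

theorem card_ev2 (k w N' : ℕ) :
    ((PO n k).filter fun S => wS S ≤ w ∧ (fr2 (XS S) S).card ≤ N').card ≤
      2 ^ n * ∑ v ∈ range (w + 1), (n * n).choose v * N'.choose (k - v) := by
  classical
  refine card_ev k w N' fr2 fun A W K F hF => ?_
  refine le_trans (card_le_card ?_) (card_fam2 A W N' K)
  intro S hS
  rw [mem_filter]
  exact ⟨mem_univ _, hF S hS⟩

/-- Many free positions give many addable pairs. -/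
theorem card_Add_ge {S : Finset (Fin n × Fin n)} (h : IsPO S) :
    (fr1 (XS S) S).card + (fr2 (XS S) S).card ≤ (Add S).card + S.card + n * n / 4 := by
  set A := XS S with hA
  have h1 : fr1 A S ∪ fr2 A S ⊆ A ×ˢ Aᶜ := by
    intro e he
    rw [mem_product, mem_compl]
    rw [mem_union] at he
    unfold fr1 fr2 at he
    rw [mem_filter, mem_filter] at he
    rcases he with he | he
    · exact he.2.1
    · exact he.2.1
  have h2 : (fr1 A S ∪ fr2 A S).card ≤ n * n / 4 := by
    refine (card_le_card h1).trans ?_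
    rw [card_product, card_compl, Fintype.card_fin, Nat.le_div_iff_mul_le (by norm_num)]
    exact mul_sub_four (by simpa using card_le_univ A)
  have h3 : fr1 A S ∩ fr2 A S ⊆ Add S ∪ S := by
    intro e he
    rw [mem_inter] at he
    unfold fr1 fr2 at he
    rw [mem_filter, mem_filter] at he
    obtain ⟨⟨-, ⟨ha, hb⟩, hd⟩, -, -, hu⟩ := he
    rw [mem_union]
    by_cases heS : e ∈ S
    · exact Or.inr heS
    · left
      unfold Add
      rw [mem_filter]
      refine ⟨mem_univ _, ?_, heS, ?_, ?_, ?_⟩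
      · intro heq
        rw [heq] at ha
        exact hb ha
      · intro hS
        exact hb (XS_of h hS ha)
      · intro z hz
        exact mem_Dn.2 (hd z (mem_Dn.1 hz))
      · intro z hz
        exact mem_Up.2 (hu z (mem_Up.1 hz))
  have h4 := card_union_add_card_inter (fr1 A S) (fr2 A S)
  have h5 := (card_le_card h3).trans (card_union_le _ _)
  omega

end Pool.Agent.H.MP_82502e_co.Fr
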