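import Pool.Agent.H.MP_82502e_co.Defs

set_option autoImplicit false

/-!
# Sparse posets: numerical estimates
-/

namespace Pool.Agent.H.MP_82502e_co.Fr

open Finset

theorem choose_scale {N' N : ℕ} (h : 4 * N' ≤ 3 * N) (j : ℕ) :
    4 ^ j * N'.choose j ≤ 3 ^ j * N.choose j := by
  have h1 : ∀ j : ℕ, 4 ^ j * N'.descFactorial j ≤ 3 ^ j * N.descFactorial j := by
    intro j
    induction j with
    | zero => simp
    | succ j ih =>
      rw [Nat.descFactorial_succ, Nat.descFactorial_succ, pow_succ, pow_succ]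
      have h2 : 4 * (N' - j) ≤ 3 * (N - j) := by omega
      calc 4 ^ j * 4 * ((N' - j) * N'.descFactorial j)
          = (4 * (N' - j)) * (4 ^ j * N'.descFactorial j) := by ring
        _ ≤ (3 * (N - j)) * (3 ^ j * N.descFactorial j) := Nat.mul_le_mul h2 ih
        _ = 3 ^ j * 3 * ((N - j) * N.descFactorial j) := by ring
  have h2 := h1 j
  rw [Nat.descFactorial_eq_factorial_mul_choose, Nat.descFactorial_eq_factorial_mul_choose] at h2
  refine Nat.le_of_mul_le_mul_left ?_ (Nat.factorial_pos j)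
  calc j.factorial * (4 ^ j * N'.choose j) = 4 ^ j * (j.factorial * N'.choose j) := by ring
    _ ≤ 3 ^ j * (j.factorial * N.choose j) := h2
    _ = j.factorial * (3 ^ j * N.choose j) := by ring

theorem choose_shift' {N k : ℕ} (v : ℕ) (hv : v ≤ k) :
    N.choose (k - v) * (N - k) ^ v ≤ k ^ v * N.choose k := by
  induction v with
  | zero => simp
  | succ v ih =>
    have h1 := ih (by omega)
    have h2 := Nat.choose_succ_right_eq N (k - (v + 1))
    have h3 : k - (v + 1) + 1 = k - v := by omega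
    rw [h3] at h2
    have h4 : N.choose (k - (v + 1)) * (N - k) ≤ k * N.choose (k - v) := by
      calc N.choose (k - (v + 1)) * (N - k) ≤ N.choose (k - (v + 1)) * (N - (k - (v + 1))) :=
            Nat.mul_le_mul_left _ (by omega)
        _ = N.choose (k - v) * (k - v) := h2.symm
        _ ≤ N.choose (k - v) * k := Nat.mul_le_mul_left _ (by omega)
        _ = k * N.choose (k - v) := by ring
    calc N.choose (k - (v + 1)) * (N - k) ^ (v + 1)
        = (N.choose (k - (v + 1)) * (N - k)) * (N - k) ^ v := by ring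
      _ ≤ (k * N.choose (k - v)) * (N - k) ^ v := Nat.mul_le_mul_right _ h4
      _ = k * (N.choose (k - v) * (N - k) ^ v) := by ring
      _ ≤ k * (k ^ v * N.choose k) := Nat.mul_le_mul_left _ h1
      _ = k ^ (v + 1) * N.choose k := by ring

theorem ev_small : ∃ k0 : ℕ, ∀ k ≥ k0, 16 * ((k : ℝ) + 1) * (21 / 25) ^ k ≤ 1 := by
  have h1 := tendsto_self_mul_const_pow_of_lt_one (r := 21 / 25) (by norm_num) (by norm_num)
  have h2 := tendsto_pow_atTop_nhds_zero_of_lt_one (r := (21 / 25 : ℝ)) (by norm_num) (by norm_num)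
  have h3 := (h1.add h2).const_mul 16
  rw [add_zero, mul_zero] at h3
  have h4 := h3.eventually (gt_mem_nhds (zero_lt_one' ℝ))
  obtain ⟨k0, hk0⟩ := Filter.eventually_atTop.1 h4
  refine ⟨k0, fun k hk => ?_⟩
  have h5 := hk0 k hk
  nlinarith

/-- One term. -/
theorem term_le {n k v : ℕ} (hn : 5 ≤ n) (hk : 100 * k ≤ n * n) (hv : 150 * v ≤ k) :
    (((n * n).choose v * (3 * (n * n / 4) / 4).choose (k - v) : ℕ) : ℝ) ≤
      (3 / 4 * (21 / 20) * (101 / 100)) ^ k * ((n * n / 4).choose k : ℕ) := by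
  set N := n * n / 4 with hN
  set N' := 3 * N / 4 with hN'
  have hvk : v ≤ k := by omega
  have hNn : n * n ≤ 5 * (N - k) := by
    have h1 : n * n < 4 * (N + 1) := by omega
    have h2 : 25 ≤ n * n := by nlinarith
    omega
  have hkN : k < N := by
    have h2 : 25 ≤ n * n := by nlinarith
    omega
  have h1 : (4 : ℝ) ^ (k - v) * (N'.choose (k - v) : ℕ) ≤ 3 ^ (k - v) * (N.choose (k - v) : ℕ) := by
    exact_mod_cast choose_scale (N' := N') (N := N) (by omega) (k - v)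
  have h2 : ((N.choose (k - v) : ℕ) : ℝ) * ((N - k : ℕ) : ℝ) ^ v ≤
      (k : ℝ) ^ v * (N.choose k : ℕ) := by
    exact_mod_cast choose_shift' (N := N) v hvk
  have h3 : (((n * n).choose v : ℕ) : ℝ) ≤ ((n * n : ℕ) : ℝ) ^ v / (v.factorial : ℕ) :=
    Nat.choose_le_pow_div v (n * n)
  have hD : (0 : ℝ) < ((N - k : ℕ) : ℝ) := by
    have : 0 < N - k := by omega
    exact_mod_cast this
  have hC : (0 : ℝ) ≤ ((N.choose k : ℕ) : ℝ) := Nat.cast_nonneg _
  have hnn : ((n * n : ℕ) : ℝ) ≤ 5 * ((N - k : ℕ) : ℝ) := by exact_mod_cast hNn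
  have h4 : ((N'.choose (k - v) : ℕ) : ℝ) ≤ (3 / 4) ^ (k - v) * (N.choose (k - v) : ℕ) := by
    rw [div_pow, div_mul_eq_mul_div, le_div_iff₀ (by positivity)]
    linarith
  have h5 : ((N.choose (k - v) : ℕ) : ℝ) ≤ ((k : ℝ) / ((N - k : ℕ) : ℝ)) ^ v * (N.choose k : ℕ) := by
    rw [div_pow, div_mul_eq_mul_div, le_div_iff₀ (by positivity)]
    exact h2
  have hk0 : (0 : ℝ) ≤ (k : ℝ) := Nat.cast_nonneg _
  -- the main chain
  have h6 : (((n * n).choose v : ℕ) : ℝ) * ((k : ℝ) / ((N - k : ℕ) : ℝ)) ^ v ≤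
      (5 * (k : ℝ)) ^ v / (v.factorial : ℕ) := by
    calc (((n * n).choose v : ℕ) : ℝ) * ((k : ℝ) / ((N - k : ℕ) : ℝ)) ^ v
        ≤ (((n * n : ℕ) : ℝ) ^ v / (v.factorial : ℕ)) * ((k : ℝ) / ((N - k : ℕ) : ℝ)) ^ v := by
          gcongr
      _ = (((n * n : ℕ) : ℝ) * ((k : ℝ) / ((N - k : ℕ) : ℝ))) ^ v / (v.factorial : ℕ) := by
          rw [mul_pow]
          ring
      _ ≤ (5 * (k : ℝ)) ^ v / (v.factorial : ℕ) := by
          have h61 : ((n * n : ℕ) : ℝ) * ((k : ℝ) / ((N - k : ℕ) : ℝ)) ≤ 5 * (k : ℝ) := by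
            rw [mul_div_assoc', div_le_iff₀ hD]
            calc ((n * n : ℕ) : ℝ) * (k : ℝ) ≤ (5 * ((N - k : ℕ) : ℝ)) * (k : ℝ) := by gcongr
              _ = 5 * (k : ℝ) * ((N - k : ℕ) : ℝ) := by ring
          exact div_le_div_of_nonneg_right (pow_le_pow_left₀ (by positivity) h61 v)
            (Nat.cast_nonneg _)
  have h7 : (5 * (k : ℝ)) ^ v / (v.factorial : ℕ) * (4 / 3) ^ v ≤
      1000 ^ v * Real.exp ((k : ℝ) / 150) := by
    have h8 := Real.pow_div_factorial_le_exp ((k : ℝ) / 150) (by positivity) v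
    calc (5 * (k : ℝ)) ^ v / (v.factorial : ℕ) * (4 / 3) ^ v
        = 1000 ^ v * (((k : ℝ) / 150) ^ v / (v.factorial : ℕ)) := by
          have e1 : (5 * (k : ℝ)) ^ v * (4 / 3) ^ v = 1000 ^ v * ((k : ℝ) / 150) ^ v := by
            rw [← mul_pow, ← mul_pow]
            congr 1
            ring
          rw [div_mul_eq_mul_div, e1, mul_div_assoc]
      _ ≤ 1000 ^ v * Real.exp ((k : ℝ) / 150) := by gcongr
  have h9 : (1000 : ℝ) ^ v ≤ (21 / 20) ^ k := by
    calc (1000 : ℝ) ^ v ≤ ((21 / 20) ^ 150) ^ v := by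
          gcongr
          norm_num
      _ = (21 / 20) ^ (150 * v) := by rw [pow_mul]
      _ ≤ (21 / 20) ^ k := pow_le_pow_right₀ (by norm_num) hv
  have h10 : Real.exp ((k : ℝ) / 150) ≤ (101 / 100) ^ k := by
    have h11 : Real.exp (1 / 150) ≤ 101 / 100 := by
      refine (Real.exp_bound_div_one_sub_of_interval (by norm_num) (by norm_num)).trans ?_
      norm_num
    calc Real.exp ((k : ℝ) / 150) = Real.exp (1 / 150) ^ k := by
          rw [← Real.exp_nat_mul]
          congr 1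
          ring
      _ ≤ (101 / 100) ^ k := by gcongr
  have h12 : ((3 : ℝ) / 4) ^ (k - v) = (3 / 4) ^ k * (4 / 3) ^ v := by
    have : (3 / 4 : ℝ) ^ k = (3 / 4) ^ (k - v) * (3 / 4) ^ v := by
      rw [← pow_add]
      congr 1
      omega
    rw [this, mul_assoc, ← mul_pow]
    norm_num
  push_cast
  have h0 : (0 : ℝ) ≤ (((n * n).choose v : ℕ) : ℝ) := Nat.cast_nonneg _
  calc (((n * n).choose v : ℕ) : ℝ) * ((N'.choose (k - v) : ℕ) : ℝ)
      ≤ (((n * n).choose v : ℕ) : ℝ) *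
        ((3 / 4) ^ (k - v) * (((k : ℝ) / ((N - k : ℕ) : ℝ)) ^ v * (N.choose k : ℕ))) := by
        refine mul_le_mul_of_nonneg_left (h4.trans ?_) h0
        gcongr
    _ = ((((n * n).choose v : ℕ) : ℝ) * ((k : ℝ) / ((N - k : ℕ) : ℝ)) ^ v) * (4 / 3) ^ v *
        (3 / 4) ^ k * (N.choose k : ℕ) := by
        rw [h12]
        ring
    _ ≤ ((5 * (k : ℝ)) ^ v / (v.factorial : ℕ)) * (4 / 3) ^ v *
        (3 / 4) ^ k * (N.choose k : ℕ) := by gcongr
    _ ≤ (1000 ^ v * Real.exp ((k : ℝ) / 150)) * (3 / 4) ^ k * (N.choose k : ℕ) := by gcongr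
    _ ≤ ((21 / 20) ^ k * (101 / 100) ^ k) * (3 / 4) ^ k * (N.choose k : ℕ) := by gcongr
    _ = (3 / 4 * (21 / 20) * (101 / 100)) ^ k * (N.choose k : ℕ) := by
        rw [← mul_pow, ← mul_pow]
        congr 2
        ring

/-- **The numerical estimate of STEP 2a.** -/
theorem sp_num : ∃ n0 : ℕ, ∀ n ≥ n0, ∀ k : ℕ, 15 * n ≤ k → 100 * k ≤ n * n →
    16 * (2 ^ n * ∑ v ∈ range (k / 150 + 1),
      (n * n).choose v * (3 * (n * n / 4) / 4).choose (k - v)) ≤ (n * n / 4).choose k := by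
  obtain ⟨k0, hk0⟩ := ev_small
  refine ⟨max 5 k0, fun n hn k hk1 hk2 => ?_⟩
  have hn5 : 5 ≤ n := le_trans (le_max_left _ _) hn
  have hkk : k0 ≤ k := by
    have := le_trans (le_max_right 5 k0) hn
    omega
  have hsum : ((∑ v ∈ range (k / 150 + 1),
      (n * n).choose v * (3 * (n * n / 4) / 4).choose (k - v) : ℕ) : ℝ) ≤
      ((k : ℝ) + 1) * ((3 / 4 * (21 / 20) * (101 / 100)) ^ k * ((n * n / 4).choose k : ℕ)) := by
    rw [Nat.cast_sum]
    calc ∑ v ∈ range (k / 150 + 1),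
          (((n * n).choose v * (3 * (n * n / 4) / 4).choose (k - v) : ℕ) : ℝ)
        ≤ ∑ v ∈ range (k / 150 + 1),
          ((3 / 4 * (21 / 20) * (101 / 100)) ^ k * ((n * n / 4).choose k : ℕ) : ℝ) := by
          refine sum_le_sum fun v hv => term_le hn5 hk2 ?_
          rw [mem_range] at hv
          omega
      _ = ((k / 150 + 1 : ℕ) : ℝ) *
          ((3 / 4 * (21 / 20) * (101 / 100)) ^ k * ((n * n / 4).choose k : ℕ)) := by
          rw [sum_const, card_range, nsmul_eq_mul]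
      _ ≤ ((k : ℝ) + 1) *
          ((3 / 4 * (21 / 20) * (101 / 100)) ^ k * ((n * n / 4).choose k : ℕ)) := by
          refine mul_le_mul_of_nonneg_right ?_ (by positivity)
          have : k / 150 + 1 ≤ k + 1 := by omega
          exact_mod_cast this
  have h2n : (2 : ℝ) ^ n ≤ (21 / 20) ^ k := by
    calc (2 : ℝ) ^ n ≤ ((21 / 20) ^ 15) ^ n := by
          gcongr
          norm_num
      _ = (21 / 20) ^ (15 * n) := by rw [pow_mul]
      _ ≤ (21 / 20) ^ k := pow_le_pow_right₀ (by norm_num) hk1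
  have hfin := hk0 k hkk
  have hreal : ((16 * (2 ^ n * ∑ v ∈ range (k / 150 + 1),
      (n * n).choose v * (3 * (n * n / 4) / 4).choose (k - v)) : ℕ) : ℝ) ≤
      ((n * n / 4).choose k : ℕ) := by
    rw [Nat.cast_mul, Nat.cast_mul, Nat.cast_pow]
    calc ((16 : ℕ) : ℝ) * (((2 : ℕ) : ℝ) ^ n * ((∑ v ∈ range (k / 150 + 1),
          (n * n).choose v * (3 * (n * n / 4) / 4).choose (k - v) : ℕ) : ℝ))
        ≤ 16 * ((21 / 20) ^ k * (((k : ℝ) + 1) *
          ((3 / 4 * (21 / 20) * (101 / 100)) ^ k * ((n * n / 4).choose k : ℕ)))) := by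
          push_cast at hsum ⊢
          gcongr
      _ = 16 * ((k : ℝ) + 1) * (3 / 4 * (21 / 20) * (101 / 100) * (21 / 20)) ^ k *
          ((n * n / 4).choose k : ℕ) := by
          rw [mul_pow _ (21 / 20 : ℝ) k]
          ring
      _ ≤ 16 * ((k : ℝ) + 1) * (21 / 25) ^ k * ((n * n / 4).choose k : ℕ) := by
          gcongr
          norm_num
      _ ≤ 1 * ((n * n / 4).choose k : ℕ) := by
          gcongr
      _ = ((n * n / 4).choose k : ℕ) := one_mul _
  exact_mod_cast hreal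

end Pool.Agent.H.MP_82502e_co.Fr
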