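import Pool.Agent.H.MP_82502e_co.SpA4
import Pool.Agent.H.MP_82502e_co.SpD
import Pool.Agent.H.MP_82502e_co.SpF
import Pool.Agent.H.MP_82502e_co.Ident

set_option autoImplicit false

/-!
# The sparse end: very few relations, and STEP 2a
-/

namespace Pool.Agent.H.MP_82502e_co

open Finset

variable {n : ℕ}

/-- If most posets have many addable pairs then the counts increase. -/
theorem lt_of_few_bad {n k : ℕ} (hpos : 0 < cnt n k)
    (h : 4 * ((PO n k).filter fun S => (Add S).card < 2 * k + 2).card ≤ cnt n k) :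
    cnt n k < cnt n (k + 1) := by
  classical
  refine lt_of_sum_add ?_
  set bad := (PO n k).filter fun S => (Add S).card < 2 * k + 2 with hbad
  set good := (PO n k).filter fun S => ¬ (Add S).card < 2 * k + 2 with hgood
  have h1 : bad.card + good.card = cnt n k := by
    unfold cnt
    exact card_filter_add_card_filter_not (s := PO n k) (fun S => (Add S).card < 2 * k + 2)
  have h2 : good.card * (2 * k + 2) ≤ ∑ S ∈ PO n k, (Add S).card := by
    calc good.card * (2 * k + 2) = good.card • (2 * k + 2) := by rw [smul_eq_mul]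
      _ ≤ ∑ S ∈ good, (Add S).card := card_nsmul_le_sum _ _ _ fun S hS =>
          not_lt.1 (mem_filter.1 hS).2
      _ ≤ ∑ S ∈ PO n k, (Add S).card := sum_le_sum_of_subset (filter_subset _ _)
  have h3 : 3 * cnt n k ≤ 4 * good.card := by omega
  have h4 : (k + 1) * cnt n k < good.card * (2 * k + 2) := by
    have h5 : (k + 1) * (3 * cnt n k) ≤ (k + 1) * (4 * good.card) := Nat.mul_le_mul_left _ h3
    have h6 : 0 < (k + 1) * cnt n k := Nat.mul_pos (Nat.succ_pos _) hpos
    nlinarith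
  exact lt_of_lt_of_le h4 h2

/-- Posets with at most `n / 3` relations have many isolated points. -/
theorem add_of_few {n k : ℕ} (hn : 12 ≤ n) (hk : 3 * k ≤ n) {S : Finset (Fin n × Fin n)}
    (hS : S ∈ PO n k) : 2 * k + 2 ≤ (Add S).card := by
  classical
  rw [mem_PO] at hS
  obtain ⟨-, hc⟩ := hS
  set T : Finset (Fin n) := S.image Prod.fst ∪ S.image Prod.snd with hT
  have hTc : T.card ≤ 2 * k := by
    refine (card_union_le _ _).trans ?_
    have h1 := card_image_le (s := S) (f := Prod.fst)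
    have h2 := card_image_le (s := S) (f := Prod.snd)
    omega
  have hI : n - 2 * k ≤ Tᶜ.card := by
    rw [card_compl, Fintype.card_fin]
    omega
  have hsub : Tᶜ.offDiag ⊆ Add S := by
    intro p hp
    rw [mem_offDiag] at hp
    obtain ⟨h1, h2, h3⟩ := hp
    rw [mem_compl, hT, mem_union, not_or] at h1 h2
    have key : ∀ a b, (a, b) ∈ S → a ∈ S.image Prod.fst ∧ b ∈ S.image Prod.snd := by
      intro a b hab
      exact ⟨mem_image.2 ⟨_, hab, rfl⟩, mem_image.2 ⟨_, hab, rfl⟩⟩
    rw [mem_Add]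
    refine ⟨h3, fun h => h1.1 (key _ _ h).1, fun h => h2.1 (key _ _ h).1, fun z hz => ?_,
      fun z hz => ?_⟩
    · exact absurd (key _ _ hz).2 h1.2
    · exact absurd (key _ _ hz).1 h2.1
  refine le_trans ?_ (card_le_card hsub)
  rw [offDiag_card]
  have h5 : n ≤ 3 * Tᶜ.card := by omega
  have h6 : 4 ≤ Tᶜ.card := by omega
  have h7 : 2 * k ≤ 2 * Tᶜ.card := by omega
  have h8 : 3 * k ≤ 3 * Tᶜ.card := by omega
  set t := Tᶜ.card with ht
  have h9 : 2 * k + 2 + t ≤ t * t := by nlinarith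
  omega

/-- **STEP 2a.** -/
theorem sp_step2a : ∃ d1 : ℝ, 0 < d1 ∧ ∃ n0 : ℕ, ∀ n ≥ n0, ∀ k : ℕ, 15 * n ≤ k →
    (k : ℝ) ≤ d1 * (n : ℝ) ^ 2 →
    4 * ((PO n k).filter fun S => (Add S).card < 2 * k + 2).card ≤ cnt n k := by
  classical
  obtain ⟨d1, hd1, n1, h1⟩ := sp_step1 150 (by norm_num)
  obtain ⟨n2, h2⟩ := Fr.sp_num
  refine ⟨min d1 (1 / 100), lt_min hd1 (by norm_num), max 20 (max n1 n2), fun n hn k hk hkd => ?_⟩
  have hn20 : 20 ≤ n := le_trans (le_max_left _ _) hn
  have hn1 : n1 ≤ n := le_trans (le_trans (le_max_left _ _) (le_max_right _ _)) hn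
  have hn2 : n2 ≤ n := le_trans (le_trans (le_max_right _ _) (le_max_right _ _)) hn
  have hkd1 : (k : ℝ) ≤ d1 * (n : ℝ) ^ 2 :=
    hkd.trans (mul_le_mul_of_nonneg_right (min_le_left _ _) (by positivity))
  have hk100 : 100 * k ≤ n * n := by
    have h3 : (k : ℝ) ≤ 1 / 100 * (n : ℝ) ^ 2 :=
      hkd.trans (mul_le_mul_of_nonneg_right (min_le_right _ _) (by positivity))
    have h4 : (100 : ℝ) * k ≤ (n : ℝ) * n := by nlinarith
    exact_mod_cast h4
  have hA := h1 n hn1 k (by omega) hkd1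
  have hB := h2 n hn2 k hk hk100
  set N := n * n / 4 with hN
  set N' := 3 * N / 4 with hN'
  set s1 := (PO n k).filter fun S => k < 150 * wS S with hs1
  set s2 := (PO n k).filter fun S => Fr.wS S ≤ k / 150 ∧ (Fr.fr1 (Fr.XS S) S).card ≤ N' with hs2
  set s3 := (PO n k).filter fun S => Fr.wS S ≤ k / 150 ∧ (Fr.fr2 (Fr.XS S) S).card ≤ N' with hs3
  have hc2 : 16 * s2.card ≤ N.choose k :=
    (Nat.mul_le_mul_left 16 (Fr.card_ev1 k (k / 150) N')).trans hB
  have hc3 : 16 * s3.card ≤ N.choose k :=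
    (Nat.mul_le_mul_left 16 (Fr.card_ev2 k (k / 150) N')).trans hB
  have hsub : ((PO n k).filter fun S => (Add S).card < 2 * k + 2) ⊆ s1 ∪ (s2 ∪ s3) := by
    intro S hS
    rw [mem_filter] at hS
    obtain ⟨hS, hadd⟩ := hS
    have hPO := mem_PO.1 hS
    rw [mem_union, mem_union]
    by_contra hcon
    rw [not_or, not_or, hs1, hs2, hs3, mem_filter, mem_filter, mem_filter] at hcon
    obtain ⟨c1, c2, c3⟩ := hcon
    have hw : Fr.wS S ≤ k / 150 := by
      have hw1 : ¬ k < 150 * wS S := fun h => c1 ⟨hS, h⟩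
      have hw2 : Fr.wS S = wS S := rfl
      omega
    have hf1 : N' < (Fr.fr1 (Fr.XS S) S).card := not_le.1 fun h => c2 ⟨hS, hw, h⟩
    have hf2 : N' < (Fr.fr2 (Fr.XS S) S).card := not_le.1 fun h => c3 ⟨hS, hw, h⟩
    have hge := Fr.card_Add_ge hPO.1
    rw [hPO.2] at hge
    have hnn : 400 ≤ n * n := by nlinarith
    omega
  have hcard : ((PO n k).filter fun S => (Add S).card < 2 * k + 2).card ≤
      s1.card + (s2.card + s3.card) :=
    (card_le_card hsub).trans ((card_union_le _ _).trans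
      (Nat.add_le_add_left (card_union_le _ _) _))
  have hchoose : N.choose k ≤ cnt n k := by
    have := choose_le_cnt n k
    rwa [half_mul_half] at this
  omega

end Pool.Agent.H.MP_82502e_co
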