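import Pool.Agent.H.MP_82502e_co.Relab

set_option autoImplicit false

/-!
# Exchange sets
`AU U S`: addable pairs from `U` to its complement; `CU U S`: cover relations from `U` to its
complement. All pairs of `AU U S` can be added simultaneously.
-/

namespace Pool.Agent.H.MP_82502e_co

open Finset

variable {n : ℕ}

/-- The addable pairs which go from `U` to the complement of `U`. -/
def AU (U : Finset (Fin n)) (S : Finset (Fin n × Fin n)) : Finset (Fin n × Fin n) :=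
  (Add S).filter fun p => p.1 ∈ U ∧ p.2 ∉ U

/-- The covers which go from `U` to the complement of `U`. -/
def CU (U : Finset (Fin n)) (S : Finset (Fin n × Fin n)) : Finset (Fin n × Fin n) :=
  (Cov S).filter fun p => p.1 ∈ U ∧ p.2 ∉ U

theorem mem_AU {U : Finset (Fin n)} {S : Finset (Fin n × Fin n)} {p : Fin n × Fin n} :
    p ∈ AU U S ↔ p ∈ Add S ∧ p.1 ∈ U ∧ p.2 ∉ U := by
  unfold AU
  rw [mem_filter]

theorem mem_CU {U : Finset (Fin n)} {S : Finset (Fin n × Fin n)} {p : Fin n × Fin n} :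
    p ∈ CU U S ↔ p ∈ Cov S ∧ p.1 ∈ U ∧ p.2 ∉ U := by
  unfold CU
  rw [mem_filter]

theorem disjoint_AU {U : Finset (Fin n)} {S A : Finset (Fin n × Fin n)} (hA : A ⊆ AU U S) :
    Disjoint S A := by
  rw [disjoint_right]
  intro p hp
  exact (mem_Add.1 (mem_AU.1 (hA hp)).1).2.1

/-- Proof. Irreflexive: pairs of `A` have different ends. Transitive: `(x,y), (y,z) ∈ S ∪ A`. Both in
`S`: clear. `(x,y) ∈ A`, `(y,z) ∈ S`: `z ∈ U(y) ⊆ U(x)`. `(x,y) ∈ S`, `(y,z) ∈ A`: `x ∈ D(y) ⊆ D(z)`. Both in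
`A`: `y ∉ U` and `y ∈ U`, impossible. -/
theorem isPO_union_AU {U : Finset (Fin n)} {S A : Finset (Fin n × Fin n)} (h : IsPO S)
    (hA : A ⊆ AU U S) : IsPO (S ∪ A) := by
  refine ⟨fun i hi => ?_, fun i j l hij hjl => ?_⟩
  · rcases mem_union.1 hi with hi | hi
    · exact h.1 i hi
    · exact (mem_Add.1 (mem_AU.1 (hA hi)).1).1 rfl
  · rcases mem_union.1 hij with h1 | h1
    · rcases mem_union.1 hjl with h2 | h2
      · exact mem_union_left _ (h.2 i j l h1 h2)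
      · exact mem_union_left _ ((mem_Add.1 (mem_AU.1 (hA h2)).1).2.2.2.1 i h1)
    · rcases mem_union.1 hjl with h2 | h2
      · exact mem_union_left _ ((mem_Add.1 (mem_AU.1 (hA h1)).1).2.2.2.2 l h2)
      · exact absurd (mem_AU.1 (hA h2)).2.1 (mem_AU.1 (hA h1)).2.2

/-- Proof. Let `(x,y) ∈ A` and suppose `(x,z), (z,y) ∈ S ∪ A`. Both in `A`: `z ∉ U` and `z ∈ U`. Both in `S`:
`(x,y) ∈ S`, but it is addable. `(x,z) ∈ S`, `(z,y) ∈ A`: `x ∈ D(z) ⊆ D(y)`, so `(x,y) ∈ S`, no. `(x,z) ∈ A`,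
`(z,y) ∈ S`: `y ∈ U(z) ⊆ U(x)`, no. -/
theorem sub_CU_union {U : Finset (Fin n)} {S A : Finset (Fin n × Fin n)} (h : IsPO S)
    (hA : A ⊆ AU U S) : A ⊆ CU U (S ∪ A) := by
  intro p hp
  obtain ⟨h1, h2, h3⟩ := mem_AU.1 (hA hp)
  obtain ⟨-, h4, -, h5, h6⟩ := mem_Add.1 h1
  refine mem_CU.2 ⟨mem_Cov.2 ⟨mem_union_right _ hp, fun z hz => ?_⟩, h2, h3⟩
  rcases mem_union.1 hz.1 with h7 | h7
  · rcases mem_union.1 hz.2 with h8 | h8
    · exact h4 (h.2 _ _ _ h7 h8)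
    · exact h4 ((mem_Add.1 (mem_AU.1 (hA h8)).1).2.2.2.1 p.1 h7)
  · rcases mem_union.1 hz.2 with h8 | h8
    · exact h4 ((mem_Add.1 (mem_AU.1 (hA h7)).1).2.2.2.2 p.2 h8)
    · exact absurd (mem_AU.1 (hA h8)).2.1 (mem_AU.1 (hA h7)).2.2

/-- A cover of `S ∪ A` which is in `S` is a cover of `S`. -/
theorem CU_union_sub {U : Finset (Fin n)} {S A : Finset (Fin n × Fin n)} :
    CU U (S ∪ A) ⊆ CU U S ∪ A := by
  intro p hp
  obtain ⟨h1, h2, h3⟩ := mem_CU.1 hp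
  obtain ⟨h4, h5⟩ := mem_Cov.1 h1
  rcases mem_union.1 h4 with h6 | h6
  · exact mem_union_left _ (mem_CU.2 ⟨mem_Cov.2 ⟨h6, fun z hz =>
      h5 z ⟨mem_union_left _ hz.1, mem_union_left _ hz.2⟩⟩, h2, h3⟩)
  · exact mem_union_right _ h6

/-- Proof. Irreflexive: subset. Transitive: `(x,y), (y,z) ∈ T \ A`: `(x,z) ∈ T`, and it is not a cover
(`y` is between), so not in `A`. -/
theorem isPO_sdiff_CU {U : Finset (Fin n)} {T A : Finset (Fin n × Fin n)} (h : IsPO T)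
    (hA : A ⊆ CU U T) : IsPO (T \ A) := by
  refine ⟨fun i hi => h.1 i (mem_sdiff.1 hi).1, fun i j l hij hjl => ?_⟩
  have h1 := (mem_sdiff.1 hij).1
  have h2 := (mem_sdiff.1 hjl).1
  refine mem_sdiff.2 ⟨h.2 i j l h1 h2, fun h3 => ?_⟩
  exact (mem_Cov.1 (mem_CU.1 (hA h3)).1).2 j ⟨h1, h2⟩

end Pool.Agent.H.MP_82502e_co
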