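import Pool.Agent.H.MP_82502e_co.TopA

set_option autoImplicit false

/-!
# The exchange inequality
-/

namespace Pool.Agent.H.MP_82502e_co

open Finset

variable {n : ℕ}

/-- Proof. If `g < t` the left side is `0`. Otherwise `g.choose t = ∏_{i<t} (g - i) / t!` and
`a.choose t = ∏_{i<t} (a - i) / t!` and `g - i ≤ g ≤ ρ (a - t) ≤ ρ (a - i)`. (Or:
`Nat.choose_le_pow_div` and `Nat.pow_le_choose`: `g.choose t ≤ g^t / t!`,
`(a + 1 - t)^t / t! ≤ a.choose t`.) -/
theorem choose_ratio {g a t : ℕ} {ρ : ℝ} (hρ : 0 ≤ ρ) (hta : t ≤ a)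
    (h : (g : ℝ) ≤ ρ * ((a : ℝ) - t)) :
    (g.choose t : ℝ) ≤ ρ ^ t * (a.choose t : ℝ) := by
  have hf : (0 : ℝ) < (t.factorial : ℝ) := by exact_mod_cast t.factorial_pos
  have h1 : (g.choose t : ℝ) ≤ (g : ℝ) ^ t / (t.factorial : ℝ) := Nat.choose_le_pow_div t g
  have h2 : ((a + 1 - t : ℕ) : ℝ) ^ t ≤ (t.factorial : ℝ) * (a.choose t : ℝ) := by
    exact_mod_cast Nat.pow_sub_le_descFactorial a t |>.trans
      (le_of_eq (Nat.descFactorial_eq_factorial_mul_choose a t))
  have h3 : ((a : ℝ) - t) ≤ ((a + 1 - t : ℕ) : ℝ) := by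
    rw [Nat.cast_sub (by omega)]
    push_cast
    linarith
  have h4 : (0 : ℝ) ≤ (a : ℝ) - t := by
    have : (t : ℝ) ≤ a := by exact_mod_cast hta
    linarith
  have h5 : (g : ℝ) ^ t ≤ ρ ^ t * ((a + 1 - t : ℕ) : ℝ) ^ t := by
    rw [← mul_pow]
    exact pow_le_pow_left₀ (Nat.cast_nonneg _) (h.trans (mul_le_mul_of_nonneg_left h3 hρ)) t
  refine h1.trans ?_
  rw [div_le_iff₀ hf]
  refine h5.trans ?_
  calc ρ ^ t * ((a + 1 - t : ℕ) : ℝ) ^ t ≤ ρ ^ t * ((t.factorial : ℝ) * (a.choose t : ℝ)) :=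
        mul_le_mul_of_nonneg_left h2 (pow_nonneg hρ t)
    _ = ρ ^ t * (a.choose t : ℝ) * (t.factorial : ℝ) := by ring

open scoped Classical in
/-- **Exchange inequality.** Let `E` be the filtered set.

Proof. For `S ∈ E` put `α = |AU U S|`, `γ = |CU U S|`; `0 ≤ γ` and `0 < ρ` give `t < α`. Consider the pairs
`(S, A)`, `S ∈ E`, `A ∈ powersetCard t (AU U S)` with the weight `1 / α.choose t`: the total weight is
`|E|`. The map `(S, A) ↦ (S ∪ A, A)` is injective (`S = (S ∪ A) \ A`, `disjoint_AU`) into the pairs `(Q, A)`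
with `Q ∈ PO n (k + t)`, `A ∈ powersetCard t (CU U Q)` (`isPO_union_AU`, `sub_CU_union`). With
`g = |CU U (S ∪ A)| ≤ γ + t` (`CU_union_sub`) we have `g ≤ ρ (α - t)`, so by `choose_ratio` the weight is
`≤ ρ ^ t / g.choose t` (`g ≥ t` so `g.choose t > 0`). Summing `ρ ^ t / g.choose t` over `A ∈ powersetCard t (CU U Q)` gives
at most `ρ ^ t` for every `Q`. So `|E| ≤ ρ ^ t * cnt n (k + t)`. -/
theorem exchange_up (k t : ℕ) (U : Finset (Fin n)) {ρ : ℝ} (hρ : 0 < ρ) :
    (((PO n k).filter fun S =>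
      ((CU U S).card : ℝ) + t < ρ * (((AU U S).card : ℝ) - t)).card : ℝ) ≤
      ρ ^ t * cnt n (k + t) := by
  set E : Finset (Finset (Fin n × Fin n)) := (PO n k).filter fun S =>
      ((CU U S).card : ℝ) + t < ρ * (((AU U S).card : ℝ) - t) with hE
  have hαt : ∀ S ∈ E, t < (AU U S).card := by
    intro S hS
    have h1 := (mem_filter.1 hS).2
    by_contra h2
    have h3 : ((AU U S).card : ℝ) ≤ t := by exact_mod_cast not_lt.1 h2
    have h4 : ρ * (((AU U S).card : ℝ) - t) ≤ 0 :=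
      mul_nonpos_of_nonneg_of_nonpos hρ.le (by linarith)
    have h5 : (0 : ℝ) ≤ ((CU U S).card : ℝ) + t := by positivity
    linarith
  -- the weight function on pairs `(Q, A)`
  set f : (Σ _ : Finset (Fin n × Fin n), Finset (Fin n × Fin n)) → ℝ :=
    fun x => ρ ^ t / ((CU U x.1).card.choose t : ℝ) with hf
  have hf0 : ∀ x, 0 ≤ f x := fun x => by
    simp only [hf]
    positivity
  set i : (Σ _ : Finset (Fin n × Fin n), Finset (Fin n × Fin n)) →
      (Σ _ : Finset (Fin n × Fin n), Finset (Fin n × Fin n)) := fun x => ⟨x.1 ∪ x.2, x.2⟩ with hi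
  have h1 : (E.card : ℝ) ≤
      ∑ x ∈ E.sigma (fun S => powersetCard t (AU U S)), f (i x) := by
    rw [sum_sigma, card_eq_sum_ones, Nat.cast_sum]
    refine sum_le_sum fun S hS => ?_
    have hc : 0 < (AU U S).card.choose t := Nat.choose_pos (hαt S hS).le
    have hc' : (0 : ℝ) < ((AU U S).card.choose t : ℝ) := by exact_mod_cast hc
    have h2 : ∀ A ∈ powersetCard t (AU U S),
        1 / ((AU U S).card.choose t : ℝ) ≤ f (i ⟨S, A⟩) := by
      intro A hA
      obtain ⟨hA1, hA2⟩ := mem_powersetCard.1 hA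
      have hPO : IsPO S := (mem_PO.1 (mem_filter.1 hS).1).1
      have hsub := sub_CU_union hPO hA1
      have hg1 : t ≤ (CU U (S ∪ A)).card := hA2 ▸ card_le_card hsub
      have hg2 : (CU U (S ∪ A)).card ≤ (CU U S).card + t := by
        refine (card_le_card CU_union_sub).trans ((card_union_le _ _).trans ?_)
        rw [hA2]
      have hg3 : 0 < (CU U (S ∪ A)).card.choose t := Nat.choose_pos hg1
      have hg3' : (0 : ℝ) < ((CU U (S ∪ A)).card.choose t : ℝ) := by exact_mod_cast hg3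
      have h5 : ((CU U (S ∪ A)).card : ℝ) ≤ ρ * (((AU U S).card : ℝ) - t) := by
        have h6 : ((CU U (S ∪ A)).card : ℝ) ≤ ((CU U S).card : ℝ) + t := by exact_mod_cast hg2
        exact h6.trans (mem_filter.1 hS).2.le
      have h7 := choose_ratio hρ.le (hαt S hS).le h5
      simp only [hf, hi]
      rw [div_le_div_iff₀ hc' hg3', one_mul]
      exact h7
    calc ((1 : ℕ) : ℝ) = ∑ _A ∈ powersetCard t (AU U S), 1 / ((AU U S).card.choose t : ℝ) := by
          rw [sum_const, card_powersetCard, nsmul_eq_mul, mul_one_div, div_self hc'.ne',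
            Nat.cast_one]
      _ ≤ _ := sum_le_sum h2
  have hinj : Set.InjOn i ((E.sigma fun S => powersetCard t (AU U S) :
      Finset (Σ _ : Finset (Fin n × Fin n), Finset (Fin n × Fin n))) : Set _) := by
    rintro ⟨S, A⟩ hx ⟨S', A'⟩ hy hxy
    rw [mem_coe, mem_sigma] at hx hy
    simp only [hi, Sigma.mk.injEq, heq_eq_eq] at hxy
    obtain ⟨h2, h3⟩ := hxy
    subst h3
    have h4 := disjoint_AU (mem_powersetCard.1 hx.2).1
    have h5 := disjoint_AU (mem_powersetCard.1 hy.2).1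
    have h6 : S = S' := by
      have e1 : (S ∪ A) \ A = S := union_sdiff_cancel_right h4
      have e2 : (S' ∪ A) \ A = S' := union_sdiff_cancel_right h5
      rw [← e1, ← e2, h2]
    rw [h6]
  have h2 : ∑ x ∈ E.sigma (fun S => powersetCard t (AU U S)), f (i x) ≤
      ∑ x ∈ (PO n (k + t)).sigma (fun Q => powersetCard t (CU U Q)), f x := by
    rw [← sum_image hinj]
    refine sum_le_sum_of_subset_of_nonneg ?_ fun x _ _ => hf0 x
    intro y hy
    obtain ⟨⟨S, A⟩, hx, rfl⟩ := mem_image.1 hy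
    rw [mem_sigma] at hx
    obtain ⟨hS, hA⟩ := hx
    obtain ⟨hA1, hA2⟩ := mem_powersetCard.1 hA
    obtain ⟨hPO, hk⟩ := mem_PO.1 (mem_filter.1 hS).1
    rw [mem_sigma]
    refine ⟨mem_PO.2 ⟨isPO_union_AU hPO hA1, ?_⟩, mem_powersetCard.2
      ⟨sub_CU_union hPO hA1, hA2⟩⟩
    simp only [hi]
    rw [card_union_of_disjoint (disjoint_AU hA1), hk, hA2]
  have h3 : ∑ x ∈ (PO n (k + t)).sigma (fun Q => powersetCard t (CU U Q)), f x ≤
      ρ ^ t * cnt n (k + t) := by
    rw [sum_sigma]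
    calc ∑ Q ∈ PO n (k + t), ∑ A ∈ powersetCard t (CU U Q), f ⟨Q, A⟩
        ≤ ∑ _Q ∈ PO n (k + t), ρ ^ t := by
          refine sum_le_sum fun Q _ => ?_
          simp only [hf, sum_const, card_powersetCard, nsmul_eq_mul]
          rcases Nat.eq_zero_or_pos ((CU U Q).card.choose t) with h0 | h0
          · rw [h0]
            simp only [Nat.cast_zero, zero_mul]
            positivity
          · have h0' : ((CU U Q).card.choose t : ℝ) ≠ 0 := by exact_mod_cast h0.ne'
            rw [mul_div_cancel₀ _ h0']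
      _ = ρ ^ t * cnt n (k + t) := by
          rw [sum_const, nsmul_eq_mul, mul_comm]
          rfl
  exact h1.trans (h2.trans h3)

end Pool.Agent.H.MP_82502e_co
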