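import Pool.Agent.H.MP_82502e_co.TopB

set_option autoImplicit false

/-!
# Averaging over the sets `U`
-/

namespace Pool.Agent.H.MP_82502e_co

open Finset

variable {n : ℕ}

/-- For `x ≠ y` exactly a quarter of the sets `U` contain `x` and not `y`. Proof: e.g. the four maps
toggling `x`, `y`; or `U ↦ U \ {x, y}` and `card_powerset`. -/
theorem card_sep {x y : Fin n} (h : x ≠ y) :
    4 * ((univ : Finset (Finset (Fin n))).filter fun U => x ∈ U ∧ y ∉ U).card = 2 ^ n := by
  have h1 : ((univ : Finset (Finset (Fin n))).filter fun U => x ∈ U ∧ y ∉ U) =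
      (((univ : Finset (Fin n)).erase x).erase y).powerset.image (insert x) := by
    ext U
    simp only [mem_filter, mem_univ, true_and, mem_image, mem_powerset]
    constructor
    · rintro ⟨hx, hy⟩
      refine ⟨U.erase x, fun z hz => ?_, insert_erase hx⟩
      rw [mem_erase] at hz
      rw [mem_erase, mem_erase]
      exact ⟨fun h => hy (h ▸ hz.2), hz.1, mem_univ _⟩
    · rintro ⟨V, hV, rfl⟩
      refine ⟨mem_insert_self _ _, fun hy => ?_⟩
      rw [mem_insert] at hy
      rcases hy with hy | hy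
      · exact h hy.symm
      · exact (mem_erase.1 (hV hy)).1 rfl
  have h2 : (((univ : Finset (Fin n)).erase x).erase y).card = n - 2 := by
    rw [card_erase_of_mem (mem_erase.2 ⟨h.symm, mem_univ _⟩), card_erase_of_mem (mem_univ _),
      card_univ, Fintype.card_fin]
    omega
  have hn : 2 ≤ n := by
    have := card_le_univ ({x, y} : Finset (Fin n))
    rwa [card_pair h, Fintype.card_fin] at this
  rw [h1, card_image_of_injOn, card_powerset, h2]
  · obtain ⟨m, rfl⟩ := Nat.exists_eq_add_of_le hn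
    rw [Nat.add_sub_cancel_left, pow_add]
    norm_num
  · intro V hV W hW hVW
    have hxV : x ∉ V := fun hx => by
      have := (mem_powerset.1 (mem_coe.1 hV)) hx
      rw [mem_erase, mem_erase] at this
      exact this.2.1 rfl
    have hxW : x ∉ W := fun hx => by
      have := (mem_powerset.1 (mem_coe.1 hW)) hx
      rw [mem_erase, mem_erase] at this
      exact this.2.1 rfl
    have h3 : insert x V = insert x W := hVW
    rw [← erase_insert hxV, ← erase_insert hxW, h3]

/-- Double counting with `card_sep`. -/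
theorem sum_card_sep (B : Finset (Fin n × Fin n)) (hB : ∀ p ∈ B, p.1 ≠ p.2) :
    4 * ∑ U : Finset (Fin n), (B.filter fun p => p.1 ∈ U ∧ p.2 ∉ U).card = 2 ^ n * B.card := by
  have h1 : ∑ U : Finset (Fin n), (B.filter fun p => p.1 ∈ U ∧ p.2 ∉ U).card =
      ∑ p ∈ B, ((univ : Finset (Finset (Fin n))).filter fun U => p.1 ∈ U ∧ p.2 ∉ U).card := by
    simp only [card_filter]
    rw [sum_comm]
  rw [h1, mul_sum, sum_congr rfl (fun p hp => card_sep (hB p hp)), sum_const, smul_eq_mul, mul_comm]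

theorem sum_AU (S : Finset (Fin n × Fin n)) :
    4 * ∑ U : Finset (Fin n), (AU U S).card = 2 ^ n * (Add S).card :=
  sum_card_sep (Add S) fun _ hp => (mem_Add.1 hp).1

theorem sum_CU {S : Finset (Fin n × Fin n)} (h : IsPO S) :
    4 * ∑ U : Finset (Fin n), (CU U S).card = 2 ^ n * (Cov S).card := by
  refine sum_card_sep (Cov S) fun p hp hpp => ?_
  have h1 := (mem_Cov.1 hp).1
  have h2 : p = (p.1, p.1) := Prod.ext rfl hpp.symm
  rw [h2] at h1
  exact h.1 _ h1

open scoped Classical in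
/-- **Typical posets have few addable pairs compared with covers.**

Proof. `bad U S` is the condition of `exchange_up`. Let `P` be the filtered set and, for a poset `S`,
`B S = {U | bad U S}`. (1) For `S ∈ P`: `|B S| > η 2^n`. Indeed sum over all `U` the inequality
`γ_U + t ≥ ρ (α_U - t)` for `U ∉ B S` and `γ_U + t ≥ 0 ≥ ρ (α_U - t) - ρ |Add S|` for `U ∈ B S` (`α_U ≤ |Add S|`):
`2^n |Cov S| / 4 + 2^n t ≥ ρ 2^n |Add S| / 4 - ρ t 2^n - ρ |B S| |Add S|`; if `|B S| ≤ η 2^n` this gives
`|Cov S| + 4 (ρ + 1) t ≥ ρ (1 - 4 η) |Add S|`. (2) `η 2^n |P| ≤ ∑_{S ∈ P} |B S| ≤ ∑_U |{S ∈ PO n k | bad U S}| ≤ 2^n ρ^t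
cnt n (k + t) ≤ 2^n η² cnt n k`. Divide by `η 2^n`. -/
theorem add_le_cov (k t : ℕ) {ρ η : ℝ} (hρ : 1 ≤ ρ) (hη : 0 < η)
    (h : ρ ^ t * cnt n (k + t) ≤ η ^ 2 * cnt n k) :
    (((PO n k).filter fun S => ((Cov S).card : ℝ) + 4 * (ρ + 1) * t <
      ρ * (1 - 4 * η) * (Add S).card).card : ℝ) ≤ η * cnt n k := by
  set P := (PO n k).filter fun S => ((Cov S).card : ℝ) + 4 * (ρ + 1) * t <
      ρ * (1 - 4 * η) * (Add S).card with hPdef
  let bad : Finset (Fin n) → Finset (Fin n × Fin n) → Prop := fun U S =>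
    ((CU U S).card : ℝ) + t < ρ * (((AU U S).card : ℝ) - t)
  have hρ0 : 0 < ρ := by linarith
  have h2n : (0 : ℝ) < 2 ^ n := by positivity
  have hcard : ((univ : Finset (Finset (Fin n))).card : ℝ) = 2 ^ n := by
    rw [card_univ, Fintype.card_finset, Fintype.card_fin]; push_cast; rfl
  have h1 : ∀ S ∈ P, η * 2 ^ n ≤ ((univ.filter fun U => bad U S).card : ℝ) := by
    intro S hS
    rw [hPdef, mem_filter, mem_PO] at hS
    obtain ⟨⟨hPO, -⟩, hlt⟩ := hS
    by_contra hcon
    push Not at hcon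
    have hA := sum_AU (n := n) S
    have hC := sum_CU hPO
    have hA' : (4 : ℝ) * ∑ U : Finset (Fin n), ((AU U S).card : ℝ) = 2 ^ n * (Add S).card := by
      exact_mod_cast hA
    have hC' : (4 : ℝ) * ∑ U : Finset (Fin n), ((CU U S).card : ℝ) = 2 ^ n * (Cov S).card := by
      exact_mod_cast hC
    have hpt : ∀ U : Finset (Fin n), ρ * (((AU U S).card : ℝ) - t) -
        (if bad U S then ρ * ((Add S).card : ℝ) else 0) ≤ ((CU U S).card : ℝ) + t := by
      intro U
      by_cases hb : bad U S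
      · rw [if_pos hb]
        have h3 : ((AU U S).card : ℝ) ≤ (Add S).card := by
          exact_mod_cast card_le_card (filter_subset _ _)
        have h4 : (0 : ℝ) ≤ (CU U S).card := Nat.cast_nonneg _
        have h5 : (0 : ℝ) ≤ t := Nat.cast_nonneg _
        nlinarith [mul_le_mul_of_nonneg_left h3 hρ0.le, mul_nonneg hρ0.le h5]
      · rw [if_neg hb, sub_zero]
        exact not_lt.1 hb
    have hsum := sum_le_sum fun U (_ : U ∈ (univ : Finset (Finset (Fin n)))) => hpt U
    rw [sum_sub_distrib, ← mul_sum, sum_sub_distrib, sum_add_distrib, sum_const, nsmul_eq_mul, hcard,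
      ← sum_filter, sum_const, nsmul_eq_mul] at hsum
    have h6 : ((univ.filter fun U => bad U S).card : ℝ) * (ρ * ((Add S).card : ℝ)) ≤
        η * 2 ^ n * (ρ * ((Add S).card : ℝ)) :=
      mul_le_mul_of_nonneg_right hcon.le (mul_nonneg hρ0.le (Nat.cast_nonneg _))
    have h7 : 2 ^ n * (((Cov S).card : ℝ) + 4 * (ρ + 1) * t) <
        2 ^ n * (ρ * (1 - 4 * η) * (Add S).card) := mul_lt_mul_of_pos_left hlt h2n
    nlinarith [mul_le_mul_of_nonneg_left hA'.le hρ0.le, mul_le_mul_of_nonneg_left hA'.ge hρ0.le]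
  have h2 : ∑ S ∈ P, ((univ.filter fun U => bad U S).card : ℝ) ≤ 2 ^ n * (η ^ 2 * cnt n k) := by
    have h3 : ∑ S ∈ P, ((univ.filter fun U => bad U S).card : ℝ) =
        ∑ U : Finset (Fin n), ((P.filter fun S => bad U S).card : ℝ) := by
      simp only [card_filter, Nat.cast_sum]
      rw [sum_comm]
    rw [h3]
    have h4 : ∀ U ∈ (univ : Finset (Finset (Fin n))), ((P.filter fun S => bad U S).card : ℝ) ≤
        η ^ 2 * cnt n k := by
      intro U _
      have h5 : (P.filter fun S => bad U S).card ≤ ((PO n k).filter fun S => bad U S).card :=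
        card_le_card (filter_subset_filter _ (filter_subset _ _))
      exact (Nat.cast_le.2 h5).trans ((exchange_up k t U hρ0).trans h)
    refine (sum_le_sum h4).trans ?_
    rw [sum_const, nsmul_eq_mul, hcard]
  have h3 : (P.card : ℝ) * (η * 2 ^ n) ≤ 2 ^ n * (η ^ 2 * cnt n k) := by
    refine le_trans ?_ h2
    rw [← nsmul_eq_mul, ← sum_const]
    exact sum_le_sum h1
  have h4 : (0 : ℝ) < η * 2 ^ n := mul_pos hη h2n
  refine le_of_mul_le_mul_right ?_ h4
  calc (P.card : ℝ) * (η * 2 ^ n) ≤ 2 ^ n * (η ^ 2 * cnt n k) := h3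
    _ = η * cnt n k * (η * 2 ^ n) := by ring

end Pool.Agent.H.MP_82502e_co
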