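import Pool.Agent.H.MP_82502e_co.TopE

set_option autoImplicit false

/-!
# An upper bound for the number of covers
-/

namespace Pool.Agent.H.MP_82502e_co

open Finset

variable {n : ℕ}

/-- The incomparable pairs which go up in the labelling. -/
def TopG_D (S : Finset (Fin n × Fin n)) : Finset (Fin n × Fin n) :=
  univ.filter fun p => p.1 < p.2 ∧ p ∉ S

theorem TopG_mem_D {S : Finset (Fin n × Fin n)} {p : Fin n × Fin n} :
    p ∈ TopG_D S ↔ p.1 < p.2 ∧ p ∉ S := by
  rw [TopG_D, mem_filter]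
  exact ⟨fun h => h.2, fun h => ⟨mem_univ _, h⟩⟩

theorem TopG_card_D {S : Finset (Fin n × Fin n)} (h : IsPO S) (hn : Nat' S) :
    (TopG_D S).card ≤ NN n - S.card := by
  have h1 := TopE_card_Inc h
  obtain ⟨D', hD'⟩ : ∃ D', D' = (TopG_D S).map (Equiv.prodComm (Fin n) (Fin n)).toEmbedding :=
    ⟨_, rfl⟩
  have hm : ∀ p, p ∈ D' ↔ (p.2, p.1) ∈ TopG_D S := by
    intro p
    rw [hD', mem_map_equiv]
    rfl
  have hc : D'.card = (TopG_D S).card := by rw [hD', card_map]
  have hd : Disjoint (TopG_D S) D' := by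
    rw [disjoint_left]
    intro p hp hp'
    rw [hm, TopG_mem_D] at hp'
    rw [TopG_mem_D] at hp
    exact absurd hp.1 (not_lt.2 (le_of_lt hp'.1))
  have hs : TopG_D S ∪ D' ⊆ Inc S := by
    intro p hp
    rw [Inc, mem_filter]
    rcases mem_union.1 hp with h2 | h2
    · rw [TopG_mem_D] at h2
      exact ⟨mem_univ _, ne_of_lt h2.1, h2.2, fun h3 => absurd (hn _ h3) (not_lt.2 h2.1.le)⟩
    · rw [hm, TopG_mem_D] at h2
      exact ⟨mem_univ _, ne_of_gt h2.1, fun h3 => absurd (hn _ h3) (not_lt.2 h2.1.le), h2.2⟩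
  have h2 := card_le_card hs
  rw [card_union_of_disjoint hd, hc] at h2
  omega

/-- Light elements for the first coordinate. `C` is any set of pairs, `w` any weight. -/
theorem TopG_light1 (C : Finset (Fin n × Fin n)) (w : Fin n → ℕ) :
    (C.filter fun p => (C.filter fun q => q.1 = p.1 ∧ q.2 ≤ p.2).card ≤ w p.1 + 1).card ≤
      ∑ x : Fin n, (w x + 1) := by
  set L := C.filter fun p => (C.filter fun q => q.1 = p.1 ∧ q.2 ≤ p.2).card ≤ w p.1 + 1 with hL
  rw [card_eq_sum_card_fiberwise (f := Prod.fst) (s := L) (t := univ) (fun _ _ => by simp)]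
  refine sum_le_sum fun x _ => ?_
  have h1 : (L.filter fun p => p.1 = x).card ≤ (Icc 1 (w x + 1)).card := by
    refine card_le_card_of_injOn
      (fun p => (C.filter fun q => q.1 = p.1 ∧ q.2 ≤ p.2).card) (fun p hp => ?_) ?_
    · rw [mem_coe, mem_filter, hL, mem_filter] at hp
      rw [mem_coe, mem_Icc]
      obtain ⟨⟨hp1, hp2⟩, rfl⟩ := hp
      refine ⟨card_pos.2 ⟨p, mem_filter.2 ⟨hp1, rfl, le_rfl⟩⟩, hp2⟩
    · intro p hp p' hp' hpp
      rw [mem_coe, mem_filter, hL, mem_filter] at hp hp'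
      have key : ∀ a b : Fin n × Fin n, a ∈ C → b ∈ C → a.1 = x → b.1 = x → a.2 < b.2 →
          (C.filter fun q => q.1 = a.1 ∧ q.2 ≤ a.2).card <
            (C.filter fun q => q.1 = b.1 ∧ q.2 ≤ b.2).card := by
        intro a b _ hb ha1 hb1 hab
        refine card_lt_card ?_
        rw [ssubset_iff_of_subset]
        · refine ⟨b, mem_filter.2 ⟨hb, rfl, le_rfl⟩, fun hc => ?_⟩
          exact absurd (mem_filter.1 hc).2.2 (not_le.2 hab)
        · intro q hq
          rw [mem_filter] at hq ⊢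
          exact ⟨hq.1, by rw [hq.2.1, ha1, hb1], hq.2.2.trans hab.le⟩
      simp only at hpp
      rcases lt_trichotomy p.2 p'.2 with h2 | h2 | h2
      · exact absurd hpp (ne_of_lt (key p p' hp.1.1 hp'.1.1 hp.2 hp'.2 h2))
      · exact Prod.ext (hp.2.trans hp'.2.symm) h2
      · exact absurd hpp (ne_of_gt (key p' p hp'.1.1 hp.1.1 hp'.2 hp.2 h2))
  rwa [Nat.card_Icc, Nat.add_sub_cancel] at h1

/-- Light elements for the second coordinate. -/
theorem TopG_light2 (C : Finset (Fin n × Fin n)) (w : Fin n → ℕ) :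
    (C.filter fun p => (C.filter fun q => q.2 = p.2 ∧ p.1 ≤ q.1).card ≤ w p.2 + 1).card ≤
      ∑ x : Fin n, (w x + 1) := by
  set L := C.filter fun p => (C.filter fun q => q.2 = p.2 ∧ p.1 ≤ q.1).card ≤ w p.2 + 1 with hL
  rw [card_eq_sum_card_fiberwise (f := Prod.snd) (s := L) (t := univ) (fun _ _ => by simp)]
  refine sum_le_sum fun x _ => ?_
  have h1 : (L.filter fun p => p.2 = x).card ≤ (Icc 1 (w x + 1)).card := by
    refine card_le_card_of_injOn
      (fun p => (C.filter fun q => q.2 = p.2 ∧ p.1 ≤ q.1).card) (fun p hp => ?_) ?_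
    · rw [mem_coe, mem_filter, hL, mem_filter] at hp
      rw [mem_coe, mem_Icc]
      obtain ⟨⟨hp1, hp2⟩, rfl⟩ := hp
      refine ⟨card_pos.2 ⟨p, mem_filter.2 ⟨hp1, rfl, le_rfl⟩⟩, hp2⟩
    · intro p hp p' hp' hpp
      rw [mem_coe, mem_filter, hL, mem_filter] at hp hp'
      have key : ∀ a b : Fin n × Fin n, a ∈ C → b ∈ C → a.2 = x → b.2 = x → a.1 < b.1 →
          (C.filter fun q => q.2 = b.2 ∧ b.1 ≤ q.1).card <
            (C.filter fun q => q.2 = a.2 ∧ a.1 ≤ q.1).card := by
        intro a b ha _ ha1 hb1 hab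
        refine card_lt_card ?_
        rw [ssubset_iff_of_subset]
        · refine ⟨a, mem_filter.2 ⟨ha, rfl, le_rfl⟩, fun hc => ?_⟩
          exact absurd (mem_filter.1 hc).2.2 (not_le.2 hab)
        · intro q hq
          rw [mem_filter] at hq ⊢
          exact ⟨hq.1, by rw [hq.2.1, ha1, hb1], hab.le.trans hq.2.2⟩
      simp only at hpp
      rcases lt_trichotomy p.1 p'.1 with h2 | h2 | h2
      · exact absurd hpp (ne_of_gt (key p p' hp.1.1 hp'.1.1 hp.2 hp'.2 h2))
      · exact Prod.ext h2 (hp.2.trans hp'.2.symm)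
      · exact absurd hpp (ne_of_lt (key p' p hp'.1.1 hp.1.1 hp'.2 hp.2 h2))
  rwa [Nat.card_Icc, Nat.add_sub_cancel] at h1

/-- `i ≤ im y + 1`. -/
theorem TopG_rank1 {S : Finset (Fin n × Fin n)} {p : Fin n × Fin n}
    (hp : p ∈ Cov S) : ((Cov S).filter fun q => q.1 = p.1 ∧ q.2 ≤ p.2).card ≤
      ((TopG_D S).filter fun q => q.2 = p.2).card + 1 := by
  obtain ⟨hp1, hp2⟩ := mem_Cov.1 hp
  have h1 : ((Cov S).filter fun q => q.1 = p.1 ∧ q.2 ≤ p.2) ⊆
      insert p ((Cov S).filter fun q => q.1 = p.1 ∧ q.2 < p.2) := by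
    intro q hq
    rw [mem_filter] at hq
    rw [mem_insert, mem_filter]
    rcases eq_or_lt_of_le hq.2.2 with h2 | h2
    · exact Or.inl (Prod.ext hq.2.1 h2)
    · exact Or.inr ⟨hq.1, hq.2.1, h2⟩
  refine ((card_le_card h1).trans (card_insert_le _ _)).trans (Nat.add_le_add_right ?_ 1)
  refine card_le_card_of_injOn (fun q => (q.2, p.2)) (fun q hq => ?_) ?_
  · rw [mem_coe, mem_filter] at hq
    rw [mem_coe, mem_filter, TopG_mem_D]
    refine ⟨⟨hq.2.2, fun h3 => hp2 q.2 ⟨?_, h3⟩⟩, rfl⟩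
    have h4 := (mem_Cov.1 hq.1).1
    rw [← hq.2.1]
    exact h4
  · intro q hq q' hq' h3
    rw [mem_coe, mem_filter] at hq hq'
    have h4 : q.2 = q'.2 := congrArg Prod.fst h3
    exact Prod.ext (hq.2.1.trans hq'.2.1.symm) h4

/-- `j ≤ ip x + 1`. -/
theorem TopG_rank2 {S : Finset (Fin n × Fin n)} {p : Fin n × Fin n}
    (hp : p ∈ Cov S) : ((Cov S).filter fun q => q.2 = p.2 ∧ p.1 ≤ q.1).card ≤
      ((TopG_D S).filter fun q => q.1 = p.1).card + 1 := by
  obtain ⟨hp1, hp2⟩ := mem_Cov.1 hp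
  have h1 : ((Cov S).filter fun q => q.2 = p.2 ∧ p.1 ≤ q.1) ⊆
      insert p ((Cov S).filter fun q => q.2 = p.2 ∧ p.1 < q.1) := by
    intro q hq
    rw [mem_filter] at hq
    rw [mem_insert, mem_filter]
    rcases eq_or_lt_of_le hq.2.2 with h2 | h2
    · exact Or.inl (Prod.ext h2.symm hq.2.1)
    · exact Or.inr ⟨hq.1, hq.2.1, h2⟩
  refine ((card_le_card h1).trans (card_insert_le _ _)).trans (Nat.add_le_add_right ?_ 1)
  refine card_le_card_of_injOn (fun q => (p.1, q.1)) (fun q hq => ?_) ?_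
  · rw [mem_coe, mem_filter] at hq
    rw [mem_coe, mem_filter, TopG_mem_D]
    refine ⟨⟨hq.2.2, fun h3 => hp2 q.1 ⟨h3, ?_⟩⟩, rfl⟩
    have h4 := (mem_Cov.1 hq.1).1
    rw [← hq.2.1]
    exact h4
  · intro q hq q' hq' h3
    rw [mem_coe, mem_filter] at hq hq'
    have h4 : q.1 = q'.1 := congrArg Prod.snd h3
    exact Prod.ext h4 (hq.2.1.trans hq'.2.1.symm)

/-- **Upper bound for the number of covers**, natural labelling.

Proof. `ip x = #{u | x < u, (x, u) ∉ S}` (later elements incomparable to `x`), `im y = #{u | u < y, (u, y) ∉ S}`.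
`∑ ip = ∑ im = NN n - |S|`. For a cover `(x, y)` let `i = #{y' | (x, y') ∈ Cov S, y' ≤ y}` and
`j = #{x' | (x', y) ∈ Cov S, x ≤ x'}`. The other `y' < y` are incomparable to `y` (upper covers of `x`), so `i ≤ im y + 1`; also
`j ≤ ip x + 1`. The cover is called x-light if `i ≤ ip x + 1` and y-light if `j ≤ im y + 1`. For fixed `x` the ranks `i` of its upper covers
are different, so there are at most `ip x + 1` x-light covers at `x`, in total at most `∑ (ip x + 1) = NN n - |S| + n`; the same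
for the y-light ones. Every cover is light: otherwise `im y + 1 ≥ i ≥ ip x + 2 ≥ j + 1 ≥ im y + 3`. -/
theorem card_cov_le_nat {S : Finset (Fin n × Fin n)} (h : IsPO S) (hn : Nat' S) :
    (Cov S).card ≤ 2 * (NN n - S.card + n) := by
  have hD := TopG_card_D h hn
  have h1 := TopG_light1 (Cov S) (fun x => ((TopG_D S).filter fun q => q.1 = x).card)
  have h2 := TopG_light2 (Cov S) (fun x => ((TopG_D S).filter fun q => q.2 = x).card)
  have h3 : ∑ x : Fin n, ((TopG_D S).filter fun q => q.1 = x).card = (TopG_D S).card :=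
    (card_eq_sum_card_fiberwise (f := Prod.fst) (s := TopG_D S) (t := univ)
      (fun _ _ => by simp)).symm
  have h4 : ∑ x : Fin n, ((TopG_D S).filter fun q => q.2 = x).card = (TopG_D S).card :=
    (card_eq_sum_card_fiberwise (f := Prod.snd) (s := TopG_D S) (t := univ)
      (fun _ _ => by simp)).symm
  rw [sum_add_distrib, h3, sum_const, card_univ, Fintype.card_fin, smul_eq_mul, mul_one] at h1
  rw [sum_add_distrib, h4, sum_const, card_univ, Fintype.card_fin, smul_eq_mul, mul_one] at h2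
  have h5 : (Cov S).card ≤ _ + _ := (card_le_card (fun p hp => by
    rw [mem_union, mem_filter, mem_filter]
    by_contra hc
    rw [not_or, not_and, not_and] at hc
    have ha := hc.1 hp
    have hb := hc.2 hp
    have hr1 := TopG_rank1 hp
    have hr2 := TopG_rank2 hp
    rw [not_le] at ha hb
    omega : Cov S ⊆
      ((Cov S).filter fun p => ((Cov S).filter fun q => q.1 = p.1 ∧ q.2 ≤ p.2).card ≤
        ((TopG_D S).filter fun q => q.1 = p.1).card + 1) ∪
      ((Cov S).filter fun p => ((Cov S).filter fun q => q.2 = p.2 ∧ p.1 ≤ q.1).card ≤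
        ((TopG_D S).filter fun q => q.2 = p.2).card + 1))).trans (card_union_le _ _)
  omega

/-- By `exists_nat_relab`, `cov_relab`, `card_relab`. -/
theorem card_cov_le_gen {S : Finset (Fin n × Fin n)} (h : IsPO S) :
    (Cov S).card ≤ 2 * (NN n - S.card + n) := by
  obtain ⟨e, he⟩ := exists_nat_relab h
  have h1 := card_cov_le_nat (isPO_relab (e := e) h) he
  rwa [cov_relab, card_relab, card_relab] at h1

end Pool.Agent.H.MP_82502e_co
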