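import Pool.Agent.H.MP_82502e_co.TopG
import Pool.Agent.H.MP_82502e_co.Encode

set_option autoImplicit false

/-!
# Insertion of a point in a naturally labelled poset
-/

namespace Pool.Agent.H.MP_82502e_co

open Finset

variable {n : ℕ}

/-- `D` is a down-set of the part of `S` on the first `i` points. -/
def IdB (S : Finset (Fin n × Fin n)) (i : ℕ) (D : Finset (Fin n)) : Prop :=
  (∀ x ∈ D, (x : ℕ) < i) ∧ ∀ x ∈ D, ∀ y, (y, x) ∈ S → y ∈ D

/-- `U` is an up-set of the part of `S` on the points `≥ i`. -/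
def FiA (S : Finset (Fin n × Fin n)) (i : ℕ) (U : Finset (Fin n)) : Prop :=
  (∀ x ∈ U, i ≤ (x : ℕ)) ∧ ∀ x ∈ U, ∀ y, (x, y) ∈ S → y ∈ U

/-- The cost of a down-set: the number of missing points plus the number of maximal elements. -/
def cB (S : Finset (Fin n × Fin n)) (i : ℕ) (D : Finset (Fin n)) : ℕ :=
  (univ.filter fun x : Fin n => (x : ℕ) < i ∧ x ∉ D).card +
    (D.filter fun x => ∀ y ∈ D, (x, y) ∉ S).card

/-- The cost of an up-set: the number of missing points plus the number of minimal elements. -/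
def cA (S : Finset (Fin n × Fin n)) (i : ℕ) (U : Finset (Fin n)) : ℕ :=
  (univ.filter fun x : Fin n => i ≤ (x : ℕ) ∧ x ∉ U).card +
    (U.filter fun x => ∀ y ∈ U, (y, x) ∉ S).card

open scoped Classical in
theorem TopH_union {α : Type*} [Fintype α] [DecidableEq α] (P : Finset α → Prop)
    (j g : Finset α → ℕ) (Q : ℕ)
    (h : ∀ a b : ℕ, (univ.filter fun D : Finset α => P D ∧ j D = a ∧ g D = b).card ≤
      (a + b).choose b) :
    (univ.filter fun D : Finset α => P D ∧ j D + g D ≤ Q).card ≤ (Q + 1) ^ 2 * 2 ^ Q := by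
  have h1 : (univ.filter fun D : Finset α => P D ∧ j D + g D ≤ Q) ⊆
      ((range (Q + 1) ×ˢ range (Q + 1)).filter fun q => q.1 + q.2 ≤ Q).biUnion
        fun q => univ.filter fun D : Finset α => P D ∧ j D = q.1 ∧ g D = q.2 := by
    intro D hD
    rw [mem_filter] at hD
    rw [mem_biUnion]
    refine ⟨(j D, g D), ?_, ?_⟩
    · rw [mem_filter, mem_product, mem_range, mem_range]
      refine ⟨⟨?_, ?_⟩, hD.2.2⟩
      · have := hD.2.2
        change j D < Q + 1
        omega
      · have := hD.2.2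
        change g D < Q + 1
        omega
    · rw [mem_filter]
      exact ⟨mem_univ _, hD.2.1, rfl, rfl⟩
  refine le_trans (card_le_card h1) ?_
  refine le_trans card_biUnion_le ?_
  have h2 : ∀ q ∈ (range (Q + 1) ×ˢ range (Q + 1)).filter (fun q : ℕ × ℕ => q.1 + q.2 ≤ Q),
      (univ.filter fun D : Finset α => P D ∧ j D = q.1 ∧ g D = q.2).card ≤ 2 ^ Q := by
    intro q hq
    rw [mem_filter] at hq
    refine le_trans (h q.1 q.2) ?_
    refine le_trans (Nat.choose_le_two_pow _ _) ?_
    exact Nat.pow_le_pow_right (by norm_num) hq.2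
  refine le_trans (sum_le_card_nsmul _ _ _ h2) ?_
  rw [smul_eq_mul]
  refine Nat.mul_le_mul_right _ ?_
  refine le_trans (Finset.card_filter_le _ _) ?_
  rw [card_product, card_range, sq]

open scoped Classical in
/-- **Number of cheap down-sets.**

Proof. For fixed numbers `j` of missing points and `g` of maximal elements: `encode_free` with `Ω = Fin n`, the time `n - x` (later
points first) and `free D x := (x : ℕ) < i ∧ ¬ ∃ y ∈ D, (x, y) ∈ S`; as `S` is natural such `y` is later than `x`, so the status depends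
only on the past. If `x` is not free then it is `≥ i` and not in `D`, or there is `y ∈ D` with `(x, y) ∈ S` and `x ∈ D`. The free
points in `D` are the maximal elements of `D`; the free points not in `D` are the missing points (a missing point is free
because `D` is a down-set). So there are at most `(j + g).choose g ≤ 2 ^ (j + g) ≤ 2 ^ Q` such `D`; there are at most `(Q + 1)^2` pairs `(j, g)` with
`j + g ≤ Q`. -/
theorem card_cheap_down {S : Finset (Fin n × Fin n)} (hn : Nat' S) (i Q : ℕ) :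
    (univ.filter fun D : Finset (Fin n) => IdB S i D ∧ cB S i D ≤ Q).card ≤
      (Q + 1) ^ 2 * 2 ^ Q := by
  refine TopH_union (fun D => IdB S i D)
    (fun D => (univ.filter fun x : Fin n => (x : ℕ) < i ∧ x ∉ D).card)
    (fun D => (D.filter fun x => ∀ y ∈ D, (x, y) ∉ S).card) Q ?_
  intro a b
  refine encode_free (fun x : Fin n => n - (x : ℕ)) _
    (fun D x => (x : ℕ) < i ∧ ¬ ∃ y ∈ D, (x, y) ∈ S) ?_ (a + b) b ?_ ?_
  · intro P hP R hR e hag
    rw [mem_filter] at hP hR
    obtain ⟨-, hP, -, -⟩ := hP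
    obtain ⟨-, hR, -, -⟩ := hR
    have hag' : ∀ y : Fin n, (e, y) ∈ S → (y ∈ P ↔ y ∈ R) := by
      intro y hy
      refine hag y ?_
      have h1 : e < y := hn (e, y) hy
      have h2 : (e : ℕ) < (y : ℕ) := h1
      have h3 := y.2
      change n - (y : ℕ) < n - (e : ℕ)
      omega
    have hex : (∃ y ∈ P, (e, y) ∈ S) ↔ ∃ y ∈ R, (e, y) ∈ S := by
      constructor
      · rintro ⟨y, hy, hy'⟩
        exact ⟨y, (hag' y hy').1 hy, hy'⟩
      · rintro ⟨y, hy, hy'⟩
        exact ⟨y, (hag' y hy').2 hy, hy'⟩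
    refine ⟨by rw [hex], fun hnf => ?_⟩
    by_cases hi : (e : ℕ) < i
    · have h1 : ∃ y ∈ P, (e, y) ∈ S := by
        by_contra hc
        exact hnf ⟨hi, hc⟩
      have h2 := hex.1 h1
      obtain ⟨y, hy, hy'⟩ := h1
      obtain ⟨z, hz, hz'⟩ := h2
      exact ⟨fun _ => hR.2 z hz e hz', fun _ => hP.2 y hy e hy'⟩
    · exact ⟨fun h => absurd (hP.1 e h) hi, fun h => absurd (hR.1 e h) hi⟩
  · intro P hP
    rw [mem_filter] at hP
    obtain ⟨-, hP, ha, hb⟩ := hP
    rw [← ha, ← hb]
    refine le_trans (card_le_card (t := (univ.filter fun x : Fin n => (x : ℕ) < i ∧ x ∉ P) ∪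
      (P.filter fun x => ∀ y ∈ P, (x, y) ∉ S)) ?_) (card_union_le _ _)
    intro x hx
    rw [mem_filter] at hx
    obtain ⟨-, hx1, hx2⟩ := hx
    rw [mem_union, mem_filter, mem_filter]
    by_cases hxP : x ∈ P
    · right
      exact ⟨hxP, fun y hy hxy => hx2 ⟨y, hy, hxy⟩⟩
    · left
      exact ⟨mem_univ _, hx1, hxP⟩
  · intro P hP
    rw [mem_filter] at hP
    obtain ⟨-, hP, ha, hb⟩ := hP
    rw [← hb]
    congr 1
    refine filter_congr fun x hx => ?_
    constructor
    · rintro ⟨-, h2⟩ y hy hxy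
      exact h2 ⟨y, hy, hxy⟩
    · intro h2
      refine ⟨hP.1 x hx, ?_⟩
      rintro ⟨y, hy, hxy⟩
      exact h2 y hy hxy

open scoped Classical in
/-- The same for up-sets (time `x`, `free U x := i ≤ x ∧ ¬ ∃ y ∈ U, (y, x) ∈ S`). -/
theorem card_cheap_up {S : Finset (Fin n × Fin n)} (hn : Nat' S) (i Q : ℕ) :
    (univ.filter fun U : Finset (Fin n) => FiA S i U ∧ cA S i U ≤ Q).card ≤
      (Q + 1) ^ 2 * 2 ^ Q := by
  refine TopH_union (fun D => FiA S i D)
    (fun D => (univ.filter fun x : Fin n => i ≤ (x : ℕ) ∧ x ∉ D).card)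
    (fun D => (D.filter fun x => ∀ y ∈ D, (y, x) ∉ S).card) Q ?_
  intro a b
  refine encode_free (fun x : Fin n => (x : ℕ)) _
    (fun D x => i ≤ (x : ℕ) ∧ ¬ ∃ y ∈ D, (y, x) ∈ S) ?_ (a + b) b ?_ ?_
  · intro P hP R hR e hag
    rw [mem_filter] at hP hR
    obtain ⟨-, hP, -, -⟩ := hP
    obtain ⟨-, hR, -, -⟩ := hR
    have hag' : ∀ y : Fin n, (y, e) ∈ S → (y ∈ P ↔ y ∈ R) := by
      intro y hy
      refine hag y ?_
      have h1 : y < e := hn (y, e) hy
      exact h1
    have hex : (∃ y ∈ P, (y, e) ∈ S) ↔ ∃ y ∈ R, (y, e) ∈ S := by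
      constructor
      · rintro ⟨y, hy, hy'⟩
        exact ⟨y, (hag' y hy').1 hy, hy'⟩
      · rintro ⟨y, hy, hy'⟩
        exact ⟨y, (hag' y hy').2 hy, hy'⟩
    refine ⟨by rw [hex], fun hnf => ?_⟩
    by_cases hi : i ≤ (e : ℕ)
    · have h1 : ∃ y ∈ P, (y, e) ∈ S := by
        by_contra hc
        exact hnf ⟨hi, hc⟩
      have h2 := hex.1 h1
      obtain ⟨y, hy, hy'⟩ := h1
      obtain ⟨z, hz, hz'⟩ := h2
      exact ⟨fun _ => hR.2 z hz e hz', fun _ => hP.2 y hy e hy'⟩
    · exact ⟨fun h => absurd (hP.1 e h) hi, fun h => absurd (hR.1 e h) hi⟩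
  · intro P hP
    rw [mem_filter] at hP
    obtain ⟨-, hP, ha, hb⟩ := hP
    rw [← ha, ← hb]
    refine le_trans (card_le_card (t := (univ.filter fun x : Fin n => i ≤ (x : ℕ) ∧ x ∉ P) ∪
      (P.filter fun x => ∀ y ∈ P, (y, x) ∉ S)) ?_) (card_union_le _ _)
    intro x hx
    rw [mem_filter] at hx
    obtain ⟨-, hx1, hx2⟩ := hx
    rw [mem_union, mem_filter, mem_filter]
    by_cases hxP : x ∈ P
    · right
      exact ⟨hxP, fun y hy hxy => hx2 ⟨y, hy, hxy⟩⟩
    · left
      exact ⟨mem_univ _, hx1, hxP⟩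
  · intro P hP
    rw [mem_filter] at hP
    obtain ⟨-, hP, ha, hb⟩ := hP
    rw [← hb]
    congr 1
    refine filter_congr fun x hx => ?_
    constructor
    · rintro ⟨-, h2⟩ y hy hxy
      exact h2 ⟨y, hy, hxy⟩
    · intro h2
      refine ⟨hP.1 x hx, ?_⟩
      rintro ⟨y, hy, hxy⟩
      exact h2 y hy hxy

/-- The insertions: `D` lies below `U`, `D` is a down-set, `U` is an up-set. -/
def Ins (S : Finset (Fin n × Fin n)) (D U : Finset (Fin n)) : Prop :=
  (∀ x ∈ D, ∀ y ∈ U, (x, y) ∈ S) ∧ (∀ x ∈ D, ∀ y, (y, x) ∈ S → y ∈ D) ∧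
    (∀ x ∈ U, ∀ y, (x, y) ∈ S → y ∈ U)

/-- The cost of an insertion: the number of points in neither set plus the numbers of maximal elements of
`D` and of minimal elements of `U`. -/
def cI (S : Finset (Fin n × Fin n)) (D U : Finset (Fin n)) : ℕ :=
  (univ.filter fun x : Fin n => x ∉ D ∧ x ∉ U).card +
    (D.filter fun x => ∀ y ∈ D, (x, y) ∉ S).card + (U.filter fun x => ∀ y ∈ U, (y, x) ∉ S).card

open scoped Classical in
/-- **Number of cheap insertions**, natural case.

Proof. Let `(D, U)` be such a pair. Since `S` is natural and `D × U ⊆ S`, all elements of `D` are smaller than all elements of `U`. Let `i` be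
`0` if `D = ∅` and `max D + 1` otherwise (`i = D.sup fun x => (x : ℕ) + 1`), `i ≤ n`. Then `IdB S i D`, `FiA S i U`, and
`cB S i D, cA S i U ≤ cI S D U`: the points `< i` which are not in `D` are not in `U`, the points `≥ i` not in `U` are not in `D`. So the pairs
inject into triples `(i, D, U)`: at most `(n + 1) * ((Q + 1)^2 * 2^Q)^2`. -/
theorem card_cheap_ins_nat {S : Finset (Fin n × Fin n)} (h : IsPO S) (hn : Nat' S) (Q : ℕ) :
    (univ.filter fun q : Finset (Fin n) × Finset (Fin n) =>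
      Ins S q.1 q.2 ∧ cI S q.1 q.2 ≤ Q).card ≤ (n + 1) * ((Q + 1) ^ 2 * 2 ^ Q) ^ 2 := by
  have h1 : (univ.filter fun q : Finset (Fin n) × Finset (Fin n) =>
      Ins S q.1 q.2 ∧ cI S q.1 q.2 ≤ Q) ⊆
      (range (n + 1)).biUnion fun i =>
        (univ.filter fun D : Finset (Fin n) => IdB S i D ∧ cB S i D ≤ Q) ×ˢ
          (univ.filter fun U : Finset (Fin n) => FiA S i U ∧ cA S i U ≤ Q) := by
    rintro ⟨D, U⟩ hq
    rw [mem_filter] at hq
    obtain ⟨-, ⟨hDU, hD, hU⟩, hc⟩ := hq
    simp only at hDU hD hU hc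
    obtain ⟨i, hi⟩ : ∃ i : ℕ, i = D.sup fun x => (x : ℕ) + 1 := ⟨_, rfl⟩
    have hDi : ∀ x ∈ D, (x : ℕ) < i := by
      intro x hx
      have : (x : ℕ) + 1 ≤ D.sup fun x => (x : ℕ) + 1 :=
        le_sup (f := fun x : Fin n => (x : ℕ) + 1) hx
      omega
    have hUi : ∀ x ∈ U, i ≤ (x : ℕ) := by
      intro x hx
      rw [hi]
      refine Finset.sup_le fun y hy => ?_
      have : y < x := hn (y, x) (hDU y hy x hx)
      exact this
    rw [mem_biUnion]
    refine ⟨i, ?_, ?_⟩
    · rw [mem_range, hi, Nat.lt_succ_iff]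
      exact Finset.sup_le fun y hy => y.2
    · rw [mem_product, mem_filter, mem_filter]
      refine ⟨⟨mem_univ _, ⟨hDi, hD⟩, ?_⟩, mem_univ _, ⟨hUi, hU⟩, ?_⟩
      · refine le_trans ?_ hc
        unfold cB cI
        refine le_trans (Nat.add_le_add_right (card_le_card ?_) _) (Nat.le_add_right _ _)
        intro x hx
        rw [mem_filter] at hx ⊢
        refine ⟨mem_univ _, hx.2.2, fun hxU => ?_⟩
        have := hUi x hxU
        have := hx.2.1
        omega
      · refine le_trans ?_ hc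
        unfold cA cI
        have h2 : (univ.filter fun x : Fin n => i ≤ (x : ℕ) ∧ x ∉ U).card ≤
            (univ.filter fun x : Fin n => x ∉ D ∧ x ∉ U).card := by
          refine card_le_card ?_
          intro x hx
          rw [mem_filter] at hx ⊢
          refine ⟨mem_univ _, fun hxD => ?_, hx.2.2⟩
          have := hDi x hxD
          have := hx.2.1
          omega
        change (univ.filter fun x : Fin n => i ≤ (x : ℕ) ∧ x ∉ U).card +
          (U.filter fun x => ∀ y ∈ U, (y, x) ∉ S).card ≤ _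
        omega
  refine le_trans (card_le_card h1) (le_trans card_biUnion_le ?_)
  have h2 : ∀ i ∈ range (n + 1),
      ((univ.filter fun D : Finset (Fin n) => IdB S i D ∧ cB S i D ≤ Q) ×ˢ
          (univ.filter fun U : Finset (Fin n) => FiA S i U ∧ cA S i U ≤ Q)).card ≤
        ((Q + 1) ^ 2 * 2 ^ Q) ^ 2 := by
    intro i _
    rw [card_product, sq]
    exact Nat.mul_le_mul (card_cheap_down hn i Q) (card_cheap_up hn i Q)
  refine le_trans (sum_le_card_nsmul _ _ _ h2) ?_
  rw [smul_eq_mul, card_range]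

theorem TopH_ins_relab {e : Equiv.Perm (Fin n)} {S : Finset (Fin n × Fin n)}
    {D U : Finset (Fin n)} (h : Ins S D U) :
    Ins (relab e S) (D.map e.toEmbedding) (U.map e.toEmbedding) := by
  obtain ⟨h1, h2, h3⟩ := h
  refine ⟨fun x hx y hy => ?_, fun x hx y hy => ?_, fun x hx y hy => ?_⟩
  · rw [mem_map_equiv] at hx hy
    rw [mem_relab]
    exact h1 _ hx _ hy
  · rw [mem_map_equiv] at hx ⊢
    rw [mem_relab] at hy
    exact h2 _ hx _ hy
  · rw [mem_map_equiv] at hx ⊢
    rw [mem_relab] at hy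
    exact h3 _ hx _ hy

theorem TopH_cI_relab {e : Equiv.Perm (Fin n)} {S : Finset (Fin n × Fin n)}
    {D U : Finset (Fin n)} :
    cI (relab e S) (D.map e.toEmbedding) (U.map e.toEmbedding) = cI S D U := by
  unfold cI
  have h1 : (univ.filter fun x : Fin n => x ∉ D.map e.toEmbedding ∧ x ∉ U.map e.toEmbedding) =
      (univ.filter fun x : Fin n => x ∉ D ∧ x ∉ U).map e.toEmbedding := by
    ext x
    rw [mem_map_equiv, mem_filter, mem_filter, mem_map_equiv, mem_map_equiv]
    simp only [mem_univ, true_and]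
  have h2 : ((D.map e.toEmbedding).filter fun x =>
      ∀ y ∈ D.map e.toEmbedding, (x, y) ∉ relab e S) =
      (D.filter fun x => ∀ y ∈ D, (x, y) ∉ S).map e.toEmbedding := by
    ext x
    rw [mem_map_equiv, mem_filter, mem_filter, mem_map_equiv]
    refine and_congr_right fun _ => ?_
    constructor
    · intro h y hy hxy
      refine h (e y) (by rw [mem_map_equiv, Equiv.symm_apply_apply]; exact hy) ?_
      rw [mem_relab]
      simpa using hxy
    · intro h y hy hxy
      rw [mem_map_equiv] at hy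
      rw [mem_relab] at hxy
      exact h _ hy hxy
  have h3 : ((U.map e.toEmbedding).filter fun x =>
      ∀ y ∈ U.map e.toEmbedding, (y, x) ∉ relab e S) =
      (U.filter fun x => ∀ y ∈ U, (y, x) ∉ S).map e.toEmbedding := by
    ext x
    rw [mem_map_equiv, mem_filter, mem_filter, mem_map_equiv]
    refine and_congr_right fun _ => ?_
    constructor
    · intro h y hy hxy
      refine h (e y) (by rw [mem_map_equiv, Equiv.symm_apply_apply]; exact hy) ?_
      rw [mem_relab]
      simpa using hxy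
    · intro h y hy hxy
      rw [mem_map_equiv] at hy
      rw [mem_relab] at hxy
      exact h _ hy hxy
  rw [h1, h2, h3, card_map, card_map, card_map]

open scoped Classical in
/-- The same for every poset: transport by `exists_nat_relab` (`q ↦ (q.1.map e, q.2.map e)` is a bijection between the
insertions of `S` and of `relab e S`, with the same cost). -/
theorem card_cheap_ins {S : Finset (Fin n × Fin n)} (h : IsPO S) (Q : ℕ) :
    (univ.filter fun q : Finset (Fin n) × Finset (Fin n) =>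
      Ins S q.1 q.2 ∧ cI S q.1 q.2 ≤ Q).card ≤ (n + 1) * ((Q + 1) ^ 2 * 2 ^ Q) ^ 2 := by
  obtain ⟨e, he⟩ := exists_nat_relab h
  refine le_trans ?_ (card_cheap_ins_nat (isPO_relab (e := e) h) he Q)
  refine card_le_card_of_injOn
    (fun q => (q.1.map e.toEmbedding, q.2.map e.toEmbedding)) (fun q hq => ?_) ?_
  · rw [mem_coe, mem_filter] at hq ⊢
    refine ⟨mem_univ _, TopH_ins_relab hq.2.1, ?_⟩
    change cI (relab e S) (q.1.map e.toEmbedding) (q.2.map e.toEmbedding) ≤ Q
    rw [TopH_cI_relab]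
    exact hq.2.2
  · rintro ⟨D, U⟩ _ ⟨D', U'⟩ _ hh
    simp only [Prod.mk.injEq] at hh
    exact Prod.ext (map_injective _ hh.1) (map_injective _ hh.2)

end Pool.Agent.H.MP_82502e_co
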