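import Pool.Agent.H.MP_82502e_co.TopH

set_option autoImplicit false

/-!
# Deletion of a point
-/

namespace Pool.Agent.H.MP_82502e_co

open Finset

variable {n : ℕ}

/-- The poset without the point `z`. -/
def del (z : Fin (n + 1)) (S : Finset (Fin (n + 1) × Fin (n + 1))) : Finset (Fin n × Fin n) :=
  univ.filter fun p => (z.succAbove p.1, z.succAbove p.2) ∈ S

/-- The points below `z`, in the numbering of `del z S`. -/
def dD (z : Fin (n + 1)) (S : Finset (Fin (n + 1) × Fin (n + 1))) : Finset (Fin n) :=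
  univ.filter fun x => (z.succAbove x, z) ∈ S

/-- The points above `z`, in the numbering of `del z S`. -/
def dU (z : Fin (n + 1)) (S : Finset (Fin (n + 1) × Fin (n + 1))) : Finset (Fin n) :=
  univ.filter fun x => (z, z.succAbove x) ∈ S

theorem TopI_mem_del {z : Fin (n + 1)} {S : Finset (Fin (n + 1) × Fin (n + 1))} {p : Fin n × Fin n} :
    p ∈ del z S ↔ (z.succAbove p.1, z.succAbove p.2) ∈ S := by
  unfold del
  rw [mem_filter]
  exact ⟨fun h => h.2, fun h => ⟨mem_univ _, h⟩⟩

theorem TopI_mem_dD {z : Fin (n + 1)} {S : Finset (Fin (n + 1) × Fin (n + 1))} {x : Fin n} :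
    x ∈ dD z S ↔ (z.succAbove x, z) ∈ S := by
  unfold dD
  rw [mem_filter]
  exact ⟨fun h => h.2, fun h => ⟨mem_univ _, h⟩⟩

theorem TopI_mem_dU {z : Fin (n + 1)} {S : Finset (Fin (n + 1) × Fin (n + 1))} {x : Fin n} :
    x ∈ dU z S ↔ (z, z.succAbove x) ∈ S := by
  unfold dU
  rw [mem_filter]
  exact ⟨fun h => h.2, fun h => ⟨mem_univ _, h⟩⟩

theorem isPO_del {z : Fin (n + 1)} {S : Finset (Fin (n + 1) × Fin (n + 1))} (h : IsPO S) :
    IsPO (del z S) := by
  refine ⟨fun i hi => h.1 _ (TopI_mem_del.1 hi), fun i j l hij hjl => ?_⟩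
  have h1 := TopI_mem_del.1 hij
  have h2 := TopI_mem_del.1 hjl
  exact TopI_mem_del.2 (h.2 _ _ _ h1 h2)

theorem ins_del {z : Fin (n + 1)} {S : Finset (Fin (n + 1) × Fin (n + 1))} (h : IsPO S) :
    Ins (del z S) (dD z S) (dU z S) := by
  refine ⟨fun x hx y hy => ?_, fun x hx y hy => ?_, fun x hx y hy => ?_⟩
  · exact TopI_mem_del.2 (h.2 _ _ _ (TopI_mem_dD.1 hx) (TopI_mem_dU.1 hy))
  · exact TopI_mem_dD.2 (h.2 _ _ _ (TopI_mem_del.1 hy) (TopI_mem_dD.1 hx))
  · exact TopI_mem_dU.2 (h.2 _ _ _ (TopI_mem_dU.1 hx) (TopI_mem_del.1 hy))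

theorem TopI_cases (z x : Fin (n + 1)) : x = z ∨ ∃ y : Fin n, z.succAbove y = x := by
  by_cases hx : x = z
  · exact Or.inl hx
  · exact Or.inr (Fin.exists_succAbove_eq hx)

/-- `S` is determined by `z`, `del z S`, `dD z S`, `dU z S` (`Fin.succAbove` surjects on the points `≠ z`:
`Fin.exists_succAbove_eq`; `(z, z) ∉ S`). -/
theorem del_injective {z : Fin (n + 1)} {S T : Finset (Fin (n + 1) × Fin (n + 1))} (hS : IsPO S)
    (hT : IsPO T) (h1 : del z S = del z T) (h2 : dD z S = dD z T) (h3 : dU z S = dU z T) :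
    S = T := by
  ext ⟨a, b⟩
  rcases TopI_cases z a with ha | ⟨a', ha⟩
  · rcases TopI_cases z b with hb | ⟨b', hb⟩
    · subst ha
      subst hb
      exact ⟨fun h => absurd h (hS.1 _), fun h => absurd h (hT.1 _)⟩
    · subst ha
      rw [← hb, ← TopI_mem_dU, ← TopI_mem_dU, h3]
  · rcases TopI_cases z b with hb | ⟨b', hb⟩
    · subst hb
      rw [← ha, ← TopI_mem_dD, ← TopI_mem_dD, h2]
    · rw [← ha, ← hb]
      have e1 := TopI_mem_del (z := z) (S := S) (p := (a', b'))
      have e2 := TopI_mem_del (z := z) (S := T) (p := (a', b'))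
      rw [h1] at e1
      exact e1.symm.trans e2

theorem card_del {z : Fin (n + 1)} {S : Finset (Fin (n + 1) × Fin (n + 1))} (h : IsPO S) :
    S.card = (del z S).card + (dD z S).card + (dU z S).card := by
  obtain ⟨f1, hf1⟩ : ∃ f : (Fin n × Fin n) ↪ (Fin (n + 1) × Fin (n + 1)),
      ∀ p, f p = (z.succAbove p.1, z.succAbove p.2) :=
    ⟨⟨fun p => (z.succAbove p.1, z.succAbove p.2), fun p q hpq => by
      have h1 := congrArg Prod.fst hpq
      have h2 := congrArg Prod.snd hpq
      exact Prod.ext (Fin.succAbove_right_injective h1) (Fin.succAbove_right_injective h2)⟩,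
      fun p => rfl⟩
  obtain ⟨f2, hf2⟩ : ∃ f : Fin n ↪ (Fin (n + 1) × Fin (n + 1)), ∀ x, f x = (z.succAbove x, z) :=
    ⟨⟨fun x => (z.succAbove x, z), fun p q hpq =>
      Fin.succAbove_right_injective (congrArg Prod.fst hpq)⟩, fun p => rfl⟩
  obtain ⟨f3, hf3⟩ : ∃ f : Fin n ↪ (Fin (n + 1) × Fin (n + 1)), ∀ x, f x = (z, z.succAbove x) :=
    ⟨⟨fun x => (z, z.succAbove x), fun p q hpq =>
      Fin.succAbove_right_injective (congrArg Prod.snd hpq)⟩, fun p => rfl⟩
  have hd2 : Disjoint ((dD z S).map f2) ((dU z S).map f3) := by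
    rw [disjoint_left]
    intro p hp hp'
    rw [mem_map] at hp hp'
    obtain ⟨x, -, hx⟩ := hp
    obtain ⟨y, -, hy⟩ := hp'
    rw [← hx, hf2, hf3] at hy
    exact (Fin.succAbove_ne z x) (congrArg Prod.fst hy).symm
  have hd1 : Disjoint ((del z S).map f1) ((dD z S).map f2 ∪ (dU z S).map f3) := by
    rw [disjoint_left]
    intro p hp hp'
    rw [mem_map] at hp
    obtain ⟨x, -, hx⟩ := hp
    rw [mem_union, mem_map, mem_map] at hp'
    rcases hp' with ⟨y, -, hy⟩ | ⟨y, -, hy⟩
    · rw [← hx, hf1, hf2] at hy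
      exact (Fin.succAbove_ne z x.2) (congrArg Prod.snd hy).symm
    · rw [← hx, hf1, hf3] at hy
      exact (Fin.succAbove_ne z x.1) (congrArg Prod.fst hy).symm
  have hu : S = (del z S).map f1 ∪ ((dD z S).map f2 ∪ (dU z S).map f3) := by
    ext ⟨a, b⟩
    rw [mem_union, mem_union, mem_map, mem_map, mem_map]
    constructor
    · intro hab
      rcases TopI_cases z a with ha | ⟨a', ha⟩
      · rcases TopI_cases z b with hb | ⟨b', hb⟩
        · exfalso
          rw [ha, hb] at hab
          exact h.1 _ hab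
        · refine Or.inr (Or.inr ⟨b', TopI_mem_dU.2 ?_, ?_⟩)
          · rw [hb, ← ha]
            exact hab
          · rw [hf3, hb, ha]
      · rcases TopI_cases z b with hb | ⟨b', hb⟩
        · refine Or.inr (Or.inl ⟨a', TopI_mem_dD.2 ?_, ?_⟩)
          · rw [ha, ← hb]
            exact hab
          · rw [hf2, ha, hb]
        · refine Or.inl ⟨(a', b'), TopI_mem_del.2 ?_, ?_⟩
          · change (z.succAbove a', z.succAbove b') ∈ S
            rw [ha, hb]
            exact hab
          · rw [hf1]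
            change (z.succAbove a', z.succAbove b') = (a, b)
            rw [ha, hb]
    · rintro (⟨x, hx, hx'⟩ | ⟨x, hx, hx'⟩ | ⟨x, hx, hx'⟩)
      · rw [← hx', hf1]
        exact TopI_mem_del.1 hx
      · rw [← hx', hf2]
        exact TopI_mem_dD.1 hx
      · rw [← hx', hf3]
        exact TopI_mem_dU.1 hx
  have h1 := congrArg Finset.card hu
  rw [card_union_of_disjoint hd1, card_union_of_disjoint hd2, card_map, card_map, card_map] at h1
  omega

/-- The number of points incomparable to `z`. -/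
def ic (z : Fin (n + 1)) (S : Finset (Fin (n + 1) × Fin (n + 1))) : ℕ :=
  (univ.filter fun x : Fin n => x ∉ dD z S ∧ x ∉ dU z S).card

/-- The cost of `z`: incomparable points plus lower and upper covers of `z` (the maximal elements of `D(z)` are the
lower covers of `z`). -/
theorem cI_del {z : Fin (n + 1)} {S : Finset (Fin (n + 1) × Fin (n + 1))} (h : IsPO S) :
    cI (del z S) (dD z S) (dU z S) = ic z S +
      (univ.filter fun x => (x, z) ∈ Cov S).card + (univ.filter fun x => (z, x) ∈ Cov S).card := by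
  have h1 : ((dD z S).filter fun x => ∀ y ∈ dD z S, (x, y) ∉ del z S).card =
      (univ.filter fun x => (x, z) ∈ Cov S).card := by
    rw [← card_map (Fin.succAboveEmb z)]
    congr 1
    ext x
    rw [mem_map, mem_filter]
    constructor
    · rintro ⟨y, hy, hy'⟩
      rw [mem_filter, TopI_mem_dD] at hy
      have hy2 : z.succAbove y = x := hy'
      refine ⟨mem_univ _, mem_Cov.2 ⟨?_, ?_⟩⟩
      · rw [← hy2]
        exact hy.1
      · rintro w ⟨hw1, hw2⟩
        rcases TopI_cases z w with hw | ⟨w', hw⟩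
        · rw [hw] at hw2
          exact h.1 _ hw2
        · refine hy.2 w' ?_ ?_
          · rw [TopI_mem_dD, hw]
            exact hw2
          · rw [TopI_mem_del]
            change (z.succAbove y, z.succAbove w') ∈ S
            rw [hy2, hw]
            exact hw1
    · rintro ⟨-, hx⟩
      obtain ⟨hx1, hx2⟩ := mem_Cov.1 hx
      rcases TopI_cases z x with hw | ⟨y, hy⟩
      · exfalso
        rw [hw] at hx1
        exact h.1 _ hx1
      · refine ⟨y, ?_, hy⟩
        rw [mem_filter, TopI_mem_dD, hy]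
        refine ⟨hx1, fun w hw hyw => ?_⟩
        rw [TopI_mem_dD] at hw
        rw [TopI_mem_del] at hyw
        change (z.succAbove y, z.succAbove w) ∈ S at hyw
        rw [hy] at hyw
        exact hx2 _ ⟨hyw, hw⟩
  have h2 : ((dU z S).filter fun x => ∀ y ∈ dU z S, (y, x) ∉ del z S).card =
      (univ.filter fun x => (z, x) ∈ Cov S).card := by
    rw [← card_map (Fin.succAboveEmb z)]
    congr 1
    ext x
    rw [mem_map, mem_filter]
    constructor
    · rintro ⟨y, hy, hy'⟩
      rw [mem_filter, TopI_mem_dU] at hy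
      have hy2 : z.succAbove y = x := hy'
      refine ⟨mem_univ _, mem_Cov.2 ⟨?_, ?_⟩⟩
      · rw [← hy2]
        exact hy.1
      · rintro w ⟨hw1, hw2⟩
        rcases TopI_cases z w with hw | ⟨w', hw⟩
        · rw [hw] at hw1
          exact h.1 _ hw1
        · refine hy.2 w' ?_ ?_
          · rw [TopI_mem_dU, hw]
            exact hw1
          · rw [TopI_mem_del]
            change (z.succAbove w', z.succAbove y) ∈ S
            rw [hy2, hw]
            exact hw2
    · rintro ⟨-, hx⟩
      obtain ⟨hx1, hx2⟩ := mem_Cov.1 hx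
      rcases TopI_cases z x with hw | ⟨y, hy⟩
      · exfalso
        rw [hw] at hx1
        exact h.1 _ hx1
      · refine ⟨y, ?_, hy⟩
        rw [mem_filter, TopI_mem_dU, hy]
        refine ⟨hx1, fun w hw hyw => ?_⟩
        rw [TopI_mem_dU] at hw
        rw [TopI_mem_del] at hyw
        change (z.succAbove w, z.succAbove y) ∈ S at hyw
        rw [hy] at hyw
        exact hx2 _ ⟨hw, hyw⟩
  unfold cI ic
  rw [h1, h2]

/-- Sum of the fibres over the second coordinate. -/
theorem TopI_sum_snd (A : Finset (Fin n × Fin n)) :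
    ∑ z, (univ.filter fun x => (x, z) ∈ A).card = A.card := by
  have h1 : A.card = ∑ z, (A.filter fun p => p.2 = z).card :=
    card_eq_sum_card_fiberwise (f := fun p : Fin n × Fin n => p.2) (t := univ)
      (fun p _ => mem_univ _)
  rw [h1]
  refine sum_congr rfl fun z _ => ?_
  refine card_bij (fun x _ => (x, z)) ?_ ?_ ?_
  · intro x hx
    rw [mem_filter] at hx
    rw [mem_filter]
    exact ⟨hx.2, rfl⟩
  · intro x _ y _ hxy
    exact congrArg Prod.fst hxy
  · rintro ⟨a, b⟩ hp
    rw [mem_filter] at hp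
    have hb : b = z := hp.2
    refine ⟨a, ?_, ?_⟩
    · rw [mem_filter, ← hb]
      exact ⟨mem_univ _, hp.1⟩
    · rw [hb]

/-- Sum of the fibres over the first coordinate. -/
theorem TopI_sum_fst (A : Finset (Fin n × Fin n)) :
    ∑ z, (univ.filter fun x => (z, x) ∈ A).card = A.card := by
  have h1 : A.card = ∑ z, (A.filter fun p => p.1 = z).card :=
    card_eq_sum_card_fiberwise (f := fun p : Fin n × Fin n => p.1) (t := univ)
      (fun p _ => mem_univ _)
  rw [h1]
  refine sum_congr rfl fun z _ => ?_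
  refine card_bij (fun x _ => (z, x)) ?_ ?_ ?_
  · intro x hx
    rw [mem_filter] at hx
    rw [mem_filter]
    exact ⟨hx.2, rfl⟩
  · intro x _ y _ hxy
    exact congrArg Prod.snd hxy
  · rintro ⟨a, b⟩ hp
    rw [mem_filter] at hp
    have hb : a = z := hp.2
    refine ⟨b, ?_, ?_⟩
    · rw [mem_filter, ← hb]
      exact ⟨mem_univ _, hp.1⟩
    · rw [hb]

theorem TopI_ic {z : Fin (n + 1)} {S : Finset (Fin (n + 1) × Fin (n + 1))} :
    ic z S = (univ.filter fun x => (x, z) ∈ Inc S).card := by
  unfold ic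
  rw [← card_map (Fin.succAboveEmb z)]
  congr 1
  ext x
  rw [mem_map, mem_filter]
  constructor
  · rintro ⟨y, hy, hy'⟩
    rw [mem_filter, TopI_mem_dD, TopI_mem_dU] at hy
    have hy2 : z.succAbove y = x := hy'
    rw [hy2] at hy
    rw [Inc, mem_filter]
    refine ⟨mem_univ _, mem_univ _, ?_, hy.2.1, hy.2.2⟩
    rw [← hy2]
    exact Fin.succAbove_ne z y
  · rintro ⟨-, hx⟩
    rw [Inc, mem_filter] at hx
    obtain ⟨y, hy⟩ := Fin.exists_succAbove_eq hx.2.1
    refine ⟨y, ?_, hy⟩
    rw [mem_filter, TopI_mem_dD, TopI_mem_dU, hy]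
    exact ⟨mem_univ _, hx.2.2.1, hx.2.2.2⟩

/-- Double counting: `∑_z ic z S = |Inc S| = 2 (NN (n+1) - |S|)`, the cover terms add up to `2 |Cov S|`, and `card_cov_le_gen`. -/
theorem sum_cost {S : Finset (Fin (n + 1) × Fin (n + 1))} (h : IsPO S) :
    ∑ z, cI (del z S) (dD z S) (dU z S) ≤ 6 * (NN (n + 1) - S.card) + 4 * (n + 1) := by
  have h1 : ∑ z, cI (del z S) (dD z S) (dU z S) =
      (Inc S).card + (Cov S).card + (Cov S).card := by
    rw [sum_congr rfl (fun z _ => cI_del (z := z) h), sum_add_distrib, sum_add_distrib,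
      TopI_sum_snd, TopI_sum_fst, sum_congr rfl (fun z _ => TopI_ic (z := z) (S := S)),
      TopI_sum_snd]
  have h2 := TopE_card_Inc h
  have h3 := card_cov_le_gen h
  omega

/-- The level of `del z S`: `NN n - |del z S| = (NN (n+1) - |S|) - ic z S`, and `ic z S ≤ NN (n+1) - |S|`.
(`NN (n+1) = NN n + n`, `|D| + |U| + ic = n`, `card_del`, `card_le_NN`.) -/
theorem level_del {z : Fin (n + 1)} {S : Finset (Fin (n + 1) × Fin (n + 1))} (h : IsPO S) :
    (NN n - (del z S).card) + ic z S = NN (n + 1) - S.card := by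
  have h1 : (dD z S).card + (dU z S).card + ic z S = n := by
    have hd : Disjoint (dD z S) (dU z S) := by
      rw [disjoint_left]
      intro x hx hx'
      exact h.1 _ (h.2 _ _ _ (TopI_mem_dD.1 hx) (TopI_mem_dU.1 hx'))
    have hu : (univ.filter fun x : Fin n => x ∉ dD z S ∧ x ∉ dU z S) = (dD z S ∪ dU z S)ᶜ := by
      ext x
      rw [mem_filter, mem_compl, mem_union, not_or]
      exact ⟨fun h => h.2, fun h => ⟨mem_univ _, h⟩⟩
    have hc := card_add_card_compl (dD z S ∪ dU z S)
    rw [← hu, card_union_of_disjoint hd, Fintype.card_fin] at hc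
    unfold ic
    exact hc
  have h2 := card_del (z := z) h
  have h3 := card_le_NN h
  have h4 := card_le_NN (isPO_del (z := z) h)
  have h5 : NN (n + 1) = NN n + n := by
    have e1 := TopE_two_NN (n + 1)
    have e2 := TopE_two_NN n
    rw [Nat.add_sub_cancel] at e1
    have e3 : (n + 1) * n = n * (n - 1) + 2 * n := by
      rcases n with _ | m
      · rfl
      · rw [Nat.add_sub_cancel]
        ring
    omega
  omega

end Pool.Agent.H.MP_82502e_co
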