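import Pool.Agent.H.MP_82502e_co.TopI

set_option autoImplicit false

/-!
# The deletion lemma
-/

namespace Pool.Agent.H.MP_82502e_co

open Finset

variable {n : ℕ}

/-- At least half of the points are cheap. -/
theorem TopJ_cheap {S : Finset (Fin (n + 1) × Fin (n + 1))} {m Q : ℕ} (h : IsPO S)
    (hc : NN (n + 1) - S.card = m) (hQ : 12 * m + 8 * (n + 1) ≤ Q * (n + 1)) :
    n + 1 ≤ 2 * (univ.filter fun z => cI (del z S) (dD z S) (dU z S) ≤ Q).card := by
  have h1 := sum_cost h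
  rw [hc] at h1
  have h2 : (Q + 1) * (univ.filter fun z => ¬ cI (del z S) (dD z S) (dU z S) ≤ Q).card ≤
      ∑ z, cI (del z S) (dD z S) (dU z S) := by
    calc (Q + 1) * (univ.filter fun z => ¬ cI (del z S) (dD z S) (dU z S) ≤ Q).card
        = ∑ _z ∈ univ.filter (fun z => ¬ cI (del z S) (dD z S) (dU z S) ≤ Q), (Q + 1) := by
          rw [sum_const, smul_eq_mul, mul_comm]
      _ ≤ ∑ z ∈ univ.filter (fun z => ¬ cI (del z S) (dD z S) (dU z S) ≤ Q),
          cI (del z S) (dD z S) (dU z S) := by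
          refine sum_le_sum fun z hz => ?_
          rw [mem_filter, not_le] at hz
          exact hz.2
      _ ≤ ∑ z, cI (del z S) (dD z S) (dU z S) :=
          sum_le_sum_of_subset (filter_subset _ _)
  have h3 := card_filter_add_card_filter_not (s := (univ : Finset (Fin (n + 1))))
    (fun z => cI (del z S) (dD z S) (dU z S) ≤ Q)
  rw [card_univ, Fintype.card_fin] at h3
  obtain ⟨E, hE⟩ : ∃ E, E = (univ.filter fun z => ¬ cI (del z S) (dD z S) (dU z S) ≤ Q).card :=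
    ⟨_, rfl⟩
  rw [← hE] at h2 h3
  have h4 : (Q + 1) * (2 * E) ≤ (Q + 1) * (n + 1) := by
    calc (Q + 1) * (2 * E) = 2 * ((Q + 1) * E) := by ring
      _ ≤ 2 * (6 * m + 4 * (n + 1)) := Nat.mul_le_mul_left 2 (h2.trans h1)
      _ = 12 * m + 8 * (n + 1) := by ring
      _ ≤ Q * (n + 1) := hQ
      _ ≤ (Q + 1) * (n + 1) := Nat.mul_le_mul_right _ (Nat.le_succ Q)
  have h5 : 2 * E ≤ n + 1 := Nat.le_of_mul_le_mul_left h4 (Nat.succ_pos Q)
  omega

open scoped Classical in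
/-- For one deleted point. -/
theorem TopJ_one {m Q : ℕ} (hm : m ≤ NN (n + 1)) (z : Fin (n + 1)) :
    ((PO (n + 1) (NN (n + 1) - m)).filter fun S => cI (del z S) (dD z S) (dU z S) ≤ Q).card ≤
      (n + 1) * ((Q + 1) ^ 2 * 2 ^ Q) ^ 2 *
        ∑ j ∈ (range (Q + 1)).filter (fun j => j ≤ m ∧ m - j ≤ NN n), bb n (m - j) := by
  obtain ⟨X, hX⟩ : ∃ X, X = (PO (n + 1) (NN (n + 1) - m)).filter fun S =>
    cI (del z S) (dD z S) (dU z S) ≤ Q := ⟨_, rfl⟩
  rw [← hX]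
  have hmem : ∀ S ∈ X, IsPO S ∧ (NN n - (del z S).card) + ic z S = m ∧
      cI (del z S) (dD z S) (dU z S) ≤ Q := by
    intro S hS
    rw [hX, mem_filter, mem_PO] at hS
    have h1 := level_del (z := z) hS.1.1
    refine ⟨hS.1.1, ?_, hS.2⟩
    rw [h1, hS.1.2]
    omega
  have hic : ∀ S ∈ X, ic z S ∈ (range (Q + 1)).filter (fun j => j ≤ m ∧ m - j ≤ NN n) := by
    intro S hS
    obtain ⟨-, h2, h3⟩ := hmem S hS
    have h4 : ic z S ≤ Q := by
      unfold cI at h3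
      unfold ic
      omega
    rw [mem_filter, mem_range]
    omega
  rw [card_eq_sum_card_fiberwise (f := ic z) (t := (range (Q + 1)).filter
    (fun j => j ≤ m ∧ m - j ≤ NN n)) hic, mul_sum]
  refine sum_le_sum fun j hj => ?_
  rw [mem_filter, mem_range] at hj
  have key : (X.filter fun S => ic z S = j).card ≤
      ((n + 1) * ((Q + 1) ^ 2 * 2 ^ Q) ^ 2) * (PO n (NN n - (m - j))).card := by
    refine card_le_mul_card_image_of_maps_to (f := del z) ?_ _ ?_
    · intro S hS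
      rw [mem_filter] at hS
      obtain ⟨h1, h2, h3⟩ := hmem S hS.1
      rw [mem_PO]
      refine ⟨isPO_del h1, ?_⟩
      have h4 := card_le_NN (isPO_del (z := z) h1)
      rw [hS.2] at h2
      omega
    · intro T hT
      rw [mem_PO] at hT
      refine le_trans ?_ (card_cheap_ins hT.1 Q)
      refine card_le_card_of_injOn (fun S => (dD z S, dU z S)) ?_ ?_
      · intro S hS
        rw [mem_coe, mem_filter, mem_filter] at hS
        obtain ⟨h1, h2, h3⟩ := hmem S hS.1.1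
        rw [mem_coe, mem_filter]
        have h4 := ins_del (z := z) h1
        rw [hS.2] at h3 h4
        exact ⟨mem_univ _, h4, h3⟩
      · intro S hS S' hS' he
        rw [mem_coe, mem_filter, mem_filter] at hS hS'
        exact del_injective (hmem S hS.1.1).1 (hmem S' hS'.1.1).1 (hS.2.trans hS'.2.symm)
          (congrArg Prod.fst he) (congrArg Prod.snd he)
  exact key

/-- **Deletion lemma.**

Proof. For `S ∈ PO (n+1) (NN (n+1) - m)` call `z` cheap if its cost is `≤ Q`; by `sum_cost` and Markov (`hQ`) at least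
`(n + 1) / 2` points are cheap. So `(n + 1) * bb (n+1) m ≤ 2 * #{(S, z) : z cheap}`. The map
`(S, z) ↦ (z, del z S, (dD z S, dU z S))` is injective (`del_injective`) into: `z` (`n + 1` values), `S' = del z S` in
`⋃_{j ≤ Q, j ≤ m} PO n (NN n - (m - j))` with `j = ic z S` (`level_del`; `m - j ≤ NN n`), and a cheap insertion of `S'`
(`card_cheap_ins`). Hence `#{(S, z)} ≤ (n + 1) * ∑_{j ≤ Q} [j ≤ m, m - j ≤ NN n] bb n (m - j) * ((n + 1) * ((Q+1)^2 2^Q)^2)`; divide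
by `n + 1`. -/
theorem deletion {n m Q : ℕ} (hm : m ≤ NN (n + 1)) (hQ : 12 * m + 8 * (n + 1) ≤ Q * (n + 1)) :
    bb (n + 1) m ≤ 2 * (n + 1) * ((Q + 1) ^ 2 * 2 ^ Q) ^ 2 *
      ∑ j ∈ (range (Q + 1)).filter (fun j => j ≤ m ∧ m - j ≤ NN n), bb n (m - j) := by
  classical
  obtain ⟨Sg, hSg⟩ : ∃ Sg, Sg = ∑ j ∈ (range (Q + 1)).filter (fun j => j ≤ m ∧ m - j ≤ NN n),
    bb n (m - j) := ⟨_, rfl⟩
  rw [← hSg]
  have h1 : (PO (n + 1) (NN (n + 1) - m)).card * (n + 1) ≤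
      ∑ S ∈ PO (n + 1) (NN (n + 1) - m),
        2 * (univ.filter fun z => cI (del z S) (dD z S) (dU z S) ≤ Q).card := by
    rw [← smul_eq_mul, ← sum_const]
    refine sum_le_sum fun S hS => ?_
    rw [mem_PO] at hS
    refine TopJ_cheap hS.1 ?_ hQ
    rw [hS.2]
    omega
  have h2 : ∑ S ∈ PO (n + 1) (NN (n + 1) - m),
        (univ.filter fun z => cI (del z S) (dD z S) (dU z S) ≤ Q).card =
      ∑ z : Fin (n + 1), ((PO (n + 1) (NN (n + 1) - m)).filter fun S =>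
        cI (del z S) (dD z S) (dU z S) ≤ Q).card := by
    simp only [card_filter]
    exact sum_comm
  have h3 : ∑ z : Fin (n + 1), ((PO (n + 1) (NN (n + 1) - m)).filter fun S =>
        cI (del z S) (dD z S) (dU z S) ≤ Q).card ≤
      (n + 1) * ((n + 1) * ((Q + 1) ^ 2 * 2 ^ Q) ^ 2 * Sg) := by
    calc ∑ z : Fin (n + 1), ((PO (n + 1) (NN (n + 1) - m)).filter fun S =>
        cI (del z S) (dD z S) (dU z S) ≤ Q).card
        ≤ ∑ _z : Fin (n + 1), (n + 1) * ((Q + 1) ^ 2 * 2 ^ Q) ^ 2 * Sg := by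
          refine sum_le_sum fun z _ => ?_
          rw [hSg]
          exact TopJ_one hm z
      _ = (n + 1) * ((n + 1) * ((Q + 1) ^ 2 * 2 ^ Q) ^ 2 * Sg) := by
          rw [sum_const, card_univ, Fintype.card_fin, smul_eq_mul]
  rw [← mul_sum, h2] at h1
  have h4 : (n + 1) * bb (n + 1) m ≤
      (n + 1) * (2 * (n + 1) * ((Q + 1) ^ 2 * 2 ^ Q) ^ 2 * Sg) := by
    calc (n + 1) * bb (n + 1) m = (PO (n + 1) (NN (n + 1) - m)).card * (n + 1) := by
          rw [mul_comm]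
          rfl
      _ ≤ 2 * ((n + 1) * ((n + 1) * ((Q + 1) ^ 2 * 2 ^ Q) ^ 2 * Sg)) :=
          h1.trans (Nat.mul_le_mul_left 2 h3)
      _ = (n + 1) * (2 * (n + 1) * ((Q + 1) ^ 2 * 2 ^ Q) ^ 2 * Sg) := by ring
  exact Nat.le_of_mul_le_mul_left h4 (Nat.succ_pos n)

/-- `bt n m = bb n m / n!`. -/
noncomputable def bt (n m : ℕ) : ℝ := (bb n m : ℝ) / (n.factorial : ℝ)

theorem TopJ_bt_nonneg (n m : ℕ) : 0 ≤ bt n m := by
  unfold bt
  positivity

/-- The index set of `deletion` is not empty. -/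
theorem TopJ_nonempty {n m Q : ℕ} (hm : m ≤ NN (n + 1))
    (hQ : 12 * m + 8 * (n + 1) ≤ Q * (n + 1)) :
    ((range (Q + 1)).filter (fun j => j ≤ m ∧ m - j ≤ NN n)).Nonempty := by
  refine ⟨m - NN n, ?_⟩
  rw [mem_filter, mem_range]
  have e1 := TopE_two_NN (n + 1)
  have e2 := TopE_two_NN n
  rw [Nat.add_sub_cancel] at e1
  have e3 : (n + 1) * n = n * (n - 1) + 2 * n := by
    rcases n with _ | m
    · rfl
    · rw [Nat.add_sub_cancel]
      ring
  have hQ' : m - NN n ≤ Q := by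
    by_contra hcon
    rw [not_le] at hcon
    have h1 : Q + 1 ≤ n := by omega
    have h2 : Q * (n + 1) ≤ (n - 1) * (n + 1) := Nat.mul_le_mul_right _ (by omega)
    have h3 : (n - 1) * (n + 1) = n * (n - 1) + (n - 1) := by ring
    omega
  omega

/-- Proof: take the largest term of the sum in `deletion` (the sum is positive because the left side is positive, so the
index set is not empty), `(n+1)! = (n+1) n!`. -/
theorem bt_deletion {n m Q : ℕ} (hm : m ≤ NN (n + 1)) (hQ : 12 * m + 8 * (n + 1) ≤ Q * (n + 1)) :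
    ∃ j ≤ Q, j ≤ m ∧ m - j ≤ NN n ∧
      bt (n + 1) m ≤ 2 * ((Q : ℝ) + 1) ^ 5 * 4 ^ Q * bt n (m - j) := by
  obtain ⟨j, hj, hmax⟩ := exists_max_image _ (fun j => bb n (m - j)) (TopJ_nonempty hm hQ)
  have hj' := hj
  rw [mem_filter, mem_range] at hj'
  refine ⟨j, by omega, hj'.2.1, hj'.2.2, ?_⟩
  have h1 := deletion hm hQ
  have h2 : ∑ j ∈ (range (Q + 1)).filter (fun j => j ≤ m ∧ m - j ≤ NN n), bb n (m - j) ≤
      (Q + 1) * bb n (m - j) := by
    calc ∑ i ∈ (range (Q + 1)).filter (fun j => j ≤ m ∧ m - j ≤ NN n), bb n (m - i)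
        ≤ ((range (Q + 1)).filter (fun j => j ≤ m ∧ m - j ≤ NN n)).card • bb n (m - j) :=
          sum_le_card_nsmul _ _ _ hmax
      _ ≤ (Q + 1) * bb n (m - j) := by
          rw [smul_eq_mul]
          refine Nat.mul_le_mul_right _ ((Finset.card_filter_le _ _).trans ?_)
          rw [card_range]
  have h3 : bb (n + 1) m ≤ 2 * (n + 1) * ((Q + 1) ^ 2 * 2 ^ Q) ^ 2 * ((Q + 1) * bb n (m - j)) :=
    h1.trans (Nat.mul_le_mul_left _ h2)
  have h4 : (bb (n + 1) m : ℝ) ≤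
      2 * (n + 1) * (((Q : ℝ) + 1) ^ 2 * 2 ^ Q) ^ 2 * (((Q : ℝ) + 1) * bb n (m - j)) := by
    exact_mod_cast h3
  have hf : (0 : ℝ) < (n.factorial : ℝ) := by exact_mod_cast n.factorial_pos
  have hn1 : (0 : ℝ) < (n : ℝ) + 1 := by positivity
  unfold bt
  rw [Nat.factorial_succ]
  push_cast
  rw [div_le_iff₀ (by positivity)]
  refine h4.trans (le_of_eq ?_)
  have h5 : (4 : ℝ) ^ Q = (2 ^ Q) ^ 2 := by
    rw [← pow_mul, mul_comm, pow_mul]
    norm_num
  rw [h5]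
  field_simp

/-- Iteration. Induction on `h`: `n - h ≥ n / 2`, so `12 m' + 8 n' ≤ Q n'` for `m' ≤ m`, `n / 2 ≤ n'`. -/
theorem bt_iterate {n m Q h : ℕ} (hm : m ≤ NN n) (hh : 2 * h ≤ n) (hQ : 24 * m + 8 * n ≤ Q * n) :
    ∃ c ≤ h * Q, c ≤ m ∧ m - c ≤ NN (n - h) ∧
      bt n m ≤ (2 * ((Q : ℝ) + 1) ^ 5 * 4 ^ Q) ^ h * bt (n - h) (m - c) := by
  induction h with
  | zero =>
    refine ⟨0, Nat.zero_le _, Nat.zero_le _, ?_, ?_⟩
    · rw [Nat.sub_zero, Nat.sub_zero]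
      exact hm
    · rw [pow_zero, one_mul, Nat.sub_zero, Nat.sub_zero]
  | succ h ih =>
    obtain ⟨c, hc1, hc2, hc3, hc4⟩ := ih (by omega)
    obtain ⟨n', hn'⟩ : ∃ n', n - h = n' + 1 := ⟨n - h - 1, by omega⟩
    rw [hn'] at hc3 hc4
    have hn'' : n - (h + 1) = n' := by omega
    have hn2 : n ≤ 2 * (n' + 1) := by omega
    have hQ8 : 8 ≤ Q := by
      by_contra hcon
      have h1 : Q * n ≤ 7 * n := Nat.mul_le_mul_right _ (by omega)
      omega
    obtain ⟨q, hq⟩ : ∃ q, Q = 8 + q := ⟨Q - 8, by omega⟩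
    have h5 : 24 * m ≤ q * n := by
      rw [hq, add_mul] at hQ
      omega
    have h6 : q * n ≤ q * (2 * (n' + 1)) := Nat.mul_le_mul_left _ hn2
    have h7 : q * (2 * (n' + 1)) = 2 * (q * (n' + 1)) := by ring
    have h8 : 12 * (m - c) + 8 * (n' + 1) ≤ Q * (n' + 1) := by
      rw [hq, add_mul]
      omega
    obtain ⟨j, hj1, hj2, hj3, hj4⟩ := bt_deletion hc3 h8
    refine ⟨c + j, ?_, by omega, ?_, ?_⟩
    · rw [Nat.succ_mul]
      exact Nat.add_le_add hc1 hj1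
    · rw [hn'', ← Nat.sub_sub]
      exact hj3
    · rw [hn'', ← Nat.sub_sub]
      obtain ⟨K, hK⟩ : ∃ K, K = 2 * ((Q : ℝ) + 1) ^ 5 * 4 ^ Q := ⟨_, rfl⟩
      have hK0 : 0 ≤ K := by
        rw [hK]
        positivity
      rw [← hK] at hc4 hj4 ⊢
      refine hc4.trans ?_
      rw [pow_succ, mul_assoc]
      exact mul_le_mul_of_nonneg_left hj4 (pow_nonneg hK0 h)

end Pool.Agent.H.MP_82502e_co
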