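import Pool.Agent.H.MP_82502e_co.TopJ

set_option autoImplicit false

/-!
# Ordinal sums
-/

namespace Pool.Agent.H.MP_82502e_co

open Finset

theorem TopK_two_NN (n : ℕ) : 2 * NN n = n * (n - 1) := by
  unfold NN
  exact Nat.mul_div_cancel' (Nat.even_mul_pred_self n).two_dvd

theorem TopK_NN_add (a b : ℕ) : NN (a + b) = NN a + NN b + a * b := by
  have h1 := TopK_two_NN a
  have h2 := TopK_two_NN b
  have h3 := TopK_two_NN (a + b)
  rcases a with - | a
  · simp [NN]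
  rcases b with - | b
  · simp [NN]
  have e1 : a + 1 + (b + 1) - 1 = a + b + 1 := by omega
  rw [e1] at h3
  simp only [Nat.add_sub_cancel] at h1 h2
  nlinarith

theorem TopK_emb (n1 n2 : ℕ) (L : Finset (Fin (n1 + n2))) :
    ∃ f : Fin n1 → Fin (n1 + n2), ∃ g : Fin n2 → Fin (n1 + n2), L.card = n1 →
      (Function.Injective f ∧ Function.Injective g ∧ (∀ x, f x ∈ L) ∧ (∀ x, g x ∉ L) ∧
        (∀ y ∈ L, ∃ x, f x = y) ∧ ∀ y, y ∉ L → ∃ x, g x = y) := by
  by_cases h : L.card = n1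
  · have h' : Lᶜ.card = n2 := by
      rw [card_compl, Fintype.card_fin, h]
      omega
    refine ⟨L.orderEmbOfFin h, Lᶜ.orderEmbOfFin h', fun _ => ⟨(L.orderEmbOfFin h).injective,
      (Lᶜ.orderEmbOfFin h').injective, fun x => orderEmbOfFin_mem L h x, fun x => ?_, ?_, ?_⟩⟩
    · exact mem_compl.1 (orderEmbOfFin_mem Lᶜ h' x)
    · intro y hy
      have : y ∈ Set.range (L.orderEmbOfFin h) := by
        rw [range_orderEmbOfFin]
        exact hy
      exact this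
    · intro y hy
      have : y ∈ Set.range (Lᶜ.orderEmbOfFin h') := by
        rw [range_orderEmbOfFin]
        exact mem_coe.2 (mem_compl.2 hy)
      exact this
  · exact ⟨Fin.castAdd n2, Fin.natAdd n1, fun h' => absurd h' h⟩

/-- The ordinal sum. -/
def TopK_sum {n1 n2 : ℕ} (f : Fin n1 → Fin (n1 + n2)) (g : Fin n2 → Fin (n1 + n2))
    (L : Finset (Fin (n1 + n2))) (S1 : Finset (Fin n1 × Fin n1)) (S2 : Finset (Fin n2 × Fin n2)) :
    Finset (Fin (n1 + n2) × Fin (n1 + n2)) :=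
  S1.image (fun q => (f q.1, f q.2)) ∪ (S2.image (fun q => (g q.1, g q.2)) ∪ L ×ˢ Lᶜ)

section
variable {n1 n2 : ℕ} {f : Fin n1 → Fin (n1 + n2)} {g : Fin n2 → Fin (n1 + n2)}
    {L : Finset (Fin (n1 + n2))} {S1 : Finset (Fin n1 × Fin n1)} {S2 : Finset (Fin n2 × Fin n2)}

theorem TopK_mem_sum {p : Fin (n1 + n2) × Fin (n1 + n2)} :
    p ∈ TopK_sum f g L S1 S2 ↔ (∃ a b, (a, b) ∈ S1 ∧ f a = p.1 ∧ f b = p.2) ∨
      (∃ a b, (a, b) ∈ S2 ∧ g a = p.1 ∧ g b = p.2) ∨ (p.1 ∈ L ∧ p.2 ∉ L) := by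
  obtain ⟨p1, p2⟩ := p
  unfold TopK_sum
  rw [mem_union, mem_union, mem_image, mem_image, mem_product, mem_compl]
  simp only [Prod.exists, Prod.mk.injEq]

theorem TopK_mem_LL (hf : Function.Injective f) (hfL : ∀ x, f x ∈ L) (hgL : ∀ x, g x ∉ L)
    {a b : Fin n1} : (f a, f b) ∈ TopK_sum f g L S1 S2 ↔ (a, b) ∈ S1 := by
  rw [TopK_mem_sum]
  constructor
  · rintro (⟨a', b', h1, h2, h3⟩ | ⟨a', b', h1, h2, h3⟩ | ⟨h1, h2⟩)
    · rw [← hf h2, ← hf h3]
      exact h1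
    · have h4 := hgL a'
      rw [h2] at h4
      exact absurd (hfL a) h4
    · exact absurd (hfL b) h2
  · intro h
    exact Or.inl ⟨a, b, h, rfl, rfl⟩

theorem TopK_mem_RR (hg : Function.Injective g) (hfL : ∀ x, f x ∈ L) (hgL : ∀ x, g x ∉ L)
    {a b : Fin n2} : (g a, g b) ∈ TopK_sum f g L S1 S2 ↔ (a, b) ∈ S2 := by
  rw [TopK_mem_sum]
  constructor
  · rintro (⟨a', b', h1, h2, h3⟩ | ⟨a', b', h1, h2, h3⟩ | ⟨h1, h2⟩)
    · have h4 := hfL a'
      rw [h2] at h4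
      exact absurd h4 (hgL a)
    · rw [← hg h2, ← hg h3]
      exact h1
    · exact absurd h1 (hgL a)
  · intro h
    exact Or.inr (Or.inl ⟨a, b, h, rfl, rfl⟩)

theorem TopK_mem_LR {x y : Fin (n1 + n2)} (hx : x ∈ L) (hy : y ∉ L) :
    (x, y) ∈ TopK_sum f g L S1 S2 :=
  TopK_mem_sum.2 (Or.inr (Or.inr ⟨hx, hy⟩))

theorem TopK_not_RL (hfL : ∀ x, f x ∈ L) (hgL : ∀ x, g x ∉ L) {x y : Fin (n1 + n2)}
    (hx : x ∉ L) (hy : y ∈ L) : (x, y) ∉ TopK_sum f g L S1 S2 := by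
  rw [TopK_mem_sum]
  rintro (⟨a', b', h1, h2, h3⟩ | ⟨a', b', h1, h2, h3⟩ | ⟨h1, h2⟩)
  · have h4 := hfL a'
    rw [h2] at h4
    exact hx h4
  · have h4 := hgL b'
    rw [h3] at h4
    exact h4 hy
  · exact hx h1

theorem TopK_isPO (hf : Function.Injective f) (hg : Function.Injective g) (hfL : ∀ x, f x ∈ L)
    (hgL : ∀ x, g x ∉ L) (hfs : ∀ y ∈ L, ∃ x, f x = y) (hgs : ∀ y, y ∉ L → ∃ x, g x = y)
    (h1 : IsPO S1) (h2 : IsPO S2) : IsPO (TopK_sum f g L S1 S2) := by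
  refine ⟨fun i hi => ?_, fun i j l hij hjl => ?_⟩
  · by_cases hL : i ∈ L
    · obtain ⟨x, rfl⟩ := hfs i hL
      exact h1.1 x ((TopK_mem_LL hf hfL hgL).1 hi)
    · obtain ⟨x, rfl⟩ := hgs i hL
      exact h2.1 x ((TopK_mem_RR hg hfL hgL).1 hi)
  · by_cases hi : i ∈ L
    · by_cases hl : l ∈ L
      · by_cases hj : j ∈ L
        · obtain ⟨x, rfl⟩ := hfs i hi
          obtain ⟨y, rfl⟩ := hfs j hj
          obtain ⟨z, rfl⟩ := hfs l hl
          exact (TopK_mem_LL hf hfL hgL).2 (h1.2 x y z ((TopK_mem_LL hf hfL hgL).1 hij)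
            ((TopK_mem_LL hf hfL hgL).1 hjl))
        · exact absurd hjl (TopK_not_RL hfL hgL hj hl)
      · exact TopK_mem_LR hi hl
    · by_cases hj : j ∈ L
      · exact absurd hij (TopK_not_RL hfL hgL hi hj)
      · by_cases hl : l ∈ L
        · exact absurd hjl (TopK_not_RL hfL hgL hj hl)
        · obtain ⟨x, rfl⟩ := hgs i hi
          obtain ⟨y, rfl⟩ := hgs j hj
          obtain ⟨z, rfl⟩ := hgs l hl
          exact (TopK_mem_RR hg hfL hgL).2 (h2.2 x y z ((TopK_mem_RR hg hfL hgL).1 hij)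
            ((TopK_mem_RR hg hfL hgL).1 hjl))

theorem TopK_card (hL : L.card = n1) (hf : Function.Injective f) (hg : Function.Injective g)
    (hfL : ∀ x, f x ∈ L) (hgL : ∀ x, g x ∉ L) :
    (TopK_sum f g L S1 S2).card = S1.card + S2.card + n1 * n2 := by
  have hLc : Lᶜ.card = n2 := by
    rw [card_compl, Fintype.card_fin, hL]
    omega
  unfold TopK_sum
  rw [card_union_of_disjoint, card_union_of_disjoint, card_image_of_injective,
    card_image_of_injective, card_product, hL, hLc]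
  · ring
  · intro p q h
    simp only [Prod.mk.injEq] at h
    exact Prod.ext (hg h.1) (hg h.2)
  · intro p q h
    simp only [Prod.mk.injEq] at h
    exact Prod.ext (hf h.1) (hf h.2)
  · rw [disjoint_left]
    intro p hp hq
    obtain ⟨q, -, rfl⟩ := mem_image.1 hp
    exact hgL _ (mem_product.1 hq).1
  · rw [disjoint_left]
    intro p hp hq
    obtain ⟨q, -, rfl⟩ := mem_image.1 hp
    rcases mem_union.1 hq with h | h
    · obtain ⟨q', -, h'⟩ := mem_image.1 h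
      simp only [Prod.mk.injEq] at h'
      exact hgL q'.1 (by rw [h'.1]; exact hfL _)
    · exact absurd (hfL q.2) (mem_compl.1 (mem_product.1 h).2)

end

/-- **Ordinal sum.**

Proof. Inject `powersetCard n1 univ × PO n1 (NN n1 - m1) × PO n2 (NN n2 - m2)` into `PO (n1+n2) (NN (n1+n2) - (m1+m2))`: for a set `L` of
`n1` points of `Fin (n1 + n2)` let `f : Fin n1 ↪o Fin (n1+n2)` with range `L` and `g : Fin n2 ↪o Fin (n1+n2)` with range `Lᶜ`
(`Finset.orderEmbOfFin`); `S = S1.map (f × f) ∪ S2.map (g × g) ∪ L ×ˢ Lᶜ`. It is a poset with `|S1| + |S2| + n1 n2` pairs, and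
`NN (n1 + n2) = NN n1 + NN n2 + n1 n2`. Injective: `L` is determined by `S` (if `L ≠ L'` have the same size and
`L ×ˢ Lᶜ ⊆ S`, `L' ×ˢ L'ᶜ ⊆ S`, take `x ∈ L \ L'`, `y ∈ L' \ L`: `(x, y), (y, x) ∈ S`), then `S1`, `S2` are the restrictions. -/
theorem bb_mul_le {n1 n2 m1 m2 : ℕ} (h1 : m1 ≤ NN n1) (h2 : m2 ≤ NN n2) :
    (n1 + n2).choose n1 * (bb n1 m1 * bb n2 m2) ≤ bb (n1 + n2) (m1 + m2) := by
  choose F G hFG using TopK_emb n1 n2
  have hc : ((powersetCard n1 (univ : Finset (Fin (n1 + n2)))) ×ˢ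
      (PO n1 (NN n1 - m1) ×ˢ PO n2 (NN n2 - m2))).card =
      (n1 + n2).choose n1 * (bb n1 m1 * bb n2 m2) := by
    rw [card_product, card_product, card_powersetCard, card_univ, Fintype.card_fin]
    rfl
  rw [← hc]
  unfold bb cnt
  refine card_le_card_of_injOn
    (fun q => TopK_sum (F q.1) (G q.1) q.1 q.2.1 q.2.2) (fun q hq => ?_) ?_
  · obtain ⟨L, S1, S2⟩ := q
    rw [mem_coe, mem_product, mem_product, mem_powersetCard, mem_PO, mem_PO] at hq
    obtain ⟨⟨-, hL⟩, ⟨hS1, hc1⟩, hS2, hc2⟩ := hq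
    obtain ⟨hf, hg, hfL, hgL, hfs, hgs⟩ := hFG L hL
    rw [mem_coe, mem_PO]
    refine ⟨TopK_isPO hf hg hfL hgL hfs hgs hS1 hS2, ?_⟩
    change (TopK_sum (F L) (G L) L S1 S2).card = _
    rw [TopK_card hL hf hg hfL hgL, TopK_NN_add]
    simp only at hc1 hc2
    rw [hc1, hc2]
    omega
  · rintro ⟨L, S1, S2⟩ hq ⟨L', S1', S2'⟩ hq' h
    rw [mem_coe, mem_product, mem_product, mem_powersetCard, mem_PO, mem_PO] at hq hq'
    obtain ⟨⟨-, hL⟩, ⟨hS1, hc1⟩, hS2, hc2⟩ := hq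
    obtain ⟨⟨-, hL'⟩, ⟨hS1', hc1'⟩, hS2', hc2'⟩ := hq'
    simp only at hL hS1 hc1 hS2 hc2 hL' hS1' hc1' hS2' hc2' h
    have hLL : L = L' := by
      by_contra hne
      obtain ⟨hf, hg, hfL, hgL, hfs, hgs⟩ := hFG L hL
      obtain ⟨x, hx, hx'⟩ : ∃ x ∈ L, x ∉ L' := by
        by_contra hcon
        push Not at hcon
        exact hne (eq_of_subset_of_card_le hcon (by rw [hL, hL']))
      obtain ⟨y, hy, hy'⟩ : ∃ y ∈ L', y ∉ L := by
        by_contra hcon
        push Not at hcon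
        exact hne (eq_of_subset_of_card_le hcon (by rw [hL, hL'])).symm
      have e1 : (x, y) ∈ TopK_sum (F L) (G L) L S1 S2 := TopK_mem_LR hx hy'
      have e2 : (y, x) ∈ TopK_sum (F L) (G L) L S1 S2 := by
        rw [h]
        exact TopK_mem_LR hy hx'
      exact TopK_not_RL hfL hgL hy' hx e2
    subst hLL
    obtain ⟨hf, hg, hfL, hgL, hfs, hgs⟩ := hFG L hL
    have e1 : S1 = S1' := by
      ext ⟨a, b⟩
      rw [← TopK_mem_LL (S1 := S1) (S2 := S2) hf hfL hgL, h, TopK_mem_LL hf hfL hgL]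
    have e2 : S2 = S2' := by
      ext ⟨a, b⟩
      rw [← TopK_mem_RR (S1 := S1) (S2 := S2) hg hfL hgL, h, TopK_mem_RR hg hfL hgL]
    rw [e1, e2]

theorem bt_mul_le {n1 n2 m1 m2 : ℕ} (h1 : m1 ≤ NN n1) (h2 : m2 ≤ NN n2) :
    bt n1 m1 * bt n2 m2 ≤ bt (n1 + n2) (m1 + m2) := by
  have h := bb_mul_le h1 h2
  have hR : ((n1 + n2).choose n1 : ℝ) * ((bb n1 m1 : ℝ) * (bb n2 m2 : ℝ)) ≤
      (bb (n1 + n2) (m1 + m2) : ℝ) := by exact_mod_cast h
  have hfac : ((n1 + n2).choose n1 : ℝ) * (n1.factorial : ℝ) * (n2.factorial : ℝ) =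
      ((n1 + n2).factorial : ℝ) := by
    have h5 := Nat.add_choose_mul_factorial_mul_factorial n1 n2
    rw [← Nat.choose_symm_add] at h5
    exact_mod_cast h5
  unfold bt
  have p1 : (0 : ℝ) < (n1.factorial : ℝ) := by exact_mod_cast Nat.factorial_pos n1
  have p2 : (0 : ℝ) < (n2.factorial : ℝ) := by exact_mod_cast Nat.factorial_pos n2
  have p3 : (0 : ℝ) < ((n1 + n2).factorial : ℝ) := by exact_mod_cast Nat.factorial_pos _
  have e : (bb n1 m1 : ℝ) / (n1.factorial : ℝ) * ((bb n2 m2 : ℝ) / (n2.factorial : ℝ)) =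
      ((n1 + n2).choose n1 : ℝ) * ((bb n1 m1 : ℝ) * (bb n2 m2 : ℝ)) /
        ((n1 + n2).factorial : ℝ) := by
    rw [div_mul_div_comm, div_eq_div_iff (by positivity) p3.ne', ← hfac]
    ring
  rw [e]
  exact div_le_div_of_nonneg_right hR p3.le

theorem TopK_bt_one : 1 ≤ bt 1 0 := by
  unfold bt bb
  have h : 0 < cnt 1 (NN 1 - 0) := cnt_pos (by simp [NN])
  rw [Nat.factorial_one, Nat.cast_one, div_one]
  exact_mod_cast h

theorem TopK_bt_zero : 1 ≤ bt 0 0 := by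
  unfold bt bb
  have h : 0 < cnt 0 (NN 0 - 0) := cnt_pos (by simp [NN])
  rw [Nat.factorial_zero, Nat.cast_one, div_one]
  exact_mod_cast h

/-- The linear orders: `bb n 0 = n!`. Proof: `1 ≤ bt n 0` by induction from `bt_mul_le` with `bt 1 0 = 1`, `bt 0 0 = 1`
suffices here. -/
theorem one_le_bt_zero (n : ℕ) : 1 ≤ bt n 0 := by
  induction n with
  | zero => exact TopK_bt_zero
  | succ n ih =>
    have h := bt_mul_le (n1 := n) (n2 := 1) (m1 := 0) (m2 := 0) (Nat.zero_le _) (Nat.zero_le _)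
    refine le_trans ?_ h
    have := TopK_bt_one
    nlinarith

theorem bt_pos {n m : ℕ} (h : m ≤ NN n) : 0 < bt n m := by
  unfold bt bb
  have h1 : 0 < cnt n (NN n - m) := cnt_pos (Nat.sub_le _ _)
  have h2 := Nat.factorial_pos n
  positivity

/-- Monotone in `n`: append a chain. -/
theorem bt_mono {n n' m : ℕ} (h : m ≤ NN n) (hn : n ≤ n') : bt n m ≤ bt n' m := by
  obtain ⟨d, rfl⟩ := Nat.exists_eq_add_of_le hn
  have h1 := bt_mul_le (n1 := n) (n2 := d) (m1 := m) (m2 := 0) h (Nat.zero_le _)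
  rw [add_zero] at h1
  refine le_trans ?_ h1
  have h2 := one_le_bt_zero d
  have h3 := bt_pos h
  nlinarith

/-- `q` blocks of size `s` with the numbers `f i` of incomparable pairs. -/
theorem prod_bt_le {s q : ℕ} {f : ℕ → ℕ} (hf : ∀ i < q, f i ≤ NN s) :
    ∏ i ∈ range q, bt s (f i) ≤ bt (q * s) (∑ i ∈ range q, f i) := by
  have key : (∑ i ∈ range q, f i ≤ NN (q * s)) ∧
      ∏ i ∈ range q, bt s (f i) ≤ bt (q * s) (∑ i ∈ range q, f i) := by
    induction q with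
    | zero =>
      refine ⟨by simp, ?_⟩
      rw [range_zero, prod_empty, sum_empty]
      exact one_le_bt_zero _
    | succ q ih =>
      obtain ⟨h1, h2⟩ := ih fun i hi => hf i (by omega)
      have h3 : f q ≤ NN s := hf q (by omega)
      refine ⟨?_, ?_⟩
      · rw [sum_range_succ, Nat.succ_mul, TopK_NN_add]
        have := Nat.zero_le (q * s * s)
        omega
      · rw [prod_range_succ, sum_range_succ, Nat.succ_mul]
        refine le_trans ?_ (bt_mul_le h1 h3)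
        exact mul_le_mul_of_nonneg_right h2 (bt_pos h3).le
  exact key.2

end Pool.Agent.H.MP_82502e_co
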