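import Pool.Agent.H.MP_82502e_co.TopK

set_option autoImplicit false

/-!
# Lower bound by blocks of two layers
-/

namespace Pool.Agent.H.MP_82502e_co

open Finset

theorem TopL_two_pow_le_centralBinom (K : ℕ) : 2 ^ K ≤ K.centralBinom := by
  induction K with
  | zero => simp
  | succ K ih =>
    have h1 := Nat.succ_mul_centralBinom_succ K
    have h2 : (K + 1) * (2 ^ (K + 1)) ≤ (K + 1) * (K + 1).centralBinom := by
      rw [h1, pow_succ]
      nlinarith
    exact Nat.le_of_mul_le_mul_left h2 (Nat.succ_pos K)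

theorem TopL_two_pow_le_choose {N K : ℕ} (h : 2 * K ≤ N) : 2 ^ K ≤ N.choose K :=
  (TopL_two_pow_le_centralBinom K).trans (Nat.choose_le_choose K h)

/-- If `N ≤ 4 K` and `4 K ≤ 3 N` then `N.choose K ≥ 2 ^ (N / 4)`. Proof. For `2 K ≤ N`: `N.choose K ≥ 2 ^ K` (induction,
or `(N - i) / (K - i) ≥ N / K ≥ 2`; e.g. `Nat.four_pow_le_two_mul_self_mul_centralBinom` is not needed) and `K ≥ N / 4`; for `2 K ≥ N` use
`Nat.choose_symm` with `N - K`. -/
theorem two_pow_le_choose {N K : ℕ} (h1 : N ≤ 4 * K) (h2 : 4 * K ≤ 3 * N) :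
    2 ^ (N / 4) ≤ N.choose K := by
  rcases le_total (2 * K) N with h | h
  · exact (Nat.pow_le_pow_right (by norm_num) (by omega)).trans (TopL_two_pow_le_choose h)
  · have h3 : K ≤ N := by omega
    rw [← Nat.choose_symm h3]
    exact (Nat.pow_le_pow_right (by norm_num) (by omega)).trans
      (TopL_two_pow_le_choose (K := N - K) (by omega))

/-- One block: `2 s` points, `u` incomparable pairs. Proof. `K = NN (2 s) - u = 2 s^2 - s - u` satisfies
`s^2 ≤ 4 K ≤ 3 s^2`; `choose_le_cnt (2 s) K : (s * s).choose K ≤ cnt (2 s) K = bb (2 s) u`. So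
`bt (2 s) u ≥ 2 ^ (s^2 / 4) / (2 s)!` and `(2 s)! ≤ (2 s)^(2 s)`; for `s ≥ s0` this is `≥ exp (s^2 / 10)`
(`log 2 / 4 > 0.173`). -/
theorem exists_block : ∃ s0 : ℕ, ∀ s u : ℕ, s0 ≤ s → 5 * s ^ 2 ≤ 4 * u + 4 * s → 4 * u + 4 * s ≤ 7 * s ^ 2 →
    u ≤ NN (2 * s) ∧ Real.exp ((s : ℝ) ^ 2 / 10) ≤ bt (2 * s) u := by
  refine ⟨200, fun s u hs h1 h2 => ?_⟩
  have hNN : NN (2 * s) + s = 2 * s ^ 2 := by
    unfold NN
    have e : 2 * s * (2 * s - 1) / 2 = s * (2 * s - 1) := by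
      rw [mul_assoc, Nat.mul_div_cancel_left _ (by norm_num : 0 < 2)]
    rw [e]
    obtain ⟨r, rfl⟩ : ∃ r, s = r + 1 := ⟨s - 1, by omega⟩
    have e2 : 2 * (r + 1) - 1 = 2 * r + 1 := by omega
    rw [e2]
    ring
  have hu : u ≤ NN (2 * s) := by nlinarith
  refine ⟨hu, ?_⟩
  have hK1 : s * s ≤ 4 * (NN (2 * s) - u) := by
    have : 4 * (NN (2 * s) - u) + 4 * u = 4 * NN (2 * s) := by omega
    nlinarith
  have hK2 : 4 * (NN (2 * s) - u) ≤ 3 * (s * s) := by
    have : 4 * (NN (2 * s) - u) + 4 * u = 4 * NN (2 * s) := by omega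
    nlinarith
  have hc := two_pow_le_choose hK1 hK2
  have hcnt : (s * s).choose (NN (2 * s) - u) ≤ bb (2 * s) u := by
    have h3 := choose_le_cnt (2 * s) (NN (2 * s) - u)
    have e1 : 2 * s / 2 = s := by omega
    have e2 : 2 * s - s = s := by omega
    rw [e1, e2] at h3
    exact h3
  have hb : ((2 : ℝ) ^ (s * s / 4)) ≤ (bb (2 * s) u : ℝ) := by
    exact_mod_cast hc.trans hcnt
  have hfac : ((2 * s).factorial : ℝ) ≤ ((2 * s : ℕ) : ℝ) ^ (2 * s) := by
    exact_mod_cast Nat.factorial_le_pow (2 * s)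
  -- numerics
  have hl1 : 0.6931 < Real.log 2 := by linarith [Real.log_two_gt_d9]
  have hl2 : Real.log 2 < 0.6932 := by linarith [Real.log_two_lt_d9]
  have hsr : (200 : ℝ) ≤ (s : ℝ) := by exact_mod_cast hs
  have hexp7 : Real.exp (7 * Real.log 2) = 128 := by
    have : (7 : ℝ) * Real.log 2 = Real.log (2 ^ 7) := by rw [Real.log_pow]; norm_num
    rw [this, Real.exp_log (by norm_num)]
    norm_num
  have hy : ((2 * s : ℕ) : ℝ) ≤ Real.exp (7 * Real.log 2 + ((s : ℝ) / 64 - 1)) := by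
    rw [Real.exp_add, hexp7]
    have h3 := Real.add_one_le_exp ((s : ℝ) / 64 - 1)
    push_cast
    linarith
  have hpow : ((2 * s : ℕ) : ℝ) ^ (2 * s) ≤
      Real.exp (((2 * s : ℕ) : ℝ) * (7 * Real.log 2 + ((s : ℝ) / 64 - 1))) := by
    rw [Real.exp_nat_mul]
    exact pow_le_pow_left₀ (by positivity) hy _
  have h2pow : (2 : ℝ) ^ (s * s / 4) = Real.exp (((s * s / 4 : ℕ) : ℝ) * Real.log 2) := by
    rw [Real.exp_nat_mul, Real.exp_log (by norm_num)]
  have hdiv : ((s : ℝ) * s - 3) / 4 ≤ ((s * s / 4 : ℕ) : ℝ) := by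
    have h3 : s * s ≤ 4 * (s * s / 4) + 3 := by omega
    have h4 : ((s * s : ℕ) : ℝ) ≤ ((4 * (s * s / 4) + 3 : ℕ) : ℝ) := by exact_mod_cast h3
    push_cast at h4
    linarith
  unfold bt
  rw [le_div_iff₀ (by positivity)]
  refine le_trans (mul_le_mul_of_nonneg_left (hfac.trans hpow) (Real.exp_pos _).le) ?_
  rw [← Real.exp_add]
  refine le_trans ?_ hb
  rw [h2pow, Real.exp_le_exp]
  push_cast
  have h5 : ((s : ℝ) * s - 3) / 4 * 0.6931 ≤ ((s * s / 4 : ℕ) : ℝ) * Real.log 2 := by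
    have h6 : (0 : ℝ) ≤ ((s : ℝ) * s - 3) / 4 := by nlinarith
    exact mul_le_mul hdiv hl1.le (by norm_num) (by positivity)
  have h7 : 2 * (s : ℝ) * (7 * Real.log 2) ≤ 2 * (s : ℝ) * (7 * 0.6932) :=
    mul_le_mul_of_nonneg_left (by linarith) (by positivity)
  have h8 : (200 : ℝ) * s ≤ s * s := mul_le_mul_of_nonneg_right hsr (by positivity)
  nlinarith

theorem TopL_sum_split (t q : ℕ) (hq : 0 < q) :
    ∑ i ∈ range q, (if i < t % q then t / q + 1 else t / q) = t := by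
  have h1 : ∀ i ∈ range q, (if i < t % q then t / q + 1 else t / q) =
      t / q + if i < t % q then 1 else 0 := by
    intro i _
    split_ifs <;> rfl
  rw [sum_congr rfl h1, sum_add_distrib, sum_const, card_range, smul_eq_mul, ← card_filter]
  have h2 : (range q).filter (fun i => i < t % q) = range (t % q) := by
    ext i
    simp only [mem_filter, mem_range]
    have := Nat.mod_lt t hq
    omega
  rw [h2, card_range]
  exact Nat.div_add_mod t q

/-- **Lower bound.** Proof. `s = ⌈4 t / h⌉`, `q = ⌈2 t / (3 s^2)⌉`, so `t ≤ 3 q s^2 / 2` and `t > 3 (q - 1) s^2 / 2`. If `t ≤ c1 h^2` with `c1` small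
then `q ≥ 20`, so `t / q ∈ [1.42 s^2, 1.5 s^2]` and both `⌊t/q⌋` and `⌊t/q⌋ + 1` satisfy the conditions of `exists_block` (`s ≥ s0` because
`s ≥ 4 t / h ≥ 4 C3`). Write `t = ∑_{i < q} f i` with `f i ∈ {⌊t/q⌋, ⌊t/q⌋ + 1}` (`t % q` of them larger). `2 s q ≤ h`: `q ≤ 2 t / (3 s^2) + 1` and
`2 s * 2 t / (3 s^2) = 4 t / (3 s) ≤ h / 3`, `2 s ≤ h / 3`. So `bt h t ≥ bt (q * (2 s)) t ≥ ∏ ≥ exp (q s^2 / 10) ≥ exp (t / 15)`
(`bt_mono`, `prod_bt_le`). -/
theorem exists_lower : ∃ c1 : ℝ, ∃ C3 : ℝ, 0 < c1 ∧ 0 < C3 ∧ ∀ h t : ℕ, 0 < h → C3 * h ≤ t →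
    (t : ℝ) ≤ c1 * (h : ℝ) ^ 2 → t ≤ NN h ∧ Real.exp ((t : ℝ) / 15) ≤ bt h t := by
  obtain ⟨s0, hblock⟩ := exists_block
  refine ⟨1 / 1000, (s0 : ℝ) + 6, by norm_num, by positivity, fun h t hh hC ht => ?_⟩
  have hC' : (s0 + 6) * h ≤ t := by exact_mod_cast hC
  have ht' : 1000 * t ≤ h ^ 2 := by
    have : (1000 : ℝ) * t ≤ (h : ℝ) ^ 2 := by linarith
    exact_mod_cast this
  have hht : h ≤ t := by nlinarith
  have ht0 : 0 < t := lt_of_lt_of_le hh hht
  -- the block size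
  obtain ⟨s, hs1, hs2⟩ : ∃ s, 4 * t < s * h ∧ s * h ≤ 4 * t + h := by
    refine ⟨4 * t / h + 1, ?_, ?_⟩
    · have := Nat.lt_mul_div_succ (4 * t) hh
      linarith [mul_comm h (4 * t / h + 1)]
    · have := Nat.div_mul_le_self (4 * t) h
      linarith [add_mul (4 * t / h) 1 h]
  have hs0 : s0 + 6 ≤ s := by
    by_contra hlt
    have h1 : s ≤ s0 + 6 := by omega
    have h2 : s * h ≤ (s0 + 6) * h := Nat.mul_le_mul_right h h1
    omega
  have hspos : 0 < s := by omega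
  have hsh : s * h ≤ 5 * t := by omega
  have h6s : 6 * s ≤ h := by
    have h1 : 6 * s * h ≤ h * h := by nlinarith
    exact Nat.le_of_mul_le_mul_right h1 hh
  have h57 : 57 * s ^ 2 ≤ 2 * t := by
    have h1 : (s * h) * (s * h) ≤ (5 * t) * (5 * t) := Nat.mul_le_mul hsh hsh
    have h2 : 57 * s ^ 2 * h ^ 2 ≤ 2 * t * h ^ 2 := by nlinarith
    exact Nat.le_of_mul_le_mul_right h2 (by positivity)
  -- the number of blocks
  obtain ⟨q, hq1, hq2⟩ : ∃ q, 2 * t < q * (3 * s ^ 2) ∧ q * (3 * s ^ 2) ≤ 2 * t + 3 * s ^ 2 := by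
    have hpos : 0 < 3 * s ^ 2 := by positivity
    refine ⟨2 * t / (3 * s ^ 2) + 1, ?_, ?_⟩
    · have := Nat.lt_mul_div_succ (2 * t) hpos
      linarith [mul_comm (3 * s ^ 2) (2 * t / (3 * s ^ 2) + 1)]
    · have := Nat.div_mul_le_self (2 * t) (3 * s ^ 2)
      linarith [add_mul (2 * t / (3 * s ^ 2)) 1 (3 * s ^ 2)]
  have hq20 : 20 ≤ q := by
    by_contra hlt
    have h1 : q ≤ 19 := by omega
    have h2 : q * (3 * s ^ 2) ≤ 19 * (3 * s ^ 2) := Nat.mul_le_mul_right _ h1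
    omega
  have hqpos : 0 < q := by omega
  -- the block sizes are in the range
  have hdm := Nat.div_add_mod t q
  have hmod := Nat.mod_lt t hqpos
  have hup : 2 * (t / q) ≤ 3 * s ^ 2 := by
    by_contra hlt
    have h1 : 3 * s ^ 2 ≤ 2 * (t / q) := by omega
    have h2 : q * (3 * s ^ 2) ≤ q * (2 * (t / q)) := Nat.mul_le_mul_left q h1
    have h3 : q * (2 * (t / q)) = 2 * (q * (t / q)) := by ring
    omega
  have hlow : 57 * s ^ 2 ≤ 40 * (t / q) + 40 := by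
    have h1 : q * (57 * s ^ 2) ≤ q * (40 * (t / q) + 40) := by
      have e1 : q * (40 * (t / q) + 40) = 40 * (q * (t / q)) + 40 * q := by ring
      have e2 : q * (57 * s ^ 2) = 19 * (q * (3 * s ^ 2)) := by ring
      have e3 : 20 * (3 * s ^ 2) ≤ q * (3 * s ^ 2) := Nat.mul_le_mul_right _ hq20
      omega
    exact Nat.le_of_mul_le_mul_left h1 hqpos
  have hs2' : 6 * s ≤ s ^ 2 := by nlinarith
  let f : ℕ → ℕ := fun i => if i < t % q then t / q + 1 else t / q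
  have hf : ∀ i, t / q ≤ f i ∧ f i ≤ t / q + 1 := by
    intro i
    simp only [f]
    split_ifs <;> omega
  have hfb : ∀ i, f i ≤ NN (2 * s) ∧ Real.exp ((s : ℝ) ^ 2 / 10) ≤ bt (2 * s) (f i) := by
    intro i
    have h1 := hf i
    exact hblock s (f i) (by omega) (by omega) (by omega)
  have hsum : ∑ i ∈ range q, f i = t := TopL_sum_split t q hqpos
  have hprod := prod_bt_le (s := 2 * s) (q := q) (f := f) fun i _ => (hfb i).1
  rw [hsum] at hprod
  have hqs : q * (2 * s) ≤ h := by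
    have h1 : s * (6 * (q * s)) ≤ s * (h + 6 * s) := by nlinarith
    have h2 := Nat.le_of_mul_le_mul_left h1 hspos
    nlinarith
  have hNN : ∀ n, 2 * t ≤ n * (n - 1) → t ≤ NN n := by
    intro n hn
    unfold NN
    rw [Nat.le_div_iff_mul_le (by norm_num)]
    linarith
  have hNNq : t ≤ NN (q * (2 * s)) := by
    apply hNN
    obtain ⟨r, hr⟩ : ∃ r, q * (2 * s) = r + 1 := ⟨q * (2 * s) - 1, by
      have : 0 < q * (2 * s) := by positivity
      omega⟩
    have h1 : q * (2 * s) - 1 = r := by omega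
    rw [h1]
    have h2 : q * s ≤ r := by
      have : 0 < q * s := by positivity
      nlinarith
    have h3 : q * (2 * s) * (q * s) ≤ q * (2 * s) * r := Nat.mul_le_mul_left _ h2
    nlinarith
  have hNNh : t ≤ NN h := by
    apply hNN
    obtain ⟨r, rfl⟩ : ∃ r, h = r + 1 := ⟨h - 1, by omega⟩
    have h1 : r + 1 - 1 = r := by omega
    rw [h1]
    nlinarith
  refine ⟨hNNh, ?_⟩
  refine le_trans ?_ (bt_mono hNNq hqs)
  refine le_trans ?_ hprod
  have h1 : Real.exp ((s : ℝ) ^ 2 / 10) ^ q ≤ ∏ i ∈ range q, bt (2 * s) (f i) := by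
    have h2 : ∏ _i ∈ range q, Real.exp ((s : ℝ) ^ 2 / 10) ≤ ∏ i ∈ range q, bt (2 * s) (f i) :=
      prod_le_prod (fun i _ => (Real.exp_pos _).le) fun i _ => (hfb i).2
    rwa [prod_const, card_range] at h2
  refine le_trans ?_ h1
  rw [← Real.exp_nat_mul, Real.exp_le_exp]
  have h2 : (2 : ℝ) * t ≤ q * (3 * (s : ℝ) ^ 2) := by exact_mod_cast hq1.le
  linarith

end Pool.Agent.H.MP_82502e_co
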