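import Pool.Agent.H.MP_82502e_co.TopL

set_option autoImplicit false

/-!
# The macroscopic slope in the dense range
-/

namespace Pool.Agent.H.MP_82502e_co

open Finset

/-- `2 (Q + 1)^5 4^Q ≤ exp (C (Q + 1))`, e.g. `C = 20`. -/
theorem cost_le_exp (Q : ℕ) :
    2 * ((Q : ℝ) + 1) ^ 5 * 4 ^ Q ≤ Real.exp (10 * ((Q : ℝ) + 1)) := by
  have h1 : (2 : ℝ) ≤ Real.exp 1 := by
    have := Real.add_one_le_exp (1 : ℝ)
    linarith
  have h2 : (4 : ℝ) ≤ Real.exp 2 := by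
    have : Real.exp 2 = Real.exp 1 * Real.exp 1 := by
      rw [← Real.exp_add]
      norm_num
    rw [this]
    nlinarith
  have h3 : ((Q : ℝ) + 1) ≤ Real.exp ((Q : ℝ) + 1) := by
    have := Real.add_one_le_exp ((Q : ℝ) + 1)
    linarith
  have h4 : ((Q : ℝ) + 1) ^ 5 ≤ Real.exp (5 * ((Q : ℝ) + 1)) := by
    have h5 : Real.exp (5 * ((Q : ℝ) + 1)) = Real.exp ((Q : ℝ) + 1) ^ 5 := by
      rw [← Real.exp_nat_mul]
      norm_num
    rw [h5]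
    exact pow_le_pow_left₀ (by positivity) h3 5
  have h6 : (4 : ℝ) ^ Q ≤ Real.exp (2 * (Q : ℝ)) := by
    have h7 : Real.exp (2 * (Q : ℝ)) = Real.exp 2 ^ Q := by
      rw [← Real.exp_nat_mul, mul_comm]
    rw [h7]
    exact pow_le_pow_left₀ (by norm_num) h2 Q
  calc 2 * ((Q : ℝ) + 1) ^ 5 * 4 ^ Q
      ≤ Real.exp 1 * Real.exp (5 * ((Q : ℝ) + 1)) * Real.exp (2 * (Q : ℝ)) := by
        refine mul_le_mul (mul_le_mul h1 h4 (by positivity) (Real.exp_pos _).le) h6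
          (by positivity) (by positivity)
    _ = Real.exp (1 + 5 * ((Q : ℝ) + 1) + 2 * (Q : ℝ)) := by
        rw [← Real.exp_add, ← Real.exp_add]
    _ ≤ Real.exp (10 * ((Q : ℝ) + 1)) := by
        refine Real.exp_le_exp.2 ?_
        have : (0 : ℝ) ≤ Q := Nat.cast_nonneg _
        linarith

/-- **Slope.**

Proof. `h = ⌊θ n⌋` with `θ` small (depending on `κ`, `τ`), `Q = ⌈24 m / n⌉ + 8`, so `24 (m - t) + 8 n ≤ Q n` and
`Q + 1 ≤ 24 m / n + 10 ≤ (24 + 10 / κ) m / n`. `bt_iterate` for `m - t`: there is `c ≤ h Q`, `c ≤ m - t`, `m - t - c ≤ NN (n - h)` with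
`bt n (m - t) ≤ exp (10 (Q + 1) h) * bt (n - h) (m - t - c)` (`cost_le_exp`). By `bt_mul_le` and `exists_lower`
`bt n m ≥ bt (n - h) (m - t - c) * bt h (t + c) ≥ bt (n - h) (m - t - c) * exp ((t + c) / 15)`. Here
`10 (Q + 1) h ≤ 10 (24 + 10 / κ) θ m ≤ τ m / 30 ≤ t / 30` for `θ ≤ τ / (300 (24 + 10 / κ))`. Conditions of `exists_lower`: `t + c ≥ τ κ n ≥ C3 θ n` for
`θ ≤ τ κ / C3`; `t + c ≤ m ≤ e0 n^2 ≤ c1 h^2`, as `h ≥ θ n - 1 ≥ θ n / 2`, `e0 = c1 θ^2 / 4`. `0 < h` for `n ≥ 2 / θ`. -/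
theorem slope {κ τ : ℝ} (hκ : 0 < κ) (hτ : 0 < τ) (hτ1 : τ ≤ 1) :
    ∃ e0 : ℝ, 0 < e0 ∧ ∃ n0 : ℕ, ∀ n m t : ℕ, n0 ≤ n → κ * n ≤ m → (m : ℝ) ≤ e0 * (n : ℝ) ^ 2 →
      τ * m ≤ t → t ≤ m → Real.exp ((t : ℝ) / 30) * bt n (m - t) ≤ bt n m := by
  obtain ⟨c1, C3, hc1, hC3, hlow⟩ := exists_lower
  obtain ⟨A, hA, hAd⟩ : ∃ A : ℝ, 0 < A ∧ A = 24 + 10 / κ := ⟨24 + 10 / κ, by positivity, rfl⟩
  obtain ⟨θ, hθ, hθ1, hθ2, hθ3⟩ : ∃ θ : ℝ, 0 < θ ∧ θ ≤ τ / (300 * A) ∧ θ ≤ τ * κ / C3 ∧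
      θ ≤ 1 / 2 := by
    refine ⟨min (min (τ / (300 * A)) (τ * κ / C3)) (1 / 2), ?_, ?_, ?_, min_le_right _ _⟩
    · exact lt_min (lt_min (by positivity) (by positivity)) (by norm_num)
    · exact le_trans (min_le_left _ _) (min_le_left _ _)
    · exact le_trans (min_le_left _ _) (min_le_right _ _)
  obtain ⟨N, hN⟩ := exists_nat_ge (2 / θ)
  refine ⟨min (c1 * θ ^ 2 / 4) (1 / 4), lt_min (by positivity) (by norm_num), N + 2,
    fun n m t hn hm1 hm2 ht1 ht2 => ?_⟩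
  have hn2 : (2 : ℝ) ≤ n := by
    have : 2 ≤ n := by omega
    exact_mod_cast this
  have hn0 : (0 : ℝ) < n := by linarith
  have hnN : (N : ℝ) ≤ n := by
    have : N ≤ n := by omega
    exact_mod_cast this
  have hθn : 2 ≤ θ * n := by
    have h1 : 2 / θ ≤ n := le_trans hN hnN
    rw [div_le_iff₀ hθ] at h1
    linarith
  have he1 : (m : ℝ) ≤ c1 * θ ^ 2 / 4 * (n : ℝ) ^ 2 :=
    le_trans hm2 (mul_le_mul_of_nonneg_right (min_le_left _ _) (by positivity))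
  have he2 : (m : ℝ) ≤ 1 / 4 * (n : ℝ) ^ 2 :=
    le_trans hm2 (mul_le_mul_of_nonneg_right (min_le_right _ _) (by positivity))
  obtain ⟨h, hh⟩ : ∃ h : ℕ, h = ⌊θ * n⌋₊ := ⟨_, rfl⟩
  have hh1 : (h : ℝ) ≤ θ * n := by
    rw [hh]
    exact Nat.floor_le (by positivity)
  have hh2 : θ * n / 2 ≤ h := by
    have h1 : θ * n < h + 1 := by
      rw [hh]
      exact Nat.lt_floor_add_one _
    linarith
  have hh0 : 0 < h := by
    have h1 : (0 : ℝ) < h := by linarith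
    exact_mod_cast h1
  have hh3 : 2 * h ≤ n := by
    have h1 : (2 : ℝ) * h ≤ n := by nlinarith
    exact_mod_cast h1
  have hmNN : m ≤ NN n := by
    have h1 : 2 * NN n = n * (n - 1) := TopK_two_NN n
    have h2 : (m : ℝ) * 4 ≤ (n : ℝ) * n := by nlinarith
    have h3 : m * 4 ≤ n * n := by exact_mod_cast h2
    obtain ⟨k, rfl⟩ : ∃ k, n = k + 2 := ⟨n - 2, by omega⟩
    have h4 : k + 2 - 1 = k + 1 := rfl
    rw [h4] at h1
    nlinarith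
  obtain ⟨Q, hQ⟩ : ∃ Q : ℕ, Q = 24 * m / n + 9 := ⟨_, rfl⟩
  have hnn : 0 < n := by omega
  have hQ1 : 24 * (m - t) + 8 * n ≤ Q * n := by
    have h1 : 24 * m < (24 * m / n + 1) * n := by
      have h0 := Nat.lt_mul_div_succ (24 * m) hnn
      rw [mul_comm n] at h0
      exact h0
    rw [hQ]
    have h2 : 24 * (m - t) ≤ 24 * m := Nat.mul_le_mul_left _ (Nat.sub_le _ _)
    nlinarith
  have hQ2 : ((Q : ℝ) + 1) * n ≤ A * m := by
    have h1 : ((24 * m / n : ℕ) : ℝ) ≤ ((24 * m : ℕ) : ℝ) / (n : ℝ) := Nat.cast_div_le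
    rw [hQ, hAd]
    push_cast at h1 ⊢
    rw [le_div_iff₀ hn0] at h1
    have h2 : 10 * (n : ℝ) ≤ 10 / κ * m := by
      have h3 : 10 / κ * (κ * n) ≤ 10 / κ * m :=
        mul_le_mul_of_nonneg_left hm1 (by positivity)
      have h4 : 10 / κ * (κ * (n : ℝ)) = 10 * n := by field_simp
      linarith
    linarith
  obtain ⟨c, hc1', hc2, hc3, hc4⟩ := bt_iterate (le_trans (Nat.sub_le m t) hmNN) hh3 hQ1
  have hexp : (2 * ((Q : ℝ) + 1) ^ 5 * 4 ^ Q) ^ h ≤ Real.exp ((t : ℝ) / 30) := by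
    have h1 : (2 * ((Q : ℝ) + 1) ^ 5 * 4 ^ Q) ^ h ≤ Real.exp (10 * ((Q : ℝ) + 1)) ^ h :=
      pow_le_pow_left₀ (by positivity) (cost_le_exp Q) h
    rw [← Real.exp_nat_mul] at h1
    refine le_trans h1 (Real.exp_le_exp.2 ?_)
    have h2 : (h : ℝ) * (10 * ((Q : ℝ) + 1)) ≤ (θ * n) * (10 * ((Q : ℝ) + 1)) :=
      mul_le_mul_of_nonneg_right hh1 (by positivity)
    have h3 : θ * (((Q : ℝ) + 1) * n) ≤ θ * (A * m) := mul_le_mul_of_nonneg_left hQ2 hθ.le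
    have h4 : θ * (A * m) ≤ τ / (300 * A) * (A * m) :=
      mul_le_mul_of_nonneg_right hθ1 (by positivity)
    have h5 : τ / (300 * A) * (A * (m : ℝ)) = τ * m / 300 := by field_simp
    linarith
  have hcond1 : C3 * h ≤ ((t + c : ℕ) : ℝ) := by
    have h1 : C3 * h ≤ C3 * (θ * n) := mul_le_mul_of_nonneg_left hh1 hC3.le
    have h2 : C3 * (θ * n) ≤ C3 * (τ * κ / C3 * n) :=
      mul_le_mul_of_nonneg_left (mul_le_mul_of_nonneg_right hθ2 hn0.le) hC3.le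
    have h3 : C3 * (τ * κ / C3 * (n : ℝ)) = τ * (κ * n) := by field_simp
    have h4 : τ * (κ * n) ≤ τ * m := mul_le_mul_of_nonneg_left hm1 hτ.le
    have h5 : (0 : ℝ) ≤ c := Nat.cast_nonneg _
    push_cast
    linarith
  have hcond2 : ((t + c : ℕ) : ℝ) ≤ c1 * (h : ℝ) ^ 2 := by
    have h1 : t + c ≤ m := by omega
    have h2 : ((t + c : ℕ) : ℝ) ≤ m := by exact_mod_cast h1
    have h3 : (θ * n / 2) ^ 2 ≤ (h : ℝ) ^ 2 := pow_le_pow_left₀ (by positivity) hh2 2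
    have h4 : c1 * (θ * n / 2) ^ 2 ≤ c1 * (h : ℝ) ^ 2 := mul_le_mul_of_nonneg_left h3 hc1.le
    have h5 : c1 * (θ * (n : ℝ) / 2) ^ 2 = c1 * θ ^ 2 / 4 * (n : ℝ) ^ 2 := by ring
    linarith
  obtain ⟨hl1, hl2⟩ := hlow h (t + c) hh0 hcond1 hcond2
  have hmul := bt_mul_le hc3 hl1
  have e1 : n - h + h = n := by omega
  have e2 : m - t - c + (t + c) = m := by omega
  rw [e1, e2] at hmul
  have hpos := bt_pos hc3
  have h7 : Real.exp ((t : ℝ) / 30) * bt n (m - t) ≤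
      Real.exp ((t : ℝ) / 30) * (Real.exp ((t : ℝ) / 30) * bt (n - h) (m - t - c)) :=
    mul_le_mul_of_nonneg_left (le_trans hc4 (mul_le_mul_of_nonneg_right hexp hpos.le))
      (Real.exp_pos _).le
  have h8 : Real.exp ((t : ℝ) / 30) * (Real.exp ((t : ℝ) / 30) * bt (n - h) (m - t - c)) =
      bt (n - h) (m - t - c) * Real.exp ((t : ℝ) / 15) := by
    rw [← mul_assoc, ← Real.exp_add, mul_comm]
    congr 2
    ring
  have h9 : Real.exp ((t : ℝ) / 15) ≤ bt h (t + c) := by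
    refine le_trans (Real.exp_le_exp.2 ?_) hl2
    have h5 : (0 : ℝ) ≤ c := Nat.cast_nonneg _
    push_cast
    linarith
  have h10 : bt (n - h) (m - t - c) * Real.exp ((t : ℝ) / 15) ≤
      bt (n - h) (m - t - c) * bt h (t + c) := mul_le_mul_of_nonneg_left h9 hpos.le
  linarith

/-- In particular (`t = m`, `one_le_bt_zero`). -/
theorem slope_all {κ : ℝ} (hκ : 0 < κ) :
    ∃ e0 : ℝ, 0 < e0 ∧ ∃ n0 : ℕ, ∀ n m : ℕ, n0 ≤ n → κ * n ≤ m → (m : ℝ) ≤ e0 * (n : ℝ) ^ 2 →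
      Real.exp ((m : ℝ) / 30) ≤ bt n m := by
  obtain ⟨e0, he0, n0, h⟩ := slope hκ one_pos le_rfl
  refine ⟨e0, he0, n0, fun n m hn hm1 hm2 => ?_⟩
  have h1 := h n m m hn hm1 hm2 (by rw [one_mul]) le_rfl
  rw [Nat.sub_self] at h1
  have h2 := one_le_bt_zero n
  have h3 := Real.exp_pos ((m : ℝ) / 30)
  nlinarith

end Pool.Agent.H.MP_82502e_co
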