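import Pool.Agent.H.MP_82502e_co.Defs

set_option autoImplicit false
set_option linter.unusedSectionVars false

/-!
# The type lemma: density lemmas
-/

namespace Pool.Agent.H.MP_82502e_co

open Finset

section Graph

variable {α : Type*} [DecidableEq α] (G : SimpleGraph α) [DecidableRel G.Adj]

theorem tA_inter (A B : Finset α) :
    (G.interedges A B).card = ∑ x ∈ A, (B.filter fun y => G.Adj x y).card := by
  have h1 : G.interedges A B = (A ×ˢ B).filter fun e => G.Adj e.1 e.2 := by
    ext ⟨x, y⟩
    rw [SimpleGraph.mem_interedges_iff, Finset.mem_filter, Finset.mem_product, and_assoc]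
  rw [h1, Finset.card_filter, Finset.sum_product]
  refine Finset.sum_congr rfl fun x _ => ?_
  rw [Finset.card_filter]

theorem tA_dens (A B : Finset α) :
    (G.edgeDensity A B : ℝ) * ((A.card : ℝ) * B.card) = (G.interedges A B).card := by
  by_cases h : (A.card : ℝ) * B.card = 0
  · rw [h, mul_zero]
    have h2 : (G.interedges A B).card = 0 := by
      have h3 : (G.interedges A B).card ≤ A.card * B.card := G.card_interedges_le_mul A B
      have h4 : A.card * B.card = 0 := by exact_mod_cast h
      omega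
    rw [h2, Nat.cast_zero]
  · rw [SimpleGraph.edgeDensity_def]
    push_cast
    exact div_mul_cancel₀ _ h

/-- transitivity and uniformity: the third density is close to one -/
theorem tA_trans {ε ε' τ : ℝ} (hε : 0 < ε) (hε' : ε' ≤ 1) (hε'0 : 0 < ε') (hτ : τ ≤ 1)
    (h2 : 2 * ε ≤ ε' * τ) {U V W A B C : Finset α}
    (hUV : G.IsUniform ε U V) (hVW : G.IsUniform ε V W) (hUW : G.IsUniform ε U W)
    (hA : A ⊆ U) (hB : B ⊆ V) (hC : C ⊆ W) (hU0 : U.Nonempty) (hW0 : W.Nonempty)
    (cA : ε' * U.card ≤ A.card) (cB : ε' * V.card ≤ B.card) (cC : ε' * W.card ≤ C.card)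
    (dUV : τ ≤ (G.edgeDensity U V : ℝ)) (dVW : τ ≤ (G.edgeDensity V W : ℝ))
    (htr : ∀ x ∈ A, ∀ y ∈ B, ∀ z ∈ C, G.Adj x y → G.Adj y z → G.Adj x z) :
    1 - 2 * ε / ε' - ε < (G.edgeDensity U W : ℝ) := by
  have hτ0 : 0 < τ := by
    by_contra h
    have : ε' * τ ≤ 0 := mul_nonpos_of_nonneg_of_nonpos hε'0.le (not_lt.1 h)
    linarith
  have h1 : ε ≤ ε' := by nlinarith
  have hετ : ε < τ := by nlinarith
  have hU1 : (0 : ℝ) < U.card := by exact_mod_cast hU0.card_pos
  have hW1 : (0 : ℝ) < W.card := by exact_mod_cast hW0.card_pos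
  have hV1 : (0 : ℝ) ≤ V.card := Nat.cast_nonneg _
  have hB1 : (0 : ℝ) ≤ B.card := Nat.cast_nonneg _
  have hA1 : (0 : ℝ) < A.card := lt_of_lt_of_le (by positivity) cA
  have hC1 : (0 : ℝ) < C.card := lt_of_lt_of_le (by positivity) cC
  have eA : (U.card : ℝ) * ε ≤ A.card := by nlinarith
  have eB : (V.card : ℝ) * ε ≤ B.card := by nlinarith
  have eC : (W.card : ℝ) * ε ≤ C.card := by nlinarith
  -- the exceptional points of `A`
  set A' := A.filter fun x => ((B.filter fun y => G.Adj x y).card : ℝ) < (τ - ε) * B.card with hA'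
  have k1 : (A'.card : ℝ) < U.card * ε := by
    by_contra h
    rw [not_lt] at h
    have hA'U : A' ⊆ U := (Finset.filter_subset _ _).trans hA
    have h3 := hUV hA'U hB h eB
    have h4 : τ - ε < (G.edgeDensity A' B : ℝ) := by
      have := (abs_lt.1 h3).1
      linarith
    have h5 := tA_dens G A' B
    rw [tA_inter] at h5
    have hA'pos : A'.Nonempty := by
      rw [← Finset.card_pos]
      have : (0 : ℝ) < A'.card := lt_of_lt_of_le (by positivity) h
      exact_mod_cast this
    have h6 : ((∑ x ∈ A', (B.filter fun y => G.Adj x y).card : ℕ) : ℝ) <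
        ∑ _x ∈ A', (τ - ε) * (B.card : ℝ) := by
      push_cast
      exact Finset.sum_lt_sum_of_nonempty hA'pos fun x hx => (Finset.mem_filter.1 hx).2
    rw [Finset.sum_const, nsmul_eq_mul] at h6
    have h7 : (τ - ε) * ((A'.card : ℝ) * B.card) ≤
        (G.edgeDensity A' B : ℝ) * ((A'.card : ℝ) * B.card) :=
      mul_le_mul_of_nonneg_right h4.le (by positivity)
    nlinarith
  -- the other points of `A`
  have k2 : ∀ x ∈ A, x ∉ A' → (C.card : ℝ) - W.card * ε ≤ (C.filter fun z => G.Adj x z).card := by
    intro x hx hxA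
    set Nx := B.filter fun y => G.Adj x y with hNx
    have h3 : (τ - ε) * B.card ≤ Nx.card := by
      by_contra h
      exact hxA (Finset.mem_filter.2 ⟨hx, not_le.1 h⟩)
    set Cx := C.filter fun z => ∀ y ∈ Nx, ¬ G.Adj y z with hCx
    have h4 : (Cx.card : ℝ) < W.card * ε := by
      by_contra h
      rw [not_lt] at h
      have h5 : (V.card : ℝ) * ε ≤ Nx.card := by
        have h51 : (τ - ε) * (ε' * V.card) ≤ (τ - ε) * B.card :=
          mul_le_mul_of_nonneg_left cB (by linarith)
        have h52 : ε ≤ (τ - ε) * ε' := by nlinarith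
        have h53 : ε * V.card ≤ (τ - ε) * ε' * V.card := mul_le_mul_of_nonneg_right h52 hV1
        nlinarith
      have h6 := hVW ((Finset.filter_subset _ _).trans hB) ((Finset.filter_subset _ _).trans hC) h5 h
      have h7 : (G.edgeDensity Nx Cx : ℝ) = 0 := by
        rw [SimpleGraph.edgeDensity_def]
        have h8 : G.interedges Nx Cx = ∅ := by
          rw [Finset.eq_empty_iff_forall_notMem]
          rintro ⟨y, z⟩ hyz
          rw [SimpleGraph.mem_interedges_iff] at hyz
          exact (Finset.mem_filter.1 hyz.2.1).2 y hyz.1 hyz.2.2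
        rw [h8]
        simp
      rw [h7] at h6
      have := (abs_lt.1 h6).1
      linarith
    have h5 : C \ Cx ⊆ C.filter fun z => G.Adj x z := by
      intro z hz
      rw [Finset.mem_sdiff] at hz
      have h6 : ∃ y ∈ Nx, G.Adj y z := by
        by_contra h
        push Not at h
        exact hz.2 (Finset.mem_filter.2 ⟨hz.1, h⟩)
      obtain ⟨y, hy, hyz⟩ := h6
      rw [Finset.mem_filter] at hy
      exact Finset.mem_filter.2 ⟨hz.1, htr x hx y hy.1 z hz.1 hy.2 hyz⟩
    have h6 : C.card ≤ (C \ Cx).card + Cx.card := by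
      have h61 := Finset.card_sdiff_add_card_inter C Cx
      have h62 : (C ∩ Cx).card ≤ Cx.card := Finset.card_le_card Finset.inter_subset_right
      omega
    have h7 : (C.card : ℝ) ≤ (C \ Cx).card + Cx.card := by exact_mod_cast h6
    have h8 : ((C \ Cx).card : ℝ) ≤ (C.filter fun z => G.Adj x z).card := by
      exact_mod_cast Finset.card_le_card h5
    linarith
  have k3 : ((A.card : ℝ) - A'.card) * ((C.card : ℝ) - W.card * ε) ≤ (G.interedges A C).card := by
    rw [tA_inter]
    push_cast
    have h3 : ((A \ A').card : ℝ) = (A.card : ℝ) - A'.card := by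
      have h31 := Finset.card_sdiff_add_card_eq_card (Finset.filter_subset
        (fun x => ((B.filter fun y => G.Adj x y).card : ℝ) < (τ - ε) * B.card) A)
      have h32 : ((A \ A').card : ℝ) + A'.card = A.card := by exact_mod_cast h31
      linarith
    calc ((A.card : ℝ) - A'.card) * ((C.card : ℝ) - W.card * ε)
        = ∑ _x ∈ A \ A', ((C.card : ℝ) - W.card * ε) := by
          rw [Finset.sum_const, nsmul_eq_mul, h3]
      _ ≤ ∑ x ∈ A \ A', ((C.filter fun z => G.Adj x z).card : ℝ) :=
          Finset.sum_le_sum fun x hx => k2 x (Finset.mem_sdiff.1 hx).1 (Finset.mem_sdiff.1 hx).2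
      _ ≤ ∑ x ∈ A, ((C.filter fun z => G.Adj x z).card : ℝ) :=
          Finset.sum_le_sum_of_subset_of_nonneg Finset.sdiff_subset fun _ _ _ => Nat.cast_nonneg _
  have k4 : (1 - 2 * ε / ε') * ((A.card : ℝ) * C.card) ≤ (G.interedges A C).card := by
    set q := ε / ε' with hq
    have hq0 : 0 < q := by positivity
    have hq1 : q ≤ 1 := by
      rw [hq, div_le_one hε'0]
      exact h1
    have e1 : (U.card : ℝ) * ε ≤ q * A.card := by
      rw [hq, div_mul_eq_mul_div, le_div_iff₀ hε'0]
      nlinarith
    have e2 : (W.card : ℝ) * ε ≤ q * C.card := by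
      rw [hq, div_mul_eq_mul_div, le_div_iff₀ hε'0]
      nlinarith
    have e3 : (1 - q) * A.card ≤ (A.card : ℝ) - A'.card := by linarith
    have e4 : (1 - q) * C.card ≤ (C.card : ℝ) - W.card * ε := by linarith
    have e5 : 2 * ε / ε' = 2 * q := by rw [hq]; ring
    rw [e5]
    have e6 : ((1 - q) * A.card) * ((1 - q) * C.card) ≤
        ((A.card : ℝ) - A'.card) * ((C.card : ℝ) - W.card * ε) :=
      mul_le_mul e3 e4 (mul_nonneg (by linarith) hC1.le)
        (le_trans (mul_nonneg (by linarith) hA1.le) e3)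
    have e7 : (1 - 2 * q) * ((A.card : ℝ) * C.card) ≤ ((1 - q) * A.card) * ((1 - q) * C.card) := by
      have : 0 ≤ q ^ 2 * ((A.card : ℝ) * C.card) := by positivity
      nlinarith
    linarith
  have k5 : 1 - 2 * ε / ε' ≤ (G.edgeDensity A C : ℝ) := by
    rw [← tA_dens] at k4
    exact le_of_mul_le_mul_right k4 (by positivity)
  have k6 := hUW hA hC eA eC
  have := (abs_lt.1 k6).2
  linarith

end Graph

/-- counting pairs cell by cell -/
theorem tA_cells {n : ℕ} {K : Type*} [Fintype K] [DecidableEq K] (κ : Fin n → K)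
    (E : Finset (Fin n × Fin n)) {η : ℝ}
    (h : ∀ k k', ((E.filter fun p => κ p.1 = k ∧ κ p.2 = k').card : ℝ) ≤
      η * (((univ.filter fun x => κ x = k).card : ℝ) * (univ.filter fun x => κ x = k').card)) :
    (E.card : ℝ) ≤ η * (n : ℝ) ^ 2 := by
  have h1 : E.card = ∑ q : K × K, (E.filter fun p => (κ p.1, κ p.2) = q).card :=
    Finset.card_eq_sum_card_fiberwise fun p _ => Finset.mem_univ _
  have h2 : ∑ k : K, ((univ.filter fun x => κ x = k).card : ℝ) = n := by
    have h3 : (univ : Finset (Fin n)).card = ∑ k : K, (univ.filter fun x => κ x = k).card :=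
      Finset.card_eq_sum_card_fiberwise fun p _ => Finset.mem_univ _
    rw [Finset.card_univ, Fintype.card_fin] at h3
    exact_mod_cast h3.symm
  rw [h1]
  push_cast
  rw [Fintype.sum_prod_type]
  calc ∑ k : K, ∑ k' : K, ((E.filter fun p => (κ p.1, κ p.2) = (k, k')).card : ℝ)
      ≤ ∑ k : K, ∑ k' : K, η * (((univ.filter fun x => κ x = k).card : ℝ) *
        (univ.filter fun x => κ x = k').card) := by
        refine Finset.sum_le_sum fun k _ => Finset.sum_le_sum fun k' _ => ?_
        refine le_trans (le_of_eq ?_) (h k k')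
        congr 2
        ext p
        simp only [Finset.mem_filter, Prod.mk.injEq]
    _ = η * (n : ℝ) ^ 2 := by
        simp only [← Finset.mul_sum, ← Finset.sum_mul]
        rw [h2]
        ring

/-- the interval of a point -/
def itv (n L : ℕ) (hL : 0 < L) (x : Fin n) : Fin L :=
  ⟨x.1 * L / n, by
    have hn : 0 < n := lt_of_le_of_lt (Nat.zero_le _) x.2
    rw [Nat.div_lt_iff_lt_mul hn, mul_comm L n]
    exact Nat.mul_lt_mul_of_pos_right x.2 hL⟩

theorem itv_mono {n L : ℕ} (hL : 0 < L) {x y : Fin n} (h : x ≤ y) : itv n L hL x ≤ itv n L hL y := by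
  show x.1 * L / n ≤ y.1 * L / n
  exact Nat.div_le_div_right (Nat.mul_le_mul_right _ h)

theorem itv_lt {n L : ℕ} (hL : 0 < L) {x y : Fin n} (h : itv n L hL x < itv n L hL y) : x < y := by
  by_contra h1
  exact absurd (itv_mono hL (not_lt.1 h1)) (not_le.2 h)

/-- the upward pairs in one interval -/
theorem itv_pairs {n L : ℕ} (hL : 0 < L) :
    (((univ : Finset (Fin n × Fin n)).filter fun p => p.1 < p.2 ∧
      itv n L hL p.1 = itv n L hL p.2).card : ℝ) ≤ (n : ℝ) ^ 2 / L := by
  have hL' : (0 : ℝ) < L := by exact_mod_cast hL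
  have h1 : ((univ : Finset (Fin n × Fin n)).filter fun p => p.1 < p.2 ∧
      itv n L hL p.1 = itv n L hL p.2).card =
      ∑ x : Fin n, ((univ : Finset (Fin n)).filter fun y => x < y ∧
        itv n L hL x = itv n L hL y).card := by
    rw [Finset.card_filter, ← Finset.univ_product_univ, Finset.sum_product]
    refine Finset.sum_congr rfl fun x _ => ?_
    rw [Finset.card_filter]
  have h2 : ∀ x : Fin n, ((univ : Finset (Fin n)).filter fun y => x < y ∧
        itv n L hL x = itv n L hL y).card ≤ n / L := by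
    intro x
    have hn : 0 < n := lt_of_le_of_lt (Nat.zero_le _) x.2
    have h3 : ((univ : Finset (Fin n)).filter fun y => x < y ∧
        itv n L hL x = itv n L hL y).card ≤ (Finset.Ioc x.1 (x.1 + n / L)).card := by
      refine Finset.card_le_card_of_injOn (fun y => y.1) ?_ ?_
      · intro y hy
        rw [Finset.mem_coe, Finset.mem_filter] at hy
        rw [Finset.mem_coe, Finset.mem_Ioc]
        have hxy : x.1 < y.1 := hy.2.1
        refine ⟨hxy, ?_⟩
        have h4 : x.1 * L / n = y.1 * L / n := congrArg Fin.val hy.2.2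
        have h5 : y.1 * L < (y.1 * L / n + 1) * n := by
          exact (Nat.lt_mul_div_succ _ hn).trans_eq (mul_comm _ _)
        have h6 : x.1 * L / n * n ≤ x.1 * L := Nat.div_mul_le_self _ _
        rw [← h4, add_mul, one_mul] at h5
        have h7 : (y.1 - x.1) * L < n := by
          rw [Nat.sub_mul]
          omega
        have h8 : y.1 - x.1 ≤ n / L := by
          rw [Nat.le_div_iff_mul_le hL]
          exact h7.le
        show y.1 ≤ x.1 + n / L
        omega
      · intro y _ z _ h
        exact Fin.ext h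
    rw [Nat.card_Ioc, Nat.add_sub_cancel_left] at h3
    exact h3
  rw [h1]
  push_cast
  calc ∑ x : Fin n, (((univ : Finset (Fin n)).filter fun y => x < y ∧
        itv n L hL x = itv n L hL y).card : ℝ) ≤ ∑ _x : Fin n, (n : ℝ) / L := by
        refine Finset.sum_le_sum fun x _ => ?_
        exact le_trans (by exact_mod_cast h2 x) (Nat.cast_div_le)
    _ = (n : ℝ) ^ 2 / L := by
        rw [Finset.sum_const, Finset.card_univ, Fintype.card_fin, nsmul_eq_mul]
        ring

end Pool.Agent.H.MP_82502e_co
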