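import Pool.Agent.H.MP_82502e_co.WDefs
import Pool.Agent.H.MP_82502e_co.Ent

set_option autoImplicit false

/-!
# The window: elementary inequalities for binomial coefficients, 1
-/

namespace Pool.Agent.H.MP_82502e_co

open Finset Real

/-- (B1) `choose (N+w) K / choose N K = ∏_{r=1}^w (N+r)/(N+r-K)`, every factor is at least the last
one. -/
theorem choose_addN_ge {N K w : ℕ} (h : K ≤ N) :
    (((N : ℝ) + w) / ((N : ℝ) + w - K)) ^ w * (N.choose K : ℝ) ≤ ((N + w).choose K : ℝ) := by
  have key : ∀ w' : ℕ, w' ≤ w →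
      (((N : ℝ) + w) / ((N : ℝ) + w - K)) ^ w' * (N.choose K : ℝ) ≤ ((N + w').choose K : ℝ) := by
    intro w' hw'
    induction w' with
    | zero => simp
    | succ r ih =>
      have hK : (K : ℝ) ≤ N := by exact_mod_cast h
      have hw : (r : ℝ) + 1 ≤ w := by exact_mod_cast hw'
      have hr0 : (0 : ℝ) ≤ r := Nat.cast_nonneg r
      have hK0 : (0 : ℝ) ≤ K := Nat.cast_nonneg K
      have e := Nat.choose_mul_succ_eq (N + r) K
      have e' : ((N + r).choose K : ℝ) * ((N : ℝ) + r + 1) =
          ((N + (r + 1)).choose K : ℝ) * ((N : ℝ) + r + 1 - K) := by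
        have h2 : (((N + r + 1 - K : ℕ) : ℕ) : ℝ) = (N : ℝ) + r + 1 - K := by
          rw [Nat.cast_sub (by omega)]
          push_cast
          ring
        rw [← h2]
        exact_mod_cast e
      have hpos : (0 : ℝ) < (N : ℝ) + r + 1 - K := by linarith
      have hpos' : (0 : ℝ) < (N : ℝ) + w - K := by linarith
      have e2 : ((N + (r + 1)).choose K : ℝ) =
          ((N : ℝ) + r + 1) / ((N : ℝ) + r + 1 - K) * ((N + r).choose K : ℝ) := by
        field_simp
        linarith
      rw [e2, pow_succ, mul_comm (_ ^ r) _, mul_assoc]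
      refine mul_le_mul ?_ (ih (by omega)) (by positivity) (by positivity)
      rw [div_le_div_iff₀ hpos' hpos]
      nlinarith
  exact key w le_rfl

/-- (B3) right shift: `choose N (K+v) / choose N K = ∏_{r<v} (N-K-r)/(K+1+r)`; with `y = K - N/2` and
`|y| + v ≤ N/100` each factor is `(1 - 2(y+r)/N)/(1 + 2(y+r+1)/N) ≥ exp(-(4.1/N)(max y 0 + r + 1/2))`
roughly; sum over `r < v`. Used in the form below (there is slack: `2v²` against `v²·4.1/... `). -/
theorem choose_right_ge {N K v : ℕ} (h : |(K : ℝ) - N / 2| + v ≤ N / 100) :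
    exp (-(41 / 10 / N * (max ((K : ℝ) - N / 2) 0 * v + (v : ℝ) ^ 2))) * (N.choose K : ℝ) ≤
      (N.choose (K + v) : ℝ) := by
  rcases Nat.eq_zero_or_pos N with hN | hN
  · subst hN
    have h1 := abs_nonneg ((K : ℝ) - ((0 : ℕ) : ℝ) / 2)
    have h2 : (0 : ℝ) ≤ v := Nat.cast_nonneg v
    have h3 : (v : ℝ) = 0 := by
      have : (((0 : ℕ) : ℝ)) / 100 = 0 := by simp
      linarith
    have h4 : v = 0 := by exact_mod_cast h3
    subst h4
    simp
  have hN' : (0 : ℝ) < N := by exact_mod_cast hN
  have key : ∀ v' : ℕ, v' ≤ v →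
      exp (-(41 / 10 / N * (max ((K : ℝ) - N / 2) 0 * v' + (v' : ℝ) ^ 2))) * (N.choose K : ℝ) ≤
      (N.choose (K + v') : ℝ) := by
    intro v' hv'
    induction v' with
    | zero => simp
    | succ r ih =>
      have hv : (r : ℝ) + 1 ≤ v := by exact_mod_cast hv'
      have hr0 : (0 : ℝ) ≤ r := Nat.cast_nonneg r
      obtain ⟨y, hy⟩ : ∃ y : ℝ, y = (K : ℝ) - N / 2 := ⟨_, rfl⟩
      rw [← hy] at h ih ⊢
      have hy1 := le_abs_self y
      have hy2 := neg_abs_le y
      have hY1 := le_max_left y 0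
      have hY2 := le_max_right y 0
      obtain ⟨Y, hYd⟩ : ∃ Y : ℝ, Y = max y 0 := ⟨_, rfl⟩
      rw [← hYd] at ih hY1 hY2 ⊢
      have hKle : K + r ≤ N := by
        have : ((K + r : ℕ) : ℝ) ≤ N := by
          push_cast
          linarith
        exact_mod_cast this
      have e := Nat.choose_succ_right_eq N (K + r)
      have e' : (N.choose (K + (r + 1)) : ℝ) * ((K : ℝ) + r + 1) =
          (N.choose (K + r) : ℝ) * ((N : ℝ) - K - r) := by
        have h2 : (((N - (K + r) : ℕ) : ℕ) : ℝ) = (N : ℝ) - K - r := by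
          rw [Nat.cast_sub hKle]
          push_cast
          ring
        rw [← h2]
        exact_mod_cast e
      have hp1 : (0 : ℝ) < (K : ℝ) + r + 1 := by positivity
      have e2 : (N.choose (K + (r + 1)) : ℝ) =
          ((N : ℝ) - K - r) / ((K : ℝ) + r + 1) * (N.choose (K + r) : ℝ) := by
        field_simp
        linarith
      obtain ⟨t, ht⟩ : ∃ t : ℝ, t = 41 / 10 / N * (Y + 2 * r + 1) := ⟨_, rfl⟩
      have ht0 : 0 ≤ t := by rw [ht]; positivity
      have e3 : -(41 / 10 / N * (Y * ((r + 1 : ℕ) : ℝ) + (((r + 1 : ℕ) : ℝ)) ^ 2)) =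
          -t + -(41 / 10 / N * (Y * r + (r : ℝ) ^ 2)) := by
        rw [ht]
        push_cast
        ring
      rw [e3, exp_add, mul_assoc, e2]
      refine mul_le_mul ?_ (ih (by omega)) (by positivity) ?_
      · have h5 : exp (-t) ≤ 1 / (1 + t) := by
          rw [exp_neg, ← one_div]
          apply one_div_le_one_div_of_le (by linarith)
          linarith [add_one_le_exp t]
        refine h5.trans ?_
        rw [div_le_div_iff₀ (by linarith) hp1]
        have h6 : (49 / 100 : ℝ) * N ≤ (N : ℝ) - K - r := by linarith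
        have h7 : (49 / 100 : ℝ) * N * t ≤ ((N : ℝ) - K - r) * t :=
          mul_le_mul_of_nonneg_right h6 ht0
        have h8 : (49 / 100 : ℝ) * N * t = 2009 / 1000 * (Y + 2 * r + 1) := by
          rw [ht]
          field_simp
          ring
        nlinarith
      · apply div_nonneg _ hp1.le
        linarith
  exact key v le_rfl

/-- (B3) left shift (symmetric: `choose N K = choose N (N-K)`). -/
theorem choose_left_ge {N K v : ℕ} (h : |(K : ℝ) - N / 2| + v ≤ N / 100) :
    exp (-(41 / 10 / N * (max ((N : ℝ) / 2 - K) 0 * v + (v : ℝ) ^ 2))) * (N.choose K : ℝ) ≤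
      (N.choose (K - v) : ℝ) := by
  rcases Nat.eq_zero_or_pos N with hN | hN
  · subst hN
    have h1 := abs_nonneg ((K : ℝ) - ((0 : ℕ) : ℝ) / 2)
    have h2 : (0 : ℝ) ≤ v := Nat.cast_nonneg v
    have h3 : (v : ℝ) = 0 := by
      have : (((0 : ℕ) : ℝ)) / 100 = 0 := by simp
      linarith
    have h4 : v = 0 := by exact_mod_cast h3
    subst h4
    simp
  have hN' : (0 : ℝ) < N := by exact_mod_cast hN
  have hv0 : (0 : ℝ) ≤ v := Nat.cast_nonneg v
  have hy1 := le_abs_self ((K : ℝ) - N / 2)
  have hy2 := neg_abs_le ((K : ℝ) - N / 2)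
  have hKN : K ≤ N := by
    have : (K : ℝ) ≤ N := by linarith
    exact_mod_cast this
  have hvK : v ≤ K := by
    have : (v : ℝ) ≤ K := by linarith
    exact_mod_cast this
  have hc : ((N - K : ℕ) : ℝ) = (N : ℝ) - K := by rw [Nat.cast_sub hKN]
  have h' : |((N - K : ℕ) : ℝ) - N / 2| + v ≤ N / 100 := by
    rw [hc]
    have e : (N : ℝ) - K - N / 2 = -((K : ℝ) - N / 2) := by ring
    rw [e, abs_neg]
    exact h
  have main := choose_right_ge h'
  rw [Nat.choose_symm hKN, hc] at main
  have e1 : (N : ℝ) - K - N / 2 = (N : ℝ) / 2 - K := by ring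
  rw [e1] at main
  have e2 : N.choose (N - K + v) = N.choose (K - v) :=
    Nat.choose_symm_of_eq_add (by omega)
  rw [e2] at main
  exact main

/-- Left shift from the right of the centre gains: for `v ≤ y = K - N/2`:
`choose N (K-v)/choose N K = ∏_{r<v} (K-r)/(N-K+1+r)`, and `log((K-r)/(N-K+1+r)) =
log(((N+1)/2+x)/((N+1)/2-x)) ≥ 4x/(N+1)`, `x = y - r - 1/2 ≥ 0`. The sum of these `x` is
`vy - v²/2 ≥ v(y-v)`. -/
theorem choose_left_gain {N K v : ℕ} (hK : K ≤ N) (h : (v : ℝ) ≤ (K : ℝ) - N / 2) :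
    exp (4 / (N + 1) * (((K : ℝ) - N / 2 - v) * v)) * (N.choose K : ℝ) ≤
      (N.choose (K - v) : ℝ) := by
  have hNp : (0 : ℝ) < (N : ℝ) + 1 := by positivity
  have key : ∀ v' : ℕ, v' ≤ v →
      exp (4 / (N + 1) * (((K : ℝ) - N / 2) * v' - (v' : ℝ) ^ 2 / 2)) * (N.choose K : ℝ) ≤
      (N.choose (K - v') : ℝ) := by
    intro v' hv'
    induction v' with
    | zero => simp
    | succ r ih =>
      have hv : (r : ℝ) + 1 ≤ v := by exact_mod_cast hv'
      have hr0 : (0 : ℝ) ≤ r := Nat.cast_nonneg r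
      have hKN : (K : ℝ) ≤ N := by exact_mod_cast hK
      have hN0 : (0 : ℝ) ≤ N := Nat.cast_nonneg N
      have hrK : r + 1 ≤ K := by
        have : ((r + 1 : ℕ) : ℝ) ≤ K := by
          push_cast
          linarith
        exact_mod_cast this
      have e := Nat.choose_succ_right_eq N (K - (r + 1))
      have e0 : K - (r + 1) + 1 = K - r := by omega
      rw [e0] at e
      have e' : (N.choose (K - r) : ℝ) * ((K : ℝ) - r) =
          (N.choose (K - (r + 1)) : ℝ) * ((N : ℝ) - K + r + 1) := by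
        have h2 : (((N - (K - (r + 1)) : ℕ) : ℕ) : ℝ) = (N : ℝ) - K + r + 1 := by
          rw [Nat.cast_sub (by omega), Nat.cast_sub (by omega)]
          push_cast
          ring
        have h3 : (((K - r : ℕ) : ℕ) : ℝ) = (K : ℝ) - r := by
          rw [Nat.cast_sub (by omega)]
        rw [← h2, ← h3]
        exact_mod_cast e
      have hp1 : (0 : ℝ) < (N : ℝ) - K + r + 1 := by linarith
      have e2 : (N.choose (K - (r + 1)) : ℝ) =
          ((K : ℝ) - r) / ((N : ℝ) - K + r + 1) * (N.choose (K - r) : ℝ) := by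
        field_simp
        linarith
      obtain ⟨z, hz⟩ : ∃ z : ℝ, z = 2 * ((K : ℝ) - N / 2 - r - 1 / 2) / (N + 1) := ⟨_, rfl⟩
      have hz0 : 0 ≤ z := by
        rw [hz]
        apply div_nonneg _ hNp.le
        linarith
      have hz1 : z < 1 := by
        rw [hz, div_lt_one hNp]
        linarith
      have hzz : z * (N + 1) = 2 * ((K : ℝ) - N / 2 - r - 1 / 2) := by
        rw [hz]
        field_simp
      have e3 : 4 / ((N : ℝ) + 1) * (((K : ℝ) - N / 2) * ((r + 1 : ℕ) : ℝ) -
            (((r + 1 : ℕ) : ℝ)) ^ 2 / 2) =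
          2 * z + 4 / (N + 1) * (((K : ℝ) - N / 2) * r - (r : ℝ) ^ 2 / 2) := by
        rw [hz]
        push_cast
        field_simp
        ring
      rw [e3, exp_add, mul_assoc, e2]
      refine mul_le_mul ?_ (ih (by omega)) (by positivity) ?_
      · have h5 : exp (2 * z) ≤ (1 + z) / (1 - z) := by
          have h6 := hasSum_log_sub_log_of_abs_lt_one (x := z) (by rw [abs_of_nonneg hz0]; exact hz1)
          have h7 := le_hasSum h6 0 (fun j _ => by positivity)
          simp only [Nat.cast_zero, mul_zero, zero_add, div_one, mul_one, pow_one] at h7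
          have h8 : log ((1 + z) / (1 - z)) = log (1 + z) - log (1 - z) :=
            log_div (by linarith) (by linarith)
          rw [← h8] at h7
          have h9 : 0 < (1 + z) / (1 - z) := div_pos (by linarith) (by linarith)
          calc exp (2 * z) ≤ exp (log ((1 + z) / (1 - z))) := exp_le_exp.2 h7
            _ = (1 + z) / (1 - z) := exp_log h9
        refine h5.trans (le_of_eq ?_)
        rw [div_eq_div_iff (by linarith) hp1.ne']
        linear_combination hzz
      · apply div_nonneg _ hp1.le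
        linarith
  have h1 := key v le_rfl
  refine le_trans ?_ h1
  apply mul_le_mul_of_nonneg_right _ (Nat.cast_nonneg _)
  apply exp_le_exp.2
  apply mul_le_mul_of_nonneg_left _ (by positivity)
  nlinarith [sq_nonneg (v : ℝ)]

/-- Right shift from the left of the centre gains (symmetric). -/
theorem choose_right_gain {N K v : ℕ} (h : (v : ℝ) ≤ (N : ℝ) / 2 - K) :
    exp (4 / (N + 1) * (((N : ℝ) / 2 - K - v) * v)) * (N.choose K : ℝ) ≤
      (N.choose (K + v) : ℝ) := by
  have hv0 : (0 : ℝ) ≤ v := Nat.cast_nonneg v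
  have hN0 : (0 : ℝ) ≤ N := Nat.cast_nonneg N
  have hKN : K + v ≤ N := by
    have : ((K + v : ℕ) : ℝ) ≤ N := by
      push_cast
      linarith
    exact_mod_cast this
  have hKN' : K ≤ N := by omega
  have hc : ((N - K : ℕ) : ℝ) = (N : ℝ) - K := by rw [Nat.cast_sub hKN']
  have main := choose_left_gain (N := N) (K := N - K) (v := v) (Nat.sub_le _ _)
    (by rw [hc]; linarith)
  rw [Nat.choose_symm hKN', hc] at main
  have e1 : (N : ℝ) - K - N / 2 - v = (N : ℝ) / 2 - K - v := by ring
  rw [e1] at main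
  have e2 : N.choose (N - K - v) = N.choose (K + v) :=
    Nat.choose_symm_of_eq_add (by omega)
  rw [e2] at main
  exact main

end Pool.Agent.H.MP_82502e_co
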