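import Pool.Agent.H.MP_82502e_co.WGood
import Pool.Agent.H.MP_82502e_co.Count

set_option autoImplicit false

/-!
# The window: counting posets with few defects that are not pseudo-random
-/

namespace Pool.Agent.H.MP_82502e_co

open Finset Real

theorem WCoarse1_mem_cl {n : ℕ} {g : Fin n → Fin 3} {i : Fin 3} {x : Fin n} :
    x ∈ cl g i ↔ g x = i := by
  simp [cl]

theorem WCoarse1_card_cl {n : ℕ} (g : Fin n → Fin 3) (e : Equiv.Perm (Fin n)) (i : Fin 3) :
    (cl (g ∘ e.symm) i).card = (cl g i).card := by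
  have h : cl (g ∘ e.symm) i = (cl g i).map e.toEmbedding := by
    ext x
    rw [mem_map_equiv, WCoarse1_mem_cl, WCoarse1_mem_cl]
    rfl
  rw [h, card_map]

/-- `GoodP` is invariant (with `g` transported). -/
theorem good_relab {n : ℕ} {ν ε τ s : ℝ} {S : Finset (Fin n × Fin n)} {g : Fin n → Fin 3}
    (e : Equiv.Perm (Fin n)) (h : GoodP ν ε τ s S g) : GoodP ν ε τ s (relab e S) (g ∘ e.symm) := by
  have hcl : ∀ (i : Fin 3) (A : Finset (Fin n)), A ⊆ cl (g ∘ e.symm) i →
      A.map e.symm.toEmbedding ⊆ cl g i := by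
    intro i A hA x hx
    rw [mem_map_equiv] at hx
    have h1 := WCoarse1_mem_cl.1 (hA hx)
    rw [WCoarse1_mem_cl, ← h1]
    simp
  have hint : ∀ A B : Finset (Fin n), ((relab e S ∩ A ×ˢ B).card : ℝ) =
      ((S ∩ (A.map e.symm.toEmbedding) ×ˢ (B.map e.symm.toEmbedding)).card : ℝ) := by
    intro A B
    rw [← card_relab e (S ∩ (A.map e.symm.toEmbedding) ×ˢ (B.map e.symm.toEmbedding))]
    congr 2
    ext p
    rw [mem_inter, mem_relab, mem_relab, mem_inter, mem_product, mem_product, mem_map_equiv,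
      mem_map_equiv]
    simp
  have hsd : ∀ A B : Finset (Fin n), (((A ×ˢ B) \ relab e S).card : ℝ) =
      ((((A.map e.symm.toEmbedding) ×ˢ (B.map e.symm.toEmbedding)) \ S).card : ℝ) := by
    intro A B
    rw [← card_relab e (((A.map e.symm.toEmbedding) ×ˢ (B.map e.symm.toEmbedding)) \ S)]
    congr 2
    ext p
    rw [mem_sdiff, mem_relab, mem_relab, mem_sdiff, mem_product, mem_product, mem_map_equiv,
      mem_map_equiv]
    simp
  refine ⟨?_, ?_, ?_, ?_, ?_⟩
  · rw [WCoarse1_card_cl]; exact h.mid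
  · have e1 : ((relab e S).filter fun p => (g ∘ e.symm) p.2 ≤ (g ∘ e.symm) p.1) =
        relab e (S.filter fun p => g p.2 ≤ g p.1) := by
      ext p
      rw [mem_filter, mem_relab, mem_relab, mem_filter]
      rfl
    rw [e1, card_relab]
    exact h.d1
  · have e1 : (((cl (g ∘ e.symm) 0 ×ˢ cl (g ∘ e.symm) 2) \ relab e S)) =
        relab e ((cl g 0 ×ˢ cl g 2) \ S) := by
      ext p
      rw [mem_sdiff, mem_relab, mem_relab, mem_sdiff, mem_product, mem_product,
        WCoarse1_mem_cl, WCoarse1_mem_cl, WCoarse1_mem_cl, WCoarse1_mem_cl]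
      rfl
    rw [e1, card_relab]
    exact h.d2
  · intro A hA B hB hA1 hB1
    rw [hint, hsd]
    exact h.c1 _ (hcl 0 A hA) _ (hcl 1 B hB) (by rw [card_map]; exact hA1)
      (by rw [card_map]; exact hB1)
  · intro A hA B hB hA1 hB1
    rw [hint, hsd]
    exact h.c2 _ (hcl 2 A hA) _ (hcl 1 B hB) (by rw [card_map]; exact hA1)
      (by rw [card_map]; exact hB1)

/-- The data. -/
abbrev WCoarse1_I (n : ℕ) : Type :=
  (Fin n → Fin 3) × Finset (Fin n) × Finset (Fin n) × Bool × Bool

/-- The exceptional rectangle. -/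
def WCoarse1_R {n : ℕ} (i : WCoarse1_I n) : Finset (Fin n × Fin n) :=
  if i.2.2.2.1 then i.2.1 ×ˢ i.2.2.1 else i.2.2.1 ×ˢ i.2.1

/-- The reference set. -/
def WCoarse1_Ref {n : ℕ} (i : WCoarse1_I n) : Finset (Fin n × Fin n) :=
  (cl i.1 0 ×ˢ cl i.1 2) ∪ (if i.2.2.2.2 then WCoarse1_R i else ∅)

/-- The free set. -/
def WCoarse1_Fr {n : ℕ} (i : WCoarse1_I n) : Finset (Fin n × Fin n) :=
  ((cl i.1 0 ×ˢ cl i.1 1) ∪ (cl i.1 1 ×ˢ cl i.1 2)) \ WCoarse1_R i

/-- The number of sets near the reference set outside the free set. -/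
theorem WCoarse1_count {n : ℕ} (η : ℝ) (Ref Fr : Finset (Fin n × Fin n)) :
    ((univ : Finset (Finset (Fin n × Fin n))).filter fun S =>
      (((symmDiff S Ref) \ Fr).card : ℝ) ≤ η * (n : ℝ) ^ 2).card ≤
    ((univ : Finset (Finset (Fin n × Fin n))).filter
      fun A => (A.card : ℝ) ≤ η * (n : ℝ) ^ 2).card * 2 ^ Fr.card := by
  rw [← card_powerset, ← card_product]
  refine card_le_card_of_injOn (fun S => ((symmDiff S Ref) \ Fr, S ∩ Fr)) ?_ ?_
  · intro S hS
    rw [mem_coe, mem_filter] at hS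
    rw [mem_coe, mem_product, mem_filter, mem_powerset]
    exact ⟨⟨mem_univ _, hS.2⟩, inter_subset_right⟩
  · intro S _ S' _ h
    have h1 : (symmDiff S Ref) \ Fr = (symmDiff S' Ref) \ Fr := congrArg Prod.fst h
    have h2 : S ∩ Fr = S' ∩ Fr := congrArg Prod.snd h
    ext p
    have k1 : p ∈ (symmDiff S Ref) \ Fr ↔ p ∈ (symmDiff S' Ref) \ Fr := by rw [h1]
    have k2 : p ∈ S ∩ Fr ↔ p ∈ S' ∩ Fr := by rw [h2]
    rw [mem_sdiff, mem_sdiff, mem_symmDiff, mem_symmDiff] at k1
    rw [mem_inter, mem_inter] at k2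
    tauto

theorem WCoarse1_card_sum {n : ℕ} (g : Fin n → Fin 3) :
    (cl g 0).card + (cl g 1).card + (cl g 2).card = n := by
  have h1 : (univ : Finset (Fin n)).card = ∑ i : Fin 3, (cl g i).card :=
    card_eq_sum_card_fiberwise (fun x _ => mem_univ (g x))
  rw [Fin.sum_univ_three, card_univ, Fintype.card_fin] at h1
  exact h1.symm

theorem WCoarse1_Fr_card {n : ℕ} {r : ℝ} (i : WCoarse1_I n) (hr : 0 ≤ r)
    (hR : WCoarse1_R i ⊆ (cl i.1 0 ×ˢ cl i.1 1) ∪ (cl i.1 1 ×ˢ cl i.1 2))
    (hA : r ≤ i.2.1.card) (hB : r ≤ i.2.2.1.card) :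
    ((WCoarse1_Fr i).card : ℝ) ≤ (n : ℝ) ^ 2 / 4 - r ^ 2 := by
  have h1 : (WCoarse1_Fr i).card + (WCoarse1_R i).card ≤
      (cl i.1 0).card * (cl i.1 1).card + (cl i.1 1).card * (cl i.1 2).card := by
    rw [WCoarse1_Fr, card_sdiff_of_subset hR, Nat.sub_add_cancel (card_le_card hR),
      ← card_product, ← card_product]
    exact card_union_le _ _
  have h2 : (WCoarse1_R i).card = i.2.1.card * i.2.2.1.card := by
    unfold WCoarse1_R
    split_ifs
    · rw [card_product]
    · rw [card_product, mul_comm]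
  rw [h2] at h1
  have h3 := WCoarse1_card_sum i.1
  have h1' : ((WCoarse1_Fr i).card : ℝ) + (i.2.1.card : ℝ) * i.2.2.1.card ≤
      ((cl i.1 0).card : ℝ) * (cl i.1 1).card + ((cl i.1 1).card : ℝ) * (cl i.1 2).card := by
    exact_mod_cast h1
  have h3' : ((cl i.1 0).card : ℝ) + (cl i.1 1).card + (cl i.1 2).card = n := by
    exact_mod_cast h3
  have h4 : r * r ≤ (i.2.1.card : ℝ) * i.2.2.1.card := mul_le_mul hA hB hr (hr.trans hA)
  rw [← h3']
  nlinarith [sq_nonneg (((cl i.1 0).card : ℝ) + (cl i.1 2).card - (cl i.1 1).card)]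

open scoped Classical in
/-- Counting posets with few defects but without pseudo-randomness. For every `τ` and `ε ≤ ε0(τ)`: the number of `S` (any sets of pairs) such that for some
`g` the conditions `d1`, `d2` hold (`≤ ε n²`) but `c1` or `c2` fails is at most `exp((log 2/4 - τ²/4) n²)`.
Proof. Choose `g` (`3^n`), the sets `A`, `B` of size `≥ τ n` (`4^n`), which condition fails (4 ways), the set `S.filter (g p.2 ≤ g p.1)` and `(X × Y) \ S` (at most `ε n²` elements each:
`exp(θ n²)` choices, `small_subsets`), the set `S ∩ A × B` or `(A × B) \ S` (at most `3 ε n²` elements, `exp(θ n²)`), and the rest of `S ∩ (X × M ∪ M × Y)`: at most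
`2^(|M|(n - |M|) - |A||B|) ≤ 2^(n²/4 - τ² n²)`. These data determine `S`. -/
theorem card_not_random {τ : ℝ} (hτ : 0 < τ) (hτ1 : τ ≤ 1 / 100) : ∃ ε0 : ℝ, 0 < ε0 ∧
    ∀ ε : ℝ, 0 < ε → ε ≤ ε0 → ∃ n0 : ℕ, ∀ n ≥ n0,
    (((univ : Finset (Finset (Fin n × Fin n))).filter fun S => ∃ g : Fin n → Fin 3,
      ((S.filter fun p => g p.2 ≤ g p.1).card : ℝ) ≤ ε * (n : ℝ) ^ 2 ∧
      (((cl g 0 ×ˢ cl g 2) \ S).card : ℝ) ≤ ε * (n : ℝ) ^ 2 ∧
      |((cl g 1).card : ℝ) - n / 2| ≤ τ * n ∧ ¬ GoodP n ε τ 0 S g).card : ℝ) ≤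
      exp ((log 2 / 4 - τ ^ 2 / 4) * (n : ℝ) ^ 2) := by
  obtain ⟨η0, hη0, hsm⟩ := small_subsets (θ := τ ^ 2 / 8) (by positivity)
  refine ⟨η0 / 5, by positivity, fun ε hε hε0 => ?_⟩
  obtain ⟨n0, hn0⟩ := exists_nat_ge (64 / τ ^ 2)
  refine ⟨n0 + 1, fun n hn => ?_⟩
  have hn1 : (1 : ℝ) ≤ n := by
    have : 1 ≤ n := by omega
    exact_mod_cast this
  have hn2 : 64 / τ ^ 2 ≤ n := by
    refine hn0.trans ?_
    have : n0 ≤ n := by omega
    exact_mod_cast this
  -- the covering
  obtain ⟨T, hT⟩ : ∃ T, T = (univ : Finset (WCoarse1_I n)).filter fun i =>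
      ((WCoarse1_Fr i).card : ℝ) ≤ (n : ℝ) ^ 2 / 4 - (τ * n) ^ 2 := ⟨_, rfl⟩
  have hcov : ((univ : Finset (Finset (Fin n × Fin n))).filter fun S => ∃ g : Fin n → Fin 3,
      ((S.filter fun p => g p.2 ≤ g p.1).card : ℝ) ≤ ε * (n : ℝ) ^ 2 ∧
      (((cl g 0 ×ˢ cl g 2) \ S).card : ℝ) ≤ ε * (n : ℝ) ^ 2 ∧
      |((cl g 1).card : ℝ) - n / 2| ≤ τ * n ∧ ¬ GoodP n ε τ 0 S g) ⊆
      T.biUnion fun i => (univ : Finset (Finset (Fin n × Fin n))).filter fun S =>
        (((symmDiff S (WCoarse1_Ref i)) \ (WCoarse1_Fr i)).card : ℝ) ≤ (5 * ε) * (n : ℝ) ^ 2 := by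
    intro S hS
    rw [mem_filter] at hS
    obtain ⟨-, g, hd1, hd2, hmid, hbad⟩ := hS
    have hex : ∃ i : WCoarse1_I n, i.1 = g ∧
        WCoarse1_R i ⊆ (cl g 0 ×ˢ cl g 1) ∪ (cl g 1 ×ˢ cl g 2) ∧
        τ * n ≤ i.2.1.card ∧ τ * n ≤ i.2.2.1.card ∧
        (i.2.2.2.2 = true → ((WCoarse1_R i \ S).card : ℝ) ≤ 3 * ε * (n : ℝ) ^ 2) ∧
        (i.2.2.2.2 = false → ((S ∩ WCoarse1_R i).card : ℝ) ≤ 3 * ε * (n : ℝ) ^ 2) := by
      by_contra hno
      refine hbad ⟨by rw [add_zero]; exact hmid, hd1, hd2, ?_, ?_⟩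
      · intro A hA B hB hA1 hB1
        have hsub : A ×ˢ B ⊆ (cl g 0 ×ˢ cl g 1) ∪ (cl g 1 ×ˢ cl g 2) :=
          (product_subset_product hA hB).trans subset_union_left
        constructor
        · by_contra hc
          refine hno ⟨(g, A, B, true, false), rfl, ?_, hA1, hB1, ?_, ?_⟩
          · simpa [WCoarse1_R] using hsub
          · intro hh; simp at hh
          · intro _
            simpa [WCoarse1_R] using not_lt.1 hc
        · by_contra hc
          refine hno ⟨(g, A, B, true, true), rfl, ?_, hA1, hB1, ?_, ?_⟩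
          · simpa [WCoarse1_R] using hsub
          · intro _
            simpa [WCoarse1_R] using not_lt.1 hc
          · intro hh; simp at hh
      · intro A hA B hB hA1 hB1
        have hsub : B ×ˢ A ⊆ (cl g 0 ×ˢ cl g 1) ∪ (cl g 1 ×ˢ cl g 2) :=
          (product_subset_product hB hA).trans subset_union_right
        constructor
        · by_contra hc
          refine hno ⟨(g, A, B, false, false), rfl, ?_, hA1, hB1, ?_, ?_⟩
          · simpa [WCoarse1_R] using hsub
          · intro hh; simp at hh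
          · intro _
            simpa [WCoarse1_R] using not_lt.1 hc
        · by_contra hc
          refine hno ⟨(g, A, B, false, true), rfl, ?_, hA1, hB1, ?_, ?_⟩
          · simpa [WCoarse1_R] using hsub
          · intro _
            simpa [WCoarse1_R] using not_lt.1 hc
          · intro hh; simp at hh
    obtain ⟨i, hig, hR, hA, hB, ht, hf⟩ := hex
    rw [mem_biUnion]
    refine ⟨i, ?_, ?_⟩
    · rw [hT, mem_filter]
      exact ⟨mem_univ _, WCoarse1_Fr_card i (by positivity) (by rw [hig]; exact hR) hA hB⟩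
    · rw [mem_filter]
      refine ⟨mem_univ _, ?_⟩
      obtain ⟨Q, hQ⟩ : ∃ Q, Q = (if i.2.2.2.2 then WCoarse1_R i \ S else S ∩ WCoarse1_R i) :=
        ⟨_, rfl⟩
      have hQc : (Q.card : ℝ) ≤ 3 * ε * (n : ℝ) ^ 2 := by
        rw [hQ]
        cases hb : i.2.2.2.2 with
        | true => simpa using ht hb
        | false => simpa using hf hb
      have hsub : (symmDiff S (WCoarse1_Ref i)) \ (WCoarse1_Fr i) ⊆
          (S.filter fun p => g p.2 ≤ g p.1) ∪ ((cl g 0 ×ˢ cl g 2) \ S) ∪ Q := by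
        intro p hp
        rw [mem_sdiff, mem_symmDiff, WCoarse1_Ref, WCoarse1_Fr, hig] at hp
        obtain ⟨hp1, hp2⟩ := hp
        have hRp : p ∈ WCoarse1_R i → (g p.1 = 0 ∧ g p.2 = 1) ∨ (g p.1 = 1 ∧ g p.2 = 2) := by
          intro hh
          have := hR hh
          rwa [mem_union, mem_product, mem_product, WCoarse1_mem_cl, WCoarse1_mem_cl,
            WCoarse1_mem_cl, WCoarse1_mem_cl] at this
        rw [mem_sdiff, mem_union, mem_product, mem_product, WCoarse1_mem_cl, WCoarse1_mem_cl,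
            WCoarse1_mem_cl, WCoarse1_mem_cl] at hp2
        rw [mem_union, mem_product, WCoarse1_mem_cl, WCoarse1_mem_cl] at hp1
        rw [mem_union, mem_union, mem_filter, mem_sdiff, mem_product, WCoarse1_mem_cl,
          WCoarse1_mem_cl, hQ]
        by_cases hle : g p.2 ≤ g p.1
        · left; left
          refine ⟨?_, hle⟩
          by_contra hpS
          rcases hp1 with hp1 | hp1
          · exact hpS hp1.1
          · rcases hp1.1 with h02 | h02
            · rw [h02.1, h02.2] at hle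
              exact absurd hle (by decide)
            · cases hb : i.2.2.2.2 with
              | true =>
                rw [hb] at h02
                simp only [if_true] at h02
                rcases hRp h02 with h3 | h3
                · rw [h3.1, h3.2] at hle
                  exact absurd hle (by decide)
                · rw [h3.1, h3.2] at hle
                  exact absurd hle (by decide)
              | false =>
                rw [hb] at h02
                simp at h02
        · rw [not_le] at hle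
          by_cases h02 : g p.1 = 0 ∧ g p.2 = 2
          · left; right
            refine ⟨h02, fun hpS => ?_⟩
            rcases hp1 with hp1 | hp1
            · exact hp1.2 (Or.inl h02)
            · exact hp1.2 hpS
          · right
            have hW : (g p.1 = 0 ∧ g p.2 = 1) ∨ (g p.1 = 1 ∧ g p.2 = 2) := by
              revert hle h02
              generalize g p.1 = a
              generalize g p.2 = b
              revert a b
              decide
            have hpR : p ∈ WCoarse1_R i := by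
              by_contra hh
              exact hp2 ⟨hW, hh⟩
            cases hb : i.2.2.2.2 with
            | true =>
              rw [hb] at hp1
              simp only [if_true] at hp1 ⊢
              rw [mem_sdiff]
              refine ⟨hpR, fun hpS => ?_⟩
              rcases hp1 with hp1 | hp1
              · exact hp1.2 (Or.inr hpR)
              · exact hp1.2 hpS
            | false =>
              rw [hb] at hp1
              simp only [Bool.false_eq_true, if_false, notMem_empty, or_false] at hp1 ⊢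
              rw [mem_inter]
              refine ⟨?_, hpR⟩
              rcases hp1 with hp1 | hp1
              · exact hp1.1
              · exact absurd hp1.1 h02
      have h1 : ((((symmDiff S (WCoarse1_Ref i)) \ (WCoarse1_Fr i)).card : ℕ) : ℝ) ≤
          ((S.filter fun p => g p.2 ≤ g p.1).card : ℝ) + (((cl g 0 ×ˢ cl g 2) \ S).card : ℝ) +
            (Q.card : ℝ) := by
        have h2 := (card_le_card hsub).trans ((card_union_le _ _).trans
          (Nat.add_le_add_right (card_union_le _ _) _))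
        exact_mod_cast h2
      linarith
  -- the count
  have hbound : ∀ i ∈ T, ((((univ : Finset (Finset (Fin n × Fin n))).filter fun S =>
        (((symmDiff S (WCoarse1_Ref i)) \ (WCoarse1_Fr i)).card : ℝ) ≤
          (5 * ε) * (n : ℝ) ^ 2).card : ℕ) : ℝ) ≤
      exp (τ ^ 2 / 8 * (n : ℝ) ^ 2) * exp (log 2 * ((n : ℝ) ^ 2 / 4 - (τ * n) ^ 2)) := by
    intro i hi
    rw [hT, mem_filter] at hi
    have h1 := WCoarse1_count (5 * ε) (WCoarse1_Ref i) (WCoarse1_Fr i)
    have h2 := hsm n (5 * ε) (by linarith)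
    have h3 : ((2 : ℝ) ^ (WCoarse1_Fr i).card) ≤ exp (log 2 * ((n : ℝ) ^ 2 / 4 - (τ * n) ^ 2)) := by
      have e : ((2 : ℝ) ^ (WCoarse1_Fr i).card) = exp (log 2 * (WCoarse1_Fr i).card) := by
        rw [← rpow_natCast, rpow_def_of_pos (by norm_num : (0 : ℝ) < 2)]
      rw [e]
      exact exp_le_exp.2 (mul_le_mul_of_nonneg_left hi.2 (log_nonneg (by norm_num)))
    calc _ ≤ ((((univ : Finset (Finset (Fin n × Fin n))).filter
          fun A => (A.card : ℝ) ≤ (5 * ε) * (n : ℝ) ^ 2).card * 2 ^ (WCoarse1_Fr i).card : ℕ) : ℝ) := by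
            exact_mod_cast h1
      _ = ((((univ : Finset (Finset (Fin n × Fin n))).filter
          fun A => (A.card : ℝ) ≤ (5 * ε) * (n : ℝ) ^ 2).card : ℕ) : ℝ) *
            (2 : ℝ) ^ (WCoarse1_Fr i).card := by push_cast; ring
      _ ≤ _ := mul_le_mul h2 h3 (by positivity) (exp_pos _).le
  have hTc : (T.card : ℝ) ≤ exp (5 * n) := by
    have h1 : T.card ≤ 3 ^ n * (2 ^ n * (2 ^ n * (2 * 2))) := by
      refine (card_le_univ T).trans (le_of_eq ?_)
      simp [WCoarse1_I, Fintype.card_prod, Fintype.card_bool]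
    have h2 : (T.card : ℝ) ≤ 3 ^ n * (2 ^ n * (2 ^ n * (2 * 2))) := by exact_mod_cast h1
    have h3 : (12 : ℝ) ≤ exp 3 := by
      have := exp_one_gt_d9
      have e3 : exp 3 = exp 1 * exp 1 * exp 1 := by
        rw [← exp_add, ← exp_add]; norm_num
      rw [e3]
      nlinarith
    have h4 : (4 : ℝ) ≤ exp 2 := by
      have := exp_one_gt_d9
      have e3 : exp 2 = exp 1 * exp 1 := by
        rw [← exp_add]; norm_num
      rw [e3]
      nlinarith
    calc (T.card : ℝ) ≤ 3 ^ n * (2 ^ n * (2 ^ n * (2 * 2))) := h2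
      _ = 12 ^ n * 4 := by
        rw [show (12 : ℝ) = 3 * (2 * 2) by norm_num, mul_pow, mul_pow]; ring
      _ ≤ exp 3 ^ n * exp 2 := by
        refine mul_le_mul (pow_le_pow_left₀ (by norm_num) h3 n) h4 (by norm_num) (by positivity)
      _ = exp (3 * n + 2) := by
        rw [← exp_nat_mul, ← exp_add]; congr 1; ring
      _ ≤ exp (5 * n) := exp_le_exp.2 (by linarith)
  have hsum : ((((univ : Finset (Finset (Fin n × Fin n))).filter fun S => ∃ g : Fin n → Fin 3,
      ((S.filter fun p => g p.2 ≤ g p.1).card : ℝ) ≤ ε * (n : ℝ) ^ 2 ∧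
      (((cl g 0 ×ˢ cl g 2) \ S).card : ℝ) ≤ ε * (n : ℝ) ^ 2 ∧
      |((cl g 1).card : ℝ) - n / 2| ≤ τ * n ∧ ¬ GoodP n ε τ 0 S g).card : ℕ) : ℝ) ≤
      T.card * (exp (τ ^ 2 / 8 * (n : ℝ) ^ 2) *
        exp (log 2 * ((n : ℝ) ^ 2 / 4 - (τ * n) ^ 2))) := by
    refine (Nat.cast_le.2 ((card_le_card hcov).trans card_biUnion_le)).trans ?_
    push_cast
    rw [← nsmul_eq_mul]
    exact sum_le_card_nsmul _ _ _ hbound
  refine hsum.trans ?_
  calc _ ≤ exp (5 * n) * (exp (τ ^ 2 / 8 * (n : ℝ) ^ 2) *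
        exp (log 2 * ((n : ℝ) ^ 2 / 4 - (τ * n) ^ 2))) :=
        mul_le_mul_of_nonneg_right hTc (by positivity)
    _ = exp (5 * n + (τ ^ 2 / 8 * (n : ℝ) ^ 2 + log 2 * ((n : ℝ) ^ 2 / 4 - (τ * n) ^ 2))) := by
        rw [← exp_add, ← exp_add]
    _ ≤ _ := by
        refine exp_le_exp.2 ?_
        have hl := log_two_gt_d9
        have h5 : 64 ≤ τ ^ 2 * n := by
          rw [div_le_iff₀ (by positivity)] at hn2
          linarith
        have h6 : 64 * (n : ℝ) ≤ τ ^ 2 * (n : ℝ) ^ 2 := by nlinarith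
        have h7 : 0 ≤ τ ^ 2 * (n : ℝ) ^ 2 := by positivity
        have h8 : (1 / 2 : ℝ) * (τ ^ 2 * (n : ℝ) ^ 2) ≤ log 2 * (τ ^ 2 * (n : ℝ) ^ 2) :=
          mul_le_mul_of_nonneg_right (by linarith) h7
        nlinarith

end Pool.Agent.H.MP_82502e_co
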