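import Pool.Agent.H.MP_82502e_co.WStab3
import Pool.Agent.H.MP_82502e_co.WCoarse1

set_option autoImplicit false

/-!
# The window: coarse structure of almost all posets
-/

namespace Pool.Agent.H.MP_82502e_co

open Finset Real

/-- The conditions `mid`, `d1`, `d2` of `GoodP` (slack `0`). -/
def WCoarse_P {n : ℕ} (ε τ : ℝ) (S : Finset (Fin n × Fin n)) (g : Fin n → Fin 3) : Prop :=
  ((S.filter fun p => g p.2 ≤ g p.1).card : ℝ) ≤ ε * (n : ℝ) ^ 2 ∧
  (((cl g 0 ×ˢ cl g 2) \ S).card : ℝ) ≤ ε * (n : ℝ) ^ 2 ∧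
  |((cl g 1).card : ℝ) - n / 2| ≤ τ * n

/-- No partition satisfies the conditions. -/
def WCoarse_Q {n : ℕ} (ε τ : ℝ) (S : Finset (Fin n × Fin n)) : Prop :=
  ∀ g : Fin n → Fin 3, ¬ WCoarse_P ε τ S g

/-- Some partition satisfies the conditions but not `GoodP`. -/
def WCoarse_Q2 {n : ℕ} (ε τ : ℝ) (S : Finset (Fin n × Fin n)) : Prop :=
  ∃ g : Fin n → Fin 3,
      ((S.filter fun p => g p.2 ≤ g p.1).card : ℝ) ≤ ε * (n : ℝ) ^ 2 ∧
      (((cl g 0 ×ˢ cl g 2) \ S).card : ℝ) ≤ ε * (n : ℝ) ^ 2 ∧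
      |((cl g 1).card : ℝ) - n / 2| ≤ τ * n ∧ ¬ GoodP n ε τ 0 S g

theorem WCoarse_filter_le {α : Type*} (s : Finset α) (p q : α → Prop) {hp : DecidablePred p}
    {hq : DecidablePred q} (h : ∀ x, p x → q x) :
    (@Finset.filter α p hp s).card ≤ (@Finset.filter α q hq s).card :=
  card_le_card fun x hx => (Finset.mem_filter (p := q)).2
    ⟨(Finset.mem_filter (p := p)).1 hx |>.1, h x ((Finset.mem_filter (p := p)).1 hx).2⟩

theorem WCoarse_filter_card {α : Type*} (s : Finset α) (p : α → Prop) {hp : DecidablePred p} :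
    (@Finset.filter α p hp s).card ≤ s.card :=
  card_le_card (Finset.filter_subset p s)

theorem WCoarse_card_cl {n : ℕ} (e : Equiv.Perm (Fin n)) (g : Fin n → Fin 3) (i : Fin 3) :
    (cl (g ∘ e) i).card = (cl g i).card := by
  have h : (cl (g ∘ e) i).map e.toEmbedding = cl g i := by
    ext x
    rw [mem_map_equiv]
    unfold cl
    simp
  rw [← h, card_map]

theorem WCoarse_relab {n : ℕ} {ε τ : ℝ} (e : Equiv.Perm (Fin n)) (S : Finset (Fin n × Fin n))
    (g : Fin n → Fin 3) (h : WCoarse_P ε τ (relab e S) g) : WCoarse_P ε τ S (g ∘ e) := by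
  obtain ⟨h1, h2, h3⟩ := h
  have e1 : relab e (S.filter fun p => (g ∘ e) p.2 ≤ (g ∘ e) p.1) =
      (relab e S).filter fun p => g p.2 ≤ g p.1 := by
    ext p
    rw [mem_relab, mem_filter, mem_filter, mem_relab]
    simp
  have e2 : relab e ((cl (g ∘ e) 0 ×ˢ cl (g ∘ e) 2) \ S) = (cl g 0 ×ˢ cl g 2) \ relab e S := by
    ext p
    rw [mem_relab, mem_sdiff, mem_sdiff, mem_relab, mem_product, mem_product]
    unfold cl
    simp
  refine ⟨?_, ?_, ?_⟩
  · rw [← card_relab e, e1]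
    exact h1
  · rw [← card_relab e, e2]
    exact h2
  · rw [WCoarse_card_cl]
    exact h3

/-- A natural poset with type `c` satisfies the conditions for the partition given by `stab`. -/
theorem WCoarse_of_type {n : ℕ} {ε τ ε1 η : ℝ} {S : Finset (Fin n × Fin n)}
    {c : Fin n × Fin n → Col} {g : Fin n → Fin 3} (hε : ε1 ≤ ε / 4) (hτ : ε1 ≤ τ) (hη : η ≤ ε / 4)
    (hN : Nat' S) (hT : IsType η S c) (hε0 : 0 < ε)
    (s1 : |((univ.filter fun x => g x = 1).card : ℝ) - n / 2| ≤ ε1 * n)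
    (s2 : ((univ.filter fun p : Fin n × Fin n => (p ∈ cpairs c Col.R ∨ p ∈ cpairs c Col.O) ∧
        g p.2 ≤ g p.1).card : ℝ) ≤ ε1 * (n : ℝ) ^ 2)
    (s3 : ((univ.filter fun p : Fin n × Fin n => g p.1 = 0 ∧ g p.2 = 2 ∧
        p ∉ cpairs c Col.O).card : ℝ) ≤ ε1 * (n : ℝ) ^ 2) : WCoarse_P ε τ S g := by
  classical
  have hn0 : (0 : ℝ) ≤ n := Nat.cast_nonneg n
  have hn2 : (0 : ℝ) ≤ (n : ℝ) ^ 2 := by positivity
  refine ⟨?_, ?_, ?_⟩
  · have hsub : (S.filter fun p => g p.2 ≤ g p.1) ⊆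
        ((univ.filter fun p : Fin n × Fin n => (p ∈ cpairs c Col.R ∨ p ∈ cpairs c Col.O) ∧
        g p.2 ≤ g p.1) ∪ (S ∩ cpairs c Col.Z)) ∪ cpairs c Col.E := by
      intro p hp
      rw [mem_filter] at hp
      have hlt := hN p hp.1
      have hmem : ∀ a, c p = a → p ∈ cpairs c a := by
        intro a ha
        rw [cpairs, mem_filter]
        exact ⟨mem_univ _, hlt, ha⟩
      rw [mem_union, mem_union, mem_filter, mem_inter]
      cases hc : c p with
      | R => exact Or.inl (Or.inl ⟨mem_univ _, Or.inl (hmem _ hc), hp.2⟩)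
      | O => exact Or.inl (Or.inl ⟨mem_univ _, Or.inr (hmem _ hc), hp.2⟩)
      | Z => exact Or.inl (Or.inr ⟨hp.1, hmem _ hc⟩)
      | E => exact Or.inr (hmem _ hc)
    have h1 := (card_le_card hsub).trans ((card_union_le _ _).trans
      (Nat.add_le_add_right (card_union_le _ _) _))
    have h2 : ((S.filter fun p => g p.2 ≤ g p.1).card : ℝ) ≤
        (univ.filter fun p : Fin n × Fin n => (p ∈ cpairs c Col.R ∨ p ∈ cpairs c Col.O) ∧
        g p.2 ≤ g p.1).card + (S ∩ cpairs c Col.Z).card + (cpairs c Col.E).card := by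
      exact_mod_cast h1
    have h3 := hT.z_le
    have h4 := hT.e_le
    have h5 : ε1 * (n : ℝ) ^ 2 ≤ ε / 4 * (n : ℝ) ^ 2 := mul_le_mul_of_nonneg_right hε hn2
    have h6 : η * (n : ℝ) ^ 2 ≤ ε / 4 * (n : ℝ) ^ 2 := mul_le_mul_of_nonneg_right hη hn2
    have h7 : 0 ≤ ε * (n : ℝ) ^ 2 := by positivity
    linarith
  · have hsub : (cl g 0 ×ˢ cl g 2) \ S ⊆
        (univ.filter fun p : Fin n × Fin n => g p.1 = 0 ∧ g p.2 = 2 ∧ p ∉ cpairs c Col.O) ∪
        (cpairs c Col.O \ S) := by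
      intro p hp
      rw [mem_sdiff, mem_product, cl, cl, mem_filter, mem_filter] at hp
      rw [mem_union, mem_filter, mem_sdiff]
      by_cases hO : p ∈ cpairs c Col.O
      · exact Or.inr ⟨hO, hp.2⟩
      · exact Or.inl ⟨mem_univ _, hp.1.1.2, hp.1.2.2, hO⟩
    have h1 := (card_le_card hsub).trans (card_union_le _ _)
    have h2 : (((cl g 0 ×ˢ cl g 2) \ S).card : ℝ) ≤
        (univ.filter fun p : Fin n × Fin n => g p.1 = 0 ∧ g p.2 = 2 ∧
          p ∉ cpairs c Col.O).card + (cpairs c Col.O \ S).card := by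
      exact_mod_cast h1
    have h3 := hT.o_le
    have h5 : ε1 * (n : ℝ) ^ 2 ≤ ε / 4 * (n : ℝ) ^ 2 := mul_le_mul_of_nonneg_right hε hn2
    have h6 : η * (n : ℝ) ^ 2 ≤ ε / 4 * (n : ℝ) ^ 2 := mul_le_mul_of_nonneg_right hη hn2
    have h7 : 0 ≤ ε * (n : ℝ) ^ 2 := by positivity
    linarith
  · exact le_trans s1 (mul_le_mul_of_nonneg_right hτ hn0)

open scoped Classical in
/-- **Coarse structure theorem** (all `k`).
Proof. `ε0` from `card_not_random`, `ε1 = min ε τ / 4`, `e` from `stab ε1`, `η ≤ min(e, ε)/4`. `Q S` = no `g` with `|M| - n/2 ≤ τ n`, `d1`, `d2` (`≤ ε n²`): invariant. `union_bound`: for a closed `c` and one `K` the family is empty or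
`|R(c)| < (1/4 - e) n²` (otherwise `stab` gives `g`; for `S` natural of type `c`: `d1`: pairs of `S` are upward, of colour R, O (`≤ ε1 n²`), Z (`z_le`), E (`e_le`); `d2`: `stab` and `o_le`), and then the family has at most
`exp(θ n²) 2^|R|` members (`type_count`, `card_Fam`). The remaining posets are counted by `card_not_random`. -/
theorem coarse {τ : ℝ} (hτ : 0 < τ) (hτ1 : τ ≤ 1 / 100) : ∃ ε0 : ℝ, 0 < ε0 ∧
    ∀ ε : ℝ, 0 < ε → ε ≤ ε0 → ∃ c : ℝ, 0 < c ∧ ∃ n0 : ℕ, ∀ n ≥ n0, ∀ k : ℕ,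
    (((PO n k).filter fun S => ∀ g : Fin n → Fin 3, ¬ GoodP n ε τ 0 S g).card : ℝ) ≤
      exp ((log 2 / 4 - c) * (n : ℝ) ^ 2) := by
  obtain ⟨ε0, hε0, hnr⟩ := card_not_random hτ hτ1
  refine ⟨ε0, hε0, fun ε hε hεε => ?_⟩
  obtain ⟨n1, h1⟩ := hnr ε hε hεε
  obtain ⟨ε1, hε1⟩ : ∃ ε1, ε1 = min ε τ / 4 := ⟨_, rfl⟩
  have hmin : 0 < min ε τ := lt_min hε hτ
  have hε1p : 0 < ε1 := by rw [hε1]; positivity
  have hε1a : ε1 ≤ ε / 4 := by
    rw [hε1]
    have := min_le_left ε τ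
    linarith
  have hε1b : ε1 ≤ τ := by
    rw [hε1]
    have := min_le_right ε τ
    linarith
  obtain ⟨e, he, hstab⟩ := stab hε1p
  have hl0 : 0 < log 2 := log_pos (by norm_num)
  obtain ⟨θ, hθd⟩ : ∃ θ, θ = e * log 2 / 8 := ⟨_, rfl⟩
  have hθ : 0 < θ := by rw [hθd]; positivity
  obtain ⟨η3, hη3, h3⟩ := type_count hθ
  obtain ⟨η, hηd⟩ : ∃ η, η = min η3 (min e (ε / 4)) := ⟨_, rfl⟩
  have hη : 0 < η := by rw [hηd]; exact lt_min hη3 (lt_min he (by positivity))
  have hηa : η ≤ η3 := by rw [hηd]; exact min_le_left _ _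
  have hηb : η ≤ e := by rw [hηd]; exact (min_le_right _ _).trans (min_le_left _ _)
  have hηc : η ≤ ε / 4 := by rw [hηd]; exact (min_le_right _ _).trans (min_le_right _ _)
  obtain ⟨n4, h4⟩ := union_bound hθ hη
  obtain ⟨c, hcd⟩ : ∃ c, c = min (e * log 2 / 4) (τ ^ 2 / 8) := ⟨_, rfl⟩
  have hc : 0 < c := by rw [hcd]; exact lt_min (by positivity) (by positivity)
  have hca : c ≤ e * log 2 / 4 := by rw [hcd]; exact min_le_left _ _
  have hcb : c ≤ τ ^ 2 / 8 := by rw [hcd]; exact min_le_right _ _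
  obtain ⟨n5, h5⟩ := exists_nat_ge (1 / c)
  refine ⟨c, hc, max (max n1 n4) (max n5 1), fun n hn k => ?_⟩
  have hn1 : n1 ≤ n := by omega
  have hn4 : n4 ≤ n := by omega
  have hn5 : n5 ≤ n := by omega
  have hn0 : 1 ≤ n := by omega
  have hnR : (1 : ℝ) ≤ n := by exact_mod_cast hn0
  have hnn : (0 : ℝ) < (n : ℝ) ^ 2 := by positivity
  -- the first part
  have key := h4 n hn4 k (WCoarse_Q ε τ)
    (exp ((log 2 / 4 - 7 * θ) * (n : ℝ) ^ 2)) (exp_pos _).le
    (fun f S _ hQ g hg => hQ _ (WCoarse_relab f S g hg)) (by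
      intro c K hcl
      rcases Finset.eq_empty_or_nonempty ((univ : Finset (Finset (Fin n × Fin n))).filter
        fun S => IsPO S ∧ Nat' S ∧ IsType η S c ∧ (S ∩ cpairs c Col.R).card = K ∧
          (S.card = k ∧ WCoarse_Q ε τ S)) with hem | hne
      · rw [hem, card_empty, Nat.cast_zero]
        exact (exp_pos _).le
      · obtain ⟨S0, hS0⟩ := hne
        obtain ⟨-, p1, p2, p3, p4, p5, p6⟩ := mem_filter.1 hS0
        have hE : ((cpairs c Col.E).card : ℝ) ≤ e * (n : ℝ) ^ 2 :=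
          p3.e_le.trans (mul_le_mul_of_nonneg_right hηb hnn.le)
        have hR : ((cpairs c Col.R).card : ℝ) < (1 / 4 - e) * (n : ℝ) ^ 2 := by
          by_contra hcon
          obtain ⟨g, s1, s2, s3⟩ := hstab n hn0 c hcl hE (not_lt.1 hcon)
          exact p6 g (WCoarse_of_type hε1a hε1b hηc p2 p3 hε s1 s2 s3)
        have hfin := h3 n η hηa c K (fun S => S.card = k ∧ WCoarse_Q ε τ S)
          (exp ((log 2 / 4 - 8 * θ) * (n : ℝ) ^ 2)) (by
          intro W
          refine (Nat.cast_le.2 ((WCoarse_filter_card _ _).trans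
              ((card_Fam _ W K).trans (Nat.choose_le_two_pow _ _)))).trans ?_
          push_cast
          rw [← rpow_natCast, rpow_def_of_pos (by norm_num : (0 : ℝ) < 2)]
          refine exp_le_exp.2 ?_
          have g2 := mul_le_mul_of_nonneg_left hR.le hl0.le
          refine g2.trans (le_of_eq ?_)
          rw [hθd]
          ring)
        refine (le_trans (Nat.cast_le.2 (WCoarse_filter_le _ _ _ fun S h => h)) hfin).trans
          (le_of_eq ?_)
        rw [← exp_add]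
        congr 1
        ring)
  have hsub : ((PO n k).filter fun S => ∀ g : Fin n → Fin 3, ¬ GoodP n ε τ 0 S g) ⊆
      ((PO n k).filter (WCoarse_Q ε τ)) ∪
      ((univ : Finset (Finset (Fin n × Fin n))).filter (WCoarse_Q2 ε τ)) := by
    intro S hS
    rw [mem_filter] at hS
    rw [mem_union, mem_filter, mem_filter]
    by_cases hq : WCoarse_Q ε τ S
    · exact Or.inl ⟨hS.1, hq⟩
    · right
      unfold WCoarse_Q at hq
      rw [not_forall] at hq
      obtain ⟨g, hg⟩ := hq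
      obtain ⟨a1, a2, a3⟩ := not_not.1 hg
      exact ⟨mem_univ _, g, a1, a2, a3, hS.2 g⟩
  have hcard : (((PO n k).filter fun S => ∀ g : Fin n → Fin 3, ¬ GoodP n ε τ 0 S g).card : ℝ) ≤
      ((PO n k).filter (WCoarse_Q ε τ)).card +
      ((univ : Finset (Finset (Fin n × Fin n))).filter (WCoarse_Q2 ε τ)).card := by
    exact_mod_cast (card_le_card hsub).trans (card_union_le _ _)
  have hA : exp (θ * (n : ℝ) ^ 2) * exp ((log 2 / 4 - 7 * θ) * (n : ℝ) ^ 2) ≤
      exp ((log 2 / 4 - 2 * c) * (n : ℝ) ^ 2) := by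
    rw [← exp_add, ← add_mul]
    refine exp_le_exp.2 (mul_le_mul_of_nonneg_right ?_ hnn.le)
    rw [hθd]
    linarith
  have hB : exp ((log 2 / 4 - τ ^ 2 / 4) * (n : ℝ) ^ 2) ≤
      exp ((log 2 / 4 - 2 * c) * (n : ℝ) ^ 2) :=
    exp_le_exp.2 (mul_le_mul_of_nonneg_right (by linarith) hnn.le)
  have hC : (2 : ℝ) ≤ exp (c * (n : ℝ) ^ 2) := by
    have i1 : 1 / c ≤ (n : ℝ) := h5.trans (by exact_mod_cast hn5)
    rw [div_le_iff₀ hc] at i1
    have i2 : (n : ℝ) ≤ (n : ℝ) ^ 2 := by nlinarith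
    have i3 : 1 ≤ c * (n : ℝ) ^ 2 := by nlinarith
    have i4 := add_one_le_exp (c * (n : ℝ) ^ 2)
    linarith
  have hD : exp ((log 2 / 4 - c) * (n : ℝ) ^ 2) =
      exp (c * (n : ℝ) ^ 2) * exp ((log 2 / 4 - 2 * c) * (n : ℝ) ^ 2) := by
    rw [← exp_add]
    congr 1
    ring
  have hE := mul_le_mul_of_nonneg_right hC (exp_pos ((log 2 / 4 - 2 * c) * (n : ℝ) ^ 2)).le
  rw [hD]
  have hF : ((((univ : Finset (Finset (Fin n × Fin n))).filter (WCoarse_Q2 ε τ)).card : ℕ) : ℝ) ≤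
      exp ((log 2 / 4 - τ ^ 2 / 4) * (n : ℝ) ^ 2) := by
    refine le_trans (Nat.cast_le.2 (card_le_card fun S hS => ?_)) (h1 n hn1)
    rw [mem_filter] at hS ⊢
    exact hS
  linarith

end Pool.Agent.H.MP_82502e_co
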