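import Pool.Agent.H.MP_82502e_co.WDefs

set_option autoImplicit false

/-!
# The window: definitions for the peak
-/

namespace Pool.Agent.H.MP_82502e_co

open Finset Real MeasureTheory ProbabilityTheory

/-- The central binomial coefficient. -/
def cb (N : ℕ) : ℕ := N.choose (N / 2)

/-- The three kernels: `e^{-w²/2}` and its first two derivatives. -/
noncomputable def fk (r : ℕ) (w : ℝ) : ℝ :=
  if r = 0 then exp (-(w ^ 2 / 2)) else if r = 1 then -w * exp (-(w ^ 2 / 2))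
  else (w ^ 2 - 1) * exp (-(w ^ 2 / 2))

/-- The differences of order `r` of the function `K ↦ choose N K`. -/
def dch (r N K : ℕ) : ℝ :=
  if r = 0 then (N.choose K : ℝ) else if r = 1 then (N.choose (K + 1) : ℝ) - N.choose K
  else (N.choose (K + 2) : ℝ) - 2 * N.choose (K + 1) + N.choose K

/-- The rescaled position `t = (k - 3n²/16)/(n/4)`. -/
noncomputable def tt (n k : ℕ) : ℝ := ((k : ℝ) - 3 / 16 * (n : ℝ) ^ 2) / ((n : ℝ) / 4)

/-- The differences of order `r` of `k ↦ F n k`. -/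
def dF (F : ℕ → ℕ) (r k : ℕ) : ℝ :=
  if r = 0 then (F k : ℝ) else if r = 1 then (F (k + 1) : ℝ) - F k
  else (F (k + 2) : ℝ) - 2 * F (k + 1) + F k

/-- Index shift: `i = j + e/2` for `j : ℤ`, `e ∈ {0,1}` the parity of `n`. The weight `2^(-i²-i)`. -/
noncomputable def wt (e : ℕ) (j : ℤ) : ℝ :=
  (2 : ℝ) ^ (-((j : ℝ) + e / 2) ^ 2 - ((j : ℝ) + e / 2))

/-- The limit functions. -/
noncomputable def Phi (e r : ℕ) (t : ℝ) : ℝ :=
  ∑' j : ℤ, wt e j * ∫ u, fk r (t + ((j : ℝ) + e / 2) + u ^ 2 / 2) ∂(gaussianReal 0 1)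

/-- The normalisation. -/
noncomputable def Zn (n : ℕ) : ℝ :=
  (n.choose (n / 2) : ℝ) * (2 : ℝ) ^ ((n : ℝ) / 2) * cb (n / 2 * (n - n / 2)) *
    (2 : ℝ) ^ (((n % 2 : ℕ) : ℝ) / 4)

/-- The inner sum `g^{(r)}(x) = Σ_j 2^(-(j+e'/2)²) f_r(x + j + e'/2)`; here `e' = e + 1` (so `j + e'/2 = i + 1/2`). -/
noncomputable def gth (e r : ℕ) (x : ℝ) : ℝ :=
  ∑' j : ℤ, (2 : ℝ) ^ (-((j : ℝ) + (e + 1) / 2) ^ 2) * fk r (x + ((j : ℝ) + (e + 1) / 2))

end Pool.Agent.H.MP_82502e_co
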