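import Pool.Agent.H.MP_82502e_co.Ident

set_option autoImplicit false

/-!
# The window: basic definitions (layered posets and the explicit sum)
-/

namespace Pool.Agent.H.MP_82502e_co

open Finset

/-- `k` is in the window. -/
def Win (δ : ℝ) (n k : ℕ) : Prop :=
  (1 / 8 - δ) * (n : ℝ) ^ 2 ≤ k ∧ (k : ℝ) ≤ (3 / 16 + δ) * (n : ℝ) ^ 2

open scoped Classical in
/-- The posets with layers `lam = 0, 1, 2, 3`: relations go up in `lam`; all pairs whose layers
differ by at least `2` are related; pairs of adjacent layers are free. -/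
noncomputable def Lay {n : ℕ} (lam : Fin n → Fin 4) : Finset (Finset (Fin n × Fin n)) :=
  univ.filter fun S => (∀ p ∈ S, lam p.1 < lam p.2) ∧
    ∀ u v, (lam u : ℕ) + 2 ≤ lam v → (u, v) ∈ S

/-- Canonical layer functions: layers `1, 2` are nonempty; if layer `3` is nonempty so is `0`. -/
def Can {n : ℕ} (lam : Fin n → Fin 4) : Prop :=
  (∃ u, lam u = 1) ∧ (∃ u, lam u = 2) ∧ ((∃ u, lam u = 3) → ∃ u, lam u = 0)

/-- The size of layer `i`. -/
def csz {n : ℕ} (lam : Fin n → Fin 4) (i : Fin 4) : ℕ := (univ.filter fun u => lam u = i).card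

/-- `choose N (k - o)`, and `0` if `k < o`. -/
def chz (N k o : ℕ) : ℕ := if o ≤ k then N.choose (k - o) else 0

/-- The number of free pairs for layer sizes `a, b, c, d`. -/
def nfr (a b c d : ℕ) : ℕ := a * b + b * c + c * d

/-- The number of forced pairs for layer sizes `a, b, c, d`. -/
def nfu (a b c d : ℕ) : ℕ := a * c + b * d + a * d

/-- The number of pairs (layer function with sizes `a, b, c, d`; poset in it with `k` relations). -/
def tm (a b c d k : ℕ) : ℕ :=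
  (a + b + c + d).choose (a + c) * (a + c).choose a * (b + d).choose d *
    chz (nfr a b c d) k (nfu a b c d)

/-- `tm` of a quadruple. -/
def tmx (x : ℕ × ℕ × ℕ × ℕ) (k : ℕ) : ℕ := tm x.1 x.2.1 x.2.2.1 x.2.2.2 k

/-- The canonical size vectors `(a, b, c, d)`, `a + b + c + d = n`. -/
def CanQ (n : ℕ) : Finset (ℕ × ℕ × ℕ × ℕ) :=
  (range (n + 1) ×ˢ range (n + 1) ×ˢ range (n + 1) ×ˢ range (n + 1)).filter fun x =>
    x.1 + x.2.1 + x.2.2.1 + x.2.2.2 = n ∧ 1 ≤ x.2.1 ∧ 1 ≤ x.2.2.1 ∧ (1 ≤ x.2.2.2 → 1 ≤ x.1)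

/-- The explicit sum `F*(n,k)`. -/
def Fs (n k : ℕ) : ℕ := ∑ x ∈ CanQ n, tmx x k

/-- One term of the three-layer sum: middle layer of size `n - l`, bottom layer of size `s`, top
layer of size `l - s`. -/
def q3 (n l s k : ℕ) : ℕ := n.choose l * l.choose s * chz (l * (n - l)) k (s * (l - s))

/-- The terms of the three-layer sum with given `l`. -/
def F3l (n l k : ℕ) : ℕ := ∑ s ∈ range l, q3 n l s k

/-- The three-layer part of `Fs` (two layers are `s = 0`). -/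
def F3 (n k : ℕ) : ℕ := ∑ l ∈ range n, F3l n l k

/-- The four-layer part of `Fs`. -/
def F4 (n k : ℕ) : ℕ := ∑ x ∈ (CanQ n).filter (fun x => 1 ≤ x.2.2.2), tmx x k

/-- The position of `k` relative to the centre of a term of `Fs`. -/
noncomputable def yq (k : ℕ) (x : ℕ × ℕ × ℕ × ℕ) : ℝ :=
  (k : ℝ) - nfu x.1 x.2.1 x.2.2.1 x.2.2.2 - (nfr x.1 x.2.1 x.2.2.1 x.2.2.2 : ℝ) / 2

/-- The position of `k` relative to the centre of a term `q3 n l s`. -/
noncomputable def y3 (n l s k : ℕ) : ℝ :=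
  (k : ℝ) - (s : ℝ) * ((l : ℝ) - s) - (l : ℝ) * ((n : ℝ) - l) / 2

/-- Typical terms of `Fs`. -/
def Typ (η κ : ℝ) (n k : ℕ) (x : ℕ × ℕ × ℕ × ℕ) : Prop :=
  |((x.1 + x.2.2.1 : ℕ) : ℝ) - (n : ℝ) / 2| ≤ η * n ∧ |yq k x| ≤ κ * (n : ℝ) ^ 2 ∧
    (x.2.2.2 = 0 ∨ ((x.1 : ℝ) < η * n ∧ (x.2.2.2 : ℝ) < η * n))

/-- Weights of the half sum: `1` for `s = 0`, `2` for `0 < 2s < l`, `1` for `2s = l`. -/
def mus (l s : ℕ) : ℕ := if s = 0 then 1 else if 2 * s = l then 1 else 2

/-- `S` is generic for `lam`: no addable pair inside a layer; between nonempty consecutive layers there is a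
related pair and an unrelated pair. -/
def Gen {n : ℕ} (lam : Fin n → Fin 4) (S : Finset (Fin n × Fin n)) : Prop :=
  (∀ u v, lam u = lam v → (u, v) ∉ Add S) ∧
  ∀ i : Fin 4, ∀ j : Fin 4, (i : ℕ) + 1 = j → (∃ u, lam u = i) → (∃ u, lam u = j) →
    (∃ u v, lam u = i ∧ lam v = j ∧ (u, v) ∈ S) ∧ ∃ u v, lam u = i ∧ lam v = j ∧ (u, v) ∉ S

end Pool.Agent.H.MP_82502e_co
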