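import Pool.Agent.H.MP_82502e_co.WBin

set_option autoImplicit false

/-!
# The window: four-layer terms near n^2/8: binomial quotient
-/

namespace Pool.Agent.H.MP_82502e_co

open Finset Real

theorem WDomB_addN {n N w K : ℕ} (hn : 2000 ≤ n) (hN : (n : ℝ) ^ 2 / 5 ≤ N) (hK : K < N)
    (h : (N : ℝ) + w - K ≤ ((N : ℝ) + w) / 2 + 6 / 5 * n) :
    (2 : ℝ) ^ (99 / 100 * (w : ℝ)) * (N.choose K : ℝ) ≤ (N + w).choose K := by
  have h1 := choose_addN_ge (w := w) hK.le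
  refine le_trans ?_ h1
  apply mul_le_mul_of_nonneg_right _ (Nat.cast_nonneg _)
  have hn' : (2000 : ℝ) ≤ n := by exact_mod_cast hn
  have hw0 : (0 : ℝ) ≤ w := Nat.cast_nonneg w
  have hKN : (K : ℝ) < N := by exact_mod_cast hK
  have hpos : (0 : ℝ) < (N : ℝ) + w - K := by linarith
  rw [rpow_mul (by norm_num), rpow_natCast]
  apply pow_le_pow_left₀ (by positivity)
  -- 2^(99/100) ≤ (N+w)/(N+w-K)
  have h2 : (1 : ℝ) + 12 / n ≤ 2 ^ ((1 : ℝ) / 100) := by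
    have h3 : (12 : ℝ) / n ≤ 6 / 1000 := by
      rw [div_le_div_iff₀ (by linarith) (by norm_num)]
      linarith
    have h4 : (2 : ℝ) ^ ((1 : ℝ) / 100) = exp (log 2 * (1 / 100)) := by
      rw [rpow_def_of_pos (by norm_num)]
    have h5 := add_one_le_exp (log 2 * (1 / 100))
    have h6 := log_two_gt_d9
    rw [h4]
    linarith
  have h3 : (2 : ℝ) ^ ((99 : ℝ) / 100) * 2 ^ ((1 : ℝ) / 100) = 2 := by
    rw [← rpow_add (by norm_num)]
    norm_num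
  have h4 : (0 : ℝ) < 2 ^ ((99 : ℝ) / 100) := by positivity
  have h5 : (2 : ℝ) ^ ((99 : ℝ) / 100) * (1 + 12 / n) ≤ 2 := by
    calc (2 : ℝ) ^ ((99 : ℝ) / 100) * (1 + 12 / n) ≤ 2 ^ ((99 : ℝ) / 100) * 2 ^ ((1 : ℝ) / 100) :=
          mul_le_mul_of_nonneg_left h2 h4.le
      _ = 2 := h3
  rw [le_div_iff₀ hpos]
  have h6 : (N : ℝ) + w - K ≤ ((N : ℝ) + w) / 2 * (1 + 12 / n) := by
    refine h.trans ?_
    have h7 : ((N : ℝ) + w) / 2 * (12 / n) = 6 * ((N : ℝ) + w) / n := by ring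
    have h8 : 6 / 5 * (n : ℝ) ≤ 6 * ((N : ℝ) + w) / n := by
      rw [le_div_iff₀ (by linarith)]
      nlinarith
    rw [mul_add, mul_one, h7]
    linarith
  calc (2 : ℝ) ^ ((99 : ℝ) / 100) * ((N : ℝ) + w - K)
      ≤ 2 ^ ((99 : ℝ) / 100) * (((N : ℝ) + w) / 2 * (1 + 12 / n)) :=
        mul_le_mul_of_nonneg_left h6 h4.le
    _ = ((N : ℝ) + w) / 2 * (2 ^ ((99 : ℝ) / 100) * (1 + 12 / n)) := by ring
    _ ≤ ((N : ℝ) + w) / 2 * 2 := mul_le_mul_of_nonneg_left h5 (by positivity)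
    _ = (N : ℝ) + w := by ring

theorem WDomB_right {n N w K v : ℕ} (hn : 2000 ≤ n) (hN : (n : ℝ) ^ 2 / 5 ≤ N)
    (hw : (w : ℝ) ≤ (n : ℝ) ^ 2 / 100000) (hv : (v : ℝ) ≤ w / 2 + 1)
    (h1 : -(3 * (n : ℝ)) ≤ (K : ℝ) - N / 2) (h2 : (K : ℝ) - N / 2 ≤ (n : ℝ) ^ 2 / 1000) :
    exp (-(3 / 100 * (w : ℝ) + 1)) * (N.choose K : ℝ) ≤ N.choose (K + v) := by
  have hn' : (2000 : ℝ) ≤ n := by exact_mod_cast hn
  have hw0 : (0 : ℝ) ≤ w := Nat.cast_nonneg w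
  have hv0 : (0 : ℝ) ≤ v := Nat.cast_nonneg v
  have hnn : 2000 * (n : ℝ) ≤ (n : ℝ) ^ 2 := by nlinarith
  have habs : |(K : ℝ) - N / 2| ≤ 3 / 2000 * (n : ℝ) ^ 2 := by
    rw [abs_le]
    constructor <;> nlinarith
  have h3 : |(K : ℝ) - N / 2| + v ≤ N / 100 := by nlinarith
  refine le_trans ?_ (choose_right_ge h3)
  apply mul_le_mul_of_nonneg_right _ (Nat.cast_nonneg _)
  apply exp_le_exp.2
  apply neg_le_neg
  have hNpos : (0 : ℝ) < N := by nlinarith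
  have hM : max ((K : ℝ) - N / 2) 0 ≤ (n : ℝ) ^ 2 / 1000 := max_le h2 (by positivity)
  have h4 : max ((K : ℝ) - N / 2) 0 * v + (v : ℝ) ^ 2 ≤ (n : ℝ) ^ 2 / 990 * (w / 2 + 1) := by
    have h5 : max ((K : ℝ) - N / 2) 0 + v ≤ (n : ℝ) ^ 2 / 990 := by nlinarith
    calc max ((K : ℝ) - N / 2) 0 * v + (v : ℝ) ^ 2 = (max ((K : ℝ) - N / 2) 0 + v) * v := by ring
      _ ≤ (n : ℝ) ^ 2 / 990 * v := mul_le_mul_of_nonneg_right h5 hv0
      _ ≤ (n : ℝ) ^ 2 / 990 * (w / 2 + 1) := mul_le_mul_of_nonneg_left hv (by positivity)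
  calc 41 / 10 / (N : ℝ) * (max ((K : ℝ) - N / 2) 0 * v + (v : ℝ) ^ 2)
      ≤ 41 / 10 / (N : ℝ) * ((n : ℝ) ^ 2 / 990 * (w / 2 + 1)) :=
        mul_le_mul_of_nonneg_left h4 (by positivity)
    _ ≤ 3 / 100 * (w : ℝ) + 1 := by
        rw [div_mul_eq_mul_div, div_le_iff₀ hNpos]
        nlinarith [mul_nonneg hw0 (sub_nonneg.2 hN)]

theorem WDomB_left {n N K e : ℕ} (hn : 2000 ≤ n) (hN : (n : ℝ) ^ 2 / 5 ≤ N)
    (hN2 : (N : ℝ) ≤ (n : ℝ) ^ 2 / 4) (hK : K ≤ N) (he1 : 2 / 5 * (n : ℝ) ≤ e) (he2 : (e : ℝ) ≤ n)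
    (h1 : -(n : ℝ) / 4 ≤ (K : ℝ) - N / 2) :
    (N.choose K : ℝ) * (1 + max ((K : ℝ) - N / 2) 0 / n) ≤ 2 * exp 26 * N.choose (K - e) := by
  have hn' : (2000 : ℝ) ≤ n := by exact_mod_cast hn
  have hnpos : (0 : ℝ) < n := by linarith
  have hnn : 2000 * (n : ℝ) ≤ (n : ℝ) ^ 2 := by nlinarith
  have hNpos : (0 : ℝ) < N := by nlinarith
  have hC0 : (0 : ℝ) ≤ N.choose K := Nat.cast_nonneg _
  rcases le_or_gt (e : ℝ) ((K : ℝ) - N / 2) with h | h
  · have h2 := choose_left_gain hK h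
    have h3 : max ((K : ℝ) - N / 2) 0 = (K : ℝ) - N / 2 := max_eq_left (by linarith)
    rw [h3]
    obtain ⟨x, hx⟩ : ∃ x : ℝ, x = (K : ℝ) - N / 2 - e := ⟨_, rfl⟩
    have hx0 : 0 ≤ x := by linarith
    rw [← hx] at h2
    have h4 : 1 + ((K : ℝ) - N / 2) / n ≤ 2 * exp (x / n) := by
      have h5 : ((K : ℝ) - N / 2) / n ≤ x / n + 1 := by
        rw [div_add_one hnpos.ne']
        apply div_le_div_of_nonneg_right _ hnpos.le
        linarith
      have h6 := add_one_le_exp (x / n)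
      have h7 : 0 ≤ x / n := by positivity
      linarith
    have h5 : exp (x / n) ≤ exp (4 / (N + 1) * (x * e)) := by
      apply exp_le_exp.2
      rw [div_mul_eq_mul_div, div_le_div_iff₀ hnpos (by linarith)]
      have h6 : (N : ℝ) + 1 ≤ 4 * e * n := by nlinarith
      calc x * ((N : ℝ) + 1) ≤ x * (4 * e * n) := mul_le_mul_of_nonneg_left h6 hx0
        _ = 4 * (x * e) * n := by ring
    have h6 : (1 : ℝ) ≤ exp 26 := one_le_exp (by norm_num)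
    calc (N.choose K : ℝ) * (1 + ((K : ℝ) - N / 2) / n)
        ≤ N.choose K * (2 * exp (x / n)) := mul_le_mul_of_nonneg_left h4 hC0
      _ ≤ N.choose K * (2 * exp (4 / (N + 1) * (x * e))) := by gcongr
      _ = 2 * (exp (4 / (N + 1) * (x * e)) * N.choose K) := by ring
      _ ≤ 2 * (N.choose (K - e) : ℝ) := by linarith
      _ = 2 * 1 * (N.choose (K - e) : ℝ) := by ring
      _ ≤ 2 * exp 26 * N.choose (K - e) := by gcongr
  · have habs : |(K : ℝ) - N / 2| ≤ n := by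
      rw [abs_le]
      constructor <;> linarith
    have h2 : |(K : ℝ) - N / 2| + e ≤ N / 100 := by nlinarith
    have h3 := choose_left_ge h2
    have h4 : max ((K : ℝ) - N / 2) 0 / n ≤ 1 := by
      rw [div_le_one hnpos]
      exact max_le (by linarith) (by linarith)
    have h5 : 41 / 10 / (N : ℝ) * (max ((N : ℝ) / 2 - K) 0 * e + (e : ℝ) ^ 2) ≤ 26 := by
      rw [div_mul_eq_mul_div, div_le_iff₀ hNpos]
      have h6 : max ((N : ℝ) / 2 - K) 0 ≤ n / 4 := max_le (by linarith) (by positivity)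
      have h7 : (0 : ℝ) ≤ max ((N : ℝ) / 2 - K) 0 := le_max_right _ _
      have h8 : max ((N : ℝ) / 2 - K) 0 * e ≤ n / 4 * n := by
        apply mul_le_mul h6 he2 (by positivity) (by positivity)
      nlinarith
    calc (N.choose K : ℝ) * (1 + max ((K : ℝ) - N / 2) 0 / n)
        ≤ N.choose K * (1 + 1) := by gcongr
      _ = 2 * exp 26 * (exp (-26) * N.choose K) := by
          rw [exp_neg]
          have : exp 26 ≠ 0 := (exp_pos _).ne'
          field_simp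
          ring
      _ ≤ 2 * exp 26 * (exp (-(41 / 10 / (N : ℝ) * (max ((N : ℝ) / 2 - K) 0 * e + (e : ℝ) ^ 2))) *
            N.choose K) := by gcongr
      _ ≤ 2 * exp 26 * N.choose (K - e) := by gcongr

/-- The binomial quotient: `N ≥ n²/5`, `0 ≤ w ≤ n²/10^5`, `y = K - N/2`, `-n/4 ≤ y ≤ n²/1000`, `2/5 n ≤ e ≤ 19/20 n`, and `K'' - K = w/2 - e` (as reals, `K''` natural): with an absolute `C > 0`
`choose N K * (1 + max y 0/n) ≤ C 2^(-0.9 w) choose (N+w) K''`.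
Proof in three steps: `N`-shift at `K''` (`choose_addN_ge`, `choose` symmetric: use `N - K''` if `K'' < N/2`), `choose N K''` against `choose N (K - e')`, `K - e'` with `e' = ⌈e⌉` (right shift by about `w/2`, `choose_right_ge`, loss `2^(-0.05w)`·const),
and the left shift by `e'` of `K` (`choose_left_gain` for `y ≥ e'`, `choose_left_ge` otherwise). -/
theorem bin_dom : ∃ C : ℝ, 0 < C ∧ ∃ n0 : ℕ, ∀ n ≥ n0, ∀ N w K K'' : ℕ, (n : ℝ) ^ 2 / 5 ≤ N →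
    (N : ℝ) ≤ (n : ℝ) ^ 2 / 4 → (w : ℝ) ≤ (n : ℝ) ^ 2 / 100000 →
    -(n : ℝ) / 4 ≤ (K : ℝ) - N / 2 → (K : ℝ) - N / 2 ≤ (n : ℝ) ^ 2 / 1000 →
    2 / 5 * (n : ℝ) ≤ (w : ℝ) / 2 - ((K'' : ℝ) - K) →
    (w : ℝ) / 2 - ((K'' : ℝ) - K) ≤ 19 / 20 * (n : ℝ) →
    (N.choose K : ℝ) * (1 + max ((K : ℝ) - N / 2) 0 / n) ≤
      C * (2 : ℝ) ^ (-(9 / 10 * (w : ℝ))) * (N + w).choose K'' := by
  refine ⟨2 * exp 26 * exp 1, by positivity, 2000, ?_⟩
  intro n hn N w K K'' hN hN2 hw hy1 hy2 he1 he2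
  have hn' : (2000 : ℝ) ≤ n := by exact_mod_cast hn
  have hnpos : (0 : ℝ) < n := by linarith
  have hnn : 2000 * (n : ℝ) ≤ (n : ℝ) ^ 2 := by nlinarith
  have hw0 : (0 : ℝ) ≤ w := Nat.cast_nonneg w
  have hKN : K ≤ N := by
    have : (K : ℝ) ≤ N := by nlinarith
    exact_mod_cast this
  obtain ⟨e', he'⟩ : ∃ e' : ℕ, e' = ⌈(w : ℝ) / 2 - ((K'' : ℝ) - K)⌉₊ := ⟨_, rfl⟩
  have hc1 : (w : ℝ) / 2 - ((K'' : ℝ) - K) ≤ e' := by
    rw [he']; exact Nat.le_ceil _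
  have hc2 : (e' : ℝ) < (w : ℝ) / 2 - ((K'' : ℝ) - K) + 1 := by
    rw [he']; exact Nat.ceil_lt_add_one (by linarith)
  have heK : e' ≤ K := by
    have : (e' : ℝ) ≤ K := by nlinarith
    exact_mod_cast this
  have hsub : ((K - e' : ℕ) : ℝ) = (K : ℝ) - e' := by rw [Nat.cast_sub heK]
  have hle : K - e' ≤ K'' := by
    have : ((K - e' : ℕ) : ℝ) ≤ K'' := by rw [hsub]; linarith
    exact_mod_cast this
  obtain ⟨v, hv⟩ : ∃ v : ℕ, v = K'' - (K - e') := ⟨_, rfl⟩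
  have hv' : (v : ℝ) = (K'' : ℝ) - ((K : ℝ) - e') := by
    rw [hv, Nat.cast_sub hle, hsub]
  have hKv : K - e' + v = K'' := by omega
  -- step 3
  have s3 := WDomB_left (e := e') hn hN hN2 hKN (by linarith) (by linarith) hy1
  -- step 2
  have s2 := WDomB_right (K := K - e') (v := v) hn hN hw (by rw [hv']; linarith)
    (by rw [hsub]; linarith) (by rw [hsub]; linarith)
  rw [hKv] at s2
  -- step 1
  have hK''N : K'' < N := by
    have : (K'' : ℝ) < N := by nlinarith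
    exact_mod_cast this
  have s1 := WDomB_addN (w := w) hn hN hK''N (by linarith)
  have hA : (0 : ℝ) ≤ N.choose (K - e') := Nat.cast_nonneg _
  have hB : (0 : ℝ) ≤ N.choose K'' := Nat.cast_nonneg _
  have s2' : (N.choose (K - e') : ℝ) ≤ exp (3 / 100 * (w : ℝ) + 1) * N.choose K'' := by
    have := mul_le_mul_of_nonneg_left s2 (exp_pos (3 / 100 * (w : ℝ) + 1)).le
    rw [← mul_assoc, ← exp_add] at this
    simpa using this
  have s1' : (N.choose K'' : ℝ) ≤ (2 : ℝ) ^ (-(99 / 100 * (w : ℝ))) * (N + w).choose K'' := by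
    have := mul_le_mul_of_nonneg_left s1 (rpow_nonneg (by norm_num : (0 : ℝ) ≤ 2)
      (-(99 / 100 * (w : ℝ))))
    rw [← mul_assoc, ← rpow_add (by norm_num)] at this
    simpa using this
  have key : exp (3 / 100 * (w : ℝ)) * (2 : ℝ) ^ (-(99 / 100 * (w : ℝ))) ≤
      (2 : ℝ) ^ (-(9 / 10 * (w : ℝ))) := by
    rw [rpow_def_of_pos (by norm_num), rpow_def_of_pos (by norm_num), ← exp_add]
    apply exp_le_exp.2
    have := log_two_gt_d9
    nlinarith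
  calc (N.choose K : ℝ) * (1 + max ((K : ℝ) - N / 2) 0 / n)
      ≤ 2 * exp 26 * N.choose (K - e') := s3
    _ ≤ 2 * exp 26 * (exp (3 / 100 * (w : ℝ) + 1) * N.choose K'') := by gcongr
    _ ≤ 2 * exp 26 * (exp (3 / 100 * (w : ℝ) + 1) *
          ((2 : ℝ) ^ (-(99 / 100 * (w : ℝ))) * (N + w).choose K'')) := by gcongr
    _ = 2 * exp 26 * exp 1 * (exp (3 / 100 * (w : ℝ)) * (2 : ℝ) ^ (-(99 / 100 * (w : ℝ)))) *
          (N + w).choose K'' := by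
        rw [exp_add]
        ring
    _ ≤ 2 * exp 26 * exp 1 * (2 : ℝ) ^ (-(9 / 10 * (w : ℝ))) * (N + w).choose K'' := by
        gcongr

end Pool.Agent.H.MP_82502e_co
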