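import Pool.Agent.H.MP_82502e_co.WDomA
import Pool.Agent.H.MP_82502e_co.WDomB

set_option autoImplicit false

/-!
# The window: four-layer terms near n^2/8: domination of one term
-/

namespace Pool.Agent.H.MP_82502e_co

open Finset Real

theorem WDom_y3_add (n l z g k : ℕ) :
    y3 n l (z + g) k = y3 n l z k - (g : ℝ) * ((l : ℝ) - 2 * z - g) := by
  unfold y3
  push_cast
  ring

/-- The choice of `g`. -/
theorem WDom_exists_g {ε0 n l z a d : ℝ} {D : ℕ → ℝ} (h0 : 0 < ε0) (h1 : ε0 ≤ 1 / 10000)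
    (hn : 2 ≤ ε0 * n) (hn1 : 2000 ≤ n) (hl1 : n / 2 - ε0 / 4 * n ≤ l) (hl2 : l ≤ n / 2)
    (ha0 : 0 ≤ a) (hd0 : 0 ≤ d) (ha : a ≤ ε0 / 4 * n) (hd : d ≤ ε0 / 4 * n)
    (hz : z = a + d)
    (hD : ∀ g : ℕ, D g = (g : ℝ) * (l - 2 * z - g) - (n - 2 * l) * d - 5 / 2 * a * d) :
    ∃ g : ℕ, 1 ≤ g ∧ (g : ℝ) ≤ ε0 * n ∧ 2 / 5 * n ≤ D g ∧ D g ≤ 19 / 20 * n := by
  classical
  have hn0 : 0 < n := by linarith
  have hen : ε0 * n ≤ 1 / 10000 * n := mul_le_mul_of_nonneg_right h1 hn0.le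
  have hGle : ((⌊ε0 * n⌋₊ : ℕ) : ℝ) ≤ ε0 * n := Nat.floor_le (by positivity)
  have hGge : ε0 * n - 1 < ((⌊ε0 * n⌋₊ : ℕ) : ℝ) := Nat.sub_one_lt_floor _
  have hex : ∃ g : ℕ, 2 / 5 * n ≤ D g := by
    refine ⟨⌊ε0 * n⌋₊, ?_⟩
    rw [hD]
    obtain ⟨G, hG⟩ : ∃ G : ℝ, G = ((⌊ε0 * n⌋₊ : ℕ) : ℝ) := ⟨_, rfl⟩
    rw [← hG] at hGle hGge ⊢
    have e1 : 49 / 100 * n ≤ l - 2 * z - G := by
      rw [hz]
      linarith
    have e2 : (ε0 * n - 1) * (49 / 100 * n) ≤ G * (l - 2 * z - G) := by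
      apply mul_le_mul hGge.le e1 (by positivity)
      linarith
    have e3 : (n - 2 * l) * d ≤ ε0 / 2 * n * (ε0 / 4 * n) := by
      apply mul_le_mul (by linarith) hd hd0 (by positivity)
    have e4 : a * d ≤ ε0 / 4 * n * (ε0 / 4 * n) := mul_le_mul ha hd hd0 (by positivity)
    have e5 : ε0 * n * (ε0 * n) ≤ ε0 * n * (1 / 10000 * n) :=
      mul_le_mul_of_nonneg_left hen (by positivity)
    have e6 : 2 * n ≤ ε0 * n * n := mul_le_mul_of_nonneg_right hn hn0.le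
    linarith
  obtain ⟨g, hspec, hmin⟩ : ∃ g : ℕ, 2 / 5 * n ≤ D g ∧ ∀ m : ℕ, m < g → ¬ 2 / 5 * n ≤ D m :=
    ⟨Nat.find hex, Nat.find_spec hex, fun m hm => Nat.find_min hex hm⟩
  have hD0 : D 0 ≤ 0 := by
    rw [hD]
    have e1 : 0 ≤ (n - 2 * l) * d := mul_nonneg (by linarith) hd0
    have e2 : 0 ≤ a * d := mul_nonneg ha0 hd0
    push_cast
    linarith
  have hg1 : 1 ≤ g := by
    rcases Nat.eq_zero_or_pos g with h | h
    · rw [h] at hspec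
      linarith
    · exact h
  have hgle : (g : ℝ) ≤ ε0 * n := by
    by_contra hcon
    push Not at hcon
    have hlt : ⌊ε0 * n⌋₊ < g := (Nat.floor_lt (by positivity)).2 hcon
    have h2 := hmin _ hlt
    apply h2
    -- same computation
    rw [hD]
    obtain ⟨G, hG⟩ : ∃ G : ℝ, G = ((⌊ε0 * n⌋₊ : ℕ) : ℝ) := ⟨_, rfl⟩
    rw [← hG] at hGle hGge ⊢
    have e1 : 49 / 100 * n ≤ l - 2 * z - G := by
      rw [hz]
      linarith
    have e2 : (ε0 * n - 1) * (49 / 100 * n) ≤ G * (l - 2 * z - G) := by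
      apply mul_le_mul hGge.le e1 (by positivity)
      linarith
    have e3 : (n - 2 * l) * d ≤ ε0 / 2 * n * (ε0 / 4 * n) := by
      apply mul_le_mul (by linarith) hd hd0 (by positivity)
    have e4 : a * d ≤ ε0 / 4 * n * (ε0 / 4 * n) := mul_le_mul ha hd hd0 (by positivity)
    have e5 : ε0 * n * (ε0 * n) ≤ ε0 * n * (1 / 10000 * n) :=
      mul_le_mul_of_nonneg_left hen (by positivity)
    have e6 : 2 * n ≤ ε0 * n * n := mul_le_mul_of_nonneg_right hn hn0.le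
    linarith
  refine ⟨g, hg1, hgle, hspec, ?_⟩
  have h3 := hmin (g - 1) (by omega)
  push Not at h3
  rw [hD] at h3 ⊢
  have hc : ((g - 1 : ℕ) : ℝ) = (g : ℝ) - 1 := by
    rw [Nat.cast_sub hg1]
    norm_num
  rw [hc] at h3
  have hg0 : (1 : ℝ) ≤ g := by exact_mod_cast hg1
  have hz0 : 0 ≤ z := by rw [hz]; positivity
  linarith

/-- **Domination of a four-layer term.** Typical `x = (a,b,c,d)` (`η = ε0/4`), `a, d ≥ 1`, `l = a + c ≤ n/2`, `y = yq k x ≥ -n/4`, `y ≤ n²/1000`. Let `z = a + d` and `g ≥ 1` minimal with `y3 n l (z+g) k ≤ y - 2n/5` (start `y3 n l z k ≥ y` by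
`y3_of_yq`, steps between `0.45 n` and `0.55 n`; `g ≤ 3 + 2(2ηd·n + 2.5 a d)/(0.45 n)` is small). Then `y3 n l (z+g) k ∈ [y - 19n/20, y - 2n/5]`, and `multi_dom`, `bin_dom` (`N = nfr`, `N + w = l(n-l)`, `w = a d`). -/
theorem dom : ∃ C : ℝ, 0 < C ∧ ∀ ε0 : ℝ, 0 < ε0 → ε0 ≤ 1 / 10000 → ∃ n0 : ℕ, ∀ n ≥ n0, ∀ k : ℕ,
    ∀ x ∈ CanQ n, 1 ≤ x.1 → 1 ≤ x.2.2.2 → Typ (ε0 / 4) (1 / 1000) n k x →
    x.1 + x.2.2.1 ≤ n - (x.1 + x.2.2.1) → -(n : ℝ) / 4 ≤ yq k x →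
    ∃ g : ℕ, 1 ≤ g ∧ x.1 + x.2.2.2 + g < x.1 + x.2.2.1 ∧
      (tmx x k : ℝ) * (1 + max (yq k x) 0 / n) ≤
        C * (2 : ℝ) ^ (-(4 / 5 * ((x.1 : ℝ) * x.2.2.2))) * (x.1 + x.2.2.2).choose x.1 *
          (20 * ε0) ^ g * q3 n (x.1 + x.2.2.1) (x.1 + x.2.2.2 + g) k := by
  obtain ⟨C, hC, n2, hbin⟩ := bin_dom
  refine ⟨C, hC, ?_⟩
  intro ε0 h0 h1
  obtain ⟨n1, hmul⟩ := multi_dom h0 h1
  refine ⟨max (max n1 n2) (max 2000 ⌈2 / ε0⌉₊), ?_⟩
  intro n hn k x hx hx1 hx4 htyp hll hyq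
  have hn1 : n1 ≤ n := le_trans (le_trans (le_max_left _ _) (le_max_left _ _)) hn
  have hn2 : n2 ≤ n := le_trans (le_trans (le_max_right _ _) (le_max_left _ _)) hn
  have hn3 : 2000 ≤ n := le_trans (le_trans (le_max_left _ _) (le_max_right _ _)) hn
  have hn4 : ⌈2 / ε0⌉₊ ≤ n := le_trans (le_trans (le_max_right _ _) (le_max_right _ _)) hn
  have hy3 := y3_of_yq hx k
  have hmul' := hmul n hn1 x hx hx1
  obtain ⟨a, b, c, d⟩ := x
  obtain ⟨ht1, ht2, ht3⟩ := htyp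
  have hx' := (Finset.mem_filter.1 hx).2
  dsimp only at hx'
  obtain ⟨hsum, hb, hc, -⟩ := hx'
  obtain ⟨had, hdd⟩ : (a : ℝ) < ε0 / 4 * n ∧ (d : ℝ) < ε0 / 4 * n := by
    rcases ht3 with h | h
    · omega
    · exact h
  have hn' : (2000 : ℝ) ≤ n := by exact_mod_cast hn3
  have hn0 : (0 : ℝ) < n := by linarith
  have hen : 2 ≤ ε0 * (n : ℝ) := by
    have h2 : 2 / ε0 ≤ (n : ℝ) := (Nat.le_ceil _).trans (by exact_mod_cast hn4)
    rw [div_le_iff₀ h0] at h2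
    linarith
  have hen2 : ε0 * (n : ℝ) ≤ 1 / 10000 * n := mul_le_mul_of_nonneg_right h1 hn0.le
  have ha0 : (0 : ℝ) ≤ a := Nat.cast_nonneg _
  have hd0 : (0 : ℝ) ≤ d := Nat.cast_nonneg _
  have ha1 : (1 : ℝ) ≤ a := by exact_mod_cast hx1
  obtain ⟨l, hl⟩ : ∃ l : ℕ, l = a + c := ⟨_, rfl⟩
  obtain ⟨z, hz⟩ : ∃ z : ℕ, z = a + d := ⟨_, rfl⟩
  rw [← hl, ← hz] at hy3 hmul' ⊢
  rw [← hl] at hll ht1
  have hcast : (l : ℝ) = (a : ℝ) + c := by rw [hl]; push_cast; ring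
  have hcastz : (z : ℝ) = (a : ℝ) + d := by rw [hz]; push_cast; ring
  have hsum' : (a : ℝ) + b + c + d = n := by exact_mod_cast hsum
  have hl2 : (l : ℝ) ≤ n / 2 := by
    have h2 : l + l ≤ n := by omega
    have h3 : (l : ℝ) + l ≤ n := by exact_mod_cast h2
    linarith
  have hl1 : (n : ℝ) / 2 - ε0 / 4 * n ≤ l := by
    have := (abs_le.1 ht1).1
    linarith
  -- choice of g
  obtain ⟨y, hy⟩ : ∃ y : ℝ, y = yq k (a, b, c, d) := ⟨_, rfl⟩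
  rw [← hy] at hyq hy3 ht2 ⊢
  have hy3' : ∀ g : ℕ, y - y3 n l (z + g) k =
      (g : ℝ) * ((l : ℝ) - 2 * z - g) - ((n : ℝ) - 2 * l) * d - 5 / 2 * a * d := by
    intro g
    rw [WDom_y3_add, hy3, ← hcast]
    ring
  obtain ⟨g, hg1, hg2, hg3, hg4⟩ := WDom_exists_g (D := fun g => y - y3 n l (z + g) k)
    h0 h1 hen hn' hl1 hl2 ha0 hd0 had.le hdd.le hcastz hy3'
  have hzg : z + g < l := by
    have h2 : ((z + g : ℕ) : ℝ) < l := by
      push_cast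
      rw [hcastz]
      linarith
    exact_mod_cast h2
  refine ⟨g, hg1, hzg, ?_⟩
  -- the multinomial quotient
  have hM := hmul' ht1 (by linarith) g (by linarith)
  -- the binomial quotient
  have hNw : nfr a b c d + a * d = l * (n - l) := by
    have h2 : n - l = b + d := by omega
    rw [h2, hl]
    unfold nfr
    ring
  obtain ⟨N, hN⟩ : ∃ N : ℕ, N = nfr a b c d := ⟨_, rfl⟩
  have hln : l ≤ n := by omega
  have hNw' : (N : ℝ) + (a : ℝ) * d = (l : ℝ) * ((n : ℝ) - l) := by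
    rw [← Nat.cast_sub hln]
    rw [hN]
    exact_mod_cast hNw
  have hadle : (a : ℝ) * d ≤ ε0 / 4 * n * (ε0 / 4 * n) :=
    mul_le_mul had.le hdd.le hd0 (by positivity)
  have hee : ε0 * n * (ε0 * n) ≤ 1 / 10000 * n * (1 / 10000 * n) :=
    mul_le_mul hen2 hen2 (by positivity) (by positivity)
  have had0 : (0 : ℝ) ≤ (a : ℝ) * d := by positivity
  have hlm : (n : ℝ) ^ 2 / 4 - (ε0 / 4 * n) ^ 2 ≤ (l : ℝ) * ((n : ℝ) - l) := by
    have h2 : 0 ≤ (n : ℝ) / 2 - l := by linarith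
    have h3 : (n : ℝ) / 2 - l ≤ ε0 / 4 * n := by linarith
    have h4 := mul_le_mul h3 h3 h2 (by positivity : (0 : ℝ) ≤ ε0 / 4 * n)
    linarith
  have hNlow : (n : ℝ) ^ 2 / 5 ≤ N := by linarith [sq_nonneg (n : ℝ)]
  have hNup : (N : ℝ) ≤ (n : ℝ) ^ 2 / 4 := by linarith [sq_nonneg ((n : ℝ) / 2 - l)]
  have hwle : (((a * d : ℕ) : ℕ) : ℝ) ≤ (n : ℝ) ^ 2 / 100000 := by
    push_cast
    linarith [sq_nonneg (n : ℝ)]
  have hnn : 2000 * (n : ℝ) ≤ (n : ℝ) ^ 2 := by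
    have := mul_le_mul_of_nonneg_right hn' hn0.le
    linarith
  -- K
  have hyK : y = (k : ℝ) - nfu a b c d - (N : ℝ) / 2 := by rw [hy, hN]; rfl
  have hkK : nfu a b c d ≤ k := by
    have h2 : ((nfu a b c d : ℕ) : ℝ) ≤ k := by linarith
    exact_mod_cast h2
  obtain ⟨K, hK⟩ : ∃ K : ℕ, K = k - nfu a b c d := ⟨_, rfl⟩
  have hKc : (K : ℝ) = (k : ℝ) - nfu a b c d := by rw [hK, Nat.cast_sub hkK]
  have hyK' : y = (K : ℝ) - (N : ℝ) / 2 := by rw [hKc]; exact hyK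
  -- K''
  have hy3d : y3 n l (z + g) k = (k : ℝ) - ((z + g : ℕ) : ℝ) * ((l : ℝ) - ((z + g : ℕ) : ℝ)) -
      (l : ℝ) * ((n : ℝ) - l) / 2 := rfl
  have hkK2 : (z + g) * (l - (z + g)) ≤ k := by
    have h2 : (((z + g) * (l - (z + g)) : ℕ) : ℝ) ≤ k := by
      rw [Nat.cast_mul, Nat.cast_sub hzg.le]
      linarith
    exact_mod_cast h2
  obtain ⟨K2, hK2⟩ : ∃ K2 : ℕ, K2 = k - (z + g) * (l - (z + g)) := ⟨_, rfl⟩
  have hK2c : (K2 : ℝ) = (k : ℝ) - ((z + g : ℕ) : ℝ) * ((l : ℝ) - ((z + g : ℕ) : ℝ)) := by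
    rw [hK2, Nat.cast_sub hkK2, Nat.cast_mul, Nat.cast_sub hzg.le]
  have hdiff : (((a * d : ℕ) : ℕ) : ℝ) / 2 - ((K2 : ℝ) - K) = y - y3 n l (z + g) k := by
    rw [hy3d, hyK', hK2c]
    push_cast
    linarith
  have hB := hbin n hn2 N (a * d) K K2 hNlow hNup hwle (by rw [← hyK']; exact hyq)
    (by rw [← hyK']; have := (abs_le.1 ht2).2; linarith) (by rw [hdiff]; exact hg3)
    (by rw [hdiff]; exact hg4)
  rw [← hyK'] at hB
  -- rewrite the two terms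
  have hT : tmx (a, b, c, d) k = n.choose l * l.choose a * (b + d).choose d * N.choose K := by
    unfold tmx tm chz
    simp only
    rw [if_pos hkK, hsum, ← hl, ← hN, ← hK]
  have hQ : q3 n l (z + g) k = n.choose l * l.choose (z + g) * (N + a * d).choose K2 := by
    unfold q3 chz
    rw [if_pos hkK2, ← hK2, hN, hNw]
  rw [hT, hQ]
  push_cast at hB hM ⊢
  obtain ⟨w, hw⟩ : ∃ w : ℝ, w = (a : ℝ) * d := ⟨_, rfl⟩
  rw [← hw] at hB hM had0 ⊢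
  have hE : (0 : ℝ) < 20 * ε0 := by positivity
  have hM' : (l.choose a : ℝ) * (b + d).choose d ≤
      (2 : ℝ) ^ (w / 20) * (20 * ε0) ^ g * ((z.choose a : ℝ) * l.choose (z + g)) := by
    have h2 := mul_le_mul_of_nonneg_left hM (show (0 : ℝ) ≤ (2 : ℝ) ^ (w / 20) * (20 * ε0) ^ g by
      positivity)
    refine le_trans (le_of_eq ?_) h2
    have h3 : (2 : ℝ) ^ (w / 20) * (2 : ℝ) ^ (-(w / 20)) = 1 := by
      rw [← rpow_add (by norm_num)]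
      simp
    have h4 : (20 * ε0) ^ g * (1 / (20 * ε0)) ^ g = 1 := by
      rw [← mul_pow, mul_one_div_cancel hE.ne', one_pow]
    calc (l.choose a : ℝ) * (b + d).choose d
        = ((2 : ℝ) ^ (w / 20) * (2 : ℝ) ^ (-(w / 20))) * ((20 * ε0) ^ g * (1 / (20 * ε0)) ^ g) *
          ((l.choose a : ℝ) * (b + d).choose d) := by rw [h3, h4]; ring
      _ = _ := by ring
  have hpow : (2 : ℝ) ^ (w / 20) * (2 : ℝ) ^ (-(9 / 10 * w)) ≤ (2 : ℝ) ^ (-(4 / 5 * w)) := by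
    rw [← rpow_add (by norm_num)]
    apply rpow_le_rpow_of_exponent_le (by norm_num)
    linarith
  calc (n.choose l : ℝ) * (l.choose a) * ((b + d).choose d) * (N.choose K) * (1 + max y 0 / n)
      = (n.choose l : ℝ) * ((l.choose a : ℝ) * (b + d).choose d) *
          ((N.choose K : ℝ) * (1 + max y 0 / n)) := by ring
    _ ≤ (n.choose l : ℝ) * ((2 : ℝ) ^ (w / 20) * (20 * ε0) ^ g *
          ((z.choose a : ℝ) * l.choose (z + g))) *
          (C * (2 : ℝ) ^ (-(9 / 10 * w)) * (N + a * d).choose K2) := by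
        gcongr
    _ = C * ((2 : ℝ) ^ (w / 20) * (2 : ℝ) ^ (-(9 / 10 * w))) * (z.choose a) * (20 * ε0) ^ g *
          ((n.choose l : ℝ) * l.choose (z + g) * (N + a * d).choose K2) := by ring
    _ ≤ C * (2 : ℝ) ^ (-(4 / 5 * w)) * (z.choose a) * (20 * ε0) ^ g *
          ((n.choose l : ℝ) * l.choose (z + g) * (N + a * d).choose K2) := by
        gcongr

end Pool.Agent.H.MP_82502e_co
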