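import Pool.Agent.H.MP_82502e_co.WDefs

set_option autoImplicit false

/-!
# The window: four-layer terms near n^2/8: multinomial quotient
-/

namespace Pool.Agent.H.MP_82502e_co

open Finset Real

/-- For `x = (a,b,c,d)`, `l = a+c`, `m = b+d`, `z = a+d`, `n = l + m`: the position of the three-layer term with bottom layer `z`:
`y3 n l z k = yq k x + 2 i d + 5 a d/2`, `2i = m - l`. -/
theorem y3_of_yq {n : ℕ} {x : ℕ × ℕ × ℕ × ℕ} (hx : x ∈ CanQ n) (k : ℕ) :
    y3 n (x.1 + x.2.2.1) (x.1 + x.2.2.2) k =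
      yq k x + ((n : ℝ) - 2 * (x.1 + x.2.2.1)) * x.2.2.2 + 5 / 2 * (x.1 : ℝ) * x.2.2.2 := by
  have hn : x.1 + x.2.1 + x.2.2.1 + x.2.2.2 = n := by
    unfold CanQ at hx
    exact (Finset.mem_filter.1 hx).2.1
  subst hn
  unfold y3 yq nfu nfr
  push_cast
  ring

/-- Upper bound for `2^(-1/20)`. -/
theorem WDomA_beta : (2 : ℝ) ^ (-(1 / 20 : ℝ)) ≤ 97 / 100 := by
  have h1 : ((2 : ℝ) ^ (-(1 / 20 : ℝ))) ^ (20 : ℕ) = 1 / 2 := by
    rw [← Real.rpow_natCast, ← Real.rpow_mul (by norm_num)]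
    norm_num
  by_contra h
  push Not at h
  have h2 : (97 / 100 : ℝ) ^ (20 : ℕ) < ((2 : ℝ) ^ (-(1 / 20 : ℝ))) ^ (20 : ℕ) :=
    pow_lt_pow_left₀ h (by norm_num) (by norm_num)
  rw [h1] at h2
  norm_num at h2

/-- Comparison of binomial coefficients with different upper entries. -/
theorem WDomA_step1 {β : ℝ} (hβ : 0 ≤ β) {c m : ℕ} (d : ℕ) (hm : d ≤ m) (hc : d ≤ c)
    (h : ∀ r < d, β * ((m : ℝ) - r) ≤ (c : ℝ) - r) :
    β ^ d * (m.choose d : ℝ) ≤ (c.choose d : ℝ) := by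
  induction d with
  | zero => simp
  | succ d ih =>
    have ih' := ih (by omega) (by omega) (fun r hr => h r (by omega))
    have e1 : (c.choose (d + 1) : ℝ) * ((d : ℝ) + 1) = (c.choose d : ℝ) * ((c : ℝ) - d) := by
      have := Nat.choose_succ_right_eq c d
      have h2 : ((c.choose (d + 1) * (d + 1) : ℕ) : ℝ) = ((c.choose d * (c - d) : ℕ) : ℝ) := by
        rw [this]
      push_cast [Nat.cast_sub (show d ≤ c by omega)] at h2
      exact h2
    have e2 : (m.choose (d + 1) : ℝ) * ((d : ℝ) + 1) = (m.choose d : ℝ) * ((m : ℝ) - d) := by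
      have := Nat.choose_succ_right_eq m d
      have h2 : ((m.choose (d + 1) * (d + 1) : ℕ) : ℝ) = ((m.choose d * (m - d) : ℕ) : ℝ) := by
        rw [this]
      push_cast [Nat.cast_sub (show d ≤ m by omega)] at h2
      exact h2
    have hd : (0 : ℝ) < (d : ℝ) + 1 := by positivity
    refine le_of_mul_le_mul_right ?_ hd
    have hh := h d (Nat.lt_succ_self d)
    have hmd : (0 : ℝ) ≤ (m : ℝ) - d := by
      have : (d : ℝ) ≤ m := by exact_mod_cast (show d ≤ m by omega)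
      linarith
    calc β ^ (d + 1) * (m.choose (d + 1) : ℝ) * ((d : ℝ) + 1)
        = β ^ (d + 1) * ((m.choose (d + 1) : ℝ) * ((d : ℝ) + 1)) := by ring
      _ = (β ^ d * (m.choose d : ℝ)) * (β * ((m : ℝ) - d)) := by rw [e2]; ring
      _ ≤ (c.choose d : ℝ) * ((c : ℝ) - d) := by
        refine mul_le_mul ih' hh ?_ ?_
        · positivity
        · positivity
      _ = _ := e1.symm

/-- Growth of binomial coefficients. -/
theorem WDomA_step2 {ρ : ℝ} (hρ : 0 ≤ ρ) {l z : ℕ} (g : ℕ) (hl : z + g ≤ l)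
    (h : ∀ r < g, ρ * ((z : ℝ) + r + 1) ≤ (l : ℝ) - z - r) :
    ρ ^ g * (l.choose z : ℝ) ≤ (l.choose (z + g) : ℝ) := by
  induction g with
  | zero => simp
  | succ g ih =>
    have ih' := ih (by omega) (fun r hr => h r (by omega))
    have e1 : (l.choose (z + g + 1) : ℝ) * ((z : ℝ) + g + 1) =
        (l.choose (z + g) : ℝ) * ((l : ℝ) - z - g) := by
      have := Nat.choose_succ_right_eq l (z + g)
      have h2 : ((l.choose (z + g + 1) * (z + g + 1) : ℕ) : ℝ) =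
          ((l.choose (z + g) * (l - (z + g)) : ℕ) : ℝ) := by
        rw [this]
      push_cast [Nat.cast_sub (show z + g ≤ l by omega)] at h2
      rw [h2]; ring
    have hd : (0 : ℝ) < (z : ℝ) + g + 1 := by positivity
    refine le_of_mul_le_mul_right ?_ hd
    have hh := h g (Nat.lt_succ_self g)
    calc ρ ^ (g + 1) * (l.choose z : ℝ) * ((z : ℝ) + g + 1)
        = (ρ ^ g * (l.choose z : ℝ)) * (ρ * ((z : ℝ) + g + 1)) := by ring
      _ ≤ (l.choose (z + g) : ℝ) * ((l : ℝ) - z - g) := by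
        refine mul_le_mul ih' hh ?_ ?_
        · positivity
        · positivity
      _ = _ := by rw [← e1]; rfl

/-- The multinomial quotient: for `z = a + d`, `g` with `d + g ≤ c`:
`choose n l * choose l (z+g)` against `choose n l * choose l a * choose m d`: the quotient is `(1/choose z a) ∏_{r<d} (c-r)/(b+1+r) ∏_{r<g} (c-d-r)/(z+1+r)`. For `|l - n/2| ≤ η n`, `a, d, g ≤ 2ε0 n`, `η ≤ ε0 ≤ 10^(-4)`:
the first product is `≥ 2^(-a d/20)`... (each factor `≥ 1 - 5(2η n + z)/n ≥ exp(-30 ε0)`, `a ≥ 1`), the second `≥ (1/(20 ε0))^g`. -/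
theorem multi_dom {ε0 : ℝ} (h0 : 0 < ε0) (h1 : ε0 ≤ 1 / 10000) : ∃ n0 : ℕ, ∀ n ≥ n0,
    ∀ x ∈ CanQ n, 1 ≤ x.1 → |((x.1 + x.2.2.1 : ℕ) : ℝ) - (n : ℝ) / 2| ≤ ε0 / 4 * n →
    (x.1 : ℝ) + x.2.2.2 ≤ ε0 / 2 * n → ∀ g : ℕ, (g : ℝ) ≤ 2 * ε0 * n →
    (2 : ℝ) ^ (-((x.1 : ℝ) * x.2.2.2 / 20)) * (1 / (20 * ε0)) ^ g *
      ((x.1 + x.2.2.1).choose x.1 * (x.2.1 + x.2.2.2).choose x.2.2.2 : ℕ) ≤
      ((x.1 + x.2.2.2).choose x.1 : ℝ) * (x.1 + x.2.2.1).choose (x.1 + x.2.2.2 + g) := by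
  refine ⟨0, fun n _ x hx ha hl hz g hg => ?_⟩
  obtain ⟨a, b, c, d⟩ := x
  simp only at ha hl hz ⊢
  obtain ⟨hn, hb, hc⟩ : a + b + c + d = n ∧ 1 ≤ b ∧ 1 ≤ c := by
    unfold CanQ at hx
    have := (Finset.mem_filter.1 hx).2
    exact ⟨this.1, this.2.1, this.2.2.1⟩
  have hnR : (a : ℝ) + b + c + d = n := by exact_mod_cast hn
  have hn0 : (0 : ℝ) < n := by
    rw [← hnR]
    have : (1 : ℝ) ≤ b := by exact_mod_cast hb
    positivity
  push_cast at hl
  rw [abs_le] at hl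
  obtain ⟨hl1, hl2⟩ := hl
  have haR : (1 : ℝ) ≤ a := by exact_mod_cast ha
  have hdR : (0 : ℝ) ≤ d := by positivity
  have hgR : (0 : ℝ) ≤ g := by positivity
  have hen : ε0 * n ≤ 1 / 10000 * n := by gcongr
  have hen0 : 0 < ε0 * n := by positivity
  have hdc : d + g ≤ c := by
    have : (d : ℝ) + g ≤ c := by nlinarith
    exact_mod_cast this
  set β : ℝ := (2 : ℝ) ^ (-(1 / 20 : ℝ)) with hβ
  have hβ0 : 0 ≤ β := by positivity
  have hβ1 := WDomA_beta
  rw [← hβ] at hβ1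
  have s1 : β ^ d * ((b + d).choose d : ℝ) ≤ (c.choose d : ℝ) := by
    refine WDomA_step1 hβ0 d (by omega) (by omega) fun r hr => ?_
    have hr' : (r : ℝ) ≤ d := by exact_mod_cast hr.le
    have hr0 : (0 : ℝ) ≤ r := by positivity
    push_cast
    have hbd : 0 ≤ (b : ℝ) + d - r := by
      have : (0 : ℝ) ≤ b := by positivity
      linarith
    have := mul_le_mul_of_nonneg_right hβ1 hbd
    nlinarith
  have s2 : (1 / (20 * ε0)) ^ g * ((a + c).choose (a + d) : ℝ) ≤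
      ((a + c).choose (a + d + g) : ℝ) := by
    refine WDomA_step2 (by positivity) g (by omega) fun r hr => ?_
    have hr' : (r : ℝ) + 1 ≤ g := by exact_mod_cast hr
    push_cast
    rw [div_mul_eq_mul_div, div_le_iff₀ (by positivity)]
    have h3 : (a : ℝ) + d + r + 1 ≤ 5 / 2 * (ε0 * n) := by nlinarith
    have h4 : (49 / 100 : ℝ) * n ≤ (a : ℝ) + c - (a + d) - r := by nlinarith
    have h5 := mul_le_mul_of_nonneg_right h4 (show 0 ≤ 20 * ε0 by positivity)
    nlinarith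
  have s3 : (2 : ℝ) ^ (-((a : ℝ) * d / 20)) ≤ β ^ d := by
    rw [hβ, ← Real.rpow_natCast, ← Real.rpow_mul (by norm_num)]
    refine Real.rpow_le_rpow_of_exponent_le (by norm_num) ?_
    nlinarith
  have e1 : ((a + c).choose (a + d) : ℝ) * ((a + d).choose a : ℝ) =
      ((a + c).choose a : ℝ) * (c.choose d : ℝ) := by
    have := Nat.choose_mul (n := a + c) (k := a + d) (s := a) (by omega)
    have h2 : (((a + c).choose (a + d) * (a + d).choose a : ℕ) : ℝ) =
      (((a + c).choose a * (a + c - a).choose (a + d - a) : ℕ) : ℝ) := by rw [this]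
    rw [show a + c - a = c by omega, show a + d - a = d by omega] at h2
    push_cast at h2
    exact h2
  push_cast
  calc (2 : ℝ) ^ (-((a : ℝ) * d / 20)) * (1 / (20 * ε0)) ^ g *
      (((a + c).choose a : ℝ) * ((b + d).choose d : ℝ))
      ≤ β ^ d * (1 / (20 * ε0)) ^ g * (((a + c).choose a : ℝ) * ((b + d).choose d : ℝ)) := by
        gcongr
    _ = (1 / (20 * ε0)) ^ g * ((a + c).choose a : ℝ) * (β ^ d * ((b + d).choose d : ℝ)) := by ring
    _ ≤ (1 / (20 * ε0)) ^ g * ((a + c).choose a : ℝ) * (c.choose d : ℝ) := by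
        gcongr
    _ = (1 / (20 * ε0)) ^ g * (((a + c).choose (a + d) : ℝ) * ((a + d).choose a : ℝ)) := by
        rw [e1]; ring
    _ = ((a + d).choose a : ℝ) * ((1 / (20 * ε0)) ^ g * ((a + c).choose (a + d) : ℝ)) := by ring
    _ ≤ ((a + d).choose a : ℝ) * ((a + c).choose (a + d + g) : ℝ) := by gcongr

end Pool.Agent.H.MP_82502e_co
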