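import Pool.Agent.H.MP_82502e_co.WExt2

set_option autoImplicit false

/-!
# The window: extensions by one point with an excluded event
-/

namespace Pool.Agent.H.MP_82502e_co

open Finset Real

variable {n : ℕ}

/-- The set `S` is determined by the restriction and the down- and up-set of the point. -/
theorem WExt1_inj (v : Fin (n + 1)) {S T : Finset (Fin (n + 1) × Fin (n + 1))}
    (h : del v S = del v T) (h3 : Dn S v = Dn T v) (h4 : Up S v = Up T v) : S = T := by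
  ext ⟨a, b⟩
  rcases TopI_cases v a with rfl | ⟨a1, rfl⟩
  · rw [← WExt2_mem_Up, ← WExt2_mem_Up, h4]
  rcases TopI_cases v b with rfl | ⟨b1, rfl⟩
  · rw [← WExt2_mem_Dn, ← WExt2_mem_Dn, h3]
  have e1 : (a1, b1) ∈ del v S ↔ (v.succAbove a1, v.succAbove b1) ∈ S := TopI_mem_del
  have e2 : (a1, b1) ∈ del v T ↔ (v.succAbove a1, v.succAbove b1) ∈ T := TopI_mem_del
  rw [← e1, ← e2, h]

open scoped Classical in
/-- Counting the structures on `n + 1` points by their restrictions. -/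
theorem WExt1_gcount {ν ε τ s : ℝ} (v : Fin (n + 1)) (S' : Finset (Fin n × Fin n)) :
    ((univ : Finset (Fin (n + 1) → Fin 3)).filter fun g => GoodP ν ε τ s S' (gdel v g)).card ≤
      ((univ : Finset (Fin n → Fin 3)).filter fun g => GoodP ν ε τ s S' g).card * 3 := by
  have h9 : (((univ : Finset (Fin n → Fin 3)).filter fun g => GoodP ν ε τ s S' g) ×ˢ
      (univ : Finset (Fin 3))).card =
      ((univ : Finset (Fin n → Fin 3)).filter fun g => GoodP ν ε τ s S' g).card * 3 := by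
    rw [card_product, card_univ, Fintype.card_fin]
  rw [← h9]
  refine card_le_card_of_injOn (fun g => (gdel v g, g v)) ?_ ?_
  · intro g hg
    rw [mem_coe, mem_filter] at hg
    rw [mem_coe, mem_product, mem_filter]
    exact ⟨⟨mem_univ _, hg.2⟩, mem_univ _⟩
  · intro g _ g' _ hgg
    rw [Prod.mk.injEq] at hgg
    obtain ⟨h1, h2⟩ := hgg
    funext x
    rcases TopI_cases v x with rfl | ⟨x1, rfl⟩
    · exact h2
    · exact congrFun h1 x1

open scoped Classical in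
/-- The count for one structure and one type. -/
theorem WExt1_count {r r' : ℝ} (g : Fin n → Fin 3) (a : Fin n) (t : Fin 5)
    (C : Finset (Finset (Fin n × Fin n)))
    (hinj : Set.InjOn (fun S => (Dn S a, Up S a)) (C : Set (Finset (Fin n × Fin n))))
    (hstd : ∀ S ∈ C, StdP r g (typv r' g S a) (Dn S a) (Up S a))
    (hE : ∀ S ∈ C, typv r' g S a = t) (m : ℕ)
    (hm : ((univ : Finset (Finset (Fin n))).filter fun A => (A.card : ℝ) ≤ r).card ≤ m) :
    C.card ≤ m ^ 2 * 2 ^ ((FD g t).card + (FU g t).card) := by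
  have h1 := card_std (r := r) g t m hm
  refine le_trans (card_le_card_of_injOn (fun S => (Dn S a, Up S a)) ?_ hinj) h1
  intro S hS
  rw [mem_coe] at hS
  rw [mem_coe, mem_filter]
  refine ⟨mem_univ _, ?_⟩
  have := hstd S hS
  rwa [hE S hS] at this

/-- The numerical estimate. -/
theorem WExt1_num {N : ℕ} (hN : 2000 ≤ N) {τ G m : ℝ} (hτ1 : τ ≤ 1 / 1000)
    (hm0 : 0 ≤ m)
    (hG : G ≤ 3 * exp (1 / 1000 * N)) (hm : m ≤ exp (1 / 1000 * ((N : ℝ) + 1))) :
    G * 3 * (2 * (m ^ 2 * (2 : ℝ) ^ ((3 / 8 + τ) * ((N : ℝ) + 1)))) ≤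
      (2 : ℝ) ^ (39 / 100 * (N : ℝ)) := by
  have hN' : (2000 : ℝ) ≤ N := by exact_mod_cast hN
  have e1 : G ≤ 3 * (2 : ℝ) ^ (2 * (1 / 1000 * (N : ℝ))) :=
    hG.trans (mul_le_mul_of_nonneg_left (WExt2_exp_le (by positivity)) (by norm_num))
  have e2 : m ≤ (2 : ℝ) ^ (2 * (1 / 1000 * ((N : ℝ) + 1))) :=
    hm.trans (WExt2_exp_le (by positivity))
  have e3 : m ^ 2 ≤ (2 : ℝ) ^ (4 * (1 / 1000 * ((N : ℝ) + 1))) := by
    have h := pow_le_pow_left₀ hm0 e2 2
    refine h.trans_eq ?_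
    rw [← Real.rpow_natCast, ← Real.rpow_mul (by norm_num)]
    congr 1
    push_cast
    ring
  have e5 : G * 3 * (2 * (m ^ 2 * (2 : ℝ) ^ ((3 / 8 + τ) * ((N : ℝ) + 1)))) ≤
      (3 * (2 : ℝ) ^ (2 * (1 / 1000 * (N : ℝ)))) * 3 *
        (2 * ((2 : ℝ) ^ (4 * (1 / 1000 * ((N : ℝ) + 1))) *
        (2 : ℝ) ^ ((3 / 8 + τ) * ((N : ℝ) + 1)))) := by
    gcongr
  refine e5.trans ?_
  have e6 : (3 * (2 : ℝ) ^ (2 * (1 / 1000 * (N : ℝ)))) * 3 *
        (2 * ((2 : ℝ) ^ (4 * (1 / 1000 * ((N : ℝ) + 1))) *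
        (2 : ℝ) ^ ((3 / 8 + τ) * ((N : ℝ) + 1)))) ≤
      (2 : ℝ) ^ (5 : ℝ) * ((2 : ℝ) ^ (2 * (1 / 1000 * (N : ℝ))) *
        (2 : ℝ) ^ (4 * (1 / 1000 * ((N : ℝ) + 1))) *
        (2 : ℝ) ^ ((3 / 8 + τ) * ((N : ℝ) + 1))) := by
    have h9 : (2 : ℝ) ^ (5 : ℝ) = 32 := by norm_num
    rw [h9]
    have hp : 0 ≤ (2 : ℝ) ^ (2 * (1 / 1000 * (N : ℝ))) *
        (2 : ℝ) ^ (4 * (1 / 1000 * ((N : ℝ) + 1))) *
        (2 : ℝ) ^ ((3 / 8 + τ) * ((N : ℝ) + 1)) := by positivity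
    nlinarith
  refine e6.trans ?_
  rw [← Real.rpow_add (by norm_num), ← Real.rpow_add (by norm_num), ← Real.rpow_add (by norm_num)]
  refine Real.rpow_le_rpow_of_exponent_le (by norm_num) ?_
  nlinarith

/-- **One point.** For given `S'` the structure `gdel v g` is `GoodP` for `S'` at scale `n+1` with slack `1 ≤ 2`: at most `3 exp(θ n)` of them (`card_good`), and 3 values `g v`.
For given `g`: `S` is determined by `(dD v S, dU v S)` (`del_injective`), a pair that is standard (`typ_std`; the images under `v.succAbove`) of type 0 with `|Y| ≥ (n+1)/8` or of type 4 with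
`|X| ≥ (n+1)/8`: at most `2 (m²) 2^(|X|)`, `|X| ≤ n + 1 - |M| - |Y| ≤ (3/8 + τ)(n+1)`, resp. `2^(|Y|)`; `m ≤ exp(θ n)` (`card_small`). All constants small: `≤ 2^(0.39 n)`. -/
theorem ext_one : ∃ τ0 : ℝ, 0 < τ0 ∧ ∀ τ : ℝ, 0 < τ → τ ≤ τ0 → ∀ ε : ℝ, 0 < ε →
    ε ≤ τ ^ 2 / 100 → ExtOne τ ε := by
  classical
  obtain ⟨τ1, hτ1, H1⟩ := card_good (θ := 1 / 1000) (by norm_num)
  obtain ⟨ξ, hξ, H2⟩ := card_small (θ := 1 / 1000) (by norm_num)
  refine ⟨min τ1 (min (ξ / 3) (1 / 1000)), by positivity, fun τ hτ hτ0 ε hε hετ => ?_⟩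
  have a1 : τ ≤ τ1 := hτ0.trans (min_le_left _ _)
  have a2 : τ ≤ ξ / 3 := hτ0.trans ((min_le_right _ _).trans (min_le_left _ _))
  have a3 : τ ≤ 1 / 1000 := hτ0.trans ((min_le_right _ _).trans (min_le_right _ _))
  obtain ⟨n1, H1⟩ := H1 τ hτ a1 ε hε hετ
  obtain ⟨ν0, hν0, H3⟩ := typ_std hτ (by linarith) hε hετ
  refine ⟨max n1 (max ⌈ν0⌉₊ 2000), fun n hn v S' => ?_⟩
  have hn1 : n1 ≤ n := (le_max_left _ _).trans hn
  have hn2 : ⌈ν0⌉₊ ≤ n := ((le_max_left _ _).trans (le_max_right _ _)).trans hn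
  have hn3 : 2000 ≤ n := ((le_max_right _ _).trans (le_max_right _ _)).trans hn
  have hν : ν0 ≤ ((n + 1 : ℕ) : ℝ) := by
    have h1 : ν0 ≤ (n : ℝ) := (Nat.le_ceil ν0).trans (by exact_mod_cast hn2)
    push_cast
    linarith
  set ν : ℝ := ((n + 1 : ℕ) : ℝ) with hνdef
  have hνn : ν = (n : ℝ) + 1 := by rw [hνdef]; push_cast; ring
  -- the small sets
  set m : ℕ := ((univ : Finset (Finset (Fin (n + 1)))).filter fun A =>
    (A.card : ℝ) ≤ 3 * τ * ν).card with hmdef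
  have hm : (m : ℝ) ≤ exp (1 / 1000 * ((n : ℝ) + 1)) := by
    have h1 := H2 (n + 1)
    have h2 : m ≤ ((univ : Finset (Finset (Fin (n + 1)))).filter fun A =>
        (A.card : ℝ) ≤ ξ * ((n + 1 : ℕ) : ℝ)).card := by
      refine card_le_card (fun A hA => ?_)
      rw [mem_filter] at hA ⊢
      refine ⟨hA.1, hA.2.trans ?_⟩
      rw [← hνdef]
      have h3 : 0 ≤ ν := by rw [hνn]; positivity
      have h4 : 3 * τ ≤ ξ := by linarith
      exact mul_le_mul_of_nonneg_right h4 h3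
    refine le_trans (by exact_mod_cast h2) (h1.trans_eq ?_)
    rw [← hνdef, hνn]
  -- the structures
  set G : Finset (Fin (n + 1) → Fin 3) := univ.filter fun g =>
    GoodP ν ε τ 2 S' (gdel v g) with hGdef
  set G' : Finset (Fin n → Fin 3) := univ.filter fun g => GoodP ν ε τ 2 S' g with hG'def
  have hGG : G.card ≤ G'.card * 3 := WExt1_gcount v S'
  have hG' : (G'.card : ℝ) ≤ 3 * exp (1 / 1000 * n) :=
    H1 n hn1 ν (by rw [hνn]; linarith) (by rw [hνn]; linarith) S'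
  -- the sets for one structure
  let C : Fin 5 → Fin 3 → (Fin (n + 1) → Fin 3) →
      Finset (Finset (Fin (n + 1) × Fin (n + 1))) := fun t i g =>
    univ.filter fun S => IsPO S ∧ del v S = S' ∧ GoodP ν ε τ 0 S g ∧
      (typv (τ * ν) g S v = t ∧ ν / 8 ≤ (cl g i).card)
  have hC : ∀ g t i, ((t = 0 ∧ i = 2) ∨ (t = 4 ∧ i = 0)) → ((C t i g).card : ℝ) ≤
      (m : ℝ) ^ 2 * (2 : ℝ) ^ ((3 / 8 + τ) * ((n : ℝ) + 1)) := by
    intro g t i hti
    rcases (C t i g).eq_empty_or_nonempty with h0 | ⟨S₀, hS₀⟩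
    · rw [h0, card_empty]
      push_cast
      positivity
    · have hK : ((((FD g t).card + (FU g t).card : ℕ)) : ℝ) ≤
          (3 / 8 + τ) * ((n : ℝ) + 1) := by
        have hg := (mem_filter.1 hS₀).2.2.2.1.mid
        have hY := (mem_filter.1 hS₀).2.2.2.2.2
        rw [add_zero, abs_le] at hg
        have hs := WExt2_cl_sum g
        have hs' : ((cl g 0).card : ℝ) + (cl g 1).card + (cl g 2).card = ν := by
          rw [hνdef]
          exact_mod_cast hs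
        rw [← hνn]
        rcases hti with ⟨rfl, rfl⟩ | ⟨rfl, rfl⟩
        · have e : (FD g 0).card + (FU g 0).card = (cl g 0).card := by simp [FD, FU]
          rw [e]
          nlinarith [hg.1, hg.2]
        · have e : (FD g 4).card + (FU g 4).card = (cl g 2).card := by simp [FD, FU]
          rw [e]
          nlinarith [hg.1, hg.2]
      have hc := WExt1_count (r := 3 * τ * ν) (r' := τ * ν) g v t (C t i g)
        (fun S hS T hT hST => by
          have hS' := (mem_filter.1 (mem_coe.1 hS)).2.2.1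
          have hT' := (mem_filter.1 (mem_coe.1 hT)).2.2.1
          rw [Prod.mk.injEq] at hST
          exact WExt1_inj v (hS'.trans hT'.symm) hST.1 hST.2)
        (fun S hS => H3 ν hν 0 (by norm_num) _ S g (mem_filter.1 hS).2.1
          (mem_filter.1 hS).2.2.2.1 v)
        (fun S hS => (mem_filter.1 hS).2.2.2.2.1) m le_rfl
      have hc' : ((C t i g).card : ℝ) ≤
          (m : ℝ) ^ 2 * (2 : ℝ) ^ ((FD g t).card + (FU g t).card) := by
        exact_mod_cast hc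
      refine hc'.trans ?_
      have h3 : (2 : ℝ) ^ ((FD g t).card + (FU g t).card) ≤
          (2 : ℝ) ^ ((3 / 8 + τ) * ((n : ℝ) + 1)) := by
        rw [← Real.rpow_natCast]
        exact Real.rpow_le_rpow_of_exponent_le (by norm_num) hK
      gcongr
  -- the union
  have hsub : {S : Finset (Fin (n + 1) × Fin (n + 1)) |
      IsPO S ∧ del v S = S' ∧ ∃ g : Fin (n + 1) → Fin 3, GoodP (n + 1 : ℕ) ε τ 0 S g ∧
        E1 (n + 1 : ℕ) (τ * (n + 1 : ℕ)) g S v} ⊆
      ((G.biUnion fun g => C 0 2 g ∪ C 4 0 g :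
        Finset (Finset (Fin (n + 1) × Fin (n + 1)))) : Set _) := by
    rintro S ⟨h1, h2, g, hg, hE⟩
    rw [mem_coe, mem_biUnion]
    refine ⟨g, ?_, ?_⟩
    · rw [hGdef, mem_filter]
      refine ⟨mem_univ _, ?_⟩
      have k1 := good_del v hg
      rw [h2] at k1
      exact k1.mono_s (by norm_num)
    · rw [mem_union]
      rcases hE with hE | hE
      · exact Or.inl (mem_filter.2 ⟨mem_univ _, h1, h2, hg, hE⟩)
      · exact Or.inr (mem_filter.2 ⟨mem_univ _, h1, h2, hg, hE⟩)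
  have hcard := Set.ncard_le_ncard hsub (Finset.finite_toSet _)
  rw [Set.ncard_coe_finset] at hcard
  have hbi : ((G.biUnion fun g => C 0 2 g ∪ C 4 0 g :
      Finset (Finset (Fin (n + 1) × Fin (n + 1)))).card : ℝ) ≤
      G.card * (2 * ((m : ℝ) ^ 2 * (2 : ℝ) ^ ((3 / 8 + τ) * ((n : ℝ) + 1)))) := by
    calc ((G.biUnion fun g => C 0 2 g ∪ C 4 0 g :
      Finset (Finset (Fin (n + 1) × Fin (n + 1)))).card : ℝ)
        ≤ ((∑ g ∈ G, (C 0 2 g ∪ C 4 0 g).card : ℕ) : ℝ) := by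
          exact_mod_cast card_biUnion_le
      _ = ∑ g ∈ G, ((C 0 2 g ∪ C 4 0 g).card : ℝ) := by
          push_cast; rfl
      _ ≤ ∑ _g ∈ G, (2 * ((m : ℝ) ^ 2 * (2 : ℝ) ^ ((3 / 8 + τ) * ((n : ℝ) + 1)))) := by
          refine sum_le_sum (fun g _ => ?_)
          have h1 : ((C 0 2 g ∪ C 4 0 g).card : ℝ) ≤ (C 0 2 g).card + (C 4 0 g).card := by
            exact_mod_cast card_union_le _ _
          linarith [hC g 0 2 (Or.inl ⟨rfl, rfl⟩), hC g 4 0 (Or.inr ⟨rfl, rfl⟩)]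
      _ = _ := by rw [sum_const, nsmul_eq_mul]
  have hGG' : (G.card : ℝ) ≤ G'.card * 3 := by exact_mod_cast hGG
  calc _ ≤ ((G.biUnion fun g => C 0 2 g ∪ C 4 0 g :
      Finset (Finset (Fin (n + 1) × Fin (n + 1)))).card : ℝ) := by exact_mod_cast hcard
    _ ≤ G.card * (2 * ((m : ℝ) ^ 2 * (2 : ℝ) ^ ((3 / 8 + τ) * ((n : ℝ) + 1)))) := hbi
    _ ≤ (G'.card * 3) * (2 * ((m : ℝ) ^ 2 * (2 : ℝ) ^ ((3 / 8 + τ) * ((n : ℝ) + 1)))) :=
        mul_le_mul_of_nonneg_right hGG' (by positivity)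
    _ ≤ _ := WExt1_num hn3 a3 (by positivity) hG' hm

end Pool.Agent.H.MP_82502e_co
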