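import Pool.Agent.H.MP_82502e_co.WGood

set_option autoImplicit false

/-!
# The window: types of points
-/

namespace Pool.Agent.H.MP_82502e_co

open Finset

variable {n : ℕ}

theorem WTyp_fin3 (a : Fin 3) : a = 0 ∨ a = 1 ∨ a = 2 := by
  fin_cases a <;> simp

theorem WTyp_mem_cl {g : Fin n → Fin 3} {i : Fin 3} {x : Fin n} : x ∈ cl g i ↔ g x = i := by
  unfold cl
  simp

theorem WTyp_prod {S : Finset (Fin n × Fin n)} (hS : IsPO S) {v a b : Fin n}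
    (ha : a ∈ Dn S v) (hb : b ∈ Up S v) : (a, b) ∈ S :=
  hS.2 a v b (mem_Dn.1 ha) (mem_Up.1 hb)

theorem WTyp_up {S : Finset (Fin n × Fin n)} (hS : IsPO S) {v a b : Fin n}
    (ha : a ∈ Up S v) (hab : (a, b) ∈ S) : b ∈ Up S v :=
  mem_Up.2 (hS.2 v a b (mem_Up.1 ha) hab)

theorem WTyp_dn {S : Finset (Fin n × Fin n)} (hS : IsPO S) {v a b : Fin n}
    (ha : a ∈ Dn S v) (hab : (b, a) ∈ S) : b ∈ Dn S v :=
  mem_Dn.2 (hS.2 b a v hab (mem_Dn.1 ha))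

theorem WTyp_def {ν ε τ s : ℝ} {S : Finset (Fin n × Fin n)} {g : Fin n → Fin 3}
    (G : GoodP ν ε τ s S g) (A B : Finset (Fin n))
    (h : ∀ a ∈ A, ∀ b ∈ B, (a, b) ∈ S ∧ g b ≤ g a) : (A.card : ℝ) * B.card ≤ ε * ν ^ 2 := by
  have h1 : A ×ˢ B ⊆ S.filter fun p => g p.2 ≤ g p.1 := by
    intro p hp
    rw [mem_product] at hp
    exact mem_filter.2 (h p.1 hp.1 p.2 hp.2)
  have h2 := card_le_card h1
  rw [card_product] at h2
  have h3 : ((A.card * B.card : ℕ) : ℝ) ≤ ((S.filter fun p => g p.2 ≤ g p.1).card : ℝ) := by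
    exact_mod_cast h2
  push_cast at h3
  exact h3.trans G.d1

section N

variable {ν ε τ s : ℝ} {S : Finset (Fin n × Fin n)} {g : Fin n → Fin 3}

theorem WTyp_n1 (hε : 0 < ε) (G : GoodP ν ε τ s S g) {A B : Finset (Fin n)} (hA : A ⊆ cl g 0)
    (hB : B ⊆ cl g 1) (h : ∀ a ∈ A, ∀ b ∈ B, (a, b) ∉ S) (hb : τ * ν ≤ B.card) :
    (A.card : ℝ) < τ * ν := by
  by_contra hc
  push Not at hc
  have h1 := (G.c1 A hA B hB hc hb).1
  have h2 : S ∩ A ×ˢ B = ∅ := by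
    rw [Finset.eq_empty_iff_forall_notMem]
    intro p hp
    rw [mem_inter, mem_product] at hp
    exact h p.1 hp.2.1 p.2 hp.2.2 hp.1
  rw [h2] at h1
  have : 0 ≤ 3 * ε * ν ^ 2 := by positivity
  simp at h1
  linarith

theorem WTyp_n1' (hε : 0 < ε) (G : GoodP ν ε τ s S g) {A B : Finset (Fin n)} (hA : A ⊆ cl g 0)
    (hB : B ⊆ cl g 1) (h : ∀ a ∈ A, ∀ b ∈ B, (a, b) ∉ S) (ha : τ * ν ≤ A.card) :
    (B.card : ℝ) < τ * ν := by
  by_contra hc
  push Not at hc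
  exact absurd (WTyp_n1 hε G hA hB h hc) (not_lt.2 ha)

theorem WTyp_n2 (hε : 0 < ε) (G : GoodP ν ε τ s S g) {A B : Finset (Fin n)} (hA : A ⊆ cl g 0)
    (hB : B ⊆ cl g 1) (h : ∀ a ∈ A, ∀ b ∈ B, (a, b) ∈ S) (hb : τ * ν ≤ B.card) :
    (A.card : ℝ) < τ * ν := by
  by_contra hc
  push Not at hc
  have h1 := (G.c1 A hA B hB hc hb).2
  have h2 : (A ×ˢ B) \ S = ∅ := by
    rw [Finset.eq_empty_iff_forall_notMem]
    intro p hp
    rw [mem_sdiff, mem_product] at hp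
    exact hp.2 (h p.1 hp.1.1 p.2 hp.1.2)
  rw [h2] at h1
  have : 0 ≤ 3 * ε * ν ^ 2 := by positivity
  simp at h1
  linarith

theorem WTyp_n3 (hε : 0 < ε) (G : GoodP ν ε τ s S g) {A B : Finset (Fin n)} (hA : A ⊆ cl g 2)
    (hB : B ⊆ cl g 1) (h : ∀ a ∈ A, ∀ b ∈ B, (b, a) ∉ S) (hb : τ * ν ≤ B.card) :
    (A.card : ℝ) < τ * ν := by
  by_contra hc
  push Not at hc
  have h1 := (G.c2 A hA B hB hc hb).1
  have h2 : S ∩ B ×ˢ A = ∅ := by
    rw [Finset.eq_empty_iff_forall_notMem]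
    intro p hp
    rw [mem_inter, mem_product] at hp
    exact h p.2 hp.2.2 p.1 hp.2.1 hp.1
  rw [h2] at h1
  have : 0 ≤ 3 * ε * ν ^ 2 := by positivity
  simp at h1
  linarith

theorem WTyp_n3' (hε : 0 < ε) (G : GoodP ν ε τ s S g) {A B : Finset (Fin n)} (hA : A ⊆ cl g 2)
    (hB : B ⊆ cl g 1) (h : ∀ a ∈ A, ∀ b ∈ B, (b, a) ∉ S) (ha : τ * ν ≤ A.card) :
    (B.card : ℝ) < τ * ν := by
  by_contra hc
  push Not at hc
  exact absurd (WTyp_n3 hε G hA hB h hc) (not_lt.2 ha)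

theorem WTyp_n4 (hε : 0 < ε) (G : GoodP ν ε τ s S g) {A B : Finset (Fin n)} (hA : A ⊆ cl g 2)
    (hB : B ⊆ cl g 1) (h : ∀ a ∈ A, ∀ b ∈ B, (b, a) ∈ S) (hb : τ * ν ≤ B.card) :
    (A.card : ℝ) < τ * ν := by
  by_contra hc
  push Not at hc
  have h1 := (G.c2 A hA B hB hc hb).2
  have h2 : (B ×ˢ A) \ S = ∅ := by
    rw [Finset.eq_empty_iff_forall_notMem]
    intro p hp
    rw [mem_sdiff, mem_product] at hp
    exact hp.2 (h p.2 hp.1.2 p.1 hp.1.1)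
  rw [h2] at h1
  have : 0 ≤ 3 * ε * ν ^ 2 := by positivity
  simp at h1
  linarith

end N

/-- the size of a set of defects partners. -/
theorem WTyp_small {τ ε ν a b : ℝ} (hτ : 0 < τ) (hετ : ε ≤ τ ^ 2 / 100) (hν : 0 < ν)
    (h : a * b ≤ ε * ν ^ 2) (ha : 0 ≤ a) (hb : τ * ν ≤ b) : a ≤ τ * ν / 100 := by
  have h1 : 0 < τ * ν := mul_pos hτ hν
  have h2 : ε * ν ^ 2 ≤ τ ^ 2 / 100 * ν ^ 2 := by nlinarith [sq_nonneg ν]
  have h3 : a * (τ * ν) ≤ (τ * ν / 100) * (τ * ν) := by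
    calc a * (τ * ν) ≤ a * b := mul_le_mul_of_nonneg_left hb ha
      _ ≤ ε * ν ^ 2 := h
      _ ≤ τ ^ 2 / 100 * ν ^ 2 := h2
      _ = (τ * ν / 100) * (τ * ν) := by ring
  exact le_of_mul_le_mul_right h3 h1

/-- all facts about a point. -/
theorem WTyp_facts {τ : ℝ} (hτ : 0 < τ) (hτ1 : τ ≤ 1 / 100) {ε : ℝ} (hε : 0 < ε)
    (hετ : ε ≤ τ ^ 2 / 100) {ν : ℝ} (hν : 5 ≤ ν) {s : ℝ} (hs : s ≤ 2) {n : ℕ}
    {S : Finset (Fin n × Fin n)} {g : Fin n → Fin 3} (hS : IsPO S) (G : GoodP ν ε τ s S g)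
    (v : Fin n) :
    (τ * ν ≤ ((Up S v ∩ cl g 0).card : ℝ) → ((cl g 1 \ Up S v).card : ℝ) < τ * ν ∧
      ((cl g 2 \ Up S v).card : ℝ) < τ * ν ∧ ((Dn S v).card : ℝ) ≤ τ * ν / 100) ∧
    (τ * ν ≤ ((Dn S v ∩ cl g 2).card : ℝ) → ((cl g 1 \ Dn S v).card : ℝ) < τ * ν ∧
      ((cl g 0 \ Dn S v).card : ℝ) < τ * ν ∧ ((Up S v).card : ℝ) ≤ τ * ν / 100) ∧
    (τ * ν ≤ ((Up S v ∩ cl g 1).card : ℝ) → ((Dn S v ∩ cl g 0).card : ℝ) < τ * ν ∧
      ((Dn S v ∩ (cl g 1 ∪ cl g 2)).card : ℝ) ≤ τ * ν / 100 ∧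
      ((cl g 2 \ Up S v).card : ℝ) < τ * ν) ∧
    (τ * ν ≤ ((Dn S v ∩ cl g 1).card : ℝ) → ((Up S v ∩ cl g 2).card : ℝ) < τ * ν ∧
      ((Up S v ∩ (cl g 0 ∪ cl g 1)).card : ℝ) ≤ τ * ν / 100 ∧
      ((cl g 0 \ Dn S v).card : ℝ) < τ * ν) := by
  have hν0 : 0 < ν := by linarith
  have hr : 0 < τ * ν := mul_pos hτ hν0
  have hM : ν / 2 - τ * ν - 2 ≤ ((cl g 1).card : ℝ) := by
    have h1 := (abs_le.1 G.mid).1
    linarith
  have hMbig : 2 * (τ * ν) ≤ ν / 2 - τ * ν - 2 := by nlinarith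
  -- facts with U ∩ M large
  have f3 : τ * ν ≤ ((Up S v ∩ cl g 1).card : ℝ) → ((Dn S v ∩ cl g 0).card : ℝ) < τ * ν ∧
      ((Dn S v ∩ (cl g 1 ∪ cl g 2)).card : ℝ) ≤ τ * ν / 100 ∧
      ((cl g 2 \ Up S v).card : ℝ) < τ * ν := by
    intro h
    refine ⟨?_, ?_, ?_⟩
    · refine WTyp_n2 hε G inter_subset_right inter_subset_right ?_ h
      intro a ha b hb
      exact WTyp_prod hS (mem_inter.1 ha).1 (mem_inter.1 hb).1
    · refine WTyp_small hτ hετ hν0 (WTyp_def G _ (Up S v ∩ cl g 1) ?_) (Nat.cast_nonneg _) h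
      intro a ha b hb
      rw [mem_inter, mem_union, WTyp_mem_cl, WTyp_mem_cl] at ha
      rw [mem_inter, WTyp_mem_cl] at hb
      refine ⟨WTyp_prod hS ha.1 hb.1, ?_⟩
      rw [hb.2]
      rcases ha.2 with h | h <;> rw [h]
      decide
    · refine WTyp_n3 hε G sdiff_subset inter_subset_right ?_ h
      intro a ha b hb hc
      exact (mem_sdiff.1 ha).2 (WTyp_up hS (mem_inter.1 hb).1 hc)
  have f4 : τ * ν ≤ ((Dn S v ∩ cl g 1).card : ℝ) → ((Up S v ∩ cl g 2).card : ℝ) < τ * ν ∧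
      ((Up S v ∩ (cl g 0 ∪ cl g 1)).card : ℝ) ≤ τ * ν / 100 ∧
      ((cl g 0 \ Dn S v).card : ℝ) < τ * ν := by
    intro h
    refine ⟨?_, ?_, ?_⟩
    · refine WTyp_n4 hε G inter_subset_right inter_subset_right ?_ h
      intro a ha b hb
      exact WTyp_prod hS (mem_inter.1 hb).1 (mem_inter.1 ha).1
    · have h2 := WTyp_def G (Dn S v ∩ cl g 1) (Up S v ∩ (cl g 0 ∪ cl g 1)) (by
        intro a ha b hb
        rw [mem_inter, mem_union, WTyp_mem_cl, WTyp_mem_cl] at hb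
        rw [mem_inter, WTyp_mem_cl] at ha
        refine ⟨WTyp_prod hS ha.1 hb.1, ?_⟩
        rw [ha.2]
        rcases hb.2 with h | h <;> rw [h]
        decide)
      rw [mul_comm] at h2
      exact WTyp_small hτ hετ hν0 h2 (Nat.cast_nonneg _) h
    · refine WTyp_n1 hε G sdiff_subset inter_subset_right ?_ h
      intro a ha b hb hc
      exact (mem_sdiff.1 ha).2 (WTyp_dn hS (mem_inter.1 hb).1 hc)
  refine ⟨?_, ?_, f3, f4⟩
  · intro h
    have h1 : ((cl g 1 \ Up S v).card : ℝ) < τ * ν := by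
      refine WTyp_n1' hε G (A := Up S v ∩ cl g 0) inter_subset_right sdiff_subset ?_ h
      intro a ha b hb hc
      exact (mem_sdiff.1 hb).2 (WTyp_up hS (mem_inter.1 ha).1 hc)
    have h2 : τ * ν ≤ ((Up S v ∩ cl g 1).card : ℝ) := by
      have h3 := card_sdiff_add_card_inter (cl g 1) (Up S v)
      have h4 : ((cl g 1 \ Up S v).card : ℝ) + ((cl g 1 ∩ Up S v).card : ℝ) =
        ((cl g 1).card : ℝ) := by exact_mod_cast h3
      rw [inter_comm] at h4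
      linarith
    refine ⟨h1, (f3 h2).2.2, ?_⟩
    refine WTyp_small hτ hετ hν0 (WTyp_def G _ (Up S v ∩ cl g 0) ?_) (Nat.cast_nonneg _) h
    intro a ha b hb
    rw [mem_inter, WTyp_mem_cl] at hb
    refine ⟨WTyp_prod hS ha hb.1, ?_⟩
    rw [hb.2]
    exact Fin.zero_le _
  · intro h
    have h1 : ((cl g 1 \ Dn S v).card : ℝ) < τ * ν := by
      refine WTyp_n3' hε G (A := Dn S v ∩ cl g 2) inter_subset_right sdiff_subset ?_ h
      intro a ha b hb hc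
      exact (mem_sdiff.1 hb).2 (WTyp_dn hS (mem_inter.1 ha).1 hc)
    have h2 : τ * ν ≤ ((Dn S v ∩ cl g 1).card : ℝ) := by
      have h3 := card_sdiff_add_card_inter (cl g 1) (Dn S v)
      have h4 : ((cl g 1 \ Dn S v).card : ℝ) + ((cl g 1 ∩ Dn S v).card : ℝ) =
        ((cl g 1).card : ℝ) := by exact_mod_cast h3
      rw [inter_comm] at h4
      linarith
    refine ⟨h1, (f4 h2).2.2, ?_⟩
    have h3 := WTyp_def G (Dn S v ∩ cl g 2) (Up S v) (by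
      intro a ha b hb
      rw [mem_inter, WTyp_mem_cl] at ha
      refine ⟨WTyp_prod hS ha.1 hb, ?_⟩
      rw [ha.2]
      exact Fin.le_last _)
    rw [mul_comm] at h3
    exact WTyp_small hτ hετ hν0 h3 (Nat.cast_nonneg _) h

theorem WTyp_card2 {A B C : Finset (Fin n)} (h : A ⊆ B ∪ C) :
    (A.card : ℝ) ≤ B.card + C.card := by
  have h1 := (card_le_card h).trans (card_union_le B C)
  exact_mod_cast h1

/-- **Every point is standard.** (`ε ≤ τ²/100`, `τ ≤ 1/100`, `ν` large, slack at most `2`.)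
Proof. `D = Dn S v`, `U = Up S v`, `D × U ⊆ S`, `D` is a down-set, `U` an up-set. A pair `(d,u) ∈ D × U` with `g u ≤ g d` is counted in `d1`.
Type 0 (`|U ∩ X| ≥ τν`): all pairs of `D × (U ∩ X)` are counted in `d1`, so `|D| ≤ (ε/τ)ν ≤ 3τν`; no relation from `U ∩ X` to `M \ U`, so `c1` gives `|M \ U| < τν`; hence
`|U ∩ M| ≥ τν` and `c2` (no relation from `U ∩ M` to `Y \ U`) gives `|Y \ U| < τν`.
Type 4: dual (use `D ∩ Y`): `|U| ≤ (ε/τ)ν`, `|M \ D| < τν`, `|X \ D| < τν`.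
Type 1 (`|U ∩ M| ≥ τν`, `|U ∩ X| < τν`): `|D ∩ (M ∪ Y)| ≤ (ε/τ)ν` (`d1`), `|D ∩ X| < τν` (`c1` upper part: `(D ∩ X) × (U ∩ M) ⊆ S`), `|Y \ U| < τν` (`c2`).
Type 3: dual. Type 2: all of `U ∩ X`, `D ∩ Y`, `U ∩ M`, `D ∩ M` have fewer than `τν` points. -/
theorem typ_std {τ : ℝ} (hτ : 0 < τ) (hτ1 : τ ≤ 1 / 100) {ε : ℝ} (hε : 0 < ε)
    (hετ : ε ≤ τ ^ 2 / 100) : ∃ ν0 : ℝ, 0 < ν0 ∧ ∀ ν : ℝ, ν0 ≤ ν → ∀ s : ℝ, s ≤ 2 → ∀ (n : ℕ)
    (S : Finset (Fin n × Fin n)) (g : Fin n → Fin 3), IsPO S → GoodP ν ε τ s S g → ∀ v : Fin n,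
    StdP (3 * τ * ν) g (typv (τ * ν) g S v) (Dn S v) (Up S v) := by
  refine ⟨5, by norm_num, ?_⟩
  intro ν hν s hs n S g hS G v
  have hν0 : 0 < ν := by linarith
  have hr : 0 < τ * ν := mul_pos hτ hν0
  obtain ⟨F1, F2, F3, F4⟩ := WTyp_facts hτ hτ1 hε hετ hν hs hS G v
  set D := Dn S v with hD
  set U := Up S v with hU
  unfold typv typ
  rw [← hD, ← hU]
  split_ifs with h0 h4 h1 h3
  · obtain ⟨a, b, c⟩ := F1 h0
    constructor
    · have e : symmDiff D (D0 g 0) \ FD g 0 ⊆ D := by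
        intro x hx
        simp [D0, FD, mem_symmDiff] at hx
        exact hx
      have := card_le_card e
      have h5 : ((symmDiff D (D0 g 0) \ FD g 0).card : ℝ) ≤ D.card := by exact_mod_cast this
      linarith
    · have e : symmDiff U (U0 g 0) \ FU g 0 ⊆ (cl g 1 \ U) ∪ (cl g 2 \ U) := by
        intro x hx
        simp only [U0, FU, mem_symmDiff, mem_sdiff, mem_union, Matrix.cons_val_zero,
          WTyp_mem_cl] at hx ⊢
        rcases WTyp_fin3 (g x) with h | h | h <;> simp_all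
      have h5 := WTyp_card2 e
      linarith
  · obtain ⟨a, b, c⟩ := F2 h4
    constructor
    · have e : symmDiff D (D0 g 4) \ FD g 4 ⊆ (cl g 1 \ D) ∪ (cl g 0 \ D) := by
        intro x hx
        simp only [D0, FD, mem_symmDiff, mem_sdiff, mem_union, 
          WTyp_mem_cl, Matrix.cons_val] at hx ⊢
        rcases WTyp_fin3 (g x) with h | h | h <;> simp_all
      have h5 := WTyp_card2 e
      linarith
    · have e : symmDiff U (U0 g 4) \ FU g 4 ⊆ U := by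
        intro x hx
        simp [U0, FU, mem_symmDiff] at hx
        exact hx
      have := card_le_card e
      have h5 : ((symmDiff U (U0 g 4) \ FU g 4).card : ℝ) ≤ U.card := by exact_mod_cast this
      linarith
  · obtain ⟨a, b, c⟩ := F3 h1
    push Not at h0 h4
    constructor
    · have e : symmDiff D (D0 g 1) \ FD g 1 ⊆ (D ∩ cl g 0) ∪ (D ∩ (cl g 1 ∪ cl g 2)) := by
        intro x hx
        simp only [D0, FD, mem_symmDiff, mem_sdiff, mem_union, mem_inter,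
          WTyp_mem_cl, Matrix.cons_val] at hx ⊢
        rcases WTyp_fin3 (g x) with h | h | h <;> simp_all
      have h5 := WTyp_card2 e
      linarith
    · have e : symmDiff U (U0 g 1) \ FU g 1 ⊆ (U ∩ cl g 0) ∪ (cl g 2 \ U) := by
        intro x hx
        simp only [U0, FU, mem_symmDiff, mem_sdiff, mem_union, mem_inter,
          WTyp_mem_cl, Matrix.cons_val] at hx ⊢
        rcases WTyp_fin3 (g x) with h | h | h <;> simp_all
      have h5 := WTyp_card2 e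
      linarith
  · obtain ⟨a, b, c⟩ := F4 h3
    push Not at h0 h4 h1
    constructor
    · have e : symmDiff D (D0 g 3) \ FD g 3 ⊆ (D ∩ cl g 2) ∪ (cl g 0 \ D) := by
        intro x hx
        simp only [D0, FD, mem_symmDiff, mem_sdiff, mem_union, mem_inter,
          WTyp_mem_cl, Matrix.cons_val] at hx ⊢
        rcases WTyp_fin3 (g x) with h | h | h <;> simp_all
      have h5 := WTyp_card2 e
      linarith
    · have e : symmDiff U (U0 g 3) \ FU g 3 ⊆ (U ∩ cl g 2) ∪ (U ∩ (cl g 0 ∪ cl g 1)) := by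
        intro x hx
        simp only [U0, FU, mem_symmDiff, mem_sdiff, mem_union, mem_inter,
          WTyp_mem_cl, Matrix.cons_val] at hx ⊢
        rcases WTyp_fin3 (g x) with h | h | h <;> simp_all
      have h5 := WTyp_card2 e
      linarith
  · push Not at h0 h4 h1 h3
    constructor
    · have e : symmDiff D (D0 g 2) \ FD g 2 ⊆ (D ∩ cl g 1) ∪ (D ∩ cl g 2) := by
        intro x hx
        simp only [D0, FD, mem_symmDiff, mem_sdiff, mem_union, mem_inter,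
          WTyp_mem_cl, Matrix.cons_val] at hx ⊢
        rcases WTyp_fin3 (g x) with h | h | h <;> simp_all
      have h5 := WTyp_card2 e
      linarith
    · have e : symmDiff U (U0 g 2) \ FU g 2 ⊆ (U ∩ cl g 0) ∪ (U ∩ cl g 1) := by
        intro x hx
        simp only [U0, FU, mem_symmDiff, mem_sdiff, mem_union, mem_inter,
          WTyp_mem_cl, Matrix.cons_val] at hx ⊢
        rcases WTyp_fin3 (g x) with h | h | h <;> simp_all
      have h5 := WTyp_card2 e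
      linarith

/-- Further facts used for exactness, with the symbols of `typ_std`: type 0: `|M \ U| < τν`; type 4: `|M \ D| < τν`;
`|U ∩ X| ≥ τν` and `|D ∩ Y| ≥ τν` cannot both hold, `|U ∩ M| ≥ τν` and `|D ∩ M| ≥ τν` cannot both hold. -/
theorem typ_facts {τ : ℝ} (hτ : 0 < τ) (hτ1 : τ ≤ 1 / 100) {ε : ℝ} (hε : 0 < ε)
    (hετ : ε ≤ τ ^ 2 / 100) : ∃ ν0 : ℝ, 0 < ν0 ∧ ∀ ν : ℝ, ν0 ≤ ν → ∀ s : ℝ, s ≤ 2 → ∀ (n : ℕ)
    (S : Finset (Fin n × Fin n)) (g : Fin n → Fin 3), IsPO S → GoodP ν ε τ s S g → ∀ v : Fin n,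
    (τ * ν ≤ ((Up S v ∩ cl g 0).card : ℝ) → ((cl g 1 \ Up S v).card : ℝ) < τ * ν) ∧
    (τ * ν ≤ ((Dn S v ∩ cl g 2).card : ℝ) → ((cl g 1 \ Dn S v).card : ℝ) < τ * ν) ∧
    ¬ (τ * ν ≤ ((Up S v ∩ cl g 0).card : ℝ) ∧ τ * ν ≤ ((Dn S v ∩ cl g 2).card : ℝ)) ∧
    ¬ (τ * ν ≤ ((Up S v ∩ cl g 1).card : ℝ) ∧ τ * ν ≤ ((Dn S v ∩ cl g 1).card : ℝ)) := by
  refine ⟨5, by norm_num, ?_⟩
  intro ν hν s hs n S g hS G v
  have hν0 : 0 < ν := by linarith
  have hr : 0 < τ * ν := mul_pos hτ hν0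
  obtain ⟨F1, F2, F3, F4⟩ := WTyp_facts hτ hτ1 hε hετ hν hs hS G v
  refine ⟨fun h => (F1 h).1, fun h => (F2 h).1, ?_, ?_⟩
  · rintro ⟨h1, h2⟩
    have h3 := (F1 h1).2.2
    have h4 : ((Dn S v ∩ cl g 2).card : ℝ) ≤ (Dn S v).card := by
      exact_mod_cast card_le_card inter_subset_left
    linarith
  · rintro ⟨h1, h2⟩
    have h3 := (F3 h1).2.1
    have h4 : ((Dn S v ∩ cl g 1).card : ℝ) ≤ (Dn S v ∩ (cl g 1 ∪ cl g 2)).card := by
      exact_mod_cast card_le_card (inter_subset_inter_left subset_union_left)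
    linarith

end Pool.Agent.H.MP_82502e_co
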