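import Pool.Agent.H.MP_82502e_co.WUniq
import Pool.Agent.H.MP_82502e_co.Count

set_option autoImplicit false

/-!
# The window: counting structures
-/

namespace Pool.Agent.H.MP_82502e_co

open Finset Real

variable {n : ℕ}

/-- The choice of the parameter. -/
theorem WUniq2_par {θ : ℝ} (hθ : 0 < θ) : ∃ x : ℝ, 0 < x ∧ x ≤ 1 ∧ 2 * x + negMulLog x < θ := by
  have hcont : Continuous fun x : ℝ => 2 * x + negMulLog x :=
    (continuous_const.mul continuous_id).add continuous_negMulLog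
  have hev : ∀ᶠ x in nhds (0 : ℝ), 2 * x + negMulLog x < θ := by
    have h1 := hcont.tendsto 0
    simp only [negMulLog_zero, add_zero, mul_zero] at h1
    exact h1.eventually (gt_mem_nhds hθ)
  rw [Metric.eventually_nhds_iff] at hev
  obtain ⟨δ, hδ, hev⟩ := hev
  refine ⟨min (δ / 2) 1, lt_min (by linarith) one_pos, min_le_right _ _, hev ?_⟩
  rw [Real.dist_eq, sub_zero, abs_of_pos (lt_min (by linarith) one_pos)]
  exact lt_of_le_of_lt (min_le_left _ _) (by linarith)

/-- A bound for the number of objects of small weight. -/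
theorem WUniq2_count {ι : Type*} (F : Finset ι) (w : ι → ℕ) {x : ℝ} {m : ℕ} (hx0 : 0 < x)
    (hx1 : x ≤ 1) (hw : ∀ i ∈ F, (w i : ℝ) ≤ x * m) (hs : ∑ i ∈ F, x ^ w i ≤ exp (2 * x * m)) :
    (F.card : ℝ) ≤ exp ((2 * x + negMulLog x) * m) := by
  have hlog : log x ≤ 0 := log_nonpos hx0.le hx1
  have h1 : (F.card : ℝ) * exp (log x * (x * m)) ≤ ∑ i ∈ F, x ^ w i := by
    rw [← nsmul_eq_mul]
    refine Finset.card_nsmul_le_sum F (fun i => x ^ w i) _ ?_
    intro i hi
    have e : x ^ w i = exp (log x * w i) := by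
      rw [← rpow_natCast, rpow_def_of_pos hx0]
    rw [e]
    exact exp_le_exp.2 (mul_le_mul_of_nonpos_left (hw i hi) hlog)
  have e : exp ((2 * x + negMulLog x) * m) =
      exp (2 * x * m) / exp (log x * (x * m)) := by
    rw [← exp_sub]
    congr 1
    rw [negMulLog]
    ring
  rw [e, le_div_iff₀ (exp_pos _)]
  exact h1.trans hs

/-- The generating function of the distance. -/
theorem WUniq2_gen (h : Fin n → Fin 3) (x : ℝ) :
    ∑ g : Fin n → Fin 3, x ^ (univ.filter fun i => g i ≠ h i).card = (1 + 2 * x) ^ n := by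
  have h1 : ∀ g : Fin n → Fin 3, x ^ (univ.filter fun i => g i ≠ h i).card =
      ∏ i, if g i ≠ h i then x else 1 := by
    intro g
    rw [Finset.prod_ite, Finset.prod_const, Finset.prod_const_one, mul_one]
  have h2 : ∀ i : Fin n, ∑ c : Fin 3, (if c ≠ h i then x else 1) = 1 + 2 * x := by
    intro i
    generalize h i = a
    rw [Fin.sum_univ_three]
    fin_cases a <;> simp <;> ring
  rw [Finset.sum_congr rfl fun g _ => h1 g]
  have h3 := Finset.prod_univ_sum (fun _ : Fin n => (univ : Finset (Fin 3)))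
    (fun i c => if c ≠ h i then x else 1)
  rw [Fintype.piFinset_univ] at h3
  rw [← h3, Finset.prod_congr rfl fun i _ => h2 i, Finset.prod_const, card_univ, Fintype.card_fin]

/-- The number of functions near a given one: at most `exp(θ n)` if `ξ ≤ ξ0(θ)`: choose the set of at most `ξ n`
points (`Σ_{j ≤ ξ n} choose n j ≤ exp(θ n/2)`: as in `small_subsets`, `card` of the small subsets of `Fin n`) and the values (`3^(ξ n)`). -/
theorem card_near {θ : ℝ} (hθ : 0 < θ) : ∃ ξ : ℝ, 0 < ξ ∧ ∀ (n : ℕ) (h : Fin n → Fin 3),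
    (((univ : Finset (Fin n → Fin 3)).filter fun g =>
      ((univ.filter fun x => g x ≠ h x).card : ℝ) ≤ ξ * n).card : ℝ) ≤ exp (θ * n) := by
  obtain ⟨x, hx0, hx1, hx⟩ := WUniq2_par hθ
  refine ⟨x, hx0, fun n h => ?_⟩
  have h4 : ∑ g ∈ (univ : Finset (Fin n → Fin 3)).filter fun g =>
      ((univ.filter fun x => g x ≠ h x).card : ℝ) ≤ x * n,
      x ^ (univ.filter fun i => g i ≠ h i).card ≤ exp (2 * x * n) := by
    have h5 : ∑ g ∈ (univ : Finset (Fin n → Fin 3)).filter fun g =>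
        ((univ.filter fun x => g x ≠ h x).card : ℝ) ≤ x * n,
        x ^ (univ.filter fun i => g i ≠ h i).card ≤
        ∑ g : Fin n → Fin 3, x ^ (univ.filter fun i => g i ≠ h i).card :=
      Finset.sum_le_sum_of_subset_of_nonneg (Finset.subset_univ _)
        fun g _ _ => pow_nonneg hx0.le _
    refine h5.trans ?_
    rw [WUniq2_gen]
    have h3 : (1 + 2 * x) ^ n ≤ (exp (2 * x)) ^ n := by
      refine pow_le_pow_left₀ (by positivity) ?_ _
      rw [add_comm]
      exact add_one_le_exp _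
    refine h3.trans (le_of_eq ?_)
    rw [← exp_nat_mul]
    congr 1
    ring
  have h5 : ∀ g ∈ (univ : Finset (Fin n → Fin 3)).filter fun g =>
      ((univ.filter fun x => g x ≠ h x).card : ℝ) ≤ x * n,
      ((univ.filter fun x => g x ≠ h x).card : ℝ) ≤ x * n := fun g hg => (mem_filter.1 hg).2
  have h6 := WUniq2_count _ _ hx0 hx1 h5 h4
  exact h6.trans (exp_le_exp.2 (mul_le_mul_of_nonneg_right hx.le (Nat.cast_nonneg n)))

/-- The number of small subsets of `Fin n`. -/
theorem card_small {θ : ℝ} (hθ : 0 < θ) : ∃ ξ : ℝ, 0 < ξ ∧ ∀ n : ℕ,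
    (((univ : Finset (Finset (Fin n))).filter fun A => (A.card : ℝ) ≤ ξ * n).card : ℝ) ≤
      exp (θ * n) := by
  obtain ⟨x, hx0, hx1, hx⟩ := WUniq2_par hθ
  refine ⟨x, hx0, fun n => ?_⟩
  refine (WUniq2_count _ (fun A : Finset (Fin n) => A.card) hx0 hx1
    (fun A hA => (mem_filter.1 hA).2) ?_).trans
    (exp_le_exp.2 (mul_le_mul_of_nonneg_right hx.le (Nat.cast_nonneg n)))
  refine (Finset.sum_le_sum_of_subset_of_nonneg (Finset.subset_univ _)
    fun g _ _ => by positivity).trans ?_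
  have hsum := Fintype.sum_pow_mul_eq_add_pow (Fin n) x 1
  simp only [one_pow, mul_one, Fintype.card_fin] at hsum
  rw [hsum]
  have h3 : (x + 1) ^ n ≤ (exp (2 * x)) ^ n := by
    refine pow_le_pow_left₀ (by positivity) ?_ _
    exact (add_le_add (by linarith : x ≤ 2 * x) le_rfl).trans (add_one_le_exp _)
  refine h3.trans (le_of_eq ?_)
  rw [← exp_nat_mul]
  congr 1
  ring

open scoped Classical in
/-- For a given `S` there are at most `3 exp(θ n)` structures: `uniq`, `card_near` (`12τν ≤ ξ n`, `τ` small). -/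
theorem card_good {θ : ℝ} (hθ : 0 < θ) : ∃ τ0 : ℝ, 0 < τ0 ∧ ∀ τ : ℝ, 0 < τ → τ ≤ τ0 →
    ∀ ε : ℝ, 0 < ε → ε ≤ τ ^ 2 / 100 → ∃ n0 : ℕ, ∀ n ≥ n0, ∀ ν : ℝ, ν - 2 ≤ n → (n : ℝ) ≤ ν →
    ∀ S : Finset (Fin n × Fin n),
    (((univ : Finset (Fin n → Fin 3)).filter fun g => GoodP ν ε τ 2 S g).card : ℝ) ≤
      3 * exp (θ * n) := by
  obtain ⟨ξ, hξ, hcard⟩ := card_near hθ
  refine ⟨min (1 / 100) (ξ / 36), lt_min (by norm_num) (by positivity), ?_⟩
  intro τ hτ hτ0 ε hε hετ
  have hτ1 : τ ≤ 1 / 100 := hτ0.trans (min_le_left _ _)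
  have hτ2 : τ ≤ ξ / 36 := hτ0.trans (min_le_right _ _)
  obtain ⟨ν0, -, huniq⟩ := uniq hτ hτ1 hε hετ
  refine ⟨max 1 ⌈ν0⌉₊, ?_⟩
  intro n hn ν hν1 hν2 S
  have hn1 : (1 : ℝ) ≤ n := by exact_mod_cast (le_max_left _ _).trans hn
  have hn2 : ν0 ≤ n := (Nat.le_ceil ν0).trans (by exact_mod_cast (le_max_right _ _).trans hn)
  have h12 : 12 * τ * ν ≤ ξ * n := by
    have h1 : ν ≤ 3 * n := by linarith
    have h2 : 12 * τ * ν ≤ 12 * τ * (3 * n) := mul_le_mul_of_nonneg_left h1 (by positivity)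
    have h3 : 12 * τ * (3 * n) ≤ 12 * (ξ / 36) * (3 * n) :=
      mul_le_mul_of_nonneg_right (mul_le_mul_of_nonneg_left hτ2 (by norm_num)) (by positivity)
    linarith
  obtain ⟨G, hG⟩ : ∃ G, G = (univ : Finset (Fin n → Fin 3)).filter
    fun g => GoodP ν ε τ 2 S g := ⟨_, rfl⟩
  rw [← hG]
  rcases G.eq_empty_or_nonempty with h0 | ⟨g, hg⟩
  · rw [h0]
    simp only [card_empty, Nat.cast_zero]
    positivity
  · obtain ⟨N, hN⟩ : ∃ N : (Fin n → Fin 3) → Finset (Fin n → Fin 3), N = fun h =>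
        (univ : Finset (Fin n → Fin 3)).filter fun g =>
          ((univ.filter fun x => g x ≠ h x).card : ℝ) ≤ ξ * n := ⟨_, rfl⟩
    have hN1 : ∀ h, ((N h).card : ℝ) ≤ exp (θ * n) := by
      intro h
      rw [hN]
      exact hcard n h
    have hsub : G ⊆ N g ∪ (N (gup g) ∪ N (gdn g)) := by
      intro g' hg'
      rw [hG, mem_filter] at hg hg'
      obtain ⟨h, hh, hle⟩ := huniq ν (hn2.trans hν2) n hν1 hν2 S g g' hg.2 hg'.2
      have hmem : g' ∈ N h := by
        rw [hN]
        exact mem_filter.2 ⟨mem_univ _, hle.trans h12⟩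
      rcases hh with rfl | rfl | rfl
      · exact mem_union_left _ hmem
      · exact mem_union_right _ (mem_union_left _ hmem)
      · exact mem_union_right _ (mem_union_right _ hmem)
    have h1 : G.card ≤ (N g).card + ((N (gup g)).card + (N (gdn g)).card) :=
      (card_le_card hsub).trans ((card_union_le _ _).trans
        (Nat.add_le_add_left (card_union_le _ _) _))
    have h2 : (G.card : ℝ) ≤ (N g).card + ((N (gup g)).card + (N (gdn g)).card) := by
      exact_mod_cast h1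
    linarith [hN1 g, hN1 (gup g), hN1 (gdn g)]

end Pool.Agent.H.MP_82502e_co
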