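import Pool.Agent.H.MP_82502e_co.WExtA
import Pool.Agent.H.MP_82502e_co.WTyp
import Pool.Agent.H.MP_82502e_co.WUniq2

set_option autoImplicit false

/-!
# The window: extensions by two points with an excluded event
-/

namespace Pool.Agent.H.MP_82502e_co

open Finset Real

variable {n : ℕ}

theorem WExt2_mem_Dn {S : Finset (Fin n × Fin n)} {x z : Fin n} : z ∈ Dn S x ↔ (z, x) ∈ S := by
  simp [Dn]

theorem WExt2_mem_Up {S : Finset (Fin n × Fin n)} {x z : Fin n} : z ∈ Up S x ↔ (x, z) ∈ S := by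
  simp [Up]

/-- The down- and up-sets of two points. -/
def WExt2_psi (a b : Fin n) (S : Finset (Fin n × Fin n)) :
    (Finset (Fin n) × Finset (Fin n)) × (Finset (Fin n) × Finset (Fin n)) :=
  ((Dn S a, Up S a), (Dn S b, Up S b))

/-- The largest exponent. -/
def WExt2_K (g : Fin n → Fin 3) : ℕ := max ((cl g 0).card + (cl g 2).card) (cl g 1).card

theorem WExt2_exp (g : Fin n → Fin 3) (t : Fin 5) :
    (FD g t).card + (FU g t).card ≤ WExt2_K g := by
  unfold WExt2_K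
  fin_cases t <;> simp [FD, FU]

/-- The possible pairs of types. -/
def WExt2_T : Finset (Fin 5 × Fin 5) :=
  {(0, 0), (1, 1), (2, 2), (3, 3), (4, 4), (1, 3), (0, 2), (2, 4)}

open scoped Classical in
/-- The count for one structure and one order of the two points. -/
theorem WExt2_count {r r' : ℝ} (g : Fin n → Fin 3) (a b : Fin n)
    (C : Finset (Finset (Fin n × Fin n)))
    (hinj : Set.InjOn (WExt2_psi a b) (C : Set (Finset (Fin n × Fin n))))
    (hPO : ∀ S ∈ C, IsPO S)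
    (hstd : ∀ S ∈ C, ∀ w, StdP r g (typv r' g S w) (Dn S w) (Up S w))
    (hE : ∀ S ∈ C, E2 r' g S a b) (m : ℕ)
    (hm : ((univ : Finset (Finset (Fin n))).filter fun A => (A.card : ℝ) ≤ r).card ≤ m) :
    C.card ≤ m ^ 4 * 3 ^ WExt2_K g * 8 := by
  have h8 : WExt2_T.card = 8 := by decide
  rw [← h8]
  refine card_le_mul_card_image_of_maps_to (f := fun S => (typv r' g S a, typv r' g S b)) ?_ _ ?_
  · intro S hS
    have hcase := hE S hS
    unfold E2 at hcase
    rcases hcase with ⟨h, -⟩ | ⟨-, -, ⟨h1, h2⟩ | ⟨h1, h2⟩ | ⟨h1, h2⟩⟩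
    · show (typv r' g S a, typv r' g S b) ∈ WExt2_T
      rw [h]
      generalize typv r' g S b = t
      fin_cases t <;> decide
    · show (typv r' g S a, typv r' g S b) ∈ WExt2_T
      rw [h1, h2]; decide
    · show (typv r' g S a, typv r' g S b) ∈ WExt2_T
      rw [h1, h2]; decide
    · show (typv r' g S a, typv r' g S b) ∈ WExt2_T
      rw [h1, h2]; decide
  · rintro ⟨t, t'⟩ ht
    by_cases htt : t = t'
    · subst htt
      refine le_trans (card_le_card_of_injOn (WExt2_psi a b) (t := univ.filter fun q =>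
        StdP r g t q.1.1 q.1.2 ∧ StdP r g t q.2.1 q.2.2 ∧ q.1.1 ⊆ q.2.1 ∧ q.2.2 ⊆ q.1.2) ?_ ?_) ?_
      · intro S hS
        rw [mem_coe, mem_filter, Prod.mk.injEq] at hS
        obtain ⟨hS, h1, h2⟩ := hS
        have hrel : (a, b) ∈ S := by
          rcases hE S hS with ⟨-, h⟩ | ⟨-, -, h⟩
          · exact h
          · exfalso
            rw [h1, h2] at h
            rcases h with ⟨h3, h4⟩ | ⟨h3, h4⟩ | ⟨h3, h4⟩ <;> rw [h3] at h4 <;>
              exact absurd h4 (by decide)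
        rw [mem_coe, mem_filter]
        refine ⟨mem_univ _, ?_, ?_, ?_, ?_⟩
        · have := hstd S hS a
          rwa [h1] at this
        · have := hstd S hS b
          rwa [h2] at this
        · intro z hz
          exact WExt2_mem_Dn.2 ((hPO S hS).2 _ _ _ (WExt2_mem_Dn.1 hz) hrel)
        · intro z hz
          exact WExt2_mem_Up.2 ((hPO S hS).2 _ _ _ hrel (WExt2_mem_Up.1 hz))
      · exact hinj.mono (fun S hS => mem_coe.2 (mem_filter.1 (mem_coe.1 hS)).1)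
      · exact (card_std_nested g t m hm).trans
          (Nat.mul_le_mul_left _ (Nat.pow_le_pow_right (by norm_num) (WExt2_exp g t)))
    · have ht' : (t = 1 ∧ t' = 3) ∨ (t = 0 ∧ t' = 2) ∨ (t = 2 ∧ t' = 4) := by
        revert t t'
        decide
      refine le_trans (card_le_card_of_injOn (WExt2_psi a b) (t := univ.filter fun q =>
        StdP r g t q.1.1 q.1.2 ∧ StdP r g t' q.2.1 q.2.2 ∧ Disjoint q.1.2 q.2.1) ?_ ?_) ?_
      · intro S hS
        rw [mem_coe, mem_filter, Prod.mk.injEq] at hS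
        obtain ⟨hS, h1, h2⟩ := hS
        have hrel : (a, b) ∉ S := by
          rcases hE S hS with ⟨h, -⟩ | ⟨h, -, -⟩
          · rw [h1, h2] at h
            exact absurd h htt
          · exact h
        rw [mem_coe, mem_filter]
        refine ⟨mem_univ _, ?_, ?_, ?_⟩
        · have := hstd S hS a
          rwa [h1] at this
        · have := hstd S hS b
          rwa [h2] at this
        · rw [Finset.disjoint_left]
          intro z hz hz'
          exact hrel ((hPO S hS).2 _ _ _ (WExt2_mem_Up.1 hz) (WExt2_mem_Dn.1 hz'))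
      · exact hinj.mono (fun S hS => mem_coe.2 (mem_filter.1 (mem_coe.1 hS)).1)
      · exact card_std_disj g t t' ht' m hm

/-- The set `S` is determined by the restriction and the down- and up-sets of the two points. -/
theorem WExt2_inj (v : Fin (n + 2)) (u : Fin (n + 1)) {S T : Finset (Fin (n + 2) × Fin (n + 2))}
    (h : del u (del v S) = del u (del v T)) (h1 : Dn S (v.succAbove u) = Dn T (v.succAbove u))
    (h2 : Up S (v.succAbove u) = Up T (v.succAbove u)) (h3 : Dn S v = Dn T v)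
    (h4 : Up S v = Up T v) : S = T := by
  ext ⟨a, b⟩
  rcases TopI_cases v a with rfl | ⟨a1, rfl⟩
  · rw [← WExt2_mem_Up, ← WExt2_mem_Up, h4]
  rcases TopI_cases v b with rfl | ⟨b1, rfl⟩
  · rw [← WExt2_mem_Dn, ← WExt2_mem_Dn, h3]
  rcases TopI_cases u a1 with rfl | ⟨a2, rfl⟩
  · rw [← WExt2_mem_Up, ← WExt2_mem_Up, h2]
  rcases TopI_cases u b1 with rfl | ⟨b2, rfl⟩
  · rw [← WExt2_mem_Dn, ← WExt2_mem_Dn, h1]
  have e1 : (a2, b2) ∈ del u (del v S) ↔ (v.succAbove (u.succAbove a2),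
      v.succAbove (u.succAbove b2)) ∈ S := by
    rw [TopI_mem_del, TopI_mem_del]
  have e2 : (a2, b2) ∈ del u (del v T) ↔ (v.succAbove (u.succAbove a2),
      v.succAbove (u.succAbove b2)) ∈ T := by
    rw [TopI_mem_del, TopI_mem_del]
  rw [← e1, ← e2, h]

open scoped Classical in
/-- Counting the structures on `n + 2` points by their restrictions. -/
theorem WExt2_gcount {ν ε τ s : ℝ} (v : Fin (n + 2)) (u : Fin (n + 1))
    (S' : Finset (Fin n × Fin n)) :
    ((univ : Finset (Fin (n + 2) → Fin 3)).filter fun g =>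
      GoodP ν ε τ s S' (gdel u (gdel v g))).card ≤
      ((univ : Finset (Fin n → Fin 3)).filter fun g => GoodP ν ε τ s S' g).card * 9 := by
  have h9 : (univ : Finset (Fin 3 × Fin 3)).card = 9 := by decide
  rw [← h9, ← card_product]
  refine card_le_card_of_injOn (fun g => (gdel u (gdel v g), (g v, g (v.succAbove u)))) ?_ ?_
  · intro g hg
    rw [mem_coe, mem_filter] at hg
    rw [mem_coe, mem_product, mem_filter]
    exact ⟨⟨mem_univ _, hg.2⟩, mem_univ _⟩
  · intro g _ g' _ hgg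
    rw [Prod.mk.injEq, Prod.mk.injEq] at hgg
    obtain ⟨h1, h2, h3⟩ := hgg
    funext x
    rcases TopI_cases v x with rfl | ⟨x1, rfl⟩
    · exact h2
    rcases TopI_cases u x1 with rfl | ⟨x2, rfl⟩
    · exact h3
    · exact congrFun h1 x2

theorem WExt2_cl_sum (g : Fin n → Fin 3) :
    (cl g 0).card + (cl g 1).card + (cl g 2).card = n := by
  have h := card_eq_sum_card_fiberwise (f := g) (s := (univ : Finset (Fin n)))
    (t := (univ : Finset (Fin 3))) (fun x _ => mem_coe.2 (mem_univ _))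
  rw [card_univ, Fintype.card_fin, Fin.sum_univ_three] at h
  unfold cl
  exact h.symm

theorem WExt2_exp_le {x : ℝ} (hx : 0 ≤ x) : exp x ≤ (2 : ℝ) ^ (2 * x) := by
  have h1 : exp 1 ≤ 4 := by
    have := Real.exp_one_lt_d9
    linarith
  have h2 : (2 : ℝ) ^ (2 * x) = 4 ^ x := by
    rw [Real.rpow_mul (by norm_num)]
    norm_num
  rw [h2]
  calc exp x = exp 1 ^ x := by rw [← Real.exp_one_rpow]
    _ ≤ 4 ^ x := Real.rpow_le_rpow (exp_pos 1).le h1 hx

theorem WExt2_three_le {x : ℝ} (hx : 0 ≤ x) : (3 : ℝ) ^ x ≤ (2 : ℝ) ^ (8 / 5 * x) := by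
  have h1 : (3 : ℝ) ≤ (2 : ℝ) ^ (8 / 5 : ℝ) := by
    have h2 : ((3 : ℝ) ^ (5 : ℝ)) ^ (1 / 5 : ℝ) ≤ ((2 : ℝ) ^ (8 : ℝ)) ^ (1 / 5 : ℝ) := by
      refine Real.rpow_le_rpow (by positivity) ?_ (by norm_num)
      norm_num
    rw [← Real.rpow_mul (by norm_num), ← Real.rpow_mul (by norm_num)] at h2
    norm_num at h2
    convert h2 using 2
  rw [Real.rpow_mul (by norm_num)]
  exact Real.rpow_le_rpow (by norm_num) h1 hx

/-- The numerical estimate. -/
theorem WExt2_num {N : ℕ} (hN : 2000 ≤ N) {τ G m : ℝ} (hτ : 0 < τ) (hτ1 : τ ≤ 1 / 1000)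
    (hG0 : 0 ≤ G) (hm0 : 0 ≤ m)
    (hG : G ≤ 3 * exp (1 / 1000 * N)) (hm : m ≤ exp (1 / 1000 * ((N : ℝ) + 2))) :
    G * 9 * (2 * (m ^ 4 * (3 : ℝ) ^ ((1 / 2 + τ) * ((N : ℝ) + 2)) * 8)) ≤
      (2 : ℝ) ^ (82 / 100 * (N : ℝ)) := by
  have hN' : (2000 : ℝ) ≤ N := by exact_mod_cast hN
  have e1 : G ≤ 3 * (2 : ℝ) ^ (2 * (1 / 1000 * (N : ℝ))) :=
    hG.trans (mul_le_mul_of_nonneg_left (WExt2_exp_le (by positivity)) (by norm_num))
  have e2 : m ≤ (2 : ℝ) ^ (2 * (1 / 1000 * ((N : ℝ) + 2))) :=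
    hm.trans (WExt2_exp_le (by positivity))
  have e3 : m ^ 4 ≤ (2 : ℝ) ^ (8 * (1 / 1000 * ((N : ℝ) + 2))) := by
    have h := pow_le_pow_left₀ hm0 e2 4
    refine h.trans_eq ?_
    rw [← Real.rpow_natCast, ← Real.rpow_mul (by norm_num)]
    congr 1
    push_cast
    ring
  have e4 : (3 : ℝ) ^ ((1 / 2 + τ) * ((N : ℝ) + 2)) ≤
      (2 : ℝ) ^ (8 / 5 * ((1 / 2 + τ) * ((N : ℝ) + 2))) :=
    WExt2_three_le (by positivity)
  have e5 : G * 9 * (2 * (m ^ 4 * (3 : ℝ) ^ ((1 / 2 + τ) * ((N : ℝ) + 2)) * 8)) ≤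
      (3 * (2 : ℝ) ^ (2 * (1 / 1000 * (N : ℝ)))) * 9 *
        (2 * ((2 : ℝ) ^ (8 * (1 / 1000 * ((N : ℝ) + 2))) *
        (2 : ℝ) ^ (8 / 5 * ((1 / 2 + τ) * ((N : ℝ) + 2))) * 8)) := by
    gcongr
  refine e5.trans ?_
  have e6 : (3 * (2 : ℝ) ^ (2 * (1 / 1000 * (N : ℝ)))) * 9 *
        (2 * ((2 : ℝ) ^ (8 * (1 / 1000 * ((N : ℝ) + 2))) *
        (2 : ℝ) ^ (8 / 5 * ((1 / 2 + τ) * ((N : ℝ) + 2))) * 8)) ≤
      (2 : ℝ) ^ (9 : ℝ) * ((2 : ℝ) ^ (2 * (1 / 1000 * (N : ℝ))) *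
        (2 : ℝ) ^ (8 * (1 / 1000 * ((N : ℝ) + 2))) *
        (2 : ℝ) ^ (8 / 5 * ((1 / 2 + τ) * ((N : ℝ) + 2)))) := by
    have h9 : (2 : ℝ) ^ (9 : ℝ) = 512 := by norm_num
    rw [h9]
    have hp : 0 ≤ (2 : ℝ) ^ (2 * (1 / 1000 * (N : ℝ))) *
        (2 : ℝ) ^ (8 * (1 / 1000 * ((N : ℝ) + 2))) *
        (2 : ℝ) ^ (8 / 5 * ((1 / 2 + τ) * ((N : ℝ) + 2))) := by positivity
    nlinarith
  refine e6.trans ?_
  rw [← Real.rpow_add (by norm_num), ← Real.rpow_add (by norm_num), ← Real.rpow_add (by norm_num)]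
  refine Real.rpow_le_rpow_of_exponent_le (by norm_num) ?_
  nlinarith

/-- **Two points.** As `ext_one` with `S` determined by `del u (del v S)`, the down- and up-sets of both points inside the `n` points, and the relation between them (3 possibilities). `E2` of the first kind:
`(u,v) ∈ S` gives `D(u) ⊆ D(v)`, `U(v) ⊆ U(u)`: `card_std_nested`, exponent `|FD| + |FU| ∈ {|X|, |M|, |X|+|Y|, |Y|} ≤ (1/2 + 2τ)(n+2)`; second kind: `U(u) ∩ D(v) = ∅`: `card_std_disj`.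
`log_2 3 / 2 < 0.7926`. -/
theorem ext_two : ∃ τ0 : ℝ, 0 < τ0 ∧ ∀ τ : ℝ, 0 < τ → τ ≤ τ0 → ∀ ε : ℝ, 0 < ε →
    ε ≤ τ ^ 2 / 100 → ExtTwo τ ε := by
  classical
  obtain ⟨τ1, hτ1, H1⟩ := card_good (θ := 1 / 1000) (by norm_num)
  obtain ⟨ξ, hξ, H2⟩ := card_small (θ := 1 / 1000) (by norm_num)
  refine ⟨min τ1 (min (ξ / 3) (1 / 1000)), by positivity, fun τ hτ hτ0 ε hε hετ => ?_⟩
  have a1 : τ ≤ τ1 := hτ0.trans (min_le_left _ _)
  have a2 : τ ≤ ξ / 3 := hτ0.trans ((min_le_right _ _).trans (min_le_left _ _))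
  have a3 : τ ≤ 1 / 1000 := hτ0.trans ((min_le_right _ _).trans (min_le_right _ _))
  obtain ⟨n1, H1⟩ := H1 τ hτ a1 ε hε hετ
  obtain ⟨ν0, hν0, H3⟩ := typ_std hτ (by linarith) hε hετ
  refine ⟨max n1 (max ⌈ν0⌉₊ 2000), fun n hn v u S' => ?_⟩
  have hn1 : n1 ≤ n := (le_max_left _ _).trans hn
  have hn2 : ⌈ν0⌉₊ ≤ n := ((le_max_left _ _).trans (le_max_right _ _)).trans hn
  have hn3 : 2000 ≤ n := ((le_max_right _ _).trans (le_max_right _ _)).trans hn
  have hν : ν0 ≤ ((n + 2 : ℕ) : ℝ) := by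
    have h1 : ν0 ≤ (n : ℝ) := (Nat.le_ceil ν0).trans (by exact_mod_cast hn2)
    push_cast
    linarith
  set ν : ℝ := ((n + 2 : ℕ) : ℝ) with hνdef
  have hνn : ν = (n : ℝ) + 2 := by rw [hνdef]; push_cast; ring
  -- the small sets
  set m : ℕ := ((univ : Finset (Finset (Fin (n + 2)))).filter fun A =>
    (A.card : ℝ) ≤ 3 * τ * ν).card with hmdef
  have hm : (m : ℝ) ≤ exp (1 / 1000 * ((n : ℝ) + 2)) := by
    have h1 := H2 (n + 2)
    have h2 : m ≤ ((univ : Finset (Finset (Fin (n + 2)))).filter fun A =>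
        (A.card : ℝ) ≤ ξ * ((n + 2 : ℕ) : ℝ)).card := by
      refine card_le_card (fun A hA => ?_)
      rw [mem_filter] at hA ⊢
      refine ⟨hA.1, hA.2.trans ?_⟩
      rw [← hνdef]
      have h3 : 0 ≤ ν := by rw [hνn]; positivity
      have h4 : 3 * τ ≤ ξ := by linarith
      exact mul_le_mul_of_nonneg_right h4 h3
    refine le_trans (by exact_mod_cast h2) (h1.trans_eq ?_)
    rw [← hνdef, hνn]
  -- the structures
  set G : Finset (Fin (n + 2) → Fin 3) := univ.filter fun g =>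
    GoodP ν ε τ 2 S' (gdel u (gdel v g)) with hGdef
  set G' : Finset (Fin n → Fin 3) := univ.filter fun g => GoodP ν ε τ 2 S' g with hG'def
  have hGG : G.card ≤ G'.card * 9 := WExt2_gcount v u S'
  have hG' : (G'.card : ℝ) ≤ 3 * exp (1 / 1000 * n) :=
    H1 n hn1 ν (by rw [hνn]; linarith) (by rw [hνn]; linarith) S'
  -- the sets for one structure
  let C : Fin (n + 2) → Fin (n + 2) → (Fin (n + 2) → Fin 3) →
      Finset (Finset (Fin (n + 2) × Fin (n + 2))) := fun a b g =>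
    univ.filter fun S => IsPO S ∧ del u (del v S) = S' ∧ GoodP ν ε τ 0 S g ∧
      E2 (τ * ν) g S a b
  have hC : ∀ g a b, Set.InjOn (WExt2_psi a b) (C a b g : Set (Finset (Fin (n + 2) ×
      Fin (n + 2)))) → ((C a b g).card : ℝ) ≤
      (m : ℝ) ^ 4 * (3 : ℝ) ^ ((1 / 2 + τ) * ((n : ℝ) + 2)) * 8 := by
    intro g a b hinj
    rcases (C a b g).eq_empty_or_nonempty with h0 | ⟨S₀, hS₀⟩
    · rw [h0, card_empty]
      push_cast
      positivity
    · have hK : ((WExt2_K g : ℕ) : ℝ) ≤ (1 / 2 + τ) * ((n : ℝ) + 2) := by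
        have hg := (mem_filter.1 hS₀).2.2.2.1.mid
        rw [add_zero, abs_le] at hg
        have hs := WExt2_cl_sum g
        have hs' : ((cl g 0).card : ℝ) + (cl g 1).card + (cl g 2).card = ν := by
          rw [hνdef]
          exact_mod_cast hs
        unfold WExt2_K
        rw [← hνn]
        push_cast
        refine max_le ?_ ?_ <;> nlinarith [hg.1, hg.2]
      have hc := WExt2_count (r := 3 * τ * ν) (r' := τ * ν) g a b (C a b g) hinj
        (fun S hS => (mem_filter.1 hS).2.1)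
        (fun S hS w => H3 ν hν 0 (by norm_num) _ S g (mem_filter.1 hS).2.1
          (mem_filter.1 hS).2.2.2.1 w)
        (fun S hS => (mem_filter.1 hS).2.2.2.2) m le_rfl
      have hc' : ((C a b g).card : ℝ) ≤ (m : ℝ) ^ 4 * (3 : ℝ) ^ (WExt2_K g) * 8 := by
        exact_mod_cast hc
      refine hc'.trans ?_
      have h3 : (3 : ℝ) ^ (WExt2_K g) ≤ (3 : ℝ) ^ ((1 / 2 + τ) * ((n : ℝ) + 2)) := by
        rw [← Real.rpow_natCast]
        exact Real.rpow_le_rpow_of_exponent_le (by norm_num) hK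
      gcongr
  have hC1 : ∀ g, ((C (v.succAbove u) v g).card : ℝ) ≤
      (m : ℝ) ^ 4 * (3 : ℝ) ^ ((1 / 2 + τ) * ((n : ℝ) + 2)) * 8 := fun g => by
    refine hC g _ _ (fun S hS T hT hST => ?_)
    have hS' := (mem_filter.1 (mem_coe.1 hS)).2.2.1
    have hT' := (mem_filter.1 (mem_coe.1 hT)).2.2.1
    unfold WExt2_psi at hST
    rw [Prod.mk.injEq, Prod.mk.injEq, Prod.mk.injEq] at hST
    exact WExt2_inj v u (hS'.trans hT'.symm) hST.1.1 hST.1.2 hST.2.1 hST.2.2
  have hC2 : ∀ g, ((C v (v.succAbove u) g).card : ℝ) ≤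
      (m : ℝ) ^ 4 * (3 : ℝ) ^ ((1 / 2 + τ) * ((n : ℝ) + 2)) * 8 := fun g => by
    refine hC g _ _ (fun S hS T hT hST => ?_)
    have hS' := (mem_filter.1 (mem_coe.1 hS)).2.2.1
    have hT' := (mem_filter.1 (mem_coe.1 hT)).2.2.1
    unfold WExt2_psi at hST
    rw [Prod.mk.injEq, Prod.mk.injEq, Prod.mk.injEq] at hST
    exact WExt2_inj v u (hS'.trans hT'.symm) hST.2.1 hST.2.2 hST.1.1 hST.1.2
  -- the union
  have hsub : {S : Finset (Fin (n + 2) × Fin (n + 2)) |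
      IsPO S ∧ del u (del v S) = S' ∧ ∃ g : Fin (n + 2) → Fin 3, GoodP (n + 2 : ℕ) ε τ 0 S g ∧
        (E2 (τ * (n + 2 : ℕ)) g S (v.succAbove u) v ∨
          E2 (τ * (n + 2 : ℕ)) g S v (v.succAbove u))} ⊆
      ((G.biUnion fun g => C (v.succAbove u) v g ∪ C v (v.succAbove u) g :
        Finset (Finset (Fin (n + 2) × Fin (n + 2)))) : Set _) := by
    rintro S ⟨h1, h2, g, hg, hE⟩
    rw [mem_coe, mem_biUnion]
    refine ⟨g, ?_, ?_⟩
    · rw [hGdef, mem_filter]
      refine ⟨mem_univ _, ?_⟩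
      have k1 := good_del v hg
      have k2 := good_del u k1
      rw [h2] at k2
      exact k2.mono_s (by norm_num)
    · rw [mem_union]
      rcases hE with hE | hE
      · exact Or.inl (mem_filter.2 ⟨mem_univ _, h1, h2, hg, hE⟩)
      · exact Or.inr (mem_filter.2 ⟨mem_univ _, h1, h2, hg, hE⟩)
  have hcard := Set.ncard_le_ncard hsub (Finset.finite_toSet _)
  rw [Set.ncard_coe_finset] at hcard
  have hbi : ((G.biUnion fun g => C (v.succAbove u) v g ∪ C v (v.succAbove u) g :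
      Finset (Finset (Fin (n + 2) × Fin (n + 2)))).card : ℝ) ≤
      G.card * (2 * ((m : ℝ) ^ 4 * (3 : ℝ) ^ ((1 / 2 + τ) * ((n : ℝ) + 2)) * 8)) := by
    calc ((G.biUnion fun g => C (v.succAbove u) v g ∪ C v (v.succAbove u) g :
      Finset (Finset (Fin (n + 2) × Fin (n + 2)))).card : ℝ)
        ≤ ((∑ g ∈ G, (C (v.succAbove u) v g ∪ C v (v.succAbove u) g).card : ℕ) : ℝ) := by
          exact_mod_cast card_biUnion_le
      _ = ∑ g ∈ G, ((C (v.succAbove u) v g ∪ C v (v.succAbove u) g).card : ℝ) := by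
          push_cast; rfl
      _ ≤ ∑ _g ∈ G, (2 * ((m : ℝ) ^ 4 * (3 : ℝ) ^ ((1 / 2 + τ) * ((n : ℝ) + 2)) * 8)) := by
          refine sum_le_sum (fun g _ => ?_)
          have h1 : ((C (v.succAbove u) v g ∪ C v (v.succAbove u) g).card : ℝ) ≤
              (C (v.succAbove u) v g).card + (C v (v.succAbove u) g).card := by
            exact_mod_cast card_union_le _ _
          linarith [hC1 g, hC2 g]
      _ = _ := by rw [sum_const, nsmul_eq_mul]
  have hGG' : (G.card : ℝ) ≤ G'.card * 9 := by exact_mod_cast hGG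
  calc _ ≤ ((G.biUnion fun g => C (v.succAbove u) v g ∪ C v (v.succAbove u) g :
      Finset (Finset (Fin (n + 2) × Fin (n + 2)))).card : ℝ) := by exact_mod_cast hcard
    _ ≤ G.card * (2 * ((m : ℝ) ^ 4 * (3 : ℝ) ^ ((1 / 2 + τ) * ((n : ℝ) + 2)) * 8)) := hbi
    _ ≤ (G'.card * 9) *
        (2 * ((m : ℝ) ^ 4 * (3 : ℝ) ^ ((1 / 2 + τ) * ((n : ℝ) + 2)) * 8)) :=
        mul_le_mul_of_nonneg_right hGG' (by positivity)
    _ ≤ _ := WExt2_num hn3 hτ a3 (by positivity) (by positivity) hG' hm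

end Pool.Agent.H.MP_82502e_co
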