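import Pool.Agent.H.MP_82502e_co.WGood

set_option autoImplicit false

/-!
# The window: extensions: lemmas
-/

namespace Pool.Agent.H.MP_82502e_co

open Finset Real

variable {n : ℕ}

theorem WExtA_mem_cl {g : Fin n → Fin 3} {i : Fin 3} {x : Fin n} : x ∈ cl g i ↔ g x = i := by
  unfold cl
  rw [mem_filter]
  exact ⟨fun h => h.2, fun h => ⟨mem_univ _, h⟩⟩

/-- The embedding of pairs. -/
def WExtA_f (v : Fin (n + 1)) : (Fin n × Fin n) ↪ (Fin (n + 1) × Fin (n + 1)) :=
  ⟨fun p => (v.succAbove p.1, v.succAbove p.2), fun p q hpq => by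
    have h1 := congrArg Prod.fst hpq
    have h2 := congrArg Prod.snd hpq
    exact Prod.ext (Fin.succAbove_right_injective h1) (Fin.succAbove_right_injective h2)⟩

theorem WExtA_f_apply (v : Fin (n + 1)) (p : Fin n × Fin n) :
    WExtA_f v p = (v.succAbove p.1, v.succAbove p.2) := rfl

/-- The embedding of points. -/
def WExtA_e (v : Fin (n + 1)) : Fin n ↪ Fin (n + 1) :=
  ⟨v.succAbove, Fin.succAbove_right_injective⟩

theorem WExtA_e_apply (v : Fin (n + 1)) (x : Fin n) : WExtA_e v x = v.succAbove x := rfl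

theorem WExtA_map_cl (v : Fin (n + 1)) (g : Fin (n + 1) → Fin 3) (i : Fin 3)
    {A : Finset (Fin n)} (hA : A ⊆ cl (gdel v g) i) : A.map (WExtA_e v) ⊆ cl g i := by
  intro x hx
  rw [mem_map] at hx
  obtain ⟨y, hy, rfl⟩ := hx
  have h := WExtA_mem_cl.1 (hA hy)
  exact WExtA_mem_cl.2 h

theorem WExtA_inter_le (v : Fin (n + 1)) (S : Finset (Fin (n + 1) × Fin (n + 1)))
    (A B : Finset (Fin n)) :
    (S ∩ A.map (WExtA_e v) ×ˢ B.map (WExtA_e v)).card ≤ (del v S ∩ A ×ˢ B).card := by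
  rw [← card_map (WExtA_f v)]
  refine card_le_card ?_
  rintro ⟨a, b⟩ h
  rw [mem_inter, mem_product, mem_map, mem_map] at h
  obtain ⟨h1, ⟨a', ha', rfl⟩, ⟨b', hb', rfl⟩⟩ := h
  rw [mem_map]
  exact ⟨(a', b'), mem_inter.2 ⟨TopI_mem_del.2 h1, mem_product.2 ⟨ha', hb'⟩⟩, rfl⟩

theorem WExtA_sdiff_le (v : Fin (n + 1)) (S : Finset (Fin (n + 1) × Fin (n + 1)))
    (A B : Finset (Fin n)) :
    ((A.map (WExtA_e v) ×ˢ B.map (WExtA_e v)) \ S).card ≤ ((A ×ˢ B) \ del v S).card := by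
  rw [← card_map (WExtA_f v)]
  refine card_le_card ?_
  rintro ⟨a, b⟩ h
  rw [mem_sdiff, mem_product, mem_map, mem_map] at h
  obtain ⟨⟨⟨a', ha', rfl⟩, ⟨b', hb', rfl⟩⟩, h1⟩ := h
  rw [mem_map]
  exact ⟨(a', b'), mem_sdiff.2 ⟨mem_product.2 ⟨ha', hb'⟩, fun h => h1 (TopI_mem_del.1 h)⟩, rfl⟩

/-- Deleting a point keeps the coarse structure at the same scale, the slack grows by `1` (images of sets under the injective map `v.succAbove`). -/
theorem good_del {ν ε τ s : ℝ} {S : Finset (Fin (n + 1) × Fin (n + 1))} {g : Fin (n + 1) → Fin 3}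
    (v : Fin (n + 1)) (h : GoodP ν ε τ s S g) : GoodP ν ε τ (s + 1) (del v S) (gdel v g) := by
  have hcl : ((cl (gdel v g) 1).card : ℝ) ≤ (cl g 1).card ∧
      ((cl g 1).card : ℝ) ≤ (cl (gdel v g) 1).card + 1 := by
    constructor
    · have h1 := card_le_card (WExtA_map_cl v g 1 (Subset.refl (cl (gdel v g) 1)))
      rw [card_map] at h1
      exact_mod_cast h1
    · have h1 : cl g 1 ⊆ insert v ((cl (gdel v g) 1).map (WExtA_e v)) := by
        intro x hx
        rw [mem_insert]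
        rcases TopI_cases v x with hx' | ⟨y, hy⟩
        · exact Or.inl hx'
        · refine Or.inr (mem_map.2 ⟨y, WExtA_mem_cl.2 ?_, hy⟩)
          unfold gdel
          rw [hy]
          exact WExtA_mem_cl.1 hx
      have h2 := (card_le_card h1).trans (card_insert_le _ _)
      rw [card_map] at h2
      exact_mod_cast h2
  refine ⟨?_, ?_, ?_, ?_, ?_⟩
  · have h1 := abs_le.1 h.mid
    rw [abs_le]
    constructor <;> linarith [h1.1, h1.2, hcl.1, hcl.2]
  · refine le_trans ?_ h.d1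
    have h1 : ((del v S).filter fun p => gdel v g p.2 ≤ gdel v g p.1).card ≤
        (S.filter fun p => g p.2 ≤ g p.1).card := by
      rw [← card_map (WExtA_f v)]
      refine card_le_card ?_
      intro p hp
      rw [mem_map] at hp
      obtain ⟨q, hq, rfl⟩ := hp
      rw [mem_filter] at hq ⊢
      exact ⟨TopI_mem_del.1 hq.1, hq.2⟩
    exact_mod_cast h1
  · refine le_trans ?_ h.d2
    have h1 : ((cl (gdel v g) 0 ×ˢ cl (gdel v g) 2) \ del v S).card ≤
        ((cl g 0 ×ˢ cl g 2) \ S).card := by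
      rw [← card_map (WExtA_f v)]
      refine card_le_card ?_
      intro p hp
      rw [mem_map] at hp
      obtain ⟨q, hq, rfl⟩ := hp
      rw [mem_sdiff, mem_product] at hq ⊢
      have k1 : gdel v g q.1 = 0 := WExtA_mem_cl.1 hq.1.1
      have k2 : gdel v g q.2 = 2 := WExtA_mem_cl.1 hq.1.2
      exact ⟨⟨WExtA_mem_cl.2 k1, WExtA_mem_cl.2 k2⟩, fun h' => hq.2 (TopI_mem_del.2 h')⟩
    exact_mod_cast h1
  · intro A hA B hB hA' hB'
    have h1 := h.c1 (A.map (WExtA_e v)) (WExtA_map_cl v g 0 hA) (B.map (WExtA_e v))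
      (WExtA_map_cl v g 1 hB) (by rw [card_map]; exact hA') (by rw [card_map]; exact hB')
    have h2 : (((S ∩ A.map (WExtA_e v) ×ˢ B.map (WExtA_e v)).card : ℕ) : ℝ) ≤
        ((del v S ∩ A ×ˢ B).card : ℕ) := by exact_mod_cast WExtA_inter_le v S A B
    have h3 : ((((A.map (WExtA_e v) ×ˢ B.map (WExtA_e v)) \ S).card : ℕ) : ℝ) ≤
        (((A ×ˢ B) \ del v S).card : ℕ) := by exact_mod_cast WExtA_sdiff_le v S A B
    exact ⟨h1.1.trans_le h2, h1.2.trans_le h3⟩
  · intro A hA B hB hA' hB'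
    have h1 := h.c2 (A.map (WExtA_e v)) (WExtA_map_cl v g 2 hA) (B.map (WExtA_e v))
      (WExtA_map_cl v g 1 hB) (by rw [card_map]; exact hA') (by rw [card_map]; exact hB')
    have h2 : (((S ∩ B.map (WExtA_e v) ×ˢ A.map (WExtA_e v)).card : ℕ) : ℝ) ≤
        ((del v S ∩ B ×ˢ A).card : ℕ) := by exact_mod_cast WExtA_inter_le v S B A
    have h3 : ((((B.map (WExtA_e v) ×ˢ A.map (WExtA_e v)) \ S).card : ℕ) : ℝ) ≤
        (((B ×ˢ A) \ del v S).card : ℕ) := by exact_mod_cast WExtA_sdiff_le v S B A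
    exact ⟨h1.1.trans_le h2, h1.2.trans_le h3⟩

theorem GoodP.mono_s {ν ε τ s s' : ℝ} {S : Finset (Fin n × Fin n)} {g : Fin n → Fin 3}
    (h : GoodP ν ε τ s S g) (hs : s ≤ s') : GoodP ν ε τ s' S g :=
  ⟨h.mid.trans (by linarith), h.d1, h.d2, h.c1, h.c2⟩

theorem WExtA_det {F E D D' : Finset (Fin n)} (h1 : symmDiff D E \ F = symmDiff D' E \ F)
    (h2 : D ∩ F = D' ∩ F) : D = D' := by
  ext x
  by_cases hx : x ∈ F
  · have h := Finset.ext_iff.1 h2 x
    simp only [mem_inter, hx, and_true] at h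
    exact h
  · have h := Finset.ext_iff.1 h1 x
    simp only [mem_sdiff, mem_symmDiff, hx, not_false_eq_true, and_true] at h
    tauto

open scoped Classical in
/-- The number of standard pairs of type `t`: `D` is determined by `D ∩ FD` and the small set `symmDiff D D0 \ FD`. -/
theorem card_std {r : ℝ} (g : Fin n → Fin 3) (t : Fin 5) (m : ℕ)
    (hm : ((univ : Finset (Finset (Fin n))).filter fun A => (A.card : ℝ) ≤ r).card ≤ m) :
    ((univ : Finset (Finset (Fin n) × Finset (Fin n))).filter fun q => StdP r g t q.1 q.2).card ≤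
      m ^ 2 * 2 ^ ((FD g t).card + (FU g t).card) := by
  set P := (univ : Finset (Finset (Fin n))).filter fun A => (A.card : ℝ) ≤ r with hP
  have h1 : ((univ : Finset (Finset (Fin n) × Finset (Fin n))).filter
      fun q => StdP r g t q.1 q.2).card ≤
      (P ×ˢ P ×ˢ (FD g t).powerset ×ˢ (FU g t).powerset).card := by
    refine card_le_card_of_injOn (fun q => (symmDiff q.1 (D0 g t) \ FD g t,
      symmDiff q.2 (U0 g t) \ FU g t, q.1 ∩ FD g t, q.2 ∩ FU g t)) ?_ ?_
    · intro q hq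
      have hq' := (mem_filter.1 (mem_coe.1 hq)).2
      rw [mem_coe, mem_product, mem_product, mem_product]
      exact ⟨mem_filter.2 ⟨mem_univ _, hq'.1⟩, mem_filter.2 ⟨mem_univ _, hq'.2⟩,
        mem_powerset.2 inter_subset_right, mem_powerset.2 inter_subset_right⟩
    · intro q _ q' _ h
      simp only [Prod.mk.injEq] at h
      obtain ⟨h1, h2, h3, h4⟩ := h
      exact Prod.ext (WExtA_det h1 h3) (WExtA_det h2 h4)
  refine h1.trans ?_
  rw [card_product, card_product, card_product, card_powerset, card_powerset, ← pow_add,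
    ← mul_assoc, sq]
  exact Nat.mul_le_mul_right _ (Nat.mul_le_mul hm hm)

open scoped Classical in
theorem WExtA_count {β : Type*} {r : ℝ} (m : ℕ)
    (hm : ((univ : Finset (Finset (Fin n))).filter fun A => (A.card : ℝ) ≤ r).card ≤ m)
    (g : Fin n → Fin 3) (t t' : Fin 5)
    (Q : Finset ((Finset (Fin n) × Finset (Fin n)) × (Finset (Fin n) × Finset (Fin n))))
    (hQ : ∀ q ∈ Q, StdP r g t q.1.1 q.1.2 ∧ StdP r g t' q.2.1 q.2.2)
    (φ : ((Finset (Fin n) × Finset (Fin n)) × (Finset (Fin n) × Finset (Fin n))) → β)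
    (W : Finset β) (hφ : ∀ q ∈ Q, φ q ∈ W)
    (hinj : ∀ q ∈ Q, ∀ q' ∈ Q, φ q = φ q' →
      q.1.1 ∩ FD g t = q'.1.1 ∩ FD g t ∧ q.1.2 ∩ FU g t = q'.1.2 ∩ FU g t ∧
      q.2.1 ∩ FD g t' = q'.2.1 ∩ FD g t' ∧ q.2.2 ∩ FU g t' = q'.2.2 ∩ FU g t') :
    Q.card ≤ m ^ 4 * W.card := by
  set P := (univ : Finset (Finset (Fin n))).filter fun A => (A.card : ℝ) ≤ r with hP
  have h1 : Q.card ≤ (P ×ˢ P ×ˢ P ×ˢ P ×ˢ W).card := by
    refine card_le_card_of_injOn (fun q => (symmDiff q.1.1 (D0 g t) \ FD g t,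
      symmDiff q.1.2 (U0 g t) \ FU g t, symmDiff q.2.1 (D0 g t') \ FD g t',
      symmDiff q.2.2 (U0 g t') \ FU g t', φ q)) ?_ ?_
    · intro q hq
      have hq' := hQ q (mem_coe.1 hq)
      rw [mem_coe, mem_product, mem_product, mem_product, mem_product]
      exact ⟨mem_filter.2 ⟨mem_univ _, hq'.1.1⟩, mem_filter.2 ⟨mem_univ _, hq'.1.2⟩,
        mem_filter.2 ⟨mem_univ _, hq'.2.1⟩, mem_filter.2 ⟨mem_univ _, hq'.2.2⟩,
        hφ q (mem_coe.1 hq)⟩
    · intro q hq q' hq' h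
      simp only [Prod.mk.injEq] at h
      obtain ⟨h1, h2, h3, h4, h5⟩ := h
      obtain ⟨k1, k2, k3, k4⟩ := hinj q (mem_coe.1 hq) q' (mem_coe.1 hq') h5
      exact Prod.ext (Prod.ext (WExtA_det h1 k1) (WExtA_det h2 k2))
        (Prod.ext (WExtA_det h3 k3) (WExtA_det h4 k4))
  refine h1.trans ?_
  rw [card_product, card_product, card_product, card_product]
  have e : m ^ 4 * W.card = m * (m * (m * (m * W.card))) := by ring
  rw [e]
  exact Nat.mul_le_mul hm (Nat.mul_le_mul hm (Nat.mul_le_mul hm (Nat.mul_le_mul_right _ hm)))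

theorem WExtA_nest (F : Finset (Fin n)) :
    (F.powerset.sigma fun B => B.powerset).card = 3 ^ F.card := by
  rw [card_sigma]
  have h := Finset.sum_pow_mul_eq_add_pow (2 : ℕ) 1 F
  simp only [one_pow, mul_one] at h
  simp only [card_powerset]
  exact h

theorem WExtA_disj (F : Finset (Fin n)) :
    (F.powerset.sigma fun B => (F \ B).powerset).card = 3 ^ F.card := by
  rw [card_sigma]
  have h := Finset.sum_pow_mul_eq_add_pow (1 : ℕ) 2 F
  simp only [one_pow, one_mul] at h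
  rw [← show (1 + 2 : ℕ) = 3 from rfl, ← h]
  refine sum_congr rfl fun B hB => ?_
  rw [card_powerset, card_sdiff_of_subset (mem_powerset.1 hB)]

open scoped Classical in
/-- Pairs of standard pairs `q1` (upper point `v`, `(u,v) ∈ S`), `q2` of the same type with `D(u) ⊆ D(v)`, `U(v) ⊆ U(u)` up to the sets:
nested subsets of `FD` and of `FU`: `3^(|FD|+|FU|)`. -/
theorem card_std_nested {r : ℝ} (g : Fin n → Fin 3) (t : Fin 5) (m : ℕ)
    (hm : ((univ : Finset (Finset (Fin n))).filter fun A => (A.card : ℝ) ≤ r).card ≤ m) :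
    ((univ : Finset ((Finset (Fin n) × Finset (Fin n)) × (Finset (Fin n) × Finset (Fin n)))).filter
      fun q => StdP r g t q.1.1 q.1.2 ∧ StdP r g t q.2.1 q.2.2 ∧ q.1.1 ⊆ q.2.1 ∧
        q.2.2 ⊆ q.1.2).card ≤ m ^ 4 * 3 ^ ((FD g t).card + (FU g t).card) := by
  rw [pow_add, ← WExtA_nest (FD g t), ← WExtA_nest (FU g t), ← card_product]
  refine WExtA_count m hm g t t _ (fun q hq => ⟨(mem_filter.1 hq).2.1, (mem_filter.1 hq).2.2.1⟩)
    (fun q => ((⟨q.2.1 ∩ FD g t, q.1.1 ∩ FD g t⟩ : (_ : Finset (Fin n)) × Finset (Fin n)),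
      (⟨q.1.2 ∩ FU g t, q.2.2 ∩ FU g t⟩ : (_ : Finset (Fin n)) × Finset (Fin n)))) _ ?_ ?_
  · intro q hq
    have h := (mem_filter.1 hq).2
    rw [mem_product, mem_sigma, mem_sigma]
    exact ⟨⟨mem_powerset.2 inter_subset_right,
        mem_powerset.2 (inter_subset_inter_right h.2.2.1)⟩,
      ⟨mem_powerset.2 inter_subset_right, mem_powerset.2 (inter_subset_inter_right h.2.2.2)⟩⟩
  · intro q _ q' _ h
    simp only [Prod.mk.injEq, Sigma.mk.injEq, heq_eq_eq] at h
    exact ⟨h.1.2, h.2.1, h.1.1, h.2.2⟩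

open scoped Classical in
theorem WExtA_disj_count {r : ℝ} (g : Fin n → Fin 3) (t t' : Fin 5) (m : ℕ)
    (hm : ((univ : Finset (Finset (Fin n))).filter fun A => (A.card : ℝ) ≤ r).card ≤ m)
    (hF : FU g t = FD g t') :
    ((univ : Finset ((Finset (Fin n) × Finset (Fin n)) × (Finset (Fin n) × Finset (Fin n)))).filter
      fun q => StdP r g t q.1.1 q.1.2 ∧ StdP r g t' q.2.1 q.2.2 ∧
        Disjoint q.1.2 q.2.1).card ≤
      m ^ 4 * 3 ^ ((FU g t).card + (FD g t).card + (FU g t').card) := by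
  have h0 : m ^ 4 * ((FU g t).powerset.sigma fun B => (FU g t \ B).powerset ×ˢ
      ((FD g t).powerset ×ˢ (FU g t').powerset)).card ≤
      m ^ 4 * 3 ^ ((FU g t).card + (FD g t).card + (FU g t').card) := by
    refine Nat.mul_le_mul_left _ ?_
    rw [card_sigma]
    simp only [card_product, card_powerset]
    rw [← sum_mul]
    have h1 := WExtA_disj (FU g t)
    rw [card_sigma] at h1
    simp only [card_powerset] at h1
    rw [h1, add_assoc, pow_add 3, pow_add 3]
    refine Nat.mul_le_mul_left _ (Nat.mul_le_mul ?_ ?_) <;>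
      exact Nat.pow_le_pow_left (by norm_num) _
  refine le_trans ?_ h0
  refine WExtA_count m hm g t t' _
    (fun q hq => ⟨(mem_filter.1 hq).2.1, (mem_filter.1 hq).2.2.1⟩)
    (fun q => (⟨q.1.2 ∩ FU g t, (q.2.1 ∩ FD g t', (q.1.1 ∩ FD g t, q.2.2 ∩ FU g t'))⟩ :
      (_ : Finset (Fin n)) × (Finset (Fin n) × (Finset (Fin n) × Finset (Fin n))))) _ ?_ ?_
  · intro q hq
    have h := (mem_filter.1 hq).2
    rw [mem_sigma, mem_product, mem_product]
    refine ⟨mem_powerset.2 inter_subset_right, mem_powerset.2 ?_,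
      mem_powerset.2 inter_subset_right, mem_powerset.2 inter_subset_right⟩
    intro x hx
    rw [mem_inter] at hx
    rw [mem_sdiff, mem_inter]
    refine ⟨hF ▸ hx.2, fun hx' => ?_⟩
    exact (disjoint_left.1 h.2.2) hx'.1 hx.1
  · intro q _ q' _ h
    simp only [Prod.mk.injEq, Sigma.mk.injEq, heq_eq_eq] at h
    exact ⟨h.2.2.1, h.1, h.2.1, h.2.2.2⟩

open scoped Classical in
/-- Pairs of standard pairs of types `(1,3)`, `(0,2)` or `(2,4)` with `U(u) ∩ D(v) = ∅`. -/
theorem card_std_disj {r : ℝ} (g : Fin n → Fin 3) (t t' : Fin 5)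
    (ht : (t = 1 ∧ t' = 3) ∨ (t = 0 ∧ t' = 2) ∨ (t = 2 ∧ t' = 4)) (m : ℕ)
    (hm : ((univ : Finset (Finset (Fin n))).filter fun A => (A.card : ℝ) ≤ r).card ≤ m) :
    ((univ : Finset ((Finset (Fin n) × Finset (Fin n)) × (Finset (Fin n) × Finset (Fin n)))).filter
      fun q => StdP r g t q.1.1 q.1.2 ∧ StdP r g t' q.2.1 q.2.2 ∧
        Disjoint q.1.2 q.2.1).card ≤
      m ^ 4 * 3 ^ (max ((cl g 0).card + (cl g 2).card) (cl g 1).card) := by
  rcases ht with ⟨rfl, rfl⟩ | ⟨rfl, rfl⟩ | ⟨rfl, rfl⟩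
  · refine (WExtA_disj_count g 1 3 m hm rfl).trans ?_
    refine Nat.mul_le_mul_left _ (Nat.pow_le_pow_right (by norm_num) ?_)
    change (cl g 1).card + (∅ : Finset (Fin n)).card + (∅ : Finset (Fin n)).card ≤ _
    rw [card_empty, add_zero, add_zero]
    exact le_max_right _ _
  · refine (WExtA_disj_count g 0 2 m hm rfl).trans ?_
    refine Nat.mul_le_mul_left _ (Nat.pow_le_pow_right (by norm_num) ?_)
    change (cl g 0).card + (∅ : Finset (Fin n)).card + (cl g 2).card ≤ _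
    rw [card_empty, add_zero]
    exact le_max_left _ _
  · refine (WExtA_disj_count g 2 4 m hm rfl).trans ?_
    refine Nat.mul_le_mul_left _ (Nat.pow_le_pow_right (by norm_num) ?_)
    change (cl g 2).card + (cl g 0).card + (∅ : Finset (Fin n)).card ≤ _
    rw [card_empty, add_zero, add_comm]
    exact le_max_left _ _

end Pool.Agent.H.MP_82502e_co
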