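import Pool.Agent.H.MP_82502e_co.WDefs
import Pool.Agent.H.MP_82502e_co.TopI

set_option autoImplicit false

/-!
# The window: coarse three-layer structure and types of points: definitions
-/

namespace Pool.Agent.H.MP_82502e_co

open Finset

variable {n : ℕ}

/-- A class of a partition into three classes `X = 0`, `M = 1`, `Y = 2`. -/
def cl (g : Fin n → Fin 3) (i : Fin 3) : Finset (Fin n) := univ.filter fun x => g x = i

/-- `S` has the coarse structure `g` (scale `ν`, defects `ε`, threshold `τ`, slack `s`). -/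
structure GoodP (ν ε τ s : ℝ) (S : Finset (Fin n × Fin n)) (g : Fin n → Fin 3) : Prop where
  mid : |((cl g 1).card : ℝ) - ν / 2| ≤ τ * ν + s
  d1 : ((S.filter fun p => g p.2 ≤ g p.1).card : ℝ) ≤ ε * ν ^ 2
  d2 : (((cl g 0 ×ˢ cl g 2) \ S).card : ℝ) ≤ ε * ν ^ 2
  c1 : ∀ A ⊆ cl g 0, ∀ B ⊆ cl g 1, τ * ν ≤ A.card → τ * ν ≤ B.card →
    3 * ε * ν ^ 2 < ((S ∩ A ×ˢ B).card : ℝ) ∧ 3 * ε * ν ^ 2 < (((A ×ˢ B) \ S).card : ℝ)
  c2 : ∀ A ⊆ cl g 2, ∀ B ⊆ cl g 1, τ * ν ≤ A.card → τ * ν ≤ B.card →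
    3 * ε * ν ^ 2 < ((S ∩ B ×ˢ A).card : ℝ) ∧ 3 * ε * ν ^ 2 < (((B ×ˢ A) \ S).card : ℝ)

open scoped Classical in
/-- The type of a point with down-set `D` and up-set `U`: `0` (bottom), `1` (`X`), `2` (`M`), `3` (`Y`), `4` (top);
`r = τ ν` is the threshold. -/
noncomputable def typ (r : ℝ) (g : Fin n → Fin 3) (D U : Finset (Fin n)) : Fin 5 :=
  if r ≤ (U ∩ cl g 0).card then 0
  else if r ≤ (D ∩ cl g 2).card then 4
  else if r ≤ (U ∩ cl g 1).card then 1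
  else if r ≤ (D ∩ cl g 1).card then 3
  else 2

/-- The type of the point `v` in `S`. -/
noncomputable def typv (r : ℝ) (g : Fin n → Fin 3) (S : Finset (Fin n × Fin n)) (v : Fin n) :
    Fin 5 := typ r g (Dn S v) (Up S v)

/-- The free part of the down-set of a point of type `t`. -/
def FD (g : Fin n → Fin 3) : Fin 5 → Finset (Fin n) := ![∅, ∅, cl g 0, cl g 1, cl g 2]

/-- The free part of the up-set. -/
def FU (g : Fin n → Fin 3) : Fin 5 → Finset (Fin n) := ![cl g 0, cl g 1, cl g 2, ∅, ∅]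

/-- The rest of the down-set is near `D0`. -/
def D0 (g : Fin n → Fin 3) : Fin 5 → Finset (Fin n) := ![∅, ∅, ∅, cl g 0, cl g 0 ∪ cl g 1]

/-- The rest of the up-set is near `U0`. -/
def U0 (g : Fin n → Fin 3) : Fin 5 → Finset (Fin n) := ![cl g 1 ∪ cl g 2, cl g 2, ∅, ∅, ∅]

/-- `(D, U)` is a standard pair of type `t` up to `r` points. -/
def StdP (r : ℝ) (g : Fin n → Fin 3) (t : Fin 5) (D U : Finset (Fin n)) : Prop :=
  ((symmDiff D (D0 g t) \ FD g t).card : ℝ) ≤ r ∧ ((symmDiff U (U0 g t) \ FU g t).card : ℝ) ≤ r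

/-- Excluded event at one point: bottom type although `Y` is large, or top type although `X` is large. -/
def E1 (ν r : ℝ) (g : Fin n → Fin 3) (S : Finset (Fin n × Fin n)) (v : Fin n) : Prop :=
  (typv r g S v = 0 ∧ ν / 8 ≤ (cl g 2).card) ∨ (typv r g S v = 4 ∧ ν / 8 ≤ (cl g 0).card)

/-- Excluded event at two points: related points of the same type, or unrelated points of types
`(1,3)`, `(0,2)`, `(2,4)`. -/
def E2 (r : ℝ) (g : Fin n → Fin 3) (S : Finset (Fin n × Fin n)) (u v : Fin n) : Prop :=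
  (typv r g S u = typv r g S v ∧ (u, v) ∈ S) ∨
  ((u, v) ∉ S ∧ u ≠ v ∧ ((typv r g S u = 1 ∧ typv r g S v = 3) ∨
    (typv r g S u = 0 ∧ typv r g S v = 2) ∨ (typv r g S u = 2 ∧ typv r g S v = 4)))

/-- `X → M`, `M → Y`, `Y → Y`. -/
def gup (g : Fin n → Fin 3) : Fin n → Fin 3 := fun x => if g x = 0 then 1 else 2

/-- `Y → M`, `M → X`, `X → X`. -/
def gdn (g : Fin n → Fin 3) : Fin n → Fin 3 := fun x => if g x = 2 then 1 else 0

/-- The structure restricted to the other points. -/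
def gdel (v : Fin (n + 1)) (g : Fin (n + 1) → Fin 3) : Fin n → Fin 3 := fun x => g (v.succAbove x)

/-- The constants: for `τ`, `ε` small the counts below hold. -/
def ExtOne (τ ε : ℝ) : Prop := ∃ n0 : ℕ, ∀ n ≥ n0, ∀ (v : Fin (n + 1))
    (S' : Finset (Fin n × Fin n)), (Set.ncard {S : Finset (Fin (n + 1) × Fin (n + 1)) |
      IsPO S ∧ del v S = S' ∧ ∃ g : Fin (n + 1) → Fin 3, GoodP (n + 1 : ℕ) ε τ 0 S g ∧
        E1 (n + 1 : ℕ) (τ * (n + 1 : ℕ)) g S v} : ℝ) ≤ (2 : ℝ) ^ (39 / 100 * (n : ℝ))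

/-- Two points: `v` and `v.succAbove u`. -/
def ExtTwo (τ ε : ℝ) : Prop := ∃ n0 : ℕ, ∀ n ≥ n0, ∀ (v : Fin (n + 2)) (u : Fin (n + 1))
    (S' : Finset (Fin n × Fin n)), (Set.ncard {S : Finset (Fin (n + 2) × Fin (n + 2)) |
      IsPO S ∧ del u (del v S) = S' ∧ ∃ g : Fin (n + 2) → Fin 3, GoodP (n + 2 : ℕ) ε τ 0 S g ∧
        (E2 (τ * (n + 2 : ℕ)) g S (v.succAbove u) v ∨
          E2 (τ * (n + 2 : ℕ)) g S v (v.succAbove u))} : ℝ) ≤ (2 : ℝ) ^ (82 / 100 * (n : ℝ))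

/-- The largest value of `cnt n` on `[k - j, k]`. -/
noncomputable def mx (n k j : ℕ) : ℕ := (range (j + 1)).sup fun i => cnt n (k - i)

end Pool.Agent.H.MP_82502e_co
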