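import Pool.Agent.H.MP_82502e_co.WDefL

set_option autoImplicit false

/-!
# The window: limit functions: basics
-/

namespace Pool.Agent.H.MP_82502e_co

open Finset Real MeasureTheory ProbabilityTheory

theorem WI1_exp_le (w : ℝ) : exp (-(w ^ 2 / 2)) * (1 + w ^ 2 / 2) ≤ 1 := by
  have h1 : 1 + w ^ 2 / 2 ≤ exp (w ^ 2 / 2) := by
    have := Real.add_one_le_exp (w ^ 2 / 2)
    linarith
  calc exp (-(w ^ 2 / 2)) * (1 + w ^ 2 / 2) ≤ exp (-(w ^ 2 / 2)) * exp (w ^ 2 / 2) :=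
        mul_le_mul_of_nonneg_left h1 (exp_pos _).le
    _ = 1 := by rw [← Real.exp_add]; simp

theorem WI1_fk_bdd (r : ℕ) (w : ℝ) : |fk r w| ≤ 2 := by
  have h1 := WI1_exp_le w
  have h0 := exp_pos (-(w ^ 2 / 2))
  have hw : 0 ≤ w ^ 2 := sq_nonneg w
  unfold fk
  split_ifs with h2 h3
  · rw [abs_of_pos h0]
    have : exp (-(w ^ 2 / 2)) ≤ 1 := Real.exp_le_one_iff.2 (by linarith)
    linarith
  · rw [abs_mul, abs_neg, abs_of_pos h0]
    have h4 : |w| ≤ 1 + w ^ 2 / 2 := by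
      rw [abs_le]
      constructor <;> nlinarith [sq_nonneg (w - 1), sq_nonneg (w + 1)]
    calc |w| * exp (-(w ^ 2 / 2)) ≤ (1 + w ^ 2 / 2) * exp (-(w ^ 2 / 2)) :=
          mul_le_mul_of_nonneg_right h4 h0.le
      _ ≤ 2 := by linarith [mul_comm (1 + w ^ 2 / 2) (exp (-(w ^ 2 / 2)))]
  · rw [abs_mul, abs_of_pos h0]
    have h4 : |w ^ 2 - 1| ≤ 2 * (1 + w ^ 2 / 2) := by
      rw [abs_le]
      constructor <;> nlinarith
    calc |w ^ 2 - 1| * exp (-(w ^ 2 / 2)) ≤ 2 * (1 + w ^ 2 / 2) * exp (-(w ^ 2 / 2)) :=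
          mul_le_mul_of_nonneg_right h4 h0.le
      _ = 2 * (exp (-(w ^ 2 / 2)) * (1 + w ^ 2 / 2)) := by ring
      _ ≤ 2 := by linarith

theorem WI1_fk_cont (r : ℕ) : Continuous (fk r) := by
  unfold fk
  split_ifs <;> fun_prop

theorem WI1_e (w : ℝ) : HasDerivAt (fun w : ℝ => exp (-(w ^ 2 / 2)))
    (-w * exp (-(w ^ 2 / 2))) w := by
  have h1 : HasDerivAt (fun w : ℝ => -(w ^ 2 / 2)) (-w) w := by
    have := ((hasDerivAt_pow 2 w).div_const 2).fun_neg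
    refine this.congr_deriv ?_
    simp
  refine h1.exp.congr_deriv ?_
  ring

theorem WI1_fk0 (w : ℝ) : HasDerivAt (fk 0) (fk 1 w) w := by
  have h : fk 0 = fun w : ℝ => exp (-(w ^ 2 / 2)) := by
    funext w
    simp [fk]
  have h1 : fk 1 w = -w * exp (-(w ^ 2 / 2)) := by simp [fk]
  rw [h, h1]
  exact WI1_e w

theorem WI1_fk1 (w : ℝ) : HasDerivAt (fk 1) (fk 2 w) w := by
  have h : fk 1 = fun w : ℝ => -w * exp (-(w ^ 2 / 2)) := by
    funext w
    simp [fk]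
  have h1 : fk 2 w = (w ^ 2 - 1) * exp (-(w ^ 2 / 2)) := by simp [fk]
  rw [h, h1]
  have h2 : HasDerivAt (fun w : ℝ => -w) (-1) w := (hasDerivAt_id w).fun_neg
  refine (h2.fun_mul (WI1_e w)).congr_deriv ?_
  ring

theorem WI1_sum (e : ℕ) :
    Summable fun j : ℤ => (2 : ℝ) ^ (-((j : ℝ) + (e + 1) / 2) ^ 2) := by
  set c : ℝ := (e + 1) / 2 with hc
  have hc0 : 0 ≤ c := by positivity
  have hb : ∀ x y : ℝ, 0 ≤ y → |x| = y →
      (2 : ℝ) ^ (-(x + c) ^ 2) ≤ (2 : ℝ) ^ (2 * c + 1) * (2 : ℝ) ^ (-y) := by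
    intro x y hy hx
    rw [← Real.rpow_add (by norm_num)]
    apply Real.rpow_le_rpow_of_exponent_le (by norm_num)
    have h1 : y ≤ |x + c| + c := by
      rw [← hx]
      calc |x| = |(x + c) - c| := by ring_nf
        _ ≤ |x + c| + |c| := abs_sub _ _
        _ = |x + c| + c := by rw [abs_of_nonneg hc0]
    have h2 : (x + c) ^ 2 = |x + c| ^ 2 := (sq_abs _).symm
    nlinarith [sq_nonneg (|x + c| - 1), abs_nonneg (x + c)]
  have hg : Summable fun n : ℕ => (2 : ℝ) ^ (2 * c + 1) * (2 : ℝ) ^ (-(n : ℝ)) := by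
    apply Summable.mul_left
    have h1 : (fun n : ℕ => (2 : ℝ) ^ (-(n : ℝ))) = fun n : ℕ => ((1 / 2 : ℝ)) ^ n := by
      funext n
      rw [Real.rpow_neg (by norm_num), Real.rpow_natCast, one_div, inv_pow]
    rw [h1]
    exact summable_geometric_of_lt_one (by norm_num) (by norm_num)
  apply Summable.of_nat_of_neg
  · refine Summable.of_nonneg_of_le (fun n => by positivity) (fun n => ?_) hg
    have := hb (n : ℝ) n (Nat.cast_nonneg n) (abs_of_nonneg (Nat.cast_nonneg n))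
    simpa using this
  · refine Summable.of_nonneg_of_le (fun n => by positivity) (fun n => ?_) hg
    have := hb (-(n : ℝ)) n (Nat.cast_nonneg n) (by rw [abs_neg, Nat.abs_cast])
    simpa using this

theorem WI1_bd (e r : ℕ) (x : ℝ) (j : ℤ) :
    ‖(2 : ℝ) ^ (-((j : ℝ) + (e + 1) / 2) ^ 2) * fk r (x + ((j : ℝ) + (e + 1) / 2))‖ ≤
      (2 : ℝ) ^ (-((j : ℝ) + (e + 1) / 2) ^ 2) * 2 := by
  rw [norm_mul, Real.norm_of_nonneg (by positivity), Real.norm_eq_abs]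
  exact mul_le_mul_of_nonneg_left (WI1_fk_bdd r _) (by positivity)

theorem WI1_summable (e r : ℕ) (x : ℝ) : Summable fun j : ℤ =>
    (2 : ℝ) ^ (-((j : ℝ) + (e + 1) / 2) ^ 2) * fk r (x + ((j : ℝ) + (e + 1) / 2)) :=
  Summable.of_norm_bounded ((WI1_sum e).mul_right 2) (WI1_bd e r x)

theorem gth_pos (e : ℕ) (x : ℝ) : 0 < gth e 0 x := by
  unfold gth
  have h0 : ∀ j : ℤ, 0 < (2 : ℝ) ^ (-((j : ℝ) + (e + 1) / 2) ^ 2) *
      fk 0 (x + ((j : ℝ) + (e + 1) / 2)) := by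
    intro j
    have : 0 < fk 0 (x + ((j : ℝ) + (e + 1) / 2)) := by
      simp only [fk, if_true]
      exact exp_pos _
    positivity
  exact (WI1_summable e 0 x).tsum_pos (fun j => (h0 j).le) 0 (h0 0)

/-- Termwise differentiation (`fk (r+1)` is the derivative of `fk r`, uniformly summable). -/
theorem gth_deriv (e : ℕ) (x : ℝ) : HasDerivAt (gth e 0) (gth e 1 x) x ∧
    HasDerivAt (gth e 1) (gth e 2 x) x := by
  have key : ∀ r s : ℕ, (∀ w, HasDerivAt (fk r) (fk s w) w) →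
      HasDerivAt (gth e r) (gth e s x) x := by
    intro r s h
    unfold gth
    refine hasDerivAt_tsum (y₀ := 0) ((WI1_sum e).mul_right 2)
      (g := fun (j : ℤ) (x : ℝ) => (2 : ℝ) ^ (-((j : ℝ) + (e + 1) / 2) ^ 2) *
        fk r (x + ((j : ℝ) + (e + 1) / 2)))
      (g' := fun (j : ℤ) (x : ℝ) => (2 : ℝ) ^ (-((j : ℝ) + (e + 1) / 2) ^ 2) *
        fk s (x + ((j : ℝ) + (e + 1) / 2)))
      (fun j y => ?_) (fun j y => WI1_bd e s y j) (WI1_summable e r 0) x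
    have h1 := (h (y + ((j : ℝ) + (e + 1) / 2))).comp_add_const y ((j : ℝ) + (e + 1) / 2)
    exact h1.const_mul _
  exact ⟨key 0 1 WI1_fk0, key 1 2 WI1_fk1⟩

/-- `gth e r` is bounded and continuous. -/
theorem gth_bdd (e : ℕ) : ∃ C : ℝ, ∀ r ≤ 2, (∀ x, |gth e r x| ≤ C) ∧ Continuous (gth e r) := by
  refine ⟨∑' j : ℤ, (2 : ℝ) ^ (-((j : ℝ) + (e + 1) / 2) ^ 2) * 2, fun r _ => ⟨fun x => ?_, ?_⟩⟩
  · have := tsum_of_norm_bounded ((WI1_sum e).mul_right 2).hasSum (WI1_bd e r x)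
    rw [Real.norm_eq_abs] at this
    exact this
  · unfold gth
    refine continuous_tsum (fun j => ?_) ((WI1_sum e).mul_right 2) (fun j x => WI1_bd e r x j)
    have := WI1_fk_cont r
    fun_prop

end Pool.Agent.H.MP_82502e_co
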