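import Pool.Agent.H.MP_82502e_co.WI1

set_option autoImplicit false

/-!
# The window: limit functions: strict log-concavity
-/

namespace Pool.Agent.H.MP_82502e_co

open Finset Real MeasureTheory ProbabilityTheory

theorem WI2_alpha : (119 / 100 : ℝ) ≤ log 2 + 1 / 2 := by
  have := Real.log_two_gt_d9
  linarith

theorem WI2_q : exp (-(2 * (log 2 + 1 / 2))) ≤ 1 / 10 := by
  have h1 : -(2 * (log 2 + 1 / 2)) = -(log 2 + (log 2 + 1)) := by ring
  rw [h1, exp_neg, exp_add, exp_add, exp_log (by norm_num : (0 : ℝ) < 2)]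
  have h2 := Real.exp_one_gt_d9
  rw [inv_le_comm₀ (by positivity) (by norm_num)]
  linarith

/-- The exponent bound. -/
theorem WI2_exp_le {β : ℝ} (hβ : |β| ≤ log 2 + 1 / 2) (y : ℝ) (n : ℕ) (hy : |y| = n) :
    exp (-((log 2 + 1 / 2) * y ^ 2) - β * y) ≤ exp (-((log 2 + 1 / 2) * ((n : ℝ) * (n - 1)))) := by
  apply exp_le_exp.2
  have h1 : -(β * y) ≤ (log 2 + 1 / 2) * n := by
    have h2 : |β * y| ≤ (log 2 + 1 / 2) * n := by
      rw [abs_mul, hy]
      exact mul_le_mul_of_nonneg_right hβ (Nat.cast_nonneg n)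
    have := neg_abs_le (β * y)
    linarith
  have h3 : y ^ 2 = (n : ℝ) ^ 2 := by rw [← hy, sq_abs]
  rw [h3]
  nlinarith

/-- One side of the sum. -/
theorem WI2_side {f : ℕ → ℝ} (h0 : ∀ n, 0 ≤ f n)
    (h1 : ∀ n : ℕ, f n ≤ (n : ℝ) * (n + 2) * exp (-((log 2 + 1 / 2) * (((n : ℝ) + 1) * n)))) :
    Summable f ∧ ∑' n, f n < 1 / 2 := by
  have hb : ∀ n : ℕ, f n ≤ 9 / 8 * (4 / 15) ^ n - (if n = 0 then 9 / 8 else 0) := by
    intro n
    rcases Nat.eq_zero_or_pos n with hn | hn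
    · subst hn
      have := h1 0
      simp at this ⊢
      exact this
    · have hn1 : (1 : ℝ) ≤ n := by exact_mod_cast hn
      rw [if_neg (by omega)]
      refine (h1 n).trans ?_
      have h2 : exp (-((log 2 + 1 / 2) * (((n : ℝ) + 1) * n))) ≤ (1 / 10) ^ n := by
        calc exp (-((log 2 + 1 / 2) * (((n : ℝ) + 1) * n)))
            ≤ exp (n * -(2 * (log 2 + 1 / 2))) := by
              apply exp_le_exp.2
              have := WI2_alpha
              nlinarith [mul_nonneg (mul_nonneg (by linarith : (0 : ℝ) ≤ log 2 + 1 / 2)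
                (by linarith : (0 : ℝ) ≤ n)) (by linarith : (0 : ℝ) ≤ (n : ℝ) - 1)]
          _ = exp (-(2 * (log 2 + 1 / 2))) ^ n := exp_nat_mul _ n
          _ ≤ (1 / 10) ^ n := pow_le_pow_left₀ (exp_pos _).le WI2_q n
      have h3 : (n : ℝ) * (n + 2) ≤ 9 / 8 * (8 / 3) ^ n := by
        clear h2 hn1
        induction n, hn using Nat.le_induction with
        | base => norm_num
        | succ m hm ih =>
          have hm1 : (1 : ℝ) ≤ m := by exact_mod_cast hm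
          push_cast
          rw [pow_succ]
          nlinarith
      calc (n : ℝ) * (n + 2) * exp (-((log 2 + 1 / 2) * (((n : ℝ) + 1) * n)))
          ≤ (9 / 8 * (8 / 3) ^ n) * (1 / 10) ^ n :=
            mul_le_mul h3 h2 (exp_pos _).le (by positivity)
        _ = 9 / 8 * (4 / 15) ^ n := by
            rw [mul_assoc, ← mul_pow]; norm_num
        _ = 9 / 8 * (4 / 15) ^ n - 0 := by ring
  have hg : HasSum (fun n : ℕ => (9 / 8 : ℝ) * (4 / 15) ^ n) (9 / 8 * (1 - 4 / 15)⁻¹) :=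
    (hasSum_geometric_of_lt_one (by norm_num) (by norm_num)).mul_left _
  have hi : HasSum (fun n : ℕ => if n = 0 then (9 / 8 : ℝ) else 0) (9 / 8) :=
    hasSum_ite_eq 0 (9 / 8)
  have hs := hg.sub hi
  have hsum : Summable f := Summable.of_nonneg_of_le h0 hb hs.summable
  refine ⟨hsum, ?_⟩
  have h2 := hsum.tsum_le_tsum hb hs.summable
  rw [hs.tsum_eq] at h2
  refine lt_of_le_of_lt h2 ?_
  norm_num

/-- **Discrete Gaussians of parameter `α = log 2 + 1/2` have variance less than 1**: for `|β| ≤ α`, `Σ_{r ∈ ℤ} (r² - 1) e^{-α r² - β r} < 0`: the term `r = 0` is `-1`, the terms `r = ±1` vanish, and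
`Σ_{r≥2} (r²-1)(e^{-αr²+βr} + e^{-αr²-βr}) ≤ Σ_{r≥2} (r²-1)(e^{-αr(r-1)} + e^{-αr(r+1)}) < 1/2` (`r² - 1 ≤ 3·(8/3)^{r-2}`; `α ≥ 1.19`, `e^{-2α} ≤ 0.093`). -/
theorem disc_gauss {β : ℝ} (hβ : |β| ≤ log 2 + 1 / 2) :
    ∑' r : ℤ, ((r : ℝ) ^ 2 - 1) * exp (-((log 2 + 1 / 2) * (r : ℝ) ^ 2) - β * r) < 0 := by
  set F : ℤ → ℝ := fun r => ((r : ℝ) ^ 2 - 1) * exp (-((log 2 + 1 / 2) * (r : ℝ) ^ 2) - β * r)
    with hF
  have key : ∀ s : ℤ, s = 1 ∨ s = -1 → (∀ n : ℕ, 0 ≤ F (s * ((n : ℤ) + 1))) ∧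
      ∀ n : ℕ, F (s * ((n : ℤ) + 1)) ≤
        (n : ℝ) * (n + 2) * exp (-((log 2 + 1 / 2) * (((n : ℝ) + 1) * n))) := by
    intro s hs
    have h2 : ∀ n : ℕ, (((s * ((n : ℤ) + 1) : ℤ) : ℝ)) ^ 2 - 1 = (n : ℝ) * (n + 2) := by
      intro n
      rcases hs with h | h <;> subst h <;> push_cast <;> ring
    constructor
    · intro n
      rw [hF]
      simp only
      rw [h2]
      positivity
    · intro n
      rw [hF]
      simp only
      rw [h2]
      refine mul_le_mul_of_nonneg_left ?_ (by positivity)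
      have h3 : |((s * ((n : ℤ) + 1) : ℤ) : ℝ)| = ((n + 1 : ℕ) : ℝ) := by
        have h4 : |(n : ℝ) + 1| = n + 1 := abs_of_nonneg (by positivity)
        rcases hs with h | h <;> subst h <;> push_cast
        · rw [one_mul, h4]
        · rw [neg_one_mul, abs_neg, h4]
      have h5 := WI2_exp_le hβ _ _ h3
      refine h5.trans (le_of_eq ?_)
      push_cast
      ring_nf
  obtain ⟨h1a, h1b⟩ := key 1 (Or.inl rfl)
  obtain ⟨h2a, h2b⟩ := key (-1) (Or.inr rfl)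
  obtain ⟨s1, t1⟩ := WI2_side h1a h1b
  obtain ⟨s2, t2⟩ := WI2_side h2a h2b
  have e1 : (fun n : ℕ => F (1 * ((n : ℤ) + 1))) = fun n : ℕ => F ((n : ℤ) + 1) := by
    funext n; rw [one_mul]
  have e2 : (fun n : ℕ => F (-1 * ((n : ℤ) + 1))) = fun n : ℕ => F (-((n : ℤ) + 1)) := by
    funext n; rw [neg_one_mul]
  rw [e1] at s1 t1
  rw [e2] at s2 t2
  have h3 := tsum_of_add_one_of_neg_add_one s1 s2
  have h4 : F 0 = -1 := by rw [hF]; simp
  rw [h3, h4]
  linarith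

theorem WI2_summable (β : ℝ) (k : ℕ) : Summable fun r : ℤ =>
    (r : ℝ) ^ k * exp (-((log 2 + 1 / 2) * (r : ℝ) ^ 2) - β * r) := by
  have hα := WI2_alpha
  set α := log 2 + 1 / 2 with hα'
  have key : ∀ s : ℝ, s = 1 ∨ s = -1 → Summable fun n : ℕ =>
      (s * n) ^ k * exp (-(α * (s * (n : ℝ)) ^ 2) - β * (s * n)) := by
    intro s hs
    have hr : ‖exp (-1)‖ < 1 := by
      rw [Real.norm_eq_abs, abs_of_pos (exp_pos _)]
      exact Real.exp_lt_one_iff.2 (by norm_num)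
    have h0 : Summable fun n : ℕ => ((n : ℝ) ^ k * (exp (-1)) ^ n) :=
      summable_pow_mul_geometric_of_norm_lt_one (R := ℝ) k hr
    have h1 : Summable fun n : ℕ => exp ((|β| + 1) ^ 2) * ((n : ℝ) ^ k * (exp (-1)) ^ n) :=
      h0.mul_left _
    refine Summable.of_norm_bounded h1 (fun n => ?_)
    have hs1 : |s| = 1 := by rcases hs with h | h <;> subst h <;> simp
    have hs2 : s ^ 2 = 1 := by rcases hs with h | h <;> subst h <;> norm_num
    rw [norm_mul, norm_pow, Real.norm_eq_abs, Real.norm_eq_abs, abs_of_pos (exp_pos _), abs_mul, hs1,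
      one_mul, abs_of_nonneg (Nat.cast_nonneg n : (0 : ℝ) ≤ n)]
    rw [show exp ((|β| + 1) ^ 2) * ((n : ℝ) ^ k * (exp (-1)) ^ n) =
      (n : ℝ) ^ k * (exp ((|β| + 1) ^ 2) * (exp (-1)) ^ n) by ring]
    refine mul_le_mul_of_nonneg_left ?_ (by positivity)
    rw [← exp_nat_mul, ← exp_add]
    apply exp_le_exp.2
    have h2 : -(β * (s * n)) ≤ |β| * n := by
      have h3 := neg_abs_le (β * (s * n))
      rw [abs_mul, abs_mul, hs1, one_mul, abs_of_nonneg (Nat.cast_nonneg n : (0 : ℝ) ≤ n)] at h3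
      linarith
    have h4 : (s * (n : ℝ)) ^ 2 = (n : ℝ) ^ 2 := by rw [mul_pow, hs2, one_mul]
    rw [h4]
    have h5 : (n : ℝ) ^ 2 ≤ α * (n : ℝ) ^ 2 := by nlinarith [sq_nonneg (n : ℝ)]
    nlinarith [sq_nonneg ((n : ℝ) - (|β| + 1)), sq_nonneg ((n : ℝ)), sq_nonneg (|β| + 1)]
  refine Summable.of_nat_of_neg ?_ ?_
  · have := key 1 (Or.inl rfl)
    simpa using this
  · have := key (-1) (Or.inr rfl)
    refine this.congr (fun n => ?_)
    push_cast
    ring_nf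

/-- **Strict log-concavity** `g'' g < g'²`. `gth e 2 / gth e 0 = E (x+J)² - 1`, `gth e 1/gth e 0 = -E(x+J)` for the probability weights `p_J ∝ 2^(-J²) e^{-(x+J)²/2} ∝ e^{-αJ² - xJ}`; so the claim is `Var J < 1`; `Var J ≤ E (J - c)²`, `c` the point of `ℤ + e'/2` nearest to
`-x/(2α)`; with `J = c + r`: weights `∝ e^{-αr² - βr}`, `β = 2αc + x`, `|β| ≤ α`: `disc_gauss`. -/
theorem gth_logconcave (e : ℕ) (x : ℝ) : gth e 2 x * gth e 0 x < gth e 1 x ^ 2 := by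
  have hα := WI2_alpha
  set α := log 2 + 1 / 2 with hα'
  set c0 : ℝ := ((e : ℝ) + 1) / 2 with hc0
  set j0 : ℤ := round (-x / (2 * α) - c0) with hj0
  set c : ℝ := (j0 : ℝ) + c0 with hc
  set β : ℝ := 2 * α * c + x with hβ
  have hβ1 : |β| ≤ α := by
    have h1 := abs_sub_round (-x / (2 * α) - c0)
    rw [← hj0] at h1
    have h2 : β = -(2 * α) * (-x / (2 * α) - c0 - j0) := by
      rw [hβ, hc]
      field_simp
      ring
    rw [h2, abs_mul, abs_neg, abs_of_pos (by linarith : (0 : ℝ) < 2 * α)]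
    calc 2 * α * |-x / (2 * α) - c0 - j0| ≤ 2 * α * (1 / 2) :=
          mul_le_mul_of_nonneg_left h1 (by linarith)
      _ = α := by ring
  set K : ℝ := exp (-(log 2 * c ^ 2) - (x + c) ^ 2 / 2) with hK
  have hKpos : 0 < K := exp_pos _
  set w : ℤ → ℝ := fun r => exp (-(α * (r : ℝ) ^ 2) - β * r) with hw
  have hwt : ∀ r : ℤ, (2 : ℝ) ^ (-(((r + j0 : ℤ) : ℝ) + (e + 1) / 2) ^ 2) *
      exp (-((x + (((r + j0 : ℤ) : ℝ) + (e + 1) / 2)) ^ 2 / 2)) = K * w r := by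
    intro r
    rw [Real.rpow_def_of_pos (by norm_num : (0 : ℝ) < 2), hK, hw, ← exp_add, ← exp_add]
    congr 1
    push_cast
    rw [hβ, hα', hc, hc0]
    ring
  have hS : ∀ k : ℕ, Summable fun r : ℤ => (r : ℝ) ^ k * w r := fun k => WI2_summable β k
  set S0 := ∑' r : ℤ, (r : ℝ) ^ 0 * w r with hS0
  set S1 := ∑' r : ℤ, (r : ℝ) ^ 1 * w r with hS1
  set S2 := ∑' r : ℤ, (r : ℝ) ^ 2 * w r with hS2
  have g0 : gth e 0 x = K * S0 := by
    unfold gth
    rw [← (Equiv.addRight j0).tsum_eq, hS0, ← tsum_mul_left]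
    congr 1
    funext r
    simp only [Equiv.coe_addRight, fk, if_true]
    rw [hwt]
    ring
  have g1 : gth e 1 x = K * (-((x + c) * S0) - S1) := by
    unfold gth
    have h1 : HasSum (fun r : ℤ => K * (-((x + c) * ((r : ℝ) ^ 0 * w r)) - (r : ℝ) ^ 1 * w r))
        (K * (-((x + c) * S0) - S1)) :=
      ((((hS 0).hasSum.mul_left (x + c)).neg).sub (hS 1).hasSum).mul_left K
    rw [← (Equiv.addRight j0).tsum_eq, ← h1.tsum_eq]
    congr 1
    funext r
    simp only [Equiv.coe_addRight, fk]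
    rw [if_neg (by norm_num), if_pos trivial]
    calc (2 : ℝ) ^ (-(((r + j0 : ℤ) : ℝ) + (e + 1) / 2) ^ 2) *
        (-(x + (((r + j0 : ℤ) : ℝ) + (e + 1) / 2)) *
          exp (-((x + (((r + j0 : ℤ) : ℝ) + (e + 1) / 2)) ^ 2 / 2)))
        = -(x + (((r + j0 : ℤ) : ℝ) + (e + 1) / 2)) * (K * w r) := by rw [← hwt]; ring
      _ = _ := by push_cast; rw [hc, hc0]; ring
  have g2 : gth e 2 x = K * ((x + c) ^ 2 * S0 + 2 * (x + c) * S1 + (S2 - S0)) := by
    unfold gth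
    have h1 : HasSum (fun r : ℤ => K * ((x + c) ^ 2 * ((r : ℝ) ^ 0 * w r) +
        2 * (x + c) * ((r : ℝ) ^ 1 * w r) + ((r : ℝ) ^ 2 * w r - (r : ℝ) ^ 0 * w r)))
        (K * ((x + c) ^ 2 * S0 + 2 * (x + c) * S1 + (S2 - S0))) :=
      ((((hS 0).hasSum.mul_left ((x + c) ^ 2)).add ((hS 1).hasSum.mul_left (2 * (x + c)))).add
        ((hS 2).hasSum.sub (hS 0).hasSum)).mul_left K
    rw [← (Equiv.addRight j0).tsum_eq, ← h1.tsum_eq]
    congr 1
    funext r
    simp only [Equiv.coe_addRight, fk]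
    rw [if_neg (by norm_num), if_neg (by norm_num)]
    calc (2 : ℝ) ^ (-(((r + j0 : ℤ) : ℝ) + (e + 1) / 2) ^ 2) *
        (((x + (((r + j0 : ℤ) : ℝ) + (e + 1) / 2)) ^ 2 - 1) *
          exp (-((x + (((r + j0 : ℤ) : ℝ) + (e + 1) / 2)) ^ 2 / 2)))
        = ((x + (((r + j0 : ℤ) : ℝ) + (e + 1) / 2)) ^ 2 - 1) * (K * w r) := by rw [← hwt]; ring
      _ = _ := by push_cast; rw [hc, hc0]; ring
  have hneg : S2 - S0 < 0 := by
    have h1 := disc_gauss hβ1
    have h2 : HasSum (fun r : ℤ => (r : ℝ) ^ 2 * w r - (r : ℝ) ^ 0 * w r) (S2 - S0) :=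
      (hS 2).hasSum.sub (hS 0).hasSum
    rw [← h2.tsum_eq]
    refine lt_of_eq_of_lt ?_ h1
    congr 1
    funext r
    rw [hw]
    simp only
    ring
  have hS0pos : 0 < S0 := by
    have : gth e 0 x = K * S0 := g0
    have h1 := gth_pos e x
    rw [this] at h1
    exact (mul_pos_iff_of_pos_left hKpos).1 h1
  rw [g0, g1, g2]
  have h3 : (K * (-((x + c) * S0) - S1)) ^ 2 -
      K * ((x + c) ^ 2 * S0 + 2 * (x + c) * S1 + (S2 - S0)) * (K * S0) =
      K ^ 2 * (S1 ^ 2 + (-(S2 - S0)) * S0) := by ring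
  have h4 : 0 < K ^ 2 * (S1 ^ 2 + (-(S2 - S0)) * S0) := by
    have : 0 < (-(S2 - S0)) * S0 := mul_pos (by linarith) hS0pos
    positivity
  linarith

end Pool.Agent.H.MP_82502e_co
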