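import Pool.Agent.H.MP_82502e_co.WI2

set_option autoImplicit false

/-!
# The window: limit functions: Ibragimov's argument
-/

namespace Pool.Agent.H.MP_82502e_co

open Finset Real MeasureTheory ProbabilityTheory

/-- The abstract form: `G` differentiable, `G 0 = 0`, `G < 0` on `(0,∞)`, `G` and `G'` bounded. -/
theorem WI3_core {G G' : ℝ → ℝ} (hG : ∀ a, HasDerivAt G (G' a) a) (h0 : G 0 = 0)
    (hneg : ∀ a, 0 < a → G a < 0) (hcont : Continuous G') {C : ℝ} (hC : ∀ a, |G a| ≤ C)
    (hC' : ∀ a, |G' a| ≤ C) :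
    ∫ u : ℝ, exp (-(u ^ 2) / 2) * G' (u ^ 2 / 2) < 0 := by
  have hC0 : 0 ≤ C := (abs_nonneg _).trans (hC 0)
  have hGc : Continuous G := continuous_iff_continuousAt.2 fun a => (hG a).continuousAt
  -- the linear bound
  have hlin : ∀ a, |G a| ≤ C * |a| := by
    intro a
    have := Convex.norm_image_sub_le_of_norm_hasDerivWithin_le (f := G) (f' := G') (C := C)
      (s := Set.univ) (x := 0) (y := a) (fun x _ => (hG x).hasDerivWithinAt)
      (fun x _ => by simpa using hC' x) convex_univ (Set.mem_univ _) (Set.mem_univ _)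
    simpa [h0] using this
  -- Gaussian integrability
  have hgi : Integrable (fun u : ℝ => exp (-(u ^ 2) / 2)) := by
    have := integrable_exp_neg_mul_sq (b := (1 / 2 : ℝ)) (by norm_num)
    refine this.congr (Filter.Eventually.of_forall fun u => ?_)
    simp only
    congr 1
    ring
  -- the two parts
  set A : ℝ → ℝ := fun u => exp (-(u ^ 2) / 2) * G' (u ^ 2 / 2) with hA
  set B : ℝ → ℝ := fun u => exp (-(u ^ 2) / 2) * (G (u ^ 2 / 2) * (1 + 1 / u ^ 2)) with hB
  have hAi : Integrable A := by
    refine (hgi.const_mul C).mono' ?_ (Filter.Eventually.of_forall fun u => ?_)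
    · exact (Continuous.aestronglyMeasurable (by fun_prop))
    · simp only [hA, norm_mul, Real.norm_eq_abs, abs_exp]
      rw [mul_comm C]
      exact mul_le_mul_of_nonneg_left (hC' _) (exp_pos _).le
  have hBb : ∀ u : ℝ, |G (u ^ 2 / 2) * (1 + 1 / u ^ 2)| ≤ C + C := by
    intro u
    rw [abs_mul]
    have h1 : |1 + 1 / u ^ 2| = 1 + 1 / u ^ 2 := abs_of_nonneg (by positivity)
    rw [h1, mul_add, mul_one]
    refine add_le_add (hC _) ?_
    by_cases hu : u = 0
    · subst hu
      simp [hC0]
    · have h2 := hlin (u ^ 2 / 2)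
      rw [abs_of_nonneg (by positivity : (0 : ℝ) ≤ u ^ 2 / 2)] at h2
      have h3 : |G (u ^ 2 / 2)| * (1 / u ^ 2) ≤ C * (u ^ 2 / 2) * (1 / u ^ 2) :=
        mul_le_mul_of_nonneg_right h2 (by positivity)
      have h4 : C * (u ^ 2 / 2) * (1 / u ^ 2) = C / 2 := by
        have : u ^ 2 ≠ 0 := pow_ne_zero _ hu
        field_simp
      linarith
  have hBi : Integrable B := by
    refine (hgi.const_mul (C + C)).mono' ?_ (Filter.Eventually.of_forall fun u => ?_)
    · refine Measurable.aestronglyMeasurable ?_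
      have hm : Measurable (fun u : ℝ => G (u ^ 2 / 2)) :=
        (hGc.comp (by fun_prop : Continuous fun u : ℝ => u ^ 2 / 2)).measurable
      have he : Measurable (fun u : ℝ => exp (-(u ^ 2) / 2)) := by fun_prop
      exact he.mul (hm.mul (by fun_prop))
    · simp only [hB, norm_mul (exp (-(u ^ 2) / 2)), Real.norm_eq_abs, abs_exp]
      rw [mul_comm (C + C)]
      exact mul_le_mul_of_nonneg_left (hBb u) (exp_pos _).le
  -- the antiderivative
  set F : ℝ → ℝ := fun u => G (u ^ 2 / 2) * exp (-(u ^ 2) / 2) / u with hF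
  set F' : ℝ → ℝ := fun u => if u = 0 then G' 0 / 2 else A u - B u with hF'
  have hFd : ∀ u, HasDerivAt F (F' u) u := by
    intro u
    by_cases hu : u = 0
    · subst hu
      simp only [hF', if_true]
      rw [hasDerivAt_iff_tendsto_slope]
      -- slope at zero
      have hG0 : Filter.Tendsto (fun a : ℝ => G a / a) (nhdsWithin 0 {0}ᶜ) (nhds (G' 0)) := by
        have := (hG 0).tendsto_slope
        refine this.congr fun a => ?_
        simp [slope_def_field, h0]
      have hsq : Filter.Tendsto (fun u : ℝ => u ^ 2 / 2) (nhdsWithin 0 {0}ᶜ)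
          (nhdsWithin 0 {0}ᶜ) := by
        refine tendsto_nhdsWithin_iff.2 ⟨?_, ?_⟩
        · have : Filter.Tendsto (fun u : ℝ => u ^ 2 / 2) (nhds 0) (nhds ((0 : ℝ) ^ 2 / 2)) :=
            (by fun_prop : Continuous fun u : ℝ => u ^ 2 / 2).tendsto 0
          simp only [ne_eq, OfNat.ofNat_ne_zero, not_false_eq_true, zero_pow, zero_div] at this
          exact this.mono_left nhdsWithin_le_nhds
        · filter_upwards [self_mem_nhdsWithin] with u hu
          have hu' : u ≠ 0 := hu
          simp only [Set.mem_compl_iff, Set.mem_singleton_iff, div_eq_zero_iff, not_or]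
          exact ⟨pow_ne_zero _ hu', by norm_num⟩
      have hexp : Filter.Tendsto (fun u : ℝ => exp (-(u ^ 2) / 2) / 2) (nhdsWithin 0 {0}ᶜ)
          (nhds (1 / 2)) := by
        have : Filter.Tendsto (fun u : ℝ => exp (-(u ^ 2) / 2) / 2) (nhds 0)
            (nhds (exp (-((0 : ℝ) ^ 2) / 2) / 2)) :=
          (by fun_prop : Continuous fun u : ℝ => exp (-(u ^ 2) / 2) / 2).tendsto 0
        simp only [ne_eq, OfNat.ofNat_ne_zero, not_false_eq_true, zero_pow, neg_zero, zero_div,
          Real.exp_zero] at this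
        exact this.mono_left nhdsWithin_le_nhds
      have hprod := (hG0.comp hsq).mul hexp
      have e1 : G' 0 * (1 / 2) = G' 0 / 2 := by ring
      rw [e1] at hprod
      refine hprod.congr' ?_
      filter_upwards [self_mem_nhdsWithin] with u hu
      have hu' : u ≠ 0 := hu
      simp only [Function.comp, slope_def_field, hF]
      field_simp
      simp
      ring
    · simp only [hF', if_neg hu]
      have d1 : HasDerivAt (fun u : ℝ => u ^ 2 / 2) u u := by
        have := (hasDerivAt_pow 2 u).div_const 2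
        simpa using this
      have d2 : HasDerivAt (fun u : ℝ => G (u ^ 2 / 2)) (G' (u ^ 2 / 2) * u) u :=
        (hG (u ^ 2 / 2)).comp u d1
      have d3 : HasDerivAt (fun u : ℝ => exp (-(u ^ 2) / 2)) (exp (-(u ^ 2) / 2) * (-u)) u := by
        have : HasDerivAt (fun u : ℝ => -(u ^ 2) / 2) (-u) u := by
          have := d1.neg
          refine this.congr_of_eventuallyEq (Filter.Eventually.of_forall fun v => ?_)
          simp only [Pi.neg_apply]
          ring
        exact this.exp
      have d4 := (d2.mul d3).div (hasDerivAt_id u) hu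
      refine d4.congr_deriv ?_
      simp only [hA, hB, id, Pi.mul_apply]
      field_simp
      ring
  have hF'i : Integrable F' := by
    refine (hAi.sub hBi).congr ?_
    have : ∀ᵐ u : ℝ, u ≠ 0 := by
      simp [ae_iff, measure_singleton]
    filter_upwards [this] with u hu
    simp [hF', hu]
  -- limits of F
  have hlim : ∀ l : Filter ℝ, Filter.Tendsto (fun u : ℝ => |u|) l Filter.atTop →
      Filter.Tendsto F l (nhds 0) := by
    intro l hl
    have h1 : Filter.Tendsto (fun u : ℝ => C * |u|⁻¹) l (nhds 0) := by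
      simpa using (tendsto_inv_atTop_zero.comp hl).const_mul C
    refine squeeze_zero_norm (fun u => ?_) h1
    simp only [hF, norm_div, norm_mul, Real.norm_eq_abs, abs_exp]
    rw [div_eq_mul_inv]
    refine mul_le_mul_of_nonneg_right ?_ (by positivity)
    calc |G (u ^ 2 / 2)| * exp (-(u ^ 2) / 2) ≤ C * 1 := by
          refine mul_le_mul (hC _) ?_ (exp_pos _).le hC0
          rw [Real.exp_le_one_iff]
          have : 0 ≤ u ^ 2 := sq_nonneg u
          linarith
      _ = C := mul_one _
  have hint := integral_of_hasDerivAt_of_tendsto hFd hF'i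
    (hlim _ Filter.tendsto_abs_atBot_atTop) (hlim _ Filter.tendsto_abs_atTop_atTop)
  have hAB : ∫ u, A u = ∫ u, B u := by
    have h1 : ∫ u, F' u = ∫ u, (A u - B u) := by
      refine integral_congr_ae ?_
      have : ∀ᵐ u : ℝ, u ≠ 0 := by
        simp [ae_iff, measure_singleton]
      filter_upwards [this] with u hu
      simp [hF', hu]
    rw [h1, integral_sub hAi hBi] at hint
    linarith
  show ∫ u, A u < 0
  rw [hAB]
  -- the integral of B is negative
  have hBneg : ∀ u : ℝ, u ≠ 0 → B u < 0 := by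
    intro u hu
    have hu2 : 0 < u ^ 2 / 2 := by positivity
    have h1 := hneg _ hu2
    have h2 : 0 < 1 + 1 / u ^ 2 := by positivity
    have h3 : G (u ^ 2 / 2) * (1 + 1 / u ^ 2) < 0 := mul_neg_of_neg_of_pos h1 h2
    exact mul_neg_of_pos_of_neg (exp_pos _) h3
  have hpos : 0 < ∫ u, -(B u) := by
    rw [integral_pos_iff_support_of_nonneg_ae]
    · refine lt_of_lt_of_le ?_ (measure_mono (s := {(0 : ℝ)}ᶜ) ?_)
      · rw [measure_compl (measurableSet_singleton _) (by simp)]
        simp
      · intro u hu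
        have hu' : u ≠ 0 := hu
        simp only [Function.mem_support, ne_eq, neg_eq_zero]
        exact (hBneg u hu').ne
    · refine Filter.Eventually.of_forall fun u => ?_
      simp only [Pi.zero_apply, Left.nonneg_neg_iff]
      by_cases hu : u = 0
      · subst hu
        simp [hB, h0]
      · exact (hBneg u hu).le
    · exact hBi.neg
  rw [integral_neg] at hpos
  linarith

/-- **Ibragimov's argument.** `W = u²/2`, `u` standard Gaussian, has the decreasing density `w^(-1/2) e^(-w)/√π` on `(0, ∞)`. Let `G(a) = g'(τ+a) g(τ) - g(τ+a) g'(τ)`: `G(0) = 0`, and `G(a) < 0` for `a > 0` since `g'/g` is strictly decreasing (`gth_logconcave`). Then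
`E[G'(W)] = ∫ h G' = -∫ h' G = ∫ |h'| G < 0`; `G'(a) = g''(τ+a) g(τ) - g'(τ+a) g'(τ)`. (In terms of `u`: `∫ G'(u²/2) dγ(u) = √(2/π) ∫_0^∞ (1 + 1/v²) e^{-v²/2} G(v²/2) dv`, integration by parts with the antiderivative `G(v²/2)` of `v G'(v²/2)` and the factor
`e^{-v²/2}/v`; boundary terms: `G(v²/2)/v → 0` at `0` because `|G(a)| ≤ C a`.) -/
theorem ibragimov (e : ℕ) (τ : ℝ) :
    (∫ u, gth e 2 (τ + u ^ 2 / 2) ∂(gaussianReal 0 1)) * gth e 0 τ <
      (∫ u, gth e 1 (τ + u ^ 2 / 2) ∂(gaussianReal 0 1)) * gth e 1 τ := by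
  obtain ⟨C, hC⟩ := gth_bdd e
  have hpos := gth_pos e
  -- the quotient is strictly decreasing
  have hq : StrictAnti (fun x => gth e 1 x / gth e 0 x) := by
    refine strictAnti_of_deriv_neg fun x => ?_
    have h1 := ((gth_deriv e x).2.div (gth_deriv e x).1 (hpos x).ne').deriv
    have h2 : deriv (fun x => gth e 1 x / gth e 0 x) x = _ := h1
    rw [h2]
    refine div_neg_of_neg_of_pos ?_ (pow_pos (hpos x) 2)
    have := gth_logconcave e x
    nlinarith
  set G : ℝ → ℝ := fun a => gth e 1 (τ + a) * gth e 0 τ - gth e 0 (τ + a) * gth e 1 τ with hG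
  set G' : ℝ → ℝ := fun a => gth e 2 (τ + a) * gth e 0 τ - gth e 1 (τ + a) * gth e 1 τ with hG'
  have hd : ∀ a, HasDerivAt G (G' a) a := by
    intro a
    have s : HasDerivAt (fun a : ℝ => τ + a) 1 a := by
      simpa using (hasDerivAt_id a).const_add τ
    have h1 : HasDerivAt (fun a => gth e 1 (τ + a)) (gth e 2 (τ + a)) a := by
      have := (gth_deriv e (τ + a)).2.scomp a s
      simpa [Function.comp_def] using this
    have h2 : HasDerivAt (fun a => gth e 0 (τ + a)) (gth e 1 (τ + a)) a := by
      have := (gth_deriv e (τ + a)).1.scomp a s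
      simpa [Function.comp_def] using this
    exact (h1.mul_const _).sub (h2.mul_const _)
  have h0 : G 0 = 0 := by
    simp only [hG, add_zero]
    ring
  have hneg : ∀ a, 0 < a → G a < 0 := by
    intro a ha
    have h1 : gth e 1 (τ + a) / gth e 0 (τ + a) < gth e 1 τ / gth e 0 τ := hq (by linarith)
    rw [div_lt_div_iff₀ (hpos _) (hpos _)] at h1
    simp only [hG]
    linarith
  have c0 := (hC 0 (by norm_num))
  have c1 := (hC 1 (by norm_num))
  have c2 := (hC 2 (by norm_num))
  have hcont : Continuous G' := by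
    have h1 : Continuous fun a => gth e 2 (τ + a) := c2.2.comp (by fun_prop)
    have h2 : Continuous fun a => gth e 1 (τ + a) := c1.2.comp (by fun_prop)
    exact (h1.mul continuous_const).sub (h2.mul continuous_const)
  have hCnn : 0 ≤ C := (abs_nonneg _).trans (c0.1 0)
  have hb1 : ∀ a, |G a| ≤ C * C + C * C := by
    intro a
    simp only [hG]
    refine (abs_sub _ _).trans ?_
    rw [abs_mul, abs_mul]
    exact add_le_add (mul_le_mul (c1.1 _) (c0.1 _) (abs_nonneg _) hCnn)
      (mul_le_mul (c0.1 _) (c1.1 _) (abs_nonneg _) hCnn)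
  have hb2 : ∀ a, |G' a| ≤ C * C + C * C := by
    intro a
    simp only [hG']
    refine (abs_sub _ _).trans ?_
    rw [abs_mul, abs_mul]
    exact add_le_add (mul_le_mul (c2.1 _) (c0.1 _) (abs_nonneg _) hCnn)
      (mul_le_mul (c1.1 _) (c1.1 _) (abs_nonneg _) hCnn)
  have key := WI3_core hd h0 hneg hcont hb1 hb2
  have hint : ∀ r ≤ 2, Integrable (fun u : ℝ => gth e r (τ + u ^ 2 / 2)) (gaussianReal 0 1) := by
    intro r hr
    have hc : Continuous fun u : ℝ => gth e r (τ + u ^ 2 / 2) := (hC r hr).2.comp (by fun_prop)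
    refine Integrable.of_bound hc.aestronglyMeasurable C
      (Filter.Eventually.of_forall fun u => ?_)
    exact (hC r hr).1 _
  have e1 : (∫ u, gth e 2 (τ + u ^ 2 / 2) ∂(gaussianReal 0 1)) * gth e 0 τ -
      (∫ u, gth e 1 (τ + u ^ 2 / 2) ∂(gaussianReal 0 1)) * gth e 1 τ =
      ∫ u, G' (u ^ 2 / 2) ∂(gaussianReal 0 1) := by
    rw [← integral_mul_const, ← integral_mul_const, ← integral_sub]
    · exact (hint 2 le_rfl).mul_const _
    · exact (hint 1 (by norm_num)).mul_const _
  have e2 : ∫ u, G' (u ^ 2 / 2) ∂(gaussianReal 0 1) =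
      (√(2 * π))⁻¹ * ∫ u : ℝ, exp (-(u ^ 2) / 2) * G' (u ^ 2 / 2) := by
    rw [integral_gaussianReal_eq_integral_smul one_ne_zero, ← integral_const_mul]
    congr 1
    ext u
    simp only [gaussianPDFReal, NNReal.coe_one, mul_one, sub_zero, smul_eq_mul]
    ring
  have h3 : (√(2 * π))⁻¹ * ∫ u : ℝ, exp (-(u ^ 2) / 2) * G' (u ^ 2 / 2) < 0 :=
    mul_neg_of_pos_of_neg (by positivity) key
  linarith

end Pool.Agent.H.MP_82502e_co
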