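import Pool.Agent.H.MP_82502e_co.WDefL

set_option autoImplicit false

/-!
# The window: peak: central binomial coefficients, kernels
-/

namespace Pool.Agent.H.MP_82502e_co

open Finset Real

theorem WL2_step_up (m : ℕ) : 2 * (m + 1) * cb m ≤ (m + 2) * cb (m + 1) := by
  rcases Nat.even_or_odd' m with ⟨a, h | h⟩
  · subst h
    have e1 : (2 * a) / 2 = a := by omega
    have e2 : (2 * a + 1) / 2 = a := by omega
    rw [cb, cb, e1, e2]
    have h1 := Nat.choose_mul_succ_eq (2 * a) a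
    have h2 : 2 * a + 1 - a = a + 1 := by omega
    rw [h2] at h1
    nlinarith
  · subst h
    have e1 : (2 * a + 1) / 2 = a := by omega
    have e2 : (2 * a + 1 + 1) / 2 = a + 1 := by omega
    rw [cb, cb, e1, e2]
    have h1 : (2 * a + 1 + 1).choose (a + 1) = 2 * (2 * a + 1).choose a := by
      have h3 : (2 * a + 1 + 1).choose (a + 1) =
          (2 * a + 1).choose a + (2 * a + 1).choose (a + 1) := Nat.choose_succ_succ _ _
      have h4 : (2 * a + 1).choose (a + 1) = (2 * a + 1).choose a :=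
        Nat.choose_symm_of_eq_add (by omega)
      omega
    rw [h1]
    nlinarith [Nat.zero_le ((2 * a + 1).choose a)]

theorem WL2_step_low (m : ℕ) : cb (m + 1) ≤ 2 * cb m := by
  unfold cb
  rcases Nat.eq_zero_or_pos ((m + 1) / 2) with h | h
  · rw [h]
    have : m / 2 = 0 := by omega
    rw [this]
    simp
  · obtain ⟨b, hb⟩ : ∃ b, (m + 1) / 2 = b + 1 := ⟨(m + 1) / 2 - 1, by omega⟩
    rw [hb, Nat.choose_succ_succ, two_mul]
    exact Nat.add_le_add (Nat.choose_le_middle _ _) (Nat.choose_le_middle _ _)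

theorem WL2_up (N j : ℕ) (h : j ≤ N) : 2 ^ j * (N - j + 1) * cb (N - j) ≤ (N + 1) * cb N := by
  induction j with
  | zero => simp
  | succ j ih =>
    have h1 := ih (by omega)
    have h2 := WL2_step_up (N - (j + 1))
    have e1 : N - (j + 1) + 1 = N - j := by omega
    have e2 : N - (j + 1) + 2 = N - j + 1 := by omega
    rw [e1, e2] at h2
    rw [e1]
    calc 2 ^ (j + 1) * (N - j) * cb (N - (j + 1)) = 2 ^ j * (2 * (N - j) * cb (N - (j + 1))) := by
          ring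
      _ ≤ 2 ^ j * ((N - j + 1) * cb (N - j)) := Nat.mul_le_mul_left _ h2
      _ = 2 ^ j * (N - j + 1) * cb (N - j) := by ring
      _ ≤ _ := h1

theorem WL2_low (N j : ℕ) (h : j ≤ N) : cb N ≤ 2 ^ j * cb (N - j) := by
  induction j with
  | zero => simp
  | succ j ih =>
    have h1 := ih (by omega)
    have h2 := WL2_step_low (N - (j + 1))
    have e1 : N - (j + 1) + 1 = N - j := by omega
    rw [e1] at h2
    calc cb N ≤ 2 ^ j * cb (N - j) := h1
      _ ≤ 2 ^ j * (2 * cb (N - (j + 1))) := Nat.mul_le_mul_left _ h2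
      _ = 2 ^ (j + 1) * cb (N - (j + 1)) := by ring

theorem WL2_cb_pos (N : ℕ) : 0 < cb N := Nat.choose_pos (Nat.div_le_self N 2)

theorem WL2_rpow (j : ℕ) : (2 : ℝ) ^ (-(j : ℝ)) = 1 / 2 ^ j := by
  rw [rpow_neg (by norm_num), rpow_natCast, one_div]

/-- `cb (N-1) = cb N / 2` for even `N`, `= cb N (1 + 1/N)/2` for odd `N`; so `cb (N-j) ≤ 3·2^(-j) cb N` for `2 j ≤ N`. -/
theorem cb_sub_le {N j : ℕ} (h : 2 * j ≤ N) : (cb (N - j) : ℝ) ≤ 3 * (2 : ℝ) ^ (-(j : ℝ)) * cb N := by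
  have h1 := WL2_up N j (by omega)
  have h2 : 2 ^ j * cb (N - j) ≤ 3 * cb N := by
    have h3 : (N - j + 1) * (2 ^ j * cb (N - j)) ≤ (N - j + 1) * (3 * cb N) := by
      calc (N - j + 1) * (2 ^ j * cb (N - j)) = 2 ^ j * (N - j + 1) * cb (N - j) := by ring
        _ ≤ (N + 1) * cb N := h1
        _ ≤ ((N - j + 1) * 3) * cb N := Nat.mul_le_mul_right _ (by omega)
        _ = (N - j + 1) * (3 * cb N) := by ring
    exact Nat.le_of_mul_le_mul_left h3 (by omega)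
  have h4 : (2 : ℝ) ^ j * cb (N - j) ≤ 3 * cb N := by exact_mod_cast h2
  rw [WL2_rpow]
  have h5 : (0 : ℝ) < 2 ^ j := by positivity
  rw [mul_one_div, div_mul_eq_mul_div, le_div_iff₀ h5]
  linarith

/-- Crude bounds for all `N ≥ 1`. -/
theorem cb_crude {N : ℕ} (hN : 1 ≤ N) : (2 : ℝ) ^ N / (N + 1) ≤ cb N ∧ (cb N : ℝ) ≤ 2 ^ N := by
  constructor
  · rw [div_le_iff₀ (by positivity)]
    have h1 : 2 ^ N ≤ cb N * (N + 1) := by
      rw [← Nat.sum_range_choose N]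
      calc ∑ m ∈ range (N + 1), N.choose m ≤ ∑ m ∈ range (N + 1), cb N :=
            Finset.sum_le_sum fun m _ => Nat.choose_le_middle m N
        _ = cb N * (N + 1) := by simp [mul_comm]
    exact_mod_cast h1
  · have h1 : cb N ≤ 2 ^ N := Nat.choose_le_two_pow _ _
    exact_mod_cast h1

/-- For fixed `j`: `cb (N-j)/cb N → 2^(-j)`. -/
theorem cb_ratio (j : ℕ) :
    Filter.Tendsto (fun N : ℕ => (cb (N - j) : ℝ) / cb N) Filter.atTop (nhds ((2 : ℝ) ^ (-(j : ℝ)))) := by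
  rw [WL2_rpow]
  have hlim : Filter.Tendsto (fun N : ℕ => (1 : ℝ) / 2 ^ j * (1 + (j : ℝ) / ((N - j : ℕ) + 1 : ℝ)))
      Filter.atTop (nhds (1 / 2 ^ j * (1 + 0))) := by
    refine Filter.Tendsto.const_mul _ (Filter.Tendsto.const_add _ ?_)
    refine Filter.Tendsto.const_div_atTop ?_ _
    refine Filter.tendsto_atTop_add_const_right _ _ ?_
    exact tendsto_natCast_atTop_atTop.comp (Filter.tendsto_sub_atTop_nat j)
  rw [add_zero, mul_one] at hlim
  refine tendsto_of_tendsto_of_tendsto_of_le_of_le' tendsto_const_nhds hlim ?_ ?_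
  · filter_upwards [Filter.eventually_ge_atTop j] with N hN
    have h1 : (cb N : ℝ) ≤ 2 ^ j * cb (N - j) := by exact_mod_cast WL2_low N j hN
    have h2 : (0 : ℝ) < cb N := by exact_mod_cast WL2_cb_pos N
    rw [div_le_div_iff₀ (by positivity) h2]
    linarith
  · filter_upwards [Filter.eventually_ge_atTop j] with N hN
    have h1 : (2 : ℝ) ^ j * ((N - j : ℕ) + 1) * cb (N - j) ≤ (N + 1) * cb N := by
      exact_mod_cast WL2_up N j hN
    have h2 : (0 : ℝ) < cb N := by exact_mod_cast WL2_cb_pos N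
    have h3 : (0 : ℝ) < ((N - j : ℕ) : ℝ) + 1 := by positivity
    have h4 : ((N - j : ℕ) : ℝ) = (N : ℝ) - j := by rw [Nat.cast_sub hN]
    have h5 : (1 : ℝ) / 2 ^ j * (1 + (j : ℝ) / (((N - j : ℕ) : ℝ) + 1)) =
        (N + 1) / (2 ^ j * (((N - j : ℕ) : ℝ) + 1)) := by
      rw [h4] at h3 ⊢
      field_simp
      ring
    rw [h5, div_le_div_iff₀ h2 (by positivity)]
    linarith

/-- The derivative of the kernels. -/
noncomputable def WL2_fd (r : ℕ) (w : ℝ) : ℝ :=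
  if r = 0 then -w * exp (-(w ^ 2 / 2)) else if r = 1 then (w ^ 2 - 1) * exp (-(w ^ 2 / 2))
  else (3 * w - w ^ 3) * exp (-(w ^ 2 / 2))

theorem WL2_deriv {r : ℕ} (hr : r ≤ 2) (w : ℝ) : HasDerivAt (fk r) (WL2_fd r w) w := by
  have hE : HasDerivAt (fun w : ℝ => exp (-(w ^ 2 / 2))) (-w * exp (-(w ^ 2 / 2))) w := by
    have h1 : HasDerivAt (fun w : ℝ => -(w ^ 2 / 2)) (-w) w := by
      have := ((hasDerivAt_pow 2 w).div_const 2).neg
      refine this.congr_deriv ?_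
      norm_num
    have := h1.exp
    refine this.congr_deriv ?_
    ring
  rcases r with _ | r
  · have : fk 0 = fun w : ℝ => exp (-(w ^ 2 / 2)) := by funext x; simp [fk]
    rw [this]
    simpa [WL2_fd] using hE
  rcases r with _ | r
  · have : fk (0 + 1) = fun w : ℝ => -w * exp (-(w ^ 2 / 2)) := by funext x; simp [fk]
    rw [this]
    have h2 := (hasDerivAt_id w).neg.mul hE
    refine h2.congr_deriv ?_
    simp only [WL2_fd]
    simp
    ring
  rcases r with _ | r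
  · have : fk (0 + 1 + 1) = fun w : ℝ => (w ^ 2 - 1) * exp (-(w ^ 2 / 2)) := by
      funext x; simp [fk]
    rw [this]
    have h2 := ((hasDerivAt_pow 2 w).sub_const 1).mul hE
    refine h2.congr_deriv ?_
    simp only [WL2_fd]
    simp
    ring
  · omega

theorem WL2_b0 (w : ℝ) : exp (-(w ^ 2 / 2)) ≤ 1 := by
  rw [exp_le_one_iff]
  have := sq_nonneg w
  linarith

theorem WL2_b2 (w : ℝ) : w ^ 2 * exp (-(w ^ 2 / 2)) ≤ 2 := by
  have h1 := add_one_le_exp (w ^ 2 / 2)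
  rw [exp_neg, ← div_eq_mul_inv, div_le_iff₀ (exp_pos _)]
  linarith

theorem WL2_b4 (w : ℝ) : w ^ 4 * exp (-(w ^ 2 / 2)) ≤ 8 := by
  have h1 := quadratic_le_exp_of_nonneg (x := w ^ 2 / 2) (by positivity)
  rw [exp_neg, ← div_eq_mul_inv, div_le_iff₀ (exp_pos _)]
  nlinarith [sq_nonneg w]

theorem WL2_bd {P Q : ℝ} {w : ℝ} (h : |P| ≤ Q) {C : ℝ} (hQ : Q * exp (-(w ^ 2 / 2)) ≤ C) :
    |P * exp (-(w ^ 2 / 2))| ≤ C := by
  rw [abs_mul, abs_of_pos (exp_pos _)]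
  exact (mul_le_mul_of_nonneg_right h (exp_pos _).le).trans hQ

theorem WL2_fk_bd {r : ℕ} (hr : r ≤ 2) (w : ℝ) : |fk r w| ≤ 20 := by
  have b0 := WL2_b0 w
  have b2 := WL2_b2 w
  rcases r with _ | r
  · simp only [fk, if_true]
    rw [abs_of_pos (exp_pos _)]
    linarith
  rcases r with _ | r
  · have : fk (0 + 1) w = -w * exp (-(w ^ 2 / 2)) := by simp [fk]
    rw [this]
    refine WL2_bd (Q := 1 + w ^ 2) ?_ ?_
    · rw [abs_neg]
      exact abs_le.2 ⟨by nlinarith [sq_nonneg (w + 1)], by nlinarith [sq_nonneg (w - 1)]⟩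
    · rw [add_mul, one_mul]; linarith
  rcases r with _ | r
  · have : fk (0 + 1 + 1) w = (w ^ 2 - 1) * exp (-(w ^ 2 / 2)) := by simp [fk]
    rw [this]
    refine WL2_bd (Q := 1 + w ^ 2) ?_ ?_
    · exact abs_le.2 ⟨by nlinarith [sq_nonneg w], by nlinarith [sq_nonneg w]⟩
    · rw [add_mul, one_mul]; linarith
  · omega

theorem WL2_fd_bd {r : ℕ} (hr : r ≤ 2) (w : ℝ) : |WL2_fd r w| ≤ 40 := by
  have b0 := WL2_b0 w
  have b2 := WL2_b2 w
  have b4 := WL2_b4 w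
  rcases r with _ | r
  · have : WL2_fd 0 w = -w * exp (-(w ^ 2 / 2)) := by simp [WL2_fd]
    rw [this]
    refine WL2_bd (Q := 1 + w ^ 2) ?_ ?_
    · rw [abs_neg]
      exact abs_le.2 ⟨by nlinarith [sq_nonneg (w + 1)], by nlinarith [sq_nonneg (w - 1)]⟩
    · rw [add_mul, one_mul]; linarith
  rcases r with _ | r
  · have : WL2_fd (0 + 1) w = (w ^ 2 - 1) * exp (-(w ^ 2 / 2)) := by simp [WL2_fd]
    rw [this]
    refine WL2_bd (Q := 1 + w ^ 2) ?_ ?_
    · exact abs_le.2 ⟨by nlinarith [sq_nonneg w], by nlinarith [sq_nonneg w]⟩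
    · rw [add_mul, one_mul]; linarith
  rcases r with _ | r
  · have : WL2_fd (0 + 1 + 1) w = (3 * w - w ^ 3) * exp (-(w ^ 2 / 2)) := by simp [WL2_fd]
    rw [this]
    refine WL2_bd (Q := 3 + 4 * w ^ 2 + w ^ 4) ?_ ?_
    · have h1 : 0 ≤ (w ^ 2 + w) ^ 2 := sq_nonneg _
      have h2 : 0 ≤ (w ^ 2 - w) ^ 2 := sq_nonneg _
      exact abs_le.2 ⟨by nlinarith [sq_nonneg (w + 1), sq_nonneg (w - 1), sq_nonneg w],
        by nlinarith [sq_nonneg (w - 1), sq_nonneg (w + 1), sq_nonneg w]⟩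
    · have e : (3 + 4 * w ^ 2 + w ^ 4) * exp (-(w ^ 2 / 2)) = 3 * exp (-(w ^ 2 / 2)) +
          4 * (w ^ 2 * exp (-(w ^ 2 / 2))) + w ^ 4 * exp (-(w ^ 2 / 2)) := by ring
      rw [e]
      linarith
  · omega

theorem WL2_wfd_bd {r : ℕ} (hr : r ≤ 2) (w : ℝ) : |w * WL2_fd r w| ≤ 40 := by
  have b0 := WL2_b0 w
  have b2 := WL2_b2 w
  have b4 := WL2_b4 w
  rcases r with _ | r
  · have : w * WL2_fd 0 w = -w ^ 2 * exp (-(w ^ 2 / 2)) := by simp [WL2_fd]; ring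
    rw [this]
    refine WL2_bd (Q := w ^ 2) ?_ (by linarith)
    rw [abs_neg, abs_of_nonneg (sq_nonneg w)]
  rcases r with _ | r
  · have : w * WL2_fd (0 + 1) w = (w ^ 3 - w) * exp (-(w ^ 2 / 2)) := by
      simp [WL2_fd]; ring
    rw [this]
    refine WL2_bd (Q := 3 + 4 * w ^ 2 + w ^ 4) ?_ ?_
    · have h1 : 0 ≤ (w ^ 2 + w) ^ 2 := sq_nonneg _
      have h2 : 0 ≤ (w ^ 2 - w) ^ 2 := sq_nonneg _
      exact abs_le.2 ⟨by nlinarith [sq_nonneg (w + 1), sq_nonneg (w - 1), sq_nonneg w],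
        by nlinarith [sq_nonneg (w - 1), sq_nonneg (w + 1), sq_nonneg w]⟩
    · have e : (3 + 4 * w ^ 2 + w ^ 4) * exp (-(w ^ 2 / 2)) = 3 * exp (-(w ^ 2 / 2)) +
          4 * (w ^ 2 * exp (-(w ^ 2 / 2))) + w ^ 4 * exp (-(w ^ 2 / 2)) := by ring
      rw [e]
      linarith
  rcases r with _ | r
  · have : w * WL2_fd (0 + 1 + 1) w = (3 * w ^ 2 - w ^ 4) * exp (-(w ^ 2 / 2)) := by
      simp [WL2_fd]; ring
    rw [this]
    refine WL2_bd (Q := 3 * w ^ 2 + w ^ 4) ?_ ?_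
    · have h1 : 0 ≤ w ^ 4 := by positivity
      exact abs_le.2 ⟨by nlinarith [sq_nonneg w], by nlinarith [sq_nonneg w]⟩
    · have e : (3 * w ^ 2 + w ^ 4) * exp (-(w ^ 2 / 2)) =
          3 * (w ^ 2 * exp (-(w ^ 2 / 2))) + w ^ 4 * exp (-(w ^ 2 / 2)) := by ring
      rw [e]
      linarith
  · omega

/-- The kernels are bounded and Lipschitz. -/
theorem fk_lip : ∃ C : ℝ, 0 < C ∧ ∀ r ≤ 2, (∀ w : ℝ, |fk r w| ≤ C) ∧
    ∀ w w' : ℝ, |fk r w - fk r w'| ≤ C * |w - w'| := by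
  refine ⟨40, by norm_num, fun r hr => ⟨fun w => (WL2_fk_bd hr w).trans (by norm_num), ?_⟩⟩
  intro w w'
  exact Convex.norm_image_sub_le_of_norm_hasDerivWithin_le
    (fun x _ => (WL2_deriv hr x).hasDerivWithinAt) (fun x _ => WL2_fd_bd hr x)
    convex_univ (Set.mem_univ w') (Set.mem_univ w)

/-- Scaling: `fk r (c w)` is near `fk r w` for `c` near `1`, uniformly in `w`. -/
theorem fk_scale {ε : ℝ} (hε : 0 < ε) : ∃ δ : ℝ, 0 < δ ∧ ∀ c : ℝ, |c - 1| ≤ δ → ∀ r ≤ 2, ∀ w : ℝ,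
    |fk r (c * w) - fk r w| ≤ ε := by
  refine ⟨min (1 / 2) (ε / 80), by positivity, fun c hc r hr w => ?_⟩
  have hc1 : |c - 1| ≤ 1 / 2 := hc.trans (min_le_left _ _)
  have hc2 : |c - 1| ≤ ε / 80 := hc.trans (min_le_right _ _)
  have hd : ∀ s ∈ Set.Ici (1 / 2 : ℝ), HasDerivWithinAt (fun s => fk r (s * w))
      (WL2_fd r (s * w) * w) (Set.Ici (1 / 2)) s := by
    intro s _
    have h1 : HasDerivAt (fun s : ℝ => s * w) w s := by
      simpa using (hasDerivAt_id s).mul_const w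
    exact (HasDerivAt.comp s (WL2_deriv hr (s * w)) h1).hasDerivWithinAt
  have hb : ∀ s ∈ Set.Ici (1 / 2 : ℝ), ‖WL2_fd r (s * w) * w‖ ≤ 80 := by
    intro s hs
    have hs' : (1 / 2 : ℝ) ≤ s := hs
    have h1 := WL2_wfd_bd hr (s * w)
    have e : s * w * WL2_fd r (s * w) = s * (WL2_fd r (s * w) * w) := by ring
    rw [e, abs_mul, abs_of_pos (by linarith)] at h1
    rw [norm_eq_abs]
    nlinarith [abs_nonneg (WL2_fd r (s * w) * w)]
  have hmem : c ∈ Set.Ici (1 / 2 : ℝ) := by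
    have := (abs_le.1 hc1).1
    show (1 / 2 : ℝ) ≤ c
    linarith
  have h1 := Convex.norm_image_sub_le_of_norm_hasDerivWithin_le hd hb (convex_Ici _)
    (show (1 : ℝ) ∈ Set.Ici (1 / 2 : ℝ) by show (1 / 2 : ℝ) ≤ 1; norm_num) hmem
  rw [one_mul, norm_eq_abs, norm_eq_abs] at h1
  linarith

end Pool.Agent.H.MP_82502e_co
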