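import Pool.Agent.H.MP_82502e_co.WI3
import Pool.Agent.H.MP_82502e_co.WL2

set_option autoImplicit false

/-!
# The window: limit functions: properties of Phi
-/

namespace Pool.Agent.H.MP_82502e_co

open Finset Real MeasureTheory ProbabilityTheory

theorem WI4_summable_abs : Summable fun j : ℤ => (2 : ℝ) ^ (-|(j : ℝ)|) := by
  have h0 : Summable fun n : ℕ => ((1 : ℝ) / 2) ^ n :=
    summable_geometric_of_lt_one (by norm_num) (by norm_num)
  have h1 : ∀ n : ℕ, (2 : ℝ) ^ (-|((n : ℤ) : ℝ)|) = ((1 : ℝ) / 2) ^ n := by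
    intro n
    rw [Int.cast_natCast, abs_of_nonneg (Nat.cast_nonneg n), rpow_neg (by norm_num), rpow_natCast,
      one_div, inv_pow]
  have h2 : ∀ n : ℕ, (2 : ℝ) ^ (-|((-(n : ℤ) : ℤ) : ℝ)|) = ((1 : ℝ) / 2) ^ n := by
    intro n
    rw [← h1 n, Int.cast_neg, abs_neg]
  refine Summable.of_nat_of_neg ?_ ?_
  · simpa only [h1] using h0
  · simpa only [h2] using h0

theorem WI4_summable (c : ℝ) : Summable fun j : ℤ => (2 : ℝ) ^ (-((j : ℝ) + c) ^ 2) := by
  have h1 := WI4_summable_abs.mul_left ((2 : ℝ) ^ (|c| + 1 / 4))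
  refine Summable.of_nonneg_of_le (fun j => by positivity) (fun j => ?_) h1
  rw [← rpow_add (by norm_num)]
  refine rpow_le_rpow_of_exponent_le (by norm_num) ?_
  have h2 : |(j : ℝ)| ≤ |(j : ℝ) + c| + |c| := by
    have h3 := abs_sub ((j : ℝ) + c) c
    rwa [add_sub_cancel_right] at h3
  have h4 : |(j : ℝ) + c| ≤ ((j : ℝ) + c) ^ 2 + 1 / 4 := by
    rw [← sq_abs ((j : ℝ) + c)]
    nlinarith [sq_nonneg (|(j : ℝ) + c| - 1 / 2)]
  linarith

theorem WI4_fk_cont {r : ℕ} (hr : r ≤ 2) : Continuous (fk r) := by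
  interval_cases r
  · unfold fk
    simp only [if_true]
    fun_prop
  · unfold fk
    simp only [one_ne_zero, if_false, if_true]
    fun_prop
  · unfold fk
    simp only [OfNat.ofNat_ne_zero, OfNat.ofNat_ne_one, if_false]
    fun_prop

/-- `Phi e r t = 2^(1/4) ∫ gth e r (t - 1/2 + u²/2)`: `i² + i = (i+1/2)² - 1/4`, exchange of sum and integral. -/
theorem Phi_eq (e r : ℕ) (hr : r ≤ 2) (t : ℝ) :
    Phi e r t = (2 : ℝ) ^ ((1 : ℝ) / 4) * ∫ u, gth e r (t - 1 / 2 + u ^ 2 / 2) ∂(gaussianReal 0 1) := by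
  obtain ⟨C, hC, hfk⟩ := fk_lip
  have hfkC := (hfk r hr).1
  have hcont : ∀ c : ℝ, Continuous fun u : ℝ => fk r (c + u ^ 2 / 2) := fun c =>
    (WI4_fk_cont hr).comp (by fun_prop)
  have hint : ∀ c : ℝ, Integrable (fun u : ℝ => fk r (c + u ^ 2 / 2)) (gaussianReal 0 1) := fun c =>
    Integrable.of_bound (hcont c).aestronglyMeasurable C
      (Filter.Eventually.of_forall fun u => hfkC _)
  have hF : ∀ j : ℤ, Integrable (fun u : ℝ => (2 : ℝ) ^ (-((j : ℝ) + (e + 1) / 2) ^ 2) *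
      fk r (t + ((j : ℝ) + e / 2) + u ^ 2 / 2)) (gaussianReal 0 1) := fun j =>
    (hint _).const_mul _
  have hS : Summable fun j : ℤ => ∫ u, ‖(2 : ℝ) ^ (-((j : ℝ) + (e + 1) / 2) ^ 2) *
      fk r (t + ((j : ℝ) + e / 2) + u ^ 2 / 2)‖ ∂(gaussianReal 0 1) := by
    refine Summable.of_nonneg_of_le (fun j => integral_nonneg fun u => norm_nonneg _)
      (fun j => ?_) ((WI4_summable (((e : ℝ) + 1) / 2)).mul_right C)
    have h1 : ∫ u : ℝ, ((2 : ℝ) ^ (-((j : ℝ) + (e + 1) / 2) ^ 2) * C) ∂(gaussianReal 0 1) =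
        (2 : ℝ) ^ (-((j : ℝ) + (e + 1) / 2) ^ 2) * C := by simp
    rw [← h1]
    refine integral_mono (hF j).norm (integrable_const _) fun u => ?_
    change ‖(2 : ℝ) ^ (-((j : ℝ) + (e + 1) / 2) ^ 2) *
      fk r (t + ((j : ℝ) + e / 2) + u ^ 2 / 2)‖ ≤ _
    rw [norm_mul, Real.norm_of_nonneg (by positivity)]
    exact mul_le_mul_of_nonneg_left (hfkC _) (by positivity)
  have h2 := (hasSum_integral_of_summable_integral_norm hF hS).mul_left ((2 : ℝ) ^ ((1 : ℝ) / 4))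
  have h3 : ∀ u : ℝ, (∑' j : ℤ, (2 : ℝ) ^ (-((j : ℝ) + (e + 1) / 2) ^ 2) *
      fk r (t + ((j : ℝ) + e / 2) + u ^ 2 / 2)) = gth e r (t - 1 / 2 + u ^ 2 / 2) := by
    intro u
    unfold gth
    refine tsum_congr fun j => ?_
    congr 2
    ring
  simp only [h3] at h2
  rw [← h2.tsum_eq]
  unfold Phi
  refine tsum_congr fun j => ?_
  rw [integral_const_mul, ← mul_assoc]
  congr 1
  unfold wt
  rw [← rpow_add (by norm_num)]
  congr 1
  ring

theorem WI4_cont_u {e r : ℕ} (h : Continuous (gth e r)) (t : ℝ) :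
    Continuous fun u : ℝ => gth e r (t - 1 / 2 + u ^ 2 / 2) := h.comp (by fun_prop)

/-- Properties of the limit functions. -/
theorem Phi_props (e : ℕ) : (∀ t, 0 < Phi e 0 t) ∧ (∀ r ≤ 2, Continuous (Phi e r)) ∧
    (∀ t, HasDerivAt (Phi e 1) (Phi e 2 t) t) ∧ ∀ t, Phi e 1 t = 0 → Phi e 2 t < 0 := by
  obtain ⟨C, hC⟩ := gth_bdd e
  have h2 : (0 : ℝ) < (2 : ℝ) ^ ((1 : ℝ) / 4) := by positivity
  have hint : ∀ r ≤ 2, ∀ t : ℝ,
      Integrable (fun u : ℝ => gth e r (t - 1 / 2 + u ^ 2 / 2)) (gaussianReal 0 1) :=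
    fun r hr t => Integrable.of_bound (WI4_cont_u (hC r hr).2 t).aestronglyMeasurable C
      (Filter.Eventually.of_forall fun u => (hC r hr).1 _)
  refine ⟨fun t => ?_, fun r hr => ?_, fun t => ?_, fun t ht => ?_⟩
  · rw [Phi_eq e 0 (by norm_num)]
    refine mul_pos h2 ?_
    rw [integral_pos_iff_support_of_nonneg (fun u => (gth_pos e _).le) (hint 0 (by norm_num) t)]
    have h3 : Function.support (fun u : ℝ => gth e 0 (t - 1 / 2 + u ^ 2 / 2)) = Set.univ :=
      Set.eq_univ_of_forall fun u => (gth_pos e _).ne'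
    rw [h3, measure_univ]
    exact one_pos
  · have h3 : Phi e r = fun t => (2 : ℝ) ^ ((1 : ℝ) / 4) *
        ∫ u, gth e r (t - 1 / 2 + u ^ 2 / 2) ∂(gaussianReal 0 1) := funext (Phi_eq e r hr)
    rw [h3]
    refine continuous_const.mul (continuous_of_dominated (bound := fun _ => C)
      (fun t => (WI4_cont_u (hC r hr).2 t).aestronglyMeasurable)
      (fun t => Filter.Eventually.of_forall fun u => (hC r hr).1 _) (integrable_const C)
      (Filter.Eventually.of_forall fun u => (hC r hr).2.comp (by fun_prop)))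
  · have h3 : Phi e 1 = fun t => (2 : ℝ) ^ ((1 : ℝ) / 4) *
        ∫ u, gth e 1 (t - 1 / 2 + u ^ 2 / 2) ∂(gaussianReal 0 1) :=
      funext (Phi_eq e 1 (by norm_num))
    rw [h3, Phi_eq e 2 le_rfl]
    refine HasDerivAt.const_mul _ ?_
    refine (hasDerivAt_integral_of_dominated_loc_of_deriv_le (s := Set.univ) (bound := fun _ => C)
      (F := fun t u => gth e 1 (t - 1 / 2 + u ^ 2 / 2))
      (F' := fun t u => gth e 2 (t - 1 / 2 + u ^ 2 / 2)) Filter.univ_mem
      (Filter.Eventually.of_forall fun t =>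
        (WI4_cont_u (hC 1 (by norm_num)).2 t).aestronglyMeasurable)
      (hint 1 (by norm_num) t) (WI4_cont_u (hC 2 le_rfl).2 t).aestronglyMeasurable
      (Filter.Eventually.of_forall fun u x _ => (hC 2 le_rfl).1 _) (integrable_const C)
      (Filter.Eventually.of_forall fun u x _ => ?_)).2
    have h4 := (gth_deriv e (x - 1 / 2 + u ^ 2 / 2)).2
    have h5 : HasDerivAt (fun x : ℝ => x - 1 / 2 + u ^ 2 / 2) 1 x :=
      ((hasDerivAt_id x).sub_const _).add_const _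
    have h6 := h4.comp x h5
    rw [mul_one] at h6
    exact h6
  · have h3 := ibragimov e (t - 1 / 2)
    rw [Phi_eq e 1 (by norm_num)] at ht
    have h4 : ∫ u, gth e 1 (t - 1 / 2 + u ^ 2 / 2) ∂(gaussianReal 0 1) = 0 :=
      (mul_eq_zero.1 ht).resolve_left h2.ne'
    rw [h4, zero_mul] at h3
    rw [Phi_eq e 2 le_rfl]
    have h5 : ∫ u, gth e 2 (t - 1 / 2 + u ^ 2 / 2) ∂(gaussianReal 0 1) < 0 := by
      by_contra h6
      exact absurd h3 (not_lt.2 (mul_nonneg (not_lt.1 h6) (gth_pos e _).le))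
    exact mul_neg_of_pos_of_neg h2 h5

end Pool.Agent.H.MP_82502e_co
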