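import Pool.Agent.H.MP_82502e_co.WDefL
import Pool.Agent.H.MP_82502e_co.WBin2

set_option autoImplicit false

/-!
# The window: peak: local limit theorem for binomial coefficients
-/

namespace Pool.Agent.H.MP_82502e_co

open Finset Real

theorem WL1_lower_ratio {u : ℝ} (h0 : 0 ≤ u) (h1 : u ≤ 1 / 2) :
    exp (-(2 * u + 2 * u ^ 3)) ≤ (1 - u) / (1 + u) := by
  have hx : 0 ≤ 2 * u + 2 * u ^ 3 := by positivity
  have h2 := Real.quadratic_le_exp_of_nonneg hx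
  have h3 : 0 < exp (2 * u + 2 * u ^ 3) := exp_pos _
  have h4 : 1 + u ≤ (1 - u) * (1 + (2 * u + 2 * u ^ 3) + (2 * u + 2 * u ^ 3) ^ 2 / 2) := by
    have e1 : (1 - u) * (1 + (2 * u + 2 * u ^ 3) + (2 * u + 2 * u ^ 3) ^ 2 / 2) =
        1 + u + (2 * u ^ 4 * (1 - 2 * u) + 2 * u ^ 6 * (1 - u)) := by ring
    rw [e1]
    have e2 : 0 ≤ 2 * u ^ 4 * (1 - 2 * u) := mul_nonneg (by positivity) (by linarith)
    have e3 : 0 ≤ 2 * u ^ 6 * (1 - u) := mul_nonneg (by positivity) (by linarith)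
    linarith
  have h5 : 1 + u ≤ (1 - u) * exp (2 * u + 2 * u ^ 3) :=
    h4.trans (mul_le_mul_of_nonneg_left h2 (by linarith))
  rw [exp_neg, ← one_div, div_le_div_iff₀ h3 (by linarith)]
  linarith

theorem WL1_upper_ratio {u : ℝ} (h0 : 0 ≤ u) (h1 : u < 1) :
    (1 - u) / (1 + u) ≤ exp (-(2 * u)) := by
  have h2 : 0 ≤ 2 * u / (1 - u) := div_nonneg (by linarith) (by linarith)
  have h3 := Real.le_log_one_add_of_nonneg h2
  have hu : 0 < 1 - u := by linarith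
  have hu2 : 0 < 1 + u := by linarith
  have e1 : 2 * (2 * u / (1 - u)) / (2 * u / (1 - u) + 2) = 2 * u := by
    rw [show 2 * u / (1 - u) + 2 = 2 / (1 - u) by field_simp; ring]
    field_simp
  have e2 : 1 + 2 * u / (1 - u) = (1 + u) / (1 - u) := by field_simp; ring
  rw [e1, e2] at h3
  have h4 : exp (2 * u) ≤ (1 + u) / (1 - u) := by
    have := Real.exp_le_exp.2 h3
    rwa [Real.exp_log (by positivity)] at this
  rw [exp_neg, ← one_div, div_le_div_iff₀ hu2 (exp_pos _)]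
  rw [le_div_iff₀ hu] at h4
  linarith

theorem WL1_step {N c e j : ℕ} (hN : N = 2 * c + e) (hj : c + j ≤ N) :
    (N.choose (c + j + 1) : ℝ) = N.choose (c + j) *
      ((1 - (2 * (j : ℝ) + 1 - e) / (N + 1)) / (1 + (2 * (j : ℝ) + 1 - e) / (N + 1))) := by
  have h := Nat.choose_succ_right_eq N (c + j)
  have h2 : (N.choose (c + j + 1) : ℝ) * (c + j + 1) = N.choose (c + j) * ((N : ℝ) - (c + j)) := by
    have := congrArg (Nat.cast (R := ℝ)) h
    push_cast [Nat.cast_sub hj] at this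
    linarith
  have hNr : (N : ℝ) = 2 * c + e := by rw [hN]; push_cast; ring
  have hpos : (0 : ℝ) < (c : ℝ) + j + 1 := by positivity
  have hN1 : (0 : ℝ) < (N : ℝ) + 1 := by positivity
  have e1 : 1 - (2 * (j : ℝ) + 1 - e) / (N + 1) = 2 * ((N : ℝ) - (c + j)) / (N + 1) := by
    field_simp
    rw [hNr]; ring
  have e2 : 1 + (2 * (j : ℝ) + 1 - e) / (N + 1) = 2 * ((c : ℝ) + j + 1) / (N + 1) := by
    field_simp
    rw [hNr]; ring
  rw [e1, e2, div_div_div_cancel_right₀ hN1.ne', mul_div_mul_left _ _ (two_ne_zero)]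
  rw [mul_div_assoc', eq_div_iff hpos.ne']
  exact h2

theorem WL1_cb {N c e : ℕ} (hN : N = 2 * c + e) (he : e ≤ 1) : cb N = N.choose c := by
  unfold cb
  congr 1
  omega

theorem WL1_up {N c e : ℕ} (hN : N = 2 * c + e) (he : e ≤ 1) (j : ℕ) (hj : c + j ≤ N) :
    (N.choose (c + j) : ℝ) ≤ cb N * exp (-(2 * ((j : ℝ) ^ 2 - e * j) / (N + 1))) := by
  induction j with
  | zero => simp [WL1_cb hN he]
  | succ j ih =>
    have hj' : c + j ≤ N := by omega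
    have ih' := ih hj'
    have hN1 : (0 : ℝ) < (N : ℝ) + 1 := by positivity
    have her : (e : ℝ) ≤ 1 := by exact_mod_cast he
    set u : ℝ := (2 * (j : ℝ) + 1 - e) / (N + 1) with hu
    have hu0 : 0 ≤ u := div_nonneg (by linarith [(Nat.cast_nonneg j : (0 : ℝ) ≤ j)]) hN1.le
    have hu1 : u < 1 := by
      rw [hu, div_lt_one hN1]
      have h1 : 2 * j + 1 < N + 1 := by omega
      have h2 : 2 * (j : ℝ) + 1 < N + 1 := by exact_mod_cast h1
      linarith [(Nat.cast_nonneg e : (0 : ℝ) ≤ e)]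
    rw [show c + (j + 1) = c + j + 1 by ring, WL1_step hN hj', ← hu]
    calc (N.choose (c + j) : ℝ) * ((1 - u) / (1 + u))
        ≤ (cb N * exp (-(2 * ((j : ℝ) ^ 2 - e * j) / (N + 1)))) * exp (-(2 * u)) :=
          mul_le_mul ih' (WL1_upper_ratio hu0 hu1) (div_nonneg (by linarith) (by linarith))
            (by positivity)
      _ = cb N * exp (-(2 * (((j + 1 : ℕ) : ℝ) ^ 2 - e * ((j + 1 : ℕ) : ℝ)) / (N + 1))) := by
          rw [mul_assoc, ← exp_add]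
          congr 2
          rw [hu]
          push_cast
          field_simp
          ring

theorem WL1_low {N c e J : ℕ} (hN : N = 2 * c + e) (he : e ≤ 1) (hJ : c + J ≤ N)
    (hJ4 : 4 * J ≤ N + 1) (j : ℕ) (hj : j ≤ J) :
    cb N * exp (-(2 * ((j : ℝ) ^ 2 - e * j) / (N + 1)) - j * (2 * (2 * (J : ℝ) / (N + 1)) ^ 3)) ≤
      (N.choose (c + j) : ℝ) := by
  induction j with
  | zero => simp [WL1_cb hN he]
  | succ j ih =>
    have hj' : c + j ≤ N := by omega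
    have ih' := ih (by omega)
    have hN1 : (0 : ℝ) < (N : ℝ) + 1 := by positivity
    have her : (e : ℝ) ≤ 1 := by exact_mod_cast he
    set u : ℝ := (2 * (j : ℝ) + 1 - e) / (N + 1) with hu
    have hu0 : 0 ≤ u := div_nonneg (by linarith [(Nat.cast_nonneg j : (0 : ℝ) ≤ j)]) hN1.le
    have huJ : u ≤ 2 * (J : ℝ) / (N + 1) := by
      rw [hu]
      refine div_le_div_of_nonneg_right ?_ hN1.le
      have h2 : (j : ℝ) + 1 ≤ J := by exact_mod_cast hj
      linarith [(Nat.cast_nonneg e : (0 : ℝ) ≤ e)]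
    have hJ2 : 2 * (J : ℝ) / (N + 1) ≤ 1 / 2 := by
      rw [div_le_iff₀ hN1]
      have : 4 * (J : ℝ) ≤ N + 1 := by exact_mod_cast hJ4
      linarith
    rw [show c + (j + 1) = c + j + 1 by ring, WL1_step hN hj', ← hu]
    have h3 : u ^ 3 ≤ (2 * (J : ℝ) / (N + 1)) ^ 3 := pow_le_pow_left₀ hu0 huJ 3
    calc cb N * exp (-(2 * (((j + 1 : ℕ) : ℝ) ^ 2 - e * ((j + 1 : ℕ) : ℝ)) / (N + 1)) -
          ((j + 1 : ℕ) : ℝ) * (2 * (2 * (J : ℝ) / (N + 1)) ^ 3))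
        = cb N * exp (-(2 * ((j : ℝ) ^ 2 - e * j) / (N + 1)) -
            j * (2 * (2 * (J : ℝ) / (N + 1)) ^ 3)) *
            exp (-(2 * u + 2 * (2 * (J : ℝ) / (N + 1)) ^ 3)) := by
          rw [mul_assoc, ← exp_add]
          congr 2
          rw [hu]
          push_cast
          field_simp
          ring
      _ ≤ (N.choose (c + j) : ℝ) * exp (-(2 * u + 2 * u ^ 3)) := by
          refine mul_le_mul ih' (exp_le_exp.2 (by linarith)) (exp_pos _).le (Nat.cast_nonneg _)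
      _ ≤ (N.choose (c + j) : ℝ) * ((1 - u) / (1 + u)) :=
          mul_le_mul_of_nonneg_left (WL1_lower_ratio hu0 (huJ.trans hJ2)) (Nat.cast_nonneg _)

theorem WL1_red {N K : ℕ} (hK : K ≤ N) : ∃ c e j : ℕ, N = 2 * c + e ∧ e ≤ 1 ∧ c + j ≤ N ∧
    N.choose K = N.choose (c + j) ∧ |(K : ℝ) - N / 2| = |(j : ℝ) - e / 2| := by
  refine ⟨N / 2, N % 2, if N / 2 ≤ K then K - N / 2 else N - K - N / 2, by omega, by omega, ?_, ?_, ?_⟩
  · split_ifs <;> omega
  · split_ifs with h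
    · congr 1; omega
    · rw [← Nat.choose_symm hK]
      congr 1; omega
  · have hNr : (N : ℝ) = 2 * ((N / 2 : ℕ) : ℝ) + ((N % 2 : ℕ) : ℝ) := by
      have : N = 2 * (N / 2) + N % 2 := by omega
      exact_mod_cast this
    split_ifs with h
    · rw [Nat.cast_sub h]
      congr 1
      linarith
    · have h1 : N / 2 ≤ N - K := by omega
      rw [Nat.cast_sub h1, Nat.cast_sub hK, ← abs_neg]
      congr 1
      linarith

theorem WL1_cbpos (N : ℕ) : (0 : ℝ) < cb N := by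
  have : 0 < cb N := Nat.choose_pos (by omega)
  exact_mod_cast this

/-- the rescaled position -/
noncomputable def WL1_w (N K : ℕ) : ℝ := 2 * ((K : ℝ) - N / 2) / √N

theorem WL1_w_sq {N K : ℕ} (hN : 1 ≤ N) : ((K : ℝ) - N / 2) ^ 2 = N * WL1_w N K ^ 2 / 4 := by
  have h1 : (0 : ℝ) < N := by exact_mod_cast hN
  rw [WL1_w, div_pow, Real.sq_sqrt h1.le]
  field_simp
  ring

theorem WL1_w_abs {N K : ℕ} (hN : 1 ≤ N) : |(K : ℝ) - N / 2| = √N * |WL1_w N K| / 2 := by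
  have h1 : (0 : ℝ) < N := by exact_mod_cast hN
  have h2 : 0 < √(N : ℝ) := Real.sqrt_pos.2 h1
  rw [WL1_w, abs_div, abs_mul, abs_of_pos h2, abs_two]
  field_simp

theorem WL1_R_up0 {N K : ℕ} (hK : K ≤ N) :
    (N.choose K : ℝ) ≤ cb N * exp (-(2 * (((K : ℝ) - N / 2) ^ 2 - 1 / 4) / (N + 1))) := by
  obtain ⟨c, e, j, hN, he, hj, hc, hy⟩ := WL1_red hK
  rw [hc]
  refine (WL1_up hN he j hj).trans ?_
  refine mul_le_mul_of_nonneg_left (exp_le_exp.2 ?_) (Nat.cast_nonneg _)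
  rw [neg_le_neg_iff]
  refine div_le_div_of_nonneg_right ?_ (by positivity)
  have h1 : ((K : ℝ) - N / 2) ^ 2 = ((j : ℝ) - e / 2) ^ 2 := by
    rw [← sq_abs, hy, sq_abs]
  have h2 : (e : ℝ) ≤ 1 := by exact_mod_cast he
  have h3 : (0 : ℝ) ≤ e := Nat.cast_nonneg e
  rw [h1]
  nlinarith

theorem WL1_R_up1 {N K : ℕ} (hN : 1 ≤ N) (hK : K ≤ N) :
    (N.choose K : ℝ) ≤ cb N * (2 * exp (-(WL1_w N K ^ 2 / 4))) := by
  refine (WL1_R_up0 hK).trans ?_
  refine mul_le_mul_of_nonneg_left ?_ (Nat.cast_nonneg _)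
  have h1 : (1 : ℝ) ≤ N := by exact_mod_cast hN
  have h2 : -(2 * (((K : ℝ) - N / 2) ^ 2 - 1 / 4) / (N + 1)) ≤ 1 / 4 + -(WL1_w N K ^ 2 / 4) := by
    rw [WL1_w_sq hN, neg_le_iff_add_nonneg, ← sub_nonneg]
    have h3 : 1 / 4 + -(WL1_w N K ^ 2 / 4) + 2 * ((N : ℝ) * WL1_w N K ^ 2 / 4 - 1 / 4) / (N + 1) - 0 =
        ((N : ℝ) - 1) * (WL1_w N K ^ 2 + 1) / (4 * (N + 1)) := by
      field_simp
      ring
    rw [h3]
    have : 0 ≤ (N : ℝ) - 1 := by linarith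
    positivity
  refine (exp_le_exp.2 h2).trans ?_
  rw [exp_add]
  refine mul_le_mul_of_nonneg_right ?_ (exp_pos _).le
  have h4 := Real.abs_exp_sub_one_le (x := 1 / 4) (by rw [abs_of_pos] <;> norm_num)
  rw [abs_of_pos (by norm_num : (0 : ℝ) < 1 / 4)] at h4
  linarith [(abs_le.1 h4).2]

theorem WL1_R_up2 {N K : ℕ} (hN : 1 ≤ N) (hK : K ≤ N) :
    (N.choose K : ℝ) ≤ cb N * exp (-(WL1_w N K ^ 2 / 2) + (WL1_w N K ^ 2 + 1) / (2 * N)) := by
  refine (WL1_R_up0 hK).trans ?_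
  refine mul_le_mul_of_nonneg_left (exp_le_exp.2 ?_) (Nat.cast_nonneg _)
  have h1 : (1 : ℝ) ≤ N := by exact_mod_cast hN
  rw [WL1_w_sq hN, ← sub_nonneg]
  have h3 : -(WL1_w N K ^ 2 / 2) + (WL1_w N K ^ 2 + 1) / (2 * N) -
      -(2 * ((N : ℝ) * WL1_w N K ^ 2 / 4 - 1 / 4) / (N + 1)) =
        (WL1_w N K ^ 2 + 1) / (2 * N * (N + 1)) := by
    field_simp
    ring
  rw [h3]
  positivity

theorem WL1_R_low {N K : ℕ} (hN : 1 ≤ N) (hK : K ≤ N)
    (h4 : 4 * (|(K : ℝ) - N / 2| + 1 / 2) ≤ N + 1) :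
    cb N * exp (-(WL1_w N K ^ 2 / 2) - (|WL1_w N K| + 1) ^ 4 / N) ≤ (N.choose K : ℝ) := by
  obtain ⟨c, e, j, hN', he, hj, hc, hy⟩ := WL1_red hK
  have h1 : (1 : ℝ) ≤ N := by exact_mod_cast hN
  have he1 : (e : ℝ) ≤ 1 := by exact_mod_cast he
  have he0 : (0 : ℝ) ≤ e := Nat.cast_nonneg e
  have hjy : (j : ℝ) ≤ |(K : ℝ) - N / 2| + 1 / 2 := by
    rw [hy]
    linarith [le_abs_self ((j : ℝ) - e / 2)]
  have hJ4 : 4 * j ≤ N + 1 := by
    have : 4 * (j : ℝ) ≤ N + 1 := by linarith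
    exact_mod_cast this
  have hl := WL1_low hN' he hj hJ4 j le_rfl
  rw [hc]
  refine le_trans ?_ hl
  refine mul_le_mul_of_nonneg_left (exp_le_exp.2 ?_) (Nat.cast_nonneg _)
  have hq : 1 ≤ √(N : ℝ) := Real.one_le_sqrt.2 h1
  have hqq : √(N : ℝ) ^ 2 = N := Real.sq_sqrt (by linarith)
  have hj2 : (j : ℝ) ≤ √N * (|WL1_w N K| + 1) / 2 := by
    rw [WL1_w_abs hN] at hjy
    nlinarith [abs_nonneg (WL1_w N K)]
  have hj4 : (j : ℝ) ^ 4 ≤ (N : ℝ) ^ 2 * (|WL1_w N K| + 1) ^ 4 / 16 := by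
    calc (j : ℝ) ^ 4 ≤ (√N * (|WL1_w N K| + 1) / 2) ^ 4 := pow_le_pow_left₀ (Nat.cast_nonneg j) hj2 4
      _ = (√(N : ℝ) ^ 2) ^ 2 * (|WL1_w N K| + 1) ^ 4 / 16 := by ring
      _ = (N : ℝ) ^ 2 * (|WL1_w N K| + 1) ^ 4 / 16 := by rw [hqq]
  have e1 : (j : ℝ) * (2 * (2 * (j : ℝ) / (N + 1)) ^ 3) ≤ (|WL1_w N K| + 1) ^ 4 / N := by
    have e2 : (j : ℝ) * (2 * (2 * (j : ℝ) / (N + 1)) ^ 3) = 16 * (j : ℝ) ^ 4 / (N + 1) ^ 3 := by
      field_simp
      ring
    rw [e2, div_le_div_iff₀ (by positivity) (by positivity)]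
    have e3 : (N : ℝ) ^ 3 ≤ (N + 1) ^ 3 := pow_le_pow_left₀ (by linarith) (by linarith) 3
    calc 16 * (j : ℝ) ^ 4 * N ≤ 16 * ((N : ℝ) ^ 2 * (|WL1_w N K| + 1) ^ 4 / 16) * N := by
          have : (0 : ℝ) ≤ N := by linarith
          nlinarith
      _ = (|WL1_w N K| + 1) ^ 4 * (N : ℝ) ^ 3 := by ring
      _ ≤ (|WL1_w N K| + 1) ^ 4 * (N + 1) ^ 3 := mul_le_mul_of_nonneg_left e3 (by positivity)
  have e4 : 2 * ((j : ℝ) ^ 2 - e * j) / (N + 1) ≤ WL1_w N K ^ 2 / 2 := by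
    have e5 : (j : ℝ) ^ 2 - e * j ≤ ((K : ℝ) - N / 2) ^ 2 := by
      rw [← sq_abs ((K : ℝ) - N / 2), hy, sq_abs]
      nlinarith
    rw [WL1_w_sq hN] at e5
    rw [div_le_iff₀ (by positivity)]
    nlinarith [sq_nonneg (WL1_w N K)]
  linarith

/-- the factor of the differences -/
noncomputable def WL1_A (r N K : ℕ) : ℝ :=
  if r = 0 then 1 else if r = 1 then √N / 2 * ((-(2 * ((K : ℝ) - N / 2)) - 1) / (K + 1))
  else (N : ℝ) / 4 * ((4 * ((K : ℝ) - N / 2) ^ 2 + 8 * ((K : ℝ) - N / 2) + 2 - N) /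
        ((K + 1) * (K + 2)))

theorem WL1_dch {r N K : ℕ} (hr : r ≤ 2) (hK : K ≤ N) :
    (√N / 2) ^ r * dch r N K = N.choose K * WL1_A r N K := by
  have h1 : (N.choose (K + 1) : ℝ) * (K + 1) = N.choose K * ((N : ℝ) - K) := by
    have := congrArg (Nat.cast (R := ℝ)) (Nat.choose_succ_right_eq N K)
    push_cast [Nat.cast_sub hK] at this
    linarith
  have h2 : (N.choose (K + 2) : ℝ) * (K + 2) = N.choose (K + 1) * ((N : ℝ) - K - 1) := by
    rcases Nat.lt_or_ge K N with h | h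
    · have := congrArg (Nat.cast (R := ℝ)) (Nat.choose_succ_right_eq N (K + 1))
      push_cast [Nat.cast_sub (show K + 1 ≤ N from h)] at this
      rw [show K + 1 + 1 = K + 2 by ring] at this
      linarith
    · rw [Nat.choose_eq_zero_of_lt (show N < K + 2 by omega),
        Nat.choose_eq_zero_of_lt (show N < K + 1 by omega)]
      simp
  have hK1 : (0 : ℝ) < (K : ℝ) + 1 := by positivity
  have hK2 : (0 : ℝ) < (K : ℝ) + 2 := by positivity
  have h3 : (N.choose (K + 1) : ℝ) = N.choose K * ((N : ℝ) - K) / (K + 1) := by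
    rw [eq_div_iff hK1.ne']; exact h1
  have h4 : (N.choose (K + 2) : ℝ) = N.choose K * ((N : ℝ) - K) / (K + 1) * ((N : ℝ) - K - 1) / (K + 2) := by
    rw [eq_div_iff hK2.ne', ← h3]; exact h2
  interval_cases r
  · simp [dch, WL1_A]
  · simp only [dch, WL1_A, one_ne_zero, if_false, if_true, pow_one]
    rw [h3]
    field_simp
    ring
  · have hq : √(N : ℝ) ^ 2 = N := Real.sq_sqrt (Nat.cast_nonneg N)
    simp only [dch, WL1_A, OfNat.ofNat_ne_zero, OfNat.ofNat_ne_one, if_false]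
    rw [h3, h4, div_pow, hq]
    field_simp
    ring

theorem WL1_A_bound {r N K : ℕ} (hN : 1 ≤ N) (hK : K ≤ N) :
    |WL1_A r N K| ≤ 80 * (1 + |WL1_w N K|) ^ 6 := by
  set w := |WL1_w N K| with hw
  have hw0 : 0 ≤ w := abs_nonneg _
  have h1 : (1 : ℝ) ≤ N := by exact_mod_cast hN
  have hq : 1 ≤ √(N : ℝ) := Real.one_le_sqrt.2 h1
  have hqq : √(N : ℝ) ^ 2 = N := Real.sq_sqrt (by linarith)
  have hy := WL1_w_abs (K := K) hN
  rw [← hw] at hy
  set q := √(N : ℝ) with hqd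
  have hK0 : (0 : ℝ) ≤ K := Nat.cast_nonneg K
  have hKN : (K : ℝ) ≤ N := by exact_mod_cast hK
  have hyN : |(K : ℝ) - N / 2| ≤ N / 2 := by
    rw [abs_le]; constructor <;> linarith
  have hp1 : 1 ≤ (1 + w) ^ 6 := one_le_pow₀ (by linarith)
  have hw2 : w ^ 2 ≤ (1 + w) ^ 6 := by
    calc w ^ 2 ≤ (1 + w) ^ 2 := pow_le_pow_left₀ hw0 (by linarith) 2
      _ ≤ (1 + w) ^ 6 := pow_le_pow_right₀ (by linarith) (by norm_num)
  have hw1 : w ≤ (1 + w) ^ 6 := by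
    calc w ≤ (1 + w) ^ 1 := by linarith
      _ ≤ (1 + w) ^ 6 := pow_le_pow_right₀ (by linarith) (by norm_num)
  have hw3 : w ^ 3 ≤ (1 + w) ^ 6 := by
    calc w ^ 3 ≤ (1 + w) ^ 3 := pow_le_pow_left₀ hw0 (by linarith) 3
      _ ≤ (1 + w) ^ 6 := pow_le_pow_right₀ (by linarith) (by norm_num)
  have hw6 : w ^ 6 ≤ (1 + w) ^ 6 := pow_le_pow_left₀ hw0 (by linarith) 6
  unfold WL1_A
  by_cases hr0 : r = 0
  · rw [if_pos hr0, abs_one]
    linarith
  rw [if_neg hr0]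
  by_cases hr1 : r = 1
  · rw [if_pos hr1, abs_mul, abs_of_pos (by positivity : (0 : ℝ) < q / 2), abs_div,
      abs_of_pos (by positivity : (0 : ℝ) < (K : ℝ) + 1)]
    have hn : |-(2 * ((K : ℝ) - N / 2)) - 1| ≤ 2 * |(K : ℝ) - N / 2| + 1 := by
      calc |-(2 * ((K : ℝ) - N / 2)) - 1| ≤ |-(2 * ((K : ℝ) - N / 2))| + |(1 : ℝ)| := abs_sub _ _
        _ = 2 * |(K : ℝ) - N / 2| + 1 := by rw [abs_neg, abs_mul, abs_two, abs_one]
    rcases le_or_gt ((N : ℝ) / 4) (K + 1) with h | h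
    · have : q / 2 * (|-(2 * ((K : ℝ) - N / 2)) - 1| / (K + 1)) ≤ 2 * (w + 1) := by
        rw [mul_div_assoc', div_le_iff₀ (by positivity)]
        calc q / 2 * |-(2 * ((K : ℝ) - N / 2)) - 1| ≤ q / 2 * (q * w + 1) := by
              refine mul_le_mul_of_nonneg_left (hn.trans (le_of_eq ?_)) (by positivity)
              rw [hy]; ring
          _ ≤ 2 * (w + 1) * ((N : ℝ) / 4) := by rw [← hqq]; nlinarith
          _ ≤ 2 * (w + 1) * (K + 1) := mul_le_mul_of_nonneg_left h (by positivity)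
      linarith
    · have h5 : q ≤ 2 * w := by
        have h6 : (N : ℝ) / 4 ≤ |(K : ℝ) - N / 2| := by
          rw [abs_sub_comm]
          linarith [le_abs_self ((N : ℝ) / 2 - K)]
        rw [hy, ← hqq] at h6
        nlinarith
      have h7 : q / 2 * (|-(2 * ((K : ℝ) - N / 2)) - 1| / (K + 1)) ≤ q / 2 * (2 * N) := by
        refine mul_le_mul_of_nonneg_left ?_ (by positivity)
        rw [div_le_iff₀ (by positivity)]
        nlinarith
      have h8 : q / 2 * (2 * N) ≤ 8 * w ^ 3 := by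
        rw [← hqq]
        calc q / 2 * (2 * q ^ 2) = q ^ 3 := by ring
          _ ≤ (2 * w) ^ 3 := pow_le_pow_left₀ (by linarith) h5 3
          _ = 8 * w ^ 3 := by ring
      linarith
  · rw [if_neg hr1, abs_mul, abs_of_pos (by positivity : (0 : ℝ) < (N : ℝ) / 4), abs_div,
      abs_of_pos (by positivity : (0 : ℝ) < ((K : ℝ) + 1) * (K + 2))]
    have hn : |4 * ((K : ℝ) - N / 2) ^ 2 + 8 * ((K : ℝ) - N / 2) + 2 - N| ≤
        4 * |(K : ℝ) - N / 2| ^ 2 + 8 * |(K : ℝ) - N / 2| + 2 + N := by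
      rw [sq_abs]
      have e1 := neg_abs_le ((K : ℝ) - N / 2)
      have e2 := le_abs_self ((K : ℝ) - N / 2)
      rw [abs_le]
      constructor <;> nlinarith [sq_nonneg ((K : ℝ) - N / 2)]
    rcases le_or_gt ((N : ℝ) / 4) (K + 1) with h | h
    · have : (N : ℝ) / 4 * (|4 * ((K : ℝ) - N / 2) ^ 2 + 8 * ((K : ℝ) - N / 2) + 2 - N| / ((K + 1) * (K + 2)))
          ≤ 4 * (w ^ 2 + 4 * w + 3) := by
        rw [mul_div_assoc', div_le_iff₀ (by positivity)]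
        have e3 : ((N : ℝ) / 4) * ((N : ℝ) / 4) ≤ (K + 1) * (K + 2) :=
          mul_le_mul h (by linarith) (by positivity) (by positivity)
        calc (N : ℝ) / 4 * |4 * ((K : ℝ) - N / 2) ^ 2 + 8 * ((K : ℝ) - N / 2) + 2 - N|
            ≤ (N : ℝ) / 4 * (N * w ^ 2 + 4 * (q * w) + 2 + N) := by
              refine mul_le_mul_of_nonneg_left (hn.trans (le_of_eq ?_)) (by positivity)
              rw [hy, ← hqq]; ring
          _ ≤ (N : ℝ) / 4 * (N * (w ^ 2 + 4 * w + 3)) := by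
              refine mul_le_mul_of_nonneg_left ?_ (by positivity)
              have e4 : q * w ≤ N * w := mul_le_mul_of_nonneg_right (by rw [← hqq]; nlinarith) hw0
              nlinarith
          _ = 4 * (w ^ 2 + 4 * w + 3) * (((N : ℝ) / 4) * ((N : ℝ) / 4)) := by ring
          _ ≤ 4 * (w ^ 2 + 4 * w + 3) * ((K + 1) * (K + 2)) :=
              mul_le_mul_of_nonneg_left e3 (by positivity)
      linarith
    · have h5 : q ≤ 2 * w := by
        have h6 : (N : ℝ) / 4 ≤ |(K : ℝ) - N / 2| := by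
          rw [abs_sub_comm]
          linarith [le_abs_self ((N : ℝ) / 2 - K)]
        rw [hy, ← hqq] at h6
        nlinarith
      have h7 : (N : ℝ) / 4 * (|4 * ((K : ℝ) - N / 2) ^ 2 + 8 * ((K : ℝ) - N / 2) + 2 - N| / ((K + 1) * (K + 2)))
          ≤ (N : ℝ) / 4 * (4 * (N : ℝ) ^ 2) := by
        refine mul_le_mul_of_nonneg_left ?_ (by positivity)
        rw [div_le_iff₀ (by positivity)]
        have e5 : |(K : ℝ) - N / 2| ^ 2 ≤ (N / 2) ^ 2 := pow_le_pow_left₀ (abs_nonneg _) hyN 2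
        have e6 : (2 : ℝ) ≤ (K + 1) * (K + 2) := by nlinarith
        have e7 : |4 * ((K : ℝ) - N / 2) ^ 2 + 8 * ((K : ℝ) - N / 2) + 2 - N| ≤ 8 * (N : ℝ) ^ 2 := by
          nlinarith
        nlinarith [sq_nonneg (N : ℝ)]
      have h8 : (N : ℝ) / 4 * (4 * (N : ℝ) ^ 2) ≤ 64 * w ^ 6 := by
        rw [← hqq]
        calc q ^ 2 / 4 * (4 * (q ^ 2) ^ 2) = q ^ 6 := by ring
          _ ≤ (2 * w) ^ 6 := pow_le_pow_left₀ (by linarith) h5 6
          _ = 64 * w ^ 6 := by ring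
      linarith

theorem WL1_G (x : ℝ) (hx : 0 ≤ x) :
    (1 + x) ^ 6 * exp (-(x ^ 2 / 4)) ≤ 5040 * exp 2 / (1 + x) := by
  have h1 : exp (-(x ^ 2 / 4)) ≤ exp (1 - x) := exp_le_exp.2 (by nlinarith [sq_nonneg (x / 2 - 1)])
  have h2 := Real.pow_div_factorial_le_exp (1 + x) (by linarith) 7
  have h3 : ((Nat.factorial 7 : ℕ) : ℝ) = 5040 := by norm_num [Nat.factorial]
  rw [h3, div_le_iff₀ (by norm_num)] at h2
  rw [le_div_iff₀ (by linarith)]
  calc (1 + x) ^ 6 * exp (-(x ^ 2 / 4)) * (1 + x) = (1 + x) ^ 7 * exp (-(x ^ 2 / 4)) := by ring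
    _ ≤ (exp (1 + x) * 5040) * exp (1 - x) := mul_le_mul h2 h1 (exp_pos _).le (by positivity)
    _ = 5040 * (exp (1 + x) * exp (1 - x)) := by ring
    _ = 5040 * exp 2 := by rw [← exp_add]; norm_num

theorem WL1_main_bound {r N K : ℕ} (hr : r ≤ 2) (hN : 1 ≤ N) :
    |(√N / 2) ^ r * dch r N K| ≤ cb N * (160 * (5040 * exp 2) / (1 + |WL1_w N K|)) := by
  rcases Nat.lt_or_ge N K with hK | hK
  · have h0 : dch r N K = 0 := by
      unfold dch
      rw [Nat.choose_eq_zero_of_lt hK, Nat.choose_eq_zero_of_lt (show N < K + 1 by omega),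
        Nat.choose_eq_zero_of_lt (show N < K + 2 by omega)]
      split_ifs <;> simp
    rw [h0, mul_zero, abs_zero]
    positivity
  · rw [WL1_dch hr hK, abs_mul, Nat.abs_cast]
    have h1 := WL1_G |WL1_w N K| (abs_nonneg _)
    rw [sq_abs] at h1
    calc (N.choose K : ℝ) * |WL1_A r N K|
        ≤ (cb N * (2 * exp (-(WL1_w N K ^ 2 / 4)))) * (80 * (1 + |WL1_w N K|) ^ 6) :=
          mul_le_mul (WL1_R_up1 hN hK) (WL1_A_bound hN hK) (abs_nonneg _) (by positivity)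
      _ = cb N * (160 * ((1 + |WL1_w N K|) ^ 6 * exp (-(WL1_w N K ^ 2 / 4)))) := by ring
      _ ≤ cb N * (160 * (5040 * exp 2 / (1 + |WL1_w N K|))) :=
          mul_le_mul_of_nonneg_left (mul_le_mul_of_nonneg_left h1 (by norm_num)) (Nat.cast_nonneg _)
      _ = cb N * (160 * (5040 * exp 2) / (1 + |WL1_w N K|)) := by ring

/-- the polynomial factors of the kernels -/
noncomputable def WL1_p (r : ℕ) (w : ℝ) : ℝ := if r = 0 then 1 else if r = 1 then -w else w ^ 2 - 1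

theorem WL1_fk (r : ℕ) (w : ℝ) : fk r w = exp (-(w ^ 2 / 2)) * WL1_p r w := by
  unfold fk WL1_p
  split_ifs <;> ring

theorem WL1_fk_bound (r : ℕ) (w : ℝ) : |fk r w| ≤ 160 * (5040 * exp 2) / (1 + |w|) := by
  have h1 := WL1_G |w| (abs_nonneg _)
  rw [sq_abs] at h1
  have h2 : |WL1_p r w| ≤ (1 + |w|) ^ 6 := by
    have h3 : (1 + |w|) ^ 2 ≤ (1 + |w|) ^ 6 :=
      pow_le_pow_right₀ (by linarith [abs_nonneg w]) (by norm_num)
    have h4 : |WL1_p r w| ≤ (1 + |w|) ^ 2 := by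
      have h5 := abs_nonneg w
      have h6 := sq_abs w
      unfold WL1_p
      split_ifs
      · rw [abs_one]; nlinarith
      · rw [abs_neg]; nlinarith
      · rw [abs_le]; constructor <;> nlinarith
    exact h4.trans h3
  have h7 : exp (-(w ^ 2 / 2)) ≤ exp (-(w ^ 2 / 4)) := exp_le_exp.2 (by nlinarith [sq_nonneg w])
  rw [WL1_fk, abs_mul, abs_of_pos (exp_pos _)]
  have h8 : 0 ≤ 5040 * exp 2 / (1 + |w|) := by positivity
  calc exp (-(w ^ 2 / 2)) * |WL1_p r w| ≤ exp (-(w ^ 2 / 4)) * (1 + |w|) ^ 6 :=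
        mul_le_mul h7 h2 (abs_nonneg _) (exp_pos _).le
    _ ≤ 5040 * exp 2 / (1 + |w|) := by linarith
    _ ≤ 160 * (5040 * exp 2 / (1 + |w|)) := by linarith
    _ = 160 * (5040 * exp 2) / (1 + |w|) := by ring

theorem WL1_A_close {r N K : ℕ} (hr : r ≤ 2) (hN : 1 ≤ N) {B s : ℝ} (hs : s = 1 / √N)
    (hB : |WL1_w N K| + 1 ≤ B) (hBs : B * s ≤ 1 / 8) :
    |WL1_A r N K - WL1_p r (WL1_w N K)| ≤ 80 * s * B ^ 4 := by
  have h1 : (1 : ℝ) ≤ N := by exact_mod_cast hN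
  have hq : 1 ≤ √(N : ℝ) := Real.one_le_sqrt.2 h1
  have hqq : √(N : ℝ) ^ 2 = N := Real.sq_sqrt (by linarith)
  have hq0 : 0 < √(N : ℝ) := by linarith
  have hyw : (K : ℝ) - N / 2 = √N * WL1_w N K / 2 := by
    rw [WL1_w]; field_simp
  set w := WL1_w N K with hw
  have hs0 : 0 < s := by rw [hs]; positivity
  have hs1 : s ≤ 1 := by rw [hs, div_le_one hq0]; exact hq
  have hqs : √(N : ℝ) = 1 / s := by rw [hs]; field_simp
  have hNs : (N : ℝ) = 1 / s ^ 2 := by rw [← hqq, hqs]; ring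
  have hB1 : 1 ≤ B := by linarith [abs_nonneg w]
  have hwB : |w| ≤ B := by linarith
  have hwb := abs_le.1 hwB
  have hws : |w * s| ≤ 1 / 8 := by
    rw [abs_mul, abs_of_pos hs0]
    exact (mul_le_mul_of_nonneg_right hwB hs0.le).trans hBs
  have hws' := abs_le.1 hws
  have hs8 : s ≤ 1 / 8 := by nlinarith
  have hD1 : 1 / 2 ≤ 1 + w * s + 2 * s ^ 2 := by nlinarith [sq_nonneg s]
  have hD2 : 1 / 2 ≤ 1 + w * s + 4 * s ^ 2 := by nlinarith [sq_nonneg s]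
  have hK1 : (K : ℝ) + 1 = (1 + w * s + 2 * s ^ 2) / (2 * s ^ 2) := by
    have : (K : ℝ) = N / 2 + √N * w / 2 := by linarith
    rw [this, hqs, hNs]
    field_simp
  have hK2 : (K : ℝ) + 2 = (1 + w * s + 4 * s ^ 2) / (2 * s ^ 2) := by
    have : (K : ℝ) = N / 2 + √N * w / 2 := by linarith
    rw [this, hqs, hNs]
    field_simp
    ring
  have hB4 : 1 ≤ B ^ 4 := one_le_pow₀ hB1
  have hB24 : B ^ 2 ≤ B ^ 4 := pow_le_pow_right₀ hB1 (by norm_num)
  have hB14 : B ≤ B ^ 4 := by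
    calc B = B ^ 1 := by ring
      _ ≤ B ^ 4 := pow_le_pow_right₀ hB1 (by norm_num)
  have hw2 : w ^ 2 ≤ B ^ 2 := by rw [← sq_abs]; exact pow_le_pow_left₀ (abs_nonneg _) hwB 2
  interval_cases r
  · simp only [WL1_A, WL1_p, if_true, sub_self, abs_zero]
    positivity
  · simp only [WL1_A, WL1_p, one_ne_zero, if_false, if_true]
    rw [hyw, hK1, hqs]
    have e0 : ∀ D1 : ℝ, D1 ≠ 0 → 1 / s / 2 * ((-(2 * (1 / s * w / 2)) - 1) / (D1 / (2 * s ^ 2))) - -w =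
        (w * D1 - w - s) / D1 := by
      intro D1 hD1
      field_simp
      ring
    have e1 : 1 / s / 2 * ((-(2 * (1 / s * w / 2)) - 1) / ((1 + w * s + 2 * s ^ 2) / (2 * s ^ 2))) - -w =
        s * (-1 + w ^ 2 + 2 * (w * s)) / (1 + w * s + 2 * s ^ 2) := by
      rw [e0 _ (by linarith)]
      congr 1
      ring
    rw [e1, abs_div, abs_of_pos (by linarith : 0 < 1 + w * s + 2 * s ^ 2), div_le_iff₀ (by linarith),
      abs_mul, abs_of_pos hs0]
    have e2 : |-1 + w ^ 2 + 2 * (w * s)| ≤ 3 * B ^ 4 := by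
      rw [abs_le]
      constructor <;> nlinarith [sq_nonneg w]
    have e3 : 40 * s * B ^ 4 ≤ 80 * s * B ^ 4 * (1 + w * s + 2 * s ^ 2) := by
      have : 0 ≤ 80 * s * B ^ 4 := by positivity
      nlinarith
    have e4 : s * |-1 + w ^ 2 + 2 * (w * s)| ≤ s * (3 * B ^ 4) := mul_le_mul_of_nonneg_left e2 hs0.le
    have e5 : 0 ≤ s * B ^ 4 := by positivity
    nlinarith
  · simp only [WL1_A, WL1_p, OfNat.ofNat_ne_zero, OfNat.ofNat_ne_one, if_false]
    rw [hyw, hK1, hK2, hqs, hNs]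
    set D := (1 + w * s + 2 * s ^ 2) * (1 + w * s + 4 * s ^ 2) with hD
    have hDpos : 1 / 4 ≤ D := by
      rw [hD]
      calc (1 / 4 : ℝ) = 1 / 2 * (1 / 2) := by norm_num
        _ ≤ _ := mul_le_mul hD1 hD2 (by norm_num) (by linarith)
    have e1 : 1 / s ^ 2 / 4 * ((4 * (1 / s * w / 2) ^ 2 + 8 * (1 / s * w / 2) + 2 - 1 / s ^ 2) /
        ((1 + w * s + 2 * s ^ 2) / (2 * s ^ 2) * ((1 + w * s + 4 * s ^ 2) / (2 * s ^ 2)))) - (w ^ 2 - 1) =
        (4 * (w * s) + 2 * s ^ 2 - (w ^ 2 - 1) * (D - 1)) / D := by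
      have e0 : ∀ D1 D2 : ℝ, D1 ≠ 0 → D2 ≠ 0 →
          1 / s ^ 2 / 4 * ((4 * (1 / s * w / 2) ^ 2 + 8 * (1 / s * w / 2) + 2 - 1 / s ^ 2) /
          (D1 / (2 * s ^ 2) * (D2 / (2 * s ^ 2)))) - (w ^ 2 - 1) =
          (w ^ 2 + 4 * (w * s) + 2 * s ^ 2 - 1 - (w ^ 2 - 1) * (D1 * D2)) / (D1 * D2) := by
        intro D1 D2 h1 h2
        field_simp
        ring
      rw [e0 _ _ (by linarith) (by linarith), ← hD]
      congr 1
      ring
    rw [e1, abs_div, abs_of_pos (by linarith : 0 < D), div_le_iff₀ (by linarith)]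
    have e2 : D - 1 = s * (2 * w + w * (w * s) + 6 * s + 6 * (w * s) * s + 8 * s ^ 3) := by
      rw [hD]; ring
    have hs3 : s ^ 3 ≤ 1 := pow_le_one₀ hs0.le hs1
    have e3 : |2 * w + w * (w * s) + 6 * s + 6 * (w * s) * s + 8 * s ^ 3| ≤ 5 * B := by
      have f1 : |w * (w * s)| ≤ B * (1 / 8) := by
        rw [abs_mul]; exact mul_le_mul hwB hws (abs_nonneg _) (by linarith)
      have f2 : |6 * (w * s) * s| ≤ 6 * (1 / 8) * (1 / 8) := by
        rw [abs_mul, abs_mul, abs_of_pos (by norm_num : (0 : ℝ) < 6), abs_of_pos hs0]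
        exact mul_le_mul (by linarith) hs8 hs0.le (by norm_num)
      have f1' := abs_le.1 f1
      have f2' := abs_le.1 f2
      have f3 : s ^ 3 ≤ 1 / 8 := by
        calc s ^ 3 = s * (s * s) := by ring
          _ ≤ s * (1 * 1) := by
            refine mul_le_mul_of_nonneg_left ?_ hs0.le
            exact mul_le_mul hs1 hs1 hs0.le (by norm_num)
          _ ≤ 1 / 8 := by linarith
      have f4 : 0 < s ^ 3 := by positivity
      rw [abs_le]
      constructor <;> linarith [f1'.1, f1'.2, f2'.1, f2'.2, hwb.1, hwb.2]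
    have e4 : |D - 1| ≤ s * (5 * B) := by
      rw [e2, abs_mul, abs_of_pos hs0]
      exact mul_le_mul_of_nonneg_left e3 hs0.le
    have e5 : |w ^ 2 - 1| ≤ B ^ 2 := by
      rw [abs_le]
      constructor <;> nlinarith [sq_nonneg w]
    have e6 : |(w ^ 2 - 1) * (D - 1)| ≤ B ^ 2 * (s * (5 * B)) := by
      rw [abs_mul]; exact mul_le_mul e5 e4 (abs_nonneg _) (by positivity)
    have e7 : B ^ 2 * (s * (5 * B)) ≤ 5 * (s * B ^ 4) := by
      have : B ^ 3 ≤ B ^ 4 := pow_le_pow_right₀ hB1 (by norm_num)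
      calc B ^ 2 * (s * (5 * B)) = 5 * (s * B ^ 3) := by ring
        _ ≤ 5 * (s * B ^ 4) := by
          refine mul_le_mul_of_nonneg_left (mul_le_mul_of_nonneg_left this hs0.le) (by norm_num)
    have e8 : |4 * (w * s)| ≤ 4 * (s * B ^ 4) := by
      rw [abs_mul, abs_mul, abs_of_pos hs0, abs_of_pos (by norm_num : (0 : ℝ) < 4)]
      have : |w| * s ≤ B ^ 4 * s := mul_le_mul_of_nonneg_right (hwB.trans hB14) hs0.le
      linarith
    have e9 : |2 * s ^ 2| ≤ 2 * (s * B ^ 4) := by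
      rw [abs_of_pos (by positivity)]
      have : s * s ≤ s * B ^ 4 := mul_le_mul_of_nonneg_left (hs1.trans hB4) hs0.le
      nlinarith
    have e10 : |4 * (w * s) + 2 * s ^ 2 - (w ^ 2 - 1) * (D - 1)| ≤ 11 * (s * B ^ 4) := by
      have := abs_le.1 e8
      have := abs_le.1 e9
      have := abs_le.1 (e6.trans e7)
      rw [abs_le]
      constructor <;> linarith
    have e11 : 20 * (s * B ^ 4) ≤ 80 * s * B ^ 4 * D := by
      have : 0 ≤ 80 * s * B ^ 4 := by positivity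
      nlinarith
    have e12 : 0 ≤ s * B ^ 4 := by positivity
    linarith

theorem WL1_R_close {N K : ℕ} (hN : 1 ≤ N) (hK : K ≤ N) {B s : ℝ} (hs : s = 1 / √N)
    (hB : |WL1_w N K| + 1 ≤ B) (hBs : B * s ≤ 1 / 8) :
    |(N.choose K : ℝ) / cb N - exp (-(WL1_w N K ^ 2 / 2))| ≤ 2 * (s ^ 2 * B ^ 4) := by
  have h1 : (1 : ℝ) ≤ N := by exact_mod_cast hN
  have hq : 1 ≤ √(N : ℝ) := Real.one_le_sqrt.2 h1
  have hqq : √(N : ℝ) ^ 2 = N := Real.sq_sqrt (by linarith)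
  have hq0 : 0 < √(N : ℝ) := by linarith
  have hya := WL1_w_abs (K := K) hN
  have hup := WL1_R_up2 hN hK
  have hlow := WL1_R_low hN hK
  rw [hya] at hlow
  set w := WL1_w N K with hw
  have hs0 : 0 < s := by rw [hs]; positivity
  have hs1 : s ≤ 1 := by rw [hs, div_le_one hq0]; exact hq
  have hqs : √(N : ℝ) = 1 / s := by rw [hs]; field_simp
  have hNs : (N : ℝ) = 1 / s ^ 2 := by rw [← hqq, hqs]; ring
  have hw0 := abs_nonneg w
  have hB1 : 1 ≤ B := by linarith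
  have hcb := WL1_cbpos N
  have hlow' := hlow (by
    rw [hqs, hNs]
    have : 1 ≤ 1 / s * (1 / 8) * B⁻¹ := by
      rw [← div_eq_mul_inv, le_div_iff₀ (by linarith)]
      rw [div_mul_eq_mul_div, le_div_iff₀ hs0]
      linarith
    have h8 : B * 8 ≤ 1 / s := by rw [le_div_iff₀ hs0]; linarith
    have h9 : 1 / s ^ 2 = 1 / s * (1 / s) := by ring
    rw [h9]
    have h10 : 0 < 1 / s := by positivity
    nlinarith)
  have hR1 : exp (-(w ^ 2 / 2) - (|w| + 1) ^ 4 / N) ≤ (N.choose K : ℝ) / cb N := by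
    rw [le_div_iff₀ hcb]; linarith
  have hR2 : (N.choose K : ℝ) / cb N ≤ exp (-(w ^ 2 / 2) + (w ^ 2 + 1) / (2 * N)) := by
    rw [div_le_iff₀ hcb]; linarith
  have hB24 : B ^ 2 ≤ B ^ 4 := pow_le_pow_right₀ hB1 (by norm_num)
  have e0 : exp (-(w ^ 2 / 2)) ≤ 1 := Real.exp_le_one_iff.2 (by nlinarith [sq_nonneg w])
  have e0' : 0 < exp (-(w ^ 2 / 2)) := exp_pos _
  have e1 : (|w| + 1) ^ 4 / N ≤ s ^ 2 * B ^ 4 := by
    rw [hNs, div_le_iff₀ (by positivity)]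
    have : (|w| + 1) ^ 4 ≤ B ^ 4 := pow_le_pow_left₀ (by linarith) hB 4
    have e : s ^ 2 * B ^ 4 * (1 / s ^ 2) = B ^ 4 := by field_simp
    rw [e]; exact this
  have e2 : (w ^ 2 + 1) / (2 * N) ≤ s ^ 2 * B ^ 2 := by
    rw [hNs, div_le_iff₀ (by positivity)]
    have e : s ^ 2 * B ^ 2 * (2 * (1 / s ^ 2)) = 2 * B ^ 2 := by field_simp
    rw [e, ← sq_abs]
    nlinarith
  have e3 : 0 ≤ (w ^ 2 + 1) / (2 * N) := by positivity
  have hsB : s ^ 2 * B ^ 2 ≤ 1 := by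
    calc s ^ 2 * B ^ 2 = (B * s) ^ 2 := by ring
      _ ≤ (1 / 8) ^ 2 := pow_le_pow_left₀ (by positivity) hBs 2
      _ ≤ 1 := by norm_num
  have e4 : exp ((w ^ 2 + 1) / (2 * N)) ≤ 1 + 2 * (s ^ 2 * B ^ 2) := by
    have := Real.abs_exp_sub_one_le (x := (w ^ 2 + 1) / (2 * N)) (by
      rw [abs_of_nonneg e3]; linarith)
    rw [abs_of_nonneg e3] at this
    linarith [(abs_le.1 this).2]
  have e5 : 1 - (|w| + 1) ^ 4 / N ≤ exp (-((|w| + 1) ^ 4 / N)) := by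
    linarith [Real.add_one_le_exp (-((|w| + 1) ^ 4 / N))]
  rw [sub_eq_add_neg (-(w ^ 2 / 2)), exp_add] at hR1
  rw [exp_add] at hR2
  have e6 : exp (-(w ^ 2 / 2)) * (1 - (|w| + 1) ^ 4 / N) ≤ (N.choose K : ℝ) / cb N :=
    (mul_le_mul_of_nonneg_left e5 e0'.le).trans hR1
  have e7 : (N.choose K : ℝ) / cb N ≤ exp (-(w ^ 2 / 2)) * (1 + 2 * (s ^ 2 * B ^ 2)) :=
    hR2.trans (mul_le_mul_of_nonneg_left e4 e0'.le)
  have e8 : 0 ≤ (|w| + 1) ^ 4 / N := by positivity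
  have e9 : exp (-(w ^ 2 / 2)) * ((|w| + 1) ^ 4 / N) ≤ 1 * (s ^ 2 * B ^ 4) :=
    mul_le_mul e0 e1 e8 (by norm_num)
  have e10 : exp (-(w ^ 2 / 2)) * (2 * (s ^ 2 * B ^ 2)) ≤ 1 * (2 * (s ^ 2 * B ^ 4)) :=
    mul_le_mul e0 (by
      have : s ^ 2 * B ^ 2 ≤ s ^ 2 * B ^ 4 := mul_le_mul_of_nonneg_left hB24 (by positivity)
      linarith) (by positivity) (by norm_num)
  have e11 : 0 ≤ s ^ 2 * B ^ 4 := by positivity
  rw [abs_le]
  constructor <;> linarith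

/-- **Local limit theorem**, uniform in `K`. `w = 2 (K - N/2)/√N`.
Proof. `|y| ≤ N^(0.6)`: `choose N K / cb N = exp(-2y²/N + O(y⁴/N³ + |y|/N + 1/N))` (product formula: `log` of the quotient of neighbours is `-log((K+1)/(N-K)) = -(4y+2)/N + O(y²·|y|/N³ ..)`), and `choose_succ_sub`, `choose_second`:
the first difference is `choose N K * (-(2y+1)/(N/2+y+1))`, the second `choose N K * (4y²+8y+2-N)/((K+1)(K+2))`. `|y| > N^(0.6)`: both sides tend to `0` (`choose_le_gauss`, `cb N ≥ 2^N/(N+1)`). -/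
theorem local_limit {ε : ℝ} (hε : 0 < ε) (r : ℕ) (hr : r ≤ 2) : ∃ N0 : ℕ, ∀ N ≥ N0, ∀ K : ℕ,
    |(√N / 2) ^ r * dch r N K / cb N - fk r (2 * ((K : ℝ) - N / 2) / √N)| ≤ ε := by
  set C : ℝ := 160 * (5040 * exp 2) with hC
  have hC0 : 0 < C := by positivity
  set B : ℝ := 2 * C / ε + 1 with hB
  have hB1 : 1 ≤ B := by
    have : 0 < 2 * C / ε := by positivity
    linarith
  set Q : ℝ := max (8 * B) (240 * B ^ 10 / ε) with hQ
  have hQ0 : 0 ≤ Q := le_max_of_le_left (by linarith)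
  refine ⟨⌈Q ^ 2⌉₊ + 1, fun N hN K => ?_⟩
  have hN1 : 1 ≤ N := by omega
  have hNQ : Q ^ 2 ≤ N := by
    have h1 : Q ^ 2 ≤ (⌈Q ^ 2⌉₊ : ℝ) := Nat.le_ceil _
    have h2 : (⌈Q ^ 2⌉₊ : ℝ) ≤ N := by exact_mod_cast (by omega : ⌈Q ^ 2⌉₊ ≤ N)
    linarith
  have hqQ : Q ≤ √(N : ℝ) := Real.le_sqrt_of_sq_le hNQ
  have hq0 : 0 < √(N : ℝ) := Real.sqrt_pos.2 (by exact_mod_cast hN1)
  have hcb := WL1_cbpos N
  change |(√N / 2) ^ r * dch r N K / cb N - fk r (WL1_w N K)| ≤ ε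
  rcases le_or_gt (|WL1_w N K| + 1) B with hw | hw
  · have hKN : K ≤ N ∨ N < K := Nat.lt_or_ge N K |>.symm
    set s : ℝ := 1 / √(N : ℝ) with hs
    have hs0 : 0 < s := by positivity
    have hBs : B * s ≤ 1 / 8 := by
      rw [hs, mul_one_div, div_le_iff₀ hq0]
      have := (le_max_left _ _).trans hqQ
      linarith
    have hs1 : s ≤ 1 := by nlinarith
    have hsε : 240 * B ^ 10 * s ≤ ε := by
      have h1 : 240 * B ^ 10 / ε ≤ √(N : ℝ) := (le_max_right _ _).trans hqQ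
      rw [div_le_iff₀ hε] at h1
      rw [hs, mul_one_div, div_le_iff₀ hq0]
      linarith
    have hK : K ≤ N := by
      by_contra hK
      push Not at hK
      have h1 : (N : ℝ) < K := by exact_mod_cast hK
      have h2 : √(N : ℝ) ^ 2 = N := Real.sq_sqrt (Nat.cast_nonneg N)
      have h3 : √(N : ℝ) < |WL1_w N K| := by
        refine lt_of_lt_of_le ?_ (le_abs_self _)
        rw [WL1_w, lt_div_iff₀ hq0]
        nlinarith
      have h4 := (le_max_left _ _).trans hqQ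
      linarith
    have hA := WL1_A_close hr hN1 hs hw hBs
    have hR := WL1_R_close hN1 hK hs hw hBs
    have hAb := WL1_A_bound (r := r) hN1 hK
    have hAB : |WL1_A r N K| ≤ 80 * B ^ 6 := by
      refine hAb.trans (mul_le_mul_of_nonneg_left ?_ (by norm_num))
      exact pow_le_pow_left₀ (by positivity) (by linarith) 6
    have e0 : exp (-(WL1_w N K ^ 2 / 2)) ≤ 1 :=
      Real.exp_le_one_iff.2 (by nlinarith [sq_nonneg (WL1_w N K)])
    rw [WL1_dch hr hK, WL1_fk]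
    have e1 : (N.choose K : ℝ) * WL1_A r N K / cb N -
        exp (-(WL1_w N K ^ 2 / 2)) * WL1_p r (WL1_w N K) =
        ((N.choose K : ℝ) / cb N - exp (-(WL1_w N K ^ 2 / 2))) * WL1_A r N K +
          exp (-(WL1_w N K ^ 2 / 2)) * (WL1_A r N K - WL1_p r (WL1_w N K)) := by ring
    rw [e1]
    calc |((N.choose K : ℝ) / cb N - exp (-(WL1_w N K ^ 2 / 2))) * WL1_A r N K +
          exp (-(WL1_w N K ^ 2 / 2)) * (WL1_A r N K - WL1_p r (WL1_w N K))|
        ≤ |((N.choose K : ℝ) / cb N - exp (-(WL1_w N K ^ 2 / 2))) * WL1_A r N K| +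
          |exp (-(WL1_w N K ^ 2 / 2)) * (WL1_A r N K - WL1_p r (WL1_w N K))| := abs_add_le _ _
      _ ≤ 2 * (s ^ 2 * B ^ 4) * (80 * B ^ 6) + 1 * (80 * s * B ^ 4) := by
          rw [abs_mul, abs_mul, abs_of_pos (exp_pos _)]
          exact add_le_add (mul_le_mul hR hAB (abs_nonneg _) (by positivity))
            (mul_le_mul e0 hA (abs_nonneg _) (by norm_num))
      _ ≤ 240 * B ^ 10 * s := by
          have f1 : s ^ 2 * B ^ 10 ≤ s * B ^ 10 :=
            mul_le_mul_of_nonneg_right (by nlinarith) (by positivity)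
          have f2 : B ^ 4 ≤ B ^ 10 := pow_le_pow_right₀ hB1 (by norm_num)
          have f3 : s * B ^ 4 ≤ s * B ^ 10 := mul_le_mul_of_nonneg_left f2 hs0.le
          have f4 : 2 * (s ^ 2 * B ^ 4) * (80 * B ^ 6) = 160 * (s ^ 2 * B ^ 10) := by ring
          rw [f4]
          linarith
      _ ≤ ε := hsε
  · have h1 := WL1_main_bound (K := K) hr hN1
    have h2 := WL1_fk_bound r (WL1_w N K)
    rw [← hC] at h1 h2
    have h3 : C / (1 + |WL1_w N K|) ≤ ε / 2 := by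
      rw [div_le_iff₀ (by positivity)]
      have h4 : 2 * C / ε ≤ 1 + |WL1_w N K| := by linarith
      rw [div_le_iff₀ hε] at h4
      linarith
    have h5 : |(√N / 2) ^ r * dch r N K / cb N| ≤ ε / 2 := by
      rw [abs_div, abs_of_pos hcb, div_le_iff₀ hcb]
      refine h1.trans ?_
      rw [mul_comm]
      exact mul_le_mul_of_nonneg_right h3 hcb.le
    have h6 : |fk r (WL1_w N K)| ≤ ε / 2 := h2.trans h3
    calc |(√N / 2) ^ r * dch r N K / cb N - fk r (WL1_w N K)|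
        ≤ |(√N / 2) ^ r * dch r N K / cb N| + |fk r (WL1_w N K)| := abs_sub _ _
      _ ≤ ε := by linarith

/-- Consequence: a uniform bound (all `N ≥ 1`). -/
theorem dch_bound : ∃ C : ℝ, 0 < C ∧ ∀ N : ℕ, 1 ≤ N → ∀ K : ℕ, ∀ r ≤ 2,
    |(√N / 2) ^ r * dch r N K| ≤ C * cb N := by
  refine ⟨160 * (5040 * exp 2), by positivity, fun N hN K r hr => ?_⟩
  refine (WL1_main_bound hr hN).trans ?_
  rw [mul_comm]
  refine mul_le_mul_of_nonneg_right ?_ (Nat.cast_nonneg _)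
  exact div_le_self (by positivity) (by linarith [abs_nonneg (WL1_w N K)])

end Pool.Agent.H.MP_82502e_co
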