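import Mathlib

set_option autoImplicit false

/-!
# The window: peak: central limit theorem for the symmetric binomial distribution
-/

namespace Pool.Agent.H.MP_82502e_co

open Finset Real MeasureTheory ProbabilityTheory

theorem WLB_sum_one (l : ℕ) : ∑ s ∈ range (l + 1), (l.choose s : ℝ) / 2 ^ l = 1 := by
  rw [← Finset.sum_div]
  have h := Nat.sum_range_choose l
  have h2 : ∑ s ∈ range (l + 1), (l.choose s : ℝ) = 2 ^ l := by
    have := congrArg (Nat.cast (R := ℝ)) h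
    push_cast at this
    exact this
  rw [h2]
  field_simp

/-- the law of `(l - 2 s) / √l` -/
noncomputable def WLB_mu (l : ℕ) : Measure ℝ :=
  ∑ s ∈ range (l + 1), ENNReal.ofReal ((l.choose s : ℝ) / 2 ^ l) •
    Measure.dirac (((l : ℝ) - 2 * s) / √l)

instance WLB_prob (l : ℕ) : IsProbabilityMeasure (WLB_mu l) := by
  constructor
  simp only [WLB_mu, Measure.coe_finsetSum, Finset.sum_apply, Measure.smul_apply,
    measure_univ, smul_eq_mul, mul_one]
  rw [← ENNReal.ofReal_sum_of_nonneg (fun s _ => by positivity), WLB_sum_one, ENNReal.ofReal_one]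

theorem WLB_integral {E : Type} [NormedAddCommGroup E] [NormedSpace ℝ E] [CompleteSpace E]
    (l : ℕ) (f : ℝ → E) :
    ∫ x, f x ∂(WLB_mu l) = ∑ s ∈ range (l + 1), ((l.choose s : ℝ) / 2 ^ l) •
      f (((l : ℝ) - 2 * s) / √l) := by
  unfold WLB_mu
  rw [integral_finsetSum_measure]
  · refine Finset.sum_congr rfl (fun s _ => ?_)
    rw [integral_smul_measure, integral_dirac, ENNReal.toReal_ofReal (by positivity)]
  · intro s _
    refine Integrable.smul_measure ?_ ENNReal.ofReal_ne_top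
    exact integrable_dirac enorm_lt_top

theorem WLB_trig (l : ℕ) (θ : ℂ) :
    ∑ s ∈ range (l + 1), ((l.choose s : ℂ) / 2 ^ l) * Complex.exp (θ * ((l : ℂ) - 2 * s) * Complex.I)
      = Complex.cos θ ^ l := by
  rw [Complex.cos, div_pow, add_comm (Complex.exp (θ * Complex.I)), add_pow, Finset.sum_div]
  refine Finset.sum_congr rfl (fun s hs => ?_)
  have hs' : s ≤ l := Nat.lt_succ_iff.1 (Finset.mem_range.1 hs)
  rw [← Complex.exp_nat_mul, ← Complex.exp_nat_mul, ← Complex.exp_add]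
  rw [show (s : ℂ) * (-θ * Complex.I) + ((l - s : ℕ) : ℂ) * (θ * Complex.I) =
    θ * ((l : ℂ) - 2 * s) * Complex.I by rw [Nat.cast_sub hs']; ring]
  ring

theorem WLB_charFun (l : ℕ) (t : ℝ) :
    charFun (WLB_mu l) t = ((cos (t / √l) ^ l : ℝ) : ℂ) := by
  rw [charFun_apply_real, WLB_integral]
  push_cast
  rw [← WLB_trig]
  refine Finset.sum_congr rfl (fun s hs => ?_)
  rw [Complex.real_smul]
  push_cast
  congr 2
  ring

theorem WLB_cos_lim (t : ℝ) :
    Filter.Tendsto (fun l : ℕ => cos (t / √l) ^ l) Filter.atTop (nhds (exp (-t ^ 2 / 2))) := by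
  have h1 : Filter.Tendsto (fun l : ℕ => (l : ℝ) * (cos (t / √l) - 1)) Filter.atTop
      (nhds (-t ^ 2 / 2)) := by
    have h0 : Filter.Tendsto (fun l : ℕ => t / √(l : ℝ)) Filter.atTop (nhds 0) :=
      Filter.Tendsto.div_atTop tendsto_const_nhds
        (Real.tendsto_sqrt_atTop.comp tendsto_natCast_atTop_atTop)
    have h2 : Filter.Tendsto (fun l : ℕ => (5 / 96 : ℝ) * t ^ 4 * (1 / (l : ℝ))) Filter.atTop
        (nhds 0) := by
      have := (tendsto_one_div_atTop_nhds_zero_nat (𝕜 := ℝ)).const_mul ((5 / 96 : ℝ) * t ^ 4)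
      rwa [mul_zero] at this
    rw [← tendsto_sub_nhds_zero_iff]
    refine squeeze_zero_norm' ?_ h2
    have h3 : ∀ᶠ l : ℕ in Filter.atTop, |t / √(l : ℝ)| ≤ 1 := by
      have := h0.eventually (Metric.ball_mem_nhds (0 : ℝ) one_pos)
      filter_upwards [this] with l hl
      rw [dist_zero_right, Real.norm_eq_abs] at hl
      exact hl.le
    filter_upwards [h3, Filter.eventually_gt_atTop 0] with l hl hl0
    have hl1 : (0 : ℝ) < l := by exact_mod_cast hl0
    have hb := Real.cos_bound hl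
    have hsq : (t / √(l : ℝ)) ^ 2 = t ^ 2 / l := by
      rw [div_pow, Real.sq_sqrt hl1.le]
    have h4 : |t / √(l : ℝ)| ^ 4 = t ^ 4 / (l : ℝ) ^ 2 := by
      rw [show |t / √(l : ℝ)| ^ 4 = (|t / √(l : ℝ)| ^ 2) ^ 2 by ring, sq_abs, hsq]
      ring
    rw [h4, hsq] at hb
    rw [Real.norm_eq_abs]
    have h5 : (l : ℝ) * (cos (t / √l) - 1) - -t ^ 2 / 2 =
        (l : ℝ) * (cos (t / √l) - (1 - t ^ 2 / l / 2)) := by
      field_simp
      ring
    rw [h5, abs_mul, abs_of_pos hl1]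
    calc (l : ℝ) * |cos (t / √l) - (1 - t ^ 2 / l / 2)| ≤ (l : ℝ) * (t ^ 4 / (l : ℝ) ^ 2 * (5 / 96)) :=
          mul_le_mul_of_nonneg_left hb hl1.le
      _ = 5 / 96 * t ^ 4 * (1 / (l : ℝ)) := by field_simp
  have h6 := Real.tendsto_one_add_pow_exp_of_tendsto h1
  refine h6.congr (fun l => ?_)
  congr 1
  ring

/-- **CLT.** The law of `(l - 2s)/√l`, `s` binomial `(l, 1/2)`, converges to the standard Gaussian.
Proof. The probability measure `μ_l = Σ_s choose l s / 2^l δ_{(l-2s)/√l}` has characteristic function `cos(θ/√l)^l → exp(-θ²/2)`; Lévy's theorem (`ProbabilityMeasure.tendsto_iff_tendsto_charFun` in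
`Mathlib/MeasureTheory/Measure/LevyConvergence.lean`; `charFun_gaussianReal`). -/
theorem clt_binomial (f : ℝ → ℝ) (hf : Continuous f) (C : ℝ) (hC : ∀ x, |f x| ≤ C) :
    Filter.Tendsto (fun l : ℕ => ∑ s ∈ range (l + 1), (l.choose s : ℝ) / 2 ^ l *
      f (((l : ℝ) - 2 * s) / √l)) Filter.atTop (nhds (∫ u, f u ∂(gaussianReal 0 1))) := by
  let μ : ℕ → ProbabilityMeasure ℝ := fun l => ⟨WLB_mu l, WLB_prob l⟩
  let μ₀ : ProbabilityMeasure ℝ := ⟨gaussianReal 0 1, inferInstance⟩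
  have h1 : Filter.Tendsto μ Filter.atTop (nhds μ₀) := by
    refine ProbabilityMeasure.tendsto_iff_tendsto_charFun.2 (fun t => ?_)
    have h2 : charFun (μ₀ : Measure ℝ) t = ((exp (-t ^ 2 / 2) : ℝ) : ℂ) := by
      change charFun (gaussianReal 0 1) t = _
      rw [charFun_gaussianReal]
      push_cast
      congr 1
      ring
    rw [h2]
    have h3 : (fun n => charFun (μ n : Measure ℝ) t) = fun n : ℕ => ((cos (t / √n) ^ n : ℝ) : ℂ) :=
      funext (fun n => WLB_charFun n t)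
    rw [h3]
    exact (Complex.continuous_ofReal.tendsto _).comp (WLB_cos_lim t)
  have h4 := (ProbabilityMeasure.tendsto_iff_forall_integral_tendsto.1 h1)
    (BoundedContinuousFunction.ofNormedAddCommGroup f hf C hC)
  have h5 : (fun l : ℕ => ∑ s ∈ range (l + 1), (l.choose s : ℝ) / 2 ^ l *
      f (((l : ℝ) - 2 * s) / √l)) = fun l => ∫ x, f x ∂(μ l : Measure ℝ) := by
    funext l
    change _ = ∫ x, f x ∂(WLB_mu l)
    rw [WLB_integral]
    simp only [smul_eq_mul]
  rw [h5]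
  exact h4

/-- Second moment: `Σ_s choose l s / 2^l (l-2s)² = l`. -/
theorem binomial_var (l : ℕ) :
    ∑ s ∈ range (l + 1), (l.choose s : ℝ) / 2 ^ l * ((l : ℝ) - 2 * s) ^ 2 = (l : ℝ) := by
  have h := congrArg (Polynomial.eval (1 / 2 : ℝ)) (bernsteinPolynomial.variance ℝ l)
  simp only [Polynomial.eval_finsetSum, Polynomial.eval_mul, Polynomial.eval_pow,
    Polynomial.eval_sub, bernsteinPolynomial, Polynomial.eval_natCast, Polynomial.eval_X,
    Polynomial.eval_one, nsmul_eq_mul] at h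
  have h2 : ∀ s ∈ range (l + 1), (l.choose s : ℝ) / 2 ^ l * ((l : ℝ) - 2 * s) ^ 2 =
      4 * (((l : ℝ) * (1 / 2) - s) ^ 2 * ((l.choose s : ℝ) * (1 / 2) ^ s * (1 - 1 / 2) ^ (l - s))) := by
    intro s hs
    have hs' : s ≤ l := Nat.lt_succ_iff.1 (Finset.mem_range.1 hs)
    have h3 : (1 / 2 : ℝ) ^ s * (1 - 1 / 2) ^ (l - s) = 1 / 2 ^ l := by
      rw [show (1 - 1 / 2 : ℝ) = 1 / 2 by norm_num, ← pow_add, Nat.add_sub_cancel' hs']
      rw [div_pow, one_pow]
    rw [mul_assoc (l.choose s : ℝ), h3]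
    ring
  rw [Finset.sum_congr rfl h2, ← Finset.mul_sum, h]
  ring

/-- Uniform version: for a bounded Lipschitz `f` and `|t| ≤ T`, `Σ_s choose l s/2^l f(t + (l-2s)²/(2l)) → ∫ f(t + u²/2)` uniformly in `t` (finite net in `t`). -/
theorem clt_uniform (f : ℝ → ℝ) {C : ℝ} (hC : ∀ x, |f x| ≤ C) (hL : ∀ x y, |f x - f y| ≤ C * |x - y|)
    {T ε : ℝ} (hε : 0 < ε) : ∃ l0 : ℕ, ∀ l ≥ l0, ∀ t : ℝ, |t| ≤ T →
    |(∑ s ∈ range (l + 1), (l.choose s : ℝ) / 2 ^ l * f (t + ((l : ℝ) - 2 * s) ^ 2 / (2 * l))) -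
      ∫ u, f (t + u ^ 2 / 2) ∂(gaussianReal 0 1)| ≤ ε := by
  have hC0 : 0 ≤ C := (abs_nonneg _).trans (hC 0)
  have hf : Continuous f := by
    have : LipschitzWith C.toNNReal f := by
      refine LipschitzWith.of_dist_le_mul (fun x y => ?_)
      rw [Real.dist_eq, Real.dist_eq, Real.coe_toNNReal C hC0]
      exact hL x y
    exact this.continuous
  set Fl : ℕ → ℝ → ℝ := fun l t =>
    ∑ s ∈ range (l + 1), (l.choose s : ℝ) / 2 ^ l * f (t + ((l : ℝ) - 2 * s) ^ 2 / (2 * l)) with hFl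
  set F : ℝ → ℝ := fun t => ∫ u, f (t + u ^ 2 / 2) ∂(gaussianReal 0 1) with hF
  have hpt : ∀ t, Filter.Tendsto (fun l => Fl l t) Filter.atTop (nhds (F t)) := by
    intro t
    have h1 := clt_binomial (fun u => f (t + u ^ 2 / 2)) (by fun_prop) C (fun x => hC _)
    refine h1.congr (fun l => ?_)
    refine Finset.sum_congr rfl (fun s _ => ?_)
    have : (((l : ℝ) - 2 * s) / √l) ^ 2 / 2 = ((l : ℝ) - 2 * s) ^ 2 / (2 * l) := by
      rw [div_pow, Real.sq_sqrt (Nat.cast_nonneg l), div_div, mul_comm (l : ℝ) 2]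
    rw [this]
  have hl1 : ∀ l t y, |Fl l t - Fl l y| ≤ C * |t - y| := by
    intro l t y
    rw [hFl]
    simp only
    rw [← Finset.sum_sub_distrib]
    calc |∑ s ∈ range (l + 1), ((l.choose s : ℝ) / 2 ^ l * f (t + ((l : ℝ) - 2 * s) ^ 2 / (2 * l)) -
          (l.choose s : ℝ) / 2 ^ l * f (y + ((l : ℝ) - 2 * s) ^ 2 / (2 * l)))|
        ≤ ∑ s ∈ range (l + 1), |((l.choose s : ℝ) / 2 ^ l * f (t + ((l : ℝ) - 2 * s) ^ 2 / (2 * l)) -
          (l.choose s : ℝ) / 2 ^ l * f (y + ((l : ℝ) - 2 * s) ^ 2 / (2 * l)))| :=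
          Finset.abs_sum_le_sum_abs _ _
      _ ≤ ∑ s ∈ range (l + 1), (l.choose s : ℝ) / 2 ^ l * (C * |t - y|) := by
          refine Finset.sum_le_sum (fun s _ => ?_)
          rw [← mul_sub, abs_mul, abs_of_nonneg (by positivity : (0 : ℝ) ≤ (l.choose s : ℝ) / 2 ^ l)]
          refine mul_le_mul_of_nonneg_left ?_ (by positivity)
          refine (hL _ _).trans (le_of_eq ?_)
          congr 2
          ring
      _ = C * |t - y| := by rw [← Finset.sum_mul, WLB_sum_one, one_mul]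
  have hint : ∀ t, Integrable (fun u : ℝ => f (t + u ^ 2 / 2)) (gaussianReal 0 1) := by
    intro t
    refine Integrable.of_bound (C := C) ?_ ?_
    · exact (by fun_prop : Continuous fun u : ℝ => f (t + u ^ 2 / 2)).aestronglyMeasurable
    · exact Filter.Eventually.of_forall (fun u => hC _)
  have hl2 : ∀ t y, |F t - F y| ≤ C * |t - y| := by
    intro t y
    rw [hF]
    simp only
    rw [← integral_sub (hint t) (hint y)]
    have := norm_integral_le_of_norm_le_const (μ := gaussianReal 0 1)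
      (f := fun u : ℝ => f (t + u ^ 2 / 2) - f (y + u ^ 2 / 2)) (C := C * |t - y|)
      (Filter.Eventually.of_forall (fun u => by
        rw [Real.norm_eq_abs]
        refine (hL _ _).trans (le_of_eq ?_)
        congr 2
        ring))
    simpa using this
  set δ : ℝ := ε / (3 * (C + 1)) with hδ
  have hδ0 : 0 < δ := by positivity
  have hCδ : C * δ ≤ ε / 3 := by
    rw [hδ, mul_div_assoc', div_le_div_iff₀ (by positivity) (by norm_num)]
    nlinarith
  obtain ⟨N, hN, hcov⟩ := Metric.totallyBounded_iff.1 (isCompact_Icc (a := -T) (b := T)).totallyBounded δ hδ0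
  have hev : ∀ᶠ l in Filter.atTop, ∀ y ∈ N, |Fl l y - F y| ≤ ε / 3 := by
    rw [Filter.eventually_all_finite hN]
    intro y _
    have := (hpt y).eventually (Metric.closedBall_mem_nhds (F y) (by positivity : 0 < ε / 3))
    filter_upwards [this] with l hl
    rwa [Real.dist_eq] at hl
  obtain ⟨l0, hl0⟩ := Filter.eventually_atTop.1 hev
  refine ⟨l0, fun l hl t ht => ?_⟩
  have ht' : t ∈ Set.Icc (-T) T := abs_le.1 ht
  obtain ⟨y, hyN, hy⟩ := Set.mem_iUnion₂.1 (hcov ht')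
  rw [Metric.mem_ball, Real.dist_eq] at hy
  have e1 := hl1 l t y
  have e2 := hl0 l hl y hyN
  have e3 := hl2 t y
  have e4 : C * |t - y| ≤ ε / 3 := (mul_le_mul_of_nonneg_left hy.le hC0).trans hCδ
  change |Fl l t - F t| ≤ ε
  rw [abs_le] at *
  constructor <;> linarith [e1.1, e1.2, e2.1, e2.2, e3.1, e3.2]

end Pool.Agent.H.MP_82502e_co
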