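import Pool.Agent.H.MP_82502e_co.WNeg2

set_option autoImplicit false

/-!
# The window: zones: lemmas
-/

namespace Pool.Agent.H.MP_82502e_co

open Finset Real

/-- `y3 n l s k = (k - 3n²/16) + i n/4 + i²/4 + (l-2s)²/4`, `i = n/2 - l`. -/
theorem y3_eq (n l s k : ℕ) :
    y3 n l s k = ((k : ℝ) - 3 / 16 * (n : ℝ) ^ 2) + ((n : ℝ) / 2 - l) * n / 4 +
      ((n : ℝ) / 2 - l) ^ 2 / 4 + ((l : ℝ) - 2 * s) ^ 2 / 4 := by
  unfold y3
  ring

/-- Difference of a term: for `s(l-s) ≤ k` and `k - s(l-s) ≤ l(n-l)`: `q3 n l s (k+1) - q3 n l s k = q3 n l s k * ((N+1)/(x+1) - 2)`, `x = k - s(l-s)`, `N = l(n-l)`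
(`choose_succ_sub`). -/
theorem q3_succ_sub {n l s k : ℕ} (h1 : s * (l - s) ≤ k) (h2 : k - s * (l - s) ≤ l * (n - l)) :
    (q3 n l s (k + 1) : ℝ) - q3 n l s k =
      q3 n l s k * ((((l * (n - l) : ℕ) : ℝ) + 1) / (((k - s * (l - s) : ℕ) : ℝ) + 1) - 2) := by
  have h3 := choose_succ_sub h2
  have e1 : k + 1 - s * (l - s) = k - s * (l - s) + 1 := by omega
  have h4 : s * (l - s) ≤ k + 1 := by omega
  unfold q3 chz
  rw [if_pos h1, if_pos h4, e1]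
  push_cast
  push_cast at h3
  linear_combination ((n.choose l : ℝ) * (l.choose s : ℝ)) * h3

theorem WZa_q3 {n l s : ℕ} (hl : l < n) (hs : s < l) (k : ℕ) :
    tmx (s, n - l, l - s, 0) k = q3 n l s k := by
  unfold tmx tm q3 nfr nfu
  have e1 : s + (l - s) = l := by omega
  have e2 : s + (n - l) + (l - s) + 0 = n := by omega
  simp only [mul_zero, add_zero]
  have e3 : s + (n - l) + (l - s) = n := by omega
  rw [e3, e1, Nat.choose_zero_right, mul_one]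
  congr 2
  have : s * (n - l) + (n - l) * (l - s) = (s + (l - s)) * (n - l) := by ring
  rw [this, e1]

theorem WZa_mem {n l s : ℕ} (hl : l < n) (hs : s < l) : (s, n - l, l - s, 0) ∈ CanQ n := by
  unfold CanQ
  simp only [mem_filter, mem_product, mem_range]
  refine ⟨⟨?_, ?_, ?_, ?_⟩, ?_, ?_, ?_, ?_⟩ <;> omega

theorem WZa_far1 {η : ℝ} (hη : 0 < η) : ∃ δ : ℝ, 0 < δ ∧ ∃ c : ℝ, 0 < c ∧ ∃ n0 : ℕ, ∀ n ≥ n0,
    ∀ k : ℕ, Win δ n k →
    (∑ l ∈ (range n).filter (fun l : ℕ => η * n < |(l : ℝ) - (n : ℝ) / 2|),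
      (F3l n l k : ℝ)) ≤ exp (-(c * (n : ℝ) ^ 2)) * F3 n k := by
  classical
  obtain ⟨δ, hδ, c, hc, n0, h⟩ := neg_terms hη
  refine ⟨δ, hδ, c, hc, n0, fun n hn k hk => le_trans ?_ (h n hn k hk)⟩
  set A := (range n).filter (fun l : ℕ => η * n < |(l : ℝ) - (n : ℝ) / 2|) with hA
  have e1 : (∑ l ∈ A, (F3l n l k : ℝ)) = ∑ p ∈ A.sigma (fun l => range l),
      (tmx (p.2, n - p.1, p.1 - p.2, 0) k : ℝ) := by
    rw [Finset.sum_sigma]
    refine Finset.sum_congr rfl fun l hl => ?_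
    unfold F3l
    push_cast
    refine Finset.sum_congr rfl fun s hs => ?_
    rw [WZa_q3 (mem_range.1 (mem_filter.1 hl).1) (mem_range.1 hs)]
  rw [e1]
  have hinj : ∀ p ∈ A.sigma (fun l => range l), ∀ p' ∈ A.sigma (fun l => range l),
      ((p.2, n - p.1, p.1 - p.2, 0) : ℕ × ℕ × ℕ × ℕ) = (p'.2, n - p'.1, p'.1 - p'.2, 0) →
      p = p' := by
    rintro ⟨l, s⟩ hp ⟨l', s'⟩ hp' he
    simp only [Prod.mk.injEq] at he
    have h1 := mem_range.1 (mem_filter.1 (mem_sigma.1 hp).1).1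
    have h2 := mem_range.1 (mem_filter.1 (mem_sigma.1 hp').1).1
    simp only at h1 h2
    obtain ⟨a1, a2, -, -⟩ := he
    have : l = l' := by omega
    subst this
    subst a1
    rfl
  have e2 := Finset.sum_image (f := fun x => (tmx x k : ℝ)) (s := A.sigma (fun l => range l))
    (g := fun p => ((p.2, n - p.1, p.1 - p.2, 0) : ℕ × ℕ × ℕ × ℕ)) hinj
  rw [← e2]
  refine Finset.sum_le_sum_of_subset_of_nonneg ?_ fun _ _ _ => Nat.cast_nonneg _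
  intro x hx
  obtain ⟨⟨l, s⟩, hp, rfl⟩ := mem_image.1 hx
  have h1 := mem_filter.1 (mem_sigma.1 hp).1
  have h2 := mem_range.1 (mem_sigma.1 hp).2
  have h3 := mem_range.1 h1.1
  simp only at h1 h2 h3
  refine mem_filter.2 ⟨WZa_mem h3 h2, Or.inl ?_⟩
  have e3 : s + (l - s) = l := by omega
  simp only [e3]
  exact h1.2

theorem WZa_win {δ : ℝ} (hδ : 0 < δ) : ∃ n0 : ℕ, ∀ n ≥ n0, ∀ k : ℕ, Win (δ / 2) n k →
    Win δ n (k + 1) := by
  obtain ⟨m, hm⟩ := exists_nat_gt (2 / δ)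
  refine ⟨m + 1, fun n hn k hk => ?_⟩
  have h1 : (m : ℝ) + 1 ≤ n := by exact_mod_cast hn
  have hm0 : (0 : ℝ) ≤ m := Nat.cast_nonneg m
  have h2 : 2 ≤ δ * m := by
    rw [div_lt_iff₀ hδ] at hm
    linarith
  have h3 : (m : ℝ) ≤ (n : ℝ) ^ 2 := by nlinarith
  have h4 : δ * m ≤ δ * (n : ℝ) ^ 2 := mul_le_mul_of_nonneg_left h3 hδ.le
  obtain ⟨a, b⟩ := hk
  constructor
  · push_cast
    nlinarith
  · push_cast
    nlinarith

theorem WZa_near {n l s k : ℕ} (hl : |(l : ℝ) - (n : ℝ) / 2| ≤ 1 / 1000 * n) (hln : l < n)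
    (hs : s < l) (hk : (1 / 8 - 1 / 1000) * (n : ℝ) ^ 2 ≤ k) :
    (q3 n l s (k + 1) : ℝ) ≤ 5 * q3 n l s k := by
  have hn0 : (0 : ℝ) ≤ n := Nat.cast_nonneg n
  have hl0 : (0 : ℝ) ≤ l := Nat.cast_nonneg l
  obtain ⟨hl1, hl2⟩ := abs_le.1 hl
  have hsl : ((s * (l - s) : ℕ) : ℝ) = (s : ℝ) * ((l : ℝ) - s) := by
    rw [Nat.cast_mul, Nat.cast_sub hs.le]
  have h1 : (s : ℝ) * ((l : ℝ) - s) ≤ (l : ℝ) ^ 2 / 4 := by nlinarith [sq_nonneg ((l : ℝ) - 2 * s)]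
  have h2 : (l : ℝ) ^ 2 ≤ (501 / 1000 * n) ^ 2 := pow_le_pow_left₀ hl0 (by linarith) 2
  have h3 : (s : ℝ) * ((l : ℝ) - s) ≤ 63 / 1000 * (n : ℝ) ^ 2 := by nlinarith
  have h4 : s * (l - s) ≤ k := by
    have : ((s * (l - s) : ℕ) : ℝ) ≤ k := by
      rw [hsl]
      nlinarith
    exact_mod_cast this
  have hN : ((l * (n - l) : ℕ) : ℝ) ≤ (n : ℝ) ^ 2 / 4 := by
    rw [Nat.cast_mul, Nat.cast_sub hln.le]
    nlinarith [sq_nonneg ((n : ℝ) - 2 * l)]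
  have hx : (6 / 100 : ℝ) * (n : ℝ) ^ 2 ≤ ((k - s * (l - s) : ℕ) : ℝ) := by
    rw [Nat.cast_sub h4, hsl]
    nlinarith
  have e := Nat.choose_succ_right_eq (l * (n - l)) (k - s * (l - s))
  have e1 : k + 1 - s * (l - s) = k - s * (l - s) + 1 := by omega
  have h5 : s * (l - s) ≤ k + 1 := by omega
  have h6 : ((l * (n - l)).choose (k - s * (l - s) + 1) : ℝ) ≤
      5 * ((l * (n - l)).choose (k - s * (l - s)) : ℝ) := by
    have e2 : ((l * (n - l)).choose (k - s * (l - s) + 1) : ℝ) *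
        (((k - s * (l - s) : ℕ) : ℝ) + 1) =
        ((l * (n - l)).choose (k - s * (l - s)) : ℝ) *
          ((l * (n - l) - (k - s * (l - s)) : ℕ) : ℝ) := by exact_mod_cast e
    have h7 : ((l * (n - l) - (k - s * (l - s)) : ℕ) : ℝ) ≤ ((l * (n - l) : ℕ) : ℝ) := by
      exact_mod_cast Nat.sub_le _ _
    have hxp : (0 : ℝ) < ((k - s * (l - s) : ℕ) : ℝ) + 1 := by positivity
    have h8 : ((l * (n - l) - (k - s * (l - s)) : ℕ) : ℝ) ≤
        5 * (((k - s * (l - s) : ℕ) : ℝ) + 1) := by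
      nlinarith [sq_nonneg (n : ℝ)]
    have h9 : (0 : ℝ) ≤ ((l * (n - l)).choose (k - s * (l - s)) : ℝ) := Nat.cast_nonneg _
    have h10 := mul_le_mul_of_nonneg_left h8 h9
    rw [← e2] at h10
    have h11 : ((l * (n - l)).choose (k - s * (l - s) + 1) : ℝ) *
        (((k - s * (l - s) : ℕ) : ℝ) + 1) ≤
        (5 * ((l * (n - l)).choose (k - s * (l - s)) : ℝ)) *
        (((k - s * (l - s) : ℕ) : ℝ) + 1) := by linarith
    exact le_of_mul_le_mul_right h11 hxp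
  unfold q3 chz
  rw [if_pos h4, if_pos h5, e1]
  push_cast
  have h12 : (0 : ℝ) ≤ (n.choose l : ℝ) * (l.choose s : ℝ) := by positivity
  have h13 := mul_le_mul_of_nonneg_left h6 h12
  linarith

theorem WZa_succ_le : ∃ δ : ℝ, 0 < δ ∧ ∃ n0 : ℕ, ∀ n ≥ n0, ∀ k : ℕ, Win δ n k →
    (F3 n (k + 1) : ℝ) ≤ 20 * F3 n k := by
  obtain ⟨δ, hδ, c, hc, n0, h⟩ := WZa_far1 (η := 1 / 1000) (by norm_num)
  obtain ⟨n1, h1⟩ := WZa_win hδ
  obtain ⟨m, hm⟩ := exists_nat_gt (1 / c)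
  refine ⟨min (δ / 2) (1 / 1000), by positivity, max (max n0 n1) (m + 1), fun n hn k hk => ?_⟩
  have hn0 : n0 ≤ n := le_trans (le_trans (le_max_left _ _) (le_max_left _ _)) hn
  have hn1 : n1 ≤ n := le_trans (le_trans (le_max_right _ _) (le_max_left _ _)) hn
  have hn2 : m + 1 ≤ n := le_trans (le_max_right _ _) hn
  have hnn : (0 : ℝ) ≤ (n : ℝ) ^ 2 := sq_nonneg _
  have hkw : Win (δ / 2) n k := by
    obtain ⟨a, b⟩ := hk
    have h2 := mul_le_mul_of_nonneg_right (min_le_left (δ / 2) (1 / 1000 : ℝ)) hnn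
    constructor
    · nlinarith
    · nlinarith
  have hk8 : (1 / 8 - 1 / 1000) * (n : ℝ) ^ 2 ≤ k := by
    have h2 := mul_le_mul_of_nonneg_right (min_le_right (δ / 2) (1 / 1000 : ℝ)) hnn
    have := hk.1
    nlinarith
  have hfar := h n hn0 (k + 1) (h1 n hn1 k hkw)
  have hexp : exp (-(c * (n : ℝ) ^ 2)) ≤ 1 / 2 := by
    have h3 : (m : ℝ) + 1 ≤ n := by exact_mod_cast hn2
    have hm0 : (0 : ℝ) ≤ m := Nat.cast_nonneg m
    have h4 : (m : ℝ) ≤ (n : ℝ) ^ 2 := by nlinarith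
    have h5 : 1 ≤ c * (n : ℝ) ^ 2 := by
      rw [div_lt_iff₀ hc] at hm
      nlinarith
    have h6 := add_one_le_exp (c * (n : ℝ) ^ 2)
    rw [exp_neg, ← one_div]
    apply one_div_le_one_div_of_le (by norm_num)
    linarith
  have hF0 : (0 : ℝ) ≤ F3 n (k + 1) := Nat.cast_nonneg _
  have hfar2 := hfar.trans (mul_le_mul_of_nonneg_right hexp hF0)
  have hsplit : (F3 n (k + 1) : ℝ) =
      (∑ l ∈ (range n).filter (fun l : ℕ => 1 / 1000 * (n : ℝ) < |(l : ℝ) - (n : ℝ) / 2|),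
        (F3l n l (k + 1) : ℝ)) +
      ∑ l ∈ (range n).filter (fun l : ℕ => ¬ 1 / 1000 * (n : ℝ) < |(l : ℝ) - (n : ℝ) / 2|),
        (F3l n l (k + 1) : ℝ) := by
    rw [Finset.sum_filter_add_sum_filter_not]
    unfold F3
    push_cast
    rfl
  have hnear : ∑ l ∈ (range n).filter
      (fun l : ℕ => ¬ 1 / 1000 * (n : ℝ) < |(l : ℝ) - (n : ℝ) / 2|),
        (F3l n l (k + 1) : ℝ) ≤ 5 * F3 n k := by
    have h2 : (F3 n k : ℝ) = ∑ l ∈ range n, (F3l n l k : ℝ) := by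
      unfold F3
      push_cast
      rfl
    rw [h2, Finset.mul_sum]
    refine le_trans (Finset.sum_le_sum (g := fun l => 5 * (F3l n l k : ℝ)) ?_)
      (Finset.sum_le_sum_of_subset_of_nonneg (Finset.filter_subset _ _) fun _ _ _ => by positivity)
    intro l hl
    obtain ⟨hl1, hl2⟩ := mem_filter.1 hl
    unfold F3l
    push_cast
    rw [Finset.mul_sum]
    exact Finset.sum_le_sum fun s hs =>
      WZa_near (not_lt.1 hl2) (mem_range.1 hl1) (mem_range.1 hs) hk8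
  have hF1 : (0 : ℝ) ≤ F3 n k := Nat.cast_nonneg _
  linarith

/-- The unbalanced `l` are negligible (from `neg_terms`; `F3l n l k` for `|l - n/2| > η n`). Also for `k + 1`. -/
theorem F3l_far {η : ℝ} (hη : 0 < η) : ∃ δ : ℝ, 0 < δ ∧ ∃ c : ℝ, 0 < c ∧ ∃ n0 : ℕ, ∀ n ≥ n0,
    ∀ k : ℕ, Win δ n k →
    (∑ l ∈ (range n).filter (fun l : ℕ => η * n < |(l : ℝ) - (n : ℝ) / 2|),
      ((F3l n l k : ℝ) + F3l n l (k + 1))) ≤ exp (-(c * (n : ℝ) ^ 2)) * F3 n k := by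
  obtain ⟨δ, hδ, c, hc, n0, h⟩ := WZa_far1 hη
  obtain ⟨n1, h1⟩ := WZa_win hδ
  obtain ⟨δ', hδ', n2, h2⟩ := WZa_succ_le
  obtain ⟨m, hm⟩ := exists_nat_gt (42 / c)
  refine ⟨min (δ / 2) δ', by positivity, c / 2, by positivity,
    max (max n0 n1) (max n2 (m + 1)), fun n hn k hk => ?_⟩
  have hn0 : n0 ≤ n := le_trans (le_trans (le_max_left _ _) (le_max_left _ _)) hn
  have hn1 : n1 ≤ n := le_trans (le_trans (le_max_right _ _) (le_max_left _ _)) hn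
  have hn2 : n2 ≤ n := le_trans (le_trans (le_max_left _ _) (le_max_right _ _)) hn
  have hn3 : m + 1 ≤ n := le_trans (le_trans (le_max_right _ _) (le_max_right _ _)) hn
  have hnn : (0 : ℝ) ≤ (n : ℝ) ^ 2 := sq_nonneg _
  have mono : ∀ d d' : ℝ, d ≤ d' → Win d n k → Win d' n k := by
    intro d d' hd hw
    obtain ⟨a, b⟩ := hw
    have h2 := mul_le_mul_of_nonneg_right hd hnn
    constructor
    · nlinarith
    · nlinarith
  have hk1 : Win (δ / 2) n k := mono _ _ (min_le_left _ _) hk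
  have hk2 : Win δ' n k := mono _ _ (min_le_right _ _) hk
  have hk3 : Win δ n k := mono _ _ (by linarith) hk1
  have a1 := h n hn0 k hk3
  have a2 := h n hn0 (k + 1) (h1 n hn1 k hk1)
  have a3 := h2 n hn2 k hk2
  rw [Finset.sum_add_distrib]
  have hE := exp_pos (-(c * (n : ℝ) ^ 2))
  have a4 := mul_le_mul_of_nonneg_left a3 hE.le
  have h5 : 21 * exp (-(c * (n : ℝ) ^ 2)) ≤ exp (-(c / 2 * (n : ℝ) ^ 2)) := by
    have h3 : (m : ℝ) + 1 ≤ n := by exact_mod_cast hn3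
    have hm0 : (0 : ℝ) ≤ m := Nat.cast_nonneg m
    have h4 : (m : ℝ) ≤ (n : ℝ) ^ 2 := by nlinarith
    have h5 : 21 ≤ c / 2 * (n : ℝ) ^ 2 := by
      rw [div_lt_iff₀ hc] at hm
      nlinarith
    have h6 := add_one_le_exp (c / 2 * (n : ℝ) ^ 2)
    have e : exp (-(c / 2 * (n : ℝ) ^ 2)) =
        exp (c / 2 * (n : ℝ) ^ 2) * exp (-(c * (n : ℝ) ^ 2)) := by
      rw [← exp_add]
      congr 1
      ring
    rw [e]
    exact mul_le_mul_of_nonneg_right (by linarith) hE.le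
  have hF1 : (0 : ℝ) ≤ F3 n k := Nat.cast_nonneg _
  have a5 := mul_le_mul_of_nonneg_right h5 hF1
  linarith

/-- `F3 n (k+1) ≤ 20 F3 n k`-type bound in the window, needed to transfer `F4 n (k+1) ≤ exp(-cn) F3 n (k+1)`: all `q3` with `|l - n/2| ≤ n/1000` have
`(N+1)/(x+1) - 2 ≤ 10` (`x ≥ 0.05 n²`). -/
theorem F3_succ_le : ∃ δ : ℝ, 0 < δ ∧ ∃ n0 : ℕ, ∀ n ≥ n0, ∀ k : ℕ, Win δ n k →
    (F3 n (k + 1) : ℝ) ≤ 20 * F3 n k := WZa_succ_le

end Pool.Agent.H.MP_82502e_co
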