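import Pool.Agent.H.MP_82502e_co.WL1
import Pool.Agent.H.MP_82502e_co.WL2
import Pool.Agent.H.MP_82502e_co.WLB
import Pool.Agent.H.MP_82502e_co.WZa

set_option autoImplicit false

/-!
# The window: peak: limit for one l
-/

namespace Pool.Agent.H.MP_82502e_co

open Finset Real MeasureTheory ProbabilityTheory

/-- The difference of order `r` of one `q3`: for `s(l-s) ≤ k` it is `choose n l * choose l s * dch r N (k - s(l-s))`. -/
theorem dF_q3 {n l s k r : ℕ} (h : s * (l - s) ≤ k) :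
    dF (fun k => q3 n l s k) r k =
      (n.choose l : ℝ) * l.choose s * dch r (l * (n - l)) (k - s * (l - s)) := by
  have h0 : (q3 n l s k : ℝ) = (n.choose l : ℝ) * l.choose s *
      ((l * (n - l)).choose (k - s * (l - s)) : ℝ) := by
    unfold q3 chz
    rw [if_pos h]
    push_cast
    ring
  have h1 : (q3 n l s (k + 1) : ℝ) = (n.choose l : ℝ) * l.choose s *
      ((l * (n - l)).choose (k - s * (l - s) + 1) : ℝ) := by
    unfold q3 chz
    rw [if_pos (by omega), Nat.sub_add_comm h]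
    push_cast
    ring
  have h2 : (q3 n l s (k + 2) : ℝ) = (n.choose l : ℝ) * l.choose s *
      ((l * (n - l)).choose (k - s * (l - s) + 2) : ℝ) := by
    unfold q3 chz
    rw [if_pos (by omega), Nat.sub_add_comm h]
    push_cast
    ring
  unfold dF dch
  rw [h0, h1, h2]
  split_ifs <;> ring

/-- Linearity of the differences. -/
theorem WL3_dF_sum {ι : Type} (s : Finset ι) (F : ι → ℕ → ℕ) (r k : ℕ) :
    dF (fun k => ∑ x ∈ s, F x k) r k = ∑ x ∈ s, dF (F x) r k := by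
  unfold dF
  split_ifs
  · push_cast
    rfl
  · push_cast
    rw [Finset.sum_sub_distrib]
  · push_cast
    rw [Finset.sum_add_distrib, Finset.sum_sub_distrib, Finset.mul_sum]

/-- `choose (2m+e) (m+a) / choose (2m+e) m → 1`. -/
theorem WL3_choose_ratio (e a : ℕ) :
    Filter.Tendsto (fun m : ℕ => ((2 * m + e).choose (m + a) : ℝ) / (2 * m + e).choose m)
      Filter.atTop (nhds 1) := by
  induction a with
  | zero =>
    refine tendsto_const_nhds.congr (fun m => ?_)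
    have : ((2 * m + e).choose m : ℝ) ≠ 0 := by
      have : 0 < (2 * m + e).choose m := Nat.choose_pos (by omega)
      exact_mod_cast this.ne'
    rw [Nat.add_zero, div_self this]
  | succ a ih =>
    have h1 : Filter.Tendsto (fun m : ℕ => ((m : ℝ) + (e - a)) / ((m : ℝ) + (a + 1)))
        Filter.atTop (nhds 1) := by
      have h2 : Filter.Tendsto (fun m : ℕ => 1 + ((e : ℝ) - a - (a + 1)) / ((m : ℝ) + (a + 1)))
          Filter.atTop (nhds (1 + 0)) := by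
        refine tendsto_const_nhds.add ?_
        refine Filter.Tendsto.div_atTop tendsto_const_nhds ?_
        exact Filter.tendsto_atTop_add_const_right _ _ tendsto_natCast_atTop_atTop
      rw [add_zero] at h2
      refine h2.congr (fun m => ?_)
      have : ((m : ℝ) + (a + 1)) ≠ 0 := by positivity
      field_simp
      ring
    have h3 := ih.mul h1
    rw [one_mul] at h3
    refine h3.congr' ?_
    filter_upwards [Filter.eventually_ge_atTop a] with m hm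
    have e1 := Nat.choose_succ_right_eq (2 * m + e) (m + a)
    have e2 : ((2 * m + e).choose (m + a + 1) : ℝ) * ((m : ℝ) + a + 1) =
        ((2 * m + e).choose (m + a) : ℝ) * ((m : ℝ) + e - a) := by
      have h4 : (((2 * m + e - (m + a) : ℕ) : ℕ) : ℝ) = (m : ℝ) + e - a := by
        rw [Nat.cast_sub (by omega)]
        push_cast
        ring
      rw [← h4]
      exact_mod_cast e1
    have h5 : ((2 * m + e).choose m : ℝ) ≠ 0 := by
      have : 0 < (2 * m + e).choose m := Nat.choose_pos (by omega)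
      exact_mod_cast this.ne'
    have h6 : ((m : ℝ) + (a + 1)) ≠ 0 := by positivity
    rw [← Nat.add_assoc]
    field_simp
    linarith

/-- the value of `l` -/
def WL3_l (j : ℤ) (m : ℕ) : ℕ := ((m : ℤ) - j).toNat

theorem WL3_l_eq {j : ℤ} {m l : ℕ} (hl : (l : ℤ) = m - j) : WL3_l j m = l := by
  unfold WL3_l
  omega

theorem WL3_l_cast {j : ℤ} {m : ℕ} (hm : j.natAbs ≤ m) : (WL3_l j m : ℤ) = m - j := by
  unfold WL3_l
  omega

theorem WL3_l_real {j : ℤ} {m : ℕ} (hm : j.natAbs ≤ m) : (WL3_l j m : ℝ) = (m : ℝ) - j := by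
  exact_mod_cast WL3_l_cast hm

theorem WL3_l_le {e : ℕ} {j : ℤ} {m : ℕ} (hm : j.natAbs ≤ m) : WL3_l j m ≤ 2 * m + e := by
  unfold WL3_l
  omega

theorem WL3_nl_cast {e : ℕ} {j : ℤ} {m : ℕ} (hm : j.natAbs ≤ m) :
    ((2 * m + e - WL3_l j m : ℕ) : ℤ) = m + e + j := by
  have h1 := WL3_l_cast hm
  have h2 := WL3_l_le (e := e) hm
  omega

/-- the number of free pairs -/
def WL3_N (e : ℕ) (j : ℤ) (m : ℕ) : ℕ := WL3_l j m * (2 * m + e - WL3_l j m)

theorem WL3_N_cast {e : ℕ} {j : ℤ} {m : ℕ} (hm : j.natAbs ≤ m) :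
    (WL3_N e j m : ℤ) = m * (m + e) - j * (j + e) := by
  unfold WL3_N
  rw [Nat.cast_mul, WL3_nl_cast hm, WL3_l_cast hm]
  ring

theorem WL3_J {e : ℕ} (he : e ≤ 1) (j : ℤ) : 0 ≤ j * (j + e) := by
  have he' : (e : ℤ) ≤ 1 := by exact_mod_cast he
  have he0 : (0 : ℤ) ≤ e := Int.natCast_nonneg e
  rcases le_or_gt 0 j with h | h
  · exact mul_nonneg h (by omega)
  · exact mul_nonneg_of_nonpos_of_nonpos h.le (by omega)

theorem WL3_N_nat {e : ℕ} (he : e ≤ 1) {j : ℤ} {m : ℕ} (hm : j.natAbs ≤ m) :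
    WL3_N e j m = m * (m + e) - (j * (j + e)).toNat := by
  have h1 := WL3_N_cast (e := e) hm
  have h2 := WL3_J he j
  have h3 : ((m * (m + e) : ℕ) : ℤ) = m * (m + e) := by push_cast; ring
  omega

theorem WL3_N_real {e : ℕ} {j : ℤ} {m : ℕ} (hm : j.natAbs ≤ m) :
    (WL3_N e j m : ℝ) = (((2 * m + e : ℕ) : ℝ)) ^ 2 / 4 - ((j : ℝ) + e / 2) ^ 2 := by
  have h1 : (WL3_N e j m : ℝ) = (m : ℝ) * (m + e) - j * (j + e) := by
    exact_mod_cast WL3_N_cast (e := e) hm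
  rw [h1]
  push_cast
  ring

theorem WL3_N_top (e : ℕ) (j : ℤ) :
    Filter.Tendsto (fun m : ℕ => WL3_N e j m) Filter.atTop Filter.atTop := by
  refine Filter.tendsto_atTop_mono' (f₁ := fun m : ℕ => m - j.natAbs) _ ?_
    (Filter.tendsto_sub_atTop_nat _)
  filter_upwards [Filter.eventually_ge_atTop (j.natAbs + 1)] with m hm
  have hm' : j.natAbs ≤ m := by omega
  have h1 := WL3_l_cast hm'
  have h2 := WL3_nl_cast (e := e) hm'
  unfold WL3_N
  have h3 : m - j.natAbs ≤ WL3_l j m := by omega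
  have h4 : 1 ≤ 2 * m + e - WL3_l j m := by omega
  calc m - j.natAbs ≤ WL3_l j m := h3
    _ = WL3_l j m * 1 := (mul_one _).symm
    _ ≤ _ := Nat.mul_le_mul_left _ h4

/-- the scaling factor tends to `1` -/
theorem WL3_c (e : ℕ) (j : ℤ) : Filter.Tendsto
    (fun m : ℕ => ((2 * m + e : ℕ) : ℝ) / (2 * √(WL3_N e j m : ℝ))) Filter.atTop (nhds 1) := by
  have h1 : Filter.Tendsto (fun m : ℕ => √(1 + ((j : ℝ) + e / 2) ^ 2 / (WL3_N e j m : ℝ)))
      Filter.atTop (nhds √(1 + 0)) := by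
    refine (Real.continuous_sqrt.tendsto _).comp (tendsto_const_nhds.add ?_)
    exact Filter.Tendsto.div_atTop tendsto_const_nhds
      (tendsto_natCast_atTop_atTop.comp (WL3_N_top e j))
  rw [add_zero, Real.sqrt_one] at h1
  refine h1.congr' ?_
  filter_upwards [Filter.eventually_ge_atTop j.natAbs,
    (WL3_N_top e j).eventually (Filter.eventually_ge_atTop 1)] with m hm hN
  have hN' : (0 : ℝ) < WL3_N e j m := by exact_mod_cast hN
  have h2 := WL3_N_real (e := e) hm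
  have h3 : 1 + ((j : ℝ) + e / 2) ^ 2 / (WL3_N e j m : ℝ) =
      (((2 * m + e : ℕ) : ℝ) / (2 * √(WL3_N e j m : ℝ))) ^ 2 := by
    rw [div_pow, mul_pow, Real.sq_sqrt hN'.le]
    field_simp
    linarith
  rw [h3, Real.sqrt_sq (by positivity)]

theorem WL3_cb {e : ℕ} (he : e ≤ 1) (j : ℤ) : Filter.Tendsto
    (fun m : ℕ => (cb (WL3_N e j m) : ℝ) / cb (m * (m + e))) Filter.atTop
    (nhds ((2 : ℝ) ^ (-(((j : ℝ) + e / 2) ^ 2 - e / 4)))) := by
  have h0 : Filter.Tendsto (fun m : ℕ => m * (m + e)) Filter.atTop Filter.atTop := by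
    refine Filter.tendsto_atTop_mono' (f₁ := fun m : ℕ => m) _ ?_ Filter.tendsto_id
    filter_upwards [Filter.eventually_ge_atTop 1] with m hm
    nlinarith
  have h1 := (cb_ratio (j * (j + e)).toNat).comp h0
  have hJ := WL3_J he j
  have h2 : (((j * (j + e)).toNat : ℕ) : ℝ) = ((j : ℝ) + e / 2) ^ 2 - e / 4 := by
    have h3 : (((j * (j + e)).toNat : ℕ) : ℤ) = j * (j + e) := Int.toNat_of_nonneg hJ
    have h4 : (((j * (j + e)).toNat : ℕ) : ℝ) = (j : ℝ) * (j + e) := by exact_mod_cast h3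
    rw [h4]
    have h5 : (e : ℝ) ^ 2 = e := by
      interval_cases e <;> norm_num
    linear_combination (-1 / 4) * h5
  rw [h2] at h1
  refine h1.congr' ?_
  filter_upwards [Filter.eventually_ge_atTop j.natAbs] with m hm
  rw [WL3_N_nat he hm]
  rfl

/-- the prefactor tends to the weight -/
theorem WL3_P {e : ℕ} (he : e ≤ 1) (j : ℤ) : Filter.Tendsto
    (fun m : ℕ => ((2 * m + e).choose (WL3_l j m) : ℝ) * 2 ^ (WL3_l j m) * cb (WL3_N e j m) /
      Zn (2 * m + e)) Filter.atTop (nhds (wt e j)) := by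
  have hch : Filter.Tendsto (fun m : ℕ => ((2 * m + e).choose (WL3_l j m) : ℝ) /
      (2 * m + e).choose m) Filter.atTop (nhds 1) := by
    rcases le_or_gt j 0 with h | h
    · refine (WL3_choose_ratio e j.natAbs).congr' ?_
      filter_upwards [Filter.eventually_ge_atTop j.natAbs] with m hm
      have h1 := WL3_l_cast hm
      have h2 : WL3_l j m = m + j.natAbs := by omega
      rw [h2]
    · refine (WL3_choose_ratio e (e + j.natAbs)).congr' ?_
      filter_upwards [Filter.eventually_ge_atTop j.natAbs] with m hm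
      have h1 := WL3_l_cast hm
      have h2 : WL3_l j m = 2 * m + e - (m + (e + j.natAbs)) := by omega
      rw [h2, Nat.choose_symm (by omega)]
  have h3 := (hch.mul (WL3_cb he j)).mul_const
    ((2 : ℝ) ^ (-((j : ℝ) + e / 2)) * (2 : ℝ) ^ (-((e : ℝ) / 4)))
  have h4 : (1 : ℝ) * (2 : ℝ) ^ (-(((j : ℝ) + e / 2) ^ 2 - e / 4)) *
      ((2 : ℝ) ^ (-((j : ℝ) + e / 2)) * (2 : ℝ) ^ (-((e : ℝ) / 4))) = wt e j := by
    unfold wt
    rw [one_mul, ← Real.rpow_add (by norm_num), ← Real.rpow_add (by norm_num)]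
    congr 1
    ring
  rw [h4] at h3
  refine h3.congr' ?_
  filter_upwards [Filter.eventually_ge_atTop j.natAbs] with m hm
  unfold Zn
  have e1 : (2 * m + e) / 2 = m := by omega
  have e2 : (2 * m + e) % 2 = e := by omega
  have e3 : 2 * m + e - m = m + e := by omega
  rw [e1, e2, e3]
  have hl := WL3_l_real hm
  have e4 : (2 : ℝ) ^ (WL3_l j m) = (2 : ℝ) ^ ((((2 * m + e : ℕ) : ℝ)) / 2) *
      (2 : ℝ) ^ (-((j : ℝ) + e / 2)) := by
    rw [← Real.rpow_natCast, ← Real.rpow_add (by norm_num), hl]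
    congr 1
    push_cast
    ring
  rw [e4]
  have c1 : ((2 * m + e).choose m : ℝ) ≠ 0 := by
    have : 0 < (2 * m + e).choose m := Nat.choose_pos (by omega)
    exact_mod_cast this.ne'
  have c2 : (cb (m * (m + e)) : ℝ) ≠ 0 := by
    have : 0 < cb (m * (m + e)) := Nat.choose_pos (Nat.div_le_self _ _)
    exact_mod_cast this.ne'
  have c3 : (2 : ℝ) ^ ((((2 * m + e : ℕ) : ℝ)) / 2) ≠ 0 := by positivity
  have c4 : (2 : ℝ) ^ ((e : ℝ) / 4) ≠ 0 := by positivity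
  rw [Real.rpow_neg (by norm_num) ((e : ℝ) / 4)]
  field_simp

theorem WL3_l_top (j : ℤ) :
    Filter.Tendsto (fun m : ℕ => WL3_l j m) Filter.atTop Filter.atTop := by
  refine Filter.tendsto_atTop_mono' (f₁ := fun m : ℕ => m - j.natAbs) _ ?_
    (Filter.tendsto_sub_atTop_nat _)
  filter_upwards [Filter.eventually_ge_atTop (j.natAbs + 1)] with m hm
  have h1 := WL3_l_cast (j := j) (m := m) (by omega)
  omega

theorem WL3_n_top (e : ℕ) :
    Filter.Tendsto (fun m : ℕ => ((2 * m + e : ℕ) : ℝ)) Filter.atTop Filter.atTop := by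
  refine tendsto_natCast_atTop_atTop.comp ?_
  refine Filter.tendsto_atTop_mono (f := fun m : ℕ => m) (fun m => ?_) Filter.tendsto_id
  omega

/-- the argument of the kernel -/
theorem WL3_arg {e : ℕ} {j : ℤ} {m k s : ℕ} (hm : j.natAbs ≤ m) (hn : 0 < 2 * m + e)
    (hs : s ≤ WL3_l j m) (hk : s * (WL3_l j m - s) ≤ k) :
    2 * (((k - s * (WL3_l j m - s) : ℕ) : ℝ) - (WL3_N e j m : ℝ) / 2) / √(WL3_N e j m : ℝ) =
      (((2 * m + e : ℕ) : ℝ) / (2 * √(WL3_N e j m : ℝ))) *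
      (tt (2 * m + e) k + ((j : ℝ) + e / 2) + ((j : ℝ) + e / 2) ^ 2 / ((2 * m + e : ℕ) : ℝ) +
        ((WL3_l j m : ℝ) - 2 * s) ^ 2 / ((2 * m + e : ℕ) : ℝ)) := by
  have hy := y3_eq (2 * m + e) (WL3_l j m) s k
  unfold y3 at hy
  have h1 : ((k - s * (WL3_l j m - s) : ℕ) : ℝ) = (k : ℝ) - s * ((WL3_l j m : ℝ) - s) := by
    rw [Nat.cast_sub hk, Nat.cast_mul, Nat.cast_sub hs]
  have h2 : (WL3_N e j m : ℝ) = (WL3_l j m : ℝ) * (((2 * m + e : ℕ) : ℝ) - WL3_l j m) := by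
    unfold WL3_N
    rw [Nat.cast_mul, Nat.cast_sub (WL3_l_le hm)]
  have h3 : (((2 * m + e : ℕ) : ℝ)) / 2 - (WL3_l j m : ℝ) = (j : ℝ) + e / 2 := by
    rw [WL3_l_real hm]
    push_cast
    ring
  have hn' : (0 : ℝ) < ((2 * m + e : ℕ) : ℝ) := by exact_mod_cast hn
  have h4 : (k : ℝ) - 3 / 16 * (((2 * m + e : ℕ) : ℝ)) ^ 2 =
      tt (2 * m + e) k * (((2 * m + e : ℕ) : ℝ) / 4) := by
    unfold tt
    field_simp
  rw [h3, h4] at hy
  have h5 : 2 * (((k - s * (WL3_l j m - s) : ℕ) : ℝ) - (WL3_N e j m : ℝ) / 2) =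
      ((2 * m + e : ℕ) : ℝ) / 2 *
      (tt (2 * m + e) k + ((j : ℝ) + e / 2) + ((j : ℝ) + e / 2) ^ 2 / ((2 * m + e : ℕ) : ℝ) +
        ((WL3_l j m : ℝ) - 2 * s) ^ 2 / ((2 * m + e : ℕ) : ℝ)) := by
    rw [h1, h2]
    have h6 : (k : ℝ) - s * ((WL3_l j m : ℝ) - s) -
        (WL3_l j m : ℝ) * (((2 * m + e : ℕ) : ℝ) - WL3_l j m) / 2 =
        tt (2 * m + e) k * (((2 * m + e : ℕ) : ℝ) / 4) +
        ((j : ℝ) + e / 2) * ((2 * m + e : ℕ) : ℝ) / 4 + ((j : ℝ) + e / 2) ^ 2 / 4 +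
        ((WL3_l j m : ℝ) - 2 * s) ^ 2 / 4 := hy
    rw [h6]
    field_simp
    ring
  rw [h5, div_mul_eq_mul_div, div_mul_eq_mul_div, div_div]

/-- all arguments are admissible -/
theorem WL3_adm {e : ℕ} {j : ℤ} {m k s : ℕ} {T : ℝ} (hm : j.natAbs ≤ m)
    (hn : 4 * (|(j : ℝ) + e / 2| + |T|) + 1 ≤ ((2 * m + e : ℕ) : ℝ))
    (ht : |tt (2 * m + e) k| ≤ T) (hs : s ≤ WL3_l j m) : s * (WL3_l j m - s) ≤ k := by
  obtain ⟨n, hnn⟩ : ∃ n : ℝ, n = ((2 * m + e : ℕ) : ℝ) := ⟨_, rfl⟩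
  obtain ⟨i, hi⟩ : ∃ i : ℝ, i = (j : ℝ) + e / 2 := ⟨_, rfl⟩
  have hT0 : |T| = T := abs_of_nonneg ((abs_nonneg _).trans ht)
  have hl : (WL3_l j m : ℝ) = n / 2 - i := by
    rw [WL3_l_real hm, hnn, hi]
    push_cast
    ring
  rw [← hnn, ← hi, hT0] at hn
  have hi0 := abs_nonneg i
  have hT1 : 0 ≤ T := (abs_nonneg _).trans ht
  have hn0 : 0 < n := by linarith
  have h4 : (k : ℝ) - 3 / 16 * n ^ 2 = tt (2 * m + e) k * (n / 4) := by
    rw [hnn] at hn0 ⊢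
    unfold tt
    field_simp
  have h5 := (abs_le.1 ht).1
  have h6 : 3 / 16 * n ^ 2 - T * (n / 4) ≤ k := by nlinarith
  have h7 : (n / 2 - i) ^ 2 ≤ (n / 2 + |i|) ^ 2 := by
    apply sq_le_sq'
    · have := neg_abs_le i
      have := le_abs_self i
      linarith
    · have := neg_abs_le i
      linarith
  have h8 : ((s * (WL3_l j m - s) : ℕ) : ℝ) ≤ k := by
    rw [Nat.cast_mul, Nat.cast_sub hs, hl]
    nlinarith [sq_nonneg ((n / 2 - i) - 2 * s), mul_nonneg hn0.le hi0, mul_nonneg hn0.le hT1,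
      mul_nonneg hi0 hT1]
  exact_mod_cast h8

/-- the sum over `s` -/
theorem WL3_S (e : ℕ) (j : ℤ) (r : ℕ) (hr : r ≤ 2) {T ε : ℝ} (hε : 0 < ε) :
    ∀ᶠ m : ℕ in Filter.atTop, ∀ k : ℕ, |tt (2 * m + e) k| ≤ T →
    (∀ s ≤ WL3_l j m, s * (WL3_l j m - s) ≤ k) ∧
    |(∑ s ∈ range (WL3_l j m), ((WL3_l j m).choose s : ℝ) / 2 ^ (WL3_l j m) *
      ((√(WL3_N e j m : ℝ) / 2) ^ r * dch r (WL3_N e j m) (k - s * (WL3_l j m - s)) /
        cb (WL3_N e j m))) -
      ∫ u, fk r (tt (2 * m + e) k + ((j : ℝ) + e / 2) + u ^ 2 / 2) ∂(gaussianReal 0 1)| ≤ ε := by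
  obtain ⟨C, hC0, hfk⟩ := fk_lip
  obtain ⟨hC1, hL⟩ := hfk r hr
  have hε6 : 0 < ε / 6 := by positivity
  obtain ⟨N0, hN0⟩ := local_limit hε6 r hr
  obtain ⟨δ, hδ, hsc⟩ := fk_scale hε6
  obtain ⟨i, hi⟩ : ∃ i : ℝ, i = (j : ℝ) + e / 2 := ⟨_, rfl⟩
  obtain ⟨l0, hl0⟩ := clt_uniform (fk r) hC1 hL (T := |T| + |i|) hε6
  have ev1 : ∀ᶠ m : ℕ in Filter.atTop, C * (i ^ 2 / ((2 * m + e : ℕ) : ℝ)) +
      C * (|i| / ((2 * m + e : ℕ) : ℝ)) < ε / 6 := by
    have h1 : Filter.Tendsto (fun m : ℕ => C * (i ^ 2 / ((2 * m + e : ℕ) : ℝ)) +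
      C * (|i| / ((2 * m + e : ℕ) : ℝ))) Filter.atTop (nhds (C * 0 + C * 0)) := by
      refine Filter.Tendsto.add ?_ ?_
      · exact (Filter.Tendsto.div_atTop tendsto_const_nhds (WL3_n_top e)).const_mul C
      · exact (Filter.Tendsto.div_atTop tendsto_const_nhds (WL3_n_top e)).const_mul C
    rw [mul_zero, add_zero] at h1
    exact h1.eventually (gt_mem_nhds hε6)
  have ev2 : ∀ᶠ m : ℕ in Filter.atTop, C * (1 / 2) ^ (WL3_l j m) < ε / 6 := by
    have h1 : Filter.Tendsto (fun m : ℕ => C * (1 / 2 : ℝ) ^ (WL3_l j m)) Filter.atTop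
        (nhds (C * 0)) :=
      ((tendsto_pow_atTop_nhds_zero_of_lt_one (by norm_num) (by norm_num)).comp
        (WL3_l_top j)).const_mul C
    rw [mul_zero] at h1
    exact h1.eventually (gt_mem_nhds hε6)
  have ev3 : ∀ᶠ m : ℕ in Filter.atTop,
      |((2 * m + e : ℕ) : ℝ) / (2 * √(WL3_N e j m : ℝ)) - 1| ≤ δ := by
    have h1 := (WL3_c e j).eventually (Metric.closedBall_mem_nhds 1 hδ)
    filter_upwards [h1] with m hm
    rwa [Real.dist_eq] at hm
  filter_upwards [ev1, ev2, ev3, Filter.eventually_ge_atTop (j.natAbs + 1),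
    (WL3_N_top e j).eventually (Filter.eventually_ge_atTop N0),
    (WL3_l_top j).eventually (Filter.eventually_ge_atTop (l0 + 1)),
    (WL3_n_top e).eventually (Filter.eventually_ge_atTop (4 * (|(j : ℝ) + e / 2| + |T|) + 1))]
    with m m1 m2 m3 m4 m5 m6 m7 k ht
  have hm : j.natAbs ≤ m := by omega
  refine ⟨fun s hs => WL3_adm hm m7 ht hs, ?_⟩
  obtain ⟨l, hl⟩ : ∃ l, l = WL3_l j m := ⟨_, rfl⟩
  obtain ⟨n, hn⟩ : ∃ n, n = 2 * m + e := ⟨_, rfl⟩
  obtain ⟨t, htt⟩ : ∃ t, t = tt (2 * m + e) k := ⟨_, rfl⟩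
  obtain ⟨c, hc⟩ : ∃ c, c = ((2 * m + e : ℕ) : ℝ) / (2 * √(WL3_N e j m : ℝ)) := ⟨_, rfl⟩
  have hadm : ∀ s ≤ l, s * (l - s) ≤ k := fun s hs => by
    rw [hl] at hs ⊢
    exact WL3_adm hm m7 ht hs
  have hl0' : (0 : ℝ) < l := by
    rw [hl]
    exact_mod_cast (by omega : 0 < WL3_l j m)
  have hn0 : 0 < n := by omega
  have hn0' : (0 : ℝ) < n := by exact_mod_cast hn0
  have hli : (n : ℝ) / 2 - l = i := by
    rw [hl, WL3_l_real hm, hn, hi]
    push_cast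
    ring
  rw [← hl, ← htt, ← hi]
  rw [← htt] at ht
  have hp0 : ∀ s, 0 ≤ (l.choose s : ℝ) / 2 ^ l := fun s => by positivity
  have hpsum := WLB_sum_one l
  have hple : ∑ s ∈ range l, (l.choose s : ℝ) / 2 ^ l ≤ 1 := by
    rw [← hpsum, Finset.sum_range_succ]
    linarith [hp0 l]
  have hvar : ∑ s ∈ range l, (l.choose s : ℝ) / 2 ^ l * ((l : ℝ) - 2 * s) ^ 2 ≤ (l : ℝ) := by
    have := binomial_var l
    rw [Finset.sum_range_succ] at this
    have h2 : 0 ≤ (l.choose l : ℝ) / 2 ^ l * ((l : ℝ) - 2 * l) ^ 2 := by positivity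
    linarith
  -- each term
  have hterm : ∀ s ∈ range l,
      |(√(WL3_N e j m : ℝ) / 2) ^ r * dch r (WL3_N e j m) (k - s * (l - s)) / cb (WL3_N e j m) -
        fk r (t + i + ((l : ℝ) - 2 * s) ^ 2 / (2 * l))| ≤
      ε / 6 + ε / 6 + (C * (i ^ 2 / n) + C * |1 / (n : ℝ) - 1 / (2 * l)| *
        ((l : ℝ) - 2 * s) ^ 2) := by
    intro s hs
    have hs' : s ≤ l := (Finset.mem_range.1 hs).le
    have a1 := hN0 (WL3_N e j m) m5 (k - s * (l - s))
    have harg := WL3_arg (e := e) (k := k) (s := s) hm (by omega) (by rw [← hl]; exact hs')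
      (by rw [← hl]; exact hadm s hs')
    rw [← hl, ← htt, ← hi, ← hc, ← hn] at harg
    rw [harg] at a1
    rw [← hc] at m3
    have a2 := hsc c m3 r hr (t + i + i ^ 2 / n + ((l : ℝ) - 2 * s) ^ 2 / n)
    have a3 := hL (t + i + i ^ 2 / n + ((l : ℝ) - 2 * s) ^ 2 / n)
      (t + i + ((l : ℝ) - 2 * s) ^ 2 / (2 * l))
    have a4 : |t + i + i ^ 2 / n + ((l : ℝ) - 2 * s) ^ 2 / n -
        (t + i + ((l : ℝ) - 2 * s) ^ 2 / (2 * l))| ≤
        i ^ 2 / n + |1 / (n : ℝ) - 1 / (2 * l)| * ((l : ℝ) - 2 * s) ^ 2 := by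
      have e1 : t + i + i ^ 2 / n + ((l : ℝ) - 2 * s) ^ 2 / n -
        (t + i + ((l : ℝ) - 2 * s) ^ 2 / (2 * l)) =
        i ^ 2 / n + (1 / (n : ℝ) - 1 / (2 * l)) * ((l : ℝ) - 2 * s) ^ 2 := by ring
      rw [e1]
      refine (abs_add_le _ _).trans ?_
      rw [abs_mul, abs_of_nonneg (by positivity : (0 : ℝ) ≤ i ^ 2 / n),
        abs_of_nonneg (sq_nonneg ((l : ℝ) - 2 * s))]
    have a5 := mul_le_mul_of_nonneg_left a4 hC0.le
    have a6 : C * (i ^ 2 / n + |1 / (n : ℝ) - 1 / (2 * l)| * ((l : ℝ) - 2 * s) ^ 2) =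
        C * (i ^ 2 / n) + C * |1 / (n : ℝ) - 1 / (2 * l)| * ((l : ℝ) - 2 * s) ^ 2 := by ring
    rw [a6] at a5
    have a7 := a3.trans a5
    calc _ ≤ |(√(WL3_N e j m : ℝ) / 2) ^ r * dch r (WL3_N e j m) (k - s * (l - s)) /
              cb (WL3_N e j m) -
            fk r (c * (t + i + i ^ 2 / n + ((l : ℝ) - 2 * s) ^ 2 / n))| +
          |fk r (c * (t + i + i ^ 2 / n + ((l : ℝ) - 2 * s) ^ 2 / n)) -
            fk r (t + i + i ^ 2 / n + ((l : ℝ) - 2 * s) ^ 2 / n)| +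
          |fk r (t + i + i ^ 2 / n + ((l : ℝ) - 2 * s) ^ 2 / n) -
            fk r (t + i + ((l : ℝ) - 2 * s) ^ 2 / (2 * l))| := by
            refine (abs_sub_le _ (fk r (t + i + i ^ 2 / n + ((l : ℝ) - 2 * s) ^ 2 / n)) _).trans ?_
            refine add_le_add ?_ le_rfl
            exact abs_sub_le _ _ _
      _ ≤ _ := add_le_add (add_le_add a1 a2) a7
  have hsum1 : |(∑ s ∈ range l, (l.choose s : ℝ) / 2 ^ l *
      ((√(WL3_N e j m : ℝ) / 2) ^ r * dch r (WL3_N e j m) (k - s * (l - s)) /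
        cb (WL3_N e j m))) - ∑ s ∈ range l, (l.choose s : ℝ) / 2 ^ l *
        fk r (t + i + ((l : ℝ) - 2 * s) ^ 2 / (2 * l))| ≤ ε / 6 + ε / 6 + ε / 6 := by
    rw [← Finset.sum_sub_distrib]
    calc _ ≤ ∑ s ∈ range l, |(l.choose s : ℝ) / 2 ^ l *
          ((√(WL3_N e j m : ℝ) / 2) ^ r * dch r (WL3_N e j m) (k - s * (l - s)) /
            cb (WL3_N e j m)) - (l.choose s : ℝ) / 2 ^ l *
          fk r (t + i + ((l : ℝ) - 2 * s) ^ 2 / (2 * l))| := Finset.abs_sum_le_sum_abs _ _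
      _ ≤ ∑ s ∈ range l, (l.choose s : ℝ) / 2 ^ l * (ε / 6 + ε / 6 + (C * (i ^ 2 / n) +
          C * |1 / (n : ℝ) - 1 / (2 * l)| * ((l : ℝ) - 2 * s) ^ 2)) := by
          refine Finset.sum_le_sum fun s hs => ?_
          rw [← mul_sub, abs_mul, abs_of_nonneg (hp0 s)]
          exact mul_le_mul_of_nonneg_left (hterm s hs) (hp0 s)
      _ = (ε / 6 + ε / 6 + C * (i ^ 2 / n)) * (∑ s ∈ range l, (l.choose s : ℝ) / 2 ^ l) +
          C * |1 / (n : ℝ) - 1 / (2 * l)| *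
            (∑ s ∈ range l, (l.choose s : ℝ) / 2 ^ l * ((l : ℝ) - 2 * s) ^ 2) := by
          rw [Finset.mul_sum, Finset.mul_sum, ← Finset.sum_add_distrib]
          refine Finset.sum_congr rfl fun s _ => ?_
          ring
      _ ≤ (ε / 6 + ε / 6 + C * (i ^ 2 / n)) * 1 + C * |1 / (n : ℝ) - 1 / (2 * l)| * l := by
          refine add_le_add (mul_le_mul_of_nonneg_left hple (by positivity))
            (mul_le_mul_of_nonneg_left hvar (by positivity))
      _ = ε / 6 + ε / 6 + (C * (i ^ 2 / n) + C * (|i| / n)) := by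
          have h1 : |1 / (n : ℝ) - 1 / (2 * l)| * l = |i| / n := by
            have h2 : (1 / (n : ℝ) - 1 / (2 * l)) * l = -(i / n) := by
              rw [← hli]
              field_simp
              ring
            have h3 : |1 / (n : ℝ) - 1 / (2 * l)| * l = |(1 / (n : ℝ) - 1 / (2 * l)) * l| := by
              rw [abs_mul, abs_of_pos hl0']
            rw [h3, h2, abs_neg, abs_div, abs_of_pos hn0']
          rw [mul_assoc C, h1]
          ring
      _ ≤ _ := by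
          rw [← hn] at m1
          linarith
  have hsum2 : |(∑ s ∈ range l, (l.choose s : ℝ) / 2 ^ l *
        fk r (t + i + ((l : ℝ) - 2 * s) ^ 2 / (2 * l))) - ∑ s ∈ range (l + 1),
        (l.choose s : ℝ) / 2 ^ l * fk r (t + i + ((l : ℝ) - 2 * s) ^ 2 / (2 * l))| ≤ ε / 6 := by
    rw [Finset.sum_range_succ, sub_add_cancel_left, abs_neg, abs_mul, abs_of_nonneg (hp0 l),
      Nat.choose_self]
    rw [← hl] at m2
    have h1 := hC1 (t + i + ((l : ℝ) - 2 * l) ^ 2 / (2 * l))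
    have h2 : ((1 : ℕ) : ℝ) / 2 ^ l = (1 / 2) ^ l := by
      rw [Nat.cast_one, div_pow, one_pow]
    rw [h2]
    calc (1 / 2 : ℝ) ^ l * |fk r (t + i + ((l : ℝ) - 2 * l) ^ 2 / (2 * l))| ≤ (1 / 2) ^ l * C :=
          mul_le_mul_of_nonneg_left h1 (by positivity)
      _ ≤ ε / 6 := by linarith
  have hsum3 := hl0 l (by rw [hl]; omega) (t + i) (by
    refine (abs_add_le _ _).trans (add_le_add (ht.trans (le_abs_self T)) le_rfl))
  have := abs_sub_le (∑ s ∈ range l, (l.choose s : ℝ) / 2 ^ l *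
      ((√(WL3_N e j m : ℝ) / 2) ^ r * dch r (WL3_N e j m) (k - s * (l - s)) /
        cb (WL3_N e j m))) (∑ s ∈ range l, (l.choose s : ℝ) / 2 ^ l *
        fk r (t + i + ((l : ℝ) - 2 * s) ^ 2 / (2 * l)))
        (∫ u, fk r (t + i + u ^ 2 / 2) ∂(gaussianReal 0 1))
  have h' := abs_sub_le (∑ s ∈ range l, (l.choose s : ℝ) / 2 ^ l *
        fk r (t + i + ((l : ℝ) - 2 * s) ^ 2 / (2 * l))) (∑ s ∈ range (l + 1),
        (l.choose s : ℝ) / 2 ^ l * fk r (t + i + ((l : ℝ) - 2 * s) ^ 2 / (2 * l)))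
        (∫ u, fk r (t + i + u ^ 2 / 2) ∂(gaussianReal 0 1))
  refine this.trans ?_
  linarith

/-- the left side as a product -/
theorem WL3_split {e m r k : ℕ} {j : ℤ} (hN : 0 < WL3_N e j m)
    (hadm : ∀ s ≤ WL3_l j m, s * (WL3_l j m - s) ≤ k) :
    (((2 * m + e : ℕ) : ℝ) / 4) ^ r * dF (F3l (2 * m + e) (WL3_l j m)) r k / Zn (2 * m + e) =
    (((2 * m + e).choose (WL3_l j m) : ℝ) * 2 ^ (WL3_l j m) * cb (WL3_N e j m) /
      Zn (2 * m + e)) * (((2 * m + e : ℕ) : ℝ) / (2 * √(WL3_N e j m : ℝ))) ^ r *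
    (∑ s ∈ range (WL3_l j m), ((WL3_l j m).choose s : ℝ) / 2 ^ (WL3_l j m) *
      ((√(WL3_N e j m : ℝ) / 2) ^ r * dch r (WL3_N e j m) (k - s * (WL3_l j m - s)) /
        cb (WL3_N e j m))) := by
  have h1 : dF (F3l (2 * m + e) (WL3_l j m)) r k = ∑ s ∈ range (WL3_l j m),
      ((2 * m + e).choose (WL3_l j m) : ℝ) * (WL3_l j m).choose s *
        dch r (WL3_N e j m) (k - s * (WL3_l j m - s)) := by
    have h2 := WL3_dF_sum (range (WL3_l j m)) (fun s k => q3 (2 * m + e) (WL3_l j m) s k) r k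
    have h3 : (fun k => ∑ s ∈ range (WL3_l j m), q3 (2 * m + e) (WL3_l j m) s k) =
        F3l (2 * m + e) (WL3_l j m) := rfl
    rw [h3] at h2
    rw [h2]
    refine Finset.sum_congr rfl fun s hs => ?_
    exact dF_q3 (hadm s (Finset.mem_range.1 hs).le)
  have hsq : √(WL3_N e j m : ℝ) ≠ 0 := by
    have : (0 : ℝ) < WL3_N e j m := by exact_mod_cast hN
    exact (Real.sqrt_pos.2 this).ne'
  have hcb : (cb (WL3_N e j m) : ℝ) ≠ 0 := by
    have : 0 < cb (WL3_N e j m) := Nat.choose_pos (Nat.div_le_self _ _)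
    exact_mod_cast this.ne'
  have h4 : (((2 * m + e : ℕ) : ℝ) / 4) ^ r =
      (((2 * m + e : ℕ) : ℝ) / (2 * √(WL3_N e j m : ℝ))) ^ r * (√(WL3_N e j m : ℝ) / 2) ^ r := by
    rw [← mul_pow]
    congr 1
    field_simp
    norm_num
  rw [h1, h4, Finset.mul_sum, Finset.sum_div, Finset.mul_sum]
  refine Finset.sum_congr rfl fun s _ => ?_
  have h5 : (2 : ℝ) ^ (WL3_l j m) ≠ 0 := by positivity
  rcases eq_or_ne (Zn (2 * m + e)) 0 with hz | hz
  · rw [hz]
    simp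
  · obtain ⟨x, hx⟩ : ∃ x, x = (((2 * m + e : ℕ) : ℝ) / (2 * √(WL3_N e j m : ℝ))) ^ r := ⟨_, rfl⟩
    obtain ⟨y, hy⟩ : ∃ y, y = (√(WL3_N e j m : ℝ) / 2) ^ r := ⟨_, rfl⟩
    rw [← hx, ← hy]
    field_simp

/-- **Limit for one `l`.** Fixed `j : ℤ`, `e`, `r ≤ 2`, `T`, `ε`: for large `n ≡ e (mod 2)`, `l = n/2 - j` (i.e. `2 l = n - 2 j - e`), all `k` with `|tt n k| ≤ T`:
`|(n/4)^r dF (F3l n l) r k / Zn n - wt e j ∫ fk r (t + i + u²/2)| ≤ ε`.
Proof. `i = j + e/2`, `N = l(n-l) = n²/4 - i²`. `dF (F3l n l) r k = choose n l Σ_{s<l} choose l s dch r N (k - s(l-s))` (`dF_q3`; the missing `s = l` is negligible), `choose n l/choose n (n/2) → 1`, `2^l = 2^(n/2) 2^(-i)`,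
`cb N / cb(n/2 * (n - n/2)) → 2^(-i²+e/4)` (`cb_ratio`), `local_limit` with `2y/√N`, `y = y3 n l s k = (n/4)(t + i + i²/n + (l-2s)²/n)` (`y3_eq`), `fk_scale` (`n/(2√N) → 1`), `fk_lip` to replace `(l-2s)²/n + i²/n` by `(l-2s)²/(2l)`:
the difference is `|1/n - 1/(2l)| (l-2s)² + i²/n`, whose mean tends to `0` (`binomial_var`), and `clt_uniform`. -/
theorem lim_one (e : ℕ) (he : e ≤ 1) (j : ℤ) (r : ℕ) (hr : r ≤ 2) {T ε : ℝ} (hε : 0 < ε) :
    ∃ n0 : ℕ, ∀ n ≥ n0, n % 2 = e → ∀ l : ℕ, (2 * l : ℤ) = n - 2 * j - e → ∀ k : ℕ, |tt n k| ≤ T →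
    |((n : ℝ) / 4) ^ r * dF (F3l n l) r k / Zn n -
      wt e j * ∫ u, fk r (tt n k + ((j : ℝ) + e / 2) + u ^ 2 / 2) ∂(gaussianReal 0 1)| ≤ ε := by
  obtain ⟨C, hC0, hfk⟩ := fk_lip
  obtain ⟨hC1, -⟩ := hfk r hr
  have hwt : 0 ≤ wt e j := by
    unfold wt
    positivity
  have hW : 0 < wt e j + 1 := by linarith
  have hS := WL3_S e j r hr (T := T) (ε := ε / (2 * (wt e j + 1))) (by positivity)
  have hη : 0 < min 1 (ε / (2 * (C + 1))) := lt_min one_pos (by positivity)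
  have hP := ((WL3_P he j).mul ((WL3_c e j).pow r))
  rw [one_pow, mul_one] at hP
  have hP' := hP.eventually (Metric.closedBall_mem_nhds _ hη)
  obtain ⟨M0, hM0⟩ := Filter.eventually_atTop.1
    ((hS.and hP').and ((WL3_N_top e j).eventually (Filter.eventually_ge_atTop 1)))
  refine ⟨2 * M0 + 2, ?_⟩
  intro n hn hpar l hl k ht
  obtain ⟨m, hm⟩ : ∃ m, m = n / 2 := ⟨_, rfl⟩
  have hn' : n = 2 * m + e := by omega
  subst hn'
  have hll : WL3_l j m = l := WL3_l_eq (by push_cast at hl; omega)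
  obtain ⟨⟨h1, h2⟩, h3⟩ := hM0 m (by omega)
  obtain ⟨hadm, h4⟩ := h1 k ht
  rw [Real.dist_eq] at h2
  rw [← hll, WL3_split (by omega) hadm]
  obtain ⟨P, hPdef⟩ : ∃ P, P = ((2 * m + e).choose (WL3_l j m) : ℝ) * 2 ^ (WL3_l j m) *
      cb (WL3_N e j m) / Zn (2 * m + e) *
      (((2 * m + e : ℕ) : ℝ) / (2 * √(WL3_N e j m : ℝ))) ^ r := ⟨_, rfl⟩
  obtain ⟨S, hSdef⟩ : ∃ S, S = ∑ s ∈ range (WL3_l j m),
      ((WL3_l j m).choose s : ℝ) / 2 ^ (WL3_l j m) *
      ((√(WL3_N e j m : ℝ) / 2) ^ r * dch r (WL3_N e j m) (k - s * (WL3_l j m - s)) /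
        cb (WL3_N e j m)) := ⟨_, rfl⟩
  obtain ⟨J, hJdef⟩ : ∃ J, J = ∫ u, fk r (tt (2 * m + e) k + ((j : ℝ) + e / 2) + u ^ 2 / 2)
      ∂(gaussianReal 0 1) := ⟨_, rfl⟩
  rw [← hPdef] at h2 ⊢
  rw [← hSdef, ← hJdef] at h4 ⊢
  have hJ : |J| ≤ C := by
    rw [hJdef]
    have := norm_integral_le_of_norm_le_const (μ := gaussianReal 0 1)
      (f := fun u : ℝ => fk r (tt (2 * m + e) k + ((j : ℝ) + e / 2) + u ^ 2 / 2)) (C := C)
      (Filter.Eventually.of_forall (fun u => by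
        rw [Real.norm_eq_abs]
        exact hC1 _))
    simpa using this
  have h5 : |P - wt e j| ≤ 1 := h2.trans (min_le_left _ _)
  have h6 : |P - wt e j| ≤ ε / (2 * (C + 1)) := h2.trans (min_le_right _ _)
  have h7 : |P| ≤ wt e j + 1 := by
    have := abs_le.1 h5
    rw [abs_le]
    constructor <;> linarith [this.1, this.2]
  have h8 : P * S - wt e j * J = P * (S - J) + (P - wt e j) * J := by ring
  rw [h8]
  calc |P * (S - J) + (P - wt e j) * J| ≤ |P| * |S - J| + |P - wt e j| * |J| := by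
        refine (abs_add_le _ _).trans ?_
        rw [abs_mul, abs_mul]
    _ ≤ (wt e j + 1) * (ε / (2 * (wt e j + 1))) + ε / (2 * (C + 1)) * (C + 1) := by
        refine add_le_add (mul_le_mul h7 h4 (abs_nonneg _) hW.le)
          (mul_le_mul h6 (by linarith) (abs_nonneg _) (by positivity))
    _ = ε := by
        have hC' : C + 1 ≠ 0 := by positivity
        field_simp
        norm_num

end Pool.Agent.H.MP_82502e_co
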