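import Pool.Agent.H.MP_82502e_co.WL1
import Pool.Agent.H.MP_82502e_co.WL2
import Pool.Agent.H.MP_82502e_co.WZa

set_option autoImplicit false

/-!
# The window: peak: domination
-/

namespace Pool.Agent.H.MP_82502e_co

open Finset Real MeasureTheory ProbabilityTheory

theorem WL4_dF {n l k : ℕ} (h : ∀ s < l, s * (l - s) ≤ k) {r : ℕ} (hr : r ≤ 2) :
    dF (F3l n l) r k = ∑ s ∈ range l,
      (n.choose l : ℝ) * l.choose s * dch r (l * (n - l)) (k - s * (l - s)) := by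
  have q : ∀ m : ℕ, (F3l n l (k + m) : ℝ) = ∑ s ∈ range l,
      (n.choose l : ℝ) * l.choose s * ((l * (n - l)).choose (k - s * (l - s) + m) : ℝ) := by
    intro m
    unfold F3l
    push_cast
    refine sum_congr rfl (fun s hs => ?_)
    have h1 := h s (mem_range.1 hs)
    unfold q3 chz
    rw [if_pos (by omega), show k + m - s * (l - s) = k - s * (l - s) + m by omega]
    push_cast
    ring
  have q0 := q 0
  have q1 := q 1
  have q2 := q 2
  simp only [add_zero] at q0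
  unfold dF dch
  interval_cases r
  · simp only [if_true]
    exact q0
  · simp only [one_ne_zero, if_false, if_true]
    rw [q0, q1, ← sum_sub_distrib]
    refine sum_congr rfl (fun s _ => by ring)
  · simp only [show (2 : ℕ) ≠ 0 by norm_num, show (2 : ℕ) ≠ 1 by norm_num, if_false]
    rw [q0, q1, q2, mul_sum, ← sum_sub_distrib, ← sum_add_distrib]
    refine sum_congr rfl (fun s _ => by ring)

theorem WL4_choose_sum (l : ℕ) : ∑ s ∈ range l, (l.choose s : ℝ) ≤ 2 ^ l := by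
  have h1 : ∑ s ∈ range l, l.choose s ≤ ∑ s ∈ range (l + 1), l.choose s :=
    sum_le_sum_of_subset (range_subset_range.2 (Nat.le_succ l))
  rw [Nat.sum_range_choose] at h1
  exact_mod_cast h1

theorem WL4_crude (n l k : ℕ) : (F3l n l k : ℝ) ≤ 2 ^ n * 2 ^ l * 2 ^ (l * (n - l)) := by
  unfold F3l
  push_cast
  have h1 : ∀ s ∈ range l, (q3 n l s k : ℝ) ≤ 2 ^ n * 2 ^ (l * (n - l)) * (l.choose s : ℝ) := by
    intro s _
    have h2 : chz (l * (n - l)) k (s * (l - s)) ≤ 2 ^ (l * (n - l)) := by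
      unfold chz
      split_ifs
      · exact Nat.choose_le_two_pow _ _
      · exact Nat.zero_le _
    have h3 : n.choose l ≤ 2 ^ n := Nat.choose_le_two_pow _ _
    have h4 : q3 n l s k ≤ 2 ^ n * 2 ^ (l * (n - l)) * l.choose s := by
      unfold q3
      calc n.choose l * l.choose s * chz (l * (n - l)) k (s * (l - s))
          ≤ 2 ^ n * l.choose s * 2 ^ (l * (n - l)) := by gcongr
        _ = _ := by ring
    exact_mod_cast h4
  refine (sum_le_sum h1).trans ?_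
  rw [← mul_sum]
  calc 2 ^ n * 2 ^ (l * (n - l)) * ∑ s ∈ range l, (l.choose s : ℝ)
      ≤ 2 ^ n * 2 ^ (l * (n - l)) * 2 ^ l :=
        mul_le_mul_of_nonneg_left (WL4_choose_sum l) (by positivity)
    _ = _ := by ring

theorem WL4_dF_abs {F : ℕ → ℕ} {B : ℝ} (h : ∀ k, (F k : ℝ) ≤ B) {r : ℕ} (hr : r ≤ 2) (k : ℕ) :
    |dF F r k| ≤ 4 * B := by
  have h0 := h k
  have h1 := h (k + 1)
  have h2 := h (k + 2)
  have g0 : (0 : ℝ) ≤ F k := Nat.cast_nonneg _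
  have g1 : (0 : ℝ) ≤ F (k + 1) := Nat.cast_nonneg _
  have g2 : (0 : ℝ) ≤ F (k + 2) := Nat.cast_nonneg _
  unfold dF
  interval_cases r
  · simp only [if_true]
    rw [abs_le]; constructor <;> linarith
  · simp only [one_ne_zero, if_false, if_true]
    rw [abs_le]; constructor <;> linarith
  · simp only [show (2 : ℕ) ≠ 0 by norm_num, show (2 : ℕ) ≠ 1 by norm_num, if_false]
    rw [abs_le]; constructor <;> linarith

/-- Natural number facts about the half product. -/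
theorem WL4_half (n l : ℕ) (hl : l ≤ n) : l * (n - l) ≤ n / 2 * (n - n / 2) ∧
    (((n / 2 * (n - n / 2) - l * (n - l) : ℕ) : ℝ) =
      ((n : ℝ) / 2 - l) ^ 2 - ((n % 2 : ℕ) : ℝ) / 4) ∧
    (((n / 2 * (n - n / 2) : ℕ) : ℝ) = (n : ℝ) ^ 2 / 4 - ((n % 2 : ℕ) : ℝ) / 4) := by
  obtain ⟨m, hm | hm⟩ := Nat.even_or_odd' n
  · have e1 : n / 2 = m := by omega
    have e2 : n % 2 = 0 := by omega
    have e3 : ((n / 2 * (n - n / 2) : ℕ) : ℝ) = (n : ℝ) ^ 2 / 4 := by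
      rw [e1, show n - m = m by omega, hm]
      push_cast; ring
    have e4 : ((l * (n - l) : ℕ) : ℝ) = l * ((n : ℝ) - l) := by
      rw [Nat.cast_mul, Nat.cast_sub hl]
    have e5 : l * (n - l) ≤ n / 2 * (n - n / 2) := by
      have : ((l * (n - l) : ℕ) : ℝ) ≤ ((n / 2 * (n - n / 2) : ℕ) : ℝ) := by
        rw [e3, e4]; nlinarith [sq_nonneg ((n : ℝ) / 2 - l)]
      exact_mod_cast this
    refine ⟨e5, ?_, ?_⟩
    · rw [Nat.cast_sub e5, e3, e4, e2]; push_cast; ring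
    · rw [e3, e2]; push_cast; ring
  · have e1 : n / 2 = m := by omega
    have e2 : n % 2 = 1 := by omega
    have e3 : ((n / 2 * (n - n / 2) : ℕ) : ℝ) = (n : ℝ) ^ 2 / 4 - 1 / 4 := by
      rw [e1, show n - m = m + 1 by omega, hm]
      push_cast; ring
    have e4 : ((l * (n - l) : ℕ) : ℝ) = l * ((n : ℝ) - l) := by
      rw [Nat.cast_mul, Nat.cast_sub hl]
    have e5 : l * (n - l) ≤ n / 2 * (n - n / 2) := by
      have h1 : ((l * (n - l) : ℕ) : ℝ) ≤ ((n / 2 * (n - n / 2) : ℕ) : ℝ) := by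
        rw [e3, e4]
        have h2 : (1 : ℝ) / 4 ≤ ((n : ℝ) / 2 - l) ^ 2 := by
          have h3 : (n : ℝ) / 2 - l = (m : ℝ) - l + 1 / 2 := by
            rw [hm]; push_cast; ring
          rw [h3]
          rcases le_or_gt l m with h4 | h4
          · have : (l : ℝ) ≤ m := by exact_mod_cast h4
            nlinarith
          · have : (m : ℝ) + 1 ≤ l := by exact_mod_cast h4
            nlinarith
        nlinarith
      exact_mod_cast h1
    refine ⟨e5, ?_, ?_⟩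
    · rw [Nat.cast_sub e5, e3, e4, e2]; push_cast; ring
    · rw [e3, e2]; push_cast; ring

/-- The case of balanced `l`. -/
theorem WL4_near {C0 : ℝ} (hC0 : 0 < C0)
    (hC : ∀ N : ℕ, 1 ≤ N → ∀ K : ℕ, ∀ r ≤ 2, |(√N / 2) ^ r * dch r N K| ≤ C0 * cb N)
    {n l k r : ℕ} (hn : 400 ≤ n) (hl : l < n) (hk : (n : ℝ) ^ 2 / 8 ≤ k) (hr : r ≤ 2)
    (hi : |(n : ℝ) / 2 - l| ≤ n / 5) :
    |((n : ℝ) / 4) ^ r * dF (F3l n l) r k| ≤
      12 * C0 * (2 : ℝ) ^ (-((n : ℝ) / 2 - l) ^ 2 / 2) * Zn n := by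
  have hn' : (400 : ℝ) ≤ n := by exact_mod_cast hn
  obtain ⟨hi1, hi2⟩ := abs_le.1 hi
  obtain ⟨w1, w2, w3⟩ := WL4_half n l hl.le
  set i : ℝ := (n : ℝ) / 2 - l with hidef
  set N : ℕ := l * (n - l) with hN
  set N0 : ℕ := n / 2 * (n - n / 2) with hN0
  have hNr : (N : ℝ) = (n : ℝ) ^ 2 / 4 - i ^ 2 := by
    rw [hN, Nat.cast_mul, Nat.cast_sub hl.le, hidef]; ring
  have he : ((n % 2 : ℕ) : ℝ) ≤ 1 := by
    have : n % 2 ≤ 1 := by omega
    exact_mod_cast this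
  have he0 : (0 : ℝ) ≤ ((n % 2 : ℕ) : ℝ) := Nat.cast_nonneg _
  have hisq : i ^ 2 ≤ (n : ℝ) ^ 2 / 25 := by nlinarith
  have hs : ∀ s < l, s * (l - s) ≤ k := by
    intro s hs
    have h1 : ((s * (l - s) : ℕ) : ℝ) ≤ k := by
      rw [Nat.cast_mul, Nat.cast_sub hs.le]
      have h2 : (l : ℝ) ≤ 7 / 10 * n := by linarith
      have h3 : (0 : ℝ) ≤ l := Nat.cast_nonneg l
      nlinarith [sq_nonneg ((l : ℝ) - 2 * s)]
    exact_mod_cast h1
  have hNpos : (0 : ℝ) < N := by rw [hNr]; nlinarith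
  have hN1 : 1 ≤ N := by
    have : (0 : ℕ) < N := by exact_mod_cast hNpos
    exact this
  have hsq : (n : ℝ) / 4 ≤ 11 / 10 * (√N / 2) := by
    have h1 : 5 / 11 * (n : ℝ) ≤ √N := by
      apply Real.le_sqrt_of_sq_le
      rw [hNr]; nlinarith
    linarith
  have hd : ∀ K : ℕ, |((n : ℝ) / 4) ^ r * dch r N K| ≤ 2 * (C0 * cb N) := by
    intro K
    have h1 := hC N hN1 K r hr
    rw [abs_mul, abs_of_nonneg (by positivity)] at h1 ⊢
    have h2 : ((n : ℝ) / 4) ^ r ≤ 2 * (√N / 2) ^ r := by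
      calc ((n : ℝ) / 4) ^ r ≤ (11 / 10 * (√N / 2)) ^ r :=
            pow_le_pow_left₀ (by positivity) hsq r
        _ = (11 / 10) ^ r * (√N / 2) ^ r := mul_pow _ _ _
        _ ≤ 2 * (√N / 2) ^ r := by
            refine mul_le_mul_of_nonneg_right ?_ (by positivity)
            interval_cases r <;> norm_num
    calc ((n : ℝ) / 4) ^ r * |dch r N K| ≤ 2 * (√N / 2) ^ r * |dch r N K| :=
          mul_le_mul_of_nonneg_right h2 (abs_nonneg _)
      _ = 2 * ((√N / 2) ^ r * |dch r N K|) := by ring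
      _ ≤ 2 * (C0 * cb N) := by linarith
  rw [WL4_dF hs hr, mul_sum]
  have h1 : |∑ s ∈ range l, ((n : ℝ) / 4) ^ r * ((n.choose l : ℝ) * l.choose s *
      dch r (l * (n - l)) (k - s * (l - s)))| ≤
      ∑ s ∈ range l, (n.choose l : ℝ) * (2 * (C0 * cb N)) * l.choose s := by
    refine (abs_sum_le_sum_abs _ _).trans (sum_le_sum fun s _ => ?_)
    have h2 := hd (k - s * (l - s))
    rw [show ((n : ℝ) / 4) ^ r * ((n.choose l : ℝ) * l.choose s *
      dch r (l * (n - l)) (k - s * (l - s))) = ((n.choose l : ℝ) * l.choose s) *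
      (((n : ℝ) / 4) ^ r * dch r N (k - s * (l - s))) by rw [hN]; ring, abs_mul,
      abs_of_nonneg (by positivity)]
    calc ((n.choose l : ℝ) * l.choose s) * |((n : ℝ) / 4) ^ r * dch r N (k - s * (l - s))|
        ≤ ((n.choose l : ℝ) * l.choose s) * (2 * (C0 * cb N)) :=
          mul_le_mul_of_nonneg_left h2 (by positivity)
      _ = _ := by ring
  refine h1.trans ?_
  rw [← mul_sum]
  have h2 : (n.choose l : ℝ) ≤ n.choose (n / 2) := by exact_mod_cast Nat.choose_le_middle l n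
  have h3 : (cb N : ℝ) ≤ 3 * (2 : ℝ) ^ (-((N0 - N : ℕ) : ℝ)) * cb N0 := by
    have h4 : 2 * (N0 - N) ≤ N0 := by
      have : 2 * ((N0 - N : ℕ) : ℝ) ≤ (N0 : ℝ) := by
        rw [w2, w3]; nlinarith
      exact_mod_cast this
    have h5 := cb_sub_le h4
    rwa [show N0 - (N0 - N) = N by omega] at h5
  rw [w2] at h3
  have h4 := WL4_choose_sum l
  have hcb : (0 : ℝ) ≤ cb N := Nat.cast_nonneg _
  have hcb0 : (0 : ℝ) ≤ cb N0 := Nat.cast_nonneg _
  calc (n.choose l : ℝ) * (2 * (C0 * cb N)) * ∑ s ∈ range l, (l.choose s : ℝ)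
      ≤ (n.choose (n / 2) : ℝ) * (2 * (C0 * (3 * (2 : ℝ) ^ (-(i ^ 2 - ((n % 2 : ℕ) : ℝ) / 4)) *
          cb N0))) * 2 ^ l := by gcongr
    _ = 6 * C0 * ((n.choose (n / 2) : ℝ) * cb N0) *
        ((2 : ℝ) ^ (-(i ^ 2 - ((n % 2 : ℕ) : ℝ) / 4)) * (2 : ℝ) ^ l) := by ring
    _ ≤ 6 * C0 * ((n.choose (n / 2) : ℝ) * cb N0) *
        (2 * ((2 : ℝ) ^ (-i ^ 2 / 2) * (2 : ℝ) ^ ((n : ℝ) / 2) *
          (2 : ℝ) ^ (((n % 2 : ℕ) : ℝ) / 4))) := by
        refine mul_le_mul_of_nonneg_left ?_ (by positivity)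
        rw [← Real.rpow_natCast 2 l, ← Real.rpow_add (by norm_num),
          ← Real.rpow_add (by norm_num), ← Real.rpow_add (by norm_num)]
        have h5 : (2 : ℝ) * 2 ^ (-i ^ 2 / 2 + (n : ℝ) / 2 + ((n % 2 : ℕ) : ℝ) / 4) =
            2 ^ (1 + (-i ^ 2 / 2 + (n : ℝ) / 2 + ((n % 2 : ℕ) : ℝ) / 4)) := by
          rw [Real.rpow_add (by norm_num) 1, Real.rpow_one]
        rw [h5]
        apply Real.rpow_le_rpow_of_exponent_le (by norm_num)
        have h6 : (l : ℝ) = (n : ℝ) / 2 - i := by rw [hidef]; ring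
        rw [h6]
        nlinarith [sq_nonneg (i + 1)]
    _ = 12 * C0 * (2 : ℝ) ^ (-i ^ 2 / 2) * Zn n := by
        unfold Zn
        rw [← hN0]
        ring

/-- The case of unbalanced `l`. -/
theorem WL4_far {n l k r : ℕ} (hn : 400 ≤ n) (hl : l < n) (hr : r ≤ 2)
    (hi : n / 5 < |(n : ℝ) / 2 - l|) :
    |((n : ℝ) / 4) ^ r * dF (F3l n l) r k| ≤ (2 : ℝ) ^ (-((n : ℝ) / 2 - l) ^ 2 / 2) * Zn n := by
  have hn' : (400 : ℝ) ≤ n := by exact_mod_cast hn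
  obtain ⟨w1, w2, w3⟩ := WL4_half n l hl.le
  set i : ℝ := (n : ℝ) / 2 - l with hidef
  set N : ℕ := l * (n - l) with hN
  set N0 : ℕ := n / 2 * (n - n / 2) with hN0
  have hNr : (N : ℝ) = (n : ℝ) ^ 2 / 4 - i ^ 2 := by
    rw [hN, Nat.cast_mul, Nat.cast_sub hl.le, hidef]; ring
  have he : ((n % 2 : ℕ) : ℝ) ≤ 1 := by
    have : n % 2 ≤ 1 := by omega
    exact_mod_cast this
  have he0 : (0 : ℝ) ≤ ((n % 2 : ℕ) : ℝ) := Nat.cast_nonneg _
  have hisq : (n : ℝ) ^ 2 / 25 ≤ i ^ 2 := by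
    rw [← sq_abs i]; nlinarith [abs_nonneg i]
  have h1 : |dF (F3l n l) r k| ≤ 4 * (2 ^ n * 2 ^ l * 2 ^ N) :=
    WL4_dF_abs (fun k => WL4_crude n l k) hr k
  have hn2 : (n : ℝ) ≤ 2 ^ n := by exact_mod_cast Nat.lt_two_pow_self.le
  have h2 : ((n : ℝ) / 4) ^ r ≤ (2 : ℝ) ^ (2 * n) := by
    have h3 : (1 : ℝ) ≤ (n : ℝ) / 4 := by linarith
    calc ((n : ℝ) / 4) ^ r ≤ ((n : ℝ) / 4) ^ 2 := pow_le_pow_right₀ h3 hr
      _ ≤ ((2 : ℝ) ^ n) ^ 2 := pow_le_pow_left₀ (by positivity) (by linarith) 2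
      _ = (2 : ℝ) ^ (2 * n) := by rw [← pow_mul, mul_comm]
  have hl2 : (2 : ℝ) ^ l ≤ 2 ^ n := pow_le_pow_right₀ (by norm_num) hl.le
  have h4 : |((n : ℝ) / 4) ^ r * dF (F3l n l) r k| ≤ (2 : ℝ) ^ (4 * n + 2) * 2 ^ N := by
    rw [abs_mul, abs_of_nonneg (by positivity)]
    calc ((n : ℝ) / 4) ^ r * |dF (F3l n l) r k|
        ≤ (2 : ℝ) ^ (2 * n) * (4 * (2 ^ n * 2 ^ n * 2 ^ N)) := by
          refine mul_le_mul h2 (h1.trans ?_) (abs_nonneg _) (by positivity)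
          gcongr
      _ = (2 : ℝ) ^ (4 * n + 2) * 2 ^ N := by
          rw [pow_add, show (4 * n) = 2 * n + (n + n) by ring, pow_add (2 : ℝ) (2 * n), pow_add (2 : ℝ) n]
          ring
  have hN01 : 1 ≤ N0 := by
    have : (0 : ℝ) < N0 := by rw [w3]; nlinarith
    have : (0 : ℕ) < N0 := by exact_mod_cast this
    exact this
  have h5 : (2 : ℝ) ^ N0 / 2 ^ (2 * n) ≤ Zn n := by
    have h6 := (cb_crude hN01).1
    have h7 : (N0 : ℝ) + 1 ≤ 2 ^ (2 * n) := by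
      have h8 : (N0 : ℝ) + 1 ≤ (n : ℝ) ^ 2 := by rw [w3]; nlinarith
      calc (N0 : ℝ) + 1 ≤ (n : ℝ) ^ 2 := h8
        _ ≤ ((2 : ℝ) ^ n) ^ 2 := pow_le_pow_left₀ (by positivity) hn2 2
        _ = (2 : ℝ) ^ (2 * n) := by rw [← pow_mul, mul_comm]
    have h9 : (2 : ℝ) ^ N0 / 2 ^ (2 * n) ≤ cb N0 :=
      (div_le_div_of_nonneg_left (by positivity) (by positivity) h7).trans h6
    refine h9.trans ?_
    unfold Zn
    rw [← hN0]
    have a1 : (1 : ℝ) ≤ n.choose (n / 2) := by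
      exact_mod_cast Nat.choose_pos (Nat.div_le_self n 2)
    have a2 : (1 : ℝ) ≤ (2 : ℝ) ^ ((n : ℝ) / 2) := Real.one_le_rpow (by norm_num) (by positivity)
    have a3 : (1 : ℝ) ≤ (2 : ℝ) ^ (((n % 2 : ℕ) : ℝ) / 4) :=
      Real.one_le_rpow (by norm_num) (by positivity)
    have hcb0 : (0 : ℝ) ≤ cb N0 := Nat.cast_nonneg _
    calc (cb N0 : ℝ) = 1 * 1 * cb N0 * 1 := by ring
      _ ≤ (n.choose (n / 2) : ℝ) * (2 : ℝ) ^ ((n : ℝ) / 2) * cb N0 *
          (2 : ℝ) ^ (((n % 2 : ℕ) : ℝ) / 4) := by gcongr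
  refine h4.trans ?_
  refine le_trans ?_ (mul_le_mul_of_nonneg_left h5 (by positivity))
  rw [← Real.rpow_natCast 2 (4 * n + 2), ← Real.rpow_natCast 2 N, ← Real.rpow_natCast 2 N0,
    ← Real.rpow_natCast 2 (2 * n), ← Real.rpow_sub (by norm_num), ← Real.rpow_add (by norm_num),
    ← Real.rpow_add (by norm_num)]
  apply Real.rpow_le_rpow_of_exponent_le (by norm_num)
  rw [hNr, w3]
  push_cast
  nlinarith

/-- **Domination**: for all `l` with `i = n/2 - l`: `|(n/4)^r dF (F3l n l) r k| ≤ C 2^(-i²/2) Zn n` (`1 ≤ l < n`, `n` large, `k ≥ n²/8`). For `|i| ≤ n/5` (then `s(l-s) ≤ l²/4 ≤ k`): `dF_q3`-like formula, `dch_bound`, `cb_sub_le`, `2^(-i-i²) ≤ C 2^(-i²/2)`; otherwise crude: `dF ≤ 4·4^n·2^N` with `N = n²/4 - i²`, `cb_crude`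
(polynomial and `4^n` factors against `2^(-i²/2)`). -/
theorem lim_dom : ∃ C : ℝ, 0 < C ∧ ∃ n0 : ℕ, ∀ n ≥ n0, ∀ l : ℕ, l < n → ∀ k : ℕ,
    (n : ℝ) ^ 2 / 8 ≤ k → ∀ r ≤ 2,
    |((n : ℝ) / 4) ^ r * dF (F3l n l) r k| ≤ C * (2 : ℝ) ^ (-((n : ℝ) / 2 - l) ^ 2 / 2) * Zn n := by
  obtain ⟨C0, hC0, hC⟩ := dch_bound
  refine ⟨12 * C0 + 1, by positivity, 400, fun n hn l hl k hk r hr => ?_⟩
  have hZ : 0 ≤ Zn n := by unfold Zn; positivity
  have hp : 0 ≤ (2 : ℝ) ^ (-((n : ℝ) / 2 - l) ^ 2 / 2) * Zn n := by positivity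
  rcases le_or_gt (|(n : ℝ) / 2 - l|) (n / 5) with hi | hi
  · refine (WL4_near hC0 hC hn hl hk hr hi).trans ?_
    nlinarith
  · refine (WL4_far hn hl hr hi).trans ?_
    nlinarith [mul_nonneg hC0.le hp]

end Pool.Agent.H.MP_82502e_co
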