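import Pool.Agent.H.MP_82502e_co.WL3
import Pool.Agent.H.MP_82502e_co.WL4

set_option autoImplicit false

/-!
# The window: peak: limit of the explicit sum
-/

namespace Pool.Agent.H.MP_82502e_co

open Finset Real MeasureTheory ProbabilityTheory

/-- Differences are additive. -/
theorem WL5_dF (n r k : ℕ) : dF (F3 n) r k = ∑ l ∈ range n, dF (F3l n l) r k := by
  unfold dF F3
  split_ifs
  · push_cast
    rfl
  · push_cast
    rw [Finset.sum_sub_distrib]
  · push_cast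
    rw [Finset.sum_add_distrib, Finset.sum_sub_distrib, ← Finset.mul_sum]

/-- The dominating weights. -/
noncomputable def WL5_B (e : ℕ) (j : ℤ) : ℝ := (2 : ℝ) ^ (-((j : ℝ) + e / 2) ^ 2 / 2)

theorem WL5_pos (e : ℕ) (j : ℤ) : 0 < WL5_B e j := Real.rpow_pos_of_pos two_pos _

theorem WL5_wt (e : ℕ) (j : ℤ) : wt e j ≤ 2 * WL5_B e j := by
  have h : 2 * WL5_B e j = (2 : ℝ) ^ (1 + -((j : ℝ) + e / 2) ^ 2 / 2) := by
    rw [Real.rpow_add two_pos, Real.rpow_one, WL5_B]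
  rw [h, wt]
  apply Real.rpow_le_rpow_of_exponent_le one_le_two
  nlinarith [sq_nonneg ((j : ℝ) + e / 2 + 1)]

theorem WL5_wt_nonneg (e : ℕ) (j : ℤ) : 0 ≤ wt e j := (Real.rpow_pos_of_pos two_pos _).le

theorem WL5_le (e : ℕ) (he : e ≤ 1) (j : ℤ) : WL5_B e j ≤ 2 * (1 / 2 : ℝ) ^ j.natAbs := by
  have h : 2 * (1 / 2 : ℝ) ^ j.natAbs = (2 : ℝ) ^ (1 + -(j.natAbs : ℝ)) := by
    rw [Real.rpow_add two_pos, Real.rpow_one, Real.rpow_neg zero_le_two, Real.rpow_natCast,
      one_div, inv_pow]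
  rw [h, WL5_B]
  apply Real.rpow_le_rpow_of_exponent_le one_le_two
  have h1 : (j.natAbs : ℝ) = |(j : ℝ)| := by
    rw [Nat.cast_natAbs, Int.cast_abs]
  rw [h1]
  have he0 : (0 : ℝ) ≤ e := Nat.cast_nonneg e
  have he1 : (e : ℝ) ≤ 1 := by exact_mod_cast he
  rcases abs_cases (j : ℝ) with ⟨h2, h3⟩ | ⟨h2, h3⟩
  · rw [h2]
    nlinarith [sq_nonneg ((j : ℝ) + e / 2 - 1)]
  · rw [h2]
    nlinarith [sq_nonneg ((j : ℝ) + e / 2 + 1)]

theorem WL5_summable (e : ℕ) (he : e ≤ 1) : Summable (WL5_B e) := by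
  have hg : Summable (fun m : ℕ => 2 * (1 / 2 : ℝ) ^ m) :=
    (summable_geometric_of_lt_one (by norm_num) (by norm_num)).mul_left 2
  refine Summable.of_nat_of_neg ?_ ?_
  · exact Summable.of_nonneg_of_le (fun m => (WL5_pos e _).le) (fun m => by
      simpa using WL5_le e he (m : ℤ)) hg
  · exact Summable.of_nonneg_of_le (fun m => (WL5_pos e _).le) (fun m => by
      simpa using WL5_le e he (-(m : ℤ))) hg

theorem WL5_Zn_pos (n : ℕ) : 0 < Zn n := by
  unfold Zn cb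
  have h1 : 0 < n.choose (n / 2) := Nat.choose_pos (Nat.div_le_self _ _)
  have h2 : 0 < (n / 2 * (n - n / 2)).choose (n / 2 * (n - n / 2) / 2) :=
    Nat.choose_pos (Nat.div_le_self _ _)
  have h3 : (0 : ℝ) < (2 : ℝ) ^ ((n : ℝ) / 2) := Real.rpow_pos_of_pos two_pos _
  have h4 : (0 : ℝ) < (2 : ℝ) ^ (((n % 2 : ℕ) : ℝ) / 4) := Real.rpow_pos_of_pos two_pos _
  have h1' : (0 : ℝ) < (n.choose (n / 2) : ℝ) := by exact_mod_cast h1
  have h2' : (0 : ℝ) < ((n / 2 * (n - n / 2)).choose (n / 2 * (n - n / 2) / 2) : ℝ) := by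
    exact_mod_cast h2
  positivity

/-- **LIMIT**: sum over `l` (finitely many `j` by `lim_one`, the rest by `lim_dom` and `wt e j ≤ C 2^(-i²/2)`). -/
theorem lim_uniform (e : ℕ) (he : e ≤ 1) (r : ℕ) (hr : r ≤ 2) {T ε : ℝ} (hε : 0 < ε) :
    ∃ n0 : ℕ, ∀ n ≥ n0, n % 2 = e → ∀ k : ℕ, |tt n k| ≤ T →
    |((n : ℝ) / 4) ^ r * dF (F3 n) r k / Zn n - Phi e r (tt n k)| ≤ ε := by
  obtain ⟨C1, hC1, hf⟩ := fk_lip
  obtain ⟨C2, hC2, nd, hdom⟩ := lim_dom
  have hfb := (hf r hr).1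
  have hBs : Summable (WL5_B e) := WL5_summable e he
  -- the limit terms
  set L : ℝ → ℤ → ℝ := fun t j =>
    wt e j * ∫ u, fk r (t + ((j : ℝ) + e / 2) + u ^ 2 / 2) ∂(gaussianReal 0 1) with hLdef
  have hL : ∀ t j, |L t j| ≤ 2 * C1 * WL5_B e j := by
    intro t j
    have h1 : |∫ u, fk r (t + ((j : ℝ) + e / 2) + u ^ 2 / 2) ∂(gaussianReal 0 1)| ≤ C1 := by
      have h2 := norm_integral_le_of_norm_le_const (μ := gaussianReal 0 1)
        (f := fun u : ℝ => fk r (t + ((j : ℝ) + e / 2) + u ^ 2 / 2)) (C := C1)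
        (Filter.Eventually.of_forall fun u => hfb _)
      simpa using h2
    rw [hLdef]
    simp only
    rw [abs_mul, abs_of_nonneg (WL5_wt_nonneg e j)]
    have h3 := mul_le_mul (WL5_wt e j) h1 (abs_nonneg _)
      (mul_nonneg zero_le_two (WL5_pos e j).le)
    linarith
  have hLs : ∀ t, Summable (L t) := fun t =>
    Summable.of_norm_bounded (hBs.mul_left (2 * C1)) (fun j => hL t j)
  set K : ℝ := C2 + 2 * C1 with hK
  have hKpos : 0 < K := by positivity
  obtain ⟨J, hJ⟩ : ∃ J : Finset ℤ, ∑' j : {j // j ∉ J}, WL5_B e j < ε / (2 * K) :=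
    ((tendsto_tsum_compl_atTop_zero (WL5_B e)).eventually
      (gt_mem_nhds (by positivity : 0 < ε / (2 * K)))).exists
  have hlo : ∀ j : ℤ, ∃ m : ℕ, ∀ n ≥ m, n % 2 = e → ∀ l : ℕ, (2 * l : ℤ) = n - 2 * j - e →
      ∀ k : ℕ, |tt n k| ≤ T → |((n : ℝ) / 4) ^ r * dF (F3l n l) r k / Zn n - L (tt n k) j| ≤
        ε / (2 * (J.card + 1)) := fun j => lim_one e he j r hr (by positivity)
  choose m hm using hlo
  refine ⟨nd + ∑ j ∈ J, (m j + 2 * j.natAbs + 2) + ⌈4 * T⌉₊, fun n hn hne k hk => ?_⟩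
  have hn1 : nd ≤ n := by omega
  have hnT : 4 * T ≤ n := by
    have h1 : ⌈4 * T⌉₊ ≤ n := by omega
    exact (Nat.le_ceil _).trans (by exact_mod_cast h1)
  have hnJ : ∀ j ∈ J, m j + 2 * j.natAbs + 2 ≤ n := by
    intro j hj
    have h1 := Finset.single_le_sum (f := fun j : ℤ => m j + 2 * j.natAbs + 2)
      (fun _ _ => Nat.zero_le _) hj
    omega
  have hn2 : 2 * (n / 2) + e = n := by omega
  have hkn : (n : ℝ) ^ 2 / 8 ≤ k := by
    rcases Nat.eq_zero_or_pos n with h0 | h0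
    · rw [h0]
      simp
    have hn0 : (0 : ℝ) < n := by exact_mod_cast h0
    have h1 := (abs_le.1 hk).1
    unfold tt at h1
    rw [le_div_iff₀ (by positivity)] at h1
    nlinarith
  -- the terms
  set a : ℤ → ℝ := fun j => if 0 ≤ ((n / 2 : ℕ) : ℤ) - j ∧ ((n / 2 : ℕ) : ℤ) - j < n then
    ((n : ℝ) / 4) ^ r * dF (F3l n (((n / 2 : ℕ) : ℤ) - j).toNat) r k / Zn n else 0 with ha
  have hZ := WL5_Zn_pos n
  have hab : ∀ j, |a j| ≤ C2 * WL5_B e j := by
    intro j
    rw [ha]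
    simp only
    split_ifs with h
    · set l := (((n / 2 : ℕ) : ℤ) - j).toNat with hl
      have hl1 : (l : ℤ) = ((n / 2 : ℕ) : ℤ) - j := by
        rw [hl]
        omega
      have hl2 : l < n := by omega
      have h1 := hdom n hn1 l hl2 k hkn r hr
      have h2 : (n : ℝ) / 2 - l = (j : ℝ) + e / 2 := by
        have h3' : ∀ h l : ℕ, (l : ℤ) = (h : ℤ) - j → (l : ℝ) = (h : ℝ) - j := by
          intro h l hh
          exact_mod_cast hh
        have h4' : ∀ h : ℕ, 2 * h + e = n → (2 : ℝ) * (h : ℝ) + e = n := by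
          intro h hh
          exact_mod_cast hh
        have h3 := h3' _ _ hl1
        have h4 := h4' _ hn2
        rw [h3]
        linarith
      rw [h2] at h1
      rw [abs_div, abs_of_pos hZ, div_le_iff₀ hZ]
      exact h1
    · rw [abs_zero]
      exact mul_nonneg hC2.le (WL5_pos e j).le
  have has : Summable a := Summable.of_norm_bounded (hBs.mul_left C2) (fun j => hab j)
  have hsum : ((n : ℝ) / 4) ^ r * dF (F3 n) r k / Zn n = ∑' j, a j := by
    have hinj : Set.InjOn (fun l : ℕ => ((n / 2 : ℕ) : ℤ) - l) (range n : Finset ℕ) := by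
      intro x _ y _ h
      simp only at h
      omega
    rw [tsum_eq_sum (s := (range n).image (fun l : ℕ => ((n / 2 : ℕ) : ℤ) - l)),
      Finset.sum_image hinj, WL5_dF, Finset.mul_sum, Finset.sum_div]
    · refine Finset.sum_congr rfl fun l hl => ?_
      have hl1 := Finset.mem_range.1 hl
      have h1 : ((n / 2 : ℕ) : ℤ) - (((n / 2 : ℕ) : ℤ) - l) = l := by ring
      rw [ha]
      simp only
      rw [h1, if_pos ⟨by omega, by omega⟩, Int.toNat_natCast]
    · intro j hj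
      rw [ha]
      simp only
      rw [if_neg]
      rintro ⟨h1, h2⟩
      apply hj
      rw [Finset.mem_image]
      exact ⟨(((n / 2 : ℕ) : ℤ) - j).toNat, Finset.mem_range.2 (by omega), by omega⟩
  have hJa : ∀ j ∈ J, |a j - L (tt n k) j| ≤ ε / (2 * (J.card + 1)) := by
    intro j hj
    have h0 := hnJ j hj
    have hc : 0 ≤ ((n / 2 : ℕ) : ℤ) - j ∧ ((n / 2 : ℕ) : ℤ) - j < n := by omega
    have h1 : a j = ((n : ℝ) / 4) ^ r * dF (F3l n (((n / 2 : ℕ) : ℤ) - j).toNat) r k / Zn n := by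
      rw [ha]
      simp only
      rw [if_pos hc]
    rw [h1]
    exact hm j n (by omega) hne _ (by omega) k hk
  have hPhi : Phi e r (tt n k) = ∑' j, L (tt n k) j := rfl
  rw [hsum, hPhi, ← has.tsum_sub (hLs _)]
  have hcs : Summable (fun j => a j - L (tt n k) j) := has.sub (hLs _)
  rw [← hcs.sum_add_tsum_subtype_compl J]
  have h1 : |∑ j ∈ J, (a j - L (tt n k) j)| ≤ ε / 2 := by
    refine (Finset.abs_sum_le_sum_abs _ _).trans ?_
    refine (Finset.sum_le_sum hJa).trans ?_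
    rw [Finset.sum_const, nsmul_eq_mul, mul_div_assoc', div_le_iff₀ (by positivity)]
    nlinarith
  have h2 : |∑' j : {j // j ∉ J}, (a j - L (tt n k) j)| ≤ ε / 2 := by
    have hs1 : Summable (fun j : {j // j ∉ J} => K * WL5_B e j) :=
      (hBs.mul_left K).subtype {j | j ∉ J}
    have h3 : ∀ j : {j // j ∉ J}, ‖a j - L (tt n k) j‖ ≤ K * WL5_B e j := by
      intro j
      have h4 := hab j
      have h5 := hL (tt n k) j
      have h6 := norm_sub_le (a j) (L (tt n k) j)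
      simp only [Real.norm_eq_abs] at h6 ⊢
      rw [hK]
      linarith
    have h4 := tsum_of_norm_bounded hs1.hasSum h3
    rw [Real.norm_eq_abs] at h4
    refine h4.trans ?_
    rw [tsum_mul_left]
    have h5 := (lt_div_iff₀ (by positivity : 0 < 2 * K)).1 hJ
    linarith
  calc |∑ j ∈ J, (a j - L (tt n k) j) + ∑' j : {j // j ∉ J}, (a j - L (tt n k) j)| ≤
      |∑ j ∈ J, (a j - L (tt n k) j)| + |∑' j : {j // j ∉ J}, (a j - L (tt n k) j)| := abs_add_le _ _
    _ ≤ ε := by linarith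

end Pool.Agent.H.MP_82502e_co
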