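import Pool.Agent.H.MP_82502e_co.WFam

set_option autoImplicit false

/-!
# The window: uniqueness of the canonical layer function
-/

namespace Pool.Agent.H.MP_82502e_co

open Finset Real

variable {n : ℕ}

theorem WLow1_lt {lam' : Fin n → Fin 4} {S : Finset (Fin n × Fin n)} (hS' : S ∈ Lay lam')
    {u v : Fin n} (h1 : (u, v) ∉ S) (h2 : (v, u) ∉ S) (h3 : (u, v) ∉ Add S) :
    ¬ lam' u < lam' v := by
  intro hlt
  rw [mem_Lay] at hS'
  obtain ⟨g1, g2⟩ := hS'
  have hlt' : (lam' u : ℕ) < lam' v := hlt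
  have h4 : ¬ ((lam' u : ℕ) + 2 ≤ lam' v) := fun h => h1 (g2 u v h)
  apply h3
  unfold Add
  rw [mem_filter]
  refine ⟨mem_univ _, fun h => ?_, h1, h2, fun z hz => ?_, fun z hz => ?_⟩
  · have h' : u = v := h
    rw [h'] at hlt'
    exact lt_irrefl _ hlt'
  · unfold Dn at hz ⊢
    rw [mem_filter] at hz ⊢
    refine ⟨mem_univ _, g2 z v ?_⟩
    have h5 : (lam' z : ℕ) < lam' u := g1 _ hz.2
    omega
  · unfold Up at hz ⊢
    rw [mem_filter] at hz ⊢
    refine ⟨mem_univ _, g2 u z ?_⟩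
    have h5 : (lam' v : ℕ) < lam' z := g1 _ hz.2
    omega

theorem WLow1_val {lam lam' : Fin n → Fin 4} {S : Finset (Fin n × Fin n)} (hS : S ∈ Lay lam)
    (hS' : S ∈ Lay lam') (hg : Gen lam S) {u v : Fin n} (h : (lam u : ℕ) = lam v) :
    (lam' u : ℕ) = lam' v := by
  have h' : lam u = lam v := Fin.ext h
  rw [mem_Lay] at hS
  have n1 : (u, v) ∉ S := fun h1 => by
    have h2 : lam u < lam v := hS.1 _ h1
    rw [h'] at h2
    exact lt_irrefl _ h2
  have n2 : (v, u) ∉ S := fun h1 => by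
    have h2 : lam v < lam u := hS.1 _ h1
    rw [h'] at h2
    exact lt_irrefl _ h2
  have h3 := WLow1_lt hS' n1 n2 (hg.1 u v h')
  have h4 := WLow1_lt hS' n2 n1 (hg.1 v u h'.symm)
  rw [Fin.lt_def] at h3 h4
  omega

theorem WLow1_succ {lam lam' : Fin n → Fin 4} {S : Finset (Fin n × Fin n)} (hS : S ∈ Lay lam)
    (hS' : S ∈ Lay lam') (hg : Gen lam S) {u v : Fin n} (h : (lam v : ℕ) = lam u + 1) :
    (lam' v : ℕ) = lam' u + 1 := by
  obtain ⟨⟨u1, v1, a1, b1, c1⟩, ⟨u2, v2, a2, b2, c2⟩⟩ :=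
    hg.2 (lam u) (lam v) h.symm ⟨u, rfl⟩ ⟨v, rfl⟩
  have e1 := WLow1_val hS hS' hg (congrArg Fin.val a1)
  have e2 := WLow1_val hS hS' hg (congrArg Fin.val b1)
  have e3 := WLow1_val hS hS' hg (congrArg Fin.val a2)
  have e4 := WLow1_val hS hS' hg (congrArg Fin.val b2)
  rw [mem_Lay] at hS'
  have h1 : (lam' u1 : ℕ) < lam' v1 := hS'.1 _ c1
  have h2 : ¬ ((lam' u2 : ℕ) + 2 ≤ lam' v2) := fun h3 => c2 (hS'.2 _ _ h3)
  omega

/-- **Uniqueness.** Proof. `lam u = lam v`: `u`, `v` are unrelated, so `lam' u`, `lam' v` differ by at most one; if `lam' v = lam' u + 1` then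
`Dn u ⊆ {lam' < lam' u} ⊆ Dn v` and `Up v ⊆ {lam' > lam' v} ⊆ Up u`, so `(u,v) ∈ Add S`, excluded by `Gen`. So `lam'` is a function of `lam`. For consecutive nonempty layers `i`, `j = i+1` of `lam` there is a related pair, so
`lam'` increases, and an unrelated pair, so it increases by exactly one. The nonempty layers of a canonical function are `{0,1,2,3}`, `{0,1,2}` or `{1,2}`: so `lam' = lam + const` on them and, `lam'` being canonical,
the constant is `0` (for `{0,1,2}`: the image would be `{1,2,3}`, not canonical; for `{1,2}`: `{0,1}`, `{2,3}` are not canonical). -/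
theorem gen_unique {lam lam' : Fin n → Fin 4} (h : Can lam) (h' : Can lam')
    {S : Finset (Fin n × Fin n)} (hS : S ∈ Lay lam) (hS' : S ∈ Lay lam') (hg : Gen lam S) :
    lam = lam' := by
  have hA : ∀ u v, (lam u : ℕ) = lam v → (lam' u : ℕ) = lam' v := fun u v =>
    WLow1_val hS hS' hg
  have hB : ∀ u v, (lam v : ℕ) = lam u + 1 → (lam' v : ℕ) = lam' u + 1 := fun u v =>
    WLow1_succ hS hS' hg
  obtain ⟨⟨u1, hu1⟩, ⟨u2, hu2⟩, h03⟩ := h
  obtain ⟨⟨w1, hw1⟩, ⟨w2, hw2⟩, k03⟩ := h'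
  have e1 : (lam u1 : ℕ) = 1 := congrArg Fin.val hu1
  have e2 : (lam u2 : ℕ) = 2 := congrArg Fin.val hu2
  have f1 : (lam' w1 : ℕ) = 1 := congrArg Fin.val hw1
  have f2 : (lam' w2 : ℕ) = 2 := congrArg Fin.val hw2
  have h12 := hB u1 u2 (by omega)
  have key : ∀ u, (lam' u : ℕ) + 1 = lam u + lam' u1 := by
    intro u
    have hlt := (lam u).isLt
    obtain h0 | h0 | h0 | h0 : (lam u : ℕ) = 0 ∨ (lam u : ℕ) = 1 ∨ (lam u : ℕ) = 2 ∨
      (lam u : ℕ) = 3 := by omega
    · have := hB u u1 (by omega)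
      omega
    · have := hA u u1 (by omega)
      omega
    · have := hA u u2 (by omega)
      omega
    · have := hB u2 u (by omega)
      omega
  have hx : (lam' u1 : ℕ) = 1 := by
    have hlt := (lam' u2).isLt
    obtain h0 | h0 | h0 : (lam' u1 : ℕ) = 0 ∨ (lam' u1 : ℕ) = 1 ∨ 2 ≤ (lam' u1 : ℕ) := by omega
    · exfalso
      have h5 := key w2
      have h6 : lam w2 = 3 := Fin.ext (by
        change (lam w2 : ℕ) = 3
        omega)
      obtain ⟨u0, hu0⟩ := h03 ⟨w2, h6⟩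
      have h7 : (lam u0 : ℕ) = 0 := congrArg Fin.val hu0
      have h8 := key u0
      omega
    · exact h0
    · exfalso
      have h6 : lam' u2 = 3 := Fin.ext (by
        change (lam' u2 : ℕ) = 3
        omega)
      obtain ⟨w0, hw0⟩ := k03 ⟨u2, h6⟩
      have h7 : (lam' w0 : ℕ) = 0 := congrArg Fin.val hw0
      have h8 := key w0
      omega
  funext u
  apply Fin.ext
  have := key u
  omega

end Pool.Agent.H.MP_82502e_co
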