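import Pool.Agent.H.MP_82502e_co.Ent

set_option autoImplicit false

/-!
# The window: patterns on disjoint blocks
-/

namespace Pool.Agent.H.MP_82502e_co

open Finset Real

/-- Auxiliary: the total weight of the sets containing `A` and disjoint from `B`. -/
theorem WLow2_sum {Ω : Type*} [Fintype Ω] [DecidableEq Ω] (A B : Finset Ω) (hAB : Disjoint A B)
    (p : ℝ) :
    ∑ P : Finset Ω, (p ^ P.card * (1 - p) ^ (Fintype.card Ω - P.card)) *
      (if A ⊆ P ∧ Disjoint B P then (1 : ℝ) else 0) = p ^ A.card * (1 - p) ^ B.card := by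
  have h1 := Finset.prod_add (fun x : Ω => if x ∈ B then (0 : ℝ) else p)
    (fun x : Ω => if x ∈ A then (0 : ℝ) else 1 - p) (univ : Finset Ω)
  have h2 : ∏ x : Ω, ((if x ∈ B then (0 : ℝ) else p) + (if x ∈ A then (0 : ℝ) else 1 - p)) =
      p ^ A.card * (1 - p) ^ B.card := by
    have e : ∀ x : Ω, ((if x ∈ B then (0 : ℝ) else p) + (if x ∈ A then (0 : ℝ) else 1 - p)) =
        (if x ∈ A then p else 1) * (if x ∈ B then 1 - p else 1) := by
      intro x
      by_cases hA : x ∈ A
      · have hB : x ∉ B := fun hB => (Finset.disjoint_left.1 hAB) hA hB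
        simp [hA, hB]
      · by_cases hB : x ∈ B
        · simp [hA, hB]
        · simp [hA, hB]
    rw [Finset.prod_congr rfl (fun x _ => e x), Finset.prod_mul_distrib]
    simp [Finset.prod_ite_mem]
  rw [← h2, h1, Finset.powerset_univ]
  refine Finset.sum_congr rfl ?_
  intro P _
  by_cases hB : Disjoint B P
  · have e1 : ∏ x ∈ P, (if x ∈ B then (0 : ℝ) else p) = p ^ P.card := by
      rw [← Finset.prod_const]
      refine Finset.prod_congr rfl ?_
      intro x hx
      rw [if_neg (fun hxB => (Finset.disjoint_left.1 hB) hxB hx)]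
    by_cases hA : A ⊆ P
    · have e2 : ∏ x ∈ univ \ P, (if x ∈ A then (0 : ℝ) else 1 - p) =
          (1 - p) ^ (Fintype.card Ω - P.card) := by
        rw [← Finset.card_univ, ← Finset.card_sdiff_of_subset (Finset.subset_univ P),
          ← Finset.prod_const]
        refine Finset.prod_congr rfl ?_
        intro x hx
        rw [if_neg (fun hxA => (Finset.mem_sdiff.1 hx).2 (hA hxA))]
      rw [e1, e2, if_pos ⟨hA, hB⟩, mul_one]
    · obtain ⟨x, hxA, hxP⟩ := Finset.not_subset.1 hA
      have e2 : ∏ x ∈ univ \ P, (if x ∈ A then (0 : ℝ) else 1 - p) = 0 := by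
        refine Finset.prod_eq_zero (Finset.mem_sdiff.2 ⟨Finset.mem_univ x, hxP⟩) ?_
        rw [if_pos hxA]
      rw [e2, if_neg (fun h => hA h.1)]
      ring
  · obtain ⟨x, hxB, hxP⟩ := Finset.not_disjoint_iff.1 hB
    have e1 : ∏ x ∈ P, (if x ∈ B then (0 : ℝ) else p) = 0 := by
      refine Finset.prod_eq_zero hxP ?_
      rw [if_pos hxB]
    rw [e1, if_neg (fun h => hB h.2)]
    ring

/-- Auxiliary: the total weight of the event. -/
theorem WLow2_total {Ω : Type*} [Fintype Ω] [DecidableEq Ω] {T : ℕ} (f g : Fin T → Ω)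
    (hf : Function.Injective f) (hg : Function.Injective g) (hfg : ∀ i j, f i ≠ g j) (p : ℝ) :
    ∑ P : Finset Ω, (p ^ P.card * (1 - p) ^ (Fintype.card Ω - P.card)) *
      (if ∀ i, ¬ (f i ∈ P ∧ g i ∉ P) then (1 : ℝ) else 0) = (1 - p * (1 - p)) ^ T := by
  have e : ∀ P : Finset Ω, (if ∀ i, ¬ (f i ∈ P ∧ g i ∉ P) then (1 : ℝ) else 0) =
      ∑ S : Finset (Fin T), (-1 : ℝ) ^ S.card *
        (if S.image f ⊆ P ∧ Disjoint (S.image g) P then (1 : ℝ) else 0) := by
    intro P
    have h1 : (if ∀ i, ¬ (f i ∈ P ∧ g i ∉ P) then (1 : ℝ) else 0) =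
        ∏ i : Fin T, ((- (if f i ∈ P ∧ g i ∉ P then (1 : ℝ) else 0)) + 1) := by
      by_cases h : ∀ i, ¬ (f i ∈ P ∧ g i ∉ P)
      · rw [if_pos h]
        symm
        refine Finset.prod_eq_one ?_
        intro i _
        rw [if_neg (h i)]
        ring
      · rw [if_neg h]
        push Not at h
        obtain ⟨i, hi⟩ := h
        symm
        refine Finset.prod_eq_zero (Finset.mem_univ i) ?_
        rw [if_pos hi]
        ring
    rw [h1, Finset.prod_add_one, Finset.powerset_univ]
    refine Finset.sum_congr rfl ?_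
    intro S _
    by_cases hS : S.image f ⊆ P ∧ Disjoint (S.image g) P
    · rw [if_pos hS, mul_one, ← Finset.prod_const]
      refine Finset.prod_congr rfl ?_
      intro i hi
      rw [if_pos ⟨hS.1 (Finset.mem_image_of_mem f hi),
        fun hg' => (Finset.disjoint_left.1 hS.2) (Finset.mem_image_of_mem g hi) hg'⟩]
    · rw [if_neg hS, mul_zero]
      have : ∃ i ∈ S, ¬ (f i ∈ P ∧ g i ∉ P) := by
        by_contra hcon
        push Not at hcon
        refine hS ⟨?_, ?_⟩
        · intro x hx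
          obtain ⟨i, hi, rfl⟩ := Finset.mem_image.1 hx
          exact (hcon i hi).1
        · rw [Finset.disjoint_left]
          intro x hx
          obtain ⟨i, hi, rfl⟩ := Finset.mem_image.1 hx
          exact (hcon i hi).2
      obtain ⟨i, hi, hi2⟩ := this
      refine Finset.prod_eq_zero hi ?_
      rw [if_neg hi2]
      ring
  calc ∑ P : Finset Ω, (p ^ P.card * (1 - p) ^ (Fintype.card Ω - P.card)) *
      (if ∀ i, ¬ (f i ∈ P ∧ g i ∉ P) then (1 : ℝ) else 0)
      = ∑ P : Finset Ω, ∑ S : Finset (Fin T), (-1 : ℝ) ^ S.card *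
        ((p ^ P.card * (1 - p) ^ (Fintype.card Ω - P.card)) *
        (if S.image f ⊆ P ∧ Disjoint (S.image g) P then (1 : ℝ) else 0)) := by
        refine Finset.sum_congr rfl ?_
        intro P _
        rw [e P, Finset.mul_sum]
        refine Finset.sum_congr rfl ?_
        intro S _
        ring
    _ = ∑ S : Finset (Fin T), (-1 : ℝ) ^ S.card * (p ^ S.card * (1 - p) ^ S.card) := by
        rw [Finset.sum_comm]
        refine Finset.sum_congr rfl ?_
        intro S _
        have hd : Disjoint (S.image f) (S.image g) := by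
          rw [Finset.disjoint_left]
          intro x hx hy
          obtain ⟨i, _, hi⟩ := Finset.mem_image.1 hx
          obtain ⟨j, _, hj⟩ := Finset.mem_image.1 hy
          exact hfg i j (hi.trans hj.symm)
        rw [← Finset.mul_sum, WLow2_sum _ _ hd, Finset.card_image_of_injective _ hf,
          Finset.card_image_of_injective _ hg]
    _ = ∏ _i : Fin T, ((- (p * (1 - p))) + 1) := by
        rw [Finset.prod_add_one, Finset.powerset_univ]
        refine Finset.sum_congr rfl ?_
        intro S _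
        rw [Finset.prod_const, ← mul_pow, ← mul_pow]
        ring
    _ = (1 - p * (1 - p)) ^ T := by
        rw [Finset.prod_const, Finset.card_univ, Fintype.card_fin]
        ring

/-- **Hypergeometric from binomial.** `Ω` a finite set of `N` positions, `T` pairwise disjoint two-element blocks (given by injective `f g : Fin T → Ω` with disjoint ranges): the number of
`K`-subsets `P` of `Ω` with no `i` such that `f i ∈ P` and `g i ∉ P` is at most `(N+1) (1 - p(1-p))^T choose N K`, `p = K/N`.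
Proof. Give `P` the weight `p^|P| (1-p)^(N-|P|)`; the total weight of the event is `(1 - p(1-p))^T`; every `K`-subset has weight `w = p^K (1-p)^(N-K)` and `choose N K * w ≥ 1/(N+1)` (the largest
term of the binomial distribution; cf. `exp_le_choose` in `Ent.lean`). -/
theorem card_block_le {Ω : Type*} [Fintype Ω] [DecidableEq Ω] {T K : ℕ} (f g : Fin T → Ω)
    (hf : Function.Injective f) (hg : Function.Injective g) (hfg : ∀ i j, f i ≠ g j)
    (hK : K ≤ Fintype.card Ω) (hN : 0 < Fintype.card Ω) {p : ℝ}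
    (hp : p = (K : ℝ) / Fintype.card Ω) :
    (((univ : Finset (Finset Ω)).filter fun P => P.card = K ∧ ∀ i, ¬ (f i ∈ P ∧ g i ∉ P)).card : ℝ) ≤
      (Fintype.card Ω + 1) * (1 - p * (1 - p)) ^ T * (Fintype.card Ω).choose K := by
  obtain ⟨N, hNdef⟩ : ∃ N, N = Fintype.card Ω := ⟨_, rfl⟩
  have htot := WLow2_total f g hf hg hfg p
  rw [← hNdef] at hK hN hp htot ⊢
  have hN' : (0 : ℝ) < N := by exact_mod_cast hN
  have hK' : (K : ℝ) ≤ N := by exact_mod_cast hK
  have hp0 : 0 ≤ p := by rw [hp]; positivity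
  have hp1 : p ≤ 1 := by rw [hp]; exact (div_le_one hN').2 hK'
  have hq0 : 0 ≤ 1 - p := by linarith
  have hcard : (((univ : Finset (Finset Ω)).filter fun P => P.card = K ∧ ∀ i, ¬ (f i ∈ P ∧ g i ∉ P)).card : ℝ) *
      (p ^ K * (1 - p) ^ (N - K)) ≤ (1 - p * (1 - p)) ^ T := by
    rw [← htot, ← nsmul_eq_mul, ← Finset.sum_const]
    calc ∑ _P ∈ (univ : Finset (Finset Ω)).filter fun P => P.card = K ∧ ∀ i, ¬ (f i ∈ P ∧ g i ∉ P),
          p ^ K * (1 - p) ^ (N - K)
        = ∑ P ∈ (univ : Finset (Finset Ω)).filter fun P => P.card = K ∧ ∀ i, ¬ (f i ∈ P ∧ g i ∉ P),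
          (p ^ P.card * (1 - p) ^ (N - P.card)) *
            (if ∀ i, ¬ (f i ∈ P ∧ g i ∉ P) then (1 : ℝ) else 0) := by
          refine Finset.sum_congr rfl ?_
          intro P hP
          obtain ⟨_, h1, h2⟩ := Finset.mem_filter.1 hP
          rw [if_pos h2, h1, mul_one]
      _ ≤ _ := by
          refine Finset.sum_le_sum_of_subset_of_nonneg (Finset.filter_subset _ _) ?_
          intro P _ _
          have h1 : 0 ≤ p ^ P.card * (1 - p) ^ (N - P.card) := by positivity
          split_ifs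
          · simpa using h1
          · simp
  have hw : 1 ≤ ((N : ℝ) + 1) * (N.choose K : ℝ) * (p ^ K * (1 - p) ^ (N - K)) := by
    have h1 := Ent_le_choose_mul hK
    have h2 : ((N ^ N : ℕ) : ℝ) ≤ (((N + 1) * (N.choose K * (K ^ K * (N - K) ^ (N - K))) : ℕ) : ℝ) := by
      exact_mod_cast h1
    rw [Nat.cast_mul, Nat.cast_mul, Nat.cast_mul, Nat.cast_pow, Nat.cast_pow, Nat.cast_pow,
      Nat.cast_sub hK] at h2
    push_cast at h2
    have e1 : (N : ℝ) ^ N = (N : ℝ) ^ K * (N : ℝ) ^ (N - K) := by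
      rw [← pow_add, Nat.add_sub_cancel' hK]
    have e2 : p ^ K * (1 - p) ^ (N - K) =
        ((K : ℝ) ^ K * ((N : ℝ) - K) ^ (N - K)) / (N : ℝ) ^ N := by
      have e3 : 1 - p = ((N : ℝ) - K) / N := by
        rw [hp]
        field_simp
      rw [e3, hp, div_pow, div_pow, e1]
      field_simp
    rw [e2]
    have hpos : (0 : ℝ) < (N : ℝ) ^ N := by positivity
    rw [mul_div_assoc', le_div_iff₀ hpos, one_mul]
    refine h2.trans (le_of_eq ?_)
    ring
  have hc0 : (0 : ℝ) ≤ (((univ : Finset (Finset Ω)).filter fun P => P.card = K ∧ ∀ i, ¬ (f i ∈ P ∧ g i ∉ P)).card : ℝ) :=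
    Nat.cast_nonneg _
  calc (((univ : Finset (Finset Ω)).filter fun P => P.card = K ∧ ∀ i, ¬ (f i ∈ P ∧ g i ∉ P)).card : ℝ)
      ≤ (((univ : Finset (Finset Ω)).filter fun P => P.card = K ∧ ∀ i, ¬ (f i ∈ P ∧ g i ∉ P)).card : ℝ) *
        (((N : ℝ) + 1) * (N.choose K : ℝ) * (p ^ K * (1 - p) ^ (N - K))) :=
        le_mul_of_one_le_right hc0 hw
    _ = ((N : ℝ) + 1) * (N.choose K : ℝ) *
        ((((univ : Finset (Finset Ω)).filter fun P => P.card = K ∧ ∀ i, ¬ (f i ∈ P ∧ g i ∉ P)).card : ℝ) *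
        (p ^ K * (1 - p) ^ (N - K))) := by ring
    _ ≤ ((N : ℝ) + 1) * (N.choose K : ℝ) * (1 - p * (1 - p)) ^ T :=
        mul_le_mul_of_nonneg_left hcard (by positivity)
    _ = _ := by ring

end Pool.Agent.H.MP_82502e_co
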