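import Pool.Agent.H.MP_82502e_co.WFam2
import Pool.Agent.H.MP_82502e_co.WBin
import Pool.Agent.H.MP_82502e_co.WBin2
import Pool.Agent.H.MP_82502e_co.Count

set_option autoImplicit false

/-!
# The window: lower bound for F3
-/

namespace Pool.Agent.H.MP_82502e_co

open Finset Real

open scoped Classical in
/-- choice of the size of the bottom layer -/
theorem WNeg_exists_s {n l : ℕ} (hl : 1 ≤ l) (h1 : 2 * l ≤ n) (h2 : n ≤ 2 * l + 1) {y B : ℝ}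
    (hB0 : 0 ≤ B) (hy0 : -B ≤ y) (hy1 : y ≤ (n : ℝ) ^ 2 / 16 + B + 1 / 8) :
    ∃ s, s < l ∧ (s : ℝ) * ((l : ℝ) - s) ≤ max y 0 ∧
      |y - (s : ℝ) * ((l : ℝ) - s)| ≤ B + n := by
  have hn1 : (1 : ℝ) ≤ n := by exact_mod_cast (by omega : 1 ≤ n)
  rcases le_or_gt y 0 with hy | hy
  · refine ⟨0, hl, ?_, ?_⟩
    · simp
    · simp only [Nat.cast_zero, zero_mul, sub_zero]
      rw [abs_of_nonpos hy]
      linarith
  · obtain ⟨s, hs⟩ : ∃ s, s = Nat.findGreatest (fun s => (s : ℝ) * ((l : ℝ) - s) ≤ y) (l / 2) :=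
      ⟨_, rfl⟩
    have hsle : s ≤ l / 2 := by rw [hs]; exact Nat.findGreatest_le _
    have hsP : (s : ℝ) * ((l : ℝ) - s) ≤ y := by
      have h0 : (fun s : ℕ => (s : ℝ) * ((l : ℝ) - s) ≤ y) 0 := by
        simp only [Nat.cast_zero, zero_mul]
        exact hy.le
      have := Nat.findGreatest_spec (P := fun s : ℕ => (s : ℝ) * ((l : ℝ) - s) ≤ y)
        (Nat.zero_le (l / 2)) h0
      rw [← hs] at this
      exact this
    refine ⟨s, by omega, hsP.trans (le_max_left _ _), ?_⟩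
    rw [abs_of_nonneg (by linarith)]
    have hl2 : (2 : ℝ) * l ≤ n := by exact_mod_cast h1
    have hl3 : (n : ℝ) ≤ 2 * l + 1 := by exact_mod_cast h2
    have hl0 : (1 : ℝ) ≤ l := by exact_mod_cast hl
    have hs0 : (0 : ℝ) ≤ s := Nat.cast_nonneg s
    rcases hsle.lt_or_eq with h | h
    · have h3 : ¬ ((((s + 1 : ℕ) : ℝ)) * ((l : ℝ) - ((s + 1 : ℕ) : ℝ)) ≤ y) :=
        Nat.findGreatest_is_greatest (P := fun s : ℕ => (s : ℝ) * ((l : ℝ) - s) ≤ y)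
          (n := l / 2) (k := s + 1) (by rw [← hs]; exact Nat.lt_succ_self s) h
      push Not at h3
      push_cast at h3
      nlinarith
    · have h4 : l ≤ 2 * s + 1 := by omega
      have h5 : 2 * s ≤ l := by omega
      have h4' : (l : ℝ) ≤ 2 * s + 1 := by exact_mod_cast h4
      have h5' : (2 : ℝ) * s ≤ l := by exact_mod_cast h5
      have h6 : ((l : ℝ) ^ 2 - 1) / 4 ≤ (s : ℝ) * ((l : ℝ) - s) := by
        nlinarith [mul_nonneg (by linarith : (0 : ℝ) ≤ l - 2 * s)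
          (by linarith : (0 : ℝ) ≤ 2 * s + 1 - l)]
      have h7 : ((n : ℝ) - 1) ^ 2 / 4 ≤ (l : ℝ) ^ 2 := by nlinarith
      nlinarith

/-- Lower bound, explicit. One term suffices: `l = ⌊n/2⌋`, `N = l(n-l)`, `s ≤ l/2` with `s(l-s)` nearest to
`k - N/2` (clipped to `[0, l²/4]`; consecutive values differ by at most `l`): then
`|k - s(l-s) - N/2| ≤ δ n² + n`, and `choose_ge_gauss`: loss `5 (δn²+n)²/N + log(N+1) ≤ 25 δ² n²` for large `n`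
(`q3 ≥ choose N (k - s(l-s))`). -/
theorem F3_lb_quad {δ : ℝ} (hδ : 0 < δ) (hδ1 : δ ≤ 1 / 100) : ∃ n0 : ℕ, ∀ n ≥ n0, ∀ k : ℕ,
    Win δ n k → exp ((log 2 / 4 - 25 * δ ^ 2) * (n : ℝ) ^ 2) ≤ (F3 n k : ℝ) := by
  obtain ⟨n1, hn1⟩ := poly_le_exp (θ := δ ^ 2) (by positivity) 1
  obtain ⟨n2, hn2⟩ := exists_nat_ge (100 / δ)
  refine ⟨max n1 (max n2 100), fun n hn k hk => ?_⟩
  have ha : n1 ≤ n := (le_max_left _ _).trans hn
  have hb : n2 ≤ n := ((le_max_left _ _).trans (le_max_right _ _)).trans hn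
  have hc : 100 ≤ n := ((le_max_right _ _).trans (le_max_right _ _)).trans hn
  have hnR : (100 : ℝ) ≤ n := by exact_mod_cast hc
  have hδn : 100 ≤ δ * n := by
    have h1 : 100 / δ ≤ n := hn2.trans (by exact_mod_cast hb)
    rw [div_le_iff₀ hδ] at h1
    linarith
  obtain ⟨l, hl⟩ : ∃ l, l = n / 2 := ⟨_, rfl⟩
  have hl1 : 1 ≤ l := by omega
  have hl2 : 2 * l ≤ n := by omega
  have hl3 : n ≤ 2 * l + 1 := by omega
  have hl2R : (2 : ℝ) * l ≤ n := by exact_mod_cast hl2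
  have hl3R : (n : ℝ) ≤ 2 * l + 1 := by exact_mod_cast hl3
  obtain ⟨N, hN⟩ : ∃ N, N = l * (n - l) := ⟨_, rfl⟩
  have hNR : (N : ℝ) = l * ((n : ℝ) - l) := by
    rw [hN, Nat.cast_mul, Nat.cast_sub (by omega)]
  have hN1 : ((n : ℝ) ^ 2 - 1) / 4 ≤ N := by
    rw [hNR]
    nlinarith [mul_nonneg (by linarith : (0 : ℝ) ≤ n - 2 * l)
          (by linarith : (0 : ℝ) ≤ 2 * l + 1 - n)]
  have hN2 : (N : ℝ) ≤ (n : ℝ) ^ 2 / 4 := by
    rw [hNR]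
    nlinarith [sq_nonneg ((n : ℝ) - 2 * l)]
  obtain ⟨y, hy⟩ : ∃ y : ℝ, y = (k : ℝ) - N / 2 := ⟨_, rfl⟩
  obtain ⟨B, hB⟩ : ∃ B : ℝ, B = δ * (n : ℝ) ^ 2 := ⟨_, rfl⟩
  have hB0 : 0 ≤ B := by rw [hB]; positivity
  obtain ⟨hk1, hk2⟩ := hk
  have hy0 : -B ≤ y := by rw [hy, hB]; nlinarith
  have hy1 : y ≤ (n : ℝ) ^ 2 / 16 + B + 1 / 8 := by rw [hy, hB]; nlinarith
  obtain ⟨s, hsl, hsk, hsy⟩ := WNeg_exists_s hl1 hl2 hl3 hB0 hy0 hy1
  have hslR : ((s * (l - s) : ℕ) : ℝ) = (s : ℝ) * ((l : ℝ) - s) := by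
    rw [Nat.cast_mul, Nat.cast_sub hsl.le]
  have hN0 : (0 : ℝ) < N := by nlinarith
  have hN0' : 0 < N := by exact_mod_cast hN0
  have hsk' : s * (l - s) ≤ k := by
    have h1 : ((s * (l - s) : ℕ) : ℝ) ≤ k := by
      rw [hslR]
      refine hsk.trans (max_le ?_ (Nat.cast_nonneg k))
      rw [hy]
      linarith
    exact_mod_cast h1
  obtain ⟨K, hK⟩ : ∃ K, K = k - s * (l - s) := ⟨_, rfl⟩
  have hKR : (K : ℝ) - N / 2 = y - (s : ℝ) * ((l : ℝ) - s) := by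
    rw [hK, Nat.cast_sub hsk', hslR, hy]
    ring
  have hKy : |(K : ℝ) - N / 2| ≤ B + n := by rw [hKR]; exact hsy
  have hBn : B + n ≤ 101 / 100 * (δ * (n : ℝ) ^ 2) := by
    rw [hB]
    nlinarith
  have hKN : K ≤ N := by
    have h1 : (K : ℝ) ≤ N := by
      have h2 := (abs_le.1 hKy).2
      have h3 : δ * (n : ℝ) ^ 2 ≤ 1 / 100 * (n : ℝ) ^ 2 :=
        mul_le_mul_of_nonneg_right hδ1 (by positivity)
      nlinarith
    exact_mod_cast h1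
  have hmain := choose_ge_gauss hKN hN0'
  have hterm : (N.choose K : ℝ) ≤ (F3 n k : ℝ) := by
    have h1 : N.choose K ≤ q3 n l s k := by
      unfold q3 chz
      rw [if_pos hsk', ← hN, ← hK]
      have h2 : 0 < n.choose l * l.choose s :=
        Nat.mul_pos (Nat.choose_pos (by omega)) (Nat.choose_pos hsl.le)
      exact Nat.le_mul_of_pos_left _ h2
    have h2 : q3 n l s k ≤ F3l n l k := by
      unfold F3l
      exact Finset.single_le_sum (f := fun s => q3 n l s k) (fun _ _ => Nat.zero_le _)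
        (Finset.mem_range.2 hsl)
    have h3 : F3l n l k ≤ F3 n k := by
      unfold F3
      exact Finset.single_le_sum (f := fun l => F3l n l k) (fun _ _ => Nat.zero_le _)
        (Finset.mem_range.2 (by omega))
    exact_mod_cast h1.trans (h2.trans h3)
  refine le_trans ?_ (hmain.trans hterm)
  rw [le_div_iff₀ (by positivity)]
  have hpoly : (N : ℝ) + 1 ≤ exp (δ ^ 2 * (n : ℝ) ^ 2) := by
    have h1 := hn1 n ha
    rw [pow_one] at h1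
    nlinarith
  have h2N : (2 : ℝ) ^ N = exp (log 2 * N) := by
    rw [← rpow_natCast, rpow_def_of_pos (by norm_num)]
  rw [h2N, ← exp_add]
  have hstep : exp ((log 2 / 4 - 25 * δ ^ 2) * (n : ℝ) ^ 2) * ((N : ℝ) + 1) ≤
      exp ((log 2 / 4 - 25 * δ ^ 2) * (n : ℝ) ^ 2) * exp (δ ^ 2 * (n : ℝ) ^ 2) :=
    mul_le_mul_of_nonneg_left hpoly (exp_pos _).le
  refine hstep.trans ?_
  rw [← exp_add]
  refine exp_le_exp.2 ?_
  have hq : 5 * ((K : ℝ) - N / 2) ^ 2 / N ≤ 21 * (δ ^ 2 * (n : ℝ) ^ 2) := by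
    rw [div_le_iff₀ hN0]
    have h1 : ((K : ℝ) - N / 2) ^ 2 ≤ (101 / 100 * (δ * (n : ℝ) ^ 2)) ^ 2 := by
      rw [← sq_abs]
      exact pow_le_pow_left₀ (abs_nonneg _) (hKy.trans hBn) 2
    have h2 : (99 / 100) * (n : ℝ) ^ 2 / 4 ≤ N := by nlinarith
    have h3 : 0 ≤ δ ^ 2 * (n : ℝ) ^ 2 := by positivity
    have h4 : δ ^ 2 * (n : ℝ) ^ 2 * ((99 / 100) * (n : ℝ) ^ 2 / 4) ≤ δ ^ 2 * (n : ℝ) ^ 2 * N :=
      mul_le_mul_of_nonneg_left h2 h3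
    have h5 : 0 ≤ δ ^ 2 * (n : ℝ) ^ 2 * (n : ℝ) ^ 2 := by positivity
    nlinarith
  have hlog2 : log 2 ≤ 1 := by
    have := log_two_lt_d9
    linarith
  have hlog0 : 0 ≤ log 2 := log_nonneg (by norm_num)
  have hlogN : log 2 * (((n : ℝ) ^ 2 - 1) / 4) ≤ log 2 * N := mul_le_mul_of_nonneg_left hN1 hlog0
  have hδn2 : 1 ≤ δ ^ 2 * (n : ℝ) ^ 2 := by
    have h1 : δ ^ 2 * (n : ℝ) ^ 2 = (δ * n) ^ 2 := by ring
    rw [h1]
    nlinarith
  nlinarith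

/-- Lower bound (from `F3_lb_quad`). -/
theorem F3_lb {θ : ℝ} (hθ : 0 < θ) : ∃ δ : ℝ, 0 < δ ∧ ∃ n0 : ℕ, ∀ n ≥ n0, ∀ k : ℕ,
    Win δ n k → exp ((log 2 / 4 - θ) * (n : ℝ) ^ 2) ≤ (F3 n k : ℝ) := by
  obtain ⟨δ, hδ⟩ : ∃ δ : ℝ, δ = min (1 / 100) θ := ⟨_, rfl⟩
  have h0 : 0 < δ := by rw [hδ]; exact lt_min (by norm_num) hθ
  have h1 : δ ≤ 1 / 100 := by rw [hδ]; exact min_le_left _ _
  have h2 : δ ≤ θ := by rw [hδ]; exact min_le_right _ _
  obtain ⟨n0, hn0⟩ := F3_lb_quad h0 h1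
  refine ⟨δ, h0, n0, fun n hn k hk => le_trans (exp_le_exp.2 ?_) (hn0 n hn k hk)⟩
  refine mul_le_mul_of_nonneg_right ?_ (by positivity)
  nlinarith

end Pool.Agent.H.MP_82502e_co
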