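import Pool.Agent.H.MP_82502e_co.WNeg

set_option autoImplicit false

/-!
# The window: negligible terms
-/

namespace Pool.Agent.H.MP_82502e_co

open Finset Real

theorem WNeg2_chz_le (N k o : ℕ) :
    (chz N k o : ℝ) ≤ 2 ^ N * exp (-(2 * ((k : ℝ) - o - N / 2) ^ 2 / N)) := by
  unfold chz
  split_ifs with h
  · have h1 := choose_le_gauss N (k - o)
    rw [Nat.cast_sub h] at h1
    exact h1
  · rw [Nat.cast_zero]
    positivity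

theorem WNeg2_choose_le (N K : ℕ) : (N.choose K : ℝ) ≤ 2 ^ N := by
  have h : N.choose K ≤ 2 ^ N := by
    rw [← Nat.sum_range_choose]
    by_cases hK : K ∈ range (N + 1)
    · exact Finset.single_le_sum (f := fun i => N.choose i) (fun _ _ => Nat.zero_le _) hK
    · rw [mem_range, not_lt] at hK
      rw [Nat.choose_eq_zero_of_lt (by omega)]
      exact Nat.zero_le _
  exact_mod_cast h

theorem WNeg2_mem {n : ℕ} {x : ℕ × ℕ × ℕ × ℕ} (hx : x ∈ CanQ n) :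
    x.1 + x.2.1 + x.2.2.1 + x.2.2.2 = n ∧ 1 ≤ x.2.1 ∧ 1 ≤ x.2.2.1 := by
  unfold CanQ at hx
  rw [mem_filter] at hx
  exact ⟨hx.2.1, hx.2.2.1, hx.2.2.2.1⟩

/-- Trivial upper bound for one term: the three binomial factors are at most `2^n · 2^n`
(`choose (a+b+c+d) (a+c) ≤ 2^n`, `choose (a+c) a * choose (b+d) d ≤ 2^(a+c) 2^(b+d)`), and
`choose_le_gauss`. -/
theorem tmx_le {n k : ℕ} {x : ℕ × ℕ × ℕ × ℕ} (hx : x ∈ CanQ n) :
    (tmx x k : ℝ) ≤ 4 ^ n * (2 ^ (nfr x.1 x.2.1 x.2.2.1 x.2.2.2) *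
      exp (-(2 * (yq k x) ^ 2 / (nfr x.1 x.2.1 x.2.2.1 x.2.2.2)))) := by
  obtain ⟨hn, _, _⟩ := WNeg2_mem hx
  unfold tmx tm yq
  rw [Nat.cast_mul]
  refine mul_le_mul ?_ (WNeg2_chz_le _ _ _) (Nat.cast_nonneg _) (by positivity)
  rw [Nat.cast_mul, Nat.cast_mul, hn]
  have h1 := WNeg2_choose_le n (x.1 + x.2.2.1)
  have h2 := WNeg2_choose_le (x.1 + x.2.2.1) x.1
  have h3 := WNeg2_choose_le (x.2.1 + x.2.2.2) x.2.2.2
  have h4 : (4 : ℝ) ^ n = 2 ^ n * 2 ^ (x.1 + x.2.2.1) * 2 ^ (x.2.1 + x.2.2.2) := by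
    rw [mul_assoc, ← pow_add, show x.1 + x.2.2.1 + (x.2.1 + x.2.2.2) = n by omega, ← mul_pow]
    norm_num
  rw [h4]
  exact mul_le_mul (mul_le_mul h1 h2 (Nat.cast_nonneg _) (by positivity)) h3 (Nat.cast_nonneg _)
    (by positivity)

/-- With `l = a + c`, `m = b + d`: `nfr = l m - a d ≤ n²/4 - (l - n/2)² - a d`. -/
theorem nfr_le {n : ℕ} {x : ℕ × ℕ × ℕ × ℕ} (hx : x ∈ CanQ n) :
    (nfr x.1 x.2.1 x.2.2.1 x.2.2.2 : ℝ) =
      (n : ℝ) ^ 2 / 4 - (((x.1 + x.2.2.1 : ℕ) : ℝ) - n / 2) ^ 2 - (x.1 : ℝ) * x.2.2.2 := by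
  obtain ⟨hn, _, _⟩ := WNeg2_mem hx
  rw [← hn]
  unfold nfr
  push_cast
  ring

/-- One negligible term. -/
theorem WNeg2_term {η : ℝ} (hη : 0 < η) {n k : ℕ} {x : ℕ × ℕ × ℕ × ℕ} (hx : x ∈ CanQ n)
    (h : η * n < |((x.1 + x.2.2.1 : ℕ) : ℝ) - (n : ℝ) / 2| ∨
      η * (n : ℝ) ^ 2 < |yq k x| ∨ η * (n : ℝ) ^ 2 < (x.1 : ℝ) * x.2.2.2) :
    (tmx x k : ℝ) ≤ 4 ^ n * exp ((log 2 / 4 - min (η ^ 2 / 2) (η / 2)) * (n : ℝ) ^ 2) := by
  obtain ⟨hn, hb, hc⟩ := WNeg2_mem hx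
  refine (tmx_le hx).trans (mul_le_mul_of_nonneg_left ?_ (by positivity))
  have hN := nfr_le hx
  have hlog : (1 : ℝ) / 2 < log 2 := by
    have := Real.log_two_gt_d9
    linarith
  have hlog1 : log 2 < 1 := by
    have := Real.log_two_lt_d9
    linarith
  have hpos : (0 : ℝ) < nfr x.1 x.2.1 x.2.2.1 x.2.2.2 := by
    have : 0 < nfr x.1 x.2.1 x.2.2.1 x.2.2.2 := by
      unfold nfr
      have : 0 < x.2.1 * x.2.2.1 := Nat.mul_pos hb hc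
      omega
    exact_mod_cast this
  set N : ℝ := (nfr x.1 x.2.1 x.2.2.1 x.2.2.2 : ℝ) with hNdef
  have had : (0 : ℝ) ≤ (x.1 : ℝ) * x.2.2.2 := by positivity
  have hsq : 0 ≤ (((x.1 + x.2.2.1 : ℕ) : ℝ) - n / 2) ^ 2 := sq_nonneg _
  have hN4 : N ≤ (n : ℝ) ^ 2 / 4 := by linarith
  have hn0 : (0 : ℝ) ≤ n := Nat.cast_nonneg n
  have hn2 : (0 : ℝ) ≤ (n : ℝ) ^ 2 := by positivity
  have hm1 : min (η ^ 2 / 2) (η / 2) * (n : ℝ) ^ 2 ≤ η ^ 2 / 2 * (n : ℝ) ^ 2 :=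
    mul_le_mul_of_nonneg_right (min_le_left _ _) hn2
  have hm2 : min (η ^ 2 / 2) (η / 2) * (n : ℝ) ^ 2 ≤ η / 2 * (n : ℝ) ^ 2 :=
    mul_le_mul_of_nonneg_right (min_le_right _ _) hn2
  have e2 : (2 : ℝ) ^ (nfr x.1 x.2.1 x.2.2.1 x.2.2.2) = exp (log 2 * N) := by
    rw [← rpow_natCast, rpow_def_of_pos (by norm_num)]
  rw [e2, ← exp_add]
  refine exp_le_exp.2 ?_
  have hy : 0 ≤ 2 * (yq k x) ^ 2 / N := by positivity
  rcases h with h | h | h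
  · have h1 : (η * n) ^ 2 ≤ (((x.1 + x.2.2.1 : ℕ) : ℝ) - n / 2) ^ 2 := by
      rw [← sq_abs (((x.1 + x.2.2.1 : ℕ) : ℝ) - n / 2)]
      exact pow_le_pow_left₀ (by positivity) h.le 2
    have h2 : log 2 * N ≤ log 2 * ((n : ℝ) ^ 2 / 4 - η ^ 2 * (n : ℝ) ^ 2) :=
      mul_le_mul_of_nonneg_left (by rw [mul_pow] at h1; linarith) (by linarith)
    have h3 : 1 / 2 * (η ^ 2 * (n : ℝ) ^ 2) ≤ log 2 * (η ^ 2 * (n : ℝ) ^ 2) :=
      mul_le_mul_of_nonneg_right hlog.le (by positivity)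
    nlinarith
  · have h1 : (η * (n : ℝ) ^ 2) ^ 2 ≤ (yq k x) ^ 2 := by
      rw [← sq_abs (yq k x)]
      exact pow_le_pow_left₀ (by positivity) h.le 2
    have h2 : log 2 * N ≤ log 2 * ((n : ℝ) ^ 2 / 4) :=
      mul_le_mul_of_nonneg_left hN4 (by linarith)
    have h3 : η ^ 2 / 2 * (n : ℝ) ^ 2 ≤ 2 * (yq k x) ^ 2 / N := by
      rw [le_div_iff₀ hpos]
      have h4 : η ^ 2 / 2 * (n : ℝ) ^ 2 * N ≤ η ^ 2 / 2 * (n : ℝ) ^ 2 * ((n : ℝ) ^ 2 / 4) :=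
        mul_le_mul_of_nonneg_left hN4 (by positivity)
      have h5 : η ^ 2 / 2 * (n : ℝ) ^ 2 * ((n : ℝ) ^ 2 / 4) = (η * (n : ℝ) ^ 2) ^ 2 / 8 := by ring
      have h6 : 0 ≤ (η * (n : ℝ) ^ 2) ^ 2 := sq_nonneg _
      linarith
    linarith
  · have h2 : log 2 * N ≤ log 2 * ((n : ℝ) ^ 2 / 4 - η * (n : ℝ) ^ 2) :=
      mul_le_mul_of_nonneg_left (by linarith) (by linarith)
    have h3 : 1 / 2 * (η * (n : ℝ) ^ 2) ≤ log 2 * (η * (n : ℝ) ^ 2) :=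
      mul_le_mul_of_nonneg_right hlog.le (by positivity)
    nlinarith

open scoped Classical in
/-- Terms that are far from balanced, or far from their centre, or with `a d` large, are negligible.
(`(n+1)^4` terms, each at most `4^n 2^(n²/4 - η² n²)` resp. `4^n 2^(n²/4) exp(-8 κ² n²)`;
`F3_lb` with `θ = min(η², κ²)/10`.) -/
theorem neg_terms {η : ℝ} (hη : 0 < η) : ∃ δ : ℝ, 0 < δ ∧ ∃ c : ℝ, 0 < c ∧ ∃ n0 : ℕ, ∀ n ≥ n0,
    ∀ k : ℕ, Win δ n k →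
    (∑ x ∈ (CanQ n).filter (fun x => η * n < |((x.1 + x.2.2.1 : ℕ) : ℝ) - (n : ℝ) / 2| ∨
      η * (n : ℝ) ^ 2 < |yq k x| ∨ η * (n : ℝ) ^ 2 < (x.1 : ℝ) * x.2.2.2), (tmx x k : ℝ)) ≤
      exp (-(c * (n : ℝ) ^ 2)) * F3 n k := by
  obtain ⟨θ, hθdef⟩ : ∃ θ, θ = min (η ^ 2 / 2) (η / 2) := ⟨_, rfl⟩
  have hθ : 0 < θ := by
    rw [hθdef]
    exact lt_min (by positivity) (by positivity)
  obtain ⟨δ, hδ, n1, h1⟩ := F3_lb (θ := θ / 4) (by positivity)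
  obtain ⟨n2, h2⟩ := poly_le_exp (θ := θ / 4) (by positivity) 4
  obtain ⟨n3, h3⟩ := exists_nat_ge (8 / θ)
  refine ⟨δ, hδ, θ / 4, by positivity, max (max n1 n2) (max n3 1), fun n hn k hk => ?_⟩
  have hn1 : n1 ≤ n := ((le_max_left _ _).trans (le_max_left _ _)).trans hn
  have hn2 : n2 ≤ n := ((le_max_right _ _).trans (le_max_left _ _)).trans hn
  have hn3 : n3 ≤ n := ((le_max_left _ _).trans (le_max_right _ _)).trans hn
  have hn4 : 1 ≤ n := ((le_max_right _ _).trans (le_max_right _ _)).trans hn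
  have hnr : (1 : ℝ) ≤ n := by exact_mod_cast hn4
  have hn8 : 8 / θ ≤ n := h3.trans (by exact_mod_cast hn3)
  have hcard : ((CanQ n).card : ℝ) ≤ ((n : ℝ) ^ 2 + 1) ^ 4 := by
    have e1 : (CanQ n).card ≤ (n + 1) * ((n + 1) * ((n + 1) * (n + 1))) := by
      refine (Finset.card_filter_le _ _).trans ?_
      simp only [card_product, card_range]
      exact le_rfl
    have e2 : ((CanQ n).card : ℝ) ≤ ((n : ℝ) + 1) ^ 4 := by
      calc ((CanQ n).card : ℝ) ≤ (((n + 1) * ((n + 1) * ((n + 1) * (n + 1))) : ℕ) : ℝ) := by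
            exact_mod_cast e1
        _ = ((n : ℝ) + 1) ^ 4 := by
            push_cast
            ring
    refine e2.trans (pow_le_pow_left₀ (by positivity) ?_ 4)
    nlinarith
  have hterm : ∀ x ∈ (CanQ n).filter (fun x => η * n < |((x.1 + x.2.2.1 : ℕ) : ℝ) - (n : ℝ) / 2| ∨
      η * (n : ℝ) ^ 2 < |yq k x| ∨ η * (n : ℝ) ^ 2 < (x.1 : ℝ) * x.2.2.2),
      (tmx x k : ℝ) ≤ 4 ^ n * exp ((log 2 / 4 - θ) * (n : ℝ) ^ 2) := by
    intro x hx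
    rw [mem_filter] at hx
    rw [hθdef]
    exact WNeg2_term hη hx.1 hx.2
  have h4 : (4 : ℝ) ^ n ≤ exp (θ / 4 * (n : ℝ) ^ 2) := by
    rw [← rpow_natCast, rpow_def_of_pos (by norm_num)]
    refine exp_le_exp.2 ?_
    have e1 : log 4 ≤ 2 := by
      have e2 : log 4 = 2 * log 2 := by
        rw [show (4 : ℝ) = 2 ^ 2 by norm_num, Real.log_pow]
        norm_num
      have := Real.log_two_lt_d9
      linarith
    have e3 : 8 ≤ θ * n := by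
      rw [div_le_iff₀ hθ] at hn8
      linarith
    nlinarith
  calc _ ≤ ∑ x ∈ (CanQ n).filter (fun x => η * n < |((x.1 + x.2.2.1 : ℕ) : ℝ) - (n : ℝ) / 2| ∨
      η * (n : ℝ) ^ 2 < |yq k x| ∨ η * (n : ℝ) ^ 2 < (x.1 : ℝ) * x.2.2.2),
        (4 ^ n * exp ((log 2 / 4 - θ) * (n : ℝ) ^ 2)) := sum_le_sum hterm
    _ = (((CanQ n).filter (fun x => η * n < |((x.1 + x.2.2.1 : ℕ) : ℝ) - (n : ℝ) / 2| ∨
      η * (n : ℝ) ^ 2 < |yq k x| ∨ η * (n : ℝ) ^ 2 < (x.1 : ℝ) * x.2.2.2)).card : ℝ) *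
        (4 ^ n * exp ((log 2 / 4 - θ) * (n : ℝ) ^ 2)) := by rw [sum_const, nsmul_eq_mul]
    _ ≤ exp (θ / 4 * (n : ℝ) ^ 2) * (exp (θ / 4 * (n : ℝ) ^ 2) *
        exp ((log 2 / 4 - θ) * (n : ℝ) ^ 2)) := by
        refine mul_le_mul ?_ (mul_le_mul_of_nonneg_right h4 (exp_pos _).le) (by positivity)
          (exp_pos _).le
        refine le_trans ?_ (hcard.trans (h2 n hn2))
        exact Nat.cast_le.2 (Finset.card_filter_le _ _)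
    _ = exp (-(θ / 4 * (n : ℝ) ^ 2)) * exp ((log 2 / 4 - θ / 4) * (n : ℝ) ^ 2) := by
        rw [← exp_add, ← exp_add, ← exp_add]
        congr 1
        ring
    _ ≤ exp (-(θ / 4 * (n : ℝ) ^ 2)) * F3 n k :=
        mul_le_mul_of_nonneg_left (h1 n hn1 k hk) (exp_pos _).le

end Pool.Agent.H.MP_82502e_co
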