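import Mathlib

set_option autoImplicit false

/-!
# The window: a sign change lemma
-/

namespace Pool.Agent.H.MP_82502e_co

open Finset Real

theorem WP1_margin {F : ℝ → ℝ} (hF : Continuous F) {K : Set ℝ} (hK : IsCompact K)
    (h : ∀ t ∈ K, 0 < F t) : ∃ c : ℝ, 0 < c ∧ ∀ t ∈ K, c ≤ F t := by
  obtain ⟨a, ha, h'⟩ := hK.exists_forall_le' hF.continuousOn h
  exact ⟨a, ha, h'⟩

theorem WP1_neg {F D : ℝ → ℝ} (hF : Continuous F) (hD : Continuous D)
    (h : ∀ t, HasDerivAt F (D t) t) (hz : ∀ t, F t = 0 → D t < 0) {a b : ℝ} (hab : a < b)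
    (ha : F a ≤ 0) : F b < 0 := by
  have h1 : ∀ ⦃x⦄, x ∈ Set.Icc a b → F x ≤ (fun _ : ℝ => (0 : ℝ)) x :=
    image_le_of_deriv_right_lt_deriv_boundary (B := fun _ => (0 : ℝ)) (B' := fun _ => (0 : ℝ))
      hF.continuousOn (fun x _ => (h x).hasDerivWithinAt) ha (fun x => hasDerivAt_const x 0)
      (fun x _ hx => hz x hx)
  refine lt_of_le_of_ne (h1 (Set.right_mem_Icc.2 hab.le)) fun hb => ?_
  have hDb := hz b hb
  have h2 : ∀ᶠ t in nhds b, D t < 0 := hD.continuousAt.eventually_lt continuousAt_const hDb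
  obtain ⟨δ, hδ, h3⟩ := Metric.eventually_nhds_iff.1 h2
  set e := max a (b - δ / 2) with he
  have heb : e < b := max_lt hab (by linarith)
  have h4 : StrictAntiOn F (Set.Icc e b) := by
    refine strictAntiOn_of_deriv_neg (convex_Icc e b) hF.continuousOn ?_
    intro x hx
    rw [interior_Icc] at hx
    rw [(h x).deriv]
    apply h3
    rw [Real.dist_eq, abs_lt]
    have : b - δ / 2 ≤ e := le_max_right _ _
    constructor <;> linarith [hx.1, hx.2]
  have h5 := h4 (Set.left_mem_Icc.2 heb.le) (Set.right_mem_Icc.2 heb.le) heb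
  have h6 := h1 (x := e) ⟨le_max_left _ _, heb.le⟩
  simp only at h6
  linarith

/-- A continuous function with derivative negative at every zero changes sign at most once on `[-T, T]` (from `+` to `-`), with uniform margins. -/
theorem sign_change {F D : ℝ → ℝ} (hF : Continuous F) (hD : Continuous D)
    (h : ∀ t, HasDerivAt F (D t) t) (hz : ∀ t, F t = 0 → D t < 0) (T : ℝ) (hT : 0 < T) :
    ∃ ts η c : ℝ, 0 < η ∧ 0 < c ∧
      (∀ t, |t| ≤ T → t ≤ ts - η → c ≤ F t) ∧ (∀ t, |t| ≤ T → ts + η ≤ t → F t ≤ -c) ∧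
      ∀ t, |t| ≤ T → |t - ts| ≤ η → D t ≤ -c := by
  by_cases hzero : ∃ ts, F ts = 0
  · obtain ⟨ts, hts⟩ := hzero
    have hpos : ∀ t, t < ts → 0 < F t := by
      intro t ht
      by_contra hn
      have := WP1_neg hF hD h hz ht (not_lt.1 hn)
      linarith
    have hneg : ∀ t, ts < t → F t < 0 := fun t ht => WP1_neg hF hD h hz ht hts.le
    have hDts := hz ts hts
    have h2 : ∀ᶠ t in nhds ts, D t < D ts / 2 :=
      hD.continuousAt.eventually_lt continuousAt_const (by linarith)
    obtain ⟨δ, hδ, h3⟩ := Metric.eventually_nhds_iff.1 h2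
    obtain ⟨c1, hc1, h4⟩ := WP1_margin hF (isCompact_Icc (a := -T) (b := min T (ts - δ / 2)))
      (fun t ht => hpos t (by
        have := ht.2.trans (min_le_right _ _)
        linarith))
    obtain ⟨c2, hc2, h5⟩ := WP1_margin (F := fun t => -F t) hF.neg
      (isCompact_Icc (a := max (-T) (ts + δ / 2)) (b := T))
      (fun t ht => by
        have h6 := (le_max_right (-T) (ts + δ / 2)).trans ht.1
        have := hneg t (by linarith)
        linarith)
    refine ⟨ts, δ / 2, min (min c1 c2) (-(D ts / 2)), by linarith, by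
      refine lt_min (lt_min hc1 hc2) (by linarith), ?_, ?_, ?_⟩
    · intro t ht h7
      have := h4 t ⟨(abs_le.1 ht).1, le_min (abs_le.1 ht).2 h7⟩
      exact ((min_le_left _ _).trans (min_le_left _ _)).trans this
    · intro t ht h7
      have := h5 t ⟨max_le (abs_le.1 ht).1 h7, (abs_le.1 ht).2⟩
      have h8 := ((min_le_left (min c1 c2) (-(D ts / 2))).trans (min_le_right _ _)).trans this
      linarith
    · intro t _ h7
      have h8 : D t < D ts / 2 := h3 (by rw [Real.dist_eq]; linarith)
      have h9 := min_le_right (min c1 c2) (-(D ts / 2))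
      linarith
  · push Not at hzero
    by_cases hs : 0 < F 0
    · have hpos : ∀ t, 0 < F t := by
        intro t
        by_contra hn
        rcases lt_or_ge 0 t with h1 | h1
        · obtain ⟨z, -, hz'⟩ := intermediate_value_Icc' h1.le hF.continuousOn
            (show (0 : ℝ) ∈ Set.Icc (F t) (F 0) from ⟨not_lt.1 hn, hs.le⟩)
          exact hzero z hz'
        · obtain ⟨z, -, hz'⟩ := intermediate_value_Icc h1 hF.continuousOn
            (show (0 : ℝ) ∈ Set.Icc (F t) (F 0) from ⟨not_lt.1 hn, hs.le⟩)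
          exact hzero z hz'
      obtain ⟨c, hc, h4⟩ := WP1_margin hF (isCompact_Icc (a := -T) (b := T)) fun t _ => hpos t
      refine ⟨T + 2, 1, c, one_pos, hc, ?_, ?_, ?_⟩
      · intro t ht _
        exact h4 t (abs_le.1 ht)
      · intro t ht h7
        linarith [(abs_le.1 ht).2]
      · intro t ht h7
        linarith [(abs_le.1 ht).2, (abs_le.1 h7).1]
    · have hneg : ∀ t, F t < 0 := by
        have hs' : F 0 < 0 := lt_of_le_of_ne (not_lt.1 hs) (hzero 0)
        intro t
        by_contra hn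
        rcases lt_or_ge 0 t with h1 | h1
        · obtain ⟨z, -, hz'⟩ := intermediate_value_Icc h1.le hF.continuousOn
            (show (0 : ℝ) ∈ Set.Icc (F 0) (F t) from ⟨hs'.le, not_lt.1 hn⟩)
          exact hzero z hz'
        · obtain ⟨z, -, hz'⟩ := intermediate_value_Icc' h1 hF.continuousOn
            (show (0 : ℝ) ∈ Set.Icc (F 0) (F t) from ⟨hs'.le, not_lt.1 hn⟩)
          exact hzero z hz'
      obtain ⟨c, hc, h4⟩ := WP1_margin (F := fun t => -F t) hF.neg
        (isCompact_Icc (a := -T) (b := T)) fun t _ => by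
          have := hneg t
          linarith
      refine ⟨-T - 2, 1, c, one_pos, hc, ?_, ?_, ?_⟩
      · intro t ht h7
        linarith [(abs_le.1 ht).1]
      · intro t ht h7
        have := h4 t (abs_le.1 ht)
        linarith
      · intro t ht h7
        linarith [(abs_le.1 ht).1, (abs_le.1 h7).2]

end Pool.Agent.H.MP_82502e_co
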