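import Pool.Agent.H.MP_82502e_co.WP1
import Pool.Agent.H.MP_82502e_co.WI4
import Pool.Agent.H.MP_82502e_co.WL5
import Pool.Agent.H.MP_82502e_co.WFour2

set_option autoImplicit false

/-!
# The window: zone 2
-/

namespace Pool.Agent.H.MP_82502e_co

open Finset Real

theorem WP2_Zn_pos (n : ℕ) : 0 < Zn n := by
  unfold Zn cb
  have h1 : 0 < n.choose (n / 2) := Nat.choose_pos (Nat.div_le_self _ _)
  have h2 : 0 < (n / 2 * (n - n / 2)).choose (n / 2 * (n - n / 2) / 2) :=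
    Nat.choose_pos (Nat.div_le_self _ _)
  have h1' : (0 : ℝ) < (n.choose (n / 2) : ℝ) := by exact_mod_cast h1
  have h2' : (0 : ℝ) < ((n / 2 * (n - n / 2)).choose (n / 2 * (n - n / 2) / 2) : ℝ) := by
    exact_mod_cast h2
  positivity

theorem WP2_small {c' C c : ℝ} (hc' : 0 < c') (hc : 0 < c) : ∃ n0 : ℕ, ∀ n ≥ n0,
    (1 / (n : ℝ) ^ 3 + 2 * exp (-(c' * n))) * C * (n : ℝ) ^ 2 ≤ c := by
  have h1 : Filter.Tendsto (fun x : ℝ => (c' * x) ^ 2 * exp (-(c' * x))) Filter.atTop (nhds 0) :=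
    (tendsto_pow_mul_exp_neg_atTop_nhds_zero 2).comp
      (Filter.tendsto_id.const_mul_atTop hc')
  have h2 : Filter.Tendsto (fun x : ℝ => x⁻¹) Filter.atTop (nhds 0) := tendsto_inv_atTop_zero
  have h3 : Filter.Tendsto (fun x : ℝ => C * x⁻¹ + 2 * C / c' ^ 2 * ((c' * x) ^ 2 * exp (-(c' * x))))
      Filter.atTop (nhds 0) := by
    have := (h2.const_mul C).add (h1.const_mul (2 * C / c' ^ 2))
    simpa using this
  have h4 : ∀ᶠ x : ℝ in Filter.atTop,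
      C * x⁻¹ + 2 * C / c' ^ 2 * ((c' * x) ^ 2 * exp (-(c' * x))) < c :=
    h3.eventually_lt_const hc
  obtain ⟨x0, hx0⟩ := Filter.eventually_atTop.1 h4
  refine ⟨max 1 ⌈x0⌉₊, fun n hn => ?_⟩
  have hn1 : 1 ≤ n := le_trans (le_max_left _ _) hn
  have hn2 : x0 ≤ n := (Nat.le_ceil x0).trans (by exact_mod_cast le_trans (le_max_right _ _) hn)
  have h5 := hx0 n hn2
  have hnp : (0 : ℝ) < n := by exact_mod_cast hn1
  have h6 : (1 / (n : ℝ) ^ 3 + 2 * exp (-(c' * n))) * C * (n : ℝ) ^ 2 =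
      C * (n : ℝ)⁻¹ + 2 * C / c' ^ 2 * ((c' * n) ^ 2 * exp (-(c' * n))) := by
    field_simp
  rw [h6]
  exact h5.le

theorem WP2_parity {T : ℝ} (hT : 0 < T) (e : ℕ) (he : e ≤ 1) : ∃ n0 : ℕ, ∀ n ≥ n0, n % 2 = e →
    ∃ k0 : ℕ, ∀ k : ℕ, |(k : ℝ) - 3 / 16 * (n : ℝ) ^ 2| ≤ T * n →
    (k < k0 → (1 + 1 / (n : ℝ) ^ 3) * (Fs n k : ℝ) ≤ Fs n (k + 1)) ∧
    (k0 < k → (Fs n (k + 1) : ℝ) ≤ (1 - 1 / (n : ℝ) ^ 3) * Fs n k) := by
  classical
  obtain ⟨-, hPc, hPd, hPz⟩ := Phi_props e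
  obtain ⟨ts, η, c, hη, hc, hs1, hs2, hs3⟩ := sign_change (hPc 1 (by norm_num)) (hPc 2 le_rfl) hPd hPz
    (4 * T + 1) (by linarith)
  obtain ⟨C0, hC0⟩ := isCompact_Icc.exists_bound_of_continuousOn (s := Set.Icc (-(4 * T + 1)) (4 * T + 1))
    (hPc 0 (by norm_num)).continuousOn
  have hC1 : 0 < |C0| + 1 := by positivity
  obtain ⟨n1, hn1⟩ := lim_uniform e he 0 (by norm_num) (T := 4 * T + 1) (ε := 1) one_pos
  obtain ⟨n2, hn2⟩ := lim_uniform e he 1 (by norm_num) (T := 4 * T + 1) (ε := c / 2) (by linarith)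
  obtain ⟨n3, hn3⟩ := lim_uniform e he 2 le_rfl (T := 4 * T + 1) (ε := c / 2) (by linarith)
  obtain ⟨δ, hδ, c', hc', n4, hn4⟩ := F4_le (ε0 := 1 / 32) (by norm_num)
  obtain ⟨n5, hn5⟩ := WP2_small (c' := c') (C := |C0| + 1) (c := 4 * c) hc' (by linarith)
  obtain ⟨n6, hn6⟩ := exists_nat_ge (max (32 * T) ((T + 1) / δ))
  refine ⟨max 4 (max n1 (max n2 (max n3 (max n4 (max n5 n6))))), fun n hn he' => ?_⟩
  simp only [ge_iff_le, max_le_iff] at hn
  obtain ⟨m0, m1, m2, m3, m4, m5, m6⟩ := hn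
  have hn4' : (4 : ℝ) ≤ n := by exact_mod_cast m0
  have hnp : (0 : ℝ) < n := by linarith
  have hn6' : max (32 * T) ((T + 1) / δ) ≤ (n : ℝ) := hn6.trans (by exact_mod_cast m6)
  have hT1 : 32 * T ≤ n := (le_max_left _ _).trans hn6'
  have hT2 : T + 1 ≤ δ * n := by
    have := (le_max_right _ _).trans hn6'
    rwa [div_le_iff₀ hδ, mul_comm] at this
  have hZ := WP2_Zn_pos n
  -- the zone
  have htt : ∀ k : ℕ, |(k : ℝ) - 3 / 16 * (n : ℝ) ^ 2| ≤ T * n → |tt n k| ≤ 4 * T := by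
    intro k hk
    unfold tt
    rw [abs_div, abs_of_pos (by linarith : (0 : ℝ) < (n : ℝ) / 4), div_le_iff₀ (by linarith)]
    linarith
  have htt1 : ∀ k : ℕ, tt n (k + 1) = tt n k + 4 / n := by
    intro k
    unfold tt
    push_cast
    field_simp
    ring
  have h4n : (4 : ℝ) / n ≤ 1 := by rw [div_le_one hnp]; exact hn4'
  have h4n0 : (0 : ℝ) < 4 / n := by positivity
  -- abbreviations
  obtain ⟨D, hD⟩ : ∃ D : ℕ → ℝ, ∀ k, D k = (F3 n (k + 1) : ℝ) - F3 n k := ⟨_, fun _ => rfl⟩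
  obtain ⟨h, hh⟩ : ∃ h : ℝ, h = 4 * c * Zn n / (n : ℝ) ^ 2 := ⟨_, rfl⟩
  have hhp : 0 < h := by rw [hh]; positivity
  have hlim1 : ∀ k : ℕ, |tt n k| ≤ 4 * T + 1 → |(n : ℝ) / 4 * D k / Zn n - Phi e 1 (tt n k)| ≤ c / 2 := by
    intro k hk
    have h1 := hn2 n m2 he' k hk
    have h2 : dF (F3 n) 1 k = D k := by rw [hD]; simp [dF]
    rw [h2, pow_one] at h1
    exact h1
  have hlim2 : ∀ k : ℕ, |tt n k| ≤ 4 * T + 1 →
      |((n : ℝ) / 4) ^ 2 * (D (k + 1) - D k) / Zn n - Phi e 2 (tt n k)| ≤ c / 2 := by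
    intro k hk
    have h1 := hn3 n m3 he' k hk
    have h2 : dF (F3 n) 2 k = D (k + 1) - D k := by rw [hD, hD]; simp [dF]; ring
    rw [h2] at h1
    exact h1
  have hbd : ∀ k : ℕ, |tt n k| ≤ 4 * T + 1 → (F3 n k : ℝ) ≤ (|C0| + 1) * Zn n := by
    intro k hk
    have h1 := hn1 n m1 he' k hk
    have h2 : dF (F3 n) 0 k = F3 n k := by simp [dF]
    rw [h2, pow_zero, one_mul] at h1
    have h3 := hC0 (tt n k) (abs_le.1 hk)
    rw [Real.norm_eq_abs] at h3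
    have h4 : (F3 n k : ℝ) / Zn n ≤ |C0| + 1 := by
      have h5 := (abs_le.1 h1).2
      have h6 := (abs_le.1 h3).2
      have h7 := le_abs_self C0
      linarith
    rwa [div_le_iff₀ hZ] at h4
  have hA : ∀ k : ℕ, |tt n k| ≤ 4 * T + 1 → tt n k ≤ ts - η → h ≤ D k := by
    intro k hk hk1
    have h1 := (abs_le.1 (hlim1 k hk)).1
    have h2 := hs1 _ hk hk1
    have h3 : c / 2 ≤ (n : ℝ) / 4 * D k / Zn n := by linarith
    rw [le_div_iff₀ hZ] at h3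
    rw [hh, div_le_iff₀ (by positivity)]
    have h4 : 4 * (c / 2 * Zn n) ≤ n * D k := by linarith
    have h5 : n * (4 * (c / 2 * Zn n)) ≤ n * (n * D k) := mul_le_mul_of_nonneg_left h4 hnp.le
    have h6 : 4 * (4 * (c / 2 * Zn n)) ≤ n * (4 * (c / 2 * Zn n)) :=
      mul_le_mul_of_nonneg_right hn4' (by positivity)
    have h7 : 0 < c * Zn n := by positivity
    nlinarith
  have hB : ∀ k : ℕ, |tt n k| ≤ 4 * T + 1 → ts + η ≤ tt n k → D k ≤ -h := by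
    intro k hk hk1
    have h1 := (abs_le.1 (hlim1 k hk)).2
    have h2 := hs2 _ hk hk1
    have h3 : (n : ℝ) / 4 * D k / Zn n ≤ -(c / 2) := by linarith
    rw [div_le_iff₀ hZ] at h3
    have h3' : c / 2 * Zn n ≤ (n : ℝ) / 4 * (-D k) := by linarith
    have h4 : 4 * (c / 2 * Zn n) ≤ n * (-D k) := by linarith
    have h5 : n * (4 * (c / 2 * Zn n)) ≤ n * (n * (-D k)) := mul_le_mul_of_nonneg_left h4 hnp.le
    have h6 : 4 * (4 * (c / 2 * Zn n)) ≤ n * (4 * (c / 2 * Zn n)) :=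
      mul_le_mul_of_nonneg_right hn4' (by positivity)
    have h7 : 0 < c * Zn n := by positivity
    have h8 : h ≤ -D k := by
      rw [hh, div_le_iff₀ (by positivity)]
      nlinarith
    linarith
  have hC : ∀ k : ℕ, |tt n k| ≤ 4 * T + 1 → |tt n k - ts| ≤ η → D (k + 1) - D k ≤ -(2 * h) := by
    intro k hk hk1
    have h1 := (abs_le.1 (hlim2 k hk)).2
    have h2 := hs3 _ hk hk1
    have h3 : ((n : ℝ) / 4) ^ 2 * (D (k + 1) - D k) / Zn n ≤ -(c / 2) := by linarith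
    rw [div_le_iff₀ hZ] at h3
    have h8 : 2 * h ≤ -(D (k + 1) - D k) := by
      rw [hh, mul_div_assoc', div_le_iff₀ (by positivity)]
      nlinarith
    linarith
  -- the step
  have hstep : ∀ j : ℕ, |(j : ℝ) - 3 / 16 * (n : ℝ) ^ 2| ≤ T * n → D j < h → D (j + 1) ≤ -h := by
    intro j hj hDj
    have h1 := htt j hj
    have h1' : |tt n j| ≤ 4 * T + 1 := by linarith
    have h2 : ts - η < tt n j := by
      by_contra hcon
      exact absurd (hA j h1' (not_lt.1 hcon)) (not_le.2 hDj)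
    rcases le_or_gt (tt n j) (ts + η) with h3 | h3
    · have h4 := hC j h1' (abs_le.2 ⟨by linarith, by linarith⟩)
      linarith
    · refine hB (j + 1) ?_ ?_
      · rw [htt1, abs_le]
        have h5 := abs_le.1 h1
        constructor <;> linarith [h5.1, h5.2]
      · rw [htt1]; linarith
  -- consequences for `Fs`
  obtain ⟨E, hE⟩ : ∃ E : ℝ, E = exp (-(c' * n)) := ⟨_, rfl⟩
  have hE0 : 0 < E := by rw [hE]; exact exp_pos _
  have hsmall : (1 / (n : ℝ) ^ 3 + 2 * E) * ((|C0| + 1) * Zn n) ≤ h := by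
    have h1 := hn5 n m5
    rw [← hE] at h1
    rw [hh, le_div_iff₀ (by positivity)]
    have h2 := mul_le_mul_of_nonneg_right h1 hZ.le
    linarith
  have hF4 : ∀ k : ℕ, (1 / 8 + 1 / 32) * (n : ℝ) ^ 2 ≤ k → (k : ℝ) ≤ 3 / 16 * (n : ℝ) ^ 2 + T * n + 1 →
      (F4 n k : ℝ) ≤ E * F3 n k := by
    intro k hk1 hk2
    rw [hE]
    refine hn4 n m4 k ⟨?_, ?_⟩ hk1
    · have : 0 ≤ δ * (n : ℝ) ^ 2 := by positivity
      nlinarith [sq_nonneg (n : ℝ)]
    · have h2 : (T + 1) * n ≤ δ * n * n := mul_le_mul_of_nonneg_right hT2 hnp.le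
      nlinarith
  have hlow : ∀ k : ℕ, |(k : ℝ) - 3 / 16 * (n : ℝ) ^ 2| ≤ T * n →
      (1 / 8 + 1 / 32) * (n : ℝ) ^ 2 ≤ k := by
    intro k hk
    have h1 := (abs_le.1 hk).1
    have h2 : 32 * T * n ≤ n * n := mul_le_mul_of_nonneg_right hT1 hnp.le
    nlinarith
  have hn3p : 0 < 1 / (n : ℝ) ^ 3 := by positivity
  have hn3le : 1 / (n : ℝ) ^ 3 ≤ 1 := by
    rw [div_le_one (by positivity)]
    exact one_le_pow₀ (by linarith)
  have hup : ∀ k : ℕ, |(k : ℝ) - 3 / 16 * (n : ℝ) ^ 2| ≤ T * n → h ≤ D k →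
      (1 + 1 / (n : ℝ) ^ 3) * (Fs n k : ℝ) ≤ Fs n (k + 1) := by
    intro k hk hDk
    rw [Fs_split, Fs_split]
    push_cast
    have h1 := hF4 k (hlow k hk) (by linarith [(abs_le.1 hk).2])
    have h2 := hbd k (by linarith [htt k hk])
    rw [hD] at hDk
    have h3 : (0 : ℝ) ≤ F4 n (k + 1) := Nat.cast_nonneg _
    have h4 : (0 : ℝ) ≤ F3 n k := Nat.cast_nonneg _
    have h5 : (1 / (n : ℝ) ^ 3 + 2 * E) * (F3 n k : ℝ) ≤ h :=
      (mul_le_mul_of_nonneg_left h2 (by positivity)).trans hsmall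
    have h6 : (1 + 1 / (n : ℝ) ^ 3) * (F4 n k : ℝ) ≤ 2 * (E * F3 n k) := by
      have h7 : (0 : ℝ) ≤ F4 n k := Nat.cast_nonneg _
      calc (1 + 1 / (n : ℝ) ^ 3) * (F4 n k : ℝ) ≤ 2 * (F4 n k : ℝ) :=
            mul_le_mul_of_nonneg_right (by linarith) h7
        _ ≤ 2 * (E * F3 n k) := by linarith
    nlinarith
  have hdown : ∀ k : ℕ, |(k : ℝ) - 3 / 16 * (n : ℝ) ^ 2| ≤ T * n → D k ≤ -h →
      (Fs n (k + 1) : ℝ) ≤ (1 - 1 / (n : ℝ) ^ 3) * Fs n k := by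
    intro k hk hDk
    rw [Fs_split, Fs_split]
    push_cast
    have h1 := hF4 (k + 1) (by push_cast; linarith [hlow k hk])
      (by push_cast; linarith [(abs_le.1 hk).2])
    have h2 := hbd k (by linarith [htt k hk])
    rw [hD] at hDk
    have h3 : (0 : ℝ) ≤ F4 n k := Nat.cast_nonneg _
    have h4 : (0 : ℝ) ≤ F3 n k := Nat.cast_nonneg _
    have h5 : (1 / (n : ℝ) ^ 3 + 2 * E) * (F3 n k : ℝ) ≤ h :=
      (mul_le_mul_of_nonneg_left h2 (by positivity)).trans hsmall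
    have h6 : E * (F3 n (k + 1) : ℝ) ≤ E * F3 n k :=
      mul_le_mul_of_nonneg_left (by linarith) hE0.le
    have h7 : 0 ≤ (1 - 1 / (n : ℝ) ^ 3) * (F4 n k : ℝ) := mul_nonneg (by linarith) h3
    have h8 : 0 ≤ E * (F3 n k : ℝ) := by positivity
    nlinarith
  by_cases hex : ∃ k : ℕ, |(k : ℝ) - 3 / 16 * (n : ℝ) ^ 2| ≤ T * n ∧ D k < h
  · refine ⟨Nat.find hex, fun k hk => ⟨fun hlt => ?_, fun hlt => ?_⟩⟩
    · refine hup k hk ?_
      have h1 := Nat.find_min hex hlt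
      by_contra hcon
      exact h1 ⟨hk, not_le.1 hcon⟩
    · refine hdown k hk ?_
      obtain ⟨h1, h2⟩ := Nat.find_spec hex
      have hconv : ∀ j : ℕ, Nat.find hex ≤ j → j ≤ k → |(j : ℝ) - 3 / 16 * (n : ℝ) ^ 2| ≤ T * n := by
        intro j hj1 hj2
        have h3 : ((Nat.find hex : ℕ) : ℝ) ≤ j := by exact_mod_cast hj1
        have h4 : (j : ℝ) ≤ k := by exact_mod_cast hj2
        rw [abs_le] at h1 hk ⊢
        constructor <;> linarith [h1.1, hk.2]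
      have hind : ∀ j : ℕ, Nat.find hex + 1 ≤ j → j ≤ k → D j ≤ -h := by
        intro j hj
        induction j, hj using Nat.le_induction with
        | base => intro _; exact hstep _ h1 h2
        | succ j hj ih =>
          intro hjk
          exact hstep j (hconv j (by omega) (by omega)) ((ih (by omega)).trans_lt (by linarith))
      exact hind k hlt le_rfl
  · push Not at hex
    refine ⟨⌈3 / 16 * (n : ℝ) ^ 2 + T * n⌉₊, fun k hk => ⟨fun _ => hup k hk (hex k hk), fun hlt => ?_⟩⟩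
    exfalso
    have h1 := Nat.lt_of_ceil_lt hlt
    linarith [(abs_le.1 hk).2]

/-- **Zone 2.** For each parity `e`: `sign_change` for `Phi e 1`, `Phi e 2` on `[-4T - 1, 4T + 1]`; by `lim_uniform` (`r = 0,1,2`) for large `n`: `F3 n (k+1) - F3 n k ≥ (c/2) Zn/(n/4)` for `t ≤ t* - η`, `≤ -(c/2) Zn/(n/4)` for `t ≥ t* + η`, and the second difference is
`≤ -(c/2) Zn/(n/4)²` in between; so `k ↦ F3 n (k+1) - F3 n k` is strictly decreasing there with steps `≥ (c/2) Zn/(n/4)²`: at most one `k = k0` has `|F3 n (k+1) - F3 n k| < (c/4) Zn/(n/4)²` (take `k0` = the first `k` of the zone with `F3 n (k+1) - F3 n k < (c/4) Zn/(n/4)²`; the next ones are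
`≤ -(c/4)..`). `F3 n k ≤ C Zn` and `F4_le` at `k`, `k + 1`: the sign and the margin `n^(-3)` pass to `Fs`. (Both parities: `n0` is the maximum.) -/
theorem zone2 {T : ℝ} (hT : 0 < T) : ∃ n0 : ℕ, ∀ n ≥ n0, ∃ k0 : ℕ, ∀ k : ℕ,
    |(k : ℝ) - 3 / 16 * (n : ℝ) ^ 2| ≤ T * n →
    (k < k0 → (1 + 1 / (n : ℝ) ^ 3) * (Fs n k : ℝ) ≤ Fs n (k + 1)) ∧
    (k0 < k → (Fs n (k + 1) : ℝ) ≤ (1 - 1 / (n : ℝ) ^ 3) * Fs n k) := by
  obtain ⟨n0, h0⟩ := WP2_parity hT 0 (by norm_num)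
  obtain ⟨n1, h1⟩ := WP2_parity hT 1 le_rfl
  refine ⟨max n0 n1, fun n hn => ?_⟩
  rcases Nat.mod_two_eq_zero_or_one n with h | h
  · exact h0 n ((le_max_left _ _).trans hn) h
  · exact h1 n ((le_max_right _ _).trans hn) h

end Pool.Agent.H.MP_82502e_co
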