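import Pool.Agent.H.MP_82502e_co.WTyp
import Pool.Agent.H.MP_82502e_co.WFam

set_option autoImplicit false

/-!
# The window: exactness
-/

namespace Pool.Agent.H.MP_82502e_co

open Finset

variable {n : ℕ}

open scoped Classical in
theorem WTyp2_abs (a b c d : Prop) (hab : ¬ (a ∧ b)) (hcd : ¬ (c ∧ d)) (hac : a → c)
    (hbd : b → d) :
    ((if a then 0 else if b then 4 else if c then 1 else if d then 3 else 2 : Fin 5) = 0 ∧
      a ∧ ¬ b ∧ c ∧ ¬ d) ∨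
    ((if a then 0 else if b then 4 else if c then 1 else if d then 3 else 2 : Fin 5) = 1 ∧
      ¬ a ∧ ¬ b ∧ c ∧ ¬ d) ∨
    ((if a then 0 else if b then 4 else if c then 1 else if d then 3 else 2 : Fin 5) = 2 ∧
      ¬ a ∧ ¬ b ∧ ¬ c ∧ ¬ d) ∨
    ((if a then 0 else if b then 4 else if c then 1 else if d then 3 else 2 : Fin 5) = 3 ∧
      ¬ a ∧ ¬ b ∧ ¬ c ∧ d) ∨
    ((if a then 0 else if b then 4 else if c then 1 else if d then 3 else 2 : Fin 5) = 4 ∧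
      ¬ a ∧ b ∧ ¬ c ∧ d) := by
  by_cases ha : a <;> by_cases hb : b <;> by_cases hc : c <;> by_cases hd : d <;> simp_all

/-- The five types in terms of the four conditions. -/
theorem WTyp2_char {r : ℝ} {g : Fin n → Fin 3} {S : Finset (Fin n × Fin n)} {v : Fin n}
    (hab : ¬ (r ≤ ((Up S v ∩ cl g 0).card : ℝ) ∧ r ≤ ((Dn S v ∩ cl g 2).card : ℝ)))
    (hcd : ¬ (r ≤ ((Up S v ∩ cl g 1).card : ℝ) ∧ r ≤ ((Dn S v ∩ cl g 1).card : ℝ)))
    (hac : r ≤ ((Up S v ∩ cl g 0).card : ℝ) → r ≤ ((Up S v ∩ cl g 1).card : ℝ))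
    (hbd : r ≤ ((Dn S v ∩ cl g 2).card : ℝ) → r ≤ ((Dn S v ∩ cl g 1).card : ℝ)) :
    (typv r g S v = 0 ∧ r ≤ ((Up S v ∩ cl g 0).card : ℝ) ∧ ¬ r ≤ ((Dn S v ∩ cl g 2).card : ℝ) ∧
      r ≤ ((Up S v ∩ cl g 1).card : ℝ) ∧ ¬ r ≤ ((Dn S v ∩ cl g 1).card : ℝ)) ∨
    (typv r g S v = 1 ∧ ¬ r ≤ ((Up S v ∩ cl g 0).card : ℝ) ∧ ¬ r ≤ ((Dn S v ∩ cl g 2).card : ℝ) ∧
      r ≤ ((Up S v ∩ cl g 1).card : ℝ) ∧ ¬ r ≤ ((Dn S v ∩ cl g 1).card : ℝ)) ∨
    (typv r g S v = 2 ∧ ¬ r ≤ ((Up S v ∩ cl g 0).card : ℝ) ∧ ¬ r ≤ ((Dn S v ∩ cl g 2).card : ℝ) ∧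
      ¬ r ≤ ((Up S v ∩ cl g 1).card : ℝ) ∧ ¬ r ≤ ((Dn S v ∩ cl g 1).card : ℝ)) ∨
    (typv r g S v = 3 ∧ ¬ r ≤ ((Up S v ∩ cl g 0).card : ℝ) ∧ ¬ r ≤ ((Dn S v ∩ cl g 2).card : ℝ) ∧
      ¬ r ≤ ((Up S v ∩ cl g 1).card : ℝ) ∧ r ≤ ((Dn S v ∩ cl g 1).card : ℝ)) ∨
    (typv r g S v = 4 ∧ ¬ r ≤ ((Up S v ∩ cl g 0).card : ℝ) ∧ r ≤ ((Dn S v ∩ cl g 2).card : ℝ) ∧
      ¬ r ≤ ((Up S v ∩ cl g 1).card : ℝ) ∧ r ≤ ((Dn S v ∩ cl g 1).card : ℝ)) := by
  unfold typv typ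
  exact WTyp2_abs _ _ _ _ hab hcd hac hbd

/-- A common element of `Up u` and `Dn v`. -/
theorem WTyp2_common {r : ℝ} {S : Finset (Fin n × Fin n)} (hS : IsPO S) {M A B : Finset (Fin n)}
    {u v : Fin n} (hA : ∀ w ∈ A, (u, w) ∈ S) (hB : ∀ w ∈ B, (w, v) ∈ S)
    (h1 : ((M \ A).card : ℝ) < r) (h2 : r ≤ ((B ∩ M).card : ℝ)) : (u, v) ∈ S := by
  by_contra hcon
  have h3 : B ∩ M ⊆ M \ A := by
    intro w hw
    rw [mem_inter] at hw
    rw [mem_sdiff]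
    exact ⟨hw.2, fun hwA => hcon (hS.2 u w v (hA w hwA) (hB w hw.1))⟩
  have h4 : ((B ∩ M).card : ℝ) ≤ ((M \ A).card : ℝ) := by exact_mod_cast card_le_card h3
  linarith

/-- **Exactness.** Without excluded events the types are layers.
Proof. Let `t = typv`. (i) `(v,u) ∈ S` and `t u < t v` is impossible: `Up u ⊆ Up v`, `Dn v ⊆ Dn u`. `t u = 0`: `|Up v ∩ X| ≥ τν`, `t v = 0`. `t v = 4`: `|Dn u ∩ Y| ≥ τν` so (facts)
`|Up u ∩ X| < τν` and `t u = 4`. `t u = 1`, `t v ∈ {2,3}`: `|Up v ∩ M| ≥ τν`, and `t v = 3` has `|Dn v ∩ M| ≥ τν`, impossible; `t v = 2` has `|Up v ∩ M| < τν`. `t u = 2`, `t v = 3`: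
`|Dn u ∩ M| ≥ τν`, no. (ii) `(t u, t v) ∈ {(0,3), (1,4), (0,4)}`: `Up u ∩ Dn v ∩ M` is nonempty (facts), so `(u,v) ∈ S`.
(iii) So (no `E2`) `(u,v) ∈ S → t u < t v` and `t u + 2 ≤ t v → (u,v) ∈ S`. (iv) `|X| + |Y| = n - |M| > ν/4` so `|X| ≥ ν/8` or `|Y| ≥ ν/8`; by no `E1` type `0` or type `4` does not occur:
`lam = t` resp. `lam = t - 1` (values in `Fin 4`). -/
theorem exact_lay {τ : ℝ} (hτ : 0 < τ) (hτ1 : τ ≤ 1 / 100) {ε : ℝ} (hε : 0 < ε)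
    (hετ : ε ≤ τ ^ 2 / 100) : ∃ n0 : ℕ, ∀ n ≥ n0, ∀ (S : Finset (Fin n × Fin n))
    (g : Fin n → Fin 3), IsPO S → GoodP n ε τ 0 S g →
    (∀ v, ¬ E1 n (τ * n) g S v) → (∀ u v, ¬ E2 (τ * n) g S u v) →
    ∃ lam : Fin n → Fin 4, S ∈ Lay lam := by
  obtain ⟨ν0, hν0, hF⟩ := typ_facts hτ hτ1 hε hετ
  refine ⟨⌈ν0⌉₊, fun n hn S g hS hG hE1 hE2 => ?_⟩
  have hn' : ν0 ≤ (n : ℝ) := (Nat.le_ceil ν0).trans (by exact_mod_cast hn)
  have hnpos : (0 : ℝ) < n := lt_of_lt_of_le hν0 hn'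
  have hF' := hF n hn' 0 (by norm_num) n S g hS hG
  set r : ℝ := τ * n with hr
  have hr0 : 0 < r := mul_pos hτ hnpos
  have hr1 : r ≤ (n : ℝ) / 100 := by
    rw [hr]
    nlinarith
  have hM := abs_le.1 hG.mid
  -- the implications
  have hac : ∀ v, r ≤ ((Up S v ∩ cl g 0).card : ℝ) → r ≤ ((Up S v ∩ cl g 1).card : ℝ) := by
    intro v hv
    have h1 := (hF' v).1 hv
    have h2 : (cl g 1 \ Up S v).card + (Up S v ∩ cl g 1).card = (cl g 1).card := by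
      rw [inter_comm]
      exact card_sdiff_add_card_inter _ _
    have h3 : ((cl g 1 \ Up S v).card : ℝ) + ((Up S v ∩ cl g 1).card : ℝ) =
        ((cl g 1).card : ℝ) := by exact_mod_cast h2
    linarith [hM.1]
  have hbd : ∀ v, r ≤ ((Dn S v ∩ cl g 2).card : ℝ) → r ≤ ((Dn S v ∩ cl g 1).card : ℝ) := by
    intro v hv
    have h1 := (hF' v).2.1 hv
    have h2 : (cl g 1 \ Dn S v).card + (Dn S v ∩ cl g 1).card = (cl g 1).card := by
      rw [inter_comm]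
      exact card_sdiff_add_card_inter _ _
    have h3 : ((cl g 1 \ Dn S v).card : ℝ) + ((Dn S v ∩ cl g 1).card : ℝ) =
        ((cl g 1).card : ℝ) := by exact_mod_cast h2
    linarith [hM.1]
  have hch := fun v => WTyp2_char (hF' v).2.2.1 (hF' v).2.2.2 (hac v) (hbd v)
  -- monotonicity
  have hup : ∀ v u, (v, u) ∈ S → ∀ A : Finset (Fin n), r ≤ ((Up S u ∩ A).card : ℝ) →
      r ≤ ((Up S v ∩ A).card : ℝ) := by
    intro v u hvu A hA
    refine hA.trans ?_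
    have h1 : Up S u ∩ A ⊆ Up S v ∩ A := by
      refine inter_subset_inter_right fun w hw => ?_
      rw [mem_Up] at hw ⊢
      exact hS.2 v u w hvu hw
    exact_mod_cast card_le_card h1
  have hdn : ∀ v u, (v, u) ∈ S → ∀ A : Finset (Fin n), r ≤ ((Dn S v ∩ A).card : ℝ) →
      r ≤ ((Dn S u ∩ A).card : ℝ) := by
    intro v u hvu A hA
    refine hA.trans ?_
    have h1 : Dn S v ∩ A ⊆ Dn S u ∩ A := by
      refine inter_subset_inter_right fun w hw => ?_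
      rw [mem_Dn] at hw ⊢
      exact hS.2 w v u hw hvu
    exact_mod_cast card_le_card h1
  have hlt : ∀ v u, (v, u) ∈ S → (typv r g S v : ℕ) < typv r g S u := by
    intro v u hvu
    have h1 := hup v u hvu (cl g 0)
    have h2 := hup v u hvu (cl g 1)
    have h3 := hdn v u hvu (cl g 2)
    have h4 := hdn v u hvu (cl g 1)
    have h5 : typv r g S v ≠ typv r g S u := fun h => hE2 v u (Or.inl ⟨h, hvu⟩)
    rcases hch v with ⟨e, a, b, c, d⟩ | ⟨e, a, b, c, d⟩ | ⟨e, a, b, c, d⟩ | ⟨e, a, b, c, d⟩ |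
        ⟨e, a, b, c, d⟩ <;>
      rcases hch u with ⟨e', a', b', c', d'⟩ | ⟨e', a', b', c', d'⟩ | ⟨e', a', b', c', d'⟩ |
        ⟨e', a', b', c', d'⟩ | ⟨e', a', b', c', d'⟩ <;>
      rw [e, e'] at h5 ⊢ <;>
      first
        | exact absurd rfl h5
        | exact absurd (h1 a') a
        | exact absurd (h2 c') c
        | exact absurd (h3 b) b'
        | exact absurd (h4 d) d'
        | decide
  have hge : ∀ u v, (typv r g S u : ℕ) + 2 ≤ typv r g S v → (u, v) ∈ S := by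
    intro u v huv
    by_contra hcon
    have hne : u ≠ v := by
      rintro rfl
      omega
    have hq := hE2 u v
    have hUA : ∀ w ∈ Up S u, (u, w) ∈ S := fun w hw => mem_Up.1 hw
    have hDB : ∀ w ∈ Dn S v, (w, v) ∈ S := fun w hw => mem_Dn.1 hw
    have hA : r ≤ ((Up S u ∩ cl g 0).card : ℝ) → ¬ r ≤ ((Dn S v ∩ cl g 1).card : ℝ) :=
      fun h1 h2 => hcon (WTyp2_common hS hUA hDB ((hF' u).1 h1) h2)
    have hB : r ≤ ((Up S u ∩ cl g 1).card : ℝ) → ¬ r ≤ ((Dn S v ∩ cl g 2).card : ℝ) := by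
      intro h1 h2
      have h3 := (hF' v).2.1 h2
      have h4 : (Up S u ∩ cl g 1) ⊆ cl g 1 \ Dn S v := by
        intro w hw
        rw [mem_inter, mem_Up] at hw
        rw [mem_sdiff, mem_Dn]
        exact ⟨hw.2, fun h5 => hcon (hS.2 u w v hw.1 h5)⟩
      have h5 : ((Up S u ∩ cl g 1).card : ℝ) ≤ ((cl g 1 \ Dn S v).card : ℝ) := by
        exact_mod_cast card_le_card h4
      linarith
    unfold E2 at hq
    rcases hch u with ⟨e, a, b, c, d⟩ | ⟨e, a, b, c, d⟩ | ⟨e, a, b, c, d⟩ | ⟨e, a, b, c, d⟩ |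
        ⟨e, a, b, c, d⟩ <;>
      rcases hch v with ⟨e', a', b', c', d'⟩ | ⟨e', a', b', c', d'⟩ | ⟨e', a', b', c', d'⟩ |
        ⟨e', a', b', c', d'⟩ | ⟨e', a', b', c', d'⟩ <;>
      first
        | exact hA a d'
        | exact hB c b'
        | exact hq (Or.inr ⟨hcon, hne, Or.inl ⟨e, e'⟩⟩)
        | exact hq (Or.inr ⟨hcon, hne, Or.inr (Or.inl ⟨e, e'⟩)⟩)
        | exact hq (Or.inr ⟨hcon, hne, Or.inr (Or.inr ⟨e, e'⟩)⟩)
        | (rw [e, e'] at huv; exact absurd huv (by decide))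
  -- the sizes
  have hsum : (cl g 0).card + (cl g 1).card + (cl g 2).card = n := by
    have h1 := card_eq_sum_card_fiberwise (f := g) (s := univ) (t := univ) (fun _ _ => by simp)
    rw [card_univ, Fintype.card_fin, Fin.sum_univ_three] at h1
    exact h1.symm
  have hsum' : ((cl g 0).card : ℝ) + ((cl g 1).card : ℝ) + ((cl g 2).card : ℝ) = n := by
    exact_mod_cast hsum
  have hbig : (n : ℝ) / 8 ≤ ((cl g 2).card : ℝ) ∨ (n : ℝ) / 8 ≤ ((cl g 0).card : ℝ) := by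
    by_contra hcon
    push Not at hcon
    linarith [hM.2, hcon.1, hcon.2]
  rcases hbig with hY | hX
  · have h0 : ∀ v, 1 ≤ (typv r g S v : ℕ) := by
      intro v
      by_contra h1
      have h2 : typv r g S v = 0 := Fin.ext (by simpa using h1)
      exact hE1 v (Or.inl ⟨h2, hY⟩)
    refine ⟨fun v => ⟨(typv r g S v : ℕ) - 1, by have := (typv r g S v).isLt; omega⟩, ?_⟩
    rw [mem_Lay]
    constructor
    · intro p hp
      rw [Fin.lt_def]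
      have h1 := hlt p.1 p.2 hp
      have h2 := h0 p.1
      show (typv r g S p.1 : ℕ) - 1 < (typv r g S p.2 : ℕ) - 1
      omega
    · intro u v huv
      apply hge
      have h1 := h0 u
      have h2 : (typv r g S u : ℕ) - 1 + 2 ≤ (typv r g S v : ℕ) - 1 := huv
      omega
  · have h0 : ∀ v, (typv r g S v : ℕ) < 4 := by
      intro v
      by_contra h1
      have h3 := (typv r g S v).isLt
      have h2 : typv r g S v = 4 := Fin.ext (by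
        show (typv r g S v : ℕ) = 4
        omega)
      exact hE1 v (Or.inr ⟨h2, hX⟩)
    refine ⟨fun v => ⟨(typv r g S v : ℕ), h0 v⟩, ?_⟩
    rw [mem_Lay]
    constructor
    · intro p hp
      rw [Fin.lt_def]
      exact hlt p.1 p.2 hp
    · intro u v huv
      exact hge u v huv

end Pool.Agent.H.MP_82502e_co
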