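import Pool.Agent.H.MP_82502e_co.WRec1
import Pool.Agent.H.MP_82502e_co.WCoarse
import Pool.Agent.H.MP_82502e_co.WTyp2
import Pool.Agent.H.MP_82502e_co.WExt1
import Pool.Agent.H.MP_82502e_co.WExt2
import Pool.Agent.H.MP_82502e_co.WFam2

set_option autoImplicit false

/-!
# The window: recursion inequality
-/

namespace Pool.Agent.H.MP_82502e_co

open Finset Real

/-- Polynomial factors are absorbed. -/
theorem rec_poly : ∃ n0 : ℕ, ∀ n ≥ n0,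
    ((n : ℝ) + 2) ^ 2 * (2 * n + 2) * 2 ≤ (2 : ℝ) ^ (1 / 100 * (n : ℝ)) := by
  have h1 : (1 : ℝ) < (2 : ℝ) ^ (1 / 100 : ℝ) := Real.one_lt_rpow (by norm_num) (by norm_num)
  have h2 := tendsto_pow_const_div_const_pow_of_one_lt 3 h1
  have h3 := h2.eventually (gt_mem_nhds (show (0 : ℝ) < 1 / 72 by norm_num))
  obtain ⟨n0, h4⟩ := Filter.eventually_atTop.1 h3
  refine ⟨max n0 1, fun n hn => ?_⟩
  have h5 := h4 n ((le_max_left _ _).trans hn)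
  have h6 : (1 : ℝ) ≤ n := by exact_mod_cast (le_max_right _ _).trans hn
  have h7 : (0 : ℝ) < ((2 : ℝ) ^ (1 / 100 : ℝ)) ^ n := by positivity
  rw [div_lt_iff₀ h7] at h5
  have h8 : (2 : ℝ) ^ (1 / 100 * (n : ℝ)) = ((2 : ℝ) ^ (1 / 100 : ℝ)) ^ n := by
    rw [Real.rpow_mul (by norm_num), Real.rpow_natCast]
  rw [h8]
  have h9 : ((n : ℝ) + 2) ^ 2 * (2 * n + 2) * 2 ≤ 72 * (n : ℝ) ^ 3 := by
    have e1 : ((n : ℝ) + 2) ^ 2 ≤ (3 * n) ^ 2 := by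
      apply pow_le_pow_left₀ (by positivity)
      linarith
    have e2 : (2 * (n : ℝ) + 2) * 2 ≤ 8 * n := by linarith
    have e3 := mul_le_mul e1 e2 (by positivity) (by positivity)
    nlinarith [e3]
  linarith

/-- **Recursion.** Fix `τ`, `ε` small (`coarse`, `exact_lay`, `ext_one`, `ext_two`). A poset that is in no `Lay lam` has no `GoodP` structure or an excluded event (`exact_lay`); the layered ones are at most `Fs n k`
(`card_layered_le`; `k > 0`). The polynomial factors are absorbed. -/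
theorem rec_ineq : ∃ c : ℝ, 0 < c ∧ ∃ n0 : ℕ, ∀ n ≥ n0, ∀ k : ℕ, 0 < k →
    (cnt (n + 2) k : ℝ) ≤ Fs (n + 2) k + exp ((log 2 / 4 - c) * ((n : ℝ) + 2) ^ 2) +
      (2 : ℝ) ^ (40 / 100 * (n : ℝ)) * mx (n + 1) k (n + 1) +
      (2 : ℝ) ^ (83 / 100 * (n : ℝ)) * mx n k (2 * n + 1) := by
  classical
  obtain ⟨τ1, hτ1, h1⟩ := ext_one
  obtain ⟨τ2, hτ2, h2⟩ := ext_two
  obtain ⟨τ, hτdef⟩ : ∃ τ, τ = min (1 / 100) (min τ1 τ2) := ⟨_, rfl⟩
  have hτ : 0 < τ := by rw [hτdef]; positivity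
  have hτ100 : τ ≤ 1 / 100 := by rw [hτdef]; exact min_le_left _ _
  have hτa : τ ≤ τ1 := by rw [hτdef]; exact (min_le_right _ _).trans (min_le_left _ _)
  have hτb : τ ≤ τ2 := by rw [hτdef]; exact (min_le_right _ _).trans (min_le_right _ _)
  obtain ⟨ε0, hε0, h3⟩ := coarse hτ hτ100
  obtain ⟨ε, hεdef⟩ : ∃ ε, ε = min ε0 (τ ^ 2 / 100) := ⟨_, rfl⟩
  have hε : 0 < ε := by rw [hεdef]; positivity
  have hεa : ε ≤ ε0 := by rw [hεdef]; exact min_le_left _ _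
  have hεb : ε ≤ τ ^ 2 / 100 := by rw [hεdef]; exact min_le_right _ _
  obtain ⟨c, hc, n3, h3⟩ := h3 ε hε hεa
  obtain ⟨n4, h4⟩ := exact_lay hτ hτ100 hε hεb
  obtain ⟨n1, h1⟩ := card_E1_le (h1 τ hτ hτa ε hε hεb)
  obtain ⟨n2, h2⟩ := card_E2_le (h2 τ hτ hτb ε hε hεb)
  obtain ⟨n5, h5⟩ := rec_poly
  refine ⟨c, hc, max (max n1 n2) (max n3 (max n4 n5)), fun n hn k hk => ?_⟩
  have g1 : n1 ≤ n + 1 := by
    have := (le_max_left _ _).trans ((le_max_left _ _).trans hn); omega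
  have g2 : n2 ≤ n := (le_max_right _ _).trans ((le_max_left _ _).trans hn)
  have g3 : n3 ≤ n + 2 := by
    have := (le_max_left _ _).trans ((le_max_right _ _).trans hn); omega
  have g4 : n4 ≤ n + 2 := by
    have := (le_max_left _ _).trans ((le_max_right _ _).trans ((le_max_right _ _).trans hn))
    omega
  have g5 : n5 ≤ n :=
    (le_max_right _ _).trans ((le_max_right _ _).trans ((le_max_right _ _).trans hn))
  have f1 := h1 (n + 1) g1 k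
  have f2 := h2 n g2 k
  have f3 := h3 (n + 2) g3 k
  have f5 := h5 n g5
  have f6 := card_layered_le (n := n + 2) hk
  have hsub : PO (n + 2) k ⊆
      ((PO (n + 2) k).filter fun S => ∃ lam : Fin (n + 2) → Fin 4, S ∈ Lay lam) ∪
      ((PO (n + 2) k).filter fun S => ∀ g : Fin (n + 2) → Fin 3,
        ¬ GoodP ((n + 2 : ℕ) : ℝ) ε τ 0 S g) ∪
      ((PO (n + 2) k).filter fun S => ∃ g : Fin (n + 2) → Fin 3,
        GoodP ((n + 2 : ℕ) : ℝ) ε τ 0 S g ∧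
          ∃ v, E1 ((n + 2 : ℕ) : ℝ) (τ * ((n + 2 : ℕ) : ℝ)) g S v) ∪
      ((PO (n + 2) k).filter fun S => ∃ g : Fin (n + 2) → Fin 3,
        GoodP ((n + 2 : ℕ) : ℝ) ε τ 0 S g ∧
          ∃ u v, E2 (τ * ((n + 2 : ℕ) : ℝ)) g S u v) := by
    intro S hS
    by_cases hg : ∃ g : Fin (n + 2) → Fin 3, GoodP ((n + 2 : ℕ) : ℝ) ε τ 0 S g
    · obtain ⟨g, hg⟩ := hg
      by_cases e1 : ∃ v, E1 ((n + 2 : ℕ) : ℝ) (τ * ((n + 2 : ℕ) : ℝ)) g S v
      · exact mem_union_left _ (mem_union_right _ (mem_filter.2 ⟨hS, g, hg, e1⟩))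
      · by_cases e2 : ∃ u v, E2 (τ * ((n + 2 : ℕ) : ℝ)) g S u v
        · exact mem_union_right _ (mem_filter.2 ⟨hS, g, hg, e2⟩)
        · push Not at e1 e2
          exact mem_union_left _ (mem_union_left _ (mem_union_left _
            (mem_filter.2 ⟨hS, h4 (n + 2) g4 S g (mem_PO.1 hS).1 hg e1 e2⟩)))
    · push Not at hg
      exact mem_union_left _ (mem_union_left _ (mem_union_right _ (mem_filter.2 ⟨hS, hg⟩)))
  have hcard := (card_le_card hsub).trans ((card_union_le _ _).trans (Nat.add_le_add_right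
    ((card_union_le _ _).trans (Nat.add_le_add_right (card_union_le _ _) _)) _))
  have hcard' : (cnt (n + 2) k : ℝ) ≤ _ := Nat.cast_le.2 hcard
  rw [Nat.cast_add, Nat.cast_add, Nat.cast_add] at hcard'
  refine hcard'.trans ?_
  have f6' := (Nat.cast_le (α := ℝ)).2 f6
  have f3' := f3.trans (le_of_eq (show exp ((log 2 / 4 - c) * ((n + 2 : ℕ) : ℝ) ^ 2) =
      exp ((log 2 / 4 - c) * ((n : ℝ) + 2) ^ 2) by push_cast; rfl))
  have hm1 : (0 : ℝ) ≤ mx (n + 1) k (n + 1) := Nat.cast_nonneg _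
  have hm2 : (0 : ℝ) ≤ mx n k (2 * n + 1) := Nat.cast_nonneg _
  have hn0 : (0 : ℝ) ≤ n := Nat.cast_nonneg _
  have a1 : (((n + 1 : ℕ) : ℝ) + 1) ^ 2 * (2 : ℝ) ^ (39 / 100 * (((n + 1 : ℕ) : ℝ))) ≤
      (2 : ℝ) ^ (40 / 100 * (n : ℝ)) := by
    have e1 : (2 : ℝ) ^ (40 / 100 * (n : ℝ)) =
        (2 : ℝ) ^ (1 / 100 * (n : ℝ)) * (2 : ℝ) ^ (39 / 100 * (n : ℝ)) := by
      rw [← Real.rpow_add (by norm_num)]; ring_nf
    have e2 : (2 : ℝ) ^ (39 / 100 * (((n + 1 : ℕ) : ℝ))) ≤ 2 * (2 : ℝ) ^ (39 / 100 * (n : ℝ)) := by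
      have : (39 / 100 * (((n + 1 : ℕ) : ℝ))) = 39 / 100 + 39 / 100 * (n : ℝ) := by
        push_cast; ring
      rw [this, Real.rpow_add (by norm_num)]
      refine mul_le_mul_of_nonneg_right ?_ (by positivity)
      calc (2 : ℝ) ^ (39 / 100 : ℝ) ≤ (2 : ℝ) ^ (1 : ℝ) :=
            Real.rpow_le_rpow_of_exponent_le (by norm_num) (by norm_num)
        _ = 2 := by norm_num
    rw [e1]
    calc (((n + 1 : ℕ) : ℝ) + 1) ^ 2 * (2 : ℝ) ^ (39 / 100 * (((n + 1 : ℕ) : ℝ)))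
        ≤ ((n : ℝ) + 2) ^ 2 * (2 * (2 : ℝ) ^ (39 / 100 * (n : ℝ))) := by
          have : (((n + 1 : ℕ) : ℝ) + 1) = (n : ℝ) + 2 := by push_cast; ring
          rw [this]
          gcongr
      _ = (((n : ℝ) + 2) ^ 2 * 1 * 2) * (2 : ℝ) ^ (39 / 100 * (n : ℝ)) := by ring
      _ ≤ (((n : ℝ) + 2) ^ 2 * (2 * n + 2) * 2) * (2 : ℝ) ^ (39 / 100 * (n : ℝ)) := by
          gcongr
          linarith
      _ ≤ (2 : ℝ) ^ (1 / 100 * (n : ℝ)) * (2 : ℝ) ^ (39 / 100 * (n : ℝ)) := by gcongr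
  have f1' := f1.trans (mul_le_mul_of_nonneg_right a1 hm1)
  have a2 : ((n : ℝ) + 2) ^ 2 * (2 * n + 2) * (2 : ℝ) ^ (82 / 100 * (n : ℝ)) ≤
      (2 : ℝ) ^ (83 / 100 * (n : ℝ)) := by
    have e1 : (2 : ℝ) ^ (83 / 100 * (n : ℝ)) =
        (2 : ℝ) ^ (1 / 100 * (n : ℝ)) * (2 : ℝ) ^ (82 / 100 * (n : ℝ)) := by
      rw [← Real.rpow_add (by norm_num)]; ring_nf
    rw [e1]
    calc ((n : ℝ) + 2) ^ 2 * (2 * n + 2) * (2 : ℝ) ^ (82 / 100 * (n : ℝ))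
        ≤ (((n : ℝ) + 2) ^ 2 * (2 * n + 2) * 2) * (2 : ℝ) ^ (82 / 100 * (n : ℝ)) := by
          have : 0 ≤ ((n : ℝ) + 2) ^ 2 * (2 * n + 2) := by positivity
          exact mul_le_mul_of_nonneg_right (by linarith) (by positivity)
      _ ≤ (2 : ℝ) ^ (1 / 100 * (n : ℝ)) * (2 : ℝ) ^ (82 / 100 * (n : ℝ)) := by gcongr
  have f2' := f2.trans (mul_le_mul_of_nonneg_right a2 hm2)
  exact add_le_add (add_le_add (add_le_add f6' f3') f1') f2'

end Pool.Agent.H.MP_82502e_co
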