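import Pool.Agent.H.MP_82502e_co.WGood

set_option autoImplicit false

/-!
# The window: recursion: fibres
-/

namespace Pool.Agent.H.MP_82502e_co

open Finset Real

/-- The number of relations lost by deleting a point is at most `n` (at most one relation with every other
point). -/
theorem card_del_ge {n : ℕ} {S : Finset (Fin (n + 1) × Fin (n + 1))} (hS : IsPO S)
    (v : Fin (n + 1)) : (del v S).card ≤ S.card ∧ S.card ≤ (del v S).card + n := by
  have h := card_del (z := v) hS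
  have hd : Disjoint (dD v S) (dU v S) := by
    rw [disjoint_left]
    intro x hx hx'
    exact hS.1 _ (hS.2 _ _ _ (TopI_mem_dD.1 hx) (TopI_mem_dU.1 hx'))
  have h2 : (dD v S).card + (dU v S).card ≤ n := by
    rw [← card_union_of_disjoint hd]
    refine (card_le_univ _).trans ?_
    rw [Fintype.card_fin]
  omega

open scoped Classical in
theorem WRec1_fib {α β ι : Type} (A : Finset α) (I : Finset ι) (Q : ι → Finset β)
    (F : ι → β → Finset α) (M B : ℝ) (hB : 0 ≤ B)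
    (h1 : ∀ S ∈ A, ∃ i ∈ I, ∃ b ∈ Q i, S ∈ F i b)
    (h2 : ∀ i ∈ I, ∀ b ∈ Q i, ((F i b).card : ℝ) ≤ B) (h3 : ∀ i ∈ I, ((Q i).card : ℝ) ≤ M) :
    (A.card : ℝ) ≤ I.card * (M * B) := by
  have hsub : A ⊆ I.biUnion fun i => (Q i).biUnion (F i) := by
    intro S hS
    obtain ⟨i, hi, b, hb, hF⟩ := h1 S hS
    exact mem_biUnion.2 ⟨i, hi, mem_biUnion.2 ⟨b, hb, hF⟩⟩
  have e1 : A.card ≤ ∑ i ∈ I, ∑ b ∈ Q i, (F i b).card :=
    (card_le_card hsub).trans (card_biUnion_le.trans (sum_le_sum fun i _ => card_biUnion_le))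
  have e2 : (A.card : ℝ) ≤ ∑ i ∈ I, ∑ b ∈ Q i, ((F i b).card : ℝ) := by exact_mod_cast e1
  refine e2.trans ?_
  have e3 : ∀ i ∈ I, ∑ b ∈ Q i, ((F i b).card : ℝ) ≤ M * B := by
    intro i hi
    refine (sum_le_sum (h2 i hi)).trans ?_
    rw [sum_const, nsmul_eq_mul]
    exact mul_le_mul_of_nonneg_right (h3 i hi) hB
  refine (sum_le_sum e3).trans ?_
  rw [sum_const, nsmul_eq_mul]

theorem WRec1_mx {n k j i : ℕ} (h : i ∈ range (j + 1)) : ((PO n (k - i)).card : ℝ) ≤ mx n k j := by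
  have h1 : cnt n (k - i) ≤ mx n k j := le_sup (f := fun i => cnt n (k - i)) h
  exact_mod_cast h1

theorem WRec1_mem_PO {n k : ℕ} {S : Finset (Fin n × Fin n)} : S ∈ PO n k ↔ IsPO S ∧ S.card = k := by
  classical
  unfold PO
  simp only [mem_filter, mem_univ, true_and]

open scoped Classical in
/-- Posets with an excluded event at one point: for each `v` fibre over `del v S ∈ PO n k'`, `k - n ≤ k' ≤ k`, fibres by `ExtOne`. -/
theorem card_E1_le {τ ε : ℝ} (h : ExtOne τ ε) : ∃ n0 : ℕ, ∀ n ≥ n0, ∀ k : ℕ,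
    (((PO (n + 1) k).filter fun S => ∃ g : Fin (n + 1) → Fin 3, GoodP (n + 1 : ℕ) ε τ 0 S g ∧
      ∃ v, E1 (n + 1 : ℕ) (τ * (n + 1 : ℕ)) g S v).card : ℝ) ≤
      (n + 1) ^ 2 * (2 : ℝ) ^ (39 / 100 * (n : ℝ)) * mx n k n := by
  obtain ⟨n0, hn0⟩ := h
  refine ⟨n0, fun n hn k => ?_⟩
  have key := WRec1_fib ((PO (n + 1) k).filter fun S => ∃ g : Fin (n + 1) → Fin 3,
      GoodP (n + 1 : ℕ) ε τ 0 S g ∧ ∃ v, E1 (n + 1 : ℕ) (τ * (n + 1 : ℕ)) g S v)
    ((univ : Finset (Fin (n + 1))) ×ˢ range (n + 1)) (fun i => PO n (k - i.2))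
    (fun i S' => univ.filter fun S => IsPO S ∧ del i.1 S = S' ∧ ∃ g : Fin (n + 1) → Fin 3,
      GoodP (n + 1 : ℕ) ε τ 0 S g ∧ E1 (n + 1 : ℕ) (τ * (n + 1 : ℕ)) g S i.1)
    (mx n k n) ((2 : ℝ) ^ (39 / 100 * (n : ℝ))) (by positivity) ?_ ?_ ?_
  · refine key.trans (le_of_eq ?_)
    rw [card_product, card_univ, Fintype.card_fin, card_range]
    push_cast
    ring
  · intro S hS
    rw [mem_filter, WRec1_mem_PO] at hS
    obtain ⟨⟨hPO, hcard⟩, g, hg, v, hv⟩ := hS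
    obtain ⟨hc1, hc2⟩ := card_del_ge hPO v
    refine ⟨(v, k - (del v S).card), mem_product.2 ⟨mem_univ _, mem_range.2 (by omega)⟩,
      del v S, WRec1_mem_PO.2 ⟨isPO_del hPO, by dsimp only; omega⟩, ?_⟩
    rw [mem_filter]
    exact ⟨mem_univ _, hPO, rfl, g, hg, hv⟩
  · intro i _ S' _
    have h1 := hn0 n hn i.1 S'
    rw [← Set.ncard_coe_finset, coe_filter]
    simpa using h1
  · intro i hi
    exact WRec1_mx (mem_product.1 hi).2

open scoped Classical in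
/-- Posets with an excluded event at two points (`E2 .. u v` forces `u ≠ v`: `(u,u) ∉ S`): for each `v`, `u` fibre over
`del u (del v S) ∈ PO n k'`, `k - (2n+1) ≤ k' ≤ k`, fibres by `ExtTwo`. -/
theorem card_E2_le {τ ε : ℝ} (h : ExtTwo τ ε) : ∃ n0 : ℕ, ∀ n ≥ n0, ∀ k : ℕ,
    (((PO (n + 2) k).filter fun S => ∃ g : Fin (n + 2) → Fin 3, GoodP (n + 2 : ℕ) ε τ 0 S g ∧
      ∃ u v, E2 (τ * (n + 2 : ℕ)) g S u v).card : ℝ) ≤
      (n + 2) ^ 2 * (2 * n + 2) * (2 : ℝ) ^ (82 / 100 * (n : ℝ)) * mx n k (2 * n + 1) := by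
  obtain ⟨n0, hn0⟩ := h
  refine ⟨n0, fun n hn k => ?_⟩
  have key := WRec1_fib ((PO (n + 2) k).filter fun S => ∃ g : Fin (n + 2) → Fin 3,
      GoodP (n + 2 : ℕ) ε τ 0 S g ∧ ∃ u v, E2 (τ * (n + 2 : ℕ)) g S u v)
    (((univ : Finset (Fin (n + 2))) ×ˢ (univ : Finset (Fin (n + 1)))) ×ˢ range (2 * n + 1 + 1))
    (fun i => PO n (k - i.2))
    (fun i S' => univ.filter fun S => IsPO S ∧ del i.1.2 (del i.1.1 S) = S' ∧
      ∃ g : Fin (n + 2) → Fin 3, GoodP (n + 2 : ℕ) ε τ 0 S g ∧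
        (E2 (τ * (n + 2 : ℕ)) g S (i.1.1.succAbove i.1.2) i.1.1 ∨
          E2 (τ * (n + 2 : ℕ)) g S i.1.1 (i.1.1.succAbove i.1.2)))
    (mx n k (2 * n + 1)) ((2 : ℝ) ^ (82 / 100 * (n : ℝ))) (by positivity) ?_ ?_ ?_
  · refine key.trans ?_
    rw [card_product, card_product, card_univ, card_univ, Fintype.card_fin, Fintype.card_fin,
      card_range]
    have e1 : (0 : ℝ) ≤ mx n k (2 * n + 1) * (2 : ℝ) ^ (82 / 100 * (n : ℝ)) := by positivity
    have e2 : (((n + 2) * (n + 1) * (2 * n + 1 + 1) : ℕ) : ℝ) ≤ (n + 2) ^ 2 * (2 * n + 2) := by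
      push_cast
      have e3 : (0 : ℝ) ≤ n := Nat.cast_nonneg n
      nlinarith [mul_nonneg e3 e3]
    refine (mul_le_mul_of_nonneg_right e2 e1).trans (le_of_eq ?_)
    ring
  · intro S hS
    rw [mem_filter, WRec1_mem_PO] at hS
    obtain ⟨⟨hPO, hcard⟩, g, hg, u, v, huv⟩ := hS
    have hne : u ≠ v := by
      rintro rfl
      rcases huv with h1 | h1
      · exact hPO.1 _ h1.2
      · exact h1.2.1 rfl
    obtain ⟨u', rfl⟩ := Fin.exists_succAbove_eq hne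
    obtain ⟨hc1, hc2⟩ := card_del_ge hPO v
    have hPO' : IsPO (del v S) := isPO_del hPO
    obtain ⟨hc3, hc4⟩ := card_del_ge hPO' u'
    refine ⟨((v, u'), k - (del u' (del v S)).card),
      mem_product.2 ⟨mem_product.2 ⟨mem_univ _, mem_univ _⟩, mem_range.2 (by omega)⟩,
      del u' (del v S), WRec1_mem_PO.2 ⟨isPO_del hPO', by dsimp only; omega⟩, ?_⟩
    rw [mem_filter]
    exact ⟨mem_univ _, hPO, rfl, g, hg, Or.inl huv⟩
  · intro i _ S' _
    have h1 := hn0 n hn i.1.1 i.1.2 S'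
    rw [← Set.ncard_coe_finset, coe_filter]
    simpa using h1
  · intro i hi
    exact WRec1_mx (mem_product.1 hi).2

end Pool.Agent.H.MP_82502e_co
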