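import Pool.Agent.H.MP_82502e_co.WSt1
import Pool.Agent.H.MP_82502e_co.Ent

set_option autoImplicit false

/-!
# The window: fixed l: step inequality
-/

namespace Pool.Agent.H.MP_82502e_co

open Finset Real

/-- The logarithm of the quotient of two binomial coefficients as a sum. -/
theorem WSt2_log_choose {N x : ℕ} (hx : x ≤ N) : ∀ h : ℕ, h ≤ x →
    log ((N.choose (x - h) : ℝ) / N.choose x) =
      - ∑ j ∈ range h, log (1 + (((N : ℝ) + 1) / ((x : ℝ) - j) - 2)) := by
  intro h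
  induction h with
  | zero =>
    intro _
    have h0 : (N.choose x : ℝ) ≠ 0 := by
      have := Nat.choose_pos hx
      positivity
    simp [div_self h0]
  | succ h ih =>
    intro hh
    have ih' := ih (by omega)
    have hc0 : (0 : ℝ) < N.choose x := by
      have := Nat.choose_pos hx
      positivity
    have hc1 : (0 : ℝ) < N.choose (x - h) := by
      have := Nat.choose_pos (show x - h ≤ N by omega)
      positivity
    have hc2 : (0 : ℝ) < N.choose (x - (h + 1)) := by
      have := Nat.choose_pos (show x - (h + 1) ≤ N by omega)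
      positivity
    have key := Nat.choose_succ_right_eq N (x - (h + 1))
    have e1 : x - (h + 1) + 1 = x - h := by omega
    rw [e1] at key
    have key' : (N.choose (x - h) : ℝ) * ((x : ℝ) - h) =
        (N.choose (x - (h + 1)) : ℝ) * ((N : ℝ) - x + h + 1) := by
      have := congrArg (Nat.cast (R := ℝ)) key
      push_cast at this
      rw [Nat.cast_sub (by omega : h ≤ x), Nat.cast_sub (by omega : x - (h + 1) ≤ N),
        Nat.cast_sub hh] at this
      push_cast at this
      linarith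
    have hxh : (0 : ℝ) < (x : ℝ) - h := by
      have : ((h + 1 : ℕ) : ℝ) ≤ x := by exact_mod_cast hh
      push_cast at this
      linarith
    have hNx : (x : ℝ) ≤ N := by exact_mod_cast hx
    have hd : (0 : ℝ) < (N : ℝ) - x + h + 1 := by
      have : (0 : ℝ) ≤ h := Nat.cast_nonneg h
      linarith
    have e2 : (N.choose (x - (h + 1)) : ℝ) / N.choose x =
        (N.choose (x - h) : ℝ) / N.choose x / (1 + (((N : ℝ) + 1) / ((x : ℝ) - h) - 2)) := by
      have e3 : 1 + (((N : ℝ) + 1) / ((x : ℝ) - h) - 2) =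
          ((N : ℝ) - x + h + 1) / ((x : ℝ) - h) := by
        field_simp
        ring
      rw [e3]
      field_simp
      linarith
    have e4 : 0 < 1 + (((N : ℝ) + 1) / ((x : ℝ) - h) - 2) := by
      have e3 : 1 + (((N : ℝ) + 1) / ((x : ℝ) - h) - 2) =
          ((N : ℝ) - x + h + 1) / ((x : ℝ) - h) := by
        field_simp
        ring
      rw [e3]
      positivity
    rw [e2, log_div (by positivity) e4.ne', ih', sum_range_succ]
    ring

/-- **(CL)** comparison of `h` steps with the one-step quotient. For `N` large, `N/5 ≤ x ≤ 4N/5`... (in the form `24N/100 ≤ x`, `x < N`), `h² ≤ 2N`, `h ≤ x`: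
`h ((N+1)/(x+1) - 2) + log (choose N (x-h) / choose N x) ≥ -(51/50) 2h²/N - 20 h/N`.
Proof. The logarithm is `-Σ_{j<h} log(1 + r_j)`, `r_j = (N+1)/(x-j) - 2`. With `log(1+r) ≤ r` (`r > -1`) the left side is at least `Σ_j ((N+1)/(x+1) - (N+1)/(x-j)) = -(N+1) Σ_j (j+1)/((x+1)(x-j)) ≥ -(N+1) h(h+1)/(2(x+1)(x-h+1))`, which is
enough if `x ≥ N/2 - N/1000`. If `x < N/2 - N/1000` then `0.004 ≤ r_j ≤ 5/2` and `log_one_add_le_sq`: each summand is at least `-(N+1) h/((x+1)(x-h+1)) + r_j²/6 ≥ 0` for large `N` (`h/N ≤ 2/√N`). -/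
theorem step_ineq : ∃ N0 : ℕ, ∀ N ≥ N0, ∀ x h : ℕ, 24 / 100 * (N : ℝ) ≤ x → x < N →
    (h : ℝ) ^ 2 ≤ 2 * N →
    -(51 / 50 * (2 * (h : ℝ) ^ 2 / N) + 20 * h / N) ≤
      (h : ℝ) * (((N : ℝ) + 1) / (x + 1) - 2) + log ((N.choose (x - h) : ℝ) / N.choose x) := by
  refine ⟨10 ^ 16, fun N hN x h hx hxN hh => ?_⟩
  have hNr : (10 : ℝ) ^ 16 ≤ N := by exact_mod_cast hN
  have hN0 : (0 : ℝ) < N := lt_of_lt_of_le (by norm_num) hNr
  have hh0 : (0 : ℝ) ≤ h := Nat.cast_nonneg h
  -- `h` is small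
  have hsmall : (h : ℝ) ≤ 15 / 10 ^ 9 * N := by
    have h1 : (h : ℝ) ^ 2 ≤ (15 / 10 ^ 9 * N) ^ 2 := by nlinarith
    exact le_of_sq_le_sq h1 (by positivity) |>.trans (le_refl _)
  have hxN' : (x : ℝ) < N := by exact_mod_cast hxN
  have hhx : h ≤ x := by
    have : (h : ℝ) ≤ x := by linarith
    exact_mod_cast this
  rw [WSt2_log_choose hxN.le h hhx]
  have hsum : (h : ℝ) * (((N : ℝ) + 1) / (x + 1) - 2) +
      -∑ j ∈ range h, log (1 + (((N : ℝ) + 1) / ((x : ℝ) - j) - 2)) =
      ∑ j ∈ range h, ((((N : ℝ) + 1) / (x + 1) - 2) -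
        log (1 + (((N : ℝ) + 1) / ((x : ℝ) - j) - 2))) := by
    rw [sum_sub_distrib, sum_const, card_range, nsmul_eq_mul]
    ring
  rw [hsum]
  have hjx : ∀ j ∈ range h, (j : ℝ) + 1 ≤ h := by
    intro j hj
    have := mem_range.1 hj
    exact_mod_cast this
  have hpos1 : (0 : ℝ) < (x : ℝ) + 1 := by positivity
  have hdiff : ∀ j ∈ range h, ((N : ℝ) + 1) / (x + 1) - ((N : ℝ) + 1) / ((x : ℝ) - j) =
      -(((N : ℝ) + 1) * (j + 1) / (((x : ℝ) + 1) * ((x : ℝ) - j))) := by
    intro j hj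
    have h1 := hjx j hj
    have h2 : (0 : ℝ) < (x : ℝ) - j := by linarith
    field_simp
    ring
  have hrpos : ∀ j ∈ range h, 0 < 1 + (((N : ℝ) + 1) / ((x : ℝ) - j) - 2) := by
    intro j hj
    have h1 := hjx j hj
    have h2 : (0 : ℝ) < (x : ℝ) - j := by linarith
    have h3 : 1 < ((N : ℝ) + 1) / ((x : ℝ) - j) := by
      rw [lt_div_iff₀ h2]
      have : (0 : ℝ) ≤ j := Nat.cast_nonneg j
      linarith
    linarith
  by_cases hcase : 499 / 1000 * (N : ℝ) ≤ x
  · -- the middle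
    have hterm : ∀ j ∈ range h, -(402 / 100 / (N : ℝ)) * ((j : ℝ) + 1) ≤
        (((N : ℝ) + 1) / (x + 1) - 2) - log (1 + (((N : ℝ) + 1) / ((x : ℝ) - j) - 2)) := by
      intro j hj
      have h1 := hjx j hj
      have h2 : (0 : ℝ) < (x : ℝ) - j := by linarith
      have h3 := log_le_sub_one_of_pos (hrpos j hj)
      have h4 := hdiff j hj
      have hj0 : (0 : ℝ) ≤ j := Nat.cast_nonneg j
      have h5 : ((N : ℝ) + 1) * (j + 1) / (((x : ℝ) + 1) * ((x : ℝ) - j)) ≤
          402 / 100 / (N : ℝ) * ((j : ℝ) + 1) := by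
        rw [div_le_iff₀ (by positivity)]
        have h6' : (499 / 1000 * (N : ℝ)) * (49899 / 100000 * N) ≤
            ((x : ℝ) + 1) * ((x : ℝ) - j) := by
          apply mul_le_mul (by linarith) (by linarith) (by positivity) (by positivity)
        have h7 : (N : ℝ) + 1 ≤ 402 / 100 / (N : ℝ) * (((x : ℝ) + 1) * ((x : ℝ) - j)) := by
          rw [div_mul_eq_mul_div, le_div_iff₀ hN0]
          nlinarith
        calc ((N : ℝ) + 1) * (j + 1)
            ≤ 402 / 100 / (N : ℝ) * (((x : ℝ) + 1) * ((x : ℝ) - j)) * (j + 1) :=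
              mul_le_mul_of_nonneg_right h7 (by positivity)
          _ = _ := by ring
      linarith
    have hsum2 : ∀ m : ℕ, ∑ j ∈ range m, ((j : ℝ) + 1) = (m : ℝ) * (m + 1) / 2 := by
      intro m
      induction m with
      | zero => simp
      | succ m ih => rw [sum_range_succ, ih]; push_cast; ring
    have h8 := sum_le_sum hterm
    rw [← mul_sum, hsum2] at h8
    refine le_trans ?_ h8
    have h9 : (0 : ℝ) ≤ (h : ℝ) ^ 2 / N := by positivity
    have h10 : (0 : ℝ) ≤ (h : ℝ) / N := by positivity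
    have e1 : 51 / 50 * (2 * (h : ℝ) ^ 2 / N) + 20 * h / N =
        204 / 100 * ((h : ℝ) ^ 2 / N) + 20 * ((h : ℝ) / N) := by ring
    have e2 : -(402 / 100 / (N : ℝ)) * ((h : ℝ) * (h + 1) / 2) =
        -(201 / 100 * ((h : ℝ) ^ 2 / N) + 201 / 100 * ((h : ℝ) / N)) := by ring
    rw [e1, e2]
    linarith
  · -- away from the middle
    push Not at hcase
    have hterm : ∀ j ∈ range h, 0 ≤
        (((N : ℝ) + 1) / (x + 1) - 2) - log (1 + (((N : ℝ) + 1) / ((x : ℝ) - j) - 2)) := by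
      intro j hj
      have h1 := hjx j hj
      have hj0 : (0 : ℝ) ≤ j := Nat.cast_nonneg j
      have h2 : (0 : ℝ) < (x : ℝ) - j := by linarith
      have h4 := hdiff j hj
      have h5 : 4 / 1000 ≤ ((N : ℝ) + 1) / ((x : ℝ) - j) - 2 := by
        rw [le_sub_iff_add_le, le_div_iff₀ h2]
        linarith
      have h6 : ((N : ℝ) + 1) / ((x : ℝ) - j) - 2 ≤ 5 / 2 := by
        rw [sub_le_iff_le_add, div_le_iff₀ h2]
        linarith
      have h7 := log_one_add_le_sq (by linarith) h6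
      have h8 : ((N : ℝ) + 1) * (j + 1) / (((x : ℝ) + 1) * ((x : ℝ) - j)) ≤ 26 / 10 ^ 7 := by
        rw [div_le_iff₀ (by positivity)]
        have h9 : 24 / 100 * (N : ℝ) * (239 / 1000 * N) ≤ ((x : ℝ) + 1) * ((x : ℝ) - j) := by
          apply mul_le_mul (by linarith) (by linarith) (by positivity) (by positivity)
        have h10 : ((N : ℝ) + 1) * (j + 1) ≤ (101 / 100 * N) * (15 / 10 ^ 9 * N) := by
          apply mul_le_mul (by linarith) (by linarith) (by positivity) (by positivity)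
        nlinarith
      have h11 : (4 / 1000 : ℝ) ^ 2 ≤ (((N : ℝ) + 1) / ((x : ℝ) - j) - 2) ^ 2 :=
        pow_le_pow_left₀ (by norm_num) h5 2
      norm_num at h11
      linarith
    have h8 := sum_nonneg hterm
    have h9 : (0 : ℝ) ≤ 51 / 50 * (2 * (h : ℝ) ^ 2 / N) + 20 * h / N := by positivity
    linarith

end Pool.Agent.H.MP_82502e_co
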