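import Pool.Agent.H.MP_82502e_co.WStabD
import Pool.Agent.H.MP_82502e_co.Sample

set_option autoImplicit false

/-!
# The window: stability of types, step 1
-/

namespace Pool.Agent.H.MP_82502e_co

open Finset Real

variable {n : ℕ}

theorem WStab1_mem {c : Fin n × Fin n → Col} {x y : Fin n} :
    y ∈ rN c x ↔ (x < y ∧ c (x, y) = Col.R) ∨ (y < x ∧ c (y, x) = Col.R) := by
  unfold rN
  rw [Finset.mem_filter]
  exact ⟨fun h => h.2, fun h => ⟨Finset.mem_univ _, h⟩⟩

/-- No triangles. -/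
theorem WStab1_tri {c : Fin n × Fin n → Col} (hc : Closed c) {a b d : Fin n}
    (hab : b ∈ rN c a) (had : d ∈ rN c a) (hbd : d ∈ rN c b) : False := by
  have hkey : ∀ x y z, x < y → y < z → c (x, y) = Col.R → c (y, z) = Col.R →
      c (x, z) = Col.R → False := by
    intro x y z hxy hyz h1 h2 h3
    rcases hc x y z hxy hyz (Or.inl h1) (Or.inl h2) with h | h <;> rw [h3] at h <;> cases h
  rw [WStab1_mem] at hab had hbd
  rcases hab with h1 | h1 <;> rcases had with h2 | h2 <;> rcases hbd with h3 | h3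
  · exact hkey a b d h1.1 h3.1 h1.2 h3.2 h2.2
  · exact hkey a d b h2.1 h3.1 h2.2 h3.2 h1.2
  · exact absurd (h1.1.trans (h3.1.trans h2.1)) (lt_irrefl _)
  · exact hkey d a b h2.1 h1.1 h2.2 h1.2 h3.2
  · exact hkey b a d h1.1 h2.1 h1.2 h2.2 h3.2
  · exact absurd (h2.1.trans (h3.1.trans h1.1)) (lt_irrefl _)
  · exact hkey b d a h3.1 h2.1 h3.2 h2.2 h1.2
  · exact hkey d b a h3.1 h1.1 h3.2 h1.2 h2.2

/-- Double counting of the R-pairs. -/
theorem WStab1_sum (c : Fin n × Fin n → Col) (g : Fin n → Fin n → ℝ) :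
    ∑ x, ∑ y ∈ rN c x, g x y = ∑ p ∈ cpairs c Col.R, (g p.1 p.2 + g p.2 p.1) := by
  have h1 : ∀ x, ∑ y ∈ rN c x, g x y =
      ∑ y, (if x < y ∧ c (x, y) = Col.R then g x y else 0) +
        ∑ y, (if y < x ∧ c (y, x) = Col.R then g x y else 0) := by
    intro x
    rw [rN, Finset.sum_filter, ← Finset.sum_add_distrib]
    refine Finset.sum_congr rfl fun y _ => ?_
    by_cases h1 : x < y ∧ c (x, y) = Col.R
    · have h2 : ¬ (y < x ∧ c (y, x) = Col.R) := fun h => lt_asymm h.1 h1.1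
      rw [if_pos (Or.inl h1), if_pos h1, if_neg h2, add_zero]
    · by_cases h2 : y < x ∧ c (y, x) = Col.R
      · rw [if_pos (Or.inr h2), if_neg h1, if_pos h2, zero_add]
      · rw [if_neg (not_or.2 ⟨h1, h2⟩), if_neg h1, if_neg h2, add_zero]
  rw [Finset.sum_congr rfl fun x _ => h1 x, Finset.sum_add_distrib]
  rw [Finset.sum_comm (f := fun x y => if y < x ∧ c (y, x) = Col.R then g x y else 0)]
  rw [cpairs, Finset.sum_filter, ← Finset.univ_product_univ, Finset.sum_product,
    ← Finset.sum_add_distrib]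
  refine Finset.sum_congr rfl fun x _ => ?_
  rw [← Finset.sum_add_distrib]
  refine Finset.sum_congr rfl fun y _ => ?_
  by_cases h : x < y ∧ c (x, y) = Col.R
  · rw [if_pos h, if_pos h, if_pos h]
  · rw [if_neg h, if_neg h, if_neg h, add_zero]

/-- **Step 1** (Mantel stability). For a closed colouring with `|R| ≥ (1/4 - e) n²` there are disjoint sets `A`, `B` without
R-pairs inside, with `| |A| - n/2 |, | |B| - n/2 | ≤ 4 √e n`, such that at most `5 e n²` pairs of `A × B` are not R-pairs.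
Proof. `R` is triangle free (two R-pairs `x<y<z` force `O` or `E`), `Σ_x d_x² ≥ (2|R|)²/n`, and `Σ_x d_x²` is the sum of `d_s + d_t` over the
R-pairs, so some R-pair has `d_s + d_t ≥ 4|R|/n ≥ (1-4e) n`. `A = N(s)`, `B = N(t)` are disjoint and R-independent (triangle free). Every R-pair is in
`A × B` or meets the at most `4 e n` other points: `|R| ≤ e(A,B) + 4 e n · n`. So `|A||B| ≥ e(A,B) ≥ (1/4 - 5e) n²` and `|A||B| ≤ n²/4`. -/
theorem stab_one {e : ℝ} (he : 0 < e) (he1 : e ≤ 1 / 1000) (c : Fin n × Fin n → Col) (hc : Closed c)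
    (hn : 0 < n) (hR : (1 / 4 - e) * (n : ℝ) ^ 2 ≤ ((cpairs c Col.R).card : ℝ)) :
    ∃ A B : Finset (Fin n), Disjoint A B ∧ |(A.card : ℝ) - n / 2| ≤ 4 * √e * n ∧
      |(B.card : ℝ) - n / 2| ≤ 4 * √e * n ∧
      (∀ x ∈ A, ∀ y ∈ A, y ∉ rN c x) ∧ (∀ x ∈ B, ∀ y ∈ B, y ∉ rN c x) ∧
      (((A ×ˢ B).filter fun p => p.2 ∉ rN c p.1).card : ℝ) ≤ 5 * e * (n : ℝ) ^ 2 := by
  classical
  have hn0 : (0 : ℝ) < n := by exact_mod_cast hn
  set m : ℝ := ((cpairs c Col.R).card : ℝ) with hm
  have hmpos : 0 < m := by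
    have : 0 < (1 / 4 - e) * (n : ℝ) ^ 2 := by
      have : 0 < 1 / 4 - e := by linarith
      positivity
    linarith
  set d : Fin n → ℝ := fun x => ((rN c x).card : ℝ) with hd
  have h1 : ∑ x, d x = 2 * m := by
    have := WStab1_sum c (fun _ _ => (1 : ℝ))
    simp only [Finset.sum_const, nsmul_eq_mul, mul_one] at this
    rw [hd, hm, this]
    ring
  have h2 : ∑ x, d x ^ 2 = ∑ p ∈ cpairs c Col.R, (d p.1 + d p.2) := by
    have := WStab1_sum c (fun x _ => d x)
    simp only [Finset.sum_const, nsmul_eq_mul] at this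
    rw [← this]
    refine Finset.sum_congr rfl fun x _ => ?_
    rw [hd, sq]
  have h3 : (∑ x, d x) ^ 2 ≤ n * ∑ x, d x ^ 2 := by
    have := sq_sum_le_card_mul_sum_sq (s := (Finset.univ : Finset (Fin n))) (f := d)
    rwa [Finset.card_univ, Fintype.card_fin] at this
  have hne : (cpairs c Col.R).Nonempty := by
    have h4 : (0 : ℝ) < ((cpairs c Col.R).card : ℝ) := hmpos
    rw [← Finset.card_pos]
    exact_mod_cast h4
  obtain ⟨p, hp, hpd⟩ : ∃ p ∈ cpairs c Col.R, 4 * m / n ≤ d p.1 + d p.2 := by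
    refine Finset.exists_le_of_sum_le hne ?_
    rw [Finset.sum_const, nsmul_eq_mul, ← h2, ← hm]
    rw [h1] at h3
    rw [mul_div_assoc', div_le_iff₀ hn0]
    nlinarith
  obtain ⟨s, t⟩ := p
  have hst : t ∈ rN c s := WStab1_mem.2 (Or.inl (Finset.mem_filter.1 hp).2)
  have hsym : ∀ {x y : Fin n}, y ∈ rN c x → x ∈ rN c y := fun h =>
    WStab1_mem.2 (WStab1_mem.1 h).symm
  set A := rN c s with hA
  set B := rN c t with hB
  have hdisj : Disjoint A B := by
    rw [Finset.disjoint_left]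
    intro z hz hz'
    exact WStab1_tri hc hst hz hz'
  have hAi : ∀ x ∈ A, ∀ y ∈ A, y ∉ rN c x := fun x hx y hy h => WStab1_tri hc hx hy h
  have hBi : ∀ x ∈ B, ∀ y ∈ B, y ∉ rN c x := fun x hx y hy h => WStab1_tri hc hx hy h
  set W := (Finset.univ : Finset (Fin n)) \ (A ∪ B) with hW
  have hcard : (A.card : ℝ) + B.card + W.card = n := by
    have h4 : (A ∪ B).card = A.card + B.card := Finset.card_union_of_disjoint hdisj
    have h5 : W.card + (A ∪ B).card = n := by
      rw [hW, Finset.card_sdiff_add_card_eq_card (Finset.subset_univ _), Finset.card_univ,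
        Fintype.card_fin]
    rw [h4] at h5
    have : ((W.card + (A.card + B.card) : ℕ) : ℝ) = n := by rw [h5]
    push_cast at this
    linarith
  have hWc : (W.card : ℝ) ≤ 4 * e * n := by
    have h4 : 4 * m / n ≤ (A.card : ℝ) + B.card := hpd
    have h5 : (1 - 4 * e) * n ≤ 4 * m / n := by
      rw [le_div_iff₀ hn0]
      nlinarith
    nlinarith
  set EAB := (A ×ˢ B).filter fun p => p.2 ∈ rN c p.1 with hE
  have hEcard : (EAB.card : ℝ) = ∑ x, ∑ y ∈ rN c x, (if x ∈ A ∧ y ∈ B then (1 : ℝ) else 0) := by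
    have h4 : (EAB.card : ℝ) = ∑ p ∈ A ×ˢ B, (if p.2 ∈ rN c p.1 then (1 : ℝ) else 0) := by
      rw [hE, Finset.card_filter]
      push_cast
      rfl
    rw [h4, Finset.sum_product, ← Finset.sum_filter_add_sum_filter_not Finset.univ (fun x => x ∈ A)]
    have h5 : ∑ x ∈ Finset.univ.filter (fun x => x ∉ A), ∑ y ∈ rN c x,
        (if x ∈ A ∧ y ∈ B then (1 : ℝ) else 0) = 0 := by
      refine Finset.sum_eq_zero fun x hx => Finset.sum_eq_zero fun y _ => ?_
      rw [if_neg]
      exact fun h => (Finset.mem_filter.1 hx).2 h.1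
    rw [h5, add_zero]
    have h6 : Finset.univ.filter (fun x => x ∈ A) = A := by
      ext x
      simp
    rw [h6]
    refine Finset.sum_congr rfl fun x hx => ?_
    rw [← Finset.sum_filter, ← Finset.sum_filter]
    refine Finset.sum_congr ?_ fun _ _ => rfl
    ext y
    simp only [Finset.mem_filter]
    tauto
  have hWsum : ∑ x, ∑ y ∈ rN c x, (if x ∈ W then (1 : ℝ) else 0) ≤ W.card * n := by
    have h4 : ∀ x : Fin n, ∑ y ∈ rN c x, (if x ∈ W then (1 : ℝ) else 0) ≤
        (if x ∈ W then (n : ℝ) else 0) := by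
      intro x
      rw [Finset.sum_const, nsmul_eq_mul]
      split_ifs
      · rw [mul_one]
        have : (rN c x).card ≤ n := by
          have := Finset.card_le_univ (rN c x)
          rwa [Fintype.card_fin] at this
        exact_mod_cast this
      · rw [mul_zero]
    refine (Finset.sum_le_sum fun x _ => h4 x).trans ?_
    rw [← Finset.sum_filter, Finset.sum_const, nsmul_eq_mul]
    have h6 : Finset.univ.filter (fun x => x ∈ W) = W := by
      ext x
      simp
    rw [h6]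
  have hmle : m ≤ EAB.card + W.card * n := by
    rw [hEcard]
    refine le_trans ?_ (add_le_add le_rfl hWsum)
    rw [WStab1_sum, WStab1_sum, ← Finset.sum_add_distrib, hm, Finset.card_eq_sum_ones]
    push_cast
    refine Finset.sum_le_sum fun p hp => ?_
    have hadj : p.2 ∈ rN c p.1 := WStab1_mem.2 (Or.inl (Finset.mem_filter.1 hp).2)
    have hnn : ∀ (P : Prop) [Decidable P], (0 : ℝ) ≤ (if P then (1 : ℝ) else 0) := by
      intro P _
      split_ifs <;> norm_num
    have hmem : ∀ x : Fin n, x ∈ A ∨ x ∈ B ∨ x ∈ W := by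
      intro x
      by_cases h1 : x ∈ A
      · exact Or.inl h1
      by_cases h2 : x ∈ B
      · exact Or.inr (Or.inl h2)
      · refine Or.inr (Or.inr ?_)
        rw [hW, Finset.mem_sdiff, Finset.mem_union]
        exact ⟨Finset.mem_univ _, fun h => h.elim h1 h2⟩
    rcases hmem p.1 with h1 | h1 | h1
    · rcases hmem p.2 with h2 | h2 | h2
      · exact absurd hadj (hAi _ h1 _ h2)
      · rw [if_pos ⟨h1, h2⟩]
        have := hnn (p.2 ∈ A ∧ p.1 ∈ B)
        have := hnn (p.1 ∈ W)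
        have := hnn (p.2 ∈ W)
        linarith
      · rw [if_pos h2]
        have := hnn (p.2 ∈ A ∧ p.1 ∈ B)
        have := hnn (p.1 ∈ W)
        have := hnn (p.1 ∈ A ∧ p.2 ∈ B)
        linarith
    · rcases hmem p.2 with h2 | h2 | h2
      · rw [if_pos (⟨h2, h1⟩ : p.2 ∈ A ∧ p.1 ∈ B)]
        have := hnn (p.1 ∈ A ∧ p.2 ∈ B)
        have := hnn (p.1 ∈ W)
        have := hnn (p.2 ∈ W)
        linarith
      · exact absurd hadj (hBi _ h1 _ h2)
      · rw [if_pos h2]
        have := hnn (p.2 ∈ A ∧ p.1 ∈ B)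
        have := hnn (p.1 ∈ W)
        have := hnn (p.1 ∈ A ∧ p.2 ∈ B)
        linarith
    · rw [if_pos h1]
      have := hnn (p.2 ∈ A ∧ p.1 ∈ B)
      have := hnn (p.2 ∈ W)
      have := hnn (p.1 ∈ A ∧ p.2 ∈ B)
      linarith
  have hWn : (W.card : ℝ) * n ≤ 4 * e * (n : ℝ) ^ 2 := by
    nlinarith
  have hElow : (1 / 4 - 5 * e) * (n : ℝ) ^ 2 ≤ EAB.card := by
    nlinarith
  have hfc : (EAB.card : ℝ) + (((A ×ˢ B).filter fun p => p.2 ∉ rN c p.1).card : ℝ) =
      A.card * B.card := by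
    have := Finset.card_filter_add_card_filter_not (s := A ×ˢ B) (fun p => p.2 ∈ rN c p.1)
    rw [Finset.card_product] at this
    exact_mod_cast this
  have hW0 : (0 : ℝ) ≤ W.card := by positivity
  have hA0 : (0 : ℝ) ≤ A.card := by positivity
  have hB0 : (0 : ℝ) ≤ B.card := by positivity
  have hF0 : (0 : ℝ) ≤ (((A ×ˢ B).filter fun p => p.2 ∉ rN c p.1).card : ℝ) := by positivity
  have hs2 : √e ^ 2 = e := Real.sq_sqrt he.le
  have hs0 : 0 ≤ √e := Real.sqrt_nonneg e
  have hn2 : 0 < (n : ℝ) ^ 2 := by positivity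
  refine ⟨A, B, hdisj, ?_, ?_, hAi, hBi, ?_⟩
  · apply abs_le_of_sq_le_sq _ (by positivity)
    have h4 : (A.card : ℝ) * B.card ≤ A.card * (n - A.card) :=
      mul_le_mul_of_nonneg_left (by linarith) hA0
    have h5 : (4 * √e * n) ^ 2 = 16 * e * (n : ℝ) ^ 2 := by
      rw [mul_pow, mul_pow, hs2]
      ring
    rw [h5]
    have h6 : 0 ≤ e * (n : ℝ) ^ 2 := by positivity
    linarith
  · apply abs_le_of_sq_le_sq _ (by positivity)
    have h4 : (A.card : ℝ) * B.card ≤ (n - B.card) * B.card :=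
      mul_le_mul_of_nonneg_right (by linarith) hB0
    have h5 : (4 * √e * n) ^ 2 = 16 * e * (n : ℝ) ^ 2 := by
      rw [mul_pow, mul_pow, hs2]
      ring
    rw [h5]
    have h6 : 0 ≤ e * (n : ℝ) ^ 2 := by positivity
    linarith
  · have h4 : (A.card : ℝ) * B.card ≤ A.card * (n - A.card) :=
      mul_le_mul_of_nonneg_left (by linarith) hA0
    have h6 := sq_nonneg ((A.card : ℝ) - n / 2)
    linarith

end Pool.Agent.H.MP_82502e_co
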