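import Pool.Agent.H.MP_82502e_co.WStabD
import Pool.Agent.H.MP_82502e_co.Sample

set_option autoImplicit false

/-!
# The window: stability of types, step 2
-/

namespace Pool.Agent.H.MP_82502e_co

open Finset Real

variable {n : ℕ}

/-- (aux) the relation of being R-neighbours is symmetric. -/
theorem WStab2_symm (c : Fin n × Fin n → Col) (x y : Fin n) : y ∈ rN c x ↔ x ∈ rN c y := by
  unfold rN
  rw [mem_filter, mem_filter]
  constructor
  · rintro ⟨-, h | h⟩
    · exact ⟨mem_univ _, Or.inr h⟩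
    · exact ⟨mem_univ _, Or.inl h⟩
  · rintro ⟨-, h | h⟩
    · exact ⟨mem_univ _, Or.inr h⟩
    · exact ⟨mem_univ _, Or.inl h⟩

/-- (aux) few points of `B` are below the lower end of an O-pair of normal points. -/
theorem WStab2_side (c : Fin n × Fin n → Col) (hc : Closed c) (B : Finset (Fin n)) (t : ℝ)
    (x x' : Fin n) (hlt : x < x') (hO : c (x, x') = Col.O)
    (h1 : ((B.filter fun y => y ∉ rN c x).card : ℝ) ≤ t)
    (h2 : ((B.filter fun y => y ∉ rN c x').card : ℝ) ≤ t) :
    ((B.filter fun y => y < x).card : ℝ) ≤ 2 * t := by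
  have hsub : (B.filter fun y => y < x) ⊆
      (B.filter fun y => y ∉ rN c x) ∪ (B.filter fun y => y ∉ rN c x') := by
    intro y hy
    obtain ⟨hyB, hyx⟩ := mem_filter.1 hy
    rw [mem_union, mem_filter, mem_filter]
    by_contra hcon
    rw [not_or] at hcon
    have h3 : y ∈ rN c x := by
      by_contra h4
      exact hcon.1 ⟨hyB, h4⟩
    have h5 : y ∈ rN c x' := by
      by_contra h4
      exact hcon.2 ⟨hyB, h4⟩
    have h6 : c (y, x) = Col.R := by
      rcases (mem_filter.1 h3).2 with h | h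
      · exact absurd h.1 (not_lt.2 hyx.le)
      · exact h.2
    have h7 : c (y, x') = Col.R := by
      rcases (mem_filter.1 h5).2 with h | h
      · exact absurd h.1 (not_lt.2 (hyx.trans hlt).le)
      · exact h.2
    rcases hc y x x' hyx hlt (Or.inl h6) (Or.inr hO) with h | h
    · rw [h7] at h
      exact absurd h (by decide)
    · rw [h7] at h
      exact absurd h (by decide)
  have h3 : ((B.filter fun y => y < x).card : ℝ) ≤
      ((B.filter fun y => y ∉ rN c x).card : ℝ) + ((B.filter fun y => y ∉ rN c x').card : ℝ) := by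
    exact_mod_cast (card_le_card hsub).trans (card_union_le _ _)
  linarith

/-- (aux) the number of points with many misses. -/
theorem WStab2_abn (P : Fin n → Fin n → Prop) [DecidableRel P] (A B : Finset (Fin n)) (t M : ℝ)
    (hM : (((A ×ˢ B).filter fun p => P p.1 p.2).card : ℝ) ≤ M) :
    ((A.filter fun x => t < ((B.filter fun y => P x y).card : ℝ)).card : ℝ) * t ≤ M := by
  refine le_trans ?_ hM
  have h1 : (((A ×ˢ B).filter fun p => P p.1 p.2).card : ℝ) =
      ∑ x ∈ A, ((B.filter fun y => P x y).card : ℝ) := by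
    rw [card_filter, sum_product]
    push_cast
    refine sum_congr rfl fun x _ => ?_
    rw [card_filter]
    push_cast
    rfl
  rw [h1, ← nsmul_eq_mul, ← sum_const]
  calc ∑ x ∈ A.filter (fun x => t < ((B.filter fun y => P x y).card : ℝ)), t
      ≤ ∑ x ∈ A.filter (fun x => t < ((B.filter fun y => P x y).card : ℝ)),
          ((B.filter fun y => P x y).card : ℝ) :=
        sum_le_sum fun x hx => (mem_filter.1 hx).2.le
    _ ≤ ∑ x ∈ A, ((B.filter fun y => P x y).card : ℝ) :=
        sum_le_sum_of_subset_of_nonneg (filter_subset _ _) fun _ _ _ => Nat.cast_nonneg _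

open Classical in
/-- (aux) normal points. -/
noncomputable def WStab2_nor (c : Fin n × Fin n → Col) (A B : Finset (Fin n)) (t : ℝ) :
    Finset (Fin n) :=
  A.filter fun x => ¬ t < ((B.filter fun y => y ∉ rN c x).card : ℝ)

open Classical in
/-- (aux) lower ends of O-pairs of normal points. -/
noncomputable def WStab2_low (c : Fin n × Fin n → Col) (A B : Finset (Fin n)) (t : ℝ) :
    Finset (Fin n) :=
  (WStab2_nor c A B t).filter fun x => ∃ x' ∈ WStab2_nor c A B t, x < x' ∧ c (x, x') = Col.O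

open Classical in
/-- (aux) the number of O-pairs of a side. -/
theorem WStab2_cnt (c : Fin n × Fin n → Col) (A B : Finset (Fin n)) (t u v : ℝ)
    (hu : ((A.filter fun x => t < ((B.filter fun y => y ∉ rN c x).card : ℝ)).card : ℝ) ≤ u)
    (hv : ((WStab2_low c A B t).card : ℝ) ≤ v) :
    (((A ×ˢ A).filter fun p => p ∈ cpairs c Col.O).card : ℝ) ≤ (2 * u + v) * n := by
  set Z := A.filter fun x => t < ((B.filter fun y => y ∉ rN c x).card : ℝ) with hZ
  have hsub : ((A ×ˢ A).filter fun p => p ∈ cpairs c Col.O) ⊆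
      (Z ×ˢ (univ : Finset (Fin n))) ∪ (((univ : Finset (Fin n)) ×ˢ Z) ∪
        (WStab2_low c A B t ×ˢ (univ : Finset (Fin n)))) := by
    rintro ⟨x, x'⟩ hp
    obtain ⟨hp1, hp2⟩ := mem_filter.1 hp
    obtain ⟨hx, hx'⟩ := mem_product.1 hp1
    obtain ⟨-, hlt, hO⟩ := mem_filter.1 hp2
    rw [mem_union, mem_union, mem_product, mem_product, mem_product]
    by_cases h1 : x ∈ Z
    · exact Or.inl ⟨h1, mem_univ _⟩
    by_cases h2 : x' ∈ Z
    · exact Or.inr (Or.inl ⟨mem_univ _, h2⟩)
    refine Or.inr (Or.inr ⟨?_, mem_univ _⟩)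
    have h3 : x ∈ WStab2_nor c A B t := by
      refine mem_filter.2 ⟨hx, fun h => h1 ?_⟩
      exact mem_filter.2 ⟨hx, h⟩
    have h4 : x' ∈ WStab2_nor c A B t := by
      refine mem_filter.2 ⟨hx', fun h => h2 ?_⟩
      exact mem_filter.2 ⟨hx', h⟩
    exact mem_filter.2 ⟨h3, x', h4, hlt, hO⟩
  have h1 : (((A ×ˢ A).filter fun p => p ∈ cpairs c Col.O).card : ℝ) ≤
      (Z.card : ℝ) * n + (n * (Z.card : ℝ) + ((WStab2_low c A B t).card : ℝ) * n) := by
    have h2 := (card_le_card hsub).trans ((card_union_le _ _).trans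
      (Nat.add_le_add_left (card_union_le _ _) _))
    rw [card_product, card_product, card_product, card_univ, Fintype.card_fin] at h2
    exact_mod_cast h2
  have hn : (0 : ℝ) ≤ n := Nat.cast_nonneg _
  have h2 := mul_le_mul_of_nonneg_right hu hn
  have h3 := mul_le_mul_of_nonneg_right hv hn
  nlinarith

open Classical in
/-- (aux) the points of `B` below a point of the low set. -/
theorem WStab2_below (c : Fin n × Fin n → Col) (hc : Closed c) (A B : Finset (Fin n)) (t : ℝ)
    {x : Fin n} (hx : x ∈ WStab2_low c A B t) :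
    ((B.filter fun y => y < x).card : ℝ) ≤ 2 * t := by
  obtain ⟨h1, x', h2, hlt, hO⟩ := mem_filter.1 hx
  exact WStab2_side c hc B t x x' hlt hO (not_lt.1 (mem_filter.1 h1).2)
    (not_lt.1 (mem_filter.1 h2).2)

open Classical in
/-- (aux) the product of the sizes of the low sets. -/
theorem WStab2_prod (c : Fin n × Fin n → Col) (hc : Closed c) (A B : Finset (Fin n))
    (hAB : Disjoint A B) (t : ℝ) :
    ((WStab2_low c A B t).card : ℝ) * ((WStab2_low c B A t).card : ℝ) ≤
      2 * t * (((WStab2_low c A B t).card : ℝ) + ((WStab2_low c B A t).card : ℝ)) := by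
  set X := WStab2_low c A B t with hX
  set Y := WStab2_low c B A t with hY
  have hXA : X ⊆ A := (filter_subset _ _).trans (filter_subset _ _)
  have hYB : Y ⊆ B := (filter_subset _ _).trans (filter_subset _ _)
  have h1 : ((X ×ˢ Y).card : ℝ) ≤ (((X ×ˢ Y).filter fun p => p.2 < p.1).card : ℝ) +
      (((X ×ˢ Y).filter fun p => p.1 < p.2).card : ℝ) := by
    have h2 : X ×ˢ Y ⊆ ((X ×ˢ Y).filter fun p => p.2 < p.1) ∪
        ((X ×ˢ Y).filter fun p => p.1 < p.2) := by
      rintro ⟨x, y⟩ hp
      obtain ⟨hx, hy⟩ := mem_product.1 hp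
      rw [mem_union, mem_filter, mem_filter]
      have hne : x ≠ y := fun h => by
        subst h
        exact (Finset.disjoint_left.1 hAB (hXA hx)) (hYB hy)
      rcases lt_or_gt_of_ne hne with h | h
      · exact Or.inr ⟨hp, h⟩
      · exact Or.inl ⟨hp, h⟩
    exact_mod_cast (card_le_card h2).trans (card_union_le _ _)
  have h2 : (((X ×ˢ Y).filter fun p => p.2 < p.1).card : ℝ) ≤ X.card * (2 * t) := by
    have e : (((X ×ˢ Y).filter fun p => p.2 < p.1).card : ℝ) =
        ∑ x ∈ X, ((Y.filter fun y => y < x).card : ℝ) := by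
      rw [card_filter, sum_product]
      push_cast
      refine sum_congr rfl fun x _ => ?_
      rw [card_filter]
      push_cast
      rfl
    rw [e, ← nsmul_eq_mul, ← sum_const]
    refine sum_le_sum fun x hx => ?_
    refine le_trans ?_ (WStab2_below c hc A B t hx)
    exact_mod_cast card_le_card (filter_subset_filter _ hYB)
  have h3 : (((X ×ˢ Y).filter fun p => p.1 < p.2).card : ℝ) ≤ Y.card * (2 * t) := by
    have e : (((X ×ˢ Y).filter fun p => p.1 < p.2).card : ℝ) =
        ∑ y ∈ Y, ((X.filter fun x => x < y).card : ℝ) := by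
      rw [card_filter, sum_product_right]
      push_cast
      refine sum_congr rfl fun x _ => ?_
      rw [card_filter]
      push_cast
      rfl
    rw [e, ← nsmul_eq_mul, ← sum_const]
    refine sum_le_sum fun y hy => ?_
    refine le_trans ?_ (WStab2_below c hc B A t hy)
    exact_mod_cast card_le_card (filter_subset_filter _ hXA)
  rw [card_product] at h1
  push_cast at h1
  linarith

/-- **Step 2**: one of the two sides has few O-pairs. `A`, `B` as in Step 1. Call a point normal if it misses at most `q n` R-neighbours on the other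
side, `q = √e`; all but `5 √e n` points of `A`, `B` are normal. For an O-pair `x < x'` of normal points of `A` the common R-neighbours `y ∈ B` satisfy
`x < y < x'` (`y < x`: R and O force O/E for `(y,x')`; `x' < y`: O and R force O/E for `(x,y)`). `Alow` = normal points of `A` that are the lower end of an O-pair of
normal points of `A`, `Ahigh` similarly. `x ∈ Alow`: at most `2 q n` points of `B` are below `x`; dually for `Ahigh`, so they are disjoint.
`Alow × Blow`: for each pair one is below the other in `Fin n`, so `|Alow||Blow| ≤ 2 q n (|Alow| + |Blow|) ≤ 2 q n²`, so one of them has at most `√(2q) n`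
points; an O-pair in that side has a non-normal point or its lower end in the small set. -/
theorem stab_two {e : ℝ} (he : 0 < e) (he1 : e ≤ 1 / 10000) (c : Fin n × Fin n → Col)
    (hc : Closed c) (A B : Finset (Fin n)) (hAB : Disjoint A B)
    (hA : |(A.card : ℝ) - n / 2| ≤ 4 * √e * n) (hB : |(B.card : ℝ) - n / 2| ≤ 4 * √e * n)
    (hm : (((A ×ˢ B).filter fun p => p.2 ∉ rN c p.1).card : ℝ) ≤ 5 * e * (n : ℝ) ^ 2) :
    (((A ×ˢ A).filter fun p => p ∈ cpairs c Col.O).card : ℝ) ≤ 10 * √(√e) * (n : ℝ) ^ 2 ∨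
      (((B ×ˢ B).filter fun p => p ∈ cpairs c Col.O).card : ℝ) ≤ 10 * √(√e) * (n : ℝ) ^ 2 := by
  classical
  rcases Nat.eq_zero_or_pos n with hn | hn
  · subst hn
    left
    rw [Finset.eq_empty_of_isEmpty A]
    simp
  have hn' : (0 : ℝ) < n := by exact_mod_cast hn
  obtain ⟨s, hs0, hs1, hse⟩ : ∃ s : ℝ, 0 < s ∧ s ≤ 1 / 10 ∧ √e = s ^ 2 ∧ √(√e) = s := by
    refine ⟨√(√e), Real.sqrt_pos.2 (Real.sqrt_pos.2 he), ?_, ?_, rfl⟩
    · rw [Real.sqrt_le_left (by norm_num)]
      rw [Real.sqrt_le_left (by norm_num)]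
      linarith
    · rw [Real.sq_sqrt (Real.sqrt_nonneg _)]
  obtain ⟨hq, hs⟩ := hse
  have he4 : e = s ^ 4 := by
    have h := Real.sq_sqrt he.le
    rw [hq] at h
    rw [← h]
    ring
  rw [hs]
  have hm' : (((B ×ˢ A).filter fun p => p.2 ∉ rN c p.1).card : ℝ) ≤ 5 * e * (n : ℝ) ^ 2 := by
    refine le_trans (le_of_eq ?_) hm
    congr 1
    refine Finset.card_bij (fun p _ => (p.2, p.1)) ?_ ?_ ?_
    · rintro ⟨y, x⟩ hp
      obtain ⟨h1, h2⟩ := mem_filter.1 hp
      obtain ⟨h3, h4⟩ := mem_product.1 h1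
      exact mem_filter.2 ⟨mem_product.2 ⟨h4, h3⟩, fun h => h2 ((WStab2_symm c _ _).1 h)⟩
    · rintro ⟨y, x⟩ _ ⟨y', x'⟩ _ h
      simp only [Prod.mk.injEq] at h
      rw [h.1, h.2]
    · rintro ⟨x, y⟩ hp
      obtain ⟨h1, h2⟩ := mem_filter.1 hp
      obtain ⟨h3, h4⟩ := mem_product.1 h1
      exact ⟨(y, x), mem_filter.2 ⟨mem_product.2 ⟨h4, h3⟩,
        fun h => h2 ((WStab2_symm c _ _).1 h)⟩, rfl⟩
  set t : ℝ := s ^ 2 * n with ht
  have ht0 : 0 < t := by positivity
  have hu : ∀ A B : Finset (Fin n),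
      (((A ×ˢ B).filter fun p => p.2 ∉ rN c p.1).card : ℝ) ≤ 5 * e * (n : ℝ) ^ 2 →
      ((A.filter fun x => t < ((B.filter fun y => y ∉ rN c x).card : ℝ)).card : ℝ) ≤
        5 * s ^ 2 * n := by
    intro A B h
    have h1 := WStab2_abn (fun x y => y ∉ rN c x) A B t _ h
    rw [← mul_le_mul_iff_left₀ ht0]
    refine h1.trans (le_of_eq ?_)
    rw [ht, he4]
    ring
  have hcard : ((WStab2_low c A B t).card : ℝ) + ((WStab2_low c B A t).card : ℝ) ≤ n := by
    have hXA : WStab2_low c A B t ⊆ A := (filter_subset _ _).trans (filter_subset _ _)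
    have hYB : WStab2_low c B A t ⊆ B := (filter_subset _ _).trans (filter_subset _ _)
    have h1 : (WStab2_low c A B t).card + (WStab2_low c B A t).card ≤ n := by
      rw [← card_union_of_disjoint (Finset.disjoint_of_subset_left hXA
        (Finset.disjoint_of_subset_right hYB hAB))]
      refine (card_le_univ _).trans (le_of_eq ?_)
      rw [Fintype.card_fin]
    exact_mod_cast h1
  have hprod := WStab2_prod c hc A B hAB t
  have hp2 : ((WStab2_low c A B t).card : ℝ) * ((WStab2_low c B A t).card : ℝ) ≤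
      2 * s ^ 2 * (n : ℝ) ^ 2 := by
    refine hprod.trans ?_
    have := mul_le_mul_of_nonneg_left hcard (by positivity : (0 : ℝ) ≤ 2 * t)
    refine this.trans (le_of_eq ?_)
    rw [ht]
    ring
  have hfin : ∀ A B : Finset (Fin n),
      (((A ×ˢ B).filter fun p => p.2 ∉ rN c p.1).card : ℝ) ≤ 5 * e * (n : ℝ) ^ 2 →
      ((WStab2_low c A B t).card : ℝ) ≤ 2 * s * n →
      (((A ×ˢ A).filter fun p => p ∈ cpairs c Col.O).card : ℝ) ≤ 10 * s * (n : ℝ) ^ 2 := by
    intro A B h1 h2
    refine (WStab2_cnt c A B t _ _ (hu A B h1) h2).trans ?_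
    have h3 : (2 * (5 * s ^ 2 * (n : ℝ)) + 2 * s * n) * n = (10 * s ^ 2 + 2 * s) * (n : ℝ) ^ 2 := by
      ring
    rw [h3]
    refine mul_le_mul_of_nonneg_right ?_ (by positivity)
    nlinarith
  by_cases hX : ((WStab2_low c A B t).card : ℝ) ≤ 2 * s * n
  · exact Or.inl (hfin A B hm hX)
  · refine Or.inr (hfin B A hm' ?_)
    by_contra hY
    push Not at hX hY
    have h1 : (2 * s * n) * (2 * s * n) <
        ((WStab2_low c A B t).card : ℝ) * ((WStab2_low c B A t).card : ℝ) :=
      mul_lt_mul'' hX hY (by positivity) (by positivity)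
    have h2 : (0 : ℝ) < s ^ 2 * (n : ℝ) ^ 2 := by positivity
    nlinarith

end Pool.Agent.H.MP_82502e_co
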