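import Pool.Agent.H.MP_82502e_co.WStab1
import Pool.Agent.H.MP_82502e_co.WStab2

set_option autoImplicit false

/-!
# The window: stability of types, step 3
-/

namespace Pool.Agent.H.MP_82502e_co

open Finset Real

variable {n : ℕ}

theorem WStab3_fst (C : Fin n → Prop) [DecidablePred C] (F : Fin n → Finset (Fin n)) {k : ℝ}
    (hk : 0 ≤ k) (h : ∀ u, C u → ((F u).card : ℝ) ≤ k) :
    (((univ : Finset (Fin n × Fin n)).filter fun p => C p.1 ∧ p.2 ∈ F p.1).card : ℝ) ≤ n * k := by
  rw [Finset.card_filter, Fintype.sum_prod_type]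
  push_cast
  have h1 : ∀ u : Fin n, (∑ v : Fin n, (if C u ∧ v ∈ F u then (1 : ℝ) else 0)) ≤ k := by
    intro u
    by_cases hu : C u
    · have h2 : (∑ v : Fin n, (if C u ∧ v ∈ F u then (1 : ℝ) else 0)) = ((F u).card : ℝ) := by
        simp [hu]
      rw [h2]
      exact h u hu
    · simp [hu, hk]
  calc (∑ u : Fin n, ∑ v : Fin n, (if C u ∧ v ∈ F u then (1 : ℝ) else 0))
      ≤ ∑ _u : Fin n, k := Finset.sum_le_sum fun u _ => h1 u
    _ = n * k := by simp

theorem WStab3_snd (C : Fin n → Prop) [DecidablePred C] (F : Fin n → Finset (Fin n)) {k : ℝ}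
    (hk : 0 ≤ k) (h : ∀ u, C u → ((F u).card : ℝ) ≤ k) :
    (((univ : Finset (Fin n × Fin n)).filter fun p => C p.2 ∧ p.1 ∈ F p.2).card : ℝ) ≤ n * k := by
  rw [Finset.card_filter, Fintype.sum_prod_type_right]
  push_cast
  have h1 : ∀ u : Fin n, (∑ v : Fin n, (if C u ∧ v ∈ F u then (1 : ℝ) else 0)) ≤ k := by
    intro u
    by_cases hu : C u
    · have h2 : (∑ v : Fin n, (if C u ∧ v ∈ F u then (1 : ℝ) else 0)) = ((F u).card : ℝ) := by
        simp [hu]
      rw [h2]
      exact h u hu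
    · simp [hu, hk]
  calc (∑ u : Fin n, ∑ v : Fin n, (if C u ∧ v ∈ F u then (1 : ℝ) else 0))
      ≤ ∑ _u : Fin n, k := Finset.sum_le_sum fun u _ => h1 u
    _ = n * k := by simp

/-- All pairs which meet `W`. -/
theorem WStab3_meet (W : Finset (Fin n)) :
    (((univ : Finset (Fin n × Fin n)).filter fun p => p.1 ∈ W ∨ p.2 ∈ W).card : ℝ)
      ≤ 2 * W.card * n := by
  have h1 : ((univ : Finset (Fin n × Fin n)).filter fun p => p.1 ∈ W ∨ p.2 ∈ W) ⊆
      (W ×ˢ univ) ∪ (univ ×ˢ W) := by
    intro p hp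
    rw [mem_filter] at hp
    rw [mem_union, mem_product, mem_product]
    rcases hp.2 with h | h
    · exact Or.inl ⟨h, mem_univ _⟩
    · exact Or.inr ⟨mem_univ _, h⟩
  have h2 := (card_le_card h1).trans (card_union_le _ _)
  rw [card_product, card_product, card_univ, Fintype.card_fin] at h2
  have h3 : (((univ : Finset (Fin n × Fin n)).filter fun p => p.1 ∈ W ∨ p.2 ∈ W).card : ℝ) ≤
      (W.card : ℝ) * n + n * W.card := by exact_mod_cast h2
  linarith

/-- missing R-neighbours -/
def WStab3_M (c : Fin n × Fin n → Col) (B : Finset (Fin n)) (x : Fin n) : Finset (Fin n) :=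
  B.filter fun y => y ∉ rN c x

/-- lower R-neighbours -/
def WStab3_P (c : Fin n × Fin n → Col) (B : Finset (Fin n)) (x : Fin n) : Finset (Fin n) :=
  B.filter fun y => y < x ∧ c (y, x) = Col.R

/-- upper R-neighbours -/
def WStab3_Q (c : Fin n × Fin n → Col) (B : Finset (Fin n)) (x : Fin n) : Finset (Fin n) :=
  B.filter fun y => x < y ∧ c (x, y) = Col.R

theorem WStab3_split (c : Fin n × Fin n → Col) (B : Finset (Fin n)) (x : Fin n) :
    B.card ≤ (WStab3_M c B x).card + (WStab3_P c B x).card + (WStab3_Q c B x).card := by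
  have h1 : B ⊆ WStab3_M c B x ∪ WStab3_P c B x ∪ WStab3_Q c B x := by
    intro y hy
    rw [mem_union, mem_union, WStab3_M, WStab3_P, WStab3_Q, mem_filter, mem_filter, mem_filter]
    by_cases h : y ∈ rN c x
    · rw [rN, mem_filter] at h
      rcases h.2 with h2 | h2
      · exact Or.inr ⟨hy, h2⟩
      · exact Or.inl (Or.inr ⟨hy, h2⟩)
    · exact Or.inl (Or.inl ⟨hy, h⟩)
  exact (card_le_card h1).trans ((card_union_le _ _).trans
    (Nat.add_le_add_right (card_union_le _ _) _))

theorem WStab3_prod (c : Fin n × Fin n → Col) (hc : Closed c) (B : Finset (Fin n)) (x : Fin n) :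
    (WStab3_P c B x).card * (WStab3_Q c B x).card ≤
      ((B ×ˢ B).filter fun p => p ∈ cpairs c Col.O).card + (cpairs c Col.E).card := by
  rw [← card_product]
  refine (card_le_card ?_).trans (card_union_le _ _)
  intro p hp
  rw [mem_product, WStab3_P, WStab3_Q, mem_filter, mem_filter] at hp
  obtain ⟨⟨hp1, hp2, hp3⟩, hp4, hp5, hp6⟩ := hp
  have h1 := hc p.1 x p.2 hp2 hp5 (Or.inl hp3) (Or.inl hp6)
  rw [mem_union, mem_filter, mem_product, cpairs, cpairs, mem_filter, mem_filter]
  rcases h1 with h | h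
  · exact Or.inl ⟨⟨hp1, hp4⟩, mem_univ _, hp2.trans hp5, h⟩
  · exact Or.inr ⟨mem_univ _, hp2.trans hp5, h⟩

/-- For an O-pair `u < v` outside `B` the common R-neighbours in `B` lie between. -/
theorem WStab3_between (c : Fin n × Fin n → Col) (hc : Closed c) (B : Finset (Fin n))
    {u v : Fin n} (hu : u ∉ B) (hv : v ∉ B) (huv : u < v) (hO : c (u, v) = Col.O) :
    ∀ y ∈ B, y ∉ WStab3_M c B u → y ∉ WStab3_M c B v → y ∈ WStab3_Q c B u ∧ y ∈ WStab3_P c B v := by
  intro y hy h1 h2
  have h1' : y ∈ rN c u := by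
    by_contra h
    exact h1 (mem_filter.2 ⟨hy, h⟩)
  have h2' : y ∈ rN c v := by
    by_contra h
    exact h2 (mem_filter.2 ⟨hy, h⟩)
  rw [rN, mem_filter] at h1' h2'
  have hyu : y ≠ u := fun h => hu (h ▸ hy)
  have hyv : y ≠ v := fun h => hv (h ▸ hy)
  have k1 : u < y ∧ c (u, y) = Col.R := by
    rcases h1'.2 with h | h
    · exact h
    · exfalso
      have h3 := hc y u v h.1 huv (Or.inl h.2) (Or.inr hO)
      have h4 : c (y, v) = Col.R := by
        rcases h2'.2 with h5 | h5
        · exact absurd (h.1.trans huv) (not_lt.2 h5.1.le)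
        · exact h5.2
      rw [h4] at h3
      rcases h3 with h3 | h3 <;> exact absurd h3 (by decide)
  have k2 : y < v ∧ c (y, v) = Col.R := by
    rcases h2'.2 with h | h
    · exfalso
      have h3 := hc u v y huv h.1 (Or.inr hO) (Or.inl h.2)
      rw [k1.2] at h3
      rcases h3 with h3 | h3 <;> exact absurd h3 (by decide)
    · exact h
  exact ⟨mem_filter.2 ⟨hy, k1⟩, mem_filter.2 ⟨hy, k2⟩⟩

theorem WStab3_O (c : Fin n × Fin n → Col) (hc : Closed c) (B : Finset (Fin n))
    {u v : Fin n} (hu : u ∉ B) (hv : v ∉ B) (huv : u < v) (hO : c (u, v) = Col.O) :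
    B.card ≤ (WStab3_M c B u).card + (WStab3_M c B v).card + (WStab3_Q c B u).card ∧
    B.card ≤ (WStab3_M c B u).card + (WStab3_M c B v).card + (WStab3_P c B v).card := by
  have hb := WStab3_between c hc B hu hv huv hO
  constructor
  · have h1 : B ⊆ WStab3_M c B u ∪ WStab3_M c B v ∪ WStab3_Q c B u := by
      intro y hy
      rw [mem_union, mem_union]
      by_contra h
      push Not at h
      exact h.2 (hb y hy h.1.1 h.1.2).1
    exact (card_le_card h1).trans ((card_union_le _ _).trans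
      (Nat.add_le_add_right (card_union_le _ _) _))
  · have h1 : B ⊆ WStab3_M c B u ∪ WStab3_M c B v ∪ WStab3_P c B v := by
      intro y hy
      rw [mem_union, mem_union]
      by_contra h
      push Not at h
      exact h.2 (hb y hy h.1.1 h.1.2).2
    exact (card_le_card h1).trans ((card_union_le _ _).trans
      (Nat.add_le_add_right (card_union_le _ _) _))

theorem WStab3_missum (c : Fin n × Fin n → Col) (A B : Finset (Fin n)) :
    ((A ×ˢ B).filter fun p => p.2 ∉ rN c p.1).card = ∑ x ∈ A, (WStab3_M c B x).card := by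
  rw [Finset.card_filter, Finset.sum_product]
  refine Finset.sum_congr rfl fun x _ => ?_
  rw [WStab3_M, Finset.card_filter]

theorem WStab3_W (c : Fin n × Fin n → Col) (A B : Finset (Fin n)) (hn : 1 ≤ n) {e : ℝ}
    (hm : (((A ×ˢ B).filter fun p => p.2 ∉ rN c p.1).card : ℝ) ≤ e * (n : ℝ) ^ 2) :
    ((A.filter fun x => (n : ℝ) / 8 ≤ ((WStab3_M c B x).card : ℝ)).card : ℝ) ≤ 8 * e * n := by
  have hn' : (0 : ℝ) < n := by exact_mod_cast hn
  rw [WStab3_missum] at hm
  push_cast at hm
  have h1 : ((A.filter fun x => (n : ℝ) / 8 ≤ ((WStab3_M c B x).card : ℝ)).card : ℝ) * (n / 8)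
      ≤ ∑ x ∈ A, ((WStab3_M c B x).card : ℝ) := by
    calc ((A.filter fun x => (n : ℝ) / 8 ≤ ((WStab3_M c B x).card : ℝ)).card : ℝ) * (n / 8)
        = ∑ _x ∈ A.filter (fun x => (n : ℝ) / 8 ≤ ((WStab3_M c B x).card : ℝ)), (n / 8 : ℝ) := by
          rw [Finset.sum_const, nsmul_eq_mul]
      _ ≤ ∑ x ∈ A.filter (fun x => (n : ℝ) / 8 ≤ ((WStab3_M c B x).card : ℝ)),
            ((WStab3_M c B x).card : ℝ) :=
          Finset.sum_le_sum fun x hx => (mem_filter.1 hx).2
      _ ≤ _ := Finset.sum_le_sum_of_subset_of_nonneg (filter_subset _ _) fun _ _ _ => by positivity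
  have h2 := h1.trans hm
  by_contra h
  push Not at h
  have h3 := mul_lt_mul_of_pos_right h (show (0 : ℝ) < n / 8 by positivity)
  have h4 : 8 * e * n * (n / 8) = e * (n : ℝ) ^ 2 := by ring
  linarith

theorem WStab3_symm (c : Fin n × Fin n → Col) (x y : Fin n) : y ∈ rN c x ↔ x ∈ rN c y := by
  rw [rN, rN, mem_filter, mem_filter]
  constructor
  · rintro ⟨_, h | h⟩
    · exact ⟨mem_univ _, Or.inr h⟩
    · exact ⟨mem_univ _, Or.inl h⟩
  · rintro ⟨_, h | h⟩
    · exact ⟨mem_univ _, Or.inr h⟩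
    · exact ⟨mem_univ _, Or.inl h⟩

theorem WStab3_swap (c : Fin n × Fin n → Col) (A B : Finset (Fin n)) :
    ((B ×ˢ A).filter fun p => p.2 ∉ rN c p.1).card =
      ((A ×ˢ B).filter fun p => p.2 ∉ rN c p.1).card := by
  refine Finset.card_bij (fun p _ => p.swap) ?_ ?_ ?_
  · intro p hp
    rw [mem_filter, mem_product] at hp ⊢
    refine ⟨⟨hp.1.2, hp.1.1⟩, ?_⟩
    show p.1 ∉ rN c p.2
    rw [WStab3_symm]
    exact hp.2
  · intro p _ p' _ h
    exact Prod.swap_injective h
  · intro p hp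
    rw [mem_filter, mem_product] at hp
    refine ⟨p.swap, ?_, Prod.swap_swap p⟩
    rw [mem_filter, mem_product]
    refine ⟨⟨hp.1.2, hp.1.1⟩, ?_⟩
    show p.1 ∉ rN c p.2
    rw [WStab3_symm]
    exact hp.2

theorem WStab3_sq {a k : ℝ} (ha : 0 ≤ a) {e N : ℝ} (he : 0 ≤ e) (hN : 0 ≤ N) (hk : a ≤ k)
    (h : a * k ≤ 2 * e * N ^ 2) : a ≤ √(2 * e) * N := by
  have h1 : a ^ 2 ≤ (√(2 * e) * N) ^ 2 := by
    rw [mul_pow, Real.sq_sqrt (by linarith)]
    nlinarith
  exact (pow_le_pow_iff_left₀ ha (by positivity) two_ne_zero).1 h1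

/-- **Step 3**: the partition. `A`, `B` as in Step 1 and `B` has few O-pairs (`≤ e1 n²`). `M = B`; for `x ∈ A` let `p(x)` (`q(x)`) be the number of R-neighbours of `x` in
`B` that are below (above) `x`; `y < x < y'` R-neighbours give `(y,y') ∈ O ∪ E`, so `p q ≤ (e1 + e) n²` and `min(p,q) ≤ √(e1+e) n`. `X = {p ≤ q}`, `Y = A \ X`, and the points outside
`A ∪ B` (at most `8 √e n`) get any class. Then: pairs `m < x`, `m ∈ M`, `x ∈ X`: at most `p(x)` + (missing R-neighbours) per `x`, similarly `y < m`; `x ∈ X`, `y ∈ Y` with both few missing neighbours: there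
are `m ∈ B` with `x < m < y`, R and R, so `x < y` and colour O or E (`|E| ≤ e n²`); an O-pair `x < x'` in `X`: the common R-neighbours lie between them but `p(x')` is small: impossible unless one of the
two misses many neighbours; same in `Y`; R-pairs inside `A` or `B`: none; O-pairs inside `B`: few. -/
theorem stab_three {ε1 : ℝ} (h1 : 0 < ε1) : ∃ e0 : ℝ, 0 < e0 ∧ ∀ e : ℝ, 0 < e → e ≤ e0 →
    ∀ n : ℕ, 1 ≤ n → ∀ (c : Fin n × Fin n → Col), Closed c →
    ((cpairs c Col.E).card : ℝ) ≤ e * (n : ℝ) ^ 2 →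
    ∀ A B : Finset (Fin n), Disjoint A B → |(A.card : ℝ) - n / 2| ≤ e * n →
    |(B.card : ℝ) - n / 2| ≤ e * n →
    (∀ x ∈ A, ∀ y ∈ A, y ∉ rN c x) → (∀ x ∈ B, ∀ y ∈ B, y ∉ rN c x) →
    (((A ×ˢ B).filter fun p => p.2 ∉ rN c p.1).card : ℝ) ≤ e * (n : ℝ) ^ 2 →
    (((B ×ˢ B).filter fun p => p ∈ cpairs c Col.O).card : ℝ) ≤ e * (n : ℝ) ^ 2 →
    ∃ g : Fin n → Fin 3,
      |((univ.filter fun x => g x = 1).card : ℝ) - n / 2| ≤ ε1 * n ∧
      ((univ.filter fun p : Fin n × Fin n => (p ∈ cpairs c Col.R ∨ p ∈ cpairs c Col.O) ∧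
        g p.2 ≤ g p.1).card : ℝ) ≤ ε1 * (n : ℝ) ^ 2 ∧
      ((univ.filter fun p : Fin n × Fin n => g p.1 = 0 ∧ g p.2 = 2 ∧
        p ∉ cpairs c Col.O).card : ℝ) ≤ ε1 * (n : ℝ) ^ 2 := by
  obtain ⟨δ, hδ0, hδ1, hδ2⟩ : ∃ δ : ℝ, 0 < δ ∧ δ ≤ 1 / 20 ∧ δ ≤ ε1 / 20 :=
    ⟨min (1 / 20) (ε1 / 20), lt_min (by norm_num) (by linarith), min_le_left _ _, min_le_right _ _⟩
  refine ⟨δ ^ 2 / 2, by positivity, ?_⟩
  intro e he hle n hn c hc hE A B hAB hA hB hAA hBB hm hO
  have hn' : (0 : ℝ) < n := by exact_mod_cast hn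
  have hs : √(2 * e) ≤ δ := by
    rw [Real.sqrt_le_left hδ0.le]
    linarith
  have he2 : e ≤ δ / 40 := by nlinarith
  set κ : ℝ := √(2 * e) * n with hκ
  have hκ0 : 0 ≤ κ := by positivity
  have hκδ : κ ≤ δ * n := mul_le_mul_of_nonneg_right hs hn'.le
  have hBn : (n : ℝ) / 2 - e * n ≤ B.card := by
    have := (abs_le.1 hB).1
    linarith
  have hAn : (n : ℝ) / 2 - e * n ≤ A.card := by
    have := (abs_le.1 hA).1
    linarith
  -- small products
  have hPQ : ∀ x, ((WStab3_P c B x).card : ℝ) * (WStab3_Q c B x).card ≤ 2 * e * (n : ℝ) ^ 2 := by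
    intro x
    have h := WStab3_prod c hc B x
    have h2 : ((WStab3_P c B x).card : ℝ) * (WStab3_Q c B x).card ≤
        (((B ×ˢ B).filter fun p => p ∈ cpairs c Col.O).card : ℝ) + ((cpairs c Col.E).card : ℝ) := by
      exact_mod_cast h
    linarith
  have hPs : ∀ x, (WStab3_P c B x).card ≤ (WStab3_Q c B x).card →
      ((WStab3_P c B x).card : ℝ) ≤ κ := by
    intro x hx
    exact WStab3_sq (by positivity) he.le hn'.le (by exact_mod_cast hx) (hPQ x)
  have hQs : ∀ x, (WStab3_Q c B x).card ≤ (WStab3_P c B x).card →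
      ((WStab3_Q c B x).card : ℝ) ≤ κ := by
    intro x hx
    refine WStab3_sq (k := ((WStab3_P c B x).card : ℝ)) (by positivity) he.le hn'.le
      (by exact_mod_cast hx) ?_
    rw [mul_comm]
    exact hPQ x
  -- the sets
  set W : Finset (Fin n) := A.filter fun x => (n : ℝ) / 8 ≤ ((WStab3_M c B x).card : ℝ) with hW
  have hWc : (W.card : ℝ) ≤ 8 * e * n := WStab3_W c A B hn hm
  set D : Finset (Fin n) := univ \ (A ∪ B) with hD
  have hDc : (D.card : ℝ) ≤ 2 * e * n := by
    have h1 : D.card + (A ∪ B).card = n := by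
      have h2 := Finset.card_sdiff_add_card_eq_card (subset_univ (A ∪ B))
      rwa [card_univ, Fintype.card_fin] at h2
    rw [card_union_of_disjoint hAB] at h1
    have h3 : (D.card : ℝ) + (A.card + B.card) = n := by exact_mod_cast h1
    linarith
  have hmeetW := WStab3_meet W
  have hmeetD := WStab3_meet D
  have hW2 : 2 * (W.card : ℝ) * n ≤ 16 * e * (n : ℝ) ^ 2 := by nlinarith
  have hD2 : 2 * (D.card : ℝ) * n ≤ 4 * e * (n : ℝ) ^ 2 := by nlinarith
  have hWsmall : ∀ x ∈ A, x ∉ W → ((WStab3_M c B x).card : ℝ) < n / 8 := by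
    intro x hx hxW
    by_contra h
    push Not at h
    exact hxW (mem_filter.2 ⟨hx, h⟩)
  have hnotB : ∀ x ∈ A, x ∉ B := fun x hx hx' => (Finset.disjoint_left.1 hAB) hx hx'
  have hOA : ∀ u ∈ A, ∀ v ∈ A, u < v → c (u, v) = Col.O →
      (((WStab3_Q c B u).card : ℝ) ≤ κ ∨ ((WStab3_P c B v).card : ℝ) ≤ κ) → u ∈ W ∨ v ∈ W := by
    intro u hu v hv huv hO' hsm
    by_contra hcon
    push Not at hcon
    have k1 := hWsmall u hu hcon.1
    have k2 := hWsmall v hv hcon.2
    have k3 := WStab3_O c hc B (hnotB u hu) (hnotB v hv) huv hO'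
    have k4 : (B.card : ℝ) ≤ (WStab3_M c B u).card + (WStab3_M c B v).card +
        (WStab3_Q c B u).card := by exact_mod_cast k3.1
    have k5 : (B.card : ℝ) ≤ (WStab3_M c B u).card + (WStab3_M c B v).card +
        (WStab3_P c B v).card := by exact_mod_cast k3.2
    rcases hsm with h | h
    · nlinarith
    · nlinarith
  -- the partition
  classical
  set g : Fin n → Fin 3 := fun x => if x ∈ B then 1 else
    if x ∈ A ∧ (WStab3_Q c B x).card < (WStab3_P c B x).card then 2 else 0 with hg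
  have g1 : ∀ x, g x = 1 ↔ x ∈ B := by
    intro x
    rw [hg]
    by_cases hx : x ∈ B
    · simp [hx]
    · by_cases hy : x ∈ A ∧ (WStab3_Q c B x).card < (WStab3_P c B x).card
      · simp [hx, hy]
      · simp [hx, hy]
  have g2 : ∀ x, g x = 2 ↔ x ∉ B ∧ x ∈ A ∧ (WStab3_Q c B x).card < (WStab3_P c B x).card := by
    intro x
    rw [hg]
    by_cases hx : x ∈ B
    · simp [hx]
    · by_cases hy : x ∈ A ∧ (WStab3_Q c B x).card < (WStab3_P c B x).card
      · simp [hx, hy]
      · simp [hx, hy]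
  have g0 : ∀ x, g x = 0 → x ∉ B ∧ (x ∈ A → (WStab3_P c B x).card ≤ (WStab3_Q c B x).card) := by
    intro x hx
    refine ⟨fun h => ?_, fun hA' => ?_⟩
    · rw [(g1 x).2 h] at hx
      exact absurd hx (by decide)
    · by_contra h
      push Not at h
      by_cases hxB : x ∈ B
      · rw [(g1 x).2 hxB] at hx
        exact absurd hx (by decide)
      · rw [(g2 x).2 ⟨hxB, hA', h⟩] at hx
        exact absurd hx (by decide)
  have gcase : ∀ x, g x = 0 ∨ g x = 1 ∨ g x = 2 := by
    intro x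
    generalize g x = i
    fin_cases i <;> simp
  refine ⟨g, ?_, ?_, ?_⟩
  · have h1 : (univ.filter fun x => g x = 1) = B := by
      ext x
      simp [g1 x]
    rw [h1]
    refine hB.trans (mul_le_mul_of_nonneg_right ?_ hn'.le)
    linarith
  · set S2 := (B ×ˢ B).filter fun p => p ∈ cpairs c Col.O with hS2
    set S1 := (univ : Finset (Fin n × Fin n)).filter fun p => p.1 ∈ D ∨ p.2 ∈ D with hS1
    set S3 := (univ : Finset (Fin n × Fin n)).filter fun p => p.1 ∈ W ∨ p.2 ∈ W with hS3
    set S4 := (univ : Finset (Fin n × Fin n)).filter fun p =>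
      ((WStab3_Q c B p.1).card : ℝ) ≤ κ ∧ p.2 ∈ WStab3_Q c B p.1 with hS4
    set S5 := (univ : Finset (Fin n × Fin n)).filter fun p =>
      ((WStab3_P c B p.2).card : ℝ) ≤ κ ∧ p.1 ∈ WStab3_P c B p.2 with hS5
    set S6 := (A ×ˢ B).filter fun p => p.2 ∉ rN c p.1 with hS6
    set S7 := (B ×ˢ A).filter fun p => p.2 ∉ rN c p.1 with hS7
    have c4 : (S4.card : ℝ) ≤ n * κ :=
      WStab3_fst (fun u => ((WStab3_Q c B u).card : ℝ) ≤ κ) (WStab3_Q c B) hκ0 fun u hu => hu
    have c5 : (S5.card : ℝ) ≤ n * κ :=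
      WStab3_snd (fun u => ((WStab3_P c B u).card : ℝ) ≤ κ) (WStab3_P c B) hκ0 fun u hu => hu
    have c7 : (S7.card : ℝ) ≤ e * (n : ℝ) ^ 2 := by
      rw [hS7, WStab3_swap]
      exact hm
    have hsub : (univ.filter fun p : Fin n × Fin n => (p ∈ cpairs c Col.R ∨ p ∈ cpairs c Col.O) ∧
        g p.2 ≤ g p.1) ⊆ S1 ∪ S2 ∪ S3 ∪ S4 ∪ S5 ∪ S6 ∪ S7 := by
      rintro ⟨u, v⟩ hp
      rw [mem_filter] at hp
      obtain ⟨_, hcol, hgle⟩ := hp
      rw [cpairs, cpairs, mem_filter, mem_filter] at hcol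
      have huv : u < v := by
        rcases hcol with h | h
        · exact h.2.1
        · exact h.2.1
      have hcol' : c (u, v) = Col.R ∨ c (u, v) = Col.O := by
        rcases hcol with h | h
        · exact Or.inl h.2.2
        · exact Or.inr h.2.2
      simp only at hgle
      have hmemD : ∀ x, x ∉ D → x ∈ A ∨ x ∈ B := by
        intro x hx
        by_contra h
        exact hx (mem_sdiff.2 ⟨mem_univ _, fun h2 => h (mem_union.1 h2)⟩)
      by_cases hD' : u ∈ D ∨ v ∈ D
      · have : (u, v) ∈ S1 := mem_filter.2 ⟨mem_univ _, hD'⟩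
        exact mem_union_left _ (mem_union_left _ (mem_union_left _ (mem_union_left _ (mem_union_left _ (mem_union_left _ this)))))
      push Not at hD'
      rcases hmemD u hD'.1 with hu | hu <;> rcases hmemD v hD'.2 with hv | hv
      · -- both in A
        rcases hcol' with hR | hO'
        · exfalso
          exact hAA u hu v hv (mem_filter.2 ⟨mem_univ _, Or.inl ⟨huv, hR⟩⟩)
        · have hsm : ((WStab3_Q c B u).card : ℝ) ≤ κ ∨ ((WStab3_P c B v).card : ℝ) ≤ κ := by
            rcases gcase v with h | h | h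
            · exact Or.inr (hPs v ((g0 v h).2 hv))
            · exact absurd ((g1 v).1 h) (hnotB v hv)
            · have h2 : g u = 2 := by
                rw [h] at hgle
                have h3 : ∀ i : Fin 3, 2 ≤ i → i = 2 := by decide
                exact h3 _ hgle
              exact Or.inl (hQs u ((g2 u).1 h2).2.2.le)
          have : (u, v) ∈ S3 := mem_filter.2 ⟨mem_univ _, hOA u hu v hv huv hO' hsm⟩
          exact mem_union_left _ (mem_union_left _ (mem_union_left _ (mem_union_left _ (mem_union_right _ this))))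
      · -- u in A, v in B
        have hv1 : g v = 1 := (g1 v).2 hv
        have hu2 : g u = 2 := by
          rcases gcase u with h | h | h
          · rw [h, hv1] at hgle
            exact absurd hgle (by decide)
          · exact absurd ((g1 u).1 h) (hnotB u hu)
          · exact h
        rcases hcol' with hR | hO'
        · have : (u, v) ∈ S4 := mem_filter.2 ⟨mem_univ _, hQs u ((g2 u).1 hu2).2.2.le,
            mem_filter.2 ⟨hv, huv, hR⟩⟩
          exact mem_union_left _ (mem_union_left _ (mem_union_left _ (mem_union_right _ this)))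
        · have : (u, v) ∈ S6 := by
            refine mem_filter.2 ⟨mem_product.2 ⟨hu, hv⟩, fun h => ?_⟩
            rw [rN, mem_filter] at h
            rcases h.2 with h2 | h2
            · rw [hO'] at h2
              exact absurd h2.2 (by decide)
            · exact absurd huv (not_lt.2 h2.1.le)
          exact mem_union_left _ (mem_union_right _ this)
      · -- u in B, v in A
        have hu1 : g u = 1 := (g1 u).2 hu
        have hv0 : g v = 0 := by
          rcases gcase v with h | h | h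
          · exact h
          · exact absurd ((g1 v).1 h) (hnotB v hv)
          · rw [h, hu1] at hgle
            exact absurd hgle (by decide)
        rcases hcol' with hR | hO'
        · have : (u, v) ∈ S5 := mem_filter.2 ⟨mem_univ _, hPs v ((g0 v hv0).2 hv),
            mem_filter.2 ⟨hu, huv, hR⟩⟩
          exact mem_union_left _ (mem_union_left _ (mem_union_right _ this))
        · have : (u, v) ∈ S7 := by
            refine mem_filter.2 ⟨mem_product.2 ⟨hu, hv⟩, fun h => ?_⟩
            rw [rN, mem_filter] at h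
            rcases h.2 with h2 | h2
            · rw [hO'] at h2
              exact absurd h2.2 (by decide)
            · exact absurd huv (not_lt.2 h2.1.le)
          exact mem_union_right _ this
      · -- both in B
        rcases hcol' with hR | hO'
        · exfalso
          exact hBB u hu v hv (mem_filter.2 ⟨mem_univ _, Or.inl ⟨huv, hR⟩⟩)
        · have : (u, v) ∈ S2 := by
            refine mem_filter.2 ⟨mem_product.2 ⟨hu, hv⟩, ?_⟩
            rw [cpairs, mem_filter]
            exact ⟨mem_univ _, huv, hO'⟩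
          exact mem_union_left _ (mem_union_left _ (mem_union_left _ (mem_union_left _ (mem_union_left _ (mem_union_right _ this)))))
    have hcard : (univ.filter fun p : Fin n × Fin n => (p ∈ cpairs c Col.R ∨ p ∈ cpairs c Col.O) ∧
        g p.2 ≤ g p.1).card ≤ S1.card + S2.card + S3.card + S4.card + S5.card + S6.card + S7.card := by
      refine (card_le_card hsub).trans ?_
      refine (card_union_le _ _).trans (Nat.add_le_add_right ?_ _)
      refine (card_union_le _ _).trans (Nat.add_le_add_right ?_ _)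
      refine (card_union_le _ _).trans (Nat.add_le_add_right ?_ _)
      refine (card_union_le _ _).trans (Nat.add_le_add_right ?_ _)
      refine (card_union_le _ _).trans (Nat.add_le_add_right ?_ _)
      exact card_union_le _ _
    have hcard' : ((univ.filter fun p : Fin n × Fin n =>
        (p ∈ cpairs c Col.R ∨ p ∈ cpairs c Col.O) ∧ g p.2 ≤ g p.1).card : ℝ) ≤
        S1.card + S2.card + S3.card + S4.card + S5.card + S6.card + S7.card := by
      exact_mod_cast hcard
    have hκn : (n : ℝ) * κ ≤ δ * (n : ℝ) ^ 2 := by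
      calc (n : ℝ) * κ ≤ n * (δ * n) := mul_le_mul_of_nonneg_left hκδ hn'.le
        _ = δ * (n : ℝ) ^ 2 := by ring
    have hn2 : (0 : ℝ) < (n : ℝ) ^ 2 := by positivity
    have hfin : (23 * e + 2 * δ) * (n : ℝ) ^ 2 ≤ ε1 * (n : ℝ) ^ 2 :=
      mul_le_mul_of_nonneg_right (by linarith) hn2.le
    linarith
  · set S1 := (univ : Finset (Fin n × Fin n)).filter fun p => p.1 ∈ D ∨ p.2 ∈ D with hS1
    set S3 := (univ : Finset (Fin n × Fin n)).filter fun p => p.1 ∈ W ∨ p.2 ∈ W with hS3
    have hsub : (univ.filter fun p : Fin n × Fin n => g p.1 = 0 ∧ g p.2 = 2 ∧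
        p ∉ cpairs c Col.O) ⊆ S1 ∪ S3 ∪ cpairs c Col.E := by
      rintro ⟨u, v⟩ hp
      rw [mem_filter] at hp
      obtain ⟨_, hu0, hv2, hnO⟩ := hp
      simp only at hu0 hv2
      obtain ⟨hvB, hvA, hvl⟩ := (g2 v).1 hv2
      obtain ⟨huB, hul⟩ := g0 u hu0
      by_cases hD' : u ∈ D ∨ v ∈ D
      · have : (u, v) ∈ S1 := mem_filter.2 ⟨mem_univ _, hD'⟩
        exact mem_union_left _ (mem_union_left _ this)
      by_cases hW' : u ∈ W ∨ v ∈ W
      · have : (u, v) ∈ S3 := mem_filter.2 ⟨mem_univ _, hW'⟩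
        exact mem_union_left _ (mem_union_right _ this)
      push Not at hD' hW'
      have huA : u ∈ A := by
        by_contra h
        refine hD'.1 (mem_sdiff.2 ⟨mem_univ _, fun h2 => ?_⟩)
        rcases mem_union.1 h2 with h3 | h3
        · exact h h3
        · exact huB h3
      have k1 := hWsmall u huA hW'.1
      have k2 := hWsmall v hvA hW'.2
      have k3 := hPs u (hul huA)
      have k4 := hQs v hvl.le
      have k5 : (B.card : ℝ) ≤ (WStab3_M c B u).card + (WStab3_P c B u).card +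
          (WStab3_Q c B u).card := by exact_mod_cast WStab3_split c B u
      have k6 : (B.card : ℝ) ≤ (WStab3_M c B v).card + (WStab3_P c B v).card +
          (WStab3_Q c B v).card := by exact_mod_cast WStab3_split c B v
      have k7 : (B.card : ℝ) < (WStab3_Q c B u).card + (WStab3_P c B v).card := by nlinarith
      have k8 : B.card < (WStab3_Q c B u).card + (WStab3_P c B v).card := by exact_mod_cast k7
      have k9 : ∃ m, m ∈ WStab3_Q c B u ∧ m ∈ WStab3_P c B v := by
        by_contra h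
        push Not at h
        have h2 : Disjoint (WStab3_Q c B u) (WStab3_P c B v) := Finset.disjoint_left.2 h
        have h3 := card_union_of_disjoint h2
        have h4 : WStab3_Q c B u ∪ WStab3_P c B v ⊆ B :=
          union_subset (filter_subset _ _) (filter_subset _ _)
        have h5 := card_le_card h4
        omega
      obtain ⟨m, hm1, hm2⟩ := k9
      rw [WStab3_Q, mem_filter] at hm1
      rw [WStab3_P, mem_filter] at hm2
      have k10 := hc u m v hm1.2.1 hm2.2.1 (Or.inl hm1.2.2) (Or.inl hm2.2.2)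
      have huv : u < v := hm1.2.1.trans hm2.2.1
      have : (u, v) ∈ cpairs c Col.E := by
        rw [cpairs, mem_filter]
        refine ⟨mem_univ _, huv, ?_⟩
        rcases k10 with h | h
        · exfalso
          apply hnO
          rw [cpairs, mem_filter]
          exact ⟨mem_univ _, huv, h⟩
        · exact h
      exact mem_union_right _ this
    have hcard : (univ.filter fun p : Fin n × Fin n => g p.1 = 0 ∧ g p.2 = 2 ∧
        p ∉ cpairs c Col.O).card ≤ S1.card + S3.card + (cpairs c Col.E).card := by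
      refine (card_le_card hsub).trans ?_
      refine (card_union_le _ _).trans (Nat.add_le_add_right ?_ _)
      exact card_union_le _ _
    have hcard' : ((univ.filter fun p : Fin n × Fin n => g p.1 = 0 ∧ g p.2 = 2 ∧
        p ∉ cpairs c Col.O).card : ℝ) ≤ S1.card + S3.card + (cpairs c Col.E).card := by
      exact_mod_cast hcard
    have hn2 : (0 : ℝ) < (n : ℝ) ^ 2 := by positivity
    have hfin : (21 * e) * (n : ℝ) ^ 2 ≤ ε1 * (n : ℝ) ^ 2 :=
      mul_le_mul_of_nonneg_right (by linarith) hn2.le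
    linarith

/-- **Stability**: combine the three steps (`e` small against `e0(ε1)`; if `A` is the side with few O-pairs exchange `A` and `B`, `rN` is symmetric). -/
theorem stab {ε1 : ℝ} (h1 : 0 < ε1) : ∃ e : ℝ, 0 < e ∧
    ∀ n : ℕ, 1 ≤ n → ∀ (c : Fin n × Fin n → Col), Closed c →
    ((cpairs c Col.E).card : ℝ) ≤ e * (n : ℝ) ^ 2 →
    (1 / 4 - e) * (n : ℝ) ^ 2 ≤ ((cpairs c Col.R).card : ℝ) →
    ∃ g : Fin n → Fin 3,
      |((univ.filter fun x => g x = 1).card : ℝ) - n / 2| ≤ ε1 * n ∧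
      ((univ.filter fun p : Fin n × Fin n => (p ∈ cpairs c Col.R ∨ p ∈ cpairs c Col.O) ∧
        g p.2 ≤ g p.1).card : ℝ) ≤ ε1 * (n : ℝ) ^ 2 ∧
      ((univ.filter fun p : Fin n × Fin n => g p.1 = 0 ∧ g p.2 = 2 ∧
        p ∉ cpairs c Col.O).card : ℝ) ≤ ε1 * (n : ℝ) ^ 2 := by
  obtain ⟨e0, he0, H⟩ := stab_three h1
  obtain ⟨t, ht0, ht1, ht2⟩ : ∃ t : ℝ, 0 < t ∧ t ≤ 1 / 10 ∧ 10 * t ≤ e0 := by
    refine ⟨min (1 / 10) (e0 / 10), lt_min (by norm_num) (by linarith), min_le_left _ _, ?_⟩
    have := min_le_right (1 / 10) (e0 / 10)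
    linarith
  have hr1 : √(t ^ 4) = t ^ 2 := by
    rw [show t ^ 4 = (t ^ 2) ^ 2 by ring]
    exact Real.sqrt_sq (by positivity)
  have hr2 : √(√(t ^ 4)) = t := by
    rw [hr1]
    exact Real.sqrt_sq ht0.le
  have ht2' : t ^ 2 ≤ t / 10 := by nlinarith
  have ht4 : t ^ 4 ≤ t ^ 2 / 100 := by
    have : t ^ 4 = t ^ 2 * t ^ 2 := by ring
    nlinarith [sq_nonneg t]
  refine ⟨t ^ 4, by positivity, ?_⟩
  intro n hn c hc hE hR
  have hn' : (0 : ℝ) < n := by exact_mod_cast hn
  have hn2 : (0 : ℝ) < (n : ℝ) ^ 2 := by positivity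
  have he1 : t ^ 4 ≤ 1 / 10000 := by nlinarith
  obtain ⟨A, B, hAB, hA, hB, hAA, hBB, hm⟩ :=
    stab_one (by positivity) (he1.trans (by norm_num)) c hc (by omega) hR
  have h2 := stab_two (by positivity) he1 c hc A B hAB hA hB hm
  rw [hr1] at hA hB
  rw [hr2] at h2
  have hE' : ((cpairs c Col.E).card : ℝ) ≤ e0 * (n : ℝ) ^ 2 :=
    hE.trans (mul_le_mul_of_nonneg_right (by nlinarith) hn2.le)
  have hA' : |(A.card : ℝ) - n / 2| ≤ e0 * n :=
    hA.trans (mul_le_mul_of_nonneg_right (by nlinarith) hn'.le)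
  have hB' : |(B.card : ℝ) - n / 2| ≤ e0 * n :=
    hB.trans (mul_le_mul_of_nonneg_right (by nlinarith) hn'.le)
  have hm' : (((A ×ˢ B).filter fun p => p.2 ∉ rN c p.1).card : ℝ) ≤ e0 * (n : ℝ) ^ 2 :=
    hm.trans (mul_le_mul_of_nonneg_right (by nlinarith) hn2.le)
  rcases h2 with h2 | h2
  · refine H e0 he0 le_rfl n hn c hc hE' B A hAB.symm hB' hA' hBB hAA ?_
      (h2.trans (mul_le_mul_of_nonneg_right ht2 hn2.le))
    rw [WStab3_swap]
    exact hm'
  · exact H e0 he0 le_rfl n hn c hc hE' A B hAB hA' hB' hAA hBB hm'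
      (h2.trans (mul_le_mul_of_nonneg_right ht2 hn2.le))

end Pool.Agent.H.MP_82502e_co
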