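import Pool.Agent.H.MP_82502e_co.Types

set_option autoImplicit false

/-!
# The window: R-neighbours
-/

namespace Pool.Agent.H.MP_82502e_co

open Finset

variable {n : ℕ}

/-- R-neighbours of `x` for a colouring `c`. -/
def rN (c : Fin n × Fin n → Col) (x : Fin n) : Finset (Fin n) :=
  univ.filter fun y => (x < y ∧ c (x, y) = Col.R) ∨ (y < x ∧ c (y, x) = Col.R)

end Pool.Agent.H.MP_82502e_co
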