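import Pool.Agent.H.MP_82502e_co.WGood

set_option autoImplicit false

/-!
# The window: the coarse structure is almost unique
-/

namespace Pool.Agent.H.MP_82502e_co

open Finset Real

variable {n : ℕ}

/-- The number of points with classes `i` and `j`. -/
noncomputable def WUniq_a (g g' : Fin n → Fin 3) (i j : Fin 3) : ℝ := ((cl g i ∩ cl g' j).card : ℝ)

theorem WUniq_a_nonneg (g g' : Fin n → Fin 3) (i j : Fin 3) : 0 ≤ WUniq_a g g' i j :=
  Nat.cast_nonneg _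

theorem WUniq_row (g g' : Fin n → Fin 3) (i : Fin 3) :
    ((cl g i).card : ℝ) = WUniq_a g g' i 0 + WUniq_a g g' i 1 + WUniq_a g g' i 2 := by
  have h := Finset.card_eq_sum_card_fiberwise (f := g') (s := cl g i) (t := univ)
    (fun x _ => mem_univ _)
  have h2 : ∀ j : Fin 3, ((cl g i).filter fun x => g' x = j) = cl g i ∩ cl g' j := by
    intro j
    ext x
    simp [cl]
  rw [Fin.sum_univ_three, h2, h2, h2] at h
  rw [h]
  push_cast
  rfl

theorem WUniq_symm (g g' : Fin n → Fin 3) (i j : Fin 3) : WUniq_a g g' i j = WUniq_a g' g j i := by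
  unfold WUniq_a
  rw [inter_comm]

theorem WUniq_tot (g : Fin n → Fin 3) :
    ((cl g 0).card : ℝ) + (cl g 1).card + (cl g 2).card = n := by
  have h := Finset.card_eq_sum_card_fiberwise (f := g) (s := (univ : Finset (Fin n))) (t := univ)
    (fun x _ => mem_univ _)
  rw [Fin.sum_univ_three, card_univ, Fintype.card_fin] at h
  have h2 : (n : ℝ) = ((cl g 0).card + (cl g 1).card + (cl g 2).card : ℕ) := congrArg _ h
  rw [h2]
  push_cast
  rfl

/-- The points where `g'` differs from `h`. -/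
theorem WUniq_ne (g' h : Fin n → Fin 3) :
    ((univ.filter fun x => g' x ≠ h x).card : ℝ) =
      n - ((univ.filter fun x => g' x = h x).card : ℝ) := by
  have h1 := Finset.card_filter_add_card_filter_not (s := (univ : Finset (Fin n)))
    (fun x => g' x = h x)
  rw [card_univ, Fintype.card_fin] at h1
  have h2 : ((univ.filter fun x => g' x = h x).card : ℝ) +
      ((univ.filter fun x => ¬ g' x = h x).card : ℝ) = n := by
    exact_mod_cast h1
  linarith

theorem WUniq_eq2 (g g' h : Fin n → Fin 3) (i j k l : Fin 3) (hik : i ≠ k)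
    (h1 : ∀ x, g x = i → h x = j) (h2 : ∀ x, g x = k → h x = l) :
    WUniq_a g g' i j + WUniq_a g g' k l ≤ ((univ.filter fun x => g' x = h x).card : ℝ) := by
  have hd : Disjoint (cl g i ∩ cl g' j) (cl g k ∩ cl g' l) := by
    rw [Finset.disjoint_left]
    intro x hx hx'
    simp only [cl, mem_inter, mem_filter, mem_univ, true_and] at hx hx'
    exact hik (hx.1.symm.trans hx'.1)
  have hc := card_union_of_disjoint hd
  have hsub : (cl g i ∩ cl g' j) ∪ (cl g k ∩ cl g' l) ⊆ univ.filter fun x => g' x = h x := by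
    intro x hx
    simp only [cl, mem_union, mem_inter, mem_filter, mem_univ, true_and] at hx ⊢
    rcases hx with ⟨hx1, hx2⟩ | ⟨hx1, hx2⟩
    · rw [hx2, h1 x hx1]
    · rw [hx2, h2 x hx1]
  have hle := card_le_card hsub
  rw [hc] at hle
  unfold WUniq_a
  exact_mod_cast hle

theorem WUniq_L1 {ν ε τ s : ℝ} {S : Finset (Fin n × Fin n)} {g g' : Fin n → Fin 3}
    (hε : 0 ≤ ε) (h : GoodP ν ε τ s S g) (h' : GoodP ν ε τ s S g') (i j : Fin 3) (hji : j ≤ i) :
    WUniq_a g g' 0 i < τ * ν ∨ WUniq_a g g' 1 j < τ * ν := by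
  by_contra hno
  push Not at hno
  have h1 := (h.c1 (cl g 0 ∩ cl g' i) inter_subset_left (cl g 1 ∩ cl g' j) inter_subset_left
    hno.1 hno.2).1
  have h2 : S ∩ (cl g 0 ∩ cl g' i) ×ˢ (cl g 1 ∩ cl g' j) ⊆ S.filter fun p => g' p.2 ≤ g' p.1 := by
    intro p hp
    simp only [cl, mem_inter, mem_product, mem_filter, mem_univ, true_and] at hp ⊢
    refine ⟨hp.1, ?_⟩
    rw [hp.2.1.2, hp.2.2.2]
    exact hji
  have h3 : ((S ∩ (cl g 0 ∩ cl g' i) ×ˢ (cl g 1 ∩ cl g' j)).card : ℝ) ≤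
      ((S.filter fun p => g' p.2 ≤ g' p.1).card : ℝ) := by exact_mod_cast card_le_card h2
  have h4 := h'.d1
  have h5 : 0 ≤ ε * ν ^ 2 := mul_nonneg hε (sq_nonneg ν)
  linarith

theorem WUniq_L2 {ν ε τ s : ℝ} {S : Finset (Fin n × Fin n)} {g g' : Fin n → Fin 3}
    (hε : 0 ≤ ε) (h : GoodP ν ε τ s S g) (h' : GoodP ν ε τ s S g') (i j : Fin 3) (hij : i ≤ j) :
    WUniq_a g g' 2 i < τ * ν ∨ WUniq_a g g' 1 j < τ * ν := by
  by_contra hno
  push Not at hno
  have h1 := (h.c2 (cl g 2 ∩ cl g' i) inter_subset_left (cl g 1 ∩ cl g' j) inter_subset_left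
    hno.1 hno.2).1
  have h2 : S ∩ (cl g 1 ∩ cl g' j) ×ˢ (cl g 2 ∩ cl g' i) ⊆ S.filter fun p => g' p.2 ≤ g' p.1 := by
    intro p hp
    simp only [cl, mem_inter, mem_product, mem_filter, mem_univ, true_and] at hp ⊢
    refine ⟨hp.1, ?_⟩
    rw [hp.2.1.2, hp.2.2.2]
    exact hij
  have h3 : ((S ∩ (cl g 1 ∩ cl g' j) ×ˢ (cl g 2 ∩ cl g' i)).card : ℝ) ≤
      ((S.filter fun p => g' p.2 ≤ g' p.1).card : ℝ) := by exact_mod_cast card_le_card h2
  have h4 := h'.d1
  have h5 : 0 ≤ ε * ν ^ 2 := mul_nonneg hε (sq_nonneg ν)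
  linarith

theorem WUniq_L3 {ν ε τ s : ℝ} {S : Finset (Fin n × Fin n)} {g g' : Fin n → Fin 3}
    (hτ : 0 < τ) (hν : 0 < ν) (hετ : ε ≤ τ ^ 2 / 100) (h : GoodP ν ε τ s S g)
    (h' : GoodP ν ε τ s S g') (i j : Fin 3) (hji : j ≤ i) :
    WUniq_a g g' 0 i < τ * ν ∨ WUniq_a g g' 2 j < τ * ν := by
  by_contra hno
  push Not at hno
  have h2 : (cl g 0 ∩ cl g' i) ×ˢ (cl g 2 ∩ cl g' j) ⊆
      ((cl g 0 ×ˢ cl g 2) \ S) ∪ S.filter fun p => g' p.2 ≤ g' p.1 := by
    intro p hp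
    simp only [cl, mem_inter, mem_product, mem_filter, mem_univ, true_and, mem_union,
      mem_sdiff] at hp ⊢
    by_cases hS : p ∈ S
    · right
      refine ⟨hS, ?_⟩
      rw [hp.1.2, hp.2.2]
      exact hji
    · left
      exact ⟨⟨hp.1.1, hp.2.1⟩, hS⟩
  have h3 := (card_le_card h2).trans (card_union_le _ _)
  rw [card_product] at h3
  have h4 : WUniq_a g g' 0 i * WUniq_a g g' 2 j ≤
      (((cl g 0 ×ˢ cl g 2) \ S).card : ℝ) + ((S.filter fun p => g' p.2 ≤ g' p.1).card : ℝ) := by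
    unfold WUniq_a
    exact_mod_cast h3
  have h5 := h.d2
  have h6 := h'.d1
  have h7 : (τ * ν) * (τ * ν) ≤ WUniq_a g g' 0 i * WUniq_a g g' 2 j :=
    mul_le_mul hno.1 hno.2 (mul_pos hτ hν).le (WUniq_a_nonneg _ _ _ _)
  have h8 : ε * ν ^ 2 ≤ τ ^ 2 / 100 * ν ^ 2 := mul_le_mul_of_nonneg_right hετ (sq_nonneg ν)
  have h9 : 0 < τ ^ 2 * ν ^ 2 := by positivity
  nlinarith

/-- **Almost uniqueness.** (`ν - 2 ≤ n ≤ ν`.) Let `X,M,Y` and `X',M',Y'` be the classes of `g`, `g'`.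
Claim: `|M' ∩ M| ≥ τν` and `|M' ∩ X| ≥ τν` cannot both hold (by `c1` for `g` there are `> 3εν²` relations from `M' ∩ X` to `M' ∩ M`, all counted in `d1` for `g'`); same with `Y`.
Case 1: `|M' ∩ X|, |M' ∩ Y| < τν`. Then `|M' \ M| < 2τν` and (sizes) `|M \ M'| ≤ 5τν` (`n` large), so `|M ∩ M'| ≥ τν`; `|X ∩ Y'| < τν` (`c1` for `g`: relations from `X ∩ Y'` to `M ∩ M'` are
counted in `d1` for `g'`), `|Y ∩ X'| < τν` (`c2`). So `g' = g` except at `12τν` points.
Case 2: `|M' ∩ M| < τν`. `|M' ∩ X|, |M' ∩ Y| ≥ τν` cannot both hold: `X × Y` misses at most `εν²` pairs, the others are relations inside `M'` (`τ² > 2ε`). If `|M' ∩ Y| < τν`: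
`|M' ∩ X| ≥ (1/2 - 4τ)ν`, so `|Y| + |X \ M'| ≤ 6τν`, and `|M ∩ X'| < τν` (`c1`: relations from `X ∩ M'` to `M ∩ X'` are counted in `d1` for `g'`), `|M ∩ M'| < τν`: `g' = gup g` except at `12τν`
points. If `|M' ∩ X| < τν`: dually `g' = gdn g`. -/
theorem uniq {τ : ℝ} (hτ : 0 < τ) (hτ1 : τ ≤ 1 / 100) {ε : ℝ} (hε : 0 < ε)
    (hετ : ε ≤ τ ^ 2 / 100) : ∃ ν0 : ℝ, 0 < ν0 ∧ ∀ ν : ℝ, ν0 ≤ ν → ∀ n : ℕ, ν - 2 ≤ n →
    (n : ℝ) ≤ ν → ∀ (S : Finset (Fin n × Fin n)) (g g' : Fin n → Fin 3),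
    GoodP ν ε τ 2 S g → GoodP ν ε τ 2 S g' →
    ∃ h : Fin n → Fin 3, (h = g ∨ h = gup g ∨ h = gdn g) ∧
      ((univ.filter fun x => g' x ≠ h x).card : ℝ) ≤ 12 * τ * ν := by
  refine ⟨4 / τ, by positivity, ?_⟩
  intro ν hν n hn1 hn2 S g g' hg hg'
  have hν0 : 0 < ν := lt_of_lt_of_le (by positivity) hν
  have hr4 : 4 ≤ τ * ν := by
    have := (div_le_iff₀ hτ).mp hν
    linarith
  have hr : τ * ν ≤ ν / 100 := by
    have := mul_le_mul_of_nonneg_right hτ1 hν0.le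
    linarith
  set r := τ * ν with hrdef
  have hL1 := fun i j hji => WUniq_L1 hε.le hg hg' i j hji
  have hL2 := fun i j hij => WUniq_L2 hε.le hg hg' i j hij
  have hL3 := fun i j hji => WUniq_L3 hτ hν0 hετ hg hg' i j hji
  have hrow1 := WUniq_row g g' 1
  have hcol1 := WUniq_row g' g 1
  rw [← WUniq_symm g g' 0 1, ← WUniq_symm g g' 1 1, ← WUniq_symm g g' 2 1] at hcol1
  have hm := abs_le.mp hg.mid
  have hm' := abs_le.mp hg'.mid
  rw [hrow1] at hm
  rw [hcol1] at hm'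
  rw [← hrdef] at hm hm' hL1 hL2 hL3
  have hnn := WUniq_a_nonneg g g'
  by_cases h11 : r ≤ WUniq_a g g' 1 1
  · -- g' is near g
    have a01 : WUniq_a g g' 0 1 < r := (hL1 1 1 le_rfl).resolve_right (not_lt.mpr h11)
    have a21 : WUniq_a g g' 2 1 < r := (hL2 1 1 le_rfl).resolve_right (not_lt.mpr h11)
    have a02 : WUniq_a g g' 0 2 < r := (hL1 2 1 (by decide)).resolve_right (not_lt.mpr h11)
    have a20 : WUniq_a g g' 2 0 < r := (hL2 0 1 (by decide)).resolve_right (not_lt.mpr h11)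
    refine ⟨g, Or.inl rfl, ?_⟩
    have hrow0 := WUniq_row g g' 0
    have hrow2 := WUniq_row g g' 2
    have htot := WUniq_tot g
    have hd : Disjoint (cl g 0 ∩ cl g' 0) ((cl g 1 ∩ cl g' 1) ∪ (cl g 2 ∩ cl g' 2)) := by
      rw [Finset.disjoint_left]
      intro x hx hx'
      simp only [cl, mem_union, mem_inter, mem_filter, mem_univ, true_and] at hx hx'
      rcases hx' with ⟨h1, -⟩ | ⟨h1, -⟩ <;> rw [hx.1] at h1 <;> revert h1 <;> decide
    have hd2 : Disjoint (cl g 1 ∩ cl g' 1) (cl g 2 ∩ cl g' 2) := by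
      rw [Finset.disjoint_left]
      intro x hx hx'
      simp only [cl, mem_inter, mem_filter, mem_univ, true_and] at hx hx'
      have h1 := hx'.1
      rw [hx.1] at h1
      revert h1
      decide
    have hsub : (cl g 0 ∩ cl g' 0) ∪ ((cl g 1 ∩ cl g' 1) ∪ (cl g 2 ∩ cl g' 2)) ⊆
        univ.filter fun x => g' x = g x := by
      intro x hx
      simp only [cl, mem_union, mem_inter, mem_filter, mem_univ, true_and] at hx ⊢
      rcases hx with ⟨h1, h2⟩ | ⟨h1, h2⟩ | ⟨h1, h2⟩ <;> rw [h1, h2]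
    have hle := card_le_card hsub
    rw [card_union_of_disjoint hd, card_union_of_disjoint hd2] at hle
    have hle' : WUniq_a g g' 0 0 + (WUniq_a g g' 1 1 + WUniq_a g g' 2 2) ≤
        ((univ.filter fun x => g' x = g x).card : ℝ) := by
      unfold WUniq_a
      exact_mod_cast hle
    rw [WUniq_ne]
    have e : 12 * τ * ν = 12 * r := by rw [hrdef]; ring
    rw [e]
    linarith [hm.1, hm.2, hm'.1, hm'.2]
  · push Not at h11
    rcases hL3 1 1 le_rfl with a01 | a21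
    · -- g' is near gdn g
      have a21 : r ≤ WUniq_a g g' 2 1 := by linarith [hm'.1]
      have a12 : WUniq_a g g' 1 2 < r := (hL2 1 2 (by decide)).resolve_left (not_lt.mpr a21)
      refine ⟨gdn g, Or.inr (Or.inr rfl), ?_⟩
      have h2 := WUniq_eq2 g g' (gdn g) 2 1 1 0 (by decide)
        (fun x hx => by simp [gdn, hx]) (fun x hx => by simp [gdn, hx])
      rw [WUniq_ne]
      have e : 12 * τ * ν = 12 * r := by rw [hrdef]; ring
      rw [e]
      linarith [hm.1, hm.2, hm'.1, hm'.2]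
    · -- g' is near gup g
      have a01 : r ≤ WUniq_a g g' 0 1 := by linarith [hm'.1]
      have a10 : WUniq_a g g' 1 0 < r := (hL1 1 0 (by decide)).resolve_left (not_lt.mpr a01)
      refine ⟨gup g, Or.inr (Or.inl rfl), ?_⟩
      have h2 := WUniq_eq2 g g' (gup g) 0 1 1 2 (by decide)
        (fun x hx => by simp [gup, hx]) (fun x hx => by simp [gup, hx])
      rw [WUniq_ne]
      have e : 12 * τ * ν = 12 * r := by rw [hrdef]; ring
      rw [e]
      linarith [hm.1, hm.2, hm'.1, hm'.2]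

end Pool.Agent.H.MP_82502e_co
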